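import Pool.Agent.TriDil.Defs3
set_option autoImplicit false
open MeasureTheory Complex Set
namespace TriDil
open scoped ComplexConjugate

/-! ## squares -/

/-- membership in a square in terms of the two coordinates -/
theorem D0_mem (n : ℤ) (c : ℤ × ℤ) (x : ℂ) : x ∈ Sq n c ↔
    (x.re ∈ Ico ((c.1 : ℝ) * 2 ^ n) (((c.1 : ℝ) + 1) * 2 ^ n)) ∧
      x.im ∈ Ico ((c.2 : ℝ) * 2 ^ n) (((c.2 : ℝ) + 1) * 2 ^ n) := by
  have hd : (0 : ℝ) < 2 ^ n := by positivity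
  unfold Sq cell
  rw [mem_ofPred_eq, Prod.ext_iff]
  simp only [Int.floor_eq_iff, mem_Ico, le_div_iff₀ hd, div_lt_iff₀ hd]

/-- rectangles -/
def D0_rect (s t : Set ℝ) : Set ℂ := {x | x.re ∈ s ∧ x.im ∈ t}

theorem D0_rect_meas {s t : Set ℝ} (hs : MeasurableSet s) (ht : MeasurableSet t) :
    MeasurableSet (D0_rect s t) :=
  (measurable_re hs).inter (measurable_im ht)

theorem D0_rect_vol {s t : Set ℝ} (hs : MeasurableSet s) (ht : MeasurableSet t) :
    volume (D0_rect s t) = volume s * volume t := by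
  have h : D0_rect s t = Complex.measurableEquivRealProd ⁻¹' (s ×ˢ t) := by
    ext x
    simp [D0_rect, Complex.measurableEquivRealProd]
  rw [h, Complex.volume_preserving_equiv_real_prod.measure_preimage
    (hs.prod ht).nullMeasurableSet, Measure.volume_eq_prod, Measure.prod_prod]

theorem D0_Sq_rect (n : ℤ) (c : ℤ × ℤ) : Sq n c =
    D0_rect (Ico ((c.1 : ℝ) * 2 ^ n) (((c.1 : ℝ) + 1) * 2 ^ n))
      (Ico ((c.2 : ℝ) * 2 ^ n) (((c.2 : ℝ) + 1) * 2 ^ n)) := by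
  ext x
  exact D0_mem n c x

theorem Sq_meas (n : ℤ) (c : ℤ × ℤ) : MeasurableSet (Sq n c) := by
  rw [D0_Sq_rect]
  exact D0_rect_meas measurableSet_Ico measurableSet_Ico

theorem D0_Sq_volume (n : ℤ) (c : ℤ × ℤ) :
    volume (Sq n c) = ENNReal.ofReal ((2 : ℝ) ^ n) * ENNReal.ofReal ((2 : ℝ) ^ n) := by
  rw [D0_Sq_rect, D0_rect_vol measurableSet_Ico measurableSet_Ico, Real.volume_Ico,
    Real.volume_Ico]
  congr 2 <;> ring

theorem Sq_vol (n : ℤ) (c : ℤ × ℤ) : volume.real (Sq n c) = ((2 : ℝ) ^ n) ^ 2 := by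
  have hd : (0 : ℝ) ≤ 2 ^ n := by positivity
  rw [Measure.real, D0_Sq_volume, ENNReal.toReal_mul, ENNReal.toReal_ofReal hd, sq]

theorem Sq_fin (n : ℤ) (c : ℤ × ℤ) : volume (Sq n c) < ⊤ := by
  rw [D0_Sq_volume]
  exact ENNReal.mul_lt_top ENNReal.ofReal_lt_top ENNReal.ofReal_lt_top

theorem D0_pow (n N : ℤ) (h : n ≤ N) : (2 : ℝ) ^ N = 2 ^ (N - n).toNat * 2 ^ n := by
  have h1 : ((N - n).toNat : ℤ) = N - n := Int.toNat_of_nonneg (by omega)
  rw [← zpow_natCast, h1, ← zpow_add₀ (by norm_num : (2 : ℝ) ≠ 0)]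
  congr 1
  ring

theorem D0_floor (n N : ℤ) (h : n ≤ N) (c : ℤ) (t : ℝ) :
    ⌊t / (2 : ℝ) ^ N⌋ = c ↔ ⌊t / (2 : ℝ) ^ n⌋ ∈
      Finset.Ico (c * 2 ^ (N - n).toNat) ((c + 1) * 2 ^ (N - n).toNat) := by
  have hd : (0 : ℝ) < 2 ^ n := by positivity
  have hD : (0 : ℝ) < 2 ^ N := by positivity
  rw [Int.floor_eq_iff, Finset.mem_Ico, Int.le_floor, Int.floor_lt, le_div_iff₀ hD,
    div_lt_iff₀ hD, le_div_iff₀ hd, div_lt_iff₀ hd, D0_pow n N h]
  push_cast
  simp only [mul_assoc]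

theorem mem_subs (n N : ℤ) (h : n ≤ N) (c : ℤ × ℤ) (x : ℂ) :
    x ∈ Sq N c ↔ cell ((2 : ℝ) ^ n) x ∈ subs n N c := by
  unfold Sq cell subs
  rw [mem_ofPred_eq, Prod.ext_iff, Finset.mem_product, D0_floor n N h, D0_floor n N h]

theorem Sq_sub (n N : ℤ) (h : n ≤ N) (c c' : ℤ × ℤ) (hc : c' ∈ subs n N c) : Sq n c' ⊆ Sq N c := by
  intro x hx
  rw [mem_subs n N h]
  have : cell ((2 : ℝ) ^ n) x = c' := hx
  rw [this]
  exact hc

theorem subs_card (n N : ℤ) (h : n ≤ N) (c : ℤ × ℤ) :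
    ((subs n N c).card : ℝ) * ((2 : ℝ) ^ n) ^ 2 = ((2 : ℝ) ^ N) ^ 2 := by
  have h1 : (subs n N c).card = 2 ^ (N - n).toNat * 2 ^ (N - n).toNat := by
    unfold subs
    rw [Finset.card_product, Int.card_Ico, Int.card_Ico]
    have e : ∀ a : ℤ, ((a + 1) * 2 ^ (N - n).toNat - a * 2 ^ (N - n).toNat).toNat =
        2 ^ (N - n).toNat := by
      intro a
      have : (a + 1) * 2 ^ (N - n).toNat - a * 2 ^ (N - n).toNat =
          ((2 ^ (N - n).toNat : ℕ) : ℤ) := by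
        push_cast
        ring
      rw [this, Int.toNat_natCast]
    rw [e, e]
  rw [h1, D0_pow n N h]
  push_cast
  ring

theorem D0_union (n N : ℤ) (h : n ≤ N) (c : ℤ × ℤ) :
    Sq N c = ⋃ c' ∈ subs n N c, Sq n c' := by
  ext x
  rw [mem_subs n N h]
  simp only [mem_iUnion, exists_prop]
  constructor
  · intro hx
    exact ⟨_, hx, rfl⟩
  · rintro ⟨c', h1, h2⟩
    have : cell ((2 : ℝ) ^ n) x = c' := h2
    rw [this]
    exact h1

theorem D0_disj (n : ℤ) (s : Set (ℤ × ℤ)) : s.Pairwise (Function.onFun Disjoint (Sq n)) := by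
  intro c _ c' _ hne
  rw [Function.onFun, Set.disjoint_left]
  intro x h1 h2
  exact hne (h1.symm.trans h2)

/-- integrals over a square split over its subsquares -/
theorem integral_subs (n N : ℤ) (h : n ≤ N) (c : ℤ × ℤ) (F : ℂ → ℝ) (hF : IntegrableOn F (Sq N c)) :
    ∫ x in Sq N c, F x = ∑ c' ∈ subs n N c, ∫ x in Sq n c', F x := by
  conv_lhs => rw [D0_union n N h c]
  rw [integral_biUnion_finset]
  · intro c' _
    exact Sq_meas n c'
  · exact D0_disj n _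
  · intro c' hc'
    exact hF.mono_set (Sq_sub n N h c c' hc')

/-- the same for measures of subsets -/
theorem vol_subs (n N : ℤ) (h : n ≤ N) (c : ℤ × ℤ) (E : Set ℂ) (hE : MeasurableSet E) :
    volume.real {x | x ∈ Sq N c ∧ x ∈ E} = ∑ c' ∈ subs n N c, volume.real {x | x ∈ Sq n c' ∧ x ∈ E} := by
  have h1 : {x | x ∈ Sq N c ∧ x ∈ E} = ⋃ c' ∈ subs n N c, {x | x ∈ Sq n c' ∧ x ∈ E} := by
    have h2 := D0_union n N h c
    ext x
    simp only [mem_ofPred_eq, mem_iUnion, exists_prop]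
    rw [h2]
    simp only [mem_iUnion, exists_prop]
    tauto
  have g1 : (subs n N c : Set (ℤ × ℤ)).PairwiseDisjoint fun c' => {x | x ∈ Sq n c' ∧ x ∈ E} := by
    intro c' hc' c'' hc'' hne
    exact (D0_disj n (subs n N c : Set (ℤ × ℤ)) hc' hc'' hne).mono (fun x hx => hx.1)
      (fun x hx => hx.1)
  rw [h1, measureReal_biUnion_finset g1 (fun c' _ => (Sq_meas n c').inter hE)
    (fun c' _ => (lt_of_le_of_lt (measure_mono fun x hx => hx.1) (Sq_fin n c')).ne)]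

/-- one-dimensional shift -/
theorem D0_shift1 (a b s : ℝ) : ∃ J : Set ℝ, MeasurableSet J ∧ volume J ≤ ENNReal.ofReal |s| ∧
    ∀ t, t ∈ Ico a b → t + s ∉ Ico a b → t ∈ J := by
  rcases le_total 0 s with hs | hs
  · refine ⟨Ico (b - s) b, measurableSet_Ico, ?_, ?_⟩
    · rw [Real.volume_Ico, abs_of_nonneg hs]
      apply le_of_eq
      congr 1
      ring
    · intro t ht hn
      refine ⟨?_, ht.2⟩
      by_contra hlt
      exact hn ⟨by linarith [ht.1], by linarith⟩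
  · refine ⟨Ico a (a - s), measurableSet_Ico, ?_, ?_⟩
    · rw [Real.volume_Ico, abs_of_nonpos hs]
      apply le_of_eq
      congr 1
      ring
    · intro t ht hn
      refine ⟨ht.1, ?_⟩
      by_contra hlt
      exact hn ⟨by linarith, by linarith [ht.2]⟩

theorem D0_shiftE (n : ℤ) (c : ℤ × ℤ) (v : ℂ) :
    volume {x | x ∈ Sq n c ∧ x + v ∉ Sq n c} ≤ ENNReal.ofReal (2 * ‖v‖ * (2 : ℝ) ^ n) := by
  have hd : (0 : ℝ) ≤ 2 ^ n := by positivity
  obtain ⟨J1, m1, v1, p1⟩ := D0_shift1 ((c.1 : ℝ) * 2 ^ n) (((c.1 : ℝ) + 1) * 2 ^ n) v.re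
  obtain ⟨J2, m2, v2, p2⟩ := D0_shift1 ((c.2 : ℝ) * 2 ^ n) (((c.2 : ℝ) + 1) * 2 ^ n) v.im
  have hsub : {x | x ∈ Sq n c ∧ x + v ∉ Sq n c} ⊆
      D0_rect J1 (Ico ((c.2 : ℝ) * 2 ^ n) (((c.2 : ℝ) + 1) * 2 ^ n)) ∪
      D0_rect (Ico ((c.1 : ℝ) * 2 ^ n) (((c.1 : ℝ) + 1) * 2 ^ n)) J2 := by
    rintro x ⟨h1, h2⟩
    rw [D0_mem] at h1 h2
    rw [Complex.add_re, Complex.add_im] at h2
    by_cases h3 : x.re + v.re ∈ Ico ((c.1 : ℝ) * 2 ^ n) (((c.1 : ℝ) + 1) * 2 ^ n)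
    · right
      exact ⟨h1.1, p2 _ h1.2 fun h4 => h2 ⟨h3, h4⟩⟩
    · left
      exact ⟨p1 _ h1.1 h3, h1.2⟩
  have e1 : (((c.1 : ℝ) + 1) * 2 ^ n) - ((c.1 : ℝ) * 2 ^ n) = 2 ^ n := by ring
  have e2 : (((c.2 : ℝ) + 1) * 2 ^ n) - ((c.2 : ℝ) * 2 ^ n) = 2 ^ n := by ring
  calc volume {x | x ∈ Sq n c ∧ x + v ∉ Sq n c} ≤ _ := measure_mono hsub
    _ ≤ _ := measure_union_le _ _
    _ = volume J1 * ENNReal.ofReal (2 ^ n) + ENNReal.ofReal (2 ^ n) * volume J2 := by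
        rw [D0_rect_vol m1 measurableSet_Ico, D0_rect_vol measurableSet_Ico m2,
          Real.volume_Ico, Real.volume_Ico, e1, e2]
    _ ≤ ENNReal.ofReal |v.re| * ENNReal.ofReal (2 ^ n) +
          ENNReal.ofReal (2 ^ n) * ENNReal.ofReal |v.im| := by gcongr
    _ = ENNReal.ofReal (|v.re| * 2 ^ n + 2 ^ n * |v.im|) := by
        rw [← ENNReal.ofReal_mul (abs_nonneg _), ← ENNReal.ofReal_mul hd,
          ← ENNReal.ofReal_add (by positivity) (by positivity)]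
    _ ≤ ENNReal.ofReal (2 * ‖v‖ * (2 : ℝ) ^ n) := by
        apply ENNReal.ofReal_le_ofReal
        have h1 := Complex.abs_re_le_norm v
        have h2 := Complex.abs_im_le_norm v
        nlinarith

/-- few points leave a square under a small translation -/
theorem Sq_shift (n : ℤ) (c : ℤ × ℤ) (v : ℂ) :
    volume.real {x | x ∈ Sq n c ∧ x + v ∉ Sq n c} ≤ 2 * ‖v‖ * (2 : ℝ) ^ n ∧
    volume.real {x | x ∉ Sq n c ∧ x - v ∈ Sq n c} ≤ 2 * ‖v‖ * (2 : ℝ) ^ n := by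
  have h0 : 0 ≤ 2 * ‖v‖ * (2 : ℝ) ^ n := by positivity
  have hE := D0_shiftE n c v
  constructor
  · rw [Measure.real]
    exact ENNReal.toReal_le_of_le_ofReal h0 hE
  · have hm : MeasurableSet {x | x ∈ Sq n c ∧ x + v ∉ Sq n c} :=
      (Sq_meas n c).inter ((measurable_add_const v) (Sq_meas n c)).compl
    have h1 : {x | x ∉ Sq n c ∧ x - v ∈ Sq n c} =
        (fun x => x - v) ⁻¹' {x | x ∈ Sq n c ∧ x + v ∉ Sq n c} := by
      ext x
      simp only [mem_ofPred_eq, mem_preimage, sub_add_cancel]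
      tauto
    rw [Measure.real, h1, (measurePreserving_sub_right volume v).measure_preimage
      hm.nullMeasurableSet]
    exact ENNReal.toReal_le_of_le_ofReal h0 hE

theorem D0_cell (d : ℝ) : Measurable (cell d) := by
  unfold cell
  exact (Int.measurable_floor.comp (measurable_re.div_const d)).prodMk
    (Int.measurable_floor.comp (measurable_im.div_const d))

theorem measurable_lab (n : ℤ) (K : ℕ) (Ξ : ℤ × ℤ → ℕ → ℂ) : Measurable (lab n K Ξ) := by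
  unfold lab
  refine (D0_cell _).prodMk (measurable_pi_lambda _ fun k => ?_)
  apply Int.measurable_floor.comp
  apply Measurable.const_mul
  apply measurable_fract.comp
  have hX : Measurable fun x : ℂ => Ξ (cell ((2 : ℝ) ^ n) x) k :=
    (Measurable.of_discrete (f := fun c : ℤ × ℤ => Ξ c k)).comp (D0_cell _)
  unfold ip
  exact ((measurable_re.comp hX).mul measurable_re).add ((measurable_im.comp hX).mul measurable_im)

end TriDil
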