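import Pool.Agent.TriDil.Defs3
set_option autoImplicit false
open MeasureTheory Complex Set
namespace TriDil
open ComplexConjugate

/-! ## the Bessel function J_0 -/
theorem J0_pos : ∃ c1 : ℝ, 0 < c1 ∧ ∀ t : ℝ, |t| ≤ c1 →
    0 ≤ ∫ θ in (0 : ℝ)..(2 * Real.pi), Real.cos (2 * Real.pi * t * Real.cos θ) := by
  refine ⟨1 / 4, by norm_num, fun t ht => ?_⟩
  apply intervalIntegral.integral_nonneg (by positivity)
  intro θ _
  have hpi := Real.pi_pos
  have h1 : |2 * Real.pi * t * Real.cos θ| ≤ Real.pi / 2 := by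
    rw [abs_mul, abs_mul, abs_of_pos (by positivity : (0:ℝ) < 2 * Real.pi)]
    have h2 := Real.abs_cos_le_one θ
    have h3 : |t| * |Real.cos θ| ≤ 1 / 4 * 1 :=
      mul_le_mul ht h2 (abs_nonneg _) (by norm_num)
    nlinarith
  rw [abs_le] at h1
  exact Real.cos_nonneg_of_neg_pi_div_two_le_of_le (by linarith [h1.1]) h1.2

open FourierTransform in
theorem D1_change (w : ℝ) :
    ∫ v : ℝ, 𝐞 (-(v * w)) • (((Ioo (-1 : ℝ) 1).indicator (fun v => (Real.sqrt (1 - v ^ 2))⁻¹) v : ℝ) : ℂ)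
      = ∫ θ in Ioo (0 : ℝ) Real.pi, Complex.exp (-(2 * Real.pi * (w * Real.cos θ) : ℝ) * I) := by
  have himg : Real.cos '' Ioo 0 Real.pi = Ioo (-1) 1 := by
    apply Subset.antisymm
    · rintro _ ⟨θ, hθ, rfl⟩
      exact Real.mapsTo_cos_Ioo hθ
    · intro v hv
      refine ⟨Real.arccos v, ⟨Real.arccos_pos.2 hv.2, ?_⟩, Real.cos_arccos hv.1.le hv.2.le⟩
      exact Real.arccos_lt_pi.2 hv.1
  have h1 : (fun v : ℝ => 𝐞 (-(v * w)) •
      (((Ioo (-1 : ℝ) 1).indicator (fun v => (Real.sqrt (1 - v ^ 2))⁻¹) v : ℝ) : ℂ)) =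
      (Ioo (-1 : ℝ) 1).indicator (fun v : ℝ =>
        Complex.exp (-(2 * Real.pi * (w * v) : ℝ) * I) * (((Real.sqrt (1 - v ^ 2))⁻¹ : ℝ) : ℂ)) := by
    funext v
    by_cases hv : v ∈ Ioo (-1 : ℝ) 1
    · rw [indicator_of_mem hv, indicator_of_mem hv, Circle.smul_def, smul_eq_mul,
        Real.fourierChar_apply]
      congr 2
      push_cast
      ring
    · rw [indicator_of_notMem hv, indicator_of_notMem hv]
      simp
  rw [h1, integral_indicator measurableSet_Ioo, ← himg,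
    integral_image_eq_integral_abs_deriv_smul measurableSet_Ioo
      (fun x _ => (Real.hasDerivAt_cos x).hasDerivWithinAt)
      (Real.injOn_cos.mono Ioo_subset_Icc_self)]
  apply setIntegral_congr_fun measurableSet_Ioo
  intro θ hθ
  have hs : 0 < Real.sin θ := Real.sin_pos_of_mem_Ioo hθ
  have h2 : Real.sqrt (1 - Real.cos θ ^ 2) = Real.sin θ := by
    rw [← Real.sin_sq, Real.sqrt_sq hs.le]
  simp only
  rw [h2, abs_neg, abs_of_pos hs, real_smul, mul_left_comm, ← ofReal_mul, mul_inv_cancel₀ hs.ne',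
    ofReal_one, mul_one]

theorem D1_half (t : ℝ) :
    ∫ θ in (0 : ℝ)..(2 * Real.pi), Real.cos (2 * Real.pi * t * Real.cos θ) =
      2 * (∫ θ in Ioo (0 : ℝ) Real.pi,
        Complex.exp (-(2 * Real.pi * (t * Real.cos θ) : ℝ) * I)).re := by
  have hpi := Real.pi_pos
  have hc : Continuous (fun θ : ℝ => Real.cos (2 * Real.pi * t * Real.cos θ)) := by fun_prop
  have h1 : ∫ θ in Real.pi..(2 * Real.pi), Real.cos (2 * Real.pi * t * Real.cos θ) =
      ∫ θ in (0 : ℝ)..Real.pi, Real.cos (2 * Real.pi * t * Real.cos θ) := by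
    have h2 := intervalIntegral.integral_comp_sub_left (a := 0) (b := Real.pi)
      (fun θ : ℝ => Real.cos (2 * Real.pi * t * Real.cos θ)) (2 * Real.pi)
    have e1 : 2 * Real.pi - Real.pi = Real.pi := by ring
    rw [e1, sub_zero] at h2
    rw [← h2]
    congr 1
    funext θ
    rw [Real.cos_two_pi_sub]
  rw [← intervalIntegral.integral_add_adjacent_intervals (hc.intervalIntegrable 0 Real.pi)
    (hc.intervalIntegrable Real.pi (2 * Real.pi)), h1, ← two_mul]
  congr 1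
  rw [intervalIntegral.integral_of_le hpi.le, ← integral_Ioc_eq_integral_Ioo]
  have hint : IntegrableOn (fun θ : ℝ =>
      Complex.exp (-(2 * Real.pi * (t * Real.cos θ) : ℝ) * I)) (Ioc 0 Real.pi) volume := by
    have hc2 : Continuous (fun θ : ℝ =>
      Complex.exp (-(2 * Real.pi * (t * Real.cos θ) : ℝ) * I)) := by fun_prop
    exact (hc2.integrableOn_Icc (a := 0) (b := Real.pi)).mono_set Ioc_subset_Icc_self
  rw [← RCLike.re_eq_complex_re, ← integral_re hint]
  apply setIntegral_congr_fun measurableSet_Ioc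
  intro θ _
  simp only [RCLike.re_eq_complex_re]
  have e2 : (-((2 * Real.pi * (t * Real.cos θ) : ℝ) : ℂ)) * I =
      ((-(2 * Real.pi * (t * Real.cos θ)) : ℝ) : ℂ) * I := by push_cast; ring
  rw [e2, Complex.exp_ofReal_mul_I_re, Real.cos_neg]
  congr 1
  ring

theorem J0_small (ν0 : ℝ) (h : 0 < ν0) : ∃ C : ℝ, 0 < C ∧ ∀ t : ℝ, C ≤ |t| →
    |∫ θ in (0 : ℝ)..(2 * Real.pi), Real.cos (2 * Real.pi * t * Real.cos θ)| ≤ ν0 := by
  have h1 := Real.tendsto_integral_exp_smul_cocompact (E := ℂ)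
    (fun v => (((Ioo (-1 : ℝ) 1).indicator (fun v => (Real.sqrt (1 - v ^ 2))⁻¹) v : ℝ) : ℂ))
  simp_rw [D1_change] at h1
  rw [← Metric.cobounded_eq_cocompact] at h1
  have h2 := h1.eventually (Metric.ball_mem_nhds 0 (half_pos h))
  rw [(Metric.hasBasis_cobounded_compl_closedBall (0 : ℝ)).eventually_iff] at h2
  obtain ⟨r, -, hr⟩ := h2
  refine ⟨|r| + 1, by positivity, fun t ht => ?_⟩
  have h3 := hr (x := t) (by
    simp only [mem_compl_iff, Metric.mem_closedBall, dist_zero_right, Real.norm_eq_abs, not_le]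
    have := le_abs_self r
    linarith)
  rw [D1_half, abs_mul, abs_two]
  rw [dist_zero_right] at h3
  have h4 := Complex.abs_re_le_norm (∫ θ in Ioo (0 : ℝ) Real.pi,
        Complex.exp (-(2 * Real.pi * (t * Real.cos θ) : ℝ) * I))
  linarith

theorem D1_sin (s : ℝ) :
    ∫ θ in (0 : ℝ)..(2 * Real.pi), Real.sin (2 * Real.pi * s * Real.cos θ) = 0 := by
  have hper : Function.Periodic (fun θ : ℝ => Real.sin (2 * Real.pi * s * Real.cos θ))
      (2 * Real.pi) := by
    intro θ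
    simp only [Real.cos_add_two_pi]
  have h1 := hper.intervalIntegral_add_eq 0 Real.pi
  rw [zero_add] at h1
  have h2 := intervalIntegral.integral_comp_add_right (a := 0) (b := 2 * Real.pi)
    (fun θ : ℝ => Real.sin (2 * Real.pi * s * Real.cos θ)) Real.pi
  rw [zero_add, add_comm (2 * Real.pi) Real.pi, ← h1] at h2
  have h3 : ∫ θ in (0 : ℝ)..(2 * Real.pi), Real.sin (2 * Real.pi * s * Real.cos (θ + Real.pi)) =
      -∫ θ in (0 : ℝ)..(2 * Real.pi), Real.sin (2 * Real.pi * s * Real.cos θ) := by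
    rw [← intervalIntegral.integral_neg]
    congr 1
    funext θ
    rw [Real.cos_add_pi, mul_neg, Real.sin_neg]
  rw [h3] at h2
  linarith

theorem D1_ip (b : ℂ) (l θ : ℝ) : ip b (l * U θ) = l * ‖b‖ * Real.cos (θ - arg b) := by
  rw [ip_mul_real_right, mul_assoc]
  congr 1
  have h1 := Complex.norm_mul_cos_arg b
  have h2 := Complex.norm_mul_sin_arg b
  rw [ip, U_re, U_im, Real.cos_sub]
  rw [← h1, ← h2]
  ring

theorem J0_rot (b : ℂ) (l : ℝ) : ∫ θ in (0 : ℝ)..(2 * Real.pi), ee (ip b (l * U θ)) =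
    ((∫ θ in (0 : ℝ)..(2 * Real.pi), Real.cos (2 * Real.pi * (l * ‖b‖) * Real.cos θ) : ℝ) : ℂ) := by
  simp_rw [D1_ip]
  have hper : Function.Periodic (fun θ : ℝ => ee (l * ‖b‖ * Real.cos θ)) (2 * Real.pi) := by
    intro θ
    simp only [Real.cos_add_two_pi]
  have h1 := intervalIntegral.integral_comp_sub_right (a := 0) (b := 2 * Real.pi)
    (fun θ : ℝ => ee (l * ‖b‖ * Real.cos θ)) (arg b)
  rw [h1]
  have h2 := hper.intervalIntegral_add_eq (0 - arg b) 0
  rw [zero_add] at h2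
  have e1 : 2 * Real.pi - arg b = 0 - arg b + 2 * Real.pi := by ring
  rw [e1, h2]
  have hee : ∀ x : ℝ, ee x = (Real.cos (2 * Real.pi * x) : ℂ) + (Real.sin (2 * Real.pi * x) : ℂ) * I := by
    intro x
    unfold ee
    have : (2 * Real.pi * x : ℂ) * I = ((2 * Real.pi * x : ℝ) : ℂ) * I := by push_cast; ring
    rw [this, Complex.exp_mul_I, ← ofReal_cos, ← ofReal_sin]
  simp_rw [hee]
  have c1 : Continuous (fun θ : ℝ => (Real.cos (2 * Real.pi * (l * ‖b‖ * Real.cos θ)) : ℂ)) := by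
    fun_prop
  have c2 : Continuous (fun θ : ℝ => (Real.sin (2 * Real.pi * (l * ‖b‖ * Real.cos θ)) : ℂ) * I) := by
    fun_prop
  rw [intervalIntegral.integral_add (c1.intervalIntegrable _ _) (c2.intervalIntegrable _ _),
    intervalIntegral.integral_mul_const, intervalIntegral.integral_ofReal,
    intervalIntegral.integral_ofReal]
  have h3 := D1_sin (l * ‖b‖)
  have e2 : ∀ θ : ℝ, 2 * Real.pi * (l * ‖b‖ * Real.cos θ) = 2 * Real.pi * (l * ‖b‖) * Real.cos θ := by
    intro θ; ring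
  simp_rw [e2]
  rw [h3]
  simp

end TriDil
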