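import Pool.Agent.TriDil.Defs3
import Pool.Agent.TriDil.D1
set_option autoImplicit false
open MeasureTheory Complex Set
namespace TriDil
open scoped ComplexConjugate

/-! ## the weights -/
/-- coefficients of `G_m` -/
noncomputable def gm (m : ℕ) (j : ℤ) : ℝ :=
  if |j| ≤ m then (Nat.choose (2 * m) ((m : ℤ) + j).toNat : ℝ) / Nat.choose (2 * m) m else 0

theorem D2_choose_pos (m : ℕ) : (0:ℝ) < Nat.choose (2 * m) m := by
  have : 0 < Nat.choose (2 * m) m := Nat.choose_pos (by omega)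
  exact_mod_cast this

theorem gm_bd (m : ℕ) (j : ℤ) : 0 ≤ gm m j ∧ gm m j ≤ 1 := by
  unfold gm
  have h0 := D2_choose_pos m
  split_ifs
  · refine ⟨by positivity, ?_⟩
    rw [div_le_one h0]
    have := Nat.choose_le_centralBinom ((m : ℤ) + j).toNat m
    rw [Nat.centralBinom_eq_two_mul_choose] at this
    exact_mod_cast this
  · exact ⟨le_rfl, zero_le_one⟩

theorem D2_gm_zero (m : ℕ) : gm m 0 = 1 := by
  unfold gm
  have h0 := (D2_choose_pos m).ne'
  rw [if_pos (by simp)]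
  simp only [add_zero, Int.toNat_natCast]
  exact div_self h0

theorem D2_ee_add (x y : ℝ) : ee (x + y) = ee x * ee y := by
  unfold ee; rw [← Complex.exp_add]; congr 1; push_cast; ring

theorem D2_ee_zero : ee 0 = 1 := by unfold ee; simp

theorem D2_ee_sum {ι : Type} (s : Finset ι) (f : ι → ℝ) : ee (∑ i ∈ s, f i) = ∏ i ∈ s, ee (f i) := by
  classical
  induction s using Finset.induction_on with
  | empty => simp [D2_ee_zero]
  | insert a s ha ih => rw [Finset.sum_insert ha, Finset.prod_insert ha, D2_ee_add, ih]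

theorem D2_norm_ee (x : ℝ) : ‖ee x‖ = 1 := by
  unfold ee
  have : (2 * Real.pi * x * I : ℂ) = ((2 * Real.pi * x : ℝ) : ℂ) * I := by push_cast; ring
  rw [this, Complex.norm_exp_ofReal_mul_I]

theorem D2_cont_ee : Continuous ee := by unfold ee; fun_prop

theorem GM_expand (m : ℕ) (t : ℝ) : (GM m t : ℂ) = ∑ j ∈ Finset.Icc (-(m : ℤ)) m, (gm m j : ℂ) * ee (j * t) := by
  have h0 : ((Nat.choose (2 * m) m : ℝ) : ℂ) ≠ 0 := by exact_mod_cast (D2_choose_pos m).ne'
  have hcos : (2:ℂ) * Complex.cos (Real.pi * t) = Complex.exp (Real.pi * t * I) + Complex.exp (-(Real.pi * t * I)) := by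
    rw [Complex.cos]
    have : -((Real.pi : ℂ) * t) * I = -(Real.pi * t * I) := by ring
    rw [this]; ring
  have h1 : (Real.cos (Real.pi * t) ^ (2 * m) * 4 ^ m : ℝ) = 
      ((∑ r ∈ Finset.range (2 * m + 1), (Nat.choose (2 * m) r : ℂ) * ee (((r : ℤ) - m : ℤ) * t))) := by
    have h2 : ((Real.cos (Real.pi * t) ^ (2 * m) * 4 ^ m : ℝ) : ℂ) = (2 * Complex.cos (Real.pi * t)) ^ (2 * m) := by
      push_cast
      rw [mul_pow, pow_mul 2 2 m]
      norm_num
      ring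
    rw [h2, hcos, add_pow]
    refine Finset.sum_congr rfl fun r hr => ?_
    have hr' : r ≤ 2 * m := by have := Finset.mem_range.mp hr; omega
    rw [mul_comm]
    congr 1
    rw [← Complex.exp_nat_mul, ← Complex.exp_nat_mul, ← Complex.exp_add]
    unfold ee
    congr 1
    rw [Nat.cast_sub hr']
    push_cast
    ring
  have h3 : (GM m t : ℂ) = ((Real.cos (Real.pi * t) ^ (2 * m) * 4 ^ m : ℝ) : ℂ) / ((Nat.choose (2 * m) m : ℝ) : ℂ) := by
    unfold GM; push_cast; rfl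
  rw [h3, h1, Finset.sum_div]
  refine Finset.sum_nbij' (fun r : ℕ => (r : ℤ) - m) (fun j : ℤ => (j + m).toNat) ?_ ?_ ?_ ?_ ?_
  · intro r hr
    have := Finset.mem_range.mp hr
    rw [Finset.mem_Icc]; omega
  · intro j hj
    rw [Finset.mem_Icc] at hj
    rw [Finset.mem_range]; omega
  · intro r hr
    simp
  · intro j hj
    rw [Finset.mem_Icc] at hj
    have : 0 ≤ j + m := by omega
    rw [Int.toNat_of_nonneg this]; ring
  · intro r hr
    have hr' := Finset.mem_range.mp hr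
    have e1 : |(r : ℤ) - m| ≤ m := by rw [abs_le]; omega
    have e2 : ((m : ℤ) + ((r : ℤ) - m)).toNat = r := by
      have : (m : ℤ) + ((r : ℤ) - m) = r := by ring
      rw [this, Int.toNat_natCast]
    unfold gm
    rw [if_pos e1, e2]
    push_cast
    ring

theorem D2_GM_nonneg (m : ℕ) (t : ℝ) : 0 ≤ GM m t := by
  unfold GM
  have := D2_choose_pos m
  have h2 : 0 ≤ Real.cos (Real.pi * t) ^ (2 * m) := by rw [pow_mul]; positivity
  positivity

theorem GM_bd (m : ℕ) (t : ℝ) : 0 ≤ GM m t ∧ GM m t ≤ 2 * m + 1 := by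
  refine ⟨D2_GM_nonneg m t, ?_⟩
  have h1 : ‖(GM m t : ℂ)‖ ≤ 2 * m + 1 := by
    rw [GM_expand]
    refine (norm_sum_le _ _).trans ?_
    calc ∑ j ∈ Finset.Icc (-(m : ℤ)) m, ‖(gm m j : ℂ) * ee (j * t)‖ ≤ ∑ j ∈ Finset.Icc (-(m : ℤ)) m, (1:ℝ) := by
          refine Finset.sum_le_sum fun j _ => ?_
          rw [norm_mul, D2_norm_ee, mul_one, norm_real, Real.norm_eq_abs, abs_of_nonneg (gm_bd m j).1]
          exact (gm_bd m j).2
      _ = 2 * m + 1 := by
          rw [Finset.sum_const, Int.card_Icc, nsmul_eq_mul, mul_one]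
          have : ((m : ℤ) + 1 - -(m : ℤ)).toNat = 2 * m + 1 := by omega
          rw [this]; push_cast; ring
  rw [norm_real, Real.norm_eq_abs, abs_of_nonneg (D2_GM_nonneg m t)] at h1
  exact h1

theorem GM_tail (m : ℕ) (t κ : ℝ) (hκ : 0 ≤ κ) (hκ' : κ ≤ 1 / 2) (h : ∀ j : ℤ, κ ≤ |t - j|) :
    GM m t ≤ (2 * m + 1) * Real.cos (Real.pi * κ) ^ (2 * m) := by
  have h1 : (4:ℝ) ^ m / (Nat.choose (2 * m) m : ℝ) ≤ 2 * m + 1 := by
    have := (GM_bd m 0).2
    unfold GM at this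
    simpa using this
  have hpi := Real.pi_pos
  have h2 : |Real.cos (Real.pi * t)| ≤ Real.cos (Real.pi * κ) := by
    set j := round t with hj
    have h3 : |t - j| ≤ 1 / 2 := abs_sub_round t
    have h4 := h j
    have e : Real.cos (Real.pi * t) = (-1) ^ j * Real.cos (Real.pi * |t - j|) := by
      have e1 : Real.cos (Real.pi * |t - j|) = Real.cos (Real.pi * (t - j)) := by
        rw [← Real.cos_abs (Real.pi * (t - j)), abs_mul, abs_of_pos hpi]
      rw [e1]
      have e2 : Real.pi * (t - j) = Real.pi * t - j * Real.pi := by ring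
      rw [e2, Real.cos_sub_int_mul_pi, ← mul_assoc]
      rw [← mul_zpow]; norm_num
    rw [e, abs_mul, abs_zpow, abs_neg, abs_one, one_zpow, one_mul, abs_of_nonneg]
    · apply Real.cos_le_cos_of_nonneg_of_le_pi (by positivity) (by nlinarith) (by nlinarith)
    · apply Real.cos_nonneg_of_neg_pi_div_two_le_of_le (by nlinarith [abs_nonneg (t - (j:ℝ))]) (by nlinarith)
  unfold GM
  calc Real.cos (Real.pi * t) ^ (2 * m) * 4 ^ m / (Nat.choose (2 * m) m : ℝ) 
      = (4 ^ m / (Nat.choose (2 * m) m : ℝ)) * |Real.cos (Real.pi * t)| ^ (2 * m) := by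
        rw [pow_mul, pow_mul, sq_abs]; ring
    _ ≤ (2 * m + 1) * Real.cos (Real.pi * κ) ^ (2 * m) := by gcongr

theorem wt_nonneg (ω : ℂ) (K m : ℕ) (ξ : ℕ → ℂ) (l θ : ℝ) : 0 ≤ wt ω K m ξ l θ := by
  unfold wt
  exact Finset.prod_nonneg fun k _ => mul_nonneg (GM_bd m _).1 (GM_bd m _).1

theorem D2_cont_GM (m : ℕ) : Continuous (GM m) := by unfold GM; fun_prop

theorem D2_cont_ip (b c : ℂ) (l : ℝ) : Continuous (fun θ : ℝ => ip b (l * c * U θ)) := by
  unfold ip
  have := continuous_U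
  fun_prop

theorem wt_continuous (ω : ℂ) (K m : ℕ) (ξ : ℕ → ℂ) (l : ℝ) : Continuous (wt ω K m ξ l) := by
  unfold wt
  refine continuous_finsetProd _ fun k _ => Continuous.mul ?_ ?_
  · have h := D2_cont_ip (ξ k) 1 l
    simp only [mul_one] at h
    exact (D2_cont_GM m).comp h
  · exact (D2_cont_GM m).comp (D2_cont_ip (ξ k) ω l)

theorem D2_ip_sum {K : ℕ} (f : Fin K → ℂ) (c : ℂ) : ip (∑ k, f k) c = ∑ k, ip (f k) c := by
  unfold ip
  rw [Complex.re_sum, Complex.im_sum, Finset.sum_mul, Finset.sum_mul, ← Finset.sum_add_distrib]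

theorem D2_ip_bb (ω : ℂ) (K : ℕ) (ξ : ℕ → ℂ) (a b : Fin K → ℤ) (l θ : ℝ) : 
    ip (bb ω K ξ a b) (l * U θ) = (∑ k : Fin K, (a k : ℝ) * ip (ξ k) (l * U θ)) + 
      ∑ k : Fin K, (b k : ℝ) * ip (ξ k) (l * ω * U θ) := by
  unfold bb
  rw [ip_add_left, D2_ip_sum, ip_mul_left, Complex.conj_conj, D2_ip_sum]
  congr 1
  · refine Finset.sum_congr rfl fun k _ => ?_
    rw [← ip_mul_real_left]; congr 1
  · refine Finset.sum_congr rfl fun k _ => ?_
    rw [← ip_mul_real_left]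
    have : ω * (l * U θ) = l * ω * U θ := by ring
    rw [this]; congr 1

theorem wt_expand (ω : ℂ) (K m : ℕ) (ξ : ℕ → ℂ) (l θ : ℝ) :
    (wt ω K m ξ l θ : ℂ) = ∑ a ∈ Fintype.piFinset (fun _ : Fin K => Finset.Icc (-(m : ℤ)) m),
      ∑ b ∈ Fintype.piFinset (fun _ : Fin K => Finset.Icc (-(m : ℤ)) m),
      ((∏ k, gm m (a k) : ℝ) : ℂ) * ((∏ k, gm m (b k) : ℝ) : ℂ) * ee (ip (bb ω K ξ a b) (l * U θ)) := by
  unfold wt
  push_cast
  rw [Finset.prod_mul_distrib]
  have e : ∀ x : Fin K → ℝ, ∏ k : Fin K, (GM m (x k) : ℂ) = 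
      ∑ a ∈ Fintype.piFinset (fun _ : Fin K => Finset.Icc (-(m : ℤ)) m), 
        (∏ k, (gm m (a k) : ℂ)) * ee (∑ k, (a k : ℝ) * x k) := by
    intro x
    have : ∀ k : Fin K, (GM m (x k) : ℂ) = ∑ j ∈ Finset.Icc (-(m : ℤ)) m, (gm m j : ℂ) * ee (j * x k) := 
      fun k => GM_expand m (x k)
    rw [Finset.prod_congr rfl fun k _ => this k, Finset.prod_univ_sum]
    refine Finset.sum_congr rfl fun a _ => ?_
    rw [Finset.prod_mul_distrib, D2_ee_sum]
  rw [e (fun k => ip (ξ k) (l * U θ)), e (fun k => ip (ξ k) (l * ω * U θ)), Finset.sum_mul_sum]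
  refine Finset.sum_congr rfl fun a _ => Finset.sum_congr rfl fun b _ => ?_
  rw [D2_ip_bb, D2_ee_add]
  ring

/-- `∫ w ≥ π` if nothing is resonant -/
theorem wt_int : ∃ c1 : ℝ, 0 < c1 ∧ ∀ K m : ℕ, ∃ C1 : ℝ, 0 < C1 ∧ ∀ (ω : ℂ) (ξ : ℕ → ℂ) (l : ℝ), 0 < l →
    ¬ res ω K m c1 C1 l ξ → Real.pi ≤ ∫ θ in (0 : ℝ)..(2 * Real.pi), wt ω K m ξ l θ := by
  obtain ⟨c1, hc1, hJ⟩ := J0_pos
  refine ⟨c1, hc1, fun K m => ?_⟩
  set P : Finset (Fin K → ℤ) := Fintype.piFinset (fun _ : Fin K => Finset.Icc (-(m : ℤ)) m) with hP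
  set n : ℝ := (P.card : ℝ) * P.card with hn
  have h0P : (0 : Fin K → ℤ) ∈ P := by
    rw [hP, Fintype.mem_piFinset]
    intro k
    rw [Finset.mem_Icc]; simp
  have hcard : 0 < P.card := Finset.card_pos.mpr ⟨_, h0P⟩
  have hn0 : 0 < n := by
    have : (0:ℝ) < P.card := by exact_mod_cast hcard
    positivity
  obtain ⟨C1, hC1, hS⟩ := J0_small (Real.pi / n) (by positivity)
  refine ⟨C1, hC1, fun ω ξ l hl hres => ?_⟩
  set J : ℝ → ℝ := fun t => ∫ θ in (0 : ℝ)..(2 * Real.pi), Real.cos (2 * Real.pi * t * Real.cos θ) with hJdef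
  have hJ0 : J 0 = 2 * Real.pi := by simp [hJdef]
  have hlow : ∀ a ∈ P, ∀ b ∈ P, -(Real.pi / n) ≤ J (l * ‖bb ω K ξ a b‖) := by
    intro a ha b hb
    have hnr : ¬ (c1 < l * ‖bb ω K ξ a b‖ ∧ l * ‖bb ω K ξ a b‖ < C1) := by
      intro hh
      apply hres
      refine ⟨a, b, fun k => ?_, fun k => ?_, hh.1, hh.2⟩
      · have := Fintype.mem_piFinset.mp ha k
        rw [Finset.mem_Icc] at this
        exact abs_le.mpr this
      · have := Fintype.mem_piFinset.mp hb k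
        rw [Finset.mem_Icc] at this
        exact abs_le.mpr this
    have hnn : 0 ≤ l * ‖bb ω K ξ a b‖ := by positivity
    have hpn : 0 < Real.pi / n := by positivity
    rcases le_or_gt (l * ‖bb ω K ξ a b‖) c1 with h | h
    · have := hJ (l * ‖bb ω K ξ a b‖) (by rw [abs_of_nonneg hnn]; exact h)
      have h2 : 0 ≤ J (l * ‖bb ω K ξ a b‖) := this
      linarith
    · have h2 : C1 ≤ l * ‖bb ω K ξ a b‖ := by
        by_contra hcon
        push Not at hcon
        exact hnr ⟨h, hcon⟩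
      have h3 := hS (l * ‖bb ω K ξ a b‖) (by rw [abs_of_nonneg hnn]; exact h2)
      exact (abs_le.mp h3).1
  have hint : ((∫ θ in (0 : ℝ)..(2 * Real.pi), wt ω K m ξ l θ : ℝ) : ℂ) = 
      ((∑ a ∈ P, ∑ b ∈ P, (∏ k, gm m (a k)) * (∏ k, gm m (b k)) * J (l * ‖bb ω K ξ a b‖) : ℝ) : ℂ) := by
    rw [← intervalIntegral.integral_ofReal]
    have e1 : ∀ θ : ℝ, (wt ω K m ξ l θ : ℂ) = ∑ a ∈ P, ∑ b ∈ P,
        ((∏ k, gm m (a k) : ℝ) : ℂ) * ((∏ k, gm m (b k) : ℝ) : ℂ) * ee (ip (bb ω K ξ a b) (l * U θ)) := 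
      fun θ => wt_expand ω K m ξ l θ
    simp_rw [e1]
    have ci : ∀ a b : Fin K → ℤ, Continuous (fun θ : ℝ => ee (ip (bb ω K ξ a b) (l * U θ))) := by
      intro a b
      have h := D2_cont_ip (bb ω K ξ a b) 1 l
      simp only [mul_one] at h
      exact D2_cont_ee.comp h
    rw [intervalIntegral.integral_finsetSum]
    · push_cast
      refine Finset.sum_congr rfl fun a _ => ?_
      rw [intervalIntegral.integral_finsetSum]
      · refine Finset.sum_congr rfl fun b _ => ?_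
        rw [intervalIntegral.integral_const_mul, J0_rot]
      · intro b _
        exact ((ci a b).const_mul _).intervalIntegrable _ _
    · intro a _
      exact (continuous_finsetSum _ fun b _ => (ci a b).const_mul _).intervalIntegrable _ _
  have hint' := Complex.ofReal_injective hint
  rw [hint']
  have hg : ∀ a : Fin K → ℤ, 0 ≤ ∏ k, gm m (a k) ∧ ∏ k, gm m (a k) ≤ 1 := by
    intro a
    refine ⟨Finset.prod_nonneg fun k _ => (gm_bd m _).1, Finset.prod_le_one (fun k _ => (gm_bd m _).1) fun k _ => (gm_bd m _).2⟩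
  -- termwise bound
  have hterm : ∀ a ∈ P, ∀ b ∈ P, (if a = 0 then if b = 0 then 2 * Real.pi else 0 else 0) - Real.pi / n ≤ 
      (∏ k, gm m (a k)) * (∏ k, gm m (b k)) * J (l * ‖bb ω K ξ a b‖) := by
    intro a ha b hb
    have hpn : 0 < Real.pi / n := by positivity
    by_cases hab : a = 0 ∧ b = 0
    · obtain ⟨rfl, rfl⟩ := hab
      have hb0 : bb ω K ξ 0 0 = 0 := by simp [bb]
      rw [if_pos rfl, if_pos rfl, hb0, norm_zero, mul_zero, hJ0]
      simp only [Pi.zero_apply, D2_gm_zero, Finset.prod_const_one]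
      linarith
    · have e : (if a = 0 then if b = 0 then 2 * Real.pi else 0 else 0) = 0 := by
        split_ifs with h1 h2
        · exact absurd ⟨h1, h2⟩ hab
        · rfl
        · rfl
      rw [e]
      obtain ⟨ga0, ga1⟩ := hg a
      obtain ⟨gb0, gb1⟩ := hg b
      have hJl := hlow a ha b hb
      have hc0 : 0 ≤ (∏ k, gm m (a k)) * (∏ k, gm m (b k)) := mul_nonneg ga0 gb0
      have hc1' : (∏ k, gm m (a k)) * (∏ k, gm m (b k)) ≤ 1 := mul_le_one₀ ga1 gb0 gb1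
      nlinarith
  have hsum : ∑ a ∈ P, ∑ b ∈ P, ((if a = 0 then if b = 0 then 2 * Real.pi else 0 else 0) - Real.pi / n) = Real.pi := by
    simp_rw [Finset.sum_sub_distrib, Finset.sum_const, nsmul_eq_mul]
    have e1 : ∑ a ∈ P, ∑ b ∈ P, (if a = 0 then if b = 0 then 2 * Real.pi else 0 else 0) = 2 * Real.pi := by
      have : ∀ a ∈ P, ∑ b ∈ P, (if a = 0 then if b = 0 then 2 * Real.pi else 0 else 0) = if a = 0 then 2 * Real.pi else 0 := by
        intro a _
        split_ifs with h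
        · rw [Finset.sum_ite_eq' P 0 (fun _ => 2 * Real.pi), if_pos h0P]
        · simp
      rw [Finset.sum_congr rfl this, Finset.sum_ite_eq' P 0 (fun _ => 2 * Real.pi), if_pos h0P]
    rw [e1]
    have e2 : (P.card : ℝ) * (P.card * (Real.pi / n)) = Real.pi := by
      rw [← mul_assoc, ← hn]; field_simp
    rw [e2]; ring
  calc Real.pi = ∑ a ∈ P, ∑ b ∈ P, ((if a = 0 then if b = 0 then 2 * Real.pi else 0 else 0) - Real.pi / n) := hsum.symm
    _ ≤ _ := Finset.sum_le_sum fun a ha => Finset.sum_le_sum fun b hb => hterm a ha b hb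

/-- choice of `m`: the weight is tiny at angles with a coordinate far from the integers -/
theorem wt_tail (K : ℕ) (κ ε : ℝ) (hκ : 0 < κ) (hκ' : κ ≤ 1 / 2) (hε : 0 < ε) : ∃ m : ℕ, ∀ (ω : ℂ) (ξ : ℕ → ℂ)
    (l θ : ℝ), ((∃ k : Fin K, ∀ j : ℤ, κ ≤ |ip (ξ k) (l * U θ) - j|) ∨
      (∃ k : Fin K, ∀ j : ℤ, κ ≤ |ip (ξ k) (l * ω * U θ) - j|)) → wt ω K m ξ l θ ≤ ε := by
  have hpi := Real.pi_pos
  set q : ℝ := Real.cos (Real.pi * κ) ^ 2 with hq
  have hq0 : 0 ≤ q := sq_nonneg _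
  have hq1 : q < 1 := by
    have h1 : 0 ≤ Real.cos (Real.pi * κ) := 
      Real.cos_nonneg_of_neg_pi_div_two_le_of_le (by nlinarith) (by nlinarith)
    have h2 : Real.cos (Real.pi * κ) < 1 := by
      have h3 : Real.cos (Real.pi * κ) < Real.cos 0 := 
        Real.cos_lt_cos_of_nonneg_of_le_pi le_rfl (by nlinarith) (by positivity)
      rwa [Real.cos_zero] at h3
    rw [hq]
    exact pow_lt_one₀ h1 h2 (by norm_num)
  have ht := (tendsto_pow_const_mul_const_pow_of_lt_one (2 * K) hq0 hq1).const_mul ((3:ℝ) ^ (2 * K))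
  rw [mul_zero] at ht
  obtain ⟨m, hm1, hm2⟩ := ((Filter.eventually_ge_atTop 1).and (ht.eventually_le_const hε)).exists
  refine ⟨m, fun ω ξ l θ h => ?_⟩
  set M : ℝ := 2 * m + 1 with hM
  have hM0 : 0 ≤ M := by positivity
  have hqm : Real.cos (Real.pi * κ) ^ (2 * m) = q ^ m := by rw [hq, ← pow_mul]
  have hqm0 : 0 ≤ q ^ m := by positivity
  have hkey : ∃ k0 : Fin K, GM m (ip (ξ k0) (l * U θ)) * GM m (ip (ξ k0) (l * ω * U θ)) ≤ q ^ m * M ^ 2 := by
    rcases h with ⟨k, hk⟩ | ⟨k, hk⟩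
    · refine ⟨k, ?_⟩
      have h1 := GM_tail m _ κ hκ.le hκ' hk
      rw [hqm] at h1
      have h2 := GM_bd m (ip (ξ k) (l * ω * U θ))
      calc _ ≤ (M * q ^ m) * M := mul_le_mul h1 h2.2 h2.1 (by positivity)
        _ = _ := by ring
    · refine ⟨k, ?_⟩
      have h1 := GM_tail m _ κ hκ.le hκ' hk
      rw [hqm] at h1
      have h2 := GM_bd m (ip (ξ k) (l * U θ))
      have h3 := GM_bd m (ip (ξ k) (l * ω * U θ))
      calc _ ≤ M * (M * q ^ m) := mul_le_mul h2.2 h1 h3.1 hM0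
        _ = _ := by ring
  obtain ⟨k0, hk0⟩ := hkey
  have hw : wt ω K m ξ l θ ≤ q ^ m * (M ^ 2) ^ K := by
    unfold wt
    calc ∏ k : Fin K, GM m (ip (ξ k) (l * U θ)) * GM m (ip (ξ k) (l * ω * U θ)) 
        ≤ ∏ k : Fin K, (if k = k0 then q ^ m else 1) * M ^ 2 := by
          refine Finset.prod_le_prod (fun k _ => mul_nonneg (GM_bd m _).1 (GM_bd m _).1) fun k _ => ?_
          split_ifs with hk
          · rw [hk]; exact hk0
          · have h2 := GM_bd m (ip (ξ k) (l * U θ))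
            have h3 := GM_bd m (ip (ξ k) (l * ω * U θ))
            calc _ ≤ M * M := mul_le_mul h2.2 h3.2 h3.1 hM0
              _ = _ := by ring
      _ = q ^ m * (M ^ 2) ^ K := by
          rw [Finset.prod_mul_distrib, Finset.prod_ite_eq', if_pos (Finset.mem_univ _), Finset.prod_const, 
            Finset.card_univ, Fintype.card_fin]
  refine hw.trans (le_trans ?_ hm2)
  have hm1' : (1:ℝ) ≤ m := by exact_mod_cast hm1
  have hM3 : M ≤ 3 * m := by rw [hM]; linarith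
  calc q ^ m * (M ^ 2) ^ K = M ^ (2 * K) * q ^ m := by rw [pow_mul M 2 K]; ring
    _ ≤ (3 * m) ^ (2 * K) * q ^ m := by gcongr
    _ = _ := by rw [mul_pow]; ring

end TriDil
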