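import Pool.Agent.TriDil.Basic7
set_option autoImplicit false
open MeasureTheory Complex Set
namespace TriDil
open scoped ComplexConjugate

/-- continuity of translation in `L¹` -/
theorem A10_trans (f : ℂ → ℂ) (hf : Integrable f) (u : ℂ) :
    Filter.Tendsto (fun v => ∫ x, ‖f (x + v) - f (x + u)‖) (nhds u) (nhds 0) := by
  have hfm : MemLp f 1 volume := memLp_one_iff_integrable.2 hf
  set F : Lp ℂ 1 (volume : Measure ℂ) := hfm.toLp f with hF
  let g : ℂ → C(ℂ, ℂ) := fun v => ⟨fun x => x + v, by fun_prop⟩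
  have hg : Continuous g := by
    apply ContinuousMap.continuous_of_continuous_uncurry
    exact continuous_snd.add continuous_fst
  have hgm : ∀ v, MeasurePreserving (g v) volume volume := fun v =>
    measurePreserving_add_right volume v
  have hc := Continuous.compMeasurePreservingLp (μ := (volume : Measure ℂ)) (ν := (volume : Measure ℂ))
    (p := 1) (f := fun _ : ℂ => F) (g := g) continuous_const hg hgm ENNReal.one_ne_top
  have ht := (hc.tendsto u)
  have ht2 : Filter.Tendsto (fun v => ‖Lp.compMeasurePreserving (g v) (hgm v) F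
      - Lp.compMeasurePreserving (g u) (hgm u) F‖) (nhds u) (nhds 0) :=
    tendsto_iff_norm_sub_tendsto_zero.1 ht
  refine ht2.congr fun v => ?_
  rw [L1.norm_eq_integral_norm]
  apply integral_congr_ae
  have e1 := Lp.coeFn_compMeasurePreserving F (hgm v)
  have e2 := Lp.coeFn_compMeasurePreserving F (hgm u)
  have e3 := Lp.coeFn_sub (Lp.compMeasurePreserving (g v) (hgm v) F)
    (Lp.compMeasurePreserving (g u) (hgm u) F)
  have e4 := (hgm v).quasiMeasurePreserving.ae_eq_comp hfm.coeFn_toLp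
  have e5 := (hgm u).quasiMeasurePreserving.ae_eq_comp hfm.coeFn_toLp
  filter_upwards [e1, e2, e3, e4, e5] with x h1 h2 h3 h4 h5
  rw [h3, Pi.sub_apply, h1, h2, h4, h5]
  rfl

theorem A10_int {R : ℝ} {f : ℂ → ℂ} (b : BF R f) : Integrable f := by
  have h1 : IntegrableOn (fun _ : ℂ => (1 : ℝ)) (Metric.closedBall 0 R) volume :=
    integrableOn_const (hs := (isCompact_closedBall (0:ℂ) R).measure_lt_top.ne)
  have h2 : Integrable ((Metric.closedBall (0:ℂ) R).indicator (fun _ : ℂ => (1 : ℝ))) :=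
    h1.integrable_indicator Metric.isClosed_closedBall.measurableSet
  refine h2.mono' b.meas.aestronglyMeasurable (Filter.Eventually.of_forall fun x => ?_)
  by_cases hx : x ∈ Metric.closedBall (0:ℂ) R
  · rw [indicator_of_mem hx]; exact b.le x
  · rw [indicator_of_notMem hx, b.supp x (by
      rw [Metric.mem_closedBall, dist_zero_right, not_le] at hx; exact hx), norm_zero]

/-- the inner integral -/
noncomputable def A10_Psi (ω : ℂ) (f0 f1 f2 : ℂ → ℂ) (u : ℂ) : ℂ :=
  ∫ x : ℂ, f0 x * f1 (x + u) * f2 (x + ω * u)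

theorem A10_prod_int {R : ℝ} {f0 f1 f2 : ℂ → ℂ} (b0 : BF R f0) (b1 : BF R f1) (b2 : BF R f2)
    (u v : ℂ) : Integrable (fun x : ℂ => f0 x * f1 (x + u) * f2 (x + v)) := by
  refine (A10_int b0).norm.mono' ?_ (Filter.Eventually.of_forall fun x => ?_)
  · exact ((b0.meas.mul (b1.meas.comp (measurable_add_const u))).mul
      (b2.meas.comp (measurable_add_const v))).aestronglyMeasurable
  · rw [norm_mul, norm_mul]
    calc ‖f0 x‖ * ‖f1 (x + u)‖ * ‖f2 (x + v)‖ ≤ ‖f0 x‖ * 1 * 1 := by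
          gcongr
          · exact b1.le _
          · exact b2.le _
      _ = ‖f0 x‖ := by ring

theorem A10_cont {ω : ℂ} {R : ℝ} {f0 f1 f2 : ℂ → ℂ} (b0 : BF R f0) (b1 : BF R f1) (b2 : BF R f2) :
    Continuous (A10_Psi ω f0 f1 f2) := by
  rw [continuous_iff_continuousAt]
  intro u
  have h1 := A10_trans f1 (A10_int b1) u
  have h2 : Filter.Tendsto (fun v => ∫ x, ‖f2 (x + ω * v) - f2 (x + ω * u)‖) (nhds u) (nhds 0) := by
    have hm : Filter.Tendsto (fun v : ℂ => ω * v) (nhds u) (nhds (ω * u)) :=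
      (continuous_const.mul continuous_id).tendsto u
    exact (A10_trans f2 (A10_int b2) (ω * u)).comp hm
  have h3 := h1.add h2
  rw [add_zero] at h3
  rw [ContinuousAt, tendsto_iff_norm_sub_tendsto_zero]
  refine squeeze_zero (fun _ => norm_nonneg _) (fun v => ?_) h3
  unfold A10_Psi
  rw [← integral_sub (A10_prod_int b0 b1 b2 v (ω * v)) (A10_prod_int b0 b1 b2 u (ω * u))]
  have i1 : ∀ {f : ℂ → ℂ}, BF R f → ∀ a b : ℂ, Integrable (fun x => ‖f (x + a) - f (x + b)‖) := by
    intro f hf a b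
    exact (((A10_int hf).comp_add_right a).sub ((A10_int hf).comp_add_right b)).norm
  rw [← integral_add (i1 b1 v u) (i1 b2 (ω * v) (ω * u))]
  refine norm_integral_le_of_norm_le ((i1 b1 v u).add (i1 b2 (ω * v) (ω * u)))
    (Filter.Eventually.of_forall fun x => ?_)
  have e : f0 x * f1 (x + v) * f2 (x + ω * v) - f0 x * f1 (x + u) * f2 (x + ω * u)
      = f0 x * ((f1 (x + v) - f1 (x + u)) * f2 (x + ω * v)
        + f1 (x + u) * (f2 (x + ω * v) - f2 (x + ω * u))) := by ring
  rw [e, norm_mul]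
  calc ‖f0 x‖ * ‖(f1 (x + v) - f1 (x + u)) * f2 (x + ω * v)
        + f1 (x + u) * (f2 (x + ω * v) - f2 (x + ω * u))‖
      ≤ 1 * (‖f1 (x + v) - f1 (x + u)‖ * ‖f2 (x + ω * v)‖
        + ‖f1 (x + u)‖ * ‖f2 (x + ω * v) - f2 (x + ω * u)‖) := by
        refine mul_le_mul (b0.le x) ?_ (norm_nonneg _) zero_le_one
        rw [← norm_mul, ← norm_mul]; exact norm_add_le _ _
    _ ≤ 1 * (‖f1 (x + v) - f1 (x + u)‖ * 1
        + 1 * ‖f2 (x + ω * v) - f2 (x + ω * u)‖) := by
        gcongr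
        · exact b2.le _
        · exact b1.le _
    _ = ‖f1 (x + v) - f1 (x + u)‖ + ‖f2 (x + ω * v) - f2 (x + ω * u)‖ := by ring

/-- radial integral -/
theorem A10_radial (N : ℝ) (hN : 1 ≤ N) :
    ∫ ρ in Ioi (0 : ℝ), (ρ * (if 1 ≤ ρ ^ 2 ∧ ρ ^ 2 ≤ 1 + 1 / N then N else 0)) = 1 / 2 := by
  have hN0 : 0 < N := by linarith
  have hs1 : 1 ≤ Real.sqrt (1 + 1 / N) := by
    rw [Real.one_le_sqrt]; have : 0 < 1 / N := by positivity
    linarith
  have e1 : ∀ ρ ∈ Ioi (0 : ℝ), (ρ * (if 1 ≤ ρ ^ 2 ∧ ρ ^ 2 ≤ 1 + 1 / N then N else 0))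
      = (Icc 1 (Real.sqrt (1 + 1 / N))).indicator (fun ρ => ρ * N) ρ := by
    intro ρ hρ
    have hρ0 : 0 < ρ := hρ
    have : (1 ≤ ρ ^ 2 ∧ ρ ^ 2 ≤ 1 + 1 / N) ↔ ρ ∈ Icc 1 (Real.sqrt (1 + 1 / N)) := by
      rw [mem_Icc, Real.le_sqrt hρ0.le (by positivity)]
      constructor
      · rintro ⟨a, b⟩
        refine ⟨?_, b⟩
        nlinarith
      · rintro ⟨a, b⟩
        refine ⟨?_, b⟩
        nlinarith
    by_cases h : ρ ∈ Icc 1 (Real.sqrt (1 + 1 / N))
    · rw [indicator_of_mem h, if_pos (this.2 h)]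
    · rw [indicator_of_notMem h, if_neg (fun h' => h (this.1 h')), mul_zero]
  rw [setIntegral_congr_fun measurableSet_Ioi e1, integral_indicator measurableSet_Icc,
    Measure.restrict_restrict measurableSet_Icc]
  have e2 : Icc 1 (Real.sqrt (1 + 1 / N)) ∩ Ioi (0 : ℝ) = Icc 1 (Real.sqrt (1 + 1 / N)) := by
    apply inter_eq_self_of_subset_left
    intro x hx
    exact lt_of_lt_of_le one_pos hx.1
  rw [e2, integral_Icc_eq_integral_Ioc, ← intervalIntegral.integral_of_le hs1,
    intervalIntegral.integral_mul_const, integral_id, Real.sq_sqrt (by positivity)]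
  field_simp
  ring

theorem A10_kN_eq (N : ℝ) (u : ℂ) : kN N u = if 1 ≤ ‖u‖ ^ 2 ∧ ‖u‖ ^ 2 ≤ 1 + 1 / N then N else 0 := by
  unfold kN; rw [normSq_eq_norm_sq]

/-- integral of a thin annulus kernel against an angular function -/
theorem A10_polar (N : ℝ) (hN : 1 ≤ N) (g : ℂ → ℂ) :
    ∫ u : ℂ, (kN N u : ℂ) * g (u / ‖u‖) = 1 / 2 * ∫ θ in Ioo (-Real.pi) Real.pi, g (U θ) := by
  rw [← Complex.integral_comp_polarCoord_symm, polarCoord_target]
  have e1 : ∀ p ∈ Ioi (0 : ℝ) ×ˢ Ioo (-Real.pi) Real.pi,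
      p.1 • ((kN N (Complex.polarCoord.symm p) : ℂ) * g (Complex.polarCoord.symm p / ‖Complex.polarCoord.symm p‖))
      = ((p.1 * (if 1 ≤ p.1 ^ 2 ∧ p.1 ^ 2 ≤ 1 + 1 / N then N else 0) : ℝ) : ℂ) * g (U p.2) := by
    rintro ⟨ρ, θ⟩ ⟨hρ, _⟩
    have hρ0 : 0 < ρ := hρ
    have hn : ‖Complex.polarCoord.symm (ρ, θ)‖ = ρ := by
      rw [Complex.norm_polarCoord_symm]; exact abs_of_pos hρ0
    have hu : Complex.polarCoord.symm (ρ, θ) / (ρ : ℂ) = U θ := by
      rw [Complex.polarCoord_symm_apply]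
      have : (ρ : ℂ) ≠ 0 := by exact_mod_cast hρ0.ne'
      unfold U
      rw [Complex.exp_mul_I]
      field_simp
      push_cast
      ring
    rw [A10_kN_eq, hn, hu]
    rw [real_smul]; push_cast; ring
  rw [setIntegral_congr_fun (measurableSet_Ioi.prod measurableSet_Ioo) e1]
  rw [Measure.volume_eq_prod]
  rw [setIntegral_prod_mul (fun ρ : ℝ => ((ρ * (if 1 ≤ ρ ^ 2 ∧ ρ ^ 2 ≤ 1 + 1 / N then N else 0) : ℝ) : ℂ))
    (fun θ : ℝ => g (U θ))]
  rw [integral_complex_ofReal, A10_radial N hN]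
  push_cast
  ring

theorem A10_kN_meas (N : ℝ) : Measurable (kN N) := by
  unfold kN
  refine Measurable.ite ?_ measurable_const measurable_const
  have h : Measurable (fun u : ℂ => normSq u) := Complex.continuous_normSq.measurable
  exact (measurableSet_le measurable_const h).inter (measurableSet_le h measurable_const)

theorem A10_kN_int (N : ℝ) : Integrable (kN N) := by
  have h1 : IntegrableOn (fun _ : ℂ => |N|) (Metric.closedBall 0 (Real.sqrt (1 + 1 / N))) volume :=
    integrableOn_const (hs := (isCompact_closedBall (0:ℂ) _).measure_lt_top.ne)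
  have h2 := h1.integrable_indicator Metric.isClosed_closedBall.measurableSet
  refine h2.mono' (A10_kN_meas N).aestronglyMeasurable (Filter.Eventually.of_forall fun x => ?_)
  by_cases hx : x ∈ Metric.closedBall (0:ℂ) (Real.sqrt (1 + 1 / N))
  · rw [indicator_of_mem hx]; unfold kN; split_ifs
    · exact le_refl _
    · rw [norm_zero]; exact abs_nonneg _
  · rw [indicator_of_notMem hx]
    rw [Metric.mem_closedBall, dist_zero_right, not_le] at hx
    unfold kN
    rw [if_neg, norm_zero]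
    rintro ⟨_, h⟩
    rw [normSq_eq_norm_sq] at h
    exact absurd (Real.le_sqrt_of_sq_le h) (not_le.2 hx)

theorem A10_norm_int (N : ℝ) (hN : 1 ≤ N) : ∫ u : ℂ, ‖(kN N u : ℂ)‖ = Real.pi := by
  have h := A10_polar N hN (fun _ => 1)
  have e : (((∫ u : ℂ, ‖(kN N u : ℂ)‖ : ℝ)) : ℂ) = ∫ u : ℂ, (kN N u : ℂ) * 1 := by
    rw [← integral_complex_ofReal]
    apply integral_congr_ae
    refine Filter.Eventually.of_forall fun u => ?_
    simp only [mul_one, norm_real]
    rw [Real.norm_of_nonneg]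
    unfold kN; split_ifs <;> linarith
  rw [h] at e
  have h2 : ∫ θ in Ioo (-Real.pi) Real.pi, (1 : ℂ) = 2 * Real.pi := by
    rw [integral_const, Measure.real, Measure.restrict_apply MeasurableSet.univ, univ_inter, Real.volume_Ioo,
      ENNReal.toReal_ofReal (by linarith [Real.pi_pos])]
    simp only [real_smul, mul_one]; push_cast; ring
  rw [h2] at e
  have : ((∫ u : ℂ, ‖(kN N u : ℂ)‖ : ℝ) : ℂ) = ((Real.pi : ℝ) : ℂ) := by rw [e]; ring
  exact_mod_cast this

theorem lim_kN (ω : ℂ) (R : ℝ) (f0 f1 f2 : ℂ → ℂ) (b0 : BF R f0) (b1 : BF R f1) (b2 : BF R f2) :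
    Filter.Tendsto (fun k : ℕ => TK ω (kN (2 ^ k)) f0 f1 f2) Filter.atTop
      (nhds (1 / 2 * Lam ω 1 f0 f1 f2)) := by
  set Ψ := A10_Psi ω f0 f1 f2 with hΨ
  have hc : Continuous Ψ := A10_cont b0 b1 b2
  have hTK : ∀ N, TK ω (kN N) f0 f1 f2 = ∫ u : ℂ, (kN N u : ℂ) * Ψ u := fun N => rfl
  have hper : ∀ g : ℂ → ℂ, ∫ θ in Ioo (-Real.pi) Real.pi, g (U θ) = ∫ θ in (0:ℝ)..(2 * Real.pi), g (U θ) := by
    intro g
    have hp : Function.Periodic (fun θ : ℝ => g (U θ)) (2 * Real.pi) := by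
      intro θ
      simp only
      congr 1
      rw [U_add]
      have : U (2 * Real.pi) = 1 := by
        unfold U; push_cast; exact Complex.exp_two_pi_mul_I
      rw [this, mul_one]
    have h1 := hp.intervalIntegral_add_eq (-Real.pi) 0
    rw [zero_add] at h1
    rw [← h1, ← integral_Ioc_eq_integral_Ioo, intervalIntegral.integral_of_le (by linarith [Real.pi_pos])]
    congr 2
    ring_nf
  have hLam : Lam ω 1 f0 f1 f2 = ∫ θ in Ioo (-Real.pi) Real.pi, Ψ (U θ) := by
    rw [hper]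
    unfold Lam
    apply intervalIntegral.integral_congr
    intro θ _
    simp only [hΨ, A10_Psi]
    congr 1
    funext x
    push_cast
    rw [one_mul, one_mul]
  have hk : Continuous (fun x : ℂ => x) := continuous_id
  have huc := (isCompact_closedBall (0:ℂ) 2).uniformContinuousOn_of_continuous hc.continuousOn
  rw [Metric.tendsto_nhds]
  intro ε hε
  rw [Metric.uniformContinuousOn_iff] at huc
  obtain ⟨δ, hδ, hδ'⟩ := huc (ε / 4) (by positivity)
  have hlim : Filter.Tendsto (fun k : ℕ => (1 / 2 : ℝ) ^ k) Filter.atTop (nhds 0) :=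
    tendsto_pow_atTop_nhds_zero_of_lt_one (by norm_num) (by norm_num)
  have hev := hlim.eventually (gt_mem_nhds hδ)
  filter_upwards [hev] with k hk
  set N : ℝ := 2 ^ k with hN
  have hN1 : 1 ≤ N := one_le_pow₀ (by norm_num)
  have hNδ : 1 / N < δ := by rw [hN, ← one_div_pow]; exact hk
  have hN0 : 0 < N := by linarith
  rw [dist_eq_norm, hTK, hLam, ← A10_polar N hN1 Ψ]
  have hki : Integrable (fun u : ℂ => (kN N u : ℂ)) := (A10_kN_int N).ofReal
  -- bound of Ψ
  obtain ⟨M, hM⟩ : ∃ M : ℝ, ∀ u, ‖Ψ u‖ ≤ M := by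
    refine ⟨∫ x, ‖f0 x‖, fun u => ?_⟩
    refine norm_integral_le_of_norm_le (A10_int b0).norm (Filter.Eventually.of_forall fun x => ?_)
    rw [norm_mul, norm_mul]
    calc ‖f0 x‖ * ‖f1 (x + u)‖ * ‖f2 (x + ω * u)‖ ≤ ‖f0 x‖ * 1 * 1 := by
          gcongr
          · exact b1.le _
          · exact b2.le _
      _ = ‖f0 x‖ := by ring
  have i1 : Integrable (fun u : ℂ => (kN N u : ℂ) * Ψ u) :=
    hki.mul_bdd (c := M) hc.aestronglyMeasurable (Filter.Eventually.of_forall hM)
  have hm2 : Measurable (fun u : ℂ => Ψ (u / ‖u‖)) := by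
    apply hc.measurable.comp
    exact measurable_id.div (Complex.continuous_ofReal.measurable.comp measurable_norm)
  have i2 : Integrable (fun u : ℂ => (kN N u : ℂ) * Ψ (u / ‖u‖)) :=
    hki.mul_bdd (c := M) hm2.aestronglyMeasurable (Filter.Eventually.of_forall fun u => hM _)
  rw [← integral_sub i1 i2]
  calc ‖∫ u : ℂ, ((kN N u : ℂ) * Ψ u - (kN N u : ℂ) * Ψ (u / ‖u‖))‖
      ≤ ∫ u : ℂ, ‖(kN N u : ℂ)‖ * (ε / 4) := by
        refine norm_integral_le_of_norm_le (hki.norm.mul_const _) (Filter.Eventually.of_forall fun u => ?_)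
        rw [← mul_sub, norm_mul]
        by_cases h : 1 ≤ ‖u‖ ^ 2 ∧ ‖u‖ ^ 2 ≤ 1 + 1 / N
        · apply mul_le_mul_of_nonneg_left _ (norm_nonneg _)
          have hu1 : 1 ≤ ‖u‖ := by nlinarith [norm_nonneg u, h.1]
          have hu2 : ‖u‖ ≤ 1 + 1 / N := by nlinarith [norm_nonneg u, h.2]
          have hu3 : 1 / N ≤ 1 := by rw [div_le_one hN0]; exact hN1
          have hn1 : ‖u / (‖u‖ : ℂ)‖ = 1 := by
            rw [norm_div, norm_real, norm_norm, div_self (by linarith)]
          have := hδ' u (by rw [Metric.mem_closedBall, dist_zero_right]; linarith) (u / ‖u‖)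
            (by rw [Metric.mem_closedBall, dist_zero_right, hn1]; norm_num) ?_
          · rw [dist_eq_norm] at this; exact this.le
          · rw [dist_eq_norm]
            have e : u - u / (‖u‖ : ℂ) = (u / ‖u‖) * ((‖u‖ - 1 : ℝ) : ℂ) := by
              have : (‖u‖ : ℂ) ≠ 0 := by
                have : ‖u‖ ≠ 0 := by linarith
                exact_mod_cast this
              push_cast
              field_simp
            rw [e, norm_mul, hn1, one_mul, norm_real, Real.norm_of_nonneg (by linarith)]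
            linarith
        · rw [A10_kN_eq, if_neg h]; simp
    _ = Real.pi * (ε / 4) := by rw [integral_mul_const, A10_norm_int N hN1]
    _ < ε := by nlinarith [Real.pi_lt_d2, Real.pi_pos]

end TriDil
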