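import Pool.Agent.TriDil.Basic7
import Pool.Agent.LibWaveDir.Plancherel
set_option autoImplicit false
open MeasureTheory Complex Set
namespace TriDil
open scoped ComplexConjugate

section A1V

variable {V : Type} [NormedAddCommGroup V] [InnerProductSpace ℝ V] [FiniteDimensional ℝ V]
  [MeasurableSpace V] [BorelSpace V]

theorem A1_memLp (f : V → ℂ) (hf : AEStronglyMeasurable f volume) (B L : ℝ) (hB : ∀ x, ‖f x‖ ≤ B)
    (hL : ∀ x, L < ‖x‖ → f x = 0) (p : ENNReal) : MemLp f p volume := by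
  have h1 : (Metric.closedBall (0 : V) L).indicator f = f := by
    rw [indicator_eq_self]
    intro x hx
    rw [Metric.mem_closedBall, dist_zero_right]
    by_contra hc
    exact hx (hL x (not_le.1 hc))
  rw [← h1, memLp_indicator_iff_restrict measurableSet_closedBall]
  have : IsFiniteMeasure (volume.restrict (Metric.closedBall (0 : V) L)) :=
    ⟨by rw [Measure.restrict_apply_univ]; exact measure_closedBall_lt_top⟩
  exact MemLp.of_bound hf.restrict B (Filter.Eventually.of_forall hB)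

theorem A1_lint (f : V → ℂ) (hf : AEStronglyMeasurable f volume) :
    ∫ x, ‖f x‖ ^ 2 = (∫⁻ x, ‖f x‖ₑ ^ 2).toReal := by
  have hm : AEStronglyMeasurable (fun x => ‖f x‖ ^ 2) (volume : Measure V) := hf.norm.pow 2
  rw [integral_eq_lintegral_of_nonneg_ae (Filter.Eventually.of_forall fun x => by positivity) hm]
  congr 1
  refine lintegral_congr fun x => ?_
  rw [ENNReal.ofReal_pow (norm_nonneg _), ofReal_norm]

open FourierTransform Convolution in
theorem A1_corr (F w : V → ℂ) (hF : Measurable F) (hw : Measurable w) (B L : ℝ)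
    (bF : ∀ x, ‖F x‖ ≤ B) (bw : ∀ x, ‖w x‖ ≤ B) (sF : ∀ x, L < ‖x‖ → F x = 0)
    (sw : ∀ x, L < ‖x‖ → w x = 0) (s : ℝ) (hs : ∀ ζ, ‖𝓕 F ζ‖ ≤ s) :
    ∫ y : V, ‖∫ c : V, w c * conj (F (c + y))‖ ^ 2 ≤ s ^ 2 * ∫ c : V, ‖w c‖ ^ 2 := by
  have hs0 : 0 ≤ s := (norm_nonneg _).trans (hs 0)
  set w' : V → ℂ := fun x => w (-x) with hw'
  set F' : V → ℂ := fun x => conj (F x) with hF'
  have mw' : Measurable w' := hw.comp measurable_neg
  have mF' : Measurable F' := (continuous_conj.measurable).comp hF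
  have bw' : ∀ x, ‖w' x‖ ≤ B := fun x => bw _
  have bF' : ∀ x, ‖F' x‖ ≤ B := fun x => by
    change ‖conj (F x)‖ ≤ B
    rw [RCLike.norm_conj]; exact bF x
  have sw' : ∀ x, L < ‖x‖ → w' x = 0 := fun x hx => sw _ (by rw [norm_neg]; exact hx)
  have sF' : ∀ x, L < ‖x‖ → F' x = 0 := fun x hx => by
    change conj (F x) = 0
    rw [sF x hx, map_zero]
  have iw : Integrable w := memLp_one_iff_integrable.1 (A1_memLp w hw.aestronglyMeasurable B L bw sw 1)
  have iw' : Integrable w' :=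
    memLp_one_iff_integrable.1 (A1_memLp w' mw'.aestronglyMeasurable B L bw' sw' 1)
  have iF' : Integrable F' :=
    memLp_one_iff_integrable.1 (A1_memLp F' mF'.aestronglyMeasurable B L bF' sF' 1)
  have iF : Integrable F := memLp_one_iff_integrable.1 (A1_memLp F hF.aestronglyMeasurable B L bF sF 1)
  have w2 : MemLp w' 2 := A1_memLp w' mw'.aestronglyMeasurable B L bw' sw' 2
  set K : V → ℂ := w' ⋆[ContinuousLinearMap.mul ℂ ℂ] F' with hK
  have hKy : ∀ y, K y = ∫ c : V, w c * conj (F (c + y)) := by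
    intro y
    rw [hK, convolution_def]
    rw [← integral_neg_eq_self]
    refine integral_congr_ae (Filter.Eventually.of_forall fun c => ?_)
    simp only [hw', hF', neg_neg, ContinuousLinearMap.mul_apply', sub_neg_eq_add, add_comm]
  have iK : Integrable K := iw'.integrable_convolution _ iF'
  have bK : ∀ y, ‖K y‖ ≤ (∫ c, ‖w c‖) * B := by
    intro y
    rw [hKy, ← integral_mul_const]
    refine (norm_integral_le_integral_norm _).trans ?_
    refine integral_mono_of_nonneg (Filter.Eventually.of_forall fun c => norm_nonneg _)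
      (iw.norm.mul_const B) (Filter.Eventually.of_forall fun c => ?_)
    simp only [norm_mul, RCLike.norm_conj]
    exact mul_le_mul_of_nonneg_left (bF _) (norm_nonneg _)
  have K2 : MemLp K 2 := by
    rw [memLp_two_iff_integrable_sq_norm iK.aestronglyMeasurable]
    refine (iK.norm.const_mul ((∫ c, ‖w c‖) * B)).mono' (iK.aestronglyMeasurable.norm.pow 2)
      (Filter.Eventually.of_forall fun y => ?_)
    rw [norm_pow, norm_norm, pow_two]
    exact mul_le_mul_of_nonneg_right (bK y) (norm_nonneg _)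
  have e1 : ∀ ξ, ‖𝓕 K ξ‖ₑ ^ 2 ≤ ENNReal.ofReal (s ^ 2) * ‖𝓕 w' ξ‖ₑ ^ 2 := by
    intro ξ
    have h1 : 𝓕 K ξ = 𝓕 w' ξ * 𝓕 F' ξ := Real.fourier_mul_convolution_eq iw' iF' ξ
    have h2 : 𝓕 F' ξ = conj (𝓕 F (-ξ)) := by
      rw [Real.fourier_eq', Real.fourier_eq', ← integral_conj]
      refine integral_congr_ae (Filter.Eventually.of_forall fun v => ?_)
      simp only [hF', smul_eq_mul, map_mul, inner_neg_right, ← Complex.exp_conj, conj_ofReal, conj_I]
      congr 2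
      push_cast
      ring
    have h3 : ‖𝓕 F' ξ‖ ≤ s := by rw [h2, RCLike.norm_conj]; exact hs _
    rw [h1, enorm_mul, mul_pow, mul_comm]
    refine mul_le_mul_left ?_ _
    rw [ENNReal.ofReal_pow hs0]
    refine pow_le_pow_left₀ (by positivity) ?_ 2
    rw [← ofReal_norm]
    exact ENNReal.ofReal_le_ofReal h3
  have e2 : ∫⁻ y, ‖K y‖ₑ ^ 2 ≤ ENNReal.ofReal (s ^ 2) * ∫⁻ c, ‖w c‖ₑ ^ 2 := by
    rw [← Pool.Agent.LibWaveDir.plancherel K iK K2]
    refine (lintegral_mono e1).trans ?_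
    rw [lintegral_const_mul' _ _ ENNReal.ofReal_ne_top, Pool.Agent.LibWaveDir.plancherel w' iw' w2]
    refine mul_le_mul_right (le_of_eq ?_) _
    exact lintegral_neg_eq_self (fun x => ‖w x‖ₑ ^ 2)
  have e3 : ∫ y : V, ‖∫ c : V, w c * conj (F (c + y))‖ ^ 2 = ∫ y, ‖K y‖ ^ 2 := by
    refine integral_congr_ae (Filter.Eventually.of_forall fun y => ?_)
    simp only [hKy]
  rw [e3, A1_lint K iK.aestronglyMeasurable, A1_lint w hw.aestronglyMeasurable]
  have hfin : ∫⁻ c, ‖w c‖ₑ ^ 2 ≠ ⊤ := by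
    have := (A1_memLp w hw.aestronglyMeasurable B L bw sw 2)
    have h := lintegral_rpow_enorm_lt_top_of_eLpNorm_lt_top (p := 2) (by norm_num) (by norm_num) this.2
    simp only [ENNReal.toReal_ofNat] at h
    norm_cast at h
    exact h.ne
  have h4 := ENNReal.toReal_mono (ENNReal.mul_ne_top ENNReal.ofReal_ne_top hfin) e2
  rwa [ENNReal.toReal_mul, ENNReal.toReal_ofReal (by positivity)] at h4

end A1V

theorem CB1 (F w : ℝ → ℂ) (hF : Measurable F) (hw : Measurable w) (B L : ℝ)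
    (bF : ∀ x, ‖F x‖ ≤ B) (bw : ∀ x, ‖w x‖ ≤ B) (sF : ∀ x, L < |x| → F x = 0) (sw : ∀ x, L < |x| → w x = 0)
    (s : ℝ) (hs : ∀ ζ, ‖FT1 F ζ‖ ≤ s) :
    ∫ y : ℝ, ‖∫ c : ℝ, w c * conj (F (c + y))‖ ^ 2 ≤ s ^ 2 * ∫ c : ℝ, ‖w c‖ ^ 2 := by
  refine A1_corr F w hF hw B L bF bw sF sw s fun ζ => ?_
  have := hs (2 * Real.pi * ζ)
  rw [FT1] at this
  rw [Real.fourier_real_eq_integral_exp_smul]
  refine le_trans (le_of_eq ?_) this
  congr 1
  refine integral_congr_ae (Filter.Eventually.of_forall fun v => ?_)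
  simp only [smul_eq_mul]
  rw [mul_comm]
  congr 2
  push_cast
  ring

theorem CB2 (F w : ℂ → ℂ) (hF : Measurable F) (hw : Measurable w) (B L : ℝ)
    (bF : ∀ x, ‖F x‖ ≤ B) (bw : ∀ x, ‖w x‖ ≤ B) (sF : ∀ x, L < ‖x‖ → F x = 0) (sw : ∀ x, L < ‖x‖ → w x = 0)
    (s : ℝ) (hs : ∀ ζ, ‖FT F ζ‖ ≤ s) :
    ∫ y : ℂ, ‖∫ c : ℂ, w c * conj (F (c + y))‖ ^ 2 ≤ s ^ 2 * ∫ c : ℂ, ‖w c‖ ^ 2 := by
  refine A1_corr F w hF hw B L bF bw sF sw s fun ζ => ?_
  have := hs (2 * Real.pi * ζ)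
  rw [FT] at this
  rw [Real.fourier_eq']
  refine le_trans (le_of_eq ?_) this
  congr 1
  refine integral_congr_ae (Filter.Eventually.of_forall fun v => ?_)
  simp only [smul_eq_mul]
  rw [mul_comm]
  congr 2
  rw [Complex.inner]
  simp only [ip, mul_re, mul_im, conj_re, conj_im, ofReal_re, ofReal_im]
  push_cast
  simp
  ring

/-- scaling by a complex number -/
theorem A1_scale {E : Type} [NormedAddCommGroup E] [NormedSpace ℝ E] (a : ℂ) (f : ℂ → E) :
    ∫ x : ℂ, f (a * x) = (‖a‖ ^ 2)⁻¹ • ∫ x : ℂ, f x := by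
  have h1 : ∀ x : ℂ, a * x = ‖a‖ • (rotation (Circle.exp a.arg) x) := by
    intro x
    rw [rotation_apply, Circle.coe_exp, Complex.real_smul, ← mul_assoc,
      Complex.norm_mul_exp_arg_mul_I]
  have hmp : MeasurePreserving (fun x : ℂ => rotation (Circle.exp a.arg) x) volume volume :=
    (rotation (Circle.exp a.arg)).measurePreserving
  have hemb : MeasurableEmbedding (fun x : ℂ => rotation (Circle.exp a.arg) x) :=
    (rotation (Circle.exp a.arg)).toHomeomorph.measurableEmbedding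
  calc ∫ x : ℂ, f (a * x) = ∫ x : ℂ, (fun z => f (‖a‖ • z)) (rotation (Circle.exp a.arg) x) := by
        simp only [h1]
    _ = ∫ x : ℂ, f (‖a‖ • x) :=
        hmp.integral_comp hemb (fun z => f (‖a‖ • z))
    _ = (‖a‖ ^ 2)⁻¹ • ∫ x : ℂ, f x := by
        rw [Measure.integral_comp_smul, Complex.finrank_real_complex, abs_of_nonneg (by positivity)]

theorem complete_form (a b : ℂ) (ha : a ≠ 0) (hb : b ≠ 0) : ∃ C : ℝ, 0 < C ∧ ∀ (F G H : ℂ → ℂ) (L : ℝ),
    Measurable F → Measurable G → Measurable H → (∀ x, ‖F x‖ ≤ 1) → (∀ x, ‖G x‖ ≤ 1) → (∀ x, ‖H x‖ ≤ 1) →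
    (∀ x, L < ‖x‖ → F x = 0) → (∀ x, L < ‖x‖ → G x = 0) → (∀ x, L < ‖x‖ → H x = 0) →
    ∀ s : ℝ, (∀ ζ, ‖FT H ζ‖ ≤ s) →
    ‖∫ x : ℂ, ∫ y : ℂ, F x * G y * H (a * x + b * y)‖ ≤
      C * s * Real.sqrt (∫ x : ℂ, ‖F x‖ ^ 2) * Real.sqrt (∫ x : ℂ, ‖G x‖ ^ 2) := by
  have ha' : 0 < ‖a‖ := norm_pos_iff.2 ha
  have hb' : 0 < ‖b‖ := norm_pos_iff.2 hb
  refine ⟨‖a‖⁻¹ * ‖b‖⁻¹, by positivity, ?_⟩
  intro F G H L mF mG mH bF bG bH sF sG sH s hs
  have hs0 : 0 ≤ s := (norm_nonneg _).trans (hs 0)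
  set J : ℂ → ℂ := fun x => ∫ y : ℂ, G y * H (a * x + b * y) with hJ
  have e1 : ∫ x : ℂ, ∫ y : ℂ, F x * G y * H (a * x + b * y) = ∫ x : ℂ, F x * J x := by
    refine integral_congr_ae (Filter.Eventually.of_forall fun x => ?_)
    simp only [hJ]
    rw [← integral_const_mul]
    refine integral_congr_ae (Filter.Eventually.of_forall fun y => ?_)
    ring
  -- the inner function
  have iG : Integrable G := memLp_one_iff_integrable.1 (A1_memLp G mG.aestronglyMeasurable 1 L bG sG 1)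
  have mJ : AEStronglyMeasurable J volume := by
    have h : StronglyMeasurable (Function.uncurry fun (x y : ℂ) => G y * H (a * x + b * y)) := by
      apply Measurable.stronglyMeasurable
      exact (mG.comp measurable_snd).mul (mH.comp
        ((measurable_const.mul measurable_fst).add (measurable_const.mul measurable_snd)))
    exact (h.integral_prod_right (ν := (volume : Measure ℂ))).aestronglyMeasurable
  have bJ : ∀ x, ‖J x‖ ≤ ∫ y, ‖G y‖ := by
    intro x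
    refine (norm_integral_le_integral_norm _).trans ?_
    refine integral_mono_of_nonneg (Filter.Eventually.of_forall fun c => norm_nonneg _)
      iG.norm (Filter.Eventually.of_forall fun c => ?_)
    simp only [norm_mul]
    exact mul_le_of_le_one_right (norm_nonneg _) (bH _)
  have sJ : ∀ x, (|L| + ‖b‖ * |L|) / ‖a‖ < ‖x‖ → J x = 0 := by
    intro x hx
    rw [div_lt_iff₀ ha'] at hx
    simp only [hJ]
    refine integral_eq_zero_of_ae (Filter.Eventually.of_forall fun y => ?_)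
    simp only [Pi.zero_apply]
    by_cases hy : L < ‖y‖
    · rw [sG y hy, zero_mul]
    · rw [sH _ ?_, mul_zero]
      have h1 : ‖a * x‖ - ‖b * y‖ ≤ ‖a * x + b * y‖ := norm_sub_le_norm_add _ _
      rw [norm_mul, norm_mul] at h1
      have h2 : ‖b‖ * ‖y‖ ≤ ‖b‖ * |L| :=
        mul_le_mul_of_nonneg_left ((not_lt.1 hy).trans (le_abs_self L)) hb'.le
      have h3 := le_abs_self L
      nlinarith
  have J2 : MemLp J 2 := A1_memLp J mJ _ _ bJ sJ 2
  have F2 : MemLp F 2 := A1_memLp F mF.aestronglyMeasurable 1 L bF sF 2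
  -- Cauchy-Schwarz
  have cs : ‖∫ x : ℂ, F x * J x‖ ≤ Real.sqrt (∫ x : ℂ, ‖F x‖ ^ 2) * Real.sqrt (∫ x : ℂ, ‖J x‖ ^ 2) := by
    refine (norm_integral_le_integral_norm _).trans ?_
    simp only [norm_mul]
    have h := integral_mul_norm_le_Lp_mul_Lq (μ := (volume : Measure ℂ)) (p := 2) (q := 2)
      (f := F) (g := J) ⟨by norm_num, by norm_num, by norm_num⟩ (by simpa using F2) (by simpa using J2)
    simpa [Real.sqrt_eq_rpow] using h
  -- the L2 norm of the inner function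
  have key : ∫ x : ℂ, ‖J x‖ ^ 2 ≤ (‖a‖⁻¹ * ‖b‖⁻¹ * s) ^ 2 * ∫ x : ℂ, ‖G x‖ ^ 2 := by
    set w : ℂ → ℂ := fun c => G (b⁻¹ * c) with hw
    set H' : ℂ → ℂ := fun c => conj (H c) with hH'
    have mw : Measurable w := mG.comp (measurable_const.mul measurable_id)
    have mH' : Measurable H' := (continuous_conj.measurable).comp mH
    have sw : ∀ c, |L| * (‖b‖ + 1) < ‖c‖ → w c = 0 := by
      intro c hc
      refine sG _ ?_
      rw [norm_mul, norm_inv, ← div_eq_inv_mul, lt_div_iff₀ hb']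
      have h1 : L * ‖b‖ ≤ |L| * ‖b‖ := mul_le_mul_of_nonneg_right (le_abs_self L) hb'.le
      have h2 : 0 ≤ |L| := abs_nonneg L
      nlinarith
    have sH' : ∀ c, |L| * (‖b‖ + 1) < ‖c‖ → H' c = 0 := by
      intro c hc
      change conj (H c) = 0
      rw [sH c ?_, map_zero]
      have h1 : 0 ≤ |L| * ‖b‖ := by positivity
      have h2 := le_abs_self L
      linarith
    have hFT : ∀ ζ, ‖FT H' ζ‖ ≤ s := by
      intro ζ
      have h : FT H' ζ = conj (FT H (-ζ)) := by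
        rw [FT, FT, ← integral_conj]
        refine integral_congr_ae (Filter.Eventually.of_forall fun v => ?_)
        simp only [hH', map_mul, ip_neg_left, ← Complex.exp_conj, map_neg, conj_ofReal, conj_I]
        congr 2
        push_cast
        ring
      rw [h, RCLike.norm_conj]
      exact hs _
    have h1 := CB2 H' w mH' mw 1 (|L| * (‖b‖ + 1))
      (fun x => by change ‖conj (H x)‖ ≤ 1; rw [RCLike.norm_conj]; exact bH x) (fun x => bG _)
      sH' sw s hFT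
    have h2 : ∀ y : ℂ, ∫ c : ℂ, w c * conj (H' (c + y)) = ‖b‖ ^ 2 • ∫ c : ℂ, G c * H (b * c + y) := by
      intro y
      have h3 := A1_scale b (fun c => w c * conj (H' (c + y)))
      have h4 : ∫ x : ℂ, (fun c => w c * conj (H' (c + y))) (b * x) = ∫ c : ℂ, G c * H (b * c + y) := by
        refine integral_congr_ae (Filter.Eventually.of_forall fun v => ?_)
        simp only [hw, hH', Complex.conj_conj]
        rw [← mul_assoc, inv_mul_cancel₀ hb, one_mul]
      rw [← h4, h3, smul_smul, mul_inv_cancel₀ (by positivity), one_smul]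
    have h5 : ∫ x : ℂ, ‖J x‖ ^ 2 = (‖a‖ ^ 2)⁻¹ * ∫ y : ℂ, ‖∫ c : ℂ, G c * H (b * c + y)‖ ^ 2 := by
      have h6 := A1_scale a (fun y => ‖∫ c : ℂ, G c * H (b * c + y)‖ ^ 2)
      rw [smul_eq_mul] at h6
      rw [← h6]
      refine integral_congr_ae (Filter.Eventually.of_forall fun v => ?_)
      simp only [hJ]
      congr 2
      refine integral_congr_ae (Filter.Eventually.of_forall fun c => ?_)
      simp only [add_comm]
    have h7 : ∫ c : ℂ, ‖w c‖ ^ 2 = ‖b‖ ^ 2 * ∫ x : ℂ, ‖G x‖ ^ 2 := by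
      have h8 := A1_scale b⁻¹ (fun y => ‖G y‖ ^ 2)
      rw [smul_eq_mul, norm_inv, inv_pow, inv_inv] at h8
      exact h8
    have h9 : ∫ y : ℂ, ‖∫ c : ℂ, w c * conj (H' (c + y))‖ ^ 2 =
        ‖b‖ ^ 4 * ∫ y : ℂ, ‖∫ c : ℂ, G c * H (b * c + y)‖ ^ 2 := by
      rw [← integral_const_mul]
      refine integral_congr_ae (Filter.Eventually.of_forall fun y => ?_)
      simp only [h2, norm_smul, norm_pow, norm_norm]
      ring
    rw [h9, h7] at h1
    rw [h5]
    have h10 : ∫ y : ℂ, ‖∫ c : ℂ, G c * H (b * c + y)‖ ^ 2 ≤ s ^ 2 * (‖b‖ ^ 2)⁻¹ * ∫ x : ℂ, ‖G x‖ ^ 2 := by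
      have hb4 : 0 < ‖b‖ ^ 4 := by positivity
      refine le_of_mul_le_mul_left (h1.trans (le_of_eq ?_)) hb4
      field_simp
    calc (‖a‖ ^ 2)⁻¹ * ∫ y : ℂ, ‖∫ c : ℂ, G c * H (b * c + y)‖ ^ 2
        ≤ (‖a‖ ^ 2)⁻¹ * (s ^ 2 * (‖b‖ ^ 2)⁻¹ * ∫ x : ℂ, ‖G x‖ ^ 2) :=
          mul_le_mul_of_nonneg_left h10 (by positivity)
      _ = (‖a‖⁻¹ * ‖b‖⁻¹ * s) ^ 2 * ∫ x : ℂ, ‖G x‖ ^ 2 := by
          rw [mul_pow, mul_pow, inv_pow, inv_pow]; ring
  rw [e1]
  refine cs.trans ?_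
  have h := Real.sqrt_le_sqrt key
  rw [Real.sqrt_mul (by positivity), Real.sqrt_sq (by positivity)] at h
  calc Real.sqrt (∫ x : ℂ, ‖F x‖ ^ 2) * Real.sqrt (∫ x : ℂ, ‖J x‖ ^ 2)
      ≤ Real.sqrt (∫ x : ℂ, ‖F x‖ ^ 2) * (‖a‖⁻¹ * ‖b‖⁻¹ * s * Real.sqrt (∫ x : ℂ, ‖G x‖ ^ 2)) :=
        mul_le_mul_of_nonneg_left h (Real.sqrt_nonneg _)
    _ = _ := by ring

end TriDil
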