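import Pool.Agent.TriDil.Basic7
import Pool.Agent.TriDil.A1
set_option autoImplicit false
open MeasureTheory Complex Set
namespace TriDil

/-! ### measure of rings -/

theorem A11_ring (m h : ℝ) (hh : 0 ≤ h) :
    volume {w : ℂ | |normSq w - m| ≤ h} ≤ ENNReal.ofReal (2 * Real.pi * h) := by
  by_cases h1 : m + h < 0
  · have : {w : ℂ | |normSq w - m| ≤ h} = ∅ := by
      ext w
      simp only [mem_ofPred_eq, mem_empty_iff_false, iff_false, not_le]
      have := normSq_nonneg w
      rw [lt_abs]; left; linarith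
    rw [this]; simp
  push Not at h1
  have hs : {w : ℂ | |normSq w - m| ≤ h} ⊆
      Metric.closedBall 0 (√(m + h)) \ Metric.ball 0 (√(m - h)) := by
    intro w hw
    simp only [mem_ofPred_eq, abs_le] at hw
    constructor
    · rw [mem_closedBall_zero_iff]
      apply Real.le_sqrt_of_sq_le
      rw [← normSq_eq_norm_sq]; linarith
    · rw [mem_ball_zero_iff, not_lt]
      apply Real.sqrt_le_iff.mpr
      refine ⟨norm_nonneg _, ?_⟩
      rw [← normSq_eq_norm_sq]; linarith
  have hsub : Metric.ball (0 : ℂ) (√(m - h)) ⊆ Metric.closedBall 0 (√(m + h)) := by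
    apply (Metric.ball_subset_closedBall).trans
    apply Metric.closedBall_subset_closedBall
    apply Real.sqrt_le_sqrt; linarith
  have hpi : (NNReal.pi : ENNReal) = ENNReal.ofReal Real.pi := by
    rw [ENNReal.ofReal, ← NNReal.coe_real_pi, Real.toNNReal_coe]
  have hvol : ∀ t : ℝ, ENNReal.ofReal (√t) ^ 2 * (NNReal.pi : ENNReal)
      = ENNReal.ofReal (max t 0 * Real.pi) := by
    intro t
    rw [hpi, ← ENNReal.ofReal_pow (Real.sqrt_nonneg _), ← ENNReal.ofReal_mul (sq_nonneg _)]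
    congr 2
    rcases le_total 0 t with ht | ht
    · rw [Real.sq_sqrt ht, max_eq_left ht]
    · rw [Real.sqrt_eq_zero_of_nonpos ht, max_eq_right ht]; norm_num
  calc volume {w : ℂ | |normSq w - m| ≤ h}
      ≤ volume (Metric.closedBall (0 : ℂ) (√(m + h)) \ Metric.ball 0 (√(m - h))) := measure_mono hs
    _ = volume (Metric.closedBall (0 : ℂ) (√(m + h))) - volume (Metric.ball (0 : ℂ) (√(m - h))) := by
        apply measure_sdiff hsub measurableSet_ball.nullMeasurableSet
        rw [Complex.volume_ball, hvol]; exact ENNReal.ofReal_ne_top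
    _ = ENNReal.ofReal (max (m + h) 0 * Real.pi - max (m - h) 0 * Real.pi) := by
        rw [Complex.volume_ball, Complex.volume_closedBall, hvol, hvol, ENNReal.ofReal_sub]
        positivity
    _ ≤ ENNReal.ofReal (2 * Real.pi * h) := by
        apply ENNReal.ofReal_le_ofReal
        have h2 : max (m + h) 0 - max (m - h) 0 ≤ 2 * h := by
          rw [max_eq_left h1]
          have := le_max_left (m - h) 0
          linarith
        have := mul_le_mul_of_nonneg_right h2 Real.pi_pos.le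
        linarith

theorem A11_prod_ring (R m h : ℝ) (hR : 0 ≤ R) (hh : 0 ≤ h) :
    volume {z : ℂ × ℂ | ‖z.1‖ ≤ R ∧ |normSq (z.2 - z.1) - m| ≤ h}
      ≤ ENNReal.ofReal (Real.pi * R ^ 2 * (2 * Real.pi * h)) := by
  have hmp := measurePreserving_prod_neg_add (volume : Measure ℂ) (volume : Measure ℂ)
  have hms : MeasurableSet {w : ℂ | |normSq w - m| ≤ h} := by
    have : IsClosed {w : ℂ | |normSq w - m| ≤ h} :=
      isClosed_le ((continuous_normSq.sub continuous_const).abs) continuous_const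
    exact this.measurableSet
  have he : {z : ℂ × ℂ | ‖z.1‖ ≤ R ∧ |normSq (z.2 - z.1) - m| ≤ h}
      = (fun z : ℂ × ℂ => (z.1, -z.1 + z.2)) ⁻¹'
        (Metric.closedBall (0 : ℂ) R ×ˢ {w : ℂ | |normSq w - m| ≤ h}) := by
    ext z
    simp only [mem_ofPred_eq, mem_preimage, mem_prod, mem_closedBall_zero_iff, neg_add_eq_sub]
  rw [he]
  have h1 := hmp.measure_preimage
    (measurableSet_closedBall.prod hms).nullMeasurableSet (s := Metric.closedBall (0 : ℂ) R ×ˢ _)
  have hpi : (NNReal.pi : ENNReal) = ENNReal.ofReal Real.pi := by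
    rw [ENNReal.ofReal, ← NNReal.coe_real_pi, Real.toNNReal_coe]
  calc volume ((fun z : ℂ × ℂ => (z.1, -z.1 + z.2)) ⁻¹'
        (Metric.closedBall (0 : ℂ) R ×ˢ {w : ℂ | |normSq w - m| ≤ h}))
      = volume (Metric.closedBall (0 : ℂ) R) * volume {w : ℂ | |normSq w - m| ≤ h} := by
        rw [← Measure.prod_prod]; exact h1
    _ ≤ ENNReal.ofReal (Real.pi * R ^ 2) * ENNReal.ofReal (2 * Real.pi * h) := by
        apply mul_le_mul' _ (A11_ring m h hh)
        rw [Complex.volume_closedBall, hpi, ← ENNReal.ofReal_pow hR,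
          ← ENNReal.ofReal_mul (sq_nonneg _), mul_comm]
    _ = _ := by rw [← ENNReal.ofReal_mul (by positivity)]

/-! ### bounded functions on the product with bounded support -/

theorem A11_int (R N : ℝ) (f : ℂ × ℂ → ℂ) (hf : Measurable f) (hN : ∀ z, ‖f z‖ ≤ N)
    (hs : ∀ z, f z ≠ 0 → ‖z.1‖ ≤ R ∧ ‖z.2‖ ≤ R) : Integrable f (volume.prod volume) := by
  set B : Set (ℂ × ℂ) := Metric.closedBall (0 : ℂ) R ×ˢ Metric.closedBall (0 : ℂ) R with hB
  have hBm : MeasurableSet B := measurableSet_closedBall.prod measurableSet_closedBall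
  have hfB : f = B.indicator f := by
    funext z
    by_cases hz : z ∈ B
    · rw [indicator_of_mem hz]
    · rw [indicator_of_notMem hz]
      by_contra h
      exact hz ⟨mem_closedBall_zero_iff.mpr (hs z h).1, mem_closedBall_zero_iff.mpr (hs z h).2⟩
  rw [hfB]
  apply IntegrableOn.integrable_indicator _ hBm
  apply Measure.integrableOn_of_bounded (M := N)
  · have h1 : volume (Metric.closedBall (0 : ℂ) R) < ⊤ := measure_closedBall_lt_top
    rw [hB, Measure.prod_prod]
    exact (ENNReal.mul_lt_top h1 h1).ne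
  · exact hf.aestronglyMeasurable
  · exact Filter.Eventually.of_forall hN

/-! ### cells -/

noncomputable def A11_q (δ : ℝ) (n : ℤ × ℤ) : ℂ := δ * ((n.1 : ℝ) + (n.2 : ℝ) * I)

theorem A11_q_le (δ : ℝ) (hδ : 0 < δ) (x : ℂ) : ‖x - A11_q δ (cell δ x)‖ ≤ 2 * δ := by
  have key : ∀ t : ℝ, |t - δ * (⌊t / δ⌋ : ℤ)| ≤ δ := by
    intro t
    have h1 := Int.floor_le (t / δ)
    have h2 := Int.lt_floor_add_one (t / δ)
    have h3 : δ * (t / δ) = t := by field_simp
    rw [abs_le]
    constructor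
    · nlinarith
    · nlinarith
  have hre : (x - A11_q δ (cell δ x)).re = x.re - δ * (⌊x.re / δ⌋ : ℤ) := by
    simp [A11_q, cell]
  have him : (x - A11_q δ (cell δ x)).im = x.im - δ * (⌊x.im / δ⌋ : ℤ) := by
    simp [A11_q, cell]
  calc _ ≤ _ := Complex.norm_le_abs_re_add_abs_im _
    _ ≤ 2 * δ := by rw [hre, him]; linarith [key x.re, key x.im]

theorem A11_cell_meas (δ : ℝ) : Measurable (cell δ) := by
  unfold cell
  exact ((measurable_re.div_const δ).floor).prodMk ((measurable_im.div_const δ).floor)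

/-- number of cells meeting the ball -/
theorem A11_cell_mem (R δ : ℝ) (hR : 0 ≤ R) (hδ : 0 < δ) (hδ1 : δ ≤ 1) :
    ∃ S : Finset (ℤ × ℤ), (∀ x : ℂ, ‖x‖ ≤ R → cell δ x ∈ S) ∧
      (S.card : ℝ) ≤ ((2 * R + 5) / δ) ^ 2 := by
  set M : ℕ := ⌈R / δ⌉₊ + 1 with hM
  have hM1 : (R / δ) + 1 ≤ M := by
    rw [hM]; push_cast; linarith [Nat.le_ceil (R / δ)]
  have hM2 : (M : ℝ) ≤ R / δ + 2 := by
    rw [hM]; push_cast
    have := Nat.ceil_lt_add_one (div_nonneg hR hδ.le)
    linarith
  have key : ∀ t : ℝ, |t| ≤ R → ⌊t / δ⌋ ∈ Finset.Icc (-(M : ℤ)) M := by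
    intro t ht
    rw [abs_le] at ht
    have h1 : t / δ ≤ R / δ := div_le_div_of_nonneg_right ht.2 hδ.le
    have h2 : -(R / δ) ≤ t / δ := by rw [← neg_div]; exact div_le_div_of_nonneg_right ht.1 hδ.le
    rw [Finset.mem_Icc]
    constructor
    · rw [Int.le_floor]; push_cast; linarith
    · have h3 := Int.floor_le (t / δ)
      have h4 : ((⌊t / δ⌋ : ℤ) : ℝ) ≤ ((M : ℤ) : ℝ) := by push_cast; linarith
      exact_mod_cast h4
  refine ⟨Finset.Icc (-(M : ℤ)) M ×ˢ Finset.Icc (-(M : ℤ)) M, ?_, ?_⟩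
  · intro x hx
    rw [Finset.mem_product]
    exact ⟨key _ ((abs_re_le_norm x).trans hx), key _ ((abs_im_le_norm x).trans hx)⟩
  · rw [Finset.card_product, Int.card_Icc]
    have h1 : ((M : ℤ) + 1 - -(M : ℤ)).toNat = 2 * M + 1 := by omega
    rw [h1]
    push_cast
    have h2 : 2 * (M : ℝ) + 1 ≤ (2 * R + 5) / δ := by
      rw [le_div_iff₀ hδ]
      have h3 : (2 * (M : ℝ) + 1) * δ ≤ (2 * (R / δ + 2) + 1) * δ :=
        mul_le_mul_of_nonneg_right (by linarith) hδ.le
      have h4 : (2 * (R / δ + 2) + 1) * δ = 2 * R + 5 * δ := by field_simp; ring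
      linarith
    have h3 : (0 : ℝ) ≤ 2 * M + 1 := by positivity
    nlinarith

theorem A11_kN_le (N : ℝ) (hN : 0 ≤ N) (u : ℂ) : |kN N u| ≤ N := by
  unfold kN; split_ifs
  · rw [abs_of_nonneg hN]
  · simpa using hN

theorem A11_kN_meas (N : ℝ) : Measurable (kN N) := by
  unfold kN
  apply Measurable.ite _ measurable_const measurable_const
  exact (measurableSet_le measurable_const continuous_normSq.measurable).inter
    (measurableSet_le continuous_normSq.measurable measurable_const)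

/-- if the kernel changes, then we are close to one of the two circles -/
theorem A11_kN_ne (N h : ℝ) (u v : ℂ) (hne : kN N u ≠ kN N v) (huv : |normSq u - normSq v| ≤ h) :
    |normSq u - 1| ≤ h ∨ |normSq u - (1 + 1 / N)| ≤ h := by
  rw [abs_le] at huv
  simp only [abs_le]
  unfold kN at hne
  by_contra hcon
  push Not at hcon
  obtain ⟨c1, c2⟩ := hcon
  apply hne
  by_cases h1 : 1 ≤ normSq u
  · by_cases h2 : normSq u ≤ 1 + 1 / N
    · have h3 : 1 ≤ normSq v := by
        by_contra h4; push Not at h4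
        have := c1 (by linarith)
        linarith
      have h5 : normSq v ≤ 1 + 1 / N := by
        by_contra h4; push Not at h4
        have := c2 (by linarith)
        linarith
      rw [if_pos ⟨h1, h2⟩, if_pos ⟨h3, h5⟩]
    · push Not at h2
      have h5 : ¬ (1 ≤ normSq v ∧ normSq v ≤ 1 + 1 / N) := by
        rintro ⟨h3, h4⟩
        have := c2 (by linarith)
        linarith
      rw [if_neg (by rintro ⟨_, h⟩; linarith), if_neg h5]
  · push Not at h1
    have h5 : ¬ (1 ≤ normSq v ∧ normSq v ≤ 1 + 1 / N) := by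
      rintro ⟨h3, h4⟩
      have := c1 (by linarith)
      linarith
    rw [if_neg (by rintro ⟨h, _⟩; linarith), if_neg h5]

theorem A11_sq_int (R : ℝ) (hR : 0 ≤ R) (F : ℂ → ℂ) (hF : BF R F) :
    ∫ x : ℂ, ‖F x‖ ^ 2 ≤ Real.pi * R ^ 2 := by
  have hpi : (NNReal.pi : ENNReal) = ENNReal.ofReal Real.pi := by
    rw [ENNReal.ofReal, ← NNReal.coe_real_pi, Real.toNNReal_coe]
  have hvol : volume.real (Metric.closedBall (0 : ℂ) R) = Real.pi * R ^ 2 := by
    rw [Measure.real, Complex.volume_closedBall, hpi, ← ENNReal.ofReal_pow hR,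
      ← ENNReal.ofReal_mul (sq_nonneg _), ENNReal.toReal_ofReal (by positivity), mul_comm]
  calc ∫ x : ℂ, ‖F x‖ ^ 2 ≤ ∫ x : ℂ, (Metric.closedBall (0 : ℂ) R).indicator (fun _ => (1 : ℝ)) x := by
        apply integral_mono_of_nonneg
        · exact Filter.Eventually.of_forall fun x => sq_nonneg _
        · apply IntegrableOn.integrable_indicator _ measurableSet_closedBall
          exact integrableOn_const (hs := (measure_closedBall_lt_top).ne)
        · apply Filter.Eventually.of_forall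
          intro x
          by_cases hx : x ∈ Metric.closedBall (0 : ℂ) R
          · rw [indicator_of_mem hx]
            have := hF.le x
            have h0 := norm_nonneg (F x)
            show ‖F x‖ ^ 2 ≤ 1
            nlinarith
          · rw [indicator_of_notMem hx]
            rw [mem_closedBall_zero_iff, not_le] at hx
            show ‖F x‖ ^ 2 ≤ 0
            rw [hF.supp x hx]; simp
    _ = Real.pi * R ^ 2 := by
        rw [integral_indicator_const _ measurableSet_closedBall, hvol]; simp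

/-- restriction to a cell -/
theorem A11_BF_cell (R δ : ℝ) (F : ℂ → ℂ) (hF : BF R F) (m : ℤ × ℤ) :
    BF R (fun x => if cell δ x = m then F x else 0) where
  meas := Measurable.ite (A11_cell_meas δ (measurableSet_singleton m)) hF.meas measurable_const
  le := by
    intro x
    split_ifs
    · exact hF.le x
    · simp
  supp := by
    intro x hx
    split_ifs
    · exact hF.supp x hx
    · rfl

theorem A11_main (a b c : ℂ) (ha : a ≠ 0) (hb : b ≠ 0) (hc : c ≠ 0) (R : ℝ) (hR : 0 ≤ R) :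
    ∃ C : ℝ, 0 < C ∧ ∀ N : ℝ, 1 ≤ N → ∀ δ : ℝ, 0 < δ → δ ≤ 1 → ∀ F G H : ℂ → ℂ,
      BF R F → BF R G → BF R H → ∀ s : ℝ, (∀ ξ, ‖FT H ξ‖ ≤ s) →
      ‖∫ z : ℂ × ℂ, (kN N (c * (z.2 - z.1)) : ℂ) * (F z.1 * G z.2 * H (a * z.1 + b * z.2))‖
        ≤ C * N * s / δ ^ 4 + C * N * δ := by
  obtain ⟨C0, hC0, hcf⟩ := complete_form a b ha hb
  set nc : ℝ := normSq c with hnc
  have hncp : 0 < nc := normSq_pos.mpr hc
  -- the shift constant
  set A : ℝ := 4 * ‖c‖ * (4 * ‖c‖ * R + 4 * ‖c‖) with hA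
  have hcp : 0 < ‖c‖ := norm_pos_iff.mpr hc
  have hAp : 0 < A := by positivity
  set C1 : ℝ := C0 * (Real.pi * R ^ 2) * (2 * R + 5) ^ 4 with hC1
  set C2 : ℝ := 4 * (Real.pi * R ^ 2 * (2 * Real.pi * (A / nc))) with hC2
  have hC1n : 0 ≤ C1 := by positivity
  have hC2n : 0 ≤ C2 := by positivity
  refine ⟨C1 + C2 + 1, by positivity, ?_⟩
  intro N hN δ hδ hδ1 F G H hF hG hH s hs
  have hs0 : 0 ≤ s := (norm_nonneg _).trans (hs 0)
  have hN0 : 0 < N := by linarith
  obtain ⟨S, hS, hScard⟩ := A11_cell_mem R δ hR hδ hδ1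
  set K : ℂ × ℂ → ℂ := fun z => (kN N (c * (z.2 - z.1)) : ℂ) with hK
  set K' : ℂ × ℂ → ℂ := fun z =>
    (kN N (c * (A11_q δ (cell δ z.2) - A11_q δ (cell δ z.1))) : ℂ) with hK'
  set P : ℂ × ℂ → ℂ := fun z => F z.1 * G z.2 * H (a * z.1 + b * z.2) with hP
  have hPm : Measurable P := by
    apply ((hF.meas.comp measurable_fst).mul (hG.meas.comp measurable_snd)).mul
    exact hH.meas.comp ((measurable_fst.const_mul a).add (measurable_snd.const_mul b))
  have hP1 : ∀ z, ‖P z‖ ≤ 1 := by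
    intro z
    simp only [hP, norm_mul]
    have h1 := hF.le z.1
    have h2 := hG.le z.2
    have h3 := hH.le (a * z.1 + b * z.2)
    calc ‖F z.1‖ * ‖G z.2‖ * ‖H (a * z.1 + b * z.2)‖ ≤ 1 * 1 * 1 := by gcongr
      _ = 1 := by norm_num
  have hPs : ∀ z, P z ≠ 0 → ‖z.1‖ ≤ R ∧ ‖z.2‖ ≤ R := by
    intro z hz
    constructor
    · by_contra h
      push Not at h
      apply hz; simp only [hP]; rw [hF.supp _ h]; ring
    · by_contra h
      push Not at h
      apply hz; simp only [hP]; rw [hG.supp _ h]; ring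
  have hKm : Measurable K := by
    apply Complex.measurable_ofReal.comp
    exact (A11_kN_meas N).comp ((measurable_snd.sub measurable_fst).const_mul c)
  have hqm : Measurable (A11_q δ) := measurable_of_countable _
  have hK'm : Measurable K' := by
    apply Complex.measurable_ofReal.comp
    apply (A11_kN_meas N).comp
    apply Measurable.const_mul
    exact (hqm.comp ((A11_cell_meas δ).comp measurable_snd)).sub
      (hqm.comp ((A11_cell_meas δ).comp measurable_fst))
  have hKN : ∀ z, ‖K z‖ ≤ N := by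
    intro z; simp only [hK, norm_real, Real.norm_eq_abs]; exact A11_kN_le N hN0.le _
  have hKN' : ∀ z, ‖K' z‖ ≤ N := by
    intro z; simp only [hK', norm_real, Real.norm_eq_abs]; exact A11_kN_le N hN0.le _
  have iK : Integrable (fun z => K z * P z) (volume.prod volume) := by
    apply A11_int R N _ (hKm.mul hPm)
    · intro z
      rw [Pi.mul_apply, norm_mul]
      calc ‖K z‖ * ‖P z‖ ≤ N * 1 := mul_le_mul (hKN z) (hP1 z) (norm_nonneg _) hN0.le
        _ = N := mul_one N
    · intro z hz; exact hPs z (right_ne_zero_of_mul hz)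
  have iK' : Integrable (fun z => K' z * P z) (volume.prod volume) := by
    apply A11_int R N _ (hK'm.mul hPm)
    · intro z
      rw [Pi.mul_apply, norm_mul]
      calc ‖K' z‖ * ‖P z‖ ≤ N * 1 := mul_le_mul (hKN' z) (hP1 z) (norm_nonneg _) hN0.le
        _ = N := mul_one N
    · intro z hz; exact hPs z (right_ne_zero_of_mul hz)
  -- the error term
  have herr : ‖∫ z : ℂ × ℂ, (K z * P z - K' z * P z)‖ ≤ C2 * N * δ := by
    set h : ℝ := A * δ / nc with hh
    have hhn : 0 ≤ h := by positivity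
    set E1 : Set (ℂ × ℂ) := {z : ℂ × ℂ | ‖z.1‖ ≤ R ∧ |normSq (z.2 - z.1) - 1 / nc| ≤ h} with hE1
    set E2 : Set (ℂ × ℂ) := {z : ℂ × ℂ | ‖z.1‖ ≤ R ∧ |normSq (z.2 - z.1) - (1 + 1 / N) / nc| ≤ h}
      with hE2
    have hv1 : volume E1 ≤ ENNReal.ofReal (Real.pi * R ^ 2 * (2 * Real.pi * h)) :=
      A11_prod_ring R _ h hR hhn
    have hv2 : volume E2 ≤ ENNReal.ofReal (Real.pi * R ^ 2 * (2 * Real.pi * h)) :=
      A11_prod_ring R _ h hR hhn
    have hEm : ∀ m : ℝ, MeasurableSet {z : ℂ × ℂ | ‖z.1‖ ≤ R ∧ |normSq (z.2 - z.1) - m| ≤ h} := by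
      intro m
      have q1 : MeasurableSet {z : ℂ × ℂ | ‖z.1‖ ≤ R} :=
        measurableSet_le (measurable_fst.norm) measurable_const
      have q2 : Continuous fun z : ℂ × ℂ => |normSq (z.2 - z.1) - m| :=
        ((continuous_normSq.comp (continuous_snd.sub continuous_fst)).sub continuous_const).abs
      have q3 : MeasurableSet {z : ℂ × ℂ | |normSq (z.2 - z.1) - m| ≤ h} :=
        measurableSet_le q2.measurable measurable_const
      exact q1.inter q3
    have hEmu : MeasurableSet (E1 ∪ E2) := (hEm _).union (hEm _)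
    have hvu : volume (E1 ∪ E2) ≤ ENNReal.ofReal (2 * (Real.pi * R ^ 2 * (2 * Real.pi * h))) := by
      calc volume (E1 ∪ E2) ≤ volume E1 + volume E2 := measure_union_le _ _
        _ ≤ _ := add_le_add hv1 hv2
        _ = _ := by rw [← ENNReal.ofReal_add (by positivity) (by positivity)]; congr 1; ring
    have hfin : volume (E1 ∪ E2) < ⊤ := lt_of_le_of_lt hvu ENNReal.ofReal_lt_top
    have hreal : volume.real (E1 ∪ E2) ≤ 2 * (Real.pi * R ^ 2 * (2 * Real.pi * h)) := by
      rw [Measure.real]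
      exact ENNReal.toReal_le_of_le_ofReal (by positivity) hvu
    have hpt : ∀ z, ‖K z * P z - K' z * P z‖ ≤ (E1 ∪ E2).indicator (fun _ => 2 * N) z := by
      intro z
      by_cases hz : z ∈ E1 ∪ E2
      · rw [indicator_of_mem hz]
        calc ‖K z * P z - K' z * P z‖ ≤ ‖K z * P z‖ + ‖K' z * P z‖ := norm_sub_le _ _
          _ = ‖K z‖ * ‖P z‖ + ‖K' z‖ * ‖P z‖ := by rw [norm_mul (K z) (P z), norm_mul (K' z) (P z)]
          _ ≤ N * 1 + N * 1 := by
              gcongr
              · exact hKN z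
              · exact hP1 z
              · exact hKN' z
              · exact hP1 z
          _ = 2 * N := by ring
      · rw [indicator_of_notMem hz]
        have h0 : K z * P z - K' z * P z = 0 := by
          by_cases hPz : P z = 0
          · rw [hPz]; ring
          obtain ⟨b1, b2⟩ := hPs z hPz
          set u : ℂ := c * (z.2 - z.1) with hu
          set v : ℂ := c * (A11_q δ (cell δ z.2) - A11_q δ (cell δ z.1)) with hv
          have huv : ‖u - v‖ ≤ 4 * ‖c‖ * δ := by
            have e : u - v = c * ((z.2 - A11_q δ (cell δ z.2)) - (z.1 - A11_q δ (cell δ z.1))) := by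
              rw [hu, hv]; ring
            rw [e, norm_mul]
            have h1 := A11_q_le δ hδ z.1
            have h2 := A11_q_le δ hδ z.2
            calc ‖c‖ * ‖(z.2 - A11_q δ (cell δ z.2)) - (z.1 - A11_q δ (cell δ z.1))‖
                ≤ ‖c‖ * (2 * δ + 2 * δ) := by
                  apply mul_le_mul_of_nonneg_left _ hcp.le
                  exact (norm_sub_le _ _).trans (add_le_add h2 h1)
              _ = 4 * ‖c‖ * δ := by ring
          have hun : ‖u‖ ≤ 2 * ‖c‖ * R := by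
            rw [hu, norm_mul]
            calc ‖c‖ * ‖z.2 - z.1‖ ≤ ‖c‖ * (R + R) := by
                  apply mul_le_mul_of_nonneg_left _ hcp.le
                  exact (norm_sub_le _ _).trans (add_le_add b2 b1)
              _ = 2 * ‖c‖ * R := by ring
          have hvn : ‖v‖ ≤ 2 * ‖c‖ * R + 4 * ‖c‖ * δ := by
            have e : v = u - (u - v) := by ring
            rw [e]
            exact (norm_sub_le _ _).trans (add_le_add hun huv)
          have hnn : |normSq u - normSq v| ≤ A * δ := by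
            rw [normSq_eq_norm_sq, normSq_eq_norm_sq]
            have e : ‖u‖ ^ 2 - ‖v‖ ^ 2 = (‖u‖ - ‖v‖) * (‖u‖ + ‖v‖) := by ring
            rw [e, abs_mul]
            have h1 : |‖u‖ - ‖v‖| ≤ 4 * ‖c‖ * δ := (abs_norm_sub_norm_le u v).trans huv
            have h2 : |‖u‖ + ‖v‖| ≤ 4 * ‖c‖ * R + 4 * ‖c‖ := by
              rw [abs_of_nonneg (by positivity)]
              have : 4 * ‖c‖ * δ ≤ 4 * ‖c‖ := by
                have : 4 * ‖c‖ * δ ≤ 4 * ‖c‖ * 1 := by gcongr
                linarith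
              linarith
            calc |‖u‖ - ‖v‖| * |‖u‖ + ‖v‖| ≤ (4 * ‖c‖ * δ) * (4 * ‖c‖ * R + 4 * ‖c‖) := by
                  gcongr
              _ = A * δ := by rw [hA]; ring
          have hEq : kN N u = kN N v := by
            by_contra hne
            apply hz
            have key : ∀ m : ℝ, |normSq u - m| ≤ A * δ → |normSq (z.2 - z.1) - m / nc| ≤ h := by
              intro m hm
              have e : normSq (z.2 - z.1) - m / nc = (normSq u - m) / nc := by
                rw [hu, normSq_mul, ← hnc]; field_simp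
              rw [e, abs_div, abs_of_pos hncp, hh]
              exact div_le_div_of_nonneg_right hm hncp.le
            rcases A11_kN_ne N (A * δ) u v hne hnn with h1 | h1
            · left; exact ⟨b1, key _ h1⟩
            · right; exact ⟨b1, key _ h1⟩
          have : K z = K' z := by
            show ((kN N u : ℝ) : ℂ) = ((kN N v : ℝ) : ℂ)
            rw [hEq]
          rw [this]; ring
        rw [h0, norm_zero]
    calc ‖∫ z : ℂ × ℂ, (K z * P z - K' z * P z)‖ ≤ ∫ z : ℂ × ℂ, ‖K z * P z - K' z * P z‖ :=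
          norm_integral_le_integral_norm _
      _ ≤ ∫ z : ℂ × ℂ, (E1 ∪ E2).indicator (fun _ => 2 * N) z := by
          apply integral_mono_of_nonneg
          · exact Filter.Eventually.of_forall fun x => norm_nonneg _
          · apply IntegrableOn.integrable_indicator _ hEmu
            exact integrableOn_const (hs := hfin.ne)
          · exact Filter.Eventually.of_forall hpt
      _ = volume.real (E1 ∪ E2) * (2 * N) := by
          rw [integral_indicator_const _ hEmu, smul_eq_mul]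
      _ ≤ 2 * (Real.pi * R ^ 2 * (2 * Real.pi * h)) * (2 * N) := by
          apply mul_le_mul_of_nonneg_right hreal (by positivity)
      _ = C2 * N * δ := by rw [hC2, hh]; ring
  -- the main term
  have hmain : ‖∫ z : ℂ × ℂ, K' z * P z‖ ≤ C1 * N * s / δ ^ 4 := by
    set Fm : ℤ × ℤ → ℂ → ℂ := fun m x => if cell δ x = m then F x else 0 with hFm
    set Gn : ℤ × ℤ → ℂ → ℂ := fun m x => if cell δ x = m then G x else 0 with hGn
    set κ : ℤ × ℤ → ℤ × ℤ → ℂ := fun m n => (kN N (c * (A11_q δ n - A11_q δ m)) : ℂ) with hκ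
    have bF : ∀ m, BF R (Fm m) := fun m => A11_BF_cell R δ F hF m
    have bG : ∀ m, BF R (Gn m) := fun m => A11_BF_cell R δ G hG m
    set T : ℤ × ℤ → ℤ × ℤ → ℂ × ℂ → ℂ := fun m n z =>
      Fm m z.1 * Gn n z.2 * H (a * z.1 + b * z.2) with hT
    have iT : ∀ m n, Integrable (T m n) (volume.prod volume) := by
      intro m n
      apply A11_int R 1
      · apply (((bF m).meas.comp measurable_fst).mul ((bG n).meas.comp measurable_snd)).mul
        exact hH.meas.comp ((measurable_fst.const_mul a).add (measurable_snd.const_mul b))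
      · intro z
        simp only [hT, norm_mul]
        have h1 := (bF m).le z.1
        have h2 := (bG n).le z.2
        have h3 := hH.le (a * z.1 + b * z.2)
        calc ‖Fm m z.1‖ * ‖Gn n z.2‖ * ‖H (a * z.1 + b * z.2)‖ ≤ 1 * 1 * 1 := by gcongr
          _ = 1 := by norm_num
      · intro z hz
        constructor
        · by_contra h
          push Not at h
          apply hz; simp only [hT]; rw [(bF m).supp _ h]; ring
        · by_contra h
          push Not at h
          apply hz; simp only [hT]; rw [(bG n).supp _ h]; ring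
    have hexp : ∀ z, K' z * P z = ∑ m ∈ S, ∑ n ∈ S, κ m n * T m n z := by
      intro z
      by_cases h1 : F z.1 = 0
      · have : P z = 0 := by simp only [hP, h1]; ring
        rw [this, mul_zero]
        symm
        apply Finset.sum_eq_zero; intro m _
        apply Finset.sum_eq_zero; intro n _
        simp only [hT, hFm, h1, ite_self]; ring
      by_cases h2 : G z.2 = 0
      · have : P z = 0 := by simp only [hP, h2]; ring
        rw [this, mul_zero]
        symm
        apply Finset.sum_eq_zero; intro m _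
        apply Finset.sum_eq_zero; intro n _
        simp only [hT, hGn, h2, ite_self]; ring
      have m1 : cell δ z.1 ∈ S := by
        apply hS
        by_contra h; push Not at h
        exact h1 (hF.supp _ h)
      have m2 : cell δ z.2 ∈ S := by
        apply hS
        by_contra h; push Not at h
        exact h2 (hG.supp _ h)
      rw [Finset.sum_eq_single (cell δ z.1), Finset.sum_eq_single (cell δ z.2)]
      · simp only [hT, hFm, hGn, hκ, hK', hP, if_true]
      · intro n _ hn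
        simp only [hT, hGn]
        rw [if_neg (Ne.symm hn)]; ring
      · intro h; exact absurd m2 h
      · intro m _ hm
        apply Finset.sum_eq_zero; intro n _
        simp only [hT, hFm]
        rw [if_neg (Ne.symm hm)]; ring
      · intro h; exact absurd m1 h
    have hTb : ∀ m n, ‖∫ z : ℂ × ℂ, T m n z‖ ≤ C0 * s * (Real.pi * R ^ 2) := by
      intro m n
      have h1 : ∫ z : ℂ × ℂ, T m n z = ∫ x : ℂ, ∫ y : ℂ, Fm m x * Gn n y * H (a * x + b * y) :=
        integral_prod _ (iT m n)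
      rw [h1]
      have h2 := hcf (Fm m) (Gn n) H R (bF m).meas (bG n).meas hH.meas (bF m).le (bG n).le hH.le
        (bF m).supp (bG n).supp hH.supp s hs
      refine h2.trans ?_
      have h3 := A11_sq_int R hR _ (bF m)
      have h4 := A11_sq_int R hR _ (bG n)
      have h5 := Real.sqrt_le_sqrt h3
      have h6 := Real.sqrt_le_sqrt h4
      calc C0 * s * √(∫ x : ℂ, ‖Fm m x‖ ^ 2) * √(∫ x : ℂ, ‖Gn n x‖ ^ 2)
          ≤ C0 * s * √(Real.pi * R ^ 2) * √(Real.pi * R ^ 2) := by gcongr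
        _ = C0 * s * (Real.pi * R ^ 2) := by
            rw [mul_assoc, Real.mul_self_sqrt (by positivity)]
    have hκb : ∀ m n, ‖κ m n‖ ≤ N := by
      intro m n
      simp only [hκ, norm_real, Real.norm_eq_abs]; exact A11_kN_le N hN0.le _
    have hint : ∫ z : ℂ × ℂ, K' z * P z = ∑ m ∈ S, ∑ n ∈ S, κ m n * ∫ z : ℂ × ℂ, T m n z := by
      calc ∫ z : ℂ × ℂ, K' z * P z = ∫ z : ℂ × ℂ, ∑ m ∈ S, ∑ n ∈ S, κ m n * T m n z := by
            apply integral_congr_ae; exact Filter.Eventually.of_forall hexp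
        _ = ∑ m ∈ S, ∫ z : ℂ × ℂ, ∑ n ∈ S, κ m n * T m n z := by
            apply integral_finsetSum
            intro m _
            apply integrable_finsetSum
            intro n _
            exact (iT m n).const_mul _
        _ = ∑ m ∈ S, ∑ n ∈ S, ∫ z : ℂ × ℂ, κ m n * T m n z := by
            apply Finset.sum_congr rfl; intro m _
            apply integral_finsetSum
            intro n _
            exact (iT m n).const_mul _
        _ = _ := by
            apply Finset.sum_congr rfl; intro m _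
            apply Finset.sum_congr rfl; intro n _
            exact integral_const_mul _ _
    rw [hint]
    calc ‖∑ m ∈ S, ∑ n ∈ S, κ m n * ∫ z : ℂ × ℂ, T m n z‖
        ≤ ∑ m ∈ S, ∑ n ∈ S, N * (C0 * s * (Real.pi * R ^ 2)) := by
          apply norm_sum_le_of_le; intro m _
          apply norm_sum_le_of_le; intro n _
          rw [norm_mul]
          exact mul_le_mul (hκb m n) (hTb m n) (norm_nonneg _) hN0.le
      _ = (S.card : ℝ) * ((S.card : ℝ) * (N * (C0 * s * (Real.pi * R ^ 2)))) := by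
          simp only [Finset.sum_const, nsmul_eq_mul]
      _ ≤ ((2 * R + 5) / δ) ^ 2 * (((2 * R + 5) / δ) ^ 2 * (N * (C0 * s * (Real.pi * R ^ 2)))) := by
          gcongr
      _ = C1 * N * s / δ ^ 4 := by rw [hC1]; field_simp
  have hsum : ∫ z : ℂ × ℂ, K z * P z
      = (∫ z : ℂ × ℂ, (K z * P z - K' z * P z)) + ∫ z : ℂ × ℂ, K' z * P z := by
    have := integral_sub iK iK'
    have h2 : ∫ z : ℂ × ℂ, (K z * P z - K' z * P z)
        = (∫ z : ℂ × ℂ, K z * P z) - ∫ z : ℂ × ℂ, K' z * P z := this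
    rw [h2]; ring
  have hfin : ‖∫ z : ℂ × ℂ, K z * P z‖ ≤ (C1 + C2 + 1) * N * s / δ ^ 4 + (C1 + C2 + 1) * N * δ := by
    rw [hsum]
    calc _ ≤ _ := norm_add_le _ _
      _ ≤ C2 * N * δ + C1 * N * s / δ ^ 4 := add_le_add herr hmain
      _ ≤ (C1 + C2 + 1) * N * δ + (C1 + C2 + 1) * N * s / δ ^ 4 := by
          gcongr <;> linarith
      _ = _ := by ring
  exact hfin

/-! ### the trilinear form in other coordinates -/

theorem A11_TK (ω : ℂ) (N R : ℝ) (hN : 0 ≤ N) (f0 f1 f2 : ℂ → ℂ) (h0 : BF R f0) (h1 : BF R f1)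
    (h2 : BF R f2) :
    TK ω (kN N) f0 f1 f2 = ∫ x : ℂ, ∫ u : ℂ, (kN N u : ℂ) * (f0 x * f1 (x + u) * f2 (x + ω * u)) := by
  unfold TK
  have e : ∀ u : ℂ, (kN N u : ℂ) * ∫ x : ℂ, f0 x * f1 (x + u) * f2 (x + ω * u)
      = ∫ x : ℂ, (kN N u : ℂ) * (f0 x * f1 (x + u) * f2 (x + ω * u)) := by
    intro u; rw [integral_const_mul]
  simp_rw [e]
  apply integral_integral_swap
  apply A11_int (|R| + |R|) N
  · apply (Complex.measurable_ofReal.comp ((A11_kN_meas N).comp measurable_fst)).mul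
    apply ((h0.meas.comp measurable_snd).mul
      (h1.meas.comp (measurable_snd.add measurable_fst))).mul
    exact h2.meas.comp (measurable_snd.add (measurable_fst.const_mul ω))
  · rintro ⟨u, x⟩
    simp only [Function.uncurry_apply_pair, norm_mul, norm_real, Real.norm_eq_abs]
    have b0 := h0.le x
    have b1 := h1.le (x + u)
    have b2 := h2.le (x + ω * u)
    have b3 := A11_kN_le N hN u
    calc |kN N u| * (‖f0 x‖ * ‖f1 (x + u)‖ * ‖f2 (x + ω * u)‖) ≤ N * (1 * 1 * 1) := by gcongr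
      _ = N := by ring
  · rintro ⟨u, x⟩ hz
    simp only [Function.uncurry_apply_pair] at hz
    have c0 : ‖x‖ ≤ R := by
      by_contra h; push Not at h
      apply hz; rw [h0.supp _ h]; ring
    have c1 : ‖x + u‖ ≤ R := by
      by_contra h; push Not at h
      apply hz; rw [h1.supp _ h]; ring
    have hR : R ≤ |R| := le_abs_self R
    constructor
    · show ‖u‖ ≤ |R| + |R|
      have e : u = (x + u) - x := by ring
      rw [e]
      exact (norm_sub_le _ _).trans (by linarith)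
    · show ‖x‖ ≤ |R| + |R|
      have := abs_nonneg R
      linarith

theorem BF.A11_mono {R R' : ℝ} {f : ℂ → ℂ} (h : BF R f) (hR : R ≤ R') : BF R' f where
  meas := h.meas
  le := h.le
  supp := fun x hx => h.supp x (lt_of_le_of_lt hR hx)

theorem A11_scale (w : ℂ) (hw : w ≠ 0) : ∃ c0 : ℝ, 0 < c0 ∧ ∀ g : ℂ → ℂ,
    ∫ u : ℂ, g u = (c0 : ℂ) * ∫ z : ℂ, g (w * z) := by
  set L : ℂ →ₗ[ℝ] ℂ := LinearMap.mulLeft ℝ w with hL
  have hdet : LinearMap.det L ≠ 0 := by
    have hinj : Function.Injective L := by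
      intro x y hxy
      exact mul_left_cancel₀ hw hxy
    exact (LinearMap.isUnit_iff_ker_eq_bot L |>.mpr (LinearMap.ker_eq_bot.mpr hinj)).map
      (LinearMap.det : (ℂ →ₗ[ℝ] ℂ) →* ℝ) |>.ne_zero
  have hmap := Measure.map_linearMap_addHaar_eq_smul_addHaar (volume : Measure ℂ) hdet
  have hd : 0 < |(LinearMap.det L)⁻¹| := abs_pos.mpr (inv_ne_zero hdet)
  refine ⟨|(LinearMap.det L)⁻¹|⁻¹, inv_pos.mpr hd, ?_⟩
  intro g
  have hemb : MeasurableEmbedding (L : ℂ → ℂ) := (Homeomorph.mulLeft₀ w hw).measurableEmbedding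
  have h1 : ∫ z : ℂ, g (w * z) = |(LinearMap.det L)⁻¹| * ∫ u : ℂ, g u := by
    have h2 : ∫ y, g y ∂(Measure.map L volume) = ∫ z : ℂ, g (L z) := hemb.integral_map g
    rw [hmap, integral_smul_measure, ENNReal.toReal_ofReal hd.le] at h2
    calc ∫ z : ℂ, g (w * z) = ∫ z : ℂ, g (L z) := rfl
      _ = |(LinearMap.det L)⁻¹| • ∫ u : ℂ, g u := h2.symm
      _ = _ := by rw [Complex.real_smul]
  rw [h1, ← mul_assoc, ← Complex.ofReal_mul, inv_mul_cancel₀ hd.ne', Complex.ofReal_one, one_mul]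

theorem A11_key (ω w : ℂ) (hw : w ≠ 0) : ∃ c0 : ℝ, 0 < c0 ∧ ∀ (N R : ℝ), 0 ≤ N →
    ∀ f0 f1 f2 : ℂ → ℂ, BF R f0 → BF R f1 → BF R f2 →
    TK ω (kN N) f0 f1 f2 = (c0 : ℂ) * ∫ z : ℂ × ℂ, (kN N (w * (z.2 - z.1)) : ℂ) *
      (f0 z.1 * f1 (z.1 + w * (z.2 - z.1)) * f2 (z.1 + ω * (w * (z.2 - z.1)))) := by
  obtain ⟨c0, hc0, hsc⟩ := A11_scale w hw
  refine ⟨c0, hc0, ?_⟩
  intro N R hN f0 f1 f2 h0 h1 h2
  have hwp : 0 < ‖w‖ := norm_pos_iff.mpr hw
  rw [A11_TK ω N R hN f0 f1 f2 h0 h1 h2]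
  have hi : Integrable (fun z : ℂ × ℂ => (kN N (w * (z.2 - z.1)) : ℂ) *
      (f0 z.1 * f1 (z.1 + w * (z.2 - z.1)) * f2 (z.1 + ω * (w * (z.2 - z.1)))))
      (volume.prod volume) := by
    have hm : Measurable (fun z : ℂ × ℂ => w * (z.2 - z.1)) :=
      (measurable_snd.sub measurable_fst).const_mul w
    apply A11_int (|R| + (|R| + |R|) / ‖w‖) N
    · apply (Complex.measurable_ofReal.comp ((A11_kN_meas N).comp hm)).mul
      apply ((h0.meas.comp measurable_fst).mul (h1.meas.comp (measurable_fst.add hm))).mul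
      exact h2.meas.comp (measurable_fst.add (hm.const_mul ω))
    · intro z
      simp only [norm_mul, norm_real, Real.norm_eq_abs]
      have b0 := h0.le z.1
      have b1 := h1.le (z.1 + w * (z.2 - z.1))
      have b2 := h2.le (z.1 + ω * (w * (z.2 - z.1)))
      have b3 := A11_kN_le N hN (w * (z.2 - z.1))
      calc |kN N (w * (z.2 - z.1))| * (‖f0 z.1‖ * ‖f1 (z.1 + w * (z.2 - z.1))‖ *
            ‖f2 (z.1 + ω * (w * (z.2 - z.1)))‖) ≤ N * (1 * 1 * 1) := by gcongr
        _ = N := by ring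
    · intro z hz
      have c0 : ‖z.1‖ ≤ |R| := by
        apply le_trans _ (le_abs_self R)
        by_contra h; push Not at h
        apply hz; rw [h0.supp _ h]; ring
      have c1 : ‖z.1 + w * (z.2 - z.1)‖ ≤ |R| := by
        apply le_trans _ (le_abs_self R)
        by_contra h; push Not at h
        apply hz; rw [h1.supp _ h]; ring
      have hq : 0 ≤ (|R| + |R|) / ‖w‖ := by positivity
      constructor
      · linarith
      · have e : w * (z.2 - z.1) = (z.1 + w * (z.2 - z.1)) - z.1 := by ring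
        have c2 : ‖w‖ * ‖z.2 - z.1‖ ≤ |R| + |R| := by
          rw [← norm_mul, e]
          exact (norm_sub_le _ _).trans (by linarith)
        have c3 : ‖z.2 - z.1‖ ≤ (|R| + |R|) / ‖w‖ := by
          rw [le_div_iff₀ hwp]; linarith
        have e2 : z.2 = z.1 + (z.2 - z.1) := by ring
        rw [e2]
        exact (norm_add_le _ _).trans (by linarith)
  have hpr : ∫ z : ℂ × ℂ, (kN N (w * (z.2 - z.1)) : ℂ) *
      (f0 z.1 * f1 (z.1 + w * (z.2 - z.1)) * f2 (z.1 + ω * (w * (z.2 - z.1))))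
      = ∫ x : ℂ, ∫ y : ℂ, (kN N (w * (y - x)) : ℂ) *
      (f0 x * f1 (x + w * (y - x)) * f2 (x + ω * (w * (y - x)))) := integral_prod _ hi
  rw [hpr, ← integral_const_mul]
  apply integral_congr_ae
  apply Filter.Eventually.of_forall
  intro x
  show ∫ u : ℂ, (kN N u : ℂ) * (f0 x * f1 (x + u) * f2 (x + ω * u)) = _
  rw [hsc]
  congr 1
  exact (integral_sub_right_eq_self (μ := (volume : Measure ℂ))
    (fun z => (kN N (w * z) : ℂ) * (f0 x * f1 (x + w * z) * f2 (x + ω * (w * z)))) x).symm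

theorem box_bound2 (ω : ℂ) (h0 : ω.im ≠ 0) (R : ℝ) : ∃ C : ℝ, 0 < C ∧ ∀ k : ℕ, ∀ δ : ℝ, 0 < δ → δ ≤ 1 →
    ∀ f0 f1 f2 : ℂ → ℂ, BF R f0 → BF R f1 → BF R f2 → ∀ s : ℝ, (∀ ξ, ‖FT f2 ξ‖ ≤ s) →
    ‖TK ω (kN (2 ^ k)) f0 f1 f2‖ ≤ C * 2 ^ k * s / δ ^ 4 + C * 2 ^ k * δ := by
  have ha : (1 - ω) ≠ 0 := by
    intro h
    apply h0
    have : ω = 1 := by linear_combination -h
    rw [this]; simp
  have hb : ω ≠ 0 := by
    intro h; apply h0; rw [h]; simp
  obtain ⟨C, hC, hmain⟩ := A11_main (1 - ω) ω 1 ha hb one_ne_zero |R| (abs_nonneg R)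
  obtain ⟨c0, hc0, hkey⟩ := A11_key ω 1 one_ne_zero
  refine ⟨c0 * C, mul_pos hc0 hC, ?_⟩
  intro k δ hδ hδ1 f0 f1 f2 b0 b1 b2 s hs
  have hR : R ≤ |R| := le_abs_self R
  have hN : (1 : ℝ) ≤ 2 ^ k := one_le_pow₀ (by norm_num)
  have h3 := hmain (2 ^ k) hN δ hδ hδ1 f0 f1 f2 (b0.A11_mono hR) (b1.A11_mono hR) (b2.A11_mono hR) s hs
  rw [hkey (2 ^ k) R (by positivity) f0 f1 f2 b0 b1 b2, norm_mul, norm_real, Real.norm_eq_abs,
    abs_of_pos hc0]
  have e : ∀ z : ℂ × ℂ, (kN (2 ^ k) (1 * (z.2 - z.1)) : ℂ) *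
      (f0 z.1 * f1 (z.1 + 1 * (z.2 - z.1)) * f2 (z.1 + ω * (1 * (z.2 - z.1))))
      = (kN (2 ^ k) (1 * (z.2 - z.1)) : ℂ) * (f0 z.1 * f1 z.2 * f2 ((1 - ω) * z.1 + ω * z.2)) := by
    intro z
    have e1 : z.1 + 1 * (z.2 - z.1) = z.2 := by ring
    have e2 : z.1 + ω * (1 * (z.2 - z.1)) = (1 - ω) * z.1 + ω * z.2 := by ring
    rw [e1, e2]
  simp_rw [e]
  calc _ ≤ c0 * (C * 2 ^ k * s / δ ^ 4 + C * 2 ^ k * δ) := mul_le_mul_of_nonneg_left h3 hc0.le
    _ = _ := by ring

theorem box_bound1 (ω : ℂ) (h0 : ω.im ≠ 0) (R : ℝ) : ∃ C : ℝ, 0 < C ∧ ∀ k : ℕ, ∀ δ : ℝ, 0 < δ → δ ≤ 1 →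
    ∀ f0 f1 f2 : ℂ → ℂ, BF R f0 → BF R f1 → BF R f2 → ∀ s : ℝ, (∀ ξ, ‖FT f1 ξ‖ ≤ s) →
    ‖TK ω (kN (2 ^ k)) f0 f1 f2‖ ≤ C * 2 ^ k * s / δ ^ 4 + C * 2 ^ k * δ := by
  have hb : ω ≠ 0 := by
    intro h; apply h0; rw [h]; simp
  have hb' : ω⁻¹ ≠ 0 := inv_ne_zero hb
  have ha : (1 - ω⁻¹) ≠ 0 := by
    intro h
    apply h0
    have h1 : ω⁻¹ = 1 := by linear_combination -h
    have : ω = 1 := by rw [← inv_inv ω, h1, inv_one]
    rw [this]; simp
  obtain ⟨C, hC, hmain⟩ := A11_main (1 - ω⁻¹) ω⁻¹ ω⁻¹ ha hb' hb' |R| (abs_nonneg R)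
  obtain ⟨c0, hc0, hkey⟩ := A11_key ω ω⁻¹ hb'
  refine ⟨c0 * C, mul_pos hc0 hC, ?_⟩
  intro k δ hδ hδ1 f0 f1 f2 b0 b1 b2 s hs
  have hR : R ≤ |R| := le_abs_self R
  have hN : (1 : ℝ) ≤ 2 ^ k := one_le_pow₀ (by norm_num)
  have h3 := hmain (2 ^ k) hN δ hδ hδ1 f0 f2 f1 (b0.A11_mono hR) (b2.A11_mono hR) (b1.A11_mono hR) s hs
  rw [hkey (2 ^ k) R (by positivity) f0 f1 f2 b0 b1 b2, norm_mul, norm_real, Real.norm_eq_abs,
    abs_of_pos hc0]
  have e : ∀ z : ℂ × ℂ, (kN (2 ^ k) (ω⁻¹ * (z.2 - z.1)) : ℂ) *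
      (f0 z.1 * f1 (z.1 + ω⁻¹ * (z.2 - z.1)) * f2 (z.1 + ω * (ω⁻¹ * (z.2 - z.1))))
      = (kN (2 ^ k) (ω⁻¹ * (z.2 - z.1)) : ℂ) *
        (f0 z.1 * f2 z.2 * f1 ((1 - ω⁻¹) * z.1 + ω⁻¹ * z.2)) := by
    intro z
    have e1 : z.1 + ω⁻¹ * (z.2 - z.1) = (1 - ω⁻¹) * z.1 + ω⁻¹ * z.2 := by ring
    have e2 : z.1 + ω * (ω⁻¹ * (z.2 - z.1)) = z.2 := by field_simp; ring
    rw [e1, e2]; ring
  simp_rw [e]
  calc _ ≤ c0 * (C * 2 ^ k * s / δ ^ 4 + C * 2 ^ k * δ) := mul_le_mul_of_nonneg_left h3 hc0.le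
    _ = _ := by ring

end TriDil
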