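import Pool.Agent.TriDil.Basic7
import Pool.Agent.TriDil.A1
set_option autoImplicit false
open MeasureTheory Complex Set
namespace TriDil
open ComplexConjugate

/-! ### bounded measurable functions with bounded support -/

/-- bounded, strongly measurable, with bounded support -/
structure A2_BC {E F : Type*} [NormedAddCommGroup E] [MeasurableSpace E] [NormedAddCommGroup F]
    (f : E → F) : Prop where
  meas : StronglyMeasurable f
  bd : ∃ B : ℝ, ∀ x, ‖f x‖ ≤ B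
  sp : ∃ r : ℝ, ∀ x, r < ‖x‖ → f x = 0

section BC
variable {E F : Type*} [NormedAddCommGroup E] [MeasurableSpace E] [NormedAddCommGroup F]

theorem A2_BC.integrable [ProperSpace E] [BorelSpace E] {f : E → F} (h : A2_BC f)
    (μ : Measure E) [IsFiniteMeasureOnCompacts μ] : Integrable f μ := by
  obtain ⟨B, hB⟩ := h.bd
  obtain ⟨r, hr⟩ := h.sp
  have h1 : IntegrableOn f (Metric.closedBall 0 r) μ :=
    Measure.integrableOn_of_bounded (isCompact_closedBall 0 r).measure_lt_top.ne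
      h.meas.aestronglyMeasurable (M := B) (Filter.Eventually.of_forall hB)
  rwa [integrableOn_iff_integrable_of_support_subset] at h1
  intro x hx
  by_contra hx'
  exact hx (hr x (by simpa using hx'))

theorem A2_BC.marg [NormedSpace ℝ F] {f : E × ℝ → F} (h : A2_BC f) :
    A2_BC (fun x => ∫ y : ℝ, f (x, y)) := by
  obtain ⟨B, hB⟩ := h.bd
  obtain ⟨r, hr⟩ := h.sp
  refine ⟨h.meas.integral_prod_right', ⟨B * volume.real (Metric.closedBall (0 : ℝ) r), fun x => ?_⟩,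
    ⟨r, fun x hx => ?_⟩⟩
  · have h1 : ∫ y : ℝ, f (x, y) = ∫ y in Metric.closedBall (0 : ℝ) r, f (x, y) := by
      symm
      apply setIntegral_eq_integral_of_forall_compl_eq_zero
      intro y hy
      apply hr
      have : r < ‖y‖ := by simpa using hy
      exact this.trans_le (norm_snd_le (x, y))
    rw [h1]
    exact norm_setIntegral_le_of_norm_le_const (isCompact_closedBall 0 r).measure_lt_top
      (fun y _ => hB _)
  · have h1 : ∀ y : ℝ, f (x, y) = 0 := fun y => hr _ (hx.trans_le (norm_fst_le (x, y)))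
    simp [h1]

theorem A2_BC.normsq {f : E → F} (h : A2_BC f) : A2_BC (fun x => ‖f x‖ ^ 2) := by
  obtain ⟨B, hB⟩ := h.bd
  obtain ⟨r, hr⟩ := h.sp
  refine ⟨h.meas.norm.pow 2, ⟨B ^ 2, fun x => ?_⟩, ⟨r, fun x hx => ?_⟩⟩
  · rw [norm_pow, norm_norm]
    exact pow_le_pow_left₀ (norm_nonneg _) (hB x) 2
  · rw [hr x hx]; simp

theorem A2_BC.mul {f φ : E → ℂ} (h : A2_BC f) (hφ : Measurable φ) {A : ℝ} (bφ : ∀ x, ‖φ x‖ ≤ A) :
    A2_BC (fun x => f x * φ x) := by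
  obtain ⟨B, hB⟩ := h.bd
  obtain ⟨r, hr⟩ := h.sp
  refine ⟨(h.meas.measurable.mul hφ).stronglyMeasurable, ⟨B * A, fun x => ?_⟩, ⟨r, fun x hx => ?_⟩⟩
  · rw [norm_mul]
    exact mul_le_mul (hB x) (bφ x) (norm_nonneg _) ((norm_nonneg _).trans (hB x))
  · rw [hr x hx]; simp

/-- swapping the order of integration -/
theorem A2_swap [NormedSpace ℝ F] {f : ℝ → ℝ → F} (h : A2_BC (fun p : ℝ × ℝ => f p.1 p.2)) :
    ∫ x : ℝ, ∫ y : ℝ, f x y = ∫ y : ℝ, ∫ x : ℝ, f x y :=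
  integral_integral_swap (h.integrable (volume.prod volume))

/-- `∫ c ∫ a ∫ b = ∫ a ∫ b ∫ c` -/
theorem A2_rot {f : ℝ → ℝ → ℝ → ℂ} (h : A2_BC (fun p : (ℝ × ℝ) × ℝ => f p.1.1 p.1.2 p.2)) :
    ∫ c : ℝ, ∫ a : ℝ, ∫ b : ℝ, f c a b = ∫ a : ℝ, ∫ b : ℝ, ∫ c : ℝ, f c a b := by
  have h1 : A2_BC (fun p : ℝ × ℝ => ∫ b : ℝ, f p.1 p.2 b) := h.marg
  rw [A2_swap h1]
  congr 1
  funext a
  apply A2_swap
  obtain ⟨B, hB⟩ := h.bd
  obtain ⟨r, hr⟩ := h.sp
  refine ⟨?_, ⟨B, fun p => hB ((p.1, a), p.2)⟩, ⟨r, fun p hp => hr ((p.1, a), p.2) ?_⟩⟩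
  · exact h.meas.comp_measurable
      (g := fun p : ℝ × ℝ => ((p.1, a), p.2)) (by fun_prop)
  · rw [Prod.norm_def] at hp
    rcases lt_max_iff.1 hp with h2 | h2
    · exact h2.trans_le ((norm_fst_le (p.1, a)).trans (norm_fst_le ((p.1, a), p.2)))
    · exact h2.trans_le (norm_snd_le ((p.1, a), p.2))

end BC

/-! ### the cut-off functions -/

/-- indicator of `[-L/2, L/2]` -/
noncomputable def A2_chi (L t : ℝ) : ℝ := if |t| ≤ L / 2 then 1 else 0

theorem A2_chi_meas (L : ℝ) : Measurable (A2_chi L) :=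
  Measurable.ite (measurableSet_le measurable_norm measurable_const) measurable_const
    measurable_const

theorem A2_chi_abs (L t : ℝ) : |A2_chi L t| ≤ 1 := by
  unfold A2_chi; split_ifs <;> simp

theorem A2_chi_sq (L t : ℝ) : A2_chi L t ^ 2 = A2_chi L t := by
  unfold A2_chi; split_ifs <;> simp

theorem A2_chi_zero {L t : ℝ} (h : L / 2 < |t|) : A2_chi L t = 0 := by
  unfold A2_chi; rw [if_neg (not_le.2 h)]

theorem A2_chi_int {L : ℝ} (hL : 0 < L) (a b : ℝ) :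
    ∫ c : ℝ, A2_chi L (a - c) * A2_chi L (b - c) = L * max 0 (1 - |b - a| / L) := by
  have h1 : (fun c : ℝ => A2_chi L (a - c) * A2_chi L (b - c)) =
      (Icc (max a b - L / 2) (min a b + L / 2)).indicator (fun _ => (1 : ℝ)) := by
    funext c
    unfold A2_chi
    by_cases hc : c ∈ Icc (max a b - L / 2) (min a b + L / 2)
    · rw [indicator_of_mem hc]
      obtain ⟨h2, h3⟩ := hc
      have h4 := le_max_left a b
      have h5 := le_max_right a b
      have h6 := min_le_left a b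
      have h7 := min_le_right a b
      rw [if_pos (abs_le.2 ⟨by linarith, by linarith⟩), if_pos (abs_le.2 ⟨by linarith, by linarith⟩),
        mul_one]
    · rw [indicator_of_notMem hc]
      by_contra hne
      apply hc
      have h2 : |a - c| ≤ L / 2 := by
        by_contra h; rw [if_neg h, zero_mul] at hne; exact hne rfl
      have h3 : |b - c| ≤ L / 2 := by
        by_contra h; rw [if_neg h, mul_zero] at hne; exact hne rfl
      rw [abs_le] at h2 h3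
      constructor
      · rcases max_choice a b with h | h <;> rw [h] <;> linarith
      · rcases min_choice a b with h | h <;> rw [h] <;> linarith
  rw [h1, integral_indicator measurableSet_Icc, setIntegral_const, smul_eq_mul, mul_one,
    Real.volume_real_Icc]
  have h2 : min a b + L / 2 - (max a b - L / 2) = L * (1 - |b - a| / L) := by
    have h3 : max a b - min a b = |b - a| := by
      rw [abs_sub_comm, max_sub_min_eq_abs']
    field_simp
    linarith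
  rw [h2, max_comm, mul_max_of_nonneg _ _ hL.le, mul_zero]

/-! ### autocorrelations -/

theorem A2_norm_sq (z : ℂ) : ((‖z‖ ^ 2 : ℝ) : ℂ) = z * conj z := by
  rw [mul_conj, normSq_eq_norm_sq]

/-- the product of two integrals as an iterated integral -/
theorem A2_prod (f g : ℝ → ℂ) : (∫ a : ℝ, f a) * (∫ b : ℝ, g b) = ∫ a : ℝ, ∫ b : ℝ, f a * g b := by
  rw [← integral_mul_const]
  congr 1
  funext a
  rw [integral_const_mul]

theorem A2_prod_conj (f g : ℝ → ℂ) :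
    (∫ a : ℝ, f a) * conj (∫ b : ℝ, g b) = ∫ a : ℝ, ∫ b : ℝ, f a * conj (g b) := by
  rw [← integral_conj, A2_prod]

/-- a bound for products -/
theorem A2_norm_mul_le {a b : ℂ} {A B : ℝ} (ha : ‖a‖ ≤ A) (hb : ‖b‖ ≤ B) : ‖a * b‖ ≤ A * B := by
  rw [norm_mul]
  exact mul_le_mul ha hb (norm_nonneg _) ((norm_nonneg _).trans ha)

theorem A2_chi_norm (L t : ℝ) : ‖((A2_chi L t : ℝ) : ℂ)‖ ≤ 1 := by
  rw [norm_real, Real.norm_eq_abs]; exact A2_chi_abs L t

theorem A2_tri_abs {L : ℝ} (hL : 0 < L) (x : ℝ) : ‖((max 0 (1 - |x| / L) : ℝ) : ℂ)‖ ≤ 1 := by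
  rw [norm_real, Real.norm_eq_abs, abs_of_nonneg (le_max_left _ _)]
  exact max_le zero_le_one (by have : 0 ≤ |x| / L := by positivity
                               linarith)

theorem A2_tri_meas (L : ℝ) : Measurable (fun x : ℝ => ((max 0 (1 - |x| / L) : ℝ) : ℂ)) := by
  fun_prop

/-- (2.1) the square structure -/
theorem A2_tri {g : ℝ → ℂ} (hg : Measurable g) {B r : ℝ} (bg : ∀ a, ‖g a‖ ≤ B)
    (sg : ∀ a, r < |a| → g a = 0) {L : ℝ} (hL : 0 < L) :
    ∫ x : ℝ, (∫ a : ℝ, g a * conj (g (a + x))) * ((max 0 (1 - |x| / L) : ℝ) : ℂ) =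
      ((1 / L : ℝ) : ℂ) * ∫ c : ℝ, ((‖∫ a : ℝ, g a * (A2_chi L (a - c) : ℂ)‖ ^ 2 : ℝ) : ℂ) := by
  have hr0 : 0 ≤ B := (norm_nonneg _).trans (bg 0)
  -- the triple integrand
  have h3 : A2_BC (fun p : (ℝ × ℝ) × ℝ =>
      (g p.1.2 * (A2_chi L (p.1.2 - p.1.1) : ℂ)) * conj (g p.2 * (A2_chi L (p.2 - p.1.1) : ℂ))) := by
    have hχ := A2_chi_meas L
    refine ⟨Measurable.stronglyMeasurable ?_, ⟨(B * 1) * (B * 1), fun p => ?_⟩,
      ⟨|r| + L, fun p hp => ?_⟩⟩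
    · have m1 : Measurable (fun p : (ℝ × ℝ) × ℝ => g p.1.2) := hg.comp (by fun_prop)
      have m2 : Measurable (fun p : (ℝ × ℝ) × ℝ => g p.2) := hg.comp (by fun_prop)
      have m3 : Measurable (fun p : (ℝ × ℝ) × ℝ => A2_chi L (p.1.2 - p.1.1)) :=
        hχ.comp (by fun_prop)
      have m4 : Measurable (fun p : (ℝ × ℝ) × ℝ => A2_chi L (p.2 - p.1.1)) :=
        hχ.comp (by fun_prop)
      exact (m1.mul (measurable_ofReal.comp m3)).mul
        (continuous_conj.measurable.comp (m2.mul (measurable_ofReal.comp m4)))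
    · apply A2_norm_mul_le
      · exact A2_norm_mul_le (bg _) (A2_chi_norm _ _)
      · rw [norm_conj]
        exact A2_norm_mul_le (bg _) (A2_chi_norm _ _)
    · have hrr : r ≤ |r| := le_abs_self r
      rw [Prod.norm_def, Prod.norm_def] at hp
      rcases lt_max_iff.1 hp with h1 | h1
      · rcases lt_max_iff.1 h1 with h2 | h2
        · rw [Real.norm_eq_abs] at h2
          rcases le_or_gt |p.1.2| r with h4 | h4
          · have h5 : L / 2 < |p.1.2 - p.1.1| := by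
              have := abs_sub_abs_le_abs_sub p.1.1 p.1.2
              rw [abs_sub_comm] at this
              linarith
            rw [A2_chi_zero h5]; simp
          · rw [sg _ h4]; simp
        · rw [Real.norm_eq_abs] at h2
          rw [sg _ (by linarith)]; simp
      · rw [Real.norm_eq_abs] at h1
        rw [sg p.2 (by linarith)]; simp
  have h2 : A2_BC (fun p : ℝ × ℝ =>
      g p.1 * conj (g (p.1 + p.2)) * ((max 0 (1 - |p.2| / L) : ℝ) : ℂ)) := by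
    refine ⟨Measurable.stronglyMeasurable ?_, ⟨(B * B) * 1, fun p => ?_⟩,
      ⟨2 * |r| + 1, fun p hp => ?_⟩⟩
    · have m1 : Measurable (fun p : ℝ × ℝ => g p.1) := hg.comp (by fun_prop)
      have m2 : Measurable (fun p : ℝ × ℝ => g (p.1 + p.2)) := hg.comp (by fun_prop)
      exact (m1.mul (continuous_conj.measurable.comp m2)).mul ((A2_tri_meas L).comp measurable_snd)
    · apply A2_norm_mul_le _ (A2_tri_abs hL _)
      apply A2_norm_mul_le (bg _)
      rw [norm_conj]; exact bg _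
    · have hrr : r ≤ |r| := le_abs_self r
      have hr1 : 0 ≤ |r| := abs_nonneg r
      rcases le_or_gt |p.1| r with h4 | h4
      · rw [Prod.norm_def] at hp
        rcases lt_max_iff.1 hp with h1 | h1
        · rw [Real.norm_eq_abs] at h1; linarith
        · rw [Real.norm_eq_abs] at h1
          have h5 : r < |p.1 + p.2| := by
            have := abs_sub_abs_le_abs_sub p.2 (-p.1)
            rw [abs_neg, sub_neg_eq_add, add_comm p.2] at this
            linarith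
          rw [sg _ h5]; simp
      · rw [sg _ h4]; simp
  have e1 : ∀ c : ℝ, ((‖∫ a : ℝ, g a * (A2_chi L (a - c) : ℂ)‖ ^ 2 : ℝ) : ℂ) =
      ∫ a : ℝ, ∫ b : ℝ, (g a * (A2_chi L (a - c) : ℂ)) * conj (g b * (A2_chi L (b - c) : ℂ)) := by
    intro c
    rw [A2_norm_sq, A2_prod_conj]
  have e2 : ∀ a b : ℝ, ∫ c : ℝ, (g a * (A2_chi L (a - c) : ℂ)) * conj (g b * (A2_chi L (b - c) : ℂ))
      = (L : ℂ) * (g a * conj (g b) * ((max 0 (1 - |b - a| / L) : ℝ) : ℂ)) := by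
    intro a b
    have e3 : ∀ c : ℝ, (g a * (A2_chi L (a - c) : ℂ)) * conj (g b * (A2_chi L (b - c) : ℂ)) =
        (g a * conj (g b)) * ((A2_chi L (a - c) * A2_chi L (b - c) : ℝ) : ℂ) := by
      intro c
      rw [map_mul, conj_ofReal]; push_cast; ring
    simp_rw [e3]
    rw [integral_const_mul, integral_complex_ofReal, A2_chi_int hL]
    push_cast; ring
  simp_rw [e1]
  rw [A2_rot h3]
  simp_rw [e2, integral_const_mul]
  rw [← mul_assoc, ← ofReal_mul, one_div, inv_mul_cancel₀ hL.ne', ofReal_one, one_mul]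
  have e4 : ∀ a : ℝ, ∫ b : ℝ, g a * conj (g b) * ((max 0 (1 - |b - a| / L) : ℝ) : ℂ) =
      ∫ x : ℝ, g a * conj (g (a + x)) * ((max 0 (1 - |x| / L) : ℝ) : ℂ) := by
    intro a
    rw [← integral_add_left_eq_self _ a]
    congr 1
    funext x
    rw [add_sub_cancel_left]
  simp_rw [e4]
  rw [A2_swap h2]
  congr 1
  funext x
  rw [integral_mul_const]

/-- the integrand of `GG` -/
theorem A2_GG_BC {R : ℝ} (hR : 0 < R) {G : ℝ → ℂ} (hG : Measurable G) (bG : ∀ a, ‖G a‖ ≤ 1)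
    (sG : ∀ a, R < |a| → G a = 0) : A2_BC (fun p : (ℝ × ℝ) × ℝ =>
      G p.2 * conj (G (p.2 + p.1.1)) * conj (G (p.2 + p.1.2)) * G (p.2 + p.1.1 + p.1.2)) := by
  refine ⟨Measurable.stronglyMeasurable ?_, ⟨1 * 1 * 1 * 1, fun p => ?_⟩, ⟨2 * R, fun p hp => ?_⟩⟩
  · have m1 : Measurable (fun p : (ℝ × ℝ) × ℝ => G p.2) := hG.comp (by fun_prop)
    have m2 : Measurable (fun p : (ℝ × ℝ) × ℝ => G (p.2 + p.1.1)) := hG.comp (by fun_prop)
    have m3 : Measurable (fun p : (ℝ × ℝ) × ℝ => G (p.2 + p.1.2)) := hG.comp (by fun_prop)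
    have m4 : Measurable (fun p : (ℝ × ℝ) × ℝ => G (p.2 + p.1.1 + p.1.2)) :=
      hG.comp (by fun_prop)
    exact ((m1.mul (continuous_conj.measurable.comp m2)).mul
      (continuous_conj.measurable.comp m3)).mul m4
  · refine A2_norm_mul_le (A2_norm_mul_le (A2_norm_mul_le (bG _) ?_) ?_) (bG _)
    · rw [norm_conj]; exact bG _
    · rw [norm_conj]; exact bG _
  · rcases le_or_gt |p.2| R with h4 | h4
    · rw [Prod.norm_def, Prod.norm_def] at hp
      rcases lt_max_iff.1 hp with h1 | h1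
      · rcases lt_max_iff.1 h1 with h2 | h2
        · rw [Real.norm_eq_abs] at h2
          have h5 : R < |p.2 + p.1.1| := by
            have := abs_sub_abs_le_abs_sub p.1.1 (-p.2)
            rw [abs_neg, sub_neg_eq_add, add_comm p.1.1] at this
            linarith
          rw [sG _ h5]; simp
        · rw [Real.norm_eq_abs] at h2
          have h5 : R < |p.2 + p.1.2| := by
            have := abs_sub_abs_le_abs_sub p.1.2 (-p.2)
            rw [abs_neg, sub_neg_eq_add, add_comm p.1.2] at this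
            linarith
          rw [sG _ h5]; simp
      · rw [Real.norm_eq_abs] at h1; linarith
    · rw [sG _ h4]; simp

theorem A2_P_BC {R : ℝ} (hR : 0 < R) {G : ℝ → ℂ} (hG : Measurable G) (bG : ∀ a, ‖G a‖ ≤ 1)
    (sG : ∀ a, R < |a| → G a = 0) {L : ℝ} (hL : 0 < L) : A2_BC (fun p : (ℝ × ℝ) × ℝ =>
      G p.2 * conj (G (p.2 + p.1.1)) * (A2_chi L (p.2 - p.1.2) : ℂ)) := by
  refine ⟨Measurable.stronglyMeasurable ?_, ⟨1 * 1 * 1, fun p => ?_⟩, ⟨2 * R + L, fun p hp => ?_⟩⟩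
  · have m1 : Measurable (fun p : (ℝ × ℝ) × ℝ => G p.2) := hG.comp (by fun_prop)
    have m2 : Measurable (fun p : (ℝ × ℝ) × ℝ => G (p.2 + p.1.1)) := hG.comp (by fun_prop)
    have m3 : Measurable (fun p : (ℝ × ℝ) × ℝ => A2_chi L (p.2 - p.1.2)) :=
      (A2_chi_meas L).comp (by fun_prop)
    exact (m1.mul (continuous_conj.measurable.comp m2)).mul (measurable_ofReal.comp m3)
  · refine A2_norm_mul_le (A2_norm_mul_le (bG _) ?_) (A2_chi_norm _ _)
    rw [norm_conj]; exact bG _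
  · rcases le_or_gt |p.2| R with h4 | h4
    · rw [Prod.norm_def, Prod.norm_def] at hp
      rcases lt_max_iff.1 hp with h1 | h1
      · rcases lt_max_iff.1 h1 with h2 | h2
        · rw [Real.norm_eq_abs] at h2
          have h5 : R < |p.2 + p.1.1| := by
            have := abs_sub_abs_le_abs_sub p.1.1 (-p.2)
            rw [abs_neg, sub_neg_eq_add, add_comm p.1.1] at this
            linarith
          rw [sG _ h5]; simp
        · rw [Real.norm_eq_abs] at h2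
          have h5 : L / 2 < |p.2 - p.1.2| := by
            have := abs_sub_abs_le_abs_sub p.1.2 p.2
            rw [abs_sub_comm] at this
            linarith
          rw [A2_chi_zero h5]; simp
      · rw [Real.norm_eq_abs] at h1; linarith
    · rw [sG _ h4]; simp

theorem A2_GG_eq (G : ℝ → ℂ) (x z : ℝ) :
    GG G x z = ∫ a : ℝ, (G a * conj (G (a + z))) * conj (G (a + x) * conj (G (a + x + z))) := by
  unfold GG
  congr 1
  funext a
  rw [map_mul, conj_conj]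
  ring

theorem A2_L2 {R : ℝ} (hR : 0 < R) {G : ℝ → ℂ} (bG : ∀ a, ‖G a‖ ≤ 1)
    (sG : ∀ a, R < |a| → G a = 0) : ∫ a : ℝ, ‖G a‖ ^ 2 ≤ 2 * R := by
  have h1 : ∫ a : ℝ, ‖G a‖ ^ 2 = ∫ a in Icc (-R) R, ‖G a‖ ^ 2 := by
    symm
    apply setIntegral_eq_integral_of_forall_compl_eq_zero
    intro a ha
    rw [sG a (by
      by_contra hcon
      exact ha (abs_le.1 (not_lt.1 hcon)))]
    simp
  rw [h1]
  have h2 : ‖∫ a in Icc (-R) R, ‖G a‖ ^ 2‖ ≤ 1 * volume.real (Icc (-R) R) := by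
    apply norm_setIntegral_le_of_norm_le_const (by simp)
    intro a _
    rw [norm_pow, norm_norm]
    exact pow_le_one₀ (norm_nonneg _) (bG a)
  rw [Real.volume_real_Icc, max_eq_left (by linarith), one_mul] at h2
  calc _ ≤ _ := Real.le_norm_self _
    _ ≤ _ := h2
    _ = 2 * R := by ring

/-- the inner correlation -/
noncomputable def A2_P (G : ℝ → ℂ) (L z c : ℝ) : ℂ :=
  ∫ a : ℝ, G a * conj (G (a + z)) * (A2_chi L (a - c) : ℂ)

theorem A2_swap_BC {F : Type*} [NormedAddCommGroup F] {f : ℝ × ℝ → F} (h : A2_BC f) :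
    A2_BC (fun q : ℝ × ℝ => f (q.2, q.1)) := by
  obtain ⟨B, hB⟩ := h.bd
  obtain ⟨r, hr⟩ := h.sp
  refine ⟨h.meas.comp_measurable measurable_swap, ⟨B, fun q => hB _⟩,
    ⟨r, fun q hq => hr _ ?_⟩⟩
  rw [Prod.norm_def] at hq ⊢
  rw [max_comm] at hq
  exact hq

/-- the one-dimensional inequality for fixed `c` -/
theorem A2_fix {R : ℝ} {G : ℝ → ℂ} (hG : Measurable G) (bG : ∀ a, ‖G a‖ ≤ 1)
    (sG : ∀ a, R < |a| → G a = 0) {s : ℝ} (hs : ∀ ζ, ‖FT1 G ζ‖ ≤ s) (L c : ℝ) :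
    ∫ z : ℝ, ‖A2_P G L z c‖ ^ 2 ≤
      s ^ 2 * ∫ a : ℝ, ‖G a‖ ^ 2 * (A2_chi L (a - c) * A2_chi L (a - c)) := by
  have hw : Measurable (fun a : ℝ => G a * (A2_chi L (a - c) : ℂ)) :=
    hG.mul (measurable_ofReal.comp ((A2_chi_meas L).comp (measurable_id.sub_const c)))
  have h6 := CB1 G (fun a : ℝ => G a * (A2_chi L (a - c) : ℂ)) hG hw 1 R bG
    (fun a => by
      have := A2_norm_mul_le (bG a) (A2_chi_norm L (a - c))
      rwa [one_mul] at this) sG (fun a ha => by rw [sG a ha, zero_mul]) s hs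
  have e2 : ∀ z : ℝ, A2_P G L z c =
      ∫ a : ℝ, G a * (A2_chi L (a - c) : ℂ) * conj (G (a + z)) := by
    intro z
    unfold A2_P
    congr 1
    funext a
    ring
  simp_rw [e2]
  refine h6.trans (le_of_eq ?_)
  congr 2
  funext a
  rw [norm_mul, mul_pow, norm_real, Real.norm_eq_abs, sq_abs, sq (A2_chi L (a - c))]

theorem A2_K_BC {R : ℝ} (hR : 0 < R) {G : ℝ → ℂ} (hG : Measurable G) (bG : ∀ a, ‖G a‖ ≤ 1)
    (sG : ∀ a, R < |a| → G a = 0) {L : ℝ} (hL : 0 < L) :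
    A2_BC (fun p : ℝ × ℝ => ‖G p.2‖ ^ 2 * (A2_chi L (p.2 - p.1) * A2_chi L (p.2 - p.1))) := by
  refine ⟨Measurable.stronglyMeasurable ?_, ⟨1, fun p => ?_⟩, ⟨2 * R + L, fun p hp => ?_⟩⟩
  · have m1 : Measurable (fun p : ℝ × ℝ => G p.2) := hG.comp (by fun_prop)
    have m3 : Measurable (fun p : ℝ × ℝ => A2_chi L (p.2 - p.1)) :=
      (A2_chi_meas L).comp (by fun_prop)
    exact (m1.norm.pow_const 2).mul (m3.mul m3)
  · rw [Real.norm_eq_abs, abs_mul, abs_mul, abs_of_nonneg (by positivity : (0:ℝ) ≤ ‖G p.2‖ ^ 2)]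
    have a1 := A2_chi_abs L (p.2 - p.1)
    have a2 : ‖G p.2‖ ^ 2 ≤ 1 := pow_le_one₀ (norm_nonneg _) (bG _)
    have a3 : |A2_chi L (p.2 - p.1)| * |A2_chi L (p.2 - p.1)| ≤ 1 * 1 :=
      mul_le_mul a1 a1 (abs_nonneg _) zero_le_one
    rw [one_mul] at a3
    have := mul_le_mul a2 a3 (mul_nonneg (abs_nonneg _) (abs_nonneg _)) zero_le_one
    rwa [one_mul] at this
  · rcases le_or_gt |p.2| R with h4 | h4
    · rw [Prod.norm_def] at hp
      rcases lt_max_iff.1 hp with h1 | h1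
      · rw [Real.norm_eq_abs] at h1
        have h5 : L / 2 < |p.2 - p.1| := by
          have := abs_sub_abs_le_abs_sub p.1 p.2
          rw [abs_sub_comm] at this
          linarith
        rw [A2_chi_zero h5]; simp
      · rw [Real.norm_eq_abs] at h1; linarith
    · rw [sG _ h4]; simp

theorem A2_K_int {R : ℝ} (hR : 0 < R) {G : ℝ → ℂ} (hG : Measurable G) (bG : ∀ a, ‖G a‖ ≤ 1)
    (sG : ∀ a, R < |a| → G a = 0) {L : ℝ} (hL : 0 < L) :
    ∫ c : ℝ, ∫ a : ℝ, ‖G a‖ ^ 2 * (A2_chi L (a - c) * A2_chi L (a - c)) =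
      (∫ a : ℝ, ‖G a‖ ^ 2) * L := by
  rw [A2_swap (f := fun c a => ‖G a‖ ^ 2 * (A2_chi L (a - c) * A2_chi L (a - c)))
    (A2_K_BC hR hG bG sG hL)]
  simp_rw [integral_const_mul, A2_chi_int hL]
  rw [← integral_mul_const]
  congr 1
  funext a
  rw [sub_self, abs_zero, zero_div, sub_zero, max_eq_right zero_le_one, mul_one]

theorem A2_P_int {R : ℝ} (hR : 0 < R) {G : ℝ → ℂ} (hG : Measurable G) (bG : ∀ a, ‖G a‖ ≤ 1)
    (sG : ∀ a, R < |a| → G a = 0) {s : ℝ} (hs : ∀ ζ, ‖FT1 G ζ‖ ≤ s) {L : ℝ} (hL : 0 < L)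
    (hP2 : A2_BC (fun q : ℝ × ℝ => ‖A2_P G L q.1 q.2‖ ^ 2)) :
    1 / L * ∫ z : ℝ, ∫ c : ℝ, ‖A2_P G L z c‖ ^ 2 ≤ 2 * R * s ^ 2 := by
  have h4 : ∫ z : ℝ, ∫ c : ℝ, ‖A2_P G L z c‖ ^ 2 = ∫ c : ℝ, ∫ z : ℝ, ‖A2_P G L z c‖ ^ 2 :=
    A2_swap (f := fun z c => ‖A2_P G L z c‖ ^ 2) hP2
  rw [h4]
  have hK' : A2_BC (fun c : ℝ => ∫ a : ℝ, ‖G a‖ ^ 2 * (A2_chi L (a - c) * A2_chi L (a - c))) :=
    (A2_K_BC hR hG bG sG hL).marg
  have hP3 : A2_BC (fun c : ℝ => ∫ z : ℝ, ‖A2_P G L z c‖ ^ 2) := (A2_swap_BC hP2).marg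
  have h7 : ∫ c : ℝ, ∫ z : ℝ, ‖A2_P G L z c‖ ^ 2 ≤
      ∫ c : ℝ, s ^ 2 * ∫ a : ℝ, ‖G a‖ ^ 2 * (A2_chi L (a - c) * A2_chi L (a - c)) :=
    integral_mono (hP3.integrable volume) ((hK'.integrable volume).const_mul _)
      (A2_fix hG bG sG hs L)
  rw [integral_const_mul, A2_K_int hR hG bG sG hL] at h7
  have h8 := A2_L2 hR bG sG
  calc _ ≤ 1 / L * (s ^ 2 * ((∫ a : ℝ, ‖G a‖ ^ 2) * L)) :=
        mul_le_mul_of_nonneg_left h7 (by positivity)
    _ = s ^ 2 * ∫ a : ℝ, ‖G a‖ ^ 2 := by field_simp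
    _ ≤ s ^ 2 * (2 * R) := mul_le_mul_of_nonneg_left h8 (sq_nonneg s)
    _ = 2 * R * s ^ 2 := by ring

theorem A2_inner {G : ℝ → ℂ} {R : ℝ} (hG : Measurable G) (bG : ∀ a, ‖G a‖ ≤ 1)
    (sG : ∀ a, R < |a| → G a = 0) {L : ℝ} (hL : 0 < L) (L' z : ℝ) :
    ∫ x : ℝ, GG G x z * ((max 0 (1 - |x| / L) * max 0 (1 - |z| / L') : ℝ) : ℂ) =
      (((1 / L) * ∫ c : ℝ, ‖A2_P G L z c‖ ^ 2 : ℝ) : ℂ) *
        ((max 0 (1 - |z| / L') : ℝ) : ℂ) := by
  have hg : Measurable (fun a : ℝ => G a * conj (G (a + z))) :=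
    hG.mul (continuous_conj.measurable.comp (hG.comp (measurable_id.add_const z)))
  have h1 := A2_tri (g := fun a : ℝ => G a * conj (G (a + z))) hg (B := 1 * 1) (r := R)
    (fun a => by
      apply A2_norm_mul_le (bG _)
      rw [norm_conj]; exact bG _) (fun a ha => by simp only [sG a ha, zero_mul]) hL
  unfold A2_P
  rw [ofReal_mul, ← integral_complex_ofReal, ← h1, ← integral_mul_const]
  congr 1
  funext x
  rw [A2_GG_eq, ofReal_mul]
  ring

/-- (2.1) duality with triangles -/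
theorem tri_bound (R : ℝ) (hR : 0 < R) (G : ℝ → ℂ) (hG : Measurable G) (bG : ∀ a, ‖G a‖ ≤ 1)
    (sG : ∀ a, R < |a| → G a = 0) (s : ℝ) (hs : ∀ ζ, ‖FT1 G ζ‖ ≤ s) (L L' : ℝ) (hL : 0 < L) (hL' : 0 < L') :
    ‖∫ x : ℝ, ∫ z : ℝ, GG G x z * (max 0 (1 - |x| / L) * max 0 (1 - |z| / L') : ℝ)‖ ≤ 2 * R * s ^ 2 := by
  have hGG : A2_BC (fun q : ℝ × ℝ => GG G q.1 q.2) := (A2_GG_BC hR hG bG sG).marg
  have hb1 : A2_BC (fun q : ℝ × ℝ =>
      GG G q.1 q.2 * ((max 0 (1 - |q.1| / L) * max 0 (1 - |q.2| / L') : ℝ) : ℂ)) := by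
    apply hGG.mul (A := 1 * 1)
    · fun_prop
    · intro q
      rw [ofReal_mul]
      exact A2_norm_mul_le (A2_tri_abs hL _) (A2_tri_abs hL' _)
  rw [A2_swap (f := fun x z => GG G x z * ((max 0 (1 - |x| / L) * max 0 (1 - |z| / L') : ℝ) : ℂ)) hb1]
  have hP : A2_BC (fun q : ℝ × ℝ => A2_P G L q.1 q.2) := (A2_P_BC hR hG bG sG hL).marg
  have hP2 := hP.normsq
  simp_rw [A2_inner hG bG sG hL]
  have hmarg : A2_BC (fun z : ℝ => ∫ c : ℝ, ‖A2_P G L z c‖ ^ 2) := hP2.marg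
  have h2 : ‖∫ z : ℝ, (((1 / L) * ∫ c : ℝ, ‖A2_P G L z c‖ ^ 2 : ℝ) : ℂ) *
        ((max 0 (1 - |z| / L') : ℝ) : ℂ)‖ ≤
      ∫ z : ℝ, (1 / L) * ∫ c : ℝ, ‖A2_P G L z c‖ ^ 2 := by
    apply norm_integral_le_of_norm_le ((hmarg.integrable volume).const_mul _)
    refine Filter.Eventually.of_forall fun z => ?_
    have h3 : 0 ≤ (1 / L) * ∫ c : ℝ, ‖A2_P G L z c‖ ^ 2 :=
      mul_nonneg (by positivity) (integral_nonneg fun c => by positivity)
    rw [norm_mul, norm_real, Real.norm_eq_abs, abs_of_nonneg h3]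
    calc _ ≤ _ := mul_le_mul_of_nonneg_left (A2_tri_abs hL' z) h3
      _ = _ := mul_one _
  refine h2.trans ?_
  rw [integral_const_mul]
  exact A2_P_int hR hG bG sG hs hL hP2

theorem A2_perm_BC {F : Type*} [NormedAddCommGroup F] {f : (ℝ × ℝ) × ℝ → F} (h : A2_BC f) :
    A2_BC (fun q : (ℝ × ℝ) × ℝ => f ((q.2, q.1.1), q.1.2)) := by
  obtain ⟨B, hB⟩ := h.bd
  obtain ⟨r, hr⟩ := h.sp
  refine ⟨h.meas.comp_measurable (g := fun q : (ℝ × ℝ) × ℝ => ((q.2, q.1.1), q.1.2))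
    (by fun_prop), ⟨B, fun q => hB _⟩, ⟨r, fun q hq => hr _ ?_⟩⟩
  rw [Prod.norm_def, Prod.norm_def] at hq ⊢
  refine hq.trans_le ?_
  refine max_le (max_le ?_ ?_) ?_
  · exact (le_max_right _ _).trans (le_max_left _ _)
  · exact le_max_right _ _
  · exact (le_max_left _ _).trans (le_max_left _ _)

theorem A2_Phi_BC {g h : ℝ → ℂ} (hg : Measurable g) (hh : Measurable h) {B r : ℝ}
    (bg : ∀ a, ‖g a‖ ≤ B) (sg : ∀ a, r < |a| → g a = 0) (bh : ∀ a, ‖h a‖ ≤ B)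
    (sh : ∀ a, r < |a| → h a = 0) (ρ : ℝ) : A2_BC (fun p : (ℝ × ℝ) × ℝ =>
      (g p.1.2 * conj (h (ρ * p.1.2 + p.2))) *
        conj (g (p.1.2 + p.1.1) * conj (h (ρ * (p.1.2 + p.1.1) + p.2)))) := by
  refine ⟨Measurable.stronglyMeasurable ?_, ⟨(B * B) * (B * B), fun p => ?_⟩,
    ⟨(2 + |ρ|) * |r|, fun p hp => ?_⟩⟩
  · have m1 : Measurable (fun p : (ℝ × ℝ) × ℝ => g p.1.2) := hg.comp (by fun_prop)
    have m2 : Measurable (fun p : (ℝ × ℝ) × ℝ => h (ρ * p.1.2 + p.2)) := hh.comp (by fun_prop)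
    have m3 : Measurable (fun p : (ℝ × ℝ) × ℝ => g (p.1.2 + p.1.1)) := hg.comp (by fun_prop)
    have m4 : Measurable (fun p : (ℝ × ℝ) × ℝ => h (ρ * (p.1.2 + p.1.1) + p.2)) :=
      hh.comp (by fun_prop)
    exact (m1.mul (continuous_conj.measurable.comp m2)).mul
      (continuous_conj.measurable.comp (m3.mul (continuous_conj.measurable.comp m4)))
  · apply A2_norm_mul_le
    · apply A2_norm_mul_le (bg _)
      rw [norm_conj]; exact bh _
    · rw [norm_conj]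
      apply A2_norm_mul_le (bg _)
      rw [norm_conj]; exact bh _
  · have hrr : r ≤ |r| := le_abs_self r
    have hr1 : 0 ≤ |r| := abs_nonneg r
    have hρ : 0 ≤ |ρ| := abs_nonneg ρ
    have hρr : 0 ≤ |ρ| * |r| := mul_nonneg hρ hr1
    rcases le_or_gt |p.1.2| r with h4 | h4
    · rw [Prod.norm_def, Prod.norm_def] at hp
      rcases lt_max_iff.1 hp with h1 | h1
      · rcases lt_max_iff.1 h1 with h2 | h2
        · rw [Real.norm_eq_abs] at h2
          have h5 : r < |p.1.2 + p.1.1| := by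
            have := abs_sub_abs_le_abs_sub p.1.1 (-p.1.2)
            rw [abs_neg, sub_neg_eq_add, add_comm p.1.1] at this
            linarith
          rw [sg _ h5]; simp
        · rw [Real.norm_eq_abs] at h2
          linarith
      · rw [Real.norm_eq_abs] at h1
        have h5 : r < |ρ * p.1.2 + p.2| := by
          have := abs_sub_abs_le_abs_sub p.2 (-(ρ * p.1.2))
          rw [abs_neg, sub_neg_eq_add, add_comm p.2, abs_mul] at this
          have h6 : |ρ| * |p.1.2| ≤ |ρ| * |r| := mul_le_mul_of_nonneg_left (h4.trans hrr) hρ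
          linarith
        rw [sh _ h5]; simp
    · rw [sg _ h4]; simp

/-- the cross-correlation identity behind (2.2) -/
theorem A2_cross {g h : ℝ → ℂ} (hg : Measurable g) (hh : Measurable h) {B r : ℝ}
    (bg : ∀ a, ‖g a‖ ≤ B) (sg : ∀ a, r < |a| → g a = 0) (bh : ∀ a, ‖h a‖ ≤ B)
    (sh : ∀ a, r < |a| → h a = 0) (ρ : ℝ) :
    ∫ x : ℝ, (∫ a : ℝ, g a * conj (g (a + x))) * conj (∫ b : ℝ, h b * conj (h (b + ρ * x))) =
      ∫ c : ℝ, ((‖∫ a : ℝ, g a * conj (h (ρ * a + c))‖ ^ 2 : ℝ) : ℂ) := by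
  have hΦ := A2_Phi_BC hg hh bg sg bh sh ρ
  have e1 : ∀ x : ℝ, (∫ a : ℝ, g a * conj (g (a + x))) *
      conj (∫ b : ℝ, h b * conj (h (b + ρ * x))) =
      ∫ a : ℝ, ∫ c : ℝ, (g a * conj (h (ρ * a + c))) *
        conj (g (a + x) * conj (h (ρ * (a + x) + c))) := by
    intro x
    rw [A2_prod_conj]
    congr 1
    funext a
    rw [← integral_add_left_eq_self _ (ρ * a)]
    congr 1
    funext c
    have : ρ * a + c + ρ * x = ρ * (a + x) + c := by ring
    rw [this]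
    simp only [map_mul, conj_conj]
    ring
  have e2 : ∀ c : ℝ, ((‖∫ a : ℝ, g a * conj (h (ρ * a + c))‖ ^ 2 : ℝ) : ℂ) =
      ∫ a : ℝ, ∫ x : ℝ, (g a * conj (h (ρ * a + c))) *
        conj (g (a + x) * conj (h (ρ * (a + x) + c))) := by
    intro c
    rw [A2_norm_sq, A2_prod_conj]
    congr 1
    funext a
    rw [← integral_add_left_eq_self _ a]
  simp_rw [e1, e2]
  rw [A2_rot (f := fun x a c => (g a * conj (h (ρ * a + c))) *
        conj (g (a + x) * conj (h (ρ * (a + x) + c)))) hΦ]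
  exact A2_swap (f := fun a c => ∫ x : ℝ, (g a * conj (h (ρ * a + c))) *
        conj (g (a + x) * conj (h (ρ * (a + x) + c)))) (A2_perm_BC hΦ).marg

/-- the inner integral of (2.2) -/
noncomputable def A2_Q (G : ℝ → ℂ) (ρ1 ρ2 z c : ℝ) : ℂ :=
  ∫ a : ℝ, (G a * conj (G (a + z))) * conj (G (ρ1 * a + c) * conj (G (ρ1 * a + c + ρ2 * z)))

theorem A2_FF_inner {R : ℝ} {G : ℝ → ℂ} (hG : Measurable G) (bG : ∀ a, ‖G a‖ ≤ 1)
    (sG : ∀ a, R < |a| → G a = 0) (ρ1 ρ2 z : ℝ) :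
    ∫ x : ℝ, GG G x z * conj (GG G (ρ1 * x) (ρ2 * z)) =
      ((∫ c : ℝ, ‖A2_Q G ρ1 ρ2 z c‖ ^ 2 : ℝ) : ℂ) := by
  have meas : ∀ z : ℝ, Measurable (fun a : ℝ => G a * conj (G (a + z))) := fun z =>
    hG.mul (continuous_conj.measurable.comp (hG.comp (measurable_id.add_const z)))
  have bd : ∀ z a : ℝ, ‖G a * conj (G (a + z))‖ ≤ 1 * 1 := fun z a => by
    apply A2_norm_mul_le (bG _)
    rw [norm_conj]; exact bG _
  have sp : ∀ z a : ℝ, R < |a| → G a * conj (G (a + z)) = 0 := fun z a ha => by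
    rw [sG a ha, zero_mul]
  have h1 := A2_cross (meas z) (meas (ρ2 * z)) (bd z) (sp z) (bd (ρ2 * z)) (sp (ρ2 * z)) ρ1
  have h2 : ∫ c : ℝ, ((‖A2_Q G ρ1 ρ2 z c‖ ^ 2 : ℝ) : ℂ) =
      ((∫ c : ℝ, ‖A2_Q G ρ1 ρ2 z c‖ ^ 2 : ℝ) : ℂ) := integral_complex_ofReal
  rw [← h2]
  unfold A2_Q
  rw [← h1]
  congr 1
  funext x
  rw [A2_GG_eq, A2_GG_eq]

/-- (2.2) positivity -/
theorem FF_nonneg (R : ℝ) (hR : 0 < R) (G : ℝ → ℂ) (hG : Measurable G) (bG : ∀ a, ‖G a‖ ≤ 1)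
    (sG : ∀ a, R < |a| → G a = 0) (ρ1 ρ2 : ℝ) :
    ∃ v : ℝ, 0 ≤ v ∧ ∫ x : ℝ, ∫ z : ℝ, GG G x z * conj (GG G (ρ1 * x) (ρ2 * z)) = v := by
  have hGG : A2_BC (fun q : ℝ × ℝ => GG G q.1 q.2) := (A2_GG_BC hR hG bG sG).marg
  obtain ⟨B, hB⟩ := hGG.bd
  have hb1 : A2_BC (fun q : ℝ × ℝ => GG G q.1 q.2 * conj (GG G (ρ1 * q.1) (ρ2 * q.2))) := by
    have m : Measurable (fun q : ℝ × ℝ => (ρ1 * q.1, ρ2 * q.2)) := by fun_prop
    have m1 : Measurable (fun q : ℝ × ℝ => GG G q.1 q.2) := hGG.meas.measurable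
    have m2 := m1.comp m
    simp only [Function.comp_def] at m2
    have m3 : Measurable (fun q : ℝ × ℝ => conj (GG G (ρ1 * q.1) (ρ2 * q.2))) :=
      continuous_conj.measurable.comp m2
    exact A2_BC.mul (φ := fun q : ℝ × ℝ => conj (GG G (ρ1 * q.1) (ρ2 * q.2))) hGG m3 (A := B)
      (fun q => by
        rw [norm_conj]
        exact hB (ρ1 * q.1, ρ2 * q.2))
  rw [A2_swap (f := fun x z => GG G x z * conj (GG G (ρ1 * x) (ρ2 * z))) hb1]
  simp_rw [A2_FF_inner hG bG sG]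
  refine ⟨∫ z : ℝ, ∫ c : ℝ, ‖A2_Q G ρ1 ρ2 z c‖ ^ 2,
    integral_nonneg fun z => integral_nonneg fun c => by positivity, integral_complex_ofReal⟩

end TriDil
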