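import Pool.Agent.TriDil.Basic7
import Pool.Agent.TriDil.A2
set_option autoImplicit false
open MeasureTheory Complex Set
open scoped ENNReal
namespace TriDil
open scoped ComplexConjugate


theorem A3_int {α : Type} [MeasurableSpace α] (μ : Measure α) (f : α → ℂ) (hf : Measurable f) (C : ℝ)
    (hC : ∀ x, ‖f x‖ ≤ C) (K : Set α) (hK : MeasurableSet K) (hK' : μ K < ⊤)
    (hs : ∀ x, x ∉ K → f x = 0) : Integrable f μ := by
  have h1 : IntegrableOn f K μ :=
    Measure.integrableOn_of_bounded hK'.ne hf.aestronglyMeasurable (M := C) (Filter.Eventually.of_forall hC)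
  rwa [integrableOn_iff_integrable_of_support_subset] at h1
  intro x hx
  by_contra h
  exact hx (hs x h)

structure A3_Nice (B L : ℝ) (g : ℝ × ℝ → ℂ) : Prop where
  meas : Measurable g
  bd : ∀ p, ‖g p‖ ≤ B
  supp : ∀ p, (L < |p.1| ∨ L < |p.2|) → g p = 0

def A3_box (a b : ℝ) : Set (ℝ × ℝ) := Icc (-a) a ×ˢ Icc (-b) b

theorem A3_box_meas (a b : ℝ) : MeasurableSet (A3_box a b) := measurableSet_Icc.prod measurableSet_Icc

theorem A3_box_mem {a b : ℝ} {p : ℝ × ℝ} : p ∈ A3_box a b ↔ |p.1| ≤ a ∧ |p.2| ≤ b := by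
  simp only [A3_box, mem_prod, mem_Icc, abs_le]

theorem A3_box_vol (a b : ℝ) : volume (A3_box a b) = ENNReal.ofReal (2 * a) * ENNReal.ofReal (2 * b) := by
  unfold A3_box
  rw [Measure.volume_eq_prod, Measure.prod_prod, Real.volume_Icc, Real.volume_Icc]
  congr 2 <;> ring

theorem A3_box_lt (a b : ℝ) : volume (A3_box a b) < ⊤ := by
  rw [A3_box_vol]; exact ENNReal.mul_lt_top ENNReal.ofReal_lt_top ENNReal.ofReal_lt_top

theorem A3_box_real (a b : ℝ) (ha : 0 ≤ a) (hb : 0 ≤ b) : volume.real (A3_box a b) = (2 * a) * (2 * b) := by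
  unfold Measure.real
  rw [A3_box_vol, ENNReal.toReal_mul, ENNReal.toReal_ofReal (by linarith), ENNReal.toReal_ofReal (by linarith)]

theorem A3_Nice.integrable {B L : ℝ} {g : ℝ × ℝ → ℂ} (h : A3_Nice B L g) : Integrable g := by
  apply A3_int volume g h.meas B h.bd (A3_box L L) (A3_box_meas L L) (A3_box_lt L L)
  intro x hx
  apply h.supp
  by_contra hc
  push Not at hc
  exact hx (A3_box_mem.2 hc)

section GGfacts
variable (G : ℝ → ℂ) (R : ℝ)

theorem A3_GG_meas (hG : Measurable G) : Measurable (fun p : ℝ × ℝ => GG G p.1 p.2) := by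
  have h : Measurable (fun z : (ℝ × ℝ) × ℝ => G z.2 * conj (G (z.2 + z.1.1)) * conj (G (z.2 + z.1.2)) *
      G (z.2 + z.1.1 + z.1.2)) := by
    have hc : Measurable (starRingEnd ℂ) := Complex.continuous_conj.measurable
    fun_prop
  exact (h.stronglyMeasurable.integral_prod_right' (ν := volume)).measurable

theorem A3_GG_bd (hR : 0 ≤ R) (bG : ∀ a, ‖G a‖ ≤ 1) (sG : ∀ a, R < |a| → G a = 0) (x y : ℝ) :
    ‖GG G x y‖ ≤ 2 * R := by
  have h1 : Integrable (fun a : ℝ => (Icc (-R) R).indicator (fun _ => (1:ℝ)) a) :=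
    (integrable_indicator_iff measurableSet_Icc).2 (integrableOn_const (by
      rw [Real.volume_Icc]; exact ENNReal.ofReal_ne_top))
  calc ‖GG G x y‖ ≤ ∫ a, (Icc (-R) R).indicator (fun _ => (1:ℝ)) a := by
        apply norm_integral_le_of_norm_le h1
        filter_upwards with a
        by_cases ha : a ∈ Icc (-R) R
        · rw [indicator_of_mem ha]
          simp only [norm_mul, RCLike.norm_conj]
          have h2 := bG a
          have h3 := bG (a+x)
          have h4 := bG (a+y)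
          have h5 := bG (a+x+y)
          calc ‖G a‖ * ‖G (a+x)‖ * ‖G (a+y)‖ * ‖G (a+x+y)‖ ≤ 1 * 1 * 1 * 1 := by gcongr
            _ = 1 := by norm_num
        · have : G a = 0 := by
            apply sG
            by_contra hc
            push Not at hc
            exact ha (abs_le.1 hc)
          rw [this]; simp
          exact indicator_nonneg (fun _ _ => zero_le_one) _
    _ = 2 * R := by
        rw [integral_indicator_const _ measurableSet_Icc]
        simp only [Measure.real, Real.volume_Icc, smul_eq_mul, mul_one]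
        rw [ENNReal.toReal_ofReal (by linarith)]; ring

theorem A3_GG_supp (sG : ∀ a, R < |a| → G a = 0) (x y : ℝ) (h : 2 * R < |x| ∨ 2 * R < |y|) :
    GG G x y = 0 := by
  unfold GG
  rw [integral_eq_zero_of_ae]
  filter_upwards with a
  have key : ∀ z : ℝ, 2 * R < |z| → G a = 0 ∨ G (a + z) = 0 := by
    intro z hz
    by_cases ha : R < |a|
    · exact Or.inl (sG a ha)
    · right
      apply sG
      push Not at ha
      have : |z| ≤ |a + z| + |a| := by
        calc |z| = |(a + z) - a| := by ring_nf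
          _ ≤ |a + z| + |a| := abs_sub _ _
      linarith
  rcases h with h | h
  · rcases key x h with h' | h'
    · simp [h']
    · simp [h']
  · rcases key y h with h' | h'
    · simp [h']
    · simp [h']

theorem A3_GG_nice (hR : 0 ≤ R) (hG : Measurable G) (bG : ∀ a, ‖G a‖ ≤ 1) (sG : ∀ a, R < |a| → G a = 0) :
    A3_Nice (2 * R) (2 * R) (fun p : ℝ × ℝ => GG G p.1 p.2) where
  meas := A3_GG_meas G hG
  bd := fun p => A3_GG_bd G R hR bG sG p.1 p.2
  supp := fun p hp => A3_GG_supp G R sG p.1 p.2 hp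

end GGfacts

/-- the form `F(ρ) = ∫ g(p) conj g(ρ p)` -/
noncomputable def A3_F (g : ℝ × ℝ → ℂ) (ρ : ℝ × ℝ) : ℂ :=
  ∫ p : ℝ × ℝ, g p * conj (g (ρ.1 * p.1, ρ.2 * p.2))

theorem A3_F_meas {B L : ℝ} {g : ℝ × ℝ → ℂ} (h : A3_Nice B L g) : Measurable (A3_F g) := by
  have hm := h.meas
  have hc : Measurable (starRingEnd ℂ) := Complex.continuous_conj.measurable
  have h : Measurable (fun z : (ℝ × ℝ) × (ℝ × ℝ) => g z.2 * conj (g (z.1.1 * z.2.1, z.1.2 * z.2.2))) := by
    fun_prop
  exact (h.stronglyMeasurable.integral_prod_right' (ν := volume)).measurable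

theorem A3_F_bd {B L : ℝ} {g : ℝ × ℝ → ℂ} (hL : 0 ≤ L) (hB : 0 ≤ B) (h : A3_Nice B L g) (ρ : ℝ × ℝ) :
    ‖A3_F g ρ‖ ≤ B ^ 2 * (2 * L) ^ 2 := by
  have h1 : Integrable (fun p : ℝ × ℝ => (A3_box L L).indicator (fun _ => B ^ 2) p) :=
    (integrable_indicator_iff (A3_box_meas L L)).2 (integrableOn_const (A3_box_lt L L).ne)
  calc ‖A3_F g ρ‖ ≤ ∫ p, (A3_box L L).indicator (fun _ => B ^ 2) p := by
        apply norm_integral_le_of_norm_le h1
        filter_upwards with p
        by_cases hp : p ∈ A3_box L L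
        · rw [indicator_of_mem hp, norm_mul, RCLike.norm_conj, pow_two]
          exact mul_le_mul (h.bd _) (h.bd _) (norm_nonneg _) hB
        · have : g p = 0 := by
            apply h.supp
            by_contra hc
            push Not at hc
            exact hp (A3_box_mem.2 hc)
          rw [this]; simp
          exact indicator_nonneg (fun _ _ => sq_nonneg _) _
    _ = B ^ 2 * (2 * L) ^ 2 := by
        rw [integral_indicator_const _ (A3_box_meas L L), A3_box_real L L hL hL, smul_eq_mul]; ring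

theorem A3_scale2 (f : ℝ × ℝ → ℂ) (a b : ℝ) (hf : Integrable f)
    (hf' : Integrable (fun p : ℝ × ℝ => f (p.1 * a, p.2 * b))) :
    ∫ p : ℝ × ℝ, f (p.1 * a, p.2 * b) = ((|a⁻¹| * |b⁻¹| : ℝ) : ℂ) * ∫ p : ℝ × ℝ, f p := by
  rw [Measure.volume_eq_prod] at hf hf' ⊢
  rw [integral_prod _ hf', integral_prod _ hf]
  have h1 : ∀ x : ℝ, ∫ y : ℝ, f (x * a, y * b) = |b⁻¹| • ∫ y : ℝ, f (x * a, y) := by
    intro x
    exact Measure.integral_comp_mul_right (fun y => f (x * a, y)) b
  simp only [h1]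
  rw [integral_smul]
  rw [Measure.integral_comp_mul_right (fun x => ∫ y : ℝ, f (x, y)) a, smul_smul]
  rw [Complex.real_smul]
  congr 1
  push_cast; ring

noncomputable def A3_D (M x : ℝ) : ℝ := max 0 (1 - |x| / M)

theorem A3_D_cont (M : ℝ) : Continuous (A3_D M) := by unfold A3_D; fun_prop
theorem A3_D_meas (M : ℝ) : Measurable (A3_D M) := (A3_D_cont M).measurable
theorem A3_D_nn (M x : ℝ) : 0 ≤ A3_D M x := le_max_left _ _
theorem A3_D_le (M x : ℝ) (hM : 0 < M) : A3_D M x ≤ 1 := by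
  unfold A3_D
  apply max_le zero_le_one
  have : 0 ≤ |x| / M := by positivity
  linarith
theorem A3_D_supp (M x : ℝ) (hM : 0 < M) (h : M < |x|) : A3_D M x = 0 := by
  unfold A3_D
  apply max_eq_left
  have : 1 ≤ |x| / M := by rw [le_div_iff₀ hM]; linarith
  linarith
theorem A3_D_half (M x : ℝ) (hM : 0 < M) (h : |x| ≤ M / 2) : 1 / 2 ≤ A3_D M x := by
  unfold A3_D
  apply le_max_of_le_right
  have : |x| / M ≤ 1 / 2 := by rw [div_le_iff₀ hM]; linarith
  linarith
theorem A3_D_scale (M a x : ℝ) (hM : 0 < M) (hx : x ≠ 0) : A3_D M (a / x) = A3_D (M * |x|) a := by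
  unfold A3_D
  rw [abs_div, div_div, mul_comm |x| M]

theorem A3_DD_norm {M : ℝ} (hM : 0 < M) (x y : ℝ) : ‖((A3_D M x * A3_D M y : ℝ) : ℂ)‖ ≤ 1 := by
  rw [norm_real, Real.norm_eq_abs, abs_of_nonneg (mul_nonneg (A3_D_nn _ _) (A3_D_nn _ _))]
  calc A3_D M x * A3_D M y ≤ 1 * 1 := by
        gcongr
        · exact A3_D_nn _ _
        · exact A3_D_le _ _ hM
        · exact A3_D_le _ _ hM
    _ = 1 := one_mul 1

theorem A3_DD_supp {M : ℝ} (hM : 0 < M) (p : ℝ × ℝ) (hp : p ∉ A3_box M M) :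
    ((A3_D M p.1 * A3_D M p.2 : ℝ) : ℂ) = 0 := by
  rw [A3_box_mem, not_and_or] at hp
  rcases hp with h | h
  · push Not at h; rw [A3_D_supp _ _ hM h]; simp
  · push Not at h; rw [A3_D_supp _ _ hM h]; simp

theorem A3_Nice.out {B L : ℝ} {g : ℝ × ℝ → ℂ} (hg : A3_Nice B L g) (p : ℝ × ℝ) (hp : p ∉ A3_box L L) :
    g p = 0 := by
  apply hg.supp
  by_contra hc
  push Not at hc
  exact hp (A3_box_mem.2 hc)

/-- the inner bracket of (2.3) -/
noncomputable def A3_W (g : ℝ × ℝ → ℂ) (M : ℝ) (p : ℝ × ℝ) : ℂ :=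
  ∫ ρ : ℝ × ℝ, ((A3_D M ρ.1 * A3_D M ρ.2 : ℝ) : ℂ) * g (ρ.1 * p.1, ρ.2 * p.2)

theorem A3_W_bd {B L : ℝ} {g : ℝ × ℝ → ℂ} (hB : 0 ≤ B) (hg : A3_Nice B L g) (M : ℝ) (hM : 0 < M)
    (p : ℝ × ℝ) : ‖A3_W g M p‖ ≤ B * (2 * M) ^ 2 := by
  have h1 : Integrable (fun p : ℝ × ℝ => (A3_box M M).indicator (fun _ => B) p) :=
    (integrable_indicator_iff (A3_box_meas M M)).2 (integrableOn_const (A3_box_lt M M).ne)
  calc ‖A3_W g M p‖ ≤ ∫ p, (A3_box M M).indicator (fun _ => B) p := by
        apply norm_integral_le_of_norm_le h1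
        filter_upwards with q
        by_cases hq : q ∈ A3_box M M
        · rw [indicator_of_mem hq, norm_mul]
          calc _ ≤ 1 * B := mul_le_mul (A3_DD_norm hM _ _) (hg.bd _) (norm_nonneg _) zero_le_one
            _ = B := one_mul B
        · rw [A3_DD_supp hM q hq]; simp
          exact indicator_nonneg (fun _ _ => hB) _
    _ = B * (2 * M) ^ 2 := by
        rw [integral_indicator_const _ (A3_box_meas M M), A3_box_real M M hM.le hM.le, smul_eq_mul]; ring

theorem A3_W_eq {B L : ℝ} {g : ℝ × ℝ → ℂ} (hg : A3_Nice B L g) (M : ℝ) (hM : 0 < M)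
    (p : ℝ × ℝ) (h1 : p.1 ≠ 0) (h2 : p.2 ≠ 0) :
    A3_W g M p = ((|p.1⁻¹| * |p.2⁻¹| : ℝ) : ℂ) *
      ∫ q : ℝ × ℝ, g q * ((A3_D (M * |p.1|) q.1 * A3_D (M * |p.2|) q.2 : ℝ) : ℂ) := by
  have hm := hg.meas
  have hD := A3_D_meas
  set f : ℝ × ℝ → ℂ := fun q => g q * ((A3_D (M * |p.1|) q.1 * A3_D (M * |p.2|) q.2 : ℝ) : ℂ) with hf
  have hMp1 : 0 < M * |p.1| := by positivity
  have hMp2 : 0 < M * |p.2| := by positivity
  have e : ∀ ρ : ℝ × ℝ, ((A3_D M ρ.1 * A3_D M ρ.2 : ℝ) : ℂ) * g (ρ.1 * p.1, ρ.2 * p.2) = f (ρ.1 * p.1, ρ.2 * p.2) := by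
    intro ρ
    rw [hf]
    simp only
    rw [← A3_D_scale M (ρ.1 * p.1) p.1 hM h1, ← A3_D_scale M (ρ.2 * p.2) p.2 hM h2,
      mul_div_cancel_right₀ _ h1, mul_div_cancel_right₀ _ h2, mul_comm]
  have hfm : Measurable f := by
    have a1 := hD (M * |p.1|)
    have a2 := hD (M * |p.2|)
    rw [hf]; fun_prop
  have hfb : ∀ q, ‖f q‖ ≤ B := by
    intro q
    rw [hf]; simp only [norm_mul, norm_real, Real.norm_eq_abs]
    rw [abs_of_nonneg (A3_D_nn _ _), abs_of_nonneg (A3_D_nn _ _)]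
    have hB : 0 ≤ B := (norm_nonneg _).trans (hg.bd q)
    calc ‖g q‖ * (A3_D (M * |p.1|) q.1 * A3_D (M * |p.2|) q.2) ≤ B * (1 * 1) := by
          gcongr
          · exact mul_nonneg (A3_D_nn _ _) (A3_D_nn _ _)
          · exact hg.bd q
          · exact A3_D_nn _ _
          · exact A3_D_le _ _ hMp1
          · exact A3_D_le _ _ hMp2
      _ = B := by ring
  have i1 : Integrable f := A3_int volume f hfm B hfb (A3_box L L) (A3_box_meas L L) (A3_box_lt L L) (by
    intro q hq; rw [hf]; simp only; rw [hg.out q hq, zero_mul])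
  have i2 : Integrable (fun ρ : ℝ × ℝ => f (ρ.1 * p.1, ρ.2 * p.2)) := by
    apply A3_int volume _ (by fun_prop) B (fun q => hfb _) (A3_box M M) (A3_box_meas M M) (A3_box_lt M M)
    intro q hq
    rw [← e, A3_DD_supp hM q hq, zero_mul]
  unfold A3_W
  rw [← A3_scale2 f p.1 p.2 i1 i2]
  exact integral_congr_ae (Filter.Eventually.of_forall e)

theorem A3_W_meas {B L : ℝ} {g : ℝ × ℝ → ℂ} (hg : A3_Nice B L g) (M : ℝ) : Measurable (A3_W g M) := by
  have hm := hg.meas
  have hD := A3_D_meas M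
  have h : Measurable (fun z : (ℝ × ℝ) × (ℝ × ℝ) => ((A3_D M z.2.1 * A3_D M z.2.2 : ℝ) : ℂ) *
      g (z.2.1 * z.1.1, z.2.2 * z.1.2)) := by
    fun_prop
  exact (h.stronglyMeasurable.integral_prod_right' (ν := volume)).measurable

theorem A3_weighted (B L : ℝ) (hB : 0 ≤ B) (hL : 0 < L) (g : ℝ × ℝ → ℂ) (hg : A3_Nice B L g) (b : ℝ)
    (hb : 0 ≤ b)
    (htri : ∀ L1 L2 : ℝ, 0 < L1 → 0 < L2 →
      ‖∫ p : ℝ × ℝ, g p * ((A3_D L1 p.1 * A3_D L2 p.2 : ℝ) : ℂ)‖ ≤ b)
    (M : ℝ) (hM : 0 < M) (u : ℝ) (hu : 0 < u) :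
    ‖∫ ρ : ℝ × ℝ, ((A3_D M ρ.1 * A3_D M ρ.2 : ℝ) : ℂ) * A3_F g ρ‖ ≤
      (2 * L) ^ 2 * (B * (b / u ^ 2)) + B * (B * (2 * M) ^ 2) * (2 * ((2 * u) * (2 * L))) := by
  have hm := hg.meas
  have hD := A3_D_meas M
  have hc : Measurable (starRingEnd ℂ) := Complex.continuous_conj.measurable
  -- swap
  have e1 : ∫ ρ : ℝ × ℝ, ((A3_D M ρ.1 * A3_D M ρ.2 : ℝ) : ℂ) * A3_F g ρ = ∫ p : ℝ × ℝ, g p * conj (A3_W g M p) := by
    have i1 : Integrable (Function.uncurry (fun (ρ p : ℝ × ℝ) => ((A3_D M ρ.1 * A3_D M ρ.2 : ℝ) : ℂ) *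
        (g p * conj (g (ρ.1 * p.1, ρ.2 * p.2))))) ((volume : Measure (ℝ × ℝ)).prod volume) := by
      apply A3_int _ _ _ (1 * (B * B)) _ (A3_box M M ×ˢ A3_box L L) ((A3_box_meas M M).prod (A3_box_meas L L))
      · rw [Measure.prod_prod]; exact ENNReal.mul_lt_top (A3_box_lt M M) (A3_box_lt L L)
      · rintro ⟨ρ, p⟩ hz
        simp only [mem_prod, not_and_or] at hz
        simp only [Function.uncurry]
        rcases hz with h | h
        · rw [A3_DD_supp hM _ h, zero_mul]
        · rw [hg.out _ h, zero_mul, mul_zero]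
      · unfold Function.uncurry; fun_prop
      · rintro ⟨ρ, p⟩
        simp only [Function.uncurry]
        rw [norm_mul, norm_mul, RCLike.norm_conj]
        exact mul_le_mul (A3_DD_norm hM _ _) (mul_le_mul (hg.bd _) (hg.bd _) (norm_nonneg _) hB)
          (by positivity) zero_le_one
    calc ∫ ρ : ℝ × ℝ, ((A3_D M ρ.1 * A3_D M ρ.2 : ℝ) : ℂ) * A3_F g ρ
        = ∫ ρ : ℝ × ℝ, ∫ p : ℝ × ℝ, ((A3_D M ρ.1 * A3_D M ρ.2 : ℝ) : ℂ) *
          (g p * conj (g (ρ.1 * p.1, ρ.2 * p.2))) := by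
          congr 1; funext ρ
          rw [integral_const_mul]; rfl
      _ = ∫ p : ℝ × ℝ, ∫ ρ : ℝ × ℝ, ((A3_D M ρ.1 * A3_D M ρ.2 : ℝ) : ℂ) *
          (g p * conj (g (ρ.1 * p.1, ρ.2 * p.2))) := integral_integral_swap i1
      _ = ∫ p : ℝ × ℝ, g p * conj (A3_W g M p) := by
          congr 1; funext p
          unfold A3_W
          rw [← integral_conj, ← integral_const_mul]
          congr 1; funext ρ
          rw [map_mul, conj_ofReal]; ring
  rw [e1]
  have i1 : Integrable (fun p : ℝ × ℝ => (A3_box L L).indicator (fun _ => B * (b / u ^ 2)) p) :=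
    (integrable_indicator_iff (A3_box_meas _ _)).2 (integrableOn_const (A3_box_lt _ _).ne)
  have i2 : Integrable (fun p : ℝ × ℝ => (A3_box u L).indicator (fun _ => B * (B * (2 * M) ^ 2)) p) :=
    (integrable_indicator_iff (A3_box_meas _ _)).2 (integrableOn_const (A3_box_lt _ _).ne)
  have i3 : Integrable (fun p : ℝ × ℝ => (A3_box L u).indicator (fun _ => B * (B * (2 * M) ^ 2)) p) :=
    (integrable_indicator_iff (A3_box_meas _ _)).2 (integrableOn_const (A3_box_lt _ _).ne)
  have i23 : Integrable (fun p : ℝ × ℝ => ((A3_box u L).indicator (fun _ => B * (B * (2 * M) ^ 2)) p +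
           (A3_box L u).indicator (fun _ => B * (B * (2 * M) ^ 2)) p)) := i2.add i3
  have i4 : Integrable (fun p : ℝ × ℝ => ((A3_box L L).indicator (fun _ => B * (b / u ^ 2)) p +
          ((A3_box u L).indicator (fun _ => B * (B * (2 * M) ^ 2)) p +
           (A3_box L u).indicator (fun _ => B * (B * (2 * M) ^ 2)) p))) := i1.add i23
  have n1 : 0 ≤ B * (b / u ^ 2) := by positivity
  have n2 : 0 ≤ B * (B * (2 * M) ^ 2) := by positivity
  calc ‖∫ p : ℝ × ℝ, g p * conj (A3_W g M p)‖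
      ≤ ∫ p : ℝ × ℝ, ((A3_box L L).indicator (fun _ => B * (b / u ^ 2)) p +
          ((A3_box u L).indicator (fun _ => B * (B * (2 * M) ^ 2)) p +
           (A3_box L u).indicator (fun _ => B * (B * (2 * M) ^ 2)) p)) := by
        apply norm_integral_le_of_norm_le i4
        filter_upwards with p
        have m1 : 0 ≤ (A3_box L L).indicator (fun _ => B * (b / u ^ 2)) p := indicator_nonneg (fun _ _ => n1) _
        have m2 : 0 ≤ (A3_box u L).indicator (fun _ => B * (B * (2 * M) ^ 2)) p :=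
          indicator_nonneg (fun _ _ => n2) _
        have m3 : 0 ≤ (A3_box L u).indicator (fun _ => B * (B * (2 * M) ^ 2)) p :=
          indicator_nonneg (fun _ _ => n2) _
        rw [norm_mul, RCLike.norm_conj]
        by_cases hp : p ∈ A3_box L L
        · have hp' := A3_box_mem.1 hp
          by_cases c1 : |p.1| ≤ u
          · have hq : p ∈ A3_box u L := A3_box_mem.2 ⟨c1, hp'.2⟩
            rw [indicator_of_mem hq] at m2 ⊢
            have := mul_le_mul (hg.bd p) (A3_W_bd hB hg M hM p) (norm_nonneg _) hB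
            linarith
          · by_cases c2 : |p.2| ≤ u
            · have hq : p ∈ A3_box L u := A3_box_mem.2 ⟨hp'.1, c2⟩
              rw [indicator_of_mem hq] at m3 ⊢
              have := mul_le_mul (hg.bd p) (A3_W_bd hB hg M hM p) (norm_nonneg _) hB
              linarith
            · push Not at c1 c2
              have z1 : p.1 ≠ 0 := by intro h; rw [h, abs_zero] at c1; linarith
              have z2 : p.2 ≠ 0 := by intro h; rw [h, abs_zero] at c2; linarith
              rw [indicator_of_mem hp] at m1 ⊢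
              have hW : ‖A3_W g M p‖ ≤ b / u ^ 2 := by
                rw [A3_W_eq hg M hM p z1 z2, norm_mul, norm_real, Real.norm_eq_abs,
                  abs_of_nonneg (by positivity)]
                have ht := htri (M * |p.1|) (M * |p.2|) (by positivity) (by positivity)
                have k1 : |p.1⁻¹| ≤ u⁻¹ := by
                  rw [abs_inv]; exact inv_anti₀ hu c1.le
                have k2 : |p.2⁻¹| ≤ u⁻¹ := by
                  rw [abs_inv]; exact inv_anti₀ hu c2.le
                calc _ ≤ (u⁻¹ * u⁻¹) * b := by gcongr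
                  _ = b / u ^ 2 := by field_simp
              have := mul_le_mul (hg.bd p) hW (norm_nonneg _) hB
              linarith
        · rw [hg.out p hp]; simp only [norm_zero, zero_mul]; linarith
    _ = (2 * L) ^ 2 * (B * (b / u ^ 2)) + B * (B * (2 * M) ^ 2) * (2 * ((2 * u) * (2 * L))) := by
        rw [integral_add i1 i23]
        have : ∫ a : ℝ × ℝ, ((A3_box u L).indicator (fun _ => B * (B * (2 * M) ^ 2)) a +
           (A3_box L u).indicator (fun _ => B * (B * (2 * M) ^ 2)) a) = 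
           (∫ a : ℝ × ℝ, (A3_box u L).indicator (fun _ => B * (B * (2 * M) ^ 2)) a) +
           ∫ a : ℝ × ℝ, (A3_box L u).indicator (fun _ => B * (B * (2 * M) ^ 2)) a := integral_add i2 i3
        rw [this, integral_indicator_const _ (A3_box_meas _ _), integral_indicator_const _ (A3_box_meas _ _),
          integral_indicator_const _ (A3_box_meas _ _), A3_box_real L L hL.le hL.le, A3_box_real u L hu.le hL.le,
          A3_box_real L u hL.le hu.le]
        simp only [smul_eq_mul]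
        ring

theorem A3_CS (B L : ℝ) (hB : 0 < B) (hL : 0 < L) (g h : ℝ × ℝ → ℂ) (hg : A3_Nice B L g) (hh : A3_Nice B L h)
    (S : Set ℝ) (A : ℝ) (hA : 0 ≤ A) (hSA : ∀ T ∈ S, |T| ≤ A) (a b c : ℝ → ℝ)
    (ma : Measurable a) (mb : Measurable b) (mc : Measurable c) (c0 : ℝ) (hc0 : 0 ≤ c0)
    (hc : ∀ T, |c T| ≤ c0) (hcS : ∀ T, T ∉ S → c T = 0) (a0 b0 : ℝ) (ha0 : 0 < a0) (hb0 : 0 < b0)
    (ha : ∀ T ∈ S, a0 ≤ |a T|) (hb : ∀ T ∈ S, b0 ≤ |b T|) (ε : ℝ) (hε : 0 < ε)
    (hI : ε ≤ ‖∫ T : ℝ, (c T : ℂ) * ∫ p : ℝ × ℝ, g (a T * p.1, b T * p.2) * h p‖) :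
    ε ^ 2 / (B ^ 2 * (2 * L) ^ 2) ≤
      ‖∫ z : ℝ × ℝ, ((c z.1 * c z.2 * (|(a z.1)⁻¹| * |(b z.1)⁻¹|) : ℝ) : ℂ) *
        A3_F g (a z.2 / a z.1, b z.2 / b z.1)‖ := by
  have hm := hg.meas
  have hmh := hh.meas
  have hcj : Measurable (starRingEnd ℂ) := Complex.continuous_conj.measurable
  set Φ : ℝ × ℝ → ℂ := fun p => ∫ T : ℝ, (c T : ℂ) * g (a T * p.1, b T * p.2) with hΦ
  have hcut : ∀ T, |T| > A → c T = 0 := by
    intro T hT
    apply hcS
    intro h
    have := hSA T h
    linarith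
  -- measurability
  have mΦ : Measurable Φ := by
    have h : Measurable (fun z : (ℝ × ℝ) × ℝ => (c z.2 : ℂ) * g (a z.2 * z.1.1, b z.2 * z.1.2)) := by
      fun_prop
    exact (h.stronglyMeasurable.integral_prod_right' (ν := volume)).measurable
  have bΦ : ∀ p, ‖Φ p‖ ≤ c0 * B * (2 * A) := by
    intro p
    have h1 : Integrable (fun T : ℝ => (Icc (-A) A).indicator (fun _ => c0 * B) T) :=
      (integrable_indicator_iff measurableSet_Icc).2 (integrableOn_const (by
        rw [Real.volume_Icc]; exact ENNReal.ofReal_ne_top))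
    calc ‖Φ p‖ ≤ ∫ T, (Icc (-A) A).indicator (fun _ => c0 * B) T := by
          apply norm_integral_le_of_norm_le h1
          filter_upwards with T
          by_cases hT : T ∈ Icc (-A) A
          · rw [indicator_of_mem hT, norm_mul, norm_real, Real.norm_eq_abs]
            exact mul_le_mul (hc T) (hg.bd _) (norm_nonneg _) hc0
          · rw [hcut T (by rw [mem_Icc, ← abs_le] at hT; push Not at hT; exact hT)]; simp
            exact indicator_nonneg (fun _ _ => by positivity) _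
      _ = c0 * B * (2 * A) := by
          rw [integral_indicator_const _ measurableSet_Icc]
          simp only [Measure.real, Real.volume_Icc, smul_eq_mul]
          rw [ENNReal.toReal_ofReal (by linarith)]; ring
  have sg : ∀ T p, p ∉ A3_box (L / a0) (L / b0) → (c T : ℂ) * g (a T * p.1, b T * p.2) = 0 := by
    intro T p hp
    by_cases hT : T ∈ S
    · have h1 := ha T hT
      have h2 := hb T hT
      rw [A3_box_mem, not_and_or] at hp
      rw [hg.supp, mul_zero]
      rcases hp with hp | hp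
      · left
        push Not at hp
        simp only [abs_mul]
        rw [div_lt_iff₀ ha0] at hp
        nlinarith [abs_nonneg p.1]
      · right
        push Not at hp
        simp only [abs_mul]
        rw [div_lt_iff₀ hb0] at hp
        nlinarith [abs_nonneg p.2]
    · rw [hcS T hT]; simp
  have sΦ : ∀ p, p ∉ A3_box (L / a0) (L / b0) → Φ p = 0 := by
    intro p hp
    rw [hΦ]
    simp only
    rw [integral_eq_zero_of_ae]
    filter_upwards with T
    exact sg T p hp
  -- first identity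
  have e1 : ∫ T : ℝ, (c T : ℂ) * ∫ p : ℝ × ℝ, g (a T * p.1, b T * p.2) * h p = ∫ p : ℝ × ℝ, Φ p * h p := by
    have i1 : Integrable (Function.uncurry (fun (T : ℝ) (p : ℝ × ℝ) => (c T : ℂ) *
        (g (a T * p.1, b T * p.2) * h p))) ((volume : Measure ℝ).prod volume) := by
      apply A3_int _ _ _ (c0 * (B * B)) _ (Icc (-A) A ×ˢ A3_box L L) (measurableSet_Icc.prod (A3_box_meas L L))
      · rw [Measure.prod_prod, Real.volume_Icc]; exact ENNReal.mul_lt_top ENNReal.ofReal_lt_top (A3_box_lt L L)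
      · rintro ⟨T, p⟩ hz
        simp only [mem_prod, not_and_or] at hz
        simp only [Function.uncurry]
        rcases hz with h | h
        · rw [hcut T (by rw [mem_Icc, ← abs_le] at h; push Not at h; exact h)]; simp
        · rw [hh.out _ h, mul_zero, mul_zero]
      · unfold Function.uncurry; fun_prop
      · rintro ⟨T, p⟩
        simp only [Function.uncurry]
        rw [norm_mul, norm_mul, norm_real, Real.norm_eq_abs]
        exact mul_le_mul (hc T) (mul_le_mul (hg.bd _) (hh.bd _) (norm_nonneg _) hB.le)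
          (by positivity) hc0
    calc ∫ T : ℝ, (c T : ℂ) * ∫ p : ℝ × ℝ, g (a T * p.1, b T * p.2) * h p
        = ∫ T : ℝ, ∫ p : ℝ × ℝ, (c T : ℂ) * (g (a T * p.1, b T * p.2) * h p) := by
          congr 1; funext T; rw [integral_const_mul]
      _ = ∫ p : ℝ × ℝ, ∫ T : ℝ, (c T : ℂ) * (g (a T * p.1, b T * p.2) * h p) := integral_integral_swap i1
      _ = ∫ p : ℝ × ℝ, Φ p * h p := by
          congr 1; funext p
          rw [hΦ]
          simp only
          rw [← integral_mul_const]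
          congr 1; funext T; ring
  rw [e1] at hI
  -- second identity
  have e2 : ∫ p : ℝ × ℝ, Φ p * conj (Φ p) =
      ∫ z : ℝ × ℝ, ((c z.1 * c z.2 * (|(a z.1)⁻¹| * |(b z.1)⁻¹|) : ℝ) : ℂ) *
        A3_F g (a z.2 / a z.1, b z.2 / b z.1) := by
    have i2 : Integrable (Function.uncurry (fun (p z : ℝ × ℝ) => ((c z.1 : ℂ) * g (a z.1 * p.1, b z.1 * p.2)) *
        conj ((c z.2 : ℂ) * g (a z.2 * p.1, b z.2 * p.2)))) ((volume : Measure (ℝ × ℝ)).prod volume) := by
      apply A3_int _ _ _ ((c0 * B) * (c0 * B)) _ (A3_box (L / a0) (L / b0) ×ˢ A3_box A A)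
        ((A3_box_meas _ _).prod (A3_box_meas _ _))
      · rw [Measure.prod_prod]; exact ENNReal.mul_lt_top (A3_box_lt _ _) (A3_box_lt _ _)
      · rintro ⟨p, z⟩ hz
        simp only [mem_prod, not_and_or] at hz
        simp only [Function.uncurry]
        rcases hz with h | h
        · rw [sg _ _ h, zero_mul]
        · rw [A3_box_mem, not_and_or] at h
          rcases h with h | h
          · push Not at h; rw [hcut z.1 h]; simp
          · push Not at h; rw [hcut z.2 h]; simp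
      · unfold Function.uncurry; fun_prop
      · rintro ⟨p, z⟩
        simp only [Function.uncurry]
        rw [norm_mul, RCLike.norm_conj, norm_mul, norm_mul, norm_real, norm_real, Real.norm_eq_abs,
          Real.norm_eq_abs]
        gcongr
        · exact hc _
        · exact hg.bd _
        · exact hc _
        · exact hg.bd _
    calc ∫ p : ℝ × ℝ, Φ p * conj (Φ p)
        = ∫ p : ℝ × ℝ, ∫ z : ℝ × ℝ, ((c z.1 : ℂ) * g (a z.1 * p.1, b z.1 * p.2)) *
          conj ((c z.2 : ℂ) * g (a z.2 * p.1, b z.2 * p.2)) := by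
          congr 1; funext p
          rw [hΦ]
          simp only
          rw [← integral_conj, ← integral_prod_mul]
          rfl
      _ = ∫ z : ℝ × ℝ, ∫ p : ℝ × ℝ, ((c z.1 : ℂ) * g (a z.1 * p.1, b z.1 * p.2)) *
          conj ((c z.2 : ℂ) * g (a z.2 * p.1, b z.2 * p.2)) := integral_integral_swap i2
      _ = _ := by
          congr 1; funext z
          by_cases hz : z.1 ∈ S
          · have ha1 : a z.1 ≠ 0 := by
              intro h; have := ha _ hz; rw [h, abs_zero] at this; linarith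
            have hb1 : b z.1 ≠ 0 := by
              intro h; have := hb _ hz; rw [h, abs_zero] at this; linarith
            set f : ℝ × ℝ → ℂ := fun q => g q * conj (g (a z.2 / a z.1 * q.1, b z.2 / b z.1 * q.2)) with hf
            have ee : ∀ p : ℝ × ℝ, ((c z.1 : ℂ) * g (a z.1 * p.1, b z.1 * p.2)) *
                conj ((c z.2 : ℂ) * g (a z.2 * p.1, b z.2 * p.2)) =
                ((c z.1 * c z.2 : ℝ) : ℂ) * f (p.1 * a z.1, p.2 * b z.1) := by
              intro p
              rw [hf]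
              simp only
              have q1 : a z.2 / a z.1 * (p.1 * a z.1) = a z.2 * p.1 := by field_simp
              have q2 : b z.2 / b z.1 * (p.2 * b z.1) = b z.2 * p.2 := by field_simp
              rw [q1, q2, map_mul, conj_ofReal, mul_comm p.1, mul_comm p.2]
              push_cast; ring
            have hfm : Measurable f := by rw [hf]; fun_prop
            have hfb : ∀ q, ‖f q‖ ≤ B * B := by
              intro q; rw [hf]; simp only; rw [norm_mul, RCLike.norm_conj]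
              exact mul_le_mul (hg.bd _) (hg.bd _) (norm_nonneg _) hB.le
            have i3 : Integrable f := A3_int volume f hfm (B * B) hfb (A3_box L L) (A3_box_meas L L)
              (A3_box_lt L L) (by intro q hq; rw [hf]; simp only; rw [hg.out q hq, zero_mul])
            have i4 : Integrable (fun p : ℝ × ℝ => f (p.1 * a z.1, p.2 * b z.1)) := by
              apply A3_int volume _ (by fun_prop) (B * B) (fun q => hfb _) (A3_box (L / a0) (L / b0))
                (A3_box_meas _ _) (A3_box_lt _ _)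
              intro p hp
              rw [hf]; simp only
              rw [A3_box_mem, not_and_or] at hp
              have h1 := ha _ hz
              have h2 := hb _ hz
              rw [hg.supp (p.1 * a z.1, p.2 * b z.1), zero_mul]
              rcases hp with hp | hp
              · left
                push Not at hp
                simp only [abs_mul]
                rw [div_lt_iff₀ ha0] at hp
                nlinarith [abs_nonneg p.1]
              · right
                push Not at hp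
                simp only [abs_mul]
                rw [div_lt_iff₀ hb0] at hp
                nlinarith [abs_nonneg p.2]
            have : ∫ p : ℝ × ℝ, ((c z.1 : ℂ) * g (a z.1 * p.1, b z.1 * p.2)) *
                conj ((c z.2 : ℂ) * g (a z.2 * p.1, b z.2 * p.2)) =
                ∫ p : ℝ × ℝ, ((c z.1 * c z.2 : ℝ) : ℂ) * f (p.1 * a z.1, p.2 * b z.1) :=
              integral_congr_ae (Filter.Eventually.of_forall ee)
            rw [this, integral_const_mul, A3_scale2 f _ _ i3 i4]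
            unfold A3_F
            rw [hf]
            push_cast; ring
          · have hz0 := hcS _ hz
            have : ∀ p : ℝ × ℝ, ((c z.1 : ℂ) * g (a z.1 * p.1, b z.1 * p.2)) *
                conj ((c z.2 : ℂ) * g (a z.2 * p.1, b z.2 * p.2)) = 0 := by
              intro p; rw [hz0]; simp
            simp only [this, hz0]
            simp
  rw [← e2]
  -- the real integral
  have i5 : Integrable (fun p : ℝ × ℝ => ‖Φ p‖ ^ 2) := by
    have : Integrable (fun p : ℝ × ℝ => Φ p * conj (Φ p)) := by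
      apply A3_int volume _ (by fun_prop) ((c0 * B * (2 * A)) * (c0 * B * (2 * A))) _
        (A3_box (L / a0) (L / b0)) (A3_box_meas _ _) (A3_box_lt _ _)
      · intro p hp; rw [sΦ p hp, zero_mul]
      · intro p; rw [norm_mul, RCLike.norm_conj]
        exact mul_le_mul (bΦ p) (bΦ p) (norm_nonneg _) (by positivity)
    have h2 := this.norm
    refine h2.congr (Filter.Eventually.of_forall (fun p => ?_))
    simp only [norm_mul, RCLike.norm_conj]; ring
  have e3 : ∫ p : ℝ × ℝ, Φ p * conj (Φ p) = ((∫ p : ℝ × ℝ, ‖Φ p‖ ^ 2 : ℝ) : ℂ) := by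
    rw [← integral_complex_ofReal]
    congr 1; funext p
    rw [mul_conj, normSq_eq_norm_sq]
  rw [e3, norm_real, Real.norm_eq_abs, abs_of_nonneg (integral_nonneg (fun p => sq_nonneg _))]
  -- final inequality
  have hV : 0 < (2 * L) ^ 2 := by positivity
  have i6 : Integrable (fun p : ℝ × ℝ => (A3_box L L).indicator (fun _ => ε / (2 * (2 * L) ^ 2)) p) :=
    (integrable_indicator_iff (A3_box_meas _ _)).2 (integrableOn_const (A3_box_lt _ _).ne)
  have i7 : Integrable (fun p : ℝ × ℝ => (A3_box L L).indicator (fun _ => ε / (2 * (2 * L) ^ 2)) p +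
      B ^ 2 * (2 * L) ^ 2 / (2 * ε) * ‖Φ p‖ ^ 2) := i6.add (i5.const_mul _)
  have h8 : ‖∫ p : ℝ × ℝ, Φ p * h p‖ ≤ ∫ p : ℝ × ℝ, ((A3_box L L).indicator (fun _ => ε / (2 * (2 * L) ^ 2)) p +
      B ^ 2 * (2 * L) ^ 2 / (2 * ε) * ‖Φ p‖ ^ 2) := by
    apply norm_integral_le_of_norm_le i7
    filter_upwards with p
    have k1 : 0 ≤ B ^ 2 * (2 * L) ^ 2 / (2 * ε) * ‖Φ p‖ ^ 2 := by positivity
    by_cases hp : p ∈ A3_box L L
    · rw [indicator_of_mem hp, norm_mul]
      have k2 : ‖Φ p‖ * ‖h p‖ ≤ ‖Φ p‖ * B := mul_le_mul_of_nonneg_left (hh.bd p) (norm_nonneg _)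
      have k3 : ‖Φ p‖ * B ≤ ε / (2 * (2 * L) ^ 2) + B ^ 2 * (2 * L) ^ 2 / (2 * ε) * ‖Φ p‖ ^ 2 := by
        have : 0 ≤ (ε - B * ‖Φ p‖ * (2 * L) ^ 2) ^ 2 / (2 * (2 * L) ^ 2 * ε) := by positivity
        have e : ε / (2 * (2 * L) ^ 2) + B ^ 2 * (2 * L) ^ 2 / (2 * ε) * ‖Φ p‖ ^ 2 - ‖Φ p‖ * B =
          (ε - B * ‖Φ p‖ * (2 * L) ^ 2) ^ 2 / (2 * (2 * L) ^ 2 * ε) := by
          field_simp; ring
        linarith
      linarith
    · rw [hh.out p hp, mul_zero, norm_zero]
      have : 0 ≤ (A3_box L L).indicator (fun _ => ε / (2 * (2 * L) ^ 2)) p :=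
        indicator_nonneg (fun _ _ => by positivity) _
      linarith
  have h9 : ∫ p : ℝ × ℝ, ((A3_box L L).indicator (fun _ => ε / (2 * (2 * L) ^ 2)) p +
      B ^ 2 * (2 * L) ^ 2 / (2 * ε) * ‖Φ p‖ ^ 2) = ε / 2 + B ^ 2 * (2 * L) ^ 2 / (2 * ε) * ∫ p : ℝ × ℝ, ‖Φ p‖ ^ 2 := by
    rw [integral_add i6 (i5.const_mul _), integral_indicator_const _ (A3_box_meas _ _),
      A3_box_real L L hL.le hL.le, integral_const_mul, smul_eq_mul]
    congr 1
    field_simp
  have h10 : ε ≤ ε / 2 + B ^ 2 * (2 * L) ^ 2 / (2 * ε) * ∫ p : ℝ × ℝ, ‖Φ p‖ ^ 2 :=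
    hI.trans (h8.trans h9.le)
  rw [div_le_iff₀ (by positivity)]
  have h11 : ε / 2 ≤ B ^ 2 * (2 * L) ^ 2 / (2 * ε) * ∫ p : ℝ × ℝ, ‖Φ p‖ ^ 2 := by linarith
  have h12 : ε / 2 * (2 * ε) ≤ B ^ 2 * (2 * L) ^ 2 / (2 * ε) * (∫ p : ℝ × ℝ, ‖Φ p‖ ^ 2) * (2 * ε) :=
    mul_le_mul_of_nonneg_right h11 (by positivity)
  have h13 : B ^ 2 * (2 * L) ^ 2 / (2 * ε) * (∫ p : ℝ × ℝ, ‖Φ p‖ ^ 2) * (2 * ε) =
    B ^ 2 * (2 * L) ^ 2 * (∫ p : ℝ × ℝ, ‖Φ p‖ ^ 2) := by field_simp
  rw [h13] at h12
  linarith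

theorem A3_cov (f : ℝ → ℝ≥0∞) (k z : ℝ) (hz : z ≠ 0) :
    ∫⁻ t : ℝ, f t = ∫⁻ r : ℝ, ENNReal.ofReal |z| * f (k + z * r) := by
  have h := lintegral_image_eq_lintegral_abs_deriv_mul (s := univ) (f := fun r : ℝ => k + z * r)
    (f' := fun _ => z) MeasurableSet.univ (by
      intro x _
      have h1 : HasDerivAt (fun r : ℝ => z * r) z x := by simpa using (hasDerivAt_id x).const_mul z
      exact (h1.const_add k).hasDerivWithinAt)
    (by
      intro x _ y _ hxy
      simp only at hxy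
      exact mul_left_cancel₀ hz (add_left_cancel hxy)) f
  have hu : (fun r : ℝ => k + z * r) '' univ = univ := by
    apply eq_univ_of_forall
    intro t
    refine ⟨(t - k) / z, mem_univ _, ?_⟩
    simp only
    field_simp; ring
  rw [hu] at h
  simpa using h

theorem A3_off (k : ℝ) (hk : k ≠ 0) (S : Set ℝ) (hS : MeasurableSet S) (ε E δ : ℝ) (hε : 0 < ε)
    (hE : 0 < E) (hδ : 0 < δ)
    (hSp : ∀ T ∈ S, ε ≤ |T - k| ∧ ε ≤ |T + k| ∧ |T - k| ≤ E ∧ |T + k| ≤ E)
    (φ : ℝ × ℝ → ℝ≥0∞) (hφ : Measurable φ) :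
    ∫⁻ z : ℝ × ℝ in {z : ℝ × ℝ | z.1 ∈ S ∧ z.2 ∈ S ∧ δ < |z.1 - z.2|},
        φ ((z.2 - k) / (z.1 - k), (z.1 + k) / (z.2 + k)) ≤
      ENNReal.ofReal (E * (E ^ 3 / (2 * |k| * δ))) * ∫⁻ ρ in A3_box (E / ε) (E / ε), φ ρ := by
  have hkp : 0 < |k| := abs_pos.2 hk
  set N : Set (ℝ × ℝ) := {z : ℝ × ℝ | z.1 ∈ S ∧ z.2 ∈ S ∧ δ < |z.1 - z.2|} with hN
  have hNm : MeasurableSet N := by
    have h3 : MeasurableSet {z : ℝ × ℝ | δ < |z.1 - z.2|} := measurableSet_lt measurable_const (by fun_prop)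
    exact (measurable_fst hS).inter ((measurable_snd hS).inter h3)
  set f : ℝ × ℝ → ℝ≥0∞ := N.indicator (fun z => φ ((z.2 - k) / (z.1 - k), (z.1 + k) / (z.2 + k))) with hf
  have hfm : Measurable f := by
    apply Measurable.indicator _ hNm
    fun_prop
  rw [← lintegral_indicator hNm, ← hf, Measure.volume_eq_prod, lintegral_prod _ hfm.aemeasurable]
  -- first change of variables
  have h1 : ∀ T : ℝ, ∫⁻ T' : ℝ, f (T, T') ≤ ∫⁻ r : ℝ, ENNReal.ofReal E * f (T, k + (T - k) * r) := by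
    intro T
    by_cases hT : T ∈ S
    · have hz : T - k ≠ 0 := by
        intro h; have := (hSp T hT).1; rw [h, abs_zero] at this; linarith
      rw [A3_cov (fun T' => f (T, T')) k (T - k) hz]
      apply lintegral_mono
      intro r
      simp only
      gcongr
      exact (hSp T hT).2.2.1
    · have : ∀ T', f (T, T') = 0 := by
        intro T'
        rw [hf]
        apply indicator_of_notMem
        intro h
        exact hT h.1
      simp only [this]
      simp
  calc ∫⁻ T : ℝ, ∫⁻ T' : ℝ, f (T, T') ≤ ∫⁻ T : ℝ, ∫⁻ r : ℝ, ENNReal.ofReal E * f (T, k + (T - k) * r) :=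
        lintegral_mono h1
    _ = ∫⁻ r : ℝ, ∫⁻ T : ℝ, ENNReal.ofReal E * f (T, k + (T - k) * r) := by
        apply lintegral_lintegral_swap
        apply Measurable.aemeasurable
        unfold Function.uncurry
        fun_prop
    _ ≤ ∫⁻ r : ℝ, ENNReal.ofReal E * (ENNReal.ofReal (E ^ 3 / (2 * |k| * δ)) *
          ∫⁻ r' : ℝ, (A3_box (E / ε) (E / ε)).indicator φ (r, r')) := by
        apply lintegral_mono
        intro r
        simp only
        rw [lintegral_const_mul _ (by fun_prop)]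
        gcongr
        -- fixed r
        set s : Set ℝ := {T : ℝ | T ∈ S ∧ k + (T - k) * r ∈ S ∧ δ < |T - (k + (T - k) * r)|} with hs
        have hsm : MeasurableSet s := by
          have h3 : MeasurableSet {T : ℝ | δ < |T - (k + (T - k) * r)|} :=
            measurableSet_lt measurable_const (by fun_prop)
          have h4 : MeasurableSet {T : ℝ | k + (T - k) * r ∈ S} :=
            (by fun_prop : Measurable (fun T : ℝ => k + (T - k) * r)) hS
          exact hS.inter (h4.inter h3)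
        set m : ℝ → ℝ := fun T => (T + k) / ((T - k) * r + 2 * k) with hm
        have hden : ∀ T ∈ s, (T - k) * r + 2 * k ≠ 0 := by
          intro T hT h
          have h2 := (hSp _ hT.2.1).2.1
          have h3 : k + (T - k) * r + k = 0 := by linarith
          rw [h3, abs_zero] at h2; linarith
        have e1 : ∀ T, f (T, k + (T - k) * r) = s.indicator (fun T => φ (r, m T)) T := by
          intro T
          by_cases hT : T ∈ s
          · have hT' : (T, k + (T - k) * r) ∈ N := hT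
            rw [hf, indicator_of_mem hT', indicator_of_mem hT]
            simp only
            have hz : T - k ≠ 0 := by
              intro h; have := (hSp T hT.1).1; rw [h, abs_zero] at this; linarith
            have e2 : (k + (T - k) * r - k) / (T - k) = r := by field_simp; ring
            have e3 : k + (T - k) * r + k = (T - k) * r + 2 * k := by ring
            rw [e2, e3]
          · have hT' : (T, k + (T - k) * r) ∉ N := hT
            rw [hf, indicator_of_notMem hT', indicator_of_notMem hT]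
        simp only [e1]
        rw [lintegral_indicator hsm]
        have hder : ∀ T ∈ s, HasDerivWithinAt m (2 * k * (1 - r) / ((T - k) * r + 2 * k) ^ 2) s T := by
          intro T hT
          have d1 : HasDerivAt (fun T : ℝ => T + k) 1 T := (hasDerivAt_id T).add_const k
          have d2 : HasDerivAt (fun T : ℝ => (T - k) * r + 2 * k) r T := by
            have := (((hasDerivAt_id T).sub_const k).mul_const r).add_const (2 * k)
            simpa using this
          have d3 := d1.div d2 (hden T hT)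
          have : HasDerivAt m ((1 * ((T - k) * r + 2 * k) - (T + k) * r) / ((T - k) * r + 2 * k) ^ 2) T := d3
          have e : 2 * k * (1 - r) = 1 * ((T - k) * r + 2 * k) - (T + k) * r := by ring
          rw [e]
          exact this.hasDerivWithinAt
        have hr1 : ∀ T ∈ s, δ / E ≤ |1 - r| := by
          intro T hT
          have h2 := hT.2.2
          have h3 : T - (k + (T - k) * r) = (T - k) * (1 - r) := by ring
          rw [h3, abs_mul] at h2
          have h4 := (hSp T hT.1).2.2.1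
          rw [div_le_iff₀ hE]
          nlinarith [abs_nonneg (1 - r), abs_nonneg (T - k)]
        have hinj : InjOn m s := by
          intro T hT T' hT' h
          simp only [hm] at h
          rw [div_eq_div_iff (hden T hT) (hden T' hT')] at h
          have h2 : 2 * k * (1 - r) * (T - T') = 0 := by linear_combination h
          have h3 : 0 < |1 - r| := lt_of_lt_of_le (by positivity) (hr1 T hT)
          have h4 : 1 - r ≠ 0 := abs_pos.1 h3
          have h5 : T - T' = 0 := by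
            rcases mul_eq_zero.1 h2 with h6 | h6
            · exact absurd h6 (mul_ne_zero (mul_ne_zero two_ne_zero hk) h4)
            · exact h6
          linarith
        have hcov := lintegral_image_eq_lintegral_abs_deriv_mul hsm hder hinj (fun r' => φ (r, r'))
        have hc : ∀ T ∈ s, 1 ≤ E ^ 3 / (2 * |k| * δ) * |2 * k * (1 - r) / ((T - k) * r + 2 * k) ^ 2| := by
          intro T hT
          have h2 := hr1 T hT
          have h3 := (hSp _ hT.2.1).2.2.2
          have e3 : k + (T - k) * r + k = (T - k) * r + 2 * k := by ring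
          rw [e3] at h3
          rw [abs_div, abs_mul, abs_mul, abs_two, abs_pow, sq_abs]
          have h4 : ((T - k) * r + 2 * k) ^ 2 ≤ E ^ 2 := by
            rw [← sq_abs]; gcongr
          have h5 : 0 < ((T - k) * r + 2 * k) ^ 2 := by
            have := hden T hT
            positivity
          have h6 : 2 * |k| * (δ / E) / E ^ 2 ≤ 2 * |k| * |1 - r| / ((T - k) * r + 2 * k) ^ 2 := by
            gcongr
          calc (1 : ℝ) = E ^ 3 / (2 * |k| * δ) * (2 * |k| * (δ / E) / E ^ 2) := by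
                field_simp
            _ ≤ _ := by gcongr
        calc ∫⁻ T in s, φ (r, m T)
            ≤ ∫⁻ T in s, ENNReal.ofReal (E ^ 3 / (2 * |k| * δ)) *
              (ENNReal.ofReal |2 * k * (1 - r) / ((T - k) * r + 2 * k) ^ 2| * φ (r, m T)) := by
              apply setLIntegral_mono' hsm
              intro T hT
              rw [← mul_assoc, ← ENNReal.ofReal_mul (by positivity)]
              calc φ (r, m T) = ENNReal.ofReal 1 * φ (r, m T) := by rw [ENNReal.ofReal_one, one_mul]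
                _ ≤ _ := by
                  gcongr
                  exact hc T hT
          _ = ENNReal.ofReal (E ^ 3 / (2 * |k| * δ)) * ∫⁻ r' in m '' s, φ (r, r') := by
              rw [hcov, lintegral_const_mul']
              exact ENNReal.ofReal_ne_top
          _ ≤ ENNReal.ofReal (E ^ 3 / (2 * |k| * δ)) *
              ∫⁻ r' : ℝ, (A3_box (E / ε) (E / ε)).indicator φ (r, r') := by
              refine mul_le_mul' le_rfl ?_
              have hms : MeasurableSet (m '' s) := by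
                apply measurable_image_of_fderivWithin hsm (fun x hx => (hder x hx).hasFDerivWithinAt) hinj
              rw [← lintegral_indicator hms]
              apply lintegral_mono
              intro r'
              by_cases hr' : r' ∈ m '' s
              · rw [indicator_of_mem hr']
                obtain ⟨T, hT, rfl⟩ := hr'
                have hb : (r, m T) ∈ A3_box (E / ε) (E / ε) := by
                  rw [A3_box_mem]
                  have q1 := hSp T hT.1
                  have q2 := hSp _ hT.2.1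
                  have e3 : k + (T - k) * r + k = (T - k) * r + 2 * k := by ring
                  have e4 : k + (T - k) * r - k = (T - k) * r := by ring
                  rw [e3, e4] at q2
                  constructor
                  · simp only
                    rw [le_div_iff₀ hε]
                    have h2 := q2.2.2.1
                    rw [abs_mul] at h2
                    nlinarith [abs_nonneg r, q1.1]
                  · simp only [hm]
                    rw [abs_div]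
                    exact div_le_div₀ hE.le q1.2.2.2 hε q2.2.1
                show φ (r, m T) ≤ (A3_box (E / ε) (E / ε)).indicator φ (r, m T)
                rw [indicator_of_mem hb]
              · rw [indicator_of_notMem hr']; exact zero_le
    _ = ENNReal.ofReal (E * (E ^ 3 / (2 * |k| * δ))) * ∫⁻ ρ in A3_box (E / ε) (E / ε), φ ρ ∂(volume.prod volume) := by
        have mi : Measurable ((A3_box (E / ε) (E / ε)).indicator φ) := hφ.indicator (A3_box_meas _ _)
        rw [lintegral_const_mul _ (by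
          apply Measurable.const_mul
          exact Measurable.lintegral_prod_right' mi)]
        rw [lintegral_const_mul _ (Measurable.lintegral_prod_right' mi)]
        rw [← lintegral_prod _ mi.aemeasurable, lintegral_indicator (A3_box_meas _ _), ← mul_assoc,
          ← ENNReal.ofReal_mul hE.le]

theorem A3_diag (A δ : ℝ) (hδ : 0 ≤ δ) :
    volume {z : ℝ × ℝ | |z.1| ≤ A ∧ |z.1 - z.2| ≤ δ} ≤ ENNReal.ofReal (2 * A) * ENNReal.ofReal (2 * δ) := by
  have hm : MeasurableSet {z : ℝ × ℝ | |z.1| ≤ A ∧ |z.1 - z.2| ≤ δ} := by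
    have h3 : MeasurableSet {z : ℝ × ℝ | |z.1| ≤ A} := measurableSet_le (by fun_prop) measurable_const
    have h4 : MeasurableSet {z : ℝ × ℝ | |z.1 - z.2| ≤ δ} := measurableSet_le (by fun_prop) measurable_const
    exact h3.inter h4
  rw [Measure.volume_eq_prod, Measure.prod_apply hm]
  calc ∫⁻ x : ℝ, volume (Prod.mk x ⁻¹' {z : ℝ × ℝ | |z.1| ≤ A ∧ |z.1 - z.2| ≤ δ})
      ≤ ∫⁻ x : ℝ, (Icc (-A) A).indicator (fun _ => ENNReal.ofReal (2 * δ)) x := by
        apply lintegral_mono
        intro x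
        by_cases hx : |x| ≤ A
        · rw [indicator_of_mem (show x ∈ Icc (-A) A from abs_le.1 hx)]
          have : Prod.mk x ⁻¹' {z : ℝ × ℝ | |z.1| ≤ A ∧ |z.1 - z.2| ≤ δ} ⊆ Icc (x - δ) (x + δ) := by
            intro y hy
            have h1 : |x - y| ≤ δ := hy.2
            rw [abs_le] at h1
            rw [mem_Icc]
            constructor <;> linarith [h1.1, h1.2]
          calc _ ≤ volume (Icc (x - δ) (x + δ)) := measure_mono this
            _ = ENNReal.ofReal (2 * δ) := by rw [Real.volume_Icc]; congr 1; ring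
        · have : Prod.mk x ⁻¹' {z : ℝ × ℝ | |z.1| ≤ A ∧ |z.1 - z.2| ≤ δ} = ∅ := by
            ext y
            simp only [mem_preimage, mem_setOf_eq, mem_empty_iff_false, iff_false, not_and]
            intro h; exact absurd h hx
          beta_reduce
          rw [this, measure_empty]; exact zero_le
    _ = ENNReal.ofReal (2 * A) * ENNReal.ofReal (2 * δ) := by
        rw [lintegral_indicator measurableSet_Icc, setLIntegral_const, Real.volume_Icc, mul_comm]
        congr 2; ring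

/-- the estimate of the double integral -/
theorem A3_double (ω : ℂ) (h0 : ω.im ≠ 0) (h1 : ω.re ≠ 0) (B L : ℝ) (hB : 0 < B) (hL : 0 < L)
    (g : ℝ × ℝ → ℂ) (hg : A3_Nice B L g)
    (hpos : ∀ ρ : ℝ × ℝ, ∃ v : ℝ, 0 ≤ v ∧ A3_F g ρ = v) (b : ℝ) (hb : 0 ≤ b)
    (htri : ∀ L1 L2 : ℝ, 0 < L1 → 0 < L2 →
      ‖∫ p : ℝ × ℝ, g p * ((A3_D L1 p.1 * A3_D L2 p.2 : ℝ) : ℂ)‖ ≤ b)
    (S : Set ℝ) (hS : MeasurableSet S) (ε E δ : ℝ) (hε : 0 < ε) (hE : 0 < E) (hδ : 0 < δ)
    (hSp : ∀ T ∈ S, ε ≤ |T - kk ω| ∧ ε ≤ |T + kk ω| ∧ |T - kk ω| ≤ E ∧ |T + kk ω| ≤ E ∧ |T| ≤ 1 / ε)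
    (c : ℝ → ℝ) (hcS : ∀ T, T ∉ S → c T = 0) (hcS' : ∀ T ∈ S, c T = 1 / |T + kk ω|) (u : ℝ) (hu : 0 < u) :
    ‖∫ z : ℝ × ℝ, ((c z.1 * c z.2 * (|(ω.im * (z.1 - kk ω))⁻¹| * |(-(normSq ω) / (ω.im * (z.1 + kk ω)))⁻¹|) : ℝ) : ℂ) *
        A3_F g (ω.im * (z.2 - kk ω) / (ω.im * (z.1 - kk ω)),
          -(normSq ω) / (ω.im * (z.2 + kk ω)) / (-(normSq ω) / (ω.im * (z.1 + kk ω))))‖ ≤
      (1 / (normSq ω * ε ^ 2)) * (B ^ 2 * (2 * L) ^ 2 * ((2 * (1 / ε)) * (2 * δ)) +
        (E * (E ^ 3 / (2 * |kk ω| * δ))) * (4 * ((2 * L) ^ 2 * (B * (b / u ^ 2)) +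
          B * (B * (2 * (2 * (E / ε))) ^ 2) * (2 * ((2 * u) * (2 * L)))))) := by
  have hω : ω ≠ 0 := by intro h; rw [h] at h0; exact h0 rfl
  have hn : 0 < normSq ω := normSq_pos.2 hω
  have hk : kk ω ≠ 0 := div_ne_zero h1 h0
  have hkp : 0 < |kk ω| := abs_pos.2 hk
  set k := kk ω with hkdef
  set φ : ℝ × ℝ → ℝ≥0∞ := fun ρ => ‖A3_F g ρ‖ₑ with hφ
  have hFm := A3_F_meas hg
  have hφm : Measurable φ := hFm.enorm
  have hFb := A3_F_bd hL.le hB.le hg
  set Wb : ℝ := (2 * L) ^ 2 * (B * (b / u ^ 2)) +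
          B * (B * (2 * (2 * (E / ε))) ^ 2) * (2 * ((2 * u) * (2 * L))) with hWb
  have hWb0 : 0 ≤ Wb := by rw [hWb]; positivity
  have hMp : 0 < 2 * (E / ε) := by positivity
  -- bound of the weighted integral
  have key1 : ∫⁻ ρ in A3_box (E / ε) (E / ε), φ ρ ≤ ENNReal.ofReal (4 * Wb) := by
    set M := 2 * (E / ε) with hM
    have hw := A3_weighted B L hB.le hL g hg b hb htri M hMp u hu
    have hDm := A3_D_meas M
    have hi : Integrable (fun ρ : ℝ × ℝ => ((A3_D M ρ.1 * A3_D M ρ.2 : ℝ) : ℂ) * A3_F g ρ) := by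
      apply A3_int volume _ (by fun_prop) (1 * (B ^ 2 * (2 * L) ^ 2)) _ (A3_box M M) (A3_box_meas _ _) (A3_box_lt _ _)
      · intro p hp; rw [A3_DD_supp hMp p hp, zero_mul]
      · intro p; rw [norm_mul]
        exact mul_le_mul (A3_DD_norm hMp _ _) (hFb p) (norm_nonneg _) zero_le_one
    have e1 : ∀ ρ : ℝ × ℝ, ((A3_D M ρ.1 * A3_D M ρ.2 : ℝ) : ℂ) * A3_F g ρ =
        ((A3_D M ρ.1 * A3_D M ρ.2 * ‖A3_F g ρ‖ : ℝ) : ℂ) := by
      intro ρ
      obtain ⟨v, hv, hv'⟩ := hpos ρ
      rw [hv', norm_real, Real.norm_eq_abs, abs_of_nonneg hv]; push_cast; ring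
    simp only [e1] at hw hi
    rw [integral_complex_ofReal, norm_real, Real.norm_eq_abs] at hw
    have hi2 : Integrable (fun ρ : ℝ × ℝ => A3_D M ρ.1 * A3_D M ρ.2 * ‖A3_F g ρ‖) := by
      have := hi.re
      simpa using this
    have hw2 : ∫ ρ : ℝ × ℝ, A3_D M ρ.1 * A3_D M ρ.2 * ‖A3_F g ρ‖ ≤ Wb := (le_abs_self _).trans hw
    calc ∫⁻ ρ in A3_box (E / ε) (E / ε), φ ρ
        = ∫⁻ ρ, (A3_box (E / ε) (E / ε)).indicator φ ρ := (lintegral_indicator (A3_box_meas _ _) _).symm
      _ ≤ ∫⁻ ρ : ℝ × ℝ, ENNReal.ofReal 4 * ENNReal.ofReal (A3_D M ρ.1 * A3_D M ρ.2 * ‖A3_F g ρ‖) := by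
          apply lintegral_mono
          intro ρ
          by_cases hρ : ρ ∈ A3_box (E / ε) (E / ε)
          · rw [indicator_of_mem hρ]
            rw [A3_box_mem] at hρ
            have d1 := A3_D_half M ρ.1 hMp (by rw [hM]; linarith [hρ.1])
            have d2 := A3_D_half M ρ.2 hMp (by rw [hM]; linarith [hρ.2])
            show ‖A3_F g ρ‖ₑ ≤ _
            beta_reduce
            rw [← ofReal_norm, ← ENNReal.ofReal_mul (by norm_num)]
            apply ENNReal.ofReal_le_ofReal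
            have d3 : 1 / 2 * (1 / 2) ≤ A3_D M ρ.1 * A3_D M ρ.2 := by gcongr
            nlinarith [norm_nonneg (A3_F g ρ)]
          · rw [indicator_of_notMem hρ]; exact zero_le
      _ = ENNReal.ofReal 4 * ENNReal.ofReal (∫ ρ : ℝ × ℝ, A3_D M ρ.1 * A3_D M ρ.2 * ‖A3_F g ρ‖) := by
          rw [lintegral_const_mul' _ _ ENNReal.ofReal_ne_top, ← ofReal_integral_eq_lintegral_ofReal hi2]
          exact Filter.Eventually.of_forall (fun ρ => mul_nonneg (mul_nonneg (A3_D_nn _ _) (A3_D_nn _ _)) (norm_nonneg _))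
      _ ≤ ENNReal.ofReal (4 * Wb) := by
          rw [← ENNReal.ofReal_mul (by norm_num)]
          apply ENNReal.ofReal_le_ofReal
          linarith
  -- off-diagonal
  have key2 := A3_off k hk S hS ε E δ hε hE hδ (fun T hT => ⟨(hSp T hT).1, (hSp T hT).2.1, (hSp T hT).2.2.1,
    (hSp T hT).2.2.2.1⟩) φ hφm
  -- main
  have hbnd : 0 ≤ (1 / (normSq ω * ε ^ 2)) * (B ^ 2 * (2 * L) ^ 2 * ((2 * (1 / ε)) * (2 * δ)) +
        (E * (E ^ 3 / (2 * |k| * δ))) * (4 * Wb)) := by positivity
  rw [← ENNReal.ofReal_le_ofReal_iff hbnd, ofReal_norm]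
  set N : Set (ℝ × ℝ) := {z : ℝ × ℝ | z.1 ∈ S ∧ z.2 ∈ S ∧ δ < |z.1 - z.2|} with hN
  set Dg : Set (ℝ × ℝ) := {z : ℝ × ℝ | |z.1| ≤ 1 / ε ∧ |z.1 - z.2| ≤ δ} with hDg
  have hSSm : MeasurableSet (S ×ˢ S) := hS.prod hS
  set ψ : ℝ × ℝ → ℝ≥0∞ := fun z => φ ((z.2 - k) / (z.1 - k), (z.1 + k) / (z.2 + k)) with hψ
  have hψm : Measurable ψ := by rw [hψ]; fun_prop
  calc _ ≤ ∫⁻ z : ℝ × ℝ, ‖((c z.1 * c z.2 * (|(ω.im * (z.1 - k))⁻¹| * |(-(normSq ω) / (ω.im * (z.1 + k)))⁻¹|) : ℝ) : ℂ) *
        A3_F g (ω.im * (z.2 - k) / (ω.im * (z.1 - k)),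
          -(normSq ω) / (ω.im * (z.2 + k)) / (-(normSq ω) / (ω.im * (z.1 + k))))‖ₑ :=
        enorm_integral_le_lintegral_enorm _
    _ ≤ ∫⁻ z : ℝ × ℝ, (S ×ˢ S).indicator (fun z => ENNReal.ofReal (1 / (normSq ω * ε ^ 2)) * ψ z) z := by
        apply lintegral_mono
        intro z
        by_cases hz : z ∈ S ×ˢ S
        · rw [indicator_of_mem hz]
          have p1 := hSp _ hz.1
          have p2 := hSp _ hz.2
          have z1 : z.1 - k ≠ 0 := by intro h; have := p1.1; rw [h, abs_zero] at this; linarith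
          have z2 : z.1 + k ≠ 0 := by intro h; have := p1.2.1; rw [h, abs_zero] at this; linarith
          have z3 : z.2 - k ≠ 0 := by intro h; have := p2.1; rw [h, abs_zero] at this; linarith
          have z4 : z.2 + k ≠ 0 := by intro h; have := p2.2.1; rw [h, abs_zero] at this; linarith
          have e1 : ω.im * (z.2 - k) / (ω.im * (z.1 - k)) = (z.2 - k) / (z.1 - k) := by field_simp
          have e2 : -(normSq ω) / (ω.im * (z.2 + k)) / (-(normSq ω) / (ω.im * (z.1 + k))) =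
            (z.1 + k) / (z.2 + k) := by field_simp
          simp only [e1, e2]
          rw [enorm_mul]
          show _ ≤ ENNReal.ofReal (1 / (normSq ω * ε ^ 2)) * ‖A3_F g ((z.2 - k) / (z.1 - k), (z.1 + k) / (z.2 + k))‖ₑ
          gcongr
          rw [← ofReal_norm]
          apply ENNReal.ofReal_le_ofReal
          rw [norm_real, Real.norm_eq_abs, hcS' _ hz.1, hcS' _ hz.2]
          have a1 : 0 < |z.1 - k| := abs_pos.2 z1
          have a2 : 0 < |z.1 + k| := abs_pos.2 z2
          have a4 : 0 < |z.2 + k| := abs_pos.2 z4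
          have a5 : 0 < |ω.im| := abs_pos.2 h0
          have e3 : 1 / |z.1 + k| * (1 / |z.2 + k|) * (|(ω.im * (z.1 - k))⁻¹| * |(-(normSq ω) / (ω.im * (z.1 + k)))⁻¹|)
            = 1 / (normSq ω * (|z.1 - k| * |z.2 + k|)) := by
            rw [abs_inv, abs_inv, abs_mul, abs_div, abs_mul, abs_neg, abs_of_pos hn]
            field_simp
          rw [e3, abs_of_nonneg (by positivity)]
          apply one_div_le_one_div_of_le (by positivity)
          have : ε ^ 2 ≤ |z.1 - k| * |z.2 + k| := by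
            rw [pow_two]; exact mul_le_mul p1.1 p2.2.1 hε.le a1.le
          gcongr
        · rw [indicator_of_notMem hz]
          rw [mem_prod, not_and_or] at hz
          have : c z.1 * c z.2 = 0 := by
            rcases hz with h | h
            · rw [hcS _ h, zero_mul]
            · rw [hcS _ h, mul_zero]
          beta_reduce
          rw [this]; simp
    _ = ENNReal.ofReal (1 / (normSq ω * ε ^ 2)) * ∫⁻ z in S ×ˢ S, ψ z := by
        rw [lintegral_indicator hSSm, lintegral_const_mul' _ _ ENNReal.ofReal_ne_top]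
    _ ≤ ENNReal.ofReal (1 / (normSq ω * ε ^ 2)) * ((∫⁻ z in Dg, ψ z) + (∫⁻ z in N, ψ z)) := by
        gcongr
        calc ∫⁻ z in S ×ˢ S, ψ z ≤ ∫⁻ z in Dg ∪ N, ψ z := by
              apply lintegral_mono_set
              intro z hz
              by_cases h : |z.1 - z.2| ≤ δ
              · left; exact ⟨(hSp _ hz.1).2.2.2.2, h⟩
              · right; push Not at h; exact ⟨hz.1, hz.2, h⟩
          _ ≤ _ := lintegral_union_le _ _ _
    _ ≤ ENNReal.ofReal (1 / (normSq ω * ε ^ 2)) *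
        (ENNReal.ofReal (B ^ 2 * (2 * L) ^ 2) * (ENNReal.ofReal (2 * (1 / ε)) * ENNReal.ofReal (2 * δ)) +
          ENNReal.ofReal (E * (E ^ 3 / (2 * |k| * δ))) * ENNReal.ofReal (4 * Wb)) := by
        gcongr
        · calc ∫⁻ z in Dg, ψ z ≤ ∫⁻ z in Dg, ENNReal.ofReal (B ^ 2 * (2 * L) ^ 2) := by
                apply lintegral_mono
                intro z
                show ‖A3_F g ((z.2 - k) / (z.1 - k), (z.1 + k) / (z.2 + k))‖ₑ ≤ _
                rw [← ofReal_norm]
                exact ENNReal.ofReal_le_ofReal (hFb _)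
            _ = ENNReal.ofReal (B ^ 2 * (2 * L) ^ 2) * volume Dg := setLIntegral_const _ _
            _ ≤ _ := by
                gcongr
                exact A3_diag (1 / ε) δ hδ.le
        · exact key2.trans (by gcongr)
    _ = _ := by
        rw [← ENNReal.ofReal_mul (by positivity), ← ENNReal.ofReal_mul (by positivity),
          ← ENNReal.ofReal_mul (by positivity), ← ENNReal.ofReal_add (by positivity) (by positivity),
          ← ENNReal.ofReal_mul (by positivity)]

theorem lemA (ω : ℂ) (h0 : ω.im ≠ 0) (h1 : ω.re ≠ 0) (R : ℝ) : ∃ n : ℕ, 1 ≤ n ∧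
    ∀ ε : ℝ, 0 < ε → ε ≤ 1 / 2 → ∀ G H : ℝ → ℂ, Measurable G → Measurable H →
    (∀ a, ‖G a‖ ≤ 1) → (∀ a, ‖H a‖ ≤ 1) → (∀ a, R < |a| → G a = 0) → (∀ a, R < |a| → H a = 0) →
    ∀ S : Set ℝ, MeasurableSet S →
    (∀ T ∈ S, ε ≤ |T - kk ω| ∧ ε ≤ |T + kk ω| ∧ |T| ≤ 1 / ε) →
    ε ≤ ‖∫ T in S, YY ω G H T / |T + kk ω|‖ → ∃ ζ : ℝ, ε ^ n ≤ ‖FT1 G ζ‖ := by
  have hω : ω ≠ 0 := by intro h; rw [h] at h0; exact h0 rfl
  have hn : 0 < normSq ω := normSq_pos.2 hω
  have hk : kk ω ≠ 0 := div_ne_zero h1 h0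
  have hkp : 0 < |kk ω| := abs_pos.2 hk
  have hip : 0 < |ω.im| := abs_pos.2 h0
  set k := kk ω with hkdef
  obtain ⟨R', hR'1, hRR'⟩ : ∃ R' : ℝ, 1 ≤ R' ∧ R ≤ R' := ⟨max R 1, le_max_right _ _, le_max_left _ _⟩
  have hR'0 : 0 < R' := by linarith
  obtain ⟨B, hBdef⟩ : ∃ B : ℝ, B = 2 * R' := ⟨_, rfl⟩
  have hB : 0 < B := by rw [hBdef]; positivity
  obtain ⟨K, hKdef⟩ : ∃ K : ℝ, K = 1 + |k| := ⟨_, rfl⟩
  have hK : 0 < K := by rw [hKdef]; positivity
  obtain ⟨C2, hC2⟩ : ∃ C2 : ℝ, C2 = 4 * B ^ 2 * (2 * B) ^ 2 / normSq ω := ⟨_, rfl⟩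
  obtain ⟨C3, hC3⟩ : ∃ C3 : ℝ, C3 = 2 * K ^ 4 / (normSq ω * |k|) * ((2 * B) ^ 2 * B * B + 128 * B ^ 2 * K ^ 2 * B) :=
    ⟨_, rfl⟩
  have hC2p : 0 < C2 := by rw [hC2]; positivity
  have hC3p : 0 < C3 := by rw [hC3]; positivity
  obtain ⟨j, hj⟩ := exists_pow_lt_of_lt_one (show 0 < 1 / (B ^ 2 * (2 * B) ^ 2) / (C2 + C3) by positivity)
    (show (1/2:ℝ) < 1 by norm_num)
  refine ⟨(9 + j) * 3, by omega, ?_⟩
  intro ε hε hε2 G H hG hH bG bH sG sH S hS hSp hI
  by_contra hcon
  push Not at hcon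
  have sG' : ∀ a, R' < |a| → G a = 0 := fun a ha => sG a (lt_of_le_of_lt hRR' ha)
  have sH' : ∀ a, R' < |a| → H a = 0 := fun a ha => sH a (lt_of_le_of_lt hRR' ha)
  set g : ℝ × ℝ → ℂ := fun p => GG G p.1 p.2 with hgdef
  set h : ℝ × ℝ → ℂ := fun p => GG H p.1 p.2 with hhdef
  have hg : A3_Nice B B g := by rw [hBdef]; exact A3_GG_nice G R' hR'0.le hG bG sG'
  have hh : A3_Nice B B h := by rw [hBdef]; exact A3_GG_nice H R' hR'0.le hH bH sH'
  have hgm := hg.meas
  have hhm := hh.meas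
  have hcj : Measurable (starRingEnd ℂ) := Complex.continuous_conj.measurable
  have hε1 : ε ≤ 1 := by linarith
  -- positivity of F
  have hpos : ∀ ρ : ℝ × ℝ, ∃ v : ℝ, 0 ≤ v ∧ A3_F g ρ = v := by
    intro ρ
    obtain ⟨v, hv, hv'⟩ := FF_nonneg R' hR'0 G hG bG sG' ρ.1 ρ.2
    refine ⟨v, hv, ?_⟩
    rw [← hv']
    unfold A3_F
    rw [Measure.volume_eq_prod, integral_prod]
    apply A3_int _ _ (by fun_prop) (B * B) _ (A3_box B B) (A3_box_meas _ _) (A3_box_lt _ _)
    · intro q hq; rw [hg.out q hq, zero_mul]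
    · intro q; rw [norm_mul, RCLike.norm_conj]
      exact mul_le_mul (hg.bd _) (hg.bd _) (norm_nonneg _) hB.le
  set t : ℝ := ε ^ (9 + j) with ht
  have htp : 0 < t := by positivity
  have hs : ∀ ζ, ‖FT1 G ζ‖ ≤ t ^ 3 := by
    intro ζ
    rw [ht, ← pow_mul]
    exact (hcon ζ).le
  have htri : ∀ L1 L2 : ℝ, 0 < L1 → 0 < L2 →
      ‖∫ p : ℝ × ℝ, g p * ((A3_D L1 p.1 * A3_D L2 p.2 : ℝ) : ℂ)‖ ≤ B * (t ^ 3) ^ 2 := by
    intro L1 L2 hL1 hL2
    have := tri_bound R' hR'0 G hG bG sG' (t ^ 3) hs L1 L2 hL1 hL2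
    rw [hBdef]
    have hD1 := A3_D_meas L1
    have hD2 := A3_D_meas L2
    rw [Measure.volume_eq_prod, integral_prod]
    · exact this
    · apply A3_int _ _ (by fun_prop) (B * (1 * 1)) _ (A3_box B B) (A3_box_meas _ _) (A3_box_lt _ _)
      · intro q hq; rw [hg.out q hq, zero_mul]
      · intro q; rw [norm_mul, norm_real, Real.norm_eq_abs, abs_mul, abs_of_nonneg (A3_D_nn _ _),
          abs_of_nonneg (A3_D_nn _ _)]
        exact mul_le_mul (hg.bd _) (mul_le_mul (A3_D_le _ _ hL1) (A3_D_le _ _ hL2) (A3_D_nn _ _) zero_le_one)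
          (mul_nonneg (A3_D_nn _ _) (A3_D_nn _ _)) hB.le
  -- the weight
  set c : ℝ → ℝ := S.indicator (fun T => 1 / |T + k|) with hc
  have mc : Measurable c := Measurable.indicator (by fun_prop) hS
  have hcS : ∀ T, T ∉ S → c T = 0 := fun T hT => indicator_of_notMem hT _
  have hcS' : ∀ T ∈ S, c T = 1 / |T + k| := fun T hT => indicator_of_mem hT _
  have hcb : ∀ T, |c T| ≤ 1 / ε := by
    intro T
    by_cases hT : T ∈ S
    · rw [hcS' T hT, abs_of_nonneg (by positivity)]
      exact one_div_le_one_div_of_le hε (hSp T hT).2.1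
    · rw [hcS T hT, abs_zero]; positivity
  set a : ℝ → ℝ := fun T => ω.im * (T - k) with ha
  set b : ℝ → ℝ := fun T => -(normSq ω) / (ω.im * (T + k)) with hb
  have ma : Measurable a := by rw [ha]; fun_prop
  have mb : Measurable b := by rw [hb]; fun_prop
  have hE : 0 < K / ε := by positivity
  have hSp' : ∀ T ∈ S, ε ≤ |T - k| ∧ ε ≤ |T + k| ∧ |T - k| ≤ K / ε ∧ |T + k| ≤ K / ε ∧ |T| ≤ 1 / ε := by
    intro T hT
    obtain ⟨q1, q2, q3⟩ := hSp T hT
    have q4 : |k| ≤ |k| / ε := by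
      rw [le_div_iff₀ hε]; nlinarith [abs_nonneg k]
    have q5 : 1 / ε + |k| ≤ K / ε := by rw [hKdef, add_div]; linarith
    refine ⟨q1, q2, ?_, ?_, q3⟩
    · exact (abs_sub _ _).trans (by linarith)
    · exact (abs_add_le _ _).trans (by linarith)
  have haS : ∀ T ∈ S, |ω.im| * ε ≤ |a T| := by
    intro T hT
    rw [ha]; simp only [abs_mul]
    exact mul_le_mul_of_nonneg_left (hSp T hT).1 hip.le
  have hbS : ∀ T ∈ S, normSq ω / (|ω.im| * (K / ε)) ≤ |b T| := by
    intro T hT
    have q := (hSp' T hT)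
    rw [hb]; simp only [abs_div, abs_mul, abs_neg, abs_of_pos hn]
    have : 0 < |T + k| := lt_of_lt_of_le hε q.2.1
    apply div_le_div_of_nonneg_left hn.le (by positivity)
    exact mul_le_mul_of_nonneg_left q.2.2.2.1 hip.le
  -- rewrite the integral
  have hI' : ∫ T in S, YY ω G H T / |T + k| = ∫ T : ℝ, (c T : ℂ) * ∫ p : ℝ × ℝ, g (a T * p.1, b T * p.2) * h p := by
    rw [← integral_indicator hS]
    congr 1
    funext T
    by_cases hT : T ∈ S
    · rw [indicator_of_mem hT, hcS' T hT]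
      have : YY ω G H T = ∫ p : ℝ × ℝ, g (a T * p.1, b T * p.2) * h p := by
        unfold YY
        rw [Measure.volume_eq_prod, integral_prod]
        apply A3_int _ _ (by fun_prop) (B * B) _ (A3_box B B) (A3_box_meas _ _) (A3_box_lt _ _)
        · intro q hq; rw [hh.out q hq, mul_zero]
        · intro q; rw [norm_mul]
          exact mul_le_mul (hg.bd _) (hh.bd _) (norm_nonneg _) hB.le
      rw [this]
      push_cast
      ring
    · rw [indicator_of_notMem hT, hcS T hT]; simp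
  rw [hI'] at hI
  have hCS := A3_CS B B hB hB g h hg hh S (1 / ε) (by positivity) (fun T hT => (hSp T hT).2.2) a b c ma mb mc
    (1 / ε) (by positivity) hcb hcS (|ω.im| * ε) (normSq ω / (|ω.im| * (K / ε))) (by positivity) (by positivity)
    haS hbS ε hε hI
  have hδ : 0 < ε ^ (5 + j) := by positivity
  have hD := A3_double ω h0 h1 B B hB hB g hg hpos (B * (t ^ 3) ^ 2) (by positivity) htri S hS ε (K / ε)
    (ε ^ (5 + j)) hε hE hδ hSp' c hcS hcS' (t ^ 2) (by positivity)
  have hfin := hCS.trans hD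
  -- numerics
  obtain ⟨x, hx⟩ : ∃ x : ℝ, x = ε ^ j := ⟨_, rfl⟩
  have hxp : 0 < x := by rw [hx]; positivity
  have hx2 : x ≤ (1 / 2) ^ j := by rw [hx]; gcongr
  have ht' : t = ε ^ 9 * x := by rw [ht, hx, pow_add]
  have hδ' : ε ^ (5 + j) = ε ^ 5 * x := by rw [hx, pow_add]
  rw [hδ', ht', ← hkdef] at hfin
  have hnum : (1 / (normSq ω * ε ^ 2)) * (B ^ 2 * (2 * B) ^ 2 * ((2 * (1 / ε)) * (2 * (ε ^ 5 * x))) +
        (K / ε * ((K / ε) ^ 3 / (2 * |k| * (ε ^ 5 * x)))) * (4 * ((2 * B) ^ 2 * (B * (B * ((ε ^ 9 * x) ^ 3) ^ 2 / ((ε ^ 9 * x) ^ 2) ^ 2)) +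
          B * (B * (2 * (2 * (K / ε / ε))) ^ 2) * (2 * ((2 * (ε ^ 9 * x) ^ 2) * (2 * B)))))) =
      C2 * ε ^ 2 * x + 2 * K ^ 4 / (normSq ω * |k|) * ((2 * B) ^ 2 * B * B * ε ^ 7 + 128 * B ^ 2 * K ^ 2 * B * ε ^ 3) * x := by
    rw [hC2]
    field_simp
    ring
  rw [hnum] at hfin
  have hp7 : ε ^ 7 ≤ ε ^ 2 := pow_le_pow_of_le_one hε.le hε1 (by norm_num)
  have hp3 : ε ^ 3 ≤ ε ^ 2 := pow_le_pow_of_le_one hε.le hε1 (by norm_num)
  have hnum2 : C2 * ε ^ 2 * x + 2 * K ^ 4 / (normSq ω * |k|) * ((2 * B) ^ 2 * B * B * ε ^ 7 + 128 * B ^ 2 * K ^ 2 * B * ε ^ 3) * x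
      ≤ (C2 + C3) * ε ^ 2 * x := by
    have : 2 * K ^ 4 / (normSq ω * |k|) * ((2 * B) ^ 2 * B * B * ε ^ 7 + 128 * B ^ 2 * K ^ 2 * B * ε ^ 3) ≤
      2 * K ^ 4 / (normSq ω * |k|) * ((2 * B) ^ 2 * B * B * ε ^ 2 + 128 * B ^ 2 * K ^ 2 * B * ε ^ 2) := by
      gcongr
    have e : 2 * K ^ 4 / (normSq ω * |k|) * ((2 * B) ^ 2 * B * B * ε ^ 2 + 128 * B ^ 2 * K ^ 2 * B * ε ^ 2) = C3 * ε ^ 2 := by
      rw [hC3]; ring
    rw [e] at this
    nlinarith
  have hnum3 : (C2 + C3) * ε ^ 2 * x < ε ^ 2 / (B ^ 2 * (2 * B) ^ 2) := by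
    have q1 : (C2 + C3) * x < 1 / (B ^ 2 * (2 * B) ^ 2) := by
      have := lt_of_le_of_lt hx2 hj
      rw [lt_div_iff₀ (by positivity)] at this
      linarith
    calc (C2 + C3) * ε ^ 2 * x = ((C2 + C3) * x) * ε ^ 2 := by ring
      _ < (1 / (B ^ 2 * (2 * B) ^ 2)) * ε ^ 2 := by gcongr
      _ = ε ^ 2 / (B ^ 2 * (2 * B) ^ 2) := by ring
  linarith

end TriDil
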