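import Pool.Agent.TriDil.Basic7
import Pool.Agent.TriDil.A3
set_option autoImplicit false
open MeasureTheory Complex Set
namespace TriDil
open scoped ComplexConjugate

/-! ### Auxiliary lemmas -/

theorem A4_int {α : Type*} [MeasurableSpace α] {m : Measure α} {f : α → ℂ}
    (hf : AEStronglyMeasurable f m) {B : ℝ} (hB : ∀ x, ‖f x‖ ≤ B) {s : Set α} (hs : m s ≠ ⊤)
    (h0 : ∀ x, x ∉ s → f x = 0) : Integrable f m := by
  have h1 : IntegrableOn f s m :=
    Measure.integrableOn_of_bounded hs hf (M := B) (Filter.Eventually.of_forall hB)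
  exact (integrableOn_iff_integrable_of_support_subset (fun x hx => by
    by_contra hxs; exact hx (h0 x hxs))).1 h1

theorem A4_intR {α : Type*} [MeasurableSpace α] {m : Measure α} {f : α → ℝ}
    (hf : AEStronglyMeasurable f m) {B : ℝ} (hB : ∀ x, ‖f x‖ ≤ B) {s : Set α} (hs : m s ≠ ⊤)
    (h0 : ∀ x, x ∉ s → f x = 0) : Integrable f m := by
  have h1 : IntegrableOn f s m :=
    Measure.integrableOn_of_bounded hs hf (M := B) (Filter.Eventually.of_forall hB)
  exact (integrableOn_iff_integrable_of_support_subset (fun x hx => by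
    by_contra hxs; exact hx (h0 x hxs))).1 h1

/-- `|z| ≤ τ + |z|²/τ` -/
theorem A4_amgm (z : ℂ) (τ : ℝ) (hτ : 0 < τ) : ‖z‖ ≤ τ + ‖z‖ ^ 2 / τ := by
  have h := norm_nonneg z
  by_cases h1 : ‖z‖ ≤ τ
  · have : 0 ≤ ‖z‖ ^ 2 / τ := by positivity
    linarith
  · push Not at h1
    have : ‖z‖ ≤ ‖z‖ ^ 2 / τ := by rw [le_div_iff₀ hτ]; nlinarith
    linarith

/-- the linear change of variables in the plane -/
theorem A4_lin (a b c d : ℝ) (h : a * d - b * c ≠ 0) (g : ℝ × ℝ → ℂ) :
    ∫ z : ℝ × ℝ, g (a * z.1 + b * z.2, c * z.1 + d * z.2)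
      = (|(a * d - b * c)⁻¹| : ℝ) * ∫ z : ℝ × ℝ, g z := by
  set A : Matrix (Fin 2) (Fin 2) ℝ := !![a, b; c, d] with hA
  set T : ℝ × ℝ →ₗ[ℝ] ℝ × ℝ := Matrix.toLin (Module.Basis.finTwoProd ℝ) (Module.Basis.finTwoProd ℝ) A with hT
  have hTz : ∀ z : ℝ × ℝ, T z = (a * z.1 + b * z.2, c * z.1 + d * z.2) := by
    intro z; rw [hT, hA, Matrix.toLin_finTwoProd_apply]
  have hdet : LinearMap.det T = a * d - b * c := by
    rw [hT, LinearMap.det_toLin, hA, Matrix.det_fin_two_of]
  have hdet0 : LinearMap.det T ≠ 0 := by rw [hdet]; exact h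
  have hmap := Measure.map_linearMap_addHaar_eq_smul_addHaar (volume : Measure (ℝ × ℝ)) hdet0
  have hemb : MeasurableEmbedding T := by
    have e := (LinearMap.equivOfDetNeZero T hdet0).toContinuousLinearEquiv.toHomeomorph.measurableEmbedding
    exact e
  have h2 := hemb.integral_map (μ := volume) g
  rw [hmap] at h2
  simp only [hTz] at h2
  rw [← h2, integral_smul_measure, hdet]
  rw [ENNReal.toReal_ofReal (abs_nonneg _)]
  simp


/-- corr in the second variable -/
theorem A4_corr2 (L : ℝ × ℝ → ℂ) (hL : Measurable L) (B : ℝ) (hB : ∀ z, ‖L z‖ ≤ B) (R : ℝ)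
    (h1 : ∀ z : ℝ × ℝ, R < |z.1| → L z = 0) (h2 : ∀ z : ℝ × ℝ, R < |z.2| → L z = 0) :
    ((∫ p : ℝ, ‖∫ q : ℝ, L (p, q)‖ ^ 2 : ℝ) : ℂ) = ∫ t : ℝ, ∫ z : ℝ × ℝ, L z * conj (L (z.1, z.2 + t)) := by
  have hm : Measurable (fun w : ℝ × (ℝ × ℝ) => L w.2 * conj (L (w.2.1, w.2.2 + w.1))) := by
    fun_prop
  have hi : Integrable (fun w : ℝ × (ℝ × ℝ) => L w.2 * conj (L (w.2.1, w.2.2 + w.1)))
      (volume.prod volume) := by
    refine A4_int hm.aestronglyMeasurable (B := B * B) ?_ (s := (Icc (-(2 * R)) (2 * R)) ×ˢ (Icc (-R) R ×ˢ Icc (-R) R)) ?_ ?_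
    · intro w
      rw [norm_mul, norm_conj]
      exact mul_le_mul (hB _) (hB _) (norm_nonneg _) ((norm_nonneg _).trans (hB w.2))
    · rw [Measure.prod_prod, Measure.volume_eq_prod, Measure.prod_prod]
      simp only [Real.volume_Icc]
      exact ENNReal.mul_ne_top ENNReal.ofReal_ne_top (ENNReal.mul_ne_top ENNReal.ofReal_ne_top ENNReal.ofReal_ne_top)
    · rintro ⟨t, p, q⟩ hw
      simp only [mem_prod, mem_Icc, not_and_or] at hw
      by_cases hp : R < |p|
      · simp [h1 (p, q) hp]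
      by_cases hq : R < |q|
      · simp [h2 (p, q) hq]
      by_cases hqt : R < |q + t|
      · simp [h2 (p, q + t) hqt]
      exfalso
      push Not at hp hq hqt
      rw [abs_le] at hp hq hqt
      rcases hw with h | h | h
      · rcases h with h | h
        · linarith
        · linarith
      · rcases h with h | h <;> linarith
      · rcases h with h | h <;> linarith
  rw [integral_integral_swap hi]
  have hLi : Integrable L (volume : Measure (ℝ × ℝ)) := by
    refine A4_int hL.aestronglyMeasurable hB (s := (Icc (-R) R ×ˢ Icc (-R) R)) ?_ ?_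
    · rw [Measure.volume_eq_prod, Measure.prod_prod]
      simp only [Real.volume_Icc]
      exact ENNReal.mul_ne_top ENNReal.ofReal_ne_top ENNReal.ofReal_ne_top
    · rintro ⟨p, q⟩ hw
      simp only [mem_prod, mem_Icc, not_and_or] at hw
      by_cases hp : R < |p|
      · simp [h1 (p, q) hp]
      by_cases hq : R < |q|
      · simp [h2 (p, q) hq]
      exfalso
      push Not at hp hq
      rw [abs_le] at hp hq
      rcases hw with h | h
      · rcases h with h | h <;> linarith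
      · rcases h with h | h <;> linarith
  have e1 : ∀ z : ℝ × ℝ, (∫ t : ℝ, L z * conj (L (z.1, z.2 + t))) = L z * conj (∫ q : ℝ, L (z.1, q)) := by
    intro z
    rw [integral_const_mul, integral_conj]
    congr 2
    exact integral_add_left_eq_self (fun q => L (z.1, q)) z.2
  simp_rw [e1]
  have hi2 : Integrable (fun z : ℝ × ℝ => L z * conj (∫ q : ℝ, L (z.1, q))) (volume.prod volume) := by
    have := hi.integral_prod_right
    refine this.congr (Filter.Eventually.of_forall fun z => ?_)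
    exact e1 z
  rw [Measure.volume_eq_prod, integral_prod _ hi2]
  have e2 : ∀ p : ℝ, (∫ q : ℝ, L (p, q) * conj (∫ q : ℝ, L (p, q))) = ((‖∫ q : ℝ, L (p, q)‖ ^ 2 : ℝ) : ℂ) := by
    intro p
    rw [integral_mul_const, mul_conj, normSq_eq_norm_sq]
  simp only [e2]
  exact (integral_ofReal).symm


/-- corr in the first variable -/
theorem A4_corr1 (L : ℝ × ℝ → ℂ) (hL : Measurable L) (B : ℝ) (hB : ∀ z, ‖L z‖ ≤ B) (R : ℝ)
    (h1 : ∀ z : ℝ × ℝ, R < |z.1| → L z = 0) (h2 : ∀ z : ℝ × ℝ, R < |z.2| → L z = 0) :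
    ((∫ q : ℝ, ‖∫ p : ℝ, L (p, q)‖ ^ 2 : ℝ) : ℂ) = ∫ s : ℝ, ∫ z : ℝ × ℝ, L z * conj (L (z.1 + s, z.2)) := by
  have h := A4_corr2 (fun z => L z.swap) (hL.comp measurable_swap) B (fun z => hB _) R
    (fun z hz => h2 _ hz) (fun z hz => h1 _ hz)
  simp only [Prod.swap_prod_mk] at h
  rw [h]
  congr 1
  funext s
  have hs : MeasurePreserving (Prod.swap : ℝ × ℝ → ℝ × ℝ) volume volume :=
    Measure.measurePreserving_swap
  have := hs.integral_comp (MeasurableEquiv.prodComm (α := ℝ) (β := ℝ)).measurableEmbedding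
    (fun z : ℝ × ℝ => L z * conj (L (z.1 + s, z.2)))
  rw [← this]
  rfl

theorem A4_boxInt (L : ℝ × ℝ → ℂ) (hL : Measurable L) (B : ℝ) (hB : ∀ z, ‖L z‖ ≤ B) (R : ℝ)
    (h1 : ∀ z : ℝ × ℝ, R < |z.1| → L z = 0) (h2 : ∀ z : ℝ × ℝ, R < |z.2| → L z = 0) :
    Integrable L (volume : Measure (ℝ × ℝ)) := by
  refine A4_int hL.aestronglyMeasurable hB (s := (Icc (-R) R ×ˢ Icc (-R) R)) ?_ ?_
  · rw [Measure.volume_eq_prod, Measure.prod_prod]
    simp only [Real.volume_Icc]
    exact ENNReal.mul_ne_top ENNReal.ofReal_ne_top ENNReal.ofReal_ne_top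
  · rintro ⟨p, q⟩ hw
    simp only [mem_prod, mem_Icc, not_and_or] at hw
    by_cases hp : R < |p|
    · simp [h1 (p, q) hp]
    by_cases hq : R < |q|
    · simp [h2 (p, q) hq]
    exfalso
    push Not at hp hq
    rw [abs_le] at hp hq
    rcases hw with h | h
    · rcases h with h | h <;> linarith
    · rcases h with h | h <;> linarith

theorem A4_int1 (f : ℝ → ℂ) (hf : Measurable f) (B : ℝ) (hB : ∀ z, ‖f z‖ ≤ B) (R : ℝ)
    (h1 : ∀ z : ℝ, R < |z| → f z = 0) : Integrable f := by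
  refine A4_int hf.aestronglyMeasurable hB (s := Icc (-R) R) (by simp) ?_
  intro x hx
  apply h1
  by_contra h
  push Not at h
  exact hx (abs_le.1 h)

theorem A4_norm1 (f : ℝ → ℂ) (B : ℝ) (hB : ∀ z, ‖f z‖ ≤ B) (R : ℝ) (hR : 0 ≤ R)
    (h1 : ∀ z : ℝ, R < |z| → f z = 0) : ‖∫ x : ℝ, f x‖ ≤ B * (2 * R) := by
  have h := setIntegral_eq_integral_of_forall_compl_eq_zero (μ := (volume : Measure ℝ)) (s := Icc (-R) R) (f := f)
    (fun x hx => by
      apply h1
      by_contra h
      push Not at h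
      exact hx (abs_le.1 h))
  rw [← h]
  have h2 := norm_setIntegral_le_of_norm_le_const (μ := (volume : Measure ℝ)) (s := Icc (-R) R) (f := f) (C := B)
    (by simp) (fun x _ => hB x)
  refine h2.trans (le_of_eq ?_)
  rw [Measure.real, Real.volume_Icc, ENNReal.toReal_ofReal (by linarith)]
  ring

theorem A4_W (L : ℝ × ℝ → ℂ) (hL : Measurable L) (B : ℝ) (hB : ∀ z, ‖L z‖ ≤ B) (R : ℝ) (hR : 0 ≤ R)
    (h1 : ∀ z : ℝ × ℝ, R < |z.1| → L z = 0) (h2 : ∀ z : ℝ × ℝ, R < |z.2| → L z = 0) :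
    Integrable (fun p => ‖∫ q : ℝ, L (p, q)‖ ^ 2) := by
  have hm : Measurable (fun p => ∫ q : ℝ, L (p, q)) :=
    (hL.stronglyMeasurable.integral_prod_right' (ν := volume)).measurable
  refine A4_intR (hm.norm.pow_const 2).aestronglyMeasurable (B := (B * (2 * R)) ^ 2) ?_ (s := Icc (-R) R) (by simp) ?_
  · intro p
    have := A4_norm1 (fun q => L (p, q)) B (fun q => hB _) R hR (fun q hq => h2 _ hq)
    rw [Real.norm_eq_abs, abs_of_nonneg (by positivity)]
    exact pow_le_pow_left₀ (norm_nonneg _) this 2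
  · intro p hp
    have hp' : R < |p| := by
      by_contra h
      push Not at h
      exact hp (abs_le.1 h)
    have : ∀ q, L (p, q) = 0 := fun q => h1 (p, q) hp'
    simp [this]

theorem A4_ind (R c : ℝ) (hR : 0 ≤ R) : Integrable ((Icc (-R) R).indicator (fun _ => c)) ∧
    ∫ x : ℝ, (Icc (-R) R).indicator (fun _ => c) x = 2 * R * c := by
  constructor
  · rw [integrable_indicator_iff measurableSet_Icc]
    exact integrableOn_const (by simp)
  · rw [integral_indicator measurableSet_Icc, setIntegral_const, Measure.real, Real.volume_Icc,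
      ENNReal.toReal_ofReal (by linarith), smul_eq_mul]
    ring

/-- The box inequality -/
theorem A4_box (R L : ℝ) (hR : 0 ≤ R) (g h : ℝ → ℂ) (hg : Measurable g) (hh : Measurable h)
    (bg : ∀ x, ‖g x‖ ≤ 1) (bh : ∀ x, ‖h x‖ ≤ 1) (sg : ∀ x, R < |x| → g x = 0) (sh : ∀ x, R < |x| → h x = 0)
    (K : ℝ × ℝ → ℂ) (hK : Measurable K) (bK : ∀ z, ‖K z‖ ≤ 1)
    (h1 : ∀ z : ℝ × ℝ, L < |z.1| → K z = 0) (h2 : ∀ z : ℝ × ℝ, L < |z.2| → K z = 0) :
    ∃ X : ℝ, 0 ≤ X ∧
      (X : ℂ) = ∫ s : ℝ, ∫ t : ℝ, ∫ z : ℝ × ℝ,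
        K z * conj (K (z.1 + s, z.2)) * conj (K (z.1, z.2 + t)) * K (z.1 + s, z.2 + t) ∧
      ∀ τ : ℝ, 0 < τ → ‖∫ z : ℝ × ℝ, g z.1 * h z.2 * K z‖ ≤ (2 * R + 8 * R ^ 2) * τ + X / τ ^ 3 := by
  -- the inner functions
  set V : ℝ → ℝ → ℂ := fun s p => ∫ q : ℝ, K (p, q) * conj (K (p + s, q)) with hV
  refine ⟨∫ s : ℝ, ∫ p : ℝ, ‖V s p‖ ^ 2, ?_, ?_, ?_⟩
  · exact integral_nonneg fun s => integral_nonneg fun p => by positivity
  · refine (integral_ofReal (𝕜 := ℂ)).symm.trans ?_
    congr 1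
    funext s
    have := A4_corr2 (fun z => K z * conj (K (z.1 + s, z.2))) (by fun_prop) 1
      (fun z => by
        rw [norm_mul, norm_conj]
        exact mul_le_one₀ (bK _) (norm_nonneg _) (bK _)) L
      (fun z hz => by simp only [h1 z hz, zero_mul]) (fun z hz => by simp only [h2 z hz, zero_mul])
    rw [hV]
    simp only at this ⊢
    refine this.trans ?_
    congr 1
    funext t
    congr 1
    funext z
    simp only [map_mul, conj_conj]
    ring
  · intro τ hτ
    set W : ℝ → ℂ := fun q => ∫ p : ℝ, g p * K (p, q) with hW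
    have mgK : Measurable (fun z : ℝ × ℝ => g z.1 * K z) := by fun_prop
    have bgK : ∀ z : ℝ × ℝ, ‖g z.1 * K z‖ ≤ 1 := fun z => by
      rw [norm_mul]; exact mul_le_one₀ (bg _) (norm_nonneg _) (bK _)
    -- R ∨ L as a common box
    set M := max R L with hM
    have hRM : R ≤ M := le_max_left _ _
    have hLM : L ≤ M := le_max_right _ _
    have hM0 : 0 ≤ M := hR.trans hRM
    have h1' : ∀ z : ℝ × ℝ, M < |z.1| → g z.1 * K z = 0 := fun z hz => by
      rw [h1 z (hLM.trans_lt hz), mul_zero]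
    have h2' : ∀ z : ℝ × ℝ, M < |z.2| → g z.1 * K z = 0 := fun z hz => by
      rw [h2 z (hLM.trans_lt hz), mul_zero]
    -- Step A
    have hA : ∫ z : ℝ × ℝ, g z.1 * h z.2 * K z = ∫ q : ℝ, h q * W q := by
      have hi : Integrable (fun z : ℝ × ℝ => g z.1 * h z.2 * K z) (volume.prod volume) := by
        refine A4_boxInt _ (by fun_prop) 1 ?_ M ?_ ?_
        · intro z
          rw [norm_mul, norm_mul]
          exact mul_le_one₀ (mul_le_one₀ (bg _) (norm_nonneg _) (bh _)) (norm_nonneg _) (bK _)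
        · intro z hz; rw [h1 z (hLM.trans_lt hz), mul_zero]
        · intro z hz; rw [h2 z (hLM.trans_lt hz), mul_zero]
      rw [Measure.volume_eq_prod, integral_prod_symm _ hi]
      congr 1
      funext q
      rw [hW]
      simp only
      rw [← integral_const_mul]
      congr 1
      funext p
      ring
    have hWi : Integrable (fun q => ‖W q‖ ^ 2) := by
      have := A4_W (fun z => g z.2 * K z.swap) (by fun_prop) 1
        (fun z => by rw [norm_mul]; exact mul_le_one₀ (bg _) (norm_nonneg _) (bK _)) M hM0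
        (fun z hz => h2' z.swap hz) (fun z hz => h1' z.swap hz)
      exact this
    have hB : ‖∫ q : ℝ, h q * W q‖ ≤ 2 * R * τ + (∫ q : ℝ, ‖W q‖ ^ 2) / τ := by
      obtain ⟨i1, i2⟩ := A4_ind R τ hR
      calc ‖∫ q : ℝ, h q * W q‖ ≤ ∫ q : ℝ, ‖h q * W q‖ := norm_integral_le_integral_norm _
        _ ≤ ∫ q : ℝ, ((Icc (-R) R).indicator (fun _ => τ) q + ‖W q‖ ^ 2 / τ) := by
            apply integral_mono_of_nonneg (Filter.Eventually.of_forall fun q => norm_nonneg _)
              (i1.add (hWi.div_const τ))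
            refine Filter.Eventually.of_forall fun q => ?_
            simp only [Pi.add_apply]
            by_cases hq : q ∈ Icc (-R) R
            · rw [indicator_of_mem hq, norm_mul]
              calc ‖h q‖ * ‖W q‖ ≤ 1 * ‖W q‖ := mul_le_mul_of_nonneg_right (bh q) (norm_nonneg _)
                _ ≤ _ := by rw [one_mul]; exact A4_amgm _ _ hτ
            · rw [indicator_of_notMem hq]
              have : h q = 0 := by
                apply sh
                by_contra h'
                push Not at h'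
                exact hq (abs_le.1 h')
              rw [this, zero_mul, norm_zero]
              positivity
        _ = 2 * R * τ + (∫ q : ℝ, ‖W q‖ ^ 2) / τ := by
            rw [integral_add i1 (hWi.div_const τ), i2, integral_div]
    -- Step C
    have hVm : Measurable (fun z : ℝ × ℝ => V z.1 z.2) := by
      have : Measurable (fun w : (ℝ × ℝ) × ℝ => K (w.1.2, w.2) * conj (K (w.1.2 + w.1.1, w.2))) := by fun_prop
      exact (this.stronglyMeasurable.integral_prod_right' (ν := volume)).measurable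
    have hVb : ∀ s p, ‖V s p‖ ≤ 2 * M := by
      intro s p
      have := A4_norm1 (fun q => K (p, q) * conj (K (p + s, q))) 1
        (fun q => by rw [norm_mul, norm_conj]; exact mul_le_one₀ (bK _) (norm_nonneg _) (bK _)) M hM0
        (fun q hq => by simp only [h2 (p, q) (hLM.trans_lt hq), zero_mul])
      rw [one_mul] at this
      exact this
    have hVs : ∀ s p, M < |p| → V s p = 0 := by
      intro s p hp
      have : ∀ q, K (p, q) * conj (K (p + s, q)) = 0 := fun q => by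
        rw [h1 (p, q) (hLM.trans_lt hp), zero_mul]
      simp only [hV, this, integral_zero]
    have hVs' : ∀ s p, 2 * M < |s| → V s p = 0 := by
      intro s p hs
      have : ∀ q, K (p, q) * conj (K (p + s, q)) = 0 := fun q => by
        by_cases hp : M < |p|
        · rw [h1 (p, q) (hLM.trans_lt hp), zero_mul]
        · push Not at hp
          have : L < |p + s| := by
            refine hLM.trans_lt ?_
            have h3 : |s| ≤ |p + s| + |p| := by
              have := abs_sub (p + s) p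
              simpa using this
            linarith
          rw [h1 (p + s, q) this, map_zero, mul_zero]
      simp only [hV, this, integral_zero]
    have hVi2 : Integrable (fun z : ℝ × ℝ => ‖V z.1 z.2‖ ^ 2) (volume.prod volume) := by
      refine A4_intR ((hVm.norm.pow_const 2).aestronglyMeasurable) (B := (2 * M) ^ 2) ?_
        (s := (Icc (-(2 * M)) (2 * M) ×ˢ Icc (-M) M)) ?_ ?_
      · intro z
        rw [Real.norm_eq_abs, abs_of_nonneg (by positivity)]
        exact pow_le_pow_left₀ (norm_nonneg _) (hVb _ _) 2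
      · rw [Measure.prod_prod]
        simp only [Real.volume_Icc]
        exact ENNReal.mul_ne_top ENNReal.ofReal_ne_top ENNReal.ofReal_ne_top
      · rintro ⟨s, p⟩ hz
        simp only [mem_prod, not_and_or] at hz
        rcases hz with hz | hz
        · have : 2 * M < |s| := by
            by_contra h'
            push Not at h'
            exact hz (abs_le.1 h')
          simp [hVs' s p this]
        · have : M < |p| := by
            by_contra h'
            push Not at h'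
            exact hz (abs_le.1 h')
          simp [hVs s p this]
    have hVi1 : Integrable (fun s : ℝ => ∫ p : ℝ, ‖V s p‖ ^ 2) := hVi2.integral_prod_left
    have hVi0 : ∀ s, Integrable (fun p : ℝ => ‖V s p‖ ^ 2) := by
      intro s
      have hm : Measurable (fun p => V s p) := hVm.comp measurable_prodMk_left
      refine A4_intR ((hm.norm.pow_const 2).aestronglyMeasurable) (B := (2 * M) ^ 2) ?_ (s := Icc (-M) M) (by simp) ?_
      · intro z
        rw [Real.norm_eq_abs, abs_of_nonneg (by positivity)]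
        exact pow_le_pow_left₀ (norm_nonneg _) (hVb _ _) 2
      · intro p hp
        have : M < |p| := by
          by_contra h'
          push Not at h'
          exact hp (abs_le.1 h')
        simp [hVs s p this]
    set τ' := τ ^ 2 with hτ'
    have hτ'0 : 0 < τ' := by positivity
    have hC : (∫ q : ℝ, ‖W q‖ ^ 2) ≤ 8 * R ^ 2 * τ' + (∫ s : ℝ, ∫ p : ℝ, ‖V s p‖ ^ 2) / τ' := by
      have e0 := A4_corr1 (fun z => g z.1 * K z) mgK 1 bgK M h1' h2'
      simp only at e0
      have e1 : (∫ q : ℝ, ‖W q‖ ^ 2) = ‖((∫ q : ℝ, ‖W q‖ ^ 2 : ℝ) : ℂ)‖ := by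
        rw [norm_real, Real.norm_eq_abs, abs_of_nonneg]
        exact integral_nonneg fun q => by positivity
      rw [e1, e0]
      obtain ⟨i1, i2⟩ := A4_ind (2 * R) (2 * R * τ') (by linarith)
      obtain ⟨i3, i4⟩ := A4_ind R τ' hR
      calc ‖∫ s : ℝ, ∫ z : ℝ × ℝ, g z.1 * K z * conj (g (z.1 + s) * K (z.1 + s, z.2))‖
          ≤ ∫ s : ℝ, ‖∫ z : ℝ × ℝ, g z.1 * K z * conj (g (z.1 + s) * K (z.1 + s, z.2))‖ :=
            norm_integral_le_integral_norm _
        _ ≤ ∫ s : ℝ, ((Icc (-(2 * R)) (2 * R)).indicator (fun _ => 2 * R * τ') s + (∫ p : ℝ, ‖V s p‖ ^ 2) / τ') := by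
            apply integral_mono_of_nonneg (Filter.Eventually.of_forall fun q => norm_nonneg _)
              (i1.add (hVi1.div_const τ'))
            refine Filter.Eventually.of_forall fun s => ?_
            simp only [Pi.add_apply]
            by_cases hs : s ∈ Icc (-(2 * R)) (2 * R)
            · rw [indicator_of_mem hs]
              have hi : Integrable (fun z : ℝ × ℝ => g z.1 * K z * conj (g (z.1 + s) * K (z.1 + s, z.2)))
                  (volume.prod volume) := by
                refine A4_boxInt _ (by fun_prop) 1 ?_ M ?_ ?_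
                · intro z
                  rw [norm_mul, norm_conj]
                  exact mul_le_one₀ (bgK _) (norm_nonneg _) (bgK (z.1 + s, z.2))
                · intro z hz; rw [h1' z hz, zero_mul]
                · intro z hz; rw [h2' z hz, zero_mul]
              rw [Measure.volume_eq_prod, integral_prod _ hi]
              calc ‖∫ p : ℝ, ∫ q : ℝ, g p * K (p, q) * conj (g (p + s) * K (p + s, q))‖
                  ≤ ∫ p : ℝ, ‖∫ q : ℝ, g p * K (p, q) * conj (g (p + s) * K (p + s, q))‖ :=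
                    norm_integral_le_integral_norm _
                _ ≤ ∫ p : ℝ, ((Icc (-R) R).indicator (fun _ => τ') p + ‖V s p‖ ^ 2 / τ') := by
                    apply integral_mono_of_nonneg (Filter.Eventually.of_forall fun q => norm_nonneg _)
                      (i3.add ((hVi0 s).div_const τ'))
                    refine Filter.Eventually.of_forall fun p => ?_
                    simp only [Pi.add_apply]
                    have e2 : (∫ q : ℝ, g p * K (p, q) * conj (g (p + s) * K (p + s, q)))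
                        = g p * conj (g (p + s)) * V s p := by
                      rw [hV]
                      simp only
                      rw [← integral_const_mul]
                      congr 1
                      funext q
                      rw [map_mul]
                      ring
                    rw [e2]
                    by_cases hp : p ∈ Icc (-R) R
                    · rw [indicator_of_mem hp, norm_mul, norm_mul, norm_conj]
                      calc ‖g p‖ * ‖g (p + s)‖ * ‖V s p‖ ≤ 1 * ‖V s p‖ :=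
                            mul_le_mul_of_nonneg_right (mul_le_one₀ (bg _) (norm_nonneg _) (bg _)) (norm_nonneg _)
                        _ ≤ _ := by rw [one_mul]; exact A4_amgm _ _ hτ'0
                    · rw [indicator_of_notMem hp]
                      have : g p = 0 := by
                        apply sg
                        by_contra h'
                        push Not at h'
                        exact hp (abs_le.1 h')
                      rw [this, zero_mul, zero_mul, norm_zero]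
                      positivity
                _ = 2 * R * τ' + (∫ p : ℝ, ‖V s p‖ ^ 2) / τ' := by
                    rw [integral_add i3 ((hVi0 s).div_const τ'), i4, integral_div]
            · rw [indicator_of_notMem hs]
              have hs' : 2 * R < |s| := by
                by_contra h'
                push Not at h'
                exact hs (abs_le.1 h')
              have : ∀ z : ℝ × ℝ, g z.1 * K z * conj (g (z.1 + s) * K (z.1 + s, z.2)) = 0 := by
                intro z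
                by_cases hp : R < |z.1|
                · rw [sg _ hp]; simp
                · push Not at hp
                  have : R < |z.1 + s| := by
                    have h3 : |s| ≤ |z.1 + s| + |z.1| := by
                      have := abs_sub (z.1 + s) z.1
                      simpa using this
                    linarith
                  rw [sg _ this]; simp
              simp only [this, integral_zero, norm_zero]
              have : 0 ≤ ∫ p : ℝ, ‖V s p‖ ^ 2 := integral_nonneg fun p => by positivity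
              positivity
        _ = 8 * R ^ 2 * τ' + (∫ s : ℝ, ∫ p : ℝ, ‖V s p‖ ^ 2) / τ' := by
            rw [integral_add i1 (hVi1.div_const τ'), i2, integral_div]
            ring
    rw [hA]
    refine hB.trans ?_
    have : (∫ q : ℝ, ‖W q‖ ^ 2) / τ ≤ (8 * R ^ 2 * τ' + (∫ s : ℝ, ∫ p : ℝ, ‖V s p‖ ^ 2) / τ') / τ := by
      gcongr
    refine (add_le_add le_rfl this).trans (le_of_eq ?_)
    rw [hτ']
    field_simp
    ring


/-! ### the correlations `GG` -/

theorem A4_GGm (g : ℝ → ℂ) (hg : Measurable g) : Measurable (fun z : ℝ × ℝ => GG g z.1 z.2) := by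
  have : Measurable (fun w : (ℝ × ℝ) × ℝ => g w.2 * conj (g (w.2 + w.1.1)) * conj (g (w.2 + w.1.2))
      * g (w.2 + w.1.1 + w.1.2)) := by fun_prop
  exact (this.stronglyMeasurable.integral_prod_right' (ν := volume)).measurable

theorem A4_GGm' {α : Type*} [MeasurableSpace α] (g : ℝ → ℂ) (hg : Measurable g) (u v : α → ℝ)
    (hu : Measurable u) (hv : Measurable v) : Measurable (fun w => GG g (u w) (v w)) := by
  have h1 := A4_GGm g hg
  have h2 : Measurable (fun w => (u w, v w)) := hu.prodMk hv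
  have h3 := h1.comp h2
  exact h3

theorem A4_GGb (R : ℝ) (hR : 0 ≤ R) (g : ℝ → ℂ) (bg : ∀ x, ‖g x‖ ≤ 1) (sg : ∀ x, R < |x| → g x = 0)
    (x y : ℝ) : ‖GG g x y‖ ≤ 2 * R := by
  have := A4_norm1 (fun a => g a * conj (g (a + x)) * conj (g (a + y)) * g (a + x + y)) 1
    (fun a => by
      rw [norm_mul, norm_mul, norm_mul, norm_conj, norm_conj]
      exact mul_le_one₀ (mul_le_one₀ (mul_le_one₀ (bg _) (norm_nonneg _) (bg _)) (norm_nonneg _) (bg _))
        (norm_nonneg _) (bg _)) R hR (fun a ha => by simp only [sg a ha, zero_mul])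
  rw [one_mul] at this
  exact this

theorem A4_GGs1 (R : ℝ) (g : ℝ → ℂ) (sg : ∀ x, R < |x| → g x = 0)
    (x y : ℝ) (hx : 2 * R < |x|) : GG g x y = 0 := by
  have : ∀ a, g a * conj (g (a + x)) * conj (g (a + y)) * g (a + x + y) = 0 := by
    intro a
    by_cases ha : R < |a|
    · simp only [sg a ha, zero_mul]
    · push Not at ha
      have h3 : |x| ≤ |a + x| + |a| := by
        have := abs_sub (a + x) a
        simpa using this
      rw [sg (a + x) (by linarith)]; simp
  simp only [GG, this, integral_zero]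

theorem A4_GGs2 (R : ℝ) (g : ℝ → ℂ) (sg : ∀ x, R < |x| → g x = 0)
    (x y : ℝ) (hy : 2 * R < |y|) : GG g x y = 0 := by
  have : ∀ a, g a * conj (g (a + x)) * conj (g (a + y)) * g (a + x + y) = 0 := by
    intro a
    by_cases ha : R < |a|
    · simp only [sg a ha, zero_mul]
    · push Not at ha
      have h3 : |y| ≤ |a + y| + |a| := by
        have := abs_sub (a + y) a
        simpa using this
      rw [sg (a + y) (by linarith)]; simp
  simp only [GG, this, integral_zero]

/-- the box integral of a product function in new coordinates -/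
theorem A4_boxGG (a b c d : ℝ) (hdet : a * d - b * c = 1) (g h : ℝ → ℂ) (s t : ℝ) (K : ℝ × ℝ → ℂ)
    (hK : ∀ z, K z = g (a * z.1 + b * z.2) * h (c * z.1 + d * z.2)) :
    ∫ z : ℝ × ℝ, K z * conj (K (z.1 + s, z.2)) * conj (K (z.1, z.2 + t)) * K (z.1 + s, z.2 + t)
      = GG g (a * s) (b * t) * GG h (c * s) (d * t) := by
  have h1 := A4_lin a b c d (by rw [hdet]; exact one_ne_zero)
    (fun w => (g w.1 * conj (g (w.1 + a * s)) * conj (g (w.1 + b * t)) * g (w.1 + a * s + b * t))
      * (h w.2 * conj (h (w.2 + c * s)) * conj (h (w.2 + d * t)) * h (w.2 + c * s + d * t)))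
  rw [hdet] at h1
  simp only [inv_one, abs_one, ofReal_one, one_mul] at h1
  rw [Measure.volume_eq_prod, integral_prod_mul
    (f := fun x : ℝ => g x * conj (g (x + a * s)) * conj (g (x + b * t)) * g (x + a * s + b * t))
    (g := fun x : ℝ => h x * conj (h (x + c * s)) * conj (h (x + d * t)) * h (x + c * s + d * t))] at h1
  unfold GG
  rw [← h1]
  congr 1
  funext z
  simp only [hK]
  have e1 : a * (z.1 + s) + b * z.2 = a * z.1 + b * z.2 + a * s := by ring
  have e2 : c * (z.1 + s) + d * z.2 = c * z.1 + d * z.2 + c * s := by ring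
  have e3 : a * z.1 + b * (z.2 + t) = a * z.1 + b * z.2 + b * t := by ring
  have e4 : c * z.1 + d * (z.2 + t) = c * z.1 + d * z.2 + d * t := by ring
  have e5 : a * (z.1 + s) + b * (z.2 + t) = a * z.1 + b * z.2 + a * s + b * t := by ring
  have e6 : c * (z.1 + s) + d * (z.2 + t) = c * z.1 + d * z.2 + c * s + d * t := by ring
  rw [e1, e2, e3, e4, e5, e6]
  simp only [map_mul]
  ring

/-- the form `X(φ)` -/
noncomputable def A4_X (ω : ℂ) (g h : ℝ → ℂ) (φ : ℝ) : ℂ :=
  ∫ s : ℝ, ∫ t : ℝ, GG g ((Real.cos φ - kk ω * Real.sin φ) * s) (-(normSq ω * Real.sin φ / ω.im) * t)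
    * GG h (Real.sin φ / ω.im * s) ((Real.cos φ + kk ω * Real.sin φ) * t)

theorem A4_det (ω : ℂ) (h0 : ω.im ≠ 0) (φ : ℝ) :
    (Real.cos φ - kk ω * Real.sin φ) * (Real.cos φ + kk ω * Real.sin φ)
      - (-(normSq ω * Real.sin φ / ω.im)) * (Real.sin φ / ω.im) = 1 := by
  have h := Real.sin_sq_add_cos_sq φ
  rw [normSq_apply, kk]
  field_simp
  nlinarith [h]

theorem A4_Xm (ω : ℂ) (g h : ℝ → ℂ) (hg : Measurable g) (hh : Measurable h) :
    Measurable (A4_X ω g h) := by
  have h1 := A4_GGm g hg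
  have h2 := A4_GGm h hh
  have : Measurable (fun w : (ℝ × ℝ) × ℝ =>
      GG g ((Real.cos w.1.1 - kk ω * Real.sin w.1.1) * w.1.2) (-(normSq ω * Real.sin w.1.1 / ω.im) * w.2)
    * GG h (Real.sin w.1.1 / ω.im * w.1.2) ((Real.cos w.1.1 + kk ω * Real.sin w.1.1) * w.2)) := by
    exact (A4_GGm' g hg (fun w : (ℝ × ℝ) × ℝ => (Real.cos w.1.1 - kk ω * Real.sin w.1.1) * w.1.2)
        (fun w : (ℝ × ℝ) × ℝ => -(normSq ω * Real.sin w.1.1 / ω.im) * w.2) (by fun_prop) (by fun_prop)).mul
      (A4_GGm' h hh (fun w : (ℝ × ℝ) × ℝ => Real.sin w.1.1 / ω.im * w.1.2)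
        (fun w : (ℝ × ℝ) × ℝ => (Real.cos w.1.1 + kk ω * Real.sin w.1.1) * w.2) (by fun_prop) (by fun_prop))
  have m1 : Measurable (fun w : ℝ × ℝ => ∫ t : ℝ,
      GG g ((Real.cos w.1 - kk ω * Real.sin w.1) * w.2) (-(normSq ω * Real.sin w.1 / ω.im) * t)
    * GG h (Real.sin w.1 / ω.im * w.2) ((Real.cos w.1 + kk ω * Real.sin w.1) * t)) :=
    (this.stronglyMeasurable.integral_prod_right' (ν := volume)).measurable
  exact (m1.stronglyMeasurable.integral_prod_right' (ν := volume)).measurable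

theorem A4_Xper (ω : ℂ) (g h : ℝ → ℂ) (φ : ℝ) : A4_X ω g h (φ + Real.pi) = A4_X ω g h φ := by
  unfold A4_X
  simp only [Real.cos_add_pi, Real.sin_add_pi]
  have e1 := integral_neg_eq_self (fun s : ℝ => ∫ t : ℝ, GG g ((Real.cos φ - kk ω * Real.sin φ) * s)
    (-(normSq ω * Real.sin φ / ω.im) * t)
    * GG h (Real.sin φ / ω.im * s) ((Real.cos φ + kk ω * Real.sin φ) * t)) volume
  rw [← e1]
  congr 1
  funext s
  have e2 := integral_neg_eq_self (fun t : ℝ => GG g ((Real.cos φ - kk ω * Real.sin φ) * -s)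
    (-(normSq ω * Real.sin φ / ω.im) * t)
    * GG h (Real.sin φ / ω.im * -s) ((Real.cos φ + kk ω * Real.sin φ) * t)) volume
  rw [← e2]
  congr 1
  funext t
  congr 2 <;> ring

theorem A4_Xb (ω : ℂ) (h0 : ω.im ≠ 0) (R : ℝ) (hR : 0 ≤ R) (g h : ℝ → ℂ)
    (bg : ∀ x, ‖g x‖ ≤ 1) (bh : ∀ x, ‖h x‖ ≤ 1) (sg : ∀ x, R < |x| → g x = 0) (sh : ∀ x, R < |x| → h x = 0)
    (φ : ℝ) : ‖A4_X ω g h φ‖ ≤ ((2 * R) * (2 * R) * (2 * (2 * R * (1 + ‖ω‖) / ‖ω‖))) * (2 * (2 * R * (1 + ‖ω‖))) := by
  have hω : 0 < ‖ω‖ := by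
    rw [norm_pos_iff]; rintro rfl; exact h0 rfl
  have hb : ∀ s t : ℝ, ‖GG g ((Real.cos φ - kk ω * Real.sin φ) * s) (-(normSq ω * Real.sin φ / ω.im) * t)
    * GG h (Real.sin φ / ω.im * s) ((Real.cos φ + kk ω * Real.sin φ) * t)‖ ≤ (2 * R) * (2 * R) := by
    intro s t
    rw [norm_mul]
    exact mul_le_mul (A4_GGb R hR g bg sg _ _) (A4_GGb R hR h bh sh _ _) (norm_nonneg _) (by linarith)
  have key1 : ((Real.cos φ - kk ω * Real.sin φ : ℝ) : ℂ) + ((Real.sin φ / ω.im : ℝ) : ℂ) * ω = U φ := by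
    apply Complex.ext
    · rw [U_re]; simp only [add_re, mul_re, ofReal_re, ofReal_im, kk]; field_simp; ring
    · rw [U_im]; simp only [add_im, mul_im, ofReal_re, ofReal_im]; field_simp; ring
  have key2 : ((-(normSq ω * Real.sin φ / ω.im) : ℝ) : ℂ) + ((Real.cos φ + kk ω * Real.sin φ : ℝ) : ℂ) * ω
      = ω * U φ := by
    apply Complex.ext
    · simp only [add_re, mul_re, ofReal_re, ofReal_im, kk, normSq_apply, U_re, U_im]; field_simp; ring
    · simp only [add_im, mul_im, ofReal_re, ofReal_im, kk, U_re, U_im]; field_simp; ring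
  have hs2 : ∀ s t : ℝ, (2 * R * (1 + ‖ω‖) / ‖ω‖) < |t| →
      GG g ((Real.cos φ - kk ω * Real.sin φ) * s) (-(normSq ω * Real.sin φ / ω.im) * t)
        * GG h (Real.sin φ / ω.im * s) ((Real.cos φ + kk ω * Real.sin φ) * t) = 0 := by
    intro s t ht
    by_cases h1 : 2 * R < |-(normSq ω * Real.sin φ / ω.im) * t|
    · rw [A4_GGs2 R g sg _ _ h1, zero_mul]
    by_cases h2 : 2 * R < |(Real.cos φ + kk ω * Real.sin φ) * t|
    · rw [A4_GGs2 R h sh _ _ h2, mul_zero]
    exfalso
    push Not at h1 h2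
    have h3 : ‖ω‖ * |t| ≤ 2 * R + 2 * R * ‖ω‖ := by
      have : (t : ℂ) * (ω * U φ) = ((-(normSq ω * Real.sin φ / ω.im) * t : ℝ) : ℂ)
          + (((Real.cos φ + kk ω * Real.sin φ) * t : ℝ) : ℂ) * ω := by
        rw [← key2]; push_cast; ring
      have h4 : ‖(t : ℂ) * (ω * U φ)‖ = ‖ω‖ * |t| := by
        rw [norm_mul, norm_mul, norm_U, norm_real, Real.norm_eq_abs]; ring
      rw [← h4, this]
      refine (norm_add_le _ _).trans ?_
      rw [norm_mul, norm_real, norm_real, Real.norm_eq_abs, Real.norm_eq_abs]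
      exact add_le_add h1 (mul_le_mul_of_nonneg_right h2 (norm_nonneg _))
    rw [div_lt_iff₀ hω] at ht
    linarith
  have hs1 : ∀ s t : ℝ, (2 * R * (1 + ‖ω‖)) < |s| →
      GG g ((Real.cos φ - kk ω * Real.sin φ) * s) (-(normSq ω * Real.sin φ / ω.im) * t)
        * GG h (Real.sin φ / ω.im * s) ((Real.cos φ + kk ω * Real.sin φ) * t) = 0 := by
    intro s t ht
    by_cases h1 : 2 * R < |(Real.cos φ - kk ω * Real.sin φ) * s|
    · rw [A4_GGs1 R g sg _ _ h1, zero_mul]
    by_cases h2 : 2 * R < |Real.sin φ / ω.im * s|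
    · rw [A4_GGs1 R h sh _ _ h2, mul_zero]
    exfalso
    push Not at h1 h2
    have h3 : |s| ≤ 2 * R + 2 * R * ‖ω‖ := by
      have : (s : ℂ) * (U φ) = (((Real.cos φ - kk ω * Real.sin φ) * s : ℝ) : ℂ)
          + ((Real.sin φ / ω.im * s : ℝ) : ℂ) * ω := by
        rw [← key1]; push_cast; ring
      have h4 : ‖(s : ℂ) * (U φ)‖ = |s| := by
        rw [norm_mul, norm_U, norm_real, Real.norm_eq_abs]; ring
      rw [← h4, this]
      refine (norm_add_le _ _).trans ?_
      rw [norm_mul, norm_real, norm_real, Real.norm_eq_abs, Real.norm_eq_abs]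
      exact add_le_add h1 (mul_le_mul_of_nonneg_right h2 (norm_nonneg _))
    linarith
  unfold A4_X
  apply A4_norm1 _ _ _ _ (by positivity)
  · intro s hs
    simp only [hs1 s _ hs, integral_zero]
  · intro s
    apply A4_norm1 _ _ (hb s) _ (by positivity)
    intro t ht
    exact hs2 s t ht


theorem A4_XY (ω : ℂ) (h0 : ω.im ≠ 0) (g h : ℝ → ℂ) (T : ℝ) (hT : T + kk ω ≠ 0) :
    A4_X ω g h (Real.pi / 2 - Real.arctan T)
      = ((|ω.im| * (1 + T ^ 2) / |T + kk ω| : ℝ) : ℂ) * YY ω g h T := by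
  have hs : Real.sin (Real.pi / 2 - Real.arctan T) = 1 / Real.sqrt (1 + T ^ 2) := by
    rw [Real.sin_pi_div_two_sub, Real.cos_arctan]
  have hc : Real.cos (Real.pi / 2 - Real.arctan T) = T / Real.sqrt (1 + T ^ 2) := by
    rw [Real.cos_pi_div_two_sub, Real.sin_arctan]
  have hr : 0 < Real.sqrt (1 + T ^ 2) := Real.sqrt_pos.2 (by positivity)
  have hr2 : Real.sqrt (1 + T ^ 2) ^ 2 = 1 + T ^ 2 := Real.sq_sqrt (by positivity)
  set r := Real.sqrt (1 + T ^ 2) with hrdef
  unfold A4_X YY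
  rw [hs, hc]
  set N : ℝ → ℝ → ℂ := fun σ y => GG g (ω.im * (T - kk ω) * σ) (-(normSq ω) / (ω.im * (T + kk ω)) * y) * GG h σ y
    with hN
  have e1 : ∀ s t : ℝ, GG g ((T / r - kk ω * (1 / r)) * s) (-(normSq ω * (1 / r) / ω.im) * t)
      * GG h (1 / r / ω.im * s) ((T / r + kk ω * (1 / r)) * t) = N (1 / r / ω.im * s) ((T + kk ω) / r * t) := by
    intro s t
    rw [hN]
    simp only
    congr 2
    · field_simp
    · field_simp
    · field_simp
  simp only [e1]
  have e2 : ∀ s : ℝ, (∫ t : ℝ, N (1 / r / ω.im * s) ((T + kk ω) / r * t))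
      = |((T + kk ω) / r)⁻¹| • ∫ y : ℝ, N (1 / r / ω.im * s) y := fun s =>
    Measure.integral_comp_mul_left (fun y => N (1 / r / ω.im * s) y) ((T + kk ω) / r)
  simp only [e2]
  rw [integral_smul]
  rw [Measure.integral_comp_mul_left (fun σ => ∫ y : ℝ, N σ y) (1 / r / ω.im)]
  rw [real_smul, real_smul, ← mul_assoc, ← ofReal_mul]
  congr 2
  rw [← abs_mul, ← hr2]
  rw [show ((T + kk ω) / r)⁻¹ * (1 / r / ω.im)⁻¹ = ω.im * r ^ 2 / (T + kk ω) by field_simp]
  rw [abs_div, abs_mul, abs_of_nonneg (sq_nonneg r)]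

theorem A4_per (f : ℝ → ℝ) (hf : Measurable f) (C : ℝ) (hC : ∀ x, |f x| ≤ C)
    (hp : ∀ x, f (x + Real.pi) = f x) (a : ℝ) :
    ∫ θ in Icc 0 (2 * Real.pi), f (θ - a) = 2 * ∫ T : ℝ, f (Real.pi / 2 - Real.arctan T) * (1 + T ^ 2)⁻¹ := by
  have hi : ∀ a b : ℝ, IntervalIntegrable f volume a b := by
    intro a b
    refine (intervalIntegrable_const (c := C)).mono_fun hf.aestronglyMeasurable ?_
    refine Filter.Eventually.of_forall fun x => ?_
    exact (hC x).trans (le_abs_self C)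
  have hper : Function.Periodic f Real.pi := hp
  have hpi := Real.pi_pos
  rw [integral_Icc_eq_integral_Ioc, ← intervalIntegral.integral_of_le (by linarith),
    intervalIntegral.integral_comp_sub_right f a]
  rw [← intervalIntegral.integral_add_adjacent_intervals (hi (0 - a) (0 - a + Real.pi))
    (hi (0 - a + Real.pi) (2 * Real.pi - a))]
  have e1 : (2 * Real.pi - a) = (0 - a + Real.pi) + Real.pi := by ring
  rw [e1, hper.intervalIntegral_add_eq (0 - a) 0, hper.intervalIntegral_add_eq (0 - a + Real.pi) 0]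
  have e2 := intervalIntegral.integral_comp_sub_left (a := -(Real.pi / 2)) (b := Real.pi / 2) f (Real.pi / 2)
  rw [show Real.pi / 2 - Real.pi / 2 = (0:ℝ) by ring, show Real.pi / 2 - -(Real.pi / 2) = 0 + Real.pi by ring] at e2
  rw [← e2, intervalIntegral.integral_of_le (by linarith), integral_Ioc_eq_integral_Ioo, ← Real.range_arctan,
    ← image_univ]
  rw [integral_image_eq_integral_abs_deriv_smul MeasurableSet.univ
    (fun x _ => (Real.hasDerivAt_arctan x).hasDerivWithinAt) (Real.arctan_injective.injOn)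
    (fun ψ => f (Real.pi / 2 - ψ))]
  rw [setIntegral_univ, ← two_mul]
  congr 1
  congr 1
  funext T
  have : (0:ℝ) ≤ 1 / (1 + T ^ 2) := by positivity
  rw [abs_of_nonneg this, smul_eq_mul, one_div]
  ring

/-- the small set in the variable `T` -/
theorem A4_bad (k δ : ℝ) (hδ : 0 < δ) (f : ℝ → ℝ) (hf : Measurable f) (C : ℝ) (hC : ∀ x, |f x| ≤ C)
    (S : Set ℝ) (hS : S = {T : ℝ | δ ≤ |T - k| ∧ δ ≤ |T + k| ∧ |T| ≤ 1 / δ}) :
    Integrable (fun T : ℝ => f T * (1 + T ^ 2)⁻¹) ∧
    ∫ T : ℝ, f T * (1 + T ^ 2)⁻¹ ≤ (∫ T in S, f T * (1 + T ^ 2)⁻¹) + 6 * C * δ := by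
  have hC0 : 0 ≤ C := (abs_nonneg _).trans (hC 0)
  have hρ : Integrable (fun T : ℝ => (1 + T ^ 2)⁻¹) := integrable_inv_one_add_sq
  have hi : Integrable (fun T : ℝ => f T * (1 + T ^ 2)⁻¹) := by
    refine (hρ.const_mul C).mono (by fun_prop) (Filter.Eventually.of_forall fun T => ?_)
    have : (0:ℝ) ≤ (1 + T ^ 2)⁻¹ := by positivity
    rw [norm_mul, norm_mul]
    exact mul_le_mul_of_nonneg_right ((hC T).trans (le_abs_self C)) (norm_nonneg _)
  refine ⟨hi, ?_⟩
  have hSm : MeasurableSet S := by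
    rw [hS]
    have c1 : IsClosed {T : ℝ | δ ≤ |T - k|} := isClosed_le continuous_const (by fun_prop)
    have c2 : IsClosed {T : ℝ | δ ≤ |T + k|} := isClosed_le continuous_const (by fun_prop)
    have c3 : IsClosed {T : ℝ | |T| ≤ 1 / δ} := isClosed_le (by fun_prop) continuous_const
    exact (c1.inter (c2.inter c3)).measurableSet
  rw [← integral_add_compl hSm hi]
  have i1 : Integrable ((Icc (k - δ) (k + δ)).indicator (fun _ => C)) := by
    rw [integrable_indicator_iff measurableSet_Icc]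
    exact integrableOn_const (by simp)
  have i2 : Integrable ((Icc (-k - δ) (-k + δ)).indicator (fun _ => C)) := by
    rw [integrable_indicator_iff measurableSet_Icc]
    exact integrableOn_const (by simp)
  have i3 : Integrable ((Iic (-(1 / δ))).indicator (fun T : ℝ => C * (1 + T ^ 2)⁻¹)) :=
    (hρ.const_mul C).indicator measurableSet_Iic
  have i4 : Integrable ((Ioi (1 / δ)).indicator (fun T : ℝ => C * (1 + T ^ 2)⁻¹)) :=
    (hρ.const_mul C).indicator measurableSet_Ioi
  have v1 : ∫ T : ℝ, (Icc (k - δ) (k + δ)).indicator (fun _ => C) T = 2 * δ * C := by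
    rw [integral_indicator measurableSet_Icc, setIntegral_const, Measure.real, Real.volume_Icc,
      ENNReal.toReal_ofReal (by linarith), smul_eq_mul]
    ring
  have v2 : ∫ T : ℝ, (Icc (-k - δ) (-k + δ)).indicator (fun _ => C) T = 2 * δ * C := by
    rw [integral_indicator measurableSet_Icc, setIntegral_const, Measure.real, Real.volume_Icc,
      ENNReal.toReal_ofReal (by linarith), smul_eq_mul]
    ring
  have hat : Real.arctan δ ≤ δ := by
    have := Real.le_tan (Real.arctan_nonneg.2 hδ.le) (Real.arctan_lt_pi_div_two δ)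
    rwa [Real.tan_arctan] at this
  have hinv : Real.arctan (1 / δ) = Real.pi / 2 - Real.arctan δ := by
    rw [one_div, Real.arctan_inv_of_pos hδ]
  have v3 : ∫ T : ℝ, (Iic (-(1 / δ))).indicator (fun T : ℝ => C * (1 + T ^ 2)⁻¹) T ≤ δ * C := by
    rw [integral_indicator measurableSet_Iic, integral_const_mul, integral_Iic_inv_one_add_sq, Real.arctan_neg,
      hinv]
    nlinarith
  have v4 : ∫ T : ℝ, (Ioi (1 / δ)).indicator (fun T : ℝ => C * (1 + T ^ 2)⁻¹) T ≤ δ * C := by
    rw [integral_indicator measurableSet_Ioi, integral_const_mul, integral_Ioi_inv_one_add_sq, hinv]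
    nlinarith
  have key : ∫ T in Sᶜ, f T * (1 + T ^ 2)⁻¹ ≤ ∫ T : ℝ, ((Icc (k - δ) (k + δ)).indicator (fun _ => C) T
      + (Icc (-k - δ) (-k + δ)).indicator (fun _ => C) T
      + (Iic (-(1 / δ))).indicator (fun T : ℝ => C * (1 + T ^ 2)⁻¹) T
      + (Ioi (1 / δ)).indicator (fun T : ℝ => C * (1 + T ^ 2)⁻¹) T) := by
    rw [← integral_indicator hSm.compl]
    apply integral_mono (hi.indicator hSm.compl) (((i1.add i2).add i3).add i4)
    intro T
    have hρT : (0:ℝ) ≤ (1 + T ^ 2)⁻¹ := by positivity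
    have hρT1 : (1 + T ^ 2)⁻¹ ≤ 1 := by
      apply inv_le_one_of_one_le₀; nlinarith [sq_nonneg T]
    have hfT : f T * (1 + T ^ 2)⁻¹ ≤ C * (1 + T ^ 2)⁻¹ :=
      mul_le_mul_of_nonneg_right ((le_abs_self _).trans (hC T)) hρT
    have hfT1 : f T * (1 + T ^ 2)⁻¹ ≤ C := hfT.trans (mul_le_of_le_one_right hC0 hρT1)
    have n1 : 0 ≤ (Icc (k - δ) (k + δ)).indicator (fun _ => C) T := indicator_nonneg (fun _ _ => hC0) T
    have n2 : 0 ≤ (Icc (-k - δ) (-k + δ)).indicator (fun _ => C) T := indicator_nonneg (fun _ _ => hC0) T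
    have n3 : 0 ≤ (Iic (-(1 / δ))).indicator (fun T : ℝ => C * (1 + T ^ 2)⁻¹) T :=
      indicator_nonneg (fun _ _ => by positivity) T
    have n4 : 0 ≤ (Ioi (1 / δ)).indicator (fun T : ℝ => C * (1 + T ^ 2)⁻¹) T :=
      indicator_nonneg (fun _ _ => by positivity) T
    simp only [Pi.add_apply]
    by_cases hT : T ∈ Sᶜ
    · rw [indicator_of_mem hT]
      rw [hS] at hT
      simp only [mem_compl_iff, mem_ofPred_eq, not_and_or, not_le] at hT
      rcases hT with h | h | h
      · have : T ∈ Icc (k - δ) (k + δ) := by rw [abs_lt] at h; constructor <;> linarith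
        rw [indicator_of_mem this]
        linarith
      · have : T ∈ Icc (-k - δ) (-k + δ) := by rw [abs_lt] at h; constructor <;> linarith
        rw [indicator_of_mem this]
        linarith
      · rcases lt_abs.1 h with h | h
        · have : T ∈ Ioi (1 / δ) := h
          rw [indicator_of_mem this]
          linarith
        · have : T ∈ Iic (-(1 / δ)) := by rw [mem_Iic]; linarith
          rw [indicator_of_mem this]
          linarith
    · rw [indicator_of_notMem hT]
      linarith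
  have e5 := integral_add ((i1.add i2).add i3) i4
  have e6 := integral_add (i1.add i2) i3
  have e7 := integral_add i1 i2
  simp only [Pi.add_apply] at e5 e6 e7
  rw [e5, e6, e7, v1, v2] at key
  linarith


theorem A4_J (ω : ℂ) (h0 : ω.im ≠ 0) (R : ℝ) (hR : 0 ≤ R) (g h : ℝ → ℂ) (hg : Measurable g) (hh : Measurable h)
    (bg : ∀ x, ‖g x‖ ≤ 1) (bh : ∀ x, ‖h x‖ ≤ 1) (sg : ∀ x, R < |x| → g x = 0) (sh : ∀ x, R < |x| → h x = 0)
    (φ : ℝ) (g1 h1 : ℝ → ℂ) (hg1 : Measurable g1) (hh1 : Measurable h1)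
    (bg1 : ∀ x, ‖g1 x‖ ≤ 1) (bh1 : ∀ x, ‖h1 x‖ ≤ 1) (sg1 : ∀ x, R < |x| → g1 x = 0)
    (sh1 : ∀ x, R < |x| → h1 x = 0) :
    0 ≤ (A4_X ω g h φ).re ∧ (((A4_X ω g h φ).re : ℝ) : ℂ) = A4_X ω g h φ ∧
    ∀ τ : ℝ, 0 < τ → ‖∫ z : ℝ × ℝ, g1 z.1 * h1 z.2 *
      (g ((Real.cos φ - kk ω * Real.sin φ) * z.1 + -(normSq ω * Real.sin φ / ω.im) * z.2)
        * h (Real.sin φ / ω.im * z.1 + (Real.cos φ + kk ω * Real.sin φ) * z.2))‖
      ≤ (2 * R + 8 * R ^ 2) * τ + (A4_X ω g h φ).re / τ ^ 3 := by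
  have hdet := A4_det ω h0 φ
  set a := Real.cos φ - kk ω * Real.sin φ with ha
  set b := -(normSq ω * Real.sin φ / ω.im) with hb
  set c := Real.sin φ / ω.im with hc
  set d := Real.cos φ + kk ω * Real.sin φ with hd
  set K : ℝ × ℝ → ℂ := fun z => g (a * z.1 + b * z.2) * h (c * z.1 + d * z.2) with hK
  have Ks : ∀ z : ℝ × ℝ, K z ≠ 0 → |a * z.1 + b * z.2| ≤ R ∧ |c * z.1 + d * z.2| ≤ R := by
    intro z hz
    constructor
    · by_contra hlt
      push Not at hlt
      exact hz (by simp only [hK, sg _ hlt, zero_mul])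
    · by_contra hlt
      push Not at hlt
      exact hz (by simp only [hK, sh _ hlt, mul_zero])
  set L := (|a| + |b| + |c| + |d|) * R with hL
  have K1 : ∀ z : ℝ × ℝ, L < |z.1| → K z = 0 := by
    intro z hz
    by_contra hne
    obtain ⟨e1, e2⟩ := Ks z hne
    have e3 : z.1 = d * (a * z.1 + b * z.2) - b * (c * z.1 + d * z.2) := by
      linear_combination (-z.1) * hdet
    have e4 : |z.1| ≤ |d| * R + |b| * R := by
      rw [e3]
      refine (abs_sub _ _).trans ?_
      rw [abs_mul, abs_mul]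
      exact add_le_add (mul_le_mul_of_nonneg_left e1 (abs_nonneg _)) (mul_le_mul_of_nonneg_left e2 (abs_nonneg _))
    have : |d| * R + |b| * R ≤ L := by
      rw [hL]; nlinarith [abs_nonneg a, abs_nonneg c, mul_nonneg (abs_nonneg a) hR, mul_nonneg (abs_nonneg c) hR]
    linarith
  have K2 : ∀ z : ℝ × ℝ, L < |z.2| → K z = 0 := by
    intro z hz
    by_contra hne
    obtain ⟨e1, e2⟩ := Ks z hne
    have e3 : z.2 = a * (c * z.1 + d * z.2) - c * (a * z.1 + b * z.2) := by
      linear_combination (-z.2) * hdet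
    have e4 : |z.2| ≤ |a| * R + |c| * R := by
      rw [e3]
      refine (abs_sub _ _).trans ?_
      rw [abs_mul, abs_mul]
      exact add_le_add (mul_le_mul_of_nonneg_left e2 (abs_nonneg _)) (mul_le_mul_of_nonneg_left e1 (abs_nonneg _))
    have : |a| * R + |c| * R ≤ L := by
      rw [hL]; nlinarith [abs_nonneg b, abs_nonneg d, mul_nonneg (abs_nonneg b) hR, mul_nonneg (abs_nonneg d) hR]
    linarith
  obtain ⟨X, hX0, hX1, hX2⟩ := A4_box R L hR g1 h1 hg1 hh1 bg1 bh1 sg1 sh1 K (by fun_prop)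
    (fun z => by
      rw [hK]; simp only [norm_mul]; exact mul_le_one₀ (bg _) (norm_nonneg _) (bh _)) K1 K2
  have hXX : (X : ℂ) = A4_X ω g h φ := by
    rw [hX1]
    unfold A4_X
    congr 1
    funext s
    congr 1
    funext t
    exact A4_boxGG a b c d hdet g h s t K (fun z => rfl)
  have hre : (A4_X ω g h φ).re = X := by rw [← hXX, ofReal_re]
  rw [hre]
  exact ⟨hX0, hXX, hX2⟩

theorem A4_Y (ω : ℂ) (h0 : ω.im ≠ 0) (h1 : ω.re ≠ 0) (R : ℝ) (hR : 0 ≤ R) : ∃ n : ℕ, 1 ≤ n ∧ ∃ C : ℝ, 1 ≤ C ∧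
    ∀ g h : ℝ → ℂ, Measurable g → Measurable h → (∀ x, ‖g x‖ ≤ 1) → (∀ x, ‖h x‖ ≤ 1) →
    (∀ x, R < |x| → g x = 0) → (∀ x, R < |x| → h x = 0) → ∀ a : ℝ,
    (∫ θ in Icc 0 (2 * Real.pi), (A4_X ω g h (θ - a)).re ≤ C) ∧
    ∀ δ : ℝ, 0 < δ → δ ≤ 1 / 2 → (∀ ζ, ‖FT1 g ζ‖ < δ ^ n) →
      ∫ θ in Icc 0 (2 * Real.pi), (A4_X ω g h (θ - a)).re ≤ C * δ := by
  obtain ⟨n, hn, hA⟩ := lemA ω h0 h1 R
  set C0 := ((2 * R) * (2 * R) * (2 * (2 * R * (1 + ‖ω‖) / ‖ω‖))) * (2 * (2 * R * (1 + ‖ω‖))) with hC0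
  have hC00 : 0 ≤ C0 := by positivity
  have hpi := Real.pi_pos
  have habs := abs_nonneg ω.im
  have hC2 : 0 ≤ C0 * (2 * Real.pi) := by positivity
  refine ⟨n, hn, 1 + C0 * (2 * Real.pi) + 2 * |ω.im| + 12 * C0, by linarith, ?_⟩
  intro g h hg hh bg bh sg sh a
  have hXb : ∀ φ, ‖A4_X ω g h φ‖ ≤ C0 := A4_Xb ω h0 R hR g h bg bh sg sh
  have hXrb : ∀ φ, |(A4_X ω g h φ).re| ≤ C0 := fun φ => (abs_re_le_norm _).trans (hXb φ)
  have hXm := A4_Xm ω g h hg hh
  have hXrm : Measurable (fun φ => (A4_X ω g h φ).re) := measurable_re.comp hXm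
  have hXreal : ∀ φ, (((A4_X ω g h φ).re : ℝ) : ℂ) = A4_X ω g h φ := by
    intro φ
    exact (A4_J ω h0 R hR g h hg hh bg bh sg sh φ (fun _ => 0) (fun _ => 0) measurable_const measurable_const
      (by simp) (by simp) (fun _ _ => rfl) (fun _ _ => rfl)).2.1
  constructor
  · have := norm_setIntegral_le_of_norm_le_const (μ := (volume : Measure ℝ)) (s := Icc 0 (2 * Real.pi))
      (f := fun θ => (A4_X ω g h (θ - a)).re) (C := C0) measure_Icc_lt_top (fun x _ => hXrb _)
    rw [Measure.real, Real.volume_Icc, ENNReal.toReal_ofReal (by linarith), sub_zero] at this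
    have h2 := (le_abs_self _).trans this
    linarith
  · intro δ hδ hδ2 hsmall
    rw [A4_per (fun φ => (A4_X ω g h φ).re) hXrm C0 hXrb (fun φ => by rw [A4_Xper]) a]
    set S : Set ℝ := {T : ℝ | δ ≤ |T - kk ω| ∧ δ ≤ |T + kk ω| ∧ |T| ≤ 1 / δ} with hS
    have hSm : MeasurableSet S := by
      have c1 : IsClosed {T : ℝ | δ ≤ |T - kk ω|} := isClosed_le continuous_const (by fun_prop)
      have c2 : IsClosed {T : ℝ | δ ≤ |T + kk ω|} := isClosed_le continuous_const (by fun_prop)
      have c3 : IsClosed {T : ℝ | |T| ≤ 1 / δ} := isClosed_le (by fun_prop) continuous_const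
      exact (c1.inter (c2.inter c3)).measurableSet
    have hbad := (A4_bad (kk ω) δ hδ (fun T => (A4_X ω g h (Real.pi / 2 - Real.arctan T)).re)
      (hXrm.comp (measurable_const.sub Real.measurable_arctan)) C0 (fun T => hXrb _) S hS).2
    have hYY : ‖∫ T in S, YY ω g h T / |T + kk ω|‖ < δ := by
      by_contra hcon
      push Not at hcon
      obtain ⟨ζ, hζ⟩ := hA δ hδ hδ2 g h hg hh bg bh sg sh S hSm (fun T hT => hT) hcon
      exact absurd (hsmall ζ) (not_lt.2 hζ)
    have e1 : (((∫ T in S, (A4_X ω g h (Real.pi / 2 - Real.arctan T)).re * (1 + T ^ 2)⁻¹ : ℝ)) : ℂ)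
        = |ω.im| * ∫ T in S, YY ω g h T / |T + kk ω| := by
      refine (integral_ofReal (𝕜 := ℂ)).symm.trans ?_
      rw [← integral_const_mul]
      apply setIntegral_congr_fun hSm
      intro T hT
      have hTk : T + kk ω ≠ 0 := by
        intro h
        have := hT.2.1
        rw [h, abs_zero] at this
        linarith
      have hTk' : ((|T + kk ω| : ℝ) : ℂ) ≠ 0 := by
        rw [Ne, ofReal_eq_zero, abs_eq_zero]; exact hTk
      have hT1 : ((1 + T ^ 2 : ℝ) : ℂ) ≠ 0 := by
        rw [Ne, ofReal_eq_zero]; positivity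
      have e2 : (((A4_X ω g h (Real.pi / 2 - Real.arctan T)).re * (1 + T ^ 2)⁻¹ : ℝ) : ℂ)
          = A4_X ω g h (Real.pi / 2 - Real.arctan T) * ((1 + T ^ 2 : ℝ) : ℂ)⁻¹ := by
        rw [ofReal_mul, hXreal, ofReal_inv]
      refine Eq.trans e2 ?_
      rw [A4_XY ω h0 g h T hTk]
      rw [ofReal_div, ofReal_mul]
      field_simp
    have e3 : (∫ T in S, (A4_X ω g h (Real.pi / 2 - Real.arctan T)).re * (1 + T ^ 2)⁻¹) ≤ |ω.im| * δ := by
      have h2 : ‖(((∫ T in S, (A4_X ω g h (Real.pi / 2 - Real.arctan T)).re * (1 + T ^ 2)⁻¹ : ℝ)) : ℂ)‖ ≤ |ω.im| * δ := by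
        rw [e1, norm_mul, norm_real, Real.norm_eq_abs, abs_abs]
        exact mul_le_mul_of_nonneg_left hYY.le habs
      rw [norm_real] at h2
      exact (le_abs_self _).trans h2
    have hδC : 0 ≤ C0 * (2 * Real.pi) * δ := by positivity
    nlinarith


/-! ### coordinates in the plane -/

noncomputable def A4_P (ω : ℂ) (θ : ℝ) (y : ℂ) : ℝ := (y * conj (U θ)).re - kk ω * (y * conj (U θ)).im
noncomputable def A4_Q (ω : ℂ) (θ : ℝ) (y : ℂ) : ℝ := (y * conj (U θ)).im / ω.im

theorem A4_coord (ω : ℂ) (h0 : ω.im ≠ 0) (θ : ℝ) (g : ℂ → ℂ) :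
    ∫ z : ℝ × ℝ, g (((z.1 : ℂ) + z.2 * ω) * U θ) = (|ω.im|⁻¹ : ℝ) * ∫ y : ℂ, g y := by
  have e1 : ∫ y : ℂ, g y = ∫ w : ℝ × ℝ, g (w.1 + w.2 * I) := by
    rw [← Complex.volume_preserving_equiv_real_prod.symm.integral_comp'
      (g := g)]
    congr 1
    funext w
    congr 1
    apply Complex.ext <;> simp [Complex.measurableEquivRealProd]
  have hs := Real.sin_sq_add_cos_sq θ
  have hdet : Real.cos θ * (ω.re * Real.sin θ + ω.im * Real.cos θ)
      - (ω.re * Real.cos θ - ω.im * Real.sin θ) * Real.sin θ = ω.im := by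
    linear_combination ω.im * hs
  have e2 := A4_lin (Real.cos θ) (ω.re * Real.cos θ - ω.im * Real.sin θ) (Real.sin θ)
    (ω.re * Real.sin θ + ω.im * Real.cos θ) (by rw [hdet]; exact h0) (fun w => g (w.1 + w.2 * I))
  rw [hdet] at e2
  rw [e1, ← abs_inv, ← e2]
  congr 1
  funext z
  congr 1
  apply Complex.ext
  · simp only [mul_re, add_re, mul_im, add_im, ofReal_re, ofReal_im, U_re, U_im, I_re, I_im]
    ring
  · simp only [mul_re, add_re, mul_im, add_im, ofReal_re, ofReal_im, U_re, U_im, I_re, I_im]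
    ring

theorem A4_P_eq (ω : ℂ) (h0 : ω.im ≠ 0) (θ θ' p q : ℝ) :
    A4_P ω θ (((p : ℂ) + q * ω) * U θ') = (Real.cos (θ' - θ) - kk ω * Real.sin (θ' - θ)) * p
      + -(normSq ω * Real.sin (θ' - θ) / ω.im) * q := by
  have : ((p : ℂ) + q * ω) * U θ' * conj (U θ) = ((p : ℂ) + q * ω) * U (θ' - θ) := by
    rw [conj_U, mul_assoc, ← U_add, sub_eq_add_neg]
  unfold A4_P
  rw [this]
  simp only [mul_re, add_re, mul_im, add_im, ofReal_re, ofReal_im, U_re, U_im, kk, normSq_apply]
  field_simp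
  ring

theorem A4_Q_eq (ω : ℂ) (h0 : ω.im ≠ 0) (θ θ' p q : ℝ) :
    A4_Q ω θ (((p : ℂ) + q * ω) * U θ') = Real.sin (θ' - θ) / ω.im * p
      + (Real.cos (θ' - θ) + kk ω * Real.sin (θ' - θ)) * q := by
  have : ((p : ℂ) + q * ω) * U θ' * conj (U θ) = ((p : ℂ) + q * ω) * U (θ' - θ) := by
    rw [conj_U, mul_assoc, ← U_add, sub_eq_add_neg]
  unfold A4_Q
  rw [this]
  simp only [mul_re, add_re, mul_im, add_im, ofReal_re, ofReal_im, U_re, U_im, kk]
  field_simp
  ring

theorem A4_PQ_self (ω : ℂ) (h0 : ω.im ≠ 0) (θ : ℝ) (y : ℂ) :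
    ((A4_P ω θ y : ℂ) + A4_Q ω θ y * ω) * U θ = y := by
  have h1 : ((A4_P ω θ y : ℂ) + A4_Q ω θ y * ω) = y * conj (U θ) := by
    apply Complex.ext
    · simp only [A4_P, A4_Q, add_re, mul_re, ofReal_re, ofReal_im, kk]
      field_simp
      ring
    · simp only [A4_P, A4_Q, add_im, mul_im, ofReal_re, ofReal_im]
      field_simp
      ring
  rw [h1, mul_assoc, conj_mul_U, mul_one]

theorem A4_Jb (ω : ℂ) (h0 : ω.im ≠ 0) (R : ℝ) (hR : 0 ≤ R) (g h : ℝ → ℂ) (hg : Measurable g) (hh : Measurable h)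
    (bg : ∀ x, ‖g x‖ ≤ 1) (bh : ∀ x, ‖h x‖ ≤ 1) (sg : ∀ x, R < |x| → g x = 0) (sh : ∀ x, R < |x| → h x = 0)
    (θ1 θ2 : ℝ) (g1 h1 : ℝ → ℂ) (hg1 : Measurable g1) (hh1 : Measurable h1)
    (bg1 : ∀ x, ‖g1 x‖ ≤ 1) (bh1 : ∀ x, ‖h1 x‖ ≤ 1) (sg1 : ∀ x, R < |x| → g1 x = 0)
    (sh1 : ∀ x, R < |x| → h1 x = 0) (τ : ℝ) (hτ : 0 < τ) :
    ‖∫ y : ℂ, g1 (A4_P ω θ1 y) * h1 (A4_Q ω θ1 y) * conj (g (A4_P ω θ2 y) * h (A4_Q ω θ2 y))‖
      ≤ |ω.im| * ((2 * R + 8 * R ^ 2) * τ + (A4_X ω g h (θ1 - θ2)).re / τ ^ 3) := by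
  have e0 := A4_coord ω h0 θ1 (fun y => g1 (A4_P ω θ1 y) * h1 (A4_Q ω θ1 y)
    * conj (g (A4_P ω θ2 y) * h (A4_Q ω θ2 y)))
  have hb : 0 < |ω.im| := abs_pos.2 h0
  have e1 : ∫ y : ℂ, g1 (A4_P ω θ1 y) * h1 (A4_Q ω θ1 y) * conj (g (A4_P ω θ2 y) * h (A4_Q ω θ2 y))
      = (|ω.im| : ℝ) * ∫ z : ℝ × ℝ, g1 z.1 * h1 z.2 *
        conj (g ((Real.cos (θ1 - θ2) - kk ω * Real.sin (θ1 - θ2)) * z.1
            + -(normSq ω * Real.sin (θ1 - θ2) / ω.im) * z.2)
          * h (Real.sin (θ1 - θ2) / ω.im * z.1 + (Real.cos (θ1 - θ2) + kk ω * Real.sin (θ1 - θ2)) * z.2)) := by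
    simp only [A4_P_eq ω h0, A4_Q_eq ω h0] at e0
    simp only [sub_self, Real.cos_zero, Real.sin_zero, mul_zero, sub_zero, zero_div, neg_zero, zero_mul,
      add_zero, one_mul, zero_add] at e0
    rw [e0, ← mul_assoc, ← ofReal_mul, mul_inv_cancel₀ hb.ne', ofReal_one, one_mul]
  rw [e1, norm_mul, norm_real, Real.norm_eq_abs, abs_abs]
  apply mul_le_mul_of_nonneg_left _ hb.le
  have e2 := (A4_J ω h0 R hR g h hg hh bg bh sg sh (θ1 - θ2) (fun x => conj (g1 x)) (fun x => conj (h1 x))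
    (by fun_prop) (by fun_prop) (by simpa using bg1) (by simpa using bh1)
    (fun x hx => by simp [sg1 x hx]) (fun x hx => by simp [sh1 x hx])).2.2 τ hτ
  refine le_trans (le_of_eq ?_) e2
  rw [← norm_conj, ← integral_conj]
  congr 2
  funext z
  simp only [map_mul, conj_conj]

theorem A4_Pm (ω : ℂ) : Measurable (fun w : ℝ × ℂ => A4_P ω w.1 w.2) := by
  have : Continuous (fun w : ℝ × ℂ => w.2 * conj (U w.1)) := by
    have := continuous_U
    fun_prop
  have h1 := continuous_re.comp this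
  have h2 := continuous_im.comp this
  exact (h1.sub (continuous_const.mul h2)).measurable

theorem A4_Qm (ω : ℂ) : Measurable (fun w : ℝ × ℂ => A4_Q ω w.1 w.2) := by
  have : Continuous (fun w : ℝ × ℂ => w.2 * conj (U w.1)) := by
    have := continuous_U
    fun_prop
  have h2 := continuous_im.comp this
  exact (h2.div_const _).measurable


theorem A4_Phi {Ω : Type*} [MeasurableSpace Ω] (μ : Measure Ω) [IsFiniteMeasure μ] (F : Ω → ℂ → ℂ)
    (hF : Measurable (fun w : Ω × ℂ => F w.1 w.2)) (bF : ∀ o y, ‖F o y‖ ≤ 1) (R2 : ℝ)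
    (sF : ∀ o y, R2 < ‖y‖ → F o y = 0) (R : ℝ) (f : ℂ → ℂ) (hf : BF R f) (Bd : Ω → ℝ)
    (hBd : Integrable Bd μ)
    (hJ : ∀ o2, ‖∫ o1, (∫ y : ℂ, F o1 y * conj (F o2 y)) ∂μ‖ ≤ Bd o2) (τ : ℝ) (hτ : 0 < τ) :
    ‖∫ o, (∫ y : ℂ, f y * F o y) ∂μ‖ ≤ volume.real (Metric.closedBall (0 : ℂ) R) * τ + (∫ o, Bd o ∂μ) / τ := by
  have hball : (volume (Metric.closedBall (0 : ℂ) R)) ≠ ⊤ := measure_closedBall_lt_top.ne
  have hball2 : (volume (Metric.closedBall (0 : ℂ) R2)) ≠ ⊤ := measure_closedBall_lt_top.ne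
  have hsw : Measurable (fun w : ℂ × Ω => F w.2 w.1) := hF.comp measurable_swap
  set Φ : ℂ → ℂ := fun y => ∫ o, F o y ∂μ with hΦ
  have hΦm : Measurable Φ := (hsw.stronglyMeasurable.integral_prod_right' (ν := μ)).measurable
  have hΦb : ∀ y, ‖Φ y‖ ≤ μ.real univ := by
    intro y
    have := norm_integral_le_of_norm_le_const (μ := μ) (f := fun o => F o y) (C := 1)
      (Filter.Eventually.of_forall fun o => bF o y)
    simpa using this
  have hΦs : ∀ y, R2 < ‖y‖ → Φ y = 0 := by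
    intro y hy
    have : ∀ o, F o y = 0 := fun o => sF o y hy
    simp [hΦ, this]
  -- step 1: Fubini
  have hfF : Integrable (fun w : Ω × ℂ => f w.2 * F w.1 w.2) (μ.prod volume) := by
    refine A4_int (((hf.meas.comp measurable_snd).mul hF).aestronglyMeasurable) (B := 1) ?_
      (s := univ ×ˢ Metric.closedBall (0 : ℂ) R) ?_ ?_
    · intro w
      rw [norm_mul]
      exact mul_le_one₀ (hf.le _) (norm_nonneg _) (bF _ _)
    · rw [Measure.prod_prod]
      exact ENNReal.mul_ne_top (measure_ne_top _ _) hball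
    · rintro ⟨o, y⟩ hw
      simp only [mem_prod, mem_univ, true_and, Metric.mem_closedBall, dist_zero_right, not_le] at hw
      simp [hf.supp y hw]
  have e1 : ∫ o, (∫ y : ℂ, f y * F o y) ∂μ = ∫ y : ℂ, f y * Φ y := by
    rw [integral_integral_swap (f := fun o y => f y * F o y) hfF]
    congr 1
    funext y
    rw [integral_const_mul]
  rw [e1]
  have hΦi : Integrable (fun y => ‖Φ y‖ ^ 2) := by
    refine A4_intR ((hΦm.norm.pow_const 2).aestronglyMeasurable) (B := (μ.real univ) ^ 2) ?_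
      (s := Metric.closedBall (0 : ℂ) R2) hball2 ?_
    · intro y
      rw [Real.norm_eq_abs, abs_of_nonneg (by positivity)]
      exact pow_le_pow_left₀ (norm_nonneg _) (hΦb _) 2
    · intro y hy
      simp only [Metric.mem_closedBall, dist_zero_right, not_le] at hy
      simp [hΦs y hy]
  have i1 : Integrable ((Metric.closedBall (0 : ℂ) R).indicator (fun _ => τ)) := by
    rw [integrable_indicator_iff Metric.isClosed_closedBall.measurableSet]
    exact integrableOn_const hball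
  have v1 : ∫ y : ℂ, (Metric.closedBall (0 : ℂ) R).indicator (fun _ => τ) y
      = volume.real (Metric.closedBall (0 : ℂ) R) * τ := by
    rw [integral_indicator Metric.isClosed_closedBall.measurableSet, setIntegral_const, smul_eq_mul]
  have e2 : ‖∫ y : ℂ, f y * Φ y‖ ≤ volume.real (Metric.closedBall (0 : ℂ) R) * τ + (∫ y : ℂ, ‖Φ y‖ ^ 2) / τ := by
    calc ‖∫ y : ℂ, f y * Φ y‖ ≤ ∫ y : ℂ, ‖f y * Φ y‖ := norm_integral_le_integral_norm _
      _ ≤ ∫ y : ℂ, ((Metric.closedBall (0 : ℂ) R).indicator (fun _ => τ) y + ‖Φ y‖ ^ 2 / τ) := by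
          apply integral_mono_of_nonneg (Filter.Eventually.of_forall fun q => norm_nonneg _)
            (i1.add (hΦi.div_const τ))
          refine Filter.Eventually.of_forall fun y => ?_
          simp only [Pi.add_apply]
          by_cases hy : y ∈ Metric.closedBall (0 : ℂ) R
          · rw [indicator_of_mem hy, norm_mul]
            calc ‖f y‖ * ‖Φ y‖ ≤ 1 * ‖Φ y‖ := mul_le_mul_of_nonneg_right (hf.le y) (norm_nonneg _)
              _ ≤ _ := by rw [one_mul]; exact A4_amgm _ _ hτ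
          · rw [indicator_of_notMem hy]
            simp only [Metric.mem_closedBall, dist_zero_right, not_le] at hy
            rw [hf.supp y hy, zero_mul, norm_zero]
            positivity
      _ = _ := by
          rw [integral_add i1 (hΦi.div_const τ), v1, integral_div]
  refine e2.trans ?_
  apply add_le_add le_rfl
  apply div_le_div_of_nonneg_right _ hτ.le
  -- step 2
  have e3 : (((∫ y : ℂ, ‖Φ y‖ ^ 2 : ℝ)) : ℂ) = ∫ o2, (∫ o1, (∫ y : ℂ, F o1 y * conj (F o2 y)) ∂μ) ∂μ := by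
    have a1 : (((∫ y : ℂ, ‖Φ y‖ ^ 2 : ℝ)) : ℂ) = ∫ y : ℂ, ∫ o2, Φ y * conj (F o2 y) ∂μ := by
      refine (integral_ofReal (𝕜 := ℂ)).symm.trans ?_
      congr 1
      funext y
      rw [integral_const_mul, integral_conj]
      rw [mul_conj, normSq_eq_norm_sq]
      rfl
    rw [a1]
    have hi1 : Integrable (fun w : ℂ × Ω => Φ w.1 * conj (F w.2 w.1)) (volume.prod μ) := by
      refine A4_int (((hΦm.comp measurable_fst).mul (continuous_conj.measurable.comp hsw)).aestronglyMeasurable)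
        (B := μ.real univ * 1) ?_ (s := Metric.closedBall (0 : ℂ) R2 ×ˢ univ) ?_ ?_
      · intro w
        rw [norm_mul]
        refine mul_le_mul (hΦb _) ?_ (norm_nonneg _) measureReal_nonneg
        rw [norm_conj]; exact bF _ _
      · rw [Measure.prod_prod]
        exact ENNReal.mul_ne_top hball2 (measure_ne_top _ _)
      · rintro ⟨y, o⟩ hw
        simp only [mem_prod, mem_univ, and_true, Metric.mem_closedBall, dist_zero_right, not_le] at hw
        simp [hΦs y hw]
    rw [integral_integral_swap (f := fun y o2 => Φ y * conj (F o2 y)) hi1]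
    congr 1
    funext o2
    have hi2 : Integrable (fun w : ℂ × Ω => F w.2 w.1 * conj (F o2 w.1)) (volume.prod μ) := by
      have hm2 : Measurable (fun w : ℂ × Ω => F o2 w.1) :=
        hF.comp (measurable_const.prodMk measurable_fst)
      refine A4_int ((hsw.mul (continuous_conj.measurable.comp hm2)).aestronglyMeasurable)
        (B := 1) ?_ (s := Metric.closedBall (0 : ℂ) R2 ×ˢ univ) ?_ ?_
      · intro w
        rw [norm_mul, norm_conj]
        exact mul_le_one₀ (bF _ _) (norm_nonneg _) (bF _ _)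
      · rw [Measure.prod_prod]
        exact ENNReal.mul_ne_top hball2 (measure_ne_top _ _)
      · rintro ⟨y, o⟩ hw
        simp only [mem_prod, mem_univ, and_true, Metric.mem_closedBall, dist_zero_right, not_le] at hw
        simp [sF o y hw]
    rw [← integral_integral_swap (f := fun y o1 => F o1 y * conj (F o2 y)) hi2]
    congr 1
    funext y
    rw [integral_mul_const]
  have e4 : (∫ y : ℂ, ‖Φ y‖ ^ 2) = ‖(((∫ y : ℂ, ‖Φ y‖ ^ 2 : ℝ)) : ℂ)‖ := by
    rw [norm_real, Real.norm_eq_abs, abs_of_nonneg (integral_nonneg fun y => by positivity)]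
  rw [e4, e3]
  refine (norm_integral_le_integral_norm _).trans ?_
  exact integral_mono_of_nonneg (Filter.Eventually.of_forall fun q => norm_nonneg _) hBd
    (Filter.Eventually.of_forall hJ)

/-- the choice of parameters -/
theorem A4_fin (C : ℝ) (hC : 1 ≤ C) (n : ℕ) (hn : 1 ≤ n) : ∃ n' : ℕ, 1 ≤ n' ∧ ∀ ε : ℝ, 0 < ε → ε ≤ 1 / 2 →
    ∃ τ1 τ δ : ℝ, 0 < τ1 ∧ 0 < τ ∧ 0 < δ ∧ δ ≤ 1 / 2 ∧ δ ^ n = ε ^ n' ∧
    ∀ m : ℝ, 0 ≤ m → ε ≤ C * (τ1 + τ / τ1 + δ / (τ ^ 3 * τ1) + m / (τ ^ 3 * τ1)) → ε ^ n' ≤ m := by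
  obtain ⟨N, hN⟩ := pow_unbounded_of_one_lt (4 * C) (one_lt_two)
  refine ⟨(8 * N + 8) * n, by nlinarith, ?_⟩
  intro ε hε hε2
  have hεN : C * ε ^ N ≤ 1 / 4 := by
    have h1 : ε ^ N ≤ (1 / 2) ^ N := pow_le_pow_left₀ hε.le hε2 N
    have h2 : (0:ℝ) < 2 ^ N := by positivity
    have h3 : ((1:ℝ) / 2) ^ N = 1 / 2 ^ N := by rw [div_pow, one_pow]
    rw [h3] at h1
    have h4 : C * (1 / 2 ^ N) ≤ 1 / 4 := by
      rw [mul_one_div, div_le_div_iff₀ h2 (by norm_num)]
      linarith
    exact (mul_le_mul_of_nonneg_left h1 (by linarith)).trans h4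
  refine ⟨ε ^ (N + 1), ε ^ (2 * N + 2), ε ^ (8 * N + 8), by positivity, by positivity, by positivity, ?_, ?_, ?_⟩
  · calc ε ^ (8 * N + 8) ≤ ε ^ 1 := pow_le_pow_of_le_one hε.le (by linarith) (by omega)
      _ ≤ 1 / 2 := by rw [pow_one]; exact hε2
  · rw [← pow_mul]
  · intro m hm h
    have e1 : ε ^ (2 * N + 2) / ε ^ (N + 1) = ε ^ (N + 1) := by
      rw [div_eq_iff (by positivity), ← pow_add]; congr 1; ring
    have e2 : (ε ^ (2 * N + 2)) ^ 3 * ε ^ (N + 1) = ε ^ (7 * N + 7) := by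
      rw [← pow_mul, ← pow_add]; congr 1; ring
    have e3 : ε ^ (8 * N + 8) / ε ^ (7 * N + 7) = ε ^ (N + 1) := by
      rw [div_eq_iff (by positivity), ← pow_add]; congr 1; ring
    rw [e2, e1, e3] at h
    have e4 : C * ε ^ (N + 1) ≤ ε / 4 := by
      rw [pow_succ]
      nlinarith
    have e5 : ε / 4 ≤ C * (m / ε ^ (7 * N + 7)) := by nlinarith
    have h7 : 0 < ε ^ (7 * N + 7) := by positivity
    have e6 : ε / 4 * ε ^ (7 * N + 7) ≤ C * m := by
      rw [← mul_div_assoc, le_div_iff₀ h7] at e5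
      exact e5
    have e7 : ε ^ (8 * N + 8) ≤ m := by
      have e8 : ε ^ (8 * N + 8) = ε ^ N * (ε * ε ^ (7 * N + 7)) := by
        rw [← pow_succ', ← pow_add]; congr 1; ring
      have hp : 0 < ε * ε ^ (7 * N + 7) := by positivity
      have hCC : 0 < C := by linarith
      have e9 : C * ε ^ (8 * N + 8) ≤ C * m := by
        rw [e8]
        calc C * (ε ^ N * (ε * ε ^ (7 * N + 7))) = (C * ε ^ N) * (ε * ε ^ (7 * N + 7)) := by ring
          _ ≤ 1 / 4 * (ε * ε ^ (7 * N + 7)) := mul_le_mul_of_nonneg_right hεN hp.le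
          _ ≤ C * m := by linarith
      exact le_of_mul_le_mul_left e9 hCC
    refine le_trans ?_ e7
    exact pow_le_pow_of_le_one hε.le (by linarith) (by nlinarith)


theorem Gclaim (ω : ℂ) (h0 : ω.im ≠ 0) (h1 : ω.re ≠ 0) (R K : ℝ) : ∃ n : ℕ, 1 ≤ n ∧
    ∀ ε : ℝ, 0 < ε → ε ≤ 1 / 2 → ∀ (E : Type) (_ : MeasurableSpace E) (ν : Measure E) (_ : IsFiniteMeasure ν),
    ν.real univ ≤ K → ∀ f : ℂ → ℂ, BF R f → ∀ G H : ℝ → E → ℝ → ℂ,
    Measurable (fun z : ℝ × E × ℝ => G z.1 z.2.1 z.2.2) → Measurable (fun z : ℝ × E × ℝ => H z.1 z.2.1 z.2.2) →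
    (∀ θ e p, ‖G θ e p‖ ≤ 1) → (∀ θ e p, ‖H θ e p‖ ≤ 1) →
    (∀ θ e p, R < |p| → G θ e p = 0) → (∀ θ e p, R < |p| → H θ e p = 0) →
    ∀ s : ℝ × E → ℝ, Measurable s → (∀ θ e ζ, ‖FT1 (G θ e) ζ‖ ≤ s (θ, e)) →
    ε ≤ ‖LI ω ν f G H‖ →
    ε ^ n ≤ ((volume.restrict (Icc 0 (2 * Real.pi))).prod ν).real {z : ℝ × E | ε ^ n ≤ s z} := by
  set R' := max R 0 with hR'
  have hR0 : 0 ≤ R' := le_max_right _ _
  have hRR : R ≤ R' := le_max_left _ _
  obtain ⟨n, hn, C, hC, hY⟩ := A4_Y ω h0 h1 R' hR0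
  have hpi := Real.pi_pos
  set K' := max K 0 with hK'
  have hK0 : 0 ≤ K' := le_max_right _ _
  have hb : 0 < |ω.im| := abs_pos.2 h0
  set V := volume.real (Metric.closedBall (0 : ℂ) R') with hV
  have hV0 : 0 ≤ V := measureReal_nonneg
  set M := 2 * Real.pi * K' with hM
  have hM0 : 0 ≤ M := by positivity
  set C' := 1 + |ω.im|⁻¹ * V + (2 * R' + 8 * R' ^ 2) * M * M + K' * C * M + K' * C with hC'
  have hC0 : 0 ≤ C := by linarith
  have t1 : 0 ≤ |ω.im|⁻¹ * V := by positivity
  have t2 : 0 ≤ (2 * R' + 8 * R' ^ 2) * M * M := by positivity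
  have t3 : 0 ≤ K' * C * M := by positivity
  have t4 : 0 ≤ K' * C := by positivity
  have hC'1 : 1 ≤ C' := by linarith
  obtain ⟨n', hn', hfin⟩ := A4_fin C' hC'1 n hn
  refine ⟨n', hn', ?_⟩
  intro ε hε hε2 E _ ν _ hν f hf G H hG hH bG bH sG sH s hs hsb hLI
  obtain ⟨τ1, τ, δ, hτ1, hτ, hδ, hδ2, hδn, hmain⟩ := hfin ε hε hε2
  set μ : Measure (ℝ × E) := (volume.restrict (Icc 0 (2 * Real.pi))).prod ν with hμ
  have hνK : ν.real univ ≤ K' := hν.trans (le_max_left _ _)
  have hνn : 0 ≤ ν.real univ := measureReal_nonneg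
  have hμu : μ.real univ = 2 * Real.pi * ν.real univ := by
    rw [hμ, ← univ_prod_univ, measureReal_prod_prod]
    congr 1
    rw [measureReal_restrict_apply MeasurableSet.univ, univ_inter, Measure.real, Real.volume_Icc,
      ENNReal.toReal_ofReal (by linarith), sub_zero]
  have hμM : μ.real univ ≤ M := by
    rw [hμu, hM]; exact mul_le_mul_of_nonneg_left hνK (by linarith)
  have hμn : 0 ≤ μ.real univ := measureReal_nonneg
  have hf' : BF R' f := ⟨hf.meas, hf.le, fun x hx => hf.supp x (hRR.trans_lt hx)⟩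
  have sG' : ∀ θ e p, R' < |p| → G θ e p = 0 := fun θ e p hp => sG θ e p (hRR.trans_lt hp)
  have sH' : ∀ θ e p, R' < |p| → H θ e p = 0 := fun θ e p hp => sH θ e p (hRR.trans_lt hp)
  have mG : ∀ θ e, Measurable (G θ e) := fun θ e =>
    hG.comp (measurable_const.prodMk (measurable_const.prodMk measurable_id))
  have mH : ∀ θ e, Measurable (H θ e) := fun θ e =>
    hH.comp (measurable_const.prodMk (measurable_const.prodMk measurable_id))
  set F : ℝ × E → ℂ → ℂ := fun o y => G o.1 o.2 (A4_P ω o.1 y) * H o.1 o.2 (A4_Q ω o.1 y) with hF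
  have hFm : Measurable (fun w : (ℝ × E) × ℂ => F w.1 w.2) := by
    have hP : Measurable (fun w : (ℝ × E) × ℂ => A4_P ω w.1.1 w.2) :=
      (A4_Pm ω).comp ((measurable_fst.comp measurable_fst).prodMk measurable_snd)
    have hQ : Measurable (fun w : (ℝ × E) × ℂ => A4_Q ω w.1.1 w.2) :=
      (A4_Qm ω).comp ((measurable_fst.comp measurable_fst).prodMk measurable_snd)
    have m1 : Measurable (fun w : (ℝ × E) × ℂ => (w.1.1, w.1.2, A4_P ω w.1.1 w.2)) :=
      (measurable_fst.comp measurable_fst).prodMk ((measurable_snd.comp measurable_fst).prodMk hP)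
    have m2 : Measurable (fun w : (ℝ × E) × ℂ => (w.1.1, w.1.2, A4_Q ω w.1.1 w.2)) :=
      (measurable_fst.comp measurable_fst).prodMk ((measurable_snd.comp measurable_fst).prodMk hQ)
    have m3 := hG.comp m1
    have m4 := hH.comp m2
    exact m3.mul m4
  have hFb : ∀ o y, ‖F o y‖ ≤ 1 := fun o y => by
    rw [hF]; simp only [norm_mul]; exact mul_le_one₀ (bG _ _ _) (norm_nonneg _) (bH _ _ _)
  have hFs : ∀ o y, R' * (1 + ‖ω‖) < ‖y‖ → F o y = 0 := by
    intro o y hy
    by_cases hp : R' < |A4_P ω o.1 y|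
    · simp only [hF, sG' _ _ _ hp, zero_mul]
    by_cases hq : R' < |A4_Q ω o.1 y|
    · simp only [hF, sH' _ _ _ hq, mul_zero]
    exfalso
    push Not at hp hq
    have h3 := A4_PQ_self ω h0 o.1 y
    have h4 : ‖y‖ ≤ R' + R' * ‖ω‖ := by
      rw [← h3, norm_mul, norm_U, mul_one]
      refine (norm_add_le _ _).trans ?_
      rw [norm_mul, norm_real, norm_real, Real.norm_eq_abs, Real.norm_eq_abs]
      exact add_le_add hp (mul_le_mul_of_nonneg_right hq (norm_nonneg _))
    linarith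
  -- the form in the new coordinates
  have hin : ∀ θ e, (∫ p : ℝ, ∫ q : ℝ, f (((p : ℂ) + q * ω) * U θ) * G θ e p * H θ e q)
      = (|ω.im|⁻¹ : ℝ) * ∫ y : ℂ, f y * F (θ, e) y := by
    intro θ e
    rw [← A4_coord ω h0 θ (fun y => f y * F (θ, e) y)]
    have hi : Integrable (fun z : ℝ × ℝ => f (((z.1 : ℂ) + z.2 * ω) * U θ) * G θ e z.1 * H θ e z.2)
        (volume.prod volume) := by
      have mf : Measurable (fun z : ℝ × ℝ => f (((z.1 : ℂ) + z.2 * ω) * U θ)) := by
        apply hf.meas.comp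
        fun_prop
      have mg : Measurable (fun z : ℝ × ℝ => G θ e z.1) := (mG θ e).comp measurable_fst
      have mh : Measurable (fun z : ℝ × ℝ => H θ e z.2) := (mH θ e).comp measurable_snd
      refine A4_boxInt _ ((mf.mul mg).mul mh) 1 ?_ R' ?_ ?_
      · intro z
        rw [norm_mul, norm_mul]
        exact mul_le_one₀ (mul_le_one₀ (hf.le _) (norm_nonneg _) (bG _ _ _)) (norm_nonneg _) (bH _ _ _)
      · intro z hz; rw [sG' _ _ _ hz, mul_zero, zero_mul]
      · intro z hz; rw [sH' _ _ _ hz, mul_zero]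
    have e1 := integral_prod _ hi
    simp only at e1
    rw [← e1, ← Measure.volume_eq_prod]
    congr 1
    funext z
    simp only [hF, A4_P_eq ω h0, A4_Q_eq ω h0]
    simp only [sub_self, Real.cos_zero, Real.sin_zero, mul_zero, sub_zero, zero_div, neg_zero, zero_mul,
      add_zero, one_mul, zero_add]
    ring
  have hLI2 : LI ω ν f G H = (|ω.im|⁻¹ : ℝ) * ∫ o, (∫ y : ℂ, f y * F o y) ∂μ := by
    unfold LI
    simp only [hin]
    rw [intervalIntegral.integral_of_le (by positivity), ← integral_Icc_eq_integral_Ioc]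
    have hfF : Integrable (fun w : (ℝ × E) × ℂ => f w.2 * F w.1 w.2) (μ.prod volume) := by
      refine A4_int (((hf.meas.comp measurable_snd).mul hFm).aestronglyMeasurable) (B := 1) ?_
        (s := univ ×ˢ Metric.closedBall (0 : ℂ) R') ?_ ?_
      · intro w
        rw [norm_mul]
        exact mul_le_one₀ (hf.le _) (norm_nonneg _) (hFb _ _)
      · rw [Measure.prod_prod]
        exact ENNReal.mul_ne_top (measure_ne_top _ _) measure_closedBall_lt_top.ne
      · rintro ⟨o, y⟩ hw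
        simp only [mem_prod, mem_univ, true_and, Metric.mem_closedBall, dist_zero_right, not_le] at hw
        simp [hf'.supp y hw]
    have hi := hfF.integral_prod_left
    rw [hμ, integral_prod _ hi, ← integral_const_mul]
    congr 1
    funext θ
    rw [← integral_const_mul]
  -- bound for fixed second variable
  set D : Set (ℝ × E) := {z : ℝ × E | ε ^ n' ≤ s z} with hD
  have hDm : MeasurableSet D := measurableSet_le measurable_const hs
  set Bd : ℝ × E → ℝ := fun o => |ω.im| * ((2 * R' + 8 * R' ^ 2) * τ * μ.real univ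
    + ν.real univ * (C * δ + D.indicator (fun _ => C) o) / τ ^ 3) with hBd
  have hBdi : Integrable Bd μ := by
    have : Integrable (D.indicator (fun _ => C)) μ := (integrable_const C).indicator hDm
    exact (((integrable_const _).add (((integrable_const _).add this).const_mul _ |>.div_const _)).const_mul _)
  have hBdv : ∫ o, Bd o ∂μ = |ω.im| * ((2 * R' + 8 * R' ^ 2) * τ * μ.real univ * μ.real univ
    + ν.real univ * (C * δ * μ.real univ + C * μ.real D) / τ ^ 3) := by
    have i1 : Integrable (D.indicator (fun _ => C)) μ := (integrable_const C).indicator hDm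
    have v1 : ∫ o, D.indicator (fun _ => C) o ∂μ = C * μ.real D := by
      rw [integral_indicator hDm, setIntegral_const, smul_eq_mul, mul_comm]
    have i2 : Integrable (fun o => C * δ + D.indicator (fun _ => C) o) μ := (integrable_const _).add i1
    have i3 : Integrable (fun o => ν.real univ * (C * δ + D.indicator (fun _ => C) o) / τ ^ 3) μ :=
      (i2.const_mul _).div_const _
    have v2 : ∫ o, (C * δ + D.indicator (fun _ => C) o) ∂μ = μ.real univ * (C * δ) + C * μ.real D := by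
      have := integral_add (μ := μ) (integrable_const (C * δ)) i1
      rw [v1, integral_const, smul_eq_mul] at this
      exact this
    have v3 : ∫ o, ((2 * R' + 8 * R' ^ 2) * τ * μ.real univ
        + ν.real univ * (C * δ + D.indicator (fun _ => C) o) / τ ^ 3) ∂μ
        = μ.real univ * ((2 * R' + 8 * R' ^ 2) * τ * μ.real univ)
          + ν.real univ * (μ.real univ * (C * δ) + C * μ.real D) / τ ^ 3 := by
      have := integral_add (μ := μ) (integrable_const ((2 * R' + 8 * R' ^ 2) * τ * μ.real univ)) i3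
      rw [integral_div, integral_const_mul (ν.real univ), v2, integral_const, smul_eq_mul] at this
      exact this
    simp only [hBd]
    rw [integral_const_mul, v3]
    ring
  have hJ : ∀ o2, ‖∫ o1, (∫ y : ℂ, F o1 y * conj (F o2 y)) ∂μ‖ ≤ Bd o2 := by
    rintro ⟨θ2, e2⟩
    obtain ⟨y1, y2⟩ := hY (G θ2 e2) (H θ2 e2) (mG _ _) (mH _ _) (bG _ _) (bH _ _) (sG' _ _) (sH' _ _) θ2
    set Y := ∫ θ in Icc 0 (2 * Real.pi), (A4_X ω (G θ2 e2) (H θ2 e2) (θ - θ2)).re with hYd
    have hYb : Y ≤ C * δ + D.indicator (fun _ => C) (θ2, e2) := by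
      have hCδ : 0 ≤ C * δ := by positivity
      by_cases hm : (θ2, e2) ∈ D
      · rw [indicator_of_mem hm]; linarith
      · rw [indicator_of_notMem hm, add_zero]
        apply y2 δ hδ hδ2
        intro ζ
        rw [hδn]
        refine lt_of_le_of_lt (hsb θ2 e2 ζ) ?_
        by_contra hcon
        push Not at hcon
        exact hm hcon
    have hXb : ∀ φ, |(A4_X ω (G θ2 e2) (H θ2 e2) φ).re| ≤ ((2 * R') * (2 * R') * (2 * (2 * R' * (1 + ‖ω‖) / ‖ω‖)))
        * (2 * (2 * R' * (1 + ‖ω‖))) := fun φ =>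
      (abs_re_le_norm _).trans (A4_Xb ω h0 R' hR0 _ _ (bG _ _) (bH _ _) (sG' _ _) (sH' _ _) φ)
    have hXm : Measurable (fun o1 : ℝ × E => (A4_X ω (G θ2 e2) (H θ2 e2) (o1.1 - θ2)).re) :=
      (measurable_re.comp (A4_Xm ω _ _ (mG _ _) (mH _ _))).comp (measurable_fst.sub_const θ2)
    have hXi : Integrable (fun o1 : ℝ × E => (A4_X ω (G θ2 e2) (H θ2 e2) (o1.1 - θ2)).re) μ := by
      refine A4_intR hXm.aestronglyMeasurable (fun x => hXb _) (s := univ) (measure_ne_top _ _) ?_
      intro x hx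
      exact absurd (mem_univ x) hx
    have hXv : ∫ o1 : ℝ × E, (A4_X ω (G θ2 e2) (H θ2 e2) (o1.1 - θ2)).re ∂μ = ν.real univ * Y := by
      rw [hμ, integral_fun_fst (f := fun θ => (A4_X ω (G θ2 e2) (H θ2 e2) (θ - θ2)).re), smul_eq_mul]
    calc ‖∫ o1, (∫ y : ℂ, F o1 y * conj (F (θ2, e2) y)) ∂μ‖
        ≤ ∫ o1, ‖∫ y : ℂ, F o1 y * conj (F (θ2, e2) y)‖ ∂μ := norm_integral_le_integral_norm _
      _ ≤ ∫ o1 : ℝ × E, |ω.im| * ((2 * R' + 8 * R' ^ 2) * τ
            + (A4_X ω (G θ2 e2) (H θ2 e2) (o1.1 - θ2)).re / τ ^ 3) ∂μ := by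
          apply integral_mono_of_nonneg (Filter.Eventually.of_forall fun q => norm_nonneg _)
            (((integrable_const _).add (hXi.div_const _)).const_mul _)
          refine Filter.Eventually.of_forall fun o1 => ?_
          exact A4_Jb ω h0 R' hR0 (G θ2 e2) (H θ2 e2) (mG _ _) (mH _ _) (bG _ _) (bH _ _) (sG' _ _) (sH' _ _)
            o1.1 θ2 (G o1.1 o1.2) (H o1.1 o1.2) (mG _ _) (mH _ _) (bG _ _) (bH _ _) (sG' _ _) (sH' _ _) τ hτ
      _ = |ω.im| * ((2 * R' + 8 * R' ^ 2) * τ * μ.real univ + ν.real univ * Y / τ ^ 3) := by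
          rw [integral_const_mul, integral_add (integrable_const _) (hXi.div_const _), integral_div, hXv,
            integral_const, smul_eq_mul]
          ring
      _ ≤ Bd (θ2, e2) := by
          simp only [hBd]
          gcongr
  have hPhi := A4_Phi μ F hFm hFb (R' * (1 + ‖ω‖)) hFs R' f hf' Bd hBdi hJ τ1 hτ1
  rw [hBdv] at hPhi
  apply hmain _ measureReal_nonneg
  refine hLI.trans ?_
  rw [hLI2, norm_mul, norm_real, Real.norm_eq_abs, abs_of_nonneg (by positivity)]
  have hDn : 0 ≤ μ.real D := measureReal_nonneg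
  set m := μ.real D with hm
  calc |ω.im|⁻¹ * ‖∫ o, (∫ y : ℂ, f y * F o y) ∂μ‖
      ≤ |ω.im|⁻¹ * (V * τ1 + |ω.im| * ((2 * R' + 8 * R' ^ 2) * τ * μ.real univ * μ.real univ
        + ν.real univ * (C * δ * μ.real univ + C * m) / τ ^ 3) / τ1) := by gcongr
    _ = |ω.im|⁻¹ * V * τ1 + (2 * R' + 8 * R' ^ 2) * μ.real univ * μ.real univ * (τ / τ1)
        + ν.real univ * C * μ.real univ * (δ / (τ ^ 3 * τ1)) + ν.real univ * C * (m / (τ ^ 3 * τ1)) := by
        field_simp
        ring
    _ ≤ |ω.im|⁻¹ * V * τ1 + (2 * R' + 8 * R' ^ 2) * M * M * (τ / τ1)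
        + K' * C * M * (δ / (τ ^ 3 * τ1)) + K' * C * (m / (τ ^ 3 * τ1)) := by gcongr
    _ ≤ C' * (τ1 + τ / τ1 + δ / (τ ^ 3 * τ1) + m / (τ ^ 3 * τ1)) := by
        have q1 : 0 ≤ τ / τ1 := by positivity
        have q2 : 0 ≤ δ / (τ ^ 3 * τ1) := by positivity
        have q3 : 0 ≤ m / (τ ^ 3 * τ1) := by positivity
        have r1 : |ω.im|⁻¹ * V * τ1 ≤ C' * τ1 := mul_le_mul_of_nonneg_right (by linarith) hτ1.le
        have r2 : (2 * R' + 8 * R' ^ 2) * M * M * (τ / τ1) ≤ C' * (τ / τ1) :=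
          mul_le_mul_of_nonneg_right (by linarith) q1
        have r3 : K' * C * M * (δ / (τ ^ 3 * τ1)) ≤ C' * (δ / (τ ^ 3 * τ1)) :=
          mul_le_mul_of_nonneg_right (by linarith) q2
        have r4 : K' * C * (m / (τ ^ 3 * τ1)) ≤ C' * (m / (τ ^ 3 * τ1)) :=
          mul_le_mul_of_nonneg_right (by linarith) q3
        linarith

end TriDil
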