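import Pool.Agent.TriDil.Basic7
import Pool.Agent.TriDil.A4
set_option autoImplicit false
open MeasureTheory Complex Set
namespace TriDil
open scoped ComplexConjugate

section abs
variable {Z : Type} [MeasurableSpace Z]

/-- kernels of the abstract bilinear form -/
structure A5K (r : ℝ) (g : Z → ℝ → ℝ → ℂ) : Prop where
  meas : Measurable (fun z : Z × ℝ × ℝ => g z.1 z.2.1 z.2.2)
  le : ∀ z p q, ‖g z p q‖ ≤ 1
  sp : ∀ z p q, r < |p| → g z p q = 0
  sq : ∀ z p q, r < |q| → g z p q = 0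

/-- arguments of the abstract bilinear form -/
structure A5F (G : Z → ℝ → ℂ) : Prop where
  meas : Measurable (fun z : Z × ℝ => G z.1 z.2)
  le : ∀ z p, ‖G z p‖ ≤ 1

/-- dual function -/
noncomputable def A5D (g : Z → ℝ → ℝ → ℂ) (H : Z → ℝ → ℂ) (z : Z) (p : ℝ) : ℂ := ∫ q, g z p q * H z q

/-- the abstract bilinear form -/
noncomputable def A5B (μ : Measure Z) (g : Z → ℝ → ℝ → ℂ) (G H : Z → ℝ → ℂ) : ℂ :=
  ∫ z, (∫ p, ∫ q, g z p q * G z p * H z q) ∂μ

theorem A5_indint (r c : ℝ) : Integrable ((Icc (-r) r).indicator (fun _ : ℝ => c)) := by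
  have : IntegrableOn (fun _ : ℝ => c) (Icc (-r) r) := integrableOn_const (hs := measure_Icc_lt_top.ne)
  exact this.integrable_indicator measurableSet_Icc

theorem A5_mem (r p : ℝ) : p ∈ Icc (-r) r ↔ |p| ≤ r := by rw [mem_Icc, abs_le]

theorem A5_le_ind {r c : ℝ} {h : ℝ → ℂ} (h1 : ∀ q, ‖h q‖ ≤ c) (h2 : ∀ q, r < |q| → h q = 0)
    (q : ℝ) : ‖h q‖ ≤ (Icc (-r) r).indicator (fun _ : ℝ => c) q := by
  by_cases hq : q ∈ Icc (-r) r
  · rw [indicator_of_mem hq]; exact h1 q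
  · rw [indicator_of_notMem hq, h2 q (by rw [A5_mem, not_le] at hq; exact hq), norm_zero]

theorem A5_bd {r c : ℝ} (hr : 0 ≤ r) {h : ℝ → ℂ} (h1 : ∀ q, ‖h q‖ ≤ c) (h2 : ∀ q, r < |q| → h q = 0) :
    ‖∫ q, h q‖ ≤ c * (2 * r) := by
  refine (norm_integral_le_of_norm_le (A5_indint r c)
    (Filter.Eventually.of_forall (A5_le_ind h1 h2))).trans (le_of_eq ?_)
  rw [integral_indicator measurableSet_Icc, integral_const, Measure.real,
    Measure.restrict_apply MeasurableSet.univ, univ_inter, Real.volume_Icc,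
    ENNReal.toReal_ofReal (by linarith), smul_eq_mul]
  ring

theorem A5D_meas {r : ℝ} {g : Z → ℝ → ℝ → ℂ} {H : Z → ℝ → ℂ} (hg : A5K r g) (hH : A5F H) :
    Measurable (fun z : Z × ℝ => A5D g H z.1 z.2) := by
  have h : Measurable (fun w : (Z × ℝ) × ℝ => g w.1.1 w.1.2 w.2 * H w.1.1 w.2) := by
    have h1 := hg.meas.comp (f := fun w : (Z × ℝ) × ℝ => (w.1.1, w.1.2, w.2)) (by fun_prop)
    have h2 := hH.meas.comp (f := fun w : (Z × ℝ) × ℝ => (w.1.1, w.2)) (by fun_prop)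
    exact h1.mul h2
  exact (h.stronglyMeasurable.integral_prod_right (ν := (volume : Measure ℝ))).measurable

theorem A5D_le {r : ℝ} (hr : 0 ≤ r) {g : Z → ℝ → ℝ → ℂ} {H : Z → ℝ → ℂ} (hg : A5K r g) (hH : A5F H)
    (z : Z) (p : ℝ) : ‖A5D g H z p‖ ≤ 2 * r := by
  have := A5_bd (r := r) (c := 1) hr (h := fun q => g z p q * H z q) (fun q => by
    rw [norm_mul]
    calc ‖g z p q‖ * ‖H z q‖ ≤ 1 * 1 := mul_le_mul (hg.le _ _ _) (hH.le _ _) (norm_nonneg _) zero_le_one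
      _ = 1 := one_mul _) (fun q hq => by rw [hg.sq _ _ _ hq, zero_mul])
  rw [one_mul] at this; exact this

theorem A5D_supp {r : ℝ} {g : Z → ℝ → ℝ → ℂ} {H : Z → ℝ → ℂ} (hg : A5K r g)
    (z : Z) (p : ℝ) (hp : r < |p|) : A5D g H z p = 0 := by
  unfold A5D
  simp only [hg.sp _ _ _ hp, zero_mul, integral_zero]

theorem A5B_eq (μ : Measure Z) (g : Z → ℝ → ℝ → ℂ) (G H : Z → ℝ → ℂ) :
    A5B μ g G H = ∫ z, (∫ p, A5D g H z p * G z p) ∂μ := by
  unfold A5B A5D
  congr 1; funext z; congr 1; funext p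
  rw [← integral_mul_const]
  congr 1; funext q; ring

theorem A5B_eq2 (μ : Measure Z) [IsFiniteMeasure μ] {r : ℝ} (hr : 0 ≤ r) {g : Z → ℝ → ℝ → ℂ} {G H : Z → ℝ → ℂ}
    (hg : A5K r g) (hG : A5F G) (hH : A5F H) :
    A5B μ g G H = ∫ w, A5D g H w.1 w.2 * G w.1 w.2 ∂(μ.prod (volume.restrict (Icc (-r) r))) := by
  rw [A5B_eq]
  rw [integral_prod]
  · congr 1; funext z
    symm
    apply setIntegral_eq_integral_of_forall_compl_eq_zero
    intro p hp
    rw [A5_mem, not_le] at hp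
    simp only
    rw [A5D_supp hg z p hp, zero_mul]
  · refine Integrable.of_bound ((A5D_meas hg hH).mul hG.meas).aestronglyMeasurable (2 * r)
      (Filter.Eventually.of_forall fun w => ?_)
    rw [norm_mul]
    calc _ ≤ (2 * r) * 1 := mul_le_mul (A5D_le hr hg hH _ _) (hG.le _ _) (norm_nonneg _) (by positivity)
      _ = 2 * r := mul_one _

/-- normalised conjugate of the dual function -/
noncomputable def A5N (r : ℝ) (g : Z → ℝ → ℝ → ℂ) (H : Z → ℝ → ℂ) (z : Z) (p : ℝ) : ℂ :=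
  ((2 * r)⁻¹ : ℝ) * conj (A5D g H z p)

theorem A5N_F {r : ℝ} (hr : 0 < r) {g : Z → ℝ → ℝ → ℂ} {H : Z → ℝ → ℂ} (hg : A5K r g) (hH : A5F H) :
    A5F (A5N r g H) where
  meas := by
    unfold A5N
    exact (Complex.continuous_conj.measurable.comp (A5D_meas hg hH)).const_mul _
  le := fun z p => by
    unfold A5N
    rw [norm_mul, norm_conj, norm_real, Real.norm_of_nonneg (by positivity)]
    calc (2 * r)⁻¹ * ‖A5D g H z p‖ ≤ (2 * r)⁻¹ * (2 * r) :=
          mul_le_mul_of_nonneg_left (A5D_le hr.le hg hH _ _) (by positivity)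
      _ = 1 := by field_simp

theorem A5_dual (μ : Measure Z) [IsFiniteMeasure μ] {r M ε : ℝ} (hr : 0 < r) (hM : 0 < M)
    (hμ : μ.real univ ≤ M) (hε : 0 < ε) {g : Z → ℝ → ℝ → ℂ} {G H : Z → ℝ → ℂ}
    (hg : A5K r g) (hG : A5F G) (hH : A5F H) (h : ε ≤ ‖A5B μ g G H‖) :
    ε ^ 2 / (4 * r ^ 2 * M) ≤ ‖A5B μ g (A5N r g H) H‖ := by
  set W := μ.prod (volume.restrict (Icc (-r) r)) with hW
  have hDm := A5D_meas hg hH
  have hDi : Integrable (fun w : Z × ℝ => A5D g H w.1 w.2) W :=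
    Integrable.of_bound hDm.aestronglyMeasurable (2 * r) (Filter.Eventually.of_forall fun w =>
      A5D_le hr.le hg hH _ _)
  have hDi2 : Integrable (fun w : Z × ℝ => ‖A5D g H w.1 w.2‖ ^ 2) W := by
    refine Integrable.of_bound (hDm.norm.pow_const 2).aestronglyMeasurable ((2 * r) ^ 2)
      (Filter.Eventually.of_forall fun w => ?_)
    rw [norm_pow, norm_norm]
    exact pow_le_pow_left₀ (norm_nonneg _) (A5D_le hr.le hg hH _ _) 2
  have h1 : ε ≤ ∫ w, ‖A5D g H w.1 w.2‖ ∂W := by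
    refine h.trans ?_
    rw [A5B_eq2 μ hr.le hg hG hH]
    refine norm_integral_le_of_norm_le hDi.norm (Filter.Eventually.of_forall fun w => ?_)
    rw [norm_mul]
    calc _ ≤ ‖A5D g H w.1 w.2‖ * 1 := mul_le_mul_of_nonneg_left (hG.le _ _) (norm_nonneg _)
      _ = _ := mul_one _
  have hWm : W.real univ ≤ M * (2 * r) := by
    rw [hW, Measure.real, ← univ_prod_univ, Measure.prod_prod, ENNReal.toReal_mul]
    have e : ((volume.restrict (Icc (-r) r)) univ).toReal = 2 * r := by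
      rw [Measure.restrict_apply MeasurableSet.univ, univ_inter, Real.volume_Icc,
        ENNReal.toReal_ofReal (by linarith)]
      ring
    rw [e]
    exact mul_le_mul_of_nonneg_right hμ (by positivity)
  set l : ℝ := ε / (M * (2 * r)) with hl
  have hl0 : 0 < l := by positivity
  have h2 : ∫ w, ‖A5D g H w.1 w.2‖ ∂W ≤ ∫ w, (l / 2 + (2 * l)⁻¹ * ‖A5D g H w.1 w.2‖ ^ 2) ∂W := by
    apply integral_mono hDi.norm ((integrable_const _).add (hDi2.const_mul _))
    intro w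
    show ‖A5D g H w.1 w.2‖ ≤ l / 2 + (2 * l)⁻¹ * ‖A5D g H w.1 w.2‖ ^ 2
    have : 0 ≤ (2 * l)⁻¹ * (‖A5D g H w.1 w.2‖ - l) ^ 2 := by positivity
    have e : (2 * l)⁻¹ * (‖A5D g H w.1 w.2‖ - l) ^ 2
      = l / 2 + (2 * l)⁻¹ * ‖A5D g H w.1 w.2‖ ^ 2 - ‖A5D g H w.1 w.2‖ := by
      field_simp; ring
    linarith
  rw [integral_add (integrable_const _) (hDi2.const_mul _), integral_const, integral_const_mul,
    smul_eq_mul] at h2
  have h3 : W.real univ * (l / 2) ≤ ε / 2 := by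
    calc W.real univ * (l / 2) ≤ (M * (2 * r)) * (l / 2) := mul_le_mul_of_nonneg_right hWm (by positivity)
      _ = ε / 2 := by rw [hl]; field_simp
  have h4 : ε * l ≤ ∫ w, ‖A5D g H w.1 w.2‖ ^ 2 ∂W := by
    have h5 : ε / 2 ≤ (2 * l)⁻¹ * ∫ w, ‖A5D g H w.1 w.2‖ ^ 2 ∂W := by linarith
    have h6 := mul_le_mul_of_nonneg_left h5 (by positivity : 0 ≤ 2 * l)
    have e : 2 * l * ((2 * l)⁻¹ * ∫ w, ‖A5D g H w.1 w.2‖ ^ 2 ∂W) = ∫ w, ‖A5D g H w.1 w.2‖ ^ 2 ∂W := by
      field_simp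
    rw [e] at h6
    calc ε * l = 2 * l * (ε / 2) := by ring
      _ ≤ _ := h6
  rw [A5B_eq2 μ hr.le hg (A5N_F hr hg hH) hH]
  have e1 : ∫ w, A5D g H w.1 w.2 * A5N r g H w.1 w.2 ∂W
      = (((2 * r)⁻¹ * ∫ w, ‖A5D g H w.1 w.2‖ ^ 2 ∂W : ℝ) : ℂ) := by
    rw [← integral_const_mul, ← integral_complex_ofReal]
    congr 1; funext w
    unfold A5N
    rw [← mul_assoc, mul_comm (A5D g H w.1 w.2), mul_assoc, mul_conj, normSq_eq_norm_sq]
    push_cast; ring
  rw [e1, norm_real]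
  refine le_trans ?_ (le_abs_self _)
  calc ε ^ 2 / (4 * r ^ 2 * M) = (2 * r)⁻¹ * (ε * l) := by rw [hl]; field_simp; ring
    _ ≤ _ := mul_le_mul_of_nonneg_left h4 (by positivity)

/-- exponentials -/
theorem A5_FT1_cont {h : ℝ → ℂ} (hi : Integrable h) : Continuous (fun ζ => FT1 h ζ) := by
  unfold FT1
  apply continuous_of_dominated (bound := fun x => ‖h x‖)
  · intro ζ
    exact hi.aestronglyMeasurable.mul (by fun_prop)
  · intro ζ
    refine Filter.Eventually.of_forall fun x => ?_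
    rw [norm_mul, show -((ζ * x : ℝ) : ℂ) * I = ((-(ζ * x) : ℝ) : ℂ) * I by push_cast; ring,
      Complex.norm_exp_ofReal_mul_I, mul_one]
  · exact hi.norm
  · refine Filter.Eventually.of_forall fun x => ?_
    fun_prop

theorem A5_FT1_meas {G : Z → ℝ → ℂ} (hG : A5F G) : Measurable (fun w : Z × ℝ => FT1 (G w.1) w.2) := by
  unfold FT1
  have h : Measurable (fun w : (Z × ℝ) × ℝ => G w.1.1 w.2 * Complex.exp (-((w.1.2 * w.2 : ℝ) : ℂ) * I)) := by
    have h2 := hG.meas.comp (f := fun w : (Z × ℝ) × ℝ => (w.1.1, w.2)) (by fun_prop)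
    exact h2.mul (by fun_prop)
  exact (h.stronglyMeasurable.integral_prod_right (ν := (volume : Measure ℝ))).measurable

theorem A5_FT1_le {r : ℝ} (hr : 0 ≤ r) {h : ℝ → ℂ} (h1 : ∀ q, ‖h q‖ ≤ 1) (h2 : ∀ q, r < |q| → h q = 0) (ζ : ℝ) :
    ‖FT1 h ζ‖ ≤ 2 * r := by
  unfold FT1
  have := A5_bd (r := r) (c := 1) hr (h := fun x => h x * Complex.exp (-((ζ * x : ℝ) : ℂ) * I)) (fun x => by
    rw [norm_mul, show -((ζ * x : ℝ) : ℂ) * I = ((-(ζ * x) : ℝ) : ℂ) * I by push_cast; ring,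
      Complex.norm_exp_ofReal_mul_I, mul_one]
    exact h1 x) (fun q hq => by rw [h2 q hq, zero_mul])
  rw [one_mul] at this; exact this

/-- the sup of the Fourier transform over a dense sequence -/
noncomputable def A5S (G : Z → ℝ → ℂ) (z : Z) : ℝ :=
  ⨆ k : ℕ, ‖FT1 (G z) (TopologicalSpace.denseSeq ℝ k)‖

theorem A5S_meas {G : Z → ℝ → ℂ} (hG : A5F G) : Measurable (A5S G) := by
  unfold A5S
  apply Measurable.iSup
  intro k
  exact ((A5_FT1_meas hG).comp (f := fun z : Z => (z, TopologicalSpace.denseSeq ℝ k)) (by fun_prop)).norm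

theorem A5S_bdd {r : ℝ} (hr : 0 ≤ r) {G : Z → ℝ → ℂ} (hG : A5F G) (hs : ∀ z p, r < |p| → G z p = 0) (z : Z) :
    BddAbove (range fun k : ℕ => ‖FT1 (G z) (TopologicalSpace.denseSeq ℝ k)‖) := by
  refine ⟨2 * r, ?_⟩
  rintro _ ⟨_, rfl⟩
  exact A5_FT1_le hr (hG.le z) (hs z) _

theorem A5_int {r : ℝ} {h : ℝ → ℂ} (hm : Measurable h) (h1 : ∀ q, ‖h q‖ ≤ 1)
    (h2 : ∀ q, r < |q| → h q = 0) : Integrable h :=
  (A5_indint r 1).mono' hm.aestronglyMeasurable (Filter.Eventually.of_forall (A5_le_ind h1 h2))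

theorem A5S_le {r : ℝ} (hr : 0 ≤ r) {G : Z → ℝ → ℂ} (hG : A5F G) (hs : ∀ z p, r < |p| → G z p = 0) (z : Z)
    (ζ : ℝ) : ‖FT1 (G z) ζ‖ ≤ A5S G z := by
  have hc : Continuous (fun ζ => FT1 (G z) ζ) :=
    A5_FT1_cont (A5_int (hG.meas.comp (f := fun p : ℝ => (z, p)) (by fun_prop)) (hG.le z) (hs z))
  refine (TopologicalSpace.denseRange_denseSeq ℝ).induction_on (p := fun ζ => ‖FT1 (G z) ζ‖ ≤ A5S G z) ζ ?_ ?_
  · exact isClosed_le hc.norm continuous_const
  · intro k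
    exact le_ciSup (A5S_bdd hr hG hs z) k

theorem A5S_ub {r : ℝ} (hr : 0 ≤ r) {G : Z → ℝ → ℂ} (hG : A5F G) (hs : ∀ z p, r < |p| → G z p = 0) (z : Z) :
    A5S G z ≤ 2 * r := ciSup_le fun k => A5_FT1_le hr (hG.le z) (hs z) _

omit [MeasurableSpace Z] in
theorem A5S_nonneg (G : Z → ℝ → ℂ) (z : Z) : 0 ≤ A5S G z :=
  Real.iSup_nonneg fun _ => norm_nonneg _

omit [MeasurableSpace Z] in
theorem A5S_ex (G : Z → ℝ → ℂ) (z : Z) : ∃ k : ℕ, A5S G z / 2 ≤ ‖FT1 (G z) (TopologicalSpace.denseSeq ℝ k)‖ := by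
  rcases (A5S_nonneg G z).eq_or_lt with h | h
  · exact ⟨0, by rw [← h, zero_div]; exact norm_nonneg _⟩
  · obtain ⟨k, hk⟩ := exists_lt_of_lt_ciSup (show A5S G z / 2 < ⨆ k : ℕ, ‖FT1 (G z) (TopologicalSpace.denseSeq ℝ k)‖ by
      have : A5S G z / 2 < A5S G z := by linarith
      exact this)
    exact ⟨k, hk.le⟩

theorem A5_pick_ex {G : Z → ℝ → ℂ} (hG : A5F G) : ∃ ζ : Z → ℝ, Measurable ζ ∧
    ∀ z, A5S G z / 2 ≤ ‖FT1 (G z) (ζ z)‖ := by
  classical
  refine ⟨fun z => TopologicalSpace.denseSeq ℝ (Nat.find (A5S_ex G z)), ?_, fun z => Nat.find_spec (A5S_ex G z)⟩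
  have h : Measurable (fun z => Nat.find (A5S_ex G z)) := by
    apply measurable_find
    intro k
    apply measurableSet_le ((A5S_meas hG).div_const 2)
    exact ((A5_FT1_meas hG).comp (f := fun z : Z => (z, TopologicalSpace.denseSeq ℝ k)) (by fun_prop)).norm
  exact (measurable_from_nat (f := TopologicalSpace.denseSeq ℝ)).comp h

/-- replacing `G` by an exponential -/
theorem A5_pick (μ : Measure Z) [IsFiniteMeasure μ] {r t : ℝ} (hr : 0 < r) (ht : 0 < t)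
    {g : Z → ℝ → ℝ → ℂ} {H : Z → ℝ → ℂ} (hg : A5K r g) (hH : A5F H)
    (h : t ≤ μ.real {z | t ≤ A5S (A5N r g H) z}) :
    ∃ ζ : Z → ℝ, ∃ v : Z → ℂ, Measurable ζ ∧ Measurable v ∧ (∀ z, ‖v z‖ ≤ 1) ∧
      r * t ^ 2 ≤ ‖A5B μ g (fun z p => v z * Complex.exp (((ζ z * p : ℝ) : ℂ) * I)) H‖ := by
  have hN := A5N_F hr hg hH
  have hNs : ∀ z p, r < |p| → A5N r g H z p = 0 := fun z p hp => by
    unfold A5N; rw [A5D_supp hg z p hp, map_zero, mul_zero]
  obtain ⟨ζ, hζ, hζ2⟩ := A5_pick_ex hN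
  set F : Z → ℂ := fun z => FT1 (A5N r g H z) (ζ z) with hF
  have hFm : Measurable F := (A5_FT1_meas hN).comp (f := fun z : Z => (z, ζ z)) (by fun_prop)
  set v : Z → ℂ := fun z => F z / ‖F z‖ with hv
  have hvm : Measurable v := hFm.div (Complex.continuous_ofReal.measurable.comp hFm.norm)
  have hv1 : ∀ z, ‖v z‖ ≤ 1 := fun z => by
    simp only [hv]
    rw [norm_div, norm_real, norm_norm]
    exact div_self_le_one _
  refine ⟨ζ, v, hζ, hvm, hv1, ?_⟩
  have hvF : ∀ z, v z * conj (F z) = ‖F z‖ := fun z => by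
    simp only [hv]
    by_cases hz : F z = 0
    · simp [hz]
    · rw [div_mul_eq_mul_div, mul_conj, normSq_eq_norm_sq]
      have : (‖F z‖ : ℂ) ≠ 0 := by
        have : ‖F z‖ ≠ 0 := norm_ne_zero_iff.2 hz
        exact_mod_cast this
      push_cast
      field_simp
  have hB : A5B μ g (fun z p => v z * Complex.exp (((ζ z * p : ℝ) : ℂ) * I)) H
      = ((2 * r * ∫ z, ‖F z‖ ∂μ : ℝ) : ℂ) := by
    rw [A5B_eq, ← integral_const_mul, ← integral_complex_ofReal]
    congr 1; funext z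
    have e1 : conj (F z) = ((2 * r)⁻¹ : ℝ) * ∫ p, A5D g H z p * Complex.exp (((ζ z * p : ℝ) : ℂ) * I) := by
      simp only [hF]
      unfold FT1
      rw [← integral_conj, ← integral_const_mul]
      congr 1; funext p
      unfold A5N
      rw [map_mul, map_mul, conj_ofReal, Complex.conj_conj, ← Complex.exp_conj, map_mul, map_neg, conj_ofReal, conj_I]
      rw [mul_assoc]
      congr 3
      ring
    have e2 : ∫ p, A5D g H z p * Complex.exp (((ζ z * p : ℝ) : ℂ) * I) = (2 * r : ℝ) * conj (F z) := by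
      rw [e1]
      have : ((2 * r : ℝ) : ℂ) ≠ 0 := by
        have : 2 * r ≠ 0 := by positivity
        exact_mod_cast this
      rw [← mul_assoc, ← ofReal_mul, mul_inv_cancel₀ (by positivity), ofReal_one, one_mul]
    calc ∫ p, A5D g H z p * (v z * Complex.exp (((ζ z * p : ℝ) : ℂ) * I))
        = v z * ∫ p, A5D g H z p * Complex.exp (((ζ z * p : ℝ) : ℂ) * I) := by
          rw [← integral_const_mul]; congr 1; funext p; ring
      _ = (2 * r : ℝ) * (v z * conj (F z)) := by rw [e2]; ring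
      _ = ((2 * r * ‖F z‖ : ℝ) : ℂ) := by rw [hvF]; push_cast; ring
  rw [hB, norm_real]
  refine le_trans ?_ (le_abs_self _)
  have hSi : Integrable (A5S (A5N r g H)) μ := by
    refine Integrable.of_bound (A5S_meas hN).aestronglyMeasurable (2 * r) (Filter.Eventually.of_forall fun z => ?_)
    rw [Real.norm_of_nonneg (A5S_nonneg _ _)]
    exact A5S_ub hr.le hN hNs z
  have hFi : Integrable F μ := by
    refine Integrable.of_bound hFm.aestronglyMeasurable (2 * r) (Filter.Eventually.of_forall fun z => ?_)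
    exact A5_FT1_le hr.le (hN.le z) (hNs z) _
  have h1 : ∫ z, A5S (A5N r g H) z / 2 ∂μ ≤ ∫ z, ‖F z‖ ∂μ :=
    integral_mono (hSi.div_const 2) hFi.norm hζ2
  have h2 := mul_meas_ge_le_integral_of_nonneg (Filter.Eventually.of_forall (A5S_nonneg (A5N r g H))) hSi t
  rw [integral_div] at h1
  have h3 : t * t ≤ ∫ z, A5S (A5N r g H) z ∂μ := le_trans (mul_le_mul_of_nonneg_left h ht.le) h2
  nlinarith


/-- swapping the two slots -/
theorem A5B_swap (μ : Measure Z) {r : ℝ} {g : Z → ℝ → ℝ → ℂ} {G H : Z → ℝ → ℂ}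
    (hg : A5K r g) (hG : A5F G) (hH : A5F H) :
    A5B μ g G H = A5B μ (fun z q p => g z p q) H G := by
  unfold A5B
  congr 1; funext z
  rw [integral_integral_swap]
  · congr 1; funext q; congr 1; funext p; ring
  · have h0 : Integrable (fun w : ℝ × ℝ => (Icc (-r) r).indicator (fun _ : ℝ => (1:ℝ)) w.1
        * (Icc (-r) r).indicator (fun _ : ℝ => (1:ℝ)) w.2) (volume.prod volume) :=
      (A5_indint r 1).mul_prod (A5_indint r 1)
    refine h0.mono' ?_ (Filter.Eventually.of_forall fun w => ?_)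
    · have h1 := hg.meas.comp (f := fun w : ℝ × ℝ => (z, w.1, w.2)) (by fun_prop)
      have h2 := hG.meas.comp (f := fun w : ℝ × ℝ => (z, w.1)) (by fun_prop)
      have h3 := hH.meas.comp (f := fun w : ℝ × ℝ => (z, w.2)) (by fun_prop)
      exact ((h1.mul h2).mul h3).aestronglyMeasurable
    · simp only [Function.uncurry]
      rcases w with ⟨p, q⟩
      simp only
      by_cases hp : p ∈ Icc (-r) r
      · by_cases hq : q ∈ Icc (-r) r
        · rw [indicator_of_mem hp, indicator_of_mem hq, norm_mul, norm_mul]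
          calc _ ≤ 1 * 1 * 1 := mul_le_mul (mul_le_mul (hg.le _ _ _) (hG.le _ _) (norm_nonneg _) zero_le_one)
                (hH.le _ _) (norm_nonneg _) (by norm_num)
            _ = _ := by norm_num
        · rw [A5_mem, not_le] at hq
          rw [hg.sq _ _ _ hq, zero_mul, zero_mul, norm_zero]
          exact mul_nonneg (indicator_nonneg (fun _ _ => zero_le_one) _) (indicator_nonneg (fun _ _ => zero_le_one) _)
      · rw [A5_mem, not_le] at hp
        rw [hg.sp _ _ _ hp, zero_mul, zero_mul, norm_zero]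
        exact mul_nonneg (indicator_nonneg (fun _ _ => zero_le_one) _) (indicator_nonneg (fun _ _ => zero_le_one) _)

theorem A5K.swap {r : ℝ} {g : Z → ℝ → ℝ → ℂ} (hg : A5K r g) : A5K r (fun z q p => g z p q) where
  meas := hg.meas.comp (f := fun z : Z × ℝ × ℝ => (z.1, z.2.2, z.2.1)) (by fun_prop)
  le := fun z p q => hg.le z q p
  sp := fun z p q h => hg.sq z q p h
  sq := fun z p q h => hg.sp z q p h

/-- cut-off -/
noncomputable def A5cut (r : ℝ) (G : Z → ℝ → ℂ) (z : Z) (p : ℝ) : ℂ := (Icc (-r) r).indicator (G z) p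

theorem A5cut_F {r : ℝ} {G : Z → ℝ → ℂ} (hG : A5F G) : A5F (A5cut r G) where
  meas := by
    have : (fun z : Z × ℝ => A5cut r G z.1 z.2) = (univ ×ˢ Icc (-r) r).indicator (fun z : Z × ℝ => G z.1 z.2) := by
      funext z
      unfold A5cut
      by_cases h : z.2 ∈ Icc (-r) r
      · rw [indicator_of_mem h, indicator_of_mem (by exact ⟨mem_univ _, h⟩)]
      · rw [indicator_of_notMem h, indicator_of_notMem (fun h' => h h'.2)]
    rw [this]
    exact hG.meas.indicator (MeasurableSet.univ.prod measurableSet_Icc)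
  le := fun z p => by
    unfold A5cut
    exact (norm_indicator_le_norm_self _ _).trans (hG.le z p)

omit [MeasurableSpace Z] in
theorem A5cut_supp {r : ℝ} {G : Z → ℝ → ℂ} (z : Z) (p : ℝ) (hp : r < |p|) : A5cut r G z p = 0 := by
  unfold A5cut
  rw [indicator_of_notMem]
  rw [A5_mem, not_le]; exact hp

omit [MeasurableSpace Z] in
theorem A5_cut_mul {r : ℝ} {G : Z → ℝ → ℂ} (z : Z) (p : ℝ) (c : ℂ) (hc : r < |p| → c = 0) :
    c * A5cut r G z p = c * G z p := by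
  unfold A5cut
  by_cases h : p ∈ Icc (-r) r
  · rw [indicator_of_mem h]
  · rw [hc (by rw [A5_mem, not_le] at h; exact h), zero_mul, zero_mul]

theorem A5B_cut_right (μ : Measure Z) {r : ℝ} {g : Z → ℝ → ℝ → ℂ} (G H : Z → ℝ → ℂ)
    (hg : A5K r g) : A5B μ g G (A5cut r H) = A5B μ g G H := by
  unfold A5B
  congr 1; funext z; congr 1; funext p; congr 1; funext q
  exact A5_cut_mul z q _ (fun h => by rw [hg.sq _ _ _ h, zero_mul])

end abs

/-- the kernel of `LI` -/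
noncomputable def A5g (ω : ℂ) (E : Type) (f : ℂ → ℂ) (z : ℝ × E) (p q : ℝ) : ℂ := f (((p : ℂ) + q * ω) * U z.1)

/-- a bound for the coordinates -/
noncomputable def A5r (ω : ℂ) (R : ℝ) : ℝ := |R| + |R| / |ω.im| + |R| / |ω.im| * |ω.re| + |R| / ‖ω‖ + 1

theorem A5g_K {ω : ℂ} (h0 : ω.im ≠ 0) {R : ℝ} {E : Type} [MeasurableSpace E] {f : ℂ → ℂ} (hf : BF R f) :
    A5K (A5r ω R) (A5g ω E f) := by
  have hi : 0 < |ω.im| := abs_pos.2 h0
  have key : ∀ (θ p q : ℝ), ‖((p : ℂ) + q * ω) * U θ‖ ≤ R → |q| ≤ |R| / |ω.im| ∧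
      |p| ≤ |R| + |R| / |ω.im| * |ω.re| := by
    intro θ p q h
    rw [norm_mul, norm_U, mul_one] at h
    have hR : R ≤ |R| := le_abs_self R
    have h1 := Complex.abs_im_le_norm ((p : ℂ) + q * ω)
    have h2 := Complex.abs_re_le_norm ((p : ℂ) + q * ω)
    have e1 : ((p : ℂ) + q * ω).im = q * ω.im := by simp
    have e2 : ((p : ℂ) + q * ω).re = p + q * ω.re := by simp
    rw [e1, abs_mul] at h1
    rw [e2] at h2
    have h3 : |q| ≤ |R| / |ω.im| := by rw [le_div_iff₀ hi]; linarith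
    refine ⟨h3, ?_⟩
    have h4 : |p| ≤ |p + q * ω.re| + |q| * |ω.re| := by
      rw [← abs_mul]
      calc |p| = |(p + q * ω.re) - q * ω.re| := by ring_nf
        _ ≤ _ := abs_sub _ _
    have h5 : |q| * |ω.re| ≤ |R| / |ω.im| * |ω.re| := mul_le_mul_of_nonneg_right h3 (abs_nonneg _)
    linarith
  have hb : ∀ (θ p q : ℝ), A5r ω R < |p| ∨ A5r ω R < |q| → f (((p : ℂ) + q * ω) * U θ) = 0 := by
    intro θ p q h
    apply hf.supp
    by_contra hc
    push Not at hc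
    have := key θ p q hc
    have a1 : 0 ≤ |R| := abs_nonneg _
    have a2 : 0 ≤ |R| / |ω.im| := by positivity
    have a3 : 0 ≤ |R| / |ω.im| * |ω.re| := by positivity
    have a4 : 0 ≤ |R| / ‖ω‖ := by positivity
    unfold A5r at h
    rcases h with h | h <;> linarith [this.1, this.2]
  refine ⟨?_, fun z p q => hf.le _, fun z p q h => hb _ _ _ (Or.inl h), fun z p q h => hb _ _ _ (Or.inr h)⟩
  unfold A5g
  apply hf.meas.comp
  have h1 : Measurable (fun z : (ℝ × E) × ℝ × ℝ => ((z.2.1 : ℂ) + z.2.2 * ω)) := by fun_prop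
  exact h1.mul (measurable_U.comp (by fun_prop))

/-- `LI` is an abstract form -/
theorem A5_LI {ω : ℂ} (h0 : ω.im ≠ 0) {R : ℝ} {E : Type} [MeasurableSpace E] (ν : Measure E)
    [IsFiniteMeasure ν] {f : ℂ → ℂ} (hf : BF R f) {G H : ℝ × E → ℝ → ℂ} (hG : A5F G) (hH : A5F H) :
    LI ω ν f (fun θ e p => G (θ, e) p) (fun θ e q => H (θ, e) q)
      = A5B ((volume.restrict (Icc 0 (2 * Real.pi))).prod ν) (A5g ω E f) G H := by
  have hr : 0 ≤ A5r ω R := by unfold A5r; positivity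
  have hK : A5K (A5r ω R) (A5g ω E f) := A5g_K h0 hf
  unfold LI A5B
  rw [integral_prod]
  · rw [intervalIntegral.integral_of_le (by positivity), ← integral_Icc_eq_integral_Ioc]
    rfl
  · have hm : Measurable (fun z : ℝ × E => ∫ p, A5D (A5g ω E f) H z p * G z p) := by
      have h : Measurable (fun w : (ℝ × E) × ℝ => A5D (A5g ω E f) H w.1 w.2 * G w.1 w.2) :=
        (A5D_meas hK hH).mul hG.meas
      exact (h.stronglyMeasurable.integral_prod_right (ν := (volume : Measure ℝ))).measurable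
    have e : (fun z : ℝ × E => ∫ p, ∫ q, A5g ω E f z p q * G z p * H z q)
        = (fun z : ℝ × E => ∫ p, A5D (A5g ω E f) H z p * G z p) := by
      funext z
      unfold A5D
      congr 1; funext p
      rw [← integral_mul_const]
      congr 1; funext q; ring
    rw [e]
    refine Integrable.of_bound hm.aestronglyMeasurable ((2 * A5r ω R) * (2 * A5r ω R))
      (Filter.Eventually.of_forall fun z => ?_)
    apply A5_bd hr
    · intro p
      rw [norm_mul]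
      calc _ ≤ (2 * A5r ω R) * 1 := mul_le_mul (A5D_le hr hK hH _ _) (hG.le _ _) (norm_nonneg _) (by positivity)
        _ = 2 * A5r ω R := mul_one _
    · intro p hp
      rw [A5D_supp hK z p hp, zero_mul]

/-- change of variables -/
theorem A5_cov {ω : ℂ} (h0 : ω.im ≠ 0) (F : ℂ → ℂ) (hF : Integrable F) (θ : ℝ) :
    ∫ q : ℝ, ∫ p : ℝ, F (((p : ℂ) + q * ω) * U θ) = ((|ω.im|⁻¹ : ℝ) : ℂ) * ∫ y : ℂ, F y := by
  have e1 : ∀ q : ℝ, ∫ p : ℝ, F (((p : ℂ) + q * ω) * U θ)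
      = ∫ p : ℝ, F (((p : ℂ) + (ω.im * q : ℝ) * I) * U θ) := by
    intro q
    have := integral_add_right_eq_self (μ := (volume : Measure ℝ))
      (fun p : ℝ => F (((p : ℂ) + (ω.im * q : ℝ) * I) * U θ)) (q * ω.re)
    rw [← this]
    congr 1; funext p
    congr 2
    apply Complex.ext <;> simp <;> ring
  simp_rw [e1]
  rw [Measure.integral_comp_mul_left (fun q : ℝ => ∫ p : ℝ, F (((p : ℂ) + (q : ℝ) * I) * U θ)) ω.im]
  rw [abs_inv, real_smul]
  congr 1
  have hU : MeasurePreserving (fun z : ℂ => z * U θ) volume volume := by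
    have h2 : (fun z : ℂ => z * U θ) = ⇑(rotation (Circle.exp θ)) := by
      funext z
      rw [rotation_apply, Circle.coe_exp, mul_comm]
      rfl
    rw [h2]
    exact (rotation (Circle.exp θ)).measurePreserving
  have hemb : MeasurableEmbedding (fun z : ℂ => z * U θ) :=
    (MeasurableEquiv.mulRight₀ (U θ) (U_ne_zero θ)).measurableEmbedding
  have hFi : Integrable (fun z : ℂ => F (z * U θ)) := (hU.integrable_comp_emb hemb).2 hF
  rw [← hU.integral_comp hemb]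
  have h2 := Complex.volume_preserving_equiv_real_prod
  have h3 : Integrable (fun w : ℝ × ℝ => F ((Complex.measurableEquivRealProd.symm w) * U θ)) :=
    (Complex.volume_preserving_equiv_real_prod.symm.integrable_comp_emb
      Complex.measurableEquivRealProd.symm.measurableEmbedding).2 hFi
  have h4 : ∫ z : ℂ, F (z * U θ) = ∫ w : ℝ × ℝ, F ((Complex.measurableEquivRealProd.symm w) * U θ) :=
    (Complex.volume_preserving_equiv_real_prod.symm.integral_comp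
      Complex.measurableEquivRealProd.symm.measurableEmbedding (fun z : ℂ => F (z * U θ))).symm
  rw [h4, Measure.volume_eq_prod, integral_prod_symm _ (by rw [← Measure.volume_eq_prod]; exact h3)]
  congr 1; funext q; congr 1; funext p
  congr 2
  apply Complex.ext <;> simp [Complex.measurableEquivRealProd]

theorem A5_pow {c : ℝ} (hc : 0 < c) : ∃ m : ℕ, ∀ ε : ℝ, 0 < ε → ε ≤ 1 / 2 → ε ^ m ≤ c := by
  obtain ⟨m, hm⟩ := exists_pow_lt_of_lt_one hc (by norm_num : (1 / 2 : ℝ) < 1)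
  exact ⟨m, fun ε h1 h2 => (pow_le_pow_left₀ h1.le h2 m).trans hm.le⟩


theorem A5_FT1N {Z : Type} [MeasurableSpace Z] (r : ℝ) (g : Z → ℝ → ℝ → ℂ) (H : Z → ℝ → ℂ) (z : Z) (ζ : ℝ) :
    FT1 (A5N r g H z) ζ = ((2 * r)⁻¹ : ℝ) * conj (∫ p, A5D g H z p * Complex.exp (((ζ * p : ℝ) : ℂ) * I)) := by
  unfold FT1
  rw [← integral_conj, ← integral_const_mul]
  congr 1; funext p
  unfold A5N
  rw [map_mul, ← Complex.exp_conj, map_mul, conj_ofReal, conj_I]
  rw [mul_assoc]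
  congr 3
  ring

theorem A5_eval {ω : ℂ} (h0 : ω.im ≠ 0) {R : ℝ} {f : ℂ → ℂ} (hf : BF R f) (θ : ℝ) (v : ℂ) (hv : ‖v‖ ≤ 1)
    (ζ ζ' : ℝ) : ∃ ξ : ℂ, ‖∫ q : ℝ, (∫ p : ℝ, f (((p : ℂ) + q * ω) * U θ)
      * (v * Complex.exp (((ζ * p : ℝ) : ℂ) * I))) * Complex.exp (((ζ' * q : ℝ) : ℂ) * I)‖
      ≤ |ω.im|⁻¹ * ‖FT f ξ‖ := by
  set b : ℝ := (ζ' - ζ * ω.re) / ω.im with hb
  set ξ : ℂ := -((ζ + b * I) * U θ) with hξ
  refine ⟨ξ, ?_⟩
  set F : ℂ → ℂ := fun y => f y * Complex.exp (-(ip ξ y : ℂ) * I) with hF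
  have hfi : Integrable f := by
    have h1 : IntegrableOn (fun _ : ℂ => (1 : ℝ)) (Metric.closedBall 0 R) volume :=
      integrableOn_const (hs := (isCompact_closedBall (0:ℂ) R).measure_lt_top.ne)
    have h2 : Integrable ((Metric.closedBall (0:ℂ) R).indicator (fun _ : ℂ => (1 : ℝ))) :=
      h1.integrable_indicator Metric.isClosed_closedBall.measurableSet
    refine h2.mono' hf.meas.aestronglyMeasurable (Filter.Eventually.of_forall fun x => ?_)
    by_cases hx : x ∈ Metric.closedBall (0:ℂ) R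
    · rw [indicator_of_mem hx]; exact hf.le x
    · rw [indicator_of_notMem hx, hf.supp x (by
        rw [Metric.mem_closedBall, dist_zero_right, not_le] at hx; exact hx), norm_zero]
  have hFi : Integrable F := by
    refine hfi.norm.mono' ?_ (Filter.Eventually.of_forall fun y => ?_)
    · refine (hf.meas.mul ?_).aestronglyMeasurable
      unfold ip
      fun_prop
    · simp only [hF]
      rw [norm_mul, show -((ip ξ y : ℝ) : ℂ) * I = ((-(ip ξ y) : ℝ) : ℂ) * I by push_cast; ring,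
        Complex.norm_exp_ofReal_mul_I, mul_one]
  have hcov := A5_cov h0 F hFi θ
  have hip : ∀ p q : ℝ, ip ξ (((p : ℂ) + q * ω) * U θ) = -(ζ * p + ζ' * q) := by
    intro p q
    rw [hξ, ip_neg_left, mul_comm _ (U θ), mul_comm _ (U θ), ip_U_mul_U]
    unfold ip
    simp only [add_re, ofReal_re, mul_re, I_re, mul_zero, ofReal_im, I_im, mul_one, sub_self, add_zero, zero_mul,
      sub_zero, add_im, mul_im, zero_add, neg_inj]
    rw [hb]
    field_simp
    ring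
  have e : ∫ q : ℝ, (∫ p : ℝ, f (((p : ℂ) + q * ω) * U θ)
      * (v * Complex.exp (((ζ * p : ℝ) : ℂ) * I))) * Complex.exp (((ζ' * q : ℝ) : ℂ) * I)
      = v * ∫ q : ℝ, ∫ p : ℝ, F (((p : ℂ) + q * ω) * U θ) := by
    rw [← integral_const_mul]
    congr 1; funext q
    rw [← integral_mul_const, ← integral_const_mul]
    congr 1; funext p
    simp only [hF]
    rw [hip]
    have : Complex.exp (-((-(ζ * p + ζ' * q) : ℝ) : ℂ) * I)
        = Complex.exp (((ζ * p : ℝ) : ℂ) * I) * Complex.exp (((ζ' * q : ℝ) : ℂ) * I) := by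
      rw [← Complex.exp_add]; congr 1; push_cast; ring
    rw [this]; ring
  rw [e, hcov, norm_mul, norm_mul, norm_real, Real.norm_of_nonneg (by positivity)]
  calc ‖v‖ * (|ω.im|⁻¹ * ‖∫ y : ℂ, F y‖) ≤ 1 * (|ω.im|⁻¹ * ‖∫ y : ℂ, F y‖) :=
        mul_le_mul_of_nonneg_right hv (by positivity)
    _ = |ω.im|⁻¹ * ‖FT f ξ‖ := by rw [one_mul]; rfl

theorem A5_BF_mono {R R' : ℝ} {f : ℂ → ℂ} (h : BF R f) (hR : R ≤ R') : BF R' f :=
  ⟨h.meas, h.le, fun x hx => h.supp x (lt_of_le_of_lt hR hx)⟩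

theorem LLb (ω : ℂ) (h0 : ω.im ≠ 0) (h1 : ω.re ≠ 0) (R K : ℝ) : ∃ n : ℕ, 1 ≤ n ∧
    ∀ ε : ℝ, 0 < ε → ε ≤ 1 / 2 → ∀ (E : Type) (_ : MeasurableSpace E) (ν : Measure E) (_ : IsFiniteMeasure ν),
    ν.real univ ≤ K → ∀ f : ℂ → ℂ, BF R f → ∀ G H : ℝ → E → ℝ → ℂ,
    Measurable (fun z : ℝ × E × ℝ => G z.1 z.2.1 z.2.2) → Measurable (fun z : ℝ × E × ℝ => H z.1 z.2.1 z.2.2) →
    (∀ θ e p, ‖G θ e p‖ ≤ 1) → (∀ θ e p, ‖H θ e p‖ ≤ 1) →
    ε ≤ ‖LI ω ν f G H‖ → ∃ ξ : ℂ, ε ^ n ≤ ‖FT f ξ‖ := by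
  have hω : ω ≠ 0 := fun h => h0 (by rw [h]; rfl)
  have hωn : 0 < ‖ω‖ := norm_pos_iff.2 hω
  have h0' : (ω⁻¹).im ≠ 0 := by
    rw [inv_im]; exact div_ne_zero (neg_ne_zero.2 h0) (normSq_eq_zero.not.2 hω)
  have h1' : (ω⁻¹).re ≠ 0 := by
    rw [inv_re]; exact div_ne_zero h1 (normSq_eq_zero.not.2 hω)
  set r : ℝ := A5r ω R with hr
  have hi : 0 < |ω.im| := abs_pos.2 h0
  have hr0 : 0 < r := by rw [hr]; unfold A5r; positivity
  have hRr : R ≤ r := by
    have a1 := le_abs_self R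
    have a2 : 0 ≤ |R| / |ω.im| := by positivity
    have a3 : 0 ≤ |R| / |ω.im| * |ω.re| := by positivity
    have a4 : 0 ≤ |R| / ‖ω‖ := by positivity
    rw [hr]; unfold A5r; linarith
  have hRr' : |R| / ‖ω‖ ≤ r := by
    have a1 := abs_nonneg R
    have a2 : 0 ≤ |R| / |ω.im| := by positivity
    have a3 : 0 ≤ |R| / |ω.im| * |ω.re| := by positivity
    rw [hr]; unfold A5r; linarith
  obtain ⟨n1, hn1, hG1⟩ := Gclaim ω h0 h1 r K
  obtain ⟨n2, hn2, hCl2⟩ := Gclaim ω⁻¹ h0' h1' r K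
  set M : ℝ := 2 * Real.pi * |K| + 1 with hM
  have hM0 : 0 < M := by rw [hM]; positivity
  set c1 : ℝ := 1 / (4 * r ^ 2 * M) with hc1
  have hc10 : 0 < c1 := by rw [hc1]; positivity
  obtain ⟨m1, hm1⟩ := A5_pow hc10
  obtain ⟨m2, hm2⟩ := A5_pow (c := c1 * r ^ 2) (by positivity)
  obtain ⟨m3, hm3⟩ := A5_pow (c := r * |ω.im|) (by positivity)
  set a1 : ℕ := m1 + 2 with ha1
  set a2 : ℕ := m2 + a1 * n1 * 4 with ha2
  have ha2p : 1 ≤ a2 := by
    rw [ha2]; have : 1 ≤ a1 * n1 * 4 := by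
      have := Nat.mul_le_mul (show 1 ≤ a1 by omega) hn1
      omega
    omega
  refine ⟨m3 + a2 * n2, ?_, ?_⟩
  · have := Nat.mul_le_mul ha2p hn2
    omega
  intro ε hε hε2 E _ ν _ hν f hf G H hGm hHm hGb hHb hLI
  have hε1 : ε ≤ 1 := by linarith
  set μ := (volume.restrict (Icc 0 (2 * Real.pi))).prod ν with hμ
  have hμM : μ.real univ ≤ M := by
    rw [hμ, Measure.real, ← univ_prod_univ, Measure.prod_prod, ENNReal.toReal_mul]
    have e : ((volume.restrict (Icc 0 (2 * Real.pi))) univ).toReal = 2 * Real.pi := by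
      rw [Measure.restrict_apply MeasurableSet.univ, univ_inter, Real.volume_Icc,
        ENNReal.toReal_ofReal (by linarith [Real.pi_pos])]
      ring
    rw [e]
    have h3 : (ν univ).toReal ≤ |K| := hν.trans (le_abs_self K)
    have h4 : 2 * Real.pi * (ν univ).toReal ≤ 2 * Real.pi * |K| :=
      mul_le_mul_of_nonneg_left h3 (by positivity)
    rw [hM]; linarith
  set G' : ℝ × E → ℝ → ℂ := fun z p => G z.1 z.2 p with hG'
  set H' : ℝ × E → ℝ → ℂ := fun z p => H z.1 z.2 p with hH'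
  have FG' : A5F G' := ⟨hGm.comp (f := fun z : (ℝ × E) × ℝ => (z.1.1, z.1.2, z.2)) (by fun_prop), fun z p => hGb _ _ _⟩
  have FH' : A5F H' := ⟨hHm.comp (f := fun z : (ℝ × E) × ℝ => (z.1.1, z.1.2, z.2)) (by fun_prop), fun z p => hHb _ _ _⟩
  set g := A5g ω E f with hg
  have Kg : A5K r g := A5g_K h0 hf
  have hA : ε ≤ ‖A5B μ g G' H'‖ := by
    rw [← A5_LI h0 ν hf FG' FH']; exact hLI
  set Hc := A5cut r H' with hHc
  have FHc : A5F Hc := A5cut_F FH'
  rw [← A5B_cut_right μ G' H' Kg] at hA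
  have hB := A5_dual μ hr0 hM0 hμM hε Kg FG' FHc hA
  -- first use of the claim
  set ε1 : ℝ := ε ^ a1 with hε1'
  have hε10 : 0 < ε1 := pow_pos hε _
  have hε12 : ε1 ≤ 1 / 2 := by
    calc ε1 ≤ ε ^ 1 := pow_le_pow_of_le_one hε.le hε1 (by omega)
      _ ≤ 1 / 2 := by rw [pow_one]; exact hε2
  have hB2 : ε1 ≤ ‖A5B μ g (A5N r g Hc) Hc‖ := by
    refine le_trans ?_ hB
    calc ε1 = ε ^ m1 * ε ^ 2 := by rw [hε1', ha1, pow_add]
      _ ≤ c1 * ε ^ 2 := mul_le_mul_of_nonneg_right (hm1 ε hε hε2) (by positivity)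
      _ = ε ^ 2 / (4 * r ^ 2 * M) := by rw [hc1]; ring
  have FN := A5N_F hr0 Kg FHc
  have hNs : ∀ z p, r < |p| → A5N r g Hc z p = 0 := fun z p hp => by
    unfold A5N; rw [A5D_supp Kg z p hp, map_zero, mul_zero]
  have hC := hG1 ε1 hε10 hε12 E inferInstance ν inferInstance hν f (A5_BF_mono hf hRr)
    (fun θ e p => A5N r g Hc (θ, e) p) (fun θ e p => Hc (θ, e) p)
    (FN.meas.comp (f := fun z : ℝ × E × ℝ => ((z.1, z.2.1), z.2.2)) (by fun_prop))
    (FHc.meas.comp (f := fun z : ℝ × E × ℝ => ((z.1, z.2.1), z.2.2)) (by fun_prop))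
    (fun θ e p => FN.le _ _) (fun θ e p => FHc.le _ _)
    (fun θ e p hp => hNs _ _ hp) (fun θ e p hp => A5cut_supp _ _ hp)
    (A5S (A5N r g Hc)) (A5S_meas FN) (fun θ e ζ => A5S_le hr0.le FN hNs (θ, e) ζ)
    (by rw [A5_LI h0 ν hf FN FHc]; exact hB2)
  set t1 : ℝ := ε1 ^ n1 with ht1
  have ht10 : 0 < t1 := pow_pos hε10 _
  obtain ⟨ζ, v, hζ, hv, hv1, hP⟩ := A5_pick μ hr0 ht10 Kg FHc hC
  set G2 : ℝ × E → ℝ → ℂ := fun z p => v z * Complex.exp (((ζ z * p : ℝ) : ℂ) * I) with hG2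
  have FG2 : A5F G2 := by
    refine ⟨?_, fun z p => ?_⟩
    · have a := hv.comp (f := fun w : (ℝ × E) × ℝ => w.1) (by fun_prop)
      have b := hζ.comp (f := fun w : (ℝ × E) × ℝ => w.1) (by fun_prop)
      have c : Measurable (fun w : (ℝ × E) × ℝ => Complex.exp (((ζ w.1 * w.2 : ℝ) : ℂ) * I)) := by
        have d : Measurable (fun w : (ℝ × E) × ℝ => ζ w.1 * w.2) := b.mul measurable_snd
        exact Complex.measurable_exp.comp ((Complex.measurable_ofReal.comp d).mul_const I)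
      exact a.mul c
    · simp only [hG2]
      rw [norm_mul, Complex.norm_exp_ofReal_mul_I, mul_one]
      exact hv1 z
  rw [A5B_swap μ Kg FG2 FHc] at hP
  have Kg' := Kg.swap
  rw [← A5B_cut_right μ Hc G2 Kg'] at hP
  set G2c := A5cut r G2 with hG2c
  have FG2c : A5F G2c := A5cut_F FG2
  have hQ := A5_dual μ hr0 hM0 hμM (by positivity) Kg' FHc FG2c hP
  set g' : ℝ × E → ℝ → ℝ → ℂ := fun z q p => g z p q with hg'
  set ε2 : ℝ := ε ^ a2 with hε2'
  have hε20 : 0 < ε2 := pow_pos hε _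
  have hε22 : ε2 ≤ 1 / 2 := by
    calc ε2 ≤ ε ^ 1 := pow_le_pow_of_le_one hε.le hε1 (by omega)
      _ ≤ 1 / 2 := by rw [pow_one]; exact hε2
  have hQ2 : ε2 ≤ ‖A5B μ g' (A5N r g' G2c) G2c‖ := by
    refine le_trans ?_ hQ
    have e4 : ε ^ (a1 * n1 * 4) = t1 ^ 4 := by rw [ht1, hε1', pow_mul, pow_mul]
    calc ε2 = ε ^ m2 * t1 ^ 4 := by rw [hε2', ha2, pow_add, e4]
      _ ≤ (c1 * r ^ 2) * t1 ^ 4 := mul_le_mul_of_nonneg_right (hm2 ε hε hε2) (by positivity)
      _ = (r * t1 ^ 2) ^ 2 / (4 * r ^ 2 * M) := by rw [hc1]; ring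
  have FN2 := A5N_F hr0 Kg' FG2c
  have hNs2 : ∀ z p, r < |p| → A5N r g' G2c z p = 0 := fun z p hp => by
    unfold A5N; rw [A5D_supp Kg' z p hp, map_zero, mul_zero]
  set f' : ℂ → ℂ := fun y => f (ω * y) with hf'
  have hbf' : BF (|R| / ‖ω‖) f' := by
    refine ⟨hf.meas.comp (measurable_const_mul ω), fun x => hf.le _, fun x hx => hf.supp _ ?_⟩
    rw [norm_mul]
    rw [div_lt_iff₀ hωn] at hx
    linarith [le_abs_self R]
  have egg : A5g ω⁻¹ E f' = g' := by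
    funext z q p
    simp only [hg', hg, A5g, hf']
    congr 1
    have : ω * ω⁻¹ = 1 := mul_inv_cancel₀ hω
    linear_combination (p : ℂ) * U z.1 * this
  have hD := hCl2 ε2 hε20 hε22 E inferInstance ν inferInstance hν f' (A5_BF_mono hbf' hRr')
    (fun θ e p => A5N r g' G2c (θ, e) p) (fun θ e p => G2c (θ, e) p)
    (FN2.meas.comp (f := fun z : ℝ × E × ℝ => ((z.1, z.2.1), z.2.2)) (by fun_prop))
    (FG2c.meas.comp (f := fun z : ℝ × E × ℝ => ((z.1, z.2.1), z.2.2)) (by fun_prop))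
    (fun θ e p => FN2.le _ _) (fun θ e p => FG2c.le _ _)
    (fun θ e p hp => hNs2 _ _ hp) (fun θ e p hp => A5cut_supp _ _ hp)
    (A5S (A5N r g' G2c)) (A5S_meas FN2) (fun θ e ζ => A5S_le hr0.le FN2 hNs2 (θ, e) ζ)
    (by rw [A5_LI h0' ν hbf' FN2 FG2c, egg]; exact hQ2)
  set t2 : ℝ := ε2 ^ n2 with ht2
  have ht20 : 0 < t2 := pow_pos hε20 _
  obtain ⟨z, hz⟩ : ∃ z : ℝ × E, t2 ≤ A5S (A5N r g' G2c) z := by
    by_contra hcon
    push Not at hcon
    have : {z : ℝ × E | t2 ≤ A5S (A5N r g' G2c) z} = ∅ := by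
      ext z; simp only [mem_setOf_eq, mem_empty_iff_false, iff_false, not_le]; exact hcon z
    rw [this, measureReal_empty] at hD
    linarith
  obtain ⟨k, hk⟩ := A5S_ex (A5N r g' G2c) z
  set ζ' : ℝ := TopologicalSpace.denseSeq ℝ k with hζ'
  obtain ⟨ξ, hξ⟩ := A5_eval h0 hf z.1 (v z) (hv1 z) (ζ z) ζ'
  refine ⟨ξ, ?_⟩
  rw [A5_FT1N, norm_mul, norm_conj, norm_real, Real.norm_of_nonneg (by positivity)] at hk
  have eD : ∀ q, A5D g' G2c z q = ∫ p : ℝ, f (((p : ℂ) + q * ω) * U z.1)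
      * (v z * Complex.exp (((ζ z * p : ℝ) : ℂ) * I)) := by
    intro q
    unfold A5D
    congr 1; funext p
    rw [hG2c]
    rw [A5_cut_mul z p (g' z q p) (fun h => Kg'.sq _ _ _ h)]
    rfl
  simp_rw [eD] at hk
  have hk2 := hk.trans (mul_le_mul_of_nonneg_left hξ (by positivity : (0:ℝ) ≤ (2 * r)⁻¹))
  have hk3 : t2 / 2 ≤ (2 * r)⁻¹ * (|ω.im|⁻¹ * ‖FT f ξ‖) := by linarith
  have hk4 : r * |ω.im| * t2 ≤ ‖FT f ξ‖ := by
    have h5 := mul_le_mul_of_nonneg_left hk3 (by positivity : 0 ≤ 2 * r * |ω.im|)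
    have e5 : 2 * r * |ω.im| * ((2 * r)⁻¹ * (|ω.im|⁻¹ * ‖FT f ξ‖)) = ‖FT f ξ‖ := by
      field_simp
    rw [e5] at h5
    calc r * |ω.im| * t2 = 2 * r * |ω.im| * (t2 / 2) := by ring
      _ ≤ _ := h5
  calc ε ^ (m3 + a2 * n2) = ε ^ m3 * t2 := by rw [pow_add, pow_mul]
    _ ≤ (r * |ω.im|) * t2 := mul_le_mul_of_nonneg_right (hm3 ε hε hε2) ht20.le
    _ ≤ ‖FT f ξ‖ := hk4

end TriDil
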