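import Pool.Agent.TriDil.Basic7
set_option autoImplicit false
open MeasureTheory Complex Set
namespace TriDil

/-- the weight `W_r(τ,s)` -/
noncomputable def WW (r τ s : ℝ) : ℝ :=
  if 0 ≤ r * τ ∧ r * τ * Real.cos r < (1 + r ^ 2 * s) * Real.sin r then
    haar (2 * s + r ^ 2 * s ^ 2 + τ ^ 2) else 0

/-! ### helper lemmas -/

theorem A6_trig {r : ℝ} (hr : 0 < r) (hr1 : r ≤ 1) : 0 < Real.sin r ∧ 0 < Real.cos r ∧ Real.sin r ≤ r ∧ 
    1 - r ^ 2 / 2 ≤ Real.cos r := by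
  have hpi := Real.pi_gt_three
  refine ⟨Real.sin_pos_of_pos_of_lt_pi hr (by linarith), ?_, Real.sin_le hr.le, Real.one_sub_sq_div_two_le_cos⟩
  exact Real.cos_pos_of_mem_Ioo ⟨by linarith, by linarith⟩

theorem A6_haar_ne {t : ℝ} (h : haar t ≠ 0) : 0 ≤ t ∧ t ≤ 1 := by
  unfold haar at h
  split_ifs at h with h1 h2
  · exact ⟨h1.1, by linarith [h1.2]⟩
  · exact ⟨by linarith [h2.1], h2.2⟩
  · exact absurd rfl h

theorem A6_haar_abs (t : ℝ) : |haar t| ≤ 1 := by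
  unfold haar
  split_ifs <;> norm_num

theorem A6_measurable_haar : Measurable haar := by
  unfold haar
  refine Measurable.ite ?_ measurable_const (Measurable.ite ?_ measurable_const measurable_const)
  · exact (measurableSet_Icc : MeasurableSet (Icc (0:ℝ) (1/2)))
  · exact (measurableSet_Ioc : MeasurableSet (Ioc (1/2:ℝ) 1))

theorem A6_WW_abs (r τ s : ℝ) : |WW r τ s| ≤ 1 := by
  unfold WW
  split_ifs
  · exact A6_haar_abs _
  · norm_num

theorem A6_measurable_WW (r : ℝ) : Measurable (fun z : ℝ × ℝ => WW r z.1 z.2) := by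
  unfold WW
  have h1 : MeasurableSet {z : ℝ × ℝ | 0 ≤ r * z.1} := measurableSet_le measurable_const (by fun_prop)
  have h2 : MeasurableSet {z : ℝ × ℝ | r * z.1 * Real.cos r < (1 + r ^ 2 * z.2) * Real.sin r} := 
    measurableSet_lt (by fun_prop) (by fun_prop)
  refine Measurable.ite (h1.inter h2) ?_ measurable_const
  exact A6_measurable_haar.comp (by fun_prop)

/-- (W1) -/
theorem W1 (r τ s : ℝ) (hr : 0 < r) (hr1 : r ≤ 1) (h : WW r τ s ≠ 0) :
    0 ≤ τ ∧ τ ≤ 2 ∧ |s| ≤ 1 := by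
  obtain ⟨hS, hC, hSr, hCr⟩ := A6_trig hr hr1
  unfold WW at h
  split_ifs at h with hc
  swap
  · exact absurd rfl h
  obtain ⟨ht0, ht1⟩ := A6_haar_ne h
  obtain ⟨hc1, hc2⟩ := hc
  have hτ : 0 ≤ τ := by
    by_contra hneg
    push Not at hneg
    have := mul_neg_of_pos_of_neg hr hneg
    linarith
  obtain ⟨X, hX⟩ : ∃ X : ℝ, X = 1 + r ^ 2 * s := ⟨_, rfl⟩
  obtain ⟨t, ht⟩ : ∃ t : ℝ, t = 2 * s + r ^ 2 * s ^ 2 + τ ^ 2 := ⟨_, rfl⟩
  obtain ⟨S, hSd⟩ : ∃ S : ℝ, S = Real.sin r := ⟨_, rfl⟩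
  obtain ⟨K, hK⟩ : ∃ K : ℝ, K = Real.cos r := ⟨_, rfl⟩
  have hSK : S ^ 2 + K ^ 2 = 1 := by rw [hSd, hK]; exact Real.sin_sq_add_cos_sq r
  rw [← ht] at ht0 ht1
  rw [← hX, ← hSd, ← hK] at hc2
  rw [← hSd] at hS hSr
  rw [← hK] at hC hCr
  have hr2 : r ^ 2 ≤ 1 := pow_le_one₀ hr.le hr1
  have hXt : X ^ 2 + (r * τ) ^ 2 = 1 + r ^ 2 * t := by rw [hX, ht]; ring
  have hrK : 0 ≤ r * τ * K := by positivity
  have hX0 : 0 < X := by
    by_contra hneg
    push Not at hneg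
    have := mul_nonpos_of_nonpos_of_nonneg hneg hS.le
    linarith
  have hsq : (r * τ * K) ^ 2 < (X * S) ^ 2 := by
    apply pow_lt_pow_left₀ hc2 hrK (by norm_num)
  have h1 : (r * τ) ^ 2 < S ^ 2 * (1 + r ^ 2 * t) := by
    have e : (r * τ) ^ 2 = (r * τ * K) ^ 2 + (r * τ) ^ 2 * S ^ 2 := by
      have : (r * τ) ^ 2 * (S ^ 2 + K ^ 2) = (r * τ) ^ 2 := by rw [hSK, mul_one]
      linear_combination (-1) * this
    rw [← hXt]
    linarith
  have h2 : S ^ 2 ≤ r ^ 2 := by gcongr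
  have h3 : τ ^ 2 < 2 := by
    have h4 : S ^ 2 * (1 + r ^ 2 * t) ≤ r ^ 2 * 2 := by
      have : 1 + r ^ 2 * t ≤ 2 := by
        have := mul_le_mul hr2 ht1 ht0 zero_le_one
        linarith
      have h5 : 0 ≤ 1 + r ^ 2 * t := by positivity
      calc S ^ 2 * (1 + r ^ 2 * t) ≤ r ^ 2 * (1 + r ^ 2 * t) := by gcongr
        _ ≤ r ^ 2 * 2 := by gcongr
    have h6 : r ^ 2 * τ ^ 2 < r ^ 2 * 2 := by linarith
    exact lt_of_mul_lt_mul_left h6 (by positivity)
  have hτ2 : τ ≤ 2 := by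
    by_contra hcon
    push Not at hcon
    have h9 : (2:ℝ) ^ 2 < τ ^ 2 := pow_lt_pow_left₀ hcon (by norm_num) (by norm_num)
    linarith
  refine ⟨hτ, hτ2, ?_⟩
  rw [abs_le]
  constructor
  · have h4 : K ^ 2 < X ^ 2 := by
      have e : X ^ 2 = (1 + r ^ 2 * t) - (r * τ) ^ 2 := by linarith
      have h5 : (1 + r ^ 2 * t) * K ^ 2 < X ^ 2 := by
        have : (1 + r ^ 2 * t) * (S ^ 2 + K ^ 2) = 1 + r ^ 2 * t := by rw [hSK, mul_one]
        linarith
      have h6 : K ^ 2 ≤ (1 + r ^ 2 * t) * K ^ 2 := by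
        have : 0 ≤ r ^ 2 * t * K ^ 2 := by positivity
        linarith
      linarith
    have h5 : K < X := lt_of_pow_lt_pow_left₀ 2 hX0.le h4
    have h6 : 1 - r ^ 2 / 2 < 1 + r ^ 2 * s := by rw [← hX]; linarith
    have h7 : r ^ 2 * (-(1/2)) < r ^ 2 * s := by linarith
    have h8 : -(1/2) < s := lt_of_mul_lt_mul_left h7 (by positivity)
    linarith
  · have : 0 ≤ r ^ 2 * s ^ 2 := by positivity
    linarith [sq_nonneg τ]

/-- (W2) -/
theorem W2 (r s : ℝ) (hr : 0 < r) (hr1 : r ≤ 1) : ∃ I1 I2 : Set ℝ, I1.OrdConnected ∧ I2.OrdConnected ∧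
    I1 ⊆ Icc 0 2 ∧ I2 ⊆ Icc 0 2 ∧ ∀ τ, WW r τ s = I1.indicator 1 τ - I2.indicator 1 τ := by
  obtain ⟨hS, hC, hSr, hCr⟩ := A6_trig hr hr1
  obtain ⟨I1, hI1⟩ : ∃ I1 : Set ℝ, I1 = {τ | (0 ≤ r * τ ∧ r * τ * Real.cos r < (1 + r ^ 2 * s) * Real.sin r) ∧ 
    (0 ≤ 2 * s + r ^ 2 * s ^ 2 + τ ^ 2 ∧ 2 * s + r ^ 2 * s ^ 2 + τ ^ 2 ≤ 1/2)} := ⟨_, rfl⟩
  obtain ⟨I2, hI2⟩ : ∃ I2 : Set ℝ, I2 = {τ | (0 ≤ r * τ ∧ r * τ * Real.cos r < (1 + r ^ 2 * s) * Real.sin r) ∧ 
    (1/2 < 2 * s + r ^ 2 * s ^ 2 + τ ^ 2 ∧ 2 * s + r ^ 2 * s ^ 2 + τ ^ 2 ≤ 1)} := ⟨_, rfl⟩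
  have m1 : ∀ τ, τ ∈ I1 ↔ (0 ≤ r * τ ∧ r * τ * Real.cos r < (1 + r ^ 2 * s) * Real.sin r) ∧ 
    (0 ≤ 2 * s + r ^ 2 * s ^ 2 + τ ^ 2 ∧ 2 * s + r ^ 2 * s ^ 2 + τ ^ 2 ≤ 1/2) := fun τ => by rw [hI1]; rfl
  have m2 : ∀ τ, τ ∈ I2 ↔ (0 ≤ r * τ ∧ r * τ * Real.cos r < (1 + r ^ 2 * s) * Real.sin r) ∧ 
    (1/2 < 2 * s + r ^ 2 * s ^ 2 + τ ^ 2 ∧ 2 * s + r ^ 2 * s ^ 2 + τ ^ 2 ≤ 1) := fun τ => by rw [hI2]; rfl
  have hW : ∀ τ, WW r τ s = I1.indicator 1 τ - I2.indicator 1 τ := by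
    intro τ
    by_cases hc : 0 ≤ r * τ ∧ r * τ * Real.cos r < (1 + r ^ 2 * s) * Real.sin r
    · unfold WW haar
      rw [if_pos hc]
      by_cases h1 : 0 ≤ 2 * s + r ^ 2 * s ^ 2 + τ ^ 2 ∧ 2 * s + r ^ 2 * s ^ 2 + τ ^ 2 ≤ 1/2
      · have a1 : τ ∈ I1 := (m1 τ).mpr ⟨hc, h1⟩
        have a2 : τ ∉ I2 := fun h => by have := ((m2 τ).mp h).2.1; linarith [h1.2]
        rw [if_pos h1, indicator_of_mem a1, indicator_of_notMem a2]; simp
      · have a1 : τ ∉ I1 := fun h => h1 ((m1 τ).mp h).2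
        rw [if_neg h1, indicator_of_notMem a1]
        by_cases h2 : 1/2 < 2 * s + r ^ 2 * s ^ 2 + τ ^ 2 ∧ 2 * s + r ^ 2 * s ^ 2 + τ ^ 2 ≤ 1
        · have a2 : τ ∈ I2 := (m2 τ).mpr ⟨hc, h2⟩
          rw [if_pos h2, indicator_of_mem a2]; simp
        · have a2 : τ ∉ I2 := fun h => h2 ((m2 τ).mp h).2
          rw [if_neg h2, indicator_of_notMem a2]; simp
    · have a1 : τ ∉ I1 := fun h => hc ((m1 τ).mp h).1
      have a2 : τ ∉ I2 := fun h => hc ((m2 τ).mp h).1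
      unfold WW
      rw [if_neg hc, indicator_of_notMem a1, indicator_of_notMem a2]; simp
  have pos : ∀ {τ : ℝ}, 0 ≤ r * τ → 0 ≤ τ := by
    intro τ h
    by_contra hneg
    push Not at hneg
    have := mul_neg_of_pos_of_neg hr hneg
    linarith
  refine ⟨I1, I2, ?_, ?_, ?_, ?_, hW⟩
  · refine ⟨fun x hx y hy z hz => ?_⟩
    obtain ⟨⟨hx1, _⟩, hx3, _⟩ := (m1 x).mp hx
    obtain ⟨⟨_, hy2⟩, _, hy4⟩ := (m1 y).mp hy
    have hx0 := pos hx1
    obtain ⟨hz1, hz2⟩ := hz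
    have q1 : x ^ 2 ≤ z ^ 2 := by gcongr
    have q2 : z ^ 2 ≤ y ^ 2 := pow_le_pow_left₀ (by linarith) hz2 2
    have q3 : r * z * Real.cos r ≤ r * y * Real.cos r := by gcongr
    refine (m1 z).mpr ⟨⟨mul_nonneg hr.le (by linarith), by linarith⟩, by linarith, by linarith⟩
  · refine ⟨fun x hx y hy z hz => ?_⟩
    obtain ⟨⟨hx1, _⟩, hx3, _⟩ := (m2 x).mp hx
    obtain ⟨⟨_, hy2⟩, _, hy4⟩ := (m2 y).mp hy
    have hx0 := pos hx1
    obtain ⟨hz1, hz2⟩ := hz
    have q1 : x ^ 2 ≤ z ^ 2 := by gcongr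
    have q2 : z ^ 2 ≤ y ^ 2 := pow_le_pow_left₀ (by linarith) hz2 2
    have q3 : r * z * Real.cos r ≤ r * y * Real.cos r := by gcongr
    refine (m2 z).mpr ⟨⟨mul_nonneg hr.le (by linarith), by linarith⟩, by linarith, by linarith⟩
  · intro τ hτ
    have h2 : τ ∉ I2 := fun h => by
      have a := ((m2 τ).mp h).2.1
      have b := ((m1 τ).mp hτ).2.2
      linarith
    have hne : WW r τ s ≠ 0 := by
      rw [hW τ, indicator_of_mem hτ, indicator_of_notMem h2]; simp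
    obtain ⟨a, b, _⟩ := W1 r τ s hr hr1 hne
    exact ⟨a, b⟩
  · intro τ hτ
    have h1 : τ ∉ I1 := fun h => by
      have a := ((m2 τ).mp hτ).2.1
      have b := ((m1 τ).mp h).2.2
      linarith
    have hne : WW r τ s ≠ 0 := by
      rw [hW τ, indicator_of_mem hτ, indicator_of_notMem h1]; simp
    obtain ⟨a, b, _⟩ := W1 r τ s hr hr1 hne
    exact ⟨a, b⟩

/-- (W3) -/
theorem W3 (r τ : ℝ) (hr : 0 < r) (hr1 : r ≤ 1) : ∃ I1 I2 : Set ℝ, I1.OrdConnected ∧ I2.OrdConnected ∧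
    I1 ⊆ Icc (-1) 1 ∧ I2 ⊆ Icc (-1) 1 ∧ ∀ s, WW r τ s = I1.indicator 1 s - I2.indicator 1 s := by
  obtain ⟨hS, hC, hSr, hCr⟩ := A6_trig hr hr1
  obtain ⟨I1, hI1⟩ : ∃ I1 : Set ℝ, I1 = {s | (0 ≤ r * τ ∧ r * τ * Real.cos r < (1 + r ^ 2 * s) * Real.sin r) ∧ 
    (0 ≤ 2 * s + r ^ 2 * s ^ 2 + τ ^ 2 ∧ 2 * s + r ^ 2 * s ^ 2 + τ ^ 2 ≤ 1/2)} := ⟨_, rfl⟩
  obtain ⟨I2, hI2⟩ : ∃ I2 : Set ℝ, I2 = {s | (0 ≤ r * τ ∧ r * τ * Real.cos r < (1 + r ^ 2 * s) * Real.sin r) ∧ 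
    (1/2 < 2 * s + r ^ 2 * s ^ 2 + τ ^ 2 ∧ 2 * s + r ^ 2 * s ^ 2 + τ ^ 2 ≤ 1)} := ⟨_, rfl⟩
  have m1 : ∀ s, s ∈ I1 ↔ (0 ≤ r * τ ∧ r * τ * Real.cos r < (1 + r ^ 2 * s) * Real.sin r) ∧ 
    (0 ≤ 2 * s + r ^ 2 * s ^ 2 + τ ^ 2 ∧ 2 * s + r ^ 2 * s ^ 2 + τ ^ 2 ≤ 1/2) := fun s => by rw [hI1]; rfl
  have m2 : ∀ s, s ∈ I2 ↔ (0 ≤ r * τ ∧ r * τ * Real.cos r < (1 + r ^ 2 * s) * Real.sin r) ∧ 
    (1/2 < 2 * s + r ^ 2 * s ^ 2 + τ ^ 2 ∧ 2 * s + r ^ 2 * s ^ 2 + τ ^ 2 ≤ 1) := fun s => by rw [hI2]; rfl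
  have hW : ∀ s, WW r τ s = I1.indicator 1 s - I2.indicator 1 s := by
    intro s
    by_cases hc : 0 ≤ r * τ ∧ r * τ * Real.cos r < (1 + r ^ 2 * s) * Real.sin r
    · unfold WW haar
      rw [if_pos hc]
      by_cases h1 : 0 ≤ 2 * s + r ^ 2 * s ^ 2 + τ ^ 2 ∧ 2 * s + r ^ 2 * s ^ 2 + τ ^ 2 ≤ 1/2
      · have a1 : s ∈ I1 := (m1 s).mpr ⟨hc, h1⟩
        have a2 : s ∉ I2 := fun h => by have := ((m2 s).mp h).2.1; linarith [h1.2]
        rw [if_pos h1, indicator_of_mem a1, indicator_of_notMem a2]; simp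
      · have a1 : s ∉ I1 := fun h => h1 ((m1 s).mp h).2
        rw [if_neg h1, indicator_of_notMem a1]
        by_cases h2 : 1/2 < 2 * s + r ^ 2 * s ^ 2 + τ ^ 2 ∧ 2 * s + r ^ 2 * s ^ 2 + τ ^ 2 ≤ 1
        · have a2 : s ∈ I2 := (m2 s).mpr ⟨hc, h2⟩
          rw [if_pos h2, indicator_of_mem a2]; simp
        · have a2 : s ∉ I2 := fun h => h2 ((m2 s).mp h).2
          rw [if_neg h2, indicator_of_notMem a2]; simp
    · have a1 : s ∉ I1 := fun h => hc ((m1 s).mp h).1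
      have a2 : s ∉ I2 := fun h => hc ((m2 s).mp h).1
      unfold WW
      rw [if_neg hc, indicator_of_notMem a1, indicator_of_notMem a2]; simp
  have key : ∀ {x z : ℝ}, 0 ≤ r * τ → r * τ * Real.cos r < (1 + r ^ 2 * x) * Real.sin r → x ≤ z → 
      r * τ * Real.cos r < (1 + r ^ 2 * z) * Real.sin r ∧ 2 * x + r ^ 2 * x ^ 2 ≤ 2 * z + r ^ 2 * z ^ 2 := by
    intro x z h0 h1 hxz
    have h2 : 0 ≤ r * τ * Real.cos r := mul_nonneg h0 hC.le
    have h3 : 0 < 1 + r ^ 2 * x := by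
      by_contra hneg
      push Not at hneg
      nlinarith
    have h4 : r ^ 2 * x ≤ r ^ 2 * z := by gcongr
    constructor
    · calc r * τ * Real.cos r < (1 + r ^ 2 * x) * Real.sin r := h1
        _ ≤ (1 + r ^ 2 * z) * Real.sin r := by gcongr
    · have h5 : 0 ≤ (z - x) * ((1 + r ^ 2 * x) + (1 + r ^ 2 * z)) := by
        apply mul_nonneg (by linarith)
        linarith
      nlinarith
  refine ⟨I1, I2, ?_, ?_, ?_, ?_, hW⟩
  · refine ⟨fun x hx y hy z hz => ?_⟩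
    obtain ⟨⟨hx1, hx2⟩, hx3, _⟩ := (m1 x).mp hx
    obtain ⟨_, _, hy4⟩ := (m1 y).mp hy
    obtain ⟨hz1, hz2⟩ := hz
    obtain ⟨k1, k2⟩ := key hx1 hx2 hz1
    obtain ⟨_, k3⟩ := key hx1 k1 hz2
    exact (m1 z).mpr ⟨⟨hx1, k1⟩, by linarith, by linarith⟩
  · refine ⟨fun x hx y hy z hz => ?_⟩
    obtain ⟨⟨hx1, hx2⟩, hx3, _⟩ := (m2 x).mp hx
    obtain ⟨_, _, hy4⟩ := (m2 y).mp hy
    obtain ⟨hz1, hz2⟩ := hz
    obtain ⟨k1, k2⟩ := key hx1 hx2 hz1
    obtain ⟨_, k3⟩ := key hx1 k1 hz2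
    exact (m2 z).mpr ⟨⟨hx1, k1⟩, by linarith, by linarith⟩
  · intro s hs
    have h2 : s ∉ I2 := fun h => by
      have a := ((m2 s).mp h).2.1
      have b := ((m1 s).mp hs).2.2
      linarith
    have hne : WW r τ s ≠ 0 := by
      rw [hW s, indicator_of_mem hs, indicator_of_notMem h2]; simp
    obtain ⟨_, _, c⟩ := W1 r τ s hr hr1 hne
    exact abs_le.mp c
  · intro s hs
    have h1 : s ∉ I1 := fun h => by
      have a := ((m2 s).mp hs).2.1
      have b := ((m1 s).mp h).2.2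
      linarith
    have hne : WW r τ s ≠ 0 := by
      rw [hW s, indicator_of_mem hs, indicator_of_notMem h1]; simp
    obtain ⟨_, _, c⟩ := W1 r τ s hr hr1 hne
    exact abs_le.mp c

theorem A6_ind {I : Set ℝ} (hI : I.OrdConnected) (hb : I ⊆ Icc 0 2) (h : ℝ) : ∃ a b : ℝ, ∀ τ : ℝ, 
    |I.indicator (1 : ℝ → ℝ) (τ + h) - I.indicator 1 τ| ≤ (Icc (a - |h|) (a + |h|)).indicator 1 τ + (Icc (b - |h|) (b + |h|)).indicator 1 τ := by
  rcases I.eq_empty_or_nonempty with rfl | hne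
  · refine ⟨0, 0, fun τ => ?_⟩
    have h1 : (0:ℝ) ≤ (Icc (0 - |h|) (0 + |h|)).indicator (1 : ℝ → ℝ) τ := indicator_nonneg (fun _ _ => zero_le_one) τ
    simp only [indicator_empty, sub_self, abs_zero]
    linarith
  · have bA : BddAbove I := ⟨2, fun x hx => (hb hx).2⟩
    have bB : BddBelow I := ⟨0, fun x hx => (hb hx).1⟩
    refine ⟨sInf I, sSup I, fun τ => ?_⟩
    have n1 : (0:ℝ) ≤ (Icc (sInf I - |h|) (sInf I + |h|)).indicator (1 : ℝ → ℝ) τ := indicator_nonneg (fun _ _ => zero_le_one) τ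
    have n2 : (0:ℝ) ≤ (Icc (sSup I - |h|) (sSup I + |h|)).indicator (1 : ℝ → ℝ) τ := indicator_nonneg (fun _ _ => zero_le_one) τ
    -- a change implies closeness to an end point
    have key : ∀ x y : ℝ, x ∈ I → y ∉ I → |x - y| ≤ |h| → (|x - sInf I| ≤ |h| ∧ |y - sInf I| ≤ |h|) ∨ (|x - sSup I| ≤ |h| ∧ |y - sSup I| ≤ |h|) := by
      intro x y hx hy hxy
      rw [abs_le] at hxy
      rcases le_total x y with hle | hle
      · right
        have h1 : x ≤ sSup I := le_csSup bA hx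
        have h2 : sSup I ≤ y := by
          by_contra hcon
          push Not at hcon
          obtain ⟨z, hz, hz2⟩ := exists_lt_of_lt_csSup hne hcon
          exact hy (hI.out hx hz ⟨hle, hz2.le⟩)
        constructor <;> rw [abs_le] <;> constructor <;> linarith [hxy.1, hxy.2]
      · left
        have h1 : sInf I ≤ x := csInf_le bB hx
        have h2 : y ≤ sInf I := by
          by_contra hcon
          push Not at hcon
          obtain ⟨z, hz, hz2⟩ := exists_lt_of_csInf_lt hne hcon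
          exact hy (hI.out hz hx ⟨hz2.le, hle⟩)
        constructor <;> rw [abs_le] <;> constructor <;> linarith [hxy.1, hxy.2]
    have fin : (|τ - sInf I| ≤ |h|) ∨ (|τ - sSup I| ≤ |h|) → 
        1 ≤ (Icc (sInf I - |h|) (sInf I + |h|)).indicator (1 : ℝ → ℝ) τ + (Icc (sSup I - |h|) (sSup I + |h|)).indicator (1 : ℝ → ℝ) τ := by
      rintro (h1 | h1)
      · rw [abs_le] at h1
        have : τ ∈ Icc (sInf I - |h|) (sInf I + |h|) := ⟨by linarith [h1.1], by linarith [h1.2]⟩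
        rw [indicator_of_mem this]
        simp only [Pi.one_apply]
        linarith
      · rw [abs_le] at h1
        have : τ ∈ Icc (sSup I - |h|) (sSup I + |h|) := ⟨by linarith [h1.1], by linarith [h1.2]⟩
        rw [indicator_of_mem this (f := (1 : ℝ → ℝ))]
        simp only [Pi.one_apply]
        linarith
    by_cases h1 : τ ∈ I
    · by_cases h2 : τ + h ∈ I
      · rw [indicator_of_mem h1, indicator_of_mem h2]
        simp only [Pi.one_apply, sub_self, abs_zero]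
        linarith
      · rw [indicator_of_mem h1, indicator_of_notMem h2]
        simp only [Pi.one_apply, zero_sub, abs_neg, abs_one]
        apply fin
        rcases key τ (τ + h) h1 h2 (by rw [sub_add_cancel_left, abs_neg]) with h3 | h3
        · exact Or.inl h3.1
        · exact Or.inr h3.1
    · by_cases h2 : τ + h ∈ I
      · rw [indicator_of_notMem h1, indicator_of_mem h2]
        simp only [Pi.one_apply, sub_zero, abs_one]
        apply fin
        rcases key (τ + h) τ h2 h1 (by rw [add_sub_cancel_left]) with h3 | h3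
        · exact Or.inl h3.2
        · exact Or.inr h3.2
      · rw [indicator_of_notMem h1, indicator_of_notMem h2, sub_self, abs_zero]
        linarith

theorem A6_int_ind (c h : ℝ) : Integrable ((Icc (c - |h|) (c + |h|)).indicator (1 : ℝ → ℝ)) ∧ 
    ∫ τ : ℝ, (Icc (c - |h|) (c + |h|)).indicator (1 : ℝ → ℝ) τ = 2 * |h| := by
  have hh := abs_nonneg h
  constructor
  · exact (integrable_indicator_iff measurableSet_Icc).mpr (integrableOn_const (by simp) (by simp))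
  · rw [integral_indicator_one measurableSet_Icc, Real.volume_real_Icc_of_le (by linarith)]
    ring

/-- (W4) -/
theorem W4 : ∃ C : ℝ, 0 < C ∧ ∀ r : ℝ, 0 < r → r ≤ 1 → ∀ h : ℝ,
    ∫ τ : ℝ, ∫ s : ℝ, |WW r (τ + h) s - WW r τ s| ≤ C * |h| := by
  refine ⟨16, by norm_num, fun r hr hr1 h => ?_⟩
  have hh := abs_nonneg h
  have hmeas : Measurable (fun z : ℝ × ℝ => |WW r (z.1 + h) z.2 - WW r z.1 z.2|) := by
    have h1 := A6_measurable_WW r
    have h2 : Measurable (fun z : ℝ × ℝ => WW r (z.1 + h) z.2) := 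
      h1.comp (g := fun z : ℝ × ℝ => WW r z.1 z.2) (f := fun z : ℝ × ℝ => (z.1 + h, z.2)) (by fun_prop)
    exact (h2.sub h1).abs
  have hsupp : ∀ τ s : ℝ, |WW r (τ + h) s - WW r τ s| ≤ (Icc (-|h|) (2 + |h|) ×ˢ Icc (-1:ℝ) 1).indicator (fun _ => (2:ℝ)) (τ, s) := by
    intro τ s
    by_cases hz : (τ, s) ∈ Icc (-|h|) (2 + |h|) ×ˢ Icc (-1:ℝ) 1
    · rw [indicator_of_mem hz]
      have h1 := A6_WW_abs r (τ + h) s
      have h2 := A6_WW_abs r τ s
      calc |WW r (τ + h) s - WW r τ s| ≤ |WW r (τ + h) s| + |WW r τ s| := abs_sub _ _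
        _ ≤ 2 := by linarith
    · rw [indicator_of_notMem hz]
      have h1 : WW r τ s = 0 := by
        by_contra hne
        obtain ⟨a, b, c⟩ := W1 r τ s hr hr1 hne
        exact hz ⟨⟨by linarith, by linarith⟩, abs_le.mp c⟩
      have h2 : WW r (τ + h) s = 0 := by
        by_contra hne
        obtain ⟨a, b, c⟩ := W1 r (τ + h) s hr hr1 hne
        have := neg_abs_le h
        have := le_abs_self h
        exact hz ⟨⟨by linarith, by linarith⟩, abs_le.mp c⟩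
      rw [h1, h2, sub_zero, abs_zero]
  have hint : Integrable (Function.uncurry fun τ s : ℝ => |WW r (τ + h) s - WW r τ s|) (volume.prod volume) := by
    have hb : Integrable ((Icc (-|h|) (2 + |h|) ×ˢ Icc (-1:ℝ) 1).indicator (fun _ : ℝ × ℝ => (2:ℝ))) (volume.prod volume) := by
      refine (integrable_indicator_iff (measurableSet_Icc.prod measurableSet_Icc)).mpr (integrableOn_const ?_ (by simp))
      rw [Measure.prod_prod]
      exact ENNReal.mul_ne_top (by simp) (by simp)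
    refine hb.mono' hmeas.aestronglyMeasurable (Filter.Eventually.of_forall fun z => ?_)
    obtain ⟨τ, s⟩ := z
    show ‖|WW r (τ + h) s - WW r τ s|‖ ≤ _
    rw [Real.norm_eq_abs, abs_abs]
    exact hsupp τ s
  rw [integral_integral_swap hint]
  have hin : ∀ s : ℝ, ∫ τ : ℝ, |WW r (τ + h) s - WW r τ s| ≤ (Icc (-1:ℝ) 1).indicator (fun _ => 8 * |h|) s := by
    intro s
    by_cases hs : s ∈ Icc (-1:ℝ) 1
    · rw [indicator_of_mem hs]
      obtain ⟨I1, I2, o1, o2, b1, b2, hW⟩ := W2 r s hr hr1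
      obtain ⟨a1, a2, ha⟩ := A6_ind o1 b1 h
      obtain ⟨c1, c2, hc⟩ := A6_ind o2 b2 h
      obtain ⟨j1, e1⟩ := A6_int_ind a1 h
      obtain ⟨j2, e2⟩ := A6_int_ind a2 h
      obtain ⟨j3, e3⟩ := A6_int_ind c1 h
      obtain ⟨j4, e4⟩ := A6_int_ind c2 h
      calc ∫ τ : ℝ, |WW r (τ + h) s - WW r τ s| ≤ ∫ τ : ℝ, (((Icc (a1 - |h|) (a1 + |h|)).indicator (1 : ℝ → ℝ) τ + (Icc (a2 - |h|) (a2 + |h|)).indicator (1 : ℝ → ℝ) τ) + 
            ((Icc (c1 - |h|) (c1 + |h|)).indicator (1 : ℝ → ℝ) τ + (Icc (c2 - |h|) (c2 + |h|)).indicator (1 : ℝ → ℝ) τ)) := by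
            refine integral_mono_of_nonneg (Filter.Eventually.of_forall fun _ => abs_nonneg _) ((j1.add j2).add (j3.add j4)) 
              (Filter.Eventually.of_forall fun τ => ?_)
            show |WW r (τ + h) s - WW r τ s| ≤ _
            rw [hW, hW]
            have k1 := ha τ
            have k2 := hc τ
            calc |I1.indicator (1 : ℝ → ℝ) (τ + h) - I2.indicator 1 (τ + h) - (I1.indicator 1 τ - I2.indicator 1 τ)| 
                = |(I1.indicator (1 : ℝ → ℝ) (τ + h) - I1.indicator 1 τ) - (I2.indicator (1 : ℝ → ℝ) (τ + h) - I2.indicator 1 τ)| := by congr 1; ring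
              _ ≤ |I1.indicator (1 : ℝ → ℝ) (τ + h) - I1.indicator 1 τ| + |I2.indicator (1 : ℝ → ℝ) (τ + h) - I2.indicator 1 τ| := abs_sub _ _
              _ ≤ _ := add_le_add k1 k2
        _ = 8 * |h| := by
            have j12 : Integrable (fun τ : ℝ => (Icc (a1 - |h|) (a1 + |h|)).indicator (1 : ℝ → ℝ) τ + (Icc (a2 - |h|) (a2 + |h|)).indicator (1 : ℝ → ℝ) τ) := j1.add j2
            have j34 : Integrable (fun τ : ℝ => (Icc (c1 - |h|) (c1 + |h|)).indicator (1 : ℝ → ℝ) τ + (Icc (c2 - |h|) (c2 + |h|)).indicator (1 : ℝ → ℝ) τ) := j3.add j4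
            rw [integral_add j12 j34, integral_add j1 j2, integral_add j3 j4, e1, e2, e3, e4]; ring
    · rw [indicator_of_notMem hs]
      have h0 : ∀ τ : ℝ, WW r τ s = 0 := by
        intro τ
        by_contra hne
        obtain ⟨a, b, c⟩ := W1 r τ s hr hr1 hne
        exact hs (abs_le.mp c)
      simp [h0]
  calc ∫ s : ℝ, ∫ τ : ℝ, |WW r (τ + h) s - WW r τ s| ≤ ∫ s : ℝ, (Icc (-1:ℝ) 1).indicator (fun _ => 8 * |h|) s := by
        refine integral_mono_of_nonneg (Filter.Eventually.of_forall fun _ => integral_nonneg fun _ => abs_nonneg _) ?_ 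
          (Filter.Eventually.of_forall hin)
        exact (integrable_indicator_iff measurableSet_Icc).mpr (integrableOn_const (by simp) enorm_ne_top)
    _ = 16 * |h| := by
        rw [integral_indicator measurableSet_Icc, setIntegral_const, Real.volume_real_Icc_of_le (by norm_num)]
        rw [smul_eq_mul]; ring

/-- (W5) -/
theorem W5 : ∃ C : ℝ, 0 < C ∧ ∀ r : ℝ, 0 < r → r ≤ 1 / 4 →
    ∀ τ : ℝ, C * r ^ 2 ≤ |τ - 1| → |∫ s : ℝ, WW r τ s| ≤ C * r ^ 2 := by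
  refine ⟨1, one_pos, fun r hr hr4 τ hτ => ?_⟩
  rw [one_mul] at hτ ⊢
  have hr1 : r ≤ 1 := by linarith
  obtain ⟨hS, hC, hSr, hCr⟩ := A6_trig hr hr1
  have hr2 : 0 < r ^ 2 := by positivity
  have hr2' : r ^ 2 ≤ 1/16 := by
    calc r ^ 2 ≤ (1/4) ^ 2 := pow_le_pow_left₀ hr.le hr4 2
      _ = 1/16 := by norm_num
  obtain ⟨S, hSd⟩ : ∃ S : ℝ, S = Real.sin r := ⟨_, rfl⟩
  obtain ⟨K, hK⟩ : ∃ K : ℝ, K = Real.cos r := ⟨_, rfl⟩
  have hSK : S ^ 2 + K ^ 2 = 1 := by rw [hSd, hK]; exact Real.sin_sq_add_cos_sq r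
  rw [← hSd] at hS hSr
  rw [← hK] at hC hCr
  have hzero : (∀ s, WW r τ s = 0) → |∫ s : ℝ, WW r τ s| ≤ r ^ 2 := by
    intro h
    simp [h, hr2.le]
  rcases lt_or_ge τ 0 with hneg | hτ0
  · apply hzero
    intro s
    by_contra hne
    linarith [(W1 r τ s hr hr1 hne).1]
  rcases le_total 1 τ with h1τ | h1τ
  · -- τ ≥ 1 + r²
    rw [abs_of_nonneg (by linarith)] at hτ
    apply hzero
    intro s
    by_contra hne
    unfold WW at hne
    split_ifs at hne with hc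
    swap
    · exact hne rfl
    obtain ⟨ht0, ht1⟩ := A6_haar_ne hne
    obtain ⟨hc1, hc2⟩ := hc
    obtain ⟨X, hX⟩ : ∃ X : ℝ, X = 1 + r ^ 2 * s := ⟨_, rfl⟩
    obtain ⟨t, ht⟩ : ∃ t : ℝ, t = 2 * s + r ^ 2 * s ^ 2 + τ ^ 2 := ⟨_, rfl⟩
    rw [← ht] at ht0 ht1
    rw [← hX, ← hSd, ← hK] at hc2
    have hXt : X ^ 2 + (r * τ) ^ 2 = 1 + r ^ 2 * t := by rw [hX, ht]; ring
    have hrK : 0 ≤ r * τ * K := by positivity
    have hsq : (r * τ * K) ^ 2 < (X * S) ^ 2 := by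
      apply pow_lt_pow_left₀ hc2 hrK (by norm_num)
    have h1 : (r * τ) ^ 2 < S ^ 2 * (1 + r ^ 2 * t) := by
      have e : (r * τ) ^ 2 = (r * τ * K) ^ 2 + (r * τ) ^ 2 * S ^ 2 := by
        have : (r * τ) ^ 2 * (S ^ 2 + K ^ 2) = (r * τ) ^ 2 := by rw [hSK, mul_one]
        linear_combination (-1) * this
      rw [← hXt]
      linarith
    have h2 : S ^ 2 ≤ r ^ 2 := by gcongr
    have h4 : S ^ 2 * (1 + r ^ 2 * t) ≤ r ^ 2 * (1 + r ^ 2) := by
      have : 1 + r ^ 2 * t ≤ 1 + r ^ 2 := by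
        have := mul_le_mul_of_nonneg_left ht1 hr2.le
        linarith
      gcongr
    have h6 : r ^ 2 * τ ^ 2 < r ^ 2 * (1 + r ^ 2) := by linarith
    have h7 : τ ^ 2 < 1 + r ^ 2 := lt_of_mul_lt_mul_left h6 (by positivity)
    have h8 : (1 + r ^ 2) ^ 2 ≤ τ ^ 2 := by
      apply pow_le_pow_left₀ (by positivity)
      linarith
    have h9 := mul_pos hr2 hr2
    linarith
  · -- τ ≤ 1 - r²
    rw [abs_of_nonpos (by linarith)] at hτ
    have hτ' : τ ≤ 1 - r ^ 2 := by linarith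
    have hτ2 : τ ^ 2 ≤ 1 := pow_le_one₀ hτ0 h1τ
    have hSlow : r - r ^ 3 / 6 < S := by rw [hSd]; exact Real.sin_gt_sub_cube hr
    have hrτ : r * τ < S := by
      have h1 : r * τ ≤ r * (1 - r ^ 2) := by gcongr
      have h2 : 0 < r ^ 3 := by positivity
      linarith
    obtain ⟨a, ha⟩ : ∃ a : ℝ, a = 1 - r ^ 2 * τ ^ 2 := ⟨_, rfl⟩
    have ha1 : 15/16 ≤ a := by
      have h9 := mul_le_mul hr2' hτ2 (sq_nonneg τ) (by norm_num : (0:ℝ) ≤ 1/16)
      rw [ha]; linarith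
    -- the condition holds automatically on the right branch
    have hcond : ∀ s : ℝ, 0 < 1 + r ^ 2 * s → 0 ≤ 2 * s + r ^ 2 * s ^ 2 + τ ^ 2 → 
        r * τ * K < (1 + r ^ 2 * s) * S := by
      intro s hs hts
      obtain ⟨X, hX⟩ : ∃ X : ℝ, X = 1 + r ^ 2 * s := ⟨_, rfl⟩
      obtain ⟨t, ht⟩ : ∃ t : ℝ, t = 2 * s + r ^ 2 * s ^ 2 + τ ^ 2 := ⟨_, rfl⟩
      rw [← ht] at hts
      rw [← hX] at hs ⊢
      have hXt : X ^ 2 + (r * τ) ^ 2 = 1 + r ^ 2 * t := by rw [hX, ht]; ring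
      have h0 : 0 ≤ r * τ := by positivity
      have h1 : (r * τ) ^ 2 < S ^ 2 := pow_lt_pow_left₀ hrτ h0 (by norm_num)
      have h2 : (r * τ * K) ^ 2 < (X * S) ^ 2 := by
        have e1 : (r * τ * K) ^ 2 = (r * τ) ^ 2 - (r * τ) ^ 2 * S ^ 2 := by
          have : (r * τ) ^ 2 * (S ^ 2 + K ^ 2) = (r * τ) ^ 2 := by rw [hSK, mul_one]
          linear_combination this
        have e2 : (X * S) ^ 2 = (1 + r ^ 2 * t - (r * τ) ^ 2) * S ^ 2 := by
          rw [← hXt]; ring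
        have h3 : 0 ≤ r ^ 2 * t * S ^ 2 := by positivity
        rw [e1, e2]
        linarith
      exact lt_of_pow_lt_pow_left₀ 2 (by positivity) h2
    -- the integral
    obtain ⟨y0, hy0⟩ : ∃ y : ℝ, y = √a := ⟨_, rfl⟩
    obtain ⟨y1, hy1⟩ : ∃ y : ℝ, y = √(a + r ^ 2 / 2) := ⟨_, rfl⟩
    obtain ⟨y2, hy2⟩ : ∃ y : ℝ, y = √(a + r ^ 2) := ⟨_, rfl⟩
    have q0 : y0 ^ 2 = a := by rw [hy0]; exact Real.sq_sqrt (by linarith)
    have q1 : y1 ^ 2 = a + r ^ 2 / 2 := by rw [hy1]; exact Real.sq_sqrt (by positivity)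
    have q2 : y2 ^ 2 = a + r ^ 2 := by rw [hy2]; exact Real.sq_sqrt (by positivity)
    have p0 : 0 < y0 := by rw [hy0]; exact Real.sqrt_pos.mpr (by linarith)
    have p1 : 0 < y1 := by rw [hy1]; exact Real.sqrt_pos.mpr (by positivity)
    have p2 : 0 < y2 := by rw [hy2]; exact Real.sqrt_pos.mpr (by positivity)
    have hb0 : 15/16 ≤ y0 := by
      by_contra hcon
      push Not at hcon
      have h9 := pow_lt_pow_left₀ hcon p0.le (by norm_num : (2:ℕ) ≠ 0)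
      rw [q0] at h9
      norm_num at h9
      linarith
    have l01 : y0 ≤ y1 := by
      rw [hy0, hy1]; exact Real.sqrt_le_sqrt (by linarith)
    have l12 : y1 ≤ y2 := by
      rw [hy1, hy2]; exact Real.sqrt_le_sqrt (by linarith)
    have hsolve : ∀ s b y : ℝ, 0 < y → y ^ 2 = a + r ^ 2 * b → 0 < 1 + r ^ 2 * s → 
        (2 * s + r ^ 2 * s ^ 2 + τ ^ 2 ≤ b ↔ s ≤ (y - 1) / r ^ 2) ∧ (b ≤ 2 * s + r ^ 2 * s ^ 2 + τ ^ 2 ↔ (y - 1) / r ^ 2 ≤ s) := by
      intro s b y hy hyb hs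
      have e : (1 + r ^ 2 * s) ^ 2 = a + r ^ 2 * (2 * s + r ^ 2 * s ^ 2 + τ ^ 2) := by rw [ha]; ring
      constructor
      · rw [le_div_iff₀ hr2]
        constructor
        · intro h
          have : (1 + r ^ 2 * s) ^ 2 ≤ y ^ 2 := by rw [e, hyb]; gcongr
          have := le_of_sq_le_sq this hy.le
          linarith
        · intro h
          have h1 : 1 + r ^ 2 * s ≤ y := by linarith
          have h2 : (1 + r ^ 2 * s) ^ 2 ≤ y ^ 2 := by gcongr
          rw [e, hyb] at h2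
          have h3 : r ^ 2 * (2 * s + r ^ 2 * s ^ 2 + τ ^ 2) ≤ r ^ 2 * b := by linarith
          exact le_of_mul_le_mul_left h3 hr2
      · rw [div_le_iff₀ hr2]
        constructor
        · intro h
          have : y ^ 2 ≤ (1 + r ^ 2 * s) ^ 2 := by rw [e, hyb]; gcongr
          have := le_of_sq_le_sq this hs.le
          linarith
        · intro h
          have h1 : y ≤ 1 + r ^ 2 * s := by linarith
          have h2 : y ^ 2 ≤ (1 + r ^ 2 * s) ^ 2 := by gcongr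
          rw [e, hyb] at h2
          have h3 : r ^ 2 * b ≤ r ^ 2 * (2 * s + r ^ 2 * s ^ 2 + τ ^ 2) := by linarith
          exact le_of_mul_le_mul_left h3 hr2
    have hWeq : ∀ s : ℝ, WW r τ s = (Icc ((y0 - 1) / r ^ 2) ((y1 - 1) / r ^ 2)).indicator 1 s - (Ioc ((y1 - 1) / r ^ 2) ((y2 - 1) / r ^ 2)).indicator 1 s := by
      intro s
      rcases le_or_gt (1 + r ^ 2 * s) 0 with hs | hs
      · have n0 : s < (y0 - 1) / r ^ 2 := by
          rw [lt_div_iff₀ hr2]; linarith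
        have n1 : s ≤ (y1 - 1) / r ^ 2 := by
          rw [le_div_iff₀ hr2]; linarith
        have m1 : s ∉ Icc ((y0 - 1) / r ^ 2) ((y1 - 1) / r ^ 2) := fun h => absurd h.1 (not_le.mpr n0)
        have m2 : s ∉ Ioc ((y1 - 1) / r ^ 2) ((y2 - 1) / r ^ 2) := fun h => absurd h.1 (not_lt.mpr n1)
        rw [indicator_of_notMem m1, indicator_of_notMem m2, sub_zero]
        unfold WW
        rw [if_neg]
        rintro ⟨h1, h2⟩
        rw [← hSd, ← hK] at h2
        have h3 : 0 ≤ r * τ * K := by positivity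
        have h4 := mul_nonpos_of_nonpos_of_nonneg hs hS.le
        linarith
      · obtain ⟨A0, B0⟩ := hsolve s 0 y0 p0 (by rw [q0]; ring) hs
        obtain ⟨A1, B1⟩ := hsolve s (1/2) y1 p1 (by rw [q1]; ring) hs
        obtain ⟨A2, B2⟩ := hsolve s 1 y2 p2 (by rw [q2]; ring) hs
        have hrτ0 : 0 ≤ r * τ := by positivity
        rcases le_or_gt 0 (2 * s + r ^ 2 * s ^ 2 + τ ^ 2) with ht0 | ht0
        · have hc := hcond s hs ht0
          rw [hSd, hK] at hc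
          unfold WW
          rw [if_pos ⟨hrτ0, hc⟩]
          unfold haar
          rcases le_or_gt (2 * s + r ^ 2 * s ^ 2 + τ ^ 2) (1/2) with ht1 | ht1
          · have m1 : s ∈ Icc ((y0 - 1) / r ^ 2) ((y1 - 1) / r ^ 2) := ⟨B0.mp ht0, A1.mp ht1⟩
            have m2 : s ∉ Ioc ((y1 - 1) / r ^ 2) ((y2 - 1) / r ^ 2) := fun h => absurd h.1 (not_lt.mpr (A1.mp ht1))
            rw [if_pos ⟨ht0, ht1⟩, indicator_of_mem m1, indicator_of_notMem m2]; simp
          · have m1 : s ∉ Icc ((y0 - 1) / r ^ 2) ((y1 - 1) / r ^ 2) := fun h => absurd (A1.mpr h.2) (not_le.mpr ht1)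
            have m3 : (y1 - 1) / r ^ 2 < s := by
              by_contra hcon
              push Not at hcon
              exact absurd (A1.mpr hcon) (not_le.mpr ht1)
            rw [if_neg (fun h => absurd h.2 (not_le.mpr ht1)), indicator_of_notMem m1]
            by_cases ht2 : 2 * s + r ^ 2 * s ^ 2 + τ ^ 2 ≤ 1
            · have m2 : s ∈ Ioc ((y1 - 1) / r ^ 2) ((y2 - 1) / r ^ 2) := ⟨m3, A2.mp ht2⟩
              rw [if_pos ⟨ht1, ht2⟩, indicator_of_mem m2]; simp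
            · have m2 : s ∉ Ioc ((y1 - 1) / r ^ 2) ((y2 - 1) / r ^ 2) := fun h => ht2 (A2.mpr h.2)
              rw [if_neg (fun h => ht2 h.2), indicator_of_notMem m2]; simp
        · have m1 : s ∉ Icc ((y0 - 1) / r ^ 2) ((y1 - 1) / r ^ 2) := fun h => absurd (B0.mpr h.1) (not_le.mpr ht0)
          have m2 : s ∉ Ioc ((y1 - 1) / r ^ 2) ((y2 - 1) / r ^ 2) := by
            intro h
            have h3 : (y0 - 1) / r ^ 2 ≤ (y1 - 1) / r ^ 2 := by gcongr
            exact absurd (B0.mpr (h3.trans h.1.le)) (not_le.mpr ht0)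
          rw [indicator_of_notMem m1, indicator_of_notMem m2, sub_zero]
          unfold WW
          split_ifs with hc
          · by_contra hne
            exact absurd (A6_haar_ne hne).1 (not_le.mpr ht0)
          · rfl
    have hint : ∫ s : ℝ, WW r τ s = ((y1 - 1) / r ^ 2 - (y0 - 1) / r ^ 2) - ((y2 - 1) / r ^ 2 - (y1 - 1) / r ^ 2) := by
      have g01 : (y0 - 1) / r ^ 2 ≤ (y1 - 1) / r ^ 2 := by gcongr
      have g12 : (y1 - 1) / r ^ 2 ≤ (y2 - 1) / r ^ 2 := by gcongr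
      have i1 : Integrable ((Icc ((y0 - 1) / r ^ 2) ((y1 - 1) / r ^ 2)).indicator (1 : ℝ → ℝ)) := 
        (integrable_indicator_iff measurableSet_Icc).mpr (integrableOn_const (by simp) (by simp))
      have i2 : Integrable ((Ioc ((y1 - 1) / r ^ 2) ((y2 - 1) / r ^ 2)).indicator (1 : ℝ → ℝ)) := 
        (integrable_indicator_iff measurableSet_Ioc).mpr (integrableOn_const (by simp) (by simp))
      simp_rw [hWeq]
      rw [integral_sub i1 i2, integral_indicator_one measurableSet_Icc, integral_indicator_one measurableSet_Ioc, 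
        Real.volume_real_Icc_of_le g01, Real.volume_real_Ioc_of_le g12]
    rw [hint]
    have e : ((y1 - 1) / r ^ 2 - (y0 - 1) / r ^ 2) - ((y2 - 1) / r ^ 2 - (y1 - 1) / r ^ 2) = (2 * y1 - y0 - y2) / r ^ 2 := by
      field_simp; ring
    rw [e, abs_div, abs_of_pos hr2, div_le_iff₀ hr2]
    -- 0 ≤ 2 y1 - y0 - y2 ≤ r^4
    have d1 : (y1 - y0) * (y1 + y0) = r ^ 2 / 2 := by linear_combination q1 - q0
    have d2 : (y2 - y1) * (y2 + y1) = r ^ 2 / 2 := by linear_combination q2 - q1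
    have d3 : (y2 - y0) * (y2 + y0) = r ^ 2 := by linear_combination q2 - q0
    have f1 : y2 - y0 ≤ r ^ 2 := by
      have h9 := mul_nonneg (sub_nonneg.mpr (l01.trans l12)) (by linarith : (0:ℝ) ≤ y2 + y0 - 1)
      linarith
    have hkey : (2 * y1 - y0 - y2) * (y1 + y0) = (y2 - y1) * (y2 - y0) := by linear_combination 2 * q1 - q0 - q2
    rw [abs_le]
    constructor
    · have : 0 ≤ (2 * y1 - y0 - y2) * (y1 + y0) := by
        rw [hkey]; exact mul_nonneg (by linarith) (by linarith)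
      have h9 : 0 ≤ 2 * y1 - y0 - y2 := nonneg_of_mul_nonneg_left this (by linarith)
      have : 0 ≤ r ^ 2 * r ^ 2 := by positivity
      linarith
    · have h10 : (2 * y1 - y0 - y2) * (y1 + y0) ≤ r ^ 2 * r ^ 2 := by
        rw [hkey]
        apply mul_le_mul _ f1 (by linarith) hr2.le
        linarith
      have h11 : 0 ≤ (2 * y1 - y0 - y2) * (y1 + y0) := by
        rw [hkey]; exact mul_nonneg (by linarith) (by linarith)
      have h9 : 0 ≤ 2 * y1 - y0 - y2 := nonneg_of_mul_nonneg_left h11 (by linarith)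
      have h12 := mul_nonneg h9 (by linarith : (0:ℝ) ≤ y1 + y0 - 1)
      linarith

/-! ### formula (4.1) -/

/-- indicator of the sector `0 ≤ arg v < r` -/
noncomputable def A6_chi (r : ℝ) (v : ℂ) : ℝ :=
  if 0 ≤ v.im ∧ v.im * Real.cos r < v.re * Real.sin r then 1 else 0

theorem A6_chi_meas (r : ℝ) : Measurable (A6_chi r) := by
  unfold A6_chi
  have h1 : MeasurableSet {v : ℂ | 0 ≤ v.im} := measurableSet_le measurable_const (by fun_prop)
  have h2 : MeasurableSet {v : ℂ | v.im * Real.cos r < v.re * Real.sin r} := 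
    measurableSet_lt (by fun_prop) (by fun_prop)
  exact Measurable.ite (h1.inter h2) measurable_const measurable_const

theorem A6_chi_abs (r : ℝ) (v : ℂ) : |A6_chi r v| ≤ 1 := by
  unfold A6_chi; split_ifs <;> norm_num

theorem A6_ang (r : ℝ) (hr : 0 < r) (hr1 : r ≤ 1) (u : ℂ) (hu : u ≠ 0) :
    ∫ θ in (0:ℝ)..(2*Real.pi), A6_chi r (starRingEnd ℂ (U θ) * u) = r := by
  have hn : 0 < ‖u‖ := norm_pos_iff.mpr hu
  have hpi := Real.pi_gt_three
  obtain ⟨g, hg⟩ : ∃ g : ℝ → ℝ, g = fun α => if 0 ≤ Real.sin α ∧ 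
      Real.sin α * Real.cos r < Real.cos α * Real.sin r then (1:ℝ) else 0 := ⟨_, rfl⟩
  have hper : Function.Periodic g (2 * Real.pi) := by
    intro α
    rw [hg]
    simp only [Real.sin_add_two_pi, Real.cos_add_two_pi]
  have h1 : ∀ θ : ℝ, A6_chi r (starRingEnd ℂ (U θ) * u) = g (u.arg - θ) := by
    intro θ
    have hu' : u = (‖u‖ : ℂ) * U u.arg := (Complex.norm_mul_exp_arg_mul_I u).symm
    have h2 : starRingEnd ℂ (U θ) * u = (‖u‖ : ℂ) * U (u.arg - θ) := by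
      have h3 : starRingEnd ℂ (U θ) * u = starRingEnd ℂ (U θ) * ((‖u‖ : ℂ) * U u.arg) := by rw [← hu']
      rw [h3, conj_U, sub_eq_add_neg, U_add]; ring
    have him : ((‖u‖ : ℂ) * U (u.arg - θ)).im = ‖u‖ * Real.sin (u.arg - θ) := by
      rw [Complex.im_ofReal_mul, U_im]
    have hre : ((‖u‖ : ℂ) * U (u.arg - θ)).re = ‖u‖ * Real.cos (u.arg - θ) := by
      rw [Complex.re_ofReal_mul, U_re]
    rw [h2, hg]
    unfold A6_chi
    rw [him, hre]
    refine if_congr ?_ rfl rfl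
    constructor
    · rintro ⟨h3, h4⟩
      refine ⟨(mul_nonneg_iff_of_pos_left hn).1 h3, ?_⟩
      rw [mul_assoc, mul_assoc] at h4
      exact lt_of_mul_lt_mul_left h4 hn.le
    · rintro ⟨h3, h4⟩
      refine ⟨(mul_nonneg_iff_of_pos_left hn).2 h3, ?_⟩
      rw [mul_assoc, mul_assoc]
      exact mul_lt_mul_of_pos_left h4 hn
  simp_rw [h1]
  rw [intervalIntegral.integral_comp_sub_left g u.arg]
  have h3 := hper.intervalIntegral_add_eq (u.arg - 2 * Real.pi) (-Real.pi)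
  have e1 : u.arg - 2 * Real.pi + 2 * Real.pi = u.arg - 0 := by ring
  have e2 : -Real.pi + 2 * Real.pi = Real.pi := by ring
  rw [e1, e2] at h3
  rw [h3, intervalIntegral.integral_of_le (by linarith)]
  have h4 : ∫ x in Ioc (-Real.pi) Real.pi, g x = 
      ∫ x in Ioc (-Real.pi) Real.pi, (Ico 0 r).indicator (fun _ => (1:ℝ)) x := by
    refine setIntegral_congr_fun measurableSet_Ioc (fun x hx => ?_)
    obtain ⟨hx1, hx2⟩ := hx
    have hsub : Real.sin x * Real.cos r < Real.cos x * Real.sin r ↔ Real.sin (x - r) < 0 := by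
      rw [Real.sin_sub]; constructor <;> intro h <;> linarith
    simp only [hg, hsub]
    by_cases hx0 : 0 ≤ x
    · have hs : 0 ≤ Real.sin x := Real.sin_nonneg_of_nonneg_of_le_pi hx0 hx2
      by_cases hxr : x < r
      · have h5 : Real.sin (x - r) < 0 := Real.sin_neg_of_neg_of_neg_pi_lt (by linarith) (by linarith)
        rw [if_pos ⟨hs, h5⟩, indicator_of_mem (show x ∈ Ico 0 r from ⟨hx0, hxr⟩)]
      · have h5 : 0 ≤ Real.sin (x - r) := Real.sin_nonneg_of_nonneg_of_le_pi (by linarith) (by linarith)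
        rw [if_neg (by rintro ⟨_, h6⟩; linarith), indicator_of_notMem (fun h => hxr h.2)]
    · have hs : Real.sin x < 0 := Real.sin_neg_of_neg_of_neg_pi_lt (by linarith) (by linarith)
      rw [if_neg (by rintro ⟨h6, _⟩; linarith), indicator_of_notMem (fun h => hx0 h.1)]
  rw [h4, setIntegral_indicator measurableSet_Ico]
  have h5 : Ioc (-Real.pi) Real.pi ∩ Ico 0 r = Ico 0 r := by
    apply inter_eq_self_of_subset_right
    intro x hx
    exact ⟨by linarith [hx.1], by linarith [hx.2]⟩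
  rw [h5]
  simp [hr.le]

theorem A6_rot_int (θ : ℝ) (F : ℂ → ℂ) : ∫ v : ℂ, F (U θ * v) = ∫ u, F u := by
  have h := (rotation (Circle.exp θ)).measurePreserving.integral_comp 
    (rotation (Circle.exp θ)).toHomeomorph.measurableEmbedding F
  simpa [rotation_apply, U] using h

theorem A6_intble (F : ℂ → ℂ) (hF : Measurable F) (M : ℝ) (hM : ∀ v, ‖F v‖ ≤ M)
    (hs : ∀ v, 2 < ‖v‖ → F v = 0) : Integrable F := by
  have h1 : IntegrableOn F (Metric.closedBall 0 2) := by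
    apply Measure.integrableOn_of_bounded (M := M)
    · exact measure_closedBall_lt_top.ne
    · exact hF.aestronglyMeasurable
    · exact Filter.Eventually.of_forall hM
  refine (integrableOn_iff_integrable_of_support_subset (fun v hv => ?_)).1 h1
  rw [Metric.mem_closedBall, dist_zero_right]
  by_contra hc
  exact hv (hs v (not_le.mp hc))

theorem A6_fub (F : ℂ → ℂ) (hF : Integrable F) : 
    ∫ v, F v = ∫ y : ℝ, ∫ x : ℝ, F (x + y * I) := by
  have h1 := Complex.volume_preserving_equiv_real_prod.symm.integral_comp 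
    (Complex.measurableEquivRealProd.symm.measurableEmbedding) F
  rw [← h1]
  have h2 : Integrable (fun z : ℝ × ℝ => F (Complex.measurableEquivRealProd.symm z)) 
      (volume.prod volume) :=
    (Complex.volume_preserving_equiv_real_prod.symm.integrable_comp_emb
      Complex.measurableEquivRealProd.symm.measurableEmbedding).2 hF
  have h3 := integral_prod_symm _ h2
  rw [Measure.volume_eq_prod, h3]
  congr 1; ext y; congr 1; ext x; congr 1
  apply Complex.ext <;> simp [Complex.measurableEquivRealProd_symm_apply]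

theorem A6_kD_ne {r : ℝ} (hr : 0 < r) (hr1 : r ≤ 1) {v : ℂ} (h : kD r v ≠ 0) : 
    1 ≤ normSq v ∧ normSq v ≤ 2 := by
  unfold kD at h
  have h1 := A6_haar_ne (right_ne_zero_of_mul h)
  have h2 : 0 < r ^ 2 := by positivity
  have h3 : r ^ 2 ≤ 1 := by nlinarith
  obtain ⟨ha, hb⟩ := h1
  rw [div_le_one h2] at hb
  have hc : 0 ≤ normSq v - 1 := by
    by_contra hcon
    have := div_neg_of_neg_of_pos (not_le.mp hcon) h2
    linarith
  constructor <;> linarith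

theorem A6_kD_abs {r : ℝ} (v : ℂ) : |kD r v| ≤ (r ^ 2)⁻¹ := by
  unfold kD
  rw [abs_mul, abs_of_nonneg (by positivity : 0 ≤ (r ^ 2)⁻¹)]
  calc (r^2)⁻¹ * _ ≤ (r^2)⁻¹ * 1 := by gcongr; exact A6_haar_abs _
    _ = _ := mul_one _

theorem A6_kD_meas (r : ℝ) : Measurable (kD r) := by
  unfold kD
  have h1 : Measurable (fun u : ℂ => (normSq u - 1) / r ^ 2) := by
    have : Measurable (fun u : ℂ => normSq u) := Complex.continuous_normSq.measurable
    fun_prop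
  exact (A6_measurable_haar.comp h1).const_mul _

/-- change of variables for one direction -/
theorem A6_chg (r : ℝ) (hr : 0 < r) (hr1 : r ≤ 1) (Φ : ℂ → ℂ) (hΦ : Measurable Φ) (M : ℝ) 
    (hM : ∀ v, ‖Φ v‖ ≤ M) :
    ∫ τ : ℝ, ∫ s : ℝ, (WW r τ s : ℂ) * Φ (1 + I * (r * τ : ℝ) + (r ^ 2 * s : ℝ)) = 
      (r⁻¹ : ℝ) * ∫ v : ℂ, ((A6_chi r v : ℝ) : ℂ) * ((kD r v : ℝ) : ℂ) * Φ v := by
  have hM0 : 0 ≤ M := le_trans (norm_nonneg _) (hM 0)
  obtain ⟨F, hF⟩ : ∃ F : ℂ → ℂ, F = fun v => ((A6_chi r v : ℝ) : ℂ) * ((kD r v : ℝ) : ℂ) * Φ v := ⟨_, rfl⟩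
  have hFm : Measurable F := by
    rw [hF]
    exact ((Complex.measurable_ofReal.comp (A6_chi_meas r)).mul 
      (Complex.measurable_ofReal.comp (A6_kD_meas r))).mul hΦ
  have hFb : ∀ v, ‖F v‖ ≤ 1 * (r ^ 2)⁻¹ * M := by
    intro v
    rw [hF]
    simp only [norm_mul, Complex.norm_real, Real.norm_eq_abs]
    gcongr
    · exact A6_chi_abs r v
    · exact A6_kD_abs v
    · exact hM v
  have hFs : ∀ v, 2 < ‖v‖ → F v = 0 := by
    intro v hv
    have : kD r v = 0 := by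
      by_contra hc
      have h1 := (A6_kD_ne hr hr1 hc).2
      rw [Complex.normSq_eq_norm_sq] at h1
      nlinarith
    rw [hF]; simp [this]
  have hFi := A6_intble F hFm _ hFb hFs
  have hW : ∀ τ s : ℝ, (WW r τ s : ℂ) * Φ (1 + I * (r * τ : ℝ) + (r ^ 2 * s : ℝ)) = 
      ((r ^ 2 : ℝ) : ℂ) * F (((1 + r ^ 2 * s : ℝ) : ℂ) + ((r * τ : ℝ) : ℂ) * I) := by
    intro τ s
    have e : (1 + I * (r * τ : ℝ) + (r ^ 2 * s : ℝ) : ℂ) = ((1 + r ^ 2 * s : ℝ) : ℂ) + ((r * τ : ℝ) : ℂ) * I := by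
      push_cast; ring
    rw [e]
    obtain ⟨v, hv⟩ : ∃ v : ℂ, v = ((1 + r ^ 2 * s : ℝ) : ℂ) + ((r * τ : ℝ) : ℂ) * I := ⟨_, rfl⟩
    rw [← hv]
    have hre : v.re = 1 + r ^ 2 * s := by
      rw [hv, Complex.add_re, Complex.ofReal_re, Complex.re_ofReal_mul, Complex.I_re]; ring
    have him : v.im = r * τ := by
      rw [hv, Complex.add_im, Complex.ofReal_im, Complex.im_ofReal_mul, Complex.I_im]; ring
    have hnq : (normSq v - 1) / r ^ 2 = 2 * s + r ^ 2 * s ^ 2 + τ ^ 2 := by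
      rw [Complex.normSq_apply, hre, him]; field_simp; ring
    have hWv : WW r τ s = r ^ 2 * (A6_chi r v * kD r v) := by
      unfold WW A6_chi kD
      rw [hnq, hre, him]
      split_ifs
      · field_simp
      · simp
    rw [hWv, hF]
    push_cast; ring
  simp_rw [hW]
  have h1 : ∀ τ : ℝ, ∫ s : ℝ, ((r ^ 2 : ℝ) : ℂ) * F (((1 + r ^ 2 * s : ℝ) : ℂ) + ((r * τ : ℝ) : ℂ) * I) = 
      ∫ x : ℝ, F ((x : ℂ) + ((r * τ : ℝ) : ℂ) * I) := by
    intro τ
    rw [MeasureTheory.integral_const_mul]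
    have h2 := Measure.integral_comp_mul_left 
      (fun x : ℝ => F (((1 + x : ℝ) : ℂ) + ((r * τ : ℝ) : ℂ) * I)) (r ^ 2)
    have h3 := integral_add_left_eq_self (μ := (volume : Measure ℝ)) 
      (fun x : ℝ => F ((x : ℂ) + ((r * τ : ℝ) : ℂ) * I)) 1
    rw [h2, h3]
    have h4 : |(r ^ 2)⁻¹| = (r ^ 2)⁻¹ := abs_of_nonneg (by positivity)
    rw [h4, Complex.real_smul, ← mul_assoc, ← Complex.ofReal_mul, mul_inv_cancel₀ (by positivity)]
    simp
  simp_rw [h1]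
  have h5 := Measure.integral_comp_mul_left 
      (fun y : ℝ => ∫ x : ℝ, F ((x : ℂ) + (y : ℂ) * I)) r
  rw [h5]
  have h6 := A6_fub F hFi
  rw [← h6, abs_of_nonneg (by positivity), Complex.real_smul, hF]

theorem A6_form (r : ℝ) (hr : 0 < r) (hr1 : r ≤ 1) (Ψ : ℂ → ℂ) (hΨ : Measurable Ψ) (M : ℝ) 
    (hM : ∀ v, ‖Ψ v‖ ≤ M) : 
    ∫ u : ℂ, (kD r u : ℂ) * Ψ u = ∫ θ in (0 : ℝ)..(2 * Real.pi), ∫ τ : ℝ, ∫ s : ℝ, (WW r τ s : ℂ) *
      Ψ (U θ * (1 + I * (r * τ : ℝ) + (r ^ 2 * s : ℝ))) := by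
  have hpi := Real.pi_pos
  have h1 : ∀ θ : ℝ, ∫ τ : ℝ, ∫ s : ℝ, (WW r τ s : ℂ) * Ψ (U θ * (1 + I * (r * τ : ℝ) + (r ^ 2 * s : ℝ))) = 
      (r⁻¹ : ℝ) * ∫ u : ℂ, ((A6_chi r (starRingEnd ℂ (U θ) * u) : ℝ) : ℂ) * (((kD r u : ℝ) : ℂ) * Ψ u) := by
    intro θ
    rw [A6_chg r hr hr1 (fun v => Ψ (U θ * v)) (hΨ.comp (measurable_const_mul _)) M (fun v => hM _)]
    congr 1
    rw [← A6_rot_int θ (fun u => ((A6_chi r (starRingEnd ℂ (U θ) * u) : ℝ) : ℂ) * (((kD r u : ℝ) : ℂ) * Ψ u))]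
    congr 1; ext v
    have e1 : starRingEnd ℂ (U θ) * (U θ * v) = v := by rw [← mul_assoc, conj_mul_U, one_mul]
    have e2 : kD r (U θ * v) = kD r v := by
      unfold kD
      rw [Complex.normSq_mul, Complex.normSq_eq_norm_sq (U θ), norm_U]; simp
    rw [e1, e2]; ring
  simp_rw [h1]
  rw [intervalIntegral.integral_const_mul, intervalIntegral.integral_of_le (by linarith)]
  have hK : Integrable (fun u : ℂ => ((kD r u : ℝ) : ℂ) * Ψ u) := by
    refine A6_intble _ ((Complex.measurable_ofReal.comp (A6_kD_meas r)).mul hΨ) ((r ^ 2)⁻¹ * M) ?_ ?_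
    · intro v
      have hM0 : 0 ≤ M := le_trans (norm_nonneg _) (hM 0)
      simp only [norm_mul, Complex.norm_real, Real.norm_eq_abs]
      gcongr
      · exact A6_kD_abs v
      · exact hM v
    · intro v hv
      have : kD r v = 0 := by
        by_contra hc
        have h1 := (A6_kD_ne hr hr1 hc).2
        rw [Complex.normSq_eq_norm_sq] at h1
        nlinarith
      simp [this]
  have hint : Integrable (Function.uncurry (fun (θ : ℝ) (u : ℂ) => 
      ((A6_chi r (starRingEnd ℂ (U θ) * u) : ℝ) : ℂ) * (((kD r u : ℝ) : ℂ) * Ψ u))) 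
      ((volume.restrict (Ioc 0 (2 * Real.pi))).prod volume) := by
    have h0 : Integrable (fun z : ℝ × ℂ => (1 : ℂ) * (((kD r z.2 : ℝ) : ℂ) * Ψ z.2)) 
        ((volume.restrict (Ioc 0 (2 * Real.pi))).prod volume) := 
      Integrable.mul_prod (f := fun _ : ℝ => (1 : ℂ)) (integrable_const _) hK
    refine h0.mono ?_ (Filter.Eventually.of_forall (fun z => ?_))
    · apply Measurable.aestronglyMeasurable
      have m1 : Measurable (fun z : ℝ × ℂ => starRingEnd ℂ (U z.1) * z.2) := by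
        have : Measurable (fun z : ℝ × ℂ => starRingEnd ℂ (U z.1)) := 
          (Complex.continuous_conj.comp (continuous_U.comp continuous_fst)).measurable
        exact this.mul measurable_snd
      have m2 : Measurable (fun z : ℝ × ℂ => ((A6_chi r (starRingEnd ℂ (U z.1) * z.2) : ℝ) : ℂ)) := 
        Complex.measurable_ofReal.comp ((A6_chi_meas r).comp m1)
      have m3 : Measurable (fun z : ℝ × ℂ => ((kD r z.2 : ℝ) : ℂ) * Ψ z.2) := 
        ((Complex.measurable_ofReal.comp (A6_kD_meas r)).mul hΨ).comp measurable_snd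
      exact m2.mul m3
    · simp only [Function.uncurry, norm_mul, Complex.norm_real, Real.norm_eq_abs, norm_one]
      gcongr
      exact A6_chi_abs _ _
  rw [integral_integral_swap hint]
  rw [← MeasureTheory.integral_const_mul]
  congr 1; ext u
  rw [MeasureTheory.integral_mul_const]
  by_cases hk : kD r u = 0
  · simp [hk]
  · have hu : u ≠ 0 := by
      rintro rfl
      have := (A6_kD_ne hr hr1 hk).1
      simp at this
      linarith
    have h2 := A6_ang r hr hr1 u hu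
    rw [intervalIntegral.integral_of_le (by linarith)] at h2
    rw [integral_complex_ofReal, h2]
    rw [← mul_assoc, ← Complex.ofReal_mul, inv_mul_cancel₀ hr.ne']
    simp

/-- formula (4.1) -/
theorem form41 (ω : ℂ) (r : ℝ) (hr : 0 < r) (hr1 : r ≤ 1) (R : ℝ) (f0 f1 f2 : ℂ → ℂ) (h0 : BF R f0)
    (m1 : Measurable f1) (m2 : Measurable f2) (b1 : ∀ x, ‖f1 x‖ ≤ 1) (b2 : ∀ x, ‖f2 x‖ ≤ 1) :
    TK ω (kD r) f0 f1 f2 = ∫ θ in (0 : ℝ)..(2 * Real.pi), ∫ τ : ℝ, ∫ s : ℝ, (WW r τ s : ℂ) *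
      ∫ x : ℂ, f0 x * f1 (x + U θ * (1 + I * (r * τ : ℝ) + (r ^ 2 * s : ℝ))) *
        f2 (x + ω * (U θ * (1 + I * (r * τ : ℝ) + (r ^ 2 * s : ℝ)))) := by
  obtain ⟨Ψ, hΨ⟩ : ∃ Ψ : ℂ → ℂ, Ψ = fun u => ∫ x : ℂ, f0 x * f1 (x + u) * f2 (x + ω * u) := ⟨_, rfl⟩
  have hm : Measurable Ψ := by
    rw [hΨ]
    have h1 : StronglyMeasurable (fun z : ℂ × ℂ => f0 z.2 * f1 (z.2 + z.1) * f2 (z.2 + ω * z.1)) := by
      apply Measurable.stronglyMeasurable
      have a0 : Measurable (fun z : ℂ × ℂ => f0 z.2) := h0.meas.comp measurable_snd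
      have a1 : Measurable (fun z : ℂ × ℂ => f1 (z.2 + z.1)) := m1.comp (measurable_snd.add measurable_fst)
      have a2 : Measurable (fun z : ℂ × ℂ => f2 (z.2 + ω * z.1)) := 
        m2.comp (measurable_snd.add (measurable_fst.const_mul ω))
      exact (a0.mul a1).mul a2
    exact (h1.integral_prod_right').measurable
  have hb : ∀ u, ‖Ψ u‖ ≤ 1 * volume.real (Metric.closedBall (0:ℂ) R) := by
    intro u
    have h1 : Ψ u = ∫ x in Metric.closedBall (0:ℂ) R, f0 x * f1 (x + u) * f2 (x + ω * u) := by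
      rw [hΨ]
      symm
      apply setIntegral_eq_integral_of_forall_compl_eq_zero
      intro x hx
      rw [Metric.mem_closedBall, dist_zero_right, not_le] at hx
      rw [h0.supp x hx]; simp
    rw [h1]
    apply norm_setIntegral_le_of_norm_le_const measure_closedBall_lt_top
    intro x _
    rw [norm_mul, norm_mul]
    have := h0.le x
    have h3 := b1 (x + u)
    have h4 := b2 (x + ω * u)
    calc ‖f0 x‖ * ‖f1 (x + u)‖ * ‖f2 (x + ω * u)‖ ≤ 1 * 1 * 1 := by gcongr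
      _ = 1 := by norm_num
  have key := A6_form r hr hr1 Ψ hm _ hb
  unfold TK
  rw [hΨ] at key
  exact key

end TriDil
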