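import Pool.Agent.TriDil.Basic7
import Pool.Agent.TriDil.A5
import Pool.Agent.TriDil.A6
set_option autoImplicit false
set_option linter.unusedSectionVars false
open MeasureTheory Complex Set
namespace TriDil
open scoped ComplexConjugate

theorem A7_integrable {X : Type*} [MeasurableSpace X] {μ : Measure X} {f : X → ℂ} (hf : Measurable f)
    {B : ℝ} (hB : ∀ x, ‖f x‖ ≤ B) {S : Set X} (hS : μ S ≠ ⊤) (h0 : ∀ x, x ∉ S → f x = 0) :
    Integrable f μ := by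
  have h1 : IntegrableOn f S μ :=
    Measure.integrableOn_of_bounded hS hf.aestronglyMeasurable (Filter.Eventually.of_forall hB)
  refine (integrableOn_iff_integrable_of_support_subset ?_).mp h1
  intro x hx
  by_contra h
  exact hx (h0 x h)

theorem A7_integrableR {X : Type*} [MeasurableSpace X] {μ : Measure X} {f : X → ℝ} (hf : Measurable f)
    {B : ℝ} (hB : ∀ x, |f x| ≤ B) {S : Set X} (hS : μ S ≠ ⊤) (h0 : ∀ x, x ∉ S → f x = 0) :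
    Integrable f μ := by
  have h1 : IntegrableOn f S μ :=
    Measure.integrableOn_of_bounded hS hf.aestronglyMeasurable (Filter.Eventually.of_forall hB)
  refine (integrableOn_iff_integrable_of_support_subset ?_).mp h1
  intro x hx
  by_contra h
  exact hx (h0 x h)

theorem A7_haar_meas : Measurable haar := by
  unfold haar
  refine Measurable.ite ?_ measurable_const (Measurable.ite ?_ measurable_const measurable_const)
  · exact measurableSet_Icc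
  · exact measurableSet_Ioc

theorem A7_haar_le (t : ℝ) : |haar t| ≤ 1 := by
  unfold haar
  split_ifs <;> simp

theorem A7_WW_meas (r : ℝ) : Measurable (fun z : ℝ × ℝ => WW r z.1 z.2) := by
  unfold WW
  refine Measurable.ite ?_ (A7_haar_meas.comp (by fun_prop)) measurable_const
  have h1 : MeasurableSet {z : ℝ × ℝ | 0 ≤ r * z.1} := measurableSet_le measurable_const (by fun_prop)
  have h2 : MeasurableSet {z : ℝ × ℝ | r * z.1 * Real.cos r < (1 + r ^ 2 * z.2) * Real.sin r} :=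
    measurableSet_lt (by fun_prop) (by fun_prop)
  exact h1.inter h2

theorem A7_WW_le (r τ s : ℝ) : |WW r τ s| ≤ 1 := by
  unfold WW
  split_ifs
  · exact A7_haar_le _
  · simp

/-- linear change of variables -/
theorem A7_cov (ω : ℂ) (h0 : ω.im ≠ 0) (r : ℝ) (hr : 0 < r) (e x0 : ℂ) (he : ‖e‖ = 1) (k : ℂ → ℂ)
    (hk : Measurable k) :
    ∫ x : ℂ, k x = ((r ^ 2 * |ω.im| : ℝ) : ℂ) * ∫ z : ℝ × ℝ, k (x0 + r * (((z.1 : ℂ) + z.2 * ω) * e)) := by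
  -- the linear map
  let c : ℂ := r * e
  let M : Matrix (Fin 2) (Fin 2) ℝ := !![c.re, (ω * c).re; c.im, (ω * c).im]
  let A : ℂ →ₗ[ℝ] ℂ := Matrix.toLin Complex.basisOneI Complex.basisOneI M
  have hA : ∀ z : ℂ, A z = ((z.re : ℂ) + z.im * ω) * c := by
    intro z
    have h1 : z = z.re • (Complex.basisOneI 0) + z.im • (Complex.basisOneI 1) := by
      simp [Complex.basisOneI]
    conv_lhs => rw [h1]
    rw [map_add, map_smul, map_smul]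
    simp only [A, Matrix.toLin_self, Fin.sum_univ_two, M]
    apply Complex.ext
    · simp [Complex.basisOneI]; ring
    · simp [Complex.basisOneI]; ring
  have hdet : LinearMap.det A = r ^ 2 * ω.im := by
    simp only [A, LinearMap.det_toLin, M, Matrix.det_fin_two_of]
    have hn : e.re * e.re + e.im * e.im = 1 := by
      have := Complex.sq_norm e
      rw [he, Complex.normSq_apply] at this
      linarith
    simp only [c, mul_re, mul_im, ofReal_re, ofReal_im, zero_mul, sub_zero, add_zero]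
    have : r ^ 2 * ω.im = r ^ 2 * ω.im * (e.re * e.re + e.im * e.im) := by rw [hn, mul_one]
    rw [this]; ring
  have hdet0 : LinearMap.det A ≠ 0 := by
    rw [hdet]; positivity
  have hmap := Measure.map_linearMap_addHaar_eq_smul_addHaar (μ := (volume : Measure ℂ)) hdet0
  have hAm : Measurable A := by
    have : (A : ℂ → ℂ) = fun z => ((z.re : ℂ) + z.im * ω) * c := funext hA
    rw [this]; fun_prop
  have hk' : Measurable (fun x => k (x0 + x)) := hk.comp (by fun_prop)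
  have e1 : ∫ x, k x = ∫ x, k (x0 + x) := (integral_add_left_eq_self k x0).symm
  have e2 : ∫ x, k (x0 + A x) = |(LinearMap.det A)⁻¹| * ∫ x, k (x0 + x) := by
    rw [← integral_map (φ := A) (f := fun x => k (x0 + x)) hAm.aemeasurable hk'.aestronglyMeasurable, hmap,
      integral_smul_measure]
    rw [ENNReal.toReal_ofReal (abs_nonneg _)]
    simp
  have e3 : ∫ x : ℂ, k (x0 + A x) = ∫ z : ℝ × ℝ, k (x0 + r * (((z.1 : ℂ) + z.2 * ω) * e)) := by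
    rw [← (Complex.volume_preserving_equiv_real_prod.symm).integral_comp'
      (g := fun x : ℂ => k (x0 + A x))]
    refine integral_congr_ae (Filter.Eventually.of_forall fun z => ?_)
    simp only [hA, c]
    congr 2
    simp [Complex.measurableEquivRealProd]
    ring
  rw [e1, ← e3, e2, hdet, ← mul_assoc]
  have h5 : ((r ^ 2 * |ω.im| : ℝ) : ℂ) * ((|(r ^ 2 * ω.im)⁻¹| : ℝ) : ℂ) = 1 := by
    rw [← ofReal_mul, abs_inv, abs_mul, abs_of_pos (by positivity : (0:ℝ) < r ^ 2)]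
    rw [mul_inv_cancel₀ (by positivity), ofReal_one]
  rw [h5, one_mul]

/-- base point of a cell -/
noncomputable def A7_x (r : ℝ) (Q : ℤ × ℤ) : ℂ := ⟨r * Q.1, r * Q.2⟩

theorem A7_usq_meas : MeasurableSet usq := by
  have h1 : MeasurableSet {x : ℂ | 0 ≤ x.re} := measurableSet_le measurable_const (by fun_prop)
  have h2 : MeasurableSet {x : ℂ | x.re < 1} := measurableSet_lt (by fun_prop) measurable_const
  have h3 : MeasurableSet {x : ℂ | 0 ≤ x.im} := measurableSet_le measurable_const (by fun_prop)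
  have h4 : MeasurableSet {x : ℂ | x.im < 1} := measurableSet_lt (by fun_prop) measurable_const
  exact h1.inter (h2.inter (h3.inter h4))

theorem A7_cell (r : ℝ) (hr : 0 < r) (Q : ℤ × ℤ) (y : ℂ) : cell r (A7_x r Q + r * y) = Q ↔ y ∈ usq := by
  unfold cell usq A7_x
  have e1 : ((⟨r * Q.1, r * Q.2⟩ : ℂ) + r * y).re / r = Q.1 + y.re := by
    simp only [add_re, mul_re, ofReal_re, ofReal_im, zero_mul, sub_zero]; field_simp
  have e2 : ((⟨r * Q.1, r * Q.2⟩ : ℂ) + r * y).im / r = Q.2 + y.im := by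
    simp only [add_im, mul_im, ofReal_re, ofReal_im, zero_mul, add_zero]; field_simp
  rw [e1, e2]
  have key : ∀ (n : ℤ) (t : ℝ), ⌊(n : ℝ) + t⌋ = n ↔ 0 ≤ t ∧ t < 1 := by
    intro n t
    rw [Int.floor_eq_iff]
    constructor
    · rintro ⟨h1, h2⟩; constructor <;> linarith
    · rintro ⟨h1, h2⟩; constructor <;> linarith
  rw [Prod.ext_iff]
  simp only [key, Set.mem_ofPred_eq]
  tauto

theorem A7_cell_meas (r : ℝ) (Q : ℤ × ℤ) : MeasurableSet {x : ℂ | cell r x = Q} := by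
  have : {x : ℂ | cell r x = Q} = {x : ℂ | ⌊x.re / r⌋ = Q.1} ∩ {x : ℂ | ⌊x.im / r⌋ = Q.2} := by
    ext x; simp only [cell, Set.mem_ofPred_eq, Set.mem_inter_iff, Prod.ext_iff]
  rw [this]
  refine MeasurableSet.inter ?_ ?_
  · exact (Int.measurable_floor.comp (by fun_prop : Measurable fun x : ℂ => x.re / r)) (measurableSet_singleton Q.1)
  · exact (Int.measurable_floor.comp (by fun_prop : Measurable fun x : ℂ => x.im / r)) (measurableSet_singleton Q.2)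

/-- radius of the index set -/
noncomputable def A7_M (r R : ℝ) : ℤ := ⌈|R| / r⌉ + 1

/-- index set of cells -/
noncomputable def A7_Q (r R : ℝ) : Finset (ℤ × ℤ) :=
  Finset.Icc (-A7_M r R) (A7_M r R) ×ˢ Finset.Icc (-A7_M r R) (A7_M r R)

theorem A7_mem_Q (r R : ℝ) (hr : 0 < r) (x : ℂ) (hx : ‖x‖ ≤ R) : cell r x ∈ A7_Q r R := by
  have key : ∀ t : ℝ, |t| ≤ R → ⌊t / r⌋ ∈ Finset.Icc (-A7_M r R) (A7_M r R) := by
    intro t ht
    have h1 : |t / r| ≤ |R| / r := by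
      rw [abs_div, abs_of_pos hr]
      exact div_le_div_of_nonneg_right (ht.trans (le_abs_self R)) hr.le
    have h2 := abs_le.mp h1
    have h3 : |R| / r ≤ ⌈|R| / r⌉ := Int.le_ceil _
    rw [Finset.mem_Icc, A7_M]
    constructor
    · rw [Int.le_floor]; push_cast; linarith [h2.1]
    · have : ⌊t / r⌋ ≤ ⌈|R| / r⌉ := by
        have : (⌊t / r⌋ : ℝ) ≤ ⌈|R| / r⌉ := (Int.floor_le _).trans (h2.2.trans h3)
        exact_mod_cast this
      omega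
  unfold A7_Q cell
  rw [Finset.mem_product]
  exact ⟨key _ ((abs_re_le_norm x).trans hx), key _ ((abs_im_le_norm x).trans hx)⟩

theorem A7_card_Q (r R : ℝ) (hr : 0 < r) (hr1 : r ≤ 1) :
    ((A7_Q r R).card : ℝ) * r ^ 2 ≤ (2 * |R| + 5) ^ 2 := by
  have h0 : 0 ≤ |R| / r := by positivity
  have h1 : (0 : ℤ) ≤ ⌈|R| / r⌉ := Int.ceil_nonneg h0
  have h2 : (⌈|R| / r⌉ : ℝ) < |R| / r + 1 := Int.ceil_lt_add_one _
  have hc : ((A7_Q r R).card : ℝ) = (2 * (⌈|R| / r⌉ : ℝ) + 3) ^ 2 := by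
    unfold A7_Q
    rw [Finset.card_product, Int.card_Icc]
    have : ((A7_M r R + 1 - -A7_M r R).toNat : ℤ) = 2 * ⌈|R| / r⌉ + 3 := by
      rw [Int.toNat_of_nonneg (by unfold A7_M; omega)]
      unfold A7_M; ring
    have h' : ((A7_M r R + 1 - -A7_M r R).toNat : ℝ) = 2 * (⌈|R| / r⌉ : ℝ) + 3 := by
      exact_mod_cast this
    rw [Nat.cast_mul, h']; ring
  rw [hc, ← mul_pow]
  have h3 : (2 * (⌈|R| / r⌉ : ℝ) + 3) * r ≤ 2 * |R| + 5 := by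
    have : (2 * (⌈|R| / r⌉ : ℝ) + 3) * r ≤ (2 * (|R| / r + 1) + 3) * r := by
      apply mul_le_mul_of_nonneg_right _ hr.le; linarith
    have e : (2 * (|R| / r + 1) + 3) * r = 2 * |R| + 5 * r := by field_simp; ring
    rw [e] at this
    linarith
  have h4 : (0 : ℝ) ≤ (2 * (⌈|R| / r⌉ : ℝ) + 3) * r := by
    have : (0 : ℝ) ≤ ⌈|R| / r⌉ := by exact_mod_cast h1
    positivity
  exact pow_le_pow_left₀ h4 h3 2

/-- the rescaled function on a cell -/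
noncomputable def A7_F (r : ℝ) (f0 : ℂ → ℂ) (Q : ℤ × ℤ) (y : ℂ) : ℂ :=
  open Classical in if y * I ∈ usq then f0 (A7_x r Q + r * (y * I)) else 0

theorem A7_F_BF (r R : ℝ) (f0 : ℂ → ℂ) (h : BF R f0) (Q : ℤ × ℤ) : BF 2 (A7_F r f0 Q) where
  meas := by
    unfold A7_F
    refine Measurable.ite ?_ (h.meas.comp (by fun_prop)) measurable_const
    exact (by fun_prop : Measurable fun y : ℂ => y * I) A7_usq_meas
  le := by
    intro y
    unfold A7_F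
    split_ifs
    · exact h.le _
    · simp
  supp := by
    intro y hy
    unfold A7_F
    rw [if_neg]
    rintro ⟨h1, h2, h3, h4⟩
    have : ‖y * I‖ ≤ 2 := by
      refine (norm_le_abs_re_add_abs_im _).trans ?_
      rw [abs_of_nonneg h1, abs_of_nonneg h3]; linarith
    rw [norm_mul, norm_I, mul_one] at this
    linarith

theorem A7_J (ω : ℂ) (h0 : ω.im ≠ 0) (r R : ℝ) (hr : 0 < r) (f0 f1 f2 : ℂ → ℂ) (hf0 : BF R f0)
    (m1 : Measurable f1) (m2 : Measurable f2) (b1 : ∀ x, ‖f1 x‖ ≤ 1) (b2 : ∀ x, ‖f2 x‖ ≤ 1) (θ : ℝ) (v w : ℂ) :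
    ∫ x : ℂ, f0 x * f1 (x + v) * f2 (x + w) = ∑ Q ∈ A7_Q r R, ((r ^ 2 * |ω.im| : ℝ) : ℂ) *
      ∫ z : ℝ × ℝ, A7_F r f0 Q (((z.1 : ℂ) + z.2 * ω) * U θ) *
        f1 (A7_x r Q + r * ((((z.1 : ℂ) + z.2 * ω) * U θ) * I) + v) *
        f2 (A7_x r Q + r * ((((z.1 : ℂ) + z.2 * ω) * U θ) * I) + w) := by
  classical
  set h : ℂ → ℂ := fun x => f0 x * f1 (x + v) * f2 (x + w) with hh
  have hmeas : Measurable h := by
    have := hf0.meas
    simp only [hh]; fun_prop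
  have hsupp : ∀ x, R < ‖x‖ → h x = 0 := by
    intro x hx; simp [hh, hf0.supp x hx]
  have hbd : ∀ x, ‖h x‖ ≤ 1 := by
    intro x
    simp only [hh, norm_mul]
    calc ‖f0 x‖ * ‖f1 (x + v)‖ * ‖f2 (x + w)‖ ≤ 1 * 1 * 1 := by
          gcongr
          · exact hf0.le x
          · exact b1 _
          · exact b2 _
      _ = 1 := by norm_num
  have hkm : ∀ Q : ℤ × ℤ, Measurable (fun x => if cell r x = Q then h x else 0) := fun Q =>
    Measurable.ite (A7_cell_meas r Q) hmeas measurable_const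
  have hdec : ∀ x, h x = ∑ Q ∈ A7_Q r R, if cell r x = Q then h x else 0 := by
    intro x
    rw [Finset.sum_ite_eq]
    split_ifs with hx
    · rfl
    · apply hsupp
      by_contra hc
      exact hx (A7_mem_Q r R hr x (not_lt.mp hc))
  have hint : ∀ Q ∈ A7_Q r R, Integrable (fun x => if cell r x = Q then h x else 0) := by
    intro Q _
    refine A7_integrable (hkm Q) (B := 1) ?_ (S := Metric.closedBall (0 : ℂ) R) ?_ ?_
    · intro x; split_ifs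
      · exact hbd x
      · simp
    · exact (isCompact_closedBall (0 : ℂ) R).measure_lt_top.ne
    · intro x hx
      have : R < ‖x‖ := by simpa using hx
      split_ifs
      · exact hsupp x this
      · rfl
  calc ∫ x, h x = ∫ x, ∑ Q ∈ A7_Q r R, if cell r x = Q then h x else 0 :=
        integral_congr_ae (Filter.Eventually.of_forall hdec)
    _ = ∑ Q ∈ A7_Q r R, ∫ x, if cell r x = Q then h x else 0 := integral_finsetSum _ hint
    _ = _ := by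
        refine Finset.sum_congr rfl fun Q _ => ?_
        rw [A7_cov ω h0 r hr (U θ * I) (A7_x r Q) (by rw [norm_mul, norm_U, norm_I, mul_one]) _ (hkm Q)]
        congr 1
        refine integral_congr_ae (Filter.Eventually.of_forall fun z => ?_)
        have e : ((z.1 : ℂ) + z.2 * ω) * (U θ * I) = (((z.1 : ℂ) + z.2 * ω) * U θ) * I := by ring
        simp only [A7_cell r hr, A7_F, hh, e]
        split_ifs <;> ring

/-- the variables `(θ, (σ, s), (p, q))` -/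
abbrev A7X : Type := ℝ × (ℝ × ℝ) × (ℝ × ℝ)

noncomputable def A7_H0 (ω : ℂ) (r : ℝ) (f1 : ℂ → ℂ) (Q : ℤ × ℤ) (θ : ℝ) (e : ℝ × ℝ) (q : ℝ) : ℂ :=
  f1 (A7_x r Q + U θ * (1 + (r ^ 2 * e.2 : ℝ)) + r * (((e.1 - q : ℝ) + q * ω) * (U θ * I)))

noncomputable def A7_G0 (ω : ℂ) (r : ℝ) (f2 : ℂ → ℂ) (Q : ℤ × ℤ) (θ : ℝ) (e : ℝ × ℝ) (p : ℝ) : ℂ :=
  f2 (A7_x r Q + ω * (U θ * (1 + (r ^ 2 * e.2 : ℝ))) + r * ((p + (e.1 - p : ℝ) * ω) * (U θ * I)))

noncomputable def A7_B (ω : ℂ) (r : ℝ) (f0 f1 f2 : ℂ → ℂ) (Q : ℤ × ℤ) (z : A7X) : ℂ :=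
  A7_F r f0 Q (((z.2.2.1 : ℂ) + z.2.2.2 * ω) * U z.1) * A7_G0 ω r f2 Q z.1 z.2.1 z.2.2.1 *
    A7_H0 ω r f1 Q z.1 z.2.1 z.2.2.2

noncomputable def A7_h (ω : ℂ) (r : ℝ) (f0 f1 f2 : ℂ → ℂ) (Q : ℤ × ℤ) (z : A7X) : ℂ :=
  (WW r (z.2.1.1 - z.2.2.1 - z.2.2.2) z.2.1.2 : ℂ) * A7_B ω r f0 f1 f2 Q z

/-- rounding -/
noncomputable def A7_rd (δ : ℝ) (p : ℝ) : ℝ := δ * ⌊p / δ⌋

noncomputable def A7_h' (ω : ℂ) (r δ : ℝ) (f0 f1 f2 : ℂ → ℂ) (Q : ℤ × ℤ) (z : A7X) : ℂ :=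
  (WW r (z.2.1.1 - A7_rd δ z.2.2.1 - A7_rd δ z.2.2.2) z.2.1.2 : ℂ) * A7_B ω r f0 f1 f2 Q z

noncomputable def A7_mu0 : Measure A7X :=
  (volume.restrict (Ioc 0 (2 * Real.pi))).prod ((volume : Measure (ℝ × ℝ)).prod (volume : Measure (ℝ × ℝ)))

section
variable (ω : ℂ) (h0 : ω.im ≠ 0) (r R : ℝ) (hr : 0 < r) (hr1 : r ≤ 1) (f0 f1 f2 : ℂ → ℂ) (hf0 : BF R f0)
    (m1 : Measurable f1) (m2 : Measurable f2) (b1 : ∀ x, ‖f1 x‖ ≤ 1) (b2 : ∀ x, ‖f2 x‖ ≤ 1)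

/-- the range of `p`, `q` -/
noncomputable def A7_R1 (ω : ℂ) : ℝ := 2 + 2 * (1 + ‖ω‖) / |ω.im|

include h0 in
theorem A7_pq (θ p q : ℝ) (h : ‖((p : ℂ) + q * ω) * U θ‖ ≤ 2) : |p| ≤ A7_R1 ω ∧ |q| ≤ A7_R1 ω := by
  have hb : 0 < |ω.im| := abs_pos.mpr h0
  rw [norm_mul, norm_U, mul_one] at h
  have h1 : |q| * |ω.im| ≤ 2 := by
    have := (abs_im_le_norm ((p : ℂ) + q * ω)).trans h
    simpa [abs_mul] using this
  have h2 : |q| ≤ 2 / |ω.im| := by rw [le_div_iff₀ hb]; exact h1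
  have h3 : |p| ≤ 2 + |q| * ‖ω‖ := by
    have e : (p : ℂ) = ((p : ℂ) + q * ω) - q * ω := by ring
    calc |p| = ‖(p : ℂ)‖ := by simp
      _ = ‖((p : ℂ) + q * ω) - q * ω‖ := by rw [← e]
      _ ≤ ‖(p : ℂ) + q * ω‖ + ‖(q : ℂ) * ω‖ := norm_sub_le _ _
      _ ≤ 2 + |q| * ‖ω‖ := by rw [norm_mul]; simp; exact h
  unfold A7_R1
  have e : 2 * (1 + ‖ω‖) / |ω.im| = 2 / |ω.im| + 2 / |ω.im| * ‖ω‖ := by field_simp
  rw [e]
  have hn : 0 ≤ 2 / |ω.im| * ‖ω‖ := by positivity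
  have hn' : 0 ≤ 2 / |ω.im| := by positivity
  constructor
  · have : |q| * ‖ω‖ ≤ 2 / |ω.im| * ‖ω‖ := mul_le_mul_of_nonneg_right h2 (norm_nonneg _)
    linarith
  · linarith

theorem A7_R1_pos (h0 : ω.im ≠ 0) : 2 ≤ A7_R1 ω := by
  have hb : 0 < |ω.im| := abs_pos.mpr h0
  unfold A7_R1
  have : 0 ≤ 2 * (1 + ‖ω‖) / |ω.im| := by positivity
  linarith

include hf0 m1 m2

theorem A7_B_meas (Q : ℤ × ℤ) : Measurable (A7_B ω r f0 f1 f2 Q) := by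
  have hU := measurable_U
  have hF := (A7_F_BF r R f0 hf0 Q).meas
  unfold A7_B A7_G0 A7_H0
  refine Measurable.mul (Measurable.mul ?_ ?_) ?_
  · exact hF.comp (by fun_prop)
  · exact m2.comp (by fun_prop)
  · exact m1.comp (by fun_prop)

include b1 b2
theorem A7_B_le (Q : ℤ × ℤ) (z : A7X) : ‖A7_B ω r f0 f1 f2 Q z‖ ≤ 1 := by
  unfold A7_B
  rw [norm_mul, norm_mul]
  calc _ ≤ (1 : ℝ) * 1 * 1 := by
        gcongr
        · exact (A7_F_BF r R f0 hf0 Q).le _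
        · exact b2 _
        · exact b1 _
    _ = 1 := by norm_num

omit m1 m2 b1 b2 in
include h0 in
theorem A7_B_supp (Q : ℤ × ℤ) (z : A7X)
    (hz : z.2.2 ∉ Icc (-A7_R1 ω) (A7_R1 ω) ×ˢ Icc (-A7_R1 ω) (A7_R1 ω)) : A7_B ω r f0 f1 f2 Q z = 0 := by
  unfold A7_B
  rw [(A7_F_BF r R f0 hf0 Q).supp, zero_mul, zero_mul]
  by_contra hc
  have := A7_pq ω h0 z.1 z.2.2.1 z.2.2.2 (not_lt.mp hc)
  rw [abs_le, abs_le] at this
  exact hz ⟨⟨this.1.1, this.1.2⟩, ⟨this.2.1, this.2.2⟩⟩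

end

/-- the shear `τ ↦ σ = τ + p + q` -/
theorem A7_shear : MeasurePreserving
    (fun z : A7X => ((z.1, (z.2.1.1 + z.2.2.1 + z.2.2.2, z.2.1.2), z.2.2) : A7X)) A7_mu0 A7_mu0 := by
  have h1 : MeasurePreserving (fun w : (ℝ × ℝ) × (ℝ × ℝ) => (w.1, (w.2.1 + w.1.1 + w.1.2, w.2.2)))
      ((volume : Measure (ℝ × ℝ)).prod (volume : Measure (ℝ × ℝ)))
      ((volume : Measure (ℝ × ℝ)).prod (volume : Measure (ℝ × ℝ))) := by
    apply MeasurePreserving.skew_product (f := (id : ℝ × ℝ → ℝ × ℝ))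
      (g := fun (a b : ℝ × ℝ) => ((b.1 + a.1 + a.2, b.2) : ℝ × ℝ))
      (MeasurePreserving.id volume)
    · fun_prop
    · filter_upwards with a
      have := (measurePreserving_add_right (volume : Measure (ℝ × ℝ)) ((a.1 + a.2, 0) : ℝ × ℝ)).map_eq
      have e : (fun b : ℝ × ℝ => (b.1 + a.1 + a.2, b.2)) = fun x => x + ((a.1 + a.2, 0) : ℝ × ℝ) := by
        funext b; ext <;> simp [add_assoc]
      rw [e]; exact this
  have hs : MeasurePreserving (Prod.swap : (ℝ × ℝ) × (ℝ × ℝ) → (ℝ × ℝ) × (ℝ × ℝ))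
      ((volume : Measure (ℝ × ℝ)).prod (volume : Measure (ℝ × ℝ)))
      ((volume : Measure (ℝ × ℝ)).prod (volume : Measure (ℝ × ℝ))) := Measure.measurePreserving_swap
  have h2 := hs.comp (h1.comp hs)
  exact (MeasurePreserving.id (volume.restrict (Ioc 0 (2 * Real.pi)))).prod h2

theorem A7_box_fin (ω : ℂ) : A7_mu0 (univ ×ˢ ((Icc (0 : ℝ) 2 ×ˢ Icc (-1 : ℝ) 1) ×ˢ
    (Icc (-A7_R1 ω) (A7_R1 ω) ×ˢ Icc (-A7_R1 ω) (A7_R1 ω)))) ≠ ⊤ := by
  unfold A7_mu0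
  rw [Measure.prod_prod, Measure.prod_prod, Measure.volume_eq_prod, Measure.prod_prod, Measure.prod_prod,
    Measure.restrict_apply_univ]
  simp only [Real.volume_Ioc, Real.volume_Icc]
  exact ENNReal.mul_ne_top ENNReal.ofReal_ne_top (ENNReal.mul_ne_top
    (ENNReal.mul_ne_top ENNReal.ofReal_ne_top ENNReal.ofReal_ne_top)
    (ENNReal.mul_ne_top ENNReal.ofReal_ne_top ENNReal.ofReal_ne_top))

section
variable (ω : ℂ) (h0 : ω.im ≠ 0) (r R : ℝ) (hr : 0 < r) (hr1 : r ≤ 1) (f0 f1 f2 : ℂ → ℂ) (hf0 : BF R f0)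
    (m1 : Measurable f1) (m2 : Measurable f2) (b1 : ∀ x, ‖f1 x‖ ≤ 1) (b2 : ∀ x, ‖f2 x‖ ≤ 1)

include hf0 m1 m2

theorem A7_h_meas (Q : ℤ × ℤ) : Measurable (A7_h ω r f0 f1 f2 Q) := by
  unfold A7_h
  refine Measurable.mul ?_ (A7_B_meas ω r R f0 f1 f2 hf0 m1 m2 Q)
  exact Complex.measurable_ofReal.comp ((A7_WW_meas r).comp
    (by fun_prop : Measurable fun z : A7X => (z.2.1.1 - z.2.2.1 - z.2.2.2, z.2.1.2)))

theorem A7_rd_meas (δ : ℝ) : Measurable (A7_rd δ) := by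
  unfold A7_rd
  have : Measurable fun p : ℝ => ((⌊p / δ⌋ : ℤ) : ℝ) :=
    (measurable_from_top (f := fun n : ℤ => (n : ℝ))).comp (Int.measurable_floor.comp (by fun_prop))
  exact this.const_mul δ

theorem A7_h'_meas (δ : ℝ) (Q : ℤ × ℤ) : Measurable (A7_h' ω r δ f0 f1 f2 Q) := by
  unfold A7_h'
  refine Measurable.mul ?_ (A7_B_meas ω r R f0 f1 f2 hf0 m1 m2 Q)
  have h1 : Measurable fun z : A7X => A7_rd δ z.2.2.1 :=
    (A7_rd_meas R f0 f1 f2 hf0 m1 m2 δ).comp (by fun_prop)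
  have h2 : Measurable fun z : A7X => A7_rd δ z.2.2.2 :=
    (A7_rd_meas R f0 f1 f2 hf0 m1 m2 δ).comp (by fun_prop)
  exact Complex.measurable_ofReal.comp ((A7_WW_meas r).comp
    (by fun_prop : Measurable fun z : A7X => (z.2.1.1 - A7_rd δ z.2.2.1 - A7_rd δ z.2.2.2, z.2.1.2)))

include b1 b2

theorem A7_h_le (Q : ℤ × ℤ) (z : A7X) : ‖A7_h ω r f0 f1 f2 Q z‖ ≤ 1 := by
  unfold A7_h
  rw [norm_mul, norm_real]
  exact mul_le_one₀ (A7_WW_le _ _ _) (norm_nonneg _) (A7_B_le ω r R f0 f1 f2 hf0 m1 m2 b1 b2 Q z)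

theorem A7_h'_le (δ : ℝ) (Q : ℤ × ℤ) (z : A7X) : ‖A7_h' ω r δ f0 f1 f2 Q z‖ ≤ 1 := by
  unfold A7_h'
  rw [norm_mul, norm_real]
  exact mul_le_one₀ (A7_WW_le _ _ _) (norm_nonneg _) (A7_B_le ω r R f0 f1 f2 hf0 m1 m2 b1 b2 Q z)

/-- the integrand before the shear -/
theorem A7_h_shear (Q : ℤ × ℤ) (θ τ s p q : ℝ) :
    A7_h ω r f0 f1 f2 Q (θ, (τ + p + q, s), (p, q)) = (WW r τ s : ℂ) *
      (A7_F r f0 Q (((p : ℂ) + q * ω) * U θ) *
        f1 (A7_x r Q + r * ((((p : ℂ) + q * ω) * U θ) * I) +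
          U θ * (1 + I * (r * τ : ℝ) + (r ^ 2 * s : ℝ))) *
        f2 (A7_x r Q + r * ((((p : ℂ) + q * ω) * U θ) * I) +
          ω * (U θ * (1 + I * (r * τ : ℝ) + (r ^ 2 * s : ℝ))))) := by
  simp only [A7_h, A7_B, A7_G0, A7_H0]
  have e0 : τ + p + q - p - q = τ := by ring
  rw [e0]
  have e1 : A7_x r Q + U θ * (1 + ((r ^ 2 * s : ℝ) : ℂ)) + r * ((((τ + p + q - q : ℝ) : ℂ) + q * ω) * (U θ * I))
      = A7_x r Q + r * ((((p : ℂ) + q * ω) * U θ) * I) + U θ * (1 + I * (r * τ : ℝ) + (r ^ 2 * s : ℝ)) := by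
    push_cast; ring
  have e2 : A7_x r Q + ω * (U θ * (1 + ((r ^ 2 * s : ℝ) : ℂ))) + r * (((p : ℂ) + ((τ + p + q - p : ℝ) : ℂ) * ω) * (U θ * I))
      = A7_x r Q + r * ((((p : ℂ) + q * ω) * U θ) * I) + ω * (U θ * (1 + I * (r * τ : ℝ) + (r ^ 2 * s : ℝ))) := by
    push_cast; ring
  rw [e1, e2]; ring

include h0 hr hr1 in
theorem A7_g_int (Q : ℤ × ℤ) : Integrable
    (fun z : A7X => A7_h ω r f0 f1 f2 Q (z.1, (z.2.1.1 + z.2.2.1 + z.2.2.2, z.2.1.2), z.2.2)) A7_mu0 := by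
  refine A7_integrable ?_ (B := 1) (fun z => A7_h_le ω r R f0 f1 f2 hf0 m1 m2 b1 b2 Q _) (A7_box_fin ω) ?_
  · exact (A7_h_meas ω r R f0 f1 f2 hf0 m1 m2 Q).comp (by fun_prop)
  · rintro ⟨θ, ⟨τ, s⟩, p, q⟩ hz
    by_cases hpq : (p, q) ∈ Icc (-A7_R1 ω) (A7_R1 ω) ×ˢ Icc (-A7_R1 ω) (A7_R1 ω)
    · rw [A7_h_shear ω r R f0 f1 f2 hf0 m1 m2 b1 b2]
      have : WW r τ s = 0 := by
        by_contra hW
        obtain ⟨k1, k2, k3⟩ := W1 r τ s hr hr1 hW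
        exact hz ⟨mem_univ _, ⟨⟨k1, k2⟩, ⟨(abs_le.mp k3).1, (abs_le.mp k3).2⟩⟩, hpq⟩
      rw [this]; simp
    · unfold A7_h
      rw [A7_B_supp ω h0 r R f0 f1 f2 hf0 Q _ hpq, mul_zero]

include h0 hr hr1 in
theorem A7_T : TK ω (kD r) f0 f1 f2 = ∑ Q ∈ A7_Q r R, ((r ^ 2 * |ω.im| : ℝ) : ℂ) *
    ∫ z, A7_h ω r f0 f1 f2 Q z ∂A7_mu0 := by
  have hg : ∀ Q, ∫ z, A7_h ω r f0 f1 f2 Q z ∂A7_mu0 = ∫ z : A7X, A7_h ω r f0 f1 f2 Q
      (z.1, (z.2.1.1 + z.2.2.1 + z.2.2.2, z.2.1.2), z.2.2) ∂A7_mu0 := by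
    intro Q
    conv_lhs => rw [← A7_shear.map_eq]
    rw [integral_map A7_shear.measurable.aemeasurable
      (A7_h_meas ω r R f0 f1 f2 hf0 m1 m2 Q).aestronglyMeasurable]
  set c : ℂ := ((r ^ 2 * |ω.im| : ℝ) : ℂ) with hc
  have hI := A7_g_int ω h0 r R hr hr1 f0 f1 f2 hf0 m1 m2 b1 b2
  let Gt : A7X → ℂ := fun z => ∑ Q ∈ A7_Q r R, c * A7_h ω r f0 f1 f2 Q
      (z.1, (z.2.1.1 + z.2.2.1 + z.2.2.2, z.2.1.2), z.2.2)
  have hGt : Integrable Gt A7_mu0 := integrable_finsetSum _ fun Q _ => (hI Q).const_mul c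
  have hsum : ∑ Q ∈ A7_Q r R, c * ∫ z, A7_h ω r f0 f1 f2 Q z ∂A7_mu0 = ∫ z, Gt z ∂A7_mu0 := by
    simp only [Gt]
    rw [integral_finsetSum _ fun Q _ => (hI Q).const_mul c]
    refine Finset.sum_congr rfl fun Q _ => ?_
    rw [hg Q, ← integral_const_mul]
  rw [hsum, form41 ω r hr hr1 R f0 f1 f2 hf0 m1 m2 b1 b2]
  unfold A7_mu0
  rw [integral_prod _ hGt, intervalIntegral.integral_of_le (by positivity)]
  -- for each angle
  refine integral_congr_ae (Filter.Eventually.of_forall fun θ => ?_)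
  -- integrability for every angle
  have hint : ∀ θ, Integrable (fun w : (ℝ × ℝ) × (ℝ × ℝ) => Gt (θ, w)) (volume.prod volume) := by
    intro θ
    refine integrable_finsetSum _ fun Q _ => Integrable.const_mul ?_ c
    refine A7_integrable ?_ (B := 1) (fun z => A7_h_le ω r R f0 f1 f2 hf0 m1 m2 b1 b2 Q _)
      (S := ((Icc (0 : ℝ) 2 ×ˢ Icc (-1 : ℝ) 1) ×ˢ
        (Icc (-A7_R1 ω) (A7_R1 ω) ×ˢ Icc (-A7_R1 ω) (A7_R1 ω)))) ?_ ?_
    · exact (A7_h_meas ω r R f0 f1 f2 hf0 m1 m2 Q).comp (by fun_prop)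
    · rw [Measure.prod_prod, Measure.volume_eq_prod, Measure.prod_prod, Measure.prod_prod]
      simp only [Real.volume_Icc]
      exact (ENNReal.mul_ne_top
        (ENNReal.mul_ne_top ENNReal.ofReal_ne_top ENNReal.ofReal_ne_top)
        (ENNReal.mul_ne_top ENNReal.ofReal_ne_top ENNReal.ofReal_ne_top))
    · rintro ⟨⟨τ, s⟩, p, q⟩ hz
      by_cases hpq : (p, q) ∈ Icc (-A7_R1 ω) (A7_R1 ω) ×ˢ Icc (-A7_R1 ω) (A7_R1 ω)
      · rw [A7_h_shear ω r R f0 f1 f2 hf0 m1 m2 b1 b2]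
        have : WW r τ s = 0 := by
          by_contra hW
          obtain ⟨k1, k2, k3⟩ := W1 r τ s hr hr1 hW
          exact hz ⟨⟨⟨k1, k2⟩, ⟨(abs_le.mp k3).1, (abs_le.mp k3).2⟩⟩, hpq⟩
        rw [this]; simp
      · unfold A7_h
        rw [A7_B_supp ω h0 r R f0 f1 f2 hf0 Q _ hpq, mul_zero]
  beta_reduce
  rw [integral_prod _ (hint θ)]
  have hin : ∀ e : ℝ × ℝ, ∫ z : ℝ × ℝ, Gt (θ, (e, z)) = (WW r e.1 e.2 : ℂ) *
      ∫ x : ℂ, f0 x * f1 (x + U θ * (1 + I * (r * e.1 : ℝ) + (r ^ 2 * e.2 : ℝ))) *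
        f2 (x + ω * (U θ * (1 + I * (r * e.1 : ℝ) + (r ^ 2 * e.2 : ℝ)))) := by
    rintro ⟨τ, s⟩
    rw [A7_J ω h0 r R hr f0 f1 f2 hf0 m1 m2 b1 b2 θ, Finset.mul_sum]
    simp only [Gt]
    rw [integral_finsetSum]
    · refine Finset.sum_congr rfl fun Q _ => ?_
      rw [integral_const_mul, mul_left_comm, ← integral_const_mul (WW r τ s : ℂ)]
      congr 1
      refine integral_congr_ae (Filter.Eventually.of_forall fun z => ?_)
      exact A7_h_shear ω r R f0 f1 f2 hf0 m1 m2 b1 b2 Q θ τ s z.1 z.2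
    · intro Q _
      refine Integrable.const_mul ?_ c
      refine A7_integrable ?_ (B := 1) (fun z => A7_h_le ω r R f0 f1 f2 hf0 m1 m2 b1 b2 Q _)
        (S := (Icc (-A7_R1 ω) (A7_R1 ω) ×ˢ Icc (-A7_R1 ω) (A7_R1 ω))) ?_ ?_
      · exact (A7_h_meas ω r R f0 f1 f2 hf0 m1 m2 Q).comp (by fun_prop)
      · rw [Measure.volume_eq_prod, Measure.prod_prod]
        simp only [Real.volume_Icc]
        exact ENNReal.mul_ne_top ENNReal.ofReal_ne_top ENNReal.ofReal_ne_top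
      · intro z hz
        unfold A7_h
        rw [A7_B_supp ω h0 r R f0 f1 f2 hf0 Q _ hz, mul_zero]
  have hint2 : Integrable (fun e : ℝ × ℝ => (WW r e.1 e.2 : ℂ) *
      ∫ x : ℂ, f0 x * f1 (x + U θ * (1 + I * (r * e.1 : ℝ) + (r ^ 2 * e.2 : ℝ))) *
        f2 (x + ω * (U θ * (1 + I * (r * e.1 : ℝ) + (r ^ 2 * e.2 : ℝ))))) (volume : Measure (ℝ × ℝ)) := by
    have := (hint θ).integral_prod_left
    refine this.congr (Filter.Eventually.of_forall fun e => ?_)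
    exact hin e
  rw [integral_congr_ae (Filter.Eventually.of_forall hin)]
  rw [Measure.volume_eq_prod] at hint2 ⊢
  rw [integral_prod _ hint2]

end

theorem A7_rd_le (δ : ℝ) (hδ : 0 < δ) (p : ℝ) : 0 ≤ p - A7_rd δ p ∧ p - A7_rd δ p ≤ δ := by
  unfold A7_rd
  have h1 : (⌊p / δ⌋ : ℝ) ≤ p / δ := Int.floor_le _
  have h2 : p / δ < ⌊p / δ⌋ + 1 := Int.lt_floor_add_one _
  have h3 : δ * (⌊p / δ⌋ : ℝ) ≤ p := by
    calc δ * (⌊p / δ⌋ : ℝ) ≤ δ * (p / δ) := mul_le_mul_of_nonneg_left h1 hδ.le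
      _ = p := by field_simp
  have h4 : p ≤ δ * ((⌊p / δ⌋ : ℝ) + 1) := by
    calc p = δ * (p / δ) := by field_simp
      _ ≤ δ * ((⌊p / δ⌋ : ℝ) + 1) := mul_le_mul_of_nonneg_left h2.le hδ.le
  constructor
  · linarith
  · linarith

/-- length of the `σ` interval -/
noncomputable def A7_L (ω : ℂ) : ℝ := 2 * A7_R1 ω + 4

/-- big box -/
def A7_S (ω : ℂ) : Set A7X := univ ×ˢ ((Icc (-A7_L ω) (A7_L ω) ×ˢ Icc (-1 : ℝ) 1) ×ˢ
    (Icc (-A7_R1 ω) (A7_R1 ω) ×ˢ Icc (-A7_R1 ω) (A7_R1 ω)))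

theorem A7_S_fin (ω : ℂ) : A7_mu0 (A7_S ω) ≠ ⊤ := by
  unfold A7_mu0 A7_S
  rw [Measure.prod_prod, Measure.prod_prod, Measure.volume_eq_prod, Measure.prod_prod, Measure.prod_prod,
    Measure.restrict_apply_univ]
  simp only [Real.volume_Ioc, Real.volume_Icc]
  exact ENNReal.mul_ne_top ENNReal.ofReal_ne_top (ENNReal.mul_ne_top
    (ENNReal.mul_ne_top ENNReal.ofReal_ne_top ENNReal.ofReal_ne_top)
    (ENNReal.mul_ne_top ENNReal.ofReal_ne_top ENNReal.ofReal_ne_top))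

/-- support of the weight in the `σ` variable -/
theorem A7_WW_supp (ω : ℂ) (r : ℝ) (hr : 0 < r) (hr1 : r ≤ 1) (σ s a b p q : ℝ)
    (hp : p ∈ Icc (-A7_R1 ω) (A7_R1 ω)) (hq : q ∈ Icc (-A7_R1 ω) (A7_R1 ω))
    (ha : 0 ≤ p - a ∧ p - a ≤ 1) (hb : 0 ≤ q - b ∧ q - b ≤ 1) (h : WW r (σ - a - b) s ≠ 0) :
    (σ, s) ∈ Icc (-A7_L ω) (A7_L ω) ×ˢ Icc (-1 : ℝ) 1 := by
  obtain ⟨k1, k2, k3⟩ := W1 r _ s hr hr1 h
  unfold A7_L
  rw [mem_Icc] at hp hq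
  rw [abs_le] at k3
  refine ⟨⟨?_, ?_⟩, ⟨k3.1, k3.2⟩⟩
  · show -(2 * A7_R1 ω + 4) ≤ σ
    linarith [hp.1, hq.1, ha.2, hb.2]
  · show σ ≤ 2 * A7_R1 ω + 4
    linarith [hp.2, hq.2, ha.1, hb.1]

section
variable (ω : ℂ) (h0 : ω.im ≠ 0) (r R : ℝ) (hr : 0 < r) (hr1 : r ≤ 1) (f0 f1 f2 : ℂ → ℂ) (hf0 : BF R f0)
    (m1 : Measurable f1) (m2 : Measurable f2) (b1 : ∀ x, ‖f1 x‖ ≤ 1) (b2 : ∀ x, ‖f2 x‖ ≤ 1)

include h0 hr hr1 hf0 in
theorem A7_h_supp (Q : ℤ × ℤ) (z : A7X) (hz : z ∉ A7_S ω) : A7_h ω r f0 f1 f2 Q z = 0 := by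
  by_cases hpq : z.2.2 ∈ Icc (-A7_R1 ω) (A7_R1 ω) ×ˢ Icc (-A7_R1 ω) (A7_R1 ω)
  · have : WW r (z.2.1.1 - z.2.2.1 - z.2.2.2) z.2.1.2 = 0 := by
      by_contra hW
      exact hz ⟨mem_univ _, A7_WW_supp ω r hr hr1 _ _ _ _ _ _ hpq.1 hpq.2 ⟨by simp, by simp⟩ ⟨by simp, by simp⟩ hW, hpq⟩
    unfold A7_h; rw [this]; simp
  · unfold A7_h
    rw [A7_B_supp ω h0 r R f0 f1 f2 hf0 Q _ hpq, mul_zero]

include h0 hr hr1 hf0 in
theorem A7_h'_supp (δ : ℝ) (hδ : 0 < δ) (hδ1 : δ ≤ 1) (Q : ℤ × ℤ) (z : A7X) (hz : z ∉ A7_S ω) :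
    A7_h' ω r δ f0 f1 f2 Q z = 0 := by
  by_cases hpq : z.2.2 ∈ Icc (-A7_R1 ω) (A7_R1 ω) ×ˢ Icc (-A7_R1 ω) (A7_R1 ω)
  · have : WW r (z.2.1.1 - A7_rd δ z.2.2.1 - A7_rd δ z.2.2.2) z.2.1.2 = 0 := by
      by_contra hW
      have k1 := A7_rd_le δ hδ z.2.2.1
      have k2 := A7_rd_le δ hδ z.2.2.2
      exact hz ⟨mem_univ _, A7_WW_supp ω r hr hr1 _ _ _ _ _ _ hpq.1 hpq.2 ⟨k1.1, k1.2.trans hδ1⟩
        ⟨k2.1, k2.2.trans hδ1⟩ hW, hpq⟩
    unfold A7_h'; rw [this]; simp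
  · unfold A7_h'
    rw [A7_B_supp ω h0 r R f0 f1 f2 hf0 Q _ hpq, mul_zero]

include h0 hr hr1 hf0 m1 m2 b1 b2 in
theorem A7_h_int (Q : ℤ × ℤ) : Integrable (A7_h ω r f0 f1 f2 Q) A7_mu0 :=
  A7_integrable (A7_h_meas ω r R f0 f1 f2 hf0 m1 m2 Q) (A7_h_le ω r R f0 f1 f2 hf0 m1 m2 b1 b2 Q) (A7_S_fin ω)
    (A7_h_supp ω h0 r R hr hr1 f0 f1 f2 hf0 Q)

include h0 hr hr1 hf0 m1 m2 b1 b2 in
theorem A7_h'_int (δ : ℝ) (hδ : 0 < δ) (hδ1 : δ ≤ 1) (Q : ℤ × ℤ) :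
    Integrable (A7_h' ω r δ f0 f1 f2 Q) A7_mu0 :=
  A7_integrable (A7_h'_meas ω r R f0 f1 f2 hf0 m1 m2 δ Q) (A7_h'_le ω r R f0 f1 f2 hf0 m1 m2 b1 b2 δ Q)
    (A7_S_fin ω) (A7_h'_supp ω h0 r R hr hr1 f0 f1 f2 hf0 δ hδ hδ1 Q)

/-- the comparison function -/
noncomputable def A7_D (ω : ℂ) (r δ : ℝ) (w : (ℝ × ℝ) × (ℝ × ℝ)) : ℝ :=
  (Icc (-A7_R1 ω) (A7_R1 ω) ×ˢ Icc (-A7_R1 ω) (A7_R1 ω)).indicator
    (fun _ => |WW r (w.1.1 - w.2.1 - w.2.2) w.1.2 - WW r (w.1.1 - A7_rd δ w.2.1 - A7_rd δ w.2.2) w.1.2|) w.2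

theorem A7_rd_meas' (δ : ℝ) : Measurable (A7_rd δ) := by
  unfold A7_rd
  have : Measurable fun p : ℝ => ((⌊p / δ⌋ : ℤ) : ℝ) :=
    (measurable_from_top (f := fun n : ℤ => (n : ℝ))).comp (Int.measurable_floor.comp (by fun_prop))
  exact this.const_mul δ

theorem A7_D_meas (δ : ℝ) : Measurable (A7_D ω r δ) := by
  have hrd := A7_rd_meas' δ
  have e : A7_D ω r δ = fun w : (ℝ × ℝ) × (ℝ × ℝ) =>
      ((Prod.snd : (ℝ × ℝ) × (ℝ × ℝ) → ℝ × ℝ) ⁻¹' (Icc (-A7_R1 ω) (A7_R1 ω) ×ˢ Icc (-A7_R1 ω) (A7_R1 ω))).indicator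
        (fun w => |WW r (w.1.1 - w.2.1 - w.2.2) w.1.2 -
          WW r (w.1.1 - A7_rd δ w.2.1 - A7_rd δ w.2.2) w.1.2|) w := by
    funext w
    rfl
  rw [e]
  refine Measurable.indicator ?_ ((measurableSet_Icc.prod measurableSet_Icc).preimage measurable_snd)
  have h1 : Measurable fun w : (ℝ × ℝ) × (ℝ × ℝ) => WW r (w.1.1 - w.2.1 - w.2.2) w.1.2 :=
    (A7_WW_meas r).comp (by fun_prop : Measurable fun w : (ℝ × ℝ) × (ℝ × ℝ) => (w.1.1 - w.2.1 - w.2.2, w.1.2))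
  have h2 : Measurable fun w : (ℝ × ℝ) × (ℝ × ℝ) => WW r (w.1.1 - A7_rd δ w.2.1 - A7_rd δ w.2.2) w.1.2 :=
    (A7_WW_meas r).comp
      (by fun_prop : Measurable fun w : (ℝ × ℝ) × (ℝ × ℝ) => (w.1.1 - A7_rd δ w.2.1 - A7_rd δ w.2.2, w.1.2))
  exact (h1.sub h2).abs

theorem A7_D_nonneg (δ : ℝ) (w : (ℝ × ℝ) × (ℝ × ℝ)) : 0 ≤ A7_D ω r δ w := by
  unfold A7_D
  exact indicator_nonneg (fun _ _ => abs_nonneg _) _

theorem A7_D_le (δ : ℝ) (w : (ℝ × ℝ) × (ℝ × ℝ)) : |A7_D ω r δ w| ≤ 2 := by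
  rw [abs_of_nonneg (A7_D_nonneg ω r δ w)]
  unfold A7_D indicator
  split_ifs
  · calc _ ≤ |WW r (w.1.1 - w.2.1 - w.2.2) w.1.2| + |WW r (w.1.1 - A7_rd δ w.2.1 - A7_rd δ w.2.2) w.1.2| :=
          abs_sub _ _
      _ ≤ 1 + 1 := add_le_add (A7_WW_le _ _ _) (A7_WW_le _ _ _)
      _ = 2 := by norm_num
  · norm_num

include hr hr1 in
theorem A7_D_supp (δ : ℝ) (hδ : 0 < δ) (hδ1 : δ ≤ 1) (w : (ℝ × ℝ) × (ℝ × ℝ))
    (hw : w ∉ (Icc (-A7_L ω) (A7_L ω) ×ˢ Icc (-1 : ℝ) 1) ×ˢ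
    (Icc (-A7_R1 ω) (A7_R1 ω) ×ˢ Icc (-A7_R1 ω) (A7_R1 ω))) : A7_D ω r δ w = 0 := by
  unfold A7_D
  by_cases hpq : w.2 ∈ Icc (-A7_R1 ω) (A7_R1 ω) ×ˢ Icc (-A7_R1 ω) (A7_R1 ω)
  · rw [indicator_of_mem hpq]
    have k1 := A7_rd_le δ hδ w.2.1
    have k2 := A7_rd_le δ hδ w.2.2
    have e1 : WW r (w.1.1 - w.2.1 - w.2.2) w.1.2 = 0 := by
      by_contra hW
      exact hw ⟨A7_WW_supp ω r hr hr1 _ _ _ _ _ _ hpq.1 hpq.2 ⟨by simp, by simp⟩ ⟨by simp, by simp⟩ hW, hpq⟩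
    have e2 : WW r (w.1.1 - A7_rd δ w.2.1 - A7_rd δ w.2.2) w.1.2 = 0 := by
      by_contra hW
      exact hw ⟨A7_WW_supp ω r hr hr1 _ _ _ _ _ _ hpq.1 hpq.2 ⟨k1.1, k1.2.trans hδ1⟩
        ⟨k2.1, k2.2.trans hδ1⟩ hW, hpq⟩
    rw [e1, e2]; simp
  · rw [indicator_of_notMem hpq]

theorem A7_box2_fin (ω : ℂ) : (volume.prod volume : Measure ((ℝ × ℝ) × (ℝ × ℝ)))
    ((Icc (-A7_L ω) (A7_L ω) ×ˢ Icc (-1 : ℝ) 1) ×ˢ
    (Icc (-A7_R1 ω) (A7_R1 ω) ×ˢ Icc (-A7_R1 ω) (A7_R1 ω))) ≠ ⊤ := by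
  rw [Measure.prod_prod, Measure.volume_eq_prod, Measure.prod_prod, Measure.prod_prod]
  simp only [Real.volume_Icc]
  exact (ENNReal.mul_ne_top
    (ENNReal.mul_ne_top ENNReal.ofReal_ne_top ENNReal.ofReal_ne_top)
    (ENNReal.mul_ne_top ENNReal.ofReal_ne_top ENNReal.ofReal_ne_top))

include hr hr1 in
theorem A7_D_int (δ : ℝ) (hδ : 0 < δ) (hδ1 : δ ≤ 1) :
    Integrable (A7_D ω r δ) (volume.prod volume : Measure ((ℝ × ℝ) × (ℝ × ℝ))) :=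
  A7_integrableR (A7_D_meas ω r δ) (A7_D_le ω r δ) (A7_box2_fin ω) (A7_D_supp ω r hr hr1 δ hδ hδ1)

include hr hr1 in
/-- integral of the comparison function -/
theorem A7_D_integral (C4 : ℝ) (hC4 : 0 < C4)
    (hW4 : ∀ h : ℝ, ∫ τ : ℝ, ∫ s : ℝ, |WW r (τ + h) s - WW r τ s| ≤ C4 * |h|)
    (δ : ℝ) (hδ : 0 < δ) (hδ1 : δ ≤ 1) :
    ∫ w, A7_D ω r δ w ∂(volume.prod volume : Measure ((ℝ × ℝ) × (ℝ × ℝ))) ≤
      (2 * A7_R1 ω) ^ 2 * (2 * C4 * δ) := by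
  have hint := A7_D_int ω r hr hr1 δ hδ hδ1
  rw [integral_prod_symm _ hint]
  set Bx : Set (ℝ × ℝ) := Icc (-A7_R1 ω) (A7_R1 ω) ×ˢ Icc (-A7_R1 ω) (A7_R1 ω) with hBx
  have hpt : ∀ y : ℝ × ℝ, ∫ x : ℝ × ℝ, A7_D ω r δ (x, y) ≤ Bx.indicator (fun _ => 2 * C4 * δ) y := by
    intro y
    by_cases hy : y ∈ Bx
    · rw [indicator_of_mem hy]
      have e1 : (fun x : ℝ × ℝ => A7_D ω r δ (x, y)) = fun x : ℝ × ℝ =>
          |WW r (x.1 - y.1 - y.2) x.2 - WW r (x.1 - A7_rd δ y.1 - A7_rd δ y.2) x.2| := by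
        funext x
        show Bx.indicator _ y = _
        rw [indicator_of_mem hy]
      rw [e1]
      set a := A7_rd δ y.1 + A7_rd δ y.2 with ha
      have hint2 : Integrable (fun x : ℝ × ℝ =>
          |WW r (x.1 - y.1 - y.2) x.2 - WW r (x.1 - A7_rd δ y.1 - A7_rd δ y.2) x.2|)
          (volume.prod volume : Measure (ℝ × ℝ)) := by
        rw [← e1]
        refine A7_integrableR ((A7_D_meas ω r δ).comp (by fun_prop)) (fun x => A7_D_le ω r δ _)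
          (S := Icc (-A7_L ω) (A7_L ω) ×ˢ Icc (-1 : ℝ) 1) ?_ ?_
        · rw [Measure.prod_prod]
          simp only [Real.volume_Icc]
          exact ENNReal.mul_ne_top ENNReal.ofReal_ne_top ENNReal.ofReal_ne_top
        · intro x hx
          exact A7_D_supp ω r hr hr1 δ hδ hδ1 _ (fun h => hx h.1)
      rw [Measure.volume_eq_prod, integral_prod _ hint2]
      have e2 := integral_add_right_eq_self (μ := (volume : Measure ℝ))
        (fun σ : ℝ => ∫ s : ℝ, |WW r (σ - y.1 - y.2) s - WW r (σ - A7_rd δ y.1 - A7_rd δ y.2) s|) (y.1 + y.2)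
      rw [← e2]
      have e3 : ∀ τ s : ℝ, |WW r (τ + (y.1 + y.2) - y.1 - y.2) s -
          WW r (τ + (y.1 + y.2) - A7_rd δ y.1 - A7_rd δ y.2) s| =
          |WW r (τ + ((y.1 - A7_rd δ y.1) + (y.2 - A7_rd δ y.2))) s - WW r τ s| := by
        intro τ s
        rw [abs_sub_comm]
        congr 3 <;> ring
      simp only [e3]
      refine (hW4 _).trans ?_
      have k1 := A7_rd_le δ hδ y.1
      have k2 := A7_rd_le δ hδ y.2
      rw [abs_of_nonneg (by linarith)]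
      nlinarith
    · rw [indicator_of_notMem hy]
      have e1 : (fun x : ℝ × ℝ => A7_D ω r δ (x, y)) = fun x : ℝ × ℝ => 0 := by
        funext x
        show Bx.indicator _ y = _
        rw [indicator_of_notMem hy]
      rw [e1]; simp
  have hBm : MeasurableSet Bx := measurableSet_Icc.prod measurableSet_Icc
  have hBv : (volume : Measure (ℝ × ℝ)) Bx ≠ ⊤ := by
    rw [hBx, Measure.volume_eq_prod, Measure.prod_prod]
    simp only [Real.volume_Icc]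
    exact ENNReal.mul_ne_top ENNReal.ofReal_ne_top ENNReal.ofReal_ne_top
  calc ∫ y : ℝ × ℝ, ∫ x : ℝ × ℝ, A7_D ω r δ (x, y) ≤ ∫ y : ℝ × ℝ, Bx.indicator (fun _ => 2 * C4 * δ) y := by
        refine integral_mono hint.integral_prod_right ?_ hpt
        exact (integrable_indicator_iff hBm).mpr (integrableOn_const hBv)
    _ = (2 * A7_R1 ω) ^ 2 * (2 * C4 * δ) := by
        rw [integral_indicator hBm, setIntegral_const, smul_eq_mul]
        congr 1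
        rw [hBx, Measure.real, Measure.volume_eq_prod, Measure.prod_prod]
        simp only [Real.volume_Icc]
        rw [ENNReal.toReal_mul, ENNReal.toReal_ofReal]
        · ring
        · have := A7_R1_pos ω
          by_cases h : ω.im = 0
          · unfold A7_R1; rw [h]; simp
          · linarith [this h]

include h0 hr hr1 hf0 m1 m2 b1 b2 in
/-- error made by rounding -/
theorem A7_err (C4 : ℝ) (hC4 : 0 < C4)
    (hW4 : ∀ h : ℝ, ∫ τ : ℝ, ∫ s : ℝ, |WW r (τ + h) s - WW r τ s| ≤ C4 * |h|)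
    (δ : ℝ) (hδ : 0 < δ) (hδ1 : δ ≤ 1) (Q : ℤ × ℤ) :
    ‖∫ z, A7_h ω r f0 f1 f2 Q z ∂A7_mu0 - ∫ z, A7_h' ω r δ f0 f1 f2 Q z ∂A7_mu0‖ ≤
      (2 * Real.pi) * ((2 * A7_R1 ω) ^ 2 * (2 * C4 * δ)) := by
  have i1 := A7_h_int ω h0 r R hr hr1 f0 f1 f2 hf0 m1 m2 b1 b2 Q
  have i2 := A7_h'_int ω h0 r R hr hr1 f0 f1 f2 hf0 m1 m2 b1 b2 δ hδ hδ1 Q
  have iD := A7_D_int ω r hr hr1 δ hδ hδ1
  rw [← integral_sub i1 i2]
  have hpt : ∀ z : A7X, ‖A7_h ω r f0 f1 f2 Q z - A7_h' ω r δ f0 f1 f2 Q z‖ ≤ A7_D ω r δ z.2 := by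
    intro z
    by_cases hpq : z.2.2 ∈ Icc (-A7_R1 ω) (A7_R1 ω) ×ˢ Icc (-A7_R1 ω) (A7_R1 ω)
    · unfold A7_h A7_h' A7_D
      rw [indicator_of_mem hpq, ← sub_mul, norm_mul, ← ofReal_sub, norm_real, Real.norm_eq_abs]
      exact mul_le_of_le_one_right (abs_nonneg _) (A7_B_le ω r R f0 f1 f2 hf0 m1 m2 b1 b2 Q z)
    · unfold A7_h A7_h'
      rw [A7_B_supp ω h0 r R f0 f1 f2 hf0 Q _ hpq, mul_zero, mul_zero, sub_zero, norm_zero]
      exact A7_D_nonneg ω r δ _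
  have iD2 : Integrable (fun z : A7X => A7_D ω r δ z.2) A7_mu0 := by
    unfold A7_mu0
    exact iD.comp_snd _
  calc ‖∫ z, (A7_h ω r f0 f1 f2 Q z - A7_h' ω r δ f0 f1 f2 Q z) ∂A7_mu0‖
      ≤ ∫ z, A7_D ω r δ z.2 ∂A7_mu0 := norm_integral_le_of_norm_le iD2 (Filter.Eventually.of_forall hpt)
    _ = (2 * Real.pi) * ∫ w, A7_D ω r δ w ∂(volume.prod volume) := by
        unfold A7_mu0 at iD2 ⊢
        rw [integral_prod _ iD2]
        simp only [integral_const, smul_eq_mul]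
        rw [measureReal_restrict_apply_univ, Real.volume_real_Ioc_of_le (by positivity), sub_zero]
    _ ≤ _ := by
        refine mul_le_mul_of_nonneg_left ?_ (by positivity)
        exact A7_D_integral ω r hr hr1 C4 hC4 hW4 δ hδ hδ1

end

noncomputable def A7_G (ω : ℂ) (r δ : ℝ) (f2 : ℂ → ℂ) (Q : ℤ × ℤ) (i : ℤ) (θ : ℝ) (e : ℝ × ℝ) (p : ℝ) : ℂ :=
  if ⌊p / δ⌋ = i then A7_G0 ω r f2 Q θ e p else 0

noncomputable def A7_H (ω : ℂ) (r δ : ℝ) (f1 : ℂ → ℂ) (Q : ℤ × ℤ) (i j : ℤ) (θ : ℝ) (e : ℝ × ℝ) (q : ℝ) : ℂ :=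
  if ⌊q / δ⌋ = j then (WW r (e.1 - δ * i - δ * j) e.2 : ℂ) * A7_H0 ω r f1 Q θ e q else 0

noncomputable def A7_nu (ω : ℂ) : Measure (ℝ × ℝ) :=
  volume.restrict (Icc (-A7_L ω) (A7_L ω) ×ˢ Icc (-1 : ℝ) 1)

theorem A7_L_pos (ω : ℂ) (h0 : ω.im ≠ 0) : 0 < A7_L ω := by
  have := A7_R1_pos ω h0
  unfold A7_L; linarith

theorem A7_nu_fin (ω : ℂ) : IsFiniteMeasure (A7_nu ω) := by
  constructor
  unfold A7_nu
  rw [Measure.restrict_apply_univ, Measure.volume_eq_prod, Measure.prod_prod]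
  simp only [Real.volume_Icc]
  exact (ENNReal.mul_ne_top ENNReal.ofReal_ne_top ENNReal.ofReal_ne_top).lt_top

theorem A7_nu_univ (ω : ℂ) (h0 : ω.im ≠ 0) : (A7_nu ω).real univ = 4 * A7_L ω := by
  have := A7_L_pos ω h0
  unfold A7_nu
  rw [measureReal_restrict_apply_univ, Measure.real, Measure.volume_eq_prod, Measure.prod_prod]
  simp only [Real.volume_Icc]
  rw [ENNReal.toReal_mul, ENNReal.toReal_ofReal (by linarith), ENNReal.toReal_ofReal (by norm_num)]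
  ring

noncomputable def A7_munu (ω : ℂ) : Measure A7X :=
  (volume.restrict (Ioc 0 (2 * Real.pi))).prod ((A7_nu ω).prod (volume : Measure (ℝ × ℝ)))

theorem A7_munu_eq (ω : ℂ) : A7_munu ω =
    A7_mu0.restrict (univ ×ˢ ((Icc (-A7_L ω) (A7_L ω) ×ˢ Icc (-1 : ℝ) 1) ×ˢ (univ : Set (ℝ × ℝ)))) := by
  unfold A7_munu A7_mu0 A7_nu
  rw [← Measure.prod_restrict, ← Measure.prod_restrict, Measure.restrict_univ, Measure.restrict_univ]

section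
variable (ω : ℂ) (h0 : ω.im ≠ 0) (r R : ℝ) (hr : 0 < r) (hr1 : r ≤ 1) (f0 f1 f2 : ℂ → ℂ) (hf0 : BF R f0)
    (m1 : Measurable f1) (m2 : Measurable f2) (b1 : ∀ x, ‖f1 x‖ ≤ 1) (b2 : ∀ x, ‖f2 x‖ ≤ 1)

include m2 in
theorem A7_G_meas (δ : ℝ) (Q : ℤ × ℤ) (i : ℤ) :
    Measurable (fun z : ℝ × (ℝ × ℝ) × ℝ => A7_G ω r δ f2 Q i z.1 z.2.1 z.2.2) := by
  have hU := measurable_U
  unfold A7_G A7_G0
  refine Measurable.ite ?_ (m2.comp (by fun_prop)) measurable_const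
  exact (Int.measurable_floor.comp (by fun_prop : Measurable fun z : ℝ × (ℝ × ℝ) × ℝ => z.2.2 / δ))
    (measurableSet_singleton i)

include m1 in
theorem A7_H_meas (δ : ℝ) (Q : ℤ × ℤ) (i j : ℤ) :
    Measurable (fun z : ℝ × (ℝ × ℝ) × ℝ => A7_H ω r δ f1 Q i j z.1 z.2.1 z.2.2) := by
  have hU := measurable_U
  unfold A7_H A7_H0
  refine Measurable.ite ?_ (Measurable.mul ?_ (m1.comp (by fun_prop))) measurable_const
  · exact (Int.measurable_floor.comp (by fun_prop : Measurable fun z : ℝ × (ℝ × ℝ) × ℝ => z.2.2 / δ))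
      (measurableSet_singleton j)
  · exact Complex.measurable_ofReal.comp ((A7_WW_meas r).comp
      (by fun_prop : Measurable fun z : ℝ × (ℝ × ℝ) × ℝ => (z.2.1.1 - δ * i - δ * j, z.2.1.2)))

include b2 in
theorem A7_G_le (δ : ℝ) (Q : ℤ × ℤ) (i : ℤ) (θ : ℝ) (e : ℝ × ℝ) (p : ℝ) : ‖A7_G ω r δ f2 Q i θ e p‖ ≤ 1 := by
  unfold A7_G A7_G0
  split_ifs
  · exact b2 _
  · simp

include b1 in
theorem A7_H_le (δ : ℝ) (Q : ℤ × ℤ) (i j : ℤ) (θ : ℝ) (e : ℝ × ℝ) (q : ℝ) :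
    ‖A7_H ω r δ f1 Q i j θ e q‖ ≤ 1 := by
  unfold A7_H A7_H0
  split_ifs
  · rw [norm_mul, norm_real]
    exact mul_le_one₀ (A7_WW_le _ _ _) (norm_nonneg _) (b1 _)
  · simp

noncomputable def A7_K (ω : ℂ) (r δ : ℝ) (f0 f1 f2 : ℂ → ℂ) (Q : ℤ × ℤ) (P : ℤ × ℤ) (z : A7X) : ℂ :=
  A7_F r f0 Q (((z.2.2.1 : ℂ) + z.2.2.2 * ω) * U z.1) * A7_G ω r δ f2 Q P.1 z.1 z.2.1 z.2.2.1 *
    A7_H ω r δ f1 Q P.1 P.2 z.1 z.2.1 z.2.2.2

include hf0 m1 m2 in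
theorem A7_K_meas (δ : ℝ) (Q P : ℤ × ℤ) : Measurable (A7_K ω r δ f0 f1 f2 Q P) := by
  have hU := measurable_U
  have hF := (A7_F_BF r R f0 hf0 Q).meas
  unfold A7_K
  refine Measurable.mul (Measurable.mul ?_ ?_) ?_
  · exact hF.comp (by fun_prop)
  · exact (A7_G_meas ω r f2 m2 δ Q P.1).comp (by fun_prop : Measurable fun z : A7X => (z.1, z.2.1, z.2.2.1))
  · exact (A7_H_meas ω r f1 m1 δ Q P.1 P.2).comp (by fun_prop : Measurable fun z : A7X => (z.1, z.2.1, z.2.2.2))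

include hf0 b1 b2 in
theorem A7_K_le (δ : ℝ) (Q P : ℤ × ℤ) (z : A7X) : ‖A7_K ω r δ f0 f1 f2 Q P z‖ ≤ 1 := by
  unfold A7_K
  rw [norm_mul, norm_mul]
  calc _ ≤ (1 : ℝ) * 1 * 1 := by
        gcongr
        · exact (A7_F_BF r R f0 hf0 Q).le _
        · exact A7_G_le ω r f2 b2 _ _ _ _ _ _
        · exact A7_H_le ω r f1 b1 _ _ _ _ _ _ _
    _ = 1 := by norm_num

include h0 hf0 in
theorem A7_K_supp (δ : ℝ) (Q P : ℤ × ℤ) (z : A7X)
    (hz : z.2.2 ∉ Icc (-A7_R1 ω) (A7_R1 ω) ×ˢ Icc (-A7_R1 ω) (A7_R1 ω)) : A7_K ω r δ f0 f1 f2 Q P z = 0 := by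
  unfold A7_K
  rw [(A7_F_BF r R f0 hf0 Q).supp, zero_mul, zero_mul]
  by_contra hc
  have := A7_pq ω h0 z.1 z.2.2.1 z.2.2.2 (not_lt.mp hc)
  rw [abs_le, abs_le] at this
  exact hz ⟨⟨this.1.1, this.1.2⟩, ⟨this.2.1, this.2.2⟩⟩

theorem A7_pqbox_fin (ω : ℂ) : (volume : Measure (ℝ × ℝ))
    (Icc (-A7_R1 ω) (A7_R1 ω) ×ˢ Icc (-A7_R1 ω) (A7_R1 ω)) ≠ ⊤ := by
  rw [Measure.volume_eq_prod, Measure.prod_prod]
  simp only [Real.volume_Icc]
  exact ENNReal.mul_ne_top ENNReal.ofReal_ne_top ENNReal.ofReal_ne_top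

include h0 hf0 m1 m2 b1 b2 in
theorem A7_LI_eq (δ : ℝ) (Q P : ℤ × ℤ) :
    LI ω (A7_nu ω) (A7_F r f0 Q) (A7_G ω r δ f2 Q P.1) (A7_H ω r δ f1 Q P.1 P.2) =
      ∫ z, A7_K ω r δ f0 f1 f2 Q P z ∂(A7_munu ω) ∧ Integrable (A7_K ω r δ f0 f1 f2 Q P) (A7_munu ω) := by
  have := A7_nu_fin ω
  have i1 : Integrable (A7_K ω r δ f0 f1 f2 Q P) (A7_munu ω) := by
    refine A7_integrable (A7_K_meas ω r R f0 f1 f2 hf0 m1 m2 δ Q P)
      (A7_K_le ω r R f0 f1 f2 hf0 b1 b2 δ Q P)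
      (S := univ ×ˢ (univ ×ˢ (Icc (-A7_R1 ω) (A7_R1 ω) ×ˢ Icc (-A7_R1 ω) (A7_R1 ω)))) ?_ ?_
    · unfold A7_munu
      rw [Measure.prod_prod, Measure.prod_prod, Measure.restrict_apply_univ, Real.volume_Ioc]
      exact ENNReal.mul_ne_top ENNReal.ofReal_ne_top
        (ENNReal.mul_ne_top (measure_ne_top _ _) (A7_pqbox_fin ω))
    · intro z hz
      exact A7_K_supp ω h0 r R f0 f1 f2 hf0 δ Q P z (fun h => hz ⟨mem_univ _, mem_univ _, h⟩)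
  refine ⟨?_, i1⟩
  unfold LI
  unfold A7_munu at i1 ⊢
  rw [integral_prod _ i1, intervalIntegral.integral_of_le (by positivity)]
  refine integral_congr_ae (Filter.Eventually.of_forall fun θ => ?_)
  beta_reduce
  have i2 : Integrable (fun w : (ℝ × ℝ) × (ℝ × ℝ) => A7_K ω r δ f0 f1 f2 Q P (θ, w))
      ((A7_nu ω).prod (volume : Measure (ℝ × ℝ))) := by
    refine A7_integrable ((A7_K_meas ω r R f0 f1 f2 hf0 m1 m2 δ Q P).comp (by fun_prop))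
      (fun w => A7_K_le ω r R f0 f1 f2 hf0 b1 b2 δ Q P _)
      (S := (univ ×ˢ (Icc (-A7_R1 ω) (A7_R1 ω) ×ˢ Icc (-A7_R1 ω) (A7_R1 ω)))) ?_ ?_
    · rw [Measure.prod_prod]
      exact (ENNReal.mul_ne_top (measure_ne_top _ _) (A7_pqbox_fin ω))
    · intro z hz
      exact A7_K_supp ω h0 r R f0 f1 f2 hf0 δ Q P _ (fun h => hz ⟨mem_univ _, h⟩)
  rw [integral_prod _ i2]
  refine integral_congr_ae (Filter.Eventually.of_forall fun e => ?_)
  beta_reduce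
  have i3 : Integrable (fun w : ℝ × ℝ => A7_K ω r δ f0 f1 f2 Q P (θ, (e, w))) (volume : Measure (ℝ × ℝ)) := by
    refine A7_integrable ((A7_K_meas ω r R f0 f1 f2 hf0 m1 m2 δ Q P).comp (by fun_prop))
      (fun w => A7_K_le ω r R f0 f1 f2 hf0 b1 b2 δ Q P _) (A7_pqbox_fin ω) ?_
    intro z hz
    exact A7_K_supp ω h0 r R f0 f1 f2 hf0 δ Q P _ hz
  rw [Measure.volume_eq_prod] at i3 ⊢
  rw [integral_prod _ i3]
  rfl

theorem A7_floor_mem (δ R1 : ℝ) (hδ : 0 < δ) (t : ℝ) (ht : |t| ≤ R1) :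
    ⌊t / δ⌋ ∈ Finset.Icc (-A7_M δ R1) (A7_M δ R1) := by
  have h1 : |t / δ| ≤ |R1| / δ := by
    rw [abs_div, abs_of_pos hδ]
    exact div_le_div_of_nonneg_right (ht.trans (le_abs_self R1)) hδ.le
  have h2 := abs_le.mp h1
  have h3 : |R1| / δ ≤ ⌈|R1| / δ⌉ := Int.le_ceil _
  rw [Finset.mem_Icc, A7_M]
  constructor
  · rw [Int.le_floor]; push_cast; linarith [h2.1]
  · have : ⌊t / δ⌋ ≤ ⌈|R1| / δ⌉ := by
      have : (⌊t / δ⌋ : ℝ) ≤ ⌈|R1| / δ⌉ := (Int.floor_le _).trans (h2.2.trans h3)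
      exact_mod_cast this
    omega

include h0 hf0 in
theorem A7_h'_sum (δ : ℝ) (hδ : 0 < δ) (Q : ℤ × ℤ) (z : A7X) :
    A7_h' ω r δ f0 f1 f2 Q z = ∑ P ∈ A7_Q δ (A7_R1 ω), A7_K ω r δ f0 f1 f2 Q P z := by
  by_cases hpq : z.2.2 ∈ Icc (-A7_R1 ω) (A7_R1 ω) ×ˢ Icc (-A7_R1 ω) (A7_R1 ω)
  · have k1 := A7_floor_mem δ (A7_R1 ω) hδ z.2.2.1 (abs_le.mpr ⟨hpq.1.1, hpq.1.2⟩)
    have k2 := A7_floor_mem δ (A7_R1 ω) hδ z.2.2.2 (abs_le.mpr ⟨hpq.2.1, hpq.2.2⟩)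
    rw [Finset.sum_eq_single (⌊z.2.2.1 / δ⌋, ⌊z.2.2.2 / δ⌋)]
    · unfold A7_h' A7_K A7_G A7_H A7_B A7_rd
      rw [if_pos rfl, if_pos rfl]
      ring
    · intro P _ hP
      unfold A7_K A7_G A7_H
      by_cases h1 : ⌊z.2.2.1 / δ⌋ = P.1
      · have h2 : ⌊z.2.2.2 / δ⌋ ≠ P.2 := by
          intro h2; exact hP (Prod.ext h1.symm h2.symm)
        rw [if_neg h2, mul_zero]
      · rw [if_neg h1, mul_zero, zero_mul]
    · intro h
      exfalso; apply h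
      unfold A7_Q
      rw [Finset.mem_product]
      exact ⟨k1, k2⟩
  · unfold A7_h'
    rw [A7_B_supp ω h0 r R f0 f1 f2 hf0 Q _ hpq, mul_zero]
    symm
    exact Finset.sum_eq_zero fun P _ => A7_K_supp ω h0 r R f0 f1 f2 hf0 δ Q P z hpq

include h0 hr hr1 hf0 m1 m2 b1 b2 in
theorem A7_h'_LI (δ : ℝ) (hδ : 0 < δ) (hδ1 : δ ≤ 1) (Q : ℤ × ℤ) :
    ∫ z, A7_h' ω r δ f0 f1 f2 Q z ∂A7_mu0 = ∑ P ∈ A7_Q δ (A7_R1 ω),
      LI ω (A7_nu ω) (A7_F r f0 Q) (A7_G ω r δ f2 Q P.1) (A7_H ω r δ f1 Q P.1 P.2) := by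
  have e1 : ∫ z, A7_h' ω r δ f0 f1 f2 Q z ∂(A7_munu ω) = ∫ z, A7_h' ω r δ f0 f1 f2 Q z ∂A7_mu0 := by
    rw [A7_munu_eq]
    refine setIntegral_eq_integral_of_forall_compl_eq_zero fun z hz => ?_
    refine A7_h'_supp ω h0 r R hr hr1 f0 f1 f2 hf0 δ hδ hδ1 Q z fun h => hz ?_
    exact ⟨mem_univ _, h.2.1, mem_univ _⟩
  rw [← e1, integral_congr_ae (Filter.Eventually.of_forall (A7_h'_sum ω h0 r R f0 f1 f2 hf0 δ hδ Q)),
    integral_finsetSum _ fun P _ => (A7_LI_eq ω h0 r R f0 f1 f2 hf0 m1 m2 b1 b2 δ Q P).2]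
  exact Finset.sum_congr rfl fun P _ => (A7_LI_eq ω h0 r R f0 f1 f2 hf0 m1 m2 b1 b2 δ Q P).1.symm

include h0 hr hr1 hf0 m1 m2 b1 b2 in
theorem A7_h'_bound (δ : ℝ) (hδ : 0 < δ) (hδ1 : δ ≤ 1) (Q : ℤ × ℤ) :
    ‖∫ z, A7_h' ω r δ f0 f1 f2 Q z ∂A7_mu0‖ ≤ 2 * Real.pi * ((4 * A7_L ω) * (2 * A7_R1 ω) ^ 2) := by
  have hR1 := A7_R1_pos ω h0
  have hL := A7_L_pos ω h0
  have e1 : ∫ z in A7_S ω, A7_h' ω r δ f0 f1 f2 Q z ∂A7_mu0 = ∫ z, A7_h' ω r δ f0 f1 f2 Q z ∂A7_mu0 :=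
    setIntegral_eq_integral_of_forall_compl_eq_zero fun z hz =>
      A7_h'_supp ω h0 r R hr hr1 f0 f1 f2 hf0 δ hδ hδ1 Q z hz
  rw [← e1]
  have h2 := norm_setIntegral_le_of_norm_le_const (μ := A7_mu0) (s := A7_S ω) (C := 1) (A7_S_fin ω).lt_top
    (fun z _ => A7_h'_le ω r R f0 f1 f2 hf0 m1 m2 b1 b2 δ Q z)
  refine h2.trans (le_of_eq ?_)
  rw [one_mul, Measure.real]
  unfold A7_mu0 A7_S
  rw [Measure.prod_prod, Measure.prod_prod, Measure.volume_eq_prod, Measure.prod_prod, Measure.prod_prod,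
    Measure.restrict_apply_univ]
  simp only [Real.volume_Ioc, Real.volume_Icc, ENNReal.toReal_mul]
  rw [ENNReal.toReal_ofReal (by linarith [Real.pi_pos]), ENNReal.toReal_ofReal (by linarith),
    ENNReal.toReal_ofReal (by norm_num), ENNReal.toReal_ofReal (by linarith)]
  ring

end

/-- change of variables on a cell -/
theorem A7_cov2 (r : ℝ) (hr : 0 < r) (x0 : ℂ) (k : ℂ → ℂ) (hk : Measurable k) :
    ∫ x : ℂ, k x = ((r ^ 2 : ℝ) : ℂ) * ∫ y : ℂ, k (x0 + r * (y * I)) := by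
  rw [A7_cov I (by simp) r hr I x0 (by simp) k hk]
  have h1 : ((r ^ 2 * |I.im| : ℝ) : ℂ) = ((r ^ 2 : ℝ) : ℂ) := by simp
  rw [h1]
  congr 1
  rw [← (Complex.volume_preserving_equiv_real_prod.symm).integral_comp'
      (g := fun y : ℂ => k (x0 + r * (y * I)))]
  refine integral_congr_ae (Filter.Eventually.of_forall fun z => ?_)
  beta_reduce
  congr 4
  apply Complex.ext <;> simp [Complex.measurableEquivRealProd]

/-- frequency of a cell -/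
theorem A7_FT (r R : ℝ) (hr : 0 < r) (f0 : ℂ → ℂ) (hf0 : BF R f0) (Q : ℤ × ℤ) (ξ : ℂ) :
    ‖∫ x : ℂ, (if cell r x = Q then f0 x else 0) * Complex.exp ((ip (-(ξ * I) / r) x : ℂ) * I)‖ =
      r ^ 2 * ‖FT (A7_F r f0 Q) ξ‖ := by
  classical
  have hm : Measurable (fun x : ℂ => (if cell r x = Q then f0 x else 0) *
      Complex.exp ((ip (-(ξ * I) / r) x : ℂ) * I)) := by
    refine Measurable.mul (Measurable.ite (A7_cell_meas r Q) hf0.meas measurable_const) ?_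
    unfold ip; fun_prop
  rw [A7_cov2 r hr (A7_x r Q) _ hm, norm_mul, norm_real, Real.norm_eq_abs, abs_of_pos (by positivity)]
  congr 1
  have e1 : ∀ y : ℂ, (if cell r (A7_x r Q + r * (y * I)) = Q then f0 (A7_x r Q + r * (y * I)) else 0) *
      Complex.exp ((ip (-(ξ * I) / r) (A7_x r Q + r * (y * I)) : ℂ) * I) =
      Complex.exp ((ip (-(ξ * I) / r) (A7_x r Q) : ℂ) * I) *
        (A7_F r f0 Q y * Complex.exp (-(ip ξ y : ℂ) * I)) := by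
    intro y
    have h1 : ip (-(ξ * I) / r) (A7_x r Q + r * (y * I)) = ip (-(ξ * I) / r) (A7_x r Q) - ip ξ y := by
      rw [ip_add_right]
      have : ip (-(ξ * I) / r) (r * (y * I)) = -ip ξ y := by
        have hrr : (-(ξ * I) / (r : ℂ)) = ((r⁻¹ : ℝ) : ℂ) * (-(ξ * I)) := by
          rw [ofReal_inv, div_eq_inv_mul]
        rw [hrr, ip_mul_real_left, ip_mul_real_right, ← mul_assoc, inv_mul_cancel₀ hr.ne', one_mul]
        simp only [ip, neg_re, neg_im, mul_re, mul_im, I_re, I_im]; ring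
      rw [this]; ring
    rw [h1]
    have h2 : (((ip (-(ξ * I) / r) (A7_x r Q) - ip ξ y : ℝ) : ℂ) * I) =
        (ip (-(ξ * I) / r) (A7_x r Q) : ℂ) * I + -(ip ξ y : ℂ) * I := by push_cast; ring
    rw [h2, Complex.exp_add]
    unfold A7_F
    simp only [A7_cell r hr]
    split_ifs <;> ring
  rw [integral_congr_ae (Filter.Eventually.of_forall e1), integral_const_mul, norm_mul,
    Complex.norm_exp_ofReal_mul_I, one_mul]
  rfl

theorem A7_pow (c : ℝ) (hc : 0 < c) : ∃ k : ℕ, ∀ ε : ℝ, 0 < ε → ε ≤ 1 / 2 → ε ^ k ≤ c := by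
  obtain ⟨k, hk⟩ := exists_pow_lt_of_lt_one hc (by norm_num : (1 / 2 : ℝ) < 1)
  exact ⟨k, fun ε h0 h1 => (pow_le_pow_left₀ h0.le h1 k).trans hk.le⟩

theorem A7_alg1 (n b r C3 ε : ℝ) (hb : 0 < b) (hC3 : 0 < C3) :
    n * (r ^ 2 * b * (ε / (4 * b * C3))) = n * r ^ 2 * (ε / (4 * C3)) := by
  field_simp

theorem A7_alg2 (C3 ε : ℝ) (hC3 : 0 < C3) : C3 * (ε / (4 * C3)) = ε / 4 := by
  field_simp

theorem A7_alg3 (b C3 C6 ε : ℝ) (hb : 0 < b) (hC3 : 0 < C3) (hC6 : 0 < C6) :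
    C6 * (ε / (4 * b * C3 * C6)) = ε / (4 * b * C3) := by
  field_simp

theorem A7_alg4 (b C3 C5 C6 ε : ℝ) (hb : 0 < b) (hC3 : 0 < C3) (hC5 : 0 < C5) (hC6 : 0 < C6) :
    ε * (ε / (2 * C5)) ^ 2 / (4 * b * C3 * C6) = ε ^ 3 * (1 / (16 * C5 ^ 2 * b * C3 * C6)) := by
  field_simp; ring

theorem A7_alg5 (C5 ε : ℝ) (hC5 : 0 < C5) : C5 * (ε / (2 * C5)) = ε / 2 := by
  field_simp

theorem prop41 (ω : ℂ) (h0 : ω.im ≠ 0) (h1 : ω.re ≠ 0) (R : ℝ) : ∃ n : ℕ, 1 ≤ n ∧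
    ∀ ε : ℝ, 0 < ε → ε ≤ 1 / 2 → ∀ r : ℝ, 0 < r → r ≤ 1 → ∀ f0 f1 f2 : ℂ → ℂ, BF R f0 →
    Measurable f1 → Measurable f2 → (∀ x, ‖f1 x‖ ≤ 1) → (∀ x, ‖f2 x‖ ≤ 1) →
    ε ≤ ‖TK ω (kD r) f0 f1 f2‖ → ∃ φ : ℂ → ℂ, SF r (R + 2) φ ∧ ε ^ n ≤ ‖∫ x : ℂ, f0 x * φ x‖ := by
  classical
  obtain ⟨C4, hC4, hW4⟩ := W4
  obtain ⟨n1, hn1, hLL⟩ := LLb ω h0 h1 2 (4 * A7_L ω)
  have hb : 0 < |ω.im| := abs_pos.mpr h0
  set b := |ω.im| with hbdef
  have hR1 := A7_R1_pos ω h0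
  set R1 := A7_R1 ω with hR1def
  have hL := A7_L_pos ω h0
  set C3 : ℝ := (2 * |R| + 5) ^ 2 with hC3def
  have hC3 : 0 < C3 := by positivity
  set C5 : ℝ := 1 + C3 * b * (2 * Real.pi * ((2 * R1) ^ 2 * (2 * C4))) with hC5def
  have hC5 : 1 ≤ C5 := by
    have : 0 ≤ C3 * b * (2 * Real.pi * ((2 * R1) ^ 2 * (2 * C4))) := by positivity
    linarith
  set C6 : ℝ := (2 * |R1| + 5) ^ 2 with hC6def
  have hC6 : 0 < C6 := by positivity
  set C7 : ℝ := 2 * Real.pi * ((4 * A7_L ω) * (2 * R1) ^ 2) with hC7def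
  have hC7 : 0 < C7 := by positivity
  -- constants for the exponents
  obtain ⟨k1, hk1⟩ := A7_pow (1 / (16 * C5 ^ 2 * b * C3 * C6)) (by positivity)
  obtain ⟨k2, hk2⟩ := A7_pow (1 / (4 * b * C7)) (by positivity)
  refine ⟨1 + k2 + (3 + k1) * n1, by omega, ?_⟩
  intro ε hε hε2 r hr hr1 f0 f1 f2 hf0 m1 m2 b1 b2 hT
  set δ : ℝ := ε / (2 * C5) with hδdef
  have hδ : 0 < δ := by positivity
  have hδ1 : δ ≤ 1 := by
    rw [hδdef, div_le_one (by positivity)]; linarith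
  set t : ℝ := ε * δ ^ 2 / (4 * b * C3 * C6) with htdef
  have ht : 0 < t := by positivity
  set ε1 : ℝ := ε ^ (3 + k1) with hε1def
  have hε1 : 0 < ε1 := by positivity
  have hε12 : ε1 ≤ 1 / 2 := by
    calc ε1 ≤ ε ^ 1 := pow_le_pow_of_le_one hε.le (by linarith) (by omega)
      _ ≤ 1 / 2 := by rw [pow_one]; exact hε2
  have hε1t : ε1 ≤ t := by
    have e : t = ε ^ 3 * (1 / (16 * C5 ^ 2 * b * C3 * C6)) :=
      A7_alg4 b C3 C5 C6 ε hb hC3 (by linarith) hC6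
    rw [e, hε1def, pow_add]
    exact mul_le_mul_of_nonneg_left (hk1 ε hε hε2) (by positivity)
  -- abbreviations
  set c : ℂ := ((r ^ 2 * b : ℝ) : ℂ) with hcdef
  have hcn : ‖c‖ = r ^ 2 * b := by rw [hcdef, norm_real, Real.norm_eq_abs, abs_of_pos (by positivity)]
  set Lq : ℤ × ℤ → ℤ × ℤ → ℂ := fun Q P =>
    LI ω (A7_nu ω) (A7_F r f0 Q) (A7_G ω r δ f2 Q P.1) (A7_H ω r δ f1 Q P.1 P.2) with hLq
  set IP := A7_Q δ R1 with hIP
  have hcardP : (IP.card : ℝ) * δ ^ 2 ≤ C6 := A7_card_Q δ R1 hδ hδ1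
  have hcardQ : ((A7_Q r R).card : ℝ) * r ^ 2 ≤ C3 := A7_card_Q r R hr hr1
  set hh : ℤ × ℤ → ℂ := fun Q => ∫ z, A7_h ω r f0 f1 f2 Q z ∂A7_mu0 with hhdef
  set hh' : ℤ × ℤ → ℂ := fun Q => ∫ z, A7_h' ω r δ f0 f1 f2 Q z ∂A7_mu0 with hh'def
  have hTform : TK ω (kD r) f0 f1 f2 = ∑ Q ∈ A7_Q r R, c * hh Q :=
    A7_T ω h0 r R hr hr1 f0 f1 f2 hf0 m1 m2 b1 b2
  have hLIsum : ∀ Q, hh' Q = ∑ P ∈ IP, Lq Q P := fun Q =>
    A7_h'_LI ω h0 r R hr hr1 f0 f1 f2 hf0 m1 m2 b1 b2 δ hδ hδ1 Q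
  have herr : ‖∑ Q ∈ A7_Q r R, c * hh Q - ∑ Q ∈ A7_Q r R, c * hh' Q‖ ≤ C5 * δ := by
    rw [← Finset.sum_sub_distrib]
    calc ‖∑ Q ∈ A7_Q r R, (c * hh Q - c * hh' Q)‖ ≤ ∑ Q ∈ A7_Q r R, ‖c * hh Q - c * hh' Q‖ := norm_sum_le _ _
      _ ≤ ∑ Q ∈ A7_Q r R, (r ^ 2 * b) * ((2 * Real.pi) * ((2 * R1) ^ 2 * (2 * C4 * δ))) := by
          refine Finset.sum_le_sum fun Q _ => ?_
          rw [← mul_sub, norm_mul, hcn]
          exact mul_le_mul_of_nonneg_left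
            (A7_err ω h0 r R hr hr1 f0 f1 f2 hf0 m1 m2 b1 b2 C4 hC4 (fun h => hW4 r hr hr1 h) δ hδ hδ1 Q)
            (by positivity)
      _ = ((A7_Q r R).card : ℝ) * r ^ 2 * (b * (2 * Real.pi * ((2 * R1) ^ 2 * (2 * C4))) * δ) := by
          rw [Finset.sum_const, nsmul_eq_mul]; ring
      _ ≤ C3 * (b * (2 * Real.pi * ((2 * R1) ^ 2 * (2 * C4))) * δ) :=
          mul_le_mul_of_nonneg_right hcardQ (by positivity)
      _ ≤ C5 * δ := by rw [hC5def]; nlinarith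
  have hT' : ε / 2 ≤ ‖∑ Q ∈ A7_Q r R, c * hh' Q‖ := by
    have e : C5 * δ = ε / 2 := A7_alg5 C5 ε (by linarith)
    rw [e] at herr
    rw [hTform] at hT
    have := norm_sub_norm_le (∑ Q ∈ A7_Q r R, c * hh Q) (∑ Q ∈ A7_Q r R, c * hh' Q)
    linarith
  -- the good cells
  set 𝒬 : Finset (ℤ × ℤ) := (A7_Q r R).filter (fun Q => ∃ P ∈ IP, t ≤ ‖Lq Q P‖) with h𝒬
  have hbad : ∀ Q, Q ∉ 𝒬 → Q ∈ A7_Q r R → ‖hh' Q‖ ≤ ε / (4 * b * C3) := by
    intro Q hQ hQm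
    have hlt : ∀ P ∈ IP, ‖Lq Q P‖ ≤ t := by
      intro P hP
      by_contra hc
      exact hQ (Finset.mem_filter.mpr ⟨hQm, P, hP, (not_le.mp hc).le⟩)
    rw [hLIsum Q]
    calc ‖∑ P ∈ IP, Lq Q P‖ ≤ ∑ P ∈ IP, ‖Lq Q P‖ := norm_sum_le _ _
      _ ≤ ∑ P ∈ IP, t := Finset.sum_le_sum hlt
      _ = (IP.card : ℝ) * δ ^ 2 * (ε / (4 * b * C3 * C6)) := by
          rw [Finset.sum_const, nsmul_eq_mul, htdef]; ring
      _ ≤ C6 * (ε / (4 * b * C3 * C6)) := mul_le_mul_of_nonneg_right hcardP (by positivity)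
      _ = ε / (4 * b * C3) := A7_alg3 b C3 C6 ε hb hC3 hC6
  have hgood : ∀ Q, ‖hh' Q‖ ≤ C7 := fun Q =>
    A7_h'_bound ω h0 r R hr hr1 f0 f1 f2 hf0 m1 m2 b1 b2 δ hδ hδ1 Q
  have hcount : ε / (4 * b * C7) ≤ (𝒬.card : ℝ) * r ^ 2 := by
    have h3 : ‖∑ Q ∈ A7_Q r R, c * hh' Q‖ ≤ (𝒬.card : ℝ) * r ^ 2 * (b * C7) + ε / 4 := by
      calc ‖∑ Q ∈ A7_Q r R, c * hh' Q‖ ≤ ∑ Q ∈ A7_Q r R, ‖c * hh' Q‖ := norm_sum_le _ _
        _ ≤ ∑ Q ∈ A7_Q r R, ((if Q ∈ 𝒬 then r ^ 2 * (b * C7) else 0) + r ^ 2 * b * (ε / (4 * b * C3))) := by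
            refine Finset.sum_le_sum fun Q hQ => ?_
            rw [norm_mul, hcn]
            split_ifs with hq
            · have := mul_le_mul_of_nonneg_left (hgood Q) (by positivity : (0:ℝ) ≤ r ^ 2 * b)
              have h' : 0 ≤ r ^ 2 * b * (ε / (4 * b * C3)) := by positivity
              nlinarith
            · rw [zero_add]
              exact mul_le_mul_of_nonneg_left (hbad Q hq hQ) (by positivity)
        _ = (𝒬.card : ℝ) * r ^ 2 * (b * C7) + ((A7_Q r R).card : ℝ) * r ^ 2 * (ε / (4 * C3)) := by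
            rw [Finset.sum_add_distrib, Finset.sum_const, nsmul_eq_mul, ← Finset.sum_filter]
            have : (A7_Q r R).filter (fun Q => Q ∈ 𝒬) = 𝒬 := by
              ext Q; simp only [Finset.mem_filter, h𝒬]; tauto
            rw [this, Finset.sum_const, nsmul_eq_mul, A7_alg1 _ b r C3 ε hb hC3]
            ring
        _ ≤ (𝒬.card : ℝ) * r ^ 2 * (b * C7) + C3 * (ε / (4 * C3)) := by
            have := mul_le_mul_of_nonneg_right hcardQ (by positivity : (0:ℝ) ≤ ε / (4 * C3))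
            linarith
        _ = (𝒬.card : ℝ) * r ^ 2 * (b * C7) + ε / 4 := by
            rw [A7_alg2 C3 ε hC3]
    rw [div_le_iff₀ (by positivity)]
    nlinarith
  -- frequencies
  have hfreq : ∀ Q : ℤ × ℤ, ∃ ξ : ℂ, Q ∈ 𝒬 → ε1 ^ n1 ≤ ‖FT (A7_F r f0 Q) ξ‖ := by
    intro Q
    by_cases hQ : Q ∈ 𝒬
    · obtain ⟨-, P, hP, hPt⟩ := Finset.mem_filter.mp hQ
      have hfin := A7_nu_fin ω
      obtain ⟨ξ, hξ⟩ := hLL ε1 hε1 hε12 (ℝ × ℝ) inferInstance (A7_nu ω) hfin (A7_nu_univ ω h0).le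
        (A7_F r f0 Q) (A7_F_BF r R f0 hf0 Q) (A7_G ω r δ f2 Q P.1) (A7_H ω r δ f1 Q P.1 P.2)
        (A7_G_meas ω r f2 m2 δ Q P.1) (A7_H_meas ω r f1 m1 δ Q P.1 P.2)
        (A7_G_le ω r f2 b2 δ Q P.1) (A7_H_le ω r f1 b1 δ Q P.1 P.2) (hε1t.trans hPt)
      exact ⟨ξ, fun _ => hξ⟩
    · exact ⟨0, fun h => absurd h hQ⟩
  choose ξ hξ using hfreq
  set a : ℤ × ℤ → ℂ := fun Q => -(ξ Q * I) / r with hadef
  set w : ℤ × ℤ → ℂ := fun Q => ∫ x : ℂ, (if cell r x = Q then f0 x else 0) *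
    Complex.exp ((ip (a Q) x : ℂ) * I) with hwdef
  have hw : ∀ Q, ‖w Q‖ = r ^ 2 * ‖FT (A7_F r f0 Q) (ξ Q)‖ := fun Q => A7_FT r R hr f0 hf0 Q (ξ Q)
  set cc : ℤ × ℤ → ℂ := fun Q => if Q ∈ 𝒬 then conj (w Q) / ‖w Q‖ else 0 with hccdef
  have hcc : ∀ Q, ‖cc Q‖ ≤ 1 := by
    intro Q
    simp only [hccdef]
    split_ifs
    · rw [norm_div, norm_conj, norm_real, norm_norm]
      exact div_self_le_one _
    · simp
  refine ⟨fun x => cc (cell r x) * Complex.exp ((ip (a (cell r x)) x : ℂ) * I), ⟨⟨a, cc, hcc, fun x => rfl⟩, ?_⟩, ?_⟩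
  · -- support
    intro x hx
    have hn : cell r x ∉ 𝒬 := by
      intro hq
      have h2 := hξ _ hq
      have hF : A7_F r f0 (cell r x) = fun _ => 0 := by
        funext y
        unfold A7_F
        split_ifs with hy
        · apply hf0.supp
          -- both points are in the same cell
          set x' := A7_x r (cell r x) + r * (y * I) with hx'
          set y0 : ℂ := (x - A7_x r (cell r x)) / r with hy0
          have hr' : (r : ℂ) ≠ 0 := by exact_mod_cast hr.ne'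
          have hxx : x = A7_x r (cell r x) + r * y0 := by
            rw [hy0]; field_simp; ring
          have hy0m : y0 ∈ usq := by
            rw [← A7_cell r hr (cell r x) y0, ← hxx]
          have hd : ‖x - x'‖ ≤ 2 := by
            have e : x - x' = r * (y0 - y * I) := by
              rw [hx']; nth_rewrite 1 [hxx]; ring
            rw [e, norm_mul, norm_real, Real.norm_eq_abs, abs_of_pos hr]
            have : ‖y0 - y * I‖ ≤ 2 := by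
              refine (norm_le_abs_re_add_abs_im _).trans ?_
              obtain ⟨g1, g2, g3, g4⟩ := hy0m
              obtain ⟨l1, l2, l3, l4⟩ := hy
              have q1 : |(y0 - y * I).re| ≤ 1 := by
                rw [sub_re, abs_le]; constructor <;> linarith
              have q2 : |(y0 - y * I).im| ≤ 1 := by
                rw [sub_im, abs_le]; constructor <;> linarith
              linarith
            nlinarith [norm_nonneg (y0 - y * I)]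
          have := norm_sub_norm_le x x'
          linarith
        · rfl
      rw [hF] at h2
      have : FT (fun _ => 0) (ξ (cell r x)) = 0 := by unfold FT; simp
      rw [this, norm_zero] at h2
      have : 0 < ε1 ^ n1 := by positivity
      linarith
    simp only [hccdef, if_neg hn, zero_mul]
  · -- correlation
    have hpt : ∀ x, f0 x * (cc (cell r x) * Complex.exp ((ip (a (cell r x)) x : ℂ) * I)) =
        ∑ Q ∈ A7_Q r R, cc Q * ((if cell r x = Q then f0 x else 0) * Complex.exp ((ip (a Q) x : ℂ) * I)) := by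
      intro x
      by_cases hx : ‖x‖ ≤ R
      · rw [Finset.sum_eq_single (cell r x)]
        · rw [if_pos rfl]; ring
        · intro Q _ hQ
          rw [if_neg (fun h => hQ h.symm)]; ring
        · intro h
          exact absurd (A7_mem_Q r R hr x hx) h
      · rw [hf0.supp x (not_le.mp hx), zero_mul]
        symm
        refine Finset.sum_eq_zero fun Q _ => ?_
        simp
    have hint : ∀ Q ∈ A7_Q r R, Integrable (fun x : ℂ => cc Q * ((if cell r x = Q then f0 x else 0) *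
        Complex.exp ((ip (a Q) x : ℂ) * I))) := by
      intro Q _
      refine Integrable.const_mul ?_ _
      refine A7_integrable ?_ (B := 1) ?_ (S := Metric.closedBall (0 : ℂ) R) ?_ ?_
      · refine Measurable.mul (Measurable.ite (A7_cell_meas r Q) hf0.meas measurable_const) ?_
        unfold ip; fun_prop
      · intro x
        rw [norm_mul, Complex.norm_exp_ofReal_mul_I, mul_one]
        split_ifs
        · exact hf0.le x
        · simp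
      · exact (isCompact_closedBall (0 : ℂ) R).measure_lt_top.ne
      · intro x hx
        have : R < ‖x‖ := by simpa using hx
        rw [hf0.supp x this]; simp
    rw [integral_congr_ae (Filter.Eventually.of_forall hpt), integral_finsetSum _ hint]
    have hterm : ∀ Q ∈ A7_Q r R, ∫ x : ℂ, cc Q * ((if cell r x = Q then f0 x else 0) *
        Complex.exp ((ip (a Q) x : ℂ) * I)) = (((if Q ∈ 𝒬 then ‖w Q‖ else 0 : ℝ)) : ℂ) := by
      intro Q _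
      rw [integral_const_mul]
      show cc Q * w Q = _
      simp only [hccdef]
      split_ifs with hq
      · by_cases hw0 : w Q = 0
        · rw [hw0]; simp
        · have hn : (‖w Q‖ : ℂ) ≠ 0 := by
            exact_mod_cast (norm_ne_zero_iff.mpr hw0)
          rw [div_mul_eq_mul_div, mul_comm (conj (w Q)), Complex.mul_conj, normSq_eq_norm_sq]
          push_cast
          field_simp
      · simp
    rw [Finset.sum_congr rfl hterm, ← ofReal_sum, norm_real, Real.norm_eq_abs]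
    refine le_trans ?_ (le_abs_self _)
    have hsum : ((𝒬.card : ℝ) * r ^ 2) * ε1 ^ n1 ≤ ∑ Q ∈ A7_Q r R, (if Q ∈ 𝒬 then ‖w Q‖ else 0 : ℝ) := by
      rw [← Finset.sum_filter]
      have : (A7_Q r R).filter (fun Q => Q ∈ 𝒬) = 𝒬 := by
        ext Q; simp only [Finset.mem_filter, h𝒬]; tauto
      rw [this]
      calc ((𝒬.card : ℝ) * r ^ 2) * ε1 ^ n1 = ∑ Q ∈ 𝒬, r ^ 2 * ε1 ^ n1 := by
            rw [Finset.sum_const, nsmul_eq_mul]; ring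
        _ ≤ ∑ Q ∈ 𝒬, ‖w Q‖ := by
            refine Finset.sum_le_sum fun Q hQ => ?_
            rw [hw Q]
            exact mul_le_mul_of_nonneg_left (hξ Q hQ) (by positivity)
    refine le_trans ?_ hsum
    have e : ε ^ (1 + k2 + (3 + k1) * n1) = (ε * ε ^ k2) * ε1 ^ n1 := by
      rw [hε1def, ← pow_mul, pow_add, pow_add, pow_one]
    rw [e]
    refine mul_le_mul_of_nonneg_right ?_ (by positivity)
    refine le_trans ?_ hcount
    calc ε * ε ^ k2 ≤ ε * (1 / (4 * b * C7)) := mul_le_mul_of_nonneg_left (hk2 ε hε hε2) hε.le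
      _ = ε / (4 * b * C7) := by ring

end TriDil
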