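import Pool.Agent.TriDil.Basic7
import Pool.Agent.TriDil.A7
set_option autoImplicit false
open MeasureTheory Complex Set
namespace TriDil
open scoped ComplexConjugate

theorem A8_pow (c : ℝ) (hc : 0 < c) : ∃ N : ℕ, ∀ ε : ℝ, 0 < ε → ε ≤ 1 / 2 → ε ^ N ≤ c := by
  obtain ⟨N, hN⟩ := exists_pow_lt_of_lt_one hc (by norm_num : (1 / 2 : ℝ) < 1)
  exact ⟨N, fun ε h0 h1 => (pow_le_pow_left₀ h0.le h1 N).trans hN.le⟩

theorem A8_cell_meas (d : ℝ) : Measurable (cell d) := by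
  unfold cell
  exact (Int.measurable_floor.comp (measurable_re.div_const d)).prodMk
    (Int.measurable_floor.comp (measurable_im.div_const d))

theorem A8_SF_BF {ρ R : ℝ} {φ : ℂ → ℂ} (h : SF ρ R φ) : BF R φ where
  meas := by
    obtain ⟨a, c, hc, he⟩ := h.ex
    have h0 : φ = fun x => c (cell ρ x) * Complex.exp ((ip (a (cell ρ x)) x : ℂ) * I) := funext he
    rw [h0]
    have h1 : Measurable fun x => c (cell ρ x) := (measurable_of_countable c).comp (A8_cell_meas ρ)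
    have h2 : Measurable fun x => a (cell ρ x) := (measurable_of_countable a).comp (A8_cell_meas ρ)
    have h3 : Measurable fun x => ip (a (cell ρ x)) x := by
      unfold ip
      exact ((measurable_re.comp h2).mul measurable_re).add
        ((measurable_im.comp h2).mul measurable_im)
    exact h1.mul (Complex.measurable_exp.comp ((Complex.measurable_ofReal.comp h3).mul_const I))
  le := by
    obtain ⟨a, c, hc, he⟩ := h.ex
    intro x
    rw [he x, norm_mul, Complex.norm_exp_ofReal_mul_I, mul_one]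
    exact hc _
  supp := h.supp

theorem A8_SF_conj {ρ R : ℝ} {φ : ℂ → ℂ} (h : SF ρ R φ) : SF ρ R (fun x => conj (φ x)) where
  ex := by
    obtain ⟨a, c, hc, he⟩ := h.ex
    refine ⟨fun n => -a n, fun n => conj (c n), fun n => by rw [norm_conj]; exact hc n, ?_⟩
    intro x
    rw [he x, map_mul, ← Complex.exp_conj]
    congr 2
    rw [map_mul, Complex.conj_I, Complex.conj_ofReal, ip_neg_left]
    push_cast
    ring
  supp := fun x hx => by
    show conj (φ x) = 0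
    rw [h.supp x hx, map_zero]

theorem A8_SF_mono {ρ R R' : ℝ} {φ : ℂ → ℂ} (h : SF ρ R φ) (hR : R ≤ R') : SF ρ R' φ :=
  ⟨h.ex, fun x hx => h.supp x (hR.trans_lt hx)⟩

theorem A8_BF_mono {R R' : ℝ} {φ : ℂ → ℂ} (h : BF R φ) (hR : R ≤ R') : BF R' φ :=
  ⟨h.meas, h.le, fun x hx => h.supp x (hR.trans_lt hx)⟩

/-! ### the kernel -/

theorem A8_haar_meas : Measurable haar := by
  unfold haar
  refine Measurable.ite ?_ measurable_const (Measurable.ite ?_ measurable_const measurable_const)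
  · exact measurableSet_Icc
  · exact measurableSet_Ioc

theorem A8_haar_le (t : ℝ) : |haar t| ≤ 1 := by
  unfold haar
  split_ifs <;> simp

theorem A8_haar_supp {t : ℝ} (h : haar t ≠ 0) : 0 ≤ t ∧ t ≤ 1 := by
  unfold haar at h
  split_ifs at h with h1 h2
  · exact ⟨h1.1, by linarith [h1.2]⟩
  · exact ⟨by linarith [h2.1], h2.2⟩
  · exact absurd rfl h

theorem A8_kD_meas (r : ℝ) : Measurable (kD r) := by
  unfold kD
  exact (A8_haar_meas.comp (((Complex.continuous_normSq.measurable).sub_const 1).div_const _)).const_mul _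

theorem A8_kD_supp {r : ℝ} (hr : 0 < r) {u : ℂ} (h : kD r u ≠ 0) :
    1 ≤ normSq u ∧ normSq u ≤ 1 + r ^ 2 := by
  unfold kD at h
  have h1 := A8_haar_supp (right_ne_zero_of_mul h)
  have h2 : (0 : ℝ) < r ^ 2 := by positivity
  constructor
  · have := h1.1
    rw [div_nonneg_iff] at this
    rcases this with h3 | h3
    · linarith [h3.1]
    · linarith [h3.2]
  · have := h1.2
    rw [div_le_one h2] at this
    linarith

theorem A8_kD_supp' {r : ℝ} (hr : 0 < r) (hr1 : r ≤ 1) {u : ℂ} (h : kD r u ≠ 0) : ‖u‖ ≤ 2 := by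
  have h1 := (A8_kD_supp hr h).2
  rw [normSq_eq_norm_sq] at h1
  have h2 : r ^ 2 ≤ 1 := by nlinarith
  nlinarith [norm_nonneg u]

theorem A8_kD_neg (r : ℝ) (u : ℂ) : kD r (-u) = kD r u := by
  unfold kD; rw [normSq_neg]

/-- the annulus -/
theorem A8_ann {r : ℝ} (hr : 0 < r) :
    MeasurableSet {u : ℂ | 1 ≤ normSq u ∧ normSq u ≤ 1 + r ^ 2} ∧
    volume {u : ℂ | 1 ≤ normSq u ∧ normSq u ≤ 1 + r ^ 2} ≤ ENNReal.ofReal (Real.pi * r ^ 2) := by
  have hm : MeasurableSet {u : ℂ | 1 ≤ normSq u ∧ normSq u ≤ 1 + r ^ 2} :=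
    (measurableSet_le measurable_const Complex.continuous_normSq.measurable).inter
      (measurableSet_le Complex.continuous_normSq.measurable measurable_const)
  refine ⟨hm, ?_⟩
  have hs : {u : ℂ | 1 ≤ normSq u ∧ normSq u ≤ 1 + r ^ 2} ⊆
      Metric.closedBall (0 : ℂ) (Real.sqrt (1 + r ^ 2)) \ Metric.ball (0 : ℂ) 1 := by
    intro u hu
    simp only [mem_ofPred_eq, normSq_eq_norm_sq] at hu
    refine ⟨?_, ?_⟩
    · rw [mem_closedBall_zero_iff]
      exact Real.le_sqrt_of_sq_le hu.2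
    · rw [mem_ball_zero_iff, not_lt]
      nlinarith [norm_nonneg u, hu.1]
  refine (measure_mono hs).trans ?_
  rw [measure_sdiff ?_ measurableSet_ball.nullMeasurableSet ?_]
  · rw [Complex.volume_closedBall, Complex.volume_ball]
    have h1 : ENNReal.ofReal (Real.sqrt (1 + r ^ 2)) ^ 2 = ENNReal.ofReal (1 + r ^ 2) := by
      rw [← ENNReal.ofReal_pow (Real.sqrt_nonneg _), Real.sq_sqrt (by positivity)]
    rw [h1]
    rw [ENNReal.ofReal_one, one_pow, one_mul, ENNReal.ofReal_add (by norm_num) (by positivity),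
      add_mul, ENNReal.ofReal_one, one_mul, ENNReal.add_sub_cancel_left (by simp)]
    rw [mul_comm Real.pi, ENNReal.ofReal_mul (by positivity)]
    apply le_of_eq
    congr 1
    rw [← NNReal.coe_real_pi, ENNReal.ofReal_coe_nnreal]
  · intro u hu
    rw [mem_ball_zero_iff] at hu
    rw [mem_closedBall_zero_iff]
    exact hu.le.trans (Real.one_le_sqrt.2 (by nlinarith))
  · rw [Complex.volume_ball]
    simp

theorem A8_kD_norm {r : ℝ} (hr : 0 < r) (u : ℂ) : |kD r u| ≤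
    {u : ℂ | 1 ≤ normSq u ∧ normSq u ≤ 1 + r ^ 2}.indicator (fun _ => (r ^ 2)⁻¹) u := by
  by_cases h : kD r u = 0
  · rw [h, abs_zero]
    exact indicator_nonneg (fun _ _ => by positivity) u
  · have hu : u ∈ {u : ℂ | 1 ≤ normSq u ∧ normSq u ≤ 1 + r ^ 2} := A8_kD_supp hr h
    rw [indicator_of_mem hu]
    unfold kD
    rw [abs_mul, abs_of_nonneg (by positivity : (0 : ℝ) ≤ (r ^ 2)⁻¹)]
    exact mul_le_of_le_one_right (by positivity) (A8_haar_le _)

theorem A8_kD_int {r : ℝ} (hr : 0 < r) : Integrable (kD r) ∧ ∫ u : ℂ, |kD r u| ≤ 4 := by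
  have ha := A8_ann hr
  have hfin : volume {u : ℂ | 1 ≤ normSq u ∧ normSq u ≤ 1 + r ^ 2} ≠ ⊤ :=
    ne_top_of_le_ne_top ENNReal.ofReal_ne_top ha.2
  have hi : Integrable ({u : ℂ | 1 ≤ normSq u ∧ normSq u ≤ 1 + r ^ 2}.indicator
      (fun _ => (r ^ 2)⁻¹)) := by
    rw [integrable_indicator_iff ha.1]
    exact integrableOn_const hfin
  have h1 : Integrable (kD r) := by
    refine hi.mono' (A8_kD_meas r).aestronglyMeasurable ?_
    filter_upwards with u
    rw [Real.norm_eq_abs]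
    exact A8_kD_norm hr u
  refine ⟨h1, ?_⟩
  calc ∫ u : ℂ, |kD r u| ≤ ∫ u : ℂ, {u : ℂ | 1 ≤ normSq u ∧ normSq u ≤ 1 + r ^ 2}.indicator
        (fun _ => (r ^ 2)⁻¹) u := integral_mono h1.abs hi (fun u => A8_kD_norm hr u)
    _ = volume.real {u : ℂ | 1 ≤ normSq u ∧ normSq u ≤ 1 + r ^ 2} * (r ^ 2)⁻¹ := by
        rw [integral_indicator ha.1, setIntegral_const, smul_eq_mul]
    _ ≤ (Real.pi * r ^ 2) * (r ^ 2)⁻¹ := by
        refine mul_le_mul_of_nonneg_right ?_ (by positivity)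
        unfold Measure.real
        exact ENNReal.toReal_le_of_le_ofReal (by positivity) ha.2
    _ = Real.pi := by field_simp
    _ ≤ 4 := Real.pi_le_four


/-! ### Fubini and dual functions -/

/-- a measurable function bounded by `1` and supported in `‖x‖ ≤ R` in the second variable -/
structure A8_Ker (R : ℝ) (Φ : ℂ × ℂ → ℂ) : Prop where
  meas : Measurable Φ
  le : ∀ z, ‖Φ z‖ ≤ 1
  supp : ∀ z : ℂ × ℂ, R < ‖z.2‖ → Φ z = 0

theorem A8_ind_int (R : ℝ) : Integrable ((Metric.closedBall (0 : ℂ) R).indicator (fun _ => (1 : ℝ))) := by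
  rw [integrable_indicator_iff measurableSet_closedBall]
  exact integrableOn_const measure_closedBall_lt_top.ne

theorem A8_Ker_norm {R : ℝ} {Φ : ℂ × ℂ → ℂ} (h : A8_Ker R Φ) (z : ℂ × ℂ) :
    ‖Φ z‖ ≤ (Metric.closedBall (0 : ℂ) R).indicator (fun _ => (1 : ℝ)) z.2 := by
  by_cases hz : z.2 ∈ Metric.closedBall (0 : ℂ) R
  · rw [indicator_of_mem hz]; exact h.le z
  · rw [indicator_of_notMem hz, h.supp z (by simpa using hz), norm_zero]

theorem A8_int2 {R : ℝ} {Φ : ℂ × ℂ → ℂ} (h : A8_Ker R Φ) {k : ℂ → ℝ} (hk : Integrable k) :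
    Integrable (fun z : ℂ × ℂ => (k z.1 : ℂ) * Φ z) (volume.prod volume) := by
  have h1 : Integrable (fun z : ℂ × ℂ => |k z.1| *
      (Metric.closedBall (0 : ℂ) R).indicator (fun _ => (1 : ℝ)) z.2) (volume.prod volume) :=
    hk.abs.mul_prod (A8_ind_int R)
  have h2 : AEStronglyMeasurable (fun z : ℂ × ℂ => k z.1) (volume.prod volume) :=
    hk.aestronglyMeasurable.comp_fst
  refine h1.mono' ?_ ?_
  · exact (Complex.continuous_ofReal.comp_aestronglyMeasurable h2).mul h.meas.aestronglyMeasurable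
  · filter_upwards with z
    rw [norm_mul, Complex.norm_real, Real.norm_eq_abs]
    exact mul_le_mul_of_nonneg_left (A8_Ker_norm h z) (abs_nonneg _)

theorem A8_swap {R : ℝ} {Φ : ℂ × ℂ → ℂ} (h : A8_Ker R Φ) {k : ℂ → ℝ} (hk : Integrable k) :
    ∫ u : ℂ, (k u : ℂ) * ∫ x : ℂ, Φ (u, x) = ∫ x : ℂ, ∫ u : ℂ, (k u : ℂ) * Φ (u, x) := by
  have h1 := integral_integral_swap (f := fun u x => (k u : ℂ) * Φ (u, x)) (A8_int2 h hk)
  rw [← h1]
  congr 1
  funext u
  rw [integral_const_mul]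

/-- the dual function -/
noncomputable def A8_dual (k : ℂ → ℝ) (Ψ : ℂ × ℂ → ℂ) (x : ℂ) : ℂ := ∫ u : ℂ, (k u : ℂ) * Ψ (u, x)

/-- hypotheses on `Ψ(u,x)` for the dual function: it vanishes for `|x| > R` if `k u ≠ 0` -/
structure A8_DK (k : ℂ → ℝ) (R : ℝ) (Ψ : ℂ × ℂ → ℂ) : Prop where
  meas : Measurable Ψ
  le : ∀ z, ‖Ψ z‖ ≤ 1
  supp : ∀ u x : ℂ, R < ‖x‖ → k u ≠ 0 → Ψ (u, x) = 0

theorem A8_dual_le {k : ℂ → ℝ} {R : ℝ} {Ψ : ℂ × ℂ → ℂ} (h : A8_DK k R Ψ) (hk : Integrable k)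
    (hk4 : ∫ u : ℂ, |k u| ≤ 4) (x : ℂ) : ‖A8_dual k Ψ x‖ ≤ 4 := by
  refine le_trans ?_ hk4
  refine norm_integral_le_of_norm_le hk.abs ?_
  filter_upwards with u
  rw [norm_mul, Complex.norm_real, Real.norm_eq_abs]
  exact mul_le_of_le_one_right (abs_nonneg _) (h.le _)

theorem A8_dual_meas {k : ℂ → ℝ} {R : ℝ} {Ψ : ℂ × ℂ → ℂ} (h : A8_DK k R Ψ) (hk : Measurable k) :
    Measurable (A8_dual k Ψ) := by
  have h1 : StronglyMeasurable (fun z : ℂ × ℂ => (k z.2 : ℂ) * Ψ (z.2, z.1)) :=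
    ((Complex.measurable_ofReal.comp (hk.comp measurable_snd)).mul
      (h.meas.comp (measurable_snd.prodMk measurable_fst))).stronglyMeasurable
  have h2 := h1.integral_prod_right' (ν := (volume : Measure ℂ))
  exact h2.measurable

theorem A8_dual_supp {k : ℂ → ℝ} {R : ℝ} {Ψ : ℂ × ℂ → ℂ} (h : A8_DK k R Ψ) {x : ℂ} (hx : R < ‖x‖) :
    A8_dual k Ψ x = 0 := by
  unfold A8_dual
  rw [integral_eq_zero_of_ae]
  filter_upwards with u
  by_cases hu : k u = 0
  · simp [hu]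
  · simp [h.supp u x hx hu]

/-- the pairing -/
theorem A8_pair {k : ℂ → ℝ} {R Rf : ℝ} {Ψ : ℂ × ℂ → ℂ} (h : A8_DK k R Ψ) (hk : Integrable k)
    {f : ℂ → ℂ} (hf : BF Rf f) :
    ∫ u : ℂ, (k u : ℂ) * ∫ x : ℂ, f x * Ψ (u, x) = ∫ x : ℂ, f x * A8_dual k Ψ x := by
  have hK : A8_Ker Rf (fun z : ℂ × ℂ => f z.2 * Ψ z) := by
    refine ⟨(hf.meas.comp measurable_snd).mul h.meas, ?_, ?_⟩
    · intro z
      rw [norm_mul]
      exact mul_le_one₀ (hf.le _) (norm_nonneg _) (h.le _)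
    · intro z hz
      simp only [hf.supp _ hz, zero_mul]
  have := A8_swap hK hk
  simp only at this
  rw [this]
  congr 1
  funext x
  unfold A8_dual
  rw [← integral_const_mul]
  congr 1
  funext u
  ring

/-- the normalised conjugate dual function -/
theorem A8_g {k : ℂ → ℝ} {R : ℝ} {Ψ : ℂ × ℂ → ℂ} (h : A8_DK k R Ψ) (hkm : Measurable k) (hk : Integrable k)
    (hk4 : ∫ u : ℂ, |k u| ≤ 4) : BF R (fun x => (1 / 4 : ℝ) * conj (A8_dual k Ψ x)) where
  meas := ((Complex.continuous_conj.measurable).comp (A8_dual_meas h hkm)).const_mul _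
  le := fun x => by
    rw [norm_mul, norm_conj, Complex.norm_real, Real.norm_eq_abs, abs_of_pos (by norm_num)]
    linarith [A8_dual_le h hk hk4 x]
  supp := fun x hx => by rw [A8_dual_supp h hx, map_zero, mul_zero]

theorem A8_BF_int {R : ℝ} {f : ℂ → ℂ} (h : BF R f) : Integrable f := by
  refine (A8_ind_int R).mono' h.meas.aestronglyMeasurable ?_
  filter_upwards with x
  by_cases hz : x ∈ Metric.closedBall (0 : ℂ) R
  · rw [indicator_of_mem hz]; exact h.le x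
  · rw [indicator_of_notMem hz, h.supp x (by simpa using hz), norm_zero]

theorem A8_BF_int2 {R R' : ℝ} {f g : ℂ → ℂ} (h : BF R f) (h' : BF R' g) :
    Integrable (fun x => f x * g x) := by
  refine (A8_ind_int R).mono' (h.meas.mul h'.meas).aestronglyMeasurable ?_
  filter_upwards with x
  by_cases hz : x ∈ Metric.closedBall (0 : ℂ) R
  · rw [indicator_of_mem hz, norm_mul]; exact mul_le_one₀ (h.le x) (norm_nonneg _) (h'.le x)
  · rw [indicator_of_notMem hz, h.supp x (by simpa using hz), zero_mul, norm_zero]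

/-- duality: if the form at `f` is at least `ε` then the form at `g = conj D / 4` is at least `c ε²` -/
theorem A8_dual_big {k : ℂ → ℝ} {R : ℝ} {Ψ : ℂ × ℂ → ℂ} (h : A8_DK k R Ψ) (hkm : Measurable k)
    (hk : Integrable k) (hk4 : ∫ u : ℂ, |k u| ≤ 4)
    {f : ℂ → ℂ} (hf : BF R f) {ε V : ℝ} (hε : 0 < ε) (hV0 : 0 < V)
    (hV : volume.real (Metric.closedBall (0 : ℂ) R) ≤ V)
    (hb : ε ≤ ‖∫ x : ℂ, f x * A8_dual k Ψ x‖) :
    ∃ v : ℝ, ε ^ 2 / (4 * V) ≤ v ∧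
      ∫ x : ℂ, ((1 / 4 : ℝ) * conj (A8_dual k Ψ x)) * A8_dual k Ψ x = v := by
  set D := A8_dual k Ψ with hD
  have hg := A8_g h hkm hk hk4
  have hq : ∀ x, ((1 / 4 : ℝ) * conj (D x)) * D x = (((1 / 4) * ‖D x‖ ^ 2 : ℝ) : ℂ) := by
    intro x
    rw [mul_assoc, mul_comm (conj (D x)), Complex.mul_conj, normSq_eq_norm_sq]
    push_cast; ring
  have hint : Integrable (fun x => (1 / 4) * ‖D x‖ ^ 2) := by
    have h1 := (A8_BF_int2 hg hg).norm
    refine (h1.const_mul 4).congr ?_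
    filter_upwards with x
    rw [norm_mul, norm_mul, norm_conj, Complex.norm_real, Real.norm_eq_abs, abs_of_pos (by norm_num)]
    ring
  refine ⟨∫ x : ℂ, (1 / 4) * ‖D x‖ ^ 2, ?_, ?_⟩
  · -- `|f D| ≤ (δ + |D|²/(4δ))·1_B`
    set δ := ε / (2 * V) with hδ
    have hδ0 : 0 < δ := by positivity
    have h1 : ∀ x, ‖f x * D x‖ ≤ (Metric.closedBall (0 : ℂ) R).indicator (fun _ => (1 : ℝ)) x * δ
        + (1 / δ) * ((1 / 4) * ‖D x‖ ^ 2) := by
      intro x
      by_cases hz : x ∈ Metric.closedBall (0 : ℂ) R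
      · rw [indicator_of_mem hz, norm_mul, one_mul]
        have h2 : ‖f x‖ * ‖D x‖ ≤ ‖D x‖ := mul_le_of_le_one_left (norm_nonneg _) (hf.le x)
        refine h2.trans ?_
        have h3 : (1 / δ) * ((1 / 4) * ‖D x‖ ^ 2) = ‖D x‖ ^ 2 / (4 * δ) := by field_simp
        rw [h3, ← sub_le_iff_le_add', le_div_iff₀ (by positivity)]
        nlinarith [sq_nonneg (‖D x‖ - 2 * δ)]
      · rw [hf.supp x (by simpa using hz), zero_mul, norm_zero]
        exact add_nonneg (mul_nonneg (indicator_nonneg (fun _ _ => by norm_num) _) hδ0.le) (by positivity)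
    have h2 : ‖∫ x : ℂ, f x * D x‖ ≤ ∫ x : ℂ, ((Metric.closedBall (0 : ℂ) R).indicator (fun _ => (1 : ℝ)) x * δ
        + (1 / δ) * ((1 / 4) * ‖D x‖ ^ 2)) := by
      refine norm_integral_le_of_norm_le (((A8_ind_int R).mul_const δ).add (hint.const_mul _)) ?_
      filter_upwards with x using h1 x
    rw [integral_add ((A8_ind_int R).mul_const δ) (hint.const_mul _), integral_mul_const,
      integral_const_mul, integral_indicator measurableSet_closedBall, setIntegral_const,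
      smul_eq_mul, mul_one] at h2
    set J := ∫ x : ℂ, (1 / 4) * ‖D x‖ ^ 2 with hJ
    have h3 : volume.real (Metric.closedBall (0 : ℂ) R) * δ ≤ V * δ :=
      mul_le_mul_of_nonneg_right hV hδ0.le
    have h4 : V * δ = ε / 2 := by rw [hδ]; field_simp
    have h5 : ε / 2 ≤ 1 / δ * J := by linarith
    have h6 : δ * (ε / 2) ≤ J := by
      calc δ * (ε / 2) ≤ δ * (1 / δ * J) := mul_le_mul_of_nonneg_left h5 hδ0.le
        _ = J := by field_simp
    calc ε ^ 2 / (4 * V) = δ * (ε / 2) := by rw [hδ]; field_simp; ring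
      _ ≤ J := h6
  · rw [← integral_complex_ofReal]
    exact integral_congr_ae (by filter_upwards with x using hq x)


/-! ### slots 0 and 1 -/

theorem A8_slot0 (ω : ℂ) (h0 : ω.im ≠ 0) (h1 : ω.re ≠ 0) (R : ℝ) : ∃ n : ℕ, 1 ≤ n ∧
    ∀ ε : ℝ, 0 < ε → ε ≤ 1 / 2 → ∀ r : ℝ, 0 < r → r ≤ 1 → ∀ f0 f1 f2 : ℂ → ℂ,
    BF R f0 → BF R f1 → BF R f2 → ε ≤ ‖TK ω (kD r) f0 f1 f2‖ →
    ∃ φ : ℂ → ℂ, SF r (R + 4) φ ∧ ε ^ n ≤ ‖TK ω (kD r) φ f1 f2‖ := by
  obtain ⟨n1, hn1, H⟩ := prop41 ω h0 h1 (R + 2)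
  set V : ℝ := max 1 (volume.real (Metric.closedBall (0 : ℂ) (R + 2))) with hVdef
  have hV0 : 0 < V := lt_of_lt_of_le one_pos (le_max_left _ _)
  obtain ⟨N, hN⟩ := A8_pow (1 / (4 * V)) (by positivity)
  refine ⟨(N + 2) * n1, by nlinarith, ?_⟩
  intro ε hε hε2 r hr hr1 f0 f1 f2 b0 b1 b2 hb
  have hkm := A8_kD_meas r
  obtain ⟨hk, hk4⟩ := A8_kD_int hr
  set Ψ : ℂ × ℂ → ℂ := fun z => f1 (z.2 + z.1) * f2 (z.2 + ω * z.1) with hΨ
  have hDK : A8_DK (kD r) (R + 2) Ψ := by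
    refine ⟨?_, ?_, ?_⟩
    · exact (b1.meas.comp (measurable_snd.add measurable_fst)).mul
        (b2.meas.comp (measurable_snd.add (measurable_fst.const_mul ω)))
    · intro z
      rw [hΨ, norm_mul]
      exact mul_le_one₀ (b1.le _) (norm_nonneg _) (b2.le _)
    · intro u x hx hu
      have h2 := A8_kD_supp' hr hr1 hu
      have h3 : R < ‖x + u‖ := by
        have h4 : ‖x‖ ≤ ‖x + u‖ + ‖u‖ := by
          have := norm_sub_le (x + u) u
          rwa [add_sub_cancel_right] at this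
        linarith
      simp only [hΨ, b1.supp _ h3, zero_mul]
  have hTK : ∀ {Rf : ℝ} {f : ℂ → ℂ}, BF Rf f → TK ω (kD r) f f1 f2 = ∫ x : ℂ, f x * A8_dual (kD r) Ψ x := by
    intro Rf f hf
    rw [← A8_pair hDK hk hf]
    unfold TK
    simp only [hΨ, mul_assoc]
  have b0' : BF (R + 2) f0 := A8_BF_mono b0 (by linarith)
  rw [hTK b0'] at hb
  obtain ⟨v, hv, hvv⟩ := A8_dual_big hDK hkm hk hk4 b0' hε hV0 (le_max_right _ _) hb
  have hg := A8_g hDK hkm hk hk4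
  have hpow : ε ^ (N + 2) ≤ v := by
    calc ε ^ (N + 2) = ε ^ N * ε ^ 2 := pow_add _ _ _
      _ ≤ 1 / (4 * V) * ε ^ 2 := mul_le_mul_of_nonneg_right (hN ε hε hε2) (by positivity)
      _ = ε ^ 2 / (4 * V) := by ring
      _ ≤ v := hv
  have hv0 : 0 < v := lt_of_lt_of_le (by positivity) hpow
  have hε' : ε ^ (N + 2) ≤ 1 / 2 := by
    calc ε ^ (N + 2) ≤ ε ^ 1 := pow_le_pow_of_le_one hε.le (by linarith) (by omega)
      _ ≤ 1 / 2 := by rw [pow_one]; exact hε2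
  have hbig : ε ^ (N + 2) ≤ ‖TK ω (kD r) (fun x => (1 / 4 : ℝ) * conj (A8_dual (kD r) Ψ x)) f1 f2‖ := by
    rw [hTK hg, hvv, Complex.norm_real, Real.norm_eq_abs, abs_of_pos hv0]
    exact hpow
  obtain ⟨φ, hφ, hφb⟩ := H (ε ^ (N + 2)) (by positivity) hε' r hr hr1 _ f1 f2 hg b1.meas b2.meas b1.le b2.le hbig
  refine ⟨fun x => conj (φ x), A8_SF_mono (A8_SF_conj hφ) (by linarith), ?_⟩
  rw [hTK (A8_SF_BF (A8_SF_conj hφ)), pow_mul]
  refine hφb.trans ?_
  have e : ∫ x : ℂ, (1 / 4 : ℝ) * conj (A8_dual (kD r) Ψ x) * φ x =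
      (1 / 4 : ℝ) * conj (∫ x : ℂ, conj (φ x) * A8_dual (kD r) Ψ x) := by
    rw [← integral_conj, ← integral_const_mul]
    congr 1
    funext x
    rw [map_mul, Complex.conj_conj]
    ring
  rw [e, norm_mul, norm_conj, Complex.norm_real, Real.norm_eq_abs, abs_of_pos (by norm_num)]
  linarith [norm_nonneg (∫ x : ℂ, conj (φ x) * A8_dual (kD r) Ψ x)]

theorem A8_TKswap (ω : ℂ) (k : ℂ → ℝ) (hk : ∀ u, k (-u) = k u) (f0 f1 f2 : ℂ → ℂ) :
    TK ω k f0 f1 f2 = TK (1 - ω) k f1 f0 f2 := by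
  unfold TK
  rw [← integral_neg_eq_self (fun u : ℂ => (k u : ℂ) * ∫ x : ℂ, f1 x * f0 (x + u) * f2 (x + (1 - ω) * u))]
  congr 1
  funext u
  rw [hk]
  congr 1
  rw [← integral_add_right_eq_self (μ := (volume : Measure ℂ))
    (fun x => f1 x * f0 (x + -u) * f2 (x + (1 - ω) * -u)) u]
  congr 1
  funext x
  have e1 : x + u + -u = x := by ring
  have e2 : x + u + (1 - ω) * -u = x + ω * u := by ring
  rw [e1, e2]
  ring

/-! ### refinement of the grid -/

theorem A8_refine {r R : ℝ} {φ : ℂ → ℂ} (h : SF r R φ) (m : ℕ) (hm : 1 ≤ m) :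
    SF (r / m) R φ where
  ex := by
    obtain ⟨a, c, hc, he⟩ := h.ex
    refine ⟨fun n => a (n.1 / m, n.2 / m), fun n => c (n.1 / m, n.2 / m), fun n => hc _, ?_⟩
    intro x
    have hm' : (m : ℝ) ≠ 0 := by positivity
    have key : ∀ y : ℝ, ⌊y / (r / m)⌋ / (m : ℤ) = ⌊y / r⌋ := by
      intro y
      rw [← Int.floor_div_natCast]
      congr 1
      field_simp
    have e : ((cell (r / m) x).1 / (m : ℤ), (cell (r / m) x).2 / (m : ℤ)) = cell r x := by
      simp only [cell, key]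
    simp only [e]
    exact he x
  supp := h.supp

/-! ### bad cells -/

/-- points near the grid `r ℤ - c` -/
def A8_near (r ρ c : ℝ) : Set ℝ := {x | ∃ k : ℤ, |x + c - r * k| ≤ ρ}

theorem A8_near_meas (r ρ c : ℝ) : MeasurableSet (A8_near r ρ c) := by
  have : A8_near r ρ c = ⋃ k : ℤ, {x | |x + c - r * k| ≤ ρ} := by
    ext x; simp [A8_near]
  rw [this]
  refine MeasurableSet.iUnion fun k => ?_
  exact measurableSet_le (by fun_prop) measurable_const

theorem A8_near_vol {r ρ c L : ℝ} (hr : 0 < r) (hr1 : r ≤ 1) (hρ : 0 < ρ) (hρr : ρ ≤ r) (hL : 0 ≤ L) :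
    volume (A8_near r ρ c ∩ Icc (-L) L) ≤ ENNReal.ofReal ((2 * L + 3) * (2 * (ρ / r))) := by
  classical
  set K : Finset ℤ := Finset.Icc ⌈(c - L - ρ) / r⌉ ⌊(c + L + ρ) / r⌋ with hK
  have hsub : A8_near r ρ c ∩ Icc (-L) L ⊆ ⋃ k ∈ K, Icc (r * k - c - ρ) (r * k - c + ρ) := by
    rintro x ⟨⟨k, hk⟩, hx1, hx2⟩
    rw [abs_le] at hk
    simp only [mem_iUnion]
    refine ⟨k, ?_, ?_, ?_⟩
    · rw [hK, Finset.mem_Icc]
      constructor
      · rw [Int.ceil_le, div_le_iff₀ hr]; linarith [hk.1, hk.2]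
      · rw [Int.le_floor, le_div_iff₀ hr]; linarith [hk.1, hk.2]
    · linarith [hk.1, hk.2]
    · linarith [hk.1, hk.2]
  have hcard : (K.card : ℝ) ≤ (2 * L + 2 * ρ) / r + 1 := by
    rw [hK, Int.card_Icc]
    have h1 : ((⌊(c + L + ρ) / r⌋ + 1 - ⌈(c - L - ρ) / r⌉ : ℤ) : ℝ) ≤ (2 * L + 2 * ρ) / r + 1 := by
      push_cast
      have h2 := Int.floor_le ((c + L + ρ) / r)
      have h3 := Int.le_ceil ((c - L - ρ) / r)
      have h4 : (2 * L + 2 * ρ) / r = (c + L + ρ) / r - (c - L - ρ) / r := by ring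
      rw [h4]; linarith
    have h5 : (0 : ℝ) ≤ (2 * L + 2 * ρ) / r + 1 := by positivity
    have h6 : (((⌊(c + L + ρ) / r⌋ + 1 - ⌈(c - L - ρ) / r⌉).toNat : ℤ) : ℝ) ≤ (2 * L + 2 * ρ) / r + 1 := by
      rw [Int.toNat_eq_max]
      push_cast
      rw [max_le_iff]
      push_cast at h1
      exact ⟨h1, h5⟩
    exact_mod_cast h6
  calc volume (A8_near r ρ c ∩ Icc (-L) L) ≤ volume (⋃ k ∈ K, Icc (r * k - c - ρ) (r * k - c + ρ)) :=
        measure_mono hsub
    _ ≤ ∑ k ∈ K, volume (Icc (r * k - c - ρ) (r * (k : ℝ) - c + ρ)) := measure_biUnion_finset_le _ _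
    _ = ∑ k ∈ K, ENNReal.ofReal (2 * ρ) := by
        refine Finset.sum_congr rfl fun k _ => ?_
        rw [Real.volume_Icc]; congr 1; ring
    _ = ENNReal.ofReal (K.card * (2 * ρ)) := by
        rw [Finset.sum_const, nsmul_eq_mul,
          ENNReal.ofReal_mul (p := (K.card : ℝ)) (q := 2 * ρ) (Nat.cast_nonneg _), ENNReal.ofReal_natCast]
    _ ≤ ENNReal.ofReal ((2 * L + 3) * (2 * (ρ / r))) := by
        apply ENNReal.ofReal_le_ofReal
        have h7 : (2 * L + 2 * ρ) / r + 1 ≤ (2 * L + 3) / r := by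
          rw [← sub_nonneg]
          have : (2 * L + 3) / r - ((2 * L + 2 * ρ) / r + 1) = (3 - 2 * ρ - r) / r := by
            field_simp; ring
          rw [this]
          exact div_nonneg (by linarith) hr.le
        calc (K.card : ℝ) * (2 * ρ) ≤ ((2 * L + 3) / r) * (2 * ρ) :=
              mul_le_mul_of_nonneg_right (hcard.trans h7) (by positivity)
          _ = (2 * L + 3) * (2 * (ρ / r)) := by ring

theorem A8_prodvol {A B : Set ℝ} (hA : MeasurableSet A) (hB : MeasurableSet B) :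
    volume {y : ℂ | y.re ∈ A ∧ y.im ∈ B} = volume A * volume B := by
  have h := Complex.volume_preserving_equiv_real_prod.measure_preimage (hA.prod hB).nullMeasurableSet
  rw [Measure.volume_eq_prod, Measure.prod_prod] at h
  exact h

/-- floors agree away from the grid -/
theorem A8_floor {r ρ c x x' : ℝ} (hr : 0 < r) (hx : x ∉ A8_near r ρ c) (hxx : |x - x'| ≤ ρ) :
    ⌊(x' + c) / r⌋ = ⌊(x + c) / r⌋ := by
  have hno : ∀ k : ℤ, ρ < |x + c - r * k| := by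
    intro k
    by_contra h
    exact hx ⟨k, not_lt.1 h⟩
  rw [abs_le] at hxx
  rw [Int.floor_eq_iff]
  constructor
  · by_contra h
    rw [not_le, div_lt_iff₀ hr] at h
    have h1 := Int.floor_le ((x + c) / r)
    rw [le_div_iff₀ hr] at h1
    have h2 := hno ⌊(x + c) / r⌋
    rw [abs_of_nonneg (by linarith)] at h2
    linarith [hxx.1, hxx.2]
  · by_contra h
    rw [not_lt, le_div_iff₀ hr] at h
    have h1 := Int.lt_floor_add_one ((x + c) / r)
    rw [div_lt_iff₀ hr] at h1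
    have h2 := hno (⌊(x + c) / r⌋ + 1)
    push_cast at h2
    rw [abs_of_nonpos (by linarith)] at h2
    linarith [hxx.1, hxx.2]

theorem A8_cell_dist {ρ : ℝ} (hρ : 0 < ρ) {y y' : ℂ} (h : cell ρ y = cell ρ y') :
    |y.re - y'.re| ≤ ρ ∧ |y.im - y'.im| ≤ ρ := by
  simp only [cell, Prod.mk.injEq] at h
  have key : ∀ a b : ℝ, ⌊a / ρ⌋ = ⌊b / ρ⌋ → |a - b| ≤ ρ := by
    intro a b hab
    have h1 := Int.abs_sub_lt_one_of_floor_eq_floor hab
    rw [← sub_div, abs_div, abs_of_pos hρ, div_lt_one hρ] at h1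
    exact h1.le
  exact ⟨key _ _ h.1, key _ _ h.2⟩

theorem A8_cell_corner {ρ : ℝ} (hρ : 0 < ρ) (n : ℤ × ℤ) : cell ρ ⟨ρ * n.1, ρ * n.2⟩ = n := by
  have h1 : ∀ k : ℤ, ⌊ρ * (k : ℝ) / ρ⌋ = k := by
    intro k
    rw [mul_div_cancel_left₀ _ hρ.ne']; exact Int.floor_intCast _
  simp only [cell, h1]


/-- truncation of a product of two shifted single-frequency functions to a finer grid -/
theorem A8_trunc (R1 : ℝ) : ∃ C : ℝ, 0 < C ∧ ∀ r : ℝ, 0 < r → r ≤ 1 → ∀ m : ℕ, 1 ≤ m →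
    ∀ (φ φ' : ℂ → ℂ) (R R' : ℝ), SF r R φ → SF r R' φ' → ∀ s t : ℂ,
    (∀ y, R1 < ‖y‖ → φ (y + s) * φ' (y + t) = 0) →
    ∃ ψ : ℂ → ℂ, SF (r / m) R1 ψ ∧ ∀ g : ℂ → ℂ, BF R1 g →
      ‖(∫ y : ℂ, g y * (φ (y + s) * φ' (y + t))) - ∫ y : ℂ, g y * ψ y‖ ≤ C / m := by
  classical
  set L : ℝ := max R1 0 with hL
  have hL0 : 0 ≤ L := le_max_right _ _
  refine ⟨4 * ((2 * L + 3) * 2 * (2 * L)) + 1, by positivity, ?_⟩
  intro r hr hr1 m hm φ φ' R R' hφ hφ' s t hsupp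
  have hm0 : (0 : ℝ) < m := by exact_mod_cast hm
  have hm1 : (1 : ℝ) ≤ m := by exact_mod_cast hm
  set ρ : ℝ := r / m with hρdef
  have hρ : 0 < ρ := by positivity
  have hρr : ρ ≤ r := div_le_self hr.le hm1
  obtain ⟨a, c, hc, he⟩ := hφ.ex
  obtain ⟨a', c', hc', he'⟩ := hφ'.ex
  set p : ℤ × ℤ → ℂ := fun n => ⟨ρ * n.1, ρ * n.2⟩ with hp
  set Good : ℤ × ℤ → Prop := fun n => ∀ y, cell ρ y = n →
    cell r (y + s) = cell r (p n + s) ∧ cell r (y + t) = cell r (p n + t) with hGood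
  set a'' : ℤ × ℤ → ℂ := fun n => a (cell r (p n + s)) + a' (cell r (p n + t)) with ha''
  set c'' : ℤ × ℤ → ℂ := fun n => if Good n then
      (c (cell r (p n + s)) * Complex.exp ((ip (a (cell r (p n + s))) s : ℂ) * I)) *
      (c' (cell r (p n + t)) * Complex.exp ((ip (a' (cell r (p n + t))) t : ℂ) * I)) else 0 with hc''
  set ψ : ℂ → ℂ := fun y => c'' (cell ρ y) * Complex.exp ((ip (a'' (cell ρ y)) y : ℂ) * I) with hψ
  have hgood : ∀ y, Good (cell ρ y) → ψ y = φ (y + s) * φ' (y + t) := by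
    intro y hy
    have h1 := hy y rfl
    rw [he, he', h1.1, h1.2]
    simp only [hψ, hc'', if_pos hy, ha'']
    rw [ip_add_left, ip_add_right, ip_add_right]
    push_cast
    rw [add_mul, add_mul, add_mul, Complex.exp_add, Complex.exp_add, Complex.exp_add]
    ring
  have hbad : ∀ y, ¬ Good (cell ρ y) → ψ y = 0 := by
    intro y hy
    simp only [hψ, hc'', if_neg hy, zero_mul]
  have hψsupp : ∀ y, R1 < ‖y‖ → ψ y = 0 := by
    intro y hy
    by_cases h : Good (cell ρ y)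
    · rw [hgood y h, hsupp y hy]
    · exact hbad y h
  have hψSF : SF ρ R1 ψ := by
    refine ⟨⟨a'', c'', ?_, fun x => rfl⟩, hψsupp⟩
    intro n
    simp only [hc'']
    split_ifs with h
    · rw [norm_mul, norm_mul, norm_mul, Complex.norm_exp_ofReal_mul_I, Complex.norm_exp_ofReal_mul_I,
        mul_one, mul_one]
      exact mul_le_one₀ (hc _) (norm_nonneg _) (hc' _)
    · simp
  refine ⟨ψ, hψSF, ?_⟩
  intro g hg
  have bφ := A8_SF_BF hφ
  have bφ' := A8_SF_BF hφ'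
  have bψ := A8_SF_BF hψSF
  have bP : BF R1 (fun y => φ (y + s) * φ' (y + t)) := by
    refine ⟨?_, ?_, hsupp⟩
    · exact (bφ.meas.comp (measurable_id.add_const s)).mul (bφ'.meas.comp (measurable_id.add_const t))
    · intro y
      rw [norm_mul]
      exact mul_le_one₀ (bφ.le _) (norm_nonneg _) (bφ'.le _)
  rw [← integral_sub (A8_BF_int2 hg bP) (A8_BF_int2 hg bψ)]
  -- the bad set
  set X1 : Set ℂ := {y | y.re ∈ A8_near r ρ s.re ∩ Icc (-L) L ∧ y.im ∈ Icc (-L) L} with hX1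
  set X2 : Set ℂ := {y | y.re ∈ Icc (-L) L ∧ y.im ∈ A8_near r ρ s.im ∩ Icc (-L) L} with hX2
  set X3 : Set ℂ := {y | y.re ∈ A8_near r ρ t.re ∩ Icc (-L) L ∧ y.im ∈ Icc (-L) L} with hX3
  set X4 : Set ℂ := {y | y.re ∈ Icc (-L) L ∧ y.im ∈ A8_near r ρ t.im ∩ Icc (-L) L} with hX4
  have hmI : MeasurableSet (Icc (-L) L) := measurableSet_Icc
  have hmN : ∀ x, MeasurableSet (A8_near r ρ x ∩ Icc (-L) L) := fun x => (A8_near_meas r ρ x).inter hmI
  have hmes : MeasurableSet (X1 ∪ X2 ∪ X3 ∪ X4) := by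
    refine (((MeasurableSet.union ?_ ?_).union ?_).union ?_)
    · exact (measurable_re (hmN _)).inter (measurable_im hmI)
    · exact (measurable_re hmI).inter (measurable_im (hmN _))
    · exact (measurable_re (hmN _)).inter (measurable_im hmI)
    · exact (measurable_re hmI).inter (measurable_im (hmN _))
  have hI : volume (Icc (-L) L) = ENNReal.ofReal (2 * L) := by
    rw [Real.volume_Icc]; congr 1; ring
  have hρr' : ρ / r = 1 / m := by rw [hρdef]; field_simp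
  set q : ℝ := (2 * L + 3) * (2 * (1 / m)) * (2 * L) with hq
  have hq0 : 0 ≤ q := by positivity
  have hN : ∀ x, volume (A8_near r ρ x ∩ Icc (-L) L) * volume (Icc (-L) L) ≤ ENNReal.ofReal q := by
    intro x
    have h1 := A8_near_vol (c := x) hr hr1 hρ hρr hL0
    rw [hρr'] at h1
    rw [hI, hq, ENNReal.ofReal_mul (p := (2 * L + 3) * (2 * (1 / (m : ℝ)))) (by positivity)]
    gcongr
  have hv1 : volume X1 ≤ ENNReal.ofReal q := by
    rw [hX1, A8_prodvol (hmN _) hmI]; exact hN _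
  have hv3 : volume X3 ≤ ENNReal.ofReal q := by
    rw [hX3, A8_prodvol (hmN _) hmI]; exact hN _
  have hv2 : volume X2 ≤ ENNReal.ofReal q := by
    rw [hX2, A8_prodvol hmI (hmN _), mul_comm]; exact hN _
  have hv4 : volume X4 ≤ ENNReal.ofReal q := by
    rw [hX4, A8_prodvol hmI (hmN _), mul_comm]; exact hN _
  have hv : volume (X1 ∪ X2 ∪ X3 ∪ X4) ≤ ENNReal.ofReal (4 * q) := by
    calc volume (X1 ∪ X2 ∪ X3 ∪ X4) ≤ volume X1 + volume X2 + volume X3 + volume X4 := by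
          refine (measure_union_le _ _).trans ?_
          gcongr
          refine (measure_union_le _ _).trans ?_
          gcongr
          exact measure_union_le _ _
      _ ≤ ENNReal.ofReal q + ENNReal.ofReal q + ENNReal.ofReal q + ENNReal.ofReal q := by
          gcongr
      _ = ENNReal.ofReal (4 * q) := by
          rw [← ENNReal.ofReal_add hq0 hq0, ← ENNReal.ofReal_add (by positivity) hq0,
            ← ENNReal.ofReal_add (by positivity) hq0]
          congr 1; ring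
  have hpt : ∀ y, ‖g y * (φ (y + s) * φ' (y + t)) - g y * ψ y‖ ≤
      (X1 ∪ X2 ∪ X3 ∪ X4).indicator (fun _ => (1 : ℝ)) y := by
    intro y
    by_cases hy : R1 < ‖y‖
    · rw [hsupp y hy, hψsupp y hy, sub_self, norm_zero]
      exact indicator_nonneg (fun _ _ => by norm_num) _
    · by_cases h : Good (cell ρ y)
      · rw [hgood y h, sub_self, norm_zero]
        exact indicator_nonneg (fun _ _ => by norm_num) _
      · have hyL : ‖y‖ ≤ L := (not_lt.1 hy).trans (le_max_left _ _)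
        have hre : y.re ∈ Icc (-L) L := abs_le.1 ((abs_re_le_norm y).trans hyL)
        have him : y.im ∈ Icc (-L) L := abs_le.1 ((abs_im_le_norm y).trans hyL)
        have hmem : y ∈ X1 ∪ X2 ∪ X3 ∪ X4 := by
          by_contra hno
          apply h
          simp only [mem_union, not_or] at hno
          obtain ⟨⟨⟨n1, n2⟩, n3⟩, n4⟩ := hno
          have m1 : y.re ∉ A8_near r ρ s.re := fun hh => n1 ⟨⟨hh, hre⟩, him⟩
          have m2 : y.im ∉ A8_near r ρ s.im := fun hh => n2 ⟨hre, hh, him⟩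
          have m3 : y.re ∉ A8_near r ρ t.re := fun hh => n3 ⟨⟨hh, hre⟩, him⟩
          have m4 : y.im ∉ A8_near r ρ t.im := fun hh => n4 ⟨hre, hh, him⟩
          have key : ∀ y', cell ρ y' = cell ρ y → cell r (y' + s) = cell r (y + s) ∧
              cell r (y' + t) = cell r (y + t) := by
            intro y' hy'
            obtain ⟨d1, d2⟩ := A8_cell_dist hρ hy'.symm
            simp only [cell, add_re, add_im, Prod.mk.injEq]
            exact ⟨⟨A8_floor hr m1 d1, A8_floor hr m2 d2⟩, A8_floor hr m3 d1, A8_floor hr m4 d2⟩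
          intro y' hy'
          have k1 := key y' hy'
          have k2 := key (p (cell ρ y)) (A8_cell_corner hρ _)
          exact ⟨k1.1.trans k2.1.symm, k1.2.trans k2.2.symm⟩
        rw [indicator_of_mem hmem, hbad y h, mul_zero, sub_zero, norm_mul]
        exact mul_le_one₀ (hg.le _) (norm_nonneg _) (bP.le _)
  have hint : Integrable ((X1 ∪ X2 ∪ X3 ∪ X4).indicator (fun _ => (1 : ℝ))) := by
    rw [integrable_indicator_iff hmes]
    exact integrableOn_const (ne_top_of_le_ne_top ENNReal.ofReal_ne_top hv)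
  calc ‖∫ y : ℂ, (g y * (φ (y + s) * φ' (y + t)) - g y * ψ y)‖
      ≤ ∫ y : ℂ, (X1 ∪ X2 ∪ X3 ∪ X4).indicator (fun _ => (1 : ℝ)) y := by
        refine norm_integral_le_of_norm_le hint ?_
        filter_upwards with y using hpt y
    _ = volume.real (X1 ∪ X2 ∪ X3 ∪ X4) := by
        rw [integral_indicator hmes, setIntegral_const, smul_eq_mul, mul_one]
    _ ≤ 4 * q := ENNReal.toReal_le_of_le_ofReal (by positivity) hv
    _ ≤ (4 * ((2 * L + 3) * 2 * (2 * L)) + 1) / m := by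
        rw [le_div_iff₀ hm0, hq]
        have : 4 * ((2 * L + 3) * (2 * (1 / (m : ℝ))) * (2 * L)) * m = 4 * ((2 * L + 3) * 2 * (2 * L)) := by
          field_simp
        rw [this]; linarith

/-! ### slot 2 -/

theorem A8_slot2 (ω : ℂ) (R : ℝ) : ∃ n : ℕ, 1 ≤ n ∧ ∃ R' : ℝ,
    ∀ ε : ℝ, 0 < ε → ε ≤ 1 / 2 → ∀ r : ℝ, 0 < r → r ≤ 1 → ∀ φ0 φ1 f2 : ℂ → ℂ,
    SF r R φ0 → SF r R φ1 → BF R f2 → ε ≤ ‖TK ω (kD r) φ0 φ1 f2‖ →
    ∃ (m : ℕ) (φ2 : ℂ → ℂ), 1 ≤ m ∧ (m : ℝ) ≤ 1 / ε ^ n ∧ SF (r / m) R' φ2 ∧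
      ε ^ n ≤ ‖TK ω (kD r) φ0 φ1 φ2‖ := by
  set R1 : ℝ := R + 2 * ‖ω‖ with hR1
  set V : ℝ := max 1 (volume.real (Metric.closedBall (0 : ℂ) R1)) with hVdef
  have hV0 : 0 < V := lt_of_lt_of_le one_pos (le_max_left _ _)
  obtain ⟨C, hC, HC⟩ := A8_trunc R1
  obtain ⟨N, hN⟩ := A8_pow (1 / (4 * V)) (by positivity)
  obtain ⟨M, hM⟩ := A8_pow (1 / (16 * C + 2)) (by positivity)
  obtain ⟨M', hM'⟩ := A8_pow (1 / 4 : ℝ) (by norm_num)
  refine ⟨N + 2 + M + M', by omega, R1, ?_⟩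
  intro ε hε hε2 r hr hr1 φ0 φ1 f2 s0 s1 b2 hb
  have hkm := A8_kD_meas r
  obtain ⟨hk, hk4⟩ := A8_kD_int hr
  have b0 := A8_SF_BF s0
  have b1 := A8_SF_BF s1
  set Ψ : ℂ × ℂ → ℂ := fun z => φ0 (z.2 + -(ω * z.1)) * φ1 (z.2 + (1 - ω) * z.1) with hΨ
  have hω0 : 0 ≤ ‖ω‖ := norm_nonneg _
  have hDK : A8_DK (kD r) R1 Ψ := by
    refine ⟨?_, ?_, ?_⟩
    · exact (b0.meas.comp (measurable_snd.add (measurable_fst.const_mul ω).neg)).mul
        (b1.meas.comp (measurable_snd.add (measurable_fst.const_mul (1 - ω))))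
    · intro z
      rw [hΨ, norm_mul]
      exact mul_le_one₀ (b0.le _) (norm_nonneg _) (b1.le _)
    · intro u x hx hu
      have h2 := A8_kD_supp' hr hr1 hu
      have h3 : R < ‖x + -(ω * u)‖ := by
        have h4 : ‖x‖ ≤ ‖x + -(ω * u)‖ + ‖ω * u‖ := by
          have := norm_add_le (x + -(ω * u)) (ω * u)
          rwa [neg_add_cancel_right] at this
        rw [norm_mul] at h4
        nlinarith
      simp only [hΨ, b0.supp _ h3, zero_mul]
  have hTK : ∀ {Rf : ℝ} {f : ℂ → ℂ}, BF Rf f → TK ω (kD r) φ0 φ1 f = ∫ x : ℂ, f x * A8_dual (kD r) Ψ x := by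
    intro Rf f hf
    rw [← A8_pair hDK hk hf]
    unfold TK
    congr 1
    funext u
    congr 1
    rw [← integral_add_right_eq_self (μ := (volume : Measure ℂ))
      (fun x => φ0 x * φ1 (x + u) * f (x + ω * u)) (-(ω * u))]
    congr 1
    funext x
    simp only [hΨ]
    have e1 : x + -(ω * u) + u = x + (1 - ω) * u := by ring
    have e2 : x + -(ω * u) + ω * u = x := by ring
    rw [e1, e2]
    ring
  have b2' : BF R1 f2 := A8_BF_mono b2 (by rw [hR1]; linarith)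
  rw [hTK b2'] at hb
  obtain ⟨v, hv, hvv⟩ := A8_dual_big hDK hkm hk hk4 b2' hε hV0 (le_max_right _ _) hb
  have hg := A8_g hDK hkm hk hk4
  have hpow : ε ^ (N + 2) ≤ v := by
    calc ε ^ (N + 2) = ε ^ N * ε ^ 2 := pow_add _ _ _
      _ ≤ 1 / (4 * V) * ε ^ 2 := mul_le_mul_of_nonneg_right (hN ε hε hε2) (by positivity)
      _ = ε ^ 2 / (4 * V) := by ring
      _ ≤ v := hv
  set η : ℝ := ε ^ (N + 2) with hη
  have hη0 : 0 < η := by positivity
  have hη1 : η ≤ 1 := pow_le_one₀ hε.le (by linarith)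
  set g : ℂ → ℂ := fun x => (1 / 4 : ℝ) * conj (A8_dual (kD r) Ψ x) with hgdef
  -- pigeonhole
  have hpair := A8_pair hDK hk hg
  have hex : ∃ u, kD r u ≠ 0 ∧ η / 8 < ‖∫ x : ℂ, g x * Ψ (u, x)‖ := by
    by_contra hcon
    push Not at hcon
    have h1 : ‖∫ u : ℂ, (kD r u : ℂ) * ∫ x : ℂ, g x * Ψ (u, x)‖ ≤ ∫ u : ℂ, |kD r u| * (η / 8) := by
      refine norm_integral_le_of_norm_le (hk.abs.mul_const _) ?_
      filter_upwards with u
      rw [norm_mul, Complex.norm_real, Real.norm_eq_abs]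
      by_cases hu : kD r u = 0
      · simp [hu]
      · exact mul_le_mul_of_nonneg_left (hcon u hu) (abs_nonneg _)
    rw [hpair, hvv, Complex.norm_real, Real.norm_eq_abs, abs_of_nonneg (hη0.le.trans hpow),
      integral_mul_const] at h1
    have h2 : (∫ u : ℂ, |kD r u|) * (η / 8) ≤ 4 * (η / 8) :=
      mul_le_mul_of_nonneg_right hk4 (by positivity)
    linarith
  obtain ⟨u, hu, hub⟩ := hex
  -- choice of `m`
  obtain ⟨m, hm1, hm2, hm3⟩ : ∃ m : ℕ, 1 ≤ m ∧ 16 * C / η ≤ m ∧ (m : ℝ) ≤ (16 * C + 2) / η := by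
    refine ⟨⌈16 * C / η⌉₊ + 1, by omega, ?_, ?_⟩
    · have := Nat.le_ceil (16 * C / η)
      push_cast; linarith
    · have h1 := (Nat.ceil_lt_add_one (by positivity : 0 ≤ 16 * C / η)).le
      have h2 : 1 ≤ 1 / η := by rw [le_div_iff₀ hη0]; linarith
      push_cast
      calc ((⌈16 * C / η⌉₊ : ℕ) : ℝ) + 1 ≤ 16 * C / η + 1 + 1 := by linarith
        _ ≤ 16 * C / η + 1 / η + 1 / η := by linarith
        _ = (16 * C + 2) / η := by ring
  have hm0 : (0 : ℝ) < m := by exact_mod_cast hm1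
  obtain ⟨ψ, hψ, hψe⟩ := HC r hr hr1 m hm1 φ0 φ1 R R s0 s1 (-(ω * u)) ((1 - ω) * u)
    (fun y hy => hDK.supp u y hy hu)
  have h3 := hψe g hg
  have h4 : C / m ≤ η / 16 := by
    rw [div_le_iff₀ hm0]
    rw [div_le_iff₀ hη0] at hm2
    linarith
  have h5 : η / 16 ≤ ‖∫ y : ℂ, g y * ψ y‖ := by
    have h6 := norm_sub_norm_le (∫ y : ℂ, g y * (φ0 (y + -(ω * u)) * φ1 (y + (1 - ω) * u)))
      (∫ y : ℂ, g y * ψ y)
    have h7 : η / 8 < ‖∫ y : ℂ, g y * (φ0 (y + -(ω * u)) * φ1 (y + (1 - ω) * u))‖ := hub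
    linarith
  refine ⟨m, fun y => conj (ψ y), hm1, ?_, A8_SF_conj hψ, ?_⟩
  · refine hm3.trans ?_
    have h8 := hM ε hε hε2
    rw [le_div_iff₀ (by positivity)] at h8
    rw [div_le_div_iff₀ hη0 (by positivity), one_mul]
    have h9 : ε ^ M' ≤ 1 := pow_le_one₀ hε.le (by linarith)
    have e : ε ^ (N + 2 + M + M') = η * (ε ^ M * ε ^ M') := by
      rw [hη, pow_add, pow_add, mul_assoc]
    rw [e]
    have h10 : (16 * C + 2) * (ε ^ M * ε ^ M') ≤ 1 := by
      calc (16 * C + 2) * (ε ^ M * ε ^ M') = (ε ^ M * (16 * C + 2)) * ε ^ M' := by ring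
        _ ≤ 1 * 1 := mul_le_mul h8 h9 (by positivity) (by norm_num)
        _ = 1 := one_mul 1
    calc (16 * C + 2) * (η * (ε ^ M * ε ^ M')) = η * ((16 * C + 2) * (ε ^ M * ε ^ M')) := by ring
      _ ≤ η * 1 := mul_le_mul_of_nonneg_left h10 hη0.le
      _ = η := mul_one η
  · rw [hTK (A8_SF_BF (A8_SF_conj hψ))]
    have e : ∫ x : ℂ, conj (ψ x) * A8_dual (kD r) Ψ x = 4 * conj (∫ x : ℂ, g x * ψ x) := by
      rw [← integral_conj, ← integral_const_mul]
      congr 1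
      funext x
      simp only [hgdef]
      rw [map_mul, map_mul, Complex.conj_conj, Complex.conj_ofReal]
      push_cast
      ring
    rw [e, norm_mul, norm_conj]
    have h11 : ε ^ (N + 2 + M + M') ≤ η * (1 / 4) := by
      calc ε ^ (N + 2 + M + M') = η * ε ^ M * ε ^ M' := by rw [hη, pow_add, pow_add]
        _ ≤ η * 1 * (1 / 4) := by
            gcongr
            · exact pow_le_one₀ hε.le (by linarith)
            · exact hM' ε hε hε2
        _ = η * (1 / 4) := by ring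
    have h12 : ‖(4 : ℂ)‖ = 4 := by norm_num
    rw [h12]
    linarith

theorem prop51 (ω : ℂ) (h0 : ω.im ≠ 0) (h1 : ω.re ≠ 0) (h2 : ω.re ≠ 1) (R : ℝ) : ∃ n : ℕ, 1 ≤ n ∧
    ∃ R' : ℝ, ∀ ε : ℝ, 0 < ε → ε ≤ 1 / 2 → ∀ r : ℝ, 0 < r → r ≤ 1 → ∀ f0 f1 f2 : ℂ → ℂ,
    BF R f0 → BF R f1 → BF R f2 → ε ≤ ‖TK ω (kD r) f0 f1 f2‖ →
    ∃ (m : ℕ) (φ0 φ1 φ2 : ℂ → ℂ), 1 ≤ m ∧ (m : ℝ) ≤ 1 / ε ^ n ∧ SF (r / m) R' φ0 ∧ SF (r / m) R' φ1 ∧
      SF (r / m) R' φ2 ∧ ε ^ n ≤ ‖TK ω (kD r) φ0 φ1 φ2‖ := by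
  obtain ⟨n0, hn0, H0⟩ := A8_slot0 ω h0 h1 R
  obtain ⟨n1, hn1, H1⟩ := A8_slot0 (1 - ω) (by simpa using h0) (by
    rw [sub_re, one_re]; intro h; apply h2; linarith) (R + 4)
  obtain ⟨n2, hn2, R2, H2⟩ := A8_slot2 ω (R + 8)
  refine ⟨n0 * n1 * n2, Nat.mul_pos (Nat.mul_pos hn0 hn1) hn2, max R2 (R + 8), ?_⟩
  intro ε hε hε2 r hr hr1 f0 f1 f2 b0 b1 b2 hb
  have hle : ∀ (x : ℝ) (n : ℕ), 1 ≤ n → 0 < x → x ≤ 1 / 2 → x ^ n ≤ 1 / 2 := by
    intro x n hn hx hx2
    calc x ^ n ≤ x ^ 1 := pow_le_pow_of_le_one hx.le (by linarith) hn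
      _ ≤ 1 / 2 := by rw [pow_one]; exact hx2
  obtain ⟨φ0, s0, hb0⟩ := H0 ε hε hε2 r hr hr1 f0 f1 f2 b0 b1 b2 hb
  have hε0 : 0 < ε ^ n0 := by positivity
  rw [A8_TKswap ω (kD r) (A8_kD_neg r)] at hb0
  obtain ⟨φ1, s1, hb1⟩ := H1 (ε ^ n0) hε0 (hle ε n0 hn0 hε hε2) r hr hr1 f1 φ0 f2
    (A8_BF_mono b1 (by linarith)) (A8_SF_BF s0) (A8_BF_mono b2 (by linarith)) hb0
  rw [← A8_TKswap ω (kD r) (A8_kD_neg r)] at hb1
  have hε1 : 0 < (ε ^ n0) ^ n1 := by positivity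
  obtain ⟨m, φ2, hm1, hm2, s2, hb2⟩ := H2 ((ε ^ n0) ^ n1) hε1
    (hle _ n1 hn1 hε0 (hle ε n0 hn0 hε hε2)) r hr hr1 φ0 φ1 f2
    (A8_SF_mono s0 (by linarith)) (A8_SF_mono s1 (by linarith)) (A8_BF_mono b2 (by linarith)) hb1
  have hR : R + 4 ≤ max R2 (R + 8) := le_trans (by linarith) (le_max_right _ _)
  have hR' : R + 4 + 4 ≤ max R2 (R + 8) := le_trans (by linarith) (le_max_right _ _)
  rw [pow_mul, pow_mul]
  exact ⟨m, φ0, φ1, φ2, hm1, hm2, A8_SF_mono (A8_refine s0 m hm1) hR,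
    A8_SF_mono (A8_refine s1 m hm1) hR', A8_SF_mono s2 (le_max_left _ _), hb2⟩

end TriDil
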