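import Pool.Agent.TriDil.Basic7
import Pool.Agent.TriDil.A6
set_option autoImplicit false
set_option linter.unusedVariables false
open MeasureTheory Complex Set
namespace TriDil
open scoped ComplexConjugate

/-! ### measurability -/

theorem A9_meas_cell (d : ℝ) : Measurable (cell d) := by
  unfold cell
  exact (Int.measurable_floor.comp (Complex.measurable_re.div_const d)).prodMk
    (Int.measurable_floor.comp (Complex.measurable_im.div_const d))

theorem A9_meas_ip : Measurable (fun z : ℂ × ℂ => ip z.1 z.2) := by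
  unfold ip
  exact ((Complex.measurable_re.comp measurable_fst).mul (Complex.measurable_re.comp measurable_snd)).add
    ((Complex.measurable_im.comp measurable_fst).mul (Complex.measurable_im.comp measurable_snd))

theorem A9_SF_BF {ρ R : ℝ} {φ : ℂ → ℂ} (h : SF ρ R φ) : BF R φ where
  meas := by
    obtain ⟨a, c, hc, hφ⟩ := h.ex
    have : φ = fun x => c (cell ρ x) * Complex.exp ((ip (a (cell ρ x)) x : ℂ) * I) := funext hφ
    rw [this]
    have ha : Measurable (fun x : ℂ => a (cell ρ x)) := (measurable_of_countable a).comp (A9_meas_cell ρ)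
    have hcm : Measurable (fun x : ℂ => c (cell ρ x)) := (measurable_of_countable c).comp (A9_meas_cell ρ)
    have hip : Measurable (fun x : ℂ => ip (a (cell ρ x)) x) :=
      A9_meas_ip.comp (ha.prodMk measurable_id)
    exact hcm.mul ((Complex.measurable_ofReal.comp hip).mul_const I).cexp
  le := by
    obtain ⟨a, c, hc, hφ⟩ := h.ex
    intro x
    rw [hφ x, norm_mul, Complex.norm_exp_ofReal_mul_I, mul_one]
    exact hc _
  supp := h.supp

theorem A9_meas_haar : Measurable haar := by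
  unfold haar
  refine Measurable.ite ?_ measurable_const (Measurable.ite ?_ measurable_const measurable_const)
  · exact measurableSet_Icc (a := (0:ℝ)) (b := 1/2)
  · exact measurableSet_Ioc (a := (1/2:ℝ)) (b := 1)

theorem A9_haar_le (t : ℝ) : |haar t| ≤ 1 := by
  unfold haar
  split_ifs <;> simp

theorem A9_WW_le (r τ s : ℝ) : |WW r τ s| ≤ 1 := by
  unfold WW
  split_ifs
  · exact A9_haar_le _
  · simp

theorem A9_meas_WW (r : ℝ) : Measurable (fun z : ℝ × ℝ => WW r z.1 z.2) := by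
  unfold WW
  refine Measurable.ite ?_ ?_ measurable_const
  · have h1 : MeasurableSet {z : ℝ × ℝ | 0 ≤ r * z.1} :=
      measurableSet_le measurable_const (measurable_fst.const_mul r)
    have h2 : MeasurableSet {z : ℝ × ℝ | r * z.1 * Real.cos r < (1 + r ^ 2 * z.2) * Real.sin r} :=
      measurableSet_lt ((measurable_fst.const_mul r).mul_const _)
        (((measurable_snd.const_mul (r^2)).const_add 1).mul_const _)
    exact h1.inter h2
  · refine A9_meas_haar.comp ?_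
    exact (((measurable_snd.const_mul 2).add ((measurable_snd.pow_const 2).const_mul (r^2))).add
      (measurable_fst.pow_const 2))

/-! ### finite measure integrals -/

theorem A9_int {α : Type*} [MeasurableSpace α] {μ : Measure α} [IsFiniteMeasure μ] {f : α → ℂ}
    (hf : Measurable f) {C : ℝ} (hC : ∀ x, ‖f x‖ ≤ C) : Integrable f μ :=
  Integrable.of_bound hf.aestronglyMeasurable C (ae_of_all _ hC)

theorem A9_norm_int {α : Type*} [MeasurableSpace α] {μ : Measure α} [IsFiniteMeasure μ] {f : α → ℂ}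
    {C : ℝ} (hC : ∀ x, ‖f x‖ ≤ C) : ‖∫ x, f x ∂μ‖ ≤ C * μ.real univ := by
  exact norm_integral_le_of_norm_le_const (ae_of_all _ hC)

theorem A9_prod {α β : Type*} [MeasurableSpace α] [MeasurableSpace β] {μ : Measure α} {ν : Measure β}
    [IsFiniteMeasure μ] [IsFiniteMeasure ν] {f : α → β → ℂ} (hf : Measurable (Function.uncurry f))
    {C : ℝ} (hC : ∀ x y, ‖f x y‖ ≤ C) :
    ∫ z, f z.1 z.2 ∂(μ.prod ν) = ∫ x, ∫ y, f x y ∂ν ∂μ :=
  integral_prod _ (A9_int hf (fun z => hC z.1 z.2))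

theorem A9_prod' {α β : Type*} [MeasurableSpace α] [MeasurableSpace β] {μ : Measure α} {ν : Measure β}
    [IsFiniteMeasure μ] [IsFiniteMeasure ν] {f : α → β → ℂ} (hf : Measurable (Function.uncurry f))
    {C : ℝ} (hC : ∀ x y, ‖f x y‖ ≤ C) :
    ∫ z, f z.1 z.2 ∂(μ.prod ν) = ∫ y, ∫ x, f x y ∂μ ∂ν :=
  integral_prod_symm _ (A9_int hf (fun z => hC z.1 z.2))

theorem A9_swap {α β : Type*} [MeasurableSpace α] [MeasurableSpace β] {μ : Measure α} {ν : Measure β}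
    [IsFiniteMeasure μ] [IsFiniteMeasure ν] {f : α → β → ℂ} (hf : Measurable (Function.uncurry f))
    {C : ℝ} (hC : ∀ x y, ‖f x y‖ ≤ C) :
    ∫ x, ∫ y, f x y ∂ν ∂μ = ∫ y, ∫ x, f x y ∂μ ∂ν :=
  integral_integral_swap (A9_int hf (fun z => hC z.1 z.2))

/-- pigeonhole for an integral over `(0, n δ]` -/
theorem A9_pigeon (g : ℝ → ℂ) (C δ ε : ℝ) (hδ : 0 < δ) (n : ℕ) (hn : 0 < n) (hg : Measurable g)
    (hC : ∀ x, ‖g x‖ ≤ C) (hε : ε ≤ ‖∫ x in Ioc 0 (n * δ), g x‖) :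
    ∃ k : ℕ, k < n ∧ ε / n ≤ ‖∫ x in Ioc (k * δ) (k * δ + δ), g x‖ := by
  by_contra hcon
  push Not at hcon
  have hint : ∀ a b : ℝ, IntervalIntegrable g volume a b := by
    intro a b
    rw [intervalIntegrable_iff]
    show Integrable g (volume.restrict (Ioc (min a b) (max a b)))
    exact A9_int hg hC
  have hnδ : (0:ℝ) ≤ n * δ := by positivity
  have h1 : ∫ x in Ioc 0 (n * δ), g x = ∑ k ∈ Finset.range n, ∫ x in Ioc (k * δ) (k * δ + δ), g x := by
    have h2 := intervalIntegral.sum_integral_adjacent_intervals (f := g) (μ := volume)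
      (a := fun k : ℕ => (k : ℝ) * δ) (n := n) (fun k _ => hint _ _)
    simp only [Nat.cast_zero, zero_mul] at h2
    rw [intervalIntegral.integral_of_le hnδ] at h2
    rw [← h2]
    apply Finset.sum_congr rfl
    intro k _
    have e : ((k + 1 : ℕ) : ℝ) * δ = k * δ + δ := by push_cast; ring
    rw [e, intervalIntegral.integral_of_le (by linarith)]
  rw [h1] at hε
  have h3 : ‖∑ k ∈ Finset.range n, ∫ x in Ioc (k * δ) (k * δ + δ), g x‖ < ∑ k ∈ Finset.range n, ε / n := by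
    refine (norm_sum_le _ _).trans_lt ?_
    apply Finset.sum_lt_sum_of_nonempty
    · exact Finset.nonempty_range_iff.mpr hn.ne'
    · intro k hk; exact hcon k (Finset.mem_range.mp hk)
  rw [Finset.sum_const, Finset.card_range, nsmul_eq_mul] at h3
  have h4 : (n : ℝ) * (ε / n) = ε := by field_simp
  rw [h4] at h3
  linarith

/-! ### oscillatory integrals -/

theorem A9_osc_interval (a b l : ℝ) (hl : l ≠ 0) (hab : a ≤ b) :
    ‖∫ t in Ioc a b, Complex.exp ((t * l : ℝ) * I)‖ ≤ 2 / |l| := by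
  rw [← intervalIntegral.integral_of_le hab]
  have hc : (l : ℂ) * I ≠ 0 := mul_ne_zero (by exact_mod_cast hl) I_ne_zero
  have e : ∀ t : ℝ, Complex.exp ((t * l : ℝ) * I) = Complex.exp ((l * I) * t) := by
    intro t; congr 1; push_cast; ring
  simp_rw [e]
  rw [integral_exp_mul_complex hc, norm_div, norm_mul, norm_I, mul_one, norm_real, Real.norm_eq_abs]
  apply div_le_div_of_nonneg_right _ (abs_nonneg l)
  refine (norm_sub_le _ _).trans ?_
  have e2 : ∀ t : ℝ, ‖Complex.exp ((l * I) * t)‖ = 1 := by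
    intro t
    have : (l * I : ℂ) * t = ((l * t : ℝ) : ℂ) * I := by push_cast; ring
    rw [this, Complex.norm_exp_ofReal_mul_I]
  rw [e2, e2]; norm_num

theorem A9_osc_ord (S : Set ℝ) (hS : S.OrdConnected) (a b l : ℝ) (hab : S ⊆ Icc a b) (hl : l ≠ 0) :
    ‖∫ t in S, Complex.exp ((t * l : ℝ) * I)‖ ≤ 2 / |l| := by
  rcases S.eq_empty_or_nonempty with rfl | hne
  · simp only [setIntegral_empty, norm_zero]; positivity
  have hbb : BddBelow S := ⟨a, fun x hx => (hab hx).1⟩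
  have hba : BddAbove S := ⟨b, fun x hx => (hab hx).2⟩
  set p := sInf S with hp
  set q := sSup S with hq
  have h1 : S ⊆ Icc p q := fun x hx => ⟨csInf_le hbb hx, le_csSup hba hx⟩
  have h2 : Ioo p q ⊆ S := by
    intro x hx
    obtain ⟨y, hy, hyx⟩ := (csInf_lt_iff hbb hne).mp hx.1
    obtain ⟨z, hz, hxz⟩ := (lt_csSup_iff hba hne).mp hx.2
    exact hS.out hy hz ⟨hyx.le, hxz.le⟩
  have hpq : p ≤ q := by
    obtain ⟨x, hx⟩ := hne
    exact (csInf_le hbb hx).trans (le_csSup hba hx)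
  have h3 : S =ᵐ[volume] Ioc p q := by
    have h4 : Ioo p q =ᵐ[volume] Ioc p q := Ioo_ae_eq_Ioc
    have h5 : Icc p q =ᵐ[volume] Ioc p q := Ioc_ae_eq_Icc.symm
    have h6 : Ioo p q =ᵐ[volume] Icc p q := h4.trans h5.symm
    filter_upwards [h6, h4] with x hx hx4
    have hx' : (x ∈ Ioo p q) = (x ∈ Icc p q) := hx
    have hx4' : (x ∈ Ioo p q) = (x ∈ Ioc p q) := hx4
    show (x ∈ S) = (x ∈ Ioc p q)
    rw [← hx4']
    apply propext
    constructor
    · intro h; rw [hx']; exact h1 h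
    · intro h; exact h2 h
  rw [setIntegral_congr_set h3]
  exact A9_osc_interval p q l hl hpq

theorem A9_meas_ord {S : Set ℝ} (hS : S.OrdConnected) : MeasurableSet S := hS.measurableSet

/-- an oscillatory integral with a weight that is a difference of indicators of intervals -/
theorem A9_osc_weight (w : ℝ → ℝ) (S : Set ℝ) (hS : S.OrdConnected) (a b c d l : ℝ) (hl : l ≠ 0)
    (hSab : S ⊆ Icc c d)
    (hw : ∃ I1 I2 : Set ℝ, I1.OrdConnected ∧ I2.OrdConnected ∧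
      I1 ⊆ Icc a b ∧ I2 ⊆ Icc a b ∧ ∀ τ, w τ = I1.indicator 1 τ - I2.indicator 1 τ) :
    ‖∫ t in S, (w t : ℂ) * Complex.exp ((t * l : ℝ) * I)‖ ≤ 4 / |l| := by
  obtain ⟨I1, I2, h1, h2, hI1, hI2, hw⟩ := hw
  have hSm := A9_meas_ord hS
  have hm1 := A9_meas_ord h1
  have hm2 := A9_meas_ord h2
  have hfin : IsFiniteMeasure (volume.restrict S) := by
    constructor
    rw [Measure.restrict_apply_univ]
    exact (measure_mono hSab).trans_lt measure_Icc_lt_top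
  have hmeas : Measurable (fun t : ℝ => Complex.exp ((t * l : ℝ) * I)) := by fun_prop
  have hb : ∀ t : ℝ, ‖Complex.exp ((t * l : ℝ) * I)‖ ≤ 1 := fun t => by
    rw [Complex.norm_exp_ofReal_mul_I]
  have key : ∀ J : Set ℝ, J.OrdConnected → ‖∫ t in S, J.indicator (fun t : ℝ => Complex.exp ((t * l : ℝ) * I)) t‖ ≤ 2 / |l| := by
    intro J hJ
    rw [setIntegral_indicator (A9_meas_ord hJ)]
    exact A9_osc_ord (S ∩ J) (hS.inter hJ) c d l (inter_subset_left.trans hSab) hl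
  have e : ∀ t : ℝ, (w t : ℂ) * Complex.exp ((t * l : ℝ) * I)
      = I1.indicator (fun t : ℝ => Complex.exp ((t * l : ℝ) * I)) t
        - I2.indicator (fun t : ℝ => Complex.exp ((t * l : ℝ) * I)) t := by
    intro t
    rw [hw t]
    by_cases ht1 : t ∈ I1 <;> by_cases ht2 : t ∈ I2 <;> simp [ht1, ht2]
  simp_rw [e]
  have hbi : ∀ J : Set ℝ, ∀ t, ‖J.indicator (fun t : ℝ => Complex.exp ((t * l : ℝ) * I)) t‖ ≤ 1 := by
    intro J t
    by_cases ht : t ∈ J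
    · rw [indicator_of_mem ht]; exact hb t
    · rw [indicator_of_notMem ht]; simp
  rw [integral_sub (A9_int (hmeas.indicator hm1) (hbi I1)) (A9_int (hmeas.indicator hm2) (hbi I2))]
  refine (norm_sub_le _ _).trans ?_
  have k1 := key I1 h1
  have k2 := key I2 h2
  have : (4:ℝ) / |l| = 2 / |l| + 2 / |l| := by ring
  linarith

/-! ### cells -/

theorem A9_floor (d ρ a z : ℝ) (hd : 0 < d) (h1 : ρ ≤ d * Int.fract (a / d))
    (h2 : d * Int.fract (a / d) + ρ < d) (hz : |z| ≤ ρ) : ⌊(a + z) / d⌋ = ⌊a / d⌋ := by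
  rw [Int.floor_eq_iff]
  have h3 : (⌊a / d⌋ : ℝ) = a / d - Int.fract (a / d) := by
    have := Int.floor_add_fract (a / d); linarith
  rw [h3]
  have hz1 := (abs_le.mp hz).1
  have hz2 := (abs_le.mp hz).2
  constructor
  · rw [add_div]
    have : -Int.fract (a / d) ≤ z / d := by
      rw [le_div_iff₀ hd]; nlinarith
    linarith
  · rw [add_div]
    have : z / d < 1 - Int.fract (a / d) := by
      rw [div_lt_iff₀ hd]; nlinarith
    linarith

theorem A9_deep_cell (d ρ : ℝ) (hd : 0 < d) (x z : ℂ) (h : deep d ρ x) (hz : ‖z‖ ≤ ρ) :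
    cell d (x + z) = cell d x := by
  obtain ⟨h1, h2, h3, h4⟩ := h
  unfold cell
  rw [add_re, add_im, A9_floor d ρ x.re z.re hd h1 h2 ((abs_re_le_norm z).trans hz),
    A9_floor d ρ x.im z.im hd h3 h4 ((abs_im_le_norm z).trans hz)]

/-- the one-dimensional bad set -/
def A9_B (d ρ L : ℝ) : Set ℝ :=
  {t | t ∈ Icc (-L) L ∧ ¬ (ρ ≤ d * Int.fract (t / d) ∧ d * Int.fract (t / d) + ρ < d)}

theorem A9_B_meas (d ρ L : ℝ) : MeasurableSet (A9_B d ρ L) := by
  have h1 : Measurable (fun t : ℝ => d * Int.fract (t / d)) :=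
    (measurable_fract.comp (measurable_id.div_const d)).const_mul d
  have h2 : MeasurableSet {t : ℝ | ρ ≤ d * Int.fract (t / d)} := measurableSet_le measurable_const h1
  have h3 : MeasurableSet {t : ℝ | d * Int.fract (t / d) + ρ < d} :=
    measurableSet_lt (h1.add_const ρ) measurable_const
  exact measurableSet_Icc.inter (h2.inter h3).compl

theorem A9_B_vol (d ρ L : ℝ) (hd : 0 < d) (hd1 : d ≤ 1) (hρ : 0 ≤ ρ) (hL : 0 ≤ L) :
    volume.real (A9_B d ρ L) ≤ (4 * L + 14) * (ρ / d) := by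
  have hsub0 : A9_B d ρ L ⊆ Icc (-L) L := fun t ht => ht.1
  rcases le_or_gt d ρ with hbig | hsmall
  · have h1 : volume.real (A9_B d ρ L) ≤ volume.real (Icc (-L) L) :=
      measureReal_mono hsub0 measure_Icc_lt_top.ne
    rw [Real.volume_real_Icc_of_le (by linarith)] at h1
    have h2 : 1 ≤ ρ / d := by rw [le_div_iff₀ hd]; linarith
    nlinarith
  · set N : ℕ := ⌈L / d⌉₊ + 1 with hN
    have hNb : (N : ℝ) ≤ L / d + 2 := by
      have := Nat.ceil_lt_add_one (div_nonneg hL hd.le)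
      rw [hN]; push_cast; linarith
    have hNl : L / d + 1 ≤ N := by
      have := Nat.le_ceil (L / d)
      rw [hN]; push_cast; linarith
    have hcov : A9_B d ρ L ⊆ ⋃ n ∈ Finset.Icc (-(N:ℤ)) N, Icc ((n:ℝ) * d - ρ) (n * d + ρ) := by
      intro t ht
      obtain ⟨hti, hbad⟩ := ht
      have hf : Int.fract (t / d) = t / d - ⌊t / d⌋ := rfl
      have hdf : d * Int.fract (t / d) = t - ⌊t / d⌋ * d := by
        rw [hf]; field_simp
      have hf0 := Int.fract_nonneg (t / d)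
      have hf1 := Int.fract_lt_one (t / d)
      have hdf0 : 0 ≤ d * Int.fract (t / d) := by positivity
      have hdf1 : d * Int.fract (t / d) < d := by nlinarith
      have hex : ∃ n : ℤ, |t - n * d| ≤ ρ := by
        by_cases hc : ρ ≤ d * Int.fract (t / d)
        · have h2 : ¬ (d * Int.fract (t / d) + ρ < d) := fun h => hbad ⟨hc, h⟩
          push Not at h2
          refine ⟨⌊t / d⌋ + 1, ?_⟩
          rw [abs_le]; push_cast; constructor <;> nlinarith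
        · push Not at hc
          refine ⟨⌊t / d⌋, ?_⟩
          rw [abs_le]; constructor <;> linarith
      obtain ⟨n, hn⟩ := hex
      rw [abs_le] at hn
      rw [mem_iUnion₂]
      refine ⟨n, ?_, ?_⟩
      · rw [Finset.mem_Icc]
        have h1 : (n:ℝ) * d ≤ L + ρ := by linarith [hti.2]
        have h2 : -(L + ρ) ≤ (n:ℝ) * d := by linarith [hti.1]
        have h3 : (n:ℝ) ≤ L / d + 1 := by
          have : (n:ℝ) ≤ (L + ρ) / d := by rw [le_div_iff₀ hd]; exact h1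
          have h5 : (L + ρ) / d ≤ L / d + 1 := by
            rw [add_div]; have : ρ / d ≤ 1 := by rw [div_le_one hd]; linarith
            linarith
          linarith
        have h4 : -(L / d + 1) ≤ (n:ℝ) := by
          have : -((L + ρ) / d) ≤ (n:ℝ) := by
            rw [neg_le_iff_add_nonneg]
            have : (n:ℝ) + (L + ρ) / d = ((n:ℝ) * d + (L + ρ)) / d := by field_simp
            rw [this]; apply div_nonneg _ hd.le; linarith
          have h5 : (L + ρ) / d ≤ L / d + 1 := by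
            rw [add_div]; have : ρ / d ≤ 1 := by rw [div_le_one hd]; linarith
            linarith
          linarith
        constructor
        · have : (-(N:ℤ) : ℝ) ≤ (n:ℝ) := by push_cast; linarith
          exact_mod_cast this
        · have : (n:ℝ) ≤ ((N:ℤ):ℝ) := by push_cast; linarith
          exact_mod_cast this
      · constructor <;> linarith
    have hfinU : volume (⋃ n ∈ Finset.Icc (-(N:ℤ)) N, Icc ((n:ℝ) * d - ρ) (n * d + ρ)) ≠ ⊤ := by
      refine ((measure_biUnion_finset_le _ _).trans_lt ?_).ne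
      exact ENNReal.sum_lt_top.mpr (fun i _ => measure_Icc_lt_top)
    have h1 : volume.real (A9_B d ρ L) ≤ ∑ n ∈ Finset.Icc (-(N:ℤ)) N, volume.real (Icc ((n:ℝ) * d - ρ) (n * d + ρ)) :=
      (measureReal_mono hcov hfinU).trans (measureReal_biUnion_finset_le _ _)
    have h2 : ∀ n ∈ Finset.Icc (-(N:ℤ)) N, volume.real (Icc ((n:ℝ) * d - ρ) (n * d + ρ)) = 2 * ρ := by
      intro n _
      rw [Real.volume_real_Icc_of_le (by linarith)]; ring
    rw [Finset.sum_congr rfl h2, Finset.sum_const, nsmul_eq_mul, Int.card_Icc] at h1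
    have h3 : (((N:ℤ) + 1 - (-(N:ℤ))).toNat : ℝ) = 2 * N + 1 := by
      have : ((N:ℤ) + 1 - (-(N:ℤ))).toNat = 2 * N + 1 := by omega
      rw [this]; push_cast; ring
    rw [h3] at h1
    have h4 : (2 * (N:ℝ) + 1) * (2 * ρ) ≤ (2 * (L / d + 2) + 1) * (2 * ρ) := by
      apply mul_le_mul_of_nonneg_right _ (by linarith); linarith
    have h5 : (2 * (L / d + 2) + 1) * (2 * ρ) = (4 * L + 10 * d) * (ρ / d) := by
      field_simp; ring
    have h6 : (4 * L + 10 * d) * (ρ / d) ≤ (4 * L + 14) * (ρ / d) := by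
      apply mul_le_mul_of_nonneg_right _ (by positivity); linarith
    linarith

/-- the set of not deep points is small -/
theorem A9_bad_vol (d ρ L : ℝ) (hd : 0 < d) (hd1 : d ≤ 1) (hρ : 0 ≤ ρ) (hL : 0 ≤ L) :
    volume {x : ℂ | ‖x‖ ≤ L ∧ ¬ deep d ρ x} ≤ ENNReal.ofReal (4 * L * (4 * L + 14) * (ρ / d)) := by
  set S : Set (ℝ × ℝ) := (A9_B d ρ L ×ˢ Icc (-L) L) ∪ (Icc (-L) L ×ˢ A9_B d ρ L) with hS
  have hSm : MeasurableSet S :=
    ((A9_B_meas d ρ L).prod measurableSet_Icc).union (measurableSet_Icc.prod (A9_B_meas d ρ L))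
  have hsub : {x : ℂ | ‖x‖ ≤ L ∧ ¬ deep d ρ x} ⊆ Complex.measurableEquivRealProd ⁻¹' S := by
    intro x hx
    obtain ⟨hx1, hx2⟩ := hx
    have hre := (abs_re_le_norm x).trans hx1
    have him := (abs_im_le_norm x).trans hx1
    rw [abs_le] at hre him
    rw [mem_preimage, Complex.measurableEquivRealProd_apply]
    by_cases hc : (ρ ≤ d * Int.fract (x.re / d) ∧ d * Int.fract (x.re / d) + ρ < d)
    · right
      refine ⟨hre, him, ?_⟩
      intro h
      exact hx2 ⟨hc.1, hc.2, h.1, h.2⟩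
    · left
      exact ⟨⟨hre, hc⟩, him⟩
  have h1 : volume {x : ℂ | ‖x‖ ≤ L ∧ ¬ deep d ρ x} ≤ volume S := by
    rw [← Complex.volume_preserving_equiv_real_prod.measure_preimage hSm.nullMeasurableSet]
    exact measure_mono hsub
  refine h1.trans ?_
  have h2 : volume S ≤ volume (A9_B d ρ L ×ˢ Icc (-L) L) + volume (Icc (-L) L ×ˢ A9_B d ρ L) :=
    measure_union_le _ _
  refine h2.trans ?_
  have hBtop : volume (A9_B d ρ L) ≠ ⊤ :=
    ((measure_mono (fun t ht => ht.1 : A9_B d ρ L ⊆ Icc (-L) L)).trans_lt measure_Icc_lt_top).ne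
  have hB : volume (A9_B d ρ L) ≤ ENNReal.ofReal ((4 * L + 14) * (ρ / d)) := by
    rw [← ENNReal.ofReal_toReal hBtop]
    exact ENNReal.ofReal_le_ofReal (A9_B_vol d ρ L hd hd1 hρ hL)
  have hI : volume (Icc (-L) L) = ENNReal.ofReal (2 * L) := by
    rw [Real.volume_Icc]; congr 1; ring
  rw [Measure.volume_eq_prod, Measure.prod_prod, Measure.prod_prod, hI]
  have hq : 0 ≤ ρ / d := by positivity
  calc volume (A9_B d ρ L) * ENNReal.ofReal (2 * L) + ENNReal.ofReal (2 * L) * volume (A9_B d ρ L)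
      ≤ ENNReal.ofReal ((4 * L + 14) * (ρ / d)) * ENNReal.ofReal (2 * L)
        + ENNReal.ofReal (2 * L) * ENNReal.ofReal ((4 * L + 14) * (ρ / d)) := by gcongr
    _ = ENNReal.ofReal (4 * L * (4 * L + 14) * (ρ / d)) := by
      rw [← ENNReal.ofReal_mul (by positivity), ← ENNReal.ofReal_mul (by positivity),
        ← ENNReal.ofReal_add (by positivity) (by positivity)]
      congr 1; ring

theorem A9_deep_meas (d ρ : ℝ) : MeasurableSet {x : ℂ | deep d ρ x} := by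
  unfold deep
  have h1 : Measurable (fun x : ℂ => d * Int.fract (x.re / d)) :=
    (measurable_fract.comp (Complex.measurable_re.div_const d)).const_mul d
  have h2 : Measurable (fun x : ℂ => d * Int.fract (x.im / d)) :=
    (measurable_fract.comp (Complex.measurable_im.div_const d)).const_mul d
  exact (measurableSet_le measurable_const h1).inter ((measurableSet_lt (h1.add_const ρ) measurable_const).inter
    ((measurableSet_le measurable_const h2).inter (measurableSet_lt (h2.add_const ρ) measurable_const)))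

/-- measure of the bad triangles -/
theorem A9_bad_tri (d ρ L : ℝ) (hd : 0 < d) (hd1 : d ≤ 1) (hρ : 0 ≤ ρ) (hL : 0 ≤ L) (p : ℂ) (a b : ℝ) :
    volume {g : ℂ × ℝ | ‖g.1‖ ≤ L ∧ g.2 ∈ Ioc a b ∧ ¬ deep d ρ (g.1 + p * U g.2)}
      ≤ ENNReal.ofReal (4 * (L + ‖p‖) * (4 * (L + ‖p‖) + 14) * (ρ / d)) * ENNReal.ofReal (b - a) := by
  set S : Set (ℂ × ℝ) := {x : ℂ | ‖x‖ ≤ L + ‖p‖ ∧ ¬ deep d ρ x} ×ˢ Ioc a b with hS
  have hm : MeasurableSet {x : ℂ | ‖x‖ ≤ L + ‖p‖ ∧ ¬ deep d ρ x} :=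
    (measurableSet_le measurable_norm measurable_const).inter (A9_deep_meas d ρ).compl
  have hSm : MeasurableSet S := hm.prod measurableSet_Ioc
  have hsub : {g : ℂ × ℝ | ‖g.1‖ ≤ L ∧ g.2 ∈ Ioc a b ∧ ¬ deep d ρ (g.1 + p * U g.2)}
      ⊆ (fun g : ℂ × ℝ => (g.1 + p * U g.2, g.2)) ⁻¹' S := by
    intro g hg
    refine ⟨⟨?_, hg.2.2⟩, hg.2.1⟩
    refine (norm_add_le _ _).trans ?_
    rw [norm_mul, norm_U, mul_one]; linarith [hg.1]
  refine (measure_mono hsub).trans ?_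
  rw [(mp_shear p).measure_preimage hSm.nullMeasurableSet, hS, Measure.volume_eq_prod, Measure.prod_prod,
    Real.volume_Ioc]
  gcongr
  exact A9_bad_vol d ρ _ hd hd1 hρ (by positivity)

/-- multiplication by a complex number -/
theorem A9_mulpre (c : ℂ) (hc : c ≠ 0) (S : Set ℂ) (hS : MeasurableSet S) :
    volume ((fun x : ℂ => c * x) ⁻¹' S) = ENNReal.ofReal ((‖c‖ ^ 2)⁻¹) * volume S := by
  have hc' : ‖c‖ ≠ 0 := by simpa using hc
  set w : ℂ := c / ‖c‖ with hw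
  have hwn : ‖w‖ = 1 := by
    rw [hw, norm_div, norm_real, norm_norm, div_self hc']
  set cw : Circle := ⟨w, by show w ∈ Metric.sphere (0:ℂ) 1; rw [mem_sphere_zero_iff_norm]; exact hwn⟩ with hcw
  have h1 : MeasurePreserving (rotation cw) (volume : Measure ℂ) volume :=
    (rotation cw).measurePreserving
  have e : (fun x : ℂ => c * x) ⁻¹' S = (fun x : ℂ => (‖c‖ : ℝ) • x) ⁻¹' ((rotation cw) ⁻¹' S) := by
    ext x
    simp only [mem_preimage, rotation_apply]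
    have : (cw : ℂ) * ((‖c‖ : ℝ) • x) = c * x := by
      show w * ((‖c‖ : ℝ) • x) = c * x
      rw [hw, Complex.real_smul]
      have : (‖c‖ : ℂ) ≠ 0 := by exact_mod_cast hc'
      field_simp
    rw [this]
  rw [e, Measure.addHaar_preimage_smul volume hc', h1.measure_preimage hS.nullMeasurableSet,
    Complex.finrank_real_complex, abs_of_nonneg (by positivity)]

/-- affine change of variables in `ℂ × ℝ` -/
theorem A9_mulpre2 (c : ℂ) (hc : c ≠ 0) (a : ℝ) (S : Set (ℂ × ℝ)) (hS : MeasurableSet S) :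
    volume ((fun g : ℂ × ℝ => (c * g.1, g.2 + a)) ⁻¹' S) = ENNReal.ofReal ((‖c‖ ^ 2)⁻¹) * volume S := by
  have hmap : Measurable (fun g : ℂ × ℝ => (c * g.1, g.2 + a)) :=
    (measurable_fst.const_mul c).prodMk (measurable_snd.add_const a)
  rw [Measure.volume_eq_prod, Measure.prod_apply_symm (hmap hS), Measure.prod_apply_symm hS]
  have h1 : ∀ y : ℝ, (volume : Measure ℂ) ((fun x => (x, y)) ⁻¹' ((fun g : ℂ × ℝ => (c * g.1, g.2 + a)) ⁻¹' S))
      = ENNReal.ofReal ((‖c‖ ^ 2)⁻¹) * volume ((fun x => (x, y + a)) ⁻¹' S) := by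
    intro y
    have e : (fun x => (x, y)) ⁻¹' ((fun g : ℂ × ℝ => (c * g.1, g.2 + a)) ⁻¹' S)
        = (fun x : ℂ => c * x) ⁻¹' ((fun x => (x, y + a)) ⁻¹' S) := rfl
    rw [e, A9_mulpre c hc _ (measurable_prodMk_right hS)]
  simp_rw [h1]
  rw [lintegral_const_mul' _ _ ENNReal.ofReal_ne_top]
  congr 1
  exact lintegral_add_right_eq_self (fun y => volume ((fun x : ℂ => (x, y)) ⁻¹' S)) a

/-- the point `v` of (4.1) -/
noncomputable def A9_v (r τ s : ℝ) : ℂ := 1 + I * (r * τ : ℝ) + (r ^ 2 * s : ℝ)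

/-- the integrand of (4.1) -/
noncomputable def A9_P (ω : ℂ) (r : ℝ) (f0 f1 f2 : ℂ → ℂ) (x : ℂ) (θ τ s : ℝ) : ℂ :=
  (WW r τ s : ℂ) * (f0 x * f1 (x + U θ * A9_v r τ s) * f2 (x + ω * (U θ * A9_v r τ s)))

theorem A9_P_meas (ω : ℂ) (r : ℝ) (f0 f1 f2 : ℂ → ℂ) (m0 : Measurable f0) (m1 : Measurable f1)
    (m2 : Measurable f2) :
    Measurable (fun z : ℂ × ℝ × ℝ × ℝ => A9_P ω r f0 f1 f2 z.1 z.2.1 z.2.2.1 z.2.2.2) := by
  unfold A9_P A9_v
  have hW : Measurable (fun z : ℂ × ℝ × ℝ × ℝ => WW r z.2.2.1 z.2.2.2) :=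
    (A9_meas_WW r).comp (by fun_prop : Measurable (fun z : ℂ × ℝ × ℝ × ℝ => (z.2.2.1, z.2.2.2)))
  have hU : Measurable (fun z : ℂ × ℝ × ℝ × ℝ => U z.2.1) :=
    measurable_U.comp (by fun_prop : Measurable (fun z : ℂ × ℝ × ℝ × ℝ => z.2.1))
  have hv : Measurable (fun z : ℂ × ℝ × ℝ × ℝ =>
      (1 + I * (r * z.2.2.1 : ℝ) + (r ^ 2 * z.2.2.2 : ℝ) : ℂ)) := by fun_prop
  have hUv := hU.mul hv
  have hf0 : Measurable (fun z : ℂ × ℝ × ℝ × ℝ => f0 z.1) := m0.comp measurable_fst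
  have hf1 : Measurable (fun z : ℂ × ℝ × ℝ × ℝ => f1 (z.1 + U z.2.1 *
      (1 + I * (r * z.2.2.1 : ℝ) + (r ^ 2 * z.2.2.2 : ℝ) : ℂ))) := m1.comp (measurable_fst.add hUv)
  have hf2 : Measurable (fun z : ℂ × ℝ × ℝ × ℝ => f2 (z.1 + ω * (U z.2.1 *
      (1 + I * (r * z.2.2.1 : ℝ) + (r ^ 2 * z.2.2.2 : ℝ) : ℂ)))) :=
    m2.comp (measurable_fst.add (hUv.const_mul ω))
  exact (Complex.measurable_ofReal.comp hW).mul ((hf0.mul hf1).mul hf2)

theorem A9_P_le (ω : ℂ) (r : ℝ) (f0 f1 f2 : ℂ → ℂ) (b0 : ∀ x, ‖f0 x‖ ≤ 1) (b1 : ∀ x, ‖f1 x‖ ≤ 1)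
    (b2 : ∀ x, ‖f2 x‖ ≤ 1) (x : ℂ) (θ τ s : ℝ) : ‖A9_P ω r f0 f1 f2 x θ τ s‖ ≤ 1 := by
  unfold A9_P
  rw [norm_mul, norm_mul, norm_mul, norm_real, Real.norm_eq_abs]
  have h := A9_WW_le r τ s
  have := b0 x
  have := b1 (x + U θ * A9_v r τ s)
  have := b2 (x + ω * (U θ * A9_v r τ s))
  have h1 : ‖f0 x‖ * ‖f1 (x + U θ * A9_v r τ s)‖ * ‖f2 (x + ω * (U θ * A9_v r τ s))‖ ≤ 1 := by
    have h2 : ‖f0 x‖ * ‖f1 (x + U θ * A9_v r τ s)‖ ≤ 1 := by
      apply mul_le_one₀ <;> first | assumption | positivity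
    apply mul_le_one₀ <;> first | assumption | positivity
  apply mul_le_one₀ <;> first | assumption | positivity

theorem A9_mint {α β : Type*} [MeasurableSpace α] [MeasurableSpace β] {ν : Measure β} [SFinite ν]
    {f : α → β → ℂ} (hf : Measurable (Function.uncurry f)) : Measurable (fun a => ∫ b, f a b ∂ν) :=
  (hf.stronglyMeasurable.integral_prod_right).measurable

/-- the integral over `(τ,s)` -/
noncomputable def A9_E (ω : ℂ) (r : ℝ) (f0 f1 f2 : ℂ → ℂ) (t t' : ℝ) (x : ℂ) (θ : ℝ) : ℂ :=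
  ∫ w, A9_P ω r f0 f1 f2 x θ w.1 w.2 ∂((volume.restrict (Ioc t t')).prod
    (volume.restrict (Icc (-1 : ℝ) 1)))

theorem A9_E_meas (ω : ℂ) (r : ℝ) (f0 f1 f2 : ℂ → ℂ) (m0 : Measurable f0) (m1 : Measurable f1)
    (m2 : Measurable f2) (t t' : ℝ) :
    Measurable (fun z : ℂ × ℝ => A9_E ω r f0 f1 f2 t t' z.1 z.2) := by
  have hf : Measurable (fun z : (ℂ × ℝ) × (ℝ × ℝ) => (z.1.1, z.1.2, z.2.1, z.2.2)) := by fun_prop
  have h2 := (A9_P_meas ω r f0 f1 f2 m0 m1 m2).comp hf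
  have h3 : Measurable (Function.uncurry (fun (z : ℂ × ℝ) (w : ℝ × ℝ) =>
      A9_P ω r f0 f1 f2 z.1 z.2 w.1 w.2)) := h2
  exact A9_mint h3

theorem A9_E_le (ω : ℂ) (r : ℝ) (f0 f1 f2 : ℂ → ℂ) (b0 : ∀ x, ‖f0 x‖ ≤ 1) (b1 : ∀ x, ‖f1 x‖ ≤ 1)
    (b2 : ∀ x, ‖f2 x‖ ≤ 1) (t h' : ℝ) (hh : 0 ≤ h') (x : ℂ) (θ : ℝ) :
    ‖A9_E ω r f0 f1 f2 t (t + h') x θ‖ ≤ 2 * h' := by
  unfold A9_E
  refine (A9_norm_int (fun w : ℝ × ℝ => A9_P_le ω r f0 f1 f2 b0 b1 b2 x θ w.1 w.2)).trans ?_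
  rw [one_mul, ← univ_prod_univ, measureReal_prod_prod, measureReal_restrict_apply_univ,
    measureReal_restrict_apply_univ, Real.volume_real_Ioc_of_le (by linarith),
    Real.volume_real_Icc_of_le (by norm_num)]
  apply le_of_eq; ring

theorem A9_E_supp (ω : ℂ) (r R : ℝ) (f0 f1 f2 : ℂ → ℂ) (s0 : ∀ x, R < ‖x‖ → f0 x = 0)
    (t t' : ℝ) (x : ℂ) (θ : ℝ) (hx : R < ‖x‖) : A9_E ω r f0 f1 f2 t t' x θ = 0 := by
  unfold A9_E A9_P
  simp [s0 x hx]

/-- the local average -/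
noncomputable def A9_M (ω : ℂ) (r : ℝ) (f0 f1 f2 : ℂ → ℂ) (h t h' : ℝ) (x : ℂ) (θ : ℝ) : ℂ :=
  ((h ^ 2 * h')⁻¹ : ℝ) * ∫ p, A9_E ω r f0 f1 f2 t (t + h') (x + ((p.1 : ℂ) + p.2 * I)) θ
    ∂((volume.restrict (Ioc 0 h)).prod (volume.restrict (Ioc (0 : ℝ) h)))

theorem A9_M_meas (ω : ℂ) (r : ℝ) (f0 f1 f2 : ℂ → ℂ) (m0 : Measurable f0) (m1 : Measurable f1)
    (m2 : Measurable f2) (h t h' : ℝ) :
    Measurable (fun z : ℂ × ℝ => A9_M ω r f0 f1 f2 h t h' z.1 z.2) := by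
  have hf : Measurable (fun z : (ℂ × ℝ) × (ℝ × ℝ) => (z.1.1 + ((z.2.1 : ℂ) + z.2.2 * I), z.1.2)) := by
    fun_prop
  have h2 := (A9_E_meas ω r f0 f1 f2 m0 m1 m2 t (t + h')).comp hf
  have h3 : Measurable (Function.uncurry (fun (z : ℂ × ℝ) (p : ℝ × ℝ) =>
      A9_E ω r f0 f1 f2 t (t + h') (z.1 + ((p.1 : ℂ) + p.2 * I)) z.2)) := h2
  exact (A9_mint h3).const_mul _

theorem A9_M_le (ω : ℂ) (r : ℝ) (f0 f1 f2 : ℂ → ℂ) (b0 : ∀ x, ‖f0 x‖ ≤ 1) (b1 : ∀ x, ‖f1 x‖ ≤ 1)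
    (b2 : ∀ x, ‖f2 x‖ ≤ 1) (h t h' : ℝ) (hh : 0 < h) (hh' : 0 < h') (x : ℂ) (θ : ℝ) :
    ‖A9_M ω r f0 f1 f2 h t h' x θ‖ ≤ 2 := by
  unfold A9_M
  rw [norm_mul, norm_real, Real.norm_eq_abs, abs_of_pos (by positivity)]
  have h1 := A9_norm_int (μ := (volume.restrict (Ioc 0 h)).prod (volume.restrict (Ioc (0 : ℝ) h)))
    (fun p : ℝ × ℝ => A9_E_le ω r f0 f1 f2 b0 b1 b2 t h' hh'.le (x + ((p.1 : ℂ) + p.2 * I)) θ)
  rw [← univ_prod_univ, measureReal_prod_prod, measureReal_restrict_apply_univ,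
    Real.volume_real_Ioc_of_le hh.le] at h1
  calc (h ^ 2 * h')⁻¹ * _ ≤ (h ^ 2 * h')⁻¹ * (2 * h' * ((h - 0) * (h - 0))) :=
        mul_le_mul_of_nonneg_left h1 (by positivity)
    _ = 2 := by field_simp; ring

/-- the averaging step -/
theorem A9_avg (ω : ℂ) (r : ℝ) (hr : 0 < r) (hr1 : r ≤ 1) (R : ℝ) (hR : 0 ≤ R) (f0 f1 f2 : ℂ → ℂ)
    (h0 : BF R f0) (m1 : Measurable f1) (m2 : Measurable f2) (b1 : ∀ x, ‖f1 x‖ ≤ 1)
    (b2 : ∀ x, ‖f2 x‖ ≤ 1) (ε : ℝ) (hε : ε ≤ ‖TK ω (kD r) f0 f1 f2‖) (K : ℕ) (hK : 0 < K)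
    (h : ℝ) (hh : 0 < h) (hh1 : h ≤ 1) :
    ∃ α t : ℝ, 0 ≤ t ∧ t + 2 / K ≤ 2 ∧
      ε / 14 ≤ ∫ g, ‖A9_M ω r f0 f1 f2 h t (2 / K) g.1 g.2‖
        ∂((volume.restrict (Metric.closedBall (0 : ℂ) (R + 2))).prod
          (volume.restrict (Ioc α (α + 2 * Real.pi / 7)))) := by
  have m0 := h0.meas
  have b0 := h0.le
  set P := A9_P ω r f0 f1 f2 with hP
  have hPm := A9_P_meas ω r f0 f1 f2 m0 m1 m2
  rw [← hP] at hPm
  have hPb := A9_P_le ω r f0 f1 f2 b0 b1 b2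
  rw [← hP] at hPb
  have hK' : (0:ℝ) < K := by exact_mod_cast hK
  set μx : Measure ℂ := volume.restrict (Metric.closedBall (0 : ℂ) (R + 2)) with hμx
  have hfx : IsFiniteMeasure μx := by
    constructor
    rw [hμx, Measure.restrict_apply_univ]
    exact measure_closedBall_lt_top
  set μs : Measure ℝ := volume.restrict (Icc (-1 : ℝ) 1) with hμs
  -- integrals over the plane
  have hint : ∀ F : ℂ → ℂ, (∀ x, R + 2 < ‖x‖ → F x = 0) → ∫ x, F x ∂μx = ∫ x, F x := by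
    intro F hF
    apply setIntegral_eq_integral_of_forall_compl_eq_zero
    intro x hx
    apply hF
    simpa using hx
  -- step 1
  set g : ℝ → ℝ → ℂ := fun θ τ => ∫ s, ∫ x, P x θ τ s ∂μx ∂μs with hg
  have hgm2 : Measurable (fun z : ((ℝ × ℝ) × ℝ) => ∫ x, P x z.1.1 z.1.2 z.2 ∂μx) := by
    have hf : Measurable (fun z : ((ℝ × ℝ) × ℝ) × ℂ => (z.2, z.1.1.1, z.1.1.2, z.1.2)) := by fun_prop
    have h2 := hPm.comp hf
    have h3 : Measurable (Function.uncurry (fun (z : (ℝ × ℝ) × ℝ) (x : ℂ) => P x z.1.1 z.1.2 z.2)) := h2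
    exact A9_mint h3
  have hgm : Measurable (Function.uncurry g) := by
    have : Measurable (fun z : ℝ × ℝ => ∫ s, ∫ x, P x z.1 z.2 s ∂μx ∂μs) :=
      A9_mint hgm2
    exact this
  have hgb : ∀ θ τ, ‖g θ τ‖ ≤ 1 * μx.real univ * μs.real univ := by
    intro θ τ
    exact A9_norm_int (fun s => A9_norm_int (fun x => hPb x θ τ s))
  have step1 : TK ω (kD r) f0 f1 f2 = ∫ θ in Ioc 0 ((7:ℕ) * (2 * Real.pi / 7)), ∫ τ in Ioc (0:ℝ) 2, g θ τ := by
    have e7 : ((7:ℕ) : ℝ) * (2 * Real.pi / 7) = 2 * Real.pi := by push_cast; ring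
    rw [e7, form41 ω r hr hr1 R f0 f1 f2 h0 m1 m2 b1 b2,
      intervalIntegral.integral_of_le (by positivity)]
    apply integral_congr_ae
    refine ae_of_all _ (fun θ => ?_)
    simp only
    have e1 : ∀ τ s : ℝ, (WW r τ s : ℂ) * ∫ x : ℂ, f0 x * f1 (x + U θ * (1 + I * (r * τ : ℝ) + (r ^ 2 * s : ℝ))) *
        f2 (x + ω * (U θ * (1 + I * (r * τ : ℝ) + (r ^ 2 * s : ℝ)))) = ∫ x, P x θ τ s ∂μx := by
      intro τ s
      rw [hint]
      · rw [hP]; unfold A9_P A9_v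
        rw [integral_const_mul]
      · intro x hx
        rw [hP]; unfold A9_P
        rw [h0.supp x (by linarith)]; simp
    simp_rw [e1]
    have hz : ∀ τ s : ℝ, WW r τ s = 0 → ∫ x, P x θ τ s ∂μx = 0 := by
      intro τ s h
      rw [← e1, h]; simp
    have e2 : ∀ τ : ℝ, ∫ s, ∫ x, P x θ τ s ∂μx = g θ τ := by
      intro τ
      rw [hg, hμs]
      symm
      apply setIntegral_eq_integral_of_forall_compl_eq_zero
      intro s hs
      apply hz
      by_contra hne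
      have := (W1 r τ s hr hr1 hne).2.2
      apply hs
      rw [abs_le] at this
      exact this
    simp_rw [e2]
    rw [← integral_Icc_eq_integral_Ioc]
    symm
    apply setIntegral_eq_integral_of_forall_compl_eq_zero
    intro τ hτ
    rw [hg]
    simp only
    have : ∀ s, ∫ x, P x θ τ s ∂μx = 0 := by
      intro s
      apply hz
      by_contra hne
      have := W1 r τ s hr hr1 hne
      exact hτ ⟨this.1, this.2.1⟩
    simp_rw [this]; simp
  -- step 2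
  rw [step1] at hε
  have hGb : ∀ θ, ‖∫ τ in Ioc (0:ℝ) 2, g θ τ‖ ≤ 1 * μx.real univ * μs.real univ * (volume.restrict (Ioc (0:ℝ) 2)).real univ :=
    fun θ => A9_norm_int (fun τ => hgb θ τ)
  obtain ⟨j, _, hj⟩ := A9_pigeon (fun θ => ∫ τ in Ioc (0:ℝ) 2, g θ τ) _ (2 * Real.pi / 7) ε (by positivity) 7
    (by norm_num) (A9_mint hgm) hGb hε
  set α : ℝ := j * (2 * Real.pi / 7) with hα
  -- step 3
  rw [A9_swap hgm hgb] at hj
  have hgm' : Measurable (Function.uncurry (fun τ θ => g θ τ)) := hgm.comp measurable_swap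
  have e2K : (2:ℝ) = K * (2 / K) := by field_simp
  rw [show (Ioc (0:ℝ) 2) = Ioc (0:ℝ) (K * (2 / K)) from by rw [← e2K]] at hj
  obtain ⟨k, hk, hk2⟩ := A9_pigeon (fun τ => ∫ θ in Ioc α (α + 2 * Real.pi / 7), g θ τ) _ (2 / K) (ε / (7:ℕ)) (by positivity) K
    hK (A9_mint hgm') (fun τ => A9_norm_int (fun θ => hgb θ τ)) hj
  set t : ℝ := k * (2 / K) with ht
  refine ⟨α, t, by positivity, ?_, ?_⟩
  · have h1 : ((k:ℝ) + 1) ≤ K := by exact_mod_cast hk
    rw [ht]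
    have : (k:ℝ) * (2 / K) + 2 / K = (k + 1) * 2 / K := by ring
    rw [this, div_le_iff₀ hK']; linarith
  -- step 4
  set μJ : Measure ℝ := volume.restrict (Ioc α (α + 2 * Real.pi / 7)) with hμJ
  set μI : Measure ℝ := volume.restrict (Ioc t (t + 2 / K)) with hμI
  have step4 : ∫ τ, ∫ θ, g θ τ ∂μJ ∂μI = ∫ θ, ∫ x, A9_E ω r f0 f1 f2 t (t + 2 / K) x θ ∂μx ∂μJ := by
    rw [A9_swap hgm' (fun τ θ => hgb θ τ)]
    apply integral_congr_ae
    refine ae_of_all _ (fun θ => ?_)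
    simp only
    have hf : Measurable (fun z : (ℝ × ℝ) × ℂ => (z.2, θ, z.1.1, z.1.2)) := by fun_prop
    have hf2 := hPm.comp hf
    have hm2 : Measurable (Function.uncurry (fun (w : ℝ × ℝ) x => P x θ w.1 w.2)) := hf2
    have hm1 : Measurable (Function.uncurry (fun τ s => ∫ x, P x θ τ s ∂μx)) :=
      A9_mint hm2
    have h1 : ∫ τ, g θ τ ∂μI = ∫ w, ∫ x, P x θ w.1 w.2 ∂μx ∂(μI.prod μs) :=
      (A9_prod hm1 (fun τ s => A9_norm_int (fun x => hPb x θ τ s))).symm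
    rw [h1]
    rw [A9_swap hm2 (fun w x => hPb x θ w.1 w.2)]
    rfl
  change ε / (7:ℕ) / K ≤ ‖∫ τ, ∫ θ, g θ τ ∂μJ ∂μI‖ at hk2
  rw [step4] at hk2
  -- step 5
  set μh : Measure ℝ := volume.restrict (Ioc 0 h) with hμh
  have hEm := A9_E_meas ω r f0 f1 f2 m0 m1 m2 t (t + 2 / K)
  have hEb := A9_E_le ω r f0 f1 f2 b0 b1 b2 t (2 / K) (by positivity)
  have step5 : ∀ θ, ∫ x, A9_E ω r f0 f1 f2 t (t + 2 / K) x θ ∂μx
      = ((2 / K : ℝ) : ℂ) * ∫ x, A9_M ω r f0 f1 f2 h t (2 / K) x θ ∂μx := by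
    intro θ
    have h1 : ∀ p : ℝ × ℝ, p.1 ∈ Ioc 0 h → p.2 ∈ Ioc 0 h →
        ∫ x, A9_E ω r f0 f1 f2 t (t + 2 / K) (x + ((p.1 : ℂ) + p.2 * I)) θ ∂μx
          = ∫ x, A9_E ω r f0 f1 f2 t (t + 2 / K) x θ ∂μx := by
      intro p hp1 hp2
      rw [hint, hint, integral_add_right_eq_self (fun x => A9_E ω r f0 f1 f2 t (t + 2 / K) x θ)]
      · intro x hx; exact A9_E_supp ω r R f0 f1 f2 h0.supp _ _ x θ (by linarith)
      · intro x hx
        apply A9_E_supp ω r R f0 f1 f2 h0.supp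
        have hpn : ‖((p.1 : ℂ) + p.2 * I)‖ ≤ 2 := by
          refine (norm_add_le _ _).trans ?_
          rw [norm_mul, norm_I, mul_one, norm_real, norm_real, Real.norm_eq_abs, Real.norm_eq_abs,
            abs_of_pos hp1.1, abs_of_pos hp2.1]
          linarith [hp1.2, hp2.2]
        have := norm_sub_le (x + ((p.1 : ℂ) + p.2 * I)) ((p.1 : ℂ) + p.2 * I)
        rw [add_sub_cancel_right] at this
        linarith
    have h2 : ∫ p, ∫ x, A9_E ω r f0 f1 f2 t (t + 2 / K) (x + ((p.1 : ℂ) + p.2 * I)) θ ∂μx ∂(μh.prod μh)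
        = ∫ p, (∫ x, A9_E ω r f0 f1 f2 t (t + 2 / K) x θ ∂μx) ∂(μh.prod μh) := by
      have hres : μh.prod μh = (volume : Measure (ℝ × ℝ)).restrict (Ioc 0 h ×ˢ Ioc 0 h) := by
        rw [hμh, Measure.prod_restrict]; rfl
      rw [hres]
      apply setIntegral_congr_fun (measurableSet_Ioc.prod measurableSet_Ioc)
      intro p hp
      exact h1 p hp.1 hp.2
    have hf : Measurable (fun z : (ℝ × ℝ) × ℂ => (z.2 + ((z.1.1 : ℂ) + z.1.2 * I), θ)) := by fun_prop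
    have hf2 := hEm.comp hf
    have hm : Measurable (Function.uncurry (fun (p : ℝ × ℝ) (x : ℂ) =>
        A9_E ω r f0 f1 f2 t (t + 2 / K) (x + ((p.1 : ℂ) + p.2 * I)) θ)) := hf2
    rw [A9_swap hm (fun p x => hEb _ θ), integral_const] at h2
    have hv : (μh.prod μh).real univ = h ^ 2 := by
      rw [← univ_prod_univ, measureReal_prod_prod, hμh, measureReal_restrict_apply_univ,
        Real.volume_real_Ioc_of_le hh.le]; ring
    rw [hv] at h2
    unfold A9_M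
    rw [integral_const_mul, h2, Complex.real_smul]
    have hh0 : (h : ℂ) ≠ 0 := by exact_mod_cast hh.ne'
    have hK0 : (K : ℂ) ≠ 0 := by exact_mod_cast hK.ne'
    push_cast
    field_simp
  simp_rw [step5] at hk2
  rw [integral_const_mul, norm_mul, norm_real, Real.norm_eq_abs, abs_of_pos (by positivity)] at hk2
  -- step 6
  have hMm := A9_M_meas ω r f0 f1 f2 m0 m1 m2 h t (2 / K)
  have hMb := A9_M_le ω r f0 f1 f2 b0 b1 b2 h t (2 / K) hh (by positivity)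
  have step6 : ‖∫ θ, ∫ x, A9_M ω r f0 f1 f2 h t (2 / K) x θ ∂μx ∂μJ‖
      ≤ ∫ g, ‖A9_M ω r f0 f1 f2 h t (2 / K) g.1 g.2‖ ∂(μx.prod μJ) := by
    rw [← A9_prod' hMm hMb]
    exact norm_integral_le_integral_norm _
  have h7 : ε / (7:ℕ) / K ≤ 2 / K * ∫ g, ‖A9_M ω r f0 f1 f2 h t (2 / K) g.1 g.2‖ ∂(μx.prod μJ) :=
    hk2.trans (mul_le_mul_of_nonneg_left step6 (by positivity))
  have h8 : ε / (7:ℕ) / K = 2 / K * (ε / 14) := by push_cast; field_simp; ring
  rw [h8] at h7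
  exact le_of_mul_le_mul_left h7 (by positivity)

/-- the oscillatory integral in `(τ,s)` -/
noncomputable def A9_S (r t t' l m : ℝ) : ℂ :=
  ∫ w, (WW r w.1 w.2 : ℂ) * (Complex.exp ((w.1 * l : ℝ) * I) * Complex.exp ((w.2 * m : ℝ) * I))
    ∂((volume.restrict (Ioc t t')).prod (volume.restrict (Icc (-1 : ℝ) 1)))

/-- the oscillatory integral in `x'` -/
noncomputable def A9_X (h b : ℝ) : ℂ := ∫ p in Ioc 0 h, Complex.exp ((p * b : ℝ) * I)

/-- factorisation at a good point -/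
theorem A9_fact (ω : ℂ) (r ρ ρ1 h t h' : ℝ) (hρ : 0 < ρ) (hr : 0 < r) (hh' : 0 < h') (hh : 0 < h)
    (hρ1 : 2 * h + (1 + ‖ω‖) * (r * h' + r ^ 2) ≤ ρ1)
    (f0 f1 f2 : ℂ → ℂ) (a0 a1 a2 c0 c1 c2 : ℤ × ℤ → ℂ)
    (e0 : ∀ x, f0 x = c0 (cell ρ x) * Complex.exp ((ip (a0 (cell ρ x)) x : ℂ) * I))
    (e1 : ∀ x, f1 x = c1 (cell ρ x) * Complex.exp ((ip (a1 (cell ρ x)) x : ℂ) * I))
    (e2 : ∀ x, f2 x = c2 (cell ρ x) * Complex.exp ((ip (a2 (cell ρ x)) x : ℂ) * I))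
    (b0 : ∀ n, ‖c0 n‖ ≤ 1) (b1 : ∀ n, ‖c1 n‖ ≤ 1) (b2 : ∀ n, ‖c2 n‖ ≤ 1)
    (x : ℂ) (θ : ℝ) (d0 : deep ρ ρ1 x) (d1 : deep ρ ρ1 (x + (1 + I * (r * t : ℝ)) * U θ))
    (d2 : deep ρ ρ1 (x + (ω * (1 + I * (r * t : ℝ))) * U θ))
    (A B : ℂ) (hA : A = a1 (cell ρ (x + (1 + I * (r * t : ℝ)) * U θ))
        + conj ω * a2 (cell ρ (x + (ω * (1 + I * (r * t : ℝ))) * U θ)))
    (hB : B = a0 (cell ρ x) + a1 (cell ρ (x + (1 + I * (r * t : ℝ)) * U θ))
        + a2 (cell ρ (x + (ω * (1 + I * (r * t : ℝ))) * U θ))) :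
    ‖A9_M ω r f0 f1 f2 h t h' x θ‖ ≤ (h ^ 2 * h')⁻¹ * (‖A9_X h B.re‖ * ‖A9_X h B.im‖)
      * ‖A9_S r t (t + h') (r * ip A (I * U θ)) (r ^ 2 * ip A (U θ))‖ := by
  set n0 := cell ρ x with hn0
  set n1 := cell ρ (x + (1 + I * (r * t : ℝ)) * U θ) with hn1
  set n2 := cell ρ (x + (ω * (1 + I * (r * t : ℝ))) * U θ) with hn2
  set l := r * ip A (I * U θ) with hl
  set m := r ^ 2 * ip A (U θ) with hm
  -- the constant
  set κ : ℂ := c0 n0 * c1 n1 * c2 n2 * Complex.exp (((ip B x + ip A (U θ) : ℝ) : ℂ) * I) with hκ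
  have hκ1 : ‖κ‖ ≤ 1 := by
    rw [hκ, norm_mul, Complex.norm_exp_ofReal_mul_I, mul_one, norm_mul, norm_mul]
    have := b0 n0
    have := b1 n1
    have := b2 n2
    have h2 : ‖c0 n0‖ * ‖c1 n1‖ ≤ 1 := by
      apply mul_le_one₀ <;> first | assumption | positivity
    apply mul_le_one₀ <;> first | assumption | positivity
  have hω1 : 0 ≤ (1 + ‖ω‖) * (r * h' + r ^ 2) := by positivity
  have key : ∀ p1 p2 τ s : ℝ, p1 ∈ Ioc 0 h → p2 ∈ Ioc 0 h → τ ∈ Ioc t (t + h') → s ∈ Icc (-1 : ℝ) 1 →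
      A9_P ω r f0 f1 f2 (x + ((p1 : ℂ) + p2 * I)) θ τ s
      = (κ * (Complex.exp ((p1 * B.re : ℝ) * I) * Complex.exp ((p2 * B.im : ℝ) * I))) *
        ((WW r τ s : ℂ) * (Complex.exp ((τ * l : ℝ) * I) * Complex.exp ((s * m : ℝ) * I))) := by
    intro p1 p2 τ s hp1 hp2 hτ hs
    have hpn : ‖((p1 : ℂ) + p2 * I)‖ ≤ 2 * h := by
      refine (norm_add_le _ _).trans ?_
      rw [norm_mul, norm_I, mul_one, norm_real, norm_real, Real.norm_eq_abs, Real.norm_eq_abs,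
        abs_of_pos hp1.1, abs_of_pos hp2.1]
      linarith [hp1.2, hp2.2]
    have hv : A9_v r τ s = (1 + I * (r * t : ℝ)) + (I * (r * (τ - t) : ℝ) + (r ^ 2 * s : ℝ)) := by
      unfold A9_v; push_cast; ring
    set z : ℂ := I * (r * (τ - t) : ℝ) + (r ^ 2 * s : ℝ) with hz
    have hzn : ‖z‖ ≤ r * h' + r ^ 2 := by
      refine (norm_add_le _ _).trans ?_
      rw [norm_mul, norm_I, one_mul, norm_real, norm_real, Real.norm_eq_abs, Real.norm_eq_abs,
        abs_mul, abs_mul, abs_of_pos hr, abs_of_nonneg (sq_nonneg r),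
        abs_of_pos (by linarith [hτ.1] : 0 < τ - t)]
      have h1 : |s| ≤ 1 := abs_le.mpr hs
      have h2 : τ - t ≤ h' := by linarith [hτ.2]
      nlinarith [sq_nonneg r, mul_le_mul_of_nonneg_left h2 hr.le, mul_le_mul_of_nonneg_left h1 (sq_nonneg r)]
    have g0 : cell ρ (x + ((p1 : ℂ) + p2 * I)) = n0 :=
      A9_deep_cell ρ ρ1 hρ x _ d0 (by linarith)
    have g1 : cell ρ (x + ((p1 : ℂ) + p2 * I) + U θ * A9_v r τ s) = n1 := by
      have e : x + ((p1 : ℂ) + p2 * I) + U θ * A9_v r τ s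
          = (x + (1 + I * (r * t : ℝ)) * U θ) + (((p1 : ℂ) + p2 * I) + U θ * z) := by rw [hv]; ring
      rw [e]
      apply A9_deep_cell ρ ρ1 hρ _ _ d1
      refine (norm_add_le _ _).trans ?_
      rw [norm_mul, norm_U, one_mul]
      have : 0 ≤ ‖ω‖ * (r * h' + r ^ 2) := by positivity
      linarith
    have g2 : cell ρ (x + ((p1 : ℂ) + p2 * I) + ω * (U θ * A9_v r τ s)) = n2 := by
      have e : x + ((p1 : ℂ) + p2 * I) + ω * (U θ * A9_v r τ s)
          = (x + (ω * (1 + I * (r * t : ℝ))) * U θ) + (((p1 : ℂ) + p2 * I) + ω * (U θ * z)) := by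
        rw [hv]; ring
      rw [e]
      apply A9_deep_cell ρ ρ1 hρ _ _ d2
      refine (norm_add_le _ _).trans ?_
      rw [norm_mul, norm_mul, norm_U, one_mul]
      have h3 : 0 ≤ r * h' + r ^ 2 := by positivity
      have : ‖ω‖ * ‖z‖ ≤ ‖ω‖ * (r * h' + r ^ 2) := mul_le_mul_of_nonneg_left hzn (norm_nonneg _)
      linarith
    unfold A9_P
    rw [e0, e1, e2, g0, g1, g2, hκ]
    have hexp : ip (a0 n0) (x + ((p1 : ℂ) + p2 * I)) + ip (a1 n1) (x + ((p1 : ℂ) + p2 * I) + U θ * A9_v r τ s)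
        + ip (a2 n2) (x + ((p1 : ℂ) + p2 * I) + ω * (U θ * A9_v r τ s))
        = (ip B x + ip A (U θ)) + p1 * B.re + p2 * B.im + τ * l + s * m := by
      rw [hl, hm, hA, hB]
      unfold A9_v ip
      simp only [add_re, add_im, mul_re, mul_im, ofReal_re, ofReal_im, I_re, I_im, one_re, one_im,
        conj_re, conj_im]
      ring
    have hexp2 : Complex.exp ((ip (a0 n0) (x + ((p1 : ℂ) + p2 * I)) : ℂ) * I)
        * Complex.exp ((ip (a1 n1) (x + ((p1 : ℂ) + p2 * I) + U θ * A9_v r τ s) : ℂ) * I)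
        * Complex.exp ((ip (a2 n2) (x + ((p1 : ℂ) + p2 * I) + ω * (U θ * A9_v r τ s)) : ℂ) * I)
        = Complex.exp (((ip B x + ip A (U θ) : ℝ) : ℂ) * I) * Complex.exp ((p1 * B.re : ℝ) * I)
          * Complex.exp ((p2 * B.im : ℝ) * I) * Complex.exp ((τ * l : ℝ) * I) * Complex.exp ((s * m : ℝ) * I) := by
      rw [← Complex.exp_add, ← Complex.exp_add, ← Complex.exp_add, ← Complex.exp_add, ← Complex.exp_add,
        ← Complex.exp_add]
      congr 1
      have h5 := congrArg (fun y : ℝ => (y : ℂ) * I) hexp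
      beta_reduce at h5
      push_cast at h5 ⊢
      linear_combination h5
    linear_combination ((WW r τ s : ℂ) * (c0 n0 * c1 n1 * c2 n2)) * hexp2
  -- integrate in (τ,s)
  have keyE : ∀ p : ℝ × ℝ, p.1 ∈ Ioc 0 h → p.2 ∈ Ioc 0 h →
      A9_E ω r f0 f1 f2 t (t + h') (x + ((p.1 : ℂ) + p.2 * I)) θ
      = (κ * (Complex.exp ((p.1 * B.re : ℝ) * I) * Complex.exp ((p.2 * B.im : ℝ) * I)))
        * A9_S r t (t + h') l m := by
    intro p hp1 hp2
    unfold A9_E A9_S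
    rw [← integral_const_mul, Measure.prod_restrict]
    apply setIntegral_congr_fun (measurableSet_Ioc.prod measurableSet_Icc)
    intro w hw
    exact key p.1 p.2 w.1 w.2 hp1 hp2 hw.1 hw.2
  have keyM : A9_M ω r f0 f1 f2 h t h' x θ
      = ((h ^ 2 * h')⁻¹ : ℝ) * (κ * (A9_X h B.re * A9_X h B.im) * A9_S r t (t + h') l m) := by
    unfold A9_M A9_X
    congr 1
    rw [← integral_prod_mul (μ := volume.restrict (Ioc 0 h)) (ν := volume.restrict (Ioc 0 h))
      (fun p : ℝ => Complex.exp ((p * B.re : ℝ) * I)) (fun p : ℝ => Complex.exp ((p * B.im : ℝ) * I)),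
      ← integral_const_mul, ← integral_mul_const, Measure.prod_restrict]
    apply setIntegral_congr_fun (measurableSet_Ioc.prod measurableSet_Ioc)
    intro p hp
    exact keyE p hp.1 hp.2
  clear_value κ
  rw [keyM, norm_mul, norm_mul, norm_mul, norm_mul, norm_real, Real.norm_eq_abs, abs_of_pos (by positivity)]
  have hX : 0 ≤ ‖A9_X h B.re‖ * ‖A9_X h B.im‖ := by positivity
  have h6 : ‖κ‖ * (‖A9_X h B.re‖ * ‖A9_X h B.im‖) ≤ ‖A9_X h B.re‖ * ‖A9_X h B.im‖ :=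
    mul_le_of_le_one_left hX hκ1
  calc (h ^ 2 * h')⁻¹ * (‖κ‖ * (‖A9_X h B.re‖ * ‖A9_X h B.im‖) * ‖A9_S r t (t + h') l m‖)
      ≤ (h ^ 2 * h')⁻¹ * ((‖A9_X h B.re‖ * ‖A9_X h B.im‖) * ‖A9_S r t (t + h') l m‖) := by gcongr
    _ = _ := by ring

theorem A9_X_le (h b : ℝ) (hh : 0 < h) : ‖A9_X h b‖ ≤ h := by
  unfold A9_X
  have h1 := A9_norm_int (μ := volume.restrict (Ioc 0 h)) (f := fun p : ℝ => Complex.exp ((p * b : ℝ) * I))
    (C := 1) (fun p => by rw [Complex.norm_exp_ofReal_mul_I])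
  rw [measureReal_restrict_apply_univ, Real.volume_real_Ioc_of_le hh.le] at h1
  linarith

theorem A9_X_le2 (h b : ℝ) (hh : 0 < h) (hb : b ≠ 0) : ‖A9_X h b‖ ≤ 2 / |b| :=
  A9_osc_interval 0 h b hb hh.le

theorem A9_S_meas (r l m : ℝ) : Measurable (Function.uncurry (fun τ s : ℝ =>
    (WW r τ s : ℂ) * (Complex.exp ((τ * l : ℝ) * I) * Complex.exp ((s * m : ℝ) * I)))) := by
  have h1 := Complex.measurable_ofReal.comp (A9_meas_WW r)
  have h2 : Measurable (fun z : ℝ × ℝ => Complex.exp ((z.1 * l : ℝ) * I) * Complex.exp ((z.2 * m : ℝ) * I)) := by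
    fun_prop
  exact h1.mul h2

theorem A9_S_bd (r l m τ s : ℝ) : ‖(WW r τ s : ℂ) * (Complex.exp ((τ * l : ℝ) * I) * Complex.exp ((s * m : ℝ) * I))‖
    ≤ 1 := by
  rw [norm_mul, norm_mul, Complex.norm_exp_ofReal_mul_I, Complex.norm_exp_ofReal_mul_I, norm_real,
    Real.norm_eq_abs, mul_one, mul_one]
  exact A9_WW_le r τ s

theorem A9_S_le (r t h' l m : ℝ) (hh' : 0 < h') : ‖A9_S r t (t + h') l m‖ ≤ 2 * h' := by
  unfold A9_S
  refine (A9_norm_int (fun w : ℝ × ℝ => A9_S_bd r l m w.1 w.2)).trans ?_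
  rw [one_mul, ← univ_prod_univ, measureReal_prod_prod, measureReal_restrict_apply_univ,
    measureReal_restrict_apply_univ, Real.volume_real_Ioc_of_le (by linarith),
    Real.volume_real_Icc_of_le (by norm_num)]
  apply le_of_eq; ring

/-- (ii) -/
theorem A9_S_le_l (r t h' l m : ℝ) (hr : 0 < r) (hr1 : r ≤ 1) (hl : l ≠ 0) :
    ‖A9_S r t (t + h') l m‖ ≤ 8 / |l| := by
  unfold A9_S
  rw [A9_prod' (A9_S_meas r l m) (fun τ s => A9_S_bd r l m τ s)]
  have h1 : ∀ s : ℝ, ‖∫ τ in Ioc t (t + h'), (WW r τ s : ℂ) *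
      (Complex.exp ((τ * l : ℝ) * I) * Complex.exp ((s * m : ℝ) * I))‖ ≤ 4 / |l| := by
    intro s
    have e : ∀ τ : ℝ, (WW r τ s : ℂ) * (Complex.exp ((τ * l : ℝ) * I) * Complex.exp ((s * m : ℝ) * I))
        = ((WW r τ s : ℂ) * Complex.exp ((τ * l : ℝ) * I)) * Complex.exp ((s * m : ℝ) * I) := by
      intro τ; ring
    simp_rw [e]
    rw [integral_mul_const, norm_mul, Complex.norm_exp_ofReal_mul_I, mul_one]
    exact A9_osc_weight (fun τ => WW r τ s) (Ioc t (t + h')) ordConnected_Ioc 0 2 t (t + h') l hl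
      Ioc_subset_Icc_self (W2 r s hr hr1)
  have h2 := A9_norm_int (μ := volume.restrict (Icc (-1 : ℝ) 1)) h1
  rw [measureReal_restrict_apply_univ, Real.volume_real_Icc_of_le (by norm_num)] at h2
  refine h2.trans (le_of_eq ?_)
  ring

/-- (iii) -/
theorem A9_S_le_m (r t h' l m : ℝ) (hr : 0 < r) (hr1 : r ≤ 1) (hh' : 0 < h') (hm : m ≠ 0) :
    ‖A9_S r t (t + h') l m‖ ≤ h' * (4 / |m|) := by
  unfold A9_S
  rw [A9_prod (A9_S_meas r l m) (fun τ s => A9_S_bd r l m τ s)]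
  have h1 : ∀ τ : ℝ, ‖∫ s in Icc (-1 : ℝ) 1, (WW r τ s : ℂ) *
      (Complex.exp ((τ * l : ℝ) * I) * Complex.exp ((s * m : ℝ) * I))‖ ≤ 4 / |m| := by
    intro τ
    have e : ∀ s : ℝ, (WW r τ s : ℂ) * (Complex.exp ((τ * l : ℝ) * I) * Complex.exp ((s * m : ℝ) * I))
        = ((WW r τ s : ℂ) * Complex.exp ((s * m : ℝ) * I)) * Complex.exp ((τ * l : ℝ) * I) := by
      intro s; ring
    simp_rw [e]
    rw [integral_mul_const, norm_mul, Complex.norm_exp_ofReal_mul_I, mul_one]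
    exact A9_osc_weight (fun s => WW r τ s) (Icc (-1) 1) ordConnected_Icc (-1) 1 (-1) 1 m hm
      subset_rfl (W3 r τ hr hr1)
  have h2 := A9_norm_int (μ := volume.restrict (Ioc t (t + h'))) h1
  rw [measureReal_restrict_apply_univ, Real.volume_real_Ioc_of_le (by linarith)] at h2
  refine h2.trans (le_of_eq ?_)
  ring

/-- (iv) -/
theorem A9_S_le_iv (C r t h' l m : ℝ) (hC : 0 < C)
    (hW5 : ∀ τ : ℝ, C * r ^ 2 ≤ |τ - 1| → |∫ s : ℝ, WW r τ s| ≤ C * r ^ 2)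
    (hr : 0 < r) (hr1 : r ≤ 1) (hh' : 0 < h') :
    ‖A9_S r t (t + h') l m‖ ≤ h' * (C * r ^ 2 + 2 * |m|) + 4 * (C * r ^ 2) := by
  unfold A9_S
  rw [A9_prod (A9_S_meas r l m) (fun τ s => A9_S_bd r l m τ s)]
  have hs : (volume.restrict (Icc (-1 : ℝ) 1)).real univ = 2 := by
    rw [measureReal_restrict_apply_univ, Real.volume_real_Icc_of_le (by norm_num)]; norm_num
  have hWm : ∀ τ : ℝ, Measurable (fun s => (WW r τ s : ℂ)) := fun τ =>
    Complex.measurable_ofReal.comp ((A9_meas_WW r).comp (measurable_const.prodMk measurable_id))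
  have hWb : ∀ τ s : ℝ, ‖(WW r τ s : ℂ)‖ ≤ 1 := by
    intro τ s; rw [norm_real, Real.norm_eq_abs]; exact A9_WW_le r τ s
  have h1 : ∀ τ : ℝ, ‖∫ s in Icc (-1 : ℝ) 1, (WW r τ s : ℂ) *
      (Complex.exp ((τ * l : ℝ) * I) * Complex.exp ((s * m : ℝ) * I))‖
      ≤ (C * r ^ 2 + 2 * |m|) + (Icc (1 - C * r ^ 2) (1 + C * r ^ 2)).indicator (fun _ => (2:ℝ)) τ := by
    intro τ
    by_cases hτ : τ ∈ Icc (1 - C * r ^ 2) (1 + C * r ^ 2)
    · rw [indicator_of_mem hτ]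
      have h2 := A9_norm_int (μ := volume.restrict (Icc (-1 : ℝ) 1)) (fun s => A9_S_bd r l m τ s)
      rw [hs] at h2
      have : 0 ≤ C * r ^ 2 + 2 * |m| := by positivity
      linarith
    · rw [indicator_of_notMem hτ, add_zero]
      have hτ' : C * r ^ 2 ≤ |τ - 1| := by
        by_contra hcon
        push Not at hcon
        rw [abs_lt] at hcon
        exact hτ ⟨by linarith, by linarith⟩
      have e : ∀ s : ℝ, (WW r τ s : ℂ) * (Complex.exp ((τ * l : ℝ) * I) * Complex.exp ((s * m : ℝ) * I))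
          = ((WW r τ s : ℂ) + (WW r τ s : ℂ) * (Complex.exp ((s * m : ℝ) * I) - 1)) * Complex.exp ((τ * l : ℝ) * I) := by
        intro s; ring
      simp_rw [e]
      rw [integral_mul_const, norm_mul, Complex.norm_exp_ofReal_mul_I, mul_one]
      have hm2 : Measurable (fun s => (WW r τ s : ℂ) * (Complex.exp ((s * m : ℝ) * I) - 1)) :=
        (hWm τ).mul (by fun_prop)
      have hb2 : ∀ s ∈ Icc (-1 : ℝ) 1, ‖(WW r τ s : ℂ) * (Complex.exp ((s * m : ℝ) * I) - 1)‖ ≤ |m| := by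
        intro s hs
        rw [norm_mul]
        have h3 : ‖Complex.exp ((s * m : ℝ) * I) - 1‖ ≤ |s * m| := by
          have := Real.norm_exp_I_mul_ofReal_sub_one_le (x := s * m)
          rw [mul_comm I] at this
          simpa using this
        have h4 : |s * m| ≤ |m| := by
          rw [abs_mul]
          exact mul_le_of_le_one_left (abs_nonneg m) (abs_le.mpr hs)
        calc ‖(WW r τ s : ℂ)‖ * ‖Complex.exp ((s * m : ℝ) * I) - 1‖ ≤ 1 * |m| :=
              mul_le_mul (hWb τ s) (h3.trans h4) (norm_nonneg _) zero_le_one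
          _ = |m| := one_mul _
      have hb3 : ∀ s, ‖(WW r τ s : ℂ) * (Complex.exp ((s * m : ℝ) * I) - 1)‖ ≤ 2 := by
        intro s
        rw [norm_mul]
        have h3 : ‖Complex.exp ((s * m : ℝ) * I) - 1‖ ≤ 2 := by
          refine (norm_sub_le _ _).trans ?_
          rw [Complex.norm_exp_ofReal_mul_I, norm_one]; norm_num
        calc ‖(WW r τ s : ℂ)‖ * ‖Complex.exp ((s * m : ℝ) * I) - 1‖ ≤ 1 * 2 :=
              mul_le_mul (hWb τ s) h3 (norm_nonneg _) zero_le_one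
          _ = 2 := one_mul _
      rw [integral_add (A9_int (hWm τ) (hWb τ)) (A9_int hm2 hb3)]
      refine (norm_add_le _ _).trans (add_le_add ?_ ?_)
      · have h5 : ∫ s in Icc (-1 : ℝ) 1, (WW r τ s : ℂ) = ((∫ s : ℝ, WW r τ s : ℝ) : ℂ) := by
          rw [setIntegral_eq_integral_of_forall_compl_eq_zero]
          · exact integral_ofReal
          · intro s hs
            by_contra hne
            have hne' : WW r τ s ≠ 0 := by
              intro h; apply hne; rw [h]; simp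
            have := (W1 r τ s hr hr1 hne').2.2
            rw [abs_le] at this
            exact hs this
        rw [h5, norm_real, Real.norm_eq_abs]
        exact hW5 τ hτ'
      · have h6 := norm_setIntegral_le_of_norm_le_const (μ := volume) (s := Icc (-1 : ℝ) 1) (C := |m|)
          (f := fun s => (WW r τ s : ℂ) * (Complex.exp ((s * m : ℝ) * I) - 1))
          (measure_Icc_lt_top) hb2
        rw [Real.volume_real_Icc_of_le (by norm_num)] at h6
        linarith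
  have hI : Integrable (fun τ => (C * r ^ 2 + 2 * |m|) +
      (Icc (1 - C * r ^ 2) (1 + C * r ^ 2)).indicator (fun _ => (2:ℝ)) τ) (volume.restrict (Ioc t (t + h'))) := by
    apply Integrable.add (integrable_const _)
    exact (integrable_const (2:ℝ)).indicator measurableSet_Icc
  refine (norm_integral_le_of_norm_le hI (ae_of_all _ h1)).trans ?_
  rw [integral_add (integrable_const _) ((integrable_const (2:ℝ)).indicator measurableSet_Icc),
    integral_const, measureReal_restrict_apply_univ, Real.volume_real_Ioc_of_le (by linarith),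
    integral_indicator measurableSet_Icc, integral_const, smul_eq_mul, smul_eq_mul]
  have h7 : ((volume.restrict (Ioc t (t + h'))).restrict (Icc (1 - C * r ^ 2) (1 + C * r ^ 2))).real univ
      ≤ 2 * (C * r ^ 2) := by
    rw [measureReal_restrict_apply_univ]
    have h8 : (volume.restrict (Ioc t (t + h'))).real (Icc (1 - C * r ^ 2) (1 + C * r ^ 2))
        ≤ volume.real (Icc (1 - C * r ^ 2) (1 + C * r ^ 2)) := by
      unfold Measure.real
      exact ENNReal.toReal_mono measure_Icc_lt_top.ne (Measure.restrict_apply_le _ _)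
    have h9 : 0 ≤ C * r ^ 2 := by positivity
    rw [Real.volume_real_Icc_of_le (by linarith)] at h8
    linarith
  have e10 : t + h' - t = h' := by ring
  rw [e10]
  linarith

/-- Markov type inequality -/
theorem A9_markov {α : Type*} [MeasurableSpace α] (ν : Measure α) [IsFiniteMeasure ν] (f : α → ℝ)
    (hf : Measurable f) (t : ℝ) (ht : 0 ≤ t) (h2 : ∀ x, f x ≤ 2) (hnn : ∀ x, 0 ≤ f x) :
    ∫ x, f x ∂ν ≤ 2 * ν.real {x | t ≤ f x} + t * ν.real univ := by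
  have hm : MeasurableSet {x | t ≤ f x} := measurableSet_le measurable_const hf
  have hi : Integrable (fun x => ({x | t ≤ f x}).indicator (fun _ => (2:ℝ)) x + t) ν :=
    ((integrable_const (2:ℝ)).indicator hm).add (integrable_const t)
  have h3 : ∫ x, f x ∂ν ≤ ∫ x, (({x | t ≤ f x}).indicator (fun _ => (2:ℝ)) x + t) ∂ν := by
    apply integral_mono _ hi
    · intro x
      by_cases hx : t ≤ f x
      · have : x ∈ {x | t ≤ f x} := hx
        simp only [indicator_of_mem this]; linarith [h2 x]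
      · have : x ∉ {x | t ≤ f x} := hx
        simp only [indicator_of_notMem this]; push Not at hx; linarith
    · apply Integrable.of_bound hf.aestronglyMeasurable 2
      apply ae_of_all; intro x
      rw [Real.norm_eq_abs, abs_of_nonneg (hnn x)]; exact h2 x
  refine h3.trans (le_of_eq ?_)
  rw [integral_add ((integrable_const (2:ℝ)).indicator hm) (integrable_const t), integral_indicator hm,
    integral_const, integral_const, smul_eq_mul, smul_eq_mul, measureReal_restrict_apply_univ]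
  ring

/-- decomposition of a complex number in the frame `(u, iu)` -/
theorem A9_frame (A : ℂ) (θ : ℝ) : A = ip A (U θ) * U θ + ip A (I * U θ) * (I * U θ) := by
  have h : (U θ).re ^ 2 + (U θ).im ^ 2 = 1 := by
    rw [U_re, U_im]; exact Real.cos_sq_add_sin_sq θ
  apply Complex.ext
  · unfold ip
    simp only [add_re, mul_re, ofReal_re, ofReal_im, I_re, I_im, mul_im, add_im, ofReal_add, ofReal_mul]
    ring_nf
    linear_combination (-A.re) * h
  · unfold ip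
    simp only [add_re, mul_re, ofReal_re, ofReal_im, I_re, I_im, mul_im, add_im, ofReal_add, ofReal_mul]
    ring_nf
    linear_combination (-A.im) * h

/-- the algebra of the rigidity relations -/
theorem A9_alg (ω a0 a1 a2 : ℂ) (r θ α η : ℝ) (hr : 0 < r)
    (hlam : |r * (r * ip (a1 + conj ω * a2) (I * U (θ + α)))| ≤ η)
    (hB : r ^ 2 * ‖a0 + a1 + a2‖ ≤ η) :
    let X1 : ℂ := U (-α) * (-(r ^ 2 * ((conj ω - 1) * a1))) - U (-α) * (r ^ 2 * (conj ω * a0))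
    let X2 : ℂ := U (-α) * (r ^ 2 * (conj ω * ((conj ω - 1) * a2))) - U (-α) * (r ^ 2 * (conj ω * a0))
    |ip X1 (U θ) - r ^ 2 * ip (a1 + conj ω * a2) (U (θ + α))| ≤ (1 + ‖ω‖) * η ∧
    ‖X1 - ip X1 (U θ) * U θ‖ ≤ 2 * ((1 + ‖ω‖) * η) ∧
    ‖X2 - conj ω * ip X1 (U θ) * U θ‖ ≤ 3 * ((1 + ‖ω‖) ^ 2 * η) := by
  intro X1 X2
  have hη : 0 ≤ η := (abs_nonneg _).trans hlam
  set A : ℂ := a1 + conj ω * a2 with hA
  set B : ℂ := a0 + a1 + a2 with hBd
  set μ : ℝ := r ^ 2 * ip A (U (θ + α)) with hμ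
  set l : ℝ := r * (r * ip A (I * U (θ + α))) with hl
  have hU1 : U (-α) * U (θ + α) = U θ := by rw [← U_add]; congr 1; ring
  have hfr : (r:ℂ) ^ 2 * A = μ * U (θ + α) + l * (I * U (θ + α)) := by
    conv_lhs => rw [A9_frame A (θ + α)]
    rw [hμ, hl]; push_cast; ring
  have hX1 : X1 = μ * U θ + (l * (I * U θ) - U (-α) * (r ^ 2 * (conj ω * B))) := by
    have e1 : X1 = U (-α) * (r ^ 2 * A) - U (-α) * (r ^ 2 * (conj ω * B)) := by
      simp only [X1, hA, hBd]; ring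
    rw [e1, hfr]
    linear_combination (μ + l * I) * hU1
  have hX2 : X2 = conj ω * (μ * U θ) + (conj ω * (l * (I * U θ)) - U (-α) * (r ^ 2 * (conj ω * B))) := by
    have e1 : X2 = conj ω * (U (-α) * (r ^ 2 * A)) - U (-α) * (r ^ 2 * (conj ω * B)) := by
      simp only [X2, hA, hBd]; ring
    rw [e1, hfr]
    linear_combination (conj ω * (μ + l * I)) * hU1
  set e : ℂ := l * (I * U θ) - U (-α) * (r ^ 2 * (conj ω * B)) with he
  have hl1 : ‖(l:ℂ) * (I * U θ)‖ ≤ η := by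
    rw [norm_mul, norm_mul, norm_I, norm_U, norm_real, Real.norm_eq_abs]; linarith
  have hB1 : ‖U (-α) * ((r:ℂ) ^ 2 * (conj ω * B))‖ ≤ ‖ω‖ * η := by
    rw [norm_mul, norm_mul, norm_mul, norm_pow, norm_conj, norm_U, norm_real, Real.norm_eq_abs, abs_of_pos hr]
    calc 1 * (r ^ 2 * (‖ω‖ * ‖B‖)) = ‖ω‖ * (r ^ 2 * ‖B‖) := by ring
      _ ≤ ‖ω‖ * η := mul_le_mul_of_nonneg_left hB (norm_nonneg _)
  have hen : ‖e‖ ≤ (1 + ‖ω‖) * η := by
    refine (norm_sub_le _ _).trans ?_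
    linarith
  have hipU : ip (U θ) (U θ) = 1 := by rw [ip_self, norm_U]; norm_num
  have hip : ip X1 (U θ) = μ + ip e (U θ) := by
    rw [hX1, ip_add_left, ip_mul_real_left, hipU, mul_one]
  have hipe : |ip e (U θ)| ≤ (1 + ‖ω‖) * η := by
    refine (ip_le _ _).trans ?_
    rw [norm_U, mul_one]; exact hen
  refine ⟨?_, ?_, ?_⟩
  · rw [hip]; simpa using hipe
  · rw [hip]
    have e3 : X1 - ((μ + ip e (U θ) : ℝ) : ℂ) * U θ = e - ip e (U θ) * U θ := by
      rw [hX1]; push_cast; ring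
    rw [e3]
    refine (norm_sub_le _ _).trans ?_
    rw [norm_mul, norm_U, norm_real, Real.norm_eq_abs]; linarith
  · rw [hip]
    have e3 : X2 - conj ω * ((μ + ip e (U θ) : ℝ) : ℂ) * U θ
        = (conj ω * (l * (I * U θ)) - U (-α) * (r ^ 2 * (conj ω * B))) - conj ω * (ip e (U θ) * U θ) := by
      rw [hX2]; push_cast; ring
    rw [e3]
    have n1 : ‖conj ω * ((l:ℂ) * (I * U θ))‖ ≤ ‖ω‖ * η := by
      rw [norm_mul, norm_conj]; exact mul_le_mul_of_nonneg_left hl1 (norm_nonneg _)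
    have n2 : ‖conj ω * ((ip e (U θ) : ℂ) * U θ)‖ ≤ ‖ω‖ * ((1 + ‖ω‖) * η) := by
      rw [norm_mul, norm_conj, norm_mul, norm_U, norm_real, Real.norm_eq_abs, mul_one]
      exact mul_le_mul_of_nonneg_left hipe (norm_nonneg _)
    have n3 : ‖(conj ω * (l * (I * U θ)) - U (-α) * ((r:ℂ) ^ 2 * (conj ω * B)))
        - conj ω * (ip e (U θ) * U θ)‖ ≤ (‖ω‖ * η + ‖ω‖ * η) + ‖ω‖ * ((1 + ‖ω‖) * η) :=
      (norm_sub_le _ _).trans (add_le_add ((norm_sub_le _ _).trans (add_le_add n1 hB1)) n2)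
    refine n3.trans ?_
    have hω := norm_nonneg ω
    nlinarith [mul_nonneg hω hη, mul_nonneg (mul_nonneg hω hω) hη]

/-- absorbing constants into powers of `ε` -/
theorem A9_absorb (ε : ℝ) (h0 : 0 < ε) (h1 : ε ≤ 1 / 2) (c : ℝ) (q : ℕ) (hc : c ≤ 2 ^ q) :
    c * ε ^ q ≤ 1 := by
  calc c * ε ^ q ≤ 2 ^ q * (1 / 2) ^ q := by gcongr
    _ = 1 := by rw [← mul_pow]; norm_num

/-- the numerical bounds at a good point -/
theorem A9_point (C r t h h' b1 b2 l m t0 : ℝ) (hC : 0 < C)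
    (hW5 : ∀ τ : ℝ, C * r ^ 2 ≤ |τ - 1| → |∫ s : ℝ, WW r τ s| ≤ C * r ^ 2)
    (hr : 0 < r) (hr1 : r ≤ 1) (hh : 0 < h) (hh' : 0 < h') (ht0 : 0 < t0)
    (hM : t0 ≤ (h ^ 2 * h')⁻¹ * (‖A9_X h b1‖ * ‖A9_X h b2‖) * ‖A9_S r t (t + h') l m‖) :
    |b1| ≤ 4 / (t0 * h) ∧ |b2| ≤ 4 / (t0 * h) ∧ |l| ≤ 8 / (t0 * h') ∧ |m| ≤ 4 / t0 ∧
      t0 * h' ≤ h' * (C * r ^ 2 + 2 * |m|) + 4 * (C * r ^ 2) := by
  have hX1 := A9_X_le h b1 hh
  have hX2 := A9_X_le h b2 hh
  have hS := A9_S_le r t h' l m hh'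
  have nX1 := norm_nonneg (A9_X h b1)
  have nX2 := norm_nonneg (A9_X h b2)
  have nS := norm_nonneg (A9_S r t (t + h') l m)
  have hM' : t0 * (h ^ 2 * h') ≤ (‖A9_X h b1‖ * ‖A9_X h b2‖) * ‖A9_S r t (t + h') l m‖ := by
    have h1 := mul_le_mul_of_nonneg_right hM (by positivity : 0 ≤ h ^ 2 * h')
    have h2 : (h ^ 2 * h')⁻¹ * (‖A9_X h b1‖ * ‖A9_X h b2‖) * ‖A9_S r t (t + h') l m‖ * (h ^ 2 * h')
        = (‖A9_X h b1‖ * ‖A9_X h b2‖) * ‖A9_S r t (t + h') l m‖ := by field_simp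
    rwa [h2] at h1
  have hS1 : t0 * h' ≤ ‖A9_S r t (t + h') l m‖ := by
    have h1 : (‖A9_X h b1‖ * ‖A9_X h b2‖) * ‖A9_S r t (t + h') l m‖ ≤ (h * h) * ‖A9_S r t (t + h') l m‖ := by
      gcongr
    have h2 : (h * h) * (t0 * h') ≤ (h * h) * ‖A9_S r t (t + h') l m‖ := by
      calc (h * h) * (t0 * h') = t0 * (h ^ 2 * h') := by ring
        _ ≤ _ := hM'.trans h1
    exact le_of_mul_le_mul_left h2 (by positivity)
  have hx1 : t0 * h ≤ 2 * ‖A9_X h b1‖ := by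
    have h1 : (‖A9_X h b1‖ * ‖A9_X h b2‖) * ‖A9_S r t (t + h') l m‖ ≤ (‖A9_X h b1‖ * h) * (2 * h') := by
      gcongr
    have h2 : (h * h') * (t0 * h) ≤ (h * h') * (2 * ‖A9_X h b1‖) := by
      calc (h * h') * (t0 * h) = t0 * (h ^ 2 * h') := by ring
        _ ≤ _ := hM'.trans h1
        _ = _ := by ring
    exact le_of_mul_le_mul_left h2 (by positivity)
  have hx2 : t0 * h ≤ 2 * ‖A9_X h b2‖ := by
    have h1 : (‖A9_X h b1‖ * ‖A9_X h b2‖) * ‖A9_S r t (t + h') l m‖ ≤ (h * ‖A9_X h b2‖) * (2 * h') := by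
      gcongr
    have h2 : (h * h') * (t0 * h) ≤ (h * h') * (2 * ‖A9_X h b2‖) := by
      calc (h * h') * (t0 * h) = t0 * (h ^ 2 * h') := by ring
        _ ≤ _ := hM'.trans h1
        _ = _ := by ring
    exact le_of_mul_le_mul_left h2 (by positivity)
  have hb : ∀ b : ℝ, t0 * h ≤ 2 * ‖A9_X h b‖ → |b| ≤ 4 / (t0 * h) := by
    intro b hb
    rcases eq_or_ne b 0 with rfl | hne
    · rw [abs_zero]; positivity
    · have h1 := A9_X_le2 h b hh hne
      have hbp : 0 < |b| := abs_pos.mpr hne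
      have h2 : t0 * h ≤ 4 / |b| := by
        calc t0 * h ≤ 2 * (2 / |b|) := hb.trans (by linarith)
          _ = 4 / |b| := by ring
      rw [le_div_iff₀ hbp] at h2
      rw [le_div_iff₀ (by positivity)]; linarith
  refine ⟨hb b1 hx1, hb b2 hx2, ?_, ?_, ?_⟩
  · rcases eq_or_ne l 0 with rfl | hne
    · rw [abs_zero]; positivity
    · have h1 := A9_S_le_l r t h' l m hr hr1 hne
      have hbp : 0 < |l| := abs_pos.mpr hne
      have h2 := hS1.trans h1
      rw [le_div_iff₀ hbp] at h2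
      rw [le_div_iff₀ (by positivity)]; linarith
  · rcases eq_or_ne m 0 with rfl | hne
    · rw [abs_zero]; positivity
    · have h1 := A9_S_le_m r t h' l m hr hr1 hh' hne
      have hbp : 0 < |m| := abs_pos.mpr hne
      have h2 := hS1.trans h1
      have h3 : t0 ≤ 4 / |m| := by
        have : h' * t0 ≤ h' * (4 / |m|) := by linarith
        exact le_of_mul_le_mul_left this hh'
      rw [le_div_iff₀ hbp] at h3
      rw [le_div_iff₀ ht0]; linarith
  · exact hS1.trans (A9_S_le_iv C r t h' l m hC hW5 hr hr1 hh')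

theorem prop61 (ω : ℂ) (h0 : ω.im ≠ 0) (R : ℝ) : ∃ n : ℕ, 1 ≤ n ∧ ∃ R' : ℝ,
    ∀ ε : ℝ, 0 < ε → ε ≤ 1 / 2 → ∀ r : ℝ, 0 < r → r ≤ 1 → ∀ m : ℕ, 1 ≤ m → (m : ℝ) ≤ 1 / ε →
    ∀ φ0 φ1 φ2 : ℂ → ℂ, SF (r / m) R φ0 → SF (r / m) R φ1 → SF (r / m) R φ2 →
    ε ≤ ‖TK ω (kD r) φ0 φ1 φ2‖ →
    ε ^ n ≤ r ∨ ∃ (B0 B1 B2 : ℂ → ℂ) (G : Set (ℂ × ℝ)), Sys ω R' (ε ^ n) (r / ε ^ n) B0 B1 B2 G := by
  obtain ⟨C5, hC5, hW5⟩ := W5
  set R0 : ℝ := max R 0 with hR0
  have hR0nn : 0 ≤ R0 := le_max_right _ _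
  set L : ℝ := R0 + 2 with hL
  set Wc : ℝ := 1 + ‖ω‖ with hWc
  have hWc1 : 1 ≤ Wc := by rw [hWc]; linarith [norm_nonneg ω]
  set V : ℝ := volume.real (Metric.closedBall (0 : ℂ) L) with hV
  have hVnn : 0 ≤ V := measureReal_nonneg
  set Cb : ℝ := 4 * (L + 3 * Wc) * (4 * (L + 3 * Wc) + 14) with hCb
  have hLnn : 0 ≤ L := by rw [hL]; linarith
  have hCbnn : 0 ≤ Cb := by rw [hCb]; positivity
  set Cmax : ℝ := 28 * V + 15 * 112 * Cb * Wc + 10 * C5 + 64 * Wc + 24 * Wc ^ 2 with hCmax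
  obtain ⟨q, hq⟩ := pow_unbounded_of_one_lt Cmax (by norm_num : (1:ℝ) < 2)
  have hWc0 : 0 ≤ Wc := by linarith
  have hq1 : 28 * V ≤ 2 ^ q := by
    have : 0 ≤ 15 * 112 * Cb * Wc := by positivity
    have : 0 ≤ 24 * Wc ^ 2 := by positivity
    rw [hCmax] at hq; linarith
  have hq2 : 15 * 112 * Cb * Wc ≤ 2 ^ q := by
    have : 0 ≤ 24 * Wc ^ 2 := by positivity
    rw [hCmax] at hq; linarith
  have hq3 : 10 * C5 ≤ 2 ^ q := by
    have : 0 ≤ 15 * 112 * Cb * Wc := by positivity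
    have : 0 ≤ 24 * Wc ^ 2 := by positivity
    rw [hCmax] at hq; linarith
  have hq4 : 64 * Wc ≤ 2 ^ q := by
    have : 0 ≤ 15 * 112 * Cb * Wc := by positivity
    have : 0 ≤ 24 * Wc ^ 2 := by positivity
    rw [hCmax] at hq; linarith
  have hq5 : 24 * Wc ^ 2 ≤ 2 ^ q := by
    have : 0 ≤ 15 * 112 * Cb * Wc := by positivity
    rw [hCmax] at hq; linarith
  refine ⟨4 * q + 20, by omega, L, ?_⟩
  intro ε hε hε2 r hr hr1 m hm hmε φ0 φ1 φ2 hφ0 hφ1 hφ2 hT
  by_cases hrn : ε ^ (4 * q + 20) ≤ r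
  · left; exact hrn
  right
  push Not at hrn
  have hmpos : (0:ℝ) < m := by exact_mod_cast hm
  set ρ : ℝ := r / m with hρ
  have hρpos : 0 < ρ := by positivity
  have hρ1 : ρ ≤ 1 := by
    rw [hρ, div_le_one hmpos]
    have : (1:ℝ) ≤ m := by exact_mod_cast hm
    linarith
  have hrρ : r ≤ ρ / ε := by
    rw [hρ, le_div_iff₀ hε, le_div_iff₀ hmpos]
    rw [le_div_iff₀ hε] at hmε
    calc r * ε * m = r * (m * ε) := by ring
      _ ≤ r * 1 := by gcongr
      _ = r := mul_one r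
  have hε1 : ε ≤ 1 := by linarith
  have hεp : ∀ k : ℕ, 0 < ε ^ k := fun k => pow_pos hε k
  -- parameters
  set a : ℕ := q + 2 with ha
  set b : ℕ := q + 1 with hb
  set t0 : ℝ := ε ^ b with ht0
  have ht0p : 0 < t0 := hεp b
  set h : ℝ := ε ^ a * ρ with hh
  have hhp : 0 < h := by positivity
  have hεa1 : ε ^ a ≤ 1 := pow_le_one₀ hε.le hε1
  have hh1 : h ≤ 1 := by
    rw [hh]; exact mul_le_one₀ hεa1 hρpos.le hρ1
  set K : ℕ := ⌈(ε ^ a)⁻¹⌉₊ with hK
  have hKge : (ε ^ a)⁻¹ ≤ K := Nat.le_ceil _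
  have hinv1 : 1 ≤ (ε ^ a)⁻¹ := (one_le_inv₀ (hεp a)).mpr hεa1
  have hKle : (K:ℝ) ≤ 2 * (ε ^ a)⁻¹ := by
    have := Nat.ceil_lt_add_one (by positivity : 0 ≤ (ε ^ a)⁻¹)
    linarith
  have hKpos : 0 < K := by
    have : (0:ℝ) < K := by linarith
    exact_mod_cast this
  have hKpos' : (0:ℝ) < K := by exact_mod_cast hKpos
  set h' : ℝ := 2 / K with hh'
  have hh'p : 0 < h' := by positivity
  have hh'ge : ε ^ a ≤ h' := by
    rw [hh', le_div_iff₀ hKpos']
    calc ε ^ a * K ≤ ε ^ a * (2 * (ε ^ a)⁻¹) := by gcongr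
      _ = 2 := by field_simp
  have hh'le : h' ≤ 2 * ε ^ a := by
    rw [hh', div_le_iff₀ hKpos']
    calc (2:ℝ) = 2 * (ε ^ a * (ε ^ a)⁻¹) := by field_simp
      _ ≤ 2 * (ε ^ a * K) := by gcongr
      _ = 2 * ε ^ a * K := by ring
  -- the averaging step
  have bf : ∀ φ : ℂ → ℂ, SF ρ R φ → BF R0 φ := by
    intro φ hφ
    have h1 := A9_SF_BF hφ
    exact ⟨h1.meas, h1.le, fun x hx => h1.supp x (lt_of_le_of_lt (le_max_left _ _) hx)⟩
  have bf0 := bf φ0 hφ0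
  have bf1 := bf φ1 hφ1
  have bf2 := bf φ2 hφ2
  obtain ⟨α, t, ht, htK, hint⟩ := A9_avg ω r hr hr1 R0 hR0nn φ0 φ1 φ2 bf0 bf1.meas bf2.meas bf1.le bf2.le
    ε hT K hKpos h hhp hh1
  rw [← hh', ← hL] at hint
  set M := A9_M ω r φ0 φ1 φ2 h t h' with hM
  have hMm : Measurable (fun z : ℂ × ℝ => M z.1 z.2) :=
    A9_M_meas ω r φ0 φ1 φ2 bf0.meas bf1.meas bf2.meas h t h'
  have hMb : ∀ x θ, ‖M x θ‖ ≤ 2 :=
    A9_M_le ω r φ0 φ1 φ2 bf0.le bf1.le bf2.le h t h' hhp hh'p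
  set J : Set ℝ := Ioc α (α + 2 * Real.pi / 7) with hJ
  have hpi := Real.pi_lt_d2
  have hpi0 := Real.pi_pos
  have hJvol : volume.real J ≤ 1 := by
    rw [hJ, Real.volume_real_Ioc_of_le (by linarith)]
    linarith
  have hfx : IsFiniteMeasure (volume.restrict (Metric.closedBall (0 : ℂ) L)) := by
    constructor
    rw [Measure.restrict_apply_univ]
    exact measure_closedBall_lt_top
  -- the set where the local average is large
  set P0 : Set (ℂ × ℝ) := {g | t0 ≤ ‖M g.1 g.2‖} ∩ (Metric.closedBall (0:ℂ) L ×ˢ J) with hP0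
  have hP0m : MeasurableSet P0 :=
    (measurableSet_le measurable_const hMm.norm).inter (measurableSet_closedBall.prod measurableSet_Ioc)
  have hP0vol : ε / 56 ≤ volume.real P0 := by
    have h1 := A9_markov ((volume.restrict (Metric.closedBall (0 : ℂ) L)).prod (volume.restrict J))
      (fun g => ‖M g.1 g.2‖) hMm.norm t0 ht0p.le (fun g => hMb _ _) (fun g => norm_nonneg _)
    have h2 := hint.trans h1
    have h3 : ((volume.restrict (Metric.closedBall (0 : ℂ) L)).prod (volume.restrict J)).real univ ≤ V := by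
      rw [← univ_prod_univ, measureReal_prod_prod, measureReal_restrict_apply_univ,
        measureReal_restrict_apply_univ, ← hV]
      exact mul_le_of_le_one_right hVnn hJvol
    have h4 : ((volume.restrict (Metric.closedBall (0 : ℂ) L)).prod (volume.restrict J)).real
        {g | t0 ≤ ‖M g.1 g.2‖} = volume.real P0 := by
      rw [Measure.prod_restrict, measureReal_restrict_apply (measurableSet_le measurable_const hMm.norm)]
      rfl
    rw [h4] at h2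
    have h5 : t0 * ((volume.restrict (Metric.closedBall (0 : ℂ) L)).prod (volume.restrict J)).real univ
        ≤ ε / 28 := by
      have h6 : 28 * V * ε ^ q ≤ 1 := A9_absorb ε hε hε2 _ q hq1
      calc t0 * _ ≤ t0 * V := by gcongr
        _ = ε / 28 * (28 * V * ε ^ q) := by rw [ht0, hb, pow_succ]; ring
        _ ≤ ε / 28 * 1 := by gcongr
        _ = ε / 28 := mul_one _
    linarith
  -- the bad sets
  set v0 : ℂ := 1 + I * (r * t : ℝ) with hv0
  have ht2 : t ≤ 2 := by linarith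
  have hv0n : ‖v0‖ ≤ 3 := by
    refine (norm_add_le _ _).trans ?_
    rw [norm_one, norm_mul, norm_I, one_mul, norm_real, Real.norm_eq_abs, abs_of_nonneg (by positivity)]
    have : r * t ≤ 1 * 2 := mul_le_mul hr1 ht2 ht zero_le_one
    linarith
  have hv0n1 : 1 ≤ ‖v0‖ := by
    have : v0.re = 1 := by rw [hv0]; simp
    calc (1:ℝ) = |v0.re| := by rw [this]; simp
      _ ≤ ‖v0‖ := abs_re_le_norm _
  set ρ1 : ℝ := 2 * h + (1 + ‖ω‖) * (r * h' + r ^ 2) with hρ1d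
  have hρ1nn : 0 ≤ ρ1 := by positivity
  have hra : r ≤ ε ^ a := hrn.le.trans (pow_le_pow_of_le_one hε.le hε1 (by omega))
  have hρ1le : ρ1 / ρ ≤ 5 * Wc * ε ^ (q + 1) := by
    rw [div_le_iff₀ hρpos, hρ1d, ← hWc]
    have e1 : r * h' + r ^ 2 ≤ 3 * ε ^ (q + 1) * ρ := by
      have e2 : r * h' ≤ (ρ / ε) * (2 * ε ^ a) := by gcongr
      have e3 : r ^ 2 ≤ (ρ / ε) * ε ^ a := by
        rw [sq]; gcongr
      have e4 : (ρ / ε) * ε ^ a = ε ^ (q + 1) * ρ := by
        rw [ha, pow_succ]; field_simp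
      have e5 : (ρ / ε) * (2 * ε ^ a) = 2 * ((ρ / ε) * ε ^ a) := by ring
      rw [e5, e4] at e2
      rw [e4] at e3
      linarith
    have e6 : 2 * h ≤ 2 * Wc * ε ^ (q + 1) * ρ := by
      rw [hh]
      have : ε ^ a ≤ ε ^ (q + 1) := pow_le_pow_of_le_one hε.le hε1 (by omega)
      calc 2 * (ε ^ a * ρ) ≤ 2 * (ε ^ (q + 1) * ρ) := by gcongr
        _ = 2 * 1 * ε ^ (q + 1) * ρ := by ring
        _ ≤ 2 * Wc * ε ^ (q + 1) * ρ := by gcongr
    calc 2 * h + Wc * (r * h' + r ^ 2) ≤ 2 * Wc * ε ^ (q + 1) * ρ + Wc * (3 * ε ^ (q + 1) * ρ) := by gcongr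
      _ = 5 * Wc * ε ^ (q + 1) * ρ := by ring
  set D : ℂ → Set (ℂ × ℝ) := fun p => {g : ℂ × ℝ | ‖g.1‖ ≤ L ∧ g.2 ∈ Ioc α (α + 2 * Real.pi / 7) ∧
    ¬ deep ρ ρ1 (g.1 + p * U g.2)} with hD
  have hDm : ∀ p, MeasurableSet (D p) := by
    intro p
    have h1 : Measurable (fun g : ℂ × ℝ => g.1 + p * U g.2) :=
      measurable_fst.add ((measurable_U.comp measurable_snd).const_mul p)
    exact (measurableSet_le measurable_fst.norm measurable_const).inter
      ((measurable_snd measurableSet_Ioc).inter (h1 (A9_deep_meas ρ ρ1)).compl)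
  have hDvol : ∀ p : ℂ, ‖p‖ ≤ 3 * Wc → volume.real (D p) ≤ ε / 336 := by
    intro p hp
    have h1 := A9_bad_tri ρ ρ1 L hρpos hρ1 hρ1nn hLnn p α (α + 2 * Real.pi / 7)
    rw [← ENNReal.ofReal_mul (by positivity)] at h1
    have h2 : volume.real (D p) ≤ 4 * (L + ‖p‖) * (4 * (L + ‖p‖) + 14) * (ρ1 / ρ) * (α + 2 * Real.pi / 7 - α) := by
      unfold Measure.real
      apply ENNReal.toReal_le_of_le_ofReal _ h1
      have : 0 ≤ α + 2 * Real.pi / 7 - α := by linarith [Real.pi_pos]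
      positivity
    have h6 : 15 * 112 * Cb * Wc * ε ^ q ≤ 1 := A9_absorb ε hε hε2 _ q hq2
    have e1 : α + 2 * Real.pi / 7 - α ≤ 1 := by linarith
    have e0 : 0 ≤ α + 2 * Real.pi / 7 - α := by linarith
    have hρq : 0 ≤ ρ1 / ρ := by positivity
    calc volume.real (D p) ≤ _ := h2
      _ ≤ 4 * (L + 3 * Wc) * (4 * (L + 3 * Wc) + 14) * (5 * Wc * ε ^ (q + 1)) * 1 := by gcongr
      _ = ε / 336 * (15 * 112 * Cb * Wc * ε ^ q) := by rw [hCb, pow_succ]; ring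
      _ ≤ ε / 336 * 1 := by gcongr
      _ = ε / 336 := mul_one _
  set G0 : Set (ℂ × ℝ) := P0 \ (D 0 ∪ (D v0 ∪ D (ω * v0))) with hG0
  have hG0m : MeasurableSet G0 := hP0m.diff ((hDm _).union ((hDm _).union (hDm _)))
  have hP0fin : volume P0 ≠ ⊤ := by
    have h1 : P0 ⊆ Metric.closedBall (0:ℂ) L ×ˢ J := inter_subset_right
    have h2 : (volume : Measure (ℂ × ℝ)) (Metric.closedBall (0:ℂ) L ×ˢ J) < ⊤ := by
      rw [Measure.volume_eq_prod, Measure.prod_prod]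
      exact ENNReal.mul_lt_top measure_closedBall_lt_top measure_Ioc_lt_top
    exact ((measure_mono h1).trans_lt h2).ne
  have hDfin : ∀ p, volume (D p) ≠ ⊤ := by
    intro p
    have h1 : D p ⊆ Metric.closedBall (0:ℂ) L ×ˢ J := by
      intro g hg
      exact ⟨by simpa using hg.1, hg.2.1⟩
    have h2 : (volume : Measure (ℂ × ℝ)) (Metric.closedBall (0:ℂ) L ×ˢ J) < ⊤ := by
      rw [Measure.volume_eq_prod, Measure.prod_prod]
      exact ENNReal.mul_lt_top measure_closedBall_lt_top measure_Ioc_lt_top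
    exact ((measure_mono h1).trans_lt h2).ne
  have hG0vol : ε / 112 ≤ volume.real G0 := by
    have hcov : P0 ⊆ G0 ∪ (D 0 ∪ (D v0 ∪ D (ω * v0))) := by
      intro g hg
      by_cases hc : g ∈ D 0 ∪ (D v0 ∪ D (ω * v0))
      · right; exact hc
      · left; exact ⟨hg, hc⟩
    have hDU : volume (D 0 ∪ (D v0 ∪ D (ω * v0))) ≠ ⊤ :=
      measure_union_ne_top (hDfin _) (measure_union_ne_top (hDfin _) (hDfin _))
    have hG0fin : volume G0 ≠ ⊤ := ((measure_mono sdiff_subset).trans_lt (lt_top_iff_ne_top.mpr hP0fin)).ne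
    have h1 : volume.real P0 ≤ volume.real G0 + (volume.real (D 0) + (volume.real (D v0) + volume.real (D (ω * v0)))) := by
      refine (measureReal_mono hcov (measure_union_ne_top hG0fin hDU)).trans ?_
      refine (measureReal_union_le _ _).trans ?_
      gcongr
      refine (measureReal_union_le _ _).trans ?_
      gcongr
      exact measureReal_union_le _ _
    have k0 := hDvol 0 (by rw [norm_zero]; positivity)
    have k1 := hDvol v0 (by linarith)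
    have k2 := hDvol (ω * v0) (by
      rw [norm_mul]
      have : ‖ω‖ ≤ Wc := by rw [hWc]; linarith
      calc ‖ω‖ * ‖v0‖ ≤ Wc * 3 := by gcongr
        _ = 3 * Wc := by ring)
    linarith
  -- the frequencies
  obtain ⟨a0, c0, hc0, e0⟩ := hφ0.ex
  obtain ⟨a1, c1, hc1, e1⟩ := hφ1.ex
  obtain ⟨a2, c2, hc2, e2⟩ := hφ2.ex
  -- bounds on G0
  have hεab : (0:ℝ) < ε ^ (a + b + 1) := hεp _
  have hr4 : r ≤ 1 / 4 := by
    have h1 : ε ^ (4 * q + 20) ≤ ε ^ 2 := pow_le_pow_of_le_one hε.le hε1 (by omega)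
    have h2 : ε ^ 2 ≤ (1 / 2) ^ 2 := by gcongr
    linarith [hrn.le]
  have hpt : ∀ g ∈ G0, ∀ A B : ℂ, A = a1 (cell ρ (g.1 + v0 * U g.2)) + conj ω * a2 (cell ρ (g.1 + (ω * v0) * U g.2)) →
      B = a0 (cell ρ g.1) + a1 (cell ρ (g.1 + v0 * U g.2)) + a2 (cell ρ (g.1 + (ω * v0) * U g.2)) →
      |r * (r * ip A (I * U g.2))| ≤ 8 * r / ε ^ (a + b + 1) ∧ r ^ 2 * ‖B‖ ≤ 8 * r / ε ^ (a + b + 1) ∧
      |r ^ 2 * ip A (U g.2)| ≤ 4 / ε ^ b ∧ ε ^ b / 4 ≤ |r ^ 2 * ip A (U g.2)| := by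
    intro g hg A B hA hB
    obtain ⟨⟨hg1, hg2⟩, hgn⟩ := hg
    have hgL : ‖g.1‖ ≤ L := by simpa using hg2.1
    have hdeep : ∀ p : ℂ, g ∉ D p → deep ρ ρ1 (g.1 + p * U g.2) := by
      intro p hp
      by_contra hc
      exact hp ⟨hgL, hg2.2, hc⟩
    have d0 : deep ρ ρ1 (g.1 + 0 * U g.2) := hdeep 0 (fun hc => hgn (Or.inl hc))
    rw [zero_mul, add_zero] at d0
    have d1 : deep ρ ρ1 (g.1 + v0 * U g.2) := hdeep v0 (fun hc => hgn (Or.inr (Or.inl hc)))
    have d2 : deep ρ ρ1 (g.1 + (ω * v0) * U g.2) := hdeep (ω * v0) (fun hc => hgn (Or.inr (Or.inr hc)))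
    have hf := A9_fact ω r ρ ρ1 h t h' hρpos hr hh'p hhp le_rfl φ0 φ1 φ2 a0 a1 a2 c0 c1 c2 e0 e1 e2
      hc0 hc1 hc2 g.1 g.2 d0 d1 d2 A B hA hB
    have hf2 : t0 ≤ _ := le_trans hg1 hf
    obtain ⟨p1, p2, p3, p4, p5⟩ := A9_point C5 r t h h' B.re B.im (r * ip A (I * U g.2))
      (r ^ 2 * ip A (U g.2)) t0 hC5 (hW5 r hr hr4) hr hr1 hhp hh'p ht0p hf2
    refine ⟨?_, ?_, ?_, ?_⟩
    · rw [abs_mul, abs_of_pos hr]
      have h1 : 8 / (t0 * h') ≤ 8 / ε ^ (a + b + 1) := by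
        apply div_le_div_of_nonneg_left (by norm_num) (hεp _)
        calc ε ^ (a + b + 1) ≤ ε ^ (a + b) := pow_le_pow_of_le_one hε.le hε1 (by omega)
          _ = ε ^ b * ε ^ a := by rw [← pow_add]; congr 1; omega
          _ ≤ t0 * h' := by rw [ht0]; gcongr
      calc r * |r * ip A (I * U g.2)| ≤ r * (8 / ε ^ (a + b + 1)) := by
            gcongr; exact p3.trans h1
        _ = _ := by ring
    · have hBn : ‖B‖ ≤ 8 / (t0 * h) := by
        refine (Complex.norm_le_abs_re_add_abs_im B).trans ?_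
        have : 8 / (t0 * h) = 4 / (t0 * h) + 4 / (t0 * h) := by ring
        linarith
      have h2 : r ^ 2 * (8 / (t0 * h)) ≤ 8 * r / ε ^ (a + b + 1) := by
        rw [mul_div_assoc', div_le_div_iff₀ (by positivity) (hεp _)]
        have h3 : r * ε ≤ ρ := by
          rw [le_div_iff₀ hε] at hrρ; exact hrρ
        calc r ^ 2 * 8 * ε ^ (a + b + 1) = 8 * r * (r * ε) * ε ^ (a + b) := by rw [pow_succ]; ring
          _ ≤ 8 * r * ρ * ε ^ (a + b) := by gcongr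
          _ = 8 * r * (t0 * h) := by rw [ht0, hh, pow_add]; ring
      exact (mul_le_mul_of_nonneg_left hBn (sq_nonneg r)).trans h2
    · exact p4
    · -- lower bound
      have h3 : C5 * r ^ 2 * (h' + 4) ≤ t0 * h' / 2 := by
        have h4 : 10 * C5 * ε ^ q ≤ 1 := A9_absorb ε hε hε2 _ q hq3
        have h5 : r ^ 2 ≤ ε ^ (q + b + a) := by
          have h6 : r ^ 2 ≤ ε ^ (4 * q + 20) * 1 := by
            rw [sq]; gcongr
          rw [mul_one] at h6
          exact h6.trans (pow_le_pow_of_le_one hε.le hε1 (by omega))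
        have h7 : h' + 4 ≤ 5 := by
          have : ε ^ a ≤ 1 / 2 := by
            calc ε ^ a ≤ ε ^ 1 := pow_le_pow_of_le_one hε.le hε1 (by omega)
              _ ≤ 1 / 2 := by rw [pow_one]; exact hε2
          linarith
        calc C5 * r ^ 2 * (h' + 4) ≤ C5 * ε ^ (q + b + a) * 5 := by gcongr
          _ = (10 * C5 * ε ^ q) * (ε ^ b * ε ^ a) / 2 := by rw [pow_add, pow_add]; ring
          _ ≤ 1 * (t0 * h') / 2 := by rw [ht0]; gcongr
          _ = t0 * h' / 2 := by ring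
      have h8 : t0 * h' ≤ C5 * r ^ 2 * (h' + 4) + 2 * |r ^ 2 * ip A (U g.2)| * h' := by
        calc t0 * h' ≤ _ := p5
          _ = _ := by ring
      have h9 : t0 / 4 * h' ≤ |r ^ 2 * ip A (U g.2)| * h' := by linarith
      exact le_of_mul_le_mul_right h9 hh'p
  -- the system
  set c : ℂ := v0 * U α with hc
  have hcn : ‖c‖ = ‖v0‖ := by rw [hc, norm_mul, norm_U, mul_one]
  have hcne : c ≠ 0 := by
    intro h; rw [h, norm_zero] at hcn; linarith
  have hcU : ∀ θ : ℝ, c * U θ = v0 * U (θ + α) := by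
    intro θ; rw [hc, U_add]; ring
  set G : Set (ℂ × ℝ) := (fun g : ℂ × ℝ => (c * g.1, g.2 + α)) ⁻¹' G0 with hG
  have hGm : MeasurableSet G := ((measurable_fst.const_mul c).prodMk (measurable_snd.add_const α)) hG0m
  set B0 : ℂ → ℂ := fun x => U (-α) * ((r:ℂ) ^ 2 * (conj ω * a0 (cell ρ (c * x)))) with hB0
  set B1 : ℂ → ℂ := fun x => U (-α) * (-((r:ℂ) ^ 2 * ((conj ω - 1) * a1 (cell ρ (c * x))))) with hB1
  set B2 : ℂ → ℂ := fun x => U (-α) * ((r:ℂ) ^ 2 * (conj ω * ((conj ω - 1) * a2 (cell ρ (c * x))))) with hB2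
  have hcell : ∀ f : ℤ × ℤ → ℂ, Measurable (fun x : ℂ => f (cell ρ (c * x))) := fun f =>
    (measurable_of_countable f).comp ((A9_meas_cell ρ).comp (measurable_const_mul c))
  set η : ℝ := 8 * r / ε ^ (a + b + 1) with hη
  have hηnn : 0 ≤ η := by positivity
  -- the main estimate
  have main : ∀ g ∈ G, ∃ μ : ℝ, |μ| ≤ 4 / ε ^ b ∧ ε ^ b / 4 ≤ |μ| ∧
      |ell B0 B1 g.1 g.2 - μ| ≤ Wc * η ∧
      ‖B1 (g.1 + U g.2) - B0 g.1 - ell B0 B1 g.1 g.2 * U g.2‖ ≤ 2 * (Wc * η) ∧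
      ‖B2 (g.1 + ω * U g.2) - B0 g.1 - conj ω * ell B0 B1 g.1 g.2 * U g.2‖ ≤ 3 * (Wc ^ 2 * η) := by
    intro g hg
    have hg' : (c * g.1, g.2 + α) ∈ G0 := hg
    obtain ⟨q1, q2, q3, q4⟩ := hpt _ hg' _ _ rfl rfl
    simp only at q1 q2 q3 q4
    have x1 : c * g.1 + v0 * U (g.2 + α) = c * (g.1 + U g.2) := by rw [← hcU]; ring
    have x2 : c * g.1 + (ω * v0) * U (g.2 + α) = c * (g.1 + ω * U g.2) := by
      have := hcU g.2
      linear_combination (-ω) * this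
    rw [x1, x2] at q1 q2 q3 q4
    obtain ⟨s1, s2, s3⟩ := A9_alg ω (a0 (cell ρ (c * g.1))) (a1 (cell ρ (c * (g.1 + U g.2))))
      (a2 (cell ρ (c * (g.1 + ω * U g.2)))) r g.2 α η hr q1 q2
    exact ⟨_, q3, q4, s1, s2, s3⟩
  have hεn : (0:ℝ) < ε ^ (4 * q + 20) := hεp _
  -- bound for Wc^2 η
  have hκ : 3 * (Wc ^ 2 * η) ≤ r / ε ^ (4 * q + 20) := by
    have h1 : 24 * Wc ^ 2 * ε ^ q ≤ 1 := A9_absorb ε hε hε2 _ q hq5
    rw [hη, le_div_iff₀ hεn]
    have h2 : ε ^ (4 * q + 20) ≤ ε ^ q * ε ^ (a + b + 1) := by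
      rw [← pow_add]; exact pow_le_pow_of_le_one hε.le hε1 (by omega)
    calc 3 * (Wc ^ 2 * (8 * r / ε ^ (a + b + 1))) * ε ^ (4 * q + 20)
        ≤ 3 * (Wc ^ 2 * (8 * r / ε ^ (a + b + 1))) * (ε ^ q * ε ^ (a + b + 1)) := by gcongr
      _ = r * (24 * Wc ^ 2 * ε ^ q) := by field_simp; ring
      _ ≤ r * 1 := by gcongr
      _ = r := mul_one r
  have hWη : Wc * η ≤ ε ^ b / 8 := by
    have h1 : 64 * Wc * ε ^ q ≤ 1 := A9_absorb ε hε hε2 _ q hq4
    have h2 : r ≤ ε ^ (q + b) * ε ^ (a + b + 1) := by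
      rw [← pow_add]; exact hrn.le.trans (pow_le_pow_of_le_one hε.le hε1 (by omega))
    have h3 : η ≤ 8 * ε ^ (q + b) := by
      rw [hη, div_le_iff₀ hεab]; linarith
    calc Wc * η ≤ Wc * (8 * ε ^ (q + b)) := by gcongr
      _ = (64 * Wc * ε ^ q) * ε ^ b / 8 := by rw [pow_add]; ring
      _ ≤ 1 * ε ^ b / 8 := by gcongr
      _ = ε ^ b / 8 := by rw [one_mul]
  have hε3 : ε ^ 3 ≤ 1 / 8 := by
    calc ε ^ 3 ≤ (1 / 2) ^ 3 := by gcongr
      _ = 1 / 8 := by norm_num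
  refine ⟨B0, B1, B2, G, ?_⟩
  refine ⟨?_, ?_, ?_, hGm, ?_, ?_, ?_, ?_, ?_, ?_, ?_⟩
  · exact ((((hcell a0).const_mul _).const_mul _).const_mul _)
  · exact ((((hcell a1).const_mul _).const_mul _).neg.const_mul _)
  · exact (((((hcell a2).const_mul _).const_mul _).const_mul _).const_mul _)
  · intro g hg
    have hg' : (c * g.1, g.2 + α) ∈ G0 := hg
    have h1 : ‖c * g.1‖ ≤ L := by simpa using hg'.1.2.1
    rw [norm_mul, hcn] at h1
    calc ‖g.1‖ = 1 * ‖g.1‖ := (one_mul _).symm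
      _ ≤ ‖v0‖ * ‖g.1‖ := by gcongr
      _ ≤ L := h1
  · intro g hg
    have hg' : (c * g.1, g.2 + α) ∈ G0 := hg
    have h1 : g.2 + α ∈ J := hg'.1.2.2
    rw [hJ, mem_Ioc] at h1
    constructor <;> linarith [h1.1, h1.2]
  · have h1 := A9_mulpre2 c hcne α G0 hG0m
    have h2 : volume.real G = (‖c‖ ^ 2)⁻¹ * volume.real G0 := by
      unfold Measure.real
      rw [hG, h1, ENNReal.toReal_mul, ENNReal.toReal_ofReal (by positivity)]
    rw [h2, hcn]
    have h3 : ‖v0‖ ^ 2 ≤ 9 := by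
      calc ‖v0‖ ^ 2 ≤ 3 ^ 2 := by gcongr
        _ = 9 := by norm_num
    have h4 : (1:ℝ) / 9 ≤ (‖v0‖ ^ 2)⁻¹ := by
      rw [one_div]; exact inv_anti₀ (by positivity) h3
    have h5 : ε ^ (4 * q + 20) ≤ ε * ε ^ 10 := by
      rw [← pow_succ']; exact pow_le_pow_of_le_one hε.le hε1 (by omega)
    have h6 : ε ^ 10 ≤ (1 / 2) ^ 10 := by gcongr
    have h7 : ε * ε ^ 10 ≤ ε * (1 / 2) ^ 10 := by gcongr
    calc ε ^ (4 * q + 20) ≤ ε * (1 / 2) ^ 10 := h5.trans h7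
      _ ≤ 1 / 9 * (ε / 112) := by norm_num; linarith
      _ ≤ (‖v0‖ ^ 2)⁻¹ * volume.real G0 := by gcongr
  · intro g hg
    obtain ⟨μ, -, -, -, m4, -⟩ := main g hg
    refine m4.trans (le_trans ?_ hκ)
    have h1 : Wc ≤ Wc ^ 2 := by rw [sq]; exact le_mul_of_one_le_left hWc0 hWc1
    have h2 : Wc * η ≤ Wc ^ 2 * η := mul_le_mul_of_nonneg_right h1 hηnn
    have h3 : 0 ≤ Wc ^ 2 * η := by positivity
    linarith
  · intro g hg
    obtain ⟨μ, -, -, -, -, m5⟩ := main g hg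
    exact m5.trans hκ
  · intro g hg
    obtain ⟨μ, -, m2, m3, -, -⟩ := main g hg
    have h1 : ε ^ b / 8 ≤ |ell B0 B1 g.1 g.2| := by
      have := abs_sub_abs_le_abs_sub μ (ell B0 B1 g.1 g.2)
      rw [abs_sub_comm] at this
      linarith
    refine le_trans ?_ h1
    calc ε ^ (4 * q + 20) ≤ ε ^ (b + 3) := pow_le_pow_of_le_one hε.le hε1 (by omega)
      _ = ε ^ b * ε ^ 3 := pow_add _ _ _
      _ ≤ ε ^ b * (1 / 8) := by gcongr
      _ = ε ^ b / 8 := by ring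
  · intro g hg
    obtain ⟨μ, m1, -, m3, -, -⟩ := main g hg
    have hεb1 : ε ^ b ≤ 1 := pow_le_one₀ hε.le hε1
    have h1 : |ell B0 B1 g.1 g.2| ≤ 5 / ε ^ b := by
      have := abs_sub_abs_le_abs_sub (ell B0 B1 g.1 g.2) μ
      have h2 : (1:ℝ) ≤ 1 / ε ^ b := by rw [le_div_iff₀ (hεp b)]; linarith
      have h3 : 5 / ε ^ b = 4 / ε ^ b + 1 / ε ^ b := by ring
      linarith
    refine h1.trans ?_
    rw [div_le_div_iff₀ (hεp b) hεn]
    calc 5 * ε ^ (4 * q + 20) ≤ 5 * ε ^ (b + 3) :=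
          mul_le_mul_of_nonneg_left (pow_le_pow_of_le_one hε.le hε1 (by omega)) (by norm_num)
      _ = 5 * (ε ^ b * ε ^ 3) := by rw [pow_add]
      _ ≤ 5 * (ε ^ b * (1 / 8)) := by gcongr
      _ ≤ 1 * ε ^ b := by linarith [hεp b]

end TriDil
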