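import Pool.Agent.TriDil.Basic7
set_option autoImplicit false
open MeasureTheory Complex Set
namespace TriDil
open scoped ComplexConjugate

/-- separated points of a set of positive measure -/
theorem B1_points (n : ℕ) : ∀ (S : Set ℝ) (g L L' : ℝ), MeasurableSet S → S ⊆ Icc L L' → 0 < g →
    (n : ℝ) * g < volume.real S →
    ∃ t : ℕ → ℝ, (∀ i, i ≤ n → t i ∈ S) ∧ ∀ i j, i < j → j ≤ n → t i + g ≤ t j := by
  induction n with
  | zero =>
    intro S g L L' hS hL hg hv
    have hne : S.Nonempty := by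
      rw [nonempty_iff_ne_empty]
      rintro rfl
      simp at hv
    obtain ⟨t, ht⟩ := hne
    exact ⟨fun _ => t, fun _ _ => ht, fun i j hij hj => by omega⟩
  | succ n ih =>
    intro S g L L' hS hL hg hv
    push_cast at hv
    have hne : S.Nonempty := by
      rw [nonempty_iff_ne_empty]
      rintro rfl
      simp only [measureReal_empty] at hv
      have : 0 ≤ ((n : ℝ) + 1) * g := by positivity
      linarith
    have hbd : BddBelow S := ⟨L, fun x hx => (hL hx).1⟩
    obtain ⟨t0, ht0, ht0'⟩ := exists_lt_of_csInf_lt hne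
      (show sInf S < sInf S + (volume.real S - ((n : ℝ) + 1) * g) / 2 by linarith)
    have hle : sInf S ≤ t0 := csInf_le hbd ht0
    have h1 : S ⊆ (S ∩ Ici (t0 + g)) ∪ Icc (sInf S) (t0 + g) := by
      intro x hx
      rcases le_total (t0 + g) x with h | h
      · exact Or.inl ⟨hx, h⟩
      · exact Or.inr ⟨csInf_le hbd hx, h⟩
    have hfin : volume ((S ∩ Ici (t0 + g)) ∪ Icc (sInf S) (t0 + g)) ≠ ⊤ := by
      refine ne_top_of_le_ne_top ?_ (measure_union_le _ _)
      refine ENNReal.add_ne_top.2 ⟨?_, ?_⟩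
      · refine ne_top_of_le_ne_top ?_ (measure_mono (inter_subset_left.trans hL))
        rw [Real.volume_Icc]
        exact ENNReal.ofReal_ne_top
      · rw [Real.volume_Icc]
        exact ENNReal.ofReal_ne_top
    have h2 : volume.real S ≤ volume.real (S ∩ Ici (t0 + g)) + (t0 + g - sInf S) := by
      calc volume.real S ≤ volume.real ((S ∩ Ici (t0 + g)) ∪ Icc (sInf S) (t0 + g)) :=
            measureReal_mono h1 hfin
        _ ≤ volume.real (S ∩ Ici (t0 + g)) + volume.real (Icc (sInf S) (t0 + g)) :=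
            measureReal_union_le _ _
        _ = _ := by rw [Real.volume_real_Icc_of_le (by linarith)]
    have h3 : (n : ℝ) * g < volume.real (S ∩ Ici (t0 + g)) := by linarith
    obtain ⟨t, ht1, ht2⟩ := ih (S ∩ Ici (t0 + g)) g L L' (hS.inter measurableSet_Ici)
      (inter_subset_left.trans hL) hg h3
    refine ⟨fun i => Nat.casesOn i t0 t, ?_, ?_⟩
    · intro i hi
      cases i with
      | zero => exact ht0
      | succ i => exact (ht1 i (by omega)).1
    · intro i j hij hj
      cases j with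
      | zero => omega
      | succ j =>
        cases i with
        | zero => exact (ht1 j (by omega)).2
        | succ i => exact ht2 i j (by omega) (by omega)

theorem remez2 (a b c A L ε : ℝ) (S : Set ℝ) (hS : MeasurableSet S) (hL : S ⊆ Icc (-L) L) (hε : 0 < ε)
    (hv : ε ≤ volume.real S) (h : ∀ t ∈ S, |a * t ^ 2 + b * t + c| ≤ A) : |a| ≤ 48 * A / ε ^ 2 := by
  obtain ⟨t, h1, h2⟩ := B1_points 2 S (ε / 4) (-L) L hS hL (by linarith) (by push_cast; linarith)
  have hx := abs_le.1 (h _ (h1 0 (by norm_num)))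
  have hy := abs_le.1 (h _ (h1 1 (by norm_num)))
  have hz := abs_le.1 (h _ (h1 2 (by norm_num)))
  have hp := h2 0 1 (by norm_num) (by norm_num)
  have hr := h2 1 2 (by norm_num) (by norm_num)
  set x := t 0
  set y := t 1
  set z := t 2
  have hA : 0 ≤ A := (abs_nonneg _).trans (h _ (h1 0 (by norm_num)))
  obtain ⟨p, hp'⟩ : ∃ p, y = x + p := ⟨y - x, by ring⟩
  obtain ⟨r, hr'⟩ : ∃ r, z = y + r := ⟨z - y, by ring⟩
  have hp1 : ε / 4 ≤ p := by linarith
  have hr1 : ε / 4 ≤ r := by linarith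
  have hp0 : 0 < p := by linarith
  have hr0 : 0 < r := by linarith
  have key : a * (p * r * (p + r)) = (a * x ^ 2 + b * x + c) * r - (a * y ^ 2 + b * y + c) * (p + r)
      + (a * z ^ 2 + b * z + c) * p := by
    rw [hr', hp']; ring
  have h3 : |a| * (p * r * (p + r)) ≤ 2 * A * (p + r) := by
    have h4 : |a * (p * r * (p + r))| ≤ 2 * A * (p + r) := by
      rw [key, abs_le]
      constructor
      · nlinarith [mul_le_mul_of_nonneg_right hx.1 hr0.le, mul_le_mul_of_nonneg_right hz.1 hp0.le,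
          mul_le_mul_of_nonneg_right hy.2 (add_pos hp0 hr0).le]
      · nlinarith [mul_le_mul_of_nonneg_right hx.2 hr0.le, mul_le_mul_of_nonneg_right hz.2 hp0.le,
          mul_le_mul_of_nonneg_right hy.1 (add_pos hp0 hr0).le]
    rw [abs_mul, abs_of_pos (by positivity : 0 < p * r * (p + r))] at h4
    exact h4
  have h5 : |a| * (p * r) ≤ 2 * A := by
    have : |a| * (p * r) * (p + r) ≤ 2 * A * (p + r) := by linarith
    exact le_of_mul_le_mul_right this (add_pos hp0 hr0)
  have h6 : ε ^ 2 / 16 ≤ p * r := by nlinarith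
  have h7 : |a| * (ε ^ 2 / 16) ≤ 2 * A := (mul_le_mul_of_nonneg_left h6 (abs_nonneg a)).trans h5
  rw [le_div_iff₀ (by positivity)]
  nlinarith

theorem remez1 (b c A L ε : ℝ) (S : Set ℝ) (hS : MeasurableSet S) (hL : S ⊆ Icc (-L) L) (hε : 0 < ε)
    (hv : ε ≤ volume.real S) (h : ∀ t ∈ S, |b * t + c| ≤ A) : |b| ≤ 4 * A / ε := by
  obtain ⟨t, h1, h2⟩ := B1_points 1 S (ε / 2) (-L) L hS hL (by linarith) (by push_cast; linarith)
  have hx := abs_le.1 (h _ (h1 0 (by norm_num)))
  have hy := abs_le.1 (h _ (h1 1 (by norm_num)))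
  have hp := h2 0 1 (by norm_num) (by norm_num)
  have h3 : |b| * (t 1 - t 0) ≤ 2 * A := by
    rw [← abs_of_pos (by linarith : 0 < t 1 - t 0), ← abs_mul, abs_le]
    constructor <;> nlinarith
  have h4 : |b| * (ε / 2) ≤ |b| * (t 1 - t 0) :=
    mul_le_mul_of_nonneg_left (by linarith) (abs_nonneg _)
  rw [le_div_iff₀ hε]
  linarith

/-- Fubini: sets with short slices are small -/
theorem B1_slice {β : Type*} [MeasurableSpace β] (μ : Measure β) [SFinite μ] (T : Set (ℝ × β))
    (hT : MeasurableSet T) (B : Set β) (hB : MeasurableSet B) (hTB : ∀ x y, (x, y) ∈ T → y ∈ B)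
    (δ : ℝ) (hδ : ∀ x x' y, (x, y) ∈ T → (x', y) ∈ T → |x - x'| ≤ δ) :
    ((volume : Measure ℝ).prod μ) T ≤ ENNReal.ofReal δ * μ B := by
  rw [Measure.prod_apply_symm hT]
  calc ∫⁻ y, volume ((fun x => (x, y)) ⁻¹' T) ∂μ
      ≤ ∫⁻ y, B.indicator (fun _ => ENNReal.ofReal δ) y ∂μ := by
        refine lintegral_mono fun y => ?_
        by_cases hy : y ∈ B
        · rw [indicator_of_mem hy]
          refine (Real.volume_le_diam _).trans (Metric.ediam_le fun x hx x' hx' => ?_)
          rw [edist_dist, Real.dist_eq]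
          exact ENNReal.ofReal_le_ofReal (hδ _ _ _ hx hx')
        · rw [indicator_of_notMem hy]
          have : (fun x => (x, y)) ⁻¹' T = ∅ := by
            ext x
            simp only [mem_preimage, mem_empty_iff_false, iff_false]
            exact fun h => hy (hTB _ _ h)
          rw [this, measure_empty]
    _ = ENNReal.ofReal δ * μ B := by rw [lintegral_indicator hB, setLIntegral_const]

theorem B1_slab {β γ : Type*} [MeasurableSpace β] [MeasurableSpace γ] (μ : Measure β) [SFinite μ]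
    (ν : Measure γ) (f : ℝ × β → γ) (hf : MeasurePreserving f ((volume : Measure ℝ).prod μ) ν)
    (S : Set γ) (hS : MeasurableSet S) (φ : γ → ℝ) (c A : ℝ)
    (hφ : ∀ x x' y, φ (f (x, y)) - φ (f (x', y)) = c * (x - x'))
    (hA : ∀ z ∈ S, ∀ z' ∈ S, |φ z - φ z'| ≤ A) (B : Set β) (hB : MeasurableSet B)
    (hfB : ∀ x y, f (x, y) ∈ S → y ∈ B) (m w : ℝ) (hm : μ B ≤ ENNReal.ofReal m) (hm0 : 0 ≤ m)
    (hw : 0 < w) (hwS : w ≤ ν.real S) : |c| ≤ A * m / w := by
  have hne : S.Nonempty := by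
    rw [nonempty_iff_ne_empty]
    rintro rfl
    simp only [measureReal_empty] at hwS
    linarith
  obtain ⟨z0, hz0⟩ := hne
  have hA0 : 0 ≤ A := (abs_nonneg _).trans (hA z0 hz0 z0 hz0)
  rcases eq_or_ne c 0 with rfl | hc
  · rw [abs_zero]
    positivity
  have hc' : 0 < |c| := abs_pos.2 hc
  have h1 := B1_slice μ (f ⁻¹' S) (hf.measurable hS) B hB (fun x y h => hfB x y h) (A / |c|) (by
    intro x x' y h h'
    rw [le_div_iff₀ hc', ← abs_mul, mul_comm, ← hφ x x' y]
    exact hA _ h _ h')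
  rw [hf.measure_preimage hS.nullMeasurableSet] at h1
  have h2 : ν S ≤ ENNReal.ofReal (A / |c| * m) := by
    rw [ENNReal.ofReal_mul (by positivity)]
    exact h1.trans (by gcongr)
  have h3 : ν.real S ≤ A / |c| * m := by
    unfold Measure.real
    exact ENNReal.toReal_le_of_le_ofReal (by positivity) h2
  have h4 : w ≤ A / |c| * m := hwS.trans h3
  rw [le_div_iff₀ hw]
  rw [div_mul_eq_mul_div, le_div_iff₀ hc'] at h4
  linarith

theorem B1_mp1 : MeasurePreserving (fun p : ℝ × ℝ => (⟨p.1, p.2⟩ : ℂ))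
    ((volume : Measure ℝ).prod volume) volume :=
  Complex.volume_preserving_equiv_real_prod.symm

theorem B1_mp2 : MeasurePreserving (fun p : ℝ × ℝ => (⟨p.2, p.1⟩ : ℂ))
    ((volume : Measure ℝ).prod volume) volume :=
  B1_mp1.comp Measure.measurePreserving_swap

theorem B1_mp3 : MeasurePreserving (fun p : ℝ × (ℝ × ℝ) => ((⟨p.1, p.2.1⟩ : ℂ), p.2.2))
    ((volume : Measure ℝ).prod volume) volume := by
  have h1 := (B1_mp1.prod (MeasurePreserving.id (volume : Measure ℝ)))
  have h2 : MeasurePreserving (MeasurableEquiv.prodAssoc (α := ℝ) (β := ℝ) (γ := ℝ)).symm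
      (volume.prod (volume.prod volume)) ((volume.prod volume).prod volume) :=
    (volume_preserving_prodAssoc (α₁ := ℝ) (β₁ := ℝ) (γ₁ := ℝ)).symm
  exact h1.comp h2

theorem B1_mp4 : MeasurePreserving (fun p : ℝ × (ℝ × ℝ) => ((⟨p.2.1, p.1⟩ : ℂ), p.2.2))
    ((volume : Measure ℝ).prod volume) volume := by
  have h1 := (B1_mp2.prod (MeasurePreserving.id (volume : Measure ℝ)))
  have h2 : MeasurePreserving (MeasurableEquiv.prodAssoc (α := ℝ) (β := ℝ) (γ := ℝ)).symm
      (volume.prod (volume.prod volume)) ((volume.prod volume).prod volume) :=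
    (volume_preserving_prodAssoc (α₁ := ℝ) (β₁ := ℝ) (γ₁ := ℝ)).symm
  exact h1.comp h2

theorem B1_mp5 : MeasurePreserving (fun p : ℝ × ℂ => (p.2, p.1))
    ((volume : Measure ℝ).prod volume) volume :=
  Measure.measurePreserving_swap

theorem B1_box (l : ℝ) (hl : 0 ≤ l) :
    (volume : Measure (ℝ × ℝ)) (Icc (-l) l ×ˢ Icc (-l) l) ≤ ENNReal.ofReal (4 * l ^ 2) := by
  rw [Measure.volume_eq_prod, Measure.prod_prod, Real.volume_Icc, ← ENNReal.ofReal_mul (by linarith)]
  apply le_of_eq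
  congr 1
  ring

/-- slab lemma in dimension 3, scale `d` -/
theorem slab3 (L : ℝ) : ∃ C : ℝ, 0 < C ∧ ∀ (v : ℂ) (a A ε d : ℝ) (S : Set (ℂ × ℝ)), MeasurableSet S →
    0 < d → 0 < ε → (∀ z ∈ S, ‖z.1‖ ≤ L * d) → (∀ z ∈ S, |z.2| ≤ L * d) → ε * d ^ 3 ≤ volume.real S →
    (∀ z ∈ S, |ip v z.1 + a * z.2| ≤ A) → ‖v‖ ≤ C * A / (ε * d) ∧ |a| ≤ C * A / (ε * d) := by
  refine ⟨16 * L ^ 2 + 1, by positivity, ?_⟩
  intro v a A ε d S hS hd hε h1 h2 hv hA
  have hw : 0 < ε * d ^ 3 := by positivity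
  have hne : S.Nonempty := by
    rw [nonempty_iff_ne_empty]
    rintro rfl
    simp only [measureReal_empty] at hv
    linarith
  obtain ⟨z0, hz0⟩ := hne
  have hA0 : 0 ≤ A := (abs_nonneg _).trans (hA z0 hz0)
  have hL : 0 ≤ L * d := (norm_nonneg _).trans (h1 z0 hz0)
  have hAA : ∀ z ∈ S, ∀ z' ∈ S, |(ip v z.1 + a * z.2) - (ip v z'.1 + a * z'.2)| ≤ 2 * A := by
    intro z hz z' hz'
    have h3 := abs_le.1 (hA z hz)
    have h4 := abs_le.1 (hA z' hz')
    rw [abs_le]
    constructor <;> linarith [h3.1, h3.2, h4.1, h4.2]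
  have hre : |v.re| ≤ 2 * A * (4 * (L * d) ^ 2) / (ε * d ^ 3) := by
    refine B1_slab volume volume _ B1_mp3 S hS (fun z => ip v z.1 + a * z.2) v.re (2 * A) ?_ hAA
      (Icc (-(L * d)) (L * d) ×ˢ Icc (-(L * d)) (L * d)) (measurableSet_Icc.prod measurableSet_Icc)
      ?_ _ _ (B1_box _ hL) (by positivity) hw hv
    · rintro x x' ⟨y, s⟩
      simp only [ip]
      ring
    · rintro x ⟨y, s⟩ hz
      refine ⟨abs_le.1 ?_, abs_le.1 (h2 _ hz)⟩
      exact (Complex.abs_im_le_norm _).trans (h1 _ hz)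
  have him : |v.im| ≤ 2 * A * (4 * (L * d) ^ 2) / (ε * d ^ 3) := by
    refine B1_slab volume volume _ B1_mp4 S hS (fun z => ip v z.1 + a * z.2) v.im (2 * A) ?_ hAA
      (Icc (-(L * d)) (L * d) ×ˢ Icc (-(L * d)) (L * d)) (measurableSet_Icc.prod measurableSet_Icc)
      ?_ _ _ (B1_box _ hL) (by positivity) hw hv
    · rintro x x' ⟨y, s⟩
      simp only [ip]
      ring
    · rintro x ⟨y, s⟩ hz
      refine ⟨abs_le.1 ?_, abs_le.1 (h2 _ hz)⟩
      exact (Complex.abs_re_le_norm _).trans (h1 _ hz)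
  have ha : |a| ≤ 2 * A * (4 * (L * d) ^ 2) / (ε * d ^ 3) := by
    refine B1_slab volume volume _ B1_mp5 S hS (fun z => ip v z.1 + a * z.2) a (2 * A) ?_ hAA
      (Metric.closedBall 0 (L * d)) measurableSet_closedBall ?_ _ _ ?_ (by positivity) hw hv
    · intro x x' y
      ring
    · intro x y hz
      rw [mem_closedBall_zero_iff]
      exact h1 _ hz
    · rw [Complex.volume_closedBall, ← ENNReal.ofReal_pow hL]
      have h5 : (NNReal.pi : ENNReal) ≤ ENNReal.ofReal 4 := by
        have h6 : (NNReal.pi : ENNReal) = ENNReal.ofReal Real.pi := by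
          rw [ENNReal.ofReal, Real.toNNReal_of_nonneg Real.pi_pos.le]
          rfl
        rw [h6]
        exact ENNReal.ofReal_le_ofReal Real.pi_le_four
      calc ENNReal.ofReal ((L * d) ^ 2) * NNReal.pi ≤ ENNReal.ofReal ((L * d) ^ 2) * ENNReal.ofReal 4 := by
            gcongr
        _ = ENNReal.ofReal (4 * (L * d) ^ 2) := by
            rw [← ENNReal.ofReal_mul (by positivity), mul_comm]
  have h8 : 2 * A * (4 * (L * d) ^ 2) / (ε * d ^ 3) = 8 * L ^ 2 * A / (ε * d) := by
    field_simp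
    ring
  rw [h8] at hre him ha
  have h9 : 0 ≤ A / (ε * d) := by positivity
  have h10 : (16 * L ^ 2 + 1) * A / (ε * d) = 2 * (8 * L ^ 2 * A / (ε * d)) + A / (ε * d) := by ring
  have h11 : 0 ≤ 8 * L ^ 2 * A / (ε * d) := by positivity
  constructor
  · rw [h10]
    have := Complex.norm_le_abs_re_add_abs_im v
    linarith
  · rw [h10]
    linarith

/-- real-linear maps small on differences of a dense set, scale `d` -/
theorem lin2 (L : ℝ) : ∃ C : ℝ, 0 < C ∧ ∀ (P Q : ℂ) (A ε d : ℝ) (S : Set ℂ), MeasurableSet S →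
    0 < d → 0 < ε → (∀ z ∈ S, ∀ z' ∈ S, ‖z - z'‖ ≤ L * d) → ε * d ^ 2 ≤ volume.real S →
    (∀ z ∈ S, ∀ z' ∈ S, ‖P * (z - z') + Q * conj (z - z')‖ ≤ A) →
    ‖P‖ ≤ C * A / (ε * d) ∧ ‖Q‖ ≤ C * A / (ε * d) := by
  refine ⟨8 * |L| + 1, by positivity, ?_⟩
  intro P Q A ε d S hS hd hε h1 hv hA
  have hw : 0 < ε * d ^ 2 := by positivity
  have hne : S.Nonempty := by
    rw [nonempty_iff_ne_empty]
    rintro rfl
    simp only [measureReal_empty] at hv
    linarith
  obtain ⟨z0, hz0⟩ := hne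
  have hA0 : 0 ≤ A := (norm_nonneg _).trans (hA z0 hz0 z0 hz0)
  have hL : 0 ≤ L * d := (norm_nonneg _).trans (h1 z0 hz0 z0 hz0)
  have hL0 : 0 ≤ L := by
    by_contra h
    push Not at h
    have := mul_neg_of_neg_of_pos h hd
    linarith
  -- the two coefficients of a real functional
  have key : ∀ α β : ℝ, (∀ z ∈ S, ∀ z' ∈ S, |(α * z.re + β * z.im) - (α * z'.re + β * z'.im)| ≤ A) →
      |α| ≤ A * (2 * (L * d)) / (ε * d ^ 2) ∧ |β| ≤ A * (2 * (L * d)) / (ε * d ^ 2) := by
    intro α β hαβ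
    constructor
    · refine B1_slab volume volume _ B1_mp1 S hS (fun z => α * z.re + β * z.im) α A ?_ hαβ
        (Icc (z0.im - L * d) (z0.im + L * d)) measurableSet_Icc ?_ _ _ ?_ (by positivity) hw hv
      · intro x x' y
        ring
      · intro x y hz
        have h3 := (Complex.abs_im_le_norm _).trans (h1 _ hz _ hz0)
        rw [sub_im, abs_le] at h3
        constructor <;> linarith [h3.1, h3.2]
      · rw [Real.volume_Icc]
        apply le_of_eq
        congr 1
        ring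
    · refine B1_slab volume volume _ B1_mp2 S hS (fun z => α * z.re + β * z.im) β A ?_ hαβ
        (Icc (z0.re - L * d) (z0.re + L * d)) measurableSet_Icc ?_ _ _ ?_ (by positivity) hw hv
      · intro x x' y
        ring
      · intro x y hz
        have h3 := (Complex.abs_re_le_norm _).trans (h1 _ hz _ hz0)
        rw [sub_re, abs_le] at h3
        constructor <;> linarith [h3.1, h3.2]
      · rw [Real.volume_Icc]
        apply le_of_eq
        congr 1
        ring
  have hr := key (P.re + Q.re) (Q.im - P.im) (by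
    intro z hz z' hz'
    have h3 := (Complex.abs_re_le_norm _).trans (hA z hz z' hz')
    simp only [add_re, mul_re, conj_re, conj_im, sub_re, sub_im] at h3
    refine (le_of_eq ?_).trans h3
    congr 1
    ring)
  have hi := key (P.im + Q.im) (P.re - Q.re) (by
    intro z hz z' hz'
    have h3 := (Complex.abs_im_le_norm _).trans (hA z hz z' hz')
    simp only [add_im, mul_im, conj_re, conj_im, sub_re, sub_im] at h3
    refine (le_of_eq ?_).trans h3
    congr 1
    ring)
  have h8 : A * (2 * (L * d)) / (ε * d ^ 2) = 2 * L * A / (ε * d) := by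
    field_simp
  rw [h8] at hr hi
  obtain ⟨hr1, hr2⟩ := hr
  obtain ⟨hi1, hi2⟩ := hi
  rw [abs_le] at hr1 hr2 hi1 hi2
  set M := 2 * L * A / (ε * d) with hM
  have hM0 : 0 ≤ M := by positivity
  have h9 : 0 ≤ A / (ε * d) := by positivity
  have h10 : (8 * |L| + 1) * A / (ε * d) = 4 * M + A / (ε * d) := by
    rw [abs_of_nonneg hL0, hM]
    ring
  have hPr : |P.re| ≤ M := by rw [abs_le]; constructor <;> linarith [hr1.1, hr1.2, hi2.1, hi2.2]
  have hQr : |Q.re| ≤ M := by rw [abs_le]; constructor <;> linarith [hr1.1, hr1.2, hi2.1, hi2.2]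
  have hPi : |P.im| ≤ M := by rw [abs_le]; constructor <;> linarith [hr2.1, hr2.2, hi1.1, hi1.2]
  have hQi : |Q.im| ≤ M := by rw [abs_le]; constructor <;> linarith [hr2.1, hr2.2, hi1.1, hi1.2]
  rw [h10]
  constructor
  · have := Complex.norm_le_abs_re_add_abs_im P
    linarith
  · have := Complex.norm_le_abs_re_add_abs_im Q
    linarith

open Polynomial in
/-- coefficients of a polynomial bounded at separated points of the unit disc -/
theorem B1_poly (n : ℕ) : ∃ K : ℝ, 0 ≤ K ∧ ∀ (P : ℂ[X]) (A δ : ℝ) (z : ℕ → ℂ), P.natDegree ≤ n →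
    0 < δ → δ ≤ 1 → (∀ i, i ≤ n → ‖z i‖ ≤ 1) → (∀ i j, i < j → j ≤ n → δ ≤ ‖z i - z j‖) →
    (∀ i, i ≤ n → ‖P.eval (z i)‖ ≤ A) → ∀ k, ‖P.coeff k‖ ≤ K * A / δ ^ n := by
  induction n with
  | zero =>
    refine ⟨1, by norm_num, ?_⟩
    intro P A δ z hP hδ hδ1 hz1 hz hA k
    have hPc : P = C (P.coeff 0) := eq_C_of_natDegree_le_zero hP
    have h0 := hA 0 le_rfl
    have hA0 : 0 ≤ A := (norm_nonneg _).trans h0
    rw [hPc, eval_C] at h0
    rw [pow_zero, div_one, one_mul]
    rw [hPc, coeff_C]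
    split_ifs
    · exact h0
    · rw [norm_zero]
      exact hA0
  | succ n ih =>
    obtain ⟨K, hK, ih⟩ := ih
    refine ⟨1 + 4 * K, by positivity, ?_⟩
    intro P A δ z hP hδ hδ1 hz1 hz hA k
    have hA0 : 0 ≤ A := (norm_nonneg _).trans (hA 0 (by omega))
    let P0 := P - C (P.eval (z 0))
    let Q := P0 /ₘ (X - C (z 0))
    have hroot : P0.IsRoot (z 0) := by
      simp [P0, IsRoot.def]
    have hfac : (X - C (z 0)) * Q = P0 := mul_divByMonic_eq_iff_isRoot.2 hroot
    have hdeg : Q.natDegree ≤ n := by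
      have h1 : Q.natDegree = P0.natDegree - 1 := by
        change (P0 /ₘ (X - C (z 0))).natDegree = _
        rw [natDegree_divByMonic _ (monic_X_sub_C _), natDegree_X_sub_C]
      have h2 : P0.natDegree ≤ n + 1 := by
        change (P - C (P.eval (z 0))).natDegree ≤ n + 1
        rw [natDegree_sub_C]
        exact hP
      omega
    have hev : ∀ i, i ≤ n → ‖Q.eval (z (i + 1))‖ ≤ 2 * A / δ := by
      intro i hi
      have h1 : (z (i + 1) - z 0) * Q.eval (z (i + 1)) = P.eval (z (i + 1)) - P.eval (z 0) := by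
        have := congrArg (fun p => eval (z (i + 1)) p) hfac
        simpa [P0] using this
      have h2 : ‖z (i + 1) - z 0‖ * ‖Q.eval (z (i + 1))‖ ≤ 2 * A := by
        rw [← norm_mul, h1]
        refine (norm_sub_le _ _).trans ?_
        have := hA (i + 1) (by omega)
        have := hA 0 (by omega)
        linarith
      have h3 : δ ≤ ‖z (i + 1) - z 0‖ := by
        rw [norm_sub_rev]
        exact hz 0 (i + 1) (by omega) (by omega)
      rw [le_div_iff₀ hδ]
      have := mul_le_mul_of_nonneg_right h3 (norm_nonneg (Q.eval (z (i + 1))))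
      linarith
    have hQ := ih Q (2 * A / δ) δ (fun i => z (i + 1)) hdeg hδ hδ1 (fun i hi => hz1 _ (by omega))
      (fun i j hij hj => hz _ _ (by omega) (by omega)) hev
    have hB0 : 0 ≤ K * (2 * A / δ) / δ ^ n := by positivity
    have hPQ : P = X * Q - C (z 0) * Q + C (P.eval (z 0)) := by
      rw [← sub_mul, hfac]
      simp [P0]
    have h1 : ‖P.coeff k‖ ≤ 2 * (K * (2 * A / δ) / δ ^ n) + A := by
      rw [hPQ, coeff_add, coeff_sub, coeff_C_mul]
      have ha : ‖(X * Q).coeff k‖ ≤ K * (2 * A / δ) / δ ^ n := by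
        cases k with
        | zero =>
          rw [mul_coeff_zero, coeff_X_zero, zero_mul, norm_zero]
          exact hB0
        | succ k =>
          rw [coeff_X_mul]
          exact hQ k
      have hb : ‖z 0 * Q.coeff k‖ ≤ K * (2 * A / δ) / δ ^ n := by
        rw [norm_mul]
        calc ‖z 0‖ * ‖Q.coeff k‖ ≤ 1 * ‖Q.coeff k‖ := by
              gcongr
              exact hz1 0 (by omega)
          _ ≤ _ := by rw [one_mul]; exact hQ k
      have hc : ‖(C (P.eval (z 0))).coeff k‖ ≤ A := by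
        rw [coeff_C]
        split_ifs
        · exact hA 0 (by omega)
        · rw [norm_zero]
          exact hA0
      calc ‖(X * Q).coeff k - z 0 * Q.coeff k + (C (P.eval (z 0))).coeff k‖
          ≤ ‖(X * Q).coeff k - z 0 * Q.coeff k‖ + ‖(C (P.eval (z 0))).coeff k‖ := norm_add_le _ _
        _ ≤ ‖(X * Q).coeff k‖ + ‖z 0 * Q.coeff k‖ + ‖(C (P.eval (z 0))).coeff k‖ := by
            gcongr
            exact norm_sub_le _ _
        _ ≤ _ := by linarith
    refine h1.trans ?_
    have h2 : A ≤ A / δ ^ (n + 1) := by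
      rw [le_div_iff₀ (by positivity)]
      exact mul_le_of_le_one_right hA0 (pow_le_one₀ hδ.le hδ1)
    have h3 : 2 * (K * (2 * A / δ) / δ ^ n) = 4 * K * A / δ ^ (n + 1) := by
      rw [pow_succ]
      field_simp
      ring
    rw [h3]
    have h4 : (1 + 4 * K) * A / δ ^ (n + 1) = 4 * K * A / δ ^ (n + 1) + A / δ ^ (n + 1) := by ring
    rw [h4]
    linarith

theorem B1_U_pow (θ : ℝ) (n : ℕ) : U ((n : ℝ) * θ) = U θ ^ n := by
  unfold U
  rw [← Complex.exp_nat_mul]
  congr 1
  push_cast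
  ring

theorem B1_U_dist (s t : ℝ) (h : |t - s| ≤ 3) : 2 / Real.pi * |t - s| ≤ ‖U s - U t‖ := by
  have h1 : ‖U s - U t‖ = ‖2 * Real.sin ((t - s) / 2)‖ := by
    have h2 : U s - U t = -(U s * (Complex.exp (I * ((t - s : ℝ) : ℂ)) - 1)) := by
      have : U t = U s * U (t - s) := by rw [← U_add]; congr 1; ring
      rw [this]
      unfold U
      ring_nf
    rw [h2, norm_neg, norm_mul, norm_U, one_mul, Complex.norm_exp_I_mul_ofReal_sub_one]
  rw [h1, Real.norm_eq_abs, abs_mul, abs_of_pos (by norm_num : (0 : ℝ) < 2)]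
  have h3 : |Real.sin ((t - s) / 2)| = Real.sin (|t - s| / 2) := by
    have h4 : |t - s| / 2 = |(t - s) / 2| := by
      rw [abs_div, abs_of_pos (by norm_num : (0 : ℝ) < 2)]
    rw [h4, Real.abs_sin_eq_sin_abs_of_abs_le_pi]
    rw [← h4]
    have := Real.pi_gt_three
    linarith
  rw [h3]
  have h5 := Real.mul_le_sin (x := |t - s| / 2) (by positivity) (by
    have := Real.pi_gt_three
    linarith)
  linarith

open Polynomial in
/-- trigonometric polynomials of degree ≤ 3 -/
theorem trig_remez : ∃ C : ℝ, 0 < C ∧ ∀ (c : Fin 7 → ℂ) (A ε a : ℝ) (S : Set ℝ), MeasurableSet S →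
    0 < ε → S ⊆ Icc a (a + 3) → ε ≤ volume.real S →
    (∀ θ ∈ S, ‖∑ k : Fin 7, c k * U (((k : ℕ) - 3 : ℝ) * θ)‖ ≤ A) → ∀ k, ‖c k‖ ≤ C * A / ε ^ 6 := by
  obtain ⟨K, hK, hKP⟩ := B1_poly 6
  refine ⟨K * (7 * Real.pi / 2) ^ 6 + 1, by positivity, ?_⟩
  intro c A ε a S hS hε hSa hv h k
  obtain ⟨t, h1, h2⟩ := B1_points 6 S (ε / 7) a (a + 3) hS hSa (by linarith) (by push_cast; linarith)
  have hA0 : 0 ≤ A := (norm_nonneg _).trans (h _ (h1 0 (by norm_num)))
  have hε3 : ε ≤ 3 := by
    refine hv.trans ?_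
    calc volume.real S ≤ volume.real (Icc a (a + 3)) :=
          measureReal_mono hSa (by rw [Real.volume_Icc]; exact ENNReal.ofReal_ne_top)
      _ = 3 := by rw [Real.volume_real_Icc_of_le (by linarith)]; ring
  let P : ℂ[X] := ∑ k : Fin 7, C (c k) * X ^ (k : ℕ)
  have hcoeff : ∀ k : Fin 7, P.coeff k = c k := by
    intro k
    change (∑ k : Fin 7, C (c k) * X ^ (k : ℕ)).coeff k = c k
    rw [finsetSum_coeff]
    simp only [coeff_C_mul, coeff_X_pow]
    rw [Finset.sum_eq_single k]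
    · simp
    · intro b _ hb
      rw [if_neg (fun h => hb (Fin.ext h.symm)), mul_zero]
    · simp
  have hdeg : P.natDegree ≤ 6 := by
    refine natDegree_sum_le_of_forall_le _ _ fun k _ => ?_
    refine (natDegree_C_mul_X_pow_le _ _).trans ?_
    have := k.2
    omega
  have heval : ∀ θ : ℝ, ‖P.eval (U θ)‖ = ‖∑ k : Fin 7, c k * U (((k : ℕ) - 3 : ℝ) * θ)‖ := by
    intro θ
    have h3 : ∑ k : Fin 7, c k * U (((k : ℕ) - 3 : ℝ) * θ) = U (-(3 * θ)) * P.eval (U θ) := by
      change _ = U (-(3 * θ)) * (∑ k : Fin 7, C (c k) * X ^ (k : ℕ)).eval (U θ)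
      rw [eval_finsetSum, Finset.mul_sum]
      refine Finset.sum_congr rfl fun k _ => ?_
      rw [eval_mul, eval_C, eval_pow, eval_X, ← B1_U_pow]
      have : ((k : ℕ) - 3 : ℝ) * θ = -(3 * θ) + ((k : ℕ) : ℝ) * θ := by ring
      rw [this, U_add]
      ring
    rw [h3, norm_mul, norm_U, one_mul]
  have hpi := Real.pi_gt_three
  have hpi4 := Real.pi_le_four
  have hδ1 : 2 / Real.pi * (ε / 7) ≤ 1 := by
    rw [div_mul_eq_mul_div, div_le_one Real.pi_pos]
    linarith
  have h4 := hKP P A (2 / Real.pi * (ε / 7)) (fun i => U (t i)) hdeg (by positivity) hδ1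
    (fun i _ => (norm_U _).le) (by
      intro i j hij hj
      have h5 := h2 i j hij hj
      have h6 := hSa (h1 j hj)
      have h7 := hSa (h1 i (by omega))
      have h8 : |t j - t i| = t j - t i := abs_of_pos (by linarith)
      refine le_trans ?_ (B1_U_dist (t i) (t j) ?_)
      · rw [h8]
        gcongr
        linarith
      · rw [h8]
        linarith [h6.2, h7.1]) (fun i hi => by
      rw [heval]
      exact h _ (h1 i hi)) k
  rw [hcoeff] at h4
  refine h4.trans ?_
  have h5 : K * A / (2 / Real.pi * (ε / 7)) ^ 6 = K * (7 * Real.pi / 2) ^ 6 * A / ε ^ 6 := by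
    field_simp
  rw [h5]
  have h6 : (K * (7 * Real.pi / 2) ^ 6 + 1) * A / ε ^ 6
      = K * (7 * Real.pi / 2) ^ 6 * A / ε ^ 6 + A / ε ^ 6 := by ring
  rw [h6]
  have : 0 ≤ A / ε ^ 6 := by positivity
  linarith

end TriDil
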