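import Pool.Agent.TriDil.Basic7
set_option autoImplicit false
open MeasureTheory Complex Set
namespace TriDil

/-- points of `A` in an interval of length `d` with few points of `A` to the right -/
theorem B2_int {A : Set ℝ} {d t a : ℝ} :
    volume ({θ | θ ∈ A ∧ volume.real {α : ℝ | α ∈ Ioo 0 d ∧ θ + α ∈ A} < t} ∩ Ico a (a + d))
      ≤ ENNReal.ofReal t := by
  set V : Set ℝ := {θ | θ ∈ A ∧ volume.real {α : ℝ | α ∈ Ioo 0 d ∧ θ + α ∈ A} < t} ∩ Ico a (a + d)
    with hV
  have key : ∀ θ ∈ V, volume (V ∩ Ioi θ) ≤ ENNReal.ofReal t := by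
    intro θ hθ
    set S : Set ℝ := {α : ℝ | α ∈ Ioo 0 d ∧ θ + α ∈ A} with hS
    have h1 : V ∩ Ioi θ ⊆ (fun x => x - θ) ⁻¹' S := by
      rintro x ⟨⟨⟨hx1, -⟩, hx2⟩, hx3⟩
      have h2 := hθ.2
      simp only [mem_Ico] at h2 hx2
      simp only [mem_Ioi] at hx3
      refine ⟨⟨by simp only; linarith, by simp only; linarith⟩, ?_⟩
      simp only [add_sub_cancel]
      exact hx1
    have h2 : volume ((fun x => x - θ) ⁻¹' S) = volume S := by
      have := measure_preimage_add_right (volume : Measure ℝ) (-θ) S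
      simpa [sub_eq_add_neg] using this
    have hfin : volume S ≠ ⊤ := by
      refine ne_top_of_le_ne_top ?_ (measure_mono (show S ⊆ Ioo 0 d from fun x hx => hx.1))
      rw [Real.volume_Ioo]; exact ENNReal.ofReal_ne_top
    calc volume (V ∩ Ioi θ) ≤ volume S := by rw [← h2]; exact measure_mono h1
      _ = ENNReal.ofReal (volume.real S) := by
        rw [Measure.real, ENNReal.ofReal_toReal hfin]
      _ ≤ ENNReal.ofReal t := ENNReal.ofReal_le_ofReal hθ.1.2.le
  rcases V.eq_empty_or_nonempty with h0 | h0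
  · rw [h0]; simp
  set m := sInf V with hm
  have hbdd : BddBelow V := ⟨a, fun x hx => hx.2.1⟩
  have hsub : V ⊆ {m} ∪ ⋃ n : ℕ, V ∩ Ioi (m + 1 / ((n : ℝ) + 1)) := by
    intro x hx
    have h1 : m ≤ x := csInf_le hbdd hx
    rcases h1.eq_or_lt with h2 | h2
    · exact Or.inl h2.symm
    · right
      obtain ⟨n, hn⟩ := exists_nat_one_div_lt (sub_pos.2 h2)
      exact mem_iUnion.2 ⟨n, hx, by simp only [mem_Ioi]; linarith⟩
  have hn : ∀ n : ℕ, volume (V ∩ Ioi (m + 1 / ((n : ℝ) + 1))) ≤ ENNReal.ofReal t := by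
    intro n
    have hpos : (0 : ℝ) < 1 / ((n : ℝ) + 1) := by positivity
    obtain ⟨θ, hθ, hθ2⟩ := exists_lt_of_csInf_lt h0 (show sInf V < m + 1 / ((n : ℝ) + 1) by
      rw [← hm]; linarith)
    refine (measure_mono ?_).trans (key θ hθ)
    exact inter_subset_inter_right _ (Ioi_subset_Ioi hθ2.le)
  have hdir : Directed (· ⊆ ·) (fun n : ℕ => V ∩ Ioi (m + 1 / ((n : ℝ) + 1))) := by
    apply directed_of_isDirected_le
    intro i j hij
    apply inter_subset_inter_right
    apply Ioi_subset_Ioi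
    have : (1 : ℝ) / ((j : ℝ) + 1) ≤ 1 / ((i : ℝ) + 1) := by
      apply one_div_le_one_div_of_le (by positivity)
      have : (i : ℝ) ≤ j := by exact_mod_cast hij
      linarith
    linarith
  calc volume V ≤ volume ({m} ∪ ⋃ n : ℕ, V ∩ Ioi (m + 1 / ((n : ℝ) + 1))) := measure_mono hsub
    _ ≤ volume {m} + volume (⋃ n : ℕ, V ∩ Ioi (m + 1 / ((n : ℝ) + 1))) := measure_union_le _ _
    _ = volume (⋃ n : ℕ, V ∩ Ioi (m + 1 / ((n : ℝ) + 1))) := by rw [Real.volume_singleton, zero_add]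
    _ = ⨆ n : ℕ, volume (V ∩ Ioi (m + 1 / ((n : ℝ) + 1))) := hdir.measure_iUnion
    _ ≤ ENNReal.ofReal t := iSup_le hn

theorem B2_one {A : Set ℝ} (hsub : A ⊆ Icc 0 1) {d t : ℝ} (hd : 0 < d) (ht : 0 ≤ t) :
    volume {θ | θ ∈ A ∧ volume.real {α : ℝ | α ∈ Ioo 0 d ∧ θ + α ∈ A} < t}
      ≤ ENNReal.ofReal ((1 / d + 1) * t) := by
  set V : Set ℝ := {θ | θ ∈ A ∧ volume.real {α : ℝ | α ∈ Ioo 0 d ∧ θ + α ∈ A} < t} with hV
  set K : ℕ := ⌊1 / d⌋₊ + 1 with hK
  have hcov : V ⊆ ⋃ k ∈ Finset.range K, (V ∩ Ico ((k : ℝ) * d) ((k : ℝ) * d + d)) := by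
    intro θ hθ
    have h1 := hsub hθ.1
    have h2 : 0 ≤ θ / d := div_nonneg h1.1 hd.le
    refine mem_iUnion₂.2 ⟨⌊θ / d⌋₊, Finset.mem_range.2 ?_, hθ, ?_, ?_⟩
    · rw [hK, Nat.lt_succ_iff]
      exact Nat.floor_le_floor (div_le_div_of_nonneg_right h1.2 hd.le)
    · have := Nat.floor_le h2
      calc (⌊θ / d⌋₊ : ℝ) * d ≤ θ / d * d := mul_le_mul_of_nonneg_right this hd.le
        _ = θ := by field_simp
    · have := Nat.lt_floor_add_one (θ / d)
      calc θ = θ / d * d := by field_simp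
        _ < ((⌊θ / d⌋₊ : ℝ) + 1) * d := mul_lt_mul_of_pos_right this hd
        _ = (⌊θ / d⌋₊ : ℝ) * d + d := by ring
  have hKle : (K : ℝ) ≤ 1 / d + 1 := by
    rw [hK]; push_cast
    have := Nat.floor_le (show (0 : ℝ) ≤ 1 / d by positivity)
    linarith
  calc volume V ≤ volume (⋃ k ∈ Finset.range K, (V ∩ Ico ((k : ℝ) * d) ((k : ℝ) * d + d))) :=
        measure_mono hcov
    _ ≤ ∑ k ∈ Finset.range K, volume (V ∩ Ico ((k : ℝ) * d) ((k : ℝ) * d + d)) :=
        measure_biUnion_finset_le _ _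
    _ ≤ ∑ _k ∈ Finset.range K, ENNReal.ofReal t := Finset.sum_le_sum fun k _ => B2_int
    _ = (K : ENNReal) * ENNReal.ofReal t := by rw [Finset.sum_const, Finset.card_range, nsmul_eq_mul]
    _ = ENNReal.ofReal ((K : ℝ) * t) := by
        rw [ENNReal.ofReal_mul (by positivity), ENNReal.ofReal_natCast]
    _ ≤ ENNReal.ofReal ((1 / d + 1) * t) :=
        ENNReal.ofReal_le_ofReal (mul_le_mul_of_nonneg_right hKle ht)

theorem NL (R P : ℝ) : ∃ C : ℝ, 0 < C ∧ ∀ p : ℂ, ‖p‖ ≤ P → ∀ G : Set (ℂ × ℝ), MeasurableSet G →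
    (∀ g ∈ G, ‖g.1‖ ≤ R) → (∀ g ∈ G, g.2 ∈ Icc (0 : ℝ) 1) → ∀ d η : ℝ, 0 < d → d ≤ 1 → 0 < η →
    volume.real {g | g ∈ G ∧ volume.real {α : ℝ | α ∈ Ioo 0 d ∧ rot p α g ∈ G} < η * d} ≤ C * η := by
  set b : ENNReal := volume (Metric.closedBall (0 : ℂ) (R + P)) with hb
  have hbfin : b ≠ ⊤ := by
    rw [hb]; exact (isCompact_closedBall (0 : ℂ) (R + P)).measure_lt_top.ne
  refine ⟨2 * b.toReal + 1, by positivity, ?_⟩
  intro p hp G hG hR hI d η hd hd1 hη
  set S' : ℂ × ℝ → ℂ × ℝ := fun g => (g.1 + (-p) * U g.2, g.2) with hS'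
  have hmS' : Measurable S' := (mp_shear (-p)).measurable
  set G' : Set (ℂ × ℝ) := S' ⁻¹' G with hG'
  have hmG' : MeasurableSet G' := hmS' hG
  set B' : Set (ℂ × ℝ) := {z | z ∈ G' ∧
    volume.real {α : ℝ | α ∈ Ioo 0 d ∧ (z.1, z.2 + α) ∈ G'} < η * d} with hB'
  have hmT : MeasurableSet {z : (ℂ × ℝ) × ℝ | z.2 ∈ Ioo 0 d ∧ (z.1.1, z.1.2 + z.2) ∈ G'} := by
    refine (measurable_snd measurableSet_Ioo).inter ?_
    have : Measurable (fun z : (ℂ × ℝ) × ℝ => (z.1.1, z.1.2 + z.2)) := by fun_prop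
    exact this hmG'
  have hmB' : MeasurableSet B' := by
    refine hmG'.inter ?_
    have h1 := (measurable_measure_prodMk_left (ν := (volume : Measure ℝ)) hmT).ennreal_toReal
    exact measurableSet_lt h1 measurable_const
  have hpre : {g | g ∈ G ∧ volume.real {α : ℝ | α ∈ Ioo 0 d ∧ rot p α g ∈ G} < η * d}
      = (fun g : ℂ × ℝ => (g.1 + p * U g.2, g.2)) ⁻¹' B' := by
    ext g
    simp only [mem_setOf_eq, mem_preimage, hB', hG', hS']
    have e1 : (g.1 + p * U g.2 + -p * U g.2, g.2) = g := by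
      ext <;> simp
    have e2 : ∀ α : ℝ, (g.1 + p * U g.2 + -p * U (g.2 + α), g.2 + α) = rot p α g := by
      intro α
      simp only [rot, Prod.mk.injEq, and_true]
      ring
    rw [e1]
    simp only [e2]
  rw [hpre, Measure.real, (mp_shear p).measure_preimage hmB'.nullMeasurableSet]
  have hprod : volume B' ≤ ENNReal.ofReal (2 * η) * b := by
    rw [Measure.volume_eq_prod, Measure.prod_apply hmB']
    calc ∫⁻ c : ℂ, volume (Prod.mk c ⁻¹' B')
        ≤ ∫⁻ c : ℂ, (Metric.closedBall (0 : ℂ) (R + P)).indicator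
            (fun _ => ENNReal.ofReal (2 * η)) c := by
          apply lintegral_mono
          intro c
          by_cases hc : c ∈ Metric.closedBall (0 : ℂ) (R + P)
          · rw [indicator_of_mem hc]
            have hA : {θ : ℝ | (c, θ) ∈ G'} ⊆ Icc 0 1 := fun θ hθ => hI _ hθ
            refine (B2_one hA hd (mul_nonneg hη.le hd.le)).trans ?_
            apply ENNReal.ofReal_le_ofReal
            have : (1 / d + 1) * (η * d) = η + η * d := by field_simp
            rw [this]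
            nlinarith
          · rw [indicator_of_notMem hc, nonpos_iff_eq_zero]
            have : Prod.mk c ⁻¹' B' = ∅ := by
              apply eq_empty_of_forall_notMem
              rintro θ ⟨hθ, -⟩
              apply hc
              have h1 := hR _ hθ
              simp only [hS'] at h1
              rw [mem_closedBall_zero_iff]
              calc ‖c‖ = ‖(c + -p * U θ) + p * U θ‖ := by congr 1; ring
                _ ≤ ‖c + -p * U θ‖ + ‖p * U θ‖ := norm_add_le _ _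
                _ ≤ R + P := by
                  rw [norm_mul, norm_U, mul_one]
                  exact add_le_add h1 hp
            show volume (Prod.mk c ⁻¹' B') = 0
            rw [this, measure_empty]
      _ = ENNReal.ofReal (2 * η) * b := by
          rw [lintegral_indicator_const Metric.isClosed_closedBall.measurableSet]
  have h3 : (volume B').toReal ≤ (ENNReal.ofReal (2 * η) * b).toReal :=
    ENNReal.toReal_mono (ENNReal.mul_ne_top ENNReal.ofReal_ne_top hbfin) hprod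
  rw [ENNReal.toReal_mul, ENNReal.toReal_ofReal (by positivity)] at h3
  have h4 : (0 : ℝ) ≤ b.toReal := ENNReal.toReal_nonneg
  nlinarith

end TriDil
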