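import Pool.Agent.TriDil.Basic7
set_option autoImplicit false
open MeasureTheory Complex Set
namespace TriDil

theorem B4_floor (d ρ a b : ℝ) (hd : 0 < d) (h1 : ρ ≤ d * Int.fract (a / d))
    (h2 : d * Int.fract (a / d) + ρ < d) (hb : |b| ≤ ρ) : ⌊(a + b) / d⌋ = ⌊a / d⌋ := by
  rw [Int.floor_eq_iff]
  have e : a / d = ⌊a / d⌋ + Int.fract (a / d) := (Int.floor_add_fract _).symm
  have e2 : (a + b) / d = ⌊a / d⌋ + (d * Int.fract (a / d) + b) / d := by
    rw [add_div, add_div]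
    have : d * Int.fract (a / d) / d = Int.fract (a / d) := by field_simp
    rw [this]; linarith
  have hb' := abs_le.mp hb
  rw [e2]
  constructor
  · have : 0 ≤ (d * Int.fract (a / d) + b) / d := div_nonneg (by linarith) hd.le
    linarith
  · have : (d * Int.fract (a / d) + b) / d < 1 := by rw [div_lt_one hd]; linarith
    linarith

theorem deep_cell (d ρ : ℝ) (hd : 0 < d) (x z : ℂ) (h : deep d ρ x) (hz : ‖z‖ ≤ ρ) :
    cell d (x + z) = cell d x := by
  obtain ⟨h1, h2, h3, h4⟩ := h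
  have hr : |z.re| ≤ ρ := (abs_re_le_norm z).trans hz
  have hi : |z.im| ≤ ρ := (abs_im_le_norm z).trans hz
  simp only [cell, add_re, add_im]
  rw [B4_floor d ρ x.re z.re hd h1 h2 hr, B4_floor d ρ x.im z.im hd h3 h4 hi]

/-- one-dimensional bad set -/
def B4_T (R d ρ : ℝ) : Set ℝ :=
  {t | |t| ≤ R ∧ ¬ (ρ ≤ d * Int.fract (t / d) ∧ d * Int.fract (t / d) + ρ < d)}

theorem B4_T_meas (R d ρ : ℝ) : MeasurableSet (B4_T R d ρ) := by
  unfold B4_T
  apply MeasurableSet.inter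
  · exact measurableSet_le (f := fun t : ℝ => |t|) (g := fun _ => R) (by fun_prop) measurable_const
  · apply MeasurableSet.compl
    apply MeasurableSet.inter
    · exact measurableSet_le measurable_const (by
        exact (measurable_fract.comp (measurable_id.div_const d)).const_mul d)
    · exact measurableSet_lt (((measurable_fract.comp (measurable_id.div_const d)).const_mul d).add_const ρ)
        measurable_const

theorem B4_T_vol (R d ρ : ℝ) (hR : 0 ≤ R) (hd : 0 < d) (hd1 : d ≤ 1) (hρ : 0 ≤ ρ) :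
    volume (B4_T R d ρ) ≤ ENNReal.ofReal ((2 * R + 2) * 2 * (ρ / d)) := by
  have hsub : B4_T R d ρ ⊆ ⋃ n ∈ Finset.Icc ⌊-R / d⌋ ⌊R / d⌋,
      (Ico ((n : ℝ) * d) (n * d + ρ) ∪ Ico (n * d + d - ρ) (n * d + d)) := by
    intro t ht
    obtain ⟨h1, h2⟩ := ht
    have h1' := abs_le.mp h1
    have e : t = ⌊t / d⌋ * d + d * Int.fract (t / d) := by
      have := Int.floor_add_fract (t / d)
      have h3 : t = (t / d) * d := by field_simp
      calc t = (t / d) * d := h3
        _ = (⌊t / d⌋ + Int.fract (t / d)) * d := by rw [this]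
        _ = _ := by ring
    have f0 : 0 ≤ d * Int.fract (t / d) := mul_nonneg hd.le (Int.fract_nonneg _)
    have f1 : d * Int.fract (t / d) < d := by
      have := Int.fract_lt_one (t / d)
      nlinarith
    simp only [mem_iUnion, Finset.mem_Icc]
    refine ⟨⌊t / d⌋, ⟨Int.floor_le_floor (div_le_div_of_nonneg_right h1'.1 hd.le),
      Int.floor_le_floor (div_le_div_of_nonneg_right h1'.2 hd.le)⟩, ?_⟩
    by_cases h3 : ρ ≤ d * Int.fract (t / d)
    · right
      have h4 : ¬ (d * Int.fract (t / d) + ρ < d) := fun h => h2 ⟨h3, h⟩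
      constructor
      · linarith
      · linarith
    · left
      constructor
      · linarith
      · linarith
  calc volume (B4_T R d ρ) ≤ volume (⋃ n ∈ Finset.Icc ⌊-R / d⌋ ⌊R / d⌋,
      (Ico ((n : ℝ) * d) (n * d + ρ) ∪ Ico (n * d + d - ρ) (n * d + d))) := measure_mono hsub
    _ ≤ ∑ n ∈ Finset.Icc ⌊-R / d⌋ ⌊R / d⌋,
        volume (Ico ((n : ℝ) * d) (n * d + ρ) ∪ Ico (n * d + d - ρ) (n * d + d)) :=
        measure_biUnion_finset_le _ _
    _ ≤ ∑ n ∈ Finset.Icc ⌊-R / d⌋ ⌊R / d⌋, ENNReal.ofReal (2 * ρ) := by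
        apply Finset.sum_le_sum
        intro n _
        calc _ ≤ volume (Ico ((n : ℝ) * d) (n * d + ρ)) + volume (Ico ((n:ℝ) * d + d - ρ) (n * d + d)) :=
              measure_union_le _ _
          _ = ENNReal.ofReal ρ + ENNReal.ofReal ρ := by
              rw [Real.volume_Ico, Real.volume_Ico]; congr 2 <;> ring
          _ = ENNReal.ofReal (2 * ρ) := by
              rw [← ENNReal.ofReal_add hρ hρ]; congr 1; ring
    _ = ENNReal.ofReal ((Finset.Icc ⌊-R / d⌋ ⌊R / d⌋).card * (2 * ρ)) := by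
        rw [Finset.sum_const, nsmul_eq_mul,
          ENNReal.ofReal_mul (p := ((Finset.Icc ⌊-R / d⌋ ⌊R / d⌋).card : ℝ)) (by positivity),
          ENNReal.ofReal_natCast]
    _ ≤ ENNReal.ofReal ((2 * R + 2) * 2 * (ρ / d)) := by
        apply ENNReal.ofReal_le_ofReal
        have hc : ((Finset.Icc ⌊-R / d⌋ ⌊R / d⌋).card : ℝ) ≤ (2 * R + 2) / d := by
          rw [Int.card_Icc]
          have g1 : ((⌊R / d⌋ + 1 - ⌊-R / d⌋).toNat : ℝ) = ((⌊R / d⌋ + 1 - ⌊-R / d⌋ : ℤ) : ℝ) := by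
            have : 0 ≤ ⌊R / d⌋ + 1 - ⌊-R / d⌋ := by
              have : ⌊-R / d⌋ ≤ ⌊R / d⌋ := Int.floor_le_floor (div_le_div_of_nonneg_right (by linarith) hd.le)
              omega
            have h2 := Int.toNat_of_nonneg this
            exact_mod_cast h2
          rw [g1]
          push_cast
          have g2 := Int.floor_le (R / d)
          have g3 := Int.lt_floor_add_one (-R / d)
          have g4 : (2 * R + 2) / d = R / d - (-R / d) + 2 / d := by field_simp; ring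
          have g5 : 2 ≤ 2 / d := by rw [le_div_iff₀ hd]; linarith
          linarith
        calc ((Finset.Icc ⌊-R / d⌋ ⌊R / d⌋).card : ℝ) * (2 * ρ) ≤ (2 * R + 2) / d * (2 * ρ) :=
              mul_le_mul_of_nonneg_right hc (by positivity)
          _ = (2 * R + 2) * 2 * (ρ / d) := by ring


theorem B4_vol_re (T : Set ℝ) (hT : MeasurableSet T) (R : ℝ) :
    volume {x : ℂ | x.re ∈ T ∧ |x.im| ≤ R} = volume T * ENNReal.ofReal (2 * R) := by
  have h := Complex.volume_preserving_equiv_real_prod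
  have e : {x : ℂ | x.re ∈ T ∧ |x.im| ≤ R} = Complex.measurableEquivRealProd ⁻¹' (T ×ˢ Icc (-R) R) := by
    ext x
    simp only [mem_ofPred_eq, mem_preimage, Complex.measurableEquivRealProd_apply, mem_prod, mem_Icc,
      abs_le]
  rw [e, h.measure_preimage (hT.prod measurableSet_Icc).nullMeasurableSet, Measure.volume_eq_prod,
    Measure.prod_prod, Real.volume_Icc]
  congr 2; ring

theorem B4_vol_im (T : Set ℝ) (hT : MeasurableSet T) (R : ℝ) :
    volume {x : ℂ | x.im ∈ T ∧ |x.re| ≤ R} = volume T * ENNReal.ofReal (2 * R) := by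
  have h := Complex.volume_preserving_equiv_real_prod
  have e : {x : ℂ | x.im ∈ T ∧ |x.re| ≤ R} = Complex.measurableEquivRealProd ⁻¹' (Icc (-R) R ×ˢ T) := by
    ext x
    simp only [mem_ofPred_eq, mem_preimage, Complex.measurableEquivRealProd_apply, mem_prod, mem_Icc,
      abs_le]
    tauto
  rw [e, h.measure_preimage (measurableSet_Icc.prod hT).nullMeasurableSet, Measure.volume_eq_prod,
    Measure.prod_prod, Real.volume_Icc, mul_comm]
  congr 2; ring

/-- first bound, with an explicit constant -/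
theorem B4_first (R d ρ : ℝ) (hR : 0 ≤ R) (hd : 0 < d) (hd1 : d ≤ 1) (hρ : 0 ≤ ρ)
    (G : Set (ℂ × ℝ)) (h1 : ∀ g ∈ G, ‖g.1‖ ≤ R) (h2 : ∀ g ∈ G, g.2 ∈ Icc (0 : ℝ) 1) :
    volume {g | g ∈ G ∧ ¬ deep d ρ g.1} ≤ ENNReal.ofReal (((2 * R + 2) * 2 * (2 * R) * 2) * (ρ / d)) := by
  have hsub : {g | g ∈ G ∧ ¬ deep d ρ g.1} ⊆
      ({x : ℂ | x.re ∈ B4_T R d ρ ∧ |x.im| ≤ R} ∪ {x : ℂ | x.im ∈ B4_T R d ρ ∧ |x.re| ≤ R}) ×ˢ
        Icc (0 : ℝ) 1 := by
    rintro g ⟨hg, hn⟩
    refine ⟨?_, h2 g hg⟩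
    have a1 : |g.1.re| ≤ R := (abs_re_le_norm _).trans (h1 g hg)
    have a2 : |g.1.im| ≤ R := (abs_im_le_norm _).trans (h1 g hg)
    by_cases h3 : ρ ≤ d * Int.fract (g.1.re / d) ∧ d * Int.fract (g.1.re / d) + ρ < d
    · right
      refine ⟨⟨a2, fun h4 => hn ⟨h3.1, h3.2, h4.1, h4.2⟩⟩, a1⟩
    · left
      exact ⟨⟨a1, h3⟩, a2⟩
  have hT := B4_T_vol R d ρ hR hd hd1 hρ
  have hC : 0 ≤ (2 * R + 2) * 2 * (ρ / d) := by positivity
  calc volume {g | g ∈ G ∧ ¬ deep d ρ g.1} ≤ _ := measure_mono hsub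
    _ = volume ({x : ℂ | x.re ∈ B4_T R d ρ ∧ |x.im| ≤ R} ∪ {x : ℂ | x.im ∈ B4_T R d ρ ∧ |x.re| ≤ R})
        * volume (Icc (0 : ℝ) 1) := by
        rw [Measure.volume_eq_prod, Measure.prod_prod]
    _ = volume ({x : ℂ | x.re ∈ B4_T R d ρ ∧ |x.im| ≤ R} ∪ {x : ℂ | x.im ∈ B4_T R d ρ ∧ |x.re| ≤ R}) := by
        rw [Real.volume_Icc]; simp
    _ ≤ volume {x : ℂ | x.re ∈ B4_T R d ρ ∧ |x.im| ≤ R}
        + volume {x : ℂ | x.im ∈ B4_T R d ρ ∧ |x.re| ≤ R} := measure_union_le _ _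
    _ ≤ ENNReal.ofReal ((2 * R + 2) * 2 * (ρ / d)) * ENNReal.ofReal (2 * R)
        + ENNReal.ofReal ((2 * R + 2) * 2 * (ρ / d)) * ENNReal.ofReal (2 * R) := by
        rw [B4_vol_re _ (B4_T_meas R d ρ), B4_vol_im _ (B4_T_meas R d ρ)]
        gcongr
    _ = ENNReal.ofReal (((2 * R + 2) * 2 * (2 * R) * 2) * (ρ / d)) := by
        rw [← ENNReal.ofReal_mul hC, ← ENNReal.ofReal_add (by positivity) (by positivity)]
        congr 1; ring

theorem B4_real_le {S : Set (ℂ × ℝ)} {c : ℝ} (hc : 0 ≤ c) (h : volume S ≤ ENNReal.ofReal c) :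
    volume.real S ≤ c := by
  unfold Measure.real
  exact ENNReal.toReal_le_of_le_ofReal hc h

theorem B4_deep_swp (d ρ : ℝ) (G : Set (ℂ × ℝ)) :
    {g | g ∈ G ∧ ¬ deep d ρ (-(g.1 + U g.2))} = swp ⁻¹' {h | h ∈ swp ⁻¹' G ∧ ¬ deep d ρ h.1} := by
  ext g
  simp only [mem_ofPred_eq, mem_preimage, swp_swp]
  rfl

theorem not_deep_small (R : ℝ) : ∃ C : ℝ, 0 < C ∧ ∀ d ρ : ℝ, 0 < d → d ≤ 1 → 0 ≤ ρ →
    ∀ G : Set (ℂ × ℝ), MeasurableSet G →
    (∀ g ∈ G, ‖g.1‖ ≤ R) → (∀ g ∈ G, g.2 ∈ Icc (0 : ℝ) 1) →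
    volume.real {g | g ∈ G ∧ ¬ deep d ρ g.1} ≤ C * (ρ / d) ∧
    volume.real {g | g ∈ G ∧ ¬ deep d ρ (-(g.1 + U g.2))} ≤ C * (ρ / d) ∧
    volume.real {g | g ∈ G ∧ ¬ (ρ ≤ d * Int.fract (g.2 / d) ∧ d * Int.fract (g.2 / d) + ρ < d)}
      ≤ C * (ρ / d) := by
  set R' : ℝ := |R| + 1 with hR'
  have hR0 : 0 ≤ |R| := abs_nonneg R
  have hRle : R ≤ |R| := le_abs_self R
  have hR'0 : 0 ≤ R' := by positivity
  refine ⟨(2 * R' + 2) * 2 * (2 * R') * 2 + 4 * 2 * (volume.real (Metric.closedBall (0 : ℂ) R')) + 1,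
    by positivity, ?_⟩
  intro d ρ hd hd1 hρ G hG h1 h2
  have hV : 0 ≤ volume.real (Metric.closedBall (0 : ℂ) R') := measureReal_nonneg
  have hq : 0 ≤ ρ / d := by positivity
  have m1 : ((2 * R' + 2) * 2 * (2 * R') * 2) * (ρ / d) ≤
      ((2 * R' + 2) * 2 * (2 * R') * 2 + 4 * 2 * (volume.real (Metric.closedBall (0 : ℂ) R')) + 1)
        * (ρ / d) := by
    apply mul_le_mul_of_nonneg_right _ hq
    linarith
  have m2 : (4 * 2 * (volume.real (Metric.closedBall (0 : ℂ) R'))) * (ρ / d) ≤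
      ((2 * R' + 2) * 2 * (2 * R') * 2 + 4 * 2 * (volume.real (Metric.closedBall (0 : ℂ) R')) + 1)
        * (ρ / d) := by
    apply mul_le_mul_of_nonneg_right _ hq
    have : 0 ≤ (2 * R' + 2) * 2 * (2 * R') * 2 := by positivity
    linarith
  refine ⟨?_, ?_, ?_⟩
  · refine (B4_real_le (by positivity) (B4_first R' d ρ hR'0 hd hd1 hρ G ?_ h2)).trans m1
    intro g hg; exact (h1 g hg).trans (by linarith)
  · refine (B4_real_le (c := ((2 * R' + 2) * 2 * (2 * R') * 2) * (ρ / d)) (by positivity) ?_).trans m1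
    rw [B4_deep_swp]
    refine (mp_swp.measure_preimage_le _).trans ?_
    apply B4_first R' d ρ hR'0 hd hd1 hρ
    · intro h hh
      have h3 := h1 _ hh
      simp only [swp] at h3
      rw [norm_neg] at h3
      have h4 : h.1 = (h.1 + U h.2) - U h.2 := by ring
      rw [h4]
      calc _ ≤ _ := norm_sub_le _ _
        _ ≤ R' := by rw [norm_U]; linarith
    · intro h hh
      have h3 := h2 _ hh
      simpa [swp] using h3
  · refine (B4_real_le (c := (4 * 2 * (volume.real (Metric.closedBall (0 : ℂ) R'))) * (ρ / d))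
      (by positivity) ?_).trans m2
    have hsub : {g | g ∈ G ∧ ¬ (ρ ≤ d * Int.fract (g.2 / d) ∧ d * Int.fract (g.2 / d) + ρ < d)} ⊆
        Metric.closedBall (0 : ℂ) R' ×ˢ B4_T 1 d ρ := by
      rintro g ⟨hg, hn⟩
      refine ⟨?_, ?_, hn⟩
      · rw [mem_closedBall_zero_iff]; exact (h1 g hg).trans (by linarith)
      · have := h2 g hg
        rw [abs_le]; constructor <;> linarith [this.1, this.2]
    calc _ ≤ _ := measure_mono hsub
      _ = volume (Metric.closedBall (0 : ℂ) R') * volume (B4_T 1 d ρ) := by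
        rw [Measure.volume_eq_prod, Measure.prod_prod]
      _ ≤ ENNReal.ofReal (volume.real (Metric.closedBall (0 : ℂ) R')) *
          ENNReal.ofReal ((2 * 1 + 2) * 2 * (ρ / d)) := by
        gcongr
        · rw [ofReal_measureReal (measure_closedBall_lt_top).ne]
        · exact B4_T_vol 1 d ρ zero_le_one hd hd1 hρ
      _ = _ := by
        rw [← ENNReal.ofReal_mul hV]; congr 1; ring


theorem B4_cell_meas (d : ℝ) : Measurable (cell d) := by
  unfold cell
  exact (Int.measurable_floor.comp (measurable_re.div_const d)).prodMk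
    (Int.measurable_floor.comp (measurable_im.div_const d))

theorem B4_cell_set_meas (d : ℝ) (c : ℤ × ℤ) : MeasurableSet {x | cell d x = c} :=
  (B4_cell_meas d) (measurableSet_singleton c)

theorem B4_cell_sub (d : ℝ) (hd : 0 < d) (c : ℤ × ℤ) :
    {x | cell d x = c} = Complex.measurableEquivRealProd ⁻¹'
      (Ico ((c.1 : ℝ) * d) (c.1 * d + d) ×ˢ Ico ((c.2 : ℝ) * d) (c.2 * d + d)) := by
  ext x
  simp only [mem_ofPred_eq, mem_preimage, Complex.measurableEquivRealProd_apply, mem_prod, mem_Ico, cell,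
    Prod.ext_iff, Int.floor_eq_iff]
  have e : ∀ (a : ℝ) (n : ℤ), ((n : ℝ) ≤ a / d ∧ a / d < n + 1) ↔ ((n : ℝ) * d ≤ a ∧ a < n * d + d) := by
    intro a n
    rw [le_div_iff₀ hd, div_lt_iff₀ hd]
    have : ((n : ℝ) + 1) * d = n * d + d := by ring
    rw [this]
  rw [e, e]

theorem B4_cell_vol (d : ℝ) (hd : 0 < d) (c : ℤ × ℤ) :
    volume {x | cell d x = c} = ENNReal.ofReal (d ^ 2) := by
  rw [B4_cell_sub d hd c, Complex.volume_preserving_equiv_real_prod.measure_preimage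
    (measurableSet_Ico.prod measurableSet_Ico).nullMeasurableSet, Measure.volume_eq_prod,
    Measure.prod_prod, Real.volume_Ico, Real.volume_Ico, ← ENNReal.ofReal_mul (by linarith)]
  congr 1; ring

theorem B4_cell_close (d : ℝ) (hd : 0 < d) (hd1 : d ≤ 1) (x y : ℂ) (h : cell d x = cell d y) :
    ‖x - y‖ ≤ 2 := by
  simp only [cell, Prod.mk.injEq] at h
  have e : ∀ a b : ℝ, ⌊a / d⌋ = ⌊b / d⌋ → |a - b| ≤ 1 := by
    intro a b hab
    have h1 := Int.floor_le (a / d)
    have h2 := Int.lt_floor_add_one (a / d)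
    have h3 := Int.floor_le (b / d)
    have h4 := Int.lt_floor_add_one (b / d)
    rw [hab] at h1 h2
    have h5 : |a / d - b / d| ≤ 1 := by rw [abs_le]; constructor <;> linarith
    have h6 : a - b = (a / d - b / d) * d := by field_simp
    rw [h6, abs_mul, abs_of_pos hd]
    calc |a / d - b / d| * d ≤ 1 * 1 := mul_le_mul h5 hd1 hd.le zero_le_one
      _ = 1 := one_mul 1
  calc ‖x - y‖ ≤ |(x - y).re| + |(x - y).im| := Complex.norm_le_abs_re_add_abs_im _
    _ ≤ 1 + 1 := add_le_add (e _ _ h.1) (e _ _ h.2)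
    _ = 2 := by norm_num

theorem SEL (R : ℝ) : ∃ k0 : ℕ, 1 ≤ k0 ∧ ∀ k : ℕ, ∃ n : ℕ, 1 ≤ n ∧ ∀ ε : ℝ, 0 < ε → ε ≤ 1 / 2 →
    ∀ d : ℝ, 0 < d → d ≤ 1 → ∀ G : Set (ℂ × ℝ), MeasurableSet G →
    (∀ g ∈ G, ‖g.1‖ ≤ R) → (∀ g ∈ G, g.2 ∈ Icc (0 : ℝ) 1) → ε ≤ volume.real G →
    ∀ X' : ℤ × ℤ → Set ℂ, (∀ c, MeasurableSet (X' c)) →
    (∀ c, X' c ⊆ {x | cell d x = c ∧ ε ^ k0 ≤ volume.real {θ : ℝ | (x, θ) ∈ G}}) →
    (∀ c, ε ^ k0 * d ^ 2 ≤ volume.real {x | cell d x = c ∧ ε ^ k0 ≤ volume.real {θ : ℝ | (x, θ) ∈ G}} →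
      ε ^ k * d ^ 2 ≤ volume.real (X' c)) →
    MeasurableSet {g | g ∈ G ∧ g.1 ∈ X' (cell d g.1)} ∧
    ε ^ n ≤ volume.real {g | g ∈ G ∧ g.1 ∈ X' (cell d g.1)} := by
  set V : ℝ := volume.real (Metric.closedBall (0 : ℂ) (R + 2)) with hV
  have hV0 : 0 ≤ V := measureReal_nonneg
  obtain ⟨m, hm⟩ := exists_pow_lt_of_lt_one (show (0:ℝ) < 1 / (4 * (V + 1)) by positivity)
    (show (1 / 2 : ℝ) < 1 by norm_num)
  refine ⟨m + 1, by omega, fun k => ⟨m + 1 + k + 2, by omega, ?_⟩⟩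
  intro ε hε hε2 d hd hd1 G hG h1 h2 hvol X' hX'm hX's hX'v
  set k0 := m + 1 with hk0
  -- the small power
  have hpow : ε ^ k0 * V ≤ ε / 4 := by
    have e1 : ε ^ m ≤ (1 / 2) ^ m := pow_le_pow_left₀ hε.le hε2 m
    have e2 : (1 / 2 : ℝ) ^ m * (4 * (V + 1)) < 1 := by
      rwa [lt_div_iff₀ (by positivity)] at hm
    have e3 : ε ^ m * V ≤ 1 / 4 := by
      have : ε ^ m * V ≤ (1 / 2) ^ m * (V + 1) :=
        mul_le_mul e1 (by linarith) hV0 (by positivity)
      linarith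
    rw [hk0, pow_succ]
    calc ε ^ m * ε * V = ε * (ε ^ m * V) := by ring
      _ ≤ ε * (1 / 4) := mul_le_mul_of_nonneg_left e3 hε.le
      _ = ε / 4 := by ring
  have hp0 : 0 < ε ^ k0 := pow_pos hε _
  -- slices
  set H : ℂ → ENNReal := fun x => volume {θ : ℝ | (x, θ) ∈ G} with hH
  have hHm : Measurable H := measurable_measure_prodMk_left hG
  have hH1 : ∀ x, H x ≤ 1 := by
    intro x
    calc H x ≤ volume (Icc (0 : ℝ) 1) := measure_mono (fun θ hθ => h2 (x, θ) hθ)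
      _ = 1 := by rw [Real.volume_Icc]; simp
  have hHne : ∀ x, H x ≠ ⊤ := fun x => ne_top_of_le_ne_top ENNReal.one_ne_top (hH1 x)
  have hH0 : ∀ x, x ∉ Metric.closedBall (0 : ℂ) R → H x = 0 := by
    intro x hx
    have : {θ : ℝ | (x, θ) ∈ G} = ∅ := by
      ext θ; simp only [mem_ofPred_eq, mem_empty_iff_false, iff_false]
      intro h; exact hx (by rw [mem_closedBall_zero_iff]; exact h1 _ h)
    simp only [hH, this, measure_empty]
  set P : Set ℂ := {x | ε ^ k0 ≤ volume.real {θ : ℝ | (x, θ) ∈ G}} with hP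
  have hPm : MeasurableSet P := measurableSet_le measurable_const hHm.ennreal_toReal
  have hPH : ∀ x, x ∈ P ↔ ENNReal.ofReal (ε ^ k0) ≤ H x := by
    intro x
    rw [hP, mem_ofPred_eq, ENNReal.ofReal_le_iff_le_toReal (hHne x)]; rfl
  have hPR : ∀ x ∈ P, x ∈ Metric.closedBall (0 : ℂ) R := by
    intro x hx
    by_contra hc
    have h3 := (hPH x).1 hx
    rw [hH0 x hc] at h3
    have : 0 < ENNReal.ofReal (ε ^ k0) := ENNReal.ofReal_pos.2 hp0
    exact absurd h3 (not_le.2 this)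
  have hGvol : volume G = ∫⁻ x, H x := by
    rw [Measure.volume_eq_prod, Measure.prod_apply hG]; rfl
  have hball : volume (Metric.closedBall (0 : ℂ) (R + 2)) = ENNReal.ofReal V := by
    rw [hV, ofReal_measureReal (measure_closedBall_lt_top).ne]
  have hGfin : volume G ≠ ⊤ := by
    have : G ⊆ Metric.closedBall (0 : ℂ) R ×ˢ Icc (0 : ℝ) 1 := by
      intro g hg
      exact ⟨by rw [mem_closedBall_zero_iff]; exact h1 g hg, h2 g hg⟩
    refine ne_top_of_le_ne_top ?_ (measure_mono this)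
    rw [Measure.volume_eq_prod, Measure.prod_prod]
    exact ENNReal.mul_ne_top (measure_closedBall_lt_top).ne (by rw [Real.volume_Icc]; exact ENNReal.ofReal_ne_top)
  have hεG : ENNReal.ofReal ε ≤ volume G := by
    rw [ENNReal.ofReal_le_iff_le_toReal hGfin]; exact hvol
  -- step 1
  have s1 : ENNReal.ofReal ε ≤ volume P + ENNReal.ofReal (ε ^ k0) * ENNReal.ofReal V := by
    calc ENNReal.ofReal ε ≤ ∫⁻ x, H x := hGvol ▸ hεG
      _ ≤ ∫⁻ x, (P.indicator (fun _ => (1:ENNReal)) x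
            + (Metric.closedBall (0 : ℂ) (R+2)).indicator (fun _ => ENNReal.ofReal (ε ^ k0)) x) := by
          apply lintegral_mono
          intro x
          by_cases hx : x ∈ P
          · simp only [indicator_of_mem hx]
            exact (hH1 x).trans (le_add_right le_rfl)
          · by_cases hx2 : x ∈ Metric.closedBall (0 : ℂ) R
            · have hx3 : x ∈ Metric.closedBall (0 : ℂ) (R+2) :=
                Metric.closedBall_subset_closedBall (by linarith) hx2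
              simp only [indicator_of_notMem hx, indicator_of_mem hx3, zero_add]
              exact (not_le.1 (fun h => hx ((hPH x).2 h))).le
            · simp only [hH0 x hx2]; exact bot_le
      _ = volume P + ENNReal.ofReal (ε ^ k0) * ENNReal.ofReal V := by
          rw [lintegral_add_left (measurable_const.indicator hPm), lintegral_indicator hPm,
            lintegral_indicator Metric.isClosed_closedBall.measurableSet, setLIntegral_const,
            setLIntegral_const, one_mul, hball]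
  -- cells
  set Q : ℤ × ℤ → Set ℂ := fun c => {x | cell d x = c} with hQ
  have hQm : ∀ c, MeasurableSet (Q c) := fun c => B4_cell_set_meas d c
  have hQd : Pairwise (Function.onFun Disjoint Q) := by
    intro c c' hcc
    rw [Function.onFun, Set.disjoint_left]
    intro x hx hx'
    exact hcc (hx.symm.trans hx')
  have hQu : ∀ S : Set ℂ, S = ⋃ c, S ∩ Q c := by
    intro S; ext x; simp only [mem_iUnion, mem_inter_iff]
    exact ⟨fun h => ⟨cell d x, h, rfl⟩, fun ⟨_, h, _⟩ => h⟩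
  have hsumQ : ∀ S : Set ℂ, MeasurableSet S → volume S = ∑' c, volume (S ∩ Q c) := by
    intro S hS
    conv_lhs => rw [hQu S]
    rw [measure_iUnion _ (fun c => hS.inter (hQm c))]
    intro c c' hcc
    exact (hQd hcc).mono inter_subset_right inter_subset_right
  have hXW : ∀ c, {x | cell d x = c ∧ ε ^ k0 ≤ volume.real {θ : ℝ | (x, θ) ∈ G}} = P ∩ Q c := by
    intro c; ext x; simp only [mem_ofPred_eq, mem_inter_iff, hP, hQ]; tauto
  have hQvol : ∀ c, volume (Q c) = ENNReal.ofReal (d ^ 2) := fun c => B4_cell_vol d hd c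
  have hPQ : ∀ c, volume (P ∩ Q c) ≤ ENNReal.ofReal (d ^ 2) := fun c =>
    (measure_mono inter_subset_right).trans (hQvol c).le
  -- termwise comparison
  have hterm : ∀ c, ENNReal.ofReal (ε ^ k) * volume (P ∩ Q c) ≤ volume (X' c)
      + ENNReal.ofReal (ε ^ k) * (ENNReal.ofReal (ε ^ k0) *
        volume (Metric.closedBall (0 : ℂ) (R+2) ∩ Q c)) := by
    intro c
    by_cases hc : ε ^ k0 * d ^ 2 ≤ volume.real (P ∩ Q c)
    · have h3 := hX'v c (by rw [hXW c]; exact hc)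
      refine le_add_right ?_
      calc ENNReal.ofReal (ε ^ k) * volume (P ∩ Q c)
          ≤ ENNReal.ofReal (ε ^ k) * ENNReal.ofReal (d ^ 2) := by gcongr; exact hPQ c
        _ = ENNReal.ofReal (ε ^ k * d ^ 2) := by rw [ENNReal.ofReal_mul (by positivity)]
        _ ≤ volume (X' c) := ENNReal.ofReal_le_of_le_toReal h3
    · refine le_add_left ?_
      gcongr
      by_cases hne : (P ∩ Q c).Nonempty
      · obtain ⟨x, hxP, hxQ⟩ := hne
        have hx := hPR x hxP
        have hsub : Q c ⊆ Metric.closedBall (0 : ℂ) (R+2) ∩ Q c := by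
          intro y hy
          refine ⟨?_, hy⟩
          rw [mem_closedBall_zero_iff] at hx ⊢
          have h4 := B4_cell_close d hd hd1 y x (hy.trans hxQ.symm)
          calc ‖y‖ = ‖(y - x) + x‖ := by rw [sub_add_cancel]
            _ ≤ ‖y - x‖ + ‖x‖ := norm_add_le _ _
            _ ≤ R + 2 := by linarith
        have h5 : ENNReal.ofReal (d ^ 2) ≤ volume (Metric.closedBall (0 : ℂ) (R+2) ∩ Q c) := by
          rw [← hQvol c]; exact measure_mono hsub
        have h6 : volume (P ∩ Q c) ≤ ENNReal.ofReal (ε ^ k0 * d ^ 2) := by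
          have h7 : volume (P ∩ Q c) ≠ ⊤ := ne_top_of_le_ne_top ENNReal.ofReal_ne_top (hPQ c)
          rw [← ofReal_measureReal h7]
          exact ENNReal.ofReal_le_ofReal (not_le.1 hc).le
        calc volume (P ∩ Q c) ≤ ENNReal.ofReal (ε ^ k0 * d ^ 2) := h6
          _ = ENNReal.ofReal (ε ^ k0) * ENNReal.ofReal (d ^ 2) := by
              rw [ENNReal.ofReal_mul (by positivity)]
          _ ≤ _ := by gcongr
      · rw [Set.not_nonempty_iff_eq_empty] at hne
        rw [hne, measure_empty]; exact bot_le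
  -- the union of the X'
  set Y : Set ℂ := ⋃ c, X' c with hY
  have hYm : MeasurableSet Y := MeasurableSet.iUnion hX'm
  have hX'Q : ∀ c, X' c ⊆ Q c := fun c x hx => (hX's c hx).1
  have hYvol : volume Y = ∑' c, volume (X' c) := by
    rw [hY, measure_iUnion _ hX'm]
    intro c c' hcc
    exact (hQd hcc).mono (hX'Q c) (hX'Q c')
  have s2 : ENNReal.ofReal (ε ^ k) * volume P ≤ volume Y
      + ENNReal.ofReal (ε ^ k) * (ENNReal.ofReal (ε ^ k0) * ENNReal.ofReal V) := by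
    rw [hsumQ P hPm, hYvol, ← hball, hsumQ _ Metric.isClosed_closedBall.measurableSet,
      ← ENNReal.tsum_mul_left, ← ENNReal.tsum_mul_left, ← ENNReal.tsum_mul_left,
      ← ENNReal.tsum_add]
    exact ENNReal.tsum_le_tsum hterm
  have s3 : ENNReal.ofReal (ε ^ k * (ε / 2)) ≤ volume Y := by
    have a1 : ENNReal.ofReal (ε ^ k) * ENNReal.ofReal ε ≤
        volume Y + ENNReal.ofReal (ε ^ k * (ε / 2)) := by
      calc ENNReal.ofReal (ε ^ k) * ENNReal.ofReal ε
          ≤ ENNReal.ofReal (ε ^ k) * (volume P + ENNReal.ofReal (ε ^ k0) * ENNReal.ofReal V) := by gcongr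
        _ = ENNReal.ofReal (ε ^ k) * volume P
            + ENNReal.ofReal (ε ^ k) * (ENNReal.ofReal (ε ^ k0) * ENNReal.ofReal V) := mul_add _ _ _
        _ ≤ volume Y + ENNReal.ofReal (ε ^ k) * (ENNReal.ofReal (ε ^ k0) * ENNReal.ofReal V)
            + ENNReal.ofReal (ε ^ k) * (ENNReal.ofReal (ε ^ k0) * ENNReal.ofReal V) := by gcongr
        _ = volume Y + ENNReal.ofReal (ε ^ k * (ε ^ k0 * V) + ε ^ k * (ε ^ k0 * V)) := by
            rw [add_assoc, ← ENNReal.ofReal_mul (by positivity), ← ENNReal.ofReal_mul (by positivity),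
              ← ENNReal.ofReal_add (by positivity) (by positivity)]
        _ ≤ volume Y + ENNReal.ofReal (ε ^ k * (ε / 2)) := by
            gcongr
            have : ε ^ k * (ε ^ k0 * V) ≤ ε ^ k * (ε / 4) := by gcongr
            linarith
    rw [← ENNReal.ofReal_mul (by positivity)] at a1
    have a2 : ENNReal.ofReal (ε ^ k * ε) = ENNReal.ofReal (ε ^ k * (ε / 2)) + ENNReal.ofReal (ε ^ k * (ε / 2)) := by
      rw [← ENNReal.ofReal_add (by positivity) (by positivity)]; congr 1; ring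
    rw [a2] at a1
    exact (ENNReal.add_le_add_iff_right ENNReal.ofReal_ne_top).1 a1
  -- the final set
  have hS : {g : ℂ × ℝ | g ∈ G ∧ g.1 ∈ X' (cell d g.1)} = G ∩ (Y ×ˢ univ) := by
    ext g
    simp only [mem_ofPred_eq, mem_inter_iff, mem_prod, mem_univ, and_true, hY, mem_iUnion]
    constructor
    · rintro ⟨a, b⟩; exact ⟨a, _, b⟩
    · rintro ⟨a, c, b⟩
      have : cell d g.1 = c := hX'Q c b
      exact ⟨a, by rw [this]; exact b⟩
  have hSm : MeasurableSet (G ∩ (Y ×ˢ univ)) := hG.inter (hYm.prod MeasurableSet.univ)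
  rw [hS]
  refine ⟨hSm, ?_⟩
  have s4 : ENNReal.ofReal (ε ^ k0) * volume Y ≤ volume (G ∩ (Y ×ˢ univ)) := by
    rw [Measure.volume_eq_prod, Measure.prod_apply hSm]
    calc ENNReal.ofReal (ε ^ k0) * volume Y = ∫⁻ x in Y, ENNReal.ofReal (ε ^ k0) := by
          rw [setLIntegral_const]
      _ ≤ ∫⁻ x in Y, volume (Prod.mk x ⁻¹' (G ∩ (Y ×ˢ univ))) := by
          apply setLIntegral_mono' hYm
          intro x hx
          have e : Prod.mk x ⁻¹' (G ∩ (Y ×ˢ (univ : Set ℝ))) = {θ : ℝ | (x, θ) ∈ G} := by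
            ext θ; simp [hx]
          rw [e]
          obtain ⟨c, hc⟩ := mem_iUnion.1 hx
          exact (hPH x).1 (hX's c hc).2
      _ ≤ ∫⁻ x, volume (Prod.mk x ⁻¹' (G ∩ (Y ×ˢ univ))) := setLIntegral_le_lintegral _ _
  have hfin : volume (G ∩ (Y ×ˢ univ)) ≠ ⊤ := ne_top_of_le_ne_top hGfin (measure_mono inter_subset_left)
  have s5 : ENNReal.ofReal (ε ^ (m + 1 + k + 2)) ≤ volume (G ∩ (Y ×ˢ univ)) := by
    refine le_trans ?_ s4
    calc ENNReal.ofReal (ε ^ (m + 1 + k + 2)) ≤ ENNReal.ofReal (ε ^ k0 * (ε ^ k * (ε / 2))) := by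
          apply ENNReal.ofReal_le_ofReal
          have : ε ^ (m + 1 + k + 2) = ε ^ k0 * (ε ^ k * (ε * ε)) := by rw [hk0]; ring
          rw [this]
          gcongr
          nlinarith
      _ = ENNReal.ofReal (ε ^ k0) * ENNReal.ofReal (ε ^ k * (ε / 2)) := by
          rw [ENNReal.ofReal_mul (by positivity)]
      _ ≤ ENNReal.ofReal (ε ^ k0) * volume Y := by gcongr
  unfold Measure.real
  exact (ENNReal.ofReal_le_iff_le_toReal hfin).1 s5

end TriDil
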