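import Pool.Agent.TriDil.Basic7
set_option autoImplicit false
open MeasureTheory Complex Set
namespace TriDil
open scoped ComplexConjugate

theorem B3_diff (θ α : ℝ) : U θ - U (θ + α) = ((2 * Real.sin (α / 2) : ℝ) : ℂ) * U (θ + α / 2 - Real.pi / 2) := by
  have h1 : U θ = U (θ + α / 2) * U (-(α / 2)) := by rw [← U_add]; congr 1; ring
  have h2 : U (θ + α) = U (θ + α / 2) * U (α / 2) := by rw [← U_add]; congr 1; ring
  have h3 : U (θ + α / 2 - Real.pi / 2) = U (θ + α / 2) * U (-(Real.pi / 2)) := by rw [← U_add]; congr 1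
  have h4 : U (-(α / 2)) - U (α / 2) = ((2 * Real.sin (α / 2) : ℝ) : ℂ) * U (-(Real.pi / 2)) := by
    apply Complex.ext
    · rw [sub_re, U_re, U_re, Real.cos_neg, re_ofReal_mul, U_re, Real.cos_neg, Real.cos_pi_div_two]; ring
    · rw [sub_im, U_im, U_im, Real.sin_neg, im_ofReal_mul, U_im, Real.sin_neg, Real.sin_pi_div_two]; ring
  rw [h1, h2, h3, ← mul_sub, h4]; ring

theorem B3_sin_pos {α : ℝ} (hα : 0 < α) (hα' : α ≤ 1) : 0 < Real.sin (α / 2) :=
  Real.sin_pos_of_pos_of_lt_pi (by linarith) (by linarith [Real.pi_gt_three])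

/-- the direction of a sliding step -/
theorem slide_dir (p : ℂ) (hp : p ≠ 0) (θ α : ℝ) (h0 : θ ∈ Icc (0 : ℝ) 1) (hα : 0 < α) (hα' : α ≤ 1) :
    ‖p * (U θ - U (θ + α))‖ = 2 * ‖p‖ * Real.sin (α / 2) ∧
    Complex.arg (p * (U θ - U (θ + α)) / p) = θ + α / 2 - Real.pi / 2 := by
  have hs := B3_sin_pos hα hα'
  constructor
  · rw [B3_diff, norm_mul, norm_mul, norm_U, norm_real, Real.norm_eq_abs, abs_of_pos (by linarith)]
    ring
  · rw [mul_div_cancel_left₀ _ hp, B3_diff]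
    have hU : U (θ + α / 2 - Real.pi / 2) = Complex.cos ((θ + α / 2 - Real.pi / 2 : ℝ) : ℂ) +
        Complex.sin ((θ + α / 2 - Real.pi / 2 : ℝ) : ℂ) * I := by
      unfold U; rw [Complex.exp_mul_I]
    rw [hU]
    apply Complex.arg_mul_cos_add_sin_mul_I (by linarith)
    have := Real.pi_gt_three
    constructor
    · linarith [h0.1]
    · linarith [h0.2]

/-- the angle of the step `w` -/
noncomputable def B3_A (p w : ℂ) : ℝ := 2 * Real.arcsin (‖w‖ / (2 * ‖p‖))

/-- the direction of the triangle for the step `w` -/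
noncomputable def B3_T (p w : ℂ) : ℝ := Complex.arg (w / p) + Real.pi / 2 - B3_A p w / 2

theorem B3_A_eq (p : ℂ) (hp : p ≠ 0) (θ α : ℝ) (h0 : θ ∈ Icc (0 : ℝ) 1) (hα : 0 < α) (hα' : α ≤ 1) :
    B3_A p (p * (U θ - U (θ + α))) = α := by
  have hp' : 0 < ‖p‖ := norm_pos_iff.mpr hp
  unfold B3_A
  rw [(slide_dir p hp θ α h0 hα hα').1]
  have : 2 * ‖p‖ * Real.sin (α / 2) / (2 * ‖p‖) = Real.sin (α / 2) := by field_simp
  rw [this, Real.arcsin_sin (by linarith [Real.pi_gt_three]) (by linarith [Real.pi_gt_three])]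
  ring

theorem B3_T_eq (p : ℂ) (hp : p ≠ 0) (θ α : ℝ) (h0 : θ ∈ Icc (0 : ℝ) 1) (hα : 0 < α) (hα' : α ≤ 1) :
    B3_T p (p * (U θ - U (θ + α))) = θ := by
  unfold B3_T
  rw [B3_A_eq p hp θ α h0 hα hα', (slide_dir p hp θ α h0 hα hα').2]
  ring

theorem B3_A_meas (p : ℂ) : Measurable (B3_A p) := by
  unfold B3_A
  exact (Real.measurable_arcsin.comp (measurable_norm.div_const _)).const_mul 2

theorem B3_T_meas (p : ℂ) : Measurable (B3_T p) := by
  unfold B3_T
  exact ((Complex.measurable_arg.comp (measurable_id.div_const _)).add_const _).sub ((B3_A_meas p).div_const _)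

theorem Esl_meas (p : ℂ) (hp : p ≠ 0) (δ : ℝ) (hδ : δ ≤ 1) (G1 G : Set (ℂ × ℝ))
    (h1 : MeasurableSet G1) (h : MeasurableSet G) (ha : ∀ g ∈ G1, g.2 ∈ Icc (0 : ℝ) 1) :
    MeasurableSet (Esl p δ G1 G) := by
  have e : Esl p δ G1 G = {z : ℂ × ℂ | B3_A p (z.2 - z.1) ∈ Ioo 0 δ} ∩
      ({z | (z.1, B3_T p (z.2 - z.1)) ∈ G1} ∩ ({z | (z.2, B3_T p (z.2 - z.1) + B3_A p (z.2 - z.1)) ∈ G} ∩
      {z | z.2 - z.1 = p * (U (B3_T p (z.2 - z.1)) - U (B3_T p (z.2 - z.1) + B3_A p (z.2 - z.1)))})) := by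
    ext ⟨x, x'⟩
    constructor
    · rintro ⟨θ, α, hα, hα', hg1, hg, hx⟩
      simp only at hg1 hg hx
      have h0 := ha _ hg1
      simp only at h0
      have hw : x' - x = p * (U θ - U (θ + α)) := by rw [hx]; ring
      have eA : B3_A p (x' - x) = α := by rw [hw]; exact B3_A_eq p hp θ α h0 hα (by linarith)
      have eT : B3_T p (x' - x) = θ := by rw [hw]; exact B3_T_eq p hp θ α h0 hα (by linarith)
      refine ⟨?_, ?_, ?_, ?_⟩
      · show B3_A p (x' - x) ∈ Ioo 0 δ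
        rw [eA]; exact ⟨hα, hα'⟩
      · show (x, B3_T p (x' - x)) ∈ G1
        rw [eT]; exact hg1
      · show (x', B3_T p (x' - x) + B3_A p (x' - x)) ∈ G
        rw [eT, eA]; exact hg
      · show x' - x = p * (U (B3_T p (x' - x)) - U (B3_T p (x' - x) + B3_A p (x' - x)))
        rw [eT, eA]; exact hw
    · rintro ⟨⟨a1, a2⟩, a3, a4, a5⟩
      refine ⟨B3_T p (x' - x), B3_A p (x' - x), a1, a2, a3, a4, ?_⟩
      have : x' - x = p * (U (B3_T p (x' - x)) - U (B3_T p (x' - x) + B3_A p (x' - x))) := a5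
      show x' = x + p * (U (B3_T p (x' - x)) - U (B3_T p (x' - x) + B3_A p (x' - x)))
      rw [← this]; ring
  rw [e]
  have mw : Measurable (fun z : ℂ × ℂ => z.2 - z.1) := measurable_snd.sub measurable_fst
  have mA := (B3_A_meas p).comp mw
  have mT := (B3_T_meas p).comp mw
  refine (mA measurableSet_Ioo).inter (((measurable_fst.prodMk mT) h1).inter 
    (((measurable_snd.prodMk (mT.add mA)) h).inter ?_))
  exact measurableSet_eq_fun mw (((measurable_U.comp mT).sub (measurable_U.comp (mT.add mA))).const_mul p)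

/-- sum of the elements of a subset of `(0,1)` -/
theorem B3_rearr {A : Set ℝ} (hA : MeasurableSet A) (hs : A ⊆ Ioo 0 1) {c : ℝ} (hc : 0 ≤ c) (hcA : c ≤ volume.real A) :
    c ^ 2 / 2 ≤ ∫ α in A, α := by
  have hfin : volume A ≠ ⊤ := ((measure_mono hs).trans_lt (by simp)).ne
  have hc1 : c ≤ 1 := by
    refine hcA.trans ?_
    calc volume.real A ≤ volume.real (Ioo (0:ℝ) 1) := measureReal_mono hs (by simp)
      _ = 1 := by simp
  have hIoo : IntegrableOn (fun α : ℝ => max (c - α) 0) (Ioo 0 1) := by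
    apply Continuous.integrableOn_Icc (a := 0) (b := 1) (by fun_prop) |>.mono_set Ioo_subset_Icc_self
  have hcst : IntegrableOn (fun _ : ℝ => c) A := 
    (Continuous.integrableOn_Icc (a := 0) (b := 1) (by fun_prop)).mono_set (hs.trans Ioo_subset_Icc_self)
  have hid : IntegrableOn (fun α : ℝ => α) A := 
    (Continuous.integrableOn_Icc (a := 0) (b := 1) (by fun_prop)).mono_set (hs.trans Ioo_subset_Icc_self)
  have h1 : ∫ α in A, max (c - α) 0 ≤ ∫ α in Ioo (0:ℝ) 1, max (c - α) 0 := by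
    apply setIntegral_mono_set hIoo (Filter.Eventually.of_forall fun α => le_max_right _ _)
    exact Filter.Eventually.of_forall hs
  have h2 : ∫ α in Ioo (0:ℝ) 1, max (c - α) 0 = c ^ 2 / 2 := by
    rw [← integral_Ioc_eq_integral_Ioo, ← intervalIntegral.integral_of_le (by norm_num)]
    have i1 : ∀ a b : ℝ, IntervalIntegrable (fun α : ℝ => max (c - α) 0) volume a b := fun a b => 
      Continuous.intervalIntegrable (by fun_prop) _ _
    rw [← intervalIntegral.integral_add_adjacent_intervals (i1 0 c) (i1 c 1)]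
    have e1 : ∫ α in (0:ℝ)..c, max (c - α) 0 = ∫ α in (0:ℝ)..c, (c - α) := by
      apply intervalIntegral.integral_congr
      intro α hα
      rw [uIcc_of_le hc] at hα
      exact max_eq_left (by linarith [hα.2])
    have e2 : ∫ α in c..(1:ℝ), max (c - α) 0 = ∫ α in c..(1:ℝ), (0:ℝ) := by
      apply intervalIntegral.integral_congr
      intro α hα
      rw [uIcc_of_le hc1] at hα
      exact max_eq_right (by linarith [hα.1])
    rw [e1, e2, intervalIntegral.integral_sub (by simp) (by simp), intervalIntegral.integral_const, integral_id]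
    simp
    ring
  have h3 : ∫ α in A, (c - max (c - α) 0) ≤ ∫ α in A, α := by
    apply setIntegral_mono_on _ hid hA
    · intro α hα
      rcases max_cases (c - α) 0 with ⟨h, _⟩ | ⟨h, h'⟩
      · rw [h]; linarith
      · rw [h]; linarith
    · exact hcst.sub (hIoo.mono_set hs)
  have h4 : ∫ α in A, (c - max (c - α) 0) = volume.real A * c - ∫ α in A, max (c - α) 0 := by
    rw [integral_sub hcst (hIoo.mono_set hs), setIntegral_const, smul_eq_mul]
  nlinarith

/-- the sliding map in coordinates -/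
noncomputable def B3_F (x p : ℂ) (g : ℝ × ℝ) : ℝ × ℝ :=
  (x.re + (p.re * (Real.cos g.1 - Real.cos (g.1 + g.2)) - p.im * (Real.sin g.1 - Real.sin (g.1 + g.2))),
   x.im + (p.re * (Real.sin g.1 - Real.sin (g.1 + g.2)) + p.im * (Real.cos g.1 - Real.cos (g.1 + g.2))))

/-- its derivative -/
noncomputable def B3_D (p : ℂ) (g : ℝ × ℝ) : ℝ × ℝ →L[ℝ] ℝ × ℝ :=
  LinearMap.toContinuousLinearMap (Matrix.toLin (Module.Basis.finTwoProd ℝ) (Module.Basis.finTwoProd ℝ)
    !![p.re * (-Real.sin g.1 + Real.sin (g.1 + g.2)) - p.im * (Real.cos g.1 - Real.cos (g.1 + g.2)),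
       p.re * Real.sin (g.1 + g.2) + p.im * Real.cos (g.1 + g.2);
       p.re * (Real.cos g.1 - Real.cos (g.1 + g.2)) + p.im * (-Real.sin g.1 + Real.sin (g.1 + g.2)),
       -(p.re * Real.cos (g.1 + g.2)) + p.im * Real.sin (g.1 + g.2)])

theorem B3_F_eq (x p : ℂ) (θ α : ℝ) : 
    B3_F x p (θ, α) = Complex.measurableEquivRealProd (x + p * (U θ - U (θ + α))) := by
  rw [Complex.measurableEquivRealProd_apply]
  simp only [B3_F, add_re, add_im, mul_re, mul_im, sub_re, sub_im, U_re, U_im]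

theorem B3_hasF (x p : ℂ) (g : ℝ × ℝ) : HasFDerivAt (B3_F x p) (B3_D p g) g := by
  have hc1 : HasFDerivAt (fun g : ℝ × ℝ => Real.cos g.1) (-Real.sin g.1 • ContinuousLinearMap.fst ℝ ℝ ℝ) g := 
    (Real.hasDerivAt_cos g.1).comp_hasFDerivAt g hasFDerivAt_fst
  have hs1 : HasFDerivAt (fun g : ℝ × ℝ => Real.sin g.1) (Real.cos g.1 • ContinuousLinearMap.fst ℝ ℝ ℝ) g := 
    (Real.hasDerivAt_sin g.1).comp_hasFDerivAt g hasFDerivAt_fst
  have hadd : HasFDerivAt (fun g : ℝ × ℝ => g.1 + g.2) (ContinuousLinearMap.fst ℝ ℝ ℝ + ContinuousLinearMap.snd ℝ ℝ ℝ) g := 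
    hasFDerivAt_fst.add hasFDerivAt_snd
  have hc2 : HasFDerivAt (fun g : ℝ × ℝ => Real.cos (g.1 + g.2)) 
      (-Real.sin (g.1 + g.2) • (ContinuousLinearMap.fst ℝ ℝ ℝ + ContinuousLinearMap.snd ℝ ℝ ℝ)) g := 
    hadd.cos
  have hs2 : HasFDerivAt (fun g : ℝ × ℝ => Real.sin (g.1 + g.2)) 
      (Real.cos (g.1 + g.2) • (ContinuousLinearMap.fst ℝ ℝ ℝ + ContinuousLinearMap.snd ℝ ℝ ℝ)) g := 
    hadd.sin
  have h1 := (((hc1.sub hc2).const_mul p.re).sub ((hs1.sub hs2).const_mul p.im)).const_add x.re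
  have h2 := (((hs1.sub hs2).const_mul p.re).add ((hc1.sub hc2).const_mul p.im)).const_add x.im
  have h3 := h1.prodMk h2
  refine h3.congr_fderiv ?_
  apply ContinuousLinearMap.ext
  rintro ⟨a, b⟩
  unfold B3_D
  rw [Matrix.toLin_finTwoProd_toContinuousLinearMap]
  simp
  constructor <;> ring

theorem B3_det (p : ℂ) (g : ℝ × ℝ) : (B3_D p g).det = -(‖p‖ ^ 2 * Real.sin g.2) := by
  unfold B3_D
  simp only [LinearMap.det_toContinuousLinearMap, LinearMap.det_toLin, Matrix.det_fin_two_of]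
  rw [← normSq_eq_norm_sq, normSq_apply]
  have h1 : Real.sin g.2 = Real.sin (g.1 + g.2) * Real.cos g.1 - Real.cos (g.1 + g.2) * Real.sin g.1 := by
    rw [← Real.sin_sub]; congr 1; ring
  have h2 := Real.sin_sq_add_cos_sq (g.1 + g.2)
  rw [h1]
  linear_combination (-(p.re * p.re + p.im * p.im)) * 0 * h2

theorem B3_inj (x p : ℂ) (hp : p ≠ 0) {S : Set (ℝ × ℝ)} (hS : S ⊆ Icc 0 1 ×ˢ Ioo 0 1) : InjOn (B3_F x p) S := by
  rintro ⟨θ, α⟩ h ⟨θ', α'⟩ h' he
  obtain ⟨h0, h1, h2⟩ := hS h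
  obtain ⟨h0', h1', h2'⟩ := hS h'
  rw [B3_F_eq, B3_F_eq] at he
  have e := add_left_cancel (Complex.measurableEquivRealProd.injective he)
  have e1 := B3_A_eq p hp θ α h0 h1 h2.le
  have e2 := B3_T_eq p hp θ α h0 h1 h2.le
  rw [e, B3_A_eq p hp θ' α' h0' h1' h2'.le] at e1
  rw [e, B3_T_eq p hp θ' α' h0' h1' h2'.le] at e2
  rw [e1, e2]

theorem Esl_slice (p : ℂ) (hp : p ≠ 0) (δ : ℝ) (hδ : δ ≤ 1) (G1 G : Set (ℂ × ℝ))
    (h1 : MeasurableSet G1) (h : MeasurableSet G) (ha : ∀ g ∈ G1, g.2 ∈ Icc (0 : ℝ) 1)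
    (x : ℂ) (m m' : ℝ) (hm : 0 ≤ m) (hm' : 0 ≤ m')
    (hx : m ≤ volume.real {θ : ℝ | (x, θ) ∈ G1})
    (hx' : ∀ θ : ℝ, (x, θ) ∈ G1 → m' ≤ volume.real {α : ℝ | α ∈ Ioo 0 δ ∧ rot p α (x, θ) ∈ G}) :
    ‖p‖ ^ 2 / 4 * (m * m') ^ 2 ≤ volume.real {x' : ℂ | (x, x') ∈ Esl p δ G1 G} := by
  set T : Set ℝ := {θ | (x, θ) ∈ G1} with hT
  set S : Set (ℝ × ℝ) := {g | g.1 ∈ T ∧ g.2 ∈ Ioo 0 δ ∧ rot p g.2 (x, g.1) ∈ G} with hS
  have mT : MeasurableSet T := (measurable_const.prodMk measurable_id) h1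
  have mrot : Measurable (fun g : ℝ × ℝ => rot p g.2 (x, g.1)) := by
    unfold rot
    have ms : Measurable (fun g : ℝ × ℝ => g.1 + g.2) := measurable_fst.add measurable_snd
    exact ((((measurable_U.comp measurable_fst).sub (measurable_U.comp ms)).const_mul p).const_add x).prodMk ms
  have mS : MeasurableSet S := (measurable_fst mT).inter ((measurable_snd measurableSet_Ioo).inter (mrot h))
  have hSsub : S ⊆ Icc 0 1 ×ˢ Ioo 0 1 := by
    rintro ⟨θ, α⟩ ⟨h1, h2, -⟩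
    exact ⟨ha _ h1, h2.1, h2.2.trans_le hδ⟩
  have hE : {x' : ℂ | (x, x') ∈ Esl p δ G1 G} = Complex.measurableEquivRealProd ⁻¹' (B3_F x p '' S) := by
    ext x'
    constructor
    · rintro ⟨θ, α, hα, hα', hg1, hg, hx1⟩
      simp only at hg1 hg hx1
      refine ⟨(θ, α), ⟨hg1, ⟨hα, hα'⟩, ?_⟩, ?_⟩
      · show (x + p * (U θ - U (θ + α)), θ + α) ∈ G
        rw [← hx1]; exact hg
      · rw [B3_F_eq, hx1]
    · rintro ⟨⟨θ, α⟩, ⟨hg1, ⟨hα, hα'⟩, hg⟩, he⟩
      rw [B3_F_eq] at he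
      have hx1 := Complex.measurableEquivRealProd.injective he
      refine ⟨θ, α, hα, hα', hg1, ?_, hx1.symm⟩
      show (x', θ + α) ∈ G
      rw [← hx1]; exact hg
  have hvol : volume {x' : ℂ | (x, x') ∈ Esl p δ G1 G} = ∫⁻ g in S, ENNReal.ofReal (‖p‖ ^ 2 * Real.sin g.2) := by
    rw [hE, Complex.volume_preserving_equiv_real_prod.measure_preimage_equiv, 
      ← lintegral_abs_det_fderiv_eq_addHaar_image volume mS (fun g _ => (B3_hasF x p g).hasFDerivWithinAt) (B3_inj x p hp hSsub)]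
    refine setLIntegral_congr_fun mS fun g hg => ?_
    have hg2 := (hSsub hg).2
    have hs : 0 ≤ Real.sin g.2 := Real.sin_nonneg_of_nonneg_of_le_pi hg2.1.le (by linarith [hg2.2, Real.pi_gt_three])
    rw [B3_det, abs_neg, abs_of_nonneg (by positivity)]
  have hTsub : T ⊆ Icc 0 1 := fun θ hθ => ha _ hθ
  have hTfin : volume T ≠ ⊤ := ((measure_mono hTsub).trans_lt (by simp)).ne
  have hT1 : volume.real T ≤ 1 := by
    calc volume.real T ≤ volume.real (Icc (0:ℝ) 1) := measureReal_mono hTsub (by simp)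
      _ = 1 := by simp
  have mA0 : ∀ θ : ℝ, MeasurableSet {α : ℝ | α ∈ Ioo 0 δ ∧ rot p α (x, θ) ∈ G} := by
    intro θ
    have h2 : Measurable (fun α : ℝ => rot p α (x, θ)) := by
      unfold rot
      have ms : Measurable (fun α : ℝ => θ + α) := measurable_id.const_add θ
      exact ((((measurable_U.comp ms).const_sub (U θ)).const_mul p).const_add x).prodMk ms
    exact measurableSet_Ioo.inter (h2 h)
  have hin : ∀ θ ∈ T, ENNReal.ofReal (‖p‖ ^ 2 * (m' ^ 2 / 4)) ≤ 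
      ∫⁻ α in {α : ℝ | α ∈ Ioo 0 δ ∧ rot p α (x, θ) ∈ G}, ENNReal.ofReal (‖p‖ ^ 2 * Real.sin α) := by
    intro θ hθ
    set A : Set ℝ := {α : ℝ | α ∈ Ioo 0 δ ∧ rot p α (x, θ) ∈ G} with hA
    have mA : MeasurableSet A := mA0 θ
    have hAs : A ⊆ Ioo 0 1 := fun α hα => ⟨hα.1.1, hα.1.2.trans_le hδ⟩
    have hr := B3_rearr mA hAs hm' (hx' θ hθ)
    have i1 : IntegrableOn (fun α : ℝ => ‖p‖ ^ 2 * Real.sin α) A := 
      (Continuous.integrableOn_Icc (a := 0) (b := 1) (by fun_prop)).mono_set (hAs.trans Ioo_subset_Icc_self)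
    have i2 : IntegrableOn (fun α : ℝ => ‖p‖ ^ 2 / 2 * α) A := 
      (Continuous.integrableOn_Icc (a := 0) (b := 1) (by fun_prop)).mono_set (hAs.trans Ioo_subset_Icc_self)
    have hsin : ∀ α ∈ A, 0 ≤ Real.sin α := fun α hα => 
      Real.sin_nonneg_of_nonneg_of_le_pi (hAs hα).1.le (by linarith [(hAs hα).2, Real.pi_gt_three])
    rw [← ofReal_integral_eq_lintegral_ofReal i1 ?_]
    · apply ENNReal.ofReal_le_ofReal
      calc ‖p‖ ^ 2 * (m' ^ 2 / 4) = ‖p‖ ^ 2 / 2 * (m' ^ 2 / 2) := by ring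
        _ ≤ ‖p‖ ^ 2 / 2 * ∫ α in A, α := by gcongr
        _ = ∫ α in A, ‖p‖ ^ 2 / 2 * α := (integral_const_mul _ _).symm
        _ ≤ ∫ α in A, ‖p‖ ^ 2 * Real.sin α := by
          apply setIntegral_mono_on i2 i1 mA
          intro α hα
          have h3 := Real.sin_gt_sub_cube (hAs hα).1
          have h4 : α / 2 ≤ Real.sin α := by
            have := (hAs hα).1
            have := (hAs hα).2
            have h5 : α ^ 3 ≤ α := by nlinarith [mul_pos ‹0 < α› ‹0 < α›]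
            linarith
          calc ‖p‖ ^ 2 / 2 * α = ‖p‖ ^ 2 * (α / 2) := by ring
            _ ≤ _ := by gcongr
    · filter_upwards [ae_restrict_mem mA] with α hα
      have := hsin α hα
      positivity
  have hlow : ENNReal.ofReal (‖p‖ ^ 2 * (m' ^ 2 / 4)) * volume T ≤ ∫⁻ g in S, ENNReal.ofReal (‖p‖ ^ 2 * Real.sin g.2) := by
    have mf : Measurable (fun g : ℝ × ℝ => ENNReal.ofReal (‖p‖ ^ 2 * Real.sin g.2)) := by
      apply ENNReal.measurable_ofReal.comp
      exact (Real.measurable_sin.comp measurable_snd).const_mul _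
    rw [← lintegral_indicator mS, Measure.volume_eq_prod, lintegral_prod _ (mf.indicator mS).aemeasurable, 
      ← setLIntegral_const, ← lintegral_indicator mT]
    apply lintegral_mono
    intro θ
    by_cases hθ : θ ∈ T
    · simp only [indicator_of_mem hθ]
      refine (hin θ hθ).trans (le_of_eq ?_)
      rw [← lintegral_indicator (mA0 θ)]
      congr 1
      funext α
      by_cases hα : α ∈ {α : ℝ | α ∈ Ioo 0 δ ∧ rot p α (x, θ) ∈ G}
      · have : (θ, α) ∈ S := ⟨hθ, hα.1, hα.2⟩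
        rw [indicator_of_mem hα, indicator_of_mem this]
      · have : (θ, α) ∉ S := fun hh => hα ⟨hh.2.1, hh.2.2⟩
        rw [indicator_of_notMem hα, indicator_of_notMem this]
    · simp only [indicator_of_notMem hθ]
      exact zero_le
  have hfin : volume {x' : ℂ | (x, x') ∈ Esl p δ G1 G} ≠ ⊤ := by
    refine ((measure_mono ?_).trans_lt (measure_closedBall_lt_top (x := x) (r := 2 * ‖p‖))).ne
    rintro x' ⟨θ, α, -, -, -, -, hx1⟩
    simp only at hx1
    rw [Metric.mem_closedBall, dist_eq_norm, hx1, add_sub_cancel_left, norm_mul]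
    have : ‖U θ - U (θ + α)‖ ≤ 2 := by
      refine (norm_sub_le _ _).trans ?_
      rw [norm_U, norm_U]; norm_num
    nlinarith [norm_nonneg p]
  unfold Measure.real
  rw [← ENNReal.ofReal_le_iff_le_toReal hfin, hvol]
  refine le_trans ?_ hlow
  have : volume T = ENNReal.ofReal (volume.real T) := (ENNReal.ofReal_toReal hTfin).symm
  rw [this, ← ENNReal.ofReal_mul (by positivity)]
  apply ENNReal.ofReal_le_ofReal
  have hm1 : m ≤ 1 := hx.trans hT1
  have h5 : m ^ 2 ≤ volume.real T := by nlinarith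
  calc ‖p‖ ^ 2 / 4 * (m * m') ^ 2 = ‖p‖ ^ 2 * (m' ^ 2 / 4) * m ^ 2 := by ring
    _ ≤ _ := by gcongr

end TriDil
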