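import Pool.Agent.TriDil.Basic7
import Pool.Agent.TriDil.B1
set_option autoImplicit false
open MeasureTheory Complex Set
namespace TriDil

/-- bound for a product measure by sections -/
theorem B5_prod_le {α β : Type*} [MeasurableSpace α] [MeasurableSpace β] (μ : Measure α) (ν : Measure β)
    [SFinite μ] [SFinite ν] (S : Set (α × β)) (hS : MeasurableSet S) (A : Set α) (M : ENNReal)
    (h1 : ∀ x, ν (Prod.mk x ⁻¹' S) ≤ M) (h2 : ∀ x, x ∉ A → Prod.mk x ⁻¹' S = ∅) (hA : MeasurableSet A) :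
    (μ.prod ν) S ≤ M * μ A := by
  rw [Measure.prod_apply hS]
  calc ∫⁻ x, ν (Prod.mk x ⁻¹' S) ∂μ ≤ ∫⁻ x, A.indicator (fun _ => M) x ∂μ := by
        apply lintegral_mono
        intro x
        by_cases hx : x ∈ A
        · rw [indicator_of_mem hx]; exact h1 x
        · have := h2 x hx
          simp only [this, measure_empty, zero_le]
    _ = M * μ A := by
        rw [lintegral_indicator hA, lintegral_const]
        simp

/-- area of an open strip in a box -/
theorem B5_strip_re (L s c a b τ : ℝ) (hs : 0 < s) (ha : s ≤ |a|) (hτ : 0 < τ) :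
    volume {z : ℂ | ‖z‖ ≤ L ∧ |a * z.im - b * z.re - c| < τ} ≤ ENNReal.ofReal (2 * τ / s) * ENNReal.ofReal (2 * L) := by
  have hmp := Complex.volume_preserving_equiv_real_prod
  set S : Set (ℝ × ℝ) := {p | |p.1| ≤ L ∧ |a * p.2 - b * p.1 - c| < τ} with hS
  have hSm : MeasurableSet S :=
    (measurableSet_le (by fun_prop : Measurable fun p : ℝ × ℝ => |p.1|) measurable_const).inter
      (measurableSet_lt (by fun_prop : Measurable fun p : ℝ × ℝ => |a * p.2 - b * p.1 - c|) measurable_const)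
  have h1 : volume {z : ℂ | ‖z‖ ≤ L ∧ |a * z.im - b * z.re - c| < τ} ≤ volume S := by
    rw [← hmp.measure_preimage_equiv]
    apply measure_mono
    rintro z ⟨hz1, hz2⟩
    refine ⟨?_, ?_⟩
    · exact (Complex.abs_re_le_norm z).trans hz1
    · exact hz2
  refine h1.trans ?_
  have ha0 : a ≠ 0 := by
    intro h; rw [h, abs_zero] at ha; linarith
  have h2 := B5_prod_le (volume : Measure ℝ) (volume : Measure ℝ) S hSm (Icc (-L) L) (ENNReal.ofReal (2 * τ / s)) ?_ ?_ measurableSet_Icc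
  · rw [Real.volume_Icc] at h2
    have : L - -L = 2 * L := by ring
    rw [this] at h2
    exact h2
  · intro x
    have hsub : Prod.mk x ⁻¹' S ⊆ Icc ((c + b * x) / a - τ / s) ((c + b * x) / a + τ / s) := by
      intro y hy
      have hy2 : |a * y - b * x - c| < τ := hy.2
      have h3 : |y - (c + b * x) / a| ≤ τ / s := by
        have e : y - (c + b * x) / a = (a * y - b * x - c) / a := by field_simp; ring
        rw [e, abs_div]
        apply div_le_div₀ hτ.le hy2.le hs ha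
      rw [abs_le] at h3
      constructor <;> linarith [h3.1, h3.2]
    refine (measure_mono hsub).trans ?_
    rw [Real.volume_Icc]
    apply ENNReal.ofReal_le_ofReal
    have : (c + b * x) / a + τ / s - ((c + b * x) / a - τ / s) = 2 * τ / s := by ring
    rw [this]
  · intro x hx
    ext y
    simp only [mem_preimage, mem_empty_iff_false, iff_false]
    intro hy
    apply hx
    exact abs_le.mp hy.1

theorem B5_strip_im (L s c a b τ : ℝ) (hs : 0 < s) (hb : s ≤ |b|) (hτ : 0 < τ) :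
    volume {z : ℂ | ‖z‖ ≤ L ∧ |a * z.im - b * z.re - c| < τ} ≤ ENNReal.ofReal (2 * τ / s) * ENNReal.ofReal (2 * L) := by
  -- reflect in the diagonal: z ↦ I * conj z
  have hmp := Complex.volume_preserving_equiv_real_prod
  set S : Set (ℝ × ℝ) := {p | |p.1| ≤ L ∧ |a * p.1 - b * p.2 - c| < τ} with hS
  have hSm : MeasurableSet S :=
    (measurableSet_le (by fun_prop : Measurable fun p : ℝ × ℝ => |p.1|) measurable_const).inter
      (measurableSet_lt (by fun_prop : Measurable fun p : ℝ × ℝ => |a * p.1 - b * p.2 - c|) measurable_const)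
  have hsw : MeasurePreserving (Prod.swap : ℝ × ℝ → ℝ × ℝ) volume volume := Measure.measurePreserving_swap
  have h1 : volume {z : ℂ | ‖z‖ ≤ L ∧ |a * z.im - b * z.re - c| < τ} ≤ volume S := by
    rw [← hsw.measure_preimage hSm.nullMeasurableSet, ← hmp.measure_preimage_equiv]
    apply measure_mono
    rintro z ⟨hz1, hz2⟩
    refine ⟨?_, ?_⟩
    · exact (Complex.abs_im_le_norm z).trans hz1
    · exact hz2
  refine h1.trans ?_
  have hb0 : b ≠ 0 := by
    intro h; rw [h, abs_zero] at hb; linarith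
  have h2 := B5_prod_le (volume : Measure ℝ) (volume : Measure ℝ) S hSm (Icc (-L) L) (ENNReal.ofReal (2 * τ / s)) ?_ ?_ measurableSet_Icc
  · rw [Real.volume_Icc] at h2
    have : L - -L = 2 * L := by ring
    rw [this] at h2
    exact h2
  · intro x
    have hsub : Prod.mk x ⁻¹' S ⊆ Icc ((a * x - c) / b - τ / s) ((a * x - c) / b + τ / s) := by
      intro y hy
      have hy2 : |a * x - b * y - c| < τ := hy.2
      have h3 : |y - (a * x - c) / b| ≤ τ / s := by
        have e : y - (a * x - c) / b = -((a * x - b * y - c) / b) := by field_simp; ring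
        rw [e, abs_neg, abs_div]
        apply div_le_div₀ hτ.le hy2.le hs hb
      rw [abs_le] at h3
      constructor <;> linarith [h3.1, h3.2]
    refine (measure_mono hsub).trans ?_
    rw [Real.volume_Icc]
    apply ENNReal.ofReal_le_ofReal
    have : (a * x - c) / b + τ / s - ((a * x - c) / b - τ / s) = 2 * τ / s := by ring
    rw [this]
  · intro x hx
    ext y
    simp only [mem_preimage, mem_empty_iff_false, iff_false]
    intro hy
    apply hx
    exact abs_le.mp hy.1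

theorem det_small (L : ℝ) : ∃ C : ℝ, 0 < C ∧ ∀ τ : ℝ, 0 < τ → τ ≤ 1 →
    volume.real {y : ℂ × ℂ × ℂ | ‖y.1‖ ≤ L ∧ ‖y.2.1‖ ≤ L ∧ ‖y.2.2‖ ≤ L ∧
      |dt (y.2.1 - y.1) (y.2.2 - y.1)| < τ} ≤ C * Real.sqrt τ := by
  set vB : ENNReal := volume (Metric.closedBall (0 : ℂ) L) with hvB
  have hvBt : vB ≠ ⊤ := by
    rw [hvB]; exact (isCompact_closedBall (0 : ℂ) L).measure_lt_top.ne
  refine ⟨(4 * Real.pi + 4 * |L|) * vB.toReal ^ 2 + 1, by positivity, ?_⟩
  intro τ hτ hτ1
  set s := Real.sqrt τ with hs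
  have hs0 : 0 < s := Real.sqrt_pos.mpr hτ
  have hss : s * s = τ := Real.mul_self_sqrt hτ.le
  have hs1 : s ≤ 1 := by rw [hs]; exact Real.sqrt_le_one.mpr hτ1
  set S : Set (ℂ × ℂ × ℂ) := {y | ‖y.1‖ ≤ L ∧ ‖y.2.1‖ ≤ L ∧ ‖y.2.2‖ ≤ L ∧
      |dt (y.2.1 - y.1) (y.2.2 - y.1)| < τ} with hS
  have hdtm : Measurable fun y : ℂ × ℂ × ℂ => |dt (y.2.1 - y.1) (y.2.2 - y.1)| := by
    unfold dt
    apply Continuous.measurable
    fun_prop
  have hSm : MeasurableSet S :=
    (measurableSet_le (by fun_prop : Measurable fun y : ℂ × ℂ × ℂ => ‖y.1‖) measurable_const).inter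
      ((measurableSet_le (by fun_prop : Measurable fun y : ℂ × ℂ × ℂ => ‖y.2.1‖) measurable_const).inter
      ((measurableSet_le (by fun_prop : Measurable fun y : ℂ × ℂ × ℂ => ‖y.2.2‖) measurable_const).inter
      (measurableSet_lt hdtm measurable_const)))
  have hball : ∀ z : ℂ, ‖z‖ ≤ L → z ∈ Metric.closedBall (0 : ℂ) L := fun z hz => by
    rw [mem_closedBall_zero_iff]; exact hz
  -- bound of the sections
  have hsec : ∀ x : ℂ, (volume : Measure (ℂ × ℂ)) (Prod.mk x ⁻¹' S) ≤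
      vB * (ENNReal.ofReal (2 * s) ^ 2 * NNReal.pi) + ENNReal.ofReal (2 * s) * ENNReal.ofReal (2 * L) * vB := by
    intro x
    set A1 : Set (ℂ × ℂ) := {p | ‖p.1 - x‖ < 2 * s ∧ ‖p.2‖ ≤ L} with hA1
    set A2 : Set (ℂ × ℂ) := {p | (s ≤ |(p.1 - x).re| ∨ s ≤ |(p.1 - x).im|) ∧ ‖p.1‖ ≤ L ∧ ‖p.2‖ ≤ L ∧
      |dt (p.1 - x) (p.2 - x)| < τ} with hA2
    have hsub : Prod.mk x ⁻¹' S ⊆ A1 ∪ A2 := by
      rintro ⟨p1, p2⟩ ⟨h1, h2, h3, h4⟩
      by_cases hc : s ≤ |(p1 - x).re| ∨ s ≤ |(p1 - x).im|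
      · exact Or.inr ⟨hc, h2, h3, h4⟩
      · push Not at hc
        refine Or.inl ⟨?_, h3⟩
        calc ‖p1 - x‖ ≤ |(p1 - x).re| + |(p1 - x).im| := Complex.norm_le_abs_re_add_abs_im _
          _ < s + s := add_lt_add hc.1 hc.2
          _ = 2 * s := by ring
    have hA1m : MeasurableSet A1 :=
      (measurableSet_lt (by fun_prop : Measurable fun p : ℂ × ℂ => ‖p.1 - x‖) measurable_const).inter
      (measurableSet_le (by fun_prop : Measurable fun p : ℂ × ℂ => ‖p.2‖) measurable_const)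
    have hdtm2 : Measurable fun p : ℂ × ℂ => |dt (p.1 - x) (p.2 - x)| := by
      unfold dt
      apply Continuous.measurable
      fun_prop
    have hre : Measurable fun p : ℂ × ℂ => |(p.1 - x).re| := by
      apply Continuous.measurable; fun_prop
    have him : Measurable fun p : ℂ × ℂ => |(p.1 - x).im| := by
      apply Continuous.measurable; fun_prop
    have hA2m : MeasurableSet A2 :=
      ((measurableSet_le measurable_const hre).union (measurableSet_le measurable_const him)).inter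
      ((measurableSet_le (by fun_prop : Measurable fun p : ℂ × ℂ => ‖p.1‖) measurable_const).inter
      ((measurableSet_le (by fun_prop : Measurable fun p : ℂ × ℂ => ‖p.2‖) measurable_const).inter
      (measurableSet_lt hdtm2 measurable_const)))
    have b1 : (volume : Measure (ℂ × ℂ)) A1 ≤ vB * (ENNReal.ofReal (2 * s) ^ 2 * NNReal.pi) := by
      have := B5_prod_le (volume : Measure ℂ) (volume : Measure ℂ) A1 hA1m (Metric.ball x (2 * s)) vB ?_ ?_
        Metric.isOpen_ball.measurableSet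
      · rw [Complex.volume_ball] at this
        exact this
      · intro y
        apply measure_mono
        intro z hz
        exact hball z hz.2
      · intro y hy
        ext z
        simp only [mem_preimage, mem_empty_iff_false, iff_false]
        intro hz
        apply hy
        rw [Metric.mem_ball, dist_eq_norm]
        exact hz.1
    have b2 : (volume : Measure (ℂ × ℂ)) A2 ≤ ENNReal.ofReal (2 * s) * ENNReal.ofReal (2 * L) * vB := by
      refine B5_prod_le (volume : Measure ℂ) (volume : Measure ℂ) A2 hA2m (Metric.closedBall 0 L) _ ?_ ?_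
        Metric.isClosed_closedBall.measurableSet
      · intro y
        have e2 : 2 * τ / s = 2 * s := by
          rw [← hss]; field_simp
        by_cases hc1 : s ≤ |(y - x).re|
        · have := B5_strip_re L s ((y - x).re * x.im - (y - x).im * x.re) (y - x).re (y - x).im τ hs0 hc1 hτ
          rw [e2] at this
          refine (measure_mono ?_).trans this
          rintro z ⟨_, _, h3, h4⟩
          refine ⟨h3, ?_⟩
          have : (y - x).re * z.im - (y - x).im * z.re - ((y - x).re * x.im - (y - x).im * x.re)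
              = dt (y - x) (z - x) := by
            unfold dt; simp only [sub_re, sub_im]; ring
          rw [this]; exact h4
        · by_cases hc2 : s ≤ |(y - x).im|
          · have := B5_strip_im L s ((y - x).re * x.im - (y - x).im * x.re) (y - x).re (y - x).im τ hs0 hc2 hτ
            rw [e2] at this
            refine (measure_mono ?_).trans this
            rintro z ⟨_, _, h3, h4⟩
            refine ⟨h3, ?_⟩
            have : (y - x).re * z.im - (y - x).im * z.re - ((y - x).re * x.im - (y - x).im * x.re)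
                = dt (y - x) (z - x) := by
              unfold dt; simp only [sub_re, sub_im]; ring
            rw [this]; exact h4
          · have : Prod.mk y ⁻¹' A2 = ∅ := by
              ext z
              simp only [mem_preimage, mem_empty_iff_false, iff_false]
              rintro ⟨h | h, _⟩
              · exact hc1 h
              · exact hc2 h
            rw [this, measure_empty]; exact zero_le
      · intro y hy
        ext z
        simp only [mem_preimage, mem_empty_iff_false, iff_false]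
        intro hz
        exact hy (hball y hz.2.1)
    exact ((measure_mono hsub).trans (measure_union_le _ _)).trans (add_le_add b1 b2)
  have htot := B5_prod_le (volume : Measure ℂ) (volume : Measure (ℂ × ℂ)) S hSm (Metric.closedBall 0 L) _ hsec (by
    intro y hy
    ext z
    simp only [mem_preimage, mem_empty_iff_false, iff_false]
    intro hz
    exact hy (hball y hz.1)) Metric.isClosed_closedBall.measurableSet
  have hvBe : vB = ENNReal.ofReal vB.toReal := (ENNReal.ofReal_toReal hvBt).symm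
  have hfin : (vB * (ENNReal.ofReal (2 * s) ^ 2 * NNReal.pi) + ENNReal.ofReal (2 * s) * ENNReal.ofReal (2 * L) * vB) * vB ≠ ⊤ := by
    apply ENNReal.mul_ne_top _ hvBt
    apply ENNReal.add_ne_top.mpr
    constructor
    · apply ENNReal.mul_ne_top hvBt
      apply ENNReal.mul_ne_top (ENNReal.pow_ne_top ENNReal.ofReal_ne_top) ENNReal.coe_ne_top
    · exact ENNReal.mul_ne_top (ENNReal.mul_ne_top ENNReal.ofReal_ne_top ENNReal.ofReal_ne_top) hvBt
  have hreal := ENNReal.toReal_mono hfin htot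
  have hL2 : (ENNReal.ofReal (2 * L)).toReal ≤ 2 * |L| := by
    rw [ENNReal.toReal_ofReal']
    apply max_le
    · nlinarith [le_abs_self L]
    · positivity
  have hmul : ((vB * (ENNReal.ofReal (2 * s) ^ 2 * NNReal.pi) + ENNReal.ofReal (2 * s) * ENNReal.ofReal (2 * L) * vB) * vB).toReal
      ≤ (4 * Real.pi + 4 * |L|) * vB.toReal ^ 2 * s := by
    rw [ENNReal.toReal_mul, ENNReal.toReal_add, ENNReal.toReal_mul, ENNReal.toReal_mul, ENNReal.toReal_mul,
      ENNReal.toReal_mul, ENNReal.toReal_pow, ENNReal.toReal_ofReal (by positivity : (0:ℝ) ≤ 2 * s)]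
    · have hpi : ((NNReal.pi : ENNReal)).toReal = Real.pi := by
        rw [ENNReal.coe_toReal]; exact NNReal.coe_real_pi
      rw [hpi]
      have hv0 : 0 ≤ vB.toReal := ENNReal.toReal_nonneg
      have h1 : vB.toReal * ((2 * s) ^ 2 * Real.pi) ≤ 4 * Real.pi * vB.toReal * s := by
        have : vB.toReal * ((2 * s) ^ 2 * Real.pi) = 4 * Real.pi * vB.toReal * (s * s) := by ring
        rw [this]
        have : s * s ≤ s := by nlinarith
        have hp : 0 ≤ 4 * Real.pi * vB.toReal := by positivity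
        nlinarith
      have h2 : 2 * s * (ENNReal.ofReal (2 * L)).toReal * vB.toReal ≤ 4 * |L| * vB.toReal * s := by
        have : 2 * s * (ENNReal.ofReal (2 * L)).toReal ≤ 2 * s * (2 * |L|) :=
          mul_le_mul_of_nonneg_left hL2 (by positivity)
        nlinarith
      nlinarith
    · apply ENNReal.mul_ne_top hvBt
      apply ENNReal.mul_ne_top (ENNReal.pow_ne_top ENNReal.ofReal_ne_top) ENNReal.coe_ne_top
    · exact ENNReal.mul_ne_top (ENNReal.mul_ne_top ENNReal.ofReal_ne_top ENNReal.ofReal_ne_top) hvBt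
  have hfinal : volume.real S ≤ (4 * Real.pi + 4 * |L|) * vB.toReal ^ 2 * s := hreal.trans hmul
  nlinarith [hfinal, hs0]

/-- solving a 2x2 system -/
theorem B5_solve (v e1 e2 : ℂ) (h : dt e1 e2 ≠ 0) :
    v = (((ip v e1 : ℝ) : ℂ) * (-I * e2) - ((ip v e2 : ℝ) : ℂ) * (-I * e1)) / ((dt e1 e2 : ℝ) : ℂ) := by
  have h' : ((dt e1 e2 : ℝ) : ℂ) ≠ 0 := by exact_mod_cast h
  rw [eq_div_iff h']
  apply Complex.ext
  · simp only [mul_re, sub_re, neg_re, neg_im, I_re, I_im, ofReal_re, ofReal_im, mul_im, ip, dt]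
    ring
  · simp only [mul_re, sub_im, neg_re, neg_im, I_re, I_im, ofReal_re, ofReal_im, mul_im, ip, dt]
    ring

/-- a slice of large length in a given direction -/
theorem B5_slice (L ε : ℝ) (hL : 0 < L) (hε : 0 < ε) (Z : Set ℂ) (hZ : MeasurableSet Z) (hZL : ∀ z ∈ Z, ‖z‖ ≤ L)
    (hv : ε ≤ volume.real Z) (e : ℂ) (he : ‖e‖ = 1) :
    ∃ s : ℝ, MeasurableSet {t : ℝ | e * (t + s * I) ∈ Z} ∧ {t : ℝ | e * (t + s * I) ∈ Z} ⊆ Icc (-L) L ∧
      ε / (4 * L) ≤ volume.real {t : ℝ | e * (t + s * I) ∈ Z} := by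
  -- rotate
  have hmp : MeasurePreserving (fun z : ℂ => e * z) volume volume := by
    have := (rotation (⟨e, by simp [Submonoid.unitSphere, he]⟩ : Circle)).measurePreserving
    exact this
  have hmp2 := Complex.volume_preserving_equiv_real_prod
  set Z' : Set ℂ := (fun z : ℂ => e * z) ⁻¹' Z with hZ'
  have hZ'm : MeasurableSet Z' := hmp.measurable hZ
  have hvol : volume Z' = volume Z := hmp.measure_preimage hZ.nullMeasurableSet
  set Z2 : Set (ℝ × ℝ) := (fun p : ℝ × ℝ => (⟨p.2, p.1⟩ : ℂ)) ⁻¹' Z' with hZ2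
  have hm3 : Measurable (fun p : ℝ × ℝ => (⟨p.2, p.1⟩ : ℂ)) := by
    have e1 : (fun p : ℝ × ℝ => (⟨p.2, p.1⟩ : ℂ)) = fun p => (p.2 : ℂ) + p.1 * I := by
      funext p; apply Complex.ext <;> simp
    rw [e1]
    fun_prop
  have hZ2m : MeasurableSet Z2 := hm3 hZ'm
  have hvol2 : volume Z2 = volume Z' := by
    have hsw : MeasurePreserving (Prod.swap : ℝ × ℝ → ℝ × ℝ) volume volume := Measure.measurePreserving_swap
    have h1 : Z' = Complex.measurableEquivRealProd ⁻¹' (Prod.swap ⁻¹' Z2) := by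
      ext z
      simp only [mem_preimage, hZ2]
      rfl
    rw [h1, hmp2.measure_preimage_equiv, hsw.measure_preimage hZ2m.nullMeasurableSet]
  have hZfin : volume Z ≠ ⊤ := by
    have : Z ⊆ Metric.closedBall 0 L := fun z hz => by
      rw [mem_closedBall_zero_iff]; exact hZL z hz
    exact ((measure_mono this).trans_lt (isCompact_closedBall (0 : ℂ) L).measure_lt_top).ne
  by_contra hcon
  push Not at hcon
  have hslice : ∀ s : ℝ, Prod.mk s ⁻¹' Z2 = {t : ℝ | e * (t + s * I) ∈ Z} := by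
    intro s
    ext t
    simp only [mem_preimage, hZ2, hZ', mem_setOf_eq]
    have : (⟨t, s⟩ : ℂ) = t + s * I := by apply Complex.ext <;> simp
    rw [this]
  have hsm : ∀ s : ℝ, MeasurableSet {t : ℝ | e * (t + s * I) ∈ Z} := by
    intro s
    rw [← hslice]
    exact measurable_prodMk_left hZ2m
  have hsub : ∀ s : ℝ, {t : ℝ | e * (t + s * I) ∈ Z} ⊆ Icc (-L) L := by
    intro s t ht
    have h1 := hZL _ ht
    rw [norm_mul, he, one_mul] at h1
    have h2 : |((t : ℂ) + s * I).re| ≤ ‖(t : ℂ) + s * I‖ := Complex.abs_re_le_norm _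
    have h3 : ((t : ℂ) + s * I).re = t := by simp
    rw [h3] at h2
    exact abs_le.mp (h2.trans h1)
  have hle : volume Z2 ≤ ENNReal.ofReal (ε / (4 * L)) * volume (Icc (-L) L) := by
    refine B5_prod_le (volume : Measure ℝ) (volume : Measure ℝ) Z2 hZ2m (Icc (-L) L) _ ?_ ?_ measurableSet_Icc
    · intro s
      have h1 := hcon s (hsm s) (hsub s)
      rw [hslice]
      have hfin : volume {t : ℝ | e * (t + s * I) ∈ Z} ≠ ⊤ :=
        ((measure_mono (hsub s)).trans_lt (by rw [Real.volume_Icc]; exact ENNReal.ofReal_lt_top)).ne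
      rw [← ENNReal.ofReal_toReal hfin]
      exact ENNReal.ofReal_le_ofReal h1.le
    · intro s hs
      rw [hslice]
      ext t
      simp only [mem_setOf_eq, mem_empty_iff_false, iff_false]
      intro ht
      apply hs
      have h1 := hZL _ ht
      rw [norm_mul, he, one_mul] at h1
      have h2 : |((t : ℂ) + s * I).im| ≤ ‖(t : ℂ) + s * I‖ := Complex.abs_im_le_norm _
      have h3 : ((t : ℂ) + s * I).im = s := by simp
      rw [h3] at h2
      exact abs_le.mp (h2.trans h1)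
  rw [hvol2, hvol, Real.volume_Icc, ← ENNReal.ofReal_mul (by positivity)] at hle
  have h4 := ENNReal.toReal_mono ENNReal.ofReal_ne_top hle
  rw [ENNReal.toReal_ofReal (by
    apply mul_nonneg (by positivity); linarith)] at h4
  have h5 : ε / (4 * L) * (L - -L) = ε / 2 := by field_simp; ring
  rw [h5] at h4
  have h6 : volume.real Z ≤ ε / 2 := h4
  linarith

theorem core (γ : ℂ) (hγ : γ.im ≠ 0) (L : ℝ) : ∃ C : ℝ, 0 < C ∧ ∀ τ ε η : ℝ, 0 < τ → τ ≤ 1 →
    0 < ε → ε ≤ 1 → 0 ≤ η → ∀ y β : Fin 4 → ℂ, (∀ i, ‖y i‖ ≤ L) →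
    τ ≤ |dt (y 1 - y 0) (y 2 - y 0)| → ∀ Z : Set ℂ, MeasurableSet Z → (∀ z ∈ Z, ‖z‖ ≤ L) →
    ε ≤ volume.real Z → ∀ v : ℂ → ℂ,
    (∀ z ∈ Z, ∀ i : Fin 4, i ≠ 3 → |ip (v z - β i) (z - y i)| ≤ η) →
    (∀ z ∈ Z, |ip (v z - β 3) (γ * (z - y 3))| ≤ η) →
    ∀ z ∈ Z, ∀ z' ∈ Z, ‖v z - v z'‖ ≤ C * η / (τ * ε ^ 2) := by
  refine ⟨16 * |L| + 2 * |L| * ((‖γ‖ + 1) / |γ.im| * (768 * |L| ^ 2 * (1 + 16 * |L| ^ 2 * (1 + ‖γ‖)))) + 1, by positivity, ?_⟩
  intro τ ε η hτ hτ1 hε hε1 hη y β hy hdet Z hZ hZL hv v hrel hrel3 z hz z' hz'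
  have hL : 0 < L := by
    by_contra hL
    push Not at hL
    have hy0 : ∀ i, y i = 0 := fun i => norm_le_zero_iff.mp ((hy i).trans hL)
    rw [hy0 0, hy0 1, hy0 2] at hdet
    simp [dt] at hdet
    linarith
  rw [abs_of_pos hL]
  set e1 := y 1 - y 0 with he1
  set e2 := y 2 - y 0 with he2
  set Δ := dt e1 e2 with hΔ
  have hΔ0 : Δ ≠ 0 := by
    intro h; rw [h, abs_zero] at hdet; linarith
  have he1n : ‖e1‖ ≤ 2 * L := (norm_sub_le _ _).trans (by linarith [hy 1, hy 0])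
  have he2n : ‖e2‖ ≤ 2 * L := (norm_sub_le _ _).trans (by linarith [hy 2, hy 0])
  set a1 : ℂ → ℝ := fun x => ip (β 0) (x - y 0) - ip (β 1) (x - y 1) with ha1
  set a2 : ℂ → ℝ := fun x => ip (β 0) (x - y 0) - ip (β 2) (x - y 2) with ha2
  set w : ℂ → ℂ := fun x => (((a1 x : ℝ) : ℂ) * (-I * e2) - ((a2 x : ℝ) : ℂ) * (-I * e1)) / ((Δ : ℝ) : ℂ) with hw
  set Dl : ℂ → ℂ := fun u => (((-ip (β 1 - β 0) u : ℝ) : ℂ) * (-I * e2) - ((-ip (β 2 - β 0) u : ℝ) : ℂ) * (-I * e1)) / ((Δ : ℝ) : ℂ) with hDl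
  set η' := 8 * L * η / τ with hη'
  have hη'0 : 0 ≤ η' := by positivity
  -- v is close to w
  have hvw : ∀ x ∈ Z, ‖v x - w x‖ ≤ η' := by
    intro x hx
    have r0 := hrel x hx 0 (by decide)
    have r1 := hrel x hx 1 (by decide)
    have r2 := hrel x hx 2 (by decide)
    have d1 : |ip (v x) e1 - a1 x| ≤ 2 * η := by
      have : ip (v x) e1 - a1 x = ip (v x - β 0) (x - y 0) - ip (v x - β 1) (x - y 1) := by
        simp only [ha1, he1, ip, sub_re, sub_im]; ring
      rw [this]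
      exact (abs_sub _ _).trans (by linarith)
    have d2 : |ip (v x) e2 - a2 x| ≤ 2 * η := by
      have : ip (v x) e2 - a2 x = ip (v x - β 0) (x - y 0) - ip (v x - β 2) (x - y 2) := by
        simp only [ha2, he2, ip, sub_re, sub_im]; ring
      rw [this]
      exact (abs_sub _ _).trans (by linarith)
    have e : v x - w x = (((ip (v x) e1 - a1 x : ℝ) : ℂ) * (-I * e2) - ((ip (v x) e2 - a2 x : ℝ) : ℂ) * (-I * e1)) / ((Δ : ℝ) : ℂ) := by
      conv_lhs => rw [B5_solve (v x) e1 e2 hΔ0]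
      simp only [hw, ← hΔ]
      rw [← sub_div]
      congr 1
      push_cast
      ring
    rw [e, norm_div, Complex.norm_real, Real.norm_eq_abs]
    have n1 : ‖(((ip (v x) e1 - a1 x : ℝ) : ℂ) * (-I * e2) - ((ip (v x) e2 - a2 x : ℝ) : ℂ) * (-I * e1))‖ ≤ 8 * L * η := by
      refine (norm_sub_le _ _).trans ?_
      rw [norm_mul, norm_mul, norm_mul, norm_mul, norm_neg, norm_I, Complex.norm_real, Complex.norm_real,
        Real.norm_eq_abs, Real.norm_eq_abs, one_mul, one_mul]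
      have m1 := mul_le_mul d1 he2n (norm_nonneg _) (by positivity)
      have m2 := mul_le_mul d2 he1n (norm_nonneg _) (by positivity)
      linarith
    rw [hη']
    exact div_le_div₀ (by positivity) n1 hτ hdet
  have hwD : ∀ x x', w x - w x' = Dl (x - x') := by
    intro x x'
    simp only [hw, hDl, ha1, ha2]
    rw [← sub_div]
    congr 1
    apply Complex.ext
    · simp only [mul_re, sub_re, neg_re, neg_im, I_re, I_im, ofReal_re, ofReal_im, mul_im, ip, sub_im]
      ring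
    · simp only [mul_re, sub_re, neg_re, neg_im, I_re, I_im, ofReal_re, ofReal_im, mul_im, ip, sub_im]
      ring
  have hDhom : ∀ (c : ℝ) (u : ℂ), Dl (c * u) = c * Dl u := by
    intro c u
    simp only [hDl, ip_mul_real_right]
    push_cast
    ring
  -- main estimate in a unit direction
  set K := (η / τ) * (1 + 16 * L ^ 2 * (1 + ‖γ‖)) with hK
  have hη1 : η ≤ η / τ := by
    rw [le_div_iff₀ hτ]; nlinarith
  have hγ0 : 0 ≤ ‖γ‖ := norm_nonneg _
  have hητ : 0 ≤ η / τ := by positivity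
  have hK1 : η + 2 * L * η' ≤ K := by
    rw [hη', hK]
    have : 2 * L * (8 * L * η / τ) = (η / τ) * (16 * L ^ 2) := by ring
    rw [this]
    have : 0 ≤ (η / τ) * (16 * L ^ 2 * ‖γ‖) := by positivity
    nlinarith
  have hK2 : η + ‖γ‖ * (2 * L * η') ≤ K := by
    rw [hη', hK]
    have : ‖γ‖ * (2 * L * (8 * L * η / τ)) = (η / τ) * (16 * L ^ 2 * ‖γ‖) := by ring
    rw [this]
    have : 0 ≤ (η / τ) * (16 * L ^ 2) := by positivity
    nlinarith
  have hdir : ∀ e : ℂ, ‖e‖ = 1 → ‖Dl e‖ ≤ (‖γ‖ + 1) / |γ.im| * (768 * L ^ 2 * K / ε ^ 2) := by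
    intro e he
    obtain ⟨s, hsm, hsub, hsv⟩ := B5_slice L ε hL hε Z hZ hZL hv e he
    set p : ℂ := e * (s * I) with hp
    have hpt : ∀ t : ℝ, e * (t + s * I) = p + t * e := by intro t; rw [hp]; ring
    have hwt : ∀ t : ℝ, w (p + t * e) = w p + t * Dl e := by
      intro t
      have := hwD (p + t * e) p
      rw [show p + (t : ℂ) * e - p = t * e by ring, hDhom] at this
      linear_combination this
    have hε' : 0 < ε / (4 * L) := by positivity
    -- first quadratic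
    have q1 : |ip (Dl e) e| ≤ 48 * K / (ε / (4 * L)) ^ 2 := by
      refine remez2 (ip (Dl e) e) (ip (Dl e) (p - y 0) + ip (w p - β 0) e) (ip (w p - β 0) (p - y 0)) K L
        (ε / (4 * L)) _ hsm hsub hε' hsv ?_
      intro t ht
      have htZ : p + t * e ∈ Z := by rw [← hpt]; exact ht
      have e0 : ip (Dl e) e * t ^ 2 + (ip (Dl e) (p - y 0) + ip (w p - β 0) e) * t + ip (w p - β 0) (p - y 0)
          = ip (w (p + t * e) - β 0) (p + t * e - y 0) := by
        rw [hwt]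
        simp only [ip, add_re, add_im, sub_re, sub_im, mul_re, mul_im, ofReal_re, ofReal_im]
        ring
      rw [e0]
      have e1 : ip (w (p + t * e) - β 0) (p + t * e - y 0) = ip (v (p + t * e) - β 0) (p + t * e - y 0)
          - ip (v (p + t * e) - w (p + t * e)) (p + t * e - y 0) := by
        simp only [ip, sub_re, sub_im]; ring
      rw [e1]
      refine (abs_sub _ _).trans ?_
      have h1 := hrel _ htZ 0 (by decide)
      have h2 := ip_le (v (p + t * e) - w (p + t * e)) (p + t * e - y 0)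
      have h3 : ‖p + t * e - y 0‖ ≤ 2 * L := (norm_sub_le _ _).trans (by linarith [hZL _ htZ, hy 0])
      have h4 := mul_le_mul (hvw _ htZ) h3 (norm_nonneg _) hη'0
      linarith
    have q2 : |ip (Dl e) (γ * e)| ≤ 48 * K / (ε / (4 * L)) ^ 2 := by
      refine remez2 (ip (Dl e) (γ * e)) (ip (Dl e) (γ * (p - y 3)) + ip (w p - β 3) (γ * e)) (ip (w p - β 3) (γ * (p - y 3))) K L
        (ε / (4 * L)) _ hsm hsub hε' hsv ?_
      intro t ht
      have htZ : p + t * e ∈ Z := by rw [← hpt]; exact ht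
      have e0 : ip (Dl e) (γ * e) * t ^ 2 + (ip (Dl e) (γ * (p - y 3)) + ip (w p - β 3) (γ * e)) * t + ip (w p - β 3) (γ * (p - y 3))
          = ip (w (p + t * e) - β 3) (γ * (p + t * e - y 3)) := by
        rw [hwt]
        simp only [ip, add_re, add_im, sub_re, sub_im, mul_re, mul_im, ofReal_re, ofReal_im]
        ring
      rw [e0]
      have e1 : ip (w (p + t * e) - β 3) (γ * (p + t * e - y 3)) = ip (v (p + t * e) - β 3) (γ * (p + t * e - y 3))
          - ip (v (p + t * e) - w (p + t * e)) (γ * (p + t * e - y 3)) := by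
        simp only [ip, sub_re, sub_im]; ring
      rw [e1]
      refine (abs_sub _ _).trans ?_
      have h1 := hrel3 _ htZ
      have h2 := ip_le (v (p + t * e) - w (p + t * e)) (γ * (p + t * e - y 3))
      have h3 : ‖p + t * e - y 3‖ ≤ 2 * L := (norm_sub_le _ _).trans (by linarith [hZL _ htZ, hy 3])
      rw [norm_mul] at h2
      have h4 := mul_le_mul (hvw _ htZ) (mul_le_mul_of_nonneg_left h3 hγ0) (by positivity) hη'0
      linarith
    have hdt : dt e (γ * e) = γ.im := by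
      have hn : e.re ^ 2 + e.im ^ 2 = 1 := by
        have := Complex.sq_norm e
        rw [he, Complex.normSq_apply] at this
        nlinarith
      have : dt e (γ * e) = γ.im * (e.re ^ 2 + e.im ^ 2) := by
        simp only [dt, mul_re, mul_im]; ring
      rw [this, hn, mul_one]
    have hsol := B5_solve (Dl e) e (γ * e) (by rw [hdt]; exact hγ)
    rw [hdt] at hsol
    have hbound : 48 * K / (ε / (4 * L)) ^ 2 = 768 * L ^ 2 * K / ε ^ 2 := by field_simp; ring
    rw [hbound] at q1 q2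
    rw [hsol, norm_div, Complex.norm_real, Real.norm_eq_abs]
    have n1 : ‖(((ip (Dl e) e : ℝ) : ℂ) * (-I * (γ * e)) - ((ip (Dl e) (γ * e) : ℝ) : ℂ) * (-I * e))‖ ≤
        (768 * L ^ 2 * K / ε ^ 2) * (‖γ‖ + 1) := by
      refine (norm_sub_le _ _).trans ?_
      rw [norm_mul, norm_mul, norm_mul, norm_mul, norm_mul, norm_neg, norm_I, Complex.norm_real, Complex.norm_real,
        Real.norm_eq_abs, Real.norm_eq_abs, one_mul, one_mul, he, mul_one, mul_one]
      have m1 := mul_le_mul_of_nonneg_right q1 hγ0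
      linarith
    have hγpos : 0 < |γ.im| := abs_pos.mpr hγ
    calc _ ≤ (768 * L ^ 2 * K / ε ^ 2) * (‖γ‖ + 1) / |γ.im| := div_le_div_of_nonneg_right n1 hγpos.le
      _ = _ := by ring
  -- conclusion
  have hfin : ‖Dl (z - z')‖ ≤ 2 * L * ((‖γ‖ + 1) / |γ.im| * (768 * L ^ 2 * K / ε ^ 2)) := by
    by_cases hzz : z = z'
    · rw [hzz, sub_self]
      have : Dl 0 = 0 := by
        have := hDhom 0 0
        simpa using this
      rw [this, norm_zero]
      positivity
    · have hn : 0 < ‖z - z'‖ := norm_pos_iff.mpr (sub_ne_zero.mpr hzz)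
      have hn' : ((‖z - z'‖ : ℝ) : ℂ) ≠ 0 := by exact_mod_cast hn.ne'
      have e0 : z - z' = (‖z - z'‖ : ℂ) * ((z - z') / ‖z - z'‖) := by
        rw [mul_div_cancel₀ _ hn']
      rw [e0, hDhom, norm_mul, Complex.norm_real, norm_norm]
      have h1 := hdir ((z - z') / ‖z - z'‖) (by
        rw [norm_div, Complex.norm_real, norm_norm]; exact div_self hn.ne')
      have h2 : ‖z - z'‖ ≤ 2 * L := (norm_sub_le _ _).trans (by linarith [hZL z hz, hZL z' hz'])
      exact mul_le_mul h2 h1 (norm_nonneg _) (by positivity)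
  have hsplit : ‖v z - v z'‖ ≤ 2 * η' + ‖Dl (z - z')‖ := by
    have e0 : v z - v z' = (v z - w z) - (v z' - w z') + Dl (z - z') := by
      rw [← hwD]; ring
    rw [e0]
    refine (norm_add_le _ _).trans ?_
    have := (norm_sub_le (v z - w z) (v z' - w z')).trans (add_le_add (hvw z hz) (hvw z' hz'))
    linarith
  refine hsplit.trans ((add_le_add_right hfin _).trans ?_)
  have hε2 : ε ^ 2 ≤ 1 := pow_le_one₀ hε.le hε1
  have hle1 : 2 * η' ≤ 16 * L * η / (τ * ε ^ 2) := by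
    rw [hη']
    have : 2 * (8 * L * η / τ) = 16 * L * η / τ := by ring
    rw [this]
    apply div_le_div_of_nonneg_left (by positivity) (by positivity)
    nlinarith
  have hle2 : 2 * L * ((‖γ‖ + 1) / |γ.im| * (768 * L ^ 2 * K / ε ^ 2)) =
      2 * L * ((‖γ‖ + 1) / |γ.im| * (768 * L ^ 2 * (1 + 16 * L ^ 2 * (1 + ‖γ‖)))) * η / (τ * ε ^ 2) := by
    rw [hK]; field_simp
  rw [hle2]
  have hlast : 0 ≤ η / (τ * ε ^ 2) := by positivity
  have : (16 * L + 2 * L * ((‖γ‖ + 1) / |γ.im| * (768 * L ^ 2 * (1 + 16 * L ^ 2 * (1 + ‖γ‖)))) + 1) * η / (τ * ε ^ 2)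
      = 16 * L * η / (τ * ε ^ 2) + 2 * L * ((‖γ‖ + 1) / |γ.im| * (768 * L ^ 2 * (1 + 16 * L ^ 2 * (1 + ‖γ‖)))) * η / (τ * ε ^ 2)
        + η / (τ * ε ^ 2) := by ring
  rw [this]
  linarith

/-- symmetric version of `B5_prod_le` -/
theorem B5_prod_le' {α β : Type*} [MeasurableSpace α] [MeasurableSpace β] (μ : Measure α) (ν : Measure β)
    [SFinite μ] [SFinite ν] (S : Set (α × β)) (hS : MeasurableSet S) (A : Set β) (M : ENNReal)
    (h1 : ∀ y, μ ((fun x => (x, y)) ⁻¹' S) ≤ M) (h2 : ∀ y, y ∉ A → (fun x => (x, y)) ⁻¹' S = ∅) (hA : MeasurableSet A) :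
    (μ.prod ν) S ≤ M * ν A := by
  rw [Measure.prod_apply_symm hS]
  calc ∫⁻ y, μ ((fun x => (x, y)) ⁻¹' S) ∂ν ≤ ∫⁻ y, A.indicator (fun _ => M) y ∂ν := by
        apply lintegral_mono
        intro y
        by_cases hy : y ∈ A
        · rw [indicator_of_mem hy]; exact h1 y
        · have := h2 y hy
          simp only [this, measure_empty, zero_le]
    _ = M * ν A := by
        rw [lintegral_indicator hA, lintegral_const]
        simp

theorem B5_lemK0 (γ : ℂ) (hγ : γ.im ≠ 0) : ∃ n : ℕ, 1 ≤ n ∧ ∀ ε : ℝ, 0 < ε → ε ≤ 1 / 2 →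
    ∀ X : Set ℂ, MeasurableSet X → (∀ x ∈ X, ‖x‖ ≤ 2) →
    ε ≤ volume.real X → ∀ E1 E2 : Set (ℂ × ℂ), MeasurableSet E1 → MeasurableSet E2 →
    (∀ x y, (x, y) ∈ E1 → ‖y‖ ≤ 2) → (∀ x y, (x, y) ∈ E2 → ‖y‖ ≤ 2) →
    (∀ x ∈ X, ε ≤ volume.real {y | (x, y) ∈ E1}) →
    (∀ x ∈ X, ε ≤ volume.real {y | (x, y) ∈ E2}) →
    ∀ b : ℂ → ℂ, ∀ η : ℝ, 0 ≤ η →
    (∀ x ∈ X, ∀ y, (x, y) ∈ E1 → |ip (b x - b y) (x - y)| ≤ η) →
    (∀ x ∈ X, ∀ y, (x, y) ∈ E2 → |ip (b x - b y) (γ * (x - y))| ≤ η) →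
    ∃ X' : Set ℂ, MeasurableSet X' ∧ X' ⊆ X ∧ ε ^ n ≤ volume.real X' ∧
      ∀ x ∈ X', ∀ x' ∈ X', ‖b x - b x'‖ ≤ η / ε ^ n := by
  obtain ⟨C0, hC0, hdet⟩ := det_small 2
  obtain ⟨C, hC, hcore⟩ := core γ hγ 2
  set V : ℝ := (volume (Metric.closedBall (0 : ℂ) 2)).toReal with hV
  have hVt : volume (Metric.closedBall (0 : ℂ) 2) ≠ ⊤ := (isCompact_closedBall (0 : ℂ) 2).measure_lt_top.ne
  have hV0 : 0 ≤ V := ENNReal.toReal_nonneg
  set W : ℝ := V ^ 4 + 1 with hW
  have hW0 : 0 < W := by positivity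
  obtain ⟨m, hm⟩ := pow_unbounded_of_one_lt (C * ((2 * C0 + 2) ^ 2 * (4 * W) ^ 2) + 4 * W) (by norm_num : (1:ℝ) < 2)
  refine ⟨16 + m, by omega, ?_⟩
  intro ε hε hε2 X hX hXb hXv E1 E2 hE1 hE2 hE1b hE2b hs1 hs2 b η hη hr1 hr2
  have hε1 : ε ≤ 1 := by linarith
  have hεm : (2:ℝ) ^ m ≤ 1 / ε ^ m := by
    have h1 : (2:ℝ) ≤ 1 / ε := by rw [le_div_iff₀ hε]; linarith
    calc (2:ℝ) ^ m ≤ (1 / ε) ^ m := pow_le_pow_left₀ (by norm_num) h1 m
      _ = 1 / ε ^ m := by rw [one_div, one_div, inv_pow]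
  set τ : ℝ := (ε ^ 3 / (2 * C0 + 2)) ^ 2 with hτ
  have hτ0 : 0 < τ := by positivity
  have hsq : Real.sqrt τ = ε ^ 3 / (2 * C0 + 2) := Real.sqrt_sq (by positivity)
  have hε3 : ε ^ 3 ≤ 1 := pow_le_one₀ hε.le hε1
  have hτ1 : τ ≤ 1 := by
    rw [hτ]
    apply pow_le_one₀ (by positivity)
    rw [div_le_one (by positivity)]; linarith
  set ε5 : ℝ := ε ^ 5 / (4 * W) with hε5
  have hε50 : 0 < ε5 := by positivity
  have hε51 : ε5 ≤ 1 := by
    rw [hε5, div_le_one (by positivity)]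
    have : ε ^ 5 ≤ 1 := pow_le_one₀ hε.le hε1
    have : 1 ≤ W := by rw [hW]; nlinarith [pow_nonneg hV0 4]
    linarith
  -- the set 𝒮
  set B : Set (ℂ × ℂ × ℂ) := {y | ‖y.1‖ ≤ 2 ∧ ‖y.2.1‖ ≤ 2 ∧ ‖y.2.2‖ ≤ 2 ∧ |dt (y.2.1 - y.1) (y.2.2 - y.1)| < τ} with hB
  set S : Set (ℂ × ((ℂ × ℂ × ℂ) × ℂ)) := {q | q.1 ∈ X ∧ (q.1, q.2.1.1) ∈ E1 ∧ (q.1, q.2.1.2.1) ∈ E1 ∧
    (q.1, q.2.1.2.2) ∈ E1 ∧ (q.1, q.2.2) ∈ E2 ∧ τ ≤ |dt (q.2.1.2.1 - q.2.1.1) (q.2.1.2.2 - q.2.1.1)|} with hS
  have hSm : MeasurableSet S := by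
    have m1 : Measurable fun q : ℂ × ((ℂ × ℂ × ℂ) × ℂ) => q.1 := measurable_fst
    have m2 : Measurable fun q : ℂ × ((ℂ × ℂ × ℂ) × ℂ) => (q.1, q.2.1.1) := by fun_prop
    have m3 : Measurable fun q : ℂ × ((ℂ × ℂ × ℂ) × ℂ) => (q.1, q.2.1.2.1) := by fun_prop
    have m4 : Measurable fun q : ℂ × ((ℂ × ℂ × ℂ) × ℂ) => (q.1, q.2.1.2.2) := by fun_prop
    have m5 : Measurable fun q : ℂ × ((ℂ × ℂ × ℂ) × ℂ) => (q.1, q.2.2) := by fun_prop
    have m6 : Measurable fun q : ℂ × ((ℂ × ℂ × ℂ) × ℂ) => |dt (q.2.1.2.1 - q.2.1.1) (q.2.1.2.2 - q.2.1.1)| := by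
      unfold dt
      apply Continuous.measurable
      fun_prop
    exact (m1 hX).inter ((m2 hE1).inter ((m3 hE1).inter ((m4 hE1).inter ((m5 hE2).inter
      (measurableSet_le measurable_const m6)))))
  have hBle : volume B ≤ ENNReal.ofReal (ε ^ 3 / 2) := by
    have h1 := hdet τ hτ0 hτ1
    rw [hsq] at h1
    have hBt : volume B ≠ ⊤ := by
      have : B ⊆ Metric.closedBall (0 : ℂ × ℂ × ℂ) 2 := by
        rintro ⟨a, b', c⟩ ⟨h1, h2, h3, _⟩
        rw [mem_closedBall_zero_iff]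
        simp only [Prod.norm_def]
        exact max_le h1 (max_le h2 h3)
      exact ((measure_mono this).trans_lt (isCompact_closedBall (0 : ℂ × ℂ × ℂ) 2).measure_lt_top).ne
    rw [← ENNReal.ofReal_toReal hBt]
    apply ENNReal.ofReal_le_ofReal
    have h2 : C0 * (ε ^ 3 / (2 * C0 + 2)) ≤ ε ^ 3 / 2 := by
      rw [← mul_div_assoc, div_le_div_iff₀ (by positivity) (by norm_num)]
      have : 0 ≤ ε ^ 3 := by positivity
      nlinarith
    exact h1.trans h2
  have hlow : ENNReal.ofReal (ε ^ 5 / 2) ≤ (volume : Measure (ℂ × ((ℂ × ℂ × ℂ) × ℂ))) S := by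
    have hprod : (volume : Measure (ℂ × ((ℂ × ℂ × ℂ) × ℂ))) = (volume : Measure ℂ).prod (volume : Measure ((ℂ × ℂ × ℂ) × ℂ)) := rfl
    rw [hprod, Measure.prod_apply hSm]
    have hsec : ∀ x ∈ X, ENNReal.ofReal (ε ^ 4 / 2) ≤ (volume : Measure ((ℂ × ℂ × ℂ) × ℂ)) (Prod.mk x ⁻¹' S) := by
      intro x hx
      set F1 : Set ℂ := {y | (x, y) ∈ E1} with hF1
      set F2 : Set ℂ := {y | (x, y) ∈ E2} with hF2
      have hF1v : ENNReal.ofReal ε ≤ volume F1 := ENNReal.ofReal_le_of_le_toReal (hs1 x hx)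
      have hF2v : ENNReal.ofReal ε ≤ volume F2 := ENNReal.ofReal_le_of_le_toReal (hs2 x hx)
      have hsub : ((F1 ×ˢ (F1 ×ˢ F1)) \ B) ×ˢ F2 ⊆ Prod.mk x ⁻¹' S := by
        rintro ⟨⟨y0, y1, y2⟩, y3⟩ ⟨⟨⟨h0, h1, h2⟩, hnB⟩, h3⟩
        refine ⟨hx, h0, h1, h2, h3, ?_⟩
        by_contra hlt
        push Not at hlt
        exact hnB ⟨hE1b x y0 h0, hE1b x y1 h1, hE1b x y2 h2, hlt⟩
      refine le_trans ?_ (measure_mono hsub)
      have hp2 : (volume : Measure ((ℂ × ℂ × ℂ) × ℂ)) = (volume : Measure (ℂ × ℂ × ℂ)).prod (volume : Measure ℂ) := rfl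
      rw [hp2, Measure.prod_prod]
      have hp3 : (volume : Measure (ℂ × ℂ × ℂ)) (F1 ×ˢ (F1 ×ˢ F1)) = volume F1 * (volume F1 * volume F1) := by
        have e1 : (volume : Measure (ℂ × ℂ × ℂ)) = (volume : Measure ℂ).prod ((volume : Measure ℂ).prod (volume : Measure ℂ)) := rfl
        rw [e1, Measure.prod_prod, Measure.prod_prod]
      have hdiff : ENNReal.ofReal (ε ^ 3 / 2) ≤ (volume : Measure (ℂ × ℂ × ℂ)) ((F1 ×ˢ (F1 ×ˢ F1)) \ B) := by
        refine le_trans ?_ le_measure_diff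
        rw [hp3]
        have h1 : ENNReal.ofReal (ε ^ 3) ≤ volume F1 * (volume F1 * volume F1) := by
          calc ENNReal.ofReal (ε ^ 3) = ENNReal.ofReal ε * (ENNReal.ofReal ε * ENNReal.ofReal ε) := by
                rw [← ENNReal.ofReal_mul hε.le, ← ENNReal.ofReal_mul hε.le]; congr 1; ring
            _ ≤ _ := mul_le_mul' hF1v (mul_le_mul' hF1v hF1v)
        calc ENNReal.ofReal (ε ^ 3 / 2) = ENNReal.ofReal (ε ^ 3) - ENNReal.ofReal (ε ^ 3 / 2) := by
              rw [← ENNReal.ofReal_sub _ (by positivity)]; congr 1; ring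
          _ ≤ _ := tsub_le_tsub h1 hBle
      calc ENNReal.ofReal (ε ^ 4 / 2) = ENNReal.ofReal (ε ^ 3 / 2) * ENNReal.ofReal ε := by
            rw [← ENNReal.ofReal_mul (by positivity)]; congr 1; ring
        _ ≤ _ := mul_le_mul' hdiff hF2v
    calc ENNReal.ofReal (ε ^ 5 / 2) = ENNReal.ofReal (ε ^ 4 / 2) * ENNReal.ofReal ε := by
          rw [← ENNReal.ofReal_mul (by positivity)]; congr 1; ring
      _ ≤ ENNReal.ofReal (ε ^ 4 / 2) * volume X := mul_le_mul' le_rfl (ENNReal.ofReal_le_of_le_toReal hXv)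
      _ = ∫⁻ x, X.indicator (fun _ => ENNReal.ofReal (ε ^ 4 / 2)) x := by
          rw [lintegral_indicator hX, lintegral_const]; simp
      _ ≤ _ := by
          apply lintegral_mono
          intro x
          by_cases hx : x ∈ X
          · rw [indicator_of_mem hx]; exact hsec x hx
          · rw [indicator_of_notMem hx]; exact zero_le
  -- a good choice of y
  have hex : ∃ y : (ℂ × ℂ × ℂ) × ℂ, ENNReal.ofReal ε5 ≤ volume ((fun x => (x, y)) ⁻¹' S) := by
    by_contra hcon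
    push Not at hcon
    set A : Set ((ℂ × ℂ × ℂ) × ℂ) := (Metric.closedBall (0:ℂ) 2 ×ˢ (Metric.closedBall (0:ℂ) 2 ×ˢ Metric.closedBall (0:ℂ) 2)) ×ˢ
      Metric.closedBall (0:ℂ) 2 with hA
    have hAm : MeasurableSet A :=
      ((measurableSet_closedBall.prod (measurableSet_closedBall.prod measurableSet_closedBall)).prod measurableSet_closedBall)
    have hup := B5_prod_le' (volume : Measure ℂ) (volume : Measure ((ℂ × ℂ × ℂ) × ℂ)) S hSm A (ENNReal.ofReal ε5)
      (fun y => (hcon y).le) (by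
        intro y hy
        ext x
        simp only [mem_preimage, mem_empty_iff_false, iff_false]
        rintro ⟨_, h0, h1, h2, h3, _⟩
        apply hy
        exact ⟨⟨mem_closedBall_zero_iff.mpr (hE1b _ _ h0), mem_closedBall_zero_iff.mpr (hE1b _ _ h1),
          mem_closedBall_zero_iff.mpr (hE1b _ _ h2)⟩, mem_closedBall_zero_iff.mpr (hE2b _ _ h3)⟩) hAm
    have hAv : (volume : Measure ((ℂ × ℂ × ℂ) × ℂ)) A = ENNReal.ofReal (V ^ 4) := by
      have e1 : (volume : Measure ((ℂ × ℂ × ℂ) × ℂ)) = ((volume : Measure ℂ).prod ((volume : Measure ℂ).prod (volume : Measure ℂ))).prod (volume : Measure ℂ) := rfl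
      rw [e1, hA, Measure.prod_prod, Measure.prod_prod, Measure.prod_prod, ← ENNReal.ofReal_toReal hVt, ← hV,
        ← ENNReal.ofReal_mul hV0, ← ENNReal.ofReal_mul hV0, ← ENNReal.ofReal_mul (by positivity)]
      congr 1; ring
    rw [hAv, ← ENNReal.ofReal_mul hε50.le] at hup
    have h1 := (hlow.trans hup)
    rw [ENNReal.ofReal_le_ofReal_iff (by positivity)] at h1
    have h2 : ε5 * V ^ 4 ≤ ε ^ 5 / 4 := by
      rw [hε5, div_mul_eq_mul_div, div_le_div_iff₀ (by positivity) (by norm_num)]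
      have h3 : 0 < ε ^ 5 := by positivity
      have h4 : V ^ 4 ≤ W := by rw [hW]; linarith
      nlinarith
    have h3 : 0 < ε ^ 5 := by positivity
    linarith
  obtain ⟨⟨⟨y0, y1, y2⟩, y3⟩, hy⟩ := hex
  set X' : Set ℂ := (fun x => (x, ((y0, y1, y2), y3))) ⁻¹' S with hX'
  have hX'm : MeasurableSet X' := measurable_prodMk_right hSm
  have hX'X : X' ⊆ X := fun x hx => hx.1
  have hXt : volume X' ≠ ⊤ := by
    have : X' ⊆ Metric.closedBall 0 2 := fun x hx => mem_closedBall_zero_iff.mpr (hXb x (hX'X hx))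
    exact ((measure_mono this).trans_lt (isCompact_closedBall (0 : ℂ) 2).measure_lt_top).ne
  have hX'v : ε5 ≤ volume.real X' := by
    have := ENNReal.toReal_mono hXt hy
    rwa [ENNReal.toReal_ofReal hε50.le] at this
  have hne : X'.Nonempty := by
    by_contra h
    rw [not_nonempty_iff_eq_empty] at h
    rw [h] at hX'v
    simp at hX'v
    linarith
  obtain ⟨x0, hx0⟩ := hne
  obtain ⟨_, g0, g1, g2, g3, gd⟩ := hx0
  refine ⟨X', hX'm, hX'X, ?_, ?_⟩
  · refine le_trans ?_ hX'v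
    rw [hε5, le_div_iff₀ (by positivity)]
    have h1 : 4 * W ≤ 1 / ε ^ m := by
      have : 0 ≤ C * ((2 * C0 + 2) ^ 2 * (4 * W) ^ 2) := by positivity
      linarith
    have h2 : 4 * W * ε ^ m ≤ 1 := by
      have h3 : 0 < ε ^ m := by positivity
      calc 4 * W * ε ^ m ≤ (1 / ε ^ m) * ε ^ m := mul_le_mul_of_nonneg_right h1 h3.le
        _ = 1 := by field_simp
    have h4 : ε ^ (16 + m) = ε ^ 5 * (ε ^ 11 * ε ^ m) := by rw [pow_add]; ring
    rw [h4]
    have h5 : ε ^ 11 * ε ^ m * (4 * W) ≤ 1 := by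
      have h6 : ε ^ 11 ≤ 1 := pow_le_one₀ hε.le hε1
      have h7 : 0 ≤ 4 * W * ε ^ m := by positivity
      nlinarith [pow_nonneg hε.le 11]
    have h8 : 0 < ε ^ 5 := by positivity
    nlinarith
  · intro x hx x' hx'
    have h1 := hcore τ ε5 η hτ0 hτ1 hε50 hε51 hη ![y0, y1, y2, y3] ![b y0, b y1, b y2, b y3] (by
      intro i
      fin_cases i
      · exact hE1b _ _ g0
      · exact hE1b _ _ g1
      · exact hE1b _ _ g2
      · exact hE2b _ _ g3) gd X' hX'm (fun z hz => hXb z (hX'X hz)) hX'v b (by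
      intro z hz i hi
      obtain ⟨hzX, h0, h1, h2, h3, _⟩ := hz
      fin_cases i
      · exact hr1 z hzX y0 h0
      · exact hr1 z hzX y1 h1
      · exact hr1 z hzX y2 h2
      · exact absurd rfl hi) (by
      intro z hz
      obtain ⟨hzX, h0, h1, h2, h3, _⟩ := hz
      exact hr2 z hzX y3 h3) x hx x' hx'
    refine h1.trans ?_
    have e1 : C * η / (τ * ε5 ^ 2) = (C * ((2 * C0 + 2) ^ 2 * (4 * W) ^ 2)) * (η / ε ^ 16) := by
      rw [hτ, hε5]; field_simp
    rw [e1]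
    have h2 : C * ((2 * C0 + 2) ^ 2 * (4 * W) ^ 2) ≤ 1 / ε ^ m := by linarith
    have e2 : η / ε ^ (16 + m) = (1 / ε ^ m) * (η / ε ^ 16) := by rw [pow_add]; field_simp
    rw [e2]
    exact mul_le_mul_of_nonneg_right h2 (by positivity)

theorem B5_scale (d : ℝ) (hd : 0 < d) (c' : ℂ) (A : Set ℂ) :
    volume.real ((fun ξ : ℂ => d • (ξ + c')) ⁻¹' A) = volume.real A / d ^ 2 := by
  have h1 : (fun ξ : ℂ => d • (ξ + c')) ⁻¹' A = (fun ξ : ℂ => ξ + c') ⁻¹' ((fun z : ℂ => d • z) ⁻¹' A) := rfl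
  rw [Measure.real, h1, measure_preimage_add_right, Measure.addHaar_preimage_smul _ hd.ne',
    Complex.finrank_real_complex, ENNReal.toReal_mul, ENNReal.toReal_ofReal (abs_nonneg _),
    abs_of_pos (by positivity), Measure.real]
  field_simp

theorem B5_ip_smul (a z : ℂ) (d : ℝ) : ip a (d • z) = d * ip a z := by
  simp only [ip, Complex.smul_re, Complex.smul_im, smul_eq_mul]; ring

theorem lemK (γ : ℂ) (hγ : γ.im ≠ 0) : ∃ n : ℕ, 1 ≤ n ∧ ∀ ε : ℝ, 0 < ε → ε ≤ 1 / 2 →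
    ∀ d : ℝ, 0 < d → ∀ c : ℤ × ℤ, ∀ X : Set ℂ, MeasurableSet X → X ⊆ {x | cell d x = c} →
    ε * d ^ 2 ≤ volume.real X → ∀ E1 E2 : Set (ℂ × ℂ), MeasurableSet E1 → MeasurableSet E2 →
    (∀ x y, (x, y) ∈ E1 → cell d y = c) → (∀ x y, (x, y) ∈ E2 → cell d y = c) →
    (∀ x ∈ X, ε * d ^ 2 ≤ volume.real {y | (x, y) ∈ E1}) →
    (∀ x ∈ X, ε * d ^ 2 ≤ volume.real {y | (x, y) ∈ E2}) →
    ∀ b : ℂ → ℂ, Measurable b → ∀ η : ℝ, 0 ≤ η →
    (∀ x ∈ X, ∀ y, (x, y) ∈ E1 → |ip (b x - b y) (x - y)| ≤ η * d) →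
    (∀ x ∈ X, ∀ y, (x, y) ∈ E2 → |ip (b x - b y) (γ * (x - y))| ≤ η * d) →
    ∃ X' : Set ℂ, MeasurableSet X' ∧ X' ⊆ X ∧ ε ^ n * d ^ 2 ≤ volume.real X' ∧
      ∀ x ∈ X', ∀ x' ∈ X', ‖b x - b x'‖ ≤ η / ε ^ n := by
  obtain ⟨n, hn, H⟩ := B5_lemK0 γ hγ
  refine ⟨n, hn, ?_⟩
  intro ε hε hε2 d hd c X hX hXc hXv E1 E2 hE1 hE2 hE1c hE2c hs1 hs2 b hb η hη hr1 hr2
  set c' : ℂ := ⟨(c.1 : ℝ), (c.2 : ℝ)⟩ with hc'
  set φ : ℂ → ℂ := fun ξ => d • (ξ + c') with hφ
  set ψ : ℂ → ℂ := fun x => d⁻¹ • x - c' with hψ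
  have hφm : Measurable φ := by
    have : Continuous φ := by rw [hφ]; fun_prop
    exact this.measurable
  have hψm : Measurable ψ := by
    have : Continuous ψ := by rw [hψ]; fun_prop
    exact this.measurable
  have hφψ : ∀ x, φ (ψ x) = x := by
    intro x
    simp only [hφ, hψ, sub_add_cancel]
    rw [smul_smul, mul_inv_cancel₀ hd.ne', one_smul]
  have hψφ : ∀ ξ, ψ (φ ξ) = ξ := by
    intro ξ
    simp only [hφ, hψ]
    rw [smul_smul, inv_mul_cancel₀ hd.ne', one_smul, add_sub_cancel_right]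
  have hsub : ∀ ξ ζ, φ ξ - φ ζ = d • (ξ - ζ) := by
    intro ξ ζ
    simp only [hφ]
    rw [← smul_sub]; congr 1; ring
  have hd2 : 0 < d ^ 2 := by positivity
  have hcell : ∀ ξ, cell d (φ ξ) = c → ‖ξ‖ ≤ 2 := by
    intro ξ h
    have h1 : ⌊(φ ξ).re / d⌋ = c.1 := congrArg Prod.fst h
    have h2 : ⌊(φ ξ).im / d⌋ = c.2 := congrArg Prod.snd h
    have e1 : (φ ξ).re / d = ξ.re + c.1 := by
      simp only [hφ, Complex.smul_re, Complex.add_re, smul_eq_mul, hc']
      field_simp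
    have e2 : (φ ξ).im / d = ξ.im + c.2 := by
      simp only [hφ, Complex.smul_im, Complex.add_im, smul_eq_mul, hc']
      field_simp
    rw [e1, Int.floor_add_intCast] at h1
    rw [e2, Int.floor_add_intCast] at h2
    have h3 : ⌊ξ.re⌋ = 0 := by omega
    have h4 : ⌊ξ.im⌋ = 0 := by omega
    rw [Int.floor_eq_zero_iff] at h3 h4
    have h5 := Complex.norm_le_abs_re_add_abs_im ξ
    rw [abs_of_nonneg h3.1, abs_of_nonneg h4.1] at h5
    have h6 := h3.2
    have h7 := h4.2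
    linarith
  have hpair : ∀ (E : Set (ℂ × ℂ)) (ξ : ℂ), {ζ | (ξ, ζ) ∈ (Prod.map φ φ) ⁻¹' E} = φ ⁻¹' {y | (φ ξ, y) ∈ E} := by
    intro E ξ; rfl
  obtain ⟨Y, hYm, hYX, hYv, hYo⟩ := H ε hε hε2 (φ ⁻¹' X) (hφm hX) (fun ξ hξ => hcell ξ (hXc hξ))
    (by rw [B5_scale d hd, le_div_iff₀ hd2]; exact hXv)
    ((Prod.map φ φ) ⁻¹' E1) ((Prod.map φ φ) ⁻¹' E2) ((hφm.prodMap hφm) hE1) ((hφm.prodMap hφm) hE2)
    (fun ξ ζ h => hcell ζ (hE1c _ _ h)) (fun ξ ζ h => hcell ζ (hE2c _ _ h))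
    (fun ξ hξ => by rw [hpair, B5_scale d hd, le_div_iff₀ hd2]; exact hs1 _ hξ)
    (fun ξ hξ => by rw [hpair, B5_scale d hd, le_div_iff₀ hd2]; exact hs2 _ hξ)
    (fun ξ => b (φ ξ)) η hη
    (fun ξ hξ ζ h => by
      have h1 := hr1 (φ ξ) hξ (φ ζ) h
      rw [hsub, B5_ip_smul, abs_mul, abs_of_pos hd, mul_comm η d] at h1
      exact le_of_mul_le_mul_left h1 hd)
    (fun ξ hξ ζ h => by
      have h1 := hr2 (φ ξ) hξ (φ ζ) h
      rw [hsub, mul_smul_comm, B5_ip_smul, abs_mul, abs_of_pos hd, mul_comm η d] at h1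
      exact le_of_mul_le_mul_left h1 hd)
  refine ⟨ψ ⁻¹' Y, hψm hYm, ?_, ?_, ?_⟩
  · intro x hx
    have h1 := hYX hx
    rw [mem_preimage, hφψ] at h1
    exact h1
  · have h1 : φ ⁻¹' (ψ ⁻¹' Y) = Y := by
      ext ξ; simp only [mem_preimage, hψφ]
    have h2 := B5_scale d hd c' (ψ ⁻¹' Y)
    have h3 : volume.real Y = volume.real (ψ ⁻¹' Y) / d ^ 2 := by
      rw [← h2]; congr 1; exact h1.symm
    rw [h3, le_div_iff₀ hd2] at hYv
    exact hYv
  · intro x hx x' hx'
    have h1 := hYo _ hx _ hx'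
    simp only [hφψ] at h1
    exact h1

end TriDil
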