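import Pool.Agent.TriDil.Basic7
import Pool.Agent.TriDil.B2
import Pool.Agent.TriDil.B3
import Pool.Agent.TriDil.B4
import Pool.Agent.TriDil.B5
set_option autoImplicit false
open MeasureTheory Complex Set
namespace TriDil
open scoped ComplexConjugate

/-- absorbing constants into powers of `ε` -/
theorem B7_absorb (C : ℝ) (_hC : 0 ≤ C) : ∃ m : ℕ, 1 ≤ m ∧ ∀ ε : ℝ, 0 < ε → ε ≤ 1 / 2 → C * ε ^ m ≤ 1 := by
  obtain ⟨m, hm⟩ := pow_unbounded_of_one_lt C (one_lt_two)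
  refine ⟨m + 1, by omega, fun ε h0 h1 => ?_⟩
  have h2 : ε ^ (m + 1) ≤ (1 / 2) ^ (m + 1) := pow_le_pow_left₀ h0.le h1 _
  have h3 : C * ε ^ (m + 1) ≤ (2:ℝ) ^ m * (1 / 2) ^ (m + 1) :=
    mul_le_mul hm.le h2 (by positivity) (by positivity)
  have h4 : (2:ℝ) ^ m * (1 / 2) ^ (m + 1) = 1 / 2 := by
    rw [pow_succ, ← mul_assoc, ← mul_pow]; norm_num
  linarith

theorem B7_meas_cell (d : ℝ) : Measurable (cell d) := by
  unfold cell
  refine Measurable.prodMk ?_ ?_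
  · exact Int.measurable_floor.comp (Complex.measurable_re.div_const d)
  · exact Int.measurable_floor.comp (Complex.measurable_im.div_const d)

theorem B7_meas_deep (d ρ : ℝ) : MeasurableSet {x : ℂ | deep d ρ x} := by
  unfold deep
  have m1 : Measurable fun x : ℂ => d * Int.fract (x.re / d) :=
    (measurable_fract.comp (Complex.measurable_re.div_const d)).const_mul d
  have m2 : Measurable fun x : ℂ => d * Int.fract (x.im / d) :=
    (measurable_fract.comp (Complex.measurable_im.div_const d)).const_mul d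
  refine MeasurableSet.inter (measurableSet_le measurable_const m1) (MeasurableSet.inter
    (measurableSet_lt (m1.add_const ρ) measurable_const) (MeasurableSet.inter
    (measurableSet_le measurable_const m2) (measurableSet_lt (m2.add_const ρ) measurable_const)))

theorem B7_meas_rot (p : ℂ) : Measurable fun z : (ℂ × ℝ) × ℝ => rot p z.2 z.1 := by
  unfold rot
  refine Measurable.prodMk ?_ ?_
  · refine (measurable_fst.comp measurable_fst).add (Measurable.const_mul ?_ p)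
    exact (measurable_U.comp (measurable_snd.comp measurable_fst)).sub
      (measurable_U.comp ((measurable_snd.comp measurable_fst).add measurable_snd))
  · exact (measurable_snd.comp measurable_fst).add measurable_snd

theorem B7_meas_ret (p : ℂ) (δ t : ℝ) (G : Set (ℂ × ℝ)) (h : MeasurableSet G) :
    MeasurableSet {g : ℂ × ℝ | volume.real {α : ℝ | α ∈ Ioo 0 δ ∧ rot p α g ∈ G} < t} := by
  have hs : MeasurableSet {z : (ℂ × ℝ) × ℝ | z.2 ∈ Ioo 0 δ ∧ rot p z.2 z.1 ∈ G} :=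
    (measurable_snd measurableSet_Ioo).inter (B7_meas_rot p h)
  have hm := (measurable_measure_prodMk_left (ν := (volume : Measure ℝ)) hs).ennreal_toReal
  exact measurableSet_lt hm measurable_const

theorem B7_meas_fib (t : ℝ) (G : Set (ℂ × ℝ)) (h : MeasurableSet G) :
    MeasurableSet {x : ℂ | t ≤ volume.real {θ : ℝ | (x, θ) ∈ G}} := by
  have hm := (measurable_measure_prodMk_left (ν := (volume : Measure ℝ)) h).ennreal_toReal
  exact measurableSet_le measurable_const hm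

theorem B7_gamma (ω : ℂ) (h0 : ω.im ≠ 0) (h1 : ω.re ≠ 0) : (conj ω / ω).im ≠ 0 := by
  have hn : normSq ω ≠ 0 := by
    rw [Ne, normSq_eq_zero]; intro h; rw [h] at h0; exact h0 rfl
  have : (conj ω / ω).im = -(2 * ω.re * ω.im) / normSq ω := by
    rw [div_im, conj_re, conj_im]; field_simp; ring
  rw [this]
  apply div_ne_zero _ hn
  simp [h0, h1]

/-- the class-0 relation on a sliding step -/
theorem B7_step {ω : ℂ} {R ε κ : ℝ} {B0 B1 B2 : ℂ → ℂ} {G : Set (ℂ × ℝ)} (h : Sys ω R ε κ B0 B1 B2 G)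
    (hε : 0 < ε) (p : ℂ) (hp : p ≠ 0)
    (hsl : ∀ x x' : ℂ, ∀ θ θ' : ℝ, (x, θ) ∈ G → (x', θ') ∈ G → x + p * U θ = x' + p * U θ' →
      ‖B0 x - B0 x' - conj p * (ell B0 B1 x' θ' * U θ' - ell B0 B1 x θ * U θ)‖ ≤ 2 * κ)
    (d P : ℝ) (hd : 0 < d) (hd1 : d ≤ 1) (he1 : ε ≤ 1) (hP : ‖p‖ ≤ P) (hκ : κ ≤ 2 * d ^ 2)
    (x x' : ℂ) (θ α : ℝ) (hg : (x, θ) ∈ G) (hg' : (x', θ + α) ∈ G) (hα : 0 < α) (hαd : α < d)
    (hx : x' = x + p * (U θ - U (θ + α))) :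
    |ip (B0 x - B0 x') (conj p / p * (x - x'))| ≤ (P ^ 2 + 4 * P) * d / ε * d := by
  have hP0 : 0 ≤ P := (norm_nonneg p).trans hP
  have hxx : x + p * U θ = x' + p * U (θ + α) := by rw [hx]; ring
  have hn : ‖x - x'‖ ≤ P * d := by
    have e : x - x' = p * (U (θ + α) - U θ) := by rw [hx]; ring
    rw [e, norm_mul]
    refine mul_le_mul hP ?_ (norm_nonneg _) hP0
    refine (norm_U_sub_le θ α).trans ?_
    rw [abs_of_pos hα]; exact hαd.le
  have hs := scal p x x' (B0 x - B0 x') θ (θ + α) (ell B0 B1 x θ) (ell B0 B1 x' (θ + α)) (2 * κ) hp hxx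
    (hsl x x' θ (θ + α) hg hg' hxx)
  have hl := h.hi _ hg
  have hl' := h.hi _ hg'
  simp only at hl hl'
  have hn0 := norm_nonneg (x - x')
  have h1 : |‖x - x'‖ ^ 2 * ((ell B0 B1 x θ + ell B0 B1 x' (θ + α)) / 2)| ≤ (P * d) ^ 2 * (1 / ε) := by
    rw [abs_mul, abs_of_nonneg (sq_nonneg _)]
    refine mul_le_mul (pow_le_pow_left₀ hn0 hn 2) ?_ (abs_nonneg _) (sq_nonneg _)
    rw [abs_div, abs_of_pos (by norm_num : (0:ℝ) < 2)]
    have := abs_add_le (ell B0 B1 x θ) (ell B0 B1 x' (θ + α))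
    linarith
  have h2 : 2 * κ * ‖x - x'‖ ≤ 4 * d ^ 2 * (P * d) := by
    calc 2 * κ * ‖x - x'‖ ≤ 4 * d ^ 2 * ‖x - x'‖ := mul_le_mul_of_nonneg_right (by linarith) hn0
      _ ≤ 4 * d ^ 2 * (P * d) := mul_le_mul_of_nonneg_left hn (by positivity)
  have h3 : |ip (B0 x - B0 x') (conj p / p * (x - x'))| ≤ (P * d) ^ 2 * (1 / ε) + 4 * d ^ 2 * (P * d) := by
    have := abs_sub_abs_le_abs_sub (ip (B0 x - B0 x') (conj p / p * (x - x')))
      (‖x - x'‖ ^ 2 * ((ell B0 B1 x θ + ell B0 B1 x' (θ + α)) / 2))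
    linarith
  refine h3.trans ?_
  have h4 : d ≤ 1 / ε := hd1.trans (by rw [le_div_iff₀ hε]; linarith)
  have h5 : 4 * d ^ 2 * (P * d) ≤ 4 * d ^ 2 * (P * (1 / ε)) := by
    apply mul_le_mul_of_nonneg_left _ (by positivity)
    exact mul_le_mul_of_nonneg_left h4 hP0
  calc (P * d) ^ 2 * (1 / ε) + 4 * d ^ 2 * (P * d) ≤ (P * d) ^ 2 * (1 / ε) + 4 * d ^ 2 * (P * (1 / ε)) := by
        linarith
    _ = (P ^ 2 + 4 * P) * d / ε * d := by ring

/-- class-0 part of (S1) -/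
theorem B7_half (ω : ℂ) (h0 : ω.im ≠ 0) (h1 : ω.re ≠ 0) (R : ℝ) :
    ∃ n : ℕ, 1 ≤ n ∧ ∀ ε : ℝ, 0 < ε → ε ≤ 1 / 2 → ∀ κ d : ℝ, 0 < d → d ≤ ε ^ n → κ ≤ 2 * d ^ 2 →
    ∀ (B0 B1 B2 : ℂ → ℂ) (G : Set (ℂ × ℝ)), Sys ω R ε κ B0 B1 B2 G →
    ∃ G' : Set (ℂ × ℝ), Sub (ε ^ n) G' G ∧
      ∀ g ∈ G', ∀ g' ∈ G', cell d g.1 = cell d g'.1 → ‖B0 g.1 - B0 g'.1‖ ≤ 1 / ε ^ n * d := by
  have hω : ω ≠ 0 := by intro h; rw [h] at h0; exact h0 rfl
  have hωn : 0 < ‖ω‖ := norm_pos_iff.mpr hω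
  obtain ⟨P, hPdef⟩ : ∃ P : ℝ, P = 1 + ‖ω‖ := ⟨_, rfl⟩
  have hP1 : ‖(1:ℂ)‖ ≤ P := by rw [norm_one, hPdef]; linarith
  have hPω : ‖ω‖ ≤ P := by rw [hPdef]; linarith
  have hP0 : 0 < P := by rw [hPdef]; linarith
  obtain ⟨C2, hC2, NLh⟩ := NL R P
  obtain ⟨C1, hC1, NDh⟩ := not_deep_small R
  obtain ⟨k0, hk0, SELh⟩ := SEL R
  obtain ⟨nK, hnK, Kh⟩ := lemK (conj ω / ω) (B7_gamma ω h0 h1)
  obtain ⟨m1, hm1, habs1⟩ := B7_absorb (C1 * P + 2 * C2) (by positivity)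
  obtain ⟨m2, hm2, habs2⟩ := B7_absorb (4 + 4 / ‖ω‖ ^ 2) (by positivity)
  obtain ⟨m3, hm3, habs3⟩ := B7_absorb (P ^ 2 + 4 * P) (by positivity)
  obtain ⟨m, hmdef⟩ : ∃ m : ℕ, m = 4 * k0 + 4 * (m1 + 2) + m2 := ⟨_, rfl⟩
  obtain ⟨nS, hnS, SELh⟩ := SELh (m * nK)
  refine ⟨2 * nS + (m * nK + 1 + m3), by omega, ?_⟩
  intro ε hε hε2 κ d hd hdn hκ B0 B1 B2 G hS
  have hε1 : ε ≤ 1 := by linarith
  have hpow_anti : ∀ a b : ℕ, a ≤ b → ε ^ b ≤ ε ^ a := fun a b hab => pow_le_pow_of_le_one hε.le hε1 hab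
  have hd1 : d ≤ 1 := hdn.trans (pow_le_one₀ hε.le hε1)
  -- eta
  obtain ⟨η, hηdef⟩ : ∃ η : ℝ, η = ε ^ (m1 + 2) := ⟨_, rfl⟩
  have hη : 0 < η := by rw [hηdef]; positivity
  have hη1 : η ≤ 1 := by rw [hηdef]; exact pow_le_one₀ hε.le hε1
  have hηd : 0 < η * d := by positivity
  have hηdd : η * d ≤ d := by nlinarith
  have hηd1 : η * d ≤ 1 := hηdd.trans hd1
  -- the bad sets
  obtain ⟨N0, hN0⟩ : ∃ N0 : Set (ℂ × ℝ), N0 = {g | g ∈ G ∧ ¬ deep d (P * (η * d)) g.1} := ⟨_, rfl⟩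
  obtain ⟨N1, hN1⟩ : ∃ N1 : Set (ℂ × ℝ), N1 = {g | g ∈ G ∧
    volume.real {α : ℝ | α ∈ Ioo 0 (η * d) ∧ rot 1 α g ∈ G} < η * (η * d)} := ⟨_, rfl⟩
  obtain ⟨N2, hN2⟩ : ∃ N2 : Set (ℂ × ℝ), N2 = {g | g ∈ G ∧
    volume.real {α : ℝ | α ∈ Ioo 0 (η * d) ∧ rot ω α g ∈ G} < η * (η * d)} := ⟨_, rfl⟩
  have mN0 : MeasurableSet N0 := by
    rw [hN0]
    exact hS.mG.inter (measurable_fst (B7_meas_deep d (P * (η * d))).compl)
  have mN1 : MeasurableSet N1 := by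
    rw [hN1]; exact hS.mG.inter (B7_meas_ret 1 _ _ G hS.mG)
  have mN2 : MeasurableSet N2 := by
    rw [hN2]; exact hS.mG.inter (B7_meas_ret ω _ _ G hS.mG)
  have vN0 : volume.real N0 ≤ C1 * (P * η) := by
    have := (NDh d (P * (η * d)) hd hd1 (by positivity) G hS.mG hS.bdd hS.ang).1
    rw [hN0]
    refine this.trans (le_of_eq ?_)
    field_simp
  have vN1 : volume.real N1 ≤ C2 * η := by
    rw [hN1]; exact NLh 1 hP1 G hS.mG hS.bdd hS.ang (η * d) η hηd hηd1 hη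
  have vN2 : volume.real N2 ≤ C2 * η := by
    rw [hN2]; exact NLh ω hPω G hS.mG hS.bdd hS.ang (η * d) η hηd hηd1 hη
  obtain ⟨G1, hG1⟩ : ∃ G1 : Set (ℂ × ℝ), G1 = G \ (N0 ∪ (N1 ∪ N2)) := ⟨_, rfl⟩
  have hG1G : G1 ⊆ G := by rw [hG1]; exact sdiff_subset
  have mG1 : MeasurableSet G1 := by
    rw [hG1]; exact hS.mG.diff (mN0.union (mN1.union mN2))
  have hfinG : volume G ≠ ⊤ := by
    intro h
    have h2 := hS.vol
    rw [Measure.real, h, ENNReal.toReal_top] at h2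
    linarith
  have hfin : ∀ N : Set (ℂ × ℝ), N ⊆ G → volume N ≠ ⊤ := fun N hN =>
    ne_top_of_le_ne_top hfinG (measure_mono hN)
  have sN0 : N0 ⊆ G := by rw [hN0]; exact fun g hg => hg.1
  have sN1 : N1 ⊆ G := by rw [hN1]; exact fun g hg => hg.1
  have sN2 : N2 ⊆ G := by rw [hN2]; exact fun g hg => hg.1
  have vG1 : ε ^ 2 ≤ volume.real G1 := by
    have e1 : G ⊆ G1 ∪ (N0 ∪ (N1 ∪ N2)) := by rw [hG1, sdiff_union_self]; exact subset_union_left
    have e2 : volume.real G ≤ volume.real G1 + (volume.real N0 + (volume.real N1 + volume.real N2)) := by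
      calc volume.real G ≤ volume.real (G1 ∪ (N0 ∪ (N1 ∪ N2))) :=
            measureReal_mono e1 (ne_of_lt (measure_union_lt_top (lt_top_iff_ne_top.mpr (hfin _ hG1G))
              (measure_union_lt_top (lt_top_iff_ne_top.mpr (hfin _ sN0))
                (measure_union_lt_top (lt_top_iff_ne_top.mpr (hfin _ sN1))
                  (lt_top_iff_ne_top.mpr (hfin _ sN2))))))
        _ ≤ volume.real G1 + volume.real (N0 ∪ (N1 ∪ N2)) := measureReal_union_le _ _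
        _ ≤ volume.real G1 + (volume.real N0 + volume.real (N1 ∪ N2)) := by
            have := measureReal_union_le (μ := (volume : Measure (ℂ × ℝ))) N0 (N1 ∪ N2); linarith
        _ ≤ _ := by
            have := measureReal_union_le (μ := (volume : Measure (ℂ × ℝ))) N1 N2; linarith
    have e3 : (C1 * P + 2 * C2) * η ≤ ε ^ 2 := by
      have := habs1 ε hε hε2
      calc (C1 * P + 2 * C2) * η = ((C1 * P + 2 * C2) * ε ^ m1) * ε ^ 2 := by rw [hηdef, pow_add]; ring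
        _ ≤ 1 * ε ^ 2 := mul_le_mul_of_nonneg_right this (by positivity)
        _ = ε ^ 2 := one_mul _
    have e4 := hS.vol
    nlinarith
  -- the relation sets
  obtain ⟨E1, hE1⟩ : ∃ E1 : ℤ × ℤ → Set (ℂ × ℂ), E1 = fun c => {z | z ∈ Esl 1 (η * d) G1 G ∧ cell d z.1 = c} :=
    ⟨_, rfl⟩
  obtain ⟨E2, hE2⟩ : ∃ E2 : ℤ × ℤ → Set (ℂ × ℂ), E2 = fun c => {z | z ∈ Esl ω (η * d) G1 G ∧ cell d z.1 = c} :=
    ⟨_, rfl⟩
  have hangG1 : ∀ g ∈ G1, g.2 ∈ Icc (0:ℝ) 1 := fun g hg => hS.ang g (hG1G hg)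
  have mcell : ∀ c : ℤ × ℤ, MeasurableSet {z : ℂ × ℂ | cell d z.1 = c} := fun c =>
    ((B7_meas_cell d).comp measurable_fst) (measurableSet_singleton c)
  have mE1 : ∀ c, MeasurableSet (E1 c) := by
    intro c; rw [hE1]
    exact (Esl_meas 1 one_ne_zero (η * d) hηd1 G1 G mG1 hS.mG hangG1).inter (mcell c)
  have mE2 : ∀ c, MeasurableSet (E2 c) := by
    intro c; rw [hE2]
    exact (Esl_meas ω hω (η * d) hηd1 G1 G mG1 hS.mG hangG1).inter (mcell c)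
  have hdeep : ∀ g ∈ G1, deep d (P * (η * d)) g.1 := by
    intro g hg
    by_contra hnd
    rw [hG1] at hg
    exact hg.2 (Or.inl (by rw [hN0]; exact ⟨hg.1, hnd⟩))
  have hcell' : ∀ p : ℂ, ‖p‖ ≤ P → ∀ z ∈ Esl p (η * d) G1 G, cell d z.2 = cell d z.1 := by
    rintro p hp ⟨x, y⟩ ⟨θ, α, hα, hα', hg, hg', hxy⟩
    simp only at hα hα' hg hg' hxy ⊢
    rw [hxy]
    apply deep_cell d (P * (η * d)) hd x _ (hdeep _ hg)
    rw [norm_mul]
    refine mul_le_mul hp ?_ (norm_nonneg _) hP0.le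
    rw [← norm_neg, neg_sub]
    refine (norm_U_sub_le θ α).trans ?_
    rw [abs_of_pos hα]; exact hα'.le
  obtain ⟨X, hX⟩ : ∃ X : ℤ × ℤ → Set ℂ, X = fun c => {x | cell d x = c ∧
    (ε ^ 2) ^ k0 ≤ volume.real {θ : ℝ | (x, θ) ∈ G1}} := ⟨_, rfl⟩
  have mX : ∀ c, MeasurableSet (X c) := by
    intro c; rw [hX]
    exact ((B7_meas_cell d) (measurableSet_singleton c)).inter (B7_meas_fib _ G1 mG1)
  -- slice bounds
  have hεm : 0 < ε ^ m := by positivity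
  have hslice : ∀ p : ℂ, p ≠ 0 → (1 : ℝ) ≤ (4 + 4 / ‖ω‖ ^ 2) * (‖p‖ ^ 2 / 4) →
      (∀ g ∈ G1, η * (η * d) ≤ volume.real {α : ℝ | α ∈ Ioo 0 (η * d) ∧ rot p α g ∈ G}) →
      ∀ c, ∀ x ∈ X c, ε ^ m * d ^ 2 ≤ volume.real {y : ℂ | (x, y) ∈ Esl p (η * d) G1 G ∧ cell d x = c} := by
    intro p hp hpp hret c x hx
    rw [hX] at hx
    have hsl := Esl_slice p hp (η * d) hηd1 G1 G mG1 hS.mG hangG1 x ((ε ^ 2) ^ k0) (η * (η * d))
      (by positivity) (by positivity) hx.2 (fun θ hθ => hret (x, θ) hθ)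
    have e : {y : ℂ | (x, y) ∈ Esl p (η * d) G1 G ∧ cell d x = c} = {y : ℂ | (x, y) ∈ Esl p (η * d) G1 G} := by
      ext y; simp only [mem_ofPred_eq, and_iff_left_iff_imp]; intro _; exact hx.1
    rw [e]
    refine le_trans ?_ hsl
    have h2 := habs2 ε hε hε2
    have h3 : ε ^ m2 ≤ ‖p‖ ^ 2 / 4 := by
      have hc : 0 < 4 + 4 / ‖ω‖ ^ 2 := by positivity
      by_contra hcon
      push Not at hcon
      have := mul_lt_mul_of_pos_left hcon hc
      linarith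
    calc ε ^ m * d ^ 2 = ε ^ m2 * (ε ^ (4 * k0) * ε ^ (4 * (m1 + 2)) * d ^ 2) := by
          rw [hmdef, pow_add, pow_add]; ring
      _ ≤ ‖p‖ ^ 2 / 4 * (ε ^ (4 * k0) * ε ^ (4 * (m1 + 2)) * d ^ 2) :=
          mul_le_mul_of_nonneg_right h3 (by positivity)
      _ = ‖p‖ ^ 2 / 4 * ((ε ^ 2) ^ k0 * (η * (η * d))) ^ 2 := by
          rw [hηdef]
          have a1 : ε ^ (4 * k0) = ((ε ^ 2) ^ k0) ^ 2 := by
            rw [← pow_mul, ← pow_mul]; congr 1; ring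
          have a2 : ε ^ (4 * (m1 + 2)) = (ε ^ (m1 + 2) * ε ^ (m1 + 2)) ^ 2 := by
            rw [← pow_add, ← pow_mul]; congr 1; ring
          rw [a1, a2]; ring
  have hret1 : ∀ g ∈ G1, η * (η * d) ≤ volume.real {α : ℝ | α ∈ Ioo 0 (η * d) ∧ rot 1 α g ∈ G} := by
    intro g hg
    by_contra hcon
    push Not at hcon
    rw [hG1] at hg
    exact hg.2 (Or.inr (Or.inl (by rw [hN1]; exact ⟨hg.1, hcon⟩)))
  have hret2 : ∀ g ∈ G1, η * (η * d) ≤ volume.real {α : ℝ | α ∈ Ioo 0 (η * d) ∧ rot ω α g ∈ G} := by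
    intro g hg
    by_contra hcon
    push Not at hcon
    rw [hG1] at hg
    exact hg.2 (Or.inr (Or.inr (by rw [hN2]; exact ⟨hg.1, hcon⟩)))
  have hsl1 := hslice 1 one_ne_zero (by
    rw [norm_one]; have : 0 ≤ 4 / ‖ω‖ ^ 2 := by positivity
    linarith) hret1
  have hsl2 := hslice ω hω (by
    have : (4 + 4 / ‖ω‖ ^ 2) * (‖ω‖ ^ 2 / 4) = ‖ω‖ ^ 2 + 1 := by field_simp
    rw [this]; nlinarith) hret2
  -- the relations
  obtain ⟨ηK, hηK⟩ : ∃ ηK : ℝ, ηK = (P ^ 2 + 4 * P) * d / ε := ⟨_, rfl⟩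
  have hηK0 : 0 ≤ ηK := by rw [hηK]; positivity
  have hrel : ∀ p : ℂ, p ≠ 0 → ‖p‖ ≤ P →
      (∀ x x' : ℂ, ∀ θ θ' : ℝ, (x, θ) ∈ G → (x', θ') ∈ G → x + p * U θ = x' + p * U θ' →
        ‖B0 x - B0 x' - conj p * (ell B0 B1 x' θ' * U θ' - ell B0 B1 x θ * U θ)‖ ≤ 2 * κ) →
      ∀ z ∈ Esl p (η * d) G1 G, |ip (B0 z.1 - B0 z.2) (conj p / p * (z.1 - z.2))| ≤ ηK * d := by
    rintro p hp hpP hsl ⟨x, y⟩ ⟨θ, α, hα, hα', hg, hg', hxy⟩
    simp only at hα hα' hg hg' hxy ⊢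
    rw [hηK]
    exact B7_step hS hε p hp hsl d P hd hd1 hε1 hpP hκ x y θ α (hG1G hg) hg' hα
      (lt_of_lt_of_le hα' hηdd) hxy
  have hrel1 := hrel 1 one_ne_zero hP1 (by
    intro x x' θ θ' hg hg' hx
    rw [one_mul, one_mul] at hx
    have := hS.sl1 hg hg' hx
    rwa [map_one, one_mul])
  have hrel2 := hrel ω hω hPω (by
    intro x x' θ θ' hg hg' hx
    exact hS.sl2 hg hg' hx)
  -- lemma K in every rich cell
  have hcells : ∀ c : ℤ × ℤ, ∃ X' : Set ℂ, MeasurableSet X' ∧ X' ⊆ X c ∧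
      ((ε ^ 2) ^ k0 * d ^ 2 ≤ volume.real (X c) → (ε ^ 2) ^ (m * nK) * d ^ 2 ≤ volume.real X') ∧
      ∀ x ∈ X', ∀ x' ∈ X', ‖B0 x - B0 x'‖ ≤ ηK / (ε ^ m) ^ nK := by
    intro c
    by_cases hrich : (ε ^ 2) ^ k0 * d ^ 2 ≤ volume.real (X c)
    · have hεK : ε ^ m ≤ 1 / 2 := (hpow_anti 1 m (by omega)).trans (by rw [pow_one]; exact hε2)
      obtain ⟨X', mX', sX', vX', hX'⟩ := Kh (ε ^ m) hεm hεK d hd c (X c) (mX c)
        (by rw [hX]; exact fun x hx => hx.1)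
        (by
          refine le_trans ?_ hrich
          apply mul_le_mul_of_nonneg_right _ (by positivity)
          rw [← pow_mul]; exact hpow_anti _ _ (by omega))
        (E1 c) (E2 c) (mE1 c) (mE2 c)
        (by
          intro x y hxy
          rw [hE1] at hxy
          have := hcell' 1 hP1 (x, y) hxy.1
          simp only at this
          rw [this]; exact hxy.2)
        (by
          intro x y hxy
          rw [hE2] at hxy
          have := hcell' ω hPω (x, y) hxy.1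
          simp only at this
          rw [this]; exact hxy.2)
        (by
          intro x hx
          rw [hE1]; exact hsl1 c x hx)
        (by
          intro x hx
          rw [hE2]; exact hsl2 c x hx)
        B0 hS.m0 ηK hηK0
        (by
          intro x _ y hxy
          rw [hE1] at hxy
          have := hrel1 (x, y) hxy.1
          rw [map_one, div_one, one_mul] at this
          exact this)
        (by
          intro x _ y hxy
          rw [hE2] at hxy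
          exact hrel2 (x, y) hxy.1)
      refine ⟨X', mX', sX', fun _ => ?_, hX'⟩
      refine le_trans ?_ vX'
      apply mul_le_mul_of_nonneg_right _ (by positivity)
      rw [← pow_mul, ← pow_mul]; exact hpow_anti _ _ (by
        have : m * nK ≤ 2 * (m * nK) := by omega
        exact this)
    · exact ⟨∅, MeasurableSet.empty, empty_subset _, fun h => absurd h hrich, fun x hx => absurd hx (by simp)⟩
  choose X' mX' sX' vX' hX' using hcells
  obtain ⟨mG2, vG2⟩ := SELh (ε ^ 2) (by positivity) (by nlinarith) d hd hd1 G1 mG1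
    (fun g hg => hS.bdd g (hG1G hg)) hangG1 vG1 X' mX'
    (by intro c; have := sX' c; rw [hX] at this; exact this)
    (by intro c hc; apply vX' c; rw [hX]; exact hc)
  refine ⟨{g | g ∈ G1 ∧ g.1 ∈ X' (cell d g.1)}, ⟨fun g hg => hG1G hg.1, mG2, ?_⟩, ?_⟩
  · refine le_trans ?_ vG2
    rw [← pow_mul]; exact hpow_anti _ _ (by omega)
  · intro g hg g' hg' hc
    have h5 := hX' (cell d g.1) g.1 hg.2 g'.1 (by rw [hc]; exact hg'.2)
    refine h5.trans ?_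
    have h6 := habs3 ε hε hε2
    have h7 : ηK / (ε ^ m) ^ nK = ((P ^ 2 + 4 * P) * ε ^ m3) * (1 / ε ^ (m * nK + 1 + m3)) * d := by
      rw [hηK, pow_add, pow_add, pow_one, pow_mul]
      field_simp
    rw [h7]
    apply mul_le_mul_of_nonneg_right _ hd.le
    calc (P ^ 2 + 4 * P) * ε ^ m3 * (1 / ε ^ (m * nK + 1 + m3))
        ≤ 1 * (1 / ε ^ (m * nK + 1 + m3)) := mul_le_mul_of_nonneg_right h6 (by positivity)
      _ = 1 / ε ^ (m * nK + 1 + m3) := one_mul _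
      _ ≤ 1 / ε ^ (2 * nS + (m * nK + 1 + m3)) := by
          apply one_div_le_one_div_of_le (by positivity)
          exact hpow_anti _ _ (by omega)

theorem S1 (ω : ℂ) (h0 : ω.im ≠ 0) (h1 : ω.re ≠ 0) (h2 : ω.re ≠ 1) (R : ℝ) :
    ∃ n : ℕ, 1 ≤ n ∧ ∀ ε : ℝ, 0 < ε → ε ≤ 1 / 2 → ∀ κ d : ℝ, 0 < d → d ≤ ε ^ n → κ ≤ d ^ 2 →
    ∀ (B0 B1 B2 : ℂ → ℂ) (G : Set (ℂ × ℝ)), Sys ω R ε κ B0 B1 B2 G →
    ∃ G' : Set (ℂ × ℝ), Sub (ε ^ n) G' G ∧ S1P (1 / ε ^ n) d B0 B1 G' := by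
  obtain ⟨n1, hn1, H1⟩ := B7_half ω h0 h1 R
  obtain ⟨n2, hn2, H2⟩ := B7_half (1 - ω) (by simpa using h0)
    (by rw [sub_re, one_re]; intro h; exact h2 (by linarith)) (R + 1)
  have hle1 : n1 ≤ n1 * n2 := Nat.le_mul_of_pos_right _ (by omega)
  refine ⟨n1 * n2, Nat.mul_pos (by omega) (by omega), ?_⟩
  intro ε hε hε2 κ d hd hdn hκ B0 B1 B2 G hS
  have hε1 : ε ≤ 1 := by linarith
  have hpow_anti : ∀ a b : ℕ, a ≤ b → ε ^ b ≤ ε ^ a := fun a b hab => pow_le_pow_of_le_one hε.le hε1 hab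
  have hd2 : 0 ≤ d ^ 2 := by positivity
  obtain ⟨G1, hG1, hc0⟩ := H1 ε hε hε2 κ d hd (hdn.trans (hpow_anti _ _ hle1)) (by linarith) B0 B1 B2 G hS
  have hεn : 0 < ε ^ n1 := by positivity
  have hεn2 : ε ^ n1 ≤ ε := by simpa using hpow_anti 1 n1 hn1
  have hS1 : Sys ω R (ε ^ n1) κ B0 B1 B2 G1 := hS.mono hG1 hεn hεn2 le_rfl
  have hκ0 : 0 ≤ κ := by
    have hne : G1.Nonempty := by
      rw [nonempty_iff_ne_empty]
      intro h
      have := hG1.vol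
      rw [h] at this
      simp only [measureReal_empty] at this
      linarith
    obtain ⟨g, hg⟩ := hne
    exact (norm_nonneg _).trans (hS1.ra g hg)
  obtain ⟨G2, hG2, hc1⟩ := H2 (ε ^ n1) hεn (hεn2.trans hε2) (2 * κ) d hd (by rw [← pow_mul]; exact hdn)
    (by linarith) _ _ _ _ (hS1.swap hκ0)
  have hcc : ∀ g : ℂ × ℝ, (swp g).1 = -(g.1 + U g.2) := fun g => rfl
  refine ⟨swp ⁻¹' G2, ⟨?_, swp_meas hG2.meas, ?_⟩, ⟨?_, ?_⟩⟩
  · intro g hg
    have := hG2.sub hg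
    rw [mem_preimage, swp_swp] at this
    exact hG1.sub this
  · rw [swp_vol hG2.meas, pow_mul]; exact hG2.vol
  · intro g hg g' hg' hc
    have a1 : g ∈ G1 := by have := hG2.sub hg; rwa [mem_preimage, swp_swp] at this
    have a2 : g' ∈ G1 := by have := hG2.sub hg'; rwa [mem_preimage, swp_swp] at this
    refine (hc0 g a1 g' a2 hc).trans ?_
    apply mul_le_mul_of_nonneg_right _ hd.le
    exact one_div_le_one_div_of_le (by positivity) (hpow_anti _ _ hle1)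
  · intro g hg g' hg' hc
    have := hc1 (swp g) hg (swp g') hg' (by rw [hcc, hcc]; exact hc)
    rw [hcc, hcc, neg_neg, neg_neg, ← pow_mul, ← norm_neg] at this
    have e2 : -(-B1 (g.1 + U g.2) - -B1 (g'.1 + U g'.2)) = B1 (g.1 + U g.2) - B1 (g'.1 + U g'.2) := by ring
    rw [e2] at this
    exact this

end TriDil
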