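import Pool.Agent.TriDil.Basic7
import Pool.Agent.TriDil.B5
set_option autoImplicit false
open MeasureTheory Complex Set
namespace TriDil
open scoped ComplexConjugate

/-! ### generic counting lemmas -/

section gen
open scoped ENNReal
variable {α β : Type} [MeasurableSpace α] [MeasurableSpace β] (μ : Measure α) (ν : Measure β)
  [SFinite ν]

theorem B6_low {S : Set (α × β)} (hS : MeasurableSet S) {A : Set α} (hA : MeasurableSet A)
    {t : ℝ≥0∞} (h : ∀ x ∈ A, t ≤ ν {y | (x, y) ∈ S}) : t * μ A ≤ (μ.prod ν) S := by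
  rw [Measure.prod_apply hS]
  calc t * μ A = ∫⁻ _ in A, t ∂μ := by rw [setLIntegral_const]
    _ ≤ ∫⁻ x in A, ν (Prod.mk x ⁻¹' S) ∂μ := setLIntegral_mono' hA fun x hx => h x hx
    _ ≤ _ := setLIntegral_le_lintegral _ _

theorem B6_up {S : Set (α × β)} (hS : MeasurableSet S) {A : Set α} (hA : MeasurableSet A)
    {t : ℝ≥0∞} (hSA : ∀ x y, (x, y) ∈ S → x ∈ A) (h : ∀ x ∈ A, ν {y | (x, y) ∈ S} ≤ t) :
    (μ.prod ν) S ≤ t * μ A := by
  rw [Measure.prod_apply hS]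
  calc ∫⁻ x, ν (Prod.mk x ⁻¹' S) ∂μ ≤ ∫⁻ x, A.indicator (fun _ => t) x ∂μ := by
        apply lintegral_mono
        intro x
        by_cases hx : x ∈ A
        · rw [indicator_of_mem hx]; exact h x hx
        · have : Prod.mk x ⁻¹' S = ∅ := by
            ext y
            simp only [mem_preimage, mem_empty_iff_false, iff_false]
            exact fun e => hx (hSA x y e)
          simp only [this, measure_empty, zero_le]
    _ = t * μ A := by rw [lintegral_indicator hA, setLIntegral_const]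

theorem B6_sel {S : Set (α × β)} (hS : MeasurableSet S) {A : Set α} (hA : MeasurableSet A)
    {t : ℝ≥0∞} (hSA : ∀ x y, (x, y) ∈ S → x ∈ A) (h : t * μ A < (μ.prod ν) S) :
    ∃ x ∈ A, t ≤ ν {y | (x, y) ∈ S} := by
  by_contra hc
  push Not at hc
  exact absurd (B6_up μ ν hS hA hSA fun x hx => (hc x hx).le) (not_le.mpr h)

theorem B6_swap [SFinite μ] (S : Set (α × β)) (hS : MeasurableSet S) :
    (ν.prod μ) {p | (p.2, p.1) ∈ S} = (μ.prod ν) S := by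
  have h : MeasurePreserving (Prod.swap : β × α → α × β) (ν.prod μ) (μ.prod ν) :=
    Measure.measurePreserving_swap
  exact h.measure_preimage hS.nullMeasurableSet

theorem B6_slm {S : Set (α × β)} (hS : MeasurableSet S) (t : ℝ≥0∞) :
    MeasurableSet {x | t ≤ ν {y | (x, y) ∈ S}} :=
  measurableSet_le measurable_const (measurable_measure_prodMk_left hS)

theorem B6_pop {S : Set (α × β)} (hS : MeasurableSet S) {A : Set α} (hA : MeasurableSet A)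
    (t : ℝ≥0∞) (hSA : ∀ x y, (x, y) ∈ S → x ∈ A) :
    (μ.prod ν) S ≤ (μ.prod ν) {p | p ∈ S ∧ t ≤ ν {y | (p.1, y) ∈ S}} + t * μ A := by
  have hm := B6_slm ν hS t
  have h1 : MeasurableSet {p : α × β | p ∈ S ∧ t ≤ ν {y | (p.1, y) ∈ S}} :=
    hS.inter (measurable_fst hm)
  have h2 : MeasurableSet {p : α × β | p ∈ S ∧ ¬ t ≤ ν {y | (p.1, y) ∈ S}} :=
    hS.inter (measurable_fst hm.compl)
  have h3 : S ⊆ {p | p ∈ S ∧ t ≤ ν {y | (p.1, y) ∈ S}} ∪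
      {p | p ∈ S ∧ ¬ t ≤ ν {y | (p.1, y) ∈ S}} := by
    intro p hp
    by_cases hc : t ≤ ν {y | (p.1, y) ∈ S}
    · exact Or.inl ⟨hp, hc⟩
    · exact Or.inr ⟨hp, hc⟩
  refine (measure_mono h3).trans ((measure_union_le _ _).trans ?_)
  gcongr
  apply B6_up μ ν h2 hA (fun x y h => hSA x y h.1)
  intro x _
  by_cases hc : t ≤ ν {y | (x, y) ∈ S}
  · have : {y | (x, y) ∈ {p : α × β | p ∈ S ∧ ¬ t ≤ ν {y | (p.1, y) ∈ S}}} = ∅ := by
      ext y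
      simp only [mem_setOf_eq, mem_empty_iff_false, iff_false]
      exact fun e => e.2 hc
    rw [this, measure_empty]
    exact bot_le
  · refine (measure_mono fun y hy => ?_).trans (not_le.mp hc).le
    exact hy.1

theorem B6_popset {S : Set (α × β)} (hS : MeasurableSet S) {A : Set α} (hA : MeasurableSet A)
    (t M : ℝ≥0∞) (hSA : ∀ x y, (x, y) ∈ S → x ∈ A) (hM : ∀ x ∈ A, ν {y | (x, y) ∈ S} ≤ M) :
    (μ.prod ν) S ≤ M * μ {x | x ∈ A ∧ t ≤ ν {y | (x, y) ∈ S}} + t * μ A := by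
  refine (B6_pop μ ν hS hA t hSA).trans ?_
  gcongr
  have hm := B6_slm ν hS t
  apply B6_up μ ν (hS.inter (measurable_fst hm)) (hA.inter hm)
  · intro x y h
    exact ⟨hSA x y h.1, h.2⟩
  · intro x hx
    exact (measure_mono fun y hy => hy.1).trans (hM x hx.1)

theorem B6_pair [SFinite μ] {S : Set (α × β)} (hS : MeasurableSet S) {A : Set α} (hA : MeasurableSet A)
    {B : Set β} (hB : MeasurableSet B)
    (t1 t2 : ℝ≥0∞) (hSA : ∀ x y, (x, y) ∈ S → x ∈ A) (hSB : ∀ x y, (x, y) ∈ S → y ∈ B)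
    (h : t1 * μ A + t2 * ν B < (μ.prod ν) S) :
    ∃ y₀ ∈ B, t1 * t2 ≤ (μ.prod ν) {p | p ∈ S ∧ (p.1, y₀) ∈ S} := by
  have hm := B6_slm ν hS t1
  set S' : Set (α × β) := {p | p ∈ S ∧ t1 ≤ ν {y | (p.1, y) ∈ S}} with hS'
  have hS'm : MeasurableSet S' := hS.inter (measurable_fst hm)
  have h1 := B6_pop μ ν hS hA t1 hSA
  have h2 : t2 * ν B < (ν.prod μ) {p | (p.2, p.1) ∈ S'} := by
    rw [B6_swap μ ν S' hS'm]
    have h3 : t2 * ν B + t1 * μ A < (μ.prod ν) S' + t1 * μ A := by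
      rw [add_comm (t2 * ν B)]
      exact h.trans_le h1
    exact lt_of_add_lt_add_right h3
  obtain ⟨y₀, hy₀, h4⟩ := B6_sel ν μ (measurable_swap hS'm) hB
    (fun y x hyx => hSB x y hyx.1) h2
  refine ⟨y₀, hy₀, ?_⟩
  have hA' : MeasurableSet {x | (x, y₀) ∈ S'} := measurable_prodMk_right hS'm
  have h5 : MeasurableSet {p : α × β | p ∈ S ∧ (p.1, y₀) ∈ S} :=
    hS.inter (measurable_fst (measurable_prodMk_right hS))
  have h6 := B6_low μ ν h5 hA' (t := t1) (fun x hx => by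
    refine hx.2.trans (measure_mono fun y hy => ?_)
    exact ⟨hy, hx.1⟩)
  refine le_trans ?_ h6
  gcongr
  exact h4

end gen

/-! ### squares and the affine action -/

theorem B6_rect (a b c d : ℝ) :
    volume {z : ℂ | a ≤ z.re ∧ z.re < b ∧ c ≤ z.im ∧ z.im < d} =
      ENNReal.ofReal (b - a) * ENNReal.ofReal (d - c) := by
  have h1 : {z : ℂ | a ≤ z.re ∧ z.re < b ∧ c ≤ z.im ∧ z.im < d} =
      Complex.measurableEquivRealProd ⁻¹' (Ico a b ×ˢ Ico c d) := by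
    ext z
    constructor
    · rintro ⟨h1, h2, h3, h4⟩
      exact ⟨⟨h1, h2⟩, h3, h4⟩
    · rintro ⟨⟨h1, h2⟩, h3, h4⟩
      exact ⟨h1, h2, h3, h4⟩
  rw [h1, Complex.volume_preserving_equiv_real_prod.measure_preimage
    (measurableSet_Ico.prod measurableSet_Ico).nullMeasurableSet]
  rw [Measure.volume_eq_prod, Measure.prod_prod, Real.volume_Ico, Real.volume_Ico]

theorem B6_rectm (a b c d : ℝ) :
    MeasurableSet {z : ℂ | a ≤ z.re ∧ z.re < b ∧ c ≤ z.im ∧ z.im < d} := by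
  have h1 : {z : ℂ | a ≤ z.re ∧ z.re < b ∧ c ≤ z.im ∧ z.im < d} =
      Complex.measurableEquivRealProd ⁻¹' (Ico a b ×ˢ Ico c d) := by
    ext z
    constructor
    · rintro ⟨h1, h2, h3, h4⟩
      exact ⟨⟨h1, h2⟩, h3, h4⟩
    · rintro ⟨⟨h1, h2⟩, h3, h4⟩
      exact ⟨h1, h2, h3, h4⟩
  rw [h1]
  exact Complex.measurableEquivRealProd.measurable (measurableSet_Ico.prod measurableSet_Ico)

theorem B6_usqm : MeasurableSet usq := B6_rectm 0 1 0 1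

theorem B6_usqv : volume usq = 1 := by
  have := B6_rect 0 1 0 1
  rw [sub_zero, ENNReal.ofReal_one, one_mul] at this
  exact this

/-- the square of side two -/
def B6_Q2 : Set ℂ := {z | 0 ≤ z.re ∧ z.re < 2 ∧ 0 ≤ z.im ∧ z.im < 2}

theorem B6_Q2m : MeasurableSet B6_Q2 := B6_rectm 0 2 0 2

theorem B6_Q2v : volume B6_Q2 = 4 := by
  have := B6_rect 0 2 0 2
  rw [sub_zero, ← ENNReal.ofReal_mul (by norm_num)] at this
  unfold B6_Q2
  rw [this]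
  norm_num

theorem B6_Q2c (z : ℂ) : cell 2 z = (0, 0) ↔ z ∈ B6_Q2 := by
  unfold cell B6_Q2
  rw [Prod.mk.injEq, Int.floor_eq_zero_iff, Int.floor_eq_zero_iff]
  constructor
  · rintro ⟨⟨h1, h2⟩, h3, h4⟩
    exact ⟨by linarith, by linarith, by linarith, by linarith⟩
  · rintro ⟨h1, h2, h3, h4⟩
    exact ⟨⟨by linarith, by linarith⟩, by linarith, by linarith⟩

/-- the parameters of the affine maps -/
def B6_K : Set (ℝ × ℂ) := Icc 1 2 ×ˢ usq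

theorem B6_Km : MeasurableSet B6_K := measurableSet_Icc.prod B6_usqm

theorem B6_Kv : volume B6_K = 1 := by
  unfold B6_K
  rw [Measure.volume_eq_prod, Measure.prod_prod, Real.volume_Icc, B6_usqv]
  norm_num

/-- the affine maps -/
noncomputable def B6_act (h : ℝ × ℂ) (z : ℂ) : ℂ := h.1 * (z - (1 + I)) + h.2

theorem B6_act_mem {h : ℝ × ℂ} (hh : h ∈ B6_K) {z : ℂ} (hz : B6_act h z ∈ usq) : z ∈ B6_Q2 := by
  obtain ⟨⟨h1, h2⟩, h3, h4, h5, h6⟩ := hh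
  obtain ⟨h7, h8, h9, h10⟩ := hz
  unfold B6_act at h7 h8 h9 h10
  simp only [add_re, mul_re, ofReal_re, ofReal_im, sub_re, one_re, I_re, sub_im, add_im, one_im,
    I_im, mul_im, zero_mul, sub_zero, add_zero, zero_add] at h7 h8 h9 h10
  refine ⟨?_, ?_, ?_, ?_⟩
  · by_contra hc
    push Not at hc
    nlinarith
  · by_contra hc
    push Not at hc
    nlinarith
  · by_contra hc
    push Not at hc
    nlinarith
  · by_contra hc
    push Not at hc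
    nlinarith

theorem B6_act_meas : Measurable fun p : (ℝ × ℂ) × ℂ => B6_act p.1 p.2 := by
  unfold B6_act
  fun_prop

theorem B6_act_sub (h : ℝ × ℂ) (z y : ℂ) : B6_act h z - B6_act h y = h.1 * (z - y) := by
  unfold B6_act
  ring

/-- the action on triples -/
noncomputable def B6_actT (h : ℝ × ℂ) (w : ℂ × ℂ × ℂ) : ℂ × ℂ × ℂ :=
  (B6_act h w.1, B6_act h w.2.1, B6_act h w.2.2)

theorem B6_actT_meas : Measurable fun p : (ℂ × ℂ × ℂ) × (ℝ × ℂ) => B6_actT p.2 p.1 := by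
  unfold B6_actT B6_act
  fun_prop

theorem B6_actT_vol (h : ℝ × ℂ) (hh : h.1 ≠ 0) (S : Set (ℂ × ℂ × ℂ)) :
    volume {w | B6_actT h w ∈ S} = ENNReal.ofReal |(h.1 ^ 6)⁻¹| * volume S := by
  have hfin : Module.finrank ℝ (ℂ × ℂ × ℂ) = 6 := by
    rw [Module.finrank_prod, Module.finrank_prod, Complex.finrank_real_complex]
  set v : ℂ × ℂ × ℂ := (h.2 - h.1 * (1 + I), h.2 - h.1 * (1 + I), h.2 - h.1 * (1 + I)) with hv
  have h4 : {w | B6_actT h w ∈ S} = (fun w => h.1 • w) ⁻¹' ((fun w => w + v) ⁻¹' S) := by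
    ext w
    have : B6_actT h w = h.1 • w + v := by
      unfold B6_actT B6_act
      rw [hv]
      ext <;> simp <;> ring
    change B6_actT h w ∈ S ↔ h.1 • w + v ∈ S
    rw [this]
  have h1 : ((volume : Measure ℂ).prod (volume : Measure ℂ)).IsAddHaarMeasure := inferInstance
  have h2 : ((volume : Measure ℂ).prod
      ((volume : Measure ℂ).prod (volume : Measure ℂ))).IsAddHaarMeasure :=
    Measure.prod.instIsAddHaarMeasure volume ((volume : Measure ℂ).prod (volume : Measure ℂ))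
  have h3 : (volume : Measure (ℂ × ℂ × ℂ)).IsAddHaarMeasure := h2
  rw [h4, Measure.addHaar_preimage_smul volume hh, hfin, measure_preimage_add_right]

theorem B6_actT_low (h : ℝ × ℂ) (hh : h ∈ B6_K) (S : Set (ℂ × ℂ × ℂ)) :
    ENNReal.ofReal (1 / 2 ^ 6) * volume S ≤ volume {w | B6_actT h w ∈ S} := by
  obtain ⟨⟨h1, h2⟩, -⟩ := hh
  rw [B6_actT_vol h (by linarith)]
  gcongr
  rw [abs_of_nonneg (by positivity), ← one_div]
  gcongr

/-! ### algebra -/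

/-- the normalised difference of two pullbacks -/
noncomputable def B6_v (b : ℂ → ℂ) (h₁ h : ℝ × ℂ) (z : ℂ) : ℂ :=
  ((h.1⁻¹ : ℝ) : ℂ) * b (B6_act h z) - ((h₁.1⁻¹ : ℝ) : ℂ) * b (B6_act h₁ z)

theorem B6_v_meas (b : ℂ → ℂ) (hb : Measurable b) (h₁ : ℝ × ℂ) :
    Measurable fun p : (ℝ × ℂ) × ℂ => B6_v b h₁ p.1 p.2 := by
  unfold B6_v
  have h1 : Measurable fun p : (ℝ × ℂ) × ℂ => B6_act h₁ p.2 :=
    B6_act_meas.comp (measurable_const.prodMk measurable_snd)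
  have h2 : Measurable fun p : (ℝ × ℂ) × ℂ => ((p.1.1⁻¹ : ℝ) : ℂ) := by fun_prop
  exact (h2.mul (hb.comp B6_act_meas)).sub ((hb.comp h1).const_mul _)

theorem B6_rel1 {γ : ℂ} {b : ℂ → ℂ} {F : ℂ → ℝ} {η : ℝ}
    (hF : ∀ t : ℝ, 0 < t → ∀ w : ℂ, F (t * w) = t ^ 2 * F w) {h : ℝ × ℂ} (hh : 1 ≤ h.1)
    {z y : ℂ}
    (hr : |ip (b (B6_act h z) - b (B6_act h y)) (γ * (B6_act h z - B6_act h y)) -
      F (B6_act h y - B6_act h z)| ≤ η) :
    |h.1⁻¹ * ip (b (B6_act h z) - b (B6_act h y)) (γ * (z - y)) - F (y - z)| ≤ η := by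
  rw [B6_act_sub, B6_act_sub, hF h.1 (by linarith), mul_left_comm, ip_mul_real_right] at hr
  set A := ip (b (B6_act h z) - b (B6_act h y)) (γ * (z - y))
  have hpos : 0 < h.1 := by linarith
  have e : h.1⁻¹ * A - F (y - z) = (h.1 ^ 2)⁻¹ * (h.1 * A - h.1 ^ 2 * F (y - z)) := by
    field_simp
  rw [e, abs_mul, abs_of_nonneg (by positivity : (0 : ℝ) ≤ (h.1 ^ 2)⁻¹)]
  have h1 : (h.1 ^ 2)⁻¹ ≤ 1 := inv_le_one_of_one_le₀ (by nlinarith)
  have h2 : (0 : ℝ) ≤ (h.1 ^ 2)⁻¹ := by positivity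
  calc _ ≤ 1 * η := mul_le_mul h1 hr (abs_nonneg _) (by norm_num)
    _ = η := one_mul η

theorem B6_rel {γ : ℂ} {b : ℂ → ℂ} {F : ℂ → ℝ} {η : ℝ}
    (hF : ∀ t : ℝ, 0 < t → ∀ w : ℂ, F (t * w) = t ^ 2 * F w) {h₁ h : ℝ × ℂ} (hh₁ : 1 ≤ h₁.1)
    (hh : 1 ≤ h.1) {z y : ℂ}
    (hr₁ : |ip (b (B6_act h₁ z) - b (B6_act h₁ y)) (γ * (B6_act h₁ z - B6_act h₁ y)) -
      F (B6_act h₁ y - B6_act h₁ z)| ≤ η)
    (hr : |ip (b (B6_act h z) - b (B6_act h y)) (γ * (B6_act h z - B6_act h y)) -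
      F (B6_act h y - B6_act h z)| ≤ η) :
    |ip (B6_v b h₁ h z - B6_v b h₁ h y) (γ * (z - y))| ≤ η * 2 := by
  have h1 := B6_rel1 hF hh₁ hr₁
  have h2 := B6_rel1 hF hh hr
  have e : ip (B6_v b h₁ h z - B6_v b h₁ h y) (γ * (z - y)) =
      (h.1⁻¹ * ip (b (B6_act h z) - b (B6_act h y)) (γ * (z - y)) - F (y - z)) -
      (h₁.1⁻¹ * ip (b (B6_act h₁ z) - b (B6_act h₁ y)) (γ * (z - y)) - F (y - z)) := by
    unfold B6_v
    rw [← ip_mul_real_left, ← ip_mul_real_left]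
    have : ((h.1⁻¹ : ℝ) : ℂ) * b (B6_act h z) - ((h₁.1⁻¹ : ℝ) : ℂ) * b (B6_act h₁ z) -
        (((h.1⁻¹ : ℝ) : ℂ) * b (B6_act h y) - ((h₁.1⁻¹ : ℝ) : ℂ) * b (B6_act h₁ y)) =
        ((h.1⁻¹ : ℝ) : ℂ) * (b (B6_act h z) - b (B6_act h y)) -
        ((h₁.1⁻¹ : ℝ) : ℂ) * (b (B6_act h₁ z) - b (B6_act h₁ y)) := by ring
    rw [this, ip_sub_left]
    ring
  rw [e]
  calc _ ≤ _ := abs_sub _ _
    _ ≤ η * 2 := by linarith

theorem B6_solve (e1 e2 w1 w2 : ℂ) (h : dt e1 e2 ≠ 0) :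
    ∃ P Q : ℂ, P * e1 + Q * conj e1 = w1 ∧ P * e2 + Q * conj e2 = w2 := by
  have hd : e1 * conj e2 - e2 * conj e1 ≠ 0 := by
    intro hc
    have h1 := congrArg Complex.im hc
    simp only [sub_im, mul_im, conj_re, conj_im, zero_im] at h1
    apply h
    unfold dt
    linarith
  refine ⟨(w1 * conj e2 - w2 * conj e1) / (e1 * conj e2 - e2 * conj e1),
    (w2 * e1 - w1 * e2) / (e1 * conj e2 - e2 * conj e1), ?_, ?_⟩
  · rw [div_mul_eq_mul_div, div_mul_eq_mul_div, ← add_div, div_eq_iff hd]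
    ring
  · rw [div_mul_eq_mul_div, div_mul_eq_mul_div, ← add_div, div_eq_iff hd]
    ring

/-! ### powers -/

section ar
open scoped ENNReal

theorem B6_ar {ε : ℝ} (h0 : 0 < ε) (h1 : ε ≤ 1 / 2) (k i j : ℕ) {V : ℝ≥0∞}
    (h : ENNReal.ofReal (ε ^ k) ≤ 2 ^ j * V + ENNReal.ofReal (ε ^ (k + i + 1)) * 2 ^ i) :
    ENNReal.ofReal (ε ^ (k + 1 + j)) ≤ V := by
  by_contra hc
  push Not at hc
  have hV : V ≠ ∞ := (hc.trans ENNReal.ofReal_lt_top).ne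
  obtain ⟨x, rfl⟩ : ∃ x : NNReal, V = x := ⟨V.toNNReal, (ENNReal.coe_toNNReal hV).symm⟩
  have h2 : (x : ℝ) < ε ^ (k + 1 + j) := by
    rw [← ENNReal.ofReal_coe_nnreal, ENNReal.ofReal_lt_ofReal_iff (by positivity)] at hc
    exact hc
  have h3 : ε ^ k ≤ 2 ^ j * x + ε ^ (k + i + 1) * 2 ^ i := by
    have e1 : (2 : ℝ≥0∞) ^ j * (x : ℝ≥0∞) = ENNReal.ofReal (2 ^ j * x) := by
      rw [ENNReal.ofReal_mul (by positivity), ENNReal.ofReal_pow (by norm_num),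
        ENNReal.ofReal_coe_nnreal]
      norm_num
    have e2 : ENNReal.ofReal (ε ^ (k + i + 1)) * 2 ^ i = ENNReal.ofReal (ε ^ (k + i + 1) * 2 ^ i) := by
      rw [ENNReal.ofReal_mul (by positivity), ENNReal.ofReal_pow (p := 2) (by norm_num)]
      norm_num
    rw [e1, e2, ← ENNReal.ofReal_add (by positivity) (by positivity),
      ENNReal.ofReal_le_ofReal_iff (by positivity)] at h
    exact h
  have p : ∀ n : ℕ, ε ^ n * 2 ^ n ≤ 1 := by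
    intro n
    rw [← mul_pow]
    exact pow_le_one₀ (by positivity) (by linarith)
  have h4 : ε ^ (k + i + 1) * 2 ^ i ≤ ε ^ (k + 1) := by
    have := p i
    calc ε ^ (k + i + 1) * 2 ^ i = ε ^ (k + 1) * (ε ^ i * 2 ^ i) := by ring
      _ ≤ ε ^ (k + 1) * 1 := by gcongr
      _ = _ := mul_one _
  have h5 : 2 ^ j * (x : ℝ) < ε ^ (k + 1) := by
    calc 2 ^ j * (x : ℝ) < 2 ^ j * ε ^ (k + 1 + j) := by gcongr
      _ = ε ^ (k + 1) * (ε ^ j * 2 ^ j) := by ring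
      _ ≤ ε ^ (k + 1) * 1 := by
        have := p j
        gcongr
      _ = _ := mul_one _
  have h6 : ε ^ (k + 1) + ε ^ (k + 1) ≤ ε ^ k := by
    have : 0 < ε ^ k := by positivity
    rw [pow_succ]
    nlinarith
  linarith

theorem B6_ar2 {ε : ℝ} (h0 : 0 < ε) (h1 : ε ≤ 1 / 2) (k j : ℕ) {V : ℝ≥0∞}
    (h : ENNReal.ofReal (ε ^ k) ≤ 2 ^ j * V) :
    ENNReal.ofReal (ε ^ (k + 1 + j)) ≤ V :=
  B6_ar h0 h1 k 0 j (h.trans le_self_add)

theorem B6_lt {ε : ℝ} (h0 : 0 < ε) (h1 : ε ≤ 1 / 2) (k i : ℕ) :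
    ENNReal.ofReal (ε ^ (k + i + 1)) * 2 ^ i < ENNReal.ofReal (ε ^ k) := by
  have e2 : ENNReal.ofReal (ε ^ (k + i + 1)) * 2 ^ i = ENNReal.ofReal (ε ^ (k + i + 1) * 2 ^ i) := by
    rw [ENNReal.ofReal_mul (by positivity), ENNReal.ofReal_pow (p := 2) (by norm_num)]
    norm_num
  rw [e2, ENNReal.ofReal_lt_ofReal_iff (by positivity)]
  have p : ε ^ i * 2 ^ i ≤ 1 := by
    rw [← mul_pow]
    exact pow_le_one₀ (by positivity) (by linarith)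
  calc ε ^ (k + i + 1) * 2 ^ i = ε ^ (k + 1) * (ε ^ i * 2 ^ i) := by ring
    _ ≤ ε ^ (k + 1) * 1 := by gcongr
    _ = ε ^ k * ε := by ring
    _ < ε ^ k * 1 := by
      have : 0 < ε ^ k := by positivity
      apply mul_lt_mul_of_pos_left (by linarith) this
    _ = _ := mul_one _

theorem B6_anti {ε : ℝ} (h0 : 0 < ε) (h1 : ε ≤ 1 / 2) {k l : ℕ} (h : k ≤ l) :
    ENNReal.ofReal (ε ^ l) ≤ ENNReal.ofReal (ε ^ k) :=
  ENNReal.ofReal_le_ofReal (pow_le_pow_of_le_one h0.le (by linarith) h)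

theorem B6_mulp {ε : ℝ} (h0 : 0 < ε) (k l : ℕ) :
    ENNReal.ofReal (ε ^ k) * ENNReal.ofReal (ε ^ l) = ENNReal.ofReal (ε ^ (k + l)) := by
  rw [← ENNReal.ofReal_mul (by positivity), pow_add]

end ar

/-! ### selection of the first map -/

section sel
open scoped ENNReal

theorem B6_Q2s (x : ℂ) (hx : x ∈ B6_Q2) : ‖x‖ ≤ 3 := by
  obtain ⟨h1, h2, h3, h4⟩ := hx
  have h : ‖x‖ ^ 2 ≤ 9 := by
    rw [← normSq_eq_norm_sq, normSq_apply]
    nlinarith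
  nlinarith [norm_nonneg x]

theorem B6_Q2v' : volume B6_Q2 = 2 ^ 2 := by
  rw [B6_Q2v]
  norm_num

theorem B6_Q6v : volume (B6_Q2 ×ˢ B6_Q2 ×ˢ B6_Q2) = 2 ^ 6 := by
  rw [Measure.volume_eq_prod, Measure.prod_prod, Measure.volume_eq_prod, Measure.prod_prod, B6_Q2v']
  norm_num

theorem B6_first {ε : ℝ} (h0 : 0 < ε) (h1 : ε ≤ 1 / 2) (S : Set (ℂ × ℂ × ℂ)) (hS : MeasurableSet S)
    (hu : ∀ w ∈ S, w.1 ∈ usq ∧ w.2.1 ∈ usq ∧ w.2.2 ∈ usq) (k : ℕ)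
    (hv : ENNReal.ofReal (ε ^ k) ≤ volume S) :
    ∃ h₁ ∈ B6_K, ENNReal.ofReal (ε ^ (2 * k + 30)) ≤ volume {p : (ℂ × ℂ × ℂ) × (ℝ × ℂ) |
      p.2 ∈ B6_K ∧ B6_actT p.2 p.1 ∈ S ∧ B6_actT h₁ p.1 ∈ S} := by
  set P : Set ((ℂ × ℂ × ℂ) × (ℝ × ℂ)) := {p | p.2 ∈ B6_K ∧ B6_actT p.2 p.1 ∈ S} with hP
  have hPm : MeasurableSet P := (measurable_snd B6_Km).inter (B6_actT_meas hS)
  have hA : ∀ x y, (x, y) ∈ P → x ∈ B6_Q2 ×ˢ B6_Q2 ×ˢ B6_Q2 := by
    rintro x y ⟨h3, h4⟩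
    have h5 := hu _ h4
    exact ⟨B6_act_mem h3 h5.1, B6_act_mem h3 h5.2.1, B6_act_mem h3 h5.2.2⟩
  have h2 : ENNReal.ofReal (ε ^ (k + 6)) ≤ volume P := by
    have e := B6_swap (volume : Measure (ℂ × ℂ × ℂ)) (volume : Measure (ℝ × ℂ)) P hPm
    have h3 := B6_low (volume : Measure (ℝ × ℂ)) (volume : Measure (ℂ × ℂ × ℂ))
      (measurable_swap hPm) B6_Km (t := ENNReal.ofReal (ε ^ (k + 6))) (fun h hh => by
        have h4 : {y | (h, y) ∈ (Prod.swap ⁻¹' P : Set ((ℝ × ℂ) × (ℂ × ℂ × ℂ)))} =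
            {w | B6_actT h w ∈ S} := by
          ext w
          exact ⟨fun e => e.2, fun e => ⟨hh, e⟩⟩
        rw [h4]
        refine le_trans ?_ (B6_actT_low h hh S)
        calc ENNReal.ofReal (ε ^ (k + 6)) = ENNReal.ofReal (ε ^ 6) * ENNReal.ofReal (ε ^ k) := by
              rw [B6_mulp h0, add_comm]
          _ ≤ _ := by
              gcongr
              calc ε ^ 6 ≤ (1 / 2) ^ 6 := by gcongr
                _ = 1 / 2 ^ 6 := by norm_num)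
    rw [B6_Kv, mul_one] at h3
    refine h3.trans (le_of_eq e)
  have hA' : MeasurableSet (B6_Q2 ×ˢ B6_Q2 ×ˢ B6_Q2) := B6_Q2m.prod (B6_Q2m.prod B6_Q2m)
  obtain ⟨h₁, hh₁, h3⟩ := B6_pair (volume : Measure (ℂ × ℂ × ℂ)) (volume : Measure (ℝ × ℂ)) hPm
    hA' B6_Km (ENNReal.ofReal (ε ^ (k + 6 + 1 + 6 + 1))) (ENNReal.ofReal (ε ^ (k + 6 + 1))) hA
    (fun x y h => h.1) (by
      rw [B6_Q6v, B6_Kv]
      refine lt_of_lt_of_le ?_ h2
      have e1 := B6_lt h0 h1 (k + 6 + 1) 6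
      have e2 : ENNReal.ofReal (ε ^ (k + 6 + 1)) + ENNReal.ofReal (ε ^ (k + 6 + 1)) ≤
          ENNReal.ofReal (ε ^ (k + 6)) := by
        rw [← ENNReal.ofReal_add (by positivity) (by positivity)]
        apply ENNReal.ofReal_le_ofReal
        have : 0 < ε ^ (k + 6) := by positivity
        rw [pow_succ ε (k + 6)]
        nlinarith
      refine lt_of_lt_of_le ?_ e2
      rw [mul_one]
      exact ENNReal.add_lt_add_right ENNReal.ofReal_ne_top e1)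
  refine ⟨h₁, hh₁, ?_⟩
  rw [B6_mulp h0] at h3
  refine (B6_anti h0 h1 (by omega)).trans (h3.trans (measure_mono ?_))
  rintro p ⟨⟨h4, h5⟩, h6, h7⟩
  exact ⟨h4, h5, h7⟩

theorem B6_second {ε : ℝ} (h0 : 0 < ε) (h1 : ε ≤ 1 / 2) (S : Set (ℂ × ℂ × ℂ)) (hS : MeasurableSet S)
    (hu : ∀ w ∈ S, w.1 ∈ usq ∧ w.2.1 ∈ usq ∧ w.2.2 ∈ usq) (k : ℕ) (h₁ : ℝ × ℂ)
    (hv : ENNReal.ofReal (ε ^ k) ≤ volume {p : (ℂ × ℂ × ℂ) × (ℝ × ℂ) |
      p.2 ∈ B6_K ∧ B6_actT p.2 p.1 ∈ S ∧ B6_actT h₁ p.1 ∈ S}) :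
    ENNReal.ofReal (ε ^ (k + 20)) ≤ volume {h : ℝ × ℂ | h ∈ B6_K ∧
      ENNReal.ofReal (ε ^ (k + 20)) ≤ volume {z : ℂ | z ∈ B6_Q2 ∧ ENNReal.ofReal (ε ^ (k + 20)) ≤
        volume {q : ℂ × ℂ | B6_actT h (z, q) ∈ S ∧ B6_actT h₁ (z, q) ∈ S}}} := by
  set T : Set ((ℂ × ℂ × ℂ) × (ℝ × ℂ)) := {p | p.2 ∈ B6_K ∧ B6_actT p.2 p.1 ∈ S ∧
    B6_actT h₁ p.1 ∈ S} with hT
  have hTm : MeasurableSet T := (measurable_snd B6_Km).inter ((B6_actT_meas hS).inter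
    ((B6_actT_meas.comp (measurable_fst.prodMk (measurable_const (a := h₁)))) hS))
  set T' : Set (((ℝ × ℂ) × ℂ) × (ℂ × ℂ)) := {p | ((p.1.2, p.2), p.1.1) ∈ T} with hT'
  have mp1 : MeasurePreserving (MeasurableEquiv.prodAssoc : ((ℝ × ℂ) × ℂ) × (ℂ × ℂ) ≃ᵐ
      (ℝ × ℂ) × ℂ × ℂ × ℂ) (((volume : Measure (ℝ × ℂ)).prod (volume : Measure ℂ)).prod
      (volume : Measure (ℂ × ℂ))) ((volume : Measure (ℝ × ℂ)).prod ((volume : Measure ℂ).prod
      (volume : Measure (ℂ × ℂ)))) := measurePreserving_prodAssoc _ _ _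
  have mp2 : MeasurePreserving (Prod.swap : (ℝ × ℂ) × (ℂ × ℂ × ℂ) → (ℂ × ℂ × ℂ) × (ℝ × ℂ))
      ((volume : Measure (ℝ × ℂ)).prod ((volume : Measure ℂ).prod (volume : Measure (ℂ × ℂ))))
      (((volume : Measure ℂ).prod (volume : Measure (ℂ × ℂ))).prod (volume : Measure (ℝ × ℂ))) :=
    Measure.measurePreserving_swap
  have mp := mp2.comp mp1
  have hT'e : T' = (Prod.swap ∘ (MeasurableEquiv.prodAssoc : ((ℝ × ℂ) × ℂ) × (ℂ × ℂ) ≃ᵐ
      (ℝ × ℂ) × ℂ × ℂ × ℂ)) ⁻¹' T := rfl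
  have hT'm : MeasurableSet T' := by
    rw [hT'e]
    exact mp.measurable hTm
  have hvT : (((volume : Measure (ℝ × ℂ)).prod (volume : Measure ℂ)).prod
      (volume : Measure (ℂ × ℂ))) T' = volume T := by
    rw [hT'e]
    exact mp.measure_preimage hTm.nullMeasurableSet
  have hAm : MeasurableSet (B6_K ×ˢ B6_Q2) := B6_Km.prod B6_Q2m
  have hAv : ((volume : Measure (ℝ × ℂ)).prod (volume : Measure ℂ)) (B6_K ×ˢ B6_Q2) = 2 ^ 2 := by
    rw [Measure.prod_prod, B6_Kv, B6_Q2v', one_mul]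
  have hin : ∀ h z q, ((h, z), q) ∈ T' → (h, z) ∈ B6_K ×ˢ B6_Q2 ∧ q ∈ B6_Q2 ×ˢ B6_Q2 := by
    rintro h z q ⟨h3, h4, h5⟩
    have h6 := hu _ h4
    exact ⟨⟨h3, B6_act_mem h3 h6.1⟩, B6_act_mem h3 h6.2.1, B6_act_mem h3 h6.2.2⟩
  have s1 := B6_popset ((volume : Measure (ℝ × ℂ)).prod (volume : Measure ℂ))
    (volume : Measure (ℂ × ℂ)) hT'm hAm (ENNReal.ofReal (ε ^ (k + 2 + 1))) (2 ^ 4)
    (fun x y h => (hin x.1 x.2 y h).1) (fun x _ => by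
      have : volume (B6_Q2 ×ˢ B6_Q2) = 2 ^ 4 := by
        rw [Measure.volume_eq_prod, Measure.prod_prod, B6_Q2v']
        norm_num
      rw [← this]
      exact measure_mono fun q hq => (hin x.1 x.2 q hq).2)
  rw [hvT, hAv] at s1
  have s2 := B6_ar h0 h1 k 2 4 (hv.trans s1)
  set Z : Set ((ℝ × ℂ) × ℂ) := {x | x ∈ B6_K ×ˢ B6_Q2 ∧
    ENNReal.ofReal (ε ^ (k + 2 + 1)) ≤ volume {y | (x, y) ∈ T'}} with hZ
  have hZm : MeasurableSet Z := hAm.inter (B6_slm (volume : Measure (ℂ × ℂ)) hT'm _)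
  have s3 := B6_popset (volume : Measure (ℝ × ℂ)) (volume : Measure ℂ) hZm B6_Km
    (ENNReal.ofReal (ε ^ (k + 1 + 4 + 0 + 1))) (2 ^ 2) (fun x y h => h.1.1) (fun x _ => by
      rw [← B6_Q2v']
      exact measure_mono fun z hz => hz.1.2)
  rw [B6_Kv] at s3
  have s4 := B6_ar h0 h1 (k + 1 + 4) 0 2 (s2.trans (by rwa [pow_zero]))
  refine (B6_anti h0 h1 (by omega)).trans (s4.trans (measure_mono ?_))
  rintro h ⟨hh, h3⟩
  refine ⟨hh, (B6_anti h0 h1 (by omega)).trans (h3.trans (measure_mono ?_))⟩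
  rintro z ⟨⟨-, hz⟩, h4⟩
  refine ⟨hz, (B6_anti h0 h1 (by omega)).trans (h4.trans (measure_mono ?_))⟩
  rintro q ⟨-, h5, h6⟩
  exact ⟨h5, h6⟩

end sel

/-! ### selection of the three points -/

section third
open scoped ENNReal

theorem B6_fin {S : Set ℂ} (hS : S ⊆ B6_Q2) : volume S ≠ ∞ :=
  ((measure_mono hS).trans_lt (by rw [B6_Q2v]; exact ENNReal.ofNat_lt_top)).ne

theorem B6_toreal {S : Set ℂ} (hS : S ⊆ B6_Q2) {r : ℝ} (hr : ENNReal.ofReal r ≤ volume S) :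
    r ≤ volume.real S :=
  (ENNReal.ofReal_le_iff_le_toReal (B6_fin hS)).mp hr

theorem B6_dt_meas : Measurable fun y : ℂ × ℂ × ℂ => |dt (y.2.1 - y.1) (y.2.2 - y.1)| := by
  unfold dt
  fun_prop

theorem B6_detv (C τ r : ℝ) (hC : volume.real {y : ℂ × ℂ × ℂ | ‖y.1‖ ≤ 3 ∧ ‖y.2.1‖ ≤ 3 ∧
    ‖y.2.2‖ ≤ 3 ∧ |dt (y.2.1 - y.1) (y.2.2 - y.1)| < τ} ≤ C * Real.sqrt τ)
    (hr : C * Real.sqrt τ ≤ r) :
    volume {y : ℂ × ℂ × ℂ | ‖y.1‖ ≤ 3 ∧ ‖y.2.1‖ ≤ 3 ∧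
      ‖y.2.2‖ ≤ 3 ∧ |dt (y.2.1 - y.1) (y.2.2 - y.1)| < τ} ≤ ENNReal.ofReal r := by
  have hsub : {y : ℂ × ℂ × ℂ | ‖y.1‖ ≤ 3 ∧ ‖y.2.1‖ ≤ 3 ∧
      ‖y.2.2‖ ≤ 3 ∧ |dt (y.2.1 - y.1) (y.2.2 - y.1)| < τ} ⊆
      Metric.closedBall (0 : ℂ) 3 ×ˢ (Metric.closedBall (0 : ℂ) 3 ×ˢ Metric.closedBall (0 : ℂ) 3) := by
    rintro y ⟨h1, h2, h3, -⟩
    refine ⟨?_, ?_, ?_⟩ <;> rw [mem_closedBall_zero_iff] <;> assumption
  have hfin : volume {y : ℂ × ℂ × ℂ | ‖y.1‖ ≤ 3 ∧ ‖y.2.1‖ ≤ 3 ∧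
      ‖y.2.2‖ ≤ 3 ∧ |dt (y.2.1 - y.1) (y.2.2 - y.1)| < τ} ≠ ∞ := by
    refine ((measure_mono hsub).trans_lt ?_).ne
    rw [Measure.volume_eq_prod, Measure.prod_prod, Measure.volume_eq_prod, Measure.prod_prod]
    have : volume (Metric.closedBall (0 : ℂ) 3) < ∞ := measure_closedBall_lt_top
    exact ENNReal.mul_lt_top this (ENNReal.mul_lt_top this this)
  rw [← ENNReal.ofReal_toReal hfin]
  exact ENNReal.ofReal_le_ofReal (hC.trans hr)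

theorem B6_third (γ : ℂ) (hγ : γ.im ≠ 0) (k : ℕ) : ∃ m : ℕ, ∀ ε : ℝ, 0 < ε → ε ≤ 1 / 2 →
    ∀ X : Set ℂ, MeasurableSet X → X ⊆ usq →
    ∀ E1 E2 : Set (ℂ × ℂ), MeasurableSet E1 → MeasurableSet E2 →
    (∀ x y, (x, y) ∈ E1 → y ∈ usq) → (∀ x y, (x, y) ∈ E2 → y ∈ usq) →
    ∀ b : ℂ → ℂ, Measurable b → ∀ F1 F2 : ℂ → ℝ,
    (∀ t : ℝ, 0 < t → ∀ w : ℂ, F1 (t * w) = t ^ 2 * F1 w) →
    (∀ t : ℝ, 0 < t → ∀ w : ℂ, F2 (t * w) = t ^ 2 * F2 w) → ∀ η : ℝ, 0 ≤ η →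
    (∀ x ∈ X, ∀ y, (x, y) ∈ E1 → |ip (b x - b y) (x - y) - F1 (y - x)| ≤ η) →
    (∀ x ∈ X, ∀ y, (x, y) ∈ E2 → |ip (b x - b y) (γ * (x - y)) - F2 (y - x)| ≤ η) →
    ∀ h₁ ∈ B6_K, ENNReal.ofReal (ε ^ k) ≤ volume {h : ℝ × ℂ | h ∈ B6_K ∧
      ENNReal.ofReal (ε ^ k) ≤ volume {z : ℂ | z ∈ B6_Q2 ∧ ENNReal.ofReal (ε ^ k) ≤
        volume {q : ℂ × ℂ |
          B6_actT h (z, q) ∈ {w : ℂ × ℂ × ℂ | w.1 ∈ X ∧ (w.1, w.2.1) ∈ E1 ∧ (w.1, w.2.2) ∈ E2} ∧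
          B6_actT h₁ (z, q) ∈
            {w : ℂ × ℂ × ℂ | w.1 ∈ X ∧ (w.1, w.2.1) ∈ E1 ∧ (w.1, w.2.2) ∈ E2}}}} →
    ∃ z : ℂ × ℂ × ℂ, ∃ H : Set (ℝ × ℂ), MeasurableSet H ∧ H ⊆ B6_K ∧
      ENNReal.ofReal (ε ^ m) ≤ volume H ∧ ε ^ m ≤ |dt (z.2.1 - z.1) (z.2.2 - z.1)| ∧
      ∀ h ∈ H, B6_act h z.1 ∈ X ∧ B6_act h z.2.1 ∈ X ∧ B6_act h z.2.2 ∈ X ∧
        ‖B6_v b h₁ h z.2.1 - B6_v b h₁ h z.1‖ ≤ η / ε ^ m ∧
        ‖B6_v b h₁ h z.2.2 - B6_v b h₁ h z.1‖ ≤ η / ε ^ m := by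
  obtain ⟨n, hn, hK⟩ := lemK γ hγ
  obtain ⟨C, hC, hdet⟩ := det_small 3
  obtain ⟨c, hc⟩ := pow_unbounded_of_one_lt C (one_lt_two)
  set a : ℕ := (k + 5) * n with ha
  refine ⟨2 * (3 * a + 1 + c) + k + 8 + a, fun ε h0 h1 X hX hXu E1 E2 hE1 hE2 hu1 hu2 b hb F1 F2
    hF1 hF2 η hη hr1 hr2 h₁ hh₁ hv => ?_⟩
  set S : Set (ℂ × ℂ × ℂ) := {w | w.1 ∈ X ∧ (w.1, w.2.1) ∈ E1 ∧ (w.1, w.2.2) ∈ E2} with hS
  have hSm : MeasurableSet S := by
    have m1 : Measurable fun w : ℂ × ℂ × ℂ => (w.1, w.2.1) := by fun_prop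
    have m2 : Measurable fun w : ℂ × ℂ × ℂ => (w.1, w.2.2) := by fun_prop
    exact (measurable_fst hX).inter ((m1 hE1).inter (m2 hE2))
  set t : ℝ≥0∞ := ENNReal.ofReal (ε ^ k) with ht
  -- measurability of the popular sets
  have hZm : MeasurableSet {x : (ℝ × ℂ) × ℂ | x.2 ∈ B6_Q2 ∧ t ≤ volume {q : ℂ × ℂ |
      B6_actT x.1 (x.2, q) ∈ S ∧ B6_actT h₁ (x.2, q) ∈ S}} := by
    have m1 : Measurable fun p : ((ℝ × ℂ) × ℂ) × (ℂ × ℂ) => B6_actT p.1.1 (p.1.2, p.2) := by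
      unfold B6_actT B6_act
      fun_prop
    have m2 : Measurable fun p : ((ℝ × ℂ) × ℂ) × (ℂ × ℂ) => B6_actT h₁ (p.1.2, p.2) := by
      unfold B6_actT B6_act
      fun_prop
    exact (measurable_snd B6_Q2m).inter (B6_slm (volume : Measure (ℂ × ℂ))
      (S := {p : ((ℝ × ℂ) × ℂ) × (ℂ × ℂ) | B6_actT p.1.1 (p.1.2, p.2) ∈ S ∧
        B6_actT h₁ (p.1.2, p.2) ∈ S}) ((m1 hSm).inter (m2 hSm)) t)
  set H1 : Set (ℝ × ℂ) := {h | h ∈ B6_K ∧ t ≤ volume {z : ℂ | z ∈ B6_Q2 ∧ t ≤ volume {q : ℂ × ℂ |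
      B6_actT h (z, q) ∈ S ∧ B6_actT h₁ (z, q) ∈ S}}} with hH1
  have hH1m : MeasurableSet H1 := B6_Km.inter (B6_slm (volume : Measure ℂ) hZm t)
  have hε1 : ε ≤ 1 := by linarith
  set τ : ℝ := ε ^ (2 * (3 * a + 1 + c)) with hτ
  set η1 : ℝ := η / ε ^ a with hη1
  set T : Set ((ℝ × ℂ) × (ℂ × ℂ × ℂ)) := {p | p.1 ∈ B6_K ∧ p.2.1 ∈ B6_Q2 ∧ p.2.2.1 ∈ B6_Q2 ∧
    p.2.2.2 ∈ B6_Q2 ∧ B6_act p.1 p.2.1 ∈ X ∧ B6_act p.1 p.2.2.1 ∈ X ∧ B6_act p.1 p.2.2.2 ∈ X ∧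
    ‖B6_v b h₁ p.1 p.2.2.1 - B6_v b h₁ p.1 p.2.1‖ ≤ η1 ∧
    ‖B6_v b h₁ p.1 p.2.2.2 - B6_v b h₁ p.1 p.2.1‖ ≤ η1 ∧
    τ ≤ |dt (p.2.2.1 - p.2.1) (p.2.2.2 - p.2.1)|} with hT
  have hTm : MeasurableSet T := by
    have q1 : Measurable fun p : (ℝ × ℂ) × (ℂ × ℂ × ℂ) => (p.1, p.2.1) := by fun_prop
    have q2 : Measurable fun p : (ℝ × ℂ) × (ℂ × ℂ × ℂ) => (p.1, p.2.2.1) := by fun_prop
    have q3 : Measurable fun p : (ℝ × ℂ) × (ℂ × ℂ × ℂ) => (p.1, p.2.2.2) := by fun_prop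
    have v1 := (B6_v_meas b hb h₁).comp q1
    have v2 := (B6_v_meas b hb h₁).comp q2
    have v3 := (B6_v_meas b hb h₁).comp q3
    have a1 := B6_act_meas.comp q1
    have a2 := B6_act_meas.comp q2
    have a3 := B6_act_meas.comp q3
    refine (measurable_fst B6_Km).inter (((measurable_fst.comp measurable_snd) B6_Q2m).inter
      (((measurable_fst.comp (measurable_snd.comp measurable_snd)) B6_Q2m).inter
      (((measurable_snd.comp (measurable_snd.comp measurable_snd)) B6_Q2m).inter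
      ((a1 hX).inter ((a2 hX).inter ((a3 hX).inter ?_))))))
    exact (measurableSet_le (v2.sub v1).norm measurable_const).inter
      ((measurableSet_le (v3.sub v1).norm measurable_const).inter
      (measurableSet_le measurable_const (B6_dt_meas.comp measurable_snd)))
  -- the exceptional set of small determinants
  have hτ0 : 0 < τ := by positivity
  have hτ1 : τ ≤ 1 := pow_le_one₀ h0.le hε1
  have hCε : C * ε ^ c ≤ 1 := by
    calc C * ε ^ c ≤ 2 ^ c * (1 / 2) ^ c := by gcongr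
      _ = 1 := by rw [← mul_pow]; norm_num
  have hsq : Real.sqrt τ = ε ^ (3 * a + 1 + c) := by
    rw [hτ, mul_comm 2, pow_mul, Real.sqrt_sq (by positivity)]
  have hD := B6_detv C τ (ε ^ (3 * a + 1)) (hdet τ hτ0 hτ1) (by
    rw [hsq, pow_add]
    calc C * (ε ^ (3 * a + 1) * ε ^ c) = ε ^ (3 * a + 1) * (C * ε ^ c) := by ring
      _ ≤ ε ^ (3 * a + 1) * 1 := by gcongr
      _ = _ := mul_one _)
  -- the slices
  have hslice : ∀ h ∈ H1, ENNReal.ofReal (ε ^ (3 * a + 1)) ≤ volume {z | (h, z) ∈ T} := by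
    rintro h ⟨hh, hvh⟩
    set Zh : Set ℂ := {z : ℂ | z ∈ B6_Q2 ∧ t ≤ volume {q : ℂ × ℂ |
      B6_actT h (z, q) ∈ S ∧ B6_actT h₁ (z, q) ∈ S}} with hZh
    have hZhm : MeasurableSet Zh := by
      have := measurable_prodMk_left (x := h) hZm
      exact this
    have hZq : Zh ⊆ B6_Q2 := fun z hz => hz.1
    have hl : 1 ≤ h.1 := hh.1.1
    have hl₁ : 1 ≤ h₁.1 := hh₁.1.1
    set E1' : Set (ℂ × ℂ) := {p | p.2 ∈ B6_Q2 ∧ (B6_act h p.1, B6_act h p.2) ∈ E1 ∧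
      (B6_act h₁ p.1, B6_act h₁ p.2) ∈ E1} with hE1'
    set E2' : Set (ℂ × ℂ) := {p | p.2 ∈ B6_Q2 ∧ (B6_act h p.1, B6_act h p.2) ∈ E2 ∧
      (B6_act h₁ p.1, B6_act h₁ p.2) ∈ E2} with hE2'
    have hact : ∀ g : ℝ × ℂ, Measurable fun p : ℂ × ℂ => (B6_act g p.1, B6_act g p.2) := by
      intro g
      unfold B6_act
      fun_prop
    have hE1m : MeasurableSet E1' := (measurable_snd B6_Q2m).inter
      ((hact h hE1).inter (hact h₁ hE1))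
    have hE2m : MeasurableSet E2' := (measurable_snd B6_Q2m).inter
      ((hact h hE2).inter (hact h₁ hE2))
    have hX' : ∀ z ∈ Zh, B6_act h z ∈ X ∧ B6_act h₁ z ∈ X := by
      rintro z ⟨hz, hz'⟩
      have h3 : {q : ℂ × ℂ | B6_actT h (z, q) ∈ S ∧ B6_actT h₁ (z, q) ∈ S}.Nonempty := by
        by_contra hc
        rw [not_nonempty_iff_eq_empty] at hc
        rw [hc, measure_empty] at hz'
        have : t ≤ 0 := hz'
        rw [ht, nonpos_iff_eq_zero, ENNReal.ofReal_eq_zero] at this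
        exact absurd this (not_le.mpr (by positivity))
      obtain ⟨q, hq1, hq2⟩ := h3
      exact ⟨hq1.1, hq2.1⟩
    have hsl1 : ∀ z ∈ Zh, ENNReal.ofReal (ε ^ (k + 3)) ≤ volume {y | (z, y) ∈ E1'} := by
      rintro z ⟨hz, hz'⟩
      apply B6_ar2 h0 h1 k 2
      refine hz'.trans ?_
      have h4 : {q : ℂ × ℂ | B6_actT h (z, q) ∈ S ∧ B6_actT h₁ (z, q) ∈ S} ⊆
          {y | (z, y) ∈ E1'} ×ˢ B6_Q2 := by
        rintro q ⟨q1, q2⟩
        have y1 := hu1 _ _ q1.2.1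
        have y2 := hu2 _ _ q1.2.2
        exact ⟨⟨B6_act_mem hh y1, q1.2.1, q2.2.1⟩, B6_act_mem hh y2⟩
      refine (measure_mono h4).trans ?_
      rw [Measure.volume_eq_prod, Measure.prod_prod, B6_Q2v', mul_comm]
    have hsl2 : ∀ z ∈ Zh, ENNReal.ofReal (ε ^ (k + 3)) ≤ volume {y | (z, y) ∈ E2'} := by
      rintro z ⟨hz, hz'⟩
      apply B6_ar2 h0 h1 k 2
      refine hz'.trans ?_
      have h4 : {q : ℂ × ℂ | B6_actT h (z, q) ∈ S ∧ B6_actT h₁ (z, q) ∈ S} ⊆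
          B6_Q2 ×ˢ {y | (z, y) ∈ E2'} := by
        rintro q ⟨q1, q2⟩
        have y1 := hu1 _ _ q1.2.1
        have y2 := hu2 _ _ q1.2.2
        exact ⟨B6_act_mem hh y1, B6_act_mem hh y2, q1.2.2, q2.2.2⟩
      refine (measure_mono h4).trans ?_
      rw [Measure.volume_eq_prod, Measure.prod_prod, B6_Q2v']
    have hpow : ε ^ (k + 5) * 2 ^ 2 ≤ ε ^ (k + 3) := by
      have h5 : ε ^ 2 * 2 ^ 2 ≤ 1 := by
        rw [← mul_pow]
        exact pow_le_one₀ (by positivity) (by linarith)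
      calc ε ^ (k + 5) * 2 ^ 2 = ε ^ (k + 3) * (ε ^ 2 * 2 ^ 2) := by ring
        _ ≤ ε ^ (k + 3) * 1 := by gcongr
        _ = _ := mul_one _
    have hpow2 : ε ^ (k + 3) ≤ ε ^ k := pow_le_pow_of_le_one h0.le hε1 (by omega)
    obtain ⟨X', hX'm, hX's, hX'v, hX'b⟩ := hK (ε ^ (k + 5)) (by positivity)
      ((pow_le_of_le_one h0.le hε1 (by omega)).trans h1) 2 (by norm_num) (0, 0) Zh hZhm
      (fun z hz => (B6_Q2c z).mpr hz.1) (hpow.trans (hpow2.trans (B6_toreal hZq hvh)))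
      E1' E2' hE1m hE2m (fun x y hxy => (B6_Q2c y).mpr hxy.1)
      (fun x y hxy => (B6_Q2c y).mpr hxy.1)
      (fun z hz => hpow.trans (B6_toreal (fun y hy => hy.1) (hsl1 z hz)))
      (fun z hz => hpow.trans (B6_toreal (fun y hy => hy.1) (hsl2 z hz)))
      (fun z => B6_v b h₁ h z) ((B6_v_meas b hb h₁).comp (measurable_const.prodMk measurable_id))
      η hη (by
        intro z hz y hzy
        have h6 := hX' z hz
        have := B6_rel (γ := 1) (b := b) (F := F1) (η := η) hF1 hl₁ hl (z := z) (y := y)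
          (by rw [one_mul]; exact hr1 _ h6.2 _ hzy.2.2) (by rw [one_mul]; exact hr1 _ h6.1 _ hzy.2.1)
        rwa [one_mul] at this) (by
        intro z hz y hzy
        have h6 := hX' z hz
        exact B6_rel hF2 hl₁ hl (hr2 _ h6.2 _ hzy.2.2) (hr2 _ h6.1 _ hzy.2.1))
    have hX'v' : ENNReal.ofReal (ε ^ a) ≤ volume X' := by
      apply ENNReal.ofReal_le_of_le_toReal
      refine le_trans ?_ hX'v
      rw [← pow_mul]
      have : 0 ≤ ε ^ ((k + 5) * n) := by positivity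
      nlinarith
    have hcube : ENNReal.ofReal (ε ^ (3 * a)) ≤ volume (X' ×ˢ (X' ×ˢ X')) := by
      rw [Measure.volume_eq_prod, Measure.prod_prod, Measure.volume_eq_prod, Measure.prod_prod,
        show 3 * a = a + (a + a) by ring, ← B6_mulp h0, ← B6_mulp h0]
      gcongr
    have hsub : X' ×ˢ (X' ×ˢ X') ⊆ {z | (h, z) ∈ T} ∪ {y : ℂ × ℂ × ℂ | ‖y.1‖ ≤ 3 ∧ ‖y.2.1‖ ≤ 3 ∧
        ‖y.2.2‖ ≤ 3 ∧ |dt (y.2.1 - y.1) (y.2.2 - y.1)| < τ} := by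
      rintro y ⟨y1, y2, y3⟩
      have b1 := hX'b _ y2 _ y1
      have b2 := hX'b _ y3 _ y1
      rw [← pow_mul] at b1 b2
      by_cases hy : |dt (y.2.1 - y.1) (y.2.2 - y.1)| < τ
      · right
        exact ⟨B6_Q2s _ (hX's y1).1, B6_Q2s _ (hX's y2).1, B6_Q2s _ (hX's y3).1, hy⟩
      · left
        exact ⟨hh, (hX's y1).1, (hX's y2).1, (hX's y3).1, (hX' _ (hX's y1)).1,
          (hX' _ (hX's y2)).1, (hX' _ (hX's y3)).1, b1, b2, not_lt.mp hy⟩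
    have h7 := hcube.trans ((measure_mono hsub).trans (measure_union_le _ _))
    apply B6_ar h0 h1 (3 * a) 0 0
    refine h7.trans ?_
    rw [pow_zero, one_mul, mul_one, add_zero]
    gcongr
  have hlow := B6_low (volume : Measure (ℝ × ℂ)) (volume : Measure (ℂ × ℂ × ℂ)) hTm hH1m
    (t := ENNReal.ofReal (ε ^ (3 * a + 1))) hslice
  have hTv : ENNReal.ofReal (ε ^ (3 * a + 1 + k)) ≤
      ((volume : Measure (ℝ × ℂ)).prod (volume : Measure (ℂ × ℂ × ℂ))) T := by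
    refine le_trans ?_ hlow
    rw [← B6_mulp h0]
    gcongr
  rw [← B6_swap _ _ T hTm] at hTv
  obtain ⟨z, hz, hzH⟩ := B6_sel (volume : Measure (ℂ × ℂ × ℂ)) (volume : Measure (ℝ × ℂ))
    (measurable_swap hTm) (B6_Q2m.prod (B6_Q2m.prod B6_Q2m))
    (t := ENNReal.ofReal (ε ^ (3 * a + 1 + k + 6 + 1)))
    (fun z h hzh => ⟨hzh.2.1, hzh.2.2.1, hzh.2.2.2.1⟩) (by
      rw [B6_Q6v]
      exact (B6_lt h0 h1 _ 6).trans_le hTv)
  have hHm : MeasurableSet {h : ℝ × ℂ | (h, z) ∈ T} := measurable_prodMk_right hTm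
  have hne : {h : ℝ × ℂ | (h, z) ∈ T}.Nonempty := by
    by_contra hc
    rw [not_nonempty_iff_eq_empty] at hc
    have h8 : {y | (z, y) ∈ Prod.swap ⁻¹' T} = {h : ℝ × ℂ | (h, z) ∈ T} := rfl
    rw [h8, hc, measure_empty, nonpos_iff_eq_zero, ENNReal.ofReal_eq_zero] at hzH
    exact absurd hzH (not_le.mpr (by positivity))
  have hηa : η1 ≤ η / ε ^ (2 * (3 * a + 1 + c) + k + 8 + a) := by
    rw [hη1]
    exact div_le_div_of_nonneg_left hη (by positivity)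
      (pow_le_pow_of_le_one h0.le hε1 (by omega))
  refine ⟨z, {h | (h, z) ∈ T}, hHm, fun h hh => hh.1, ?_, ?_, ?_⟩
  · exact (B6_anti h0 h1 (by omega)).trans hzH
  · obtain ⟨h, hh⟩ := hne
    refine le_trans ?_ hh.2.2.2.2.2.2.2.2.2
    exact pow_le_pow_of_le_one h0.le hε1 (by omega)
  · intro h hh
    exact ⟨hh.2.2.2.2.1, hh.2.2.2.2.2.1, hh.2.2.2.2.2.2.1, hh.2.2.2.2.2.2.2.1.trans hηa,
      hh.2.2.2.2.2.2.2.2.1.trans hηa⟩

end third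

/-! ### conclusion at unit scale -/

section fin
open scoped ENNReal

theorem B6_lin (e1 e2 x0 : ℂ) (h : dt e1 e2 ≠ 0) (S : Set ℂ) (hS : MeasurableSet S) :
    ENNReal.ofReal |dt e1 e2| * volume {p : ℝ × ℝ | x0 - p.1 * e2 + p.2 * e1 ∈ S} = volume S := by
  set f : ℝ × ℝ →ₗ[ℝ] ℝ × ℝ := Matrix.toLin (Module.Basis.finTwoProd ℝ) (Module.Basis.finTwoProd ℝ)
    !![-e2.re, e1.re; -e2.im, e1.im] with hf
  have hdet : LinearMap.det f = dt e1 e2 := by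
    rw [hf, LinearMap.det_toLin, Matrix.det_fin_two_of]
    unfold dt
    ring
  have hfa : ∀ p : ℝ × ℝ, f p = (-e2.re * p.1 + e1.re * p.2, -e2.im * p.1 + e1.im * p.2) := by
    intro p
    rw [hf, Matrix.toLin_finTwoProd_apply]
  set g : ℝ × ℝ → ℂ := fun p => x0 + Complex.measurableEquivRealProd.symm p with hg
  have hg' : MeasurePreserving g volume volume :=
    (measurePreserving_add_left volume x0).comp
      (Complex.volume_preserving_equiv_real_prod.symm _)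
  have hset : {p : ℝ × ℝ | x0 - p.1 * e2 + p.2 * e1 ∈ S} = f ⁻¹' (g ⁻¹' S) := by
    ext p
    change x0 - p.1 * e2 + p.2 * e1 ∈ S ↔ g (f p) ∈ S
    have : g (f p) = x0 - p.1 * e2 + p.2 * e1 := by
      rw [hfa, hg]
      apply Complex.ext
      · simp [Complex.measurableEquivRealProd]
        ring
      · simp [Complex.measurableEquivRealProd]
        ring
    rw [this]
  have hd : LinearMap.det f ≠ 0 := by rw [hdet]; exact h
  rw [hset, Measure.addHaar_preimage_linearMap volume hd, hdet, hg'.measure_preimage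
    hS.nullMeasurableSet, ← mul_assoc, ← ENNReal.ofReal_mul (abs_nonneg _), ← abs_mul,
    mul_inv_cancel₀ h, abs_one, ENNReal.ofReal_one, one_mul]

theorem B6_shear (e : ℂ) : MeasurePreserving (fun g : ℝ × ℂ => (g.1, g.2 - g.1 * e))
    ((volume : Measure ℝ).prod (volume : Measure ℂ))
    ((volume : Measure ℝ).prod (volume : Measure ℂ)) := by
  apply MeasurePreserving.skew_product (f := id) (g := fun (a : ℝ) (b : ℂ) => b - (a : ℂ) * e)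
    (MeasurePreserving.id volume)
  · fun_prop
  · filter_upwards with a
    exact (measurePreserving_sub_right volume ((a : ℂ) * e)).map_eq

theorem B6_last {ε : ℝ} (h0 : 0 < ε) (h1 : ε ≤ 1 / 2) (X : Set ℂ) (hX : MeasurableSet X)
    (hXu : X ⊆ usq) (b : ℂ → ℂ) (hb : Measurable b) (h₁ : ℝ × ℂ) (z : ℂ × ℂ × ℂ)
    (H : Set (ℝ × ℂ)) (hH : MeasurableSet H) (hHK : H ⊆ B6_K) (m : ℕ)
    (hv : ENNReal.ofReal (ε ^ m) ≤ volume H) (hd : ε ^ m ≤ |dt (z.2.1 - z.1) (z.2.2 - z.1)|)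
    (η : ℝ) (hr : ∀ h ∈ H, B6_act h z.1 ∈ X ∧ B6_act h z.2.1 ∈ X ∧ B6_act h z.2.2 ∈ X ∧
        ‖B6_v b h₁ h z.2.1 - B6_v b h₁ h z.1‖ ≤ η ∧
        ‖B6_v b h₁ h z.2.2 - B6_v b h₁ h z.1‖ ≤ η) :
    ∃ (β P Q : ℂ) (X' : Set ℂ), MeasurableSet X' ∧ X' ⊆ X ∧
      ENNReal.ofReal (ε ^ (3 * m + 5)) ≤ volume X' ∧
      ∀ x ∈ X', ‖b x - (β + P * x + Q * conj x)‖ ≤ 8 * η := by
  set e1 : ℂ := z.2.1 - z.1 with he1
  set e2 : ℂ := z.2.2 - z.1 with he2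
  have hd0 : dt e1 e2 ≠ 0 := by
    intro hc
    rw [hc, abs_zero] at hd
    exact absurd hd (not_le.mpr (by positivity))
  obtain ⟨P, Q, hP1, hP2⟩ := B6_solve e1 e2
    (((h₁.1⁻¹ : ℝ) : ℂ) * (b (B6_act h₁ z.2.1) - b (B6_act h₁ z.1)))
    (((h₁.1⁻¹ : ℝ) : ℂ) * (b (B6_act h₁ z.2.2) - b (B6_act h₁ z.1))) hd0
  set c : ℂ → ℂ := fun x => b x - (P * x + Q * conj x) with hc
  have hcm : Measurable c := by
    have m1 : Measurable fun x : ℂ => P * x + Q * conj x := by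
      have : Continuous fun x : ℂ => P * x + Q * conj x := by fun_prop
      exact this.measurable
    exact hb.sub m1
  have key : ∀ h ∈ H, ∀ y : ℂ, ‖B6_v b h₁ h y - B6_v b h₁ h z.1‖ ≤ η →
      P * (y - z.1) + Q * conj (y - z.1) = ((h₁.1⁻¹ : ℝ) : ℂ) *
        (b (B6_act h₁ y) - b (B6_act h₁ z.1)) →
      ‖c (B6_act h y) - c (B6_act h z.1)‖ ≤ 2 * η := by
    intro h hh y hy hy'
    have hl1 : 1 ≤ h.1 := (hHK hh).1.1
    have hl2 : h.1 ≤ 2 := (hHK hh).1.2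
    have hne : (h.1 : ℂ) ≠ 0 := by
      rw [Ne, ofReal_eq_zero]
      linarith
    have e : c (B6_act h y) - c (B6_act h z.1) =
        h.1 * (B6_v b h₁ h y - B6_v b h₁ h z.1) := by
      have e3 : B6_act h y = B6_act h z.1 + h.1 * (y - z.1) := by
        rw [← B6_act_sub]
        ring
      have e4 : c (B6_act h y) - c (B6_act h z.1) = b (B6_act h y) - b (B6_act h z.1) -
          h.1 * (P * (y - z.1) + Q * conj (y - z.1)) := by
        have e5 : P * B6_act h y + Q * conj (B6_act h y) =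
            P * B6_act h z.1 + Q * conj (B6_act h z.1) +
              h.1 * (P * (y - z.1) + Q * conj (y - z.1)) := by
          rw [e3]
          simp only [map_add, map_mul, map_sub, conj_ofReal]
          ring
        rw [hc]
        dsimp only
        rw [e5]
        ring
      rw [e4, hy']
      unfold B6_v
      push_cast
      field_simp
      ring
    rw [e, norm_mul, norm_real, Real.norm_eq_abs, abs_of_nonneg (by linarith)]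
    have := norm_nonneg (B6_v b h₁ h y - B6_v b h₁ h z.1)
    nlinarith
  -- the set of pairs (x, l)
  set z0 : ℂ := z.1 - (1 + I) with hz0
  set S : Set (ℂ × ℝ) := {p | (p.2, p.1 - p.2 * z0) ∈ H} with hS
  have hmp : MeasurePreserving (fun p : ℂ × ℝ => (p.2, p.1 - p.2 * z0))
      ((volume : Measure ℂ).prod (volume : Measure ℝ))
      ((volume : Measure ℝ).prod (volume : Measure ℂ)) := by
    have hsk := B6_shear z0
    have hsw : MeasurePreserving (Prod.swap : ℂ × ℝ → ℝ × ℂ)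
        ((volume : Measure ℂ).prod (volume : Measure ℝ))
        ((volume : Measure ℝ).prod (volume : Measure ℂ)) := Measure.measurePreserving_swap
    exact hsk.comp hsw
  have hSm : MeasurableSet S := hmp.measurable hH
  have hSv : ENNReal.ofReal (ε ^ m) ≤ ((volume : Measure ℂ).prod (volume : Measure ℝ)) S := by
    have : ((volume : Measure ℂ).prod (volume : Measure ℝ)) S = volume H :=
      hmp.measure_preimage hH.nullMeasurableSet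
    rw [this]
    exact hv
  have hSp : ∀ x : ℂ, ∀ l : ℝ, (x, l) ∈ S → x ∈ X ∧ x + l * e1 ∈ X ∧ x + l * e2 ∈ X ∧
      ‖c (x + l * e1) - c x‖ ≤ 2 * η ∧ ‖c (x + l * e2) - c x‖ ≤ 2 * η := by
    intro x l hx
    have hx' : ((l, x - l * z0) : ℝ × ℂ) ∈ H := hx
    obtain ⟨r1, r2, r3, r4, r5⟩ := hr _ hx'
    have a1 : B6_act (l, x - l * z0) z.1 = x := by
      unfold B6_act
      rw [hz0]
      ring
    have a2 : B6_act (l, x - l * z0) z.2.1 = x + l * e1 := by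
      unfold B6_act
      rw [hz0, he1]
      ring
    have a3 : B6_act (l, x - l * z0) z.2.2 = x + l * e2 := by
      unfold B6_act
      rw [hz0, he2]
      ring
    have k1 := key _ hx' _ r4 hP1
    have k2 := key _ hx' _ r5 hP2
    rw [a1] at r1 k1 k2
    rw [a2] at r2 k1
    rw [a3] at r3 k2
    exact ⟨r1, r2, r3, k1, k2⟩
  -- popular x
  have hpop := B6_pop (volume : Measure ℂ) (volume : Measure ℝ) hSm B6_usqm
    (ENNReal.ofReal (ε ^ (m + 0 + 1))) (fun x l h => hXu (hSp x l h).1)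
  set S' : Set (ℂ × ℝ) := {p | p ∈ S ∧ ENNReal.ofReal (ε ^ (m + 0 + 1)) ≤
    volume {y | (p.1, y) ∈ S}} with hS'
  have hS'm : MeasurableSet S' :=
    hSm.inter (measurable_fst (B6_slm (volume : Measure ℝ) hSm _))
  have hS'v : ENNReal.ofReal (ε ^ (m + 1 + 0)) ≤
      ((volume : Measure ℂ).prod (volume : Measure ℝ)) S' := by
    apply B6_ar h0 h1 m 0 0
    rw [pow_zero, one_mul]
    refine hSv.trans (hpop.trans ?_)
    rw [B6_usqv]
  -- shear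
  set S2 : Set (ℂ × ℝ) := {p | (p.1 - p.2 * e2, p.2) ∈ S'} with hS2
  have hmp2 : MeasurePreserving (fun p : ℂ × ℝ => (p.1 - p.2 * e2, p.2))
      ((volume : Measure ℂ).prod (volume : Measure ℝ))
      ((volume : Measure ℂ).prod (volume : Measure ℝ)) := by
    have hsk := B6_shear e2
    have hsw : MeasurePreserving (Prod.swap : ℂ × ℝ → ℝ × ℂ)
        ((volume : Measure ℂ).prod (volume : Measure ℝ))
        ((volume : Measure ℝ).prod (volume : Measure ℂ)) := Measure.measurePreserving_swap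
    have hsw2 : MeasurePreserving (Prod.swap : ℝ × ℂ → ℂ × ℝ)
        ((volume : Measure ℝ).prod (volume : Measure ℂ))
        ((volume : Measure ℂ).prod (volume : Measure ℝ)) := Measure.measurePreserving_swap
    exact hsw2.comp (hsk.comp hsw)
  have hS2m : MeasurableSet S2 := hmp2.measurable hS'm
  have hS2v : ((volume : Measure ℂ).prod (volume : Measure ℝ)) S2 =
      ((volume : Measure ℂ).prod (volume : Measure ℝ)) S' :=
    hmp2.measure_preimage hS'm.nullMeasurableSet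
  obtain ⟨x0, hx0, hx0v⟩ := B6_sel (volume : Measure ℂ) (volume : Measure ℝ) hS2m B6_usqm
    (t := ENNReal.ofReal (ε ^ (m + 1 + 0 + 0 + 1))) (fun x l h => by
      have h2 := (hSp _ _ h.1).2.2.1
      apply hXu
      have e : x - l * e2 + l * e2 = x := by ring
      rwa [e] at h2) (by
      rw [B6_usqv, hS2v, mul_one]
      refine lt_of_lt_of_le ?_ hS'v
      have := B6_lt h0 h1 (m + 1 + 0) 0
      rwa [pow_zero, mul_one] at this)
  set Y : Set (ℝ × ℝ) := {p | (x0, p.1) ∈ S2 ∧ (x0 - p.1 * e2, p.2) ∈ S} with hY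
  have hYm : MeasurableSet Y := by
    have m1 : Measurable fun p : ℝ × ℝ => (x0, p.1) := by fun_prop
    have m2 : Measurable fun p : ℝ × ℝ => (x0 - p.1 * e2, p.2) := by fun_prop
    exact (m1 hS2m).inter (m2 hSm)
  have hYv := B6_low (volume : Measure ℝ) (volume : Measure ℝ) hYm
    (A := {l | (x0, l) ∈ S2}) (measurable_prodMk_left hS2m)
    (t := ENNReal.ofReal (ε ^ (m + 0 + 1))) (fun l hl => by
      have hl' : (x0 - l * e2, l) ∈ S' := hl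
      refine hl'.2.trans (measure_mono fun y hy => ?_)
      exact ⟨hl, hy⟩)
  set X' : Set ℂ := {x | x ∈ X ∧ ‖c x - c x0‖ ≤ 8 * η} with hX'
  have hX'm : MeasurableSet X' :=
    hX.inter (measurableSet_le (hcm.sub measurable_const).norm measurable_const)
  have hYsub : Y ⊆ {p : ℝ × ℝ | x0 - p.1 * e2 + p.2 * e1 ∈ X'} := by
    rintro p ⟨hp1, hp2⟩
    have hp1' : (x0 - p.1 * e2, p.1) ∈ S' := hp1
    obtain ⟨-, -, -, -, q1⟩ := hSp _ _ hp1'.1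
    obtain ⟨-, q2, -, q3, -⟩ := hSp _ _ hp2
    refine ⟨q2, ?_⟩
    have e : x0 - p.1 * e2 + p.1 * e2 = x0 := by ring
    rw [e] at q1
    have e5 : c (x0 - p.1 * e2 + p.2 * e1) - c x0 =
        (c (x0 - p.1 * e2 + p.2 * e1) - c (x0 - p.1 * e2)) - (c x0 - c (x0 - p.1 * e2)) := by
      ring
    have h8 : 0 ≤ 2 * η := (norm_nonneg _).trans q1
    rw [e5]
    calc _ ≤ _ := norm_sub_le _ _
      _ ≤ 8 * η := by linarith
  have hfinal : ENNReal.ofReal (ε ^ (3 * m + 5)) ≤ volume X' := by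
    rw [← B6_lin e1 e2 x0 hd0 X' hX'm]
    calc ENNReal.ofReal (ε ^ (3 * m + 5)) ≤ ENNReal.ofReal (ε ^ m) *
          (ENNReal.ofReal (ε ^ (m + 0 + 1)) * ENNReal.ofReal (ε ^ (m + 1 + 0 + 0 + 1))) := by
          rw [B6_mulp h0, B6_mulp h0]
          exact B6_anti h0 h1 (by omega)
      _ ≤ _ := by
          refine mul_le_mul' (ENNReal.ofReal_le_ofReal hd) ?_
          refine le_trans ?_ (measure_mono hYsub)
          refine le_trans ?_ hYv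
          gcongr
  refine ⟨c x0, P, Q, X', hX'm, fun x hx => hx.1, hfinal, ?_⟩
  intro x hx
  have e : b x - (c x0 + P * x + Q * conj x) = c x - c x0 := by
    rw [hc]
    ring
  rw [e]
  exact hx.2

theorem B6_unit (γ : ℂ) (hγ : γ.im ≠ 0) : ∃ n : ℕ, 1 ≤ n ∧ ∀ ε : ℝ, 0 < ε → ε ≤ 1 / 2 →
    ∀ X : Set ℂ, MeasurableSet X → X ⊆ usq → ε ≤ volume.real X →
    ∀ E1 E2 : Set (ℂ × ℂ), MeasurableSet E1 → MeasurableSet E2 →
    (∀ x y, (x, y) ∈ E1 → y ∈ usq) → (∀ x y, (x, y) ∈ E2 → y ∈ usq) →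
    (∀ x ∈ X, ε ≤ volume.real {y | (x, y) ∈ E1}) →
    (∀ x ∈ X, ε ≤ volume.real {y | (x, y) ∈ E2}) →
    ∀ b : ℂ → ℂ, Measurable b → ∀ F1 F2 : ℂ → ℝ,
    (∀ t : ℝ, 0 < t → ∀ w : ℂ, F1 (t * w) = t ^ 2 * F1 w) →
    (∀ t : ℝ, 0 < t → ∀ w : ℂ, F2 (t * w) = t ^ 2 * F2 w) → ∀ η : ℝ, 0 ≤ η →
    (∀ x ∈ X, ∀ y, (x, y) ∈ E1 → |ip (b x - b y) (x - y) - F1 (y - x)| ≤ η) →
    (∀ x ∈ X, ∀ y, (x, y) ∈ E2 → |ip (b x - b y) (γ * (x - y)) - F2 (y - x)| ≤ η) →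
    ∃ (β P Q : ℂ) (X' : Set ℂ), MeasurableSet X' ∧ X' ⊆ X ∧ ε ^ n ≤ volume.real X' ∧
      ∀ x ∈ X', ‖b x - (β + P * x + Q * conj x)‖ ≤ η / ε ^ n := by
  obtain ⟨m, hm⟩ := B6_third γ hγ (2 * 3 + 30 + 20)
  refine ⟨3 * m + 5, by omega, fun ε h0 h1 X hX hXu hXv E1 E2 hE1 hE2 hu1 hu2 hv1 hv2 b hb F1 F2
    hF1 hF2 η hη hr1 hr2 => ?_⟩
  have hε1 : ε ≤ 1 := by linarith
  set S : Set (ℂ × ℂ × ℂ) := {w | w.1 ∈ X ∧ (w.1, w.2.1) ∈ E1 ∧ (w.1, w.2.2) ∈ E2} with hS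
  have hSm : MeasurableSet S := by
    have m1 : Measurable fun w : ℂ × ℂ × ℂ => (w.1, w.2.1) := by fun_prop
    have m2 : Measurable fun w : ℂ × ℂ × ℂ => (w.1, w.2.2) := by fun_prop
    exact (measurable_fst hX).inter ((m1 hE1).inter (m2 hE2))
  have hSu : ∀ w ∈ S, w.1 ∈ usq ∧ w.2.1 ∈ usq ∧ w.2.2 ∈ usq := fun w hw =>
    ⟨hXu hw.1, hu1 _ _ hw.2.1, hu2 _ _ hw.2.2⟩
  have hSv : ENNReal.ofReal (ε ^ 3) ≤ volume S := by
    have h2 := B6_low (volume : Measure ℂ) (volume : Measure (ℂ × ℂ)) hSm hX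
      (t := ENNReal.ofReal (ε ^ 2)) (fun x hx => by
        have e : {y | (x, y) ∈ S} = {y | (x, y) ∈ E1} ×ˢ {y | (x, y) ∈ E2} := by
          ext q
          exact ⟨fun h => ⟨h.2.1, h.2.2⟩, fun h => ⟨hx, h.1, h.2⟩⟩
        rw [e, Measure.volume_eq_prod, Measure.prod_prod, show (2 : ℕ) = 1 + 1 from rfl,
          ← B6_mulp h0, pow_one]
        exact mul_le_mul' (ENNReal.ofReal_le_of_le_toReal (hv1 x hx))
          (ENNReal.ofReal_le_of_le_toReal (hv2 x hx)))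
    refine le_trans ?_ h2
    rw [show (3 : ℕ) = 2 + 1 from rfl, ← B6_mulp h0, pow_one]
    gcongr
    exact ENNReal.ofReal_le_of_le_toReal hXv
  obtain ⟨h₁, hh₁, hf⟩ := B6_first h0 h1 S hSm hSu 3 hSv
  have hs := B6_second h0 h1 S hSm hSu _ h₁ hf
  obtain ⟨z, H, hHm, hHK, hHv, hd, hr⟩ := hm ε h0 h1 X hX hXu E1 E2 hE1 hE2 hu1 hu2 b hb F1 F2
    hF1 hF2 η hη hr1 hr2 h₁ hh₁ hs
  obtain ⟨β, P, Q, X', hX'm, hX'X, hX'v, hX'b⟩ := B6_last h0 h1 X hX hXu b hb h₁ z H hHm hHK m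
    hHv hd _ hr
  refine ⟨β, P, Q, X', hX'm, hX'X, B6_toreal (fun x hx => ?_) hX'v, fun x hx => ?_⟩
  · obtain ⟨u1, u2, u3, u4⟩ := hXu (hX'X hx)
    exact ⟨u1, by linarith, u3, by linarith⟩
  · refine (hX'b x hx).trans ?_
    have h8 : 8 * ε ^ (3 * m + 5) ≤ ε ^ m := by
      have e3 : ε ^ 3 * 8 ≤ 1 := by
        have : ε ^ 3 ≤ (1 / 2) ^ 3 := by gcongr
        linarith
      calc 8 * ε ^ (3 * m + 5) ≤ 8 * ε ^ (m + 3) := by
            have := pow_le_pow_of_le_one h0.le hε1 (show m + 3 ≤ 3 * m + 5 by omega)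
            linarith
        _ = ε ^ m * (ε ^ 3 * 8) := by ring
        _ ≤ ε ^ m * 1 := by gcongr
        _ = _ := mul_one _
    rw [mul_div_assoc', div_le_div_iff₀ (by positivity) (by positivity)]
    calc 8 * η * ε ^ (3 * m + 5) = η * (8 * ε ^ (3 * m + 5)) := by ring
      _ ≤ η * ε ^ m := by gcongr

end fin

/-! ### rescaling -/

/-- the corner of a cell of side one -/
noncomputable def B6_o (c : ℤ × ℤ) : ℂ := ((c.1 : ℝ) : ℂ) + ((c.2 : ℝ) : ℂ) * I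

theorem B6_cell {d : ℝ} (hd : 0 < d) (c : ℤ × ℤ) (ξ : ℂ) :
    cell d (d * (ξ + B6_o c)) = c ↔ ξ ∈ usq := by
  have e1 : ((d : ℂ) * (ξ + B6_o c)).re / d = ξ.re + c.1 := by
    unfold B6_o
    simp only [mul_re, ofReal_re, add_re, I_re, mul_zero, ofReal_im, I_im, mul_one, sub_self,
      add_zero, add_im, mul_im, zero_add, zero_mul, sub_zero]
    field_simp
  have e2 : ((d : ℂ) * (ξ + B6_o c)).im / d = ξ.im + c.2 := by
    unfold B6_o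
    simp only [mul_re, ofReal_re, add_re, I_re, mul_zero, ofReal_im, I_im, mul_one, sub_self,
      add_zero, add_im, mul_im, zero_add, zero_mul]
    field_simp
  unfold cell usq
  rw [e1, e2, Int.floor_add_intCast, Int.floor_add_intCast]
  constructor
  · intro h
    have h1 : ⌊ξ.re⌋ + c.1 = c.1 := congrArg Prod.fst h
    have h2 : ⌊ξ.im⌋ + c.2 = c.2 := congrArg Prod.snd h
    have h3 : ⌊ξ.re⌋ = 0 := by omega
    have h4 : ⌊ξ.im⌋ = 0 := by omega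
    rw [Int.floor_eq_zero_iff] at h3 h4
    exact ⟨h3.1, h3.2, h4.1, h4.2⟩
  · rintro ⟨h1, h2, h3, h4⟩
    have h5 : ⌊ξ.re⌋ = 0 := Int.floor_eq_zero_iff.mpr ⟨h1, h2⟩
    have h6 : ⌊ξ.im⌋ = 0 := Int.floor_eq_zero_iff.mpr ⟨h3, h4⟩
    rw [h5, h6, zero_add, zero_add]

theorem B6_scale {d : ℝ} (hd : 0 < d) (o : ℂ) (S : Set ℂ) :
    volume.real {ξ : ℂ | d * (ξ + o) ∈ S} = (d ^ 2)⁻¹ * volume.real S := by
  have h1 : {ξ : ℂ | d * (ξ + o) ∈ S} = (fun ξ => ξ + o) ⁻¹' ((fun w : ℂ => d • w) ⁻¹' S) := by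
    ext ξ
    change (d : ℂ) * (ξ + o) ∈ S ↔ d • (ξ + o) ∈ S
    rw [real_smul]
  unfold Measure.real
  rw [h1, measure_preimage_add_right, Measure.addHaar_preimage_smul volume hd.ne',
    Complex.finrank_real_complex, ENNReal.toReal_mul, abs_of_nonneg (by positivity),
    ENNReal.toReal_ofReal (by positivity)]

theorem AFF (γ : ℂ) (hγ : γ.im ≠ 0) : ∃ n : ℕ, 1 ≤ n ∧ ∀ ε : ℝ, 0 < ε → ε ≤ 1 / 2 →
    ∀ d : ℝ, 0 < d → ∀ c : ℤ × ℤ, ∀ X : Set ℂ, MeasurableSet X → X ⊆ {x | cell d x = c} →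
    ε * d ^ 2 ≤ volume.real X → ∀ E1 E2 : Set (ℂ × ℂ), MeasurableSet E1 → MeasurableSet E2 →
    (∀ x y, (x, y) ∈ E1 → cell d y = c) → (∀ x y, (x, y) ∈ E2 → cell d y = c) →
    (∀ x ∈ X, ε * d ^ 2 ≤ volume.real {y | (x, y) ∈ E1}) →
    (∀ x ∈ X, ε * d ^ 2 ≤ volume.real {y | (x, y) ∈ E2}) →
    ∀ b : ℂ → ℂ, Measurable b → ∀ F1 F2 : ℂ → ℝ,
    (∀ t : ℝ, 0 < t → ∀ w : ℂ, F1 (t * w) = t ^ 2 * F1 w) →
    (∀ t : ℝ, 0 < t → ∀ w : ℂ, F2 (t * w) = t ^ 2 * F2 w) → ∀ η : ℝ, 0 ≤ η →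
    (∀ x ∈ X, ∀ y, (x, y) ∈ E1 → |ip (b x - b y) (x - y) - F1 (y - x)| ≤ η * d) →
    (∀ x ∈ X, ∀ y, (x, y) ∈ E2 → |ip (b x - b y) (γ * (x - y)) - F2 (y - x)| ≤ η * d) →
    ∃ (β P Q : ℂ) (X' : Set ℂ), MeasurableSet X' ∧ X' ⊆ X ∧ ε ^ n * d ^ 2 ≤ volume.real X' ∧
      ∀ x ∈ X', ‖b x - (β + P * x + Q * conj x)‖ ≤ η / ε ^ n := by
  obtain ⟨n, hn, hU⟩ := B6_unit γ hγ
  refine ⟨n, hn, fun ε h0 h1 d hd c X hX hXc hXv E1 E2 hE1 hE2 hc1 hc2 hv1 hv2 b hb F1 F2 hF1 hF2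
    η hη hr1 hr2 => ?_⟩
  have hd2 : (0 : ℝ) < d ^ 2 := by positivity
  have hdc : (d : ℂ) ≠ 0 := by
    rw [Ne, ofReal_eq_zero]
    exact hd.ne'
  set φ : ℂ → ℂ := fun ξ => d * (ξ + B6_o c) with hφ
  have hφm : Measurable φ := by
    have : Continuous φ := by rw [hφ]; fun_prop
    exact this.measurable
  have hφφ : Measurable fun p : ℂ × ℂ => (φ p.1, φ p.2) :=
    (hφm.comp measurable_fst).prodMk (hφm.comp measurable_snd)
  have hsc : ∀ S : Set ℂ, ε * d ^ 2 ≤ volume.real S → ε ≤ volume.real (φ ⁻¹' S) := by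
    intro S hS
    have := B6_scale hd (B6_o c) S
    change ε ≤ volume.real {ξ : ℂ | d * (ξ + B6_o c) ∈ S}
    rw [this, inv_mul_eq_div, le_div_iff₀ hd2]
    exact hS
  have hdiff : ∀ x y, φ x - φ y = d * (x - y) := by
    intro x y
    rw [hφ]
    ring
  have hrel : ∀ (γ' : ℂ) (F : ℂ → ℝ) (x y : ℂ),
      |ip (b (φ x) - b (φ y)) (γ' * (φ x - φ y)) - F (φ y - φ x)| ≤ η * d →
      |ip (b (φ x) - b (φ y)) (γ' * (x - y)) - F (d * (y - x)) / d| ≤ η := by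
    intro γ' F x y h
    rw [hdiff, hdiff, mul_left_comm, ip_mul_real_right] at h
    have e : ip (b (φ x) - b (φ y)) (γ' * (x - y)) - F (d * (y - x)) / d =
        (d * ip (b (φ x) - b (φ y)) (γ' * (x - y)) - F (d * (y - x))) / d := by
      field_simp
    rw [e, abs_div, abs_of_pos hd, div_le_iff₀ hd]
    exact h
  have hhom : ∀ F : ℂ → ℝ, (∀ t : ℝ, 0 < t → ∀ w : ℂ, F (t * w) = t ^ 2 * F w) →
      ∀ t : ℝ, 0 < t → ∀ w : ℂ, F (d * (t * w)) / d = t ^ 2 * (F (d * w) / d) := by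
    intro F hF t ht w
    rw [mul_left_comm, hF t ht]
    ring
  obtain ⟨β, P, Q, X', hX'm, hX'X, hX'v, hX'b⟩ := hU ε h0 h1 (φ ⁻¹' X) (hφm hX)
    (fun ξ hξ => (B6_cell hd c ξ).mp (hXc hξ)) (hsc X hXv)
    ((fun p : ℂ × ℂ => (φ p.1, φ p.2)) ⁻¹' E1) ((fun p : ℂ × ℂ => (φ p.1, φ p.2)) ⁻¹' E2)
    (hφφ hE1) (hφφ hE2) (fun x y h => (B6_cell hd c y).mp (hc1 _ _ h))
    (fun x y h => (B6_cell hd c y).mp (hc2 _ _ h)) (fun x hx => hsc _ (hv1 _ hx))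
    (fun x hx => hsc _ (hv2 _ hx)) (fun ξ => b (φ ξ)) (hb.comp hφm)
    (fun w => F1 (d * w) / d) (fun w => F2 (d * w) / d) (hhom F1 hF1) (hhom F2 hF2) η hη
    (fun x hx y h => by
      have := hrel 1 F1 x y (by rw [one_mul]; exact hr1 _ hx _ h)
      rwa [one_mul] at this)
    (fun x hx y h => hrel γ F2 x y (hr2 _ hx _ h))
  set ψ : ℂ → ℂ := fun x => x / d - B6_o c with hψ
  have hψm : Measurable ψ := by
    have : Continuous ψ := by rw [hψ]; fun_prop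
    exact this.measurable
  have hφψ : ∀ x, φ (ψ x) = x := by
    intro x
    rw [hφ, hψ]
    field_simp
    ring
  have hψφ : ∀ x, ψ (φ x) = x := by
    intro x
    rw [hφ, hψ]
    field_simp
    ring
  refine ⟨β - P * B6_o c - Q * conj (B6_o c), P / d, Q / d, ψ ⁻¹' X', hψm hX'm, ?_, ?_, ?_⟩
  · intro x hx
    have := hX'X hx
    change φ (ψ x) ∈ X at this
    rwa [hφψ] at this
  · have h2 := B6_scale hd (B6_o c) (ψ ⁻¹' X')
    have h3 : {ξ : ℂ | d * (ξ + B6_o c) ∈ ψ ⁻¹' X'} = X' := by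
      ext ξ
      change ψ (φ ξ) ∈ X' ↔ ξ ∈ X'
      rw [hψφ]
    rw [h3, inv_mul_eq_div, eq_div_iff hd2.ne'] at h2
    rw [← h2]
    gcongr
  · intro x hx
    have h4 := hX'b _ hx
    have e : b x - (β - P * B6_o c - Q * conj (B6_o c) + P / d * x + Q / d * conj x) =
        b (φ (ψ x)) - (β + P * ψ x + Q * conj (ψ x)) := by
      rw [hφψ, hψ]
      simp only [map_sub, map_div₀, conj_ofReal]
      ring
    rw [e]
    exact h4

end TriDil
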