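import Pool.Agent.TriDil.Basic7
import Pool.Agent.TriDil.B1
import Pool.Agent.TriDil.B2
import Pool.Agent.TriDil.B3
import Pool.Agent.TriDil.B4
import Pool.Agent.TriDil.B6
set_option autoImplicit false
open MeasureTheory Complex Set
namespace TriDil
open scoped ComplexConjugate

theorem B8_cell_meas (d : ℝ) : Measurable (cell d) := by
  unfold cell
  exact ((Complex.measurable_re.div_const d).floor).prodMk ((Complex.measurable_im.div_const d).floor)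

theorem B8_ang_meas (d : ℝ) : Measurable (fun g : ℂ × ℝ => ⌊g.2 / d⌋) :=
  (measurable_snd.div_const d).floor

theorem B8_y_meas : Measurable (fun g : ℂ × ℝ => -(g.1 + U g.2)) :=
  (measurable_fst.add (measurable_U.comp measurable_snd)).neg

/-- the reference cell -/
noncomputable def B8_ref (d : ℝ) (b : (ℤ × ℤ) × ℤ) : ℤ × ℤ :=
  cell d (-((d : ℂ) * (b.1.1 + b.1.2 * I) + U (d * b.2)))

noncomputable def B8_off (d : ℝ) (g : ℂ × ℝ) : ℤ × ℤ :=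
  cell d (-(g.1 + U g.2)) - B8_ref d (cell d g.1, ⌊g.2 / d⌋)

theorem B8_off_meas (d : ℝ) : Measurable (B8_off d) := by
  unfold B8_off
  have h1 : Measurable (fun g : ℂ × ℝ => cell d (-(g.1 + U g.2))) := (B8_cell_meas d).comp B8_y_meas
  have h2 : Measurable (fun g : ℂ × ℝ => B8_ref d (cell d g.1, ⌊g.2 / d⌋)) := by
    have h3 : Measurable (B8_ref d) := measurable_of_countable _
    exact h3.comp (((B8_cell_meas d).comp measurable_fst).prodMk (B8_ang_meas d))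
  have h3 : Measurable (fun p : (ℤ × ℤ) × (ℤ × ℤ) => p.1 - p.2) := measurable_of_countable _
  exact h3.comp (h1.prodMk h2)

theorem B8_floor_sub (a b : ℝ) (h : |a - b| ≤ 2) : ⌊a⌋ - ⌊b⌋ ∈ Finset.Icc (-2 : ℤ) 2 := by
  rw [abs_le] at h
  have h1 := Int.floor_le a
  have h2 := Int.lt_floor_add_one a
  have h3 := Int.floor_le b
  have h4 := Int.lt_floor_add_one b
  rw [Finset.mem_Icc]
  constructor
  · have : ((-3 : ℤ) : ℝ) < ((⌊a⌋ - ⌊b⌋ : ℤ) : ℝ) := by push_cast; linarith [h.1]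
    have := Int.cast_lt.mp this
    omega
  · have : ((⌊a⌋ - ⌊b⌋ : ℤ) : ℝ) < ((3 : ℤ) : ℝ) := by push_cast; linarith [h.2]
    have := Int.cast_lt.mp this
    omega

/-- distance to the corner of the cell -/
theorem B8_frac (d : ℝ) (hd : 0 < d) (t : ℝ) : 0 ≤ t - d * ⌊t / d⌋ ∧ t - d * ⌊t / d⌋ < d := by
  have h1 := Int.floor_le (t / d)
  have h2 := Int.lt_floor_add_one (t / d)
  rw [le_div_iff₀ hd] at h1
  rw [div_lt_iff₀ hd] at h2
  constructor <;> nlinarith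

theorem B8_off_mem (d : ℝ) (hd : 0 < d) (g : ℂ × ℝ) :
    B8_off d g ∈ Finset.Icc (-2 : ℤ) 2 ×ˢ Finset.Icc (-2 : ℤ) 2 := by
  have hr := B8_frac d hd g.1.re
  have hi := B8_frac d hd g.1.im
  have ha := B8_frac d hd g.2
  have hU : ‖U g.2 - U (d * ⌊g.2 / d⌋)‖ ≤ d := by
    have e : g.2 = d * ⌊g.2 / d⌋ + (g.2 - d * ⌊g.2 / d⌋) := by ring
    have := norm_U_sub_le (d * ⌊g.2 / d⌋) (g.2 - d * ⌊g.2 / d⌋)
    rw [← e] at this
    refine this.trans ?_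
    rw [abs_of_nonneg ha.1]; exact ha.2.le
  have hre := (abs_re_le_norm (U g.2 - U (d * ⌊g.2 / d⌋))).trans hU
  have him := (abs_im_le_norm (U g.2 - U (d * ⌊g.2 / d⌋))).trans hU
  rw [sub_re] at hre
  rw [sub_im] at him
  rw [abs_le] at hre him
  rw [Finset.mem_product]
  constructor
  · show ⌊(-(g.1 + U g.2)).re / d⌋ - ⌊(-((d : ℂ) * (((⌊g.1.re / d⌋ : ℤ) : ℂ) + ((⌊g.1.im / d⌋ : ℤ) : ℂ) * I)
      + U (d * ⌊g.2 / d⌋))).re / d⌋ ∈ _
    apply B8_floor_sub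
    rw [← sub_div, abs_div, abs_of_pos hd, div_le_iff₀ hd, abs_le]
    simp only [neg_re, add_re, mul_re, ofReal_re, ofReal_im, intCast_re, intCast_im, I_re, I_im]
    constructor <;> nlinarith
  · show ⌊(-(g.1 + U g.2)).im / d⌋ - ⌊(-((d : ℂ) * (((⌊g.1.re / d⌋ : ℤ) : ℂ) + ((⌊g.1.im / d⌋ : ℤ) : ℂ) * I)
      + U (d * ⌊g.2 / d⌋))).im / d⌋ ∈ _
    apply B8_floor_sub
    rw [← sub_div, abs_div, abs_of_pos hd, div_le_iff₀ hd, abs_le]
    simp only [neg_im, add_im, add_re, mul_im, mul_re, ofReal_re, ofReal_im, intCast_re, intCast_im, I_re, I_im]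
    constructor <;> nlinarith

theorem B8_pigeon (ε d : ℝ) (hε : 0 < ε) (hd : 0 < d) (G : Set (ℂ × ℝ)) (hG : MeasurableSet G)
    (hv : ε ≤ volume.real G) :
    ∃ G1 : Set (ℂ × ℝ), Sub (ε / 25) G1 G ∧ ∀ g ∈ G1, ∀ g' ∈ G1, cell d g.1 = cell d g'.1 →
      ⌊g.2 / d⌋ = ⌊g'.2 / d⌋ → cell d (-(g.1 + U g.2)) = cell d (-(g'.1 + U g'.2)) := by
  have hfin : volume G ≠ ⊤ := by
    intro h
    rw [Measure.real, h, ENNReal.toReal_top] at hv
    linarith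
  set F : Finset (ℤ × ℤ) := Finset.Icc (-2 : ℤ) 2 ×ˢ Finset.Icc (-2 : ℤ) 2 with hF
  have hcard : F.card = 25 := by rw [hF]; rfl
  have hcov : G ⊆ ⋃ j ∈ F, G ∩ B8_off d ⁻¹' {j} := by
    intro g hg
    rw [mem_iUnion₂]
    exact ⟨B8_off d g, B8_off_mem d hd g, hg, rfl⟩
  have hsum : volume.real G ≤ ∑ j ∈ F, volume.real (G ∩ B8_off d ⁻¹' {j}) := by
    refine (measureReal_mono hcov ?_).trans (measureReal_biUnion_finset_le _ _)
    refine ne_top_of_le_ne_top hfin (measure_mono ?_)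
    intro g hg
    rw [mem_iUnion₂] at hg
    obtain ⟨j, _, h, _⟩ := hg
    exact h
  obtain ⟨j, hj, hj'⟩ : ∃ j ∈ F, ε / 25 ≤ volume.real (G ∩ B8_off d ⁻¹' {j}) := by
    by_contra hcon
    push Not at hcon
    have : ∑ j ∈ F, volume.real (G ∩ B8_off d ⁻¹' {j}) < ∑ j ∈ F, ε / 25 := by
      apply Finset.sum_lt_sum_of_nonempty _ hcon
      rw [← Finset.card_pos, hcard]; norm_num
    rw [Finset.sum_const, hcard, nsmul_eq_mul] at this
    push_cast at this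
    linarith
  refine ⟨G ∩ B8_off d ⁻¹' {j}, ⟨inter_subset_left, hG.inter ((B8_off_meas d) (measurableSet_singleton j)), hj'⟩, ?_⟩
  rintro g ⟨_, hg⟩ g' ⟨_, hg'⟩ hc ha
  have e1 : B8_off d g = B8_off d g' := by rw [hg, hg']
  unfold B8_off at e1
  rw [hc, ha] at e1
  exact sub_left_injective e1

theorem B8_ell {ω : ℂ} {R ε κ d : ℝ} {B0 B1 B2 : ℂ → ℂ} {G : Set (ℂ × ℝ)} (hε : 0 < ε)
    (h : Sys ω R ε κ B0 B1 B2 G) (hs : S1P (1 / ε) d B0 B1 G) (hκ : κ ≤ 1 / ε) (hd : 0 < d)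
    {g g' : ℂ × ℝ} (hg : g ∈ G) (hg' : g' ∈ G) (hc : cell d g.1 = cell d g'.1)
    (ha : ⌊g.2 / d⌋ = ⌊g'.2 / d⌋) (hy : cell d (-(g.1 + U g.2)) = cell d (-(g'.1 + U g'.2))) :
    |ell B0 B1 g.1 g.2 - ell B0 B1 g'.1 g'.2| ≤ 4 * d / ε := by
  have h1 := hs.c0 g hg g' hg' hc
  have h2 := hs.c1 g hg g' hg' hy
  have h3 := h.ra g' hg'
  have h4 := h.hi g' hg'
  have h5 : ‖B1 (g'.1 + U g'.2) - B0 g'.1‖ ≤ 2 / ε := by
    have e : B1 (g'.1 + U g'.2) - B0 g'.1 = (B1 (g'.1 + U g'.2) - B0 g'.1 - ell B0 B1 g'.1 g'.2 * U g'.2)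
      + ell B0 B1 g'.1 g'.2 * U g'.2 := by ring
    rw [e]
    refine (norm_add_le _ _).trans ?_
    rw [norm_mul, norm_U, mul_one, norm_real, Real.norm_eq_abs]
    have : (2 : ℝ) / ε = 1 / ε + 1 / ε := by ring
    rw [this]
    linarith
  have h6 : ‖U g.2 - U g'.2‖ ≤ d := by
    have ha1 := B8_frac d hd g.2
    have ha2 := B8_frac d hd g'.2
    rw [ha] at ha1
    have e : g.2 = g'.2 + (g.2 - g'.2) := by ring
    have := norm_U_sub_le g'.2 (g.2 - g'.2)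
    rw [← e] at this
    refine this.trans ?_
    rw [abs_le]
    constructor <;> linarith [ha1.1, ha1.2, ha2.1, ha2.2]
  have e : ell B0 B1 g.1 g.2 - ell B0 B1 g'.1 g'.2
      = ip ((B1 (g.1 + U g.2) - B1 (g'.1 + U g'.2)) - (B0 g.1 - B0 g'.1)) (U g.2)
        + ip (B1 (g'.1 + U g'.2) - B0 g'.1) (U g.2 - U g'.2) := by
    unfold ell
    simp only [ip_sub_left, ip_sub_right]; ring
  rw [e]
  refine (abs_add_le _ _).trans ?_
  have hp1 := ip_le ((B1 (g.1 + U g.2) - B1 (g'.1 + U g'.2)) - (B0 g.1 - B0 g'.1)) (U g.2)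
  have hp2 := ip_le (B1 (g'.1 + U g'.2) - B0 g'.1) (U g.2 - U g'.2)
  rw [norm_U, mul_one] at hp1
  have hp3 := norm_sub_le (B1 (g.1 + U g.2) - B1 (g'.1 + U g'.2)) (B0 g.1 - B0 g'.1)
  have hp4 : ‖B1 (g'.1 + U g'.2) - B0 g'.1‖ * ‖U g.2 - U g'.2‖ ≤ 2 / ε * d :=
    mul_le_mul h5 h6 (norm_nonneg _) (by positivity)
  have : 4 * d / ε = 1 / ε * d + 1 / ε * d + 2 / ε * d := by ring
  rw [this]; linarith

theorem B8_rot_meas (p : ℂ) : Measurable (fun q : (ℂ × ℝ) × ℝ => rot p q.2 q.1) := by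
  unfold rot
  have h1 : Measurable (fun q : (ℂ × ℝ) × ℝ => q.1.1) := measurable_fst.comp measurable_fst
  have h2 : Measurable (fun q : (ℂ × ℝ) × ℝ => q.1.2) := measurable_snd.comp measurable_fst
  have h3 : Measurable (fun q : (ℂ × ℝ) × ℝ => q.2) := measurable_snd
  exact (h1.add (((measurable_U.comp h2).sub (measurable_U.comp (h2.add h3))).const_mul p)).prodMk (h2.add h3)

theorem B8_sec_meas (p : ℂ) (δ : ℝ) (G : Set (ℂ × ℝ)) (hG : MeasurableSet G) :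
    Measurable (fun g : ℂ × ℝ => volume.real {α : ℝ | α ∈ Ioo 0 δ ∧ rot p α g ∈ G}) := by
  have hS : MeasurableSet {q : (ℂ × ℝ) × ℝ | q.2 ∈ Ioo 0 δ ∧ rot p q.2 q.1 ∈ G} :=
    (measurable_snd measurableSet_Ioo).inter ((B8_rot_meas p) hG)
  have := measurable_measure_prodMk_left (ν := (volume : Measure ℝ)) hS
  exact this.ennreal_toReal

theorem B8_pow (c : ℝ) : ∃ a : ℕ, ∀ ε : ℝ, 0 < ε → ε ≤ 1 / 2 → c * ε ^ a ≤ 1 := by
  obtain ⟨a, ha⟩ := pow_unbounded_of_one_lt c (one_lt_two)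
  refine ⟨a, fun ε h0 h1 => ?_⟩
  have h2 : ε ^ a ≤ (1 / 2) ^ a := pow_le_pow_left₀ h0.le h1 a
  have h3 : (0 : ℝ) ≤ ε ^ a := by positivity
  rcases le_or_gt c 0 with hc | hc
  · exact (mul_nonpos_of_nonpos_of_nonneg hc h3).trans zero_le_one
  · calc c * ε ^ a ≤ 2 ^ a * (1 / 2) ^ a := mul_le_mul ha.le h2 h3 (by positivity)
      _ = 1 := by rw [← mul_pow]; norm_num

theorem B8_deep_meas (d ρ : ℝ) : MeasurableSet {x : ℂ | deep d ρ x} := by
  unfold deep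
  have h1 : Measurable (fun x : ℂ => d * Int.fract (x.re / d)) :=
    ((Complex.measurable_re.div_const d).fract).const_mul d
  have h2 : Measurable (fun x : ℂ => d * Int.fract (x.im / d)) :=
    ((Complex.measurable_im.div_const d).fract).const_mul d
  exact (measurableSet_le measurable_const h1).inter ((measurableSet_lt (h1.add_const ρ) measurable_const).inter
    ((measurableSet_le measurable_const h2).inter (measurableSet_lt (h2.add_const ρ) measurable_const)))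

theorem B8_sub (ω : ℂ) (R : ℝ) : ∃ a : ℕ, 1 ≤ a ∧ ∀ ε : ℝ, 0 < ε → ε ≤ 1 / 2 →
    (1 + ‖ω‖) * ε ^ a ≤ 1 ∧ ∀ d : ℝ, 0 < d → d ≤ 1 → ∀ G : Set (ℂ × ℝ), MeasurableSet G →
    (∀ g ∈ G, ‖g.1‖ ≤ R) → (∀ g ∈ G, g.2 ∈ Icc (0 : ℝ) 1) → ε / 25 ≤ volume.real G →
    ∃ G2 : Set (ℂ × ℝ), Sub (ε / 50) G2 G ∧ ∀ g ∈ G2, deep d ((1 + ‖ω‖) * (ε ^ a * d)) g.1 ∧
      (ε ^ a * d ≤ d * Int.fract (g.2 / d) ∧ d * Int.fract (g.2 / d) + ε ^ a * d < d) ∧
      ε ^ a * (ε ^ a * d) ≤ volume.real {α : ℝ | α ∈ Ioo 0 (ε ^ a * d) ∧ rot 1 α g ∈ G} ∧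
      ε ^ a * (ε ^ a * d) ≤ volume.real {α : ℝ | α ∈ Ioo 0 (ε ^ a * d) ∧ rot ω α g ∈ G} := by
  obtain ⟨C1, hC1, hNL⟩ := NL R (1 + ‖ω‖)
  obtain ⟨C2, hC2, hD⟩ := not_deep_small R
  obtain ⟨a, ha⟩ := B8_pow (50 * (2 * C1 + C2 * (1 + ‖ω‖) + C2) + (1 + ‖ω‖))
  refine ⟨a + 1, by omega, fun ε hε hε2 => ?_⟩
  have hω : 0 ≤ ‖ω‖ := norm_nonneg _
  have ha1 := ha ε hε hε2
  have hεa : 0 < ε ^ a := by positivity
  set K : ℝ := 2 * C1 + C2 * (1 + ‖ω‖) + C2 with hK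
  have hK0 : 0 ≤ K := by positivity
  have hη0 : 0 < ε ^ (a + 1) := by positivity
  have hη1 : 50 * K * ε ^ (a + 1) ≤ ε := by
    rw [pow_succ]
    have : 50 * K * ε ^ a ≤ 1 := by nlinarith
    nlinarith
  have hη2 : (1 + ‖ω‖) * ε ^ (a + 1) ≤ 1 := by
    rw [pow_succ]
    have : (1 + ‖ω‖) * ε ^ a ≤ 1 := by nlinarith
    nlinarith [mul_nonneg (add_nonneg zero_le_one hω) hεa.le]
  refine ⟨hη2, ?_⟩
  intro d hd hd1 G hG hb hang hv
  set η : ℝ := ε ^ (a + 1) with hηdef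
  have hη3 : η ≤ 1 := by nlinarith
  have hηd : 0 < η * d := by positivity
  have hηd1 : η * d ≤ 1 := by nlinarith
  have hfin : volume G ≠ ⊤ := by
    intro h
    rw [Measure.real, h, ENNReal.toReal_top] at hv
    linarith
  set G2 : Set (ℂ × ℝ) := {g | g ∈ G ∧ deep d ((1 + ‖ω‖) * (η * d)) g.1 ∧
      (η * d ≤ d * Int.fract (g.2 / d) ∧ d * Int.fract (g.2 / d) + η * d < d) ∧
      η * (η * d) ≤ volume.real {α : ℝ | α ∈ Ioo 0 (η * d) ∧ rot 1 α g ∈ G} ∧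
      η * (η * d) ≤ volume.real {α : ℝ | α ∈ Ioo 0 (η * d) ∧ rot ω α g ∈ G}} with hG2
  have hfr : Measurable (fun g : ℂ × ℝ => d * Int.fract (g.2 / d)) :=
    ((measurable_snd.div_const d).fract).const_mul d
  have hG2m : MeasurableSet G2 := by
    refine hG.inter (MeasurableSet.inter ?_ (MeasurableSet.inter (MeasurableSet.inter ?_ ?_)
      (MeasurableSet.inter ?_ ?_)))
    · exact measurable_fst (B8_deep_meas d _)
    · exact measurableSet_le measurable_const hfr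
    · exact measurableSet_lt (hfr.add_const _) measurable_const
    · exact measurableSet_le measurable_const (B8_sec_meas 1 _ G hG)
    · exact measurableSet_le measurable_const (B8_sec_meas ω _ G hG)
  have hp1 : ‖(1 : ℂ)‖ ≤ 1 + ‖ω‖ := by rw [norm_one]; linarith
  have hp2 : ‖ω‖ ≤ 1 + ‖ω‖ := by linarith
  have hN1 := hNL 1 hp1 G hG hb hang (η * d) η hηd hηd1 hη0
  have hN2 := hNL ω hp2 G hG hb hang (η * d) η hηd hηd1 hη0
  have hD1 := (hD d ((1 + ‖ω‖) * (η * d)) hd hd1 (by positivity) G hG hb hang).1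
  have hD2 := (hD d (η * d) hd hd1 hηd.le G hG hb hang).2.2
  have e1 : C2 * ((1 + ‖ω‖) * (η * d) / d) = C2 * (1 + ‖ω‖) * η := by field_simp
  have e2 : C2 * (η * d / d) = C2 * η := by field_simp
  rw [e1] at hD1
  rw [e2] at hD2
  set S1 : Set (ℂ × ℝ) := {g | g ∈ G ∧ volume.real {α : ℝ | α ∈ Ioo 0 (η * d) ∧ rot 1 α g ∈ G} < η * (η * d)}
  set S2 : Set (ℂ × ℝ) := {g | g ∈ G ∧ volume.real {α : ℝ | α ∈ Ioo 0 (η * d) ∧ rot ω α g ∈ G} < η * (η * d)}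
  set S3 : Set (ℂ × ℝ) := {g | g ∈ G ∧ ¬ deep d ((1 + ‖ω‖) * (η * d)) g.1}
  set S4 : Set (ℂ × ℝ) := {g | g ∈ G ∧ ¬ (η * d ≤ d * Int.fract (g.2 / d) ∧ d * Int.fract (g.2 / d) + η * d < d)}
  have hcov : G ⊆ G2 ∪ (S1 ∪ (S2 ∪ (S3 ∪ S4))) := by
    intro g hg
    by_cases c1 : g ∈ S1
    · exact Or.inr (Or.inl c1)
    by_cases c2 : g ∈ S2
    · exact Or.inr (Or.inr (Or.inl c2))
    by_cases c3 : g ∈ S3
    · exact Or.inr (Or.inr (Or.inr (Or.inl c3)))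
    by_cases c4 : g ∈ S4
    · exact Or.inr (Or.inr (Or.inr (Or.inr c4)))
    left
    refine ⟨hg, ?_, ?_, ?_, ?_⟩
    · by_contra h; exact c3 ⟨hg, h⟩
    · by_contra h; exact c4 ⟨hg, h⟩
    · by_contra h; exact c1 ⟨hg, not_le.mp h⟩
    · by_contra h; exact c2 ⟨hg, not_le.mp h⟩
  have hsub : G2 ∪ (S1 ∪ (S2 ∪ (S3 ∪ S4))) ⊆ G := by
    rintro g (h | h | h | h | h) <;> exact h.1
  have hle : volume.real G ≤ volume.real G2 + (volume.real S1 + (volume.real S2 + (volume.real S3 + volume.real S4))) := by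
    refine (measureReal_mono hcov (ne_top_of_le_ne_top hfin (measure_mono hsub))).trans ?_
    refine (measureReal_union_le _ _).trans (add_le_add_right ?_ _)
    refine (measureReal_union_le _ _).trans (add_le_add_right ?_ _)
    refine (measureReal_union_le _ _).trans (add_le_add_right ?_ _)
    exact measureReal_union_le _ _
  refine ⟨G2, ⟨fun g hg => hg.1, hG2m, ?_⟩, fun g hg => hg.2⟩
  have : K * η = C1 * η + (C1 * η + (C2 * (1 + ‖ω‖) * η + C2 * η)) := by rw [hK]; ring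
  linarith

theorem B8_floor (d ρ θ s : ℝ) (hd : 0 < d) (h : d * Int.fract (θ / d) + ρ < d) (h0 : 0 ≤ s) (h1 : s ≤ ρ) :
    ⌊(θ + s) / d⌋ = ⌊θ / d⌋ := by
  rw [Int.floor_eq_iff]
  have h2 := Int.self_sub_floor (θ / d)
  have h3 := Int.fract_nonneg (θ / d)
  have h4 : (θ + s) / d = θ / d + s / d := add_div _ _ _
  have h5 : 0 ≤ s / d := by positivity
  have h6 : Int.fract (θ / d) + s / d < 1 := by
    have : d * (Int.fract (θ / d) + s / d) < d * 1 := by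
      rw [mul_add, mul_div_cancel₀ _ hd.ne']; linarith
    exact lt_of_mul_lt_mul_left this hd.le
  constructor <;> linarith

theorem B8_gamma (ω : ℂ) (h0 : ω.im ≠ 0) (h1 : ω.re ≠ 0) : (conj ω / ω).im ≠ 0 := by
  have hω : ω ≠ 0 := by rintro rfl; simp at h0
  have hn : normSq ω ≠ 0 := by rwa [Ne, normSq_eq_zero]
  rw [Complex.div_im, conj_re, conj_im]
  have : -ω.im * ω.re / normSq ω - ω.re * ω.im / normSq ω = -(2 * (ω.re * ω.im)) / normSq ω := by ring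
  rw [this]
  exact div_ne_zero (neg_ne_zero.mpr (mul_ne_zero two_ne_zero (mul_ne_zero h1 h0))) hn

theorem B8_rel (p x y b : ℂ) (θ θ' l l' L κ ε d : ℝ) (hp : p ≠ 0) (hε : 0 < ε) (hε2 : ε ≤ 1 / 2) (hd : 0 < d)
    (hd1 : d ≤ 1) (hκ : κ ≤ d ^ 3) (hx : x + p * U θ = y + p * U θ')
    (h : ‖b - conj p * (l' * U θ' - l * U θ)‖ ≤ 2 * κ) (hl : |l - L| ≤ 4 * d / ε) (hl' : |l' - L| ≤ 4 * d / ε)
    (hxy : ‖x - y‖ ≤ d) :
    |ip b (conj p / p * (x - y)) - ‖x - y‖ ^ 2 * L| ≤ 6 * d ^ 2 / ε * d := by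
  have h1 := scal p x y b θ θ' l l' (2 * κ) hp hx h
  have h2 : 2 * κ * ‖x - y‖ ≤ 2 * d ^ 3 * d := by
    calc 2 * κ * ‖x - y‖ ≤ 2 * d ^ 3 * ‖x - y‖ := mul_le_mul_of_nonneg_right (by linarith) (norm_nonneg _)
      _ ≤ 2 * d ^ 3 * d := mul_le_mul_of_nonneg_left hxy (by positivity)
  have h3 : |‖x - y‖ ^ 2 * ((l + l') / 2) - ‖x - y‖ ^ 2 * L| ≤ d ^ 2 * (4 * d / ε) := by
    rw [← mul_sub, abs_mul, abs_of_nonneg (sq_nonneg _)]
    refine mul_le_mul (pow_le_pow_left₀ (norm_nonneg _) hxy 2) ?_ (abs_nonneg _) (by positivity)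
    have e : (l + l') / 2 - L = ((l - L) + (l' - L)) / 2 := by ring
    rw [e, abs_div, abs_two, div_le_iff₀ two_pos]
    refine (abs_add_le _ _).trans ?_
    linarith
  have e : ip b (conj p / p * (x - y)) - ‖x - y‖ ^ 2 * L
      = (ip b (conj p / p * (x - y)) - ‖x - y‖ ^ 2 * ((l + l') / 2))
        + (‖x - y‖ ^ 2 * ((l + l') / 2) - ‖x - y‖ ^ 2 * L) := by ring
  rw [e]
  refine (abs_add_le _ _).trans ?_
  have h4 : 2 * d ^ 3 * d ≤ 2 * d ^ 3 / ε := by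
    rw [le_div_iff₀ hε]
    have : d * ε ≤ 1 := by nlinarith
    have h5 : 0 < d ^ 3 := by positivity
    nlinarith
  have e2 : 6 * d ^ 2 / ε * d = 2 * d ^ 3 / ε + d ^ 2 * (4 * d / ε) := by ring
  rw [e2]
  linarith

theorem B8_same_cell (d : ℝ) (hd : 0 < d) (x y : ℂ) (h : cell d x = cell d y) : ‖x - y‖ ≤ 2 * d := by
  have h1 := B8_frac d hd x.re
  have h2 := B8_frac d hd x.im
  have h3 := B8_frac d hd y.re
  have h4 := B8_frac d hd y.im
  have e1 : ⌊x.re / d⌋ = ⌊y.re / d⌋ := congrArg Prod.fst h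
  have e2 : ⌊x.im / d⌋ = ⌊y.im / d⌋ := congrArg Prod.snd h
  rw [e1] at h1
  rw [e2] at h2
  refine (Complex.norm_le_abs_re_add_abs_im _).trans ?_
  rw [sub_re, sub_im]
  have h5 : |x.re - y.re| ≤ d := by rw [abs_le]; constructor <;> linarith [h1.1, h1.2, h3.1, h3.2]
  have h6 : |x.im - y.im| ≤ d := by rw [abs_le]; constructor <;> linarith [h2.1, h2.2, h4.1, h4.2]
  linarith

/-- the homogeneous function -/
noncomputable def B8_F (p : ℂ) (d : ℝ) (L : ℤ → ℝ) (w : ℂ) : ℝ :=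
  ‖w‖ ^ 2 * L ⌊(Complex.arg (w / p) + Real.pi / 2) / d⌋

theorem B8_F_hom (p : ℂ) (d : ℝ) (L : ℤ → ℝ) (t : ℝ) (ht : 0 < t) (w : ℂ) :
    B8_F p d L (t * w) = t ^ 2 * B8_F p d L w := by
  unfold B8_F
  have e : (t : ℂ) * w / p = (t : ℂ) * (w / p) := mul_div_assoc _ _ _
  rw [e, Complex.arg_real_mul _ ht, norm_mul, norm_real, Real.norm_eq_abs, abs_of_pos ht]
  ring

theorem B8_F_eq (p : ℂ) (hp : p ≠ 0) (d ρ θ α : ℝ) (hd : 0 < d) (L : ℤ → ℝ) (hθ : θ ∈ Icc (0 : ℝ) 1)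
    (hα : 0 < α) (hα1 : α ≤ 1) (hαρ : α ≤ ρ) (h : d * Int.fract (θ / d) + ρ < d) :
    B8_F p d L (p * (U θ - U (θ + α))) = ‖p * (U θ - U (θ + α))‖ ^ 2 * L ⌊θ / d⌋ := by
  unfold B8_F
  rw [(slide_dir p hp θ α hθ hα hα1).2]
  have e : θ + α / 2 - Real.pi / 2 + Real.pi / 2 = θ + α / 2 := by ring
  rw [e, B8_floor d ρ θ (α / 2) hd h (by linarith) (by linarith)]

theorem B8_Xmeas (d m : ℝ) (c : ℤ × ℤ) (G : Set (ℂ × ℝ)) (hG : MeasurableSet G) :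
    MeasurableSet {x : ℂ | cell d x = c ∧ m ≤ volume.real {θ : ℝ | (x, θ) ∈ G}} := by
  have h1 : MeasurableSet {x : ℂ | cell d x = c} := (B8_cell_meas d) (measurableSet_singleton c)
  have h2 : Measurable (fun x : ℂ => volume.real {θ : ℝ | (x, θ) ∈ G}) := by
    have := measurable_measure_prodMk_left (ν := (volume : Measure ℝ)) hG
    exact this.ennreal_toReal
  exact h1.inter (measurableSet_le measurable_const h2)

/-- the slices of the sliding graph -/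
theorem B8_slice (p : ℂ) (hp : p ≠ 0) (d η W m e1 : ℝ) (hd : 0 < d) (hη : 0 < η) (hηd : η * d ≤ 1)
    (hpW : ‖p‖ ≤ W) (hm : 0 ≤ m) (G2 G1 : Set (ℂ × ℝ)) (hG2 : MeasurableSet G2)
    (hG1 : MeasurableSet G1) (hang : ∀ g ∈ G2, g.2 ∈ Icc (0 : ℝ) 1)
    (hdeep : ∀ g ∈ G2, deep d (W * (η * d)) g.1)
    (hsec : ∀ g ∈ G2, η * (η * d) ≤ volume.real {α : ℝ | α ∈ Ioo 0 (η * d) ∧ rot p α g ∈ G1})
    (he : e1 ≤ ‖p‖ ^ 2 / 4 * (m * η ^ 2) ^ 2) (c : ℤ × ℤ) (x : ℂ) (hxc : cell d x = c)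
    (hxm : m ≤ volume.real {θ : ℝ | (x, θ) ∈ G2}) :
    e1 * d ^ 2 ≤ volume.real {y | (x, y) ∈ Esl p (η * d) G2 G1 ∩ {z | cell d z.2 = c}} := by
  have h1 := Esl_slice p hp (η * d) hηd G2 G1 hG2 hG1 hang x m (η * (η * d)) hm (by positivity) hxm
    (fun θ hθ => hsec _ hθ)
  have e : {y | (x, y) ∈ Esl p (η * d) G2 G1 ∩ {z | cell d z.2 = c}} = {x' : ℂ | (x, x') ∈ Esl p (η * d) G2 G1} := by
    ext y
    constructor
    · intro h; exact h.1
    · intro h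
      refine ⟨h, ?_⟩
      obtain ⟨θ, α, hα0, hα1, hg, _, hy⟩ := h
      simp only at hg hy
      show cell d y = c
      rw [hy, ← hxc]
      apply deep_cell d (W * (η * d)) hd x _ (hdeep _ hg)
      rw [norm_mul, norm_sub_rev]
      refine mul_le_mul hpW ((norm_U_sub_le θ α).trans ?_) (norm_nonneg _) ((norm_nonneg _).trans hpW)
      rw [abs_of_pos hα0]; exact hα1.le
  rw [e]
  refine le_trans ?_ h1
  have : ‖p‖ ^ 2 / 4 * (m * (η * (η * d))) ^ 2 = ‖p‖ ^ 2 / 4 * (m * η ^ 2) ^ 2 * d ^ 2 := by ring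
  rw [this]
  exact mul_le_mul_of_nonneg_right he (sq_nonneg d)

theorem S2 (ω : ℂ) (h0 : ω.im ≠ 0) (h1 : ω.re ≠ 0) (R : ℝ) :
    ∃ n : ℕ, 1 ≤ n ∧ ∀ ε : ℝ, 0 < ε → ε ≤ 1 / 2 → ∀ κ d : ℝ, 0 < d → d ≤ ε ^ n → κ ≤ d ^ 3 →
    ∀ (B0 B1 B2 : ℂ → ℂ) (G : Set (ℂ × ℝ)), Sys ω R ε κ B0 B1 B2 G → S1P (1 / ε) d B0 B1 G →
    ∃ G' : Set (ℂ × ℝ), Sub (ε ^ n) G' G ∧
      ∃ β P Q : ℤ × ℤ → ℂ, S2P (1 / ε ^ n) d B0 G' β P Q := by
  have hω : ω ≠ 0 := by rintro rfl; simp at h0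
  have hωn : 0 < ‖ω‖ := norm_pos_iff.mpr hω
  obtain ⟨a, ha1, hsub⟩ := B8_sub ω R
  obtain ⟨k0, hk0, hSEL⟩ := SEL R
  obtain ⟨n1, hn1, hAFF⟩ := AFF (conj ω / ω) (B8_gamma ω h0 h1)
  obtain ⟨e, he⟩ := B8_pow (4 + 4 / ‖ω‖ ^ 2)
  obtain ⟨CL, hCL, hlin⟩ := lin2 2
  obtain ⟨f, hf⟩ := B8_pow (2 * CL)
  set b : ℕ := e + 14 * k0 + 4 * a with hb
  obtain ⟨nS, hnS, hS⟩ := hSEL (b * n1)
  refine ⟨7 * nS + b * n1 + f + 5, by omega, ?_⟩
  intro ε hε hε2 κ d hd hdn hκ B0 B1 B2 G hsys hs1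
  set n : ℕ := 7 * nS + b * n1 + f + 5 with hn
  have hε1 : ε ≤ 1 := by linarith
  -- basic size facts
  have hdn2 : d ≤ ε ^ (b * n1) * ε ^ 4 := by
    rw [← pow_add]
    exact hdn.trans (pow_le_pow_of_le_one hε.le hε1 (by omega))
  have hε4 : ε ^ 4 ≤ 1 / 16 := by
    calc ε ^ 4 ≤ (1 / 2) ^ 4 := pow_le_pow_left₀ hε.le hε2 4
      _ = 1 / 16 := by norm_num
  have hεb : 0 < ε ^ (b * n1) := by positivity
  have hεb1 : ε ^ (b * n1) ≤ 1 := pow_le_one₀ hε.le hε1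
  have h12 : 12 * d ≤ ε ^ (b * n1) := by
    have : ε ^ (b * n1) * ε ^ 4 ≤ ε ^ (b * n1) * (1 / 16) := mul_le_mul_of_nonneg_left hε4 hεb.le
    linarith
  have hd1 : d ≤ 1 := by linarith
  have hκε : κ ≤ 1 / ε := by
    have h5 : d ^ 3 ≤ 1 := pow_le_one₀ hd.le hd1
    have h6 : 1 ≤ 1 / ε := by rw [le_div_iff₀ hε]; linarith
    linarith
  obtain ⟨G1, hG1, hbox⟩ := B8_pigeon ε d hε hd G hsys.mG hsys.vol
  obtain ⟨hη1, hsub⟩ := hsub ε hε hε2
  obtain ⟨G2, hG2, hprop⟩ := hsub d hd hd1 G1 hG1.meas (fun g hg => hsys.bdd g (hG1.sub hg))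
    (fun g hg => hsys.ang g (hG1.sub hg)) hG1.vol
  set η : ℝ := ε ^ a with hη
  have hη0 : 0 < η := by positivity
  have hη2 : η ≤ 1 := pow_le_one₀ hε.le hε1
  have hηd0 : 0 < η * d := by positivity
  have hηd : η * d ≤ 1 := by nlinarith
  have hang2 : ∀ g ∈ G2, g.2 ∈ Icc (0 : ℝ) 1 := fun g hg => hsys.ang g (hG1.sub (hG2.sub hg))
  -- the value of `ℓ` on a box
  have hLex : ∀ (c : ℤ × ℤ), ∃ L : ℤ → ℝ, ∀ g ∈ G1, cell d g.1 = c →
      |ell B0 B1 g.1 g.2 - L ⌊g.2 / d⌋| ≤ 4 * d / ε := by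
    intro c
    have h : ∀ k : ℤ, ∃ l : ℝ, ∀ g ∈ G1, cell d g.1 = c → ⌊g.2 / d⌋ = k →
        |ell B0 B1 g.1 g.2 - l| ≤ 4 * d / ε := by
      intro k
      by_cases hex : ∃ g0 ∈ G1, cell d g0.1 = c ∧ ⌊g0.2 / d⌋ = k
      · obtain ⟨g0, hg0, hc0, hk⟩ := hex
        refine ⟨ell B0 B1 g0.1 g0.2, fun g hg hc hkk => ?_⟩
        exact B8_ell hε hsys hs1 hκε hd (hG1.sub hg) (hG1.sub hg0) (hc.trans hc0.symm) (hkk.trans hk.symm)
          (hbox g hg g0 hg0 (hc.trans hc0.symm) (hkk.trans hk.symm))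
      · exact ⟨0, fun g hg hc hkk => absurd ⟨g, hg, hc, hkk⟩ hex⟩
    choose L hL using h
    exact ⟨L, fun g hg hc => hL _ g hg hc rfl⟩
  choose L hL using hLex
  -- parameters
  set ε1 : ℝ := ε ^ 7 with hε1def
  have hε1pos : 0 < ε1 := by positivity
  have hε1half : ε1 ≤ 1 / 2 := by
    have : ε ^ 7 ≤ ε ^ 1 := pow_le_pow_of_le_one hε.le hε1 (by norm_num)
    rw [pow_one] at this
    linarith
  have hε150 : ε1 ≤ ε / 50 := by
    have : ε ^ 6 ≤ (1 / 2) ^ 6 := pow_le_pow_left₀ hε.le hε2 6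
    have h7 : ε ^ 7 = ε * ε ^ 6 := by ring
    rw [hε1def, h7]
    nlinarith
  set ε2 : ℝ := ε ^ b with hε2def
  have hε2pos : 0 < ε2 := by positivity
  have hε2half : ε2 ≤ 1 / 2 := by
    have : ε ^ b ≤ ε ^ 1 := pow_le_pow_of_le_one hε.le hε1 (by omega)
    rw [pow_one] at this
    linarith
  have hm : ε1 ^ k0 = ε ^ (7 * k0) := by rw [hε1def, ← pow_mul]
  have hεe := he ε hε hε2
  have hεe0 : 0 < ε ^ e := by positivity
  have hpar1 : ε2 ≤ ‖(1 : ℂ)‖ ^ 2 / 4 * (ε1 ^ k0 * η ^ 2) ^ 2 := by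
    rw [norm_one, hm, hη]
    have e1 : (ε ^ (7 * k0) * (ε ^ a) ^ 2) ^ 2 = ε ^ (14 * k0 + 4 * a) := by ring
    have e2 : ε2 = ε ^ e * ε ^ (14 * k0 + 4 * a) := by rw [hε2def, hb, ← pow_add]; congr 1; ring
    rw [e1, e2]
    refine mul_le_mul_of_nonneg_right ?_ (by positivity)
    have : 0 ≤ 4 / ‖ω‖ ^ 2 * ε ^ e := by positivity
    linarith
  have hpar2 : ε2 ≤ ‖ω‖ ^ 2 / 4 * (ε1 ^ k0 * η ^ 2) ^ 2 := by
    rw [hm, hη]
    have e1 : (ε ^ (7 * k0) * (ε ^ a) ^ 2) ^ 2 = ε ^ (14 * k0 + 4 * a) := by ring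
    have e2 : ε2 = ε ^ e * ε ^ (14 * k0 + 4 * a) := by rw [hε2def, hb, ← pow_add]; congr 1; ring
    rw [e1, e2]
    refine mul_le_mul_of_nonneg_right ?_ (by positivity)
    have h5 : 4 / ‖ω‖ ^ 2 * ε ^ e ≤ 1 := by linarith
    rw [div_mul_eq_mul_div, div_le_iff₀ (by positivity)] at h5
    linarith
  have hW1 : ‖(1 : ℂ)‖ ≤ 1 + ‖ω‖ := by rw [norm_one]; linarith
  have hW2 : ‖ω‖ ≤ 1 + ‖ω‖ := by linarith
  -- sliding relations
  have hrel : ∀ (p : ℂ), p ≠ 0 → ‖p‖ ≤ 1 + ‖ω‖ →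
      (∀ (x y : ℂ) (θ θ' : ℝ), (x, θ) ∈ G → (y, θ') ∈ G → x + p * U θ = y + p * U θ' →
        ‖B0 x - B0 y - conj p * (ell B0 B1 y θ' * U θ' - ell B0 B1 x θ * U θ)‖ ≤ 2 * κ) →
      ∀ (c : ℤ × ℤ) (x y : ℂ), cell d x = c → (x, y) ∈ Esl p (η * d) G2 G1 ∩ {z | cell d z.2 = c} →
      |ip (B0 x - B0 y) (conj p / p * (x - y)) - B8_F p d (L c) (y - x)| ≤ 6 * d ^ 2 / ε * d := by
    rintro p hp hpW hsl c x y hxc ⟨⟨θ, α, hα0, hα1, hg, hg', hy⟩, hyc⟩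
    simp only [mem_ofPred_eq] at hg hg' hy hyc
    have hfr := (hprop _ hg).2.1.2
    simp only at hfr
    have hyx : y - x = p * (U θ - U (θ + α)) := by rw [hy]; ring
    rw [hyx, B8_F_eq p hp d (η * d) θ α hd (L c) (hang2 _ hg) hα0 (by linarith) hα1.le hfr, ← hyx,
      norm_sub_rev]
    have hx : x + p * U θ = y + p * U (θ + α) := by rw [hy]; ring
    have hl := hL c _ (hG2.sub hg) hxc
    have hl' := hL c _ hg' hyc
    simp only at hl hl'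
    rw [B8_floor d (η * d) θ α hd hfr hα0.le hα1.le] at hl'
    refine B8_rel p x y (B0 x - B0 y) θ (θ + α) (ell B0 B1 x θ) (ell B0 B1 y (θ + α)) (L c ⌊θ / d⌋) κ ε d hp hε
      hε2 hd hd1 hκ hx (hsl x y θ (θ + α) (hG1.sub (hG2.sub hg)) (hG1.sub hg') hx) hl hl' ?_
    rw [norm_sub_rev, hyx, norm_mul, norm_sub_rev]
    have hU := norm_U_sub_le θ α
    rw [abs_of_pos hα0] at hU
    calc ‖p‖ * ‖U (θ + α) - U θ‖ ≤ (1 + ‖ω‖) * (η * d) :=
          mul_le_mul hpW (hU.trans hα1.le) (norm_nonneg _) (by positivity)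
      _ = ((1 + ‖ω‖) * η) * d := by ring
      _ ≤ 1 * d := mul_le_mul_of_nonneg_right hη1 hd.le
      _ = d := one_mul d
  have hrel1 := hrel 1 one_ne_zero hW1 (by
    intro x y θ θ' hg hg' hx
    rw [map_one, one_mul]
    exact hsys.sl1 hg hg' (by simpa using hx))
  have hrel2 := hrel ω hω hW2 (fun x y θ θ' hg hg' hx => hsys.sl2 hg hg' hx)
  -- the bound constant
  set A : ℝ := 1 / ε ^ n with hA
  have hA0 : 0 < A := by positivity
  have hεn : ε ^ n ≤ ε * ε ^ (b * n1) * ε ^ f * ε ^ 4 := by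
    have : ε * ε ^ (b * n1) * ε ^ f * ε ^ 4 = ε ^ (1 + b * n1 + f + 4) := by
      rw [pow_add, pow_add, pow_add, pow_one]
    rw [this]
    exact pow_le_pow_of_le_one hε.le hε1 (by omega)
  have hA1 : 2 * CL / (ε * ε ^ (b * n1)) ≤ A := by
    rw [hA, div_le_div_iff₀ (by positivity) (by positivity), one_mul]
    have h5 := hf ε hε hε2
    have h6 : ε ^ 4 ≤ 1 := by linarith
    calc 2 * CL * ε ^ n ≤ 2 * CL * (ε * ε ^ (b * n1) * ε ^ f * ε ^ 4) :=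
          mul_le_mul_of_nonneg_left hεn (by positivity)
      _ = (2 * CL * ε ^ f) * ε ^ 4 * (ε * ε ^ (b * n1)) := by ring
      _ ≤ 1 * 1 * (ε * ε ^ (b * n1)) := by
          refine mul_le_mul_of_nonneg_right ?_ (by positivity)
          exact mul_le_mul h5 h6 (by positivity) zero_le_one
      _ = ε * ε ^ (b * n1) := by ring
  have hA2 : 6 / (ε * ε ^ (b * n1)) ≤ A := by
    rw [hA, div_le_div_iff₀ (by positivity) (by positivity), one_mul]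
    have h5 : ε ^ f ≤ 1 := pow_le_one₀ hε.le hε1
    calc 6 * ε ^ n ≤ 6 * (ε * ε ^ (b * n1) * ε ^ f * ε ^ 4) :=
          mul_le_mul_of_nonneg_left hεn (by positivity)
      _ = ε ^ f * (6 * ε ^ 4) * (ε * ε ^ (b * n1)) := by ring
      _ ≤ 1 * 1 * (ε * ε ^ (b * n1)) := by
          refine mul_le_mul_of_nonneg_right ?_ (by positivity)
          exact mul_le_mul h5 (by linarith) (by positivity) zero_le_one
      _ = ε * ε ^ (b * n1) := by ring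
  -- the construction in each cell
  have hcell : ∀ c : ℤ × ℤ, ∃ (β P Q : ℂ) (X' : Set ℂ), MeasurableSet X' ∧
      X' ⊆ {x | cell d x = c ∧ ε1 ^ k0 ≤ volume.real {θ : ℝ | (x, θ) ∈ G2}} ∧
      (ε1 ^ k0 * d ^ 2 ≤ volume.real {x | cell d x = c ∧ ε1 ^ k0 ≤ volume.real {θ : ℝ | (x, θ) ∈ G2}} →
        ε1 ^ (b * n1) * d ^ 2 ≤ volume.real X') ∧
      ‖P‖ ≤ A ∧ ‖Q‖ ≤ A ∧ ∀ x ∈ X', ‖B0 x - (β + P * x + Q * conj x)‖ ≤ A * d ^ 2 := by
    intro c
    set X : Set ℂ := {x | cell d x = c ∧ ε1 ^ k0 ≤ volume.real {θ : ℝ | (x, θ) ∈ G2}} with hX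
    by_cases hheavy : ε1 ^ k0 * d ^ 2 ≤ volume.real X
    · have hXm : MeasurableSet X := B8_Xmeas d _ c G2 hG2.meas
      have hε2X : ε2 * d ^ 2 ≤ volume.real X := by
        refine le_trans (mul_le_mul_of_nonneg_right ?_ (sq_nonneg d)) hheavy
        rw [hm, hε2def]
        exact pow_le_pow_of_le_one hε.le hε1 (by omega)
      have hcm : MeasurableSet {z : ℂ × ℂ | cell d z.2 = c} :=
        ((B8_cell_meas d).comp measurable_snd) (measurableSet_singleton c)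
      have hE1m := (Esl_meas 1 one_ne_zero (η * d) hηd G2 G1 hG2.meas hG1.meas hang2).inter hcm
      have hE2m := (Esl_meas ω hω (η * d) hηd G2 G1 hG2.meas hG1.meas hang2).inter hcm
      obtain ⟨β, P, Q, X', hX'm, hX'X, hX'v, hX'b⟩ := hAFF ε2 hε2pos hε2half d hd c X hXm (fun x hx => hx.1) hε2X
        (Esl 1 (η * d) G2 G1 ∩ {z | cell d z.2 = c}) (Esl ω (η * d) G2 G1 ∩ {z | cell d z.2 = c}) hE1m hE2m
        (fun x y h => h.2) (fun x y h => h.2)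
        (fun x hx => B8_slice 1 one_ne_zero d η (1 + ‖ω‖) (ε1 ^ k0) ε2 hd hη0 hηd hW1 (by positivity) G2 G1
          hG2.meas hG1.meas hang2 (fun g hg => (hprop g hg).1) (fun g hg => (hprop g hg).2.2.1) hpar1 c x hx.1 hx.2)
        (fun x hx => B8_slice ω hω d η (1 + ‖ω‖) (ε1 ^ k0) ε2 hd hη0 hηd hW2 (by positivity) G2 G1
          hG2.meas hG1.meas hang2 (fun g hg => (hprop g hg).1) (fun g hg => (hprop g hg).2.2.2) hpar2 c x hx.1 hx.2)
        B0 hsys.m0 (B8_F 1 d (L c)) (B8_F ω d (L c)) (fun t ht w => B8_F_hom 1 d (L c) t ht w)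
        (fun t ht w => B8_F_hom ω d (L c) t ht w) (6 * d ^ 2 / ε) (by positivity)
        (fun x hx y hxy => by
          have := hrel1 c x y hx.1 hxy
          rwa [map_one, div_one, one_mul] at this)
        (fun x hx y hxy => hrel2 c x y hx.1 hxy)
      have hpw : ε2 ^ n1 = ε ^ (b * n1) := by rw [hε2def, ← pow_mul]
      rw [hpw] at hX'v hX'b
      -- two points of `X'`
      have hosc : ∀ z ∈ X', ∀ z' ∈ X', ‖P * (z - z') + Q * conj (z - z')‖ ≤ 2 * d / ε := by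
        intro z hz z' hz'
        have hne : ∀ z ∈ X', ∃ θ : ℝ, (z, θ) ∈ G2 := by
          intro z hz
          have h5 := (hX'X hz).2
          by_contra hcon
          push Not at hcon
          have : {θ : ℝ | (z, θ) ∈ G2} = ∅ := by
            ext θ; simp only [mem_ofPred_eq, mem_empty_iff_false, iff_false]; exact hcon θ
          rw [this, measureReal_empty] at h5
          have : 0 < ε1 ^ k0 := by positivity
          linarith
        obtain ⟨θ, hθ⟩ := hne z hz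
        obtain ⟨θ', hθ'⟩ := hne z' hz'
        have h5 := hs1.c0 _ (hG1.sub (hG2.sub hθ)) _ (hG1.sub (hG2.sub hθ'))
          ((hX'X hz).1.trans (hX'X hz').1.symm)
        simp only at h5
        have h6 := hX'b z hz
        have h7 := hX'b z' hz'
        have e5 : P * (z - z') + Q * conj (z - z') = (B0 z - B0 z') - ((B0 z - (β + P * z + Q * conj z))
          - (B0 z' - (β + P * z' + Q * conj z'))) := by rw [map_sub]; ring
        rw [e5]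
        refine (norm_sub_le _ _).trans ?_
        have h8 := norm_sub_le (B0 z - (β + P * z + Q * conj z)) (B0 z' - (β + P * z' + Q * conj z'))
        have h9 : 6 * d ^ 2 / ε / ε ^ (b * n1) * 2 ≤ d / ε := by
          have e6 : 6 * d ^ 2 / ε / ε ^ (b * n1) * 2 = (12 * d) / ε ^ (b * n1) * (d / ε) := by ring
          rw [e6]
          have : (12 * d) / ε ^ (b * n1) ≤ 1 := by rw [div_le_one hεb]; exact h12
          calc (12 * d) / ε ^ (b * n1) * (d / ε) ≤ 1 * (d / ε) := mul_le_mul_of_nonneg_right this (by positivity)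
            _ = d / ε := one_mul _
        have e7 : 2 * d / ε = 1 / ε * d + d / ε := by ring
        rw [e7]; linarith
      have hPQ := hlin P Q (2 * d / ε) (ε ^ (b * n1)) d X' hX'm hd hεb
        (fun z hz z' hz' => B8_same_cell d hd z z' ((hX'X hz).1.trans (hX'X hz').1.symm)) hX'v hosc
      have e8 : CL * (2 * d / ε) / (ε ^ (b * n1) * d) = 2 * CL / (ε * ε ^ (b * n1)) := by
        field_simp
      rw [e8] at hPQ
      refine ⟨β, P, Q, X', hX'm, hX'X, fun _ => ?_, hPQ.1.trans hA1, hPQ.2.trans hA1, ?_⟩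
      · refine le_trans (mul_le_mul_of_nonneg_right ?_ (sq_nonneg d)) hX'v
        rw [hε1def, ← pow_mul]
        exact pow_le_pow_of_le_one hε.le hε1 (by omega)
      · intro x hx
        refine (hX'b x hx).trans ?_
        have e9 : 6 * d ^ 2 / ε / ε ^ (b * n1) = 6 / (ε * ε ^ (b * n1)) * d ^ 2 := by
          field_simp
        rw [e9]
        exact mul_le_mul_of_nonneg_right hA2 (sq_nonneg d)
    · exact ⟨0, 0, 0, ∅, MeasurableSet.empty, empty_subset _, fun h => absurd h hheavy,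
        by rw [norm_zero]; exact hA0.le, by rw [norm_zero]; exact hA0.le, fun x hx => absurd hx (notMem_empty x)⟩
  choose β P Q X' hX'm hX'X hX'v hPb hQb hX'b using hcell
  obtain ⟨hGm, hGv⟩ := hS ε1 hε1pos hε1half d hd hd1 G2 hG2.meas (fun g hg => hsys.bdd g (hG1.sub (hG2.sub hg)))
    hang2 (hε150.trans hG2.vol) X' hX'm hX'X hX'v
  refine ⟨{g | g ∈ G2 ∧ g.1 ∈ X' (cell d g.1)}, ⟨fun g hg => hG1.sub (hG2.sub hg.1), hGm, ?_⟩, β, P, Q, ?_⟩
  · refine le_trans ?_ hGv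
    rw [hε1def, ← pow_mul]
    exact pow_le_pow_of_le_one hε.le hε1 (by omega)
  · exact ⟨hPb, hQb, fun g hg => hX'b _ _ hg.2⟩

end TriDil
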