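import Pool.Agent.TriDil.Basic7
import Pool.Agent.TriDil.B1
import Pool.Agent.TriDil.B2
import Pool.Agent.TriDil.B4
import Pool.Agent.TriDil.B7
import Pool.Agent.TriDil.B8
set_option autoImplicit false
open MeasureTheory Complex Set
namespace TriDil
open scoped ComplexConjugate

/-! ### local expansions -/

theorem B9_U (θ α : ℝ) (hα : |α| ≤ 1) : ∃ r : ℂ, ‖r‖ ≤ α ^ 2 ∧
    U (θ + α) = U θ + I * α * U θ + r :=
  ⟨U (θ + α) - U θ - I * α * U θ, norm_U_sub_le2 θ α hα, by ring⟩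

theorem B9_slide (p P Q : ℂ) (hp : p ≠ 0) (θ α l l' A E : ℝ) (hα : |α| ≤ 1)
    (hP : ‖P‖ ≤ A) (hQ : ‖Q‖ ≤ A) (hl' : |l'| ≤ A)
    (h : ‖P * (p * (U (θ + α) - U θ)) + Q * conj (p * (U (θ + α) - U θ))
        - conj p * (l' * U (θ + α) - l * U θ)‖ ≤ E) :
    |α * ((p / conj p * P).re - (Q * conj (U θ ^ 2)).re - l')| ≤ E / ‖p‖ + 3 * A * α ^ 2 ∧
    |α * (-(p / conj p * P).im + (Q * conj (U θ ^ 2)).im) - (l' - l)|
      ≤ E / ‖p‖ + 3 * A * α ^ 2 := by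
  obtain ⟨r, hr, hU⟩ := B9_U θ α hα
  have huu : U θ * conj (U θ) = 1 := U_mul_conj θ
  have hun : ‖U θ‖ = 1 := norm_U θ
  rw [hU] at h
  generalize U θ = u at *
  have hcp : conj p ≠ 0 := by simpa using hp
  have hpn : 0 < ‖p‖ := norm_pos_iff.mpr hp
  set Pt : ℂ := p / conj p * P with hPt
  have hPtn : ‖Pt‖ ≤ A := by
    rw [hPt, norm_mul, norm_div, norm_conj, div_self hpn.ne', one_mul]; exact hP
  set X : ℂ := conj u / conj p * (P * (p * (u + I * α * u + r - u)) + Q * conj (p * (u + I * α * u + r - u))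
        - conj p * (l' * (u + I * α * u + r) - l * u)) with hX
  set Rm : ℂ := Pt * (conj u * r) + Q * (conj u * conj r) - l' * (conj u * r) with hRm
  have hXn : ‖X‖ ≤ E / ‖p‖ := by
    rw [hX, norm_mul, norm_div, norm_conj, norm_conj, hun, one_div, inv_mul_eq_div]
    gcongr
  have e : X - Rm = I * α * Pt - I * α * (Q * conj (u ^ 2)) - I * α * l' - (l' - l) := by
    have e1 : X = Pt * (conj u * (I * α * u + r)) + Q * (conj u * conj (I * α * u + r))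
        - (l' * (conj u * (u + I * α * u + r)) - l * (conj u * u)) := by
      have e0 : u + I * α * u + r - u = I * α * u + r := by ring
      rw [hX, hPt, e0, map_mul]
      generalize conj (I * α * u + r) = w
      field_simp
    rw [e1, hRm]
    simp only [map_mul, map_add, conj_I, conj_ofReal, map_pow]
    linear_combination (Pt * I * α - l' * (1 + I * α) + l) * huu
  have hRn : ‖Rm‖ ≤ 3 * A * α ^ 2 := by
    clear_value Pt
    have hA : 0 ≤ A := (norm_nonneg _).trans hP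
    have hcu : ‖conj u‖ = 1 := by rw [norm_conj, hun]
    have h1 : ‖Pt * (conj u * r)‖ ≤ A * α ^ 2 := by
      rw [norm_mul Pt, norm_mul, hcu, one_mul]
      exact mul_le_mul hPtn hr (norm_nonneg _) hA
    have h2 : ‖Q * (conj u * conj r)‖ ≤ A * α ^ 2 := by
      rw [norm_mul, norm_mul, hcu, one_mul, norm_conj]
      exact mul_le_mul hQ hr (norm_nonneg _) hA
    have h3 : ‖(l' : ℂ) * (conj u * r)‖ ≤ A * α ^ 2 := by
      rw [norm_mul, norm_mul, hcu, one_mul, norm_real, Real.norm_eq_abs]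
      exact mul_le_mul hl' hr (norm_nonneg _) hA
    calc ‖Rm‖ ≤ ‖Pt * (conj u * r)‖ + ‖Q * (conj u * conj r)‖ + ‖(l' : ℂ) * (conj u * r)‖ :=
          (norm_sub_le _ _).trans (add_le_add_left (norm_add_le _ _) _)
      _ ≤ 3 * A * α ^ 2 := by linarith
  have hn : ‖X - Rm‖ ≤ E / ‖p‖ + 3 * A * α ^ 2 := (norm_sub_le _ _).trans (add_le_add hXn hRn)
  constructor
  · have e2 : α * (Pt.re - (Q * conj (u ^ 2)).re - l') = (X - Rm).im := by
      rw [e]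
      simp only [sub_im, mul_im, mul_re, I_re, I_im, ofReal_re, ofReal_im]
      ring
    rw [e2]
    exact (abs_im_le_norm _).trans hn
  · have e2 : α * (-Pt.im + (Q * conj (u ^ 2)).im) - (l' - l) = (X - Rm).re := by
      rw [e]
      simp only [sub_re, mul_im, mul_re, I_re, I_im, ofReal_re, ofReal_im]
      ring
    rw [e2]
    exact (abs_re_le_norm _).trans hn

/-- the linear form in (R2) -/
theorem B9_lin (P0 Q0 P1 Q1 b b' z : ℂ) (θ α l l' A E κ δ : ℝ) (hδ : δ ≤ 1) (hα : |α| ≤ δ)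
    (hz : ‖z‖ ≤ 2 * δ)
    (hP0 : ‖P0‖ ≤ A) (hQ0 : ‖Q0‖ ≤ A) (hP1 : ‖P1‖ ≤ A) (hQ1 : ‖Q1‖ ≤ A) (hl : |l| ≤ A)
    (hb : ‖b - l * U θ‖ ≤ κ) (hb' : ‖b' - l' * U (θ + α)‖ ≤ κ)
    (h : ‖b' - b - (P1 * (z + (U (θ + α) - U θ)) + Q1 * conj (z + (U (θ + α) - U θ))
      - (P0 * z + Q0 * conj z))‖ ≤ E) :
    |ip (I * (U θ * conj (P1 - P0) - conj (U θ) * (Q1 - Q0))) z
      + (P1.re - (Q1 * conj (U θ ^ 2)).re - l) * α| ≤ 2 * κ + E + 15 * A * δ ^ 2 := by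
  have hα1 : |α| ≤ 1 := hα.trans hδ
  obtain ⟨r, hr, hU⟩ := B9_U θ α hα1
  have huu : U θ * conj (U θ) = 1 := U_mul_conj θ
  have huu' : U (θ + α) * conj (U (θ + α)) = 1 := U_mul_conj _
  have hun : ‖U θ‖ = 1 := norm_U θ
  have hun' : ‖U (θ + α)‖ = 1 := norm_U _
  have hdiff : ‖U (θ + α) - U θ‖ ≤ |α| := norm_U_sub_le θ α
  generalize U (θ + α) = u' at *
  generalize U θ = u at *
  have hA : 0 ≤ A := (norm_nonneg _).trans hP0
  have hδ0 : 0 ≤ δ := (abs_nonneg _).trans hα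
  have hα2 : α ^ 2 ≤ δ ^ 2 := by rw [← sq_abs α]; gcongr
  set W : ℂ := (P1 - P0) * z + (Q1 - Q0) * conj z + P1 * (u' - u) + Q1 * conj (u' - u) with hW
  set e1 : ℂ := b' - b - (P1 * (z + (u' - u)) + Q1 * conj (z + (u' - u)) - (P0 * z + Q0 * conj z)) with he1
  -- the imaginary part of conj u' * b'
  have i1 : |(conj u' * b').im| ≤ κ := by
    have e : (conj u' * b').im = (conj u' * (b' - l' * u')).im := by
      have : conj u' * (b' - l' * u') = conj u' * b' - l' := by linear_combination (-l') * huu'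
      rw [this]; simp
    rw [e]
    calc _ ≤ ‖conj u' * (b' - l' * u')‖ := abs_im_le_norm _
      _ = ‖b' - l' * u'‖ := by rw [norm_mul, norm_conj, hun', one_mul]
      _ ≤ κ := hb'
  have hWn : ‖W‖ ≤ 10 * A * δ := by
    have a1 : ‖(P1 - P0) * z‖ ≤ (A + A) * (2 * δ) := by
      rw [norm_mul]
      exact mul_le_mul ((norm_sub_le _ _).trans (add_le_add hP1 hP0)) hz (norm_nonneg _) (by linarith)
    have a2 : ‖(Q1 - Q0) * conj z‖ ≤ (A + A) * (2 * δ) := by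
      rw [norm_mul, norm_conj]
      exact mul_le_mul ((norm_sub_le _ _).trans (add_le_add hQ1 hQ0)) hz (norm_nonneg _) (by linarith)
    have a3 : ‖P1 * (u' - u)‖ ≤ A * δ := by
      rw [norm_mul]; exact mul_le_mul hP1 (hdiff.trans hα) (norm_nonneg _) hA
    have a4 : ‖Q1 * conj (u' - u)‖ ≤ A * δ := by
      rw [norm_mul, norm_conj]; exact mul_le_mul hQ1 (hdiff.trans hα) (norm_nonneg _) hA
    calc ‖W‖ ≤ ‖(P1 - P0) * z‖ + ‖(Q1 - Q0) * conj z‖ + ‖P1 * (u' - u)‖ + ‖Q1 * conj (u' - u)‖ := by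
          rw [hW]
          exact (norm_add_le _ _).trans (add_le_add_left ((norm_add_le _ _).trans
            (add_le_add_left (norm_add_le _ _) _)) _)
      _ ≤ 10 * A * δ := by linarith
  -- decomposition
  have key : ip (I * (u * conj (P1 - P0) - conj u * (Q1 - Q0))) z
      + (P1.re - (Q1 * conj (u ^ 2)).re - l) * α
      = (conj u' * b').im - (conj u' * (b - l * u)).im - (conj u' * e1).im
        - (conj u * (P1 * r + Q1 * conj r)).im - (conj (u' - u) * W).im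
        - (l * (conj r * u)).im := by
    have e2 : conj u' * b' - conj u' * (b - l * u) - conj u' * e1
        - conj u * (P1 * r + Q1 * conj r) - conj (u' - u) * W - l * (conj r * u)
        = conj u * ((P1 - P0) * z + (Q1 - Q0) * conj z) + I * α * P1 - I * α * (Q1 * conj (u ^ 2))
          + l * (1 - I * α) := by
      rw [he1, hW, hU]
      simp only [map_add, map_sub, map_mul, conj_I, conj_ofReal, map_pow]
      linear_combination (I * α * P1 + l * (1 - I * α)) * huu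
    have e3 : (conj u' * b').im - (conj u' * (b - l * u)).im - (conj u' * e1).im
        - (conj u * (P1 * r + Q1 * conj r)).im - (conj (u' - u) * W).im
        - (l * (conj r * u)).im
        = (conj u' * b' - conj u' * (b - l * u) - conj u' * e1
        - conj u * (P1 * r + Q1 * conj r) - conj (u' - u) * W - l * (conj r * u)).im := by
      simp only [sub_im]
    rw [e3, e2]
    simp only [ip, add_im, sub_im, mul_im, mul_re, I_re, I_im, ofReal_re, ofReal_im, sub_re, conj_re, conj_im,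
      add_re, one_re, one_im, map_pow, map_sub]
    ring
  have i2 : |(conj u' * (b - l * u)).im| ≤ κ := by
    calc _ ≤ ‖conj u' * (b - l * u)‖ := abs_im_le_norm _
      _ = ‖b - l * u‖ := by rw [norm_mul, norm_conj, hun', one_mul]
      _ ≤ κ := hb
  have i3 : |(conj u' * e1).im| ≤ E := by
    calc _ ≤ ‖conj u' * e1‖ := abs_im_le_norm _
      _ = ‖e1‖ := by rw [norm_mul, norm_conj, hun', one_mul]
      _ ≤ E := h
  have i4 : |(conj u * (P1 * r + Q1 * conj r)).im| ≤ 2 * A * δ ^ 2 := by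
    calc _ ≤ ‖conj u * (P1 * r + Q1 * conj r)‖ := abs_im_le_norm _
      _ = ‖P1 * r + Q1 * conj r‖ := by rw [norm_mul, norm_conj, hun, one_mul]
      _ ≤ ‖P1 * r‖ + ‖Q1 * conj r‖ := norm_add_le _ _
      _ = ‖P1‖ * ‖r‖ + ‖Q1‖ * ‖r‖ := by rw [norm_mul, norm_mul, norm_conj]
      _ ≤ A * δ ^ 2 + A * δ ^ 2 := by
          gcongr
          · exact hr.trans hα2
          · exact hr.trans hα2
      _ = 2 * A * δ ^ 2 := by ring
  have i5 : |(conj (u' - u) * W).im| ≤ 10 * A * δ ^ 2 := by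
    calc _ ≤ ‖conj (u' - u) * W‖ := abs_im_le_norm _
      _ = ‖u' - u‖ * ‖W‖ := by rw [norm_mul, norm_conj]
      _ ≤ δ * (10 * A * δ) := mul_le_mul (hdiff.trans hα) hWn (norm_nonneg _) hδ0
      _ = 10 * A * δ ^ 2 := by ring
  have i6 : |((l : ℂ) * (conj r * u)).im| ≤ A * δ ^ 2 := by
    calc _ ≤ ‖(l : ℂ) * (conj r * u)‖ := abs_im_le_norm _
      _ = |l| * ‖r‖ := by rw [norm_mul, norm_mul, norm_conj, hun, mul_one, norm_real, Real.norm_eq_abs]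
      _ ≤ A * δ ^ 2 := mul_le_mul hl (hr.trans hα2) (norm_nonneg _) hA
  rw [key]
  have hAδ : 0 ≤ A * δ ^ 2 := by positivity
  rw [abs_le] at i1 i2 i3 i4 i5 i6 ⊢
  constructor <;> linarith

theorem B9_cmp (p P : ℂ) (hp : p.im ≠ 0) (l q K : ℝ) (h1 : |l - (P.re - q)| ≤ K)
    (h2 : |l - ((p / conj p * P).re - q)| ≤ K) :
    ‖P - conj p * ((P / conj p).re : ℝ)‖ ≤ K * ‖p‖ / |p.im| := by
  have hp0 : p ≠ 0 := by rintro rfl; exact hp rfl
  have hcp : conj p ≠ 0 := by simpa using hp0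
  have hpi : 0 < |p.im| := abs_pos.mpr hp
  set τ : ℂ := P / conj p with hτ
  have hP : P = conj p * τ := by rw [hτ]; field_simp
  have hP2 : p / conj p * P = p * τ := by rw [hτ]; field_simp
  have e1 : P.re - (p / conj p * P).re = 2 * p.im * τ.im := by
    rw [hP2, hP]; simp only [mul_re, conj_re, conj_im]; ring
  have h3 : |2 * p.im * τ.im| ≤ 2 * K := by
    rw [← e1, abs_le]; rw [abs_le] at h1 h2
    constructor <;> linarith
  have h4 : |τ.im| ≤ K / |p.im| := by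
    rw [le_div_iff₀ hpi]
    rw [abs_mul, abs_mul, abs_of_pos (two_pos)] at h3
    linarith
  have e2 : P - conj p * (τ.re : ℝ) = conj p * (τ.im * I) := by
    rw [hP]; nth_rewrite 1 [← re_add_im τ]; ring
  rw [e2, norm_mul, norm_conj, norm_mul, norm_I, mul_one, norm_real, Real.norm_eq_abs]
  calc ‖p‖ * |τ.im| ≤ ‖p‖ * (K / |p.im|) := by gcongr
    _ = K * ‖p‖ / |p.im| := by ring

/-- label of the cube of side `δ` -/
noncomputable def B9_lab (δ : ℝ) (g : ℂ × ℝ) : ℤ × ℤ × ℤ := (⌊g.1.re / δ⌋, ⌊g.1.im / δ⌋, ⌊g.2 / δ⌋)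

theorem B9_lab_meas (δ : ℝ) : Measurable (B9_lab δ) := by
  unfold B9_lab
  refine Measurable.prodMk ?_ (Measurable.prodMk ?_ ?_)
  · exact Int.measurable_floor.comp ((Complex.measurable_re.comp measurable_fst).div_const δ)
  · exact Int.measurable_floor.comp ((Complex.measurable_im.comp measurable_fst).div_const δ)
  · exact Int.measurable_floor.comp (measurable_snd.div_const δ)

theorem B9_cell_meas (d : ℝ) : Measurable (cell d) := by
  unfold cell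
  refine Measurable.prodMk ?_ ?_
  · exact Int.measurable_floor.comp (Complex.measurable_re.div_const d)
  · exact Int.measurable_floor.comp (Complex.measurable_im.div_const d)

theorem B9_floor (δ a b : ℝ) (hδ : 0 < δ) (h : ⌊a / δ⌋ = ⌊b / δ⌋) : |a - b| ≤ δ := by
  have := Int.abs_sub_lt_one_of_floor_eq_floor h
  rw [← sub_div, abs_div, abs_of_pos hδ, div_lt_one hδ] at this
  exact this.le

theorem B9_fin (R : ℝ) (G : Set (ℂ × ℝ)) (hb : ∀ g ∈ G, ‖g.1‖ ≤ R)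
    (ha : ∀ g ∈ G, g.2 ∈ Icc (0 : ℝ) 1) : volume G < ⊤ := by
  have h : G ⊆ Metric.closedBall (0 : ℂ) R ×ˢ Icc (0 : ℝ) 1 := by
    intro g hg
    exact ⟨by simpa using hb g hg, ha g hg⟩
  refine (measure_mono h).trans_lt ?_
  rw [Measure.volume_eq_prod, Measure.prod_prod]
  exact ENNReal.mul_lt_top measure_closedBall_lt_top (by simp)

theorem B9_cube (R : ℝ) : ∃ C : ℝ, 0 < C ∧ ∀ δ τ : ℝ, 0 < δ → δ ≤ 1 → 0 < τ →
    ∀ G : Set (ℂ × ℝ), MeasurableSet G →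
    (∀ g ∈ G, ‖g.1‖ ≤ R) → (∀ g ∈ G, g.2 ∈ Icc (0 : ℝ) 1) →
    volume.real {g | g ∈ G ∧ volume.real {z | z ∈ G ∧ B9_lab δ z = B9_lab δ g} < τ * δ ^ 3} ≤ C * τ := by
  refine ⟨(2 * |R| + 7) ^ 3, by positivity, ?_⟩
  intro δ τ hδ hδ1 hτ G hG hb ha
  have hfin := B9_fin R G hb ha
  set N : ℤ := ⌈(|R| + 2) / δ⌉ with hN
  set T : Finset (ℤ × ℤ × ℤ) := Finset.Icc (-N) N ×ˢ Finset.Icc (-N) N ×ˢ Finset.Icc (-N) N with hT
  set Bad : Set (ℂ × ℝ) := {g | g ∈ G ∧ volume.real {z | z ∈ G ∧ B9_lab δ z = B9_lab δ g} < τ * δ ^ 3} with hBad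
  have hNle : (|R| + 2) / δ ≤ N := Int.le_ceil _
  have hN2 : (N : ℝ) ≤ (|R| + 3) / δ := by
    have h1 : (N : ℝ) < (|R| + 2) / δ + 1 := Int.ceil_lt_add_one _
    have h2 : (1 : ℝ) ≤ 1 / δ := by rw [le_div_iff₀ hδ]; linarith
    have h3 : (|R| + 3) / δ = (|R| + 2) / δ + 1 / δ := by ring
    linarith
  have hN0 : 0 ≤ N := by
    have : (0 : ℝ) ≤ N := le_trans (by positivity) hNle
    exact_mod_cast this
  have hfl : ∀ a : ℝ, |a| ≤ |R| + 2 - δ → ⌊a / δ⌋ ∈ Finset.Icc (-N) N := by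
    intro a hab
    have h1 : |a / δ| ≤ (|R| + 2) / δ - 1 := by
      rw [abs_div, abs_of_pos hδ, div_le_iff₀ hδ]
      have : ((|R| + 2) / δ - 1) * δ = |R| + 2 - δ := by field_simp
      rw [this]; exact hab
    rw [abs_le] at h1
    rw [Finset.mem_Icc]
    constructor
    · rw [Int.le_floor]; push_cast; linarith
    · have h2 : ((⌊a / δ⌋ : ℤ) : ℝ) ≤ N := (Int.floor_le _).trans (by linarith)
      exact_mod_cast h2
  have hR : ∀ g ∈ G, B9_lab δ g ∈ T := by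
    intro g hg
    have h1 := hb g hg
    have h2 := ha g hg
    have hRR := le_abs_self R
    rw [hT, Finset.mem_product, Finset.mem_product]
    -- handle the boundary: `|re| ≤ R`, need `≤ |R| + 2 - δ`
    refine ⟨hfl _ ?_, hfl _ ?_, hfl _ ?_⟩
    · exact (abs_re_le_norm _).trans (by linarith)
    · exact (abs_im_le_norm _).trans (by linarith)
    · have h3 : |g.2| ≤ 1 := by rw [abs_le]; exact ⟨by linarith [h2.1], h2.2⟩
      have h4 := abs_nonneg R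
      linarith
  have hsub : Bad ⊆ ⋃ t ∈ T, {g | g ∈ Bad ∧ B9_lab δ g = t} := by
    intro g hg
    simp only [mem_iUnion]
    exact ⟨B9_lab δ g, hR g hg.1, hg, rfl⟩
  have hsl : ∀ t ∈ T, volume.real {g | g ∈ Bad ∧ B9_lab δ g = t} ≤ τ * δ ^ 3 := by
    intro t _
    rcases eq_empty_or_nonempty {g | g ∈ Bad ∧ B9_lab δ g = t} with h | ⟨g0, hg0, ht⟩
    · rw [h]; simp; positivity
    · refine le_trans ?_ hg0.2.le
      apply measureReal_mono
      · rintro g ⟨hg, hgt⟩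
        exact ⟨hg.1, by rw [hgt, ht]⟩
      · exact ((measure_mono (fun z hz => hz.1)).trans_lt hfin).ne
  have hfinT : volume (⋃ t ∈ T, {g | g ∈ Bad ∧ B9_lab δ g = t}) ≠ ⊤ := by
    refine ((measure_mono ?_).trans_lt hfin).ne
    intro g hg
    simp only [mem_iUnion] at hg
    obtain ⟨t, _, hg, _⟩ := hg
    exact hg.1
  calc volume.real Bad ≤ volume.real (⋃ t ∈ T, {g | g ∈ Bad ∧ B9_lab δ g = t}) := measureReal_mono hsub hfinT
    _ ≤ ∑ t ∈ T, volume.real {g | g ∈ Bad ∧ B9_lab δ g = t} := measureReal_biUnion_finset_le _ _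
    _ ≤ ∑ _t ∈ T, τ * δ ^ 3 := Finset.sum_le_sum hsl
    _ = (2 * N + 1) ^ 3 * (τ * δ ^ 3) := by
        rw [Finset.sum_const, hT, Finset.card_product, Finset.card_product, Int.card_Icc, nsmul_eq_mul]
        congr 1
        push_cast
        have : (((N + 1 - -N).toNat : ℕ) : ℝ) = 2 * N + 1 := by
          have h : ((N + 1 - -N).toNat : ℤ) = 2 * N + 1 := by rw [Int.toNat_of_nonneg (by linarith)]; ring
          exact_mod_cast h
        rw [this]; ring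
    _ ≤ ((2 * |R| + 7) / δ) ^ 3 * (τ * δ ^ 3) := by
        have h1 : 2 * (N : ℝ) + 1 ≤ (2 * |R| + 7) / δ := by
          have h2 : (1 : ℝ) ≤ 1 / δ := by rw [le_div_iff₀ hδ]; linarith
          have h3 : (2 * |R| + 7) / δ = 2 * ((|R| + 3) / δ) + 1 / δ := by ring
          linarith
        have h0 : (0 : ℝ) ≤ N := by exact_mod_cast hN0
        gcongr
    _ = (2 * |R| + 7) ^ 3 * τ := by field_simp

/-- both functions are affine on cells up to `d² / ε` -/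
structure B9_H (ω : ℂ) (R ε κ d : ℝ) (B0 B1 B2 : ℂ → ℂ) (G : Set (ℂ × ℝ))
    (β0 P0 Q0 β1 P1 Q1 : ℤ × ℤ → ℂ) : Prop where
  sys : Sys ω R ε κ B0 B1 B2 G
  s0 : S2P (1 / ε) d B0 G β0 P0 Q0
  bP : ∀ c, ‖P1 c‖ ≤ 1 / ε
  bQ : ∀ c, ‖Q1 c‖ ≤ 1 / ε
  aff : ∀ g ∈ G, ‖B1 (g.1 + U g.2) - (β1 (cell d (-(g.1 + U g.2)))
    + P1 (cell d (-(g.1 + U g.2))) * (g.1 + U g.2)
    + Q1 (cell d (-(g.1 + U g.2))) * conj (g.1 + U g.2))‖ ≤ 1 / ε * d ^ 2

section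
variable {ω : ℂ} {R ε κ d : ℝ} {B0 B1 B2 : ℂ → ℂ} {G : Set (ℂ × ℝ)}
  {β0 P0 Q0 β1 P1 Q1 : ℤ × ℤ → ℂ}

theorem B9_H.d0 (h : B9_H ω R ε κ d B0 B1 B2 G β0 P0 Q0 β1 P1 Q1) {x x' : ℂ} {θ θ' : ℝ}
    (hg : (x, θ) ∈ G) (hg' : (x', θ') ∈ G) (hc : cell d x' = cell d x) :
    ‖B0 x' - B0 x - (P0 (cell d x) * (x' - x) + Q0 (cell d x) * conj (x' - x))‖ ≤ 2 * (1 / ε) * d ^ 2 := by
  have h1 := h.s0.aff _ hg
  have h2 := h.s0.aff _ hg'
  simp only [hc] at h1 h2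
  rw [map_sub]
  calc _ = ‖(B0 x' - (β0 (cell d x) + P0 (cell d x) * x' + Q0 (cell d x) * conj x'))
      - (B0 x - (β0 (cell d x) + P0 (cell d x) * x + Q0 (cell d x) * conj x))‖ := by congr 1; ring
    _ ≤ _ := norm_sub_le _ _
    _ ≤ 2 * (1 / ε) * d ^ 2 := by linarith

theorem B9_H.d1 (h : B9_H ω R ε κ d B0 B1 B2 G β0 P0 Q0 β1 P1 Q1) {x x' : ℂ} {θ θ' : ℝ}
    (hg : (x, θ) ∈ G) (hg' : (x', θ') ∈ G) (hc : cell d (-(x' + U θ')) = cell d (-(x + U θ))) :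
    ‖B1 (x' + U θ') - B1 (x + U θ) - (P1 (cell d (-(x + U θ))) * ((x' + U θ') - (x + U θ))
      + Q1 (cell d (-(x + U θ))) * conj ((x' + U θ') - (x + U θ)))‖ ≤ 2 * (1 / ε) * d ^ 2 := by
  have h1 := h.aff _ hg
  have h2 := h.aff _ hg'
  simp only [hc] at h1 h2
  rw [map_sub]
  calc _ = ‖(B1 (x' + U θ') - (β1 (cell d (-(x + U θ))) + P1 (cell d (-(x + U θ))) * (x' + U θ')
        + Q1 (cell d (-(x + U θ))) * conj (x' + U θ')))
      - (B1 (x + U θ) - (β1 (cell d (-(x + U θ))) + P1 (cell d (-(x + U θ))) * (x + U θ)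
        + Q1 (cell d (-(x + U θ))) * conj (x + U θ)))‖ := by congr 1; ring
    _ ≤ _ := norm_sub_le _ _
    _ ≤ 2 * (1 / ε) * d ^ 2 := by linarith

/-- (R2) -/
theorem B9_R2 : ∃ C : ℝ, 0 < C ∧ ∀ {ω : ℂ} {R ε κ d : ℝ} {B0 B1 B2 : ℂ → ℂ} {G : Set (ℂ × ℝ)}
    {β0 P0 Q0 β1 P1 Q1 : ℤ × ℤ → ℂ}, B9_H ω R ε κ d B0 B1 B2 G β0 P0 Q0 β1 P1 Q1 →
    0 < ε → ε ≤ 1 → 0 < d → d ≤ 1 → κ ≤ d ^ 3 → ∀ η δ ρ : ℝ, 0 < η → 0 < δ → δ ≤ d → 3 * δ ≤ ρ →
    ∀ (x : ℂ) (θ : ℝ), (x, θ) ∈ G → deep d ρ x → deep d ρ (-(x + U θ)) →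
    η * δ ^ 3 ≤ volume.real {z | z ∈ G ∧ B9_lab δ z = B9_lab δ (x, θ)} →
    |ell B0 B1 x θ - ((P1 (cell d (-(x + U θ)))).re
        - (Q1 (cell d (-(x + U θ))) * conj (U θ ^ 2)).re)| ≤ C * (1 / ε * d ^ 2 / (η * δ)) ∧
    ‖(Q1 (cell d (-(x + U θ))) - Q0 (cell d x))
      - U θ ^ 2 * conj (P1 (cell d (-(x + U θ))) - P0 (cell d x))‖ ≤ C * (1 / ε * d ^ 2 / (η * δ)) := by
  obtain ⟨Cs, hCs, hslab⟩ := slab3 2
  refine ⟨Cs * 21, by positivity, ?_⟩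
  intro ω R ε κ d B0 B1 B2 G β0 P0 Q0 β1 P1 Q1 h hε hε1 hd hd1 hκ η δ ρ hη hδ hδd hδρ x θ hg hdx hdy hvol
  set c0 := cell d x with hc0
  set c1 := cell d (-(x + U θ)) with hc1
  have hA1 : 1 ≤ 1 / ε := by rw [le_div_iff₀ hε]; linarith
  have hκ2 : κ ≤ d ^ 2 := hκ.trans (by nlinarith [sq_nonneg d])
  set v : ℂ := I * (U θ * conj (P1 c1 - P0 c0) - conj (U θ) * (Q1 c1 - Q0 c0)) with hv
  set a : ℝ := (P1 c1).re - (Q1 c1 * conj (U θ ^ 2)).re - ell B0 B1 x θ with ha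
  set S : Set (ℂ × ℝ) := (fun z => (x, θ) + z) ⁻¹' {z | z ∈ G ∧ B9_lab δ z = B9_lab δ (x, θ)} with hS
  have hGm : MeasurableSet {z | z ∈ G ∧ B9_lab δ z = B9_lab δ (x, θ)} := by
    apply h.sys.mG.inter
    exact (B9_lab_meas δ) (measurableSet_singleton (B9_lab δ (x, θ)))
  have hmp : MeasurePreserving (fun z : ℂ × ℝ => (x + z.1, θ + z.2)) volume volume :=
    (measurePreserving_add_left (volume : Measure ℂ) x).prod
      (measurePreserving_add_left (volume : Measure ℝ) θ)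
  have hSm : MeasurableSet S := hmp.measurable hGm
  have hSv : volume.real S = volume.real {z | z ∈ G ∧ B9_lab δ z = B9_lab δ (x, θ)} := by
    unfold Measure.real
    have := hmp.measure_preimage hGm.nullMeasurableSet
    exact congrArg ENNReal.toReal this
  have hz1 : ∀ z ∈ S, ‖z.1‖ ≤ 2 * δ ∧ |z.2| ≤ δ ∧ (x + z.1, θ + z.2) ∈ G := by
    intro z hz
    obtain ⟨hzG, hzl⟩ := hz
    have hzG' : (x + z.1, θ + z.2) ∈ G := hzG
    have hzl' : B9_lab δ (x + z.1, θ + z.2) = B9_lab δ (x, θ) := hzl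
    simp only [B9_lab, Prod.mk.injEq] at hzl'
    obtain ⟨e1, e2, e3⟩ := hzl'
    have e1' := B9_floor δ _ _ hδ e1
    have e2' := B9_floor δ _ _ hδ e2
    have e3' := B9_floor δ _ _ hδ e3
    simp only [add_re, add_im, add_sub_cancel_left] at e1' e2' e3'
    refine ⟨?_, e3', hzG'⟩
    exact (Complex.norm_le_abs_re_add_abs_im _).trans (by linarith)
  have hlin : ∀ z ∈ S, |ip v z.1 + a * z.2| ≤ 21 * (1 / ε) * d ^ 2 := by
    intro z hz
    obtain ⟨hzn, hzα, hzG⟩ := hz1 z hz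
    have hcx : cell d (x + z.1) = cell d x := deep_cell d ρ hd x z.1 hdx (by linarith)
    have hUd : ‖U (θ + z.2) - U θ‖ ≤ δ := (norm_U_sub_le θ z.2).trans hzα
    have hcy : cell d (-((x + z.1) + U (θ + z.2))) = cell d (-(x + U θ)) := by
      have e : -((x + z.1) + U (θ + z.2)) = -(x + U θ) + -(z.1 + (U (θ + z.2) - U θ)) := by ring
      rw [e]
      apply deep_cell d ρ hd _ _ hdy
      rw [norm_neg]
      exact (norm_add_le _ _).trans (by linarith)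
    have k0 := h.d0 hg hzG hcx
    have k1 := h.d1 hg hzG hcy
    have r0 := h.sys.ra _ hg
    have r1 := h.sys.ra _ hzG
    simp only at r0 r1
    have hl := h.sys.hi _ hg
    simp only at hl
    have := B9_lin (P0 c0) (Q0 c0) (P1 c1) (Q1 c1) (B1 (x + U θ) - B0 x)
      (B1 ((x + z.1) + U (θ + z.2)) - B0 (x + z.1)) z.1 θ z.2 (ell B0 B1 x θ)
      (ell B0 B1 (x + z.1) (θ + z.2)) (1 / ε) (4 * (1 / ε) * d ^ 2) κ δ (hδd.trans hd1) hzα hzn
      (h.s0.bP _) (h.s0.bQ _) (h.bP _) (h.bQ _) hl r0 r1 (by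
        have e : B1 ((x + z.1) + U (θ + z.2)) - B0 (x + z.1) - (B1 (x + U θ) - B0 x)
          - (P1 c1 * (z.1 + (U (θ + z.2) - U θ)) + Q1 c1 * conj (z.1 + (U (θ + z.2) - U θ))
            - (P0 c0 * z.1 + Q0 c0 * conj z.1))
          = (B1 ((x + z.1) + U (θ + z.2)) - B1 (x + U θ) - (P1 c1 * (((x + z.1) + U (θ + z.2)) - (x + U θ))
            + Q1 c1 * conj (((x + z.1) + U (θ + z.2)) - (x + U θ))))
            - (B0 (x + z.1) - B0 x - (P0 c0 * ((x + z.1) - x) + Q0 c0 * conj ((x + z.1) - x))) := by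
          have e1 : x + z.1 - x = z.1 := by ring
          have e2 : ((x + z.1) + U (θ + z.2)) - (x + U θ) = z.1 + (U (θ + z.2) - U θ) := by ring
          rw [e1, e2]; ring
        rw [e]
        exact (norm_sub_le _ _).trans (by linarith))
    refine this.trans ?_
    have hδ2 : δ ^ 2 ≤ d ^ 2 := by gcongr
    have hd2 : 0 ≤ d ^ 2 := sq_nonneg d
    nlinarith
  obtain ⟨b1, b2⟩ := hslab v a (21 * (1 / ε) * d ^ 2) η δ S hSm hδ hη (fun z hz => (hz1 z hz).1)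
    (fun z hz => (hz1 z hz).2.1.trans (by linarith)) (by rw [hSv]; exact hvol) hlin
  have hK : Cs * (21 * (1 / ε) * d ^ 2) / (η * δ) = Cs * 21 * (1 / ε * d ^ 2 / (η * δ)) := by ring
  rw [hK] at b1 b2
  constructor
  · rw [abs_sub_comm] at b2
    exact b2
  · refine le_trans (le_of_eq ?_) b1
    have e : v = -(I * conj (U θ)) * ((Q1 c1 - Q0 c0) - U θ ^ 2 * conj (P1 c1 - P0 c0)) := by
      rw [hv]; linear_combination (-I * U θ * conj (P1 c1 - P0 c0)) * (U_mul_conj θ)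
    rw [e, norm_mul, norm_neg, norm_mul, norm_I, norm_conj, norm_U, one_mul, one_mul]

theorem B9_slide' (p P Q : ℂ) (hp : p ≠ 0) (θ α l l' A E W d η δ : ℝ) (hα0 : 0 < α) (hαd : α ≤ d)
    (hd1 : d ≤ 1) (hηδ : 0 < η * δ) (hα1 : η * δ / 2 ≤ α) (hW : 1 ≤ W) (hWp : 1 / ‖p‖ ≤ W)
    (hP : ‖P‖ ≤ A) (hQ : ‖Q‖ ≤ A) (hl' : |l'| ≤ A) (hE : E ≤ 6 * A * d ^ 2)
    (h : ‖P * (p * (U (θ + α) - U θ)) + Q * conj (p * (U (θ + α) - U θ))
        - conj p * (l' * U (θ + α) - l * U θ)‖ ≤ E) :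
    |l - ((p / conj p * P).re - (Q * conj (U θ ^ 2)).re)| ≤ 40 * W * (A * d ^ 2 / (η * δ)) := by
  have hA : 0 ≤ A := (norm_nonneg _).trans hP
  have hpn : 0 < ‖p‖ := norm_pos_iff.mpr hp
  have hα1' : |α| ≤ 1 := by rw [abs_of_pos hα0]; linarith
  obtain ⟨k1, k2⟩ := B9_slide p P Q hp θ α l l' A E hα1' hP hQ hl' h
  have hEp : E / ‖p‖ ≤ 6 * A * W * d ^ 2 := by
    calc E / ‖p‖ ≤ (6 * A * d ^ 2) / ‖p‖ := by gcongr
      _ = (6 * A * d ^ 2) * (1 / ‖p‖) := by ring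
      _ ≤ (6 * A * d ^ 2) * W := by gcongr
      _ = 6 * A * W * d ^ 2 := by ring
  have hPt : |(p / conj p * P).im| ≤ A := by
    refine (abs_im_le_norm _).trans ?_
    rw [norm_mul, norm_div, norm_conj, div_self hpn.ne', one_mul]; exact hP
  have hQt : |(Q * conj (U θ ^ 2)).im| ≤ A := by
    refine (abs_im_le_norm _).trans ?_
    rw [norm_mul, norm_conj, norm_pow, norm_U, one_pow, mul_one]; exact hQ
  set X : ℝ := (p / conj p * P).re - (Q * conj (U θ ^ 2)).re with hX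
  set Y : ℝ := -(p / conj p * P).im + (Q * conj (U θ ^ 2)).im with hY
  have hYn : |Y| ≤ 2 * A := by
    rw [hY]; rw [abs_le] at hPt hQt ⊢; constructor <;> linarith
  have hα2 : α ^ 2 ≤ d ^ 2 := by gcongr
  have hAd : 0 ≤ A * d ^ 2 := by positivity
  have hAW : A * d ^ 2 ≤ A * W * d ^ 2 := by nlinarith
  have hAα : A * α ^ 2 ≤ A * d ^ 2 := by gcongr
  have k1' : |α * (X - l')| ≤ 9 * (A * W * d ^ 2) := k1.trans (by linarith)
  have k3 : |l' - l| ≤ 2 * A * α + 9 * (A * W * d ^ 2) := by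
    have e : l' - l = α * Y - (α * Y - (l' - l)) := by ring
    rw [e]
    refine (abs_sub _ _).trans ?_
    have h3 : |α * Y| ≤ 2 * A * α := by
      rw [abs_mul, abs_of_pos hα0]; nlinarith
    have := k2.trans (show E / ‖p‖ + 3 * A * α ^ 2 ≤ 9 * (A * W * d ^ 2) by linarith)
    linarith
  have k4 : α * |X - l| ≤ 20 * (A * W * d ^ 2) := by
    have e : α * |X - l| = |α * (X - l') + α * (l' - l)| := by
      rw [← abs_of_pos hα0, ← abs_mul, abs_of_pos hα0]; congr 1; ring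
    rw [e]
    refine (abs_add_le _ _).trans ?_
    have h4 : |α * (l' - l)| ≤ 11 * (A * W * d ^ 2) := by
      rw [abs_mul, abs_of_pos hα0]
      calc α * |l' - l| ≤ α * (2 * A * α + 9 * (A * W * d ^ 2)) := by gcongr
        _ = 2 * (A * α ^ 2) + α * (9 * (A * W * d ^ 2)) := by ring
        _ ≤ 2 * (A * α ^ 2) + 1 * (9 * (A * W * d ^ 2)) := by
            have : α ≤ 1 := by linarith
            gcongr
        _ ≤ 11 * (A * W * d ^ 2) := by linarith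
    linarith
  rw [abs_sub_comm]
  have h5 : |X - l| * (η * δ / 2) ≤ 20 * (A * W * d ^ 2) := by
    calc |X - l| * (η * δ / 2) ≤ |X - l| * α := by gcongr
      _ = α * |X - l| := by ring
      _ ≤ _ := k4
  have e : 40 * W * (A * d ^ 2 / (η * δ)) = 40 * (A * W * d ^ 2) / (η * δ) := by ring
  rw [e, le_div_iff₀ hηδ]
  linarith

/-- (R3) -/
theorem B9_H.R3 (h : B9_H ω R ε κ d B0 B1 B2 G β0 P0 Q0 β1 P1 Q1) (h0 : ω.im ≠ 0) (W : ℝ)
    (hW1 : 1 ≤ W) (hWa : ‖ω‖ ≤ W) (hWb : ‖ω - 1‖ ≤ W) (hWi : 1 / |ω.im| ≤ W)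
    (hε : 0 < ε) (hε1 : ε ≤ 1) (hd : 0 < d) (hd1 : d ≤ 1) (hκ : κ ≤ d ^ 3) (η δ ρ : ℝ)
    (hη : 0 < η) (hδ : 0 < δ) (hδd : δ ≤ d) (hδρ : W * δ ≤ ρ) (x : ℂ) (θ : ℝ) (hg : (x, θ) ∈ G)
    (hdx : deep d ρ x) (hdy : deep d ρ (-(x + U θ))) (α : ℝ) (hα1 : η * δ / 2 ≤ α) (hα2 : α ≤ δ)
    (hrot : rot ω α (x, θ) ∈ G) :
    |ell B0 B1 x θ - ((ω / conj ω * P0 (cell d x)).re
      - (Q0 (cell d x) * conj (U θ ^ 2)).re)| ≤ 40 * W * (1 / ε * d ^ 2 / (η * δ)) ∧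
    |ell B0 B1 x θ - (((ω - 1) / conj (ω - 1) * P1 (cell d (-(x + U θ)))).re
      - (Q1 (cell d (-(x + U θ))) * conj (U θ ^ 2)).re)| ≤ 40 * W * (1 / ε * d ^ 2 / (η * δ)) := by
  have hηδ : 0 < η * δ := by positivity
  have hα0 : 0 < α := lt_of_lt_of_le (by positivity) hα1
  have hA1 : 1 ≤ 1 / ε := by rw [le_div_iff₀ hε]; linarith
  have hκ2 : κ ≤ 1 / ε * d ^ 2 := by
    have : d ^ 3 ≤ d ^ 2 := by nlinarith [sq_nonneg d]
    have h2 : d ^ 2 ≤ 1 / ε * d ^ 2 := by nlinarith [sq_nonneg d]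
    linarith
  have hAd : 0 ≤ 1 / ε * d ^ 2 := by positivity
  have hω0 : ω ≠ 0 := by rintro rfl; exact h0 rfl
  have hω1 : ω - 1 ≠ 0 := by
    intro h; apply h0; have := congrArg Complex.im h; simpa using this
  have hi : 0 < |ω.im| := abs_pos.mpr h0
  have hWp0 : 1 / ‖ω‖ ≤ W := le_trans (one_div_le_one_div_of_le hi (abs_im_le_norm ω)) hWi
  have hWp1 : 1 / ‖ω - 1‖ ≤ W := by
    refine le_trans (one_div_le_one_div_of_le hi ?_) hWi
    have := abs_im_le_norm (ω - 1)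
    simpa using this
  set x' : ℂ := x + ω * (U θ - U (θ + α)) with hx'
  have hg' : (x', θ + α) ∈ G := hrot
  have hUd : ‖U (θ + α) - U θ‖ ≤ δ := (norm_U_sub_le θ α).trans (by rw [abs_of_pos hα0]; exact hα2)
  have hcx : cell d x' = cell d x := by
    apply deep_cell d ρ hd x _ hdx
    rw [norm_mul, norm_sub_rev]
    exact (mul_le_mul hWa hUd (norm_nonneg _) (by linarith)).trans hδρ
  have hcy : cell d (-(x' + U (θ + α))) = cell d (-(x + U θ)) := by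
    have e : -(x' + U (θ + α)) = -(x + U θ) + (ω - 1) * (U (θ + α) - U θ) := by rw [hx']; ring
    rw [e]
    apply deep_cell d ρ hd _ _ hdy
    rw [norm_mul]
    exact (mul_le_mul hWb hUd (norm_nonneg _) (by linarith)).trans hδρ
  have hvx : x + ω * U θ = x' + ω * U (θ + α) := by rw [hx']; ring
  have s0 := h.sys.sl2 hg hg' hvx
  have s1 := h.sys.sl21 hg hg' hvx
  have k0 := h.d0 hg' hg hcx.symm
  have k1 := h.d1 hg' hg hcy.symm
  rw [hcx] at k0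
  rw [hcy] at k1
  have hl' := h.sys.hi _ hg'
  simp only at hl'
  constructor
  · apply B9_slide' ω (P0 (cell d x)) (Q0 (cell d x)) hω0 θ α (ell B0 B1 x θ) (ell B0 B1 x' (θ + α))
      (1 / ε) (6 * (1 / ε) * d ^ 2) W d η δ hα0 (hα2.trans hδd) hd1 hηδ hα1 hW1 hWp0 (h.s0.bP _)
      (h.s0.bQ _) hl' le_rfl
    have e1 : x - x' = ω * (U (θ + α) - U θ) := by rw [hx']; ring
    rw [← e1]
    have e : P0 (cell d x) * (x - x') + Q0 (cell d x) * conj (x - x')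
        - conj ω * (ell B0 B1 x' (θ + α) * U (θ + α) - ell B0 B1 x θ * U θ)
        = (B0 x - B0 x' - conj ω * (ell B0 B1 x' (θ + α) * U (θ + α) - ell B0 B1 x θ * U θ))
        - (B0 x - B0 x' - (P0 (cell d x) * (x - x') + Q0 (cell d x) * conj (x - x'))) := by ring
    rw [e]
    exact (norm_sub_le _ _).trans (by linarith)
  · apply B9_slide' (ω - 1) (P1 (cell d (-(x + U θ)))) (Q1 (cell d (-(x + U θ)))) hω1 θ α
      (ell B0 B1 x θ) (ell B0 B1 x' (θ + α))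
      (1 / ε) (6 * (1 / ε) * d ^ 2) W d η δ hα0 (hα2.trans hδd) hd1 hηδ hα1 hW1 hWp1 (h.bP _)
      (h.bQ _) hl' le_rfl
    have e1 : (x + U θ) - (x' + U (θ + α)) = (ω - 1) * (U (θ + α) - U θ) := by rw [hx']; ring
    rw [← e1]
    have e2 : conj (ω - 1) = conj ω - 1 := by simp
    rw [e2]
    have e : P1 (cell d (-(x + U θ))) * ((x + U θ) - (x' + U (θ + α)))
        + Q1 (cell d (-(x + U θ))) * conj ((x + U θ) - (x' + U (θ + α)))
        - (conj ω - 1) * (ell B0 B1 x' (θ + α) * U (θ + α) - ell B0 B1 x θ * U θ)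
        = (B1 (x + U θ) - B1 (x' + U (θ + α))
            - (conj ω - 1) * (ell B0 B1 x' (θ + α) * U (θ + α) - ell B0 B1 x θ * U θ))
        - (B1 (x + U θ) - B1 (x' + U (θ + α)) - (P1 (cell d (-(x + U θ))) * ((x + U θ) - (x' + U (θ + α)))
        + Q1 (cell d (-(x + U θ))) * conj ((x + U θ) - (x' + U (θ + α))))) := by ring
    rw [e]
    exact (norm_sub_le _ _).trans (by linarith)

theorem B9_H.V (h : B9_H ω R ε κ d B0 B1 B2 G β0 P0 Q0 β1 P1 Q1)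
    (hε : 0 < ε) (hε1 : ε ≤ 1) (hd1 : d ≤ 1) (hκ : κ ≤ d ^ 3) (x : ℂ) (θ α : ℝ)
    (hg : (x, θ) ∈ G) (hg' : (x, θ + α) ∈ G) (hα : |α| ≤ d)
    (hc : cell d (-(x + U θ)) = cell d (-(x + U (θ + α)))) :
    |α * (-(P1 (cell d (-(x + U θ)))).im + (Q1 (cell d (-(x + U θ))) * conj (U θ ^ 2)).im)
      - (ell B0 B1 x (θ + α) - ell B0 B1 x θ)| ≤ 7 * (1 / ε * d ^ 2) := by
  have hα1 : |α| ≤ 1 := hα.trans hd1
  have k1 := h.d1 hg hg' hc.symm
  have s0 := h.sys.sl0 hg hg'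
  have hl' := h.sys.hi _ hg'
  simp only at hl'
  have hκ2 : κ ≤ 1 / ε * d ^ 2 := by
    have : d ^ 3 ≤ d ^ 2 := by nlinarith [sq_nonneg d]
    have hA1 : 1 ≤ 1 / ε := by rw [le_div_iff₀ hε]; linarith
    have h2 : d ^ 2 ≤ 1 / ε * d ^ 2 := by nlinarith [sq_nonneg d]
    linarith
  have hsl := (B9_slide 1 (P1 (cell d (-(x + U θ)))) (Q1 (cell d (-(x + U θ)))) one_ne_zero θ α
    (ell B0 B1 x θ) (ell B0 B1 x (θ + α)) (1 / ε) (4 * (1 / ε) * d ^ 2) hα1 (h.bP _) (h.bQ _) hl' (by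
      have e : P1 (cell d (-(x + U θ))) * (1 * (U (θ + α) - U θ))
          + Q1 (cell d (-(x + U θ))) * conj (1 * (U (θ + α) - U θ))
          - conj 1 * (ell B0 B1 x (θ + α) * U (θ + α) - ell B0 B1 x θ * U θ)
        = (B1 (x + U (θ + α)) - B1 (x + U θ)
            - (ell B0 B1 x (θ + α) * U (θ + α) - ell B0 B1 x θ * U θ))
          - (B1 (x + U (θ + α)) - B1 (x + U θ) - (P1 (cell d (-(x + U θ))) * ((x + U (θ + α)) - (x + U θ))
            + Q1 (cell d (-(x + U θ))) * conj ((x + U (θ + α)) - (x + U θ)))) := by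
        have e1 : x + U (θ + α) - (x + U θ) = U (θ + α) - U θ := by ring
        rw [e1, map_one, one_mul, one_mul]; ring
      rw [e]
      exact (norm_sub_le _ _).trans (by linarith))).2
  rw [map_one, div_one, one_mul, norm_one, div_one] at hsl
  have hα2 : α ^ 2 ≤ d ^ 2 := by rw [← sq_abs α]; gcongr
  have hAd : 1 / ε * α ^ 2 ≤ 1 / ε * d ^ 2 := by gcongr
  refine hsl.trans ?_
  linarith

theorem B9_alg (ω P0 Q0 P1 Q1 : ℂ) (θ l K W : ℝ) (h0 : ω.im ≠ 0) (hK : 0 ≤ K)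
    (hW1 : 1 ≤ W) (hWa : ‖ω‖ ≤ W) (hWb : ‖ω - 1‖ ≤ W) (hWi : 1 / |ω.im| ≤ W)
    (fa : |l - (P1.re - (Q1 * conj (U θ ^ 2)).re)| ≤ K)
    (fb : ‖(Q1 - Q0) - U θ ^ 2 * conj (P1 - P0)‖ ≤ K)
    (fc : |l - ((ω / conj ω * P0).re - (Q0 * conj (U θ ^ 2)).re)| ≤ K)
    (fd : |l - (((ω - 1) / conj (ω - 1) * P1).re - (Q1 * conj (U θ ^ 2)).re)| ≤ K) :
    |l - (ω.re * (P0 / conj ω).re - ip Q0 (U θ ^ 2))| ≤ 4 * W ^ 2 * K ∧
    ‖Q1 - Q0 - U θ ^ 2 * ((ω - 1) * ((P1 / conj (ω - 1)).re : ℝ) - ω * ((P0 / conj ω).re : ℝ))‖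
      ≤ 4 * W ^ 2 * K ∧
    |P1.im + ω.im * (P1 / conj (ω - 1)).re| ≤ W ^ 2 * K := by
  have hi : 0 < |ω.im| := abs_pos.mpr h0
  have hu2 : U θ ^ 2 * conj (U θ ^ 2) = 1 := by
    rw [map_pow, ← mul_pow, U_mul_conj, one_pow]
  have hu2n : ‖U θ ^ 2‖ = 1 := by rw [norm_pow, norm_U, one_pow]
  have fa' : |l - (P0.re - (Q0 * conj (U θ ^ 2)).re)| ≤ 2 * K := by
    have e : ((Q1 - Q0 - U θ ^ 2 * conj (P1 - P0)) * conj (U θ ^ 2)).re
        = (Q1 * conj (U θ ^ 2)).re - (Q0 * conj (U θ ^ 2)).re - (P1.re - P0.re) := by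
      have e1 : (Q1 - Q0 - U θ ^ 2 * conj (P1 - P0)) * conj (U θ ^ 2)
        = Q1 * conj (U θ ^ 2) - Q0 * conj (U θ ^ 2) - conj (P1 - P0) := by
        linear_combination (-conj (P1 - P0)) * hu2
      rw [e1]; simp only [sub_re, conj_re]
    have h1 : |(Q1 * conj (U θ ^ 2)).re - (Q0 * conj (U θ ^ 2)).re - (P1.re - P0.re)| ≤ K := by
      rw [← e]
      refine (abs_re_le_norm _).trans ?_
      rw [norm_mul, norm_conj, hu2n, mul_one]; exact fb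
    rw [abs_le] at h1 fa ⊢
    constructor <;> linarith
  have fc' : |l - ((ω / conj ω * P0).re - (Q0 * conj (U θ ^ 2)).re)| ≤ 2 * K := fc.trans (by linarith)
  have fe := B9_cmp ω P0 h0 l _ _ fa' fc'
  have h0' : (ω - 1).im ≠ 0 := by simpa using h0
  have ff := B9_cmp (ω - 1) P1 h0' l _ _ fa fd
  have him : (ω - 1).im = ω.im := by simp
  rw [him] at ff
  set t0 : ℝ := (P0 / conj ω).re with ht0
  set t1 : ℝ := (P1 / conj (ω - 1)).re with ht1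
  have fe' : ‖P0 - conj ω * t0‖ ≤ 2 * (W ^ 2 * K) := by
    refine fe.trans ?_
    calc 2 * K * ‖ω‖ / |ω.im| = 2 * K * (‖ω‖ * (1 / |ω.im|)) := by ring
      _ ≤ 2 * K * (W * W) := by gcongr
      _ = 2 * (W ^ 2 * K) := by ring
  have ff' : ‖P1 - conj (ω - 1) * t1‖ ≤ W ^ 2 * K := by
    refine ff.trans ?_
    calc K * ‖ω - 1‖ / |ω.im| = K * (‖ω - 1‖ * (1 / |ω.im|)) := by ring
      _ ≤ K * (W * W) := by gcongr
      _ = W ^ 2 * K := by ring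
  have hWK : K ≤ W ^ 2 * K := le_mul_of_one_le_left hK (by nlinarith)
  refine ⟨?_, ?_, ?_⟩
  · have h1 : |P0.re - ω.re * t0| ≤ 2 * (W ^ 2 * K) := by
      have e : P0.re - ω.re * t0 = (P0 - conj ω * t0).re := by
        simp only [sub_re, mul_re, conj_re, conj_im, ofReal_re, ofReal_im]; ring
      rw [e]; exact (abs_re_le_norm _).trans fe'
    rw [← ip_eq_re] at fa'
    rw [abs_le] at h1 fa' ⊢
    constructor <;> linarith
  · have e : Q1 - Q0 - U θ ^ 2 * ((ω - 1) * (t1 : ℂ) - ω * (t0 : ℂ))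
        = (Q1 - Q0 - U θ ^ 2 * conj (P1 - P0)) + U θ ^ 2 * conj (P1 - conj (ω - 1) * t1)
          - U θ ^ 2 * conj (P0 - conj ω * t0) := by
      simp only [map_sub, map_mul, conj_conj, conj_ofReal, map_one]; ring
    rw [e]
    have n1 : ‖U θ ^ 2 * conj (P1 - conj (ω - 1) * t1)‖ ≤ W ^ 2 * K := by
      rw [norm_mul, hu2n, one_mul, norm_conj]; exact ff'
    have n2 : ‖U θ ^ 2 * conj (P0 - conj ω * t0)‖ ≤ 2 * (W ^ 2 * K) := by
      rw [norm_mul, hu2n, one_mul, norm_conj]; exact fe'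
    refine (norm_sub_le _ _).trans ?_
    have n3 := norm_add_le (Q1 - Q0 - U θ ^ 2 * conj (P1 - P0)) (U θ ^ 2 * conj (P1 - conj (ω - 1) * t1))
    linarith
  · have e : P1.im + ω.im * t1 = (P1 - conj (ω - 1) * t1).im := by
      simp only [sub_im, mul_im, conj_re, conj_im, ofReal_re, ofReal_im, him]; ring
    rw [e]; exact (abs_im_le_norm _).trans ff'

theorem B9_core (ω : ℂ) (h0 : ω.im ≠ 0) (R : ℝ) : ∃ n : ℕ, 1 ≤ n ∧ ∀ ε : ℝ, 0 < ε → ε ≤ 1 / 2 →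
    ∀ κ d : ℝ, 0 < d → d ≤ 1 → κ ≤ d ^ 3 → ∀ (B0 B1 B2 : ℂ → ℂ) (G : Set (ℂ × ℝ))
    (β0 P0 Q0 β1 P1 Q1 : ℤ × ℤ → ℂ), B9_H ω R ε κ d B0 B1 B2 G β0 P0 Q0 β1 P1 Q1 →
    ∃ G' : Set (ℂ × ℝ), Sub (ε ^ n) G' G ∧ ∃ (t0 t1 : ℂ → ℝ) (Z0 Z1 : ℂ → ℂ),
      Reg ω (1 / ε ^ n) d B0 B1 G' t0 t1 Z0 Z1 ∧ VP ω (1 / ε ^ n) d B0 B1 G' t1 Z1 := by
  obtain ⟨C2, hC2, hNL⟩ := NL R ‖ω‖
  obtain ⟨C4, hC4, hND⟩ := not_deep_small R
  obtain ⟨Cc, hCc, hCube⟩ := B9_cube R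
  obtain ⟨Cr, hCr, hR2⟩ := B9_R2
  have hi : 0 < |ω.im| := abs_pos.mpr h0
  obtain ⟨W, hW⟩ : ∃ W : ℝ, W = 1 + ‖ω‖ + 1 / |ω.im| := ⟨_, rfl⟩
  have hip : 0 < 1 / |ω.im| := by positivity
  have hωn := norm_nonneg ω
  have hW1 : 1 ≤ W := by linarith
  have hWa : ‖ω‖ ≤ W := by linarith
  have hWb : ‖ω - 1‖ ≤ W := by
    have := norm_sub_le ω 1
    rw [norm_one] at this; linarith
  have hWi : 1 / |ω.im| ≤ W := by linarith
  obtain ⟨S, hS⟩ : ∃ S : ℝ, S = Cr + 40 * W := ⟨_, rfl⟩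
  have hS40 : 40 ≤ S := by linarith
  obtain ⟨M, hM⟩ := pow_unbounded_of_one_lt (C2 + 2 * C4 + Cc + W + 100 * S * W ^ 2) (one_lt_two (α := ℝ))
  have hW2 : 1 ≤ W ^ 2 := by nlinarith
  have hSW : 0 ≤ 100 * S * W ^ 2 := by positivity
  obtain ⟨n, hn⟩ : ∃ n : ℕ, n = 4 * M + 13 := ⟨_, rfl⟩
  refine ⟨n, by omega, ?_⟩
  intro ε hε hε2 κ d hd hd1 hκ B0 B1 B2 G β0 P0 Q0 β1 P1 Q1 h
  have hε1 : ε ≤ 1 := by linarith
  obtain ⟨η, hη⟩ : ∃ η : ℝ, η = ε ^ (M + 4) := ⟨_, rfl⟩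
  have hη0 : 0 < η := by rw [hη]; positivity
  have h2M : (2 : ℝ) ^ M * ε ^ M ≤ 1 := by
    rw [← mul_pow]; exact pow_le_one₀ (by positivity) (by linarith)
  have hMη : (2 : ℝ) ^ M * η ≤ ε ^ 4 := by
    rw [hη, pow_add, ← mul_assoc]
    exact mul_le_of_le_one_left (by positivity) h2M
  have hε4 : ε ^ 4 ≤ ε / 8 := by
    have : ε ^ 3 ≤ (1 / 2) ^ 3 := by gcongr
    calc ε ^ 4 = ε ^ 3 * ε := by ring
      _ ≤ (1 / 2) ^ 3 * ε := by gcongr
      _ = ε / 8 := by ring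
  have hcη : ∀ c : ℝ, c ≤ 2 ^ M → c * η ≤ ε / 8 := fun c hc =>
    (mul_le_mul_of_nonneg_right hc hη0.le).trans (hMη.trans hε4)
  have hη3 : 3 * η ≤ 1 := by
    have h1 : (1 : ℝ) ≤ 2 ^ M := one_le_pow₀ one_le_two
    have := hcη 1 h1
    linarith
  have hWη : W * η ≤ 1 := by
    have := hcη W (by linarith)
    linarith
  have hη1 : η ≤ 1 := by linarith
  obtain ⟨ρ, hρ⟩ : ∃ ρ : ℝ, ρ = η * d := ⟨_, rfl⟩
  obtain ⟨δ, hδ⟩ : ∃ δ : ℝ, δ = η ^ 2 * d := ⟨_, rfl⟩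
  have hρd : ρ / d = η := by rw [hρ]; field_simp
  have hρ0 : 0 < ρ := by rw [hρ]; positivity
  have hδ0 : 0 < δ := by rw [hδ]; positivity
  have hδρ : δ = η * ρ := by rw [hδ, hρ]; ring
  have h3δ : 3 * δ ≤ ρ := by
    rw [hδρ, ← mul_assoc]; exact mul_le_of_le_one_left hρ0.le hη3
  have hWδ : W * δ ≤ ρ := by
    rw [hδρ, ← mul_assoc]; exact mul_le_of_le_one_left hρ0.le hWη
  have hρd' : ρ ≤ d := by rw [hρ]; exact mul_le_of_le_one_left hd.le hη1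
  have hδd : δ ≤ d := by linarith
  have hδ1 : δ ≤ 1 := by linarith
  -- bad sets
  have hfin := B9_fin R G h.sys.bdd h.sys.ang
  set Bad1 : Set (ℂ × ℝ) := {g | g ∈ G ∧ ¬ deep d ρ g.1} with hB1
  set Bad2 : Set (ℂ × ℝ) := {g | g ∈ G ∧ ¬ deep d ρ (-(g.1 + U g.2))} with hB2
  set Bad3 : Set (ℂ × ℝ) := {g | g ∈ G ∧
    volume.real {z | z ∈ G ∧ B9_lab δ z = B9_lab δ g} < η * δ ^ 3} with hB3
  set Bad4 : Set (ℂ × ℝ) := {g | g ∈ G ∧
    volume.real {α : ℝ | α ∈ Ioo 0 δ ∧ rot ω α g ∈ G} < η * δ} with hB4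
  have v12 := hND d ρ hd hd1 hρ0.le G h.sys.mG h.sys.bdd h.sys.ang
  rw [hρd] at v12
  have v1 : volume.real Bad1 ≤ C4 * η := v12.1
  have v2 : volume.real Bad2 ≤ C4 * η := v12.2.1
  have v3 : volume.real Bad3 ≤ Cc * η := hCube δ η hδ0 hδ1 hη0 G h.sys.mG h.sys.bdd h.sys.ang
  have v4 : volume.real Bad4 ≤ C2 * η := hNL ω le_rfl G h.sys.mG h.sys.bdd h.sys.ang δ η hδ0 hδ1 hη0
  set Bad : Set (ℂ × ℝ) := Bad1 ∪ Bad2 ∪ Bad3 ∪ Bad4 with hBad
  have vB : volume.real Bad ≤ ε / 8 := by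
    have a1 := measureReal_union_le (μ := volume) (Bad1 ∪ Bad2 ∪ Bad3) Bad4
    have a2 := measureReal_union_le (μ := volume) (Bad1 ∪ Bad2) Bad3
    have a3 := measureReal_union_le (μ := volume) Bad1 Bad2
    have a4 := hcη (C2 + 2 * C4 + Cc) (by linarith)
    calc volume.real Bad ≤ (C2 + 2 * C4 + Cc) * η := by rw [hBad]; linarith
      _ ≤ ε / 8 := a4
  have hBfin : volume Bad ≠ ⊤ := by
    refine ((measure_mono ?_).trans_lt hfin).ne
    rintro g (((hg | hg) | hg) | hg) <;> exact hg.1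
  set G' : Set (ℂ × ℝ) := G \ toMeasurable volume Bad with hG'
  have hG'm : MeasurableSet G' := h.sys.mG.diff (measurableSet_toMeasurable _ _)
  have hG'v : ε / 2 ≤ volume.real G' := by
    have a1 : G ⊆ G' ∪ toMeasurable volume Bad := by
      intro g hg
      by_cases hb : g ∈ toMeasurable volume Bad
      · exact Or.inr hb
      · exact Or.inl ⟨hg, hb⟩
    have a2 : volume.real (toMeasurable volume Bad) = volume.real Bad := by
      unfold Measure.real; rw [measure_toMeasurable]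
    have a3 : volume (G' ∪ toMeasurable volume Bad) ≠ ⊤ := by
      refine ((measure_union_le _ _).trans_lt (ENNReal.add_lt_top.mpr ⟨?_, ?_⟩)).ne
      · exact (measure_mono sdiff_subset).trans_lt hfin
      · rw [measure_toMeasurable]; exact lt_top_iff_ne_top.mpr hBfin
    have a4 := measureReal_mono (μ := volume) a1 a3
    have a5 := measureReal_union_le (μ := volume) G' (toMeasurable volume Bad)
    have a6 := h.sys.vol
    linarith
  have hG'B : ∀ g ∈ G', g ∈ G ∧ g ∉ Bad := fun g hg =>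
    ⟨hg.1, fun hb => hg.2 (subset_toMeasurable _ _ hb)⟩
  -- constants
  obtain ⟨B, hB⟩ : ∃ B : ℝ, B = 1 / (ε * η ^ 3) := ⟨_, rfl⟩
  have hB0 : 0 < B := by rw [hB]; positivity
  have hBA : 1 / ε ≤ B := by
    rw [hB]
    apply one_div_le_one_div_of_le (by positivity)
    exact mul_le_of_le_one_right hε.le (pow_le_one₀ hη0.le hη1)
  have hBd : 1 / ε * d ^ 2 / (η * δ) = B * d := by
    rw [hB, hδ]; field_simp
  have hKn : 100 * S * W ^ 2 * B ≤ 1 / ε ^ n := by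
    have a1 : 100 * S * W ^ 2 ≤ 2 ^ M := by linarith
    have a2 : (2 : ℝ) ^ M ≤ 1 / ε ^ M := by rw [le_div_iff₀ (by positivity)]; exact h2M
    calc 100 * S * W ^ 2 * B ≤ 1 / ε ^ M * B := mul_le_mul_of_nonneg_right (a1.trans a2) hB0.le
      _ = 1 / ε ^ n := by
        have e1 : ε ^ M * (ε * (ε ^ (M + 4)) ^ 3) = ε ^ n := by
          rw [hn, ← pow_mul, ← pow_succ', ← pow_add]; congr 1; ring
        rw [hB, hη, one_div_mul_one_div, e1]
  obtain ⟨K, hK⟩ : ∃ K : ℝ, K = S * B * d := ⟨_, rfl⟩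
  have hK0 : 0 ≤ K := by rw [hK]; positivity
  have hSWB : 0 ≤ S * W ^ 2 * B := by positivity
  -- pointwise facts
  have hfacts : ∀ x : ℂ, ∀ θ : ℝ, (x, θ) ∈ G' →
      |ell B0 B1 x θ - (ω.re * (P0 (cell d x) / conj ω).re - ip (Q0 (cell d x)) (U θ ^ 2))|
        ≤ 4 * W ^ 2 * K ∧
      ‖Q1 (cell d (-(x + U θ))) - Q0 (cell d x) - U θ ^ 2 * ((ω - 1) *
        ((P1 (cell d (-(x + U θ))) / conj (ω - 1)).re : ℝ) - ω * ((P0 (cell d x) / conj ω).re : ℝ))‖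
        ≤ 4 * W ^ 2 * K ∧
      |(P1 (cell d (-(x + U θ)))).im + ω.im * (P1 (cell d (-(x + U θ))) / conj (ω - 1)).re|
        ≤ W ^ 2 * K := by
    intro x θ hg'
    obtain ⟨hg, hnb⟩ := hG'B _ hg'
    simp only [hBad, mem_union, not_or] at hnb
    obtain ⟨⟨⟨n1, n2⟩, n3⟩, n4⟩ := hnb
    have hdx : deep d ρ x := by
      by_contra hc; exact n1 ⟨hg, hc⟩
    have hdy : deep d ρ (-(x + U θ)) := by
      by_contra hc; exact n2 ⟨hg, hc⟩
    have hv3 : η * δ ^ 3 ≤ volume.real {z | z ∈ G ∧ B9_lab δ z = B9_lab δ (x, θ)} := by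
      by_contra hc; exact n3 ⟨hg, not_le.mp hc⟩
    have hv4 : η * δ ≤ volume.real {α : ℝ | α ∈ Ioo 0 δ ∧ rot ω α (x, θ) ∈ G} := by
      by_contra hc; exact n4 ⟨hg, not_le.mp hc⟩
    obtain ⟨α, hα1, hα2, hrot⟩ : ∃ α : ℝ, η * δ / 2 ≤ α ∧ α ≤ δ ∧ rot ω α (x, θ) ∈ G := by
      by_contra hc
      push Not at hc
      have hsub : {α : ℝ | α ∈ Ioo 0 δ ∧ rot ω α (x, θ) ∈ G} ⊆ Ioo 0 (η * δ / 2) := by
        rintro α ⟨⟨ha, hb⟩, hr⟩
        refine ⟨ha, ?_⟩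
        by_contra hc2
        exact hc α (not_lt.mp hc2) hb.le hr
      have h1 := measureReal_mono (μ := volume) hsub (by simp)
      have h2 : volume.real (Ioo (0 : ℝ) (η * δ / 2)) = η * δ / 2 := by
        rw [Real.volume_real_Ioo_of_le (by positivity)]; ring
      rw [h2] at h1
      have : 0 < η * δ := by positivity
      linarith
    obtain ⟨fa, fb⟩ := hR2 h hε hε1 hd hd1 hκ η δ ρ hη0 hδ0 hδd h3δ x θ hg hdx hdy hv3
    obtain ⟨fc, fd⟩ := h.R3 h0 W hW1 hWa hWb hWi hε hε1 hd hd1 hκ η δ ρ hη0 hδ0 hδd hWδ x θ hg hdx hdy α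
      hα1 hα2 hrot
    rw [hBd] at fa fb fc fd
    have hBd0 : 0 ≤ B * d := by positivity
    have c1 : Cr * (B * d) ≤ K := by
      rw [hK, hS, mul_assoc]
      exact mul_le_mul_of_nonneg_right (by linarith) hBd0
    have c2 : 40 * W * (B * d) ≤ K := by
      rw [hK, hS, mul_assoc (Cr + 40 * W)]
      exact mul_le_mul_of_nonneg_right (by linarith) hBd0
    exact B9_alg ω _ _ _ _ θ _ K W h0 hK0 hW1 hWa hWb hWi (fa.trans c1) (fb.trans c1) (fc.trans c2)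
      (fd.trans c2)
  have hKfin : 4 * W ^ 2 * K ≤ 1 / ε ^ n * d := by
    calc 4 * W ^ 2 * K = 4 * (S * W ^ 2 * B) * d := by rw [hK]; ring
      _ ≤ (100 * S * W ^ 2 * B) * d := by
        apply mul_le_mul_of_nonneg_right _ hd.le; linarith
      _ ≤ 1 / ε ^ n * d := by gcongr
  have hω0 : ω ≠ 0 := by rintro rfl; exact h0 rfl
  have hω1 : ω - 1 ≠ 0 := by
    intro h; apply h0; have := congrArg Complex.im h; simpa using this
  have hWp0 : 1 / ‖ω‖ ≤ W := le_trans (one_div_le_one_div_of_le hi (abs_im_le_norm ω)) hWi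
  have hWp1 : 1 / ‖ω - 1‖ ≤ W := by
    refine le_trans (one_div_le_one_div_of_le hi ?_) hWi
    have := abs_im_le_norm (ω - 1)
    simpa using this
  have hAW : 1 / ε * W ≤ 1 / ε ^ n := by
    refine le_trans ?_ hKn
    calc 1 / ε * W ≤ B * W := mul_le_mul_of_nonneg_right hBA (by linarith)
      _ = 1 * (W * B) := by ring
      _ ≤ (100 * S * W) * (W * B) := by
        apply mul_le_mul_of_nonneg_right _ (by positivity)
        have : 4000 * 1 ≤ 100 * S * W := mul_le_mul (by linarith) hW1 zero_le_one (by linarith)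
        linarith
      _ = 100 * S * W ^ 2 * B := by ring
  have hbt : ∀ (p P : ℂ), 1 / ‖p‖ ≤ W → ‖P‖ ≤ 1 / ε → |(P / conj p).re| ≤ 1 / ε ^ n := by
    intro p P h1 h2
    refine (abs_re_le_norm _).trans (le_trans ?_ hAW)
    rw [norm_div, norm_conj, div_eq_mul_one_div]
    gcongr
  have hbZ : 1 / ε ≤ 1 / ε ^ n := by
    exact le_trans (le_mul_of_one_le_right (by positivity) hW1) hAW
  refine ⟨G', ⟨sdiff_subset, hG'm, ?_⟩, fun x => (P0 (cell d x) / conj ω).re,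
    fun y => (P1 (cell d (-y)) / conj (ω - 1)).re, fun x => Q0 (cell d x), fun y => Q1 (cell d (-y)),
    ⟨?_, ?_, ?_, ?_, ?_, ?_, ?_, ?_, ?_, ?_⟩, ?_⟩
  · refine le_trans ?_ hG'v
    calc ε ^ n ≤ ε ^ 4 := pow_le_pow_of_le_one hε.le hε1 (by omega)
      _ ≤ ε / 2 := by linarith
  · exact (measurable_of_countable (fun c : ℤ × ℤ => (P0 c / conj ω).re)).comp (B9_cell_meas d)
  · exact (measurable_of_countable (fun c : ℤ × ℤ => (P1 c / conj (ω - 1)).re)).comp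
      ((B9_cell_meas d).comp measurable_neg)
  · exact (measurable_of_countable (fun c : ℤ × ℤ => Q0 c)).comp (B9_cell_meas d)
  · exact (measurable_of_countable (fun c : ℤ × ℤ => Q1 c)).comp ((B9_cell_meas d).comp measurable_neg)
  · intro x; exact hbt _ _ hWp0 (h.s0.bP _)
  · intro x; exact hbt _ _ hWp1 (h.bP _)
  · intro x; exact (h.s0.bQ _).trans hbZ
  · intro x; exact (h.bQ _).trans hbZ
  · intro g hg; exact (hfacts g.1 g.2 hg).1.trans hKfin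
  · intro g hg; exact (hfacts g.1 g.2 hg).2.1.trans hKfin
  · intro x θ α hg hg' hα hc
    obtain ⟨-, -, f3⟩ := hfacts x θ hg
    have hsl := h.V hε hε1 hd1 hκ x θ α (hG'B _ hg).1 (hG'B _ hg').1 hα hc
    set l := ell B0 B1 x θ
    set l' := ell B0 B1 x (θ + α)
    set c := cell d (-(x + U θ))
    show |l' - l - α * (ω.im * (P1 c / conj (ω - 1)).re + imb (Q1 c) θ)| ≤ 1 / ε ^ n * d ^ 2
    have e : l' - l - α * (ω.im * (P1 c / conj (ω - 1)).re + imb (Q1 c) θ)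
      = -(α * (-(P1 c).im + (Q1 c * conj (U θ ^ 2)).im) - (l' - l))
        - α * ((P1 c).im + ω.im * (P1 c / conj (ω - 1)).re) := by
      unfold imb; ring
    rw [e]
    refine (abs_sub _ _).trans ?_
    rw [abs_neg, abs_mul α]
    have t1 : |α| * |(P1 c).im + ω.im * (P1 c / conj (ω - 1)).re| ≤ d * (W ^ 2 * K) := by gcongr
    calc _ ≤ 7 * (1 / ε * d ^ 2) + d * (W ^ 2 * K) := add_le_add hsl t1
      _ = (7 * (1 / ε) + S * W ^ 2 * B) * d ^ 2 := by rw [hK]; ring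
      _ ≤ (100 * S * W ^ 2 * B) * d ^ 2 := by
        apply mul_le_mul_of_nonneg_right _ (sq_nonneg d)
        have h1 : 1 * 1 ≤ S * W ^ 2 := mul_le_mul (by linarith) hW2 zero_le_one (by linarith)
        have h2 : B ≤ S * W ^ 2 * B := le_mul_of_one_le_left hB0.le (by linarith)
        linarith
      _ ≤ 1 / ε ^ n * d ^ 2 := by gcongr

theorem B9_kappa (h : Sys ω R ε κ B0 B1 B2 G) (hε : 0 < ε) : 0 ≤ κ := by
  have hne : G.Nonempty := by
    by_contra hc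
    rw [not_nonempty_iff_eq_empty] at hc
    have := h.vol
    rw [hc] at this
    simp at this
    linarith
  obtain ⟨g, hg⟩ := hne
  exact (norm_nonneg _).trans (h.ra g hg)

/-- dividing all functions by two -/
theorem B9_half (h : Sys ω R ε (2 * κ) B0 B1 B2 G) (hε : 0 < ε) (hε2 : ε ≤ 1 / 2) :
    Sys ω R (ε ^ 2) κ (fun x => B0 x / 2) (fun x => B1 x / 2) (fun x => B2 x / 2) G := by
  have hl : ∀ x θ, ell (fun x => B0 x / 2) (fun x => B1 x / 2) x θ = ell B0 B1 x θ / 2 := by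
    intro x θ
    unfold ell
    have e : B1 (x + U θ) / 2 - B0 x / 2 = ((1 / 2 : ℝ) : ℂ) * (B1 (x + U θ) - B0 x) := by push_cast; ring
    rw [e, ip_mul_real_left]; ring
  have hε22 : ε ^ 2 ≤ ε / 2 := by nlinarith
  refine ⟨h.m0.div_const 2, h.m1.div_const 2, h.m2.div_const 2, h.mG, h.bdd, h.ang, ?_, ?_, ?_, ?_, ?_⟩
  · exact (hε22.trans (by linarith)).trans h.vol
  · intro g hg
    have h1 := h.ra g hg
    rw [hl]
    have e : B1 (g.1 + U g.2) / 2 - B0 g.1 / 2 - ((ell B0 B1 g.1 g.2 / 2 : ℝ) : ℂ) * U g.2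
      = (B1 (g.1 + U g.2) - B0 g.1 - ell B0 B1 g.1 g.2 * U g.2) / 2 := by push_cast; ring
    rw [e, norm_div]
    have : ‖(2 : ℂ)‖ = 2 := by simp
    rw [this]; linarith
  · intro g hg
    have h1 := h.rb g hg
    rw [hl]
    have e : B2 (g.1 + ω * U g.2) / 2 - B0 g.1 / 2 - conj ω * ((ell B0 B1 g.1 g.2 / 2 : ℝ) : ℂ) * U g.2
      = (B2 (g.1 + ω * U g.2) - B0 g.1 - conj ω * ell B0 B1 g.1 g.2 * U g.2) / 2 := by push_cast; ring
    rw [e, norm_div]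
    have : ‖(2 : ℂ)‖ = 2 := by simp
    rw [this]; linarith
  · intro g hg
    have h1 := h.lo g hg
    rw [hl, abs_div, abs_two]; linarith
  · intro g hg
    have h1 := h.hi g hg
    rw [hl, abs_div, abs_two]
    have h2 : 1 / ε ≤ 1 / ε ^ 2 := one_div_le_one_div_of_le (by positivity) (hε22.trans (by linarith))
    have h3 : 0 ≤ 1 / ε := by positivity
    linarith

end

theorem REG (ω : ℂ) (h0 : ω.im ≠ 0) (h1 : ω.re ≠ 0) (h2 : ω.re ≠ 1) (R : ℝ) :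
    ∃ n : ℕ, 1 ≤ n ∧ ∀ ε : ℝ, 0 < ε → ε ≤ 1 / 2 → ∀ κ d : ℝ, 0 < d → d ≤ ε ^ n → κ ≤ d ^ 3 →
    ∀ (B0 B1 B2 : ℂ → ℂ) (G : Set (ℂ × ℝ)), Sys ω R ε κ B0 B1 B2 G →
    ∃ G' : Set (ℂ × ℝ), Sub (ε ^ n) G' G ∧ ∃ (t0 t1 : ℂ → ℝ) (Z0 Z1 : ℂ → ℂ),
      Reg ω (1 / ε ^ n) d B0 B1 G' t0 t1 Z0 Z1 ∧ VP ω (1 / ε ^ n) d B0 B1 G' t1 Z1 := by
  obtain ⟨n1, hn1, hS1⟩ := S1 ω h0 h1 h2 R
  obtain ⟨n2, hn2, hS2⟩ := S2 ω h0 h1 R
  obtain ⟨n3, hn3, hS3⟩ := S2 (1 - ω) (by simpa using h0)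
    (by simp only [sub_re, one_re]; intro h; apply h2; linarith) (R + 1)
  obtain ⟨n4, hn4, hcore⟩ := B9_core ω h0 R
  have hp1 : 1 ≤ n1 * n2 := Nat.mul_pos hn1 hn2
  have hp2 : 1 ≤ n1 * n2 * (2 * n3) := Nat.mul_pos hp1 (by omega)
  refine ⟨n1 * n2 * (2 * n3) * (2 * n4), Nat.mul_pos hp2 (by omega), ?_⟩
  intro ε hε hε2 κ d hd hdε hκ B0 B1 B2 G h
  have hε1 : ε ≤ 1 := by linarith
  have hpow : ∀ m : ℕ, m ≤ n1 * n2 * (2 * n3) * (2 * n4) → d ≤ ε ^ m := fun m hm =>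
    hdε.trans (pow_le_pow_of_le_one hε.le hε1 hm)
  have hd1 : d ≤ 1 := by simpa using hpow 0 (Nat.zero_le _)
  have hhalf : ∀ m : ℕ, 1 ≤ m → ε ^ m ≤ 1 / 2 := fun m hm => by
    have := pow_le_pow_of_le_one hε.le hε1 hm
    rw [pow_one] at this; linarith
  have hκ2 : κ ≤ d ^ 2 := hκ.trans (by nlinarith [sq_nonneg d])
  have hle1 : n1 ≤ n1 * n2 * (2 * n3) * (2 * n4) := by
    calc n1 ≤ n1 * n2 := Nat.le_mul_of_pos_right _ hn2
      _ ≤ n1 * n2 * (2 * n3) := Nat.le_mul_of_pos_right _ (by omega)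
      _ ≤ _ := Nat.le_mul_of_pos_right _ (by omega)
  have hle2 : n1 * n2 ≤ n1 * n2 * (2 * n3) * (2 * n4) := by
    calc n1 * n2 ≤ n1 * n2 * (2 * n3) := Nat.le_mul_of_pos_right _ (by omega)
      _ ≤ _ := Nat.le_mul_of_pos_right _ (by omega)
  have hle3 : n1 * n2 * (2 * n3) ≤ n1 * n2 * (2 * n3) * (2 * n4) := Nat.le_mul_of_pos_right _ (by omega)
  have hκ0 : 0 ≤ κ := B9_kappa h hε
  -- S1
  obtain ⟨G1, hG1, hS1P⟩ := hS1 ε hε hε2 κ d hd (hpow n1 hle1) hκ2 B0 B1 B2 G h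
  obtain ⟨ε1, hε1d⟩ : ∃ ε1 : ℝ, ε1 = ε ^ n1 := ⟨_, rfl⟩
  have hε10 : 0 < ε1 := by rw [hε1d]; positivity
  have hε1h : ε1 ≤ 1 / 2 := by rw [hε1d]; exact hhalf _ hn1
  rw [← hε1d] at hG1 hS1P
  have hle : ε1 ≤ ε := by
    have := pow_le_pow_of_le_one hε.le hε1 hn1
    rw [pow_one] at this; rw [hε1d]; exact this
  have hsys1 := h.mono hG1 hε10 hle le_rfl
  -- S2
  obtain ⟨G2, hG2, β0, P0, Q0, hS2P⟩ := hS2 ε1 hε10 hε1h κ d hd
    (by rw [hε1d, ← pow_mul]; exact hpow _ hle2) hκ B0 B1 B2 G1 hsys1 hS1P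
  obtain ⟨ε2, hε2d⟩ : ∃ ε2 : ℝ, ε2 = ε1 ^ n2 := ⟨_, rfl⟩
  have hε2e : ε2 = ε ^ (n1 * n2) := by rw [hε2d, hε1d, ← pow_mul]
  have hε20 : 0 < ε2 := by rw [hε2d]; positivity
  have hε2h : ε2 ≤ 1 / 2 := by rw [hε2e]; exact hhalf _ hp1
  rw [← hε2d] at hG2 hS2P
  have hle21 : ε2 ≤ ε1 := by
    have := pow_le_pow_of_le_one hε10.le (by linarith : ε1 ≤ 1) hn2
    rw [pow_one] at this; rw [hε2d]; exact this
  have hsys2 := hsys1.mono hG2 hε20 hle21 le_rfl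
  have hS1P2 : S1P (1 / ε2) d B0 B1 G2 := hS1P.mono hG2.sub hd.le (one_div_le_one_div_of_le hε20 hle21)
  -- swap
  have hsw := B9_half (hsys2.swap hκ0) hε20 hε2h
  have hε22 : ε2 ^ 2 ≤ ε2 / 2 := by nlinarith
  have hS1sw : S1P (1 / ε2 ^ 2) d (fun x => -B1 (-x) / 2) (fun x => -B0 (-x) / 2) (swp ⁻¹' G2) := by
    have hs := hS1P2.swap
    have h3 : 0 ≤ 1 / ε2 := by positivity
    have h4 : 1 / ε2 ≤ 1 / ε2 ^ 2 := one_div_le_one_div_of_le (by positivity) (by linarith)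
    have h5 : ∀ a b : ℂ, ‖a - b‖ ≤ 1 / ε2 * d → ‖a / 2 - b / 2‖ ≤ 1 / ε2 ^ 2 * d := by
      intro a b hab
      have e : a / 2 - b / 2 = (a - b) / 2 := by ring
      have : ‖(2 : ℂ)‖ = 2 := by simp
      rw [e, norm_div, this]
      have h6 : 1 / ε2 * d ≤ 1 / ε2 ^ 2 * d := mul_le_mul_of_nonneg_right h4 hd.le
      have h7 : 0 ≤ 1 / ε2 * d := by positivity
      linarith
    exact ⟨fun g hg g' hg' hc => h5 _ _ (hs.c0 g hg g' hg' hc),
      fun g hg g' hg' hc => h5 _ _ (hs.c1 g hg g' hg' hc)⟩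
  have hε23 : (ε2 ^ 2) ^ n3 = ε ^ (n1 * n2 * (2 * n3)) := by
    rw [hε2e, ← pow_mul, ← pow_mul, mul_assoc]
  obtain ⟨G3', hG3', β, P, Q, hS3P⟩ := hS3 (ε2 ^ 2) (by positivity) (by linarith) κ d hd
    (by rw [hε23]; exact hpow _ hle3) hκ _ _ _ _ hsw hS1sw
  obtain ⟨ε3, hε3d⟩ : ∃ ε3 : ℝ, ε3 = (ε2 ^ 2) ^ n3 := ⟨_, rfl⟩
  have hε3e : ε3 = ε ^ (n1 * n2 * (2 * n3)) := by rw [hε3d, hε23]
  have hε30 : 0 < ε3 := by rw [hε3d]; positivity
  have hε3h : ε3 ≤ 1 / 2 := by rw [hε3e]; exact hhalf _ hp2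
  rw [← hε3d] at hG3' hS3P
  have hle32 : ε3 ≤ ε2 := by
    have := pow_le_pow_of_le_one (by positivity : 0 ≤ ε2 ^ 2) (by linarith : ε2 ^ 2 ≤ 1) hn3
    rw [pow_one] at this; rw [hε3d]; linarith
  have hε33 : ε3 ^ 2 ≤ ε3 / 2 := by nlinarith
  have hε330 : 0 < ε3 ^ 2 := by positivity
  set G3 : Set (ℂ × ℝ) := swp ⁻¹' G3' with hG3
  have hG3sub : G3 ⊆ G2 := by
    intro g hg
    have h5 : swp g ∈ swp ⁻¹' G2 := hG3'.sub hg
    have h6 : swp (swp g) ∈ G2 := h5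
    rwa [swp_swp] at h6
  have hSub3 : Sub (ε3 ^ 2) G3 G2 :=
    ⟨hG3sub, swp_meas hG3'.meas, by rw [hG3, swp_vol hG3'.meas]; exact (by linarith : ε3 ^ 2 ≤ ε3).trans hG3'.vol⟩
  have hinv : 1 / ε3 ≤ 1 / ε3 ^ 2 / 2 := by
    rw [div_div, one_div_le_one_div hε30 (by positivity)]; linarith
  have hH : B9_H ω R (ε3 ^ 2) κ d B0 B1 B2 G3 β0 P0 Q0 (fun c => -2 * β c) (fun c => 2 * P c)
      (fun c => 2 * Q c) := by
    refine ⟨hsys2.mono hSub3 hε330 (by linarith) le_rfl,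
      hS2P.mono hG3sub (one_div_le_one_div_of_le hε330 (by linarith)), ?_, ?_, ?_⟩
    · intro c
      have := hS3P.bP c
      rw [norm_mul]; simp only [RCLike.norm_ofNat]; linarith
    · intro c
      have := hS3P.bQ c
      rw [norm_mul]; simp only [RCLike.norm_ofNat]; linarith
    · intro g hg
      have h5 := hS3P.aff (swp g) hg
      simp only [swp, neg_neg, map_neg] at h5
      generalize g.1 + U g.2 = y at *
      have e : B1 y - (-2 * β (cell d (-y)) + 2 * P (cell d (-y)) * y + 2 * Q (cell d (-y)) * conj y)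
        = -2 * (-B1 y / 2 - (β (cell d (-y)) + P (cell d (-y)) * -y + Q (cell d (-y)) * -conj y)) := by ring
      have h6 : ‖(-2 : ℂ)‖ = 2 := by simp
      rw [e, norm_mul, h6]
      have h7 : 1 / ε3 * d ^ 2 ≤ 1 / ε3 ^ 2 / 2 * d ^ 2 := mul_le_mul_of_nonneg_right hinv (sq_nonneg d)
      linarith
  obtain ⟨G', hG', t0, t1, Z0, Z1, hReg, hV⟩ := hcore (ε3 ^ 2) hε330 (by linarith) κ d hd hd1 hκ B0 B1 B2
    G3 _ _ _ _ _ _ hH
  have hfin : (ε3 ^ 2) ^ n4 = ε ^ (n1 * n2 * (2 * n3) * (2 * n4)) := by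
    rw [hε3e, ← pow_mul, ← pow_mul, mul_assoc]
  rw [hfin] at hG' hReg hV
  exact ⟨G', ⟨((hG'.sub.trans hG3sub).trans hG2.sub).trans hG1.sub, hG'.meas, hG'.vol⟩, t0, t1, Z0, Z1,
    hReg, hV⟩

end TriDil
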