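import Pool.Agent.TriDil.Basic7
import Pool.Agent.TriDil.B1
import Pool.Agent.TriDil.B2
import Pool.Agent.TriDil.B4
import Pool.Agent.TriDil.B9
set_option autoImplicit false
open MeasureTheory Complex Set
namespace TriDil
open scoped ComplexConjugate

theorem B10_exp (α : ℝ) (hα : |α| ≤ 1) : ‖U (-(2 * α)) - 1 + 2 * I * α‖ ≤ 16 * α ^ 2 := by
  rcases le_or_gt (|2 * α|) 1 with h | h
  · have h1 := norm_U_sub_le2 0 (-(2 * α)) (by rwa [abs_neg])
    rw [zero_add, U_zero] at h1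
    have e : U (-(2 * α)) - 1 + 2 * I * α = U (-(2 * α)) - 1 - I * ((-(2 * α) : ℝ) : ℂ) * 1 := by
      push_cast; ring
    rw [e]
    refine h1.trans ?_
    nlinarith [sq_nonneg α]
  · have h1 : ‖U (-(2 * α)) - 1 + 2 * I * α‖ ≤ 1 + 1 + 2 * |α| := by
      refine (norm_add_le _ _).trans (add_le_add ((norm_sub_le _ _).trans ?_) ?_)
      · rw [norm_U, norm_one]
      · rw [norm_mul, norm_mul, norm_I, norm_real, Real.norm_eq_abs]; simp
    rw [abs_mul, abs_two] at h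
    have h2 : α ^ 2 = |α| ^ 2 := (sq_abs α).symm
    rw [h2]
    nlinarith [abs_nonneg α]

theorem B10_ip_sq (Z : ℂ) (θ : ℝ) : ip Z (U θ ^ 2) = (Z * conj (U θ ^ 2)).re := ip_eq_re _ _

theorem B10_ip_sub (Z : ℂ) (θ α : ℝ) (hα : |α| ≤ 1) :
    |ip Z (U (θ + α) ^ 2) - ip Z (U θ ^ 2) - 2 * α * imb Z θ| ≤ 16 * ‖Z‖ * α ^ 2 := by
  have e1 : conj (U (θ + α) ^ 2) = conj (U θ ^ 2) * U (-(2 * α)) := by
    rw [U_add, mul_pow, map_mul]
    congr 1
    rw [map_pow, conj_U, sq, ← U_add]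
    congr 1; ring
  have e2 : ip Z (U (θ + α) ^ 2) - ip Z (U θ ^ 2) - 2 * α * imb Z θ
      = (Z * conj (U θ ^ 2) * (U (-(2 * α)) - 1 + 2 * I * α)).re := by
    rw [B10_ip_sq, B10_ip_sq]
    unfold imb
    rw [e1]
    set W := Z * conj (U θ ^ 2) with hW
    have e3 : Z * (conj (U θ ^ 2) * U (-(2 * α))) = W * U (-(2 * α)) := by rw [hW]; ring
    rw [e3]
    have e4 : W * (U (-(2 * α)) - 1 + 2 * I * α) = W * U (-(2 * α)) - W + (2 * α : ℝ) * (I * W) := by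
      push_cast; ring
    rw [e4, add_re, sub_re, re_ofReal_mul, I_mul_re]; ring
  rw [e2]
  calc _ ≤ ‖Z * conj (U θ ^ 2) * (U (-(2 * α)) - 1 + 2 * I * α)‖ := abs_re_le_norm _
    _ = ‖Z‖ * ‖U (-(2 * α)) - 1 + 2 * I * α‖ := by
        rw [norm_mul, norm_mul, norm_conj, norm_pow, norm_U]; ring
    _ ≤ ‖Z‖ * (16 * α ^ 2) := mul_le_mul_of_nonneg_left (B10_exp α hα) (norm_nonneg _)
    _ = _ := by ring

theorem B10_Reg_mono {ω : ℂ} {A A' d : ℝ} {B0 B1 : ℂ → ℂ} {G G' : Set (ℂ × ℝ)}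
    {t0 t1 : ℂ → ℝ} {Z0 Z1 : ℂ → ℂ} (h : Reg ω A d B0 B1 G t0 t1 Z0 Z1) (hs : G' ⊆ G)
    (hd : 0 ≤ d) (hA : A ≤ A') : Reg ω A' d B0 B1 G' t0 t1 Z0 Z1 where
  mt0 := h.mt0
  mt1 := h.mt1
  mZ0 := h.mZ0
  mZ1 := h.mZ1
  bt0 := fun x => (h.bt0 x).trans hA
  bt1 := fun x => (h.bt1 x).trans hA
  bZ0 := fun x => (h.bZ0 x).trans hA
  bZ1 := fun x => (h.bZ1 x).trans hA
  F0 := fun g hg => (h.F0 g (hs hg)).trans (mul_le_mul_of_nonneg_right hA hd)
  S3 := fun g hg => (h.S3 g (hs hg)).trans (mul_le_mul_of_nonneg_right hA hd)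

/-- comparison of two first order expansions -/
theorem B10_cmp : ∃ C : ℝ, 0 < C ∧ ∀ (c : ℝ) (Z : ℂ) (A ε : ℝ) (S : Set ℝ), MeasurableSet S →
    0 < ε → S ⊆ Icc 0 1 → ε ≤ volume.real S → (∀ θ ∈ S, |c - ip Z (U θ ^ 2)| ≤ A) →
    ‖Z‖ ≤ C * A / ε ^ 6 := by
  obtain ⟨C, hC, h⟩ := trig_remez
  refine ⟨2 * C, by positivity, ?_⟩
  intro c Z A ε S hS hε hS1 hv hA
  have hS3 : S ⊆ Icc (0:ℝ) (0 + 3) := hS1.trans (Icc_subset_Icc le_rfl (by norm_num))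
  let cc : Fin 7 → ℂ := ![0, -(Z / 2), 0, (c : ℂ), 0, -(conj Z / 2), 0]
  have key := h cc A ε 0 S hS hε hS3 hv ?_ 1
  · have e : cc 1 = -(Z / 2) := rfl
    rw [e, norm_neg, norm_div] at key
    have h2 : ‖(2:ℂ)‖ = 2 := by simp
    rw [h2] at key
    have e3 : 2 * C * A / ε ^ 6 = 2 * (C * A / ε ^ 6) := by ring
    rw [e3]; linarith
  · intro θ hθ
    have e : ∑ k : Fin 7, cc k * U (((k : ℕ) - 3 : ℝ) * θ)
        = ((c - ip Z (U θ ^ 2) : ℝ) : ℂ) := by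
      simp only [Fin.sum_univ_succ, cc, Fin.sum_univ_zero]
      simp only [Matrix.cons_val_zero, Matrix.cons_val_succ, Fin.val_zero, Fin.val_succ]
      push_cast
      have u1 : U ((1 - 3) * θ) = conj (U θ ^ 2) := by
        rw [map_pow, conj_U, sq, ← U_add]; congr 1; ring
      have u2 : U ((5 - 3) * θ) = U θ ^ 2 := by
        rw [sq, ← U_add]; congr 1; ring
      have u3 : U ((3 - 3) * θ) = 1 := by
        rw [show ((3:ℝ) - 3) * θ = 0 by ring, U_zero]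
      rw [u1, u2, u3]
      have e5 : ((ip Z (U θ ^ 2) : ℝ) : ℂ) = (Z * conj (U θ ^ 2) + conj Z * U θ ^ 2) / 2 := by
        rw [ip_eq_re, re_eq_add_conj, map_mul, conj_conj]
      rw [e5]; ring
    rw [e, norm_real, Real.norm_eq_abs]
    exact hA θ hθ

/-- the final estimate at one triangle -/
theorem B10_point {ω : ℂ} {A1 A2 η d α CT : ℝ} {B0 B1 : ℂ → ℂ} {G1 G2 : Set (ℂ × ℝ)}
    {t1 t0' t1' : ℂ → ℝ} {Z0 Z1 Z0' Z1' : ℂ → ℂ} (hA : A1 ≤ A2) (hA1 : 0 < A1)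
    (hη : 0 < η) (hd : 0 < d) (hd1 : d ≤ 1)
    (hV : VP ω A1 d B0 B1 G1 t1 Z1)
    (hR' : Reg ω A2 (d ^ 2) B0 B1 G2 t0' t1' Z0' Z1') (h12 : G2 ⊆ G1) {x : ℂ} {θ : ℝ}
    (hg : (x, θ) ∈ G2) (hg' : (x, θ + α) ∈ G2) (hα0 : η ^ 2 * d / 2 ≤ α) (hα1 : α ≤ d)
    (hcell : cell d (-(x + U θ)) = cell d (-(x + U (θ + α))))
    (hZ : ‖Z0 x - Z0' x‖ ≤ CT) :
    |ω.im * t1 (x + U θ) + imb (Z1 (x + U θ)) θ + 2 * imb (Z0 x) θ| ≤
      38 * A2 * d / η ^ 2 + 2 * CT := by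
  have hα : 0 < α := lt_of_lt_of_le (by positivity) hα0
  have hαd : |α| ≤ d := by rwa [abs_of_pos hα]
  have h1 := hV x θ α (h12 hg) (h12 hg') hαd hcell
  have f := hR'.F0 _ hg
  have f' := hR'.F0 _ hg'
  simp only at f f'
  have h2 := B10_ip_sub (Z0' x) θ α (hαd.trans hd1)
  have hZn : ‖Z0' x‖ ≤ A2 := hR'.bZ0 x
  have hA2 : 0 < A2 := hA1.trans_le hA
  have h3 : 16 * ‖Z0' x‖ * α ^ 2 ≤ 16 * (A2 * d ^ 2) := by
    have : ‖Z0' x‖ * α ^ 2 ≤ A2 * d ^ 2 :=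
      mul_le_mul hZn (pow_le_pow_left₀ hα.le hα1 2) (sq_nonneg _) hA2.le
    linarith
  have h4 : A1 * d ^ 2 ≤ A2 * d ^ 2 := mul_le_mul_of_nonneg_right hA (sq_nonneg _)
  set y := x + U θ with hy
  set M := ω.im * t1 y + imb (Z1 y) θ with hM
  have h5 : |α * (M + 2 * imb (Z0' x) θ)| ≤ 19 * (A2 * d ^ 2) := by
    rw [abs_le] at *
    constructor <;> nlinarith [h1.1, h1.2, f.1, f.2, f'.1, f'.2, h2.1, h2.2]
  have h6 : |M + 2 * imb (Z0' x) θ| ≤ 38 * A2 * d / η ^ 2 := by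
    rw [abs_mul, abs_of_pos hα] at h5
    rw [le_div_iff₀ (by positivity)]
    have h7 : η ^ 2 * d / 2 * |M + 2 * imb (Z0' x) θ| ≤ 19 * (A2 * d ^ 2) :=
      (mul_le_mul_of_nonneg_right hα0 (abs_nonneg _)).trans h5
    have h8 : d * (|M + 2 * imb (Z0' x) θ| * η ^ 2) ≤ d * (38 * A2 * d) := by nlinarith
    exact le_of_mul_le_mul_left h8 hd
  have h9 : |imb (Z0 x) θ - imb (Z0' x) θ| ≤ CT := by
    have e : imb (Z0 x) θ - imb (Z0' x) θ = ((Z0 x - Z0' x) * conj (U θ ^ 2)).im := by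
      unfold imb; rw [sub_mul, sub_im]
    rw [e]
    refine (abs_im_le_norm _).trans ?_
    rw [norm_mul, norm_conj, norm_pow, norm_U, one_pow, mul_one]; exact hZ
  have e : M + 2 * imb (Z0 x) θ = (M + 2 * imb (Z0' x) θ) + 2 * (imb (Z0 x) θ - imb (Z0' x) θ) := by
    ring
  rw [e]
  refine (abs_add_le _ _).trans (add_le_add h6 ?_)
  rw [abs_mul, abs_two]; linarith

theorem B10_meas_slice {G : Set (ℂ × ℝ)} (hG : MeasurableSet G) (d c : ℝ) :
    MeasurableSet {g : ℂ × ℝ | volume.real {α : ℝ | α ∈ Ioo 0 d ∧ rot 0 α g ∈ G} < c} := by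
  have h1 : MeasurableSet {q : (ℂ × ℝ) × ℝ | q.2 ∈ Ioo 0 d ∧ rot 0 q.2 q.1 ∈ G} := by
    refine (measurable_snd measurableSet_Ioo).inter ?_
    have hm : Measurable (fun q : (ℂ × ℝ) × ℝ => rot 0 q.2 q.1) := by
      unfold rot
      simp only [zero_mul, add_zero]
      exact (measurable_fst.comp measurable_fst).prodMk
        ((measurable_snd.comp measurable_fst).add measurable_snd)
    exact hm hG
  have h2 : Measurable (fun g : ℂ × ℝ => volume {α : ℝ | α ∈ Ioo 0 d ∧ rot 0 α g ∈ G}) :=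
    measurable_measure_prodMk_left h1
  exact measurableSet_lt h2.ennreal_toReal measurable_const

theorem B10_meas_deep (d ρ : ℝ) : MeasurableSet {g : ℂ × ℝ | deep d ρ (-(g.1 + U g.2))} := by
  have hm : Measurable (fun g : ℂ × ℝ => -(g.1 + U g.2)) :=
    (measurable_fst.add (measurable_U.comp measurable_snd)).neg
  have hr : Measurable (fun g : ℂ × ℝ => d * Int.fract ((-(g.1 + U g.2)).re / d)) :=
    ((measurable_fract.comp ((measurable_re.comp hm).div_const d))).const_mul d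
  have hi : Measurable (fun g : ℂ × ℝ => d * Int.fract ((-(g.1 + U g.2)).im / d)) :=
    ((measurable_fract.comp ((measurable_im.comp hm).div_const d))).const_mul d
  unfold deep
  exact (measurableSet_le measurable_const hr).inter
    ((measurableSet_lt (hr.add_const ρ) measurable_const).inter
      ((measurableSet_le measurable_const hi).inter
        (measurableSet_lt (hi.add_const ρ) measurable_const)))

theorem STEP4 (ω : ℂ) (h0 : ω.im ≠ 0) (h1 : ω.re ≠ 0) (h2 : ω.re ≠ 1) (R : ℝ) :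
    ∃ n : ℕ, 1 ≤ n ∧ ∀ ε : ℝ, 0 < ε → ε ≤ 1 / 2 → ∀ κ d : ℝ, 0 < d → d ≤ ε ^ n → κ ≤ d ^ 6 →
    ∀ (B0 B1 B2 : ℂ → ℂ) (G : Set (ℂ × ℝ)), Sys ω R ε κ B0 B1 B2 G →
    ∃ G' : Set (ℂ × ℝ), Sub (ε ^ n) G' G ∧ ∃ (t0 t1 : ℂ → ℝ) (Z0 Z1 : ℂ → ℂ),
      Reg ω (1 / ε ^ n) d B0 B1 G' t0 t1 Z0 Z1 ∧ S4P ω (1 / ε ^ n) d G' t1 Z0 Z1 := by
  obtain ⟨N, hN1, hREG⟩ := REG ω h0 h1 h2 R
  obtain ⟨C1, hC1, hNL⟩ := NL R 1
  obtain ⟨C2, hC2, hND⟩ := not_deep_small R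
  obtain ⟨C3, hC3, hcmp⟩ := B10_cmp
  -- `η = ε ^ (N * N + m)`
  obtain ⟨m, hm⟩ := pow_unbounded_of_one_lt (2 * (2 * C1 + C2) + (38 + 4 * C3))
    (by norm_num : (1:ℝ) < 2)
  set M := N * N + m with hMdef
  refine ⟨N * N + 6 * M + m + 1, Nat.le_add_left _ _, ?_⟩
  intro ε hε hε2 κ d hd hdε hκ B0 B1 B2 G hS
  have hε1 : ε ≤ 1 := hε2.trans (by norm_num)
  have hpow : ∀ {a b : ℕ}, a ≤ b → ε ^ b ≤ ε ^ a := fun h => pow_le_pow_of_le_one hε.le hε1 h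
  have hNN : N ≤ N * N := Nat.le_mul_self N
  have hd1 : d ≤ 1 := hdε.trans (pow_le_one₀ hε.le hε1)
  have hεm : ε ^ m ≤ 1 / 2 ^ m := by
    rw [← one_div_pow]; exact pow_le_pow_left₀ hε.le hε2 m
  have hKm : (2 * (2 * C1 + C2) + (38 + 4 * C3)) * ε ^ m ≤ 1 := by
    have : (2 * (2 * C1 + C2) + (38 + 4 * C3)) * ε ^ m ≤ 2 ^ m * (1 / 2 ^ m) :=
      mul_le_mul hm.le hεm (by positivity) (by positivity)
    rwa [mul_one_div_cancel (by positivity)] at this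
  -- first application
  obtain ⟨G1, hG1, t0, t1, Z0, Z1, hR1, hV1⟩ := hREG ε hε hε2 κ d hd
    (hdε.trans (hpow (by omega))) (hκ.trans (pow_le_pow_of_le_one hd.le hd1 (by norm_num)))
    B0 B1 B2 G hS
  have hεN : 0 < ε ^ N := by positivity
  have hεN2 : ε ^ N ≤ 1 / 2 := (hpow hN1).trans (by rwa [pow_one])
  have hS1 : Sys ω R (ε ^ N) κ B0 B1 B2 G1 :=
    hS.mono hG1 hεN ((hpow hN1).trans (by rw [pow_one])) le_rfl
  -- second application
  obtain ⟨G2, hG2, t0', t1', Z0', Z1', hR2, -⟩ := hREG (ε ^ N) hεN hεN2 κ (d ^ 2) (by positivity)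
    (by
      rw [← pow_mul]
      calc d ^ 2 ≤ d := by nlinarith
        _ ≤ _ := hdε.trans (hpow (by omega)))
    (by rw [← pow_mul]; exact hκ) B0 B1 B2 G1 hS1
  have hS2 : Sys ω R ((ε ^ N) ^ N) κ B0 B1 B2 G2 :=
    hS1.mono hG2 (by positivity) (by
      calc (ε ^ N) ^ N ≤ (ε ^ N) ^ 1 := pow_le_pow_of_le_one hεN.le (hεN2.trans (by norm_num)) hN1
        _ = _ := pow_one _) le_rfl
  rw [← pow_mul] at hS2 hR2 hG2
  have hmG2 := hS2.mG
  have hvG2 := hS2.vol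
  set η : ℝ := ε ^ M with hη
  have hη0 : 0 < η := by positivity
  have hη1 : η ≤ 1 := pow_le_one₀ hε.le hε1
  have hηd : 0 < η * d := by positivity
  have hηd1 : η * d ≤ 1 := mul_le_one₀ hη1 hd.le hd1
  -- the bad sets
  have b1 := hNL 0 (by rw [norm_zero]; norm_num) G2 hmG2 hS2.bdd hS2.ang 1 η one_pos le_rfl hη0
  have b2 := hNL 0 (by rw [norm_zero]; norm_num) G2 hmG2 hS2.bdd hS2.ang (η * d) η hηd hηd1 hη0
  have b3 := (hND d (η * d) hd hd1 hηd.le G2 hmG2 hS2.bdd hS2.ang).2.1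
  rw [mul_div_assoc, div_self hd.ne', mul_one] at b3
  set T1 : Set (ℂ × ℝ) := {g | volume.real {α : ℝ | α ∈ Ioo 0 (1:ℝ) ∧ rot 0 α g ∈ G2} < η * 1} with hT1
  set T2 : Set (ℂ × ℝ) := {g | volume.real {α : ℝ | α ∈ Ioo 0 (η * d) ∧ rot 0 α g ∈ G2} < η * (η * d)}
    with hT2
  set T3 : Set (ℂ × ℝ) := {g | deep d (η * d) (-(g.1 + U g.2))} with hT3
  have mT1 : MeasurableSet T1 := B10_meas_slice hmG2 _ _
  have mT2 : MeasurableSet T2 := B10_meas_slice hmG2 _ _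
  have mT3 : MeasurableSet T3 := B10_meas_deep _ _
  set G' : Set (ℂ × ℝ) := G2 ∩ (T1ᶜ ∩ (T2ᶜ ∩ T3)) with hG'
  have hsub2 : G' ⊆ G2 := inter_subset_left
  have hfin : volume G2 ≠ ⊤ := by
    intro h
    have : volume.real G2 = 0 := by rw [Measure.real, h, ENNReal.toReal_top]
    have h3 : 0 < ε ^ (N * N) := by positivity
    linarith
  have hvol : ε ^ (N * N + 1) ≤ volume.real G' := by
    have hcov : G2 ⊆ G' ∪ ({g | g ∈ G2 ∧ g ∈ T1} ∪ ({g | g ∈ G2 ∧ g ∈ T2} ∪ {g | g ∈ G2 ∧ g ∉ T3})) := by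
      intro g hg
      by_cases c1 : g ∈ T1
      · exact Or.inr (Or.inl ⟨hg, c1⟩)
      by_cases c2 : g ∈ T2
      · exact Or.inr (Or.inr (Or.inl ⟨hg, c2⟩))
      by_cases c3 : g ∈ T3
      · exact Or.inl ⟨hg, c1, c2, c3⟩
      · exact Or.inr (Or.inr (Or.inr ⟨hg, c3⟩))
    have hle : volume.real G2 ≤ volume.real G' + (C1 * η + (C1 * η + C2 * η)) := by
      have hsubU : G' ∪ ({g | g ∈ G2 ∧ g ∈ T1} ∪ ({g | g ∈ G2 ∧ g ∈ T2} ∪ {g | g ∈ G2 ∧ g ∉ T3})) ⊆ G2 := by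
        rintro g (h | h | h | h)
        · exact h.1
        · exact h.1
        · exact h.1
        · exact h.1
      refine (measureReal_mono hcov (ne_top_of_le_ne_top hfin (measure_mono hsubU))).trans ?_
      refine (measureReal_union_le _ _).trans (add_le_add_right ?_ _)
      refine (measureReal_union_le _ _).trans (add_le_add b1 ?_)
      exact (measureReal_union_le _ _).trans (add_le_add b2 b3)
    have hsmall : (C1 * η + (C1 * η + C2 * η)) ≤ ε ^ (N * N) / 2 := by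
      have e : η = ε ^ (N * N) * ε ^ m := by rw [hη, hMdef, pow_add]
      have h5 : (2 * (2 * C1 + C2)) * ε ^ m ≤ 1 := by
        refine le_trans ?_ hKm
        refine mul_le_mul_of_nonneg_right ?_ (by positivity)
        linarith
      have h6 : ε ^ (N * N) * ((2 * (2 * C1 + C2)) * ε ^ m) ≤ ε ^ (N * N) * 1 :=
        mul_le_mul_of_nonneg_left h5 (by positivity)
      rw [e]; linarith
    have h7 : ε ^ (N * N + 1) ≤ ε ^ (N * N) / 2 := by
      rw [pow_succ]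
      have : ε ^ (N * N) * ε ≤ ε ^ (N * N) * (1 / 2) := mul_le_mul_of_nonneg_left hε2 (by positivity)
      linarith
    linarith
  have hmG' : MeasurableSet G' := hmG2.inter (mT1.compl.inter (mT2.compl.inter mT3))
  set n := N * N + 6 * M + m + 1 with hn
  have hone : ∀ a : ℕ, a ≤ n → 1 / ε ^ a ≤ 1 / ε ^ n := fun a ha =>
    one_div_le_one_div_of_le (by positivity) (hpow ha)
  refine ⟨G', ⟨hsub2.trans (hG2.sub.trans hG1.sub), hmG', (hpow (by omega)).trans hvol⟩,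
    t0, t1, Z0, Z1, B10_Reg_mono hR1 (hsub2.trans hG2.sub) hd.le (hone N (by omega)), ?_⟩
  rintro ⟨x, θ⟩ hg
  have hgG2 : (x, θ) ∈ G2 := hg.1
  have hθ : θ ∈ Icc (0:ℝ) 1 := hS2.ang _ hgG2
  -- (1) comparison of the two expansions
  have hA1 : 0 < 1 / ε ^ N := by positivity
  have hA12 : 1 / ε ^ N ≤ 1 / ε ^ (N * N) := one_div_le_one_div_of_le (by positivity) (hpow hNN)
  have hA2 : 0 < 1 / ε ^ (N * N) := hA1.trans_le hA12
  have hZ : ‖Z0 x - Z0' x‖ ≤ C3 * (2 * (1 / ε ^ (N * N) * d)) / η ^ 6 := by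
    set Sx : Set ℝ := {θ' | (x, θ') ∈ G2} with hSx
    have mSx : MeasurableSet Sx := measurable_prodMk_left hmG2
    have hSx1 : Sx ⊆ Icc 0 1 := fun θ' h => hS2.ang _ h
    have hvS : η ≤ volume.real Sx := by
      have c1 : ¬ (volume.real {α : ℝ | α ∈ Ioo 0 (1:ℝ) ∧ rot 0 α (x, θ) ∈ G2} < η * 1) := hg.2.1
      rw [not_lt, mul_one] at c1
      refine c1.trans ?_
      have hsub : {α : ℝ | α ∈ Ioo 0 (1:ℝ) ∧ rot 0 α (x, θ) ∈ G2} ⊆ (fun α => θ + α) ⁻¹' Sx := by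
        rintro α ⟨-, h⟩
        show (x, θ + α) ∈ G2
        simpa [rot] using h
      have hfin2 : volume ((fun α => θ + α) ⁻¹' Sx) ≠ ⊤ := by
        rw [measure_preimage_add]
        exact ne_top_of_le_ne_top (by rw [Real.volume_Icc]; exact ENNReal.ofReal_ne_top)
          (measure_mono hSx1)
      refine (measureReal_mono hsub hfin2).trans (le_of_eq ?_)
      rw [Measure.real, measure_preimage_add]; rfl
    refine hcmp (ω.re * t0 x - ω.re * t0' x) (Z0 x - Z0' x) (2 * (1 / ε ^ (N * N) * d)) η Sx mSx hη0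
      hSx1 hvS ?_
    intro θ' hθ'
    have f1 := hR1.F0 _ (hG2.sub hθ')
    have f2 := hR2.F0 _ hθ'
    simp only at f1 f2
    rw [ip_sub_left]
    have h8 : 1 / ε ^ N * d ≤ 1 / ε ^ (N * N) * d := mul_le_mul_of_nonneg_right hA12 hd.le
    have h9 : 1 / ε ^ (N * N) * d ^ 2 ≤ 1 / ε ^ (N * N) * d := by
      refine mul_le_mul_of_nonneg_left ?_ hA2.le
      nlinarith
    rw [abs_le] at *
    constructor <;> linarith [f1.1, f1.2, f2.1, f2.2]
  -- (2) the rotation angle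
  have c2 : ¬ (volume.real {α : ℝ | α ∈ Ioo 0 (η * d) ∧ rot 0 α (x, θ) ∈ G2} < η * (η * d)) := hg.2.2.1
  rw [not_lt] at c2
  obtain ⟨α, hα1, hα2, hα3⟩ : ∃ α : ℝ, η ^ 2 * d / 2 ≤ α ∧ α < η * d ∧ (x, θ + α) ∈ G2 := by
    by_contra hcon
    push Not at hcon
    have hsub : {α : ℝ | α ∈ Ioo 0 (η * d) ∧ rot 0 α (x, θ) ∈ G2} ⊆ Ioo 0 (η ^ 2 * d / 2) := by
      rintro α ⟨hα, h⟩
      refine ⟨hα.1, ?_⟩
      by_contra h'
      rw [not_lt] at h'
      refine hcon α h' hα.2 ?_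
      simpa [rot] using h
    have hle := measureReal_mono hsub (by rw [Real.volume_Ioo]; exact ENNReal.ofReal_ne_top)
      (μ := volume)
    rw [Real.volume_real_Ioo_of_le (by positivity)] at hle
    have : 0 < η ^ 2 * d := by positivity
    nlinarith
  have hα0 : 0 < α := lt_of_lt_of_le (by positivity) hα1
  have hαd : α ≤ d := hα2.le.trans (by nlinarith)
  -- (3) same cell
  have hdeep : deep d (η * d) (-(x + U θ)) := hg.2.2.2
  have hcell : cell d (-(x + U θ)) = cell d (-(x + U (θ + α))) := by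
    have e : -(x + U (θ + α)) = -(x + U θ) + -(U (θ + α) - U θ) := by ring
    rw [e, deep_cell d (η * d) hd _ _ hdeep ?_]
    rw [norm_neg]
    refine (norm_U_sub_le θ α).trans ?_
    rw [abs_of_pos hα0]; exact hα2.le
  have key := B10_point hA12 hA1 hη0 hd hd1 hV1 hR2 hG2.sub hgG2 hα3 hα1 hαd hcell hZ
  refine key.trans ?_
  -- (4) numerical part
  have hη6 : η ^ 6 = ε ^ (6 * M) := by rw [hη, ← pow_mul, mul_comm]
  have hη26 : 38 * (1 / ε ^ (N * N)) * d / η ^ 2 ≤ 38 * (1 / ε ^ (N * N)) * d / η ^ 6 := by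
    refine div_le_div_of_nonneg_left (by positivity) (by positivity) ?_
    exact pow_le_pow_of_le_one hη0.le hη1 (by norm_num)
  have hsum : 38 * (1 / ε ^ (N * N)) * d / η ^ 2 + 2 * (C3 * (2 * (1 / ε ^ (N * N) * d)) / η ^ 6)
      ≤ (38 + 4 * C3) * (d / (ε ^ (N * N) * ε ^ (6 * M))) := by
    refine (add_le_add_left hη26 _).trans (le_of_eq ?_)
    rw [hη6]
    field_simp
    ring
  refine hsum.trans ?_
  have h10 : (38 + 4 * C3) * ε ^ m ≤ 1 := by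
    refine le_trans ?_ hKm
    refine mul_le_mul_of_nonneg_right ?_ (by positivity)
    linarith
  have h11 : 1 / ε ^ n * d = d / (ε ^ (N * N) * ε ^ (6 * M)) * (1 / (ε ^ m * ε)) := by
    rw [hn, pow_add, pow_add, pow_add, pow_one]
    field_simp
  rw [h11, mul_comm]
  refine mul_le_mul_of_nonneg_left ?_ (by positivity)
  rw [le_div_iff₀ (by positivity)]
  calc (38 + 4 * C3) * (ε ^ m * ε) = ((38 + 4 * C3) * ε ^ m) * ε := by ring
    _ ≤ 1 * 1 := mul_le_mul h10 hε1 hε.le (by norm_num)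
    _ = 1 := one_mul _

end TriDil
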