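import Pool.Agent.TriDil.Basic7
set_option autoImplicit false
open MeasureTheory Complex Set
namespace TriDil
open scoped ComplexConjugate

theorem B11_exp (α : ℝ) (hα : |α| ≤ 1) : ‖U (-(2 * α)) - 1 + 2 * I * α‖ ≤ 16 * α ^ 2 := by
  rcases le_or_gt (|2 * α|) 1 with h | h
  · have h1 := norm_U_sub_le2 0 (-(2 * α)) (by rwa [abs_neg])
    rw [zero_add, U_zero] at h1
    have e : U (-(2 * α)) - 1 + 2 * I * α = U (-(2 * α)) - 1 - I * ((-(2 * α) : ℝ) : ℂ) * 1 := by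
      push_cast; ring
    rw [e]
    refine h1.trans ?_
    nlinarith [sq_nonneg α]
  · have h1 : ‖U (-(2 * α)) - 1 + 2 * I * α‖ ≤ 1 + 1 + 2 * |α| := by
      refine (norm_add_le _ _).trans (add_le_add ((norm_sub_le _ _).trans ?_) ?_)
      · rw [norm_U, norm_one]
      · rw [norm_mul, norm_mul, norm_I, norm_real, Real.norm_eq_abs]; simp
    rw [abs_mul, abs_two] at h
    have h2 : α ^ 2 = |α| ^ 2 := (sq_abs α).symm
    rw [h2]
    nlinarith [abs_nonneg α]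

theorem B11_imb_sub (Z : ℂ) (θ α : ℝ) (hα : |α| ≤ 1) :
    |imb Z (θ + α) - imb Z θ + 2 * α * (Z * conj (U θ ^ 2)).re| ≤ 16 * ‖Z‖ * α ^ 2 := by
  have e1 : conj (U (θ + α) ^ 2) = conj (U θ ^ 2) * U (-(2 * α)) := by
    rw [U_add, mul_pow, map_mul]
    congr 1
    rw [map_pow, conj_U, sq, ← U_add]
    congr 1; ring
  have e2 : imb Z (θ + α) - imb Z θ + 2 * α * (Z * conj (U θ ^ 2)).re
      = (Z * conj (U θ ^ 2) * (U (-(2 * α)) - 1 + 2 * I * α)).im := by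
    unfold imb
    rw [e1]
    set W := Z * conj (U θ ^ 2) with hW
    have e3 : Z * (conj (U θ ^ 2) * U (-(2 * α))) = W * U (-(2 * α)) := by rw [hW]; ring
    rw [e3]
    have e4 : W * (U (-(2 * α)) - 1 + 2 * I * α) = W * U (-(2 * α)) - W + (2 * α : ℝ) * (I * W) := by
      push_cast; ring
    rw [e4, add_im, sub_im, im_ofReal_mul, I_mul_im]
  rw [e2]
  calc _ ≤ ‖Z * conj (U θ ^ 2) * (U (-(2 * α)) - 1 + 2 * I * α)‖ := abs_im_le_norm _
    _ = ‖Z‖ * ‖U (-(2 * α)) - 1 + 2 * I * α‖ := by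
        rw [norm_mul, norm_mul, norm_conj, norm_pow, norm_U]; ring
    _ ≤ ‖Z‖ * (16 * α ^ 2) := mul_le_mul_of_nonneg_left (B11_exp α hα) (norm_nonneg _)
    _ = _ := by ring

/-- first real estimate -/
theorem B11_T {ωi E α b b' t T s p q q' F : ℝ} (hi : ωi ≠ 0)
    (h2 : |q - b - ωi * (s - t)| ≤ E) (h3 : |ωi * s + q + 2 * b| ≤ E)
    (h2' : |q' - b' - ωi * (s - T)| ≤ E) (h3' : |ωi * s + q' + 2 * b'| ≤ E)
    (h4 : |q' - q + 2 * α * p| ≤ F) :
    |T - t - 3 / ωi * α * p| ≤ |ωi|⁻¹ * (3 * E + 3 / 2 * F) := by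
  have hi' : 0 < |ωi| := abs_pos.2 hi
  have e : T - t - 3 / ωi * α * p = ωi⁻¹ * (ωi * (T - t) - 3 * α * p) := by
    field_simp
  rw [e, abs_mul, abs_inv]
  refine mul_le_mul_of_nonneg_left ?_ (inv_nonneg.2 hi'.le)
  rw [abs_le] at *
  constructor <;> linarith [h2.1, h2.2, h3.1, h3.2, h2'.1, h2'.2, h3'.1, h3'.2, h4.1, h4.2]

/-- second real estimate -/
theorem B11_p {ωr ωi E a b t s p q : ℝ} (hi : ωi ≠ 0)
    (h1 : |p - a - ((ωr - 1) * s - ωr * t)| ≤ E)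
    (h2 : |q - b - ωi * (s - t)| ≤ E) (h3 : |ωi * s + q + 2 * b| ≤ E) :
    |p - (a - 3 * (ωr - 1) / (2 * ωi) * b - (1 + ωr) / 2 * t)| ≤
      (1 + |ωr - 1| * |ωi|⁻¹) * E := by
  have hi' : 0 < |ωi| := abs_pos.2 hi
  have h5 : |2 * ωi * s - ωi * t + 3 * b| ≤ 2 * E := by
    rw [abs_le] at *
    constructor <;> linarith [h2.1, h2.2, h3.1, h3.2]
  have e : p - (a - 3 * (ωr - 1) / (2 * ωi) * b - (1 + ωr) / 2 * t)
      = (p - a - ((ωr - 1) * s - ωr * t))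
        + (ωr - 1) * ωi⁻¹ * (1 / 2) * (2 * ωi * s - ωi * t + 3 * b) := by
    field_simp
    ring
  rw [e]
  calc _ ≤ _ := abs_add_le _ _
    _ ≤ E + |ωr - 1| * |ωi|⁻¹ * (1 / 2) * (2 * E) := by
        refine add_le_add h1 ?_
        rw [abs_mul, abs_mul, abs_mul, abs_inv, abs_of_pos (by norm_num : (0:ℝ) < 1 / 2)]
        exact mul_le_mul_of_nonneg_left h5 (by positivity)
    _ = _ := by ring

/-- the value in (S5) -/
theorem B11_val (ω Z : ℂ) (t θ α : ℝ) (hα : 0 < α) (hα1 : α ≤ 1) {x x' : ℂ}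
    (hx : x + U θ = x' + U (θ + α)) :
    |(A5 ω Z * conj (x' - x) ^ 2).re / ‖x' - x‖ + C5 ω t * ‖x' - x‖
      - 3 / ω.im * α * ((Z * conj (U θ ^ 2)).re
        - 3 * (ω.re - 1) / (2 * ω.im) * (Z * conj (U θ ^ 2)).im - (1 + ω.re) / 2 * t)| ≤
    3 * |ω.im|⁻¹ * (2 * (1 + |3 * (ω.re - 1) / (2 * ω.im)|) * ‖Z‖ + |(1 + ω.re) / 2| * |t|) * α ^ 2 := by
  have hw : x' - x = U θ * (1 - U α) := by
    rw [mul_sub, mul_one, ← U_add]
    linear_combination -hx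
  have hwU : x' - x = -(U (θ + α) - U θ) := by linear_combination -hx
  set w := x' - x with hwdef
  have hwn : |‖w‖ - α| ≤ α ^ 2 := by
    have h1 := norm_U_sub_le2 θ α (by rw [abs_of_pos hα]; exact hα1)
    have h2 : ‖I * α * U θ‖ = α := by
      rw [norm_mul, norm_mul, norm_I, norm_U, norm_real, Real.norm_eq_abs, abs_of_pos hα]; ring
    have h3 : ‖w‖ = ‖U (θ + α) - U θ‖ := by rw [hwU, norm_neg]
    rw [h3]
    calc |‖U (θ + α) - U θ‖ - α| = |‖U (θ + α) - U θ‖ - ‖I * α * U θ‖| := by rw [h2]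
      _ ≤ ‖U (θ + α) - U θ - I * α * U θ‖ := abs_norm_sub_norm_le _ _
      _ ≤ _ := h1
  have hwle : ‖w‖ ≤ α := by
    have h3 : ‖w‖ = ‖U (θ + α) - U θ‖ := by rw [hwU, norm_neg]
    rw [h3]
    have := norm_U_sub_le θ α
    rwa [abs_of_pos hα] at this
  -- `conj w ^ 2 = - ‖w‖ ^ 2 * conj (U θ) ^ 2 * U (-α)`
  have hUa : U α * U (-α) = 1 := by rw [← U_add, add_neg_cancel, U_zero]
  have hUt : U θ * U (-θ) = 1 := by rw [← U_add, add_neg_cancel, U_zero]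
  have hn : ((‖w‖ ^ 2 : ℝ) : ℂ) = w * conj w := by
    rw [mul_conj, normSq_eq_norm_sq]
  have hcw : conj w = U (-θ) * (1 - U (-α)) := by
    rw [hw, map_mul, map_sub, map_one, conj_U, conj_U]
  have hc2 : conj w ^ 2 = -((‖w‖ ^ 2 : ℝ) : ℂ) * (conj (U θ ^ 2) * U (-α)) := by
    rw [hn, map_pow, conj_U, hcw, hw]
    linear_combination ((U (-θ)) ^ 2 * (1 - U (-α)) * (U (-α) - U α * U (-α))) * (hUt)
      + (-(U (-θ)) ^ 2 * (1 - U (-α))) * hUa
  have hdiv : (A5 ω Z * conj w ^ 2).re / ‖w‖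
      = -‖w‖ * (A5 ω Z * (conj (U θ ^ 2) * U (-α))).re := by
    rw [hc2]
    have e : A5 ω Z * (-((‖w‖ ^ 2 : ℝ) : ℂ) * (conj (U θ ^ 2) * U (-α)))
        = ((-(‖w‖ ^ 2) : ℝ) : ℂ) * (A5 ω Z * (conj (U θ ^ 2) * U (-α))) := by
      push_cast; ring
    rw [e, re_ofReal_mul]
    rcases eq_or_ne ‖w‖ 0 with h0 | h0
    · rw [h0]; simp
    · field_simp
  rw [hdiv]
  set μ : ℝ := 3 * (ω.re - 1) / (2 * ω.im) with hμ
  set W := Z * conj (U θ ^ 2) with hW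
  have hWn : ‖W‖ = ‖Z‖ := by rw [hW, norm_mul, norm_conj, norm_pow, norm_U]; ring
  have hA : A5 ω Z * (conj (U θ ^ 2) * U (-α))
      = ((-(3 / ω.im) : ℝ) : ℂ) * ((1 + I * (μ : ℝ)) * W * U (-α)) := by
    unfold A5; rw [hW, hμ]; push_cast; ring
  rw [hA, re_ofReal_mul]
  have hre : ((1 + I * (μ : ℂ)) * W).re = W.re - μ * W.im := by
    rw [add_mul, one_mul, add_re, mul_assoc, I_mul_re, im_ofReal_mul]; ring
  set V := (1 + I * (μ : ℂ)) * W with hV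
  have hVn : ‖V‖ ≤ (1 + |μ|) * ‖Z‖ := by
    rw [hV, norm_mul, hWn]
    refine mul_le_mul_of_nonneg_right ?_ (norm_nonneg _)
    refine (norm_add_le _ _).trans ?_
    rw [norm_one, norm_mul, norm_I, norm_real, Real.norm_eq_abs, one_mul]
  have hVU : |(V * U (-α)).re - V.re| ≤ ‖V‖ * α := by
    have e : (V * U (-α)).re - V.re = (V * (U (-α) - 1)).re := by
      rw [mul_sub, mul_one, sub_re]
    rw [e]
    refine (abs_re_le_norm _).trans ?_
    rw [norm_mul]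
    refine mul_le_mul_of_nonneg_left ?_ (norm_nonneg _)
    have := norm_U_sub_le 0 (-α)
    rwa [zero_add, U_zero, abs_neg, abs_of_pos hα] at this
  have hVr : |V.re| ≤ ‖V‖ := abs_re_le_norm _
  have e5 : -‖w‖ * (-(3 / ω.im) * (V * U (-α)).re) + C5 ω t * ‖w‖
      - 3 / ω.im * α * (W.re - μ * W.im - (1 + ω.re) / 2 * t)
      = 3 / ω.im * (‖w‖ * ((V * U (-α)).re - V.re)
        + (‖w‖ - α) * (V.re - (1 + ω.re) / 2 * t)) := by
    unfold C5
    rw [hre]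
    ring
  rw [e5, abs_mul, abs_div, abs_of_pos (by norm_num : (0:ℝ) < 3), div_eq_mul_inv]
  have h6 : |‖w‖ * ((V * U (-α)).re - V.re) + (‖w‖ - α) * (V.re - (1 + ω.re) / 2 * t)|
      ≤ α * (‖V‖ * α) + α ^ 2 * (‖V‖ + |(1 + ω.re) / 2| * |t|) := by
    refine (abs_add_le _ _).trans (add_le_add ?_ ?_)
    · rw [abs_mul, abs_norm]
      exact mul_le_mul hwle hVU (abs_nonneg _) hα.le
    · rw [abs_mul]
      refine mul_le_mul hwn ?_ (abs_nonneg _) (sq_nonneg _)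
      refine (abs_sub _ _).trans (add_le_add hVr ?_)
      rw [abs_mul]
  have h7 : α * (‖V‖ * α) + α ^ 2 * (‖V‖ + |(1 + ω.re) / 2| * |t|)
      ≤ (2 * (1 + |μ|) * ‖Z‖ + |(1 + ω.re) / 2| * |t|) * α ^ 2 := by
    have h8 : 0 ≤ α ^ 2 := sq_nonneg _
    nlinarith [mul_le_mul_of_nonneg_right hVn h8]
  calc _ ≤ 3 * |ω.im|⁻¹ * ((2 * (1 + |μ|) * ‖Z‖ + |(1 + ω.re) / 2| * |t|) * α ^ 2) :=
        mul_le_mul_of_nonneg_left (h6.trans h7) (by positivity)
    _ = _ := by ring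

/-- `Re (Z1 ū²)`, `Im (Z1 ū²)` from (S3) -/
theorem B11_S3 {ω Z1 Z0 : ℂ} {s t θ E : ℝ}
    (h : ‖Z1 - Z0 - U θ ^ 2 * ((ω - 1) * s - ω * t)‖ ≤ E) :
    |(Z1 * conj (U θ ^ 2)).re - (Z0 * conj (U θ ^ 2)).re - ((ω.re - 1) * s - ω.re * t)| ≤ E ∧
    |imb Z1 θ - imb Z0 θ - ω.im * (s - t)| ≤ E := by
  have hU : U θ ^ 2 * conj (U θ ^ 2) = 1 := by
    rw [map_pow, ← mul_pow, U_mul_conj, one_pow]
  have e : (Z1 - Z0 - U θ ^ 2 * ((ω - 1) * s - ω * t)) * conj (U θ ^ 2)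
      = Z1 * conj (U θ ^ 2) - Z0 * conj (U θ ^ 2) - ((ω - 1) * s - ω * t) := by
    linear_combination (-((ω - 1) * s - ω * t)) * hU
  have hn : ‖(Z1 - Z0 - U θ ^ 2 * ((ω - 1) * s - ω * t)) * conj (U θ ^ 2)‖ ≤ E := by
    rw [norm_mul, norm_conj, norm_pow, norm_U, one_pow, mul_one]; exact h
  rw [e] at hn
  constructor
  · refine le_trans (le_of_eq ?_) ((abs_re_le_norm _).trans hn)
    simp only [sub_re, mul_re, sub_im, ofReal_re, ofReal_im, one_re, one_im]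
    congr 1; ring
  · refine le_trans (le_of_eq ?_) ((abs_im_le_norm _).trans hn)
    unfold imb
    simp only [sub_re, mul_re, sub_im, mul_im, ofReal_re, ofReal_im, one_re, one_im]
    congr 1; ring

theorem CONS (ω : ℂ) (h0 : ω.im ≠ 0) :
    ∃ n : ℕ, 1 ≤ n ∧ ∀ ε : ℝ, 0 < ε → ε ≤ 1 / 2 → ∀ d D : ℝ, 0 < d → 0 < D → D ≤ 1 → d ≤ D ^ 2 →
    ∀ (B0 B1 : ℂ → ℂ) (G : Set (ℂ × ℝ)) (t0 t1 : ℂ → ℝ) (Z0 Z1 : ℂ → ℂ),
      Reg ω (1 / ε) d B0 B1 G t0 t1 Z0 Z1 → S4P ω (1 / ε) d G t1 Z0 Z1 →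
      S5P ω (1 / ε ^ n) D G t0 Z0 := by
  -- constants
  set k : ℝ := |ω.im|⁻¹ with hk
  have hk0 : 0 ≤ k := by positivity
  set μ : ℝ := 3 * (ω.re - 1) / (2 * ω.im) with hμ
  set ρ : ℝ := (1 + ω.re) / 2 with hρ
  set Ct : ℝ := 3 * k + k * 27 with hCt
  set CZ : ℝ := 2 * (‖ω‖ + 1 + ‖ω‖) + ‖ω‖ * Ct + 2 with hCZ
  set C5' : ℝ := k * 27 + 3 * k * (1 + |ω.re - 1| * k)
    + 3 * k * (2 * (1 + |μ|) + |ρ|) with hC5
  set C : ℝ := 1 + Ct + CZ + C5' with hC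
  have hCt0 : 0 ≤ Ct := by positivity
  have hCZ0 : 0 ≤ CZ := by positivity
  have hC50 : 0 ≤ C5' := by positivity
  obtain ⟨m, hm⟩ := pow_unbounded_of_one_lt C (by norm_num : (1:ℝ) < 2)
  refine ⟨m + 1, Nat.le_add_left _ _, ?_⟩
  intro ε hε hε2 d D hd hD hD1 hdD B0 B1 G t0 t1 Z0 Z1 hR hS4
  have hA0 : 0 < 1 / ε := by positivity
  -- the final constant
  have hfin : C * (1 / ε) ≤ 1 / ε ^ (m + 1) := by
    have h1 : (2:ℝ) ^ m ≤ (1 / ε) ^ m := by
      refine pow_le_pow_left₀ (by norm_num) ?_ m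
      rw [le_div_iff₀ hε]; linarith
    have h2 : 1 / ε ^ (m + 1) = (1 / ε) ^ m * (1 / ε) := by
      rw [one_div_pow, pow_succ]; field_simp
    rw [h2]
    exact mul_le_mul_of_nonneg_right (hm.le.trans h1) hA0.le
  set A : ℝ := 1 / ε with hA
  have hstep : ∀ c : ℝ, c ≤ C → c * A ≤ 1 / ε ^ (m + 1) := fun c hc =>
    (mul_le_mul_of_nonneg_right hc hA0.le).trans hfin
  have hdD' : d ≤ D := hdD.trans (by nlinarith)
  -- the main computation
  have main : ∀ x x' : ℂ, ∀ θ α : ℝ, (x, θ) ∈ G → (x', θ + α) ∈ G → 0 < α → α ≤ D →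
      x + U θ = x' + U (θ + α) →
      |t0 x' - t0 x| ≤ Ct * A * D ∧ ‖Z0 x' - Z0 x‖ ≤ CZ * A * D ∧
      |t0 x' - t0 x - ((A5 ω (Z0 x) * conj (x' - x) ^ 2).re / ‖x' - x‖
        + C5 ω (t0 x) * ‖x' - x‖)| ≤ C5' * A * D ^ 2 := by
    intro x x' θ α hg hg' hα hαD hx
    have hα1 : α ≤ 1 := hαD.trans hD1
    have s3 := hR.S3 _ hg
    have s3' := hR.S3 _ hg'
    have s4 := hS4 _ hg
    have s4' := hS4 _ hg'
    simp only at s3 s3' s4 s4'
    rw [← hx] at s3' s4'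
    set y := x + U θ with hy
    obtain ⟨p1, q1⟩ := B11_S3 s3
    obtain ⟨p1', q1'⟩ := B11_S3 s3'
    have himb := B11_imb_sub (Z1 y) θ α (by rw [abs_of_pos hα]; exact hα1)
    have hZ1 : ‖Z1 y‖ ≤ A := hR.bZ1 y
    have hZ0 : ‖Z0 x‖ ≤ A := hR.bZ0 x
    have ht0 : |t0 x| ≤ A := hR.bt0 x
    have ht0' : |t0 x'| ≤ A := hR.bt0 x'
    have ht1 : |t1 y| ≤ A := hR.bt1 y
    have hα2 : α ^ 2 ≤ D ^ 2 := pow_le_pow_left₀ hα.le hαD 2
    have hAd : A * d ≤ A * D ^ 2 := mul_le_mul_of_nonneg_left hdD hA0.le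
    have hD2 : D ^ 2 ≤ D := by nlinarith
    have hF : |imb (Z1 y) (θ + α) - imb (Z1 y) θ + 2 * α * (Z1 y * conj (U θ ^ 2)).re|
        ≤ 16 * (A * D ^ 2) := by
      refine himb.trans ?_
      have : ‖Z1 y‖ * α ^ 2 ≤ A * D ^ 2 := mul_le_mul hZ1 hα2 (sq_nonneg _) hA0.le
      linarith
    have hT := B11_T h0 q1 s4 q1' s4' hF
    have hp := B11_p h0 p1 q1 s4
    have hpn : |(Z1 y * conj (U θ ^ 2)).re| ≤ A := by
      refine (abs_re_le_norm _).trans ?_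
      rw [norm_mul, norm_conj, norm_pow, norm_U, one_pow, mul_one]; exact hZ1
    set p := (Z1 y * conj (U θ ^ 2)).re with hpdef
    -- (a)
    have hE1 : |ω.im|⁻¹ * (3 * (A * d) + 3 / 2 * (16 * (A * D ^ 2))) ≤ k * 27 * (A * D ^ 2) := by
      rw [← hk]
      have : 3 * (A * d) + 3 / 2 * (16 * (A * D ^ 2)) ≤ 27 * (A * D ^ 2) := by linarith
      calc _ ≤ k * (27 * (A * D ^ 2)) := mul_le_mul_of_nonneg_left this hk0
        _ = _ := by ring
    have hT1 := hT.trans hE1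
    have h3p : |3 / ω.im * α * p| ≤ 3 * k * (A * D) := by
      rw [abs_mul, abs_mul, abs_div, abs_of_pos (by norm_num : (0:ℝ) < 3), abs_of_pos hα,
        div_eq_mul_inv, ← hk]
      calc 3 * k * α * |p| ≤ 3 * k * D * A := by
            refine mul_le_mul ?_ hpn (abs_nonneg _) (by positivity)
            exact mul_le_mul_of_nonneg_left hαD (by positivity)
        _ = _ := by ring
    have hAD2 : A * D ^ 2 ≤ A * D := mul_le_mul_of_nonneg_left hD2 hA0.le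
    have ha : |t0 x' - t0 x| ≤ Ct * A * D := by
      have e : t0 x' - t0 x = (t0 x' - t0 x - 3 / ω.im * α * p) + 3 / ω.im * α * p := by ring
      rw [e]
      refine (abs_add_le _ _).trans ((add_le_add hT1 h3p).trans ?_)
      rw [hCt]
      have : k * 27 * (A * D ^ 2) ≤ k * 27 * (A * D) :=
        mul_le_mul_of_nonneg_left hAD2 (by positivity)
      linarith
    refine ⟨ha, ?_, ?_⟩
    · -- (b)
      have e : Z0 x' - Z0 x
          = (Z1 y - Z0 x - U θ ^ 2 * ((ω - 1) * t1 y - ω * t0 x))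
            - (Z1 y - Z0 x' - U (θ + α) ^ 2 * ((ω - 1) * t1 y - ω * t0 x'))
            - (U (θ + α) ^ 2 - U θ ^ 2) * ((ω - 1) * t1 y - ω * t0 x)
            + U (θ + α) ^ 2 * (ω * ((t0 x' - t0 x : ℝ) : ℂ)) := by
        push_cast; ring
      rw [e]
      have hUU : ‖U (θ + α) ^ 2 - U θ ^ 2‖ ≤ 2 * D := by
        have e2 : U (θ + α) ^ 2 - U θ ^ 2 = (U (θ + α) - U θ) * (U (θ + α) + U θ) := by ring
        rw [e2, norm_mul]
        have h1 := norm_U_sub_le θ α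
        rw [abs_of_pos hα] at h1
        have h2 : ‖U (θ + α) + U θ‖ ≤ 2 := by
          refine (norm_add_le _ _).trans ?_
          rw [norm_U, norm_U]; norm_num
        calc _ ≤ D * 2 := mul_le_mul (h1.trans hαD) h2 (norm_nonneg _) hD.le
          _ = _ := by ring
      have hbr : ‖(ω - 1) * t1 y - ω * t0 x‖ ≤ (‖ω‖ + 1 + ‖ω‖) * A := by
        refine (norm_sub_le _ _).trans ?_
        rw [norm_mul, norm_mul, norm_real, norm_real, Real.norm_eq_abs, Real.norm_eq_abs, add_mul]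
        refine add_le_add ?_ (mul_le_mul_of_nonneg_left ht0 (norm_nonneg _))
        refine mul_le_mul ?_ ht1 (abs_nonneg _) (by positivity)
        refine (norm_sub_le _ _).trans ?_
        rw [norm_one]
      have hlast : ‖U (θ + α) ^ 2 * (ω * ((t0 x' - t0 x : ℝ) : ℂ))‖ ≤ ‖ω‖ * (Ct * A * D) := by
        rw [norm_mul, norm_pow, norm_U, one_pow, one_mul, norm_mul, norm_real, Real.norm_eq_abs]
        exact mul_le_mul_of_nonneg_left ha (norm_nonneg _)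
      have hmid : ‖(U (θ + α) ^ 2 - U θ ^ 2) * ((ω - 1) * t1 y - ω * t0 x)‖
          ≤ 2 * D * ((‖ω‖ + 1 + ‖ω‖) * A) := by
        rw [norm_mul]
        exact mul_le_mul hUU hbr (norm_nonneg _) (by positivity)
      have hAd2 : A * d ≤ A * D := mul_le_mul_of_nonneg_left hdD' hA0.le
      refine (norm_add_le _ _).trans ?_
      refine (add_le_add_left ((norm_sub_le _ _).trans
        (add_le_add_left (norm_sub_le _ _) _)) _).trans ?_
      rw [hCZ]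
      nlinarith [s3, s3', hmid, hlast]
    · -- (c)
      have hv := B11_val ω (Z0 x) (t0 x) θ α hα hα1 hx
      rw [← hk, ← hμ, ← hρ] at hv
      rw [← hk, ← hμ, ← hρ] at hp
      have himb0 : (Z0 x * conj (U θ ^ 2)).im = imb (Z0 x) θ := rfl
      rw [himb0] at hv
      set Q := (Z0 x * conj (U θ ^ 2)).re - μ * imb (Z0 x) θ - ρ * t0 x with hQ
      have h3 : |3 / ω.im * α * p - 3 / ω.im * α * Q| ≤ 3 * k * (1 + |ω.re - 1| * k) * (A * D ^ 2) := by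
        rw [← mul_sub, abs_mul, abs_mul, abs_div, abs_of_pos (by norm_num : (0:ℝ) < 3),
          abs_of_pos hα, div_eq_mul_inv, ← hk]
        have h4 : |p - Q| ≤ (1 + |ω.re - 1| * k) * (A * D ^ 2) :=
          hp.trans (mul_le_mul_of_nonneg_left hAd (by positivity))
        calc 3 * k * α * |p - Q| ≤ 3 * k * 1 * ((1 + |ω.re - 1| * k) * (A * D ^ 2)) := by
              refine mul_le_mul ?_ h4 (abs_nonneg _) (by positivity)
              exact mul_le_mul_of_nonneg_left hα1 (by positivity)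
          _ = _ := by ring
      have hv2 : 3 * k * (2 * (1 + |μ|) * ‖Z0 x‖ + |ρ| * |t0 x|) * α ^ 2
          ≤ 3 * k * (2 * (1 + |μ|) + |ρ|) * (A * D ^ 2) := by
        have h5 : 2 * (1 + |μ|) * ‖Z0 x‖ + |ρ| * |t0 x| ≤ (2 * (1 + |μ|) + |ρ|) * A := by
          have h6 := mul_le_mul_of_nonneg_left hZ0 (by positivity : 0 ≤ 2 * (1 + |μ|))
          have h7 := mul_le_mul_of_nonneg_left ht0 (abs_nonneg ρ)
          linarith
        calc _ ≤ 3 * k * ((2 * (1 + |μ|) + |ρ|) * A) * D ^ 2 := by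
              refine mul_le_mul ?_ hα2 (sq_nonneg _) (by positivity)
              exact mul_le_mul_of_nonneg_left h5 (by positivity)
          _ = _ := by ring
      have hv3 := hv.trans hv2
      have e : t0 x' - t0 x - ((A5 ω (Z0 x) * conj (x' - x) ^ 2).re / ‖x' - x‖
          + C5 ω (t0 x) * ‖x' - x‖)
          = (t0 x' - t0 x - 3 / ω.im * α * p) + (3 / ω.im * α * p - 3 / ω.im * α * Q)
            - ((A5 ω (Z0 x) * conj (x' - x) ^ 2).re / ‖x' - x‖ + C5 ω (t0 x) * ‖x' - x‖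
              - 3 / ω.im * α * Q) := by ring
      rw [e]
      refine (abs_sub _ _).trans ((add_le_add ((abs_add_le _ _).trans
        (add_le_add hT1 h3)) hv3).trans (le_of_eq ?_))
      rw [hC5]; ring
  refine ⟨?_, ?_, ?_, ?_, ?_⟩
  · intro x
    have := hstep 1 (by rw [hC]; linarith)
    rw [one_mul] at this
    exact (hR.bt0 x).trans this
  · intro x
    have := hstep 1 (by rw [hC]; linarith)
    rw [one_mul] at this
    exact (hR.bZ0 x).trans this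
  · intro x x' θ α hg hg' hα hαD hx
    exact (main x x' θ α hg hg' hα hαD hx).1.trans
      (mul_le_mul_of_nonneg_right (hstep Ct (by rw [hC]; linarith)) hD.le)
  · intro x x' θ α hg hg' hα hαD hx
    exact (main x x' θ α hg hg' hα hαD hx).2.1.trans
      (mul_le_mul_of_nonneg_right (hstep CZ (by rw [hC]; linarith)) hD.le)
  · intro x x' θ α hg hg' hα hαD hx
    exact (main x x' θ α hg hg' hα hαD hx).2.2.trans
      (mul_le_mul_of_nonneg_right (hstep C5' (by rw [hC]; linarith)) (sq_nonneg _))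

end TriDil
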