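import Pool.Agent.TriDil.Basic7
import Pool.Agent.TriDil.B1
import Pool.Agent.TriDil.B2
import Pool.Agent.TriDil.B3
import Pool.Agent.TriDil.B4
set_option autoImplicit false
open MeasureTheory Complex Set
namespace TriDil
open scoped ComplexConjugate
open scoped ENNReal

theorem B12_real (X Y Z C a r s k p : ℝ) (hr : 0 < r) (hs : r / 2 ≤ s) (hk : 0 ≤ k)
    (hsq : s ^ 2 = r ^ 2 - 2 * p + k ^ 2) (hp : |p| ≤ r * k) (hsr : |r - s| ≤ k) (ha : 0 ≤ a)
    (hX : |X| ≤ a * r ^ 2) (hY : |Y| ≤ a * (r * k)) (hZ : |Z| ≤ a * k ^ 2) :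
    |(X / r + C * r) - ((X - 2 * Y + Z) / s + C * s)
      - (2 * Y / r - X * p / r ^ 3 + C * p / r)| ≤ 10 * (a + |C|) * k ^ 2 / r := by
  have hs0 : 0 < s := by linarith
  have he1 : |r - s - p / r| ≤ 2 * k ^ 2 / r := by
    have e : r - s - p / r = (p * (r - s) - r * k ^ 2) / (r * (r + s)) := by
      field_simp
      linear_combination (-r) * hsq
    rw [e, abs_div, abs_of_pos (show 0 < r * (r + s) by positivity), div_le_div_iff₀ (by positivity) hr]
    have h1 : |p * (r - s) - r * k ^ 2| ≤ 2 * r * k ^ 2 := by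
      calc |p * (r - s) - r * k ^ 2| ≤ |p * (r - s)| + |r * k ^ 2| := abs_sub _ _
        _ ≤ r * k * k + r * k ^ 2 := by
          rw [abs_mul, abs_of_nonneg (show 0 ≤ r * k ^ 2 by positivity)]
          gcongr
        _ = 2 * r * k ^ 2 := by ring
    calc |p * (r - s) - r * k ^ 2| * r ≤ (2 * r * k ^ 2) * r := by gcongr
      _ ≤ 2 * k ^ 2 * (r * (r + s)) := by nlinarith [mul_pos hr hs0, sq_nonneg k, mul_nonneg (mul_pos hr hs0).le (sq_nonneg k)]
  have he2 : |1 / s - 1 / r - p / r ^ 3| ≤ 4 * k ^ 2 / r ^ 3 := by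
    have e : 1 / s - 1 / r - p / r ^ 3 = (r - s) ^ 2 / (r ^ 2 * s) + (r - s - p / r) / r ^ 2 := by
      field_simp; ring
    rw [e]
    have h1 : |(r - s) ^ 2 / (r ^ 2 * s)| ≤ 2 * k ^ 2 / r ^ 3 := by
      rw [abs_div, abs_of_pos (show 0 < r ^ 2 * s by positivity), abs_of_nonneg (sq_nonneg _),
        div_le_div_iff₀ (by positivity) (by positivity)]
      have h2 : (r - s) ^ 2 ≤ k ^ 2 := by rw [← sq_abs]; gcongr
      calc (r - s) ^ 2 * r ^ 3 ≤ k ^ 2 * r ^ 3 := by gcongr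
        _ = 2 * k ^ 2 * (r ^ 2 * (r / 2)) := by ring
        _ ≤ 2 * k ^ 2 * (r ^ 2 * s) := by gcongr
    have h3 : |(r - s - p / r) / r ^ 2| ≤ 2 * k ^ 2 / r ^ 3 := by
      rw [abs_div, abs_of_pos (show 0 < r ^ 2 by positivity), div_le_iff₀ (by positivity)]
      calc |r - s - p / r| ≤ 2 * k ^ 2 / r := he1
        _ = 2 * k ^ 2 / r ^ 3 * r ^ 2 := by field_simp
    calc _ ≤ |(r - s) ^ 2 / (r ^ 2 * s)| + |(r - s - p / r) / r ^ 2| := abs_add_le _ _
      _ ≤ 2 * k ^ 2 / r ^ 3 + 2 * k ^ 2 / r ^ 3 := add_le_add h1 h3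
      _ = 4 * k ^ 2 / r ^ 3 := by ring
  have he3 : |1 / s - 1 / r| ≤ 2 * k / r ^ 2 := by
    have e : 1 / s - 1 / r = (r - s) / (s * r) := by field_simp
    rw [e, abs_div, abs_of_pos (show 0 < s * r by positivity), div_le_div_iff₀ (by positivity) (by positivity)]
    calc |r - s| * r ^ 2 ≤ k * r ^ 2 := by gcongr
      _ = 2 * k * (r / 2 * r) := by ring
      _ ≤ 2 * k * (s * r) := by gcongr
  have he4 : 1 / s ≤ 2 / r := by
    rw [div_le_div_iff₀ hs0 hr]; linarith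
  have e : (X / r + C * r) - ((X - 2 * Y + Z) / s + C * s)
      - (2 * Y / r - X * p / r ^ 3 + C * p / r)
      = -(X * (1 / s - 1 / r - p / r ^ 3)) + 2 * Y * (1 / s - 1 / r) - Z * (1 / s)
        + C * (r - s - p / r) := by
    field_simp; ring
  rw [e]
  have hb1 : |X * (1 / s - 1 / r - p / r ^ 3)| ≤ 4 * a * k ^ 2 / r := by
    rw [abs_mul]
    calc |X| * |1 / s - 1 / r - p / r ^ 3| ≤ (a * r ^ 2) * (4 * k ^ 2 / r ^ 3) := by gcongr
      _ = 4 * a * k ^ 2 / r := by field_simp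
  have hb2 : |2 * Y * (1 / s - 1 / r)| ≤ 4 * a * k ^ 2 / r := by
    rw [abs_mul, abs_mul, abs_two]
    calc 2 * |Y| * |1 / s - 1 / r| ≤ 2 * (a * (r * k)) * (2 * k / r ^ 2) := by gcongr
      _ = 4 * a * k ^ 2 / r := by field_simp; ring
  have hb3 : |Z * (1 / s)| ≤ 2 * a * k ^ 2 / r := by
    rw [abs_mul, abs_of_pos (show 0 < 1 / s by positivity)]
    calc |Z| * (1 / s) ≤ (a * k ^ 2) * (2 / r) := by gcongr
      _ = 2 * a * k ^ 2 / r := by ring
  have hb4 : |C * (r - s - p / r)| ≤ 2 * |C| * k ^ 2 / r := by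
    rw [abs_mul]
    calc |C| * |r - s - p / r| ≤ |C| * (2 * k ^ 2 / r) := by gcongr
      _ = 2 * |C| * k ^ 2 / r := by ring
  calc _ ≤ |X * (1 / s - 1 / r - p / r ^ 3)| + |2 * Y * (1 / s - 1 / r)| + |Z * (1 / s)|
        + |C * (r - s - p / r)| := by
          refine (abs_add_le _ _).trans ?_
          gcongr
          refine (abs_sub _ _).trans ?_
          gcongr
          refine (abs_add_le _ _).trans ?_
          rw [abs_neg]
    _ ≤ 4 * a * k ^ 2 / r + 4 * a * k ^ 2 / r + 2 * a * k ^ 2 / r + 2 * |C| * k ^ 2 / r := by gcongr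
    _ ≤ 10 * (a + |C|) * k ^ 2 / r := by
      have : 0 ≤ |C| * k ^ 2 / r := by positivity
      have e : 10 * (a + |C|) * k ^ 2 / r = 4 * a * k ^ 2 / r + 4 * a * k ^ 2 / r + 2 * a * k ^ 2 / r
        + 2 * |C| * k ^ 2 / r + 8 * (|C| * k ^ 2 / r) := by ring
      rw [e]; linarith

theorem B12_taylor (A w h : ℂ) (C : ℝ) (hw : w ≠ 0) (hh : ‖h‖ ≤ ‖w‖ / 2) :
    |((A * conj w ^ 2).re / ‖w‖ + C * ‖w‖) - ((A * conj (w - h) ^ 2).re / ‖w - h‖ + C * ‖w - h‖)
      - (2 * (A * conj w * conj h).re / ‖w‖ - (A * conj w ^ 2).re * ip w h / ‖w‖ ^ 3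
        + C * ip w h / ‖w‖)| ≤ 10 * (‖A‖ + |C|) * ‖h‖ ^ 2 / ‖w‖ := by
  have hr : 0 < ‖w‖ := norm_pos_iff.2 hw
  have e : (A * conj (w - h) ^ 2).re
      = (A * conj w ^ 2).re - 2 * (A * conj w * conj h).re + (A * conj h ^ 2).re := by
    have : A * conj (w - h) ^ 2 = A * conj w ^ 2 - 2 * (A * conj w * conj h) + A * conj h ^ 2 := by
      rw [map_sub]; ring
    rw [this]; simp
  rw [e]
  have h1 : |‖w‖ - ‖w - h‖| ≤ ‖h‖ := by
    have := abs_norm_sub_norm_le w (w - h)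
    simpa using this
  refine B12_real _ _ _ C ‖A‖ ‖w‖ ‖w - h‖ ‖h‖ (ip w h) hr ?_ (norm_nonneg _) ?_ (ip_le _ _) h1
    (norm_nonneg _) ?_ ?_ ?_
  · have := (abs_le.1 h1).2
    linarith
  · rw [← ip_self, ← ip_self, ← ip_self, ip_sub_left, ip_sub_right, ip_sub_right, ip_comm h w]; ring
  · refine (abs_re_le_norm _).trans (le_of_eq ?_)
    rw [norm_mul, norm_pow, norm_conj]
  · refine (abs_re_le_norm _).trans (le_of_eq ?_)
    rw [norm_mul, norm_mul, norm_conj, norm_conj]; ring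
  · refine (abs_re_le_norm _).trans (le_of_eq ?_)
    rw [norm_mul, norm_pow, norm_conj]


theorem B12_vball (a : ℂ) {r : ℝ} (hr : 0 ≤ r) :
    volume (Metric.ball a r) = ENNReal.ofReal (Real.pi * r ^ 2) := by
  rw [Complex.volume_ball, mul_comm, ENNReal.ofReal_mul Real.pi_pos.le, ENNReal.ofReal_pow hr]
  congr 1
  rw [← NNReal.coe_real_pi, ENNReal.ofReal_coe_nnreal]

theorem B12_vcball (a : ℂ) {r : ℝ} (hr : 0 ≤ r) :
    volume (Metric.closedBall a r) = ENNReal.ofReal (Real.pi * r ^ 2) := by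
  rw [Complex.volume_closedBall, mul_comm, ENNReal.ofReal_mul Real.pi_pos.le, ENNReal.ofReal_pow hr]
  congr 1
  rw [← NNReal.coe_real_pi, ENNReal.ofReal_coe_nnreal]

/-- Cauchy-Schwarz -/
theorem B12_cs {α : Type*} [MeasurableSpace α] (μ : Measure α) (f : α → ℝ≥0∞) (hf : Measurable f)
    (B : Set α) (hB : MeasurableSet B) (hB0 : μ B ≠ 0) (hBf : μ B ≠ ∞) (hs : ∀ x ∉ B, f x = 0)
    (hfin : ∫⁻ x, f x ∂μ ≠ ∞) : (∫⁻ x, f x ∂μ) ^ 2 ≤ μ B * ∫⁻ x, f x ^ 2 ∂μ := by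
  set v := ∫⁻ x, f x ∂μ with hv
  set m := v / μ B with hm
  have hmv : μ B * m = v := ENNReal.mul_div_cancel hB0 hBf
  have hm' : m ≠ ∞ := ENNReal.div_ne_top hfin hB0
  have h1 : ∀ x, 2 * m * f x ≤ f x ^ 2 + B.indicator (fun _ => m ^ 2) x := by
    intro x
    by_cases hx : x ∈ B
    · rw [indicator_of_mem hx]
      rcases le_total (f x) m with h | h
      · obtain ⟨k, hk⟩ := exists_add_of_le h
        rw [hk]
        calc 2 * (f x + k) * f x ≤ 2 * (f x + k) * f x + k ^ 2 := le_self_add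
          _ = f x ^ 2 + (f x + k) ^ 2 := by ring
      · obtain ⟨k, hk⟩ := exists_add_of_le h
        rw [hk]
        calc 2 * m * (m + k) ≤ 2 * m * (m + k) + k ^ 2 := le_self_add
          _ = (m + k) ^ 2 + m ^ 2 := by ring
    · rw [hs x hx]; simp
  have h2 : 2 * m * v ≤ ∫⁻ x, f x ^ 2 ∂μ + m * v := by
    calc 2 * m * v = ∫⁻ x, 2 * m * f x ∂μ := by rw [lintegral_const_mul _ hf]
      _ ≤ ∫⁻ x, (f x ^ 2 + B.indicator (fun _ => m ^ 2) x) ∂μ := lintegral_mono h1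
      _ = ∫⁻ x, f x ^ 2 ∂μ + m ^ 2 * μ B := by
        rw [lintegral_add_left (hf.pow_const 2), lintegral_indicator_const hB]
      _ = ∫⁻ x, f x ^ 2 ∂μ + m * v := by rw [← hmv]; ring
  have h3 : m * v ≤ ∫⁻ x, f x ^ 2 ∂μ := by
    have h4 : m * v ≠ ∞ := ENNReal.mul_ne_top hm' hfin
    have h5 : m * v + m * v ≤ ∫⁻ x, f x ^ 2 ∂μ + m * v := by
      calc m * v + m * v = 2 * m * v := by ring
        _ ≤ _ := h2
    exact (ENNReal.add_le_add_iff_right h4).1 h5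
  calc v ^ 2 = μ B * (m * v) := by rw [← mul_assoc, hmv]; ring
    _ ≤ μ B * ∫⁻ x, f x ^ 2 ∂μ := by gcongr

theorem B12_exists {α : Type*} [MeasurableSpace α] (μ : Measure α) (f : α → ℝ≥0∞)
    (B : Set α) (hB : MeasurableSet B) (hs : ∀ x ∉ B, f x = 0) (c : ℝ≥0∞)
    (h : c * μ B < ∫⁻ x, f x ∂μ) : ∃ x, c < f x := by
  by_contra hcon
  push Not at hcon
  refine absurd h (not_lt.2 ?_)
  calc ∫⁻ x, f x ∂μ ≤ ∫⁻ x, B.indicator (fun _ => c) x ∂μ := by
        refine lintegral_mono fun x => ?_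
        by_cases hx : x ∈ B
        · rw [indicator_of_mem hx]; exact hcon x
        · rw [hs x hx]; exact zero_le
    _ = c * μ B := by rw [lintegral_indicator_const hB]

/-- the key pigeonhole: two base points close to each other with many common neighbours -/
theorem B12_pairs (R D t δ : ℝ) (hR : 0 ≤ R) (hD : 0 < D) (hD1 : D ≤ 1) (ht : 0 < t) (htD : t ≤ D)
    (hδ : 0 < δ) (E : Set (ℂ × ℂ)) (hE : MeasurableSet E) (hb : ∀ z ∈ E, ‖z.1‖ ≤ R)
    (hd : ∀ z ∈ E, ‖z.2 - z.1‖ ≤ D) (hv : δ * D ^ 2 ≤ volume.real E) :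
    ∃ z1 z2 : ℂ, δ / (80 * (R + 1) ^ 2) * t ≤ ‖z1 - z2‖ ∧ ‖z1 - z2‖ ≤ 2 * t ∧
      δ ^ 2 / (2000 * (R + 1) ^ 4) * D ^ 2 ≤ volume.real {x' | (z1, x') ∈ E ∧ (z2, x') ∈ E} := by
  have hpi := Real.pi_pos
  -- finiteness
  have hEfin : volume E ≠ ∞ := by
    intro h
    have h0 : volume.real E = 0 := by unfold Measure.real; rw [h]; rfl
    rw [h0] at hv
    have : 0 < δ * D ^ 2 := by positivity
    linarith
  have hEr : volume E = ENNReal.ofReal (volume.real E) := (ofReal_measureReal hEfin).symm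
  -- step 1
  have hT : MeasurableSet {q : ℂ × (ℂ × ℂ) | q.2 ∈ E ∧ q.2.1 ∈ Metric.ball q.1 t} := by
    have h1 : MeasurableSet {q : ℂ × (ℂ × ℂ) | dist q.2.1 q.1 < t} :=
      measurableSet_lt (by fun_prop) measurable_const
    exact (measurable_snd hE).inter h1
  have hF : ∫⁻ y : ℂ, volume {p : ℂ × ℂ | p ∈ E ∧ p.1 ∈ Metric.ball y t}
      = ENNReal.ofReal (Real.pi * t ^ 2) * volume E := by
    have h1 := Measure.prod_apply (μ := (volume : Measure ℂ)) (ν := (volume : Measure (ℂ × ℂ))) hT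
    have h2 := Measure.prod_apply_symm (μ := (volume : Measure ℂ)) (ν := (volume : Measure (ℂ × ℂ))) hT
    have h3 : ∀ p : ℂ × ℂ, volume ((fun y : ℂ => (y, p)) ⁻¹'
        {q : ℂ × (ℂ × ℂ) | q.2 ∈ E ∧ q.2.1 ∈ Metric.ball q.1 t})
        = E.indicator (fun _ => ENNReal.ofReal (Real.pi * t ^ 2)) p := by
      intro p
      by_cases hp : p ∈ E
      · rw [indicator_of_mem hp, ← B12_vball p.1 ht.le]
        congr 1
        ext y
        simp only [mem_preimage, mem_ofPred_eq, hp, true_and, Metric.mem_ball]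
        rw [dist_comm]
      · rw [indicator_of_notMem hp]
        have : (fun y : ℂ => (y, p)) ⁻¹'
          {q : ℂ × (ℂ × ℂ) | q.2 ∈ E ∧ q.2.1 ∈ Metric.ball q.1 t} = ∅ := by
          ext y
          simp [hp]
        rw [this, measure_empty]
    calc ∫⁻ y : ℂ, volume {p : ℂ × ℂ | p ∈ E ∧ p.1 ∈ Metric.ball y t}
        = ∫⁻ y : ℂ, volume (Prod.mk y ⁻¹'
          {q : ℂ × (ℂ × ℂ) | q.2 ∈ E ∧ q.2.1 ∈ Metric.ball q.1 t}) := rfl
      _ = ∫⁻ p : ℂ × ℂ, volume ((fun y : ℂ => (y, p)) ⁻¹'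
        {q : ℂ × (ℂ × ℂ) | q.2 ∈ E ∧ q.2.1 ∈ Metric.ball q.1 t}) := by rw [← h1, ← h2]
      _ = ∫⁻ p : ℂ × ℂ, E.indicator (fun _ => ENNReal.ofReal (Real.pi * t ^ 2)) p :=
        lintegral_congr h3
      _ = ENNReal.ofReal (Real.pi * t ^ 2) * volume E := by rw [lintegral_indicator_const hE]
  set c1 : ℝ := δ * t ^ 2 * D ^ 2 / (2 * (R + 1) ^ 2) with hc1
  have hc1pos : 0 < c1 := by positivity
  obtain ⟨y, hy⟩ : ∃ y : ℂ, ENNReal.ofReal c1 < volume {p : ℂ × ℂ | p ∈ E ∧ p.1 ∈ Metric.ball y t} := by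
    refine B12_exists volume _ (Metric.ball (0 : ℂ) (R + t)) Metric.isOpen_ball.measurableSet ?_ _ ?_
    · intro y hy
      have : {p : ℂ × ℂ | p ∈ E ∧ p.1 ∈ Metric.ball y t} = ∅ := by
        ext p
        simp only [mem_ofPred_eq, mem_empty_iff_false, iff_false, not_and, Metric.mem_ball]
        intro hp hpy
        apply hy
        rw [Metric.mem_ball, dist_zero_right]
        have h1 := hb p hp
        rw [dist_eq] at hpy
        calc ‖y‖ = ‖p.1 - (p.1 - y)‖ := by congr 1; ring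
          _ ≤ ‖p.1‖ + ‖p.1 - y‖ := norm_sub_le _ _
          _ < R + t := by linarith
      rw [this, measure_empty]
    · rw [hF, B12_vball _ (by linarith), hEr, ← ENNReal.ofReal_mul hc1pos.le,
        ← ENNReal.ofReal_mul (by positivity), ENNReal.ofReal_lt_ofReal_iff (by
          have : 0 < δ * D ^ 2 := by positivity
          have : 0 < volume.real E := by linarith
          positivity)]
      have h1 : (R + t) ^ 2 ≤ (R + 1) ^ 2 := by
        have : t ≤ 1 := htD.trans hD1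
        gcongr
      calc c1 * (Real.pi * (R + t) ^ 2) ≤ c1 * (Real.pi * (R + 1) ^ 2) := by gcongr
        _ = Real.pi * t ^ 2 * (δ * D ^ 2) / 2 := by rw [hc1]; field_simp
        _ < Real.pi * t ^ 2 * (δ * D ^ 2) := by
          have : 0 < Real.pi * t ^ 2 * (δ * D ^ 2) := by positivity
          linarith
        _ ≤ Real.pi * t ^ 2 * volume.real E := by gcongr
  -- step 2
  set Ey : Set (ℂ × ℂ) := {p : ℂ × ℂ | p ∈ E ∧ p.1 ∈ Metric.ball y t} with hEy
  have hEym : MeasurableSet Ey := hE.inter (measurable_fst Metric.isOpen_ball.measurableSet)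
  have hEyfin : volume Ey ≠ ∞ := ne_top_of_le_ne_top hEfin (measure_mono fun p hp => hp.1)
  set f : ℂ → ℝ≥0∞ := fun x' => volume ((fun z : ℂ => (z, x')) ⁻¹' Ey) with hf
  have hfm : Measurable f := measurable_measure_prodMk_right hEym
  have hfint : ∫⁻ x', f x' = volume Ey := (Measure.prod_apply_symm hEym).symm
  have hcs : volume Ey ^ 2 ≤ ENNReal.ofReal (Real.pi * (2 * D) ^ 2) * ∫⁻ x', f x' ^ 2 := by
    have := B12_cs volume f hfm (Metric.ball y (2 * D)) Metric.isOpen_ball.measurableSet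
      (by rw [B12_vball _ (by positivity)]; simp; positivity)
      (by rw [B12_vball _ (by positivity)]; simp) ?_ (by rw [hfint]; exact hEyfin)
    · rwa [hfint, B12_vball _ (by positivity)] at this
    · intro x' hx'
      have : (fun z : ℂ => (z, x')) ⁻¹' Ey = ∅ := by
        ext z
        simp only [mem_preimage, hEy, mem_ofPred_eq, mem_empty_iff_false, iff_false, not_and,
          Metric.mem_ball]
        intro hz hzy
        apply hx'
        have h1 := hd _ hz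
        simp only at h1
        rw [dist_eq] at hzy
        rw [Metric.mem_ball, dist_eq]
        calc ‖x' - y‖ = ‖(x' - z) + (z - y)‖ := by congr 1; ring
          _ ≤ ‖x' - z‖ + ‖z - y‖ := norm_add_le _ _
          _ < 2 * D := by linarith
      simp only [hf, this, measure_empty]
  by_contra hcon
  push Not at hcon
  set ρ : ℝ := δ / (80 * (R + 1) ^ 2) with hρ
  set σ : ℝ := δ ^ 2 / (2000 * (R + 1) ^ 4) * D ^ 2 with hσ
  have hρpos : 0 < ρ := by positivity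
  have hσpos : 0 < σ := by positivity
  -- the triple set
  have hQ : MeasurableSet {q : (ℂ × ℂ) × ℂ | (q.1.1, q.2) ∈ Ey ∧ (q.1.2, q.2) ∈ Ey} := by
    have m1 : Measurable (fun q : (ℂ × ℂ) × ℂ => (q.1.1, q.2)) := by fun_prop
    have m2 : Measurable (fun q : (ℂ × ℂ) × ℂ => (q.1.2, q.2)) := by fun_prop
    exact (m1 hEym).inter (m2 hEym)
  have hTf : ∫⁻ x', f x' ^ 2 = ∫⁻ w : ℂ × ℂ, volume {x' : ℂ | (w.1, x') ∈ Ey ∧ (w.2, x') ∈ Ey} := by
    have h1 := Measure.prod_apply (μ := (volume : Measure (ℂ × ℂ))) (ν := (volume : Measure ℂ)) hQ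
    have h2 := Measure.prod_apply_symm (μ := (volume : Measure (ℂ × ℂ))) (ν := (volume : Measure ℂ)) hQ
    have h3 : ∀ x' : ℂ, volume ((fun w : ℂ × ℂ => (w, x')) ⁻¹'
        {q : (ℂ × ℂ) × ℂ | (q.1.1, q.2) ∈ Ey ∧ (q.1.2, q.2) ∈ Ey}) = f x' ^ 2 := by
      intro x'
      have : (fun w : ℂ × ℂ => (w, x')) ⁻¹'
        {q : (ℂ × ℂ) × ℂ | (q.1.1, q.2) ∈ Ey ∧ (q.1.2, q.2) ∈ Ey}
        = ((fun z : ℂ => (z, x')) ⁻¹' Ey) ×ˢ ((fun z : ℂ => (z, x')) ⁻¹' Ey) := by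
        ext w; simp
      rw [this]
      show (volume.prod volume) _ = _
      rw [Measure.prod_prod]
      simp only [hf]; ring
    calc ∫⁻ x', f x' ^ 2 = ∫⁻ x', volume ((fun w : ℂ × ℂ => (w, x')) ⁻¹'
        {q : (ℂ × ℂ) × ℂ | (q.1.1, q.2) ∈ Ey ∧ (q.1.2, q.2) ∈ Ey}) :=
          (lintegral_congr h3).symm
      _ = ∫⁻ w : ℂ × ℂ, volume {x' : ℂ | (w.1, x') ∈ Ey ∧ (w.2, x') ∈ Ey} := by
        rw [← h2, h1]; rfl
  -- bounding sets
  set W1 : Set (ℂ × ℂ) := {w | w.1 ∈ Metric.ball y t ∧ w.2 ∈ Metric.ball w.1 (ρ * t)} with hW1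
  have hW1m : MeasurableSet W1 := by
    have h1 : MeasurableSet {w : ℂ × ℂ | dist w.2 w.1 < ρ * t} :=
      measurableSet_lt (by fun_prop) measurable_const
    exact (measurable_fst Metric.isOpen_ball.measurableSet).inter h1
  have hW1v : volume W1 = ENNReal.ofReal (Real.pi * (ρ * t) ^ 2) * ENNReal.ofReal (Real.pi * t ^ 2) := by
    have h1 := Measure.prod_apply (μ := (volume : Measure ℂ)) (ν := (volume : Measure ℂ)) hW1m
    have h2 : ∀ z : ℂ, volume (Prod.mk z ⁻¹' W1)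
        = (Metric.ball y t).indicator (fun _ => ENNReal.ofReal (Real.pi * (ρ * t) ^ 2)) z := by
      intro z
      by_cases hz : z ∈ Metric.ball y t
      · rw [indicator_of_mem hz, ← B12_vball z (by positivity)]
        congr 1
        ext w
        simp only [hW1, mem_preimage, mem_ofPred_eq, hz, true_and]
      · rw [indicator_of_notMem hz]
        have : Prod.mk z ⁻¹' W1 = ∅ := by
          ext w
          simp only [hW1, mem_preimage, mem_ofPred_eq, hz, false_and, mem_empty_iff_false]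
        rw [this, measure_empty]
    show (volume.prod volume) W1 = _
    rw [h1, lintegral_congr h2, lintegral_indicator_const Metric.isOpen_ball.measurableSet,
      B12_vball y ht.le]
  have hW2v : volume (Metric.ball y t ×ˢ Metric.ball y t)
      = ENNReal.ofReal (Real.pi * t ^ 2) * ENNReal.ofReal (Real.pi * t ^ 2) := by
    show (volume.prod volume) _ = _
    rw [Measure.prod_prod, B12_vball y ht.le]
  have hpt : ∀ w : ℂ × ℂ, volume {x' : ℂ | (w.1, x') ∈ Ey ∧ (w.2, x') ∈ Ey}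
      ≤ W1.indicator (fun _ => ENNReal.ofReal (Real.pi * D ^ 2)) w
        + (Metric.ball y t ×ˢ Metric.ball y t).indicator (fun _ => ENNReal.ofReal σ) w := by
    intro w
    by_cases hw : w.1 ∈ Metric.ball y t ∧ w.2 ∈ Metric.ball y t
    · by_cases hc : ‖w.1 - w.2‖ < ρ * t
      · have hw1 : w ∈ W1 := ⟨hw.1, by rw [Metric.mem_ball, dist_comm, dist_eq]; exact hc⟩
        rw [indicator_of_mem hw1]
        refine le_trans ?_ le_self_add
        rw [← B12_vcball w.1 hD.le]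
        refine measure_mono fun x' hx' => ?_
        rw [Metric.mem_closedBall, dist_eq]
        exact hd _ hx'.1.1
      · push Not at hc
        have h2t : ‖w.1 - w.2‖ ≤ 2 * t := by
          have h1 := hw.1
          have h2 := hw.2
          rw [Metric.mem_ball, dist_eq] at h1 h2
          calc ‖w.1 - w.2‖ = ‖(w.1 - y) - (w.2 - y)‖ := by congr 1; ring
            _ ≤ ‖w.1 - y‖ + ‖w.2 - y‖ := norm_sub_le _ _
            _ ≤ 2 * t := by linarith
        have h3 := hcon w.1 w.2 hc h2t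
        have h4 : w ∈ Metric.ball y t ×ˢ Metric.ball y t := ⟨hw.1, hw.2⟩
        rw [indicator_of_mem h4]
        refine le_trans ?_ le_add_self
        have hfin : volume {x' : ℂ | (w.1, x') ∈ E ∧ (w.2, x') ∈ E} ≠ ∞ := by
          have : {x' : ℂ | (w.1, x') ∈ E ∧ (w.2, x') ∈ E} ⊆ Metric.closedBall w.1 D := by
            intro x' hx'
            rw [Metric.mem_closedBall, dist_eq]
            exact hd _ hx'.1
          refine ne_top_of_le_ne_top ?_ (measure_mono this)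
          rw [B12_vcball _ hD.le]; exact ENNReal.ofReal_ne_top
        calc volume {x' : ℂ | (w.1, x') ∈ Ey ∧ (w.2, x') ∈ Ey}
            ≤ volume {x' : ℂ | (w.1, x') ∈ E ∧ (w.2, x') ∈ E} :=
              measure_mono fun x' hx' => ⟨hx'.1.1, hx'.2.1⟩
          _ = ENNReal.ofReal (volume.real {x' : ℂ | (w.1, x') ∈ E ∧ (w.2, x') ∈ E}) :=
              (ofReal_measureReal hfin).symm
          _ ≤ ENNReal.ofReal σ := ENNReal.ofReal_le_ofReal h3.le
    · have : {x' : ℂ | (w.1, x') ∈ Ey ∧ (w.2, x') ∈ Ey} = ∅ := by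
        ext x'
        simp only [mem_ofPred_eq, mem_empty_iff_false, iff_false, not_and]
        intro h1 h2
        exact hw ⟨h1.2, h2.2⟩
      rw [this, measure_empty]; exact zero_le
  have hup : ∫⁻ x', f x' ^ 2 ≤ ENNReal.ofReal (Real.pi * D ^ 2) * volume W1
      + ENNReal.ofReal σ * volume (Metric.ball y t ×ˢ Metric.ball y t) := by
    rw [hTf]
    calc _ ≤ _ := lintegral_mono hpt
      _ = _ := by
        rw [lintegral_add_left (measurable_const.indicator hW1m), lintegral_indicator_const hW1m,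
          lintegral_indicator_const
            (Metric.isOpen_ball.measurableSet.prod Metric.isOpen_ball.measurableSet)]
  rw [hW1v, hW2v] at hup
  have hfinal : ENNReal.ofReal (c1 ^ 2) < ENNReal.ofReal (Real.pi * (2 * D) ^ 2 *
      (Real.pi * D ^ 2 * (Real.pi * (ρ * t) ^ 2 * (Real.pi * t ^ 2))
        + σ * (Real.pi * t ^ 2 * (Real.pi * t ^ 2)))) := by
    calc ENNReal.ofReal (c1 ^ 2) = ENNReal.ofReal c1 ^ 2 := by rw [ENNReal.ofReal_pow hc1pos.le]
      _ < volume Ey ^ 2 := by gcongr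
      _ ≤ ENNReal.ofReal (Real.pi * (2 * D) ^ 2) * ∫⁻ x', f x' ^ 2 := hcs
      _ ≤ ENNReal.ofReal (Real.pi * (2 * D) ^ 2) * (ENNReal.ofReal (Real.pi * D ^ 2) *
          (ENNReal.ofReal (Real.pi * (ρ * t) ^ 2) * ENNReal.ofReal (Real.pi * t ^ 2))
          + ENNReal.ofReal σ * (ENNReal.ofReal (Real.pi * t ^ 2) * ENNReal.ofReal (Real.pi * t ^ 2))) := by
        gcongr
      _ = _ := by
        rw [← ENNReal.ofReal_mul (by positivity), ← ENNReal.ofReal_mul (by positivity),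
          ← ENNReal.ofReal_mul (by positivity), ← ENNReal.ofReal_mul (by positivity),
          ← ENNReal.ofReal_add (by positivity) (by positivity), ← ENNReal.ofReal_mul (by positivity)]
  have hreal : c1 ^ 2 < Real.pi * (2 * D) ^ 2 *
      (Real.pi * D ^ 2 * (Real.pi * (ρ * t) ^ 2 * (Real.pi * t ^ 2))
        + σ * (Real.pi * t ^ 2 * (Real.pi * t ^ 2))) :=
    (ENNReal.ofReal_lt_ofReal_iff_of_nonneg (by positivity)).1 hfinal
  have hp1 : Real.pi ^ 4 < 99 := by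
    have h := Real.pi_lt_d4
    have h0 := Real.pi_pos
    calc Real.pi ^ 4 < 3.1416 ^ 4 := by gcongr
      _ < 99 := by norm_num
  have hp2 : Real.pi ^ 3 < 32 := by
    have h := Real.pi_lt_d4
    have h0 := Real.pi_pos
    calc Real.pi ^ 3 < 3.1416 ^ 3 := by gcongr
      _ < 32 := by norm_num
  have e1 : Real.pi * (2 * D) ^ 2 *
      (Real.pi * D ^ 2 * (Real.pi * (ρ * t) ^ 2 * (Real.pi * t ^ 2))
        + σ * (Real.pi * t ^ 2 * (Real.pi * t ^ 2)))
      = (δ ^ 2 * t ^ 4 * D ^ 4 / (R + 1) ^ 4) * (4 * Real.pi ^ 4 / 6400 + 4 * Real.pi ^ 3 / 2000) := by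
    rw [hρ, hσ]; field_simp; ring
  have e2 : c1 ^ 2 = (δ ^ 2 * t ^ 4 * D ^ 4 / (R + 1) ^ 4) * (1 / 4) := by
    rw [hc1]; field_simp; ring
  rw [e1, e2] at hreal
  have hpos : 0 < δ ^ 2 * t ^ 4 * D ^ 4 / (R + 1) ^ 4 := by positivity
  have h5 := lt_of_mul_lt_mul_left hreal hpos.le
  linarith


theorem B12_polar (z1 : ℂ) (D σ : ℝ) (hD : 0 < D) (hσ : 0 < σ) (hσ1 : σ ≤ 1) (S : Set ℂ)
    (hS : MeasurableSet S) (hb : ∀ x ∈ S, ‖x - z1‖ ≤ D) (hv : σ * D ^ 2 ≤ volume.real S) :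
    ∃ r : ℝ, σ / 4 * D ≤ r ∧ r ≤ D ∧
      σ / 2 ≤ volume.real {ψ : ℝ | ψ ∈ Ioo (-Real.pi) Real.pi ∧ z1 + r * U ψ ∈ S} := by
  by_contra hcon
  push Not at hcon
  have hpi := Real.pi_pos
  have hSfin : volume S ≠ ∞ := by
    have : S ⊆ Metric.closedBall z1 D := fun x hx => by
      rw [Metric.mem_closedBall, dist_eq]; exact hb x hx
    refine ne_top_of_le_ne_top ?_ (measure_mono this)
    rw [Complex.volume_closedBall]
    exact ENNReal.mul_ne_top (by simp) (by simp)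
  set Ψ : ℝ → Set ℝ := fun r => {ψ : ℝ | ψ ∈ Ioo (-Real.pi) Real.pi ∧ z1 + r * U ψ ∈ S} with hΨ
  have hpol : ∀ p : ℝ × ℝ, Complex.polarCoord.symm p = p.1 * U p.2 := by
    intro p
    rw [Complex.polarCoord_symm_apply, U, Complex.exp_mul_I]
    push_cast; ring
  have h1 : volume S = ∫⁻ x : ℂ, S.indicator 1 (z1 + x) := by
    rw [lintegral_add_left_eq_self (fun x => S.indicator 1 x) z1, lintegral_indicator_one hS]
  have h2 : ∫⁻ x : ℂ, S.indicator (1 : ℂ → ℝ≥0∞) (z1 + x)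
      = ∫⁻ r in Ioi (0 : ℝ), ENNReal.ofReal r * volume (Ψ r) := by
    rw [← Complex.lintegral_comp_polarCoord_symm (fun x => S.indicator (1 : ℂ → ℝ≥0∞) (z1 + x)),
      polarCoord_target, Measure.volume_eq_prod]
    rw [setLIntegral_prod]
    · refine setLIntegral_congr_fun measurableSet_Ioi fun r _ => ?_
      simp only [smul_eq_mul, hpol]
      rw [lintegral_const_mul]
      · congr 1
        rw [← lintegral_indicator measurableSet_Ioo]
        have : ∀ ψ : ℝ, (Ioo (-Real.pi) Real.pi).indicator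
            (fun ψ => S.indicator (1 : ℂ → ℝ≥0∞) (z1 + (r : ℂ) * U ψ)) ψ = (Ψ r).indicator 1 ψ := by
          intro ψ
          by_cases ha : ψ ∈ Ioo (-Real.pi) Real.pi
          · by_cases hb : z1 + (r : ℂ) * U ψ ∈ S
            · have : ψ ∈ Ψ r := ⟨ha, hb⟩
              rw [indicator_of_mem ha, indicator_of_mem hb, indicator_of_mem this]; rfl
            · have : ψ ∉ Ψ r := fun h => hb h.2
              rw [indicator_of_mem ha, indicator_of_notMem hb, indicator_of_notMem this]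
          · have : ψ ∉ Ψ r := fun h => ha h.1
            rw [indicator_of_notMem ha, indicator_of_notMem this]
        rw [lintegral_congr this, lintegral_indicator_one]
        exact measurableSet_Ioo.inter
          (((continuous_const.add (continuous_const.mul continuous_U)).measurable) hS)
      · exact (measurable_one.indicator hS).comp
          ((continuous_const.add (continuous_const.mul continuous_U)).measurable)
    · refine Measurable.aemeasurable ?_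
      simp only [smul_eq_mul, hpol]
      refine Measurable.mul (by fun_prop) ?_
      refine (measurable_one.indicator hS).comp ?_
      have : Continuous (fun p : ℝ × ℝ => z1 + (p.1 : ℂ) * U p.2) := by
        have := continuous_U
        fun_prop
      exact this.measurable
  -- pointwise bounds
  have h3 : ∀ r ∈ Ioi (0 : ℝ), ENNReal.ofReal r * volume (Ψ r) ≤
      (Ioo 0 (σ / 4 * D)).indicator (fun _ => ENNReal.ofReal (σ / 4 * D * (2 * Real.pi))) r
      + (Ioc 0 D).indicator (fun _ => ENNReal.ofReal (D * (σ / 2))) r := by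
    intro r hr
    have hr0 : 0 < r := hr
    by_cases hrD : r ≤ D
    · by_cases hr1 : r < σ / 4 * D
      · have m : r ∈ Ioo 0 (σ / 4 * D) := ⟨hr0, hr1⟩
        rw [indicator_of_mem m]
        refine le_trans ?_ le_self_add
        rw [ENNReal.ofReal_mul (by positivity)]
        have : volume (Ψ r) ≤ ENNReal.ofReal (2 * Real.pi) := by
          calc volume (Ψ r) ≤ volume (Ioo (-Real.pi) Real.pi) := measure_mono fun ψ h => h.1
            _ = ENNReal.ofReal (2 * Real.pi) := by rw [Real.volume_Ioo]; congr 1; ring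
        gcongr
      · push Not at hr1
        have m : r ∈ Ioc 0 D := ⟨hr0, hrD⟩
        rw [indicator_of_mem m]
        refine le_trans ?_ le_add_self
        have h4 := hcon r hr1 hrD
        have hfin : volume (Ψ r) ≠ ∞ := by
          refine ne_top_of_le_ne_top ?_ (measure_mono (fun ψ h => h.1 : Ψ r ⊆ Ioo (-Real.pi) Real.pi))
          rw [Real.volume_Ioo]; exact ENNReal.ofReal_ne_top
        rw [ENNReal.ofReal_mul hD.le]
        have : volume (Ψ r) ≤ ENNReal.ofReal (σ / 2) := by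
          rw [← ofReal_measureReal hfin]
          exact ENNReal.ofReal_le_ofReal h4.le
        gcongr
    · have : Ψ r = ∅ := by
        ext ψ
        simp only [hΨ, mem_ofPred_eq, mem_empty_iff_false, iff_false, not_and]
        intro _ h
        have h5 := hb _ h
        rw [add_sub_cancel_left, norm_mul, norm_U, norm_real, Real.norm_eq_abs, abs_of_pos hr0] at h5
        linarith
      rw [this, measure_empty, mul_zero]; exact zero_le
  have h4 : volume S ≤ ENNReal.ofReal (σ / 4 * D * (2 * Real.pi)) * ENNReal.ofReal (σ / 4 * D)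
      + ENNReal.ofReal (D * (σ / 2)) * ENNReal.ofReal D := by
    rw [h1, h2]
    calc ∫⁻ r in Ioi (0 : ℝ), ENNReal.ofReal r * volume (Ψ r)
        ≤ ∫⁻ r in Ioi (0 : ℝ), ((Ioo 0 (σ / 4 * D)).indicator (fun _ => ENNReal.ofReal (σ / 4 * D * (2 * Real.pi))) r
      + (Ioc 0 D).indicator (fun _ => ENNReal.ofReal (D * (σ / 2))) r) :=
          setLIntegral_mono' measurableSet_Ioi h3
      _ ≤ ∫⁻ r, ((Ioo 0 (σ / 4 * D)).indicator (fun _ => ENNReal.ofReal (σ / 4 * D * (2 * Real.pi))) r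
      + (Ioc 0 D).indicator (fun _ => ENNReal.ofReal (D * (σ / 2))) r) := setLIntegral_le_lintegral _ _
      _ = _ := by
        rw [lintegral_add_left (measurable_const.indicator measurableSet_Ioo),
          lintegral_indicator_const measurableSet_Ioo, lintegral_indicator_const measurableSet_Ioc,
          Real.volume_Ioo, Real.volume_Ioc, sub_zero, sub_zero]
  rw [← ofReal_measureReal hSfin, ← ENNReal.ofReal_mul (by positivity),
    ← ENNReal.ofReal_mul (by positivity), ← ENNReal.ofReal_add (by positivity) (by positivity),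
    ENNReal.ofReal_le_ofReal_iff (by positivity)] at h4
  have h5 : Real.pi < 3.15 := Real.pi_lt_d2
  have h6 : σ * D ^ 2 ≤ σ / 4 * D * (2 * Real.pi) * (σ / 4 * D) + D * (σ / 2) * D := hv.trans h4
  have h7 : σ / 4 * D * (2 * Real.pi) * (σ / 4 * D) ≤ σ * D ^ 2 * (3.15 / 8) := by
    have : σ / 4 * D * (2 * Real.pi) * (σ / 4 * D) = σ * D ^ 2 * (σ * Real.pi / 8) := by ring
    rw [this]
    have h8 : σ * Real.pi ≤ 1 * 3.15 := by gcongr
    have h9 : 0 ≤ σ * D ^ 2 := by positivity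
    apply mul_le_mul_of_nonneg_left _ h9
    linarith
  have h8 : D * (σ / 2) * D = σ * D ^ 2 * (1 / 2) := by ring
  have h9 : 0 < σ * D ^ 2 := by positivity
  rw [h8] at h6
  nlinarith

theorem B12_Esl_norm {G1 G : Set (ℂ × ℝ)} {D : ℝ} {z : ℂ × ℂ} (hz : z ∈ Esl 1 D G1 G) :
    ‖z.2 - z.1‖ ≤ D := by
  obtain ⟨θ, α, h0, h1, -, -, h2⟩ := hz
  have : z.2 - z.1 = -(U (θ + α) - U θ) := by rw [h2]; ring
  rw [this, norm_neg]
  have h3 := norm_U_sub_le θ α
  rw [abs_of_pos h0] at h3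
  linarith

theorem B12_E (R : ℝ) (hR : 0 ≤ R) : ∃ c : ℝ, 0 < c ∧ c ≤ 1 ∧ ∀ ε D : ℝ, 0 < ε → ε ≤ 1 / 2 → 0 < D → D ≤ 1 →
    ∀ G : Set (ℂ × ℝ), MeasurableSet G → (∀ g ∈ G, ‖g.1‖ ≤ R) → (∀ g ∈ G, g.2 ∈ Icc (0 : ℝ) 1) →
    ε ≤ volume.real G →
    ∃ G1 ⊆ G, MeasurableSet G1 ∧ c * ε ^ 4 * D ^ 2 ≤ volume.real (Esl 1 D G1 G) := by
  obtain ⟨C, hC, hNL⟩ := NL R 1
  have hpi := Real.pi_pos
  set C1 : ℝ := max C 1 with hC1
  have hC1' : 1 ≤ C1 := le_max_right _ _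
  have hCC1 : C ≤ C1 := le_max_left _ _
  have hC1pos : 0 < C1 := by linarith
  refine ⟨1 / (256 * C1 ^ 2 * (R + 1) ^ 2), by positivity, ?_, ?_⟩
  · rw [div_le_one (by positivity)]
    have h1 : 1 ≤ C1 ^ 2 := one_le_pow₀ hC1'
    have h2 : 1 ≤ (R + 1) ^ 2 := one_le_pow₀ (by linarith)
    nlinarith [mul_nonneg (sub_nonneg.2 h1) (sub_nonneg.2 h2)]
  intro ε D hε hε2 hD hD1 G hG hGb hGa hGv
  set η : ℝ := ε / (2 * C1) with hη
  have hηpos : 0 < η := by positivity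
  set F : ℂ × ℝ → ℝ := fun g => volume.real {α : ℝ | α ∈ Ioo 0 D ∧ rot 1 α g ∈ G} with hF
  have hFm : Measurable F := by
    have hset : MeasurableSet {q : (ℂ × ℝ) × ℝ | q.2 ∈ Ioo 0 D ∧ rot 1 q.2 q.1 ∈ G} := by
      have h1 : Continuous (fun q : (ℂ × ℝ) × ℝ => rot 1 q.2 q.1) := by
        have := continuous_U
        unfold rot
        fun_prop
      exact (measurable_snd measurableSet_Ioo).inter (h1.measurable hG)
    exact (measurable_measure_prodMk_left (ν := (volume : Measure ℝ)) hset).ennreal_toReal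
  set Bd : Set (ℂ × ℝ) := {g | g ∈ G ∧ F g < η * D} with hBd
  set G1 : Set (ℂ × ℝ) := {g | g ∈ G ∧ η * D ≤ F g} with hG1
  have hG1m : MeasurableSet G1 := hG.inter (measurableSet_le measurable_const hFm)
  have hG1s : G1 ⊆ G := fun g hg => hg.1
  have hBv : volume.real Bd ≤ ε / 2 := by
    have := hNL 1 (by simp) G hG hGb hGa D η hD hD1 hηpos
    calc volume.real Bd ≤ C * η := this
      _ ≤ C1 * η := by gcongr
      _ = ε / 2 := by rw [hη]; field_simp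
  have hG1v : ε / 2 ≤ volume.real G1 := by
    have h1 : G = Bd ∪ G1 := by
      ext g
      simp only [hBd, hG1, mem_union, mem_ofPred_eq]
      constructor
      · intro h
        rcases lt_or_ge (F g) (η * D) with h' | h'
        · exact Or.inl ⟨h, h'⟩
        · exact Or.inr ⟨h, h'⟩
      · rintro (h | h) <;> exact h.1
    have h2 : volume.real G ≤ volume.real Bd + volume.real G1 := by
      conv_lhs => rw [h1]
      exact measureReal_union_le _ _
    linarith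
  have hG1fin : volume G1 ≠ ∞ := by
    intro h
    have h0 : volume.real G1 = 0 := by unfold Measure.real; rw [h]; rfl
    linarith
  refine ⟨G1, hG1s, hG1m, ?_⟩
  set E := Esl 1 D G1 G with hE
  have hEm : MeasurableSet E :=
    Esl_meas 1 one_ne_zero D hD1 G1 G hG1m hG (fun g hg => hGa g hg.1)
  have hEfin : volume E ≠ ∞ := by
    have : E ⊆ Metric.closedBall (0 : ℂ) R ×ˢ Metric.closedBall (0 : ℂ) (R + 1) := by
      intro z hz
      have h1 := B12_Esl_norm hz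
      obtain ⟨θ, α, h0, -, h2, -, -⟩ := hz
      have h3 : ‖z.1‖ ≤ R := hGb _ h2.1
      refine ⟨by simpa using h3, ?_⟩
      rw [Metric.mem_closedBall, dist_zero_right]
      calc ‖z.2‖ = ‖(z.2 - z.1) + z.1‖ := by congr 1; ring
        _ ≤ ‖z.2 - z.1‖ + ‖z.1‖ := norm_add_le _ _
        _ ≤ R + 1 := by linarith
    refine ne_top_of_le_ne_top ?_ (measure_mono this)
    show (volume.prod volume) _ ≠ _
    rw [Measure.prod_prod, Complex.volume_closedBall, Complex.volume_closedBall]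
    exact ENNReal.mul_ne_top (ENNReal.mul_ne_top (by simp) (by simp))
      (ENNReal.mul_ne_top (by simp) (by simp))
  set m : ℂ → ℝ≥0∞ := fun x => volume (Prod.mk x ⁻¹' G1) with hm
  have hmm : Measurable m := measurable_measure_prodMk_left hG1m
  have hmint : ∫⁻ x, m x = volume G1 := (Measure.prod_apply hG1m).symm
  have hmfin : ∀ x, m x ≠ ∞ := by
    intro x
    have : Prod.mk x ⁻¹' G1 ⊆ Icc (0 : ℝ) 1 := fun θ h => hGa _ h.1
    refine ne_top_of_le_ne_top ?_ (measure_mono this)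
    rw [Real.volume_Icc]; exact ENNReal.ofReal_ne_top
  have hcs : volume G1 ^ 2 ≤ ENNReal.ofReal (Real.pi * (R + 1) ^ 2) * ∫⁻ x, m x ^ 2 := by
    have := B12_cs volume m hmm (Metric.ball 0 (R + 1)) Metric.isOpen_ball.measurableSet
      (by rw [B12_vball _ (by positivity)]; simp; positivity)
      (by rw [B12_vball _ (by positivity)]; simp) ?_ (by rw [hmint]; exact hG1fin)
    · rwa [hmint, B12_vball _ (by positivity)] at this
    · intro x hx
      have : Prod.mk x ⁻¹' G1 = ∅ := by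
        ext θ
        simp only [mem_preimage, mem_empty_iff_false, iff_false]
        intro h
        apply hx
        rw [Metric.mem_ball, dist_zero_right]
        have := hGb _ h.1
        simp only at this
        linarith
      simp only [hm, this, measure_empty]
  have hslice : ∀ x, ENNReal.ofReal (η ^ 2 * D ^ 2 / 4) * m x ^ 2 ≤ volume (Prod.mk x ⁻¹' E) := by
    intro x
    have h1 := Esl_slice 1 one_ne_zero D hD1 G1 G hG1m hG (fun g hg => hGa g hg.1) x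
      (m x).toReal (η * D) ENNReal.toReal_nonneg (by positivity) le_rfl
      (fun θ hθ => hθ.2)
    have hfin : volume (Prod.mk x ⁻¹' E) ≠ ∞ := by
      have : Prod.mk x ⁻¹' E ⊆ Metric.closedBall x D := fun x' h => by
        rw [Metric.mem_closedBall, dist_eq]; exact B12_Esl_norm h
      refine ne_top_of_le_ne_top ?_ (measure_mono this)
      rw [Complex.volume_closedBall]
      exact ENNReal.mul_ne_top (by simp) (by simp)
    rw [← ofReal_measureReal hfin]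
    have h2 : m x ^ 2 = ENNReal.ofReal ((m x).toReal ^ 2) := by
      rw [ENNReal.ofReal_pow ENNReal.toReal_nonneg, ENNReal.ofReal_toReal (hmfin x)]
    rw [h2, ← ENNReal.ofReal_mul (by positivity)]
    refine ENNReal.ofReal_le_ofReal (le_trans (le_of_eq ?_) h1)
    rw [norm_one]; ring
  have hlow : ENNReal.ofReal (η ^ 2 * D ^ 2 / 4) * ∫⁻ x, m x ^ 2 ≤ volume E := by
    rw [← lintegral_const_mul _ (hmm.pow_const 2)]
    calc _ ≤ ∫⁻ x, volume (Prod.mk x ⁻¹' E) := lintegral_mono hslice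
      _ = volume E := (Measure.prod_apply hEm).symm
  have hfin2 : ENNReal.ofReal (η ^ 2 * D ^ 2 / 4) * ENNReal.ofReal ((ε / 2) ^ 2)
      ≤ ENNReal.ofReal (Real.pi * (R + 1) ^ 2) * volume E := by
    calc ENNReal.ofReal (η ^ 2 * D ^ 2 / 4) * ENNReal.ofReal ((ε / 2) ^ 2)
        ≤ ENNReal.ofReal (η ^ 2 * D ^ 2 / 4) * volume G1 ^ 2 := by
          gcongr
          rw [ENNReal.ofReal_pow (by positivity), ← ofReal_measureReal hG1fin]
          gcongr
      _ ≤ ENNReal.ofReal (η ^ 2 * D ^ 2 / 4) * (ENNReal.ofReal (Real.pi * (R + 1) ^ 2) * ∫⁻ x, m x ^ 2) := by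
          gcongr
      _ = ENNReal.ofReal (Real.pi * (R + 1) ^ 2) * (ENNReal.ofReal (η ^ 2 * D ^ 2 / 4) * ∫⁻ x, m x ^ 2) := by
          ring
      _ ≤ _ := by gcongr
  rw [← ofReal_measureReal hEfin, ← ENNReal.ofReal_mul (by positivity),
    ← ENNReal.ofReal_mul (by positivity), ENNReal.ofReal_le_ofReal_iff (by positivity)] at hfin2
  have h5 : Real.pi < 4 := by linarith [Real.pi_lt_d2]
  have h6 : η ^ 2 * D ^ 2 / 4 * (ε / 2) ^ 2 ≤ 4 * (R + 1) ^ 2 * volume.real E := by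
    calc _ ≤ _ := hfin2
      _ ≤ 4 * (R + 1) ^ 2 * volume.real E := by gcongr
  have h7 : 1 / (256 * C1 ^ 2 * (R + 1) ^ 2) * ε ^ 4 * D ^ 2
      = (η ^ 2 * D ^ 2 / 4 * (ε / 2) ^ 2) / (4 * (R + 1) ^ 2) := by
    rw [hη]; field_simp; ring
  rw [h7, div_le_iff₀ (by positivity)]
  linarith


theorem B12_A5 (ω Z : ℂ) : A5 ω Z = A5 ω 1 * Z := by unfold A5; ring
theorem B12_C5 (ω : ℂ) (t : ℝ) : C5 ω t = C5 ω 1 * t := by unfold C5; ring

theorem B12_A5_lower (ω Z : ℂ) (h0 : ω.im ≠ 0) : ‖Z‖ ≤ |ω.im| / 3 * ‖A5 ω Z‖ := by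
  unfold A5
  rw [norm_mul, norm_mul, norm_neg, norm_real, Real.norm_eq_abs, abs_div, abs_of_pos (by norm_num : (0:ℝ) < 3)]
  have h1 : 1 ≤ ‖1 + I * ((3 * (ω.re - 1) / (2 * ω.im) : ℝ) : ℂ)‖ := by
    have := abs_re_le_norm (1 + I * ((3 * (ω.re - 1) / (2 * ω.im) : ℝ) : ℂ))
    have e : (1 + I * ((3 * (ω.re - 1) / (2 * ω.im) : ℝ) : ℂ)).re = 1 := by
      simp only [add_re, one_re, mul_re, I_re, I_im, ofReal_re, ofReal_im]; ring
    rw [e, abs_one] at this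
    exact this
  have h2 : 0 < |ω.im| := abs_pos.2 h0
  calc ‖Z‖ = |ω.im| / 3 * (3 / |ω.im| * 1 * ‖Z‖) := by field_simp
    _ ≤ |ω.im| / 3 * (3 / |ω.im| * ‖1 + I * ((3 * (ω.re - 1) / (2 * ω.im) : ℝ) : ℂ)‖ * ‖Z‖) := by
      gcongr

/-- the linear part as a trigonometric polynomial -/
theorem B12_trig (A h u : ℂ) (Cc : ℝ) (hu : u * conj u = 1) :
    ((2 * (A * conj u * conj h).re - (A * conj u ^ 2).re * (u * conj h).re
      + Cc * (u * conj h).re : ℝ) : ℂ)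
    = -(A * h) / 4 * conj u ^ 3 + (3 / 4 * (A * conj h) + Cc / 2 * h) * conj u
      + (3 / 4 * (conj A * h) + Cc / 2 * conj h) * u + -(conj A * conj h) / 4 * u ^ 3 := by
  push_cast
  rw [Complex.re_eq_add_conj, Complex.re_eq_add_conj, Complex.re_eq_add_conj]
  simp only [map_mul, map_pow, Complex.conj_conj]
  linear_combination (-(A * conj u * conj h + conj A * u * h) / 4) * hu

theorem B12_lin (A h : ℂ) (Cc r : ℝ) (hr : 0 < r) (u : ℂ) (hu : ‖u‖ = 1) :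
    2 * (A * conj (r * u) * conj h).re / ‖(r : ℂ) * u‖ - (A * conj (r * u) ^ 2).re * ip (r * u) h / ‖(r : ℂ) * u‖ ^ 3
        + Cc * ip (r * u) h / ‖(r : ℂ) * u‖
    = 2 * (A * conj u * conj h).re - (A * conj u ^ 2).re * (u * conj h).re
      + Cc * (u * conj h).re := by
  have hn : ‖(r : ℂ) * u‖ = r := by rw [norm_mul, hu, norm_real, Real.norm_eq_abs, abs_of_pos hr, mul_one]
  rw [hn, ip_mul_real_left, ip_eq_re]
  have e1 : (A * conj (r * u) * conj h).re = r * (A * conj u * conj h).re := by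
    have : A * conj (r * u) * conj h = r * (A * conj u * conj h) := by
      rw [map_mul, conj_ofReal]; ring
    rw [this, re_ofReal_mul]
  have e2 : (A * conj (r * u) ^ 2).re = r ^ 2 * (A * conj u ^ 2).re := by
    have : A * conj (r * u) ^ 2 = ((r ^ 2 : ℝ) : ℂ) * (A * conj u ^ 2) := by
      rw [map_mul, conj_ofReal]; push_cast; ring
    rw [this, re_ofReal_mul]
  rw [e1, e2]
  field_simp

theorem B12_rel {ω : ℂ} {ε D : ℝ} {G G1 : Set (ℂ × ℝ)} {t0 : ℂ → ℝ} {Z0 : ℂ → ℂ}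
    (h : S5P ω (1 / ε) D G t0 Z0) (hG : G1 ⊆ G) {z x' : ℂ} (hz : (z, x') ∈ Esl 1 D G1 G) :
    |t0 x' - t0 z| ≤ 1 / ε * D ∧ ‖Z0 x' - Z0 z‖ ≤ 1 / ε * D ∧
    |t0 x' - t0 z - ((A5 ω (Z0 z) * conj (x' - z) ^ 2).re / ‖x' - z‖
      + C5 ω (t0 z) * ‖x' - z‖)| ≤ 1 / ε * D ^ 2 := by
  obtain ⟨θ, α, h0, h1, h2, h3, h4⟩ := hz
  simp only at h2 h3 h4
  have e : z + U θ = x' + U (θ + α) := by rw [h4]; ring
  exact ⟨h.st z x' θ α (hG h2) h3 h0 h1.le e, h.sZ z x' θ α (hG h2) h3 h0 h1.le e,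
    h.s5 z x' θ α (hG h2) h3 h0 h1.le e⟩

/-- the direction of a point of the sliding graph -/
theorem B12_dir {D : ℝ} (hD : D ≤ 1) {G G1 : Set (ℂ × ℝ)} (ha : ∀ g ∈ G1, g.2 ∈ Icc (0 : ℝ) 1)
    {z : ℂ} {r ψ : ℝ} (hr : 0 < r) (hψ : ψ ∈ Ioo (-Real.pi) Real.pi)
    (hz : (z, z + r * U ψ) ∈ Esl 1 D G1 G) : ψ ∈ Icc (-Real.pi / 2) (-Real.pi / 2 + 3) := by
  obtain ⟨θ, α, h0, h1, h2, h3, h4⟩ := hz
  simp only at h2 h3 h4
  have hθ := ha _ h2
  simp only at hθ
  have e : 1 * (U θ - U (θ + α)) / 1 = (r : ℂ) * (Complex.cos ψ + Complex.sin ψ * I) := by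
    rw [div_one]
    have : (r : ℂ) * U ψ = 1 * (U θ - U (θ + α)) := by linear_combination h4
    rw [← this, U, Complex.exp_mul_I]
  have h5 := (slide_dir 1 one_ne_zero θ α hθ h0 (by linarith)).2
  rw [e, Complex.arg_mul_cos_add_sin_mul_I hr ⟨hψ.1, hψ.2.le⟩] at h5
  rw [h5]
  constructor
  · linarith [hθ.1]
  · linarith [hθ.2]

/-- the pointwise inequality for one direction -/
theorem B12_point {ω : ℂ} {ε D : ℝ} (hε : 0 < ε) (hD : 0 < D) {G G1 : Set (ℂ × ℝ)} {t0 : ℂ → ℝ} {Z0 : ℂ → ℂ}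
    (h : S5P ω (1 / ε) D G t0 Z0) (hG : G1 ⊆ G) {z1 z2 : ℂ} {r ψ : ℝ} (hr : 0 < r)
    (hh : ‖z2 - z1‖ ≤ r / 2)
    (hz1 : (z1, z1 + r * U ψ) ∈ Esl 1 D G1 G) (hz2 : (z2, z1 + r * U ψ) ∈ Esl 1 D G1 G) :
    ‖-(A5 ω (Z0 z1) * (z2 - z1)) / 4 * conj (U ψ) ^ 3
      + (3 / 4 * (A5 ω (Z0 z1) * conj (z2 - z1)) + C5 ω (t0 z1) / 2 * (z2 - z1)) * conj (U ψ)
      + (3 / 4 * (conj (A5 ω (Z0 z1)) * (z2 - z1)) + C5 ω (t0 z1) / 2 * conj (z2 - z1)) * U ψ
      + -(conj (A5 ω (Z0 z1)) * conj (z2 - z1)) / 4 * U ψ ^ 3 - ((t0 z2 - t0 z1 : ℝ) : ℂ)‖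
    ≤ (2 + 2 * (‖A5 ω 1‖ + |C5 ω 1|)) * D ^ 2 / ε
      + 10 * (‖A5 ω 1‖ + |C5 ω 1|) / ε * ‖z2 - z1‖ ^ 2 / r := by
  set A := A5 ω (Z0 z1) with hA
  set Cc := C5 ω (t0 z1) with hCc
  set d := z2 - z1 with hd
  set w : ℂ := r * U ψ with hw
  have hwn : ‖w‖ = r := by rw [hw, norm_mul, norm_U, norm_real, Real.norm_eq_abs, abs_of_pos hr, mul_one]
  have hw0 : w ≠ 0 := by rw [← norm_pos_iff, hwn]; exact hr
  obtain ⟨a1, a2, a3⟩ := B12_rel h hG hz1
  obtain ⟨b1, b2, b3⟩ := B12_rel h hG hz2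
  have e1 : z1 + w - z1 = w := by ring
  have e2 : z1 + w - z2 = w - d := by rw [hd]; ring
  rw [e1, ← hA, ← hCc, hwn] at a3
  rw [e2] at b3
  have hv : ‖w - d‖ ≤ D := by rw [← e2]; exact B12_Esl_norm hz2
  have hT := B12_taylor A w d Cc hw0 (by rw [hwn]; exact hh)
  rw [hwn] at hT
  have hL := B12_lin A d Cc r hr (U ψ) (norm_U ψ)
  rw [← hw, hwn] at hL
  rw [hL] at hT
  rw [← B12_trig A d (U ψ) Cc (U_mul_conj ψ), ← ofReal_sub, norm_real, Real.norm_eq_abs]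
  set L := 2 * (A * conj (U ψ) * conj d).re - (A * conj (U ψ) ^ 2).re * (U ψ * conj d).re
      + Cc * (U ψ * conj d).re with hLdef
  -- difference of the two quadratic functions
  set A2 := A5 ω (Z0 z2) with hA2
  set C2 := C5 ω (t0 z2) with hC2
  have hZ : ‖Z0 z2 - Z0 z1‖ ≤ 2 * D / ε := by
    calc ‖Z0 z2 - Z0 z1‖ = ‖(Z0 (z1 + w) - Z0 z1) - (Z0 (z1 + w) - Z0 z2)‖ := by congr 1; ring
      _ ≤ ‖Z0 (z1 + w) - Z0 z1‖ + ‖Z0 (z1 + w) - Z0 z2‖ := norm_sub_le _ _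
      _ ≤ 1 / ε * D + 1 / ε * D := add_le_add a2 b2
      _ = 2 * D / ε := by ring
  have ht : |t0 z2 - t0 z1| ≤ 2 * D / ε := by
    calc |t0 z2 - t0 z1| = |(t0 (z1 + w) - t0 z1) - (t0 (z1 + w) - t0 z2)| := by congr 1; ring
      _ ≤ |t0 (z1 + w) - t0 z1| + |t0 (z1 + w) - t0 z2| := abs_sub _ _
      _ ≤ 1 / ε * D + 1 / ε * D := add_le_add a1 b1
      _ = 2 * D / ε := by ring
  have hAA : ‖A2 - A‖ ≤ ‖A5 ω 1‖ * (2 * D / ε) := by
    rw [hA2, hA, B12_A5 ω (Z0 z2), B12_A5 ω (Z0 z1), ← mul_sub, norm_mul]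
    gcongr
  have hCC : |C2 - Cc| ≤ |C5 ω 1| * (2 * D / ε) := by
    rw [hC2, hCc, B12_C5 ω (t0 z2), B12_C5 ω (t0 z1), ← mul_sub, abs_mul]
    gcongr
  have hFF : |((A2 * conj (w - d) ^ 2).re / ‖w - d‖ + C2 * ‖w - d‖)
      - ((A * conj (w - d) ^ 2).re / ‖w - d‖ + Cc * ‖w - d‖)|
      ≤ (‖A5 ω 1‖ + |C5 ω 1|) * (2 * D / ε) * D := by
    have e3 : ((A2 * conj (w - d) ^ 2).re / ‖w - d‖ + C2 * ‖w - d‖)
      - ((A * conj (w - d) ^ 2).re / ‖w - d‖ + Cc * ‖w - d‖)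
      = ((A2 - A) * conj (w - d) ^ 2).re / ‖w - d‖ + (C2 - Cc) * ‖w - d‖ := by
      rw [sub_mul, sub_re]; ring
    rw [e3]
    have h4 : |((A2 - A) * conj (w - d) ^ 2).re / ‖w - d‖| ≤ ‖A2 - A‖ * ‖w - d‖ := by
      rw [abs_div, abs_norm]
      rcases eq_or_lt_of_le (norm_nonneg (w - d)) with h5 | h5
      · rw [← h5]; simp
      · rw [div_le_iff₀ h5]
        refine (abs_re_le_norm _).trans (le_of_eq ?_)
        rw [norm_mul, norm_pow, norm_conj]; ring
    calc _ ≤ |((A2 - A) * conj (w - d) ^ 2).re / ‖w - d‖| + |(C2 - Cc) * ‖w - d‖| := abs_add_le _ _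
      _ ≤ ‖A2 - A‖ * ‖w - d‖ + |C2 - Cc| * ‖w - d‖ := by
        rw [abs_mul (C2 - Cc), abs_norm]; gcongr
      _ ≤ ‖A5 ω 1‖ * (2 * D / ε) * D + |C5 ω 1| * (2 * D / ε) * D := by gcongr
      _ = _ := by ring
  have hAn : ‖A‖ ≤ ‖A5 ω 1‖ / ε := by
    rw [hA, B12_A5, norm_mul]
    calc ‖A5 ω 1‖ * ‖Z0 z1‖ ≤ ‖A5 ω 1‖ * (1 / ε) := by gcongr; exact h.bZ0 z1
      _ = _ := by ring
  have hCn : |Cc| ≤ |C5 ω 1| / ε := by
    rw [hCc, B12_C5, abs_mul]
    calc |C5 ω 1| * |t0 z1| ≤ |C5 ω 1| * (1 / ε) := by gcongr; exact h.bt0 z1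
      _ = _ := by ring
  have hT2 : 10 * (‖A‖ + |Cc|) * ‖d‖ ^ 2 / r ≤ 10 * (‖A5 ω 1‖ + |C5 ω 1|) / ε * ‖d‖ ^ 2 / r := by
    have : ‖A‖ + |Cc| ≤ (‖A5 ω 1‖ + |C5 ω 1|) / ε := by rw [add_div]; exact add_le_add hAn hCn
    calc 10 * (‖A‖ + |Cc|) * ‖d‖ ^ 2 / r ≤ 10 * ((‖A5 ω 1‖ + |C5 ω 1|) / ε) * ‖d‖ ^ 2 / r := by gcongr
      _ = _ := by ring
  rw [abs_le] at a3 b3 hT hFF ⊢
  have e5 : (2 + 2 * (‖A5 ω 1‖ + |C5 ω 1|)) * D ^ 2 / ε
      = 1 / ε * D ^ 2 + 1 / ε * D ^ 2 + (‖A5 ω 1‖ + |C5 ω 1|) * (2 * D / ε) * D := by ring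
  rw [e5]
  constructor <;> linarith [a3.1, a3.2, b3.1, b3.2, hT.1, hT.2, hFF.1, hFF.2]


theorem STEP5 (ω : ℂ) (h0 : ω.im ≠ 0) (R : ℝ) (M : ℕ) :
    ∃ n : ℕ, 1 ≤ n ∧ ∀ ε : ℝ, 0 < ε → ε ≤ 1 / 2 → ∀ D : ℝ, 0 < D → D ≤ ε ^ n →
    ∀ (G : Set (ℂ × ℝ)) (t0 : ℂ → ℝ) (Z0 : ℂ → ℂ), MeasurableSet G →
    (∀ g ∈ G, ‖g.1‖ ≤ R) → (∀ g ∈ G, g.2 ∈ Icc (0 : ℝ) 1) → ε ≤ volume.real G →
    S5P ω (1 / ε) D G t0 Z0 → ∃ g ∈ G, ‖Z0 g.1‖ ≤ ε ^ M := by
  set R' : ℝ := max R 0 with hR'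
  have hR0 : 0 ≤ R' := le_max_right _ _
  obtain ⟨c, hc0, hc1, hE⟩ := B12_E R' hR0
  obtain ⟨C0, hC0, hrem⟩ := trig_remez
  set K : ℝ := ‖A5 ω 1‖ + |C5 ω 1| with hK
  have hKpos : 0 ≤ K := by positivity
  set c3 : ℝ := c / (80 * (R' + 1) ^ 2) with hc3
  set c2 : ℝ := c ^ 2 / (2000 * (R' + 1) ^ 4) with hc2
  have hc3pos : 0 < c3 := by positivity
  have hc2pos : 0 < c2 := by positivity
  have hc2le : c2 ≤ 1 := by
    rw [hc2, div_le_one (by positivity)]
    have h1 : c ^ 2 ≤ 1 := pow_le_one₀ hc0.le hc1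
    have h2 : 1 ≤ (R' + 1) ^ 4 := one_le_pow₀ (by linarith)
    linarith
  set C' : ℝ := |ω.im| / 3 * (256 * C0 * (2 + 162 * K) / (c2 ^ 7 * c3)) with hC'
  have hC'nn : 0 ≤ C' := by positivity
  obtain ⟨b, hb⟩ := exists_pow_lt_of_lt_one (show 0 < min (c2 / 16) (1 / (C' + 1)) by positivity)
    (show (1 / 2 : ℝ) < 1 by norm_num)
  have hb1 : (1 / 2 : ℝ) ^ b < c2 / 16 := hb.trans_le (min_le_left _ _)
  have hb2 : (1 / 2 : ℝ) ^ b < 1 / (C' + 1) := hb.trans_le (min_le_right _ _)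
  set a : ℕ := 61 + M + b with ha
  refine ⟨2 * a, by omega, ?_⟩
  intro ε hε hε2 D hD hDn G t0 Z0 hG hGb hGa hGv h5
  have hε1 : ε ≤ 1 := by linarith
  have hD1 : D ≤ 1 := hDn.trans (pow_le_one₀ hε.le hε1)
  obtain ⟨G1, hG1s, hG1m, hG1v⟩ := hE ε D hε hε2 hD hD1 G hG
    (fun g hg => (hGb g hg).trans (le_max_left _ _)) hGa hGv
  set E := Esl 1 D G1 G with hEdef
  have hEm : MeasurableSet E :=
    Esl_meas 1 one_ne_zero D hD1 G1 G hG1m hG (fun g hg => hGa g (hG1s hg))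
  have hεb : ε ^ b ≤ (1 / 2 : ℝ) ^ b := by gcongr
  set t : ℝ := ε ^ a * D with ht
  have htpos : 0 < t := by positivity
  have htD : t ≤ D := by
    rw [ht]
    have : ε ^ a ≤ 1 := pow_le_one₀ hε.le hε1
    nlinarith
  obtain ⟨z1, z2, hz1, hz2, hS⟩ := B12_pairs R' D t (c * ε ^ 4) hR0 hD hD1 htpos htD (by positivity)
    E hEm (by
      rintro z ⟨θ, α, -, -, h2, -, -⟩
      exact (hGb _ (hG1s h2)).trans (le_max_left _ _)) (fun z hz => B12_Esl_norm hz) hG1v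
  set S : Set ℂ := {x' | (z1, x') ∈ E ∧ (z2, x') ∈ E} with hSdef
  have hSm : MeasurableSet S :=
    (measurable_prodMk_left hEm).inter (measurable_prodMk_left hEm)
  set σ : ℝ := c2 * ε ^ 8 with hσ
  have hσpos : 0 < σ := by positivity
  have hσle : σ ≤ 1 := by
    have : ε ^ 8 ≤ 1 := pow_le_one₀ hε.le hε1
    rw [hσ]; nlinarith
  have hSv : σ * D ^ 2 ≤ volume.real S := by
    refine le_trans (le_of_eq ?_) hS
    rw [hσ, hc2]; ring
  set ρ : ℝ := c3 * ε ^ 4 with hρ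
  have hρpos : 0 < ρ := by positivity
  have hz1' : ρ * t ≤ ‖z1 - z2‖ := by
    refine le_trans (le_of_eq ?_) hz1
    rw [hρ, hc3]; ring
  obtain ⟨r, hr1, hr2, hΨ⟩ := B12_polar z1 D σ hD hσpos hσle S hSm
    (fun x hx => B12_Esl_norm hx.1) hSv
  have hrpos : 0 < r := lt_of_lt_of_le (by positivity) hr1
  set Ψ : Set ℝ := {ψ : ℝ | ψ ∈ Ioo (-Real.pi) Real.pi ∧ z1 + r * U ψ ∈ S} with hΨdef
  have hΨm : MeasurableSet Ψ := measurableSet_Ioo.inter
    (((continuous_const.add (continuous_const.mul continuous_U)).measurable) hSm)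
  have hd : ‖z2 - z1‖ ≤ r / 2 := by
    rw [norm_sub_rev]
    have h1 : ε ^ a ≤ σ / 16 := by
      have e : ε ^ a = ε ^ b * ε ^ 8 * ε ^ (53 + M) := by rw [← pow_add, ← pow_add]; congr 1; omega
      have h2 : ε ^ (53 + M) ≤ 1 := pow_le_one₀ hε.le hε1
      rw [e]
      calc ε ^ b * ε ^ 8 * ε ^ (53 + M) ≤ (c2 / 16) * ε ^ 8 * 1 := by
            gcongr
            exact hεb.trans hb1.le
        _ = σ / 16 := by rw [hσ]; ring
    calc ‖z1 - z2‖ ≤ 2 * t := hz2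
      _ = 2 * (ε ^ a * D) := rfl
      _ ≤ 2 * (σ / 16 * D) := by gcongr
      _ = (σ / 4 * D) / 2 := by ring
      _ ≤ r / 2 := by gcongr
  set A := A5 ω (Z0 z1) with hA
  set Cc := C5 ω (t0 z1) with hCc
  set d := z2 - z1 with hdd
  set err : ℝ := (2 + 2 * K) * D ^ 2 / ε + 10 * K / ε * ‖d‖ ^ 2 / r with herr
  have hpt := fun (ψ : ℝ) (hψ : ψ ∈ Ψ) =>
    B12_point hε hD h5 hG1s hrpos hd hψ.2.1 hψ.2.2
  have hco := hrem ![-(A * d) / 4, 0, 3 / 4 * (A * conj d) + Cc / 2 * d, -((t0 z2 - t0 z1 : ℝ) : ℂ),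
      3 / 4 * (conj A * d) + Cc / 2 * conj d, 0, -(conj A * conj d) / 4] err (σ / 2) (-Real.pi / 2) Ψ hΨm
      (by positivity) (fun ψ hψ => B12_dir hD1 (fun g hg => hGa g (hG1s hg)) hrpos hψ.1 hψ.2.1) hΨ ?_ 0
  · -- conclusion
    simp only [Matrix.cons_val_zero] at hco
    have hdn : ρ * t ≤ ‖d‖ := by rw [hdd, norm_sub_rev]; exact hz1'
    have hdn2 : ‖d‖ ≤ 2 * t := by rw [hdd, norm_sub_rev]; exact hz2
    have hAd : ‖A‖ * ‖d‖ / 4 ≤ C0 * err / (σ / 2) ^ 6 := by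
      have : ‖-(A * d) / 4‖ = ‖A‖ * ‖d‖ / 4 := by
        rw [norm_div, norm_neg, norm_mul]; norm_num
      rw [← this]; exact hco
    have herr2 : err ≤ (2 + 162 * K) * ε ^ (2 * a) * D / (ε * σ) := by
      have h1 : 10 * K / ε * ‖d‖ ^ 2 / r ≤ 160 * K * ε ^ (2 * a) * D / (ε * σ) := by
        calc 10 * K / ε * ‖d‖ ^ 2 / r ≤ 10 * K / ε * (2 * t) ^ 2 / (σ / 4 * D) := by gcongr
          _ = 160 * K * ε ^ (2 * a) * D / (ε * σ) := by
            rw [ht]; field_simp; ring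
      have h2 : (2 + 2 * K) * D ^ 2 / ε ≤ (2 + 2 * K) * ε ^ (2 * a) * D / (ε * σ) := by
        calc (2 + 2 * K) * D ^ 2 / ε = (2 + 2 * K) * D * D / (ε * 1) := by ring
          _ ≤ (2 + 2 * K) * ε ^ (2 * a) * D / (ε * σ) := by gcongr
      calc err ≤ (2 + 2 * K) * ε ^ (2 * a) * D / (ε * σ) + 160 * K * ε ^ (2 * a) * D / (ε * σ) :=
            add_le_add h2 h1
        _ = (2 + 162 * K) * ε ^ (2 * a) * D / (ε * σ) := by ring
    have hA1 : ‖A‖ * (ρ * t) / 4 ≤ C0 * ((2 + 162 * K) * ε ^ (2 * a) * D / (ε * σ)) / (σ / 2) ^ 6 := by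
      calc ‖A‖ * (ρ * t) / 4 ≤ ‖A‖ * ‖d‖ / 4 := by gcongr
        _ ≤ C0 * err / (σ / 2) ^ 6 := hAd
        _ ≤ _ := by gcongr
    have hA2 : ‖A‖ ≤ 256 * C0 * (2 + 162 * K) / (c2 ^ 7 * c3) * ε ^ (M + b) := by
      have hpos : 0 < ρ * t / 4 := by positivity
      have e1 : ‖A‖ * (ρ * t / 4) ≤ 256 * C0 * (2 + 162 * K) / (c2 ^ 7 * c3) * ε ^ (M + b) * (ρ * t / 4) := by
        calc ‖A‖ * (ρ * t / 4) = ‖A‖ * (ρ * t) / 4 := by ring
          _ ≤ _ := hA1
          _ = 256 * C0 * (2 + 162 * K) / (c2 ^ 7 * c3) * ε ^ (M + b) * (ρ * t / 4) := by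
            have e2 : ε ^ (2 * a) = ε ^ a * ε ^ (M + b) * ε ^ 61 := by
              rw [← pow_add, ← pow_add]; congr 1; omega
            rw [ht, hρ, hσ, e2]
            field_simp
            ring
      exact le_of_mul_le_mul_right e1 hpos
    -- a point of G above z1
    have hne : Ψ.Nonempty := by
      by_contra hcon
      rw [not_nonempty_iff_eq_empty] at hcon
      rw [hcon] at hΨ
      simp at hΨ
      linarith
    obtain ⟨ψ, hψ⟩ := hne
    obtain ⟨θ, α, -, -, hg, -, -⟩ := hψ.2.1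
    refine ⟨(z1, θ), hG1s hg, ?_⟩
    show ‖Z0 z1‖ ≤ ε ^ M
    calc ‖Z0 z1‖ ≤ |ω.im| / 3 * ‖A‖ := B12_A5_lower ω (Z0 z1) h0
      _ ≤ |ω.im| / 3 * (256 * C0 * (2 + 162 * K) / (c2 ^ 7 * c3) * ε ^ (M + b)) := by gcongr
      _ = (C' * ε ^ b) * ε ^ M := by rw [hC', pow_add]; ring
      _ ≤ 1 * ε ^ M := by
        gcongr
        calc C' * ε ^ b ≤ C' * (1 / (C' + 1)) := by gcongr; exact hεb.trans hb2.le
          _ ≤ 1 := by rw [mul_one_div, div_le_one (by positivity)]; linarith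
      _ = ε ^ M := one_mul _
  · intro ψ hψ
    refine le_trans (le_of_eq ?_) (hpt ψ hψ)
    congr 1
    rw [Fin.sum_univ_seven]
    have u3 : ∀ x : ℝ, U (3 * x) = U x ^ 3 := by
      intro x
      rw [show 3 * x = x + x + x by ring, U_add, U_add]; ring
    have f0 : U (((((0 : Fin 7) : ℕ) : ℝ) - 3) * ψ) = conj (U ψ) ^ 3 := by
      rw [conj_U, ← u3]; congr 1; simp
    have f2 : U (((((2 : Fin 7) : ℕ) : ℝ) - 3) * ψ) = conj (U ψ) := by
      rw [conj_U]; congr 1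
      have : (((2 : Fin 7) : ℕ) : ℝ) = 2 := by norm_num
      rw [this]; ring
    have f3 : U (((((3 : Fin 7) : ℕ) : ℝ) - 3) * ψ) = 1 := by
      have : (((3 : Fin 7) : ℕ) : ℝ) = 3 := by norm_num
      rw [this, sub_self, zero_mul, U_zero]
    have f4 : U (((((4 : Fin 7) : ℕ) : ℝ) - 3) * ψ) = U ψ := by
      congr 1
      have : (((4 : Fin 7) : ℕ) : ℝ) = 4 := by norm_num
      rw [this]; ring
    have f6 : U (((((6 : Fin 7) : ℕ) : ℝ) - 3) * ψ) = U ψ ^ 3 := by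
      rw [← u3]; congr 1
      have : (((6 : Fin 7) : ℕ) : ℝ) = 6 := by norm_num
      rw [this]; ring
    rw [f0, f2, f3, f4, f6]
    simp only [Matrix.cons_val_zero, Matrix.cons_val_one, Matrix.cons_val]
    ring

end TriDil
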