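import Pool.Agent.TriDil.Basic7
import Pool.Agent.TriDil.B10
import Pool.Agent.TriDil.B11
import Pool.Agent.TriDil.B12
set_option autoImplicit false
open MeasureTheory Complex Set
namespace TriDil
open scoped ComplexConjugate

theorem C1_pow_small (K : ℝ) : ∃ k : ℕ, ∀ ε : ℝ, 0 < ε → ε ≤ 1 / 2 → K * ε ^ k ≤ 1 := by
  obtain ⟨k, hk⟩ := pow_unbounded_of_one_lt K (by norm_num : (1:ℝ) < 2)
  refine ⟨k, fun ε h0 h1 => ?_⟩
  have h2 : ε ^ k ≤ (1 / 2) ^ k := pow_le_pow_left₀ h0.le h1 k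
  rcases le_or_gt K 0 with hK | hK
  · have := pow_pos h0 k; nlinarith
  calc K * ε ^ k ≤ 2 ^ k * (1 / 2) ^ k := by
        apply mul_le_mul hk.le h2 (pow_pos h0 k).le (by positivity)
    _ = 1 := by rw [← mul_pow]; norm_num

/-- two far apart angles over a common point `y` -/
theorem C1_two (R : ℝ) : ∃ C : ℝ, 0 < C ∧ ∀ (G : Set (ℂ × ℝ)) (ε : ℝ), MeasurableSet G → 0 < ε →
    (∀ g ∈ G, ‖g.1‖ ≤ R) → (∀ g ∈ G, g.2 ∈ Icc (0 : ℝ) 1) → ε ≤ volume.real G →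
    ∃ (y : ℂ) (θ θ' : ℝ), (y - U θ, θ) ∈ G ∧ (y - U θ', θ') ∈ G ∧ C * ε ≤ θ' - θ := by
  refine ⟨1 / (2 * (volume.real (Metric.closedBall (0:ℂ) (R + 1)) + 1)), by positivity, ?_⟩
  intro G ε mG hε hR ha hv
  set V := volume.real (Metric.closedBall (0:ℂ) (R + 1)) with hV
  have hV0 : 0 ≤ V := measureReal_nonneg
  by_contra hcon
  push Not at hcon
  set δ := 1 / (2 * (V + 1)) * ε with hδ
  have hδ0 : 0 < δ := by positivity
  -- shear
  set T : Set (ℂ × ℝ) := (fun g : ℂ × ℝ => (g.1 + (-1) * U g.2, g.2)) ⁻¹' G with hT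
  have hTm : MeasurableSet T := (mp_shear (-1)).measurable mG
  have hTv : volume T = volume G := (mp_shear (-1)).measure_preimage mG.nullMeasurableSet
  have hslice : ∀ y : ℂ, volume {θ : ℝ | (y, θ) ∈ T} ≤ (Metric.closedBall (0:ℂ) (R + 1)).indicator (fun _ => ENNReal.ofReal δ) y := by
    intro y
    by_cases hy : y ∈ Metric.closedBall (0:ℂ) (R + 1)
    · rw [indicator_of_mem hy]
      rcases Set.eq_empty_or_nonempty {θ : ℝ | (y, θ) ∈ T} with he | ⟨θ0, hθ0⟩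
      · rw [he]; simp
      · -- contained in an interval of length δ
        set S := {θ : ℝ | (y, θ) ∈ T} with hS
        have hmem : ∀ θ ∈ S, (y - U θ, θ) ∈ G := by
          intro θ hθ
          have : (y + (-1) * U θ, θ) ∈ G := hθ
          simpa [sub_eq_add_neg] using this
        have hdiam : ∀ θ ∈ S, ∀ θ' ∈ S, θ' - θ < δ := fun θ hθ θ' hθ' =>
          hcon y θ θ' (hmem θ hθ) (hmem θ' hθ')
        have hbb : BddBelow S := ⟨0, fun θ hθ => (ha _ (hmem θ hθ)).1⟩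
        have hsub : S ⊆ Icc (sInf S) (sInf S + δ) := by
          intro θ hθ
          refine ⟨csInf_le hbb hθ, ?_⟩
          have : θ - δ ≤ sInf S := by
            apply le_csInf ⟨θ0, hθ0⟩
            intro θ1 h1
            have := hdiam θ1 h1 θ hθ
            linarith
          linarith
        calc volume S ≤ volume (Icc (sInf S) (sInf S + δ)) := measure_mono hsub
          _ = ENNReal.ofReal δ := by rw [Real.volume_Icc]; congr 1; ring
    · have : {θ : ℝ | (y, θ) ∈ T} = ∅ := by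
        ext θ
        simp only [mem_setOf_eq, mem_empty_iff_false, iff_false]
        intro h
        apply hy
        have h1 : (y + (-1) * U θ, θ) ∈ G := h
        have h2 := hR _ h1
        simp only at h2
        rw [mem_closedBall_zero_iff]
        calc ‖y‖ = ‖(y + (-1) * U θ) + U θ‖ := by congr 1; ring
          _ ≤ ‖y + (-1) * U θ‖ + ‖U θ‖ := norm_add_le _ _
          _ ≤ R + 1 := by rw [norm_U]; linarith
      rw [this]; simp
  have hvol : volume T ≤ ENNReal.ofReal (V * δ) := by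
    have e : (volume : Measure (ℂ × ℝ)) = (volume : Measure ℂ).prod (volume : Measure ℝ) := rfl
    rw [e, Measure.prod_apply hTm]
    calc ∫⁻ y, volume (Prod.mk y ⁻¹' T) ≤ ∫⁻ y, (Metric.closedBall (0:ℂ) (R + 1)).indicator (fun _ => ENNReal.ofReal δ) y :=
          lintegral_mono fun y => hslice y
      _ = ENNReal.ofReal δ * volume (Metric.closedBall (0:ℂ) (R + 1)) := by
          rw [lintegral_indicator Metric.isClosed_closedBall.measurableSet, setLIntegral_const]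
      _ = ENNReal.ofReal (V * δ) := by
          rw [mul_comm V, ENNReal.ofReal_mul hδ0.le, hV, Measure.real, ENNReal.ofReal_toReal]
          exact (isCompact_closedBall (0:ℂ) (R+1)).measure_lt_top.ne
  have h1 : volume.real G ≤ V * δ := by
    rw [Measure.real, ← hTv]
    exact ENNReal.toReal_le_of_le_ofReal (by positivity) hvol
  have h2 : V * δ < ε := by
    rw [hδ]
    have : V * (1 / (2 * (V + 1)) * ε) = V / (2 * (V + 1)) * ε := by ring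
    rw [this]
    have h3 : V / (2 * (V + 1)) < 1 := by
      rw [div_lt_one (by positivity)]; linarith
    calc V / (2 * (V + 1)) * ε < 1 * ε := mul_lt_mul_of_pos_right h3 hε
      _ = ε := one_mul ε
  linarith

/-- the final algebra of 7.10 -/
theorem C1_final (ω : ℂ) (h0 : ω.im ≠ 0) : ∃ K : ℝ, 0 < K ∧
    ∀ (A d ζ δ θ θ' : ℝ) (B0 B1 : ℂ → ℂ) (G : Set (ℂ × ℝ)) (t0 t1 : ℂ → ℝ) (Z0 Z1 : ℂ → ℂ) (y : ℂ),
    0 ≤ A → 0 ≤ d → 0 ≤ ζ → 0 < δ → δ ≤ θ' - θ → θ ∈ Icc (0:ℝ) 1 → θ' ∈ Icc (0:ℝ) 1 →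
    Reg ω A d B0 B1 G t0 t1 Z0 Z1 → S4P ω A d G t1 Z0 Z1 →
    (y - U θ, θ) ∈ G → (y - U θ', θ') ∈ G → ‖Z0 (y - U θ)‖ ≤ ζ → ‖Z0 (y - U θ')‖ ≤ ζ →
    |ell B0 B1 (y - U θ) θ| ≤ K * (ζ + A * d) / δ := by
  set w := |ω.im| with hw
  have hw0 : 0 < w := abs_pos.mpr h0
  refine ⟨(|ω.re| * (4 * (1 + 3 * ‖ω‖ / w) / w + 3 / w) + 1), by positivity, ?_⟩
  intro A d ζ δ θ θ' B0 B1 G t0 t1 Z0 Z1 y hA hd hζ hδ hθθ hθ hθ' hReg hS4 hg hg' hZ hZ'
  set E := ζ + A * d with hE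
  have hAd : 0 ≤ A * d := mul_nonneg hA hd
  have hE0 : 0 ≤ E := by positivity
  -- one angle
  have key : ∀ θ : ℝ, (y - U θ, θ) ∈ G → ‖Z0 (y - U θ)‖ ≤ ζ →
      |t0 (y - U θ) - 2 * t1 y| ≤ 3 * E / w ∧
      ‖Z1 y + (1 + ω) * t1 y * U θ ^ 2‖ ≤ (1 + 3 * ‖ω‖ / w) * E := by
    intro θ hg hZ
    have h3 := hReg.S3 _ hg
    have h4 := hS4 _ hg
    simp only at h3 h4
    have hy : y - U θ + U θ = y := by ring
    rw [hy] at h3 h4
    set x := y - U θ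
    set u2 := U θ ^ 2 with hu2
    have hu : u2 * conj u2 = 1 := by
      rw [hu2, map_pow, ← mul_pow, U_mul_conj, one_pow]
    have hun : ‖u2‖ = 1 := by rw [hu2, norm_pow, norm_U, one_pow]
    have hcun : ‖conj u2‖ = 1 := by rw [norm_conj, hun]
    set r3 := Z1 y - Z0 x - u2 * ((ω - 1) * t1 y - ω * t0 x) with hr3
    have e1 : Z1 y * conj u2 = Z0 x * conj u2 + ((ω - 1) * t1 y - ω * t0 x) + r3 * conj u2 := by
      rw [hr3]; linear_combination (((ω - 1) * t1 y - ω * t0 x)) * hu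
    have e2 : imb (Z1 y) θ = (Z0 x * conj u2).im + ω.im * (t1 y - t0 x) + (r3 * conj u2).im := by
      unfold imb
      rw [← hu2, e1]
      simp only [add_im, sub_im, mul_im, sub_re, ofReal_re, ofReal_im, one_re, one_im]
      ring
    have b1 : |(Z0 x * conj u2).im| ≤ ζ := by
      calc _ ≤ ‖Z0 x * conj u2‖ := abs_im_le_norm _
        _ ≤ ζ := by rw [norm_mul, hcun, mul_one]; exact hZ
    have b2 : |(r3 * conj u2).im| ≤ A * d := by
      calc _ ≤ ‖r3 * conj u2‖ := abs_im_le_norm _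
        _ ≤ A * d := by rw [norm_mul, hcun, mul_one]; exact h3
    have e3 : imb (Z0 x) θ = (Z0 x * conj u2).im := rfl
    rw [e2, e3] at h4
    have b3 : |ω.im * (2 * t1 y - t0 x)| ≤ 3 * E := by
      rw [abs_le] at *
      constructor
      · linarith [h4.1, h4.2, b1.1, b1.2, b2.1, b2.2]
      · linarith [h4.1, h4.2, b1.1, b1.2, b2.1, b2.2]
    have b4 : |t0 x - 2 * t1 y| ≤ 3 * E / w := by
      rw [le_div_iff₀ hw0, abs_sub_comm, mul_comm, hw, ← abs_mul]; exact b3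
    refine ⟨b4, ?_⟩
    have e4 : Z1 y + (1 + ω) * t1 y * u2 = Z0 x + r3 - ω * (t0 x - 2 * t1 y) * u2 := by
      rw [hr3]; ring
    rw [e4]
    calc ‖Z0 x + r3 - ω * (t0 x - 2 * t1 y) * u2‖ ≤ ‖Z0 x + r3‖ + ‖ω * (t0 x - 2 * t1 y) * u2‖ := norm_sub_le _ _
      _ ≤ (‖Z0 x‖ + ‖r3‖) + ‖ω * (t0 x - 2 * t1 y) * u2‖ := by gcongr; exact norm_add_le _ _
      _ ≤ E + ‖ω‖ * (3 * E / w) := by
          have e5 : ‖ω * (t0 x - 2 * t1 y) * u2‖ = ‖ω‖ * |t0 x - 2 * t1 y| := by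
            rw [norm_mul, norm_mul, hun, mul_one]
            congr 1
            rw [← Real.norm_eq_abs, ← norm_real]; push_cast; rfl
          rw [e5]
          have : ‖Z0 x‖ + ‖r3‖ ≤ E := by rw [hE]; linarith
          have h6 := mul_le_mul_of_nonneg_left b4 (norm_nonneg ω)
          linarith
      _ = (1 + 3 * ‖ω‖ / w) * E := by ring
  obtain ⟨k1, k2⟩ := key θ hg hZ
  obtain ⟨_, k3⟩ := key θ' hg' hZ'
  -- t1 is small
  have hω1 : w ≤ ‖(1 + ω : ℂ)‖ := by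
    calc w = |(1 + ω).im| := by rw [hw]; simp
      _ ≤ _ := abs_im_le_norm _
  have hdiff : δ ≤ ‖U θ' ^ 2 - U θ ^ 2‖ := by
    have e : U θ' ^ 2 - U θ ^ 2 = (U θ * U θ') * (U (θ' - θ) - U (-(θ' - θ))) := by
      have a1 : U θ' ^ 2 = U θ * U θ' * U (θ' - θ) := by
        rw [← U_add, ← U_add, sq, ← U_add]; congr 1; ring
      have a2 : U θ ^ 2 = U θ * U θ' * U (-(θ' - θ)) := by
        rw [← U_add, ← U_add, sq, ← U_add]; congr 1; ring
      rw [a1, a2]; ring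
    rw [e, norm_mul, norm_mul, norm_U, norm_U, one_mul, one_mul]
    have h1 : θ' - θ ≤ 1 := by linarith [hθ.1, hθ'.2]
    have h2 : 0 < θ' - θ := lt_of_lt_of_le hδ hθθ
    have h3 : |(U (θ' - θ) - U (-(θ' - θ))).im| ≤ ‖U (θ' - θ) - U (-(θ' - θ))‖ := abs_im_le_norm _
    rw [sub_im, U_im, U_im, Real.sin_neg] at h3
    have h4 : (θ' - θ) / 2 ≤ Real.sin (θ' - θ) := by
      have := Real.mul_le_sin h2.le (by linarith [Real.pi_gt_three])
      have hpi := Real.pi_lt_d2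
      have h5 : (θ' - θ) / 2 ≤ 2 / Real.pi * (θ' - θ) := by
        have : (1:ℝ) / 2 ≤ 2 / Real.pi := by
          rw [div_le_div_iff₀ (by norm_num) Real.pi_pos]; linarith
        nlinarith
      linarith
    have h5 : |Real.sin (θ' - θ) - -Real.sin (θ' - θ)| = 2 * Real.sin (θ' - θ) := by
      rw [abs_of_nonneg (by linarith)]; ring
    rw [h5] at h3
    linarith
  have ht1 : |t1 y| ≤ 2 * (1 + 3 * ‖ω‖ / w) * E / (w * δ) := by
    have e : (1 + ω) * t1 y * (U θ' ^ 2 - U θ ^ 2)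
        = (Z1 y + (1 + ω) * t1 y * U θ' ^ 2) - (Z1 y + (1 + ω) * t1 y * U θ ^ 2) := by ring
    have h5 : ‖(1 + ω) * t1 y * (U θ' ^ 2 - U θ ^ 2)‖ ≤ 2 * (1 + 3 * ‖ω‖ / w) * E := by
      rw [e]
      calc _ ≤ _ := norm_sub_le _ _
        _ ≤ _ := by linarith
    rw [norm_mul, norm_mul, norm_real, Real.norm_eq_abs] at h5
    rw [le_div_iff₀ (by positivity)]
    calc |t1 y| * (w * δ) = w * |t1 y| * δ := by ring
      _ ≤ ‖1 + ω‖ * |t1 y| * ‖U θ' ^ 2 - U θ ^ 2‖ := by gcongr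
      _ ≤ _ := h5
  have hδ1 : δ ≤ 1 := by linarith [hθ.1, hθ'.2]
  have ht0 : |t0 (y - U θ)| ≤ (4 * (1 + 3 * ‖ω‖ / w) / w + 3 / w) * E / δ := by
    have h6 : |t0 (y - U θ)| ≤ 3 * E / w + 2 * |t1 y| := by
      calc |t0 (y - U θ)| = |(t0 (y - U θ) - 2 * t1 y) + 2 * t1 y| := by ring_nf
        _ ≤ |t0 (y - U θ) - 2 * t1 y| + |2 * t1 y| := abs_add_le _ _
        _ ≤ _ := by rw [abs_mul, abs_of_pos (by norm_num : (0:ℝ) < 2)]; linarith
    have h7 : 3 * E / w ≤ 3 / w * E / δ := by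
      rw [le_div_iff₀ hδ]
      calc 3 * E / w * δ ≤ 3 * E / w * 1 := by gcongr
        _ = 3 / w * E := by ring
    calc |t0 (y - U θ)| ≤ 3 * E / w + 2 * |t1 y| := h6
      _ ≤ 3 / w * E / δ + 2 * (2 * (1 + 3 * ‖ω‖ / w) * E / (w * δ)) := by gcongr
      _ = _ := by field_simp; ring
  have hF := hReg.F0 _ hg
  simp only at hF
  have hip : |ip (Z0 (y - U θ)) (U θ ^ 2)| ≤ ζ := by
    calc _ ≤ _ := ip_le _ _
      _ ≤ ζ := by rw [norm_pow, norm_U, one_pow, mul_one]; exact hZ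
  have h8 : |ell B0 B1 (y - U θ) θ| ≤ |ω.re| * |t0 (y - U θ)| + E := by
    have e : ell B0 B1 (y - U θ) θ = (ell B0 B1 (y - U θ) θ - (ω.re * t0 (y - U θ) - ip (Z0 (y - U θ)) (U θ ^ 2)))
        + ω.re * t0 (y - U θ) - ip (Z0 (y - U θ)) (U θ ^ 2) := by ring
    rw [e]
    calc _ ≤ |(ell B0 B1 (y - U θ) θ - (ω.re * t0 (y - U θ) - ip (Z0 (y - U θ)) (U θ ^ 2)))
        + ω.re * t0 (y - U θ)| + |ip (Z0 (y - U θ)) (U θ ^ 2)| := abs_sub _ _
      _ ≤ (|ell B0 B1 (y - U θ) θ - (ω.re * t0 (y - U θ) - ip (Z0 (y - U θ)) (U θ ^ 2))|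
        + |ω.re * t0 (y - U θ)|) + |ip (Z0 (y - U θ)) (U θ ^ 2)| := by gcongr; exact abs_add_le _ _
      _ ≤ _ := by rw [abs_mul, hE]; linarith
  calc |ell B0 B1 (y - U θ) θ| ≤ |ω.re| * |t0 (y - U θ)| + E := h8
    _ ≤ |ω.re| * ((4 * (1 + 3 * ‖ω‖ / w) / w + 3 / w) * E / δ) + E / δ := by
        have : E ≤ E / δ := by rw [le_div_iff₀ hδ]; nlinarith
        gcongr
    _ = _ := by ring

theorem thm71 (ω : ℂ) (h0 : ω.im ≠ 0) (h1 : ω.re ≠ 0) (h2 : ω.re ≠ 1) (R : ℝ) :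
    ∃ n : ℕ, 1 ≤ n ∧ ∀ ε : ℝ, 0 < ε → ε ≤ 1 / 2 → ∀ κ : ℝ,
    ∀ (B0 B1 B2 : ℂ → ℂ) (G : Set (ℂ × ℝ)), Sys ω R ε κ B0 B1 B2 G → ε ^ n ≤ κ := by
  obtain ⟨n4, hn4, H4⟩ := STEP4 ω h0 h1 h2 R
  obtain ⟨n5, hn5, H5⟩ := CONS ω h0
  obtain ⟨c, hc, Hc⟩ := C1_two R
  obtain ⟨K, hK, HK⟩ := C1_final ω h0
  -- K' collects the constants of the last step
  obtain ⟨k, hk⟩ := C1_pow_small (4 * (K * 2 / c))
  set M : ℕ := n4 + k + 2 with hM
  obtain ⟨n6, hn6, H6⟩ := STEP5 ω h0 R M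
  set a : ℕ := n4 * (n5 + 1) * n6 + 2 * n4 + k + 2 with ha
  refine ⟨12 * a, by omega, ?_⟩
  intro ε hε0 hε1 κ B0 B1 B2 G hS
  by_contra hlt
  push Not at hlt
  have hε1' : ε ≤ 1 := by linarith
  set D := ε ^ a with hD
  have hD0 : 0 < D := pow_pos hε0 a
  have hD1 : D ≤ 1 := pow_le_one₀ hε0.le hε1'
  set d := D ^ 2 with hd
  have hd0 : 0 < d := pow_pos hD0 2
  have hd_eq : d = ε ^ (2 * a) := by rw [hd, hD, ← pow_mul]; congr 1; ring
  have hdn4 : d ≤ ε ^ n4 := by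
    rw [hd_eq]; exact pow_le_pow_of_le_one hε0.le hε1' (by omega)
  have hκd : κ ≤ d ^ 6 := by
    rw [hd_eq, ← pow_mul]
    have : 2 * a * 6 = 12 * a := by ring
    rw [this]; exact hlt.le
  obtain ⟨G', hG', t0, t1, Z0, Z1, hReg, hS4⟩ := H4 ε hε0 hε1 κ d hd0 hdn4 hκd B0 B1 B2 G hS
  set ε1 := ε ^ n4 with hε1d
  have e10 : 0 < ε1 := pow_pos hε0 n4
  have e11 : ε1 ≤ 1 / 2 := by
    calc ε1 ≤ ε ^ 1 := pow_le_pow_of_le_one hε0.le hε1' hn4
      _ ≤ 1 / 2 := by rw [pow_one]; exact hε1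
  have hS5 := H5 ε1 e10 e11 d D hd0 hD0 hD1 le_rfl B0 B1 G' t0 t1 Z0 Z1 hReg hS4
  set ε2 := ε1 ^ (n5 + 1) with hε2d
  have e20 : 0 < ε2 := pow_pos e10 _
  have e2a : ε2 ≤ ε1 / 2 := by
    rw [hε2d, pow_succ]
    have : ε1 ^ n5 ≤ 1 / 2 := by
      calc ε1 ^ n5 ≤ ε1 ^ 1 := pow_le_pow_of_le_one e10.le (by linarith) hn5
        _ ≤ 1 / 2 := by rw [pow_one]; exact e11
    nlinarith
  have e21 : ε2 ≤ 1 / 2 := by linarith
  have e2b : ε2 ≤ ε1 ^ n5 := pow_le_pow_of_le_one e10.le (by linarith) (by omega)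
  have hA5 : 1 / ε1 ^ n5 ≤ 1 / ε2 := one_div_le_one_div_of_le e20 e2b
  -- the bad set
  set Gb : Set (ℂ × ℝ) := {g | g ∈ G' ∧ ε2 ^ M < ‖Z0 g.1‖} with hGb
  have mnZ : Measurable (fun g : ℂ × ℝ => ‖Z0 g.1‖) := (hReg.mZ0.comp measurable_fst).norm
  have hGbm : MeasurableSet Gb := hG'.meas.inter (measurableSet_lt measurable_const mnZ)
  have hbd : ∀ g ∈ G', ‖g.1‖ ≤ R := fun g hg => hS.bdd g (hG'.sub hg)
  have han : ∀ g ∈ G', g.2 ∈ Icc (0:ℝ) 1 := fun g hg => hS.ang g (hG'.sub hg)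
  have hGbv : volume.real Gb < ε2 := by
    by_contra hge
    push Not at hge
    have hD6 : D ≤ ε2 ^ n6 := by
      rw [hD, hε2d, hε1d, ← pow_mul, ← pow_mul]
      apply pow_le_pow_of_le_one hε0.le hε1'
      rw [ha]
      have e1 : n4 * (n5 + 1) * n6 = n4 * ((n5 + 1) * n6) := by ring
      omega
    obtain ⟨g, hg, hgZ⟩ := H6 ε2 e20 e21 D hD0 hD6 Gb t0 Z0 hGbm (fun g hg => hbd g hg.1)
      (fun g hg => han g hg.1) hge
      { bt0 := fun x => (hS5.bt0 x).trans hA5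
        bZ0 := fun x => (hS5.bZ0 x).trans hA5
        st := fun x x' θ α h1 h2 h3 h4 h5 => (hS5.st x x' θ α h1.1 h2.1 h3 h4 h5).trans
          (mul_le_mul_of_nonneg_right hA5 hD0.le)
        sZ := fun x x' θ α h1 h2 h3 h4 h5 => (hS5.sZ x x' θ α h1.1 h2.1 h3 h4 h5).trans
          (mul_le_mul_of_nonneg_right hA5 hD0.le)
        s5 := fun x x' θ α h1 h2 h3 h4 h5 => (hS5.s5 x x' θ α h1.1 h2.1 h3 h4 h5).trans
          (mul_le_mul_of_nonneg_right hA5 (sq_nonneg D)) }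
    exact absurd hg.2 (not_lt.mpr hgZ)
  -- the good set
  set Gg : Set (ℂ × ℝ) := G' \ Gb with hGg
  have hGgm : MeasurableSet Gg := hG'.meas.diff hGbm
  have hG'fin : volume G' ≠ ⊤ := by
    intro h
    have := hG'.vol
    rw [Measure.real, h, ENNReal.toReal_top] at this
    linarith
  have hGgv : ε1 / 2 ≤ volume.real Gg := by
    have h3 : volume.real G' ≤ volume.real Gg + volume.real Gb := by
      have : G' ⊆ Gg ∪ Gb := by intro g hg; by_cases h : g ∈ Gb; exacts [Or.inr h, Or.inl ⟨hg, h⟩]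
      calc volume.real G' ≤ volume.real (Gg ∪ Gb) := by
            exact measureReal_mono this (ne_top_of_le_ne_top hG'fin (measure_mono (by
              intro g hg; rcases hg with h | h; exacts [h.1, h.1])))
        _ ≤ _ := measureReal_union_le _ _
    have := hG'.vol
    linarith
  obtain ⟨y, θ, θ', hg, hg', hθθ⟩ := Hc Gg (ε1 / 2) hGgm (by positivity) (fun g hg => hbd g hg.1)
    (fun g hg => han g hg.1) hGgv
  have hZs : ∀ g ∈ Gg, ‖Z0 g.1‖ ≤ ε2 ^ M := by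
    intro g hg
    by_contra h
    push Not at h
    exact hg.2 ⟨hg.1, h⟩
  have hfin := HK (1 / ε1) d (ε2 ^ M) (c * (ε1 / 2)) θ θ' B0 B1 G' t0 t1 Z0 Z1 y (by positivity) hd0.le
    (by positivity) (by positivity) hθθ (han _ hg.1) (han _ hg'.1) hReg hS4 hg.1 hg'.1 (hZs _ hg) (hZs _ hg')
  have hlo := hS.lo _ (hG'.sub hg.1)
  simp only at hlo
  -- now a contradiction
  have hz1 : ε2 ^ M ≤ ε ^ (n4 + k + 2) := by
    calc ε2 ^ M ≤ ε ^ M := by
          apply pow_le_pow_left₀ e20.le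
          calc ε2 ≤ ε1 / 2 := e2a
            _ ≤ ε1 := by linarith
            _ ≤ ε ^ 1 := pow_le_pow_of_le_one hε0.le hε1' hn4
            _ = ε := pow_one ε
      _ = _ := by rw [hM]
  have hz2 : 1 / ε1 * d ≤ ε ^ (n4 + k + 2) := by
    rw [hd_eq, hε1d, one_div, inv_mul_le_iff₀ (pow_pos hε0 _), ← pow_add]
    apply pow_le_pow_of_le_one hε0.le hε1'
    omega
  have hsum : K * (ε2 ^ M + 1 / ε1 * d) / (c * (ε1 / 2)) ≤ (4 * (K * 2 / c) * ε ^ k) * ε ^ 2 / 2 := by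
    have h3 : ε2 ^ M + 1 / ε1 * d ≤ 2 * (ε1 * ε ^ k * ε ^ 2) := by
      have : ε ^ (n4 + k + 2) = ε1 * ε ^ k * ε ^ 2 := by rw [hε1d, pow_add, pow_add]
      rw [this] at hz1 hz2
      linarith
    calc K * (ε2 ^ M + 1 / ε1 * d) / (c * (ε1 / 2)) ≤ K * (2 * (ε1 * ε ^ k * ε ^ 2)) / (c * (ε1 / 2)) := by
          gcongr
      _ = _ := by field_simp; ring
  have h9 := hk ε hε0 hε1
  have h10 : (4 * (K * 2 / c) * ε ^ k) * ε ^ 2 / 2 ≤ ε ^ 2 / 2 := by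
    have : (4 * (K * 2 / c) * ε ^ k) * ε ^ 2 ≤ 1 * ε ^ 2 := mul_le_mul_of_nonneg_right h9 (sq_nonneg ε)
    linarith
  have h11 : ε ^ 2 / 2 < ε := by nlinarith
  linarith

end TriDil
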