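import Pool.Agent.TriDil.Basic7
import Pool.Agent.TriDil.A8
import Pool.Agent.TriDil.A9
import Pool.Agent.TriDil.C1
set_option autoImplicit false
open MeasureTheory Complex Set
namespace TriDil
open scoped ComplexConjugate

/-! ## Theorem KD -/
theorem KD (ω : ℂ) (h0 : ω.im ≠ 0) (h1 : ω.re ≠ 0) (h2 : ω.re ≠ 1) (R : ℝ) : ∃ n : ℕ, 1 ≤ n ∧
    ∀ ε : ℝ, 0 < ε → ε ≤ 1 / 2 → ∀ r : ℝ, 0 < r → r ≤ 1 → ∀ f0 f1 f2 : ℂ → ℂ,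
    BF R f0 → BF R f1 → BF R f2 → ε ≤ ‖TK ω (kD r) f0 f1 f2‖ → ε ^ n ≤ r := by
  obtain ⟨n1, hn1, R1, H1⟩ := prop51 ω h0 h1 h2 R
  obtain ⟨n2, hn2, R2, H2⟩ := prop61 ω h0 R1
  obtain ⟨n3, hn3, H3⟩ := thm71 ω h0 h1 h2 R2
  refine ⟨n1 * n2 * n3 + n1 * n2, by nlinarith [Nat.mul_pos hn1 hn2], ?_⟩
  intro ε hε0 hε1 r hr0 hr1 f0 f1 f2 b0 b1 b2 hT
  have hε1' : ε ≤ 1 := by linarith
  obtain ⟨m, φ0, φ1, φ2, hm1, hm2, s0, s1, s2, hT2⟩ := H1 ε hε0 hε1 r hr0 hr1 f0 f1 f2 b0 b1 b2 hT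
  have e0 : 0 < ε ^ n1 := pow_pos hε0 n1
  have e1 : ε ^ n1 ≤ 1 / 2 := by
    calc ε ^ n1 ≤ ε ^ 1 := pow_le_pow_of_le_one hε0.le hε1' hn1
      _ ≤ 1 / 2 := by rw [pow_one]; exact hε1
  rcases H2 (ε ^ n1) e0 e1 r hr0 hr1 m hm1 hm2 φ0 φ1 φ2 s0 s1 s2 hT2 with h | ⟨B0, B1, B2, G, hS⟩
  · rw [← pow_mul] at h
    calc ε ^ (n1 * n2 * n3 + n1 * n2) ≤ ε ^ (n1 * n2) := pow_le_pow_of_le_one hε0.le hε1' (by omega)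
      _ ≤ r := h
  · have e2 : 0 < (ε ^ n1) ^ n2 := pow_pos e0 n2
    have e3 : (ε ^ n1) ^ n2 ≤ 1 / 2 := by
      calc (ε ^ n1) ^ n2 ≤ (ε ^ n1) ^ 1 := pow_le_pow_of_le_one e0.le (by linarith) hn2
        _ ≤ 1 / 2 := by rw [pow_one]; exact e1
    have := H3 _ e2 e3 _ B0 B1 B2 G hS
    rw [le_div_iff₀ e2] at this
    calc ε ^ (n1 * n2 * n3 + n1 * n2) = ((ε ^ n1) ^ n2) ^ n3 * (ε ^ n1) ^ n2 := by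
          rw [pow_add, pow_mul ε (n1 * n2) n3, pow_mul ε n1 n2]
      _ ≤ r := this

end TriDil
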