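import Pool.Agent.TriDil.Basic7
import Pool.Agent.TriDil.C2
set_option autoImplicit false
open MeasureTheory Complex Set
namespace TriDil
open scoped ComplexConjugate

theorem C3_kD (N : ℝ) (hN : 0 < N) (u : ℂ) : kN (2 * N) u - kN N u = kD (Real.sqrt (1 / N)) u := by
  have hr : Real.sqrt (1 / N) ^ 2 = 1 / N := Real.sq_sqrt (by positivity)
  unfold kN kD haar
  rw [hr]
  have e1 : (normSq u - 1) / (1 / N) = N * (normSq u - 1) := by field_simp
  rw [e1]
  have e2 : (1 / N)⁻¹ = N := by rw [one_div, inv_inv]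
  rw [e2]
  set t := normSq u
  have a1 : (0 ≤ N * (t - 1)) ↔ 1 ≤ t := by
    constructor
    · intro h; by_contra hc; push Not at hc; nlinarith
    · intro h; exact mul_nonneg hN.le (by linarith)
  have a2 : (N * (t - 1) ≤ 1 / 2) ↔ t ≤ 1 + 1 / (2 * N) := by
    rw [← le_div_iff₀' hN, sub_le_iff_le_add']
    have : (1:ℝ) / 2 / N = 1 / (2 * N) := by field_simp
    rw [this]
  have a3 : (N * (t - 1) ≤ 1) ↔ t ≤ 1 + 1 / N := by
    rw [← le_div_iff₀' hN, sub_le_iff_le_add']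
  have a4 : (1 / 2 < N * (t - 1)) ↔ ¬ (t ≤ 1 + 1 / (2 * N)) := by rw [← a2, not_le]
  have h12 : 1 + 1 / (2 * N) ≤ 1 + 1 / N := by
    have : 1 / (2 * N) ≤ 1 / N := one_div_le_one_div_of_le hN (by linarith)
    linarith
  have h11 : 1 ≤ 1 + 1 / (2 * N) := by
    have : 0 ≤ 1 / (2 * N) := by positivity
    linarith
  simp only [a1, a2, a3, a4]
  by_cases c1 : 1 ≤ t <;> by_cases c2 : t ≤ 1 + 1 / (2 * N) <;> by_cases c3 : t ≤ 1 + 1 / N <;>
    simp only [c1, c2, c3, and_self, and_true, and_false, true_and, false_and, not_true, not_false_iff, if_true, if_false]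
  all_goals first
    | (exfalso; linarith)
    | (exfalso; exact c1 (by linarith))
    | ring

theorem C3_kN_meas (N : ℝ) : Measurable (kN N) := by
  unfold kN
  have hm : Measurable (fun u : ℂ => normSq u) := continuous_normSq.measurable
  exact Measurable.ite ((measurableSet_le measurable_const hm).inter
    (measurableSet_le hm measurable_const)) measurable_const measurable_const

theorem C3_kN_supp (N : ℝ) (hN : 1 ≤ N) (u : ℂ) (h : 2 < ‖u‖) : kN N u = 0 := by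
  unfold kN
  rw [if_neg]
  rintro ⟨-, h2⟩
  rw [normSq_eq_norm_sq] at h2
  have : 1 / N ≤ 1 := by rw [div_le_one (by linarith)]; exact hN
  nlinarith

theorem C3_kN_bd (N : ℝ) (hN : 1 ≤ N) (u : ℂ) : |kN N u| ≤ N := by
  unfold kN
  split_ifs
  · rw [abs_of_nonneg (by linarith)]
  · simp; linarith

/-- the inner integral of `TK` is a bounded measurable function of `u` -/
theorem C3_inner (ω : ℂ) (R : ℝ) (f0 f1 f2 : ℂ → ℂ) (b0 : BF R f0) (b1 : BF R f1) (b2 : BF R f2) :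
    Measurable (fun u : ℂ => ∫ x : ℂ, f0 x * f1 (x + u) * f2 (x + ω * u)) ∧
    ∃ B : ℝ, 0 ≤ B ∧ ∀ u : ℂ, ‖∫ x : ℂ, f0 x * f1 (x + u) * f2 (x + ω * u)‖ ≤ B := by
  constructor
  · have hm : Measurable (fun z : ℂ × ℂ => f0 z.2 * f1 (z.2 + z.1) * f2 (z.2 + ω * z.1)) := by
      have := b0.meas; have := b1.meas; have := b2.meas
      fun_prop
    exact (hm.stronglyMeasurable.integral_prod_right (ν := (volume : Measure ℂ))).measurable
  · refine ⟨volume.real (Metric.closedBall (0:ℂ) R), measureReal_nonneg, fun u => ?_⟩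
    have hfin : volume (Metric.closedBall (0:ℂ) R) < ⊤ := (isCompact_closedBall (0:ℂ) R).measure_lt_top
    have e : ∫ x : ℂ, f0 x * f1 (x + u) * f2 (x + ω * u)
        = ∫ x in Metric.closedBall (0:ℂ) R, f0 x * f1 (x + u) * f2 (x + ω * u) := by
      symm
      apply setIntegral_eq_integral_of_forall_compl_eq_zero
      intro x hx
      rw [mem_closedBall_zero_iff, not_le] at hx
      rw [b0.supp x hx, zero_mul, zero_mul]
    rw [e]
    have := norm_setIntegral_le_of_norm_le_const hfin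
      (fun x (_ : x ∈ Metric.closedBall (0:ℂ) R) => (show ‖f0 x * f1 (x + u) * f2 (x + ω * u)‖ ≤ 1 from by
        rw [norm_mul, norm_mul]
        have h0 := b0.le x; have h1 := b1.le (x + u); have h2 := b2.le (x + ω * u)
        have n0 := norm_nonneg (f0 x); have n1 := norm_nonneg (f1 (x+u)); have n2 := norm_nonneg (f2 (x + ω*u))
        calc _ ≤ (1:ℝ) * 1 * 1 := by gcongr
          _ = 1 := by norm_num))
    simpa using this

theorem C3_integrable (ω : ℂ) (R : ℝ) (f0 f1 f2 : ℂ → ℂ) (b0 : BF R f0) (b1 : BF R f1) (b2 : BF R f2)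
    (N : ℝ) (hN : 1 ≤ N) :
    Integrable (fun u : ℂ => (kN N u : ℂ) * ∫ x : ℂ, f0 x * f1 (x + u) * f2 (x + ω * u)) := by
  obtain ⟨hm, B, hB0, hB⟩ := C3_inner ω R f0 f1 f2 b0 b1 b2
  have hfin : volume (Metric.closedBall (0:ℂ) 2) < ⊤ := (isCompact_closedBall (0:ℂ) 2).measure_lt_top
  have hi : IntegrableOn (fun _ : ℂ => (N * B : ℝ)) (Metric.closedBall (0:ℂ) 2) :=
    integrableOn_const hfin.ne
  have hi2 := hi.integrable_indicator Metric.isClosed_closedBall.measurableSet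
  refine hi2.mono' ?_ ?_
  · exact ((measurable_ofReal.comp (C3_kN_meas N)).mul hm).aestronglyMeasurable
  · filter_upwards with u
    by_cases hu : u ∈ Metric.closedBall (0:ℂ) 2
    · rw [indicator_of_mem hu, norm_mul, norm_real]
      exact mul_le_mul (C3_kN_bd N hN u) (hB u) (norm_nonneg _) (by linarith)
    · rw [indicator_of_notMem hu]
      rw [mem_closedBall_zero_iff, not_le] at hu
      rw [C3_kN_supp N hN u hu]; simp

theorem C3_diff (ω : ℂ) (R : ℝ) (f0 f1 f2 : ℂ → ℂ) (b0 : BF R f0) (b1 : BF R f1) (b2 : BF R f2)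
    (N : ℝ) (hN : 1 ≤ N) :
    TK ω (kN (2 * N)) f0 f1 f2 - TK ω (kN N) f0 f1 f2 = TK ω (kD (Real.sqrt (1 / N))) f0 f1 f2 := by
  unfold TK
  rw [← integral_sub (C3_integrable ω R f0 f1 f2 b0 b1 b2 (2 * N) (by linarith))
    (C3_integrable ω R f0 f1 f2 b0 b1 b2 N hN)]
  congr 1
  funext u
  rw [← sub_mul, ← C3_kD N (by linarith) u]
  push_cast; rfl

theorem C3_annulus (N : ℝ) (hN : 1 ≤ N) :
    volume.real {u : ℂ | 1 ≤ normSq u ∧ normSq u ≤ 1 + 1 / N} ≤ Real.pi / N := by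
  have hN0 : 0 < N := by linarith
  have hp : 0 ≤ 1 / N := by positivity
  set ρ := Real.sqrt (1 + 1 / N) with hρ
  have hρ2 : ρ ^ 2 = 1 + 1 / N := Real.sq_sqrt (by linarith)
  have hρ1 : 1 ≤ ρ := by rw [hρ]; exact Real.one_le_sqrt.mpr (by linarith)
  have hsub : {u : ℂ | 1 ≤ normSq u ∧ normSq u ≤ 1 + 1 / N} = Metric.closedBall (0:ℂ) ρ \ Metric.ball (0:ℂ) 1 := by
    ext u
    simp only [mem_setOf_eq, mem_diff, mem_closedBall_zero_iff, mem_ball_zero_iff, not_lt]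
    rw [normSq_eq_norm_sq, ← hρ2]
    constructor
    · rintro ⟨h1, h2⟩
      exact ⟨le_of_sq_le_sq h2 (by linarith), by nlinarith [norm_nonneg u]⟩
    · rintro ⟨h1, h2⟩
      exact ⟨by nlinarith, by nlinarith [norm_nonneg u]⟩
  rw [hsub]
  have hb : Metric.ball (0:ℂ) 1 ⊆ Metric.closedBall (0:ℂ) ρ :=
    (Metric.ball_subset_ball hρ1).trans Metric.ball_subset_closedBall
  rw [measureReal_diff hb measurableSet_ball (isCompact_closedBall (0:ℂ) ρ).measure_lt_top.ne]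
  rw [Measure.real, Measure.real, Complex.volume_closedBall, Complex.volume_ball]
  simp only [ENNReal.ofReal_one, one_pow, one_mul, ENNReal.toReal_mul, ENNReal.toReal_pow]
  rw [ENNReal.toReal_ofReal (by linarith), hρ2]
  simp only [ENNReal.coe_toReal, NNReal.coe_real_pi]
  apply le_of_eq; field_simp; ring

theorem C3_triv (ω : ℂ) (R : ℝ) : ∃ V : ℝ, 0 < V ∧ ∀ N : ℝ, 1 ≤ N → ∀ f0 f1 f2 : ℂ → ℂ, BF R f0 → BF R f1 →
    BF R f2 → ‖TK ω (kN N) f0 f1 f2‖ ≤ V := by
  refine ⟨Real.pi * (volume.real (Metric.closedBall (0:ℂ) R) + 1), by positivity, ?_⟩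
  intro N hN f0 f1 f2 b0 b1 b2
  have hN0 : 0 < N := by linarith
  set B := volume.real (Metric.closedBall (0:ℂ) R) with hB
  have hB0 : 0 ≤ B := measureReal_nonneg
  have hfin : volume (Metric.closedBall (0:ℂ) R) < ⊤ := (isCompact_closedBall (0:ℂ) R).measure_lt_top
  have hin : ∀ u : ℂ, ‖∫ x : ℂ, f0 x * f1 (x + u) * f2 (x + ω * u)‖ ≤ B := by
    intro u
    have e : ∫ x : ℂ, f0 x * f1 (x + u) * f2 (x + ω * u)
        = ∫ x in Metric.closedBall (0:ℂ) R, f0 x * f1 (x + u) * f2 (x + ω * u) := by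
      symm
      apply setIntegral_eq_integral_of_forall_compl_eq_zero
      intro x hx
      rw [mem_closedBall_zero_iff, not_le] at hx
      rw [b0.supp x hx, zero_mul, zero_mul]
    rw [e]
    have := norm_setIntegral_le_of_norm_le_const hfin
      (fun x (_ : x ∈ Metric.closedBall (0:ℂ) R) => (show ‖f0 x * f1 (x + u) * f2 (x + ω * u)‖ ≤ 1 from by
        rw [norm_mul, norm_mul]
        have h0 := b0.le x; have h1 := b1.le (x + u); have h2 := b2.le (x + ω * u)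
        have n0 := norm_nonneg (f0 x); have n1 := norm_nonneg (f1 (x+u)); have n2 := norm_nonneg (f2 (x + ω*u))
        calc _ ≤ (1:ℝ) * 1 * 1 := by gcongr
          _ = 1 := by norm_num))
    simpa using this
  set S := {u : ℂ | 1 ≤ normSq u ∧ normSq u ≤ 1 + 1 / N} with hS
  have hSm : MeasurableSet S := by
    have hm : Measurable (fun u : ℂ => normSq u) := continuous_normSq.measurable
    exact (measurableSet_le measurable_const hm).inter (measurableSet_le hm measurable_const)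
  have e1 : TK ω (kN N) f0 f1 f2 = ∫ u in S, (kN N u : ℂ) * ∫ x : ℂ, f0 x * f1 (x + u) * f2 (x + ω * u) := by
    unfold TK
    symm
    apply setIntegral_eq_integral_of_forall_compl_eq_zero
    intro u hu
    have : kN N u = 0 := by unfold kN; rw [if_neg]; exact hu
    rw [this]; simp
  have hSfin : volume S < ⊤ := by
    apply lt_of_le_of_lt (measure_mono (t := Metric.closedBall (0:ℂ) 2) ?_) (isCompact_closedBall (0:ℂ) 2).measure_lt_top
    intro u hu
    rw [mem_closedBall_zero_iff]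
    by_contra hc
    push Not at hc
    have h1 := hu.2
    rw [normSq_eq_norm_sq] at h1
    have : 1 / N ≤ 1 := by rw [div_le_one hN0]; exact hN
    nlinarith
  rw [e1]
  have h2 := norm_setIntegral_le_of_norm_le_const hSfin
    (fun u (_ : u ∈ S) => (show ‖(kN N u : ℂ) * ∫ x : ℂ, f0 x * f1 (x + u) * f2 (x + ω * u)‖ ≤ N * B from by
      rw [norm_mul, norm_real]
      exact mul_le_mul (C3_kN_bd N hN u) (hin u) (norm_nonneg _) (by linarith)))
  calc _ ≤ N * B * volume.real S := h2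
    _ ≤ N * B * (Real.pi / N) := by
        apply mul_le_mul_of_nonneg_left (C3_annulus N hN) (by positivity)
    _ = Real.pi * B := by field_simp
    _ ≤ Real.pi * (B + 1) := by
        apply mul_le_mul_of_nonneg_left (by linarith) Real.pi_pos.le

/-! ## Section 8 -/
theorem KDgeom (ω : ℂ) (h0 : ω.im ≠ 0) (h1 : ω.re ≠ 0) (h2 : ω.re ≠ 1) (R : ℝ) :
    ∃ C q : ℝ, 0 < C ∧ 0 < q ∧ q < 1 ∧ ∀ k : ℕ, ∀ f0 f1 f2 : ℂ → ℂ, BF R f0 → BF R f1 → BF R f2 →
    ‖TK ω (kN (2 ^ (k + 1))) f0 f1 f2 - TK ω (kN (2 ^ k)) f0 f1 f2‖ ≤ C * q ^ k := by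
  obtain ⟨n, hn, H⟩ := KD ω h0 h1 h2 R
  obtain ⟨V, hV, HV⟩ := C3_triv ω R
  set s : ℝ := Real.sqrt (1 / 2) with hs
  have hs0 : 0 < s := Real.sqrt_pos.mpr (by norm_num)
  have hs2 : s ^ 2 = 1 / 2 := Real.sq_sqrt (by norm_num)
  have hs1 : s < 1 := by nlinarith
  set q : ℝ := s ^ ((n : ℝ)⁻¹) with hq
  have hn0 : (n : ℝ) ≠ 0 := by positivity
  have hq0 : 0 < q := Real.rpow_pos_of_pos hs0 _
  have hqn : q ^ n = s := by
    rw [hq, ← Real.rpow_natCast, ← Real.rpow_mul hs0.le, inv_mul_cancel₀ hn0, Real.rpow_one]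
  have hq1 : q < 1 := Real.rpow_lt_one hs0.le hs1 (by positivity)
  refine ⟨1 + 4 * V, q, by positivity, hq0, hq1, ?_⟩
  intro k f0 f1 f2 b0 b1 b2
  have h2k : (1:ℝ) ≤ 2 ^ k := one_le_pow₀ (by norm_num)
  have e := C3_diff ω R f0 f1 f2 b0 b1 b2 (2 ^ k) h2k
  have e2 : (2:ℝ) * 2 ^ k = 2 ^ (k + 1) := by rw [pow_succ]; ring
  rw [e2] at e
  have er : Real.sqrt (1 / 2 ^ k) = s ^ k := by
    rw [hs]
    rw [← hs, ← Real.sqrt_sq (pow_nonneg hs0.le k)]
    congr 1
    rw [← pow_mul, mul_comm k 2, pow_mul, hs2, div_pow, one_pow]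
  rw [er] at e
  set v := ‖TK ω (kN (2 ^ (k + 1))) f0 f1 f2 - TK ω (kN (2 ^ k)) f0 f1 f2‖ with hv
  have hve : v = ‖TK ω (kD (s ^ k)) f0 f1 f2‖ := by rw [hv, e]
  have hv0 : 0 ≤ v := norm_nonneg _
  have hqk : 0 < q ^ k := pow_pos hq0 k
  have hr0 : 0 < s ^ k := pow_pos hs0 k
  have hr1 : s ^ k ≤ 1 := pow_le_one₀ hs0.le hs1.le
  have hrq : s ^ k = (q ^ k) ^ n := by rw [← hqn, ← pow_mul, ← pow_mul, mul_comm]
  rcases le_or_gt v 0 with hv1 | hv1
  · nlinarith [mul_pos hV hqk]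
  rcases le_or_gt v (1 / 2) with hv2 | hv2
  · have h3 := H v hv1 hv2 (s ^ k) hr0 hr1 f0 f1 f2 b0 b1 b2 hve.le
    rw [hrq] at h3
    have h4 : v ≤ q ^ k := le_of_pow_le_pow_left₀ (by omega) hqk.le h3
    nlinarith [mul_pos hV hqk]
  · have h3 := H (1 / 2) (by norm_num) le_rfl (s ^ k) hr0 hr1 f0 f1 f2 b0 b1 b2 (by rw [← hve]; exact hv2.le)
    rw [hrq] at h3
    have h4 : 1 / 2 ≤ q ^ k := le_of_pow_le_pow_left₀ (by omega) hqk.le h3
    have h5 : v ≤ 2 * V := by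
      calc v ≤ ‖TK ω (kN (2 ^ (k + 1))) f0 f1 f2‖ + ‖TK ω (kN (2 ^ k)) f0 f1 f2‖ := norm_sub_le _ _
        _ ≤ V + V := add_le_add (HV _ (one_le_pow₀ (by norm_num)) f0 f1 f2 b0 b1 b2) (HV _ h2k f0 f1 f2 b0 b1 b2)
        _ = 2 * V := by ring
    nlinarith

end TriDil
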