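import Pool.Agent.TriDil.Basic7
import Pool.Agent.TriDil.C3
import Pool.Agent.TriDil.A10
import Pool.Agent.TriDil.A11
set_option autoImplicit false
open MeasureTheory Complex Set
namespace TriDil
open scoped ComplexConjugate

theorem C4_unit (ω : ℂ) (h0 : ω.im ≠ 0) (h1 : ω.re ≠ 0) (h2 : ω.re ≠ 1) (R : ℝ) (ν' : ℝ) (hν : 0 < ν') :
    ∃ ν : ℝ, 0 < ν ∧ ∀ f0 f1 f2 : ℂ → ℂ, BF R f0 → BF R f1 → BF R f2 →
    ((∀ ξ, ‖FT f1 ξ‖ ≤ ν) ∨ (∀ ξ, ‖FT f2 ξ‖ ≤ ν)) → ‖Lam ω 1 f0 f1 f2‖ ≤ ν' := by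
  obtain ⟨C, q, hC, hq0, hq1, H⟩ := KDgeom ω h0 h1 h2 R
  obtain ⟨C1, hC1, HB1⟩ := box_bound1 ω h0 R
  obtain ⟨C2, hC2, HB2⟩ := box_bound2 ω h0 R
  have hq1' : 0 < 1 - q := by linarith
  -- choose k
  obtain ⟨k, hk⟩ : ∃ k : ℕ, C * q ^ k / (1 - q) ≤ ν' / 8 := by
    have : Filter.Tendsto (fun k : ℕ => C * q ^ k / (1 - q)) Filter.atTop (nhds (C * 0 / (1 - q))) :=
      ((tendsto_pow_atTop_nhds_zero_of_lt_one hq0.le hq1).const_mul C).div_const _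
    rw [mul_zero, zero_div] at this
    obtain ⟨k, hk⟩ := (this.eventually (gt_mem_nhds (by positivity : (0:ℝ) < ν' / 8))).exists
    exact ⟨k, hk.le⟩
  set C3 := max C1 C2 with hC3
  have hC3p : 0 < C3 := lt_max_of_lt_left hC1
  set δ := min 1 (ν' / (16 * (C3 * 2 ^ k))) with hδ
  have hδ0 : 0 < δ := lt_min one_pos (by positivity)
  have hδ1 : δ ≤ 1 := min_le_left _ _
  set ν := ν' * δ ^ 4 / (16 * (C3 * 2 ^ k)) with hνd
  have hν0 : 0 < ν := by positivity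
  refine ⟨ν, hν0, ?_⟩
  intro f0 f1 f2 b0 b1 b2 hu
  set M : ℕ → ℂ := fun k => TK ω (kN (2 ^ k)) f0 f1 f2 with hM
  have hstep : ∀ j, dist (M j) (M (j + 1)) ≤ C * q ^ j := by
    intro j
    rw [dist_comm, dist_eq_norm]
    exact H j f0 f1 f2 b0 b1 b2
  have hlim := lim_kN ω R f0 f1 f2 b0 b1 b2
  have hdist := dist_le_of_le_geometric_of_tendsto q C hq1 hstep hlim k
  have hMk : ‖M k‖ ≤ ν' / 8 := by
    have h4 : ‖M k‖ ≤ C3 * 2 ^ k * ν / δ ^ 4 + C3 * 2 ^ k * δ := by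
      rcases hu with hu | hu
      · calc ‖M k‖ ≤ C1 * 2 ^ k * ν / δ ^ 4 + C1 * 2 ^ k * δ := HB1 k δ hδ0 hδ1 f0 f1 f2 b0 b1 b2 ν hu
          _ ≤ _ := by
            have : C1 ≤ C3 := le_max_left _ _
            gcongr
      · calc ‖M k‖ ≤ C2 * 2 ^ k * ν / δ ^ 4 + C2 * 2 ^ k * δ := HB2 k δ hδ0 hδ1 f0 f1 f2 b0 b1 b2 ν hu
          _ ≤ _ := by
            have : C2 ≤ C3 := le_max_right _ _
            gcongr
    have h5 : C3 * 2 ^ k * ν / δ ^ 4 = ν' / 16 := by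
      rw [hνd]; field_simp
    have h6 : C3 * 2 ^ k * δ ≤ ν' / 16 := by
      calc C3 * 2 ^ k * δ ≤ C3 * 2 ^ k * (ν' / (16 * (C3 * 2 ^ k))) := by
            gcongr; exact min_le_right _ _
        _ = ν' / 16 := by field_simp
    linarith
  have h7 : ‖(1 / 2 : ℂ) * Lam ω 1 f0 f1 f2‖ ≤ ν' / 4 := by
    have h8 : ‖(1 / 2 : ℂ) * Lam ω 1 f0 f1 f2‖ ≤ ‖M k‖ + dist (M k) (1 / 2 * Lam ω 1 f0 f1 f2) := by
      rw [dist_comm, dist_eq_norm]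
      calc ‖(1 / 2 : ℂ) * Lam ω 1 f0 f1 f2‖ = ‖M k + ((1 / 2 : ℂ) * Lam ω 1 f0 f1 f2 - M k)‖ := by congr 1; ring
        _ ≤ _ := norm_add_le _ _
    linarith
  rw [norm_mul] at h7
  have h9 : ‖(1 / 2 : ℂ)‖ = 1 / 2 := by norm_num
  rw [h9] at h7
  linarith

/-- change of variables `x = z + l y` -/
theorem C4_cov (F : ℂ → ℂ) (z : ℂ) (l : ℝ) (hl : 0 < l) :
    ∫ x : ℂ, F x = (l ^ 2 : ℝ) * ∫ y : ℂ, F (z + l * y) := by
  have h1 : ∫ y : ℂ, F (z + l • y) = |(l ^ Module.finrank ℝ ℂ)⁻¹| • ∫ x : ℂ, F (z + x) :=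
    Measure.integral_comp_smul volume (fun x => F (z + x)) l
  have h2 : ∫ x : ℂ, F (z + x) = ∫ x : ℂ, F x := integral_add_left_eq_self F z
  have h3 : ∀ y : ℂ, l • y = (l : ℂ) * y := fun y => Complex.real_smul
  simp only [h3] at h1
  rw [h1, h2, Complex.finrank_real_complex, abs_of_pos (by positivity), Complex.real_smul]
  have : (l : ℂ) ≠ 0 := by exact_mod_cast hl.ne'
  push_cast
  field_simp

theorem thmA (ω : ℂ) (h0 : ω.im ≠ 0) (h1 : ω.re ≠ 0) (h2 : ω.re ≠ 1) (R : ℝ) (ν' : ℝ) (hν : 0 < ν') :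
    ∃ ν : ℝ, 0 < ν ∧ ∀ l : ℝ, 0 < l → ∀ z : ℂ, ∀ f0 f1 f2 : ℂ → ℂ,
    Measurable f0 → Measurable f1 → Measurable f2 → (∀ x, ‖f0 x‖ ≤ 1) → (∀ x, ‖f1 x‖ ≤ 1) →
    (∀ x, ‖f2 x‖ ≤ 1) → (∀ x, R * l < ‖x - z‖ → f0 x = 0) → (∀ x, R * l < ‖x - z‖ → f1 x = 0) →
    (∀ x, R * l < ‖x - z‖ → f2 x = 0) →
    ((∀ ξ, ‖FT f1 ξ‖ ≤ ν * l ^ 2) ∨ (∀ ξ, ‖FT f2 ξ‖ ≤ ν * l ^ 2)) →
    ‖Lam ω l f0 f1 f2‖ ≤ ν' * l ^ 2 := by
  obtain ⟨ν, hν0, H⟩ := C4_unit ω h0 h1 h2 R ν' hν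
  refine ⟨ν, hν0, ?_⟩
  intro l hl z f0 f1 f2 m0 m1 m2 c0 c1 c2 s0 s1 s2 hu
  have hlc : (l : ℂ) ≠ 0 := by exact_mod_cast hl.ne'
  have hBF : ∀ f : ℂ → ℂ, Measurable f → (∀ x, ‖f x‖ ≤ 1) → (∀ x, R * l < ‖x - z‖ → f x = 0) →
      BF R (fun y => f (z + l * y)) := by
    intro f m c s
    refine ⟨by fun_prop, fun x => c _, fun x hx => s _ ?_⟩
    have : z + l * x - z = l * x := by ring
    rw [this, norm_mul, norm_real, Real.norm_eq_abs, abs_of_pos hl, mul_comm]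
    exact mul_lt_mul_of_pos_left hx hl
  have hFT : ∀ f : ℂ → ℂ, (∀ ξ, ‖FT f ξ‖ ≤ ν * l ^ 2) → ∀ ξ, ‖FT (fun y => f (z + l * y)) ξ‖ ≤ ν := by
    intro f hf ξ
    have e := C4_cov (fun x => f x * Complex.exp (-(ip (ξ / l) x : ℂ) * I)) z l hl
    have e2 : ∀ y : ℂ, f (z + l * y) * Complex.exp (-(ip (ξ / l) (z + l * y) : ℂ) * I)
        = Complex.exp (-(ip (ξ / l) z : ℂ) * I) * (f (z + l * y) * Complex.exp (-(ip ξ y : ℂ) * I)) := by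
      intro y
      have : ip (ξ / l) (z + l * y) = ip (ξ / l) z + ip ξ y := by
        rw [ip_add_right, ip_mul_real_right]
        congr 1
        rw [← ip_mul_real_left]
        congr 1
        field_simp
      rw [this]
      have : -((ip (ξ / l) z + ip ξ y : ℝ) : ℂ) * I = -(ip (ξ / l) z : ℂ) * I + -(ip ξ y : ℂ) * I := by
        push_cast; ring
      rw [this, Complex.exp_add]; ring
    simp only [e2] at e
    rw [integral_const_mul] at e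
    have e3 : FT f (ξ / l) = (l ^ 2 : ℝ) * (Complex.exp (-(ip (ξ / l) z : ℂ) * I) * FT (fun y => f (z + l * y)) ξ) := e
    have hn : ‖Complex.exp (-(ip (ξ / l) z : ℂ) * I)‖ = 1 := by
      have : -(ip (ξ / l) z : ℂ) * I = ((-(ip (ξ / l) z) : ℝ) : ℂ) * I := by push_cast; ring
      rw [this, Complex.norm_exp_ofReal_mul_I]
    have h5 := hf (ξ / l)
    rw [e3, norm_mul, norm_mul, hn, one_mul, norm_real, Real.norm_eq_abs, abs_of_pos (by positivity)] at h5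
    rw [mul_comm] at h5
    exact le_of_mul_le_mul_right h5 (by positivity)
  have hlam : Lam ω l f0 f1 f2 = (l ^ 2 : ℝ) * Lam ω 1 (fun y => f0 (z + l * y)) (fun y => f1 (z + l * y))
      (fun y => f2 (z + l * y)) := by
    unfold Lam
    rw [← intervalIntegral.integral_const_mul]
    congr 1
    funext θ
    rw [C4_cov _ z l hl]
    congr 2
    funext y
    have a1 : z + (l:ℂ) * y + (l:ℂ) * U θ = z + (l:ℂ) * (y + ((1:ℝ):ℂ) * U θ) := by push_cast; ring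
    have a2 : z + (l:ℂ) * y + (l:ℂ) * ω * U θ = z + (l:ℂ) * (y + ((1:ℝ):ℂ) * ω * U θ) := by push_cast; ring
    rw [a1, a2]
  rw [hlam, norm_mul, norm_real, Real.norm_eq_abs, abs_of_pos (by positivity), mul_comm]
  apply mul_le_mul_of_nonneg_right _ (by positivity)
  apply H _ _ _ (hBF f0 m0 c0 s0) (hBF f1 m1 c1 s1) (hBF f2 m2 c2 s2)
  rcases hu with hu | hu
  · exact Or.inl (hFT f1 hu)
  · exact Or.inr (hFT f2 hu)

end TriDil
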