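import Pool.Agent.TriDil.Defs3
import Pool.Agent.TriDil.D0
import Pool.Agent.TriDil.D2
import Pool.Agent.TriDil.C4
set_option autoImplicit false
open MeasureTheory Complex Set
namespace TriDil
open ComplexConjugate

/-! ### elementary facts -/

theorem D3_norm_ee (t : ℝ) : ‖ee t‖ = 1 := by
  unfold ee
  have : (2 * (Real.pi : ℂ) * (t : ℂ) * I) = ((2 * Real.pi * t : ℝ) : ℂ) * I := by push_cast; ring
  rw [this, Complex.norm_exp_ofReal_mul_I]

theorem D3_ee_add (s t : ℝ) : ee (s + t) = ee s * ee t := by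
  unfold ee
  rw [← Complex.exp_add]
  congr 1
  push_cast
  ring

theorem D3_cont_ee : Continuous ee := by
  unfold ee
  fun_prop

theorem D3_meas_ip (b : ℂ) : Measurable (fun x : ℂ => ip b x) := by
  unfold ip
  fun_prop

theorem D3_meas_ee_ip (b : ℂ) : Measurable (fun x : ℂ => ee (ip b x)) :=
  D3_cont_ee.measurable.comp (D3_meas_ip b)

theorem D3_meas_cell (d : ℝ) : Measurable (cell d) := by
  unfold cell
  exact ((Complex.measurable_re.div_const d).floor).prodMk ((Complex.measurable_im.div_const d).floor)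

/-- neighbours of a cell -/
noncomputable def D3_nb (r : ℕ) (c : ℤ × ℤ) : Finset (ℤ × ℤ) :=
  (Finset.Icc (c.1 - r) (c.1 + r)) ×ˢ (Finset.Icc (c.2 - r) (c.2 + r))

theorem D3_mem_nb (r : ℕ) (c c' : ℤ × ℤ) : c' ∈ D3_nb r c ↔
    (c.1 - r ≤ c'.1 ∧ c'.1 ≤ c.1 + r) ∧ (c.2 - r ≤ c'.2 ∧ c'.2 ≤ c.2 + r) := by
  unfold D3_nb
  rw [Finset.mem_product, Finset.mem_Icc, Finset.mem_Icc]

theorem D3_nb_card (r : ℕ) (c : ℤ × ℤ) : ((D3_nb r c).card : ℝ) = (2 * r + 1) ^ 2 := by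
  unfold D3_nb
  rw [Finset.card_product, Int.card_Icc, Int.card_Icc]
  have h1 : (c.1 + r + 1 - (c.1 - r)).toNat = 2 * r + 1 := by omega
  have h2 : (c.2 + r + 1 - (c.2 - r)).toNat = 2 * r + 1 := by omega
  rw [h1, h2]
  push_cast
  ring

theorem D3_floor (r : ℕ) (y t : ℝ) (ht : |t| ≤ r) : ⌊y⌋ - r ≤ ⌊y + t⌋ ∧ ⌊y + t⌋ ≤ ⌊y⌋ + r := by
  have h := abs_le.1 ht
  constructor
  · have : ⌊y - (r : ℤ)⌋ ≤ ⌊y + t⌋ := Int.floor_le_floor (by push_cast; linarith)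
    rwa [Int.floor_sub_intCast] at this
  · have : ⌊y + t⌋ ≤ ⌊y + (r : ℤ)⌋ := Int.floor_le_floor (by push_cast; linarith)
    rwa [Int.floor_add_intCast] at this

/-- a point moves to a neighbouring cell -/
theorem D3_cell_add (d : ℝ) (hd : 0 < d) (r : ℕ) (x v : ℂ) (hv : ‖v‖ ≤ r * d) :
    cell d (x + v) ∈ D3_nb r (cell d x) := by
  rw [D3_mem_nb]
  simp only [cell, add_re, add_im, add_div]
  constructor
  · apply D3_floor
    rw [abs_div, abs_of_pos hd, div_le_iff₀ hd]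
    exact (abs_re_le_norm v).trans hv
  · apply D3_floor
    rw [abs_div, abs_of_pos hd, div_le_iff₀ hd]
    exact (abs_im_le_norm v).trans hv

/-- translation by a lattice vector -/
theorem D3_cell_lat (d : ℝ) (hd : 0 < d) (x : ℂ) (s : ℤ × ℤ) :
    cell d (x + ⟨d * s.1, d * s.2⟩) = cell d x + s := by
  unfold cell
  ext
  · simp only [add_re, Prod.fst_add, add_div]
    rw [mul_div_cancel_left₀ _ hd.ne', Int.floor_add_intCast]
  · simp only [add_im, Prod.snd_add, add_div]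
    rw [mul_div_cancel_left₀ _ hd.ne', Int.floor_add_intCast]

/-- neighbouring cells are in a ball -/
theorem D3_supp (d : ℝ) (hd : 0 < d) (r : ℕ) (x : ℂ) (c : ℤ × ℤ) (h : cell d x ∈ D3_nb r c) :
    ‖x - ⟨d * c.1, d * c.2⟩‖ ≤ 2 * (r + 1) * d := by
  rw [D3_mem_nb] at h
  obtain ⟨⟨h1, h2⟩, h3, h4⟩ := h
  simp only [cell] at h1 h2 h3 h4
  have key : ∀ (y : ℝ) (k : ℤ), k - r ≤ ⌊y / d⌋ → ⌊y / d⌋ ≤ k + r → |y - d * k| ≤ (r + 1) * d := by
    intro y k hk1 hk2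
    have e1 : ((k : ℝ) - r) ≤ y / d := by
      have := Int.floor_le (y / d)
      have h5 : (((k - r : ℤ)) : ℝ) ≤ (⌊y / d⌋ : ℝ) := by exact_mod_cast hk1
      push_cast at h5
      linarith
    have e2 : y / d < (k : ℝ) + r + 1 := by
      have := Int.lt_floor_add_one (y / d)
      have h5 : (⌊y / d⌋ : ℝ) ≤ (((k + r : ℤ)) : ℝ) := by exact_mod_cast hk2
      push_cast at h5
      linarith
    rw [le_div_iff₀ hd] at e1
    rw [div_lt_iff₀ hd] at e2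
    rw [abs_le]
    constructor
    · nlinarith
    · nlinarith
  have k1 := key x.re c.1 h1 h2
  have k2 := key x.im c.2 h3 h4
  have k3 := norm_le_abs_re_add_abs_im (x - ⟨d * c.1, d * c.2⟩)
  simp only [sub_re, sub_im] at k3
  linarith

/-- the function `F` restricted to the neighbours of `c`, times a character -/
noncomputable def D3_f (a : ℤ) (r : ℕ) (c : ℤ × ℤ) (F : ℂ → ℝ) (b : ℂ) (x : ℂ) : ℂ :=
  ((if cell ((2 : ℝ) ^ a) x ∈ D3_nb r c then F x else 0 : ℝ) : ℂ) * ee (ip b x)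

theorem D3_f_meas (a : ℤ) (r : ℕ) (c : ℤ × ℤ) (F : ℂ → ℝ) (hF : Measurable F) (b : ℂ) :
    Measurable (D3_f a r c F b) := by
  unfold D3_f
  refine Measurable.mul (Complex.measurable_ofReal.comp (Measurable.ite ?_ hF measurable_const))
    (D3_meas_ee_ip b)
  exact (D3_meas_cell _) (MeasurableSet.of_discrete (s := {c' | c' ∈ D3_nb r c}))

theorem D3_f_le (a : ℤ) (r : ℕ) (c : ℤ × ℤ) (F : ℂ → ℝ) (hF : ∀ x, |F x| ≤ 1) (b x : ℂ) :
    ‖D3_f a r c F b x‖ ≤ 1 := by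
  unfold D3_f
  rw [norm_mul, D3_norm_ee, mul_one, norm_real, Real.norm_eq_abs]
  split_ifs
  · exact hF x
  · simp

theorem D3_f_supp (a : ℤ) (r : ℕ) (c : ℤ × ℤ) (F : ℂ → ℝ) (b x : ℂ) {l : ℝ} (hl : (2 : ℝ) ^ a ≤ l)
    (h : (2 * (r + 1)) * l < ‖x - ⟨(2 : ℝ) ^ a * c.1, (2 : ℝ) ^ a * c.2⟩‖) :
    D3_f a r c F b x = 0 := by
  unfold D3_f
  rw [if_neg, ofReal_zero, zero_mul]
  intro hx
  have h1 := D3_supp _ (by positivity) r x c hx
  have h2 : (2 * ((r : ℝ) + 1)) * (2 : ℝ) ^ a ≤ 2 * (r + 1) * l := by gcongr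
  linarith

theorem D3_integrable_ind (a : ℤ) (c : ℤ × ℤ) (G : ℂ → ℂ) (hG : Measurable G) (hG1 : ∀ x, ‖G x‖ ≤ 1) :
    Integrable ((Sq a c).indicator G) := by
  rw [integrable_indicator_iff (Sq_meas a c)]
  exact Measure.integrableOn_of_bounded (M := 1) (Sq_fin a c).ne hG.aestronglyMeasurable
    (Filter.Eventually.of_forall hG1)

/-- the Fourier transform of `D3_f` is small if `F` is locally uniform -/
theorem D3_f_FT (a : ℤ) (r : ℕ) (c : ℤ × ℤ) (F : ℂ → ℝ) (hF : Measurable F) (hF1 : ∀ x, |F x| ≤ 1)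
    (b : ℂ) (ν1 : ℝ) (hu : ∀ c' ∈ D3_nb r c, unif a ν1 F c') (ξ : ℂ) :
    ‖FT (D3_f a r c F b) ξ‖ ≤ (2 * r + 1) ^ 2 * (ν1 * ((2 : ℝ) ^ a) ^ 2) := by
  have hsum : ∀ x : ℂ, D3_f a r c F b x * Complex.exp (-(ip ξ x : ℂ) * I) =
      ∑ c' ∈ D3_nb r c, (((Sq a c').indicator F x : ℝ) : ℂ) *
        Complex.exp (-(ip (ξ - (2 * Real.pi : ℝ) * b) x : ℂ) * I) := by
    intro x
    have e1 : ee (ip b x) * Complex.exp (-(ip ξ x : ℂ) * I) =
        Complex.exp (-(ip (ξ - (2 * Real.pi : ℝ) * b) x : ℂ) * I) := by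
      unfold ee
      rw [← Complex.exp_add, ip_sub_left, ip_mul_real_left]
      congr 1
      push_cast
      ring
    unfold D3_f
    rw [mul_assoc, e1, ← Finset.sum_mul, ← ofReal_sum]
    congr 2
    by_cases hx : cell ((2 : ℝ) ^ a) x ∈ D3_nb r c
    · rw [if_pos hx, Finset.sum_eq_single_of_mem _ hx]
      · rw [indicator_of_mem]; exact rfl
      · intro c' _ hc'
        rw [indicator_of_notMem]
        intro h
        exact hc' h.symm
    · rw [if_neg hx, Finset.sum_eq_zero]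
      intro c' hc'
      rw [indicator_of_notMem]
      intro h
      have h' : cell ((2 : ℝ) ^ a) x = c' := h
      rw [h'] at hx
      exact hx hc'
  unfold FT
  rw [integral_congr_ae (Filter.Eventually.of_forall hsum), integral_finsetSum]
  · refine (norm_sum_le _ _).trans ?_
    refine (Finset.sum_le_sum (fun c' hc' => hu c' hc' (ξ - (2 * Real.pi : ℝ) * b))).trans ?_
    rw [Finset.sum_const, nsmul_eq_mul, D3_nb_card]
  · intro c' _
    have h1 : (fun x : ℂ => (((Sq a c').indicator F x : ℝ) : ℂ) *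
        Complex.exp (-(ip (ξ - (2 * Real.pi : ℝ) * b) x : ℂ) * I)) =
        (Sq a c').indicator (fun x : ℂ => (F x : ℂ) *
          Complex.exp (-(ip (ξ - (2 * Real.pi : ℝ) * b) x : ℂ) * I)) := by
      funext x
      by_cases hx : x ∈ Sq a c'
      · rw [indicator_of_mem hx, indicator_of_mem hx]
      · rw [indicator_of_notMem hx, indicator_of_notMem hx, ofReal_zero, zero_mul]
    rw [h1]
    apply D3_integrable_ind
    · refine Measurable.mul (Complex.measurable_ofReal.comp hF) ?_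
      have := D3_meas_ip (ξ - (2 * Real.pi : ℝ) * b)
      fun_prop
    · intro x
      rw [norm_mul, norm_real, Real.norm_eq_abs, ← ofReal_neg, Complex.norm_exp_ofReal_mul_I, mul_one]
      exact hF1 x

/-- squares outside the big square are uniform -/
theorem D3_unif_out (a N : ℤ) (h : a ≤ N) (c c' : ℤ × ℤ) (F : ℂ → ℝ) (hF : ∀ x, x ∉ Sq N c → F x = 0)
    (ν1 : ℝ) (hν : 0 < ν1) (hc : c' ∉ subs a N c) : unif a ν1 F c' := by
  intro ξ
  have h0 : (fun x => (((Sq a c').indicator F x : ℝ) : ℂ)) = fun _ => 0 := by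
    funext x
    by_cases hx : x ∈ Sq a c'
    · rw [indicator_of_mem hx, hF, ofReal_zero]
      intro hx2
      rw [mem_subs a N h] at hx2
      have h' : cell ((2 : ℝ) ^ a) x = c' := hx
      rw [h'] at hx2
      exact hc hx2
    · rw [indicator_of_notMem hx, ofReal_zero]
  rw [h0]
  unfold FT
  simp only [zero_mul, integral_zero, norm_zero]
  positivity

/-- few cells have a non-uniform neighbour -/
theorem D3_bad (a N : ℤ) (h : a ≤ N) (c : ℤ × ℤ) (r : ℕ) (F : ℂ → ℝ) (hF : ∀ x, x ∉ Sq N c → F x = 0)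
    (ν1 : ℝ) (hν : 0 < ν1)
    (hu : volume.real {x | x ∈ Sq N c ∧ ¬ unif a ν1 F (cell ((2 : ℝ) ^ a) x)} ≤
      ν1 * volume.real (Sq N c)) :
    volume.real {x | x ∈ Sq N c ∧ ∃ c' ∈ D3_nb r (cell ((2 : ℝ) ^ a) x), ¬ unif a ν1 F c'} ≤
      (2 * r + 1) ^ 2 * (ν1 * volume.real (Sq N c)) := by
  have hd : (0 : ℝ) < (2 : ℝ) ^ a := by positivity
  set B : Set ℂ := {x | x ∈ Sq N c ∧ ¬ unif a ν1 F (cell ((2 : ℝ) ^ a) x)} with hB
  have hBfin : volume B < ⊤ := (measure_mono (fun x hx => hx.1)).trans_lt (Sq_fin N c)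
  have hsub : {x | x ∈ Sq N c ∧ ∃ c' ∈ D3_nb r (cell ((2 : ℝ) ^ a) x), ¬ unif a ν1 F c'} ⊆
      ⋃ s ∈ D3_nb r 0, (fun x : ℂ => x + ⟨(2 : ℝ) ^ a * (s.1 : ℤ), (2 : ℝ) ^ a * (s.2 : ℤ)⟩) ⁻¹' B := by
    rintro x ⟨_, c', hc', hx⟩
    rw [mem_iUnion₂]
    refine ⟨c' - cell ((2 : ℝ) ^ a) x, ?_, ?_⟩
    · rw [D3_mem_nb] at hc' ⊢
      simp only [Prod.fst_sub, Prod.snd_sub, Prod.fst_zero, Prod.snd_zero]
      omega
    · have h1 := D3_cell_lat _ hd x (c' - cell ((2 : ℝ) ^ a) x)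
      rw [add_sub_cancel] at h1
      simp only [mem_preimage, hB, mem_ofPred_eq]
      rw [h1]
      refine ⟨?_, hx⟩
      rw [mem_subs a N h, h1]
      by_contra hcon
      exact hx (D3_unif_out a N h c c' F hF ν1 hν hcon)
  have hvol : ∀ s : ℤ × ℤ, volume ((fun x : ℂ => x + ⟨(2 : ℝ) ^ a * (s.1 : ℤ), (2 : ℝ) ^ a * (s.2 : ℤ)⟩) ⁻¹' B)
      = volume B := fun s => measure_preimage_add_right _ _ _
  have hfin : volume (⋃ s ∈ D3_nb r 0, (fun x : ℂ => x + ⟨(2 : ℝ) ^ a * (s.1 : ℤ), (2 : ℝ) ^ a * (s.2 : ℤ)⟩) ⁻¹' B)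
      < ⊤ := by
    refine (measure_biUnion_finset_le _ _).trans_lt ?_
    rw [ENNReal.sum_lt_top]
    intro s _
    rw [hvol]
    exact hBfin
  refine (measureReal_mono hsub hfin.ne).trans ?_
  refine (measureReal_biUnion_finset_le _ _).trans ?_
  have h2 : ∀ s ∈ D3_nb r 0, volume.real ((fun x : ℂ => x + ⟨(2 : ℝ) ^ a * (s.1 : ℤ), (2 : ℝ) ^ a * (s.2 : ℤ)⟩) ⁻¹' B)
      ≤ ν1 * volume.real (Sq N c) := by
    intro s _
    rw [measureReal_def, hvol]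
    exact hu
  refine (Finset.sum_le_sum h2).trans ?_
  rw [Finset.sum_const, nsmul_eq_mul, D3_nb_card]

/-! ### the weights -/

theorem D3_wt_le (ω : ℂ) (K m : ℕ) (ξ : ℕ → ℂ) (l θ : ℝ) :
    wt ω K m ξ l θ ≤ ((2 * m + 1) ^ 2) ^ K := by
  unfold wt
  have h : ∏ k : Fin K, GM m (ip (ξ k) (l * U θ)) * GM m (ip (ξ k) (l * ω * U θ)) ≤
      ∏ _k : Fin K, ((2 * (m : ℝ) + 1) ^ 2) := by
    apply Finset.prod_le_prod
    · intro k _
      exact mul_nonneg (GM_bd m _).1 (GM_bd m _).1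
    · intro k _
      rw [sq]
      exact mul_le_mul (GM_bd m _).2 (GM_bd m _).2 (GM_bd m _).1 (by positivity)
  refine h.trans ?_
  rw [Finset.prod_const, Finset.card_univ, Fintype.card_fin]

theorem D3_wt_abs (ω : ℂ) (K m : ℕ) (ξ : ℕ → ℂ) (l θ : ℝ) :
    |wt ω K m ξ l θ| ≤ ((2 * m + 1) ^ 2) ^ K := by
  rw [abs_of_nonneg (wt_nonneg ω K m ξ l θ)]
  exact D3_wt_le ω K m ξ l θ

/-- the integrand -/
noncomputable def D3_G (ω : ℂ) (l : ℝ) (F0 F1 F2 : ℂ → ℝ) (θ : ℝ) (x : ℂ) : ℝ :=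
  F0 x * F1 (x + l * U θ) * F2 (x + l * ω * U θ)

theorem D3_G_meas (ω : ℂ) (l : ℝ) (F0 F1 F2 : ℂ → ℝ) (h0 : Measurable F0) (h1 : Measurable F1)
    (h2 : Measurable F2) : Measurable (Function.uncurry (D3_G ω l F0 F1 F2)) := by
  unfold D3_G Function.uncurry
  have hU := measurable_U
  refine Measurable.mul (Measurable.mul (h0.comp measurable_snd) (h1.comp ?_)) (h2.comp ?_)
  · exact measurable_snd.add ((hU.comp measurable_fst).const_mul _)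
  · exact measurable_snd.add ((hU.comp measurable_fst).const_mul _)

theorem D3_G_le (ω : ℂ) (l : ℝ) (F0 F1 F2 : ℂ → ℝ) (h0 : ∀ x, |F0 x| ≤ 1) (h1 : ∀ x, |F1 x| ≤ 1)
    (h2 : ∀ x, |F2 x| ≤ 1) (θ : ℝ) (x : ℂ) : |D3_G ω l F0 F1 F2 θ x| ≤ 1 := by
  unfold D3_G
  rw [abs_mul, abs_mul]
  have e1 := h0 x
  have e2 := h1 (x + l * U θ)
  have e3 := h2 (x + l * ω * U θ)
  have e4 := abs_nonneg (F0 x)
  have e5 := abs_nonneg (F1 (x + l * U θ))
  have e6 := abs_nonneg (F2 (x + l * ω * U θ))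
  have e7 : |F0 x| * |F1 (x + l * U θ)| ≤ 1 := mul_le_one₀ e1 e5 e2
  exact mul_le_one₀ e7 e6 e3

theorem D3_G_int (ω : ℂ) (l : ℝ) (F0 F1 F2 : ℂ → ℝ) (m0 : Measurable F0) (m1 : Measurable F1)
    (m2 : Measurable F2) (h0 : ∀ x, |F0 x| ≤ 1) (h1 : ∀ x, |F1 x| ≤ 1)
    (h2 : ∀ x, |F2 x| ≤ 1) (θ : ℝ) (n : ℤ) (c : ℤ × ℤ) : IntegrableOn (D3_G ω l F0 F1 F2 θ) (Sq n c) := by
  have hm : Measurable (D3_G ω l F0 F1 F2 θ) :=
    (D3_G_meas ω l F0 F1 F2 m0 m1 m2).comp (measurable_const.prodMk measurable_id)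
  exact Measure.integrableOn_of_bounded (M := 1) (Sq_fin n c).ne hm.aestronglyMeasurable
    (Filter.Eventually.of_forall (D3_G_le ω l F0 F1 F2 h0 h1 h2 θ))

/-- inner integral over a square -/
noncomputable def D3_J (ω : ℂ) (l : ℝ) (F0 F1 F2 : ℂ → ℝ) (n : ℤ) (c : ℤ × ℤ) (θ : ℝ) : ℝ :=
  ∫ x in Sq n c, D3_G ω l F0 F1 F2 θ x

theorem D3_J_meas (ω : ℂ) (l : ℝ) (F0 F1 F2 : ℂ → ℝ) (m0 : Measurable F0) (m1 : Measurable F1)
    (m2 : Measurable F2) (n : ℤ) (c : ℤ × ℤ) : Measurable (D3_J ω l F0 F1 F2 n c) := by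
  unfold D3_J
  exact (StronglyMeasurable.integral_prod_right
    (D3_G_meas ω l F0 F1 F2 m0 m1 m2).stronglyMeasurable).measurable

theorem D3_J_le (ω : ℂ) (l : ℝ) (F0 F1 F2 : ℂ → ℝ) (h0 : ∀ x, |F0 x| ≤ 1) (h1 : ∀ x, |F1 x| ≤ 1)
    (h2 : ∀ x, |F2 x| ≤ 1) (n : ℤ) (c : ℤ × ℤ) (θ : ℝ) :
    |D3_J ω l F0 F1 F2 n c θ| ≤ ((2 : ℝ) ^ n) ^ 2 := by
  unfold D3_J
  have h := norm_setIntegral_le_of_norm_le_const (μ := (volume : Measure ℂ)) (s := Sq n c)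
    (f := D3_G ω l F0 F1 F2 θ) (C := 1) (Sq_fin n c)
    (fun x _ => D3_G_le ω l F0 F1 F2 h0 h1 h2 θ x)
  rw [Sq_vol, one_mul] at h
  exact h

theorem D3_wJ_int (ω : ℂ) (K m : ℕ) (ξ : ℕ → ℂ) (l : ℝ) (F0 F1 F2 : ℂ → ℝ) (m0 : Measurable F0)
    (m1 : Measurable F1) (m2 : Measurable F2) (h0 : ∀ x, |F0 x| ≤ 1) (h1 : ∀ x, |F1 x| ≤ 1)
    (h2 : ∀ x, |F2 x| ≤ 1) (n : ℤ) (c : ℤ × ℤ) (s t : ℝ) :
    IntervalIntegrable (fun θ => wt ω K m ξ l θ * D3_J ω l F0 F1 F2 n c θ) volume s t := by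
  rw [intervalIntegrable_iff]
  refine Measure.integrableOn_of_bounded (M := ((2 * m + 1) ^ 2) ^ K * ((2 : ℝ) ^ n) ^ 2) ?_ ?_ ?_
  · rw [Set.uIoc]; simp
  · exact ((wt_continuous ω K m ξ l).measurable.mul
      (D3_J_meas ω l F0 F1 F2 m0 m1 m2 n c)).aestronglyMeasurable
  · refine Filter.Eventually.of_forall fun θ => ?_
    rw [norm_mul, Real.norm_eq_abs, Real.norm_eq_abs]
    exact mul_le_mul (D3_wt_abs ω K m ξ l θ) (D3_J_le ω l F0 F1 F2 h0 h1 h2 n c θ) (abs_nonneg _)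
      (by positivity)

/-- trivial bound -/
theorem D3_triv (ω : ℂ) (K m : ℕ) (ξ : ℕ → ℂ) (l : ℝ) (F0 F1 F2 : ℂ → ℝ) (h0 : ∀ x, |F0 x| ≤ 1)
    (h1 : ∀ x, |F1 x| ≤ 1) (h2 : ∀ x, |F2 x| ≤ 1) (n : ℤ) (c : ℤ × ℤ) :
    |∫ θ in (0 : ℝ)..(2 * Real.pi), wt ω K m ξ l θ * D3_J ω l F0 F1 F2 n c θ| ≤
      (2 * Real.pi * ((2 * m + 1) ^ 2) ^ K) * ((2 : ℝ) ^ n) ^ 2 := by
  have h := intervalIntegral.norm_integral_le_of_norm_le_const (a := 0) (b := 2 * Real.pi)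
    (C := ((2 * m + 1) ^ 2) ^ K * ((2 : ℝ) ^ n) ^ 2)
    (f := fun θ => wt ω K m ξ l θ * D3_J ω l F0 F1 F2 n c θ) (fun θ _ => by
      rw [norm_mul, Real.norm_eq_abs, Real.norm_eq_abs]
      exact mul_le_mul (D3_wt_abs ω K m ξ l θ) (D3_J_le ω l F0 F1 F2 h0 h1 h2 n c θ) (abs_nonneg _)
        (by positivity))
  rw [Real.norm_eq_abs, sub_zero, abs_of_pos (by positivity : (0 : ℝ) < 2 * Real.pi)] at h
  linarith

/-- the first function, cut to the square and multiplied by a character -/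
noncomputable def D3_f0 (a : ℤ) (c : ℤ × ℤ) (F : ℂ → ℝ) (b : ℂ) : ℂ → ℂ :=
  (Sq a c).indicator fun x => (F x : ℂ) * ee (ip b x)

theorem D3_f0_meas (a : ℤ) (c : ℤ × ℤ) (F : ℂ → ℝ) (hF : Measurable F) (b : ℂ) :
    Measurable (D3_f0 a c F b) :=
  Measurable.indicator (Measurable.mul (Complex.measurable_ofReal.comp hF) (D3_meas_ee_ip b))
    (Sq_meas a c)

theorem D3_f0_le (a : ℤ) (c : ℤ × ℤ) (F : ℂ → ℝ) (hF : ∀ x, |F x| ≤ 1) (b x : ℂ) :
    ‖D3_f0 a c F b x‖ ≤ 1 := by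
  unfold D3_f0
  by_cases hx : x ∈ Sq a c
  · rw [indicator_of_mem hx, norm_mul, D3_norm_ee, mul_one, norm_real, Real.norm_eq_abs]
    exact hF x
  · rw [indicator_of_notMem hx, norm_zero]
    exact zero_le_one

theorem D3_f0_supp (a : ℤ) (r : ℕ) (c : ℤ × ℤ) (F : ℂ → ℝ) (b x : ℂ) {l : ℝ} (hl : (2 : ℝ) ^ a ≤ l)
    (h : (2 * (r + 1)) * l < ‖x - ⟨(2 : ℝ) ^ a * c.1, (2 : ℝ) ^ a * c.2⟩‖) :
    D3_f0 a c F b x = 0 := by
  unfold D3_f0
  rw [indicator_of_notMem]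
  intro hx
  have hx' : cell ((2 : ℝ) ^ a) x = c := hx
  have h1 := D3_supp ((2 : ℝ) ^ a) (by positivity) r x c (by
    rw [hx', D3_mem_nb]; omega)
  have h2 : (2 * ((r : ℝ) + 1)) * (2 : ℝ) ^ a ≤ 2 * (r + 1) * l := by gcongr
  linarith

/-- a character times the inner integral is the inner integral of a modulated form -/
theorem D3_char (ω : ℂ) (l : ℝ) (a : ℤ) (c : ℤ × ℤ) (r : ℕ) (hr : l ≤ r * (2 : ℝ) ^ a)
    (hr' : l * ‖ω‖ ≤ r * (2 : ℝ) ^ a) (hl : 0 < l) (F0 F1 F2 : ℂ → ℝ) (b b' : ℂ) (θ : ℝ) :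
    ee (ip (b + conj ω * b') (l * U θ)) * (D3_J ω l F0 F1 F2 a c θ : ℂ) =
      ∫ x : ℂ, D3_f0 a c F0 (-(b + b')) x * D3_f a r c F1 b (x + l * U θ) *
        D3_f a r c F2 b' (x + l * ω * U θ) := by
  have hd : (0 : ℝ) < (2 : ℝ) ^ a := by positivity
  have key : ∀ x : ℂ, D3_f0 a c F0 (-(b + b')) x * D3_f a r c F1 b (x + l * U θ) *
        D3_f a r c F2 b' (x + l * ω * U θ) = (Sq a c).indicator
        (fun x => ee (ip (b + conj ω * b') (l * U θ)) * (D3_G ω l F0 F1 F2 θ x : ℂ)) x := by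
    intro x
    by_cases hx : x ∈ Sq a c
    · have hx' : cell ((2 : ℝ) ^ a) x = c := hx
      have n1 : cell ((2 : ℝ) ^ a) (x + l * U θ) ∈ D3_nb r c := by
        have := D3_cell_add _ hd r x (l * U θ) (by
          rw [norm_mul, norm_U, mul_one, norm_real, Real.norm_eq_abs, abs_of_pos hl]; exact hr)
        rwa [hx'] at this
      have n2 : cell ((2 : ℝ) ^ a) (x + l * ω * U θ) ∈ D3_nb r c := by
        have := D3_cell_add _ hd r x (l * ω * U θ) (by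
          rw [norm_mul, norm_U, mul_one, norm_mul, norm_real, Real.norm_eq_abs, abs_of_pos hl]
          exact hr')
        rwa [hx'] at this
      unfold D3_f0 D3_f D3_G
      rw [indicator_of_mem hx, indicator_of_mem hx, if_pos n1, if_pos n2]
      have e1 : ee (ip (b + conj ω * b') (l * U θ)) =
          ee (ip (-(b + b')) x) * ee (ip b (x + l * U θ)) * ee (ip b' (x + l * ω * U θ)) := by
        rw [← D3_ee_add, ← D3_ee_add]
        congr 1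
        rw [ip_add_left, ip_mul_left, Complex.conj_conj, ip_neg_left, ip_add_left, ip_add_right,
          ip_add_right, show ω * (l * U θ) = l * ω * U θ by ring]
        ring
      rw [e1]
      push_cast
      ring
    · unfold D3_f0
      rw [indicator_of_notMem hx, indicator_of_notMem hx]
      simp
  rw [integral_congr_ae (Filter.Eventually.of_forall key), integral_indicator (Sq_meas a c),
    integral_const_mul]
  congr 1
  unfold D3_J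
  exact integral_complex_ofReal.symm

/-- the bound on a square all of whose neighbours are uniform -/
theorem D3_good (ω : ℂ) (K m : ℕ) (ξ : ℕ → ℂ) (l : ℝ) (hl : 0 < l) (a : ℤ) (c : ℤ × ℤ) (r : ℕ)
    (hr : l ≤ r * (2 : ℝ) ^ a)
    (hr' : l * ‖ω‖ ≤ r * (2 : ℝ) ^ a) (F0 F1 F2 : ℂ → ℝ) (m0 : Measurable F0)
    (m1 : Measurable F1) (m2 : Measurable F2) (h0 : ∀ x, |F0 x| ≤ 1)
    (h1 : ∀ x, |F1 x| ≤ 1) (h2 : ∀ x, |F2 x| ≤ 1) (β : ℝ)
    (hL : ∀ b b' : ℂ, ‖Lam ω l (D3_f0 a c F0 (-(b + b'))) (D3_f a r c F1 b) (D3_f a r c F2 b')‖ ≤ β) :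
    |∫ θ in (0 : ℝ)..(2 * Real.pi), wt ω K m ξ l θ * D3_J ω l F0 F1 F2 a c θ| ≤
      ((2 * m + 1) ^ 2) ^ K * β := by
  set S := Fintype.piFinset (fun _ : Fin K => Finset.Icc (-(m : ℤ)) m) with hS
  have hβ : 0 ≤ β := (norm_nonneg _).trans (hL 0 0)
  have hint : ∀ b b' : ℂ, IntervalIntegrable (fun θ => ee (ip (b + conj ω * b') (l * U θ)) *
      (D3_J ω l F0 F1 F2 a c θ : ℂ)) volume 0 (2 * Real.pi) := by
    intro b b'
    rw [intervalIntegrable_iff]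
    refine Measure.integrableOn_of_bounded (M := ((2 : ℝ) ^ a) ^ 2) ?_ ?_ ?_
    · rw [Set.uIoc]; simp
    · refine (Measurable.mul ?_ (Complex.measurable_ofReal.comp
        (D3_J_meas ω l F0 F1 F2 m0 m1 m2 a c))).aestronglyMeasurable
      refine D3_cont_ee.measurable.comp ((D3_meas_ip _).comp (measurable_U.const_mul _))
    · refine Filter.Eventually.of_forall fun θ => ?_
      rw [norm_mul, D3_norm_ee, one_mul, norm_real]
      exact D3_J_le ω l F0 F1 F2 h0 h1 h2 a c θ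
  have e1 : ((∫ θ in (0 : ℝ)..(2 * Real.pi), wt ω K m ξ l θ * D3_J ω l F0 F1 F2 a c θ : ℝ) : ℂ) =
      ∑ a' ∈ S, ∑ b' ∈ S, ((∏ k, gm m (a' k) : ℝ) : ℂ) * ((∏ k, gm m (b' k) : ℝ) : ℂ) *
        Lam ω l (D3_f0 a c F0 (-((∑ k : Fin K, (a' k : ℂ) * ξ k) + ∑ k : Fin K, (b' k : ℂ) * ξ k)))
          (D3_f a r c F1 (∑ k : Fin K, (a' k : ℂ) * ξ k))
          (D3_f a r c F2 (∑ k : Fin K, (b' k : ℂ) * ξ k)) := by
    rw [← intervalIntegral.integral_ofReal]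
    have e2 : ∀ θ : ℝ, ((wt ω K m ξ l θ * D3_J ω l F0 F1 F2 a c θ : ℝ) : ℂ) =
        ∑ a' ∈ S, ∑ b' ∈ S, ((∏ k, gm m (a' k) : ℝ) : ℂ) * ((∏ k, gm m (b' k) : ℝ) : ℂ) *
          (ee (ip ((∑ k : Fin K, (a' k : ℂ) * ξ k) + conj ω * ∑ k : Fin K, (b' k : ℂ) * ξ k)
            (l * U θ)) * (D3_J ω l F0 F1 F2 a c θ : ℂ)) := by
      intro θ
      rw [ofReal_mul, wt_expand, Finset.sum_mul]
      refine Finset.sum_congr rfl fun a' _ => ?_
      rw [Finset.sum_mul]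
      refine Finset.sum_congr rfl fun b' _ => ?_
      rw [mul_assoc]
      rfl
    simp only [e2]
    rw [intervalIntegral.integral_finsetSum]
    · refine Finset.sum_congr rfl fun a' _ => ?_
      rw [intervalIntegral.integral_finsetSum]
      · refine Finset.sum_congr rfl fun b' _ => ?_
        rw [intervalIntegral.integral_const_mul]
        congr 1
        unfold Lam
        refine intervalIntegral.integral_congr fun θ _ => ?_
        exact D3_char ω l a c r hr hr' hl F0 F1 F2 _ _ θ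
      · intro b' _
        exact (hint _ _).const_mul _
    · intro a' _
      have h6 : IntervalIntegrable (∑ b' ∈ S, fun θ : ℝ => ((∏ k, gm m (a' k) : ℝ) : ℂ) *
          ((∏ k, gm m (b' k) : ℝ) : ℂ) *
          (ee (ip ((∑ k : Fin K, (a' k : ℂ) * ξ k) + conj ω * ∑ k : Fin K, (b' k : ℂ) * ξ k)
            (l * U θ)) * (D3_J ω l F0 F1 F2 a c θ : ℂ))) volume 0 (2 * Real.pi) :=
        IntervalIntegrable.sum _ fun b' _ => (hint _ _).const_mul _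
      convert h6 using 1
      funext θ
      rw [Finset.sum_apply]
  rw [← Real.norm_eq_abs, ← norm_real, e1]
  have hp : ∀ a' : Fin K → ℤ, ‖((∏ k, gm m (a' k) : ℝ) : ℂ)‖ ≤ 1 := by
    intro a'
    rw [norm_real, Real.norm_eq_abs, abs_of_nonneg (Finset.prod_nonneg fun k _ => (gm_bd m _).1)]
    exact Finset.prod_le_one (fun k _ => (gm_bd m _).1) (fun k _ => (gm_bd m _).2)
  have hcard : (S.card : ℝ) = (2 * m + 1) ^ K := by
    rw [hS, Fintype.card_piFinset, Finset.prod_const, Int.card_Icc, Finset.card_univ,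
      Fintype.card_fin]
    have : ((m : ℤ) + 1 - -(m : ℤ)).toNat = 2 * m + 1 := by omega
    rw [this]
    push_cast
    ring
  refine (norm_sum_le _ _).trans ?_
  have h3 : ∀ a' ∈ S, ‖∑ b' ∈ S, ((∏ k, gm m (a' k) : ℝ) : ℂ) * ((∏ k, gm m (b' k) : ℝ) : ℂ) *
        Lam ω l (D3_f0 a c F0 (-((∑ k : Fin K, (a' k : ℂ) * ξ k) + ∑ k : Fin K, (b' k : ℂ) * ξ k)))
          (D3_f a r c F1 (∑ k : Fin K, (a' k : ℂ) * ξ k))
          (D3_f a r c F2 (∑ k : Fin K, (b' k : ℂ) * ξ k))‖ ≤ (2 * m + 1) ^ K * β := by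
    intro a' _
    refine (norm_sum_le _ _).trans ?_
    have h4 : ∀ b' ∈ S, ‖((∏ k, gm m (a' k) : ℝ) : ℂ) * ((∏ k, gm m (b' k) : ℝ) : ℂ) *
        Lam ω l (D3_f0 a c F0 (-((∑ k : Fin K, (a' k : ℂ) * ξ k) + ∑ k : Fin K, (b' k : ℂ) * ξ k)))
          (D3_f a r c F1 (∑ k : Fin K, (a' k : ℂ) * ξ k))
          (D3_f a r c F2 (∑ k : Fin K, (b' k : ℂ) * ξ k))‖ ≤ β := by
      intro b' _
      rw [norm_mul, norm_mul]
      have h5 := mul_le_one₀ (hp a') (norm_nonneg _) (hp b')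
      calc _ ≤ 1 * β := mul_le_mul h5 (hL _ _) (norm_nonneg _) zero_le_one
        _ = β := one_mul _
    refine (Finset.sum_le_sum h4).trans ?_
    rw [Finset.sum_const, nsmul_eq_mul, hcard]
  refine (Finset.sum_le_sum h3).trans ?_
  rw [Finset.sum_const, nsmul_eq_mul, hcard, ← mul_assoc, ← sq, ← pow_mul, ← pow_mul, mul_comm 2 K]

/-- the indicator weight of the bad cells -/
noncomputable def D3_γ (C1 C2 : ℝ) (B : Set (ℤ × ℤ)) (c : ℤ × ℤ) : ℝ := C1 + B.indicator (fun _ => C2) c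

theorem D3_sum_bound (a n N : ℤ) (c : ℤ × ℤ) (han : a ≤ n) (hnN : n ≤ N) (C1 C2 : ℝ) (hC2 : 0 ≤ C2)
    (B : Set (ℤ × ℤ)) (β : ℝ)
    (hB : volume.real {x | x ∈ Sq N c ∧ cell ((2 : ℝ) ^ a) x ∈ B} ≤ β * volume.real (Sq N c)) :
    ∑ c' ∈ subs n N c, ∑ c'' ∈ subs a n c', D3_γ C1 C2 B c'' * ((2 : ℝ) ^ a) ^ 2 ≤
      (C1 + C2 * β) * volume.real (Sq N c) := by
  have haN : a ≤ N := han.trans hnN
  set φ : ℂ → ℝ := fun x => D3_γ C1 C2 B (cell ((2 : ℝ) ^ a) x) with hφ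
  have hφm : Measurable φ := by
    have : Measurable (D3_γ C1 C2 B) := Measurable.of_discrete
    exact this.comp (D3_meas_cell _)
  have hφi : ∀ (k : ℤ) (e : ℤ × ℤ), IntegrableOn φ (Sq k e) := by
    intro k e
    refine Measure.integrableOn_of_bounded (M := |C1| + |C2|) (Sq_fin k e).ne
      hφm.aestronglyMeasurable (Filter.Eventually.of_forall fun x => ?_)
    simp only [hφ, D3_γ]
    refine (norm_add_le _ _).trans ?_
    rw [Real.norm_eq_abs, Real.norm_eq_abs]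
    refine add_le_add le_rfl ?_
    by_cases hx : cell ((2 : ℝ) ^ a) x ∈ B
    · rw [indicator_of_mem hx]
    · rw [indicator_of_notMem hx, abs_zero]
      exact abs_nonneg _
  have e1 : ∀ c'' : ℤ × ℤ, ∫ x in Sq a c'', φ x = D3_γ C1 C2 B c'' * ((2 : ℝ) ^ a) ^ 2 := by
    intro c''
    have h1 : ∀ x ∈ Sq a c'', φ x = D3_γ C1 C2 B c'' := by
      intro x hx
      have hx' : cell ((2 : ℝ) ^ a) x = c'' := hx
      simp only [hφ, hx']
    rw [setIntegral_congr_fun (Sq_meas a c'') h1, setIntegral_const, Sq_vol, smul_eq_mul, mul_comm]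
  have e2 : ∀ c' : ℤ × ℤ, ∑ c'' ∈ subs a n c', D3_γ C1 C2 B c'' * ((2 : ℝ) ^ a) ^ 2 =
      ∫ x in Sq n c', φ x := by
    intro c'
    rw [integral_subs a n han c' φ (hφi n c')]
    exact Finset.sum_congr rfl fun c'' _ => (e1 c'').symm
  rw [Finset.sum_congr rfl fun c' _ => e2 c', ← integral_subs n N hnN c φ (hφi N c)]
  have hBm : MeasurableSet {x : ℂ | cell ((2 : ℝ) ^ a) x ∈ B} :=
    (D3_meas_cell _) (MeasurableSet.of_discrete (s := B))
  have e3 : ∀ x, φ x = C1 + {x : ℂ | cell ((2 : ℝ) ^ a) x ∈ B}.indicator (fun _ => C2) x := by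
    intro x
    simp only [hφ, D3_γ]
    congr 1
  have e4 : ∫ x in Sq N c, φ x = C1 * volume.real (Sq N c) +
      C2 * volume.real {x | x ∈ Sq N c ∧ cell ((2 : ℝ) ^ a) x ∈ B} := by
    rw [integral_congr_ae (Filter.Eventually.of_forall e3)]
    have i1 : IntegrableOn (fun _ : ℂ => C1) (Sq N c) := integrableOn_const (Sq_fin N c).ne
    have i2 : IntegrableOn ({x : ℂ | cell ((2 : ℝ) ^ a) x ∈ B}.indicator (fun _ => C2)) (Sq N c) :=
      IntegrableOn.indicator (integrableOn_const (Sq_fin N c).ne) hBm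
    rw [integral_add i1 i2, setIntegral_const, smul_eq_mul, mul_comm, setIntegral_indicator hBm,
      setIntegral_const, smul_eq_mul, mul_comm _ C2]
    rfl
  rw [e4]
  have := mul_le_mul_of_nonneg_left hB hC2
  linarith

/-! ## (12.1): terms with a locally uniform function are small -/
theorem unif_small (ω : ℂ) (h0 : ω.im ≠ 0) (h1 : ω.re ≠ 0) (h2 : ω.re ≠ 1) (K m : ℕ) (ν' : ℝ) (hν' : 0 < ν') :
    ∃ ν : ℝ, 0 < ν ∧ ∀ ν1 : ℝ, 0 < ν1 → ν1 ≤ ν → ∀ (l : ℝ) (a n N : ℤ) (c : ℤ × ℤ), a ≤ n → n ≤ N →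
    (2 : ℝ) ^ a ≤ l → l < (2 : ℝ) ^ (a + 1) → ∀ (Ξ : ℤ × ℤ → ℕ → ℂ) (F0 F1 F2 : ℂ → ℝ),
    Measurable F0 → Measurable F1 → Measurable F2 → (∀ x, |F0 x| ≤ 1) → (∀ x, |F1 x| ≤ 1) → (∀ x, |F2 x| ≤ 1) →
    (∀ x, x ∉ Sq N c → F1 x = 0) → (∀ x, x ∉ Sq N c → F2 x = 0) →
    (volume.real {x | x ∈ Sq N c ∧ ¬ unif a ν1 F1 (cell ((2 : ℝ) ^ a) x)} ≤ ν1 * volume.real (Sq N c) ∨
     volume.real {x | x ∈ Sq N c ∧ ¬ unif a ν1 F2 (cell ((2 : ℝ) ^ a) x)} ≤ ν1 * volume.real (Sq N c)) →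
    ∑ c' ∈ subs n N c, |∫ θ in (0 : ℝ)..(2 * Real.pi), wt ω K m (Ξ c') l θ *
      ∫ x in Sq n c', F0 x * F1 (x + l * U θ) * F2 (x + l * ω * U θ)| ≤ ν' * volume.real (Sq N c) := by
  obtain ⟨r, hr⟩ := exists_nat_ge (2 * (1 + ‖ω‖))
  set Nc : ℝ := ((2 * (m : ℝ) + 1) ^ 2) ^ K with hNc
  have hNc0 : 0 < Nc := by positivity
  set κ : ℝ := ν' / (8 * Nc) with hκ
  have hκ0 : 0 < κ := by positivity
  obtain ⟨νA, hνA, hA⟩ := thmA ω h0 h1 h2 (2 * ((r : ℝ) + 1)) κ hκ0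
  have hpi : 0 < Real.pi := Real.pi_pos
  set ν : ℝ := min (νA / (2 * r + 1) ^ 2) (ν' / (4 * Real.pi * Nc * (2 * r + 1) ^ 2)) with hν
  have hν0 : 0 < ν := by
    rw [hν]
    apply lt_min <;> positivity
  refine ⟨ν, hν0, ?_⟩
  intro ν1 hν1 hν1' l a n N c han hnN hal hla Ξ F0 F1 F2 m0 m1 m2 b0 b1 b2 s1 s2 hu
  have hd : (0 : ℝ) < (2 : ℝ) ^ a := by positivity
  have hl : 0 < l := hd.trans_le hal
  have haN : a ≤ N := han.trans hnN
  have hla2 : l < 2 * (2 : ℝ) ^ a := by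
    rw [zpow_add₀ (by norm_num), zpow_one] at hla
    linarith
  have hω := norm_nonneg ω
  have hr1 : l ≤ r * (2 : ℝ) ^ a := by nlinarith
  have hr2 : l * ‖ω‖ ≤ r * (2 : ℝ) ^ a := by
    have : l * ‖ω‖ ≤ 2 * (2 : ℝ) ^ a * ‖ω‖ := by gcongr
    nlinarith
  have hrA : ν1 * (2 * (r : ℝ) + 1) ^ 2 ≤ νA := by
    have : ν1 ≤ νA / (2 * r + 1) ^ 2 := hν1'.trans (min_le_left _ _)
    rwa [le_div_iff₀ (by positivity)] at this
  have hrB : 2 * Real.pi * Nc * ((2 * (r : ℝ) + 1) ^ 2 * ν1) ≤ ν' / 2 := by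
    have : ν1 ≤ ν' / (4 * Real.pi * Nc * (2 * r + 1) ^ 2) := hν1'.trans (min_le_right _ _)
    rw [le_div_iff₀ (by positivity)] at this
    linarith
  -- the uniform function
  obtain ⟨F, mF, bF, sF, hF, hFB⟩ : ∃ F : ℂ → ℝ, Measurable F ∧ (∀ x, |F x| ≤ 1) ∧
      (∀ x, x ∉ Sq N c → F x = 0) ∧
      volume.real {x | x ∈ Sq N c ∧ ¬ unif a ν1 F (cell ((2 : ℝ) ^ a) x)} ≤
        ν1 * volume.real (Sq N c) ∧ (F = F1 ∨ F = F2) := by
    rcases hu with hu | hu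
    · exact ⟨F1, m1, b1, s1, hu, Or.inl rfl⟩
    · exact ⟨F2, m2, b2, s2, hu, Or.inr rfl⟩
  set B : Set (ℤ × ℤ) := {e | ∃ c' ∈ D3_nb r e, ¬ unif a ν1 F c'} with hB
  have hbad := D3_bad a N haN c r F sF ν1 hν1 hF
  have hbad' : volume.real {x | x ∈ Sq N c ∧ cell ((2 : ℝ) ^ a) x ∈ B} ≤
      ((2 * r + 1) ^ 2 * ν1) * volume.real (Sq N c) := by
    rw [mul_assoc]
    exact hbad
  -- the cells
  have hcell : ∀ (c' e : ℤ × ℤ), |∫ θ in (0 : ℝ)..(2 * Real.pi), wt ω K m (Ξ c') l θ *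
      D3_J ω l F0 F1 F2 a e θ| ≤ D3_γ (ν' / 2) (2 * Real.pi * Nc) B e * ((2 : ℝ) ^ a) ^ 2 := by
    intro c' e
    by_cases he : e ∈ B
    · refine (D3_triv ω K m (Ξ c') l F0 F1 F2 b0 b1 b2 a e).trans ?_
      unfold D3_γ
      rw [indicator_of_mem he, ← hNc]
      have : 0 ≤ ν' / 2 * ((2 : ℝ) ^ a) ^ 2 := by positivity
      linarith
    · have he' : ∀ c' ∈ D3_nb r e, unif a ν1 F c' := by
        intro c' hc'
        by_contra hcon
        exact he ⟨c', hc', hcon⟩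
      refine (D3_good ω K m (Ξ c') l hl a e r hr1 hr2 F0 F1 F2 m0 m1 m2 b0 b1 b2 (κ * l ^ 2) ?_).trans ?_
      · intro b b'
        refine hA l hl ⟨(2 : ℝ) ^ a * e.1, (2 : ℝ) ^ a * e.2⟩ _ _ _ (D3_f0_meas a e F0 m0 _)
          (D3_f_meas a r e F1 m1 b) (D3_f_meas a r e F2 m2 b') (D3_f0_le a e F0 b0 _)
          (D3_f_le a r e F1 b1 b) (D3_f_le a r e F2 b2 b') (fun x hx => D3_f0_supp a r e F0 _ x hal hx)
          (fun x hx => D3_f_supp a r e F1 b x hal hx) (fun x hx => D3_f_supp a r e F2 b' x hal hx) ?_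
        have hbd : ∀ (b : ℂ) (ξ : ℂ), ‖FT (D3_f a r e F b) ξ‖ ≤ νA * l ^ 2 := by
          intro b ξ
          refine (D3_f_FT a r e F mF bF b ν1 he' ξ).trans ?_
          calc (2 * (r : ℝ) + 1) ^ 2 * (ν1 * ((2 : ℝ) ^ a) ^ 2)
              = (ν1 * (2 * (r : ℝ) + 1) ^ 2) * ((2 : ℝ) ^ a) ^ 2 := by ring
            _ ≤ νA * l ^ 2 := by gcongr
        rcases hFB with rfl | rfl
        · exact Or.inl (hbd b)
        · exact Or.inr (hbd b')
      · unfold D3_γ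
        rw [indicator_of_notMem he, add_zero, ← hNc]
        have e1 : l ^ 2 ≤ 4 * ((2 : ℝ) ^ a) ^ 2 := by nlinarith
        calc Nc * (κ * l ^ 2) ≤ Nc * (κ * (4 * ((2 : ℝ) ^ a) ^ 2)) := by gcongr
          _ = ν' / 2 * ((2 : ℝ) ^ a) ^ 2 := by
            rw [hκ]
            field_simp
            ring
  -- the squares
  have hsq : ∀ c' ∈ subs n N c, |∫ θ in (0 : ℝ)..(2 * Real.pi), wt ω K m (Ξ c') l θ *
      ∫ x in Sq n c', F0 x * F1 (x + l * U θ) * F2 (x + l * ω * U θ)| ≤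
      ∑ e ∈ subs a n c', D3_γ (ν' / 2) (2 * Real.pi * Nc) B e * ((2 : ℝ) ^ a) ^ 2 := by
    intro c' _
    have e1 : ∀ θ : ℝ, wt ω K m (Ξ c') l θ *
        ∫ x in Sq n c', F0 x * F1 (x + l * U θ) * F2 (x + l * ω * U θ) =
        ∑ e ∈ subs a n c', wt ω K m (Ξ c') l θ * D3_J ω l F0 F1 F2 a e θ := by
      intro θ
      rw [← Finset.mul_sum]
      congr 1
      exact integral_subs a n han c' (D3_G ω l F0 F1 F2 θ)
        (D3_G_int ω l F0 F1 F2 m0 m1 m2 b0 b1 b2 θ n c')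
    simp only [e1]
    rw [intervalIntegral.integral_finsetSum]
    · refine (Finset.abs_sum_le_sum_abs _ _).trans ?_
      exact Finset.sum_le_sum fun e _ => hcell c' e
    · intro e _
      exact D3_wJ_int ω K m (Ξ c') l F0 F1 F2 m0 m1 m2 b0 b1 b2 a e _ _
  refine (Finset.sum_le_sum hsq).trans ?_
  refine (D3_sum_bound a n N c han hnN (ν' / 2) (2 * Real.pi * Nc) (by positivity) B
    ((2 * r + 1) ^ 2 * ν1) hbad').trans ?_
  gcongr
  linarith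

end TriDil
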