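import Pool.Agent.TriDil.Defs3
import Pool.Agent.TriDil.D0
set_option autoImplicit false
open MeasureTheory Complex Set
namespace TriDil
open scoped ComplexConjugate

/-! ## (12.3): few labels change under an almost resonant shift -/

/-- one-dimensional estimate -/
theorem D4_one (α β a S M τ : ℝ) (hα : α ≠ 0) (hS : 0 ≤ S) (hM : 0 < M) (hτ : 0 ≤ τ) :
    volume {y : ℝ | y ∈ Ico a (a + S) ∧ ∃ m : ℤ, |M * (α * y + β) - m| ≤ M * τ}
      ≤ ENNReal.ofReal (2 * τ * (M * S + (2 * M * τ + 1) / |α|)) := by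
  have hα' : 0 < |α| := abs_pos.2 hα
  -- lower end of the range
  obtain ⟨c0, hc0⟩ : ∃ c0 : ℝ, ∀ y ∈ Ico a (a + S), c0 ≤ M * (α * y + β) ∧
      M * (α * y + β) ≤ c0 + M * |α| * S := by
    rcases le_or_gt 0 α with h | h
    · refine ⟨M * (α * a + β), fun y hy => ?_⟩
      rw [abs_of_nonneg h]
      have h1 : α * a ≤ α * y := mul_le_mul_of_nonneg_left hy.1 h
      have h2 : α * y ≤ α * (a + S) := mul_le_mul_of_nonneg_left hy.2.le h
      constructor <;> nlinarith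
    · refine ⟨M * (α * (a + S) + β), fun y hy => ?_⟩
      rw [abs_of_neg h]
      have h1 : α * y ≤ α * a := mul_le_mul_of_nonpos_left hy.1 h.le
      have h2 : α * (a + S) ≤ α * y := mul_le_mul_of_nonpos_left hy.2.le h.le
      constructor <;> nlinarith
  set p : ℝ := c0 - M * τ with hp
  set q : ℝ := c0 + M * |α| * S + M * τ with hq
  have hsub : {y : ℝ | y ∈ Ico a (a + S) ∧ ∃ m : ℤ, |M * (α * y + β) - m| ≤ M * τ} ⊆
      ⋃ m ∈ Finset.Icc ⌈p⌉ ⌊q⌋, Metric.closedBall (((m : ℝ) / M - β) / α) (τ / |α|) := by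
    rintro y ⟨hy, m, hm⟩
    have h1 := hc0 y hy
    have h2 := abs_le.1 hm
    simp only [mem_iUnion, Finset.mem_Icc]
    refine ⟨m, ⟨Int.ceil_le.2 (by linarith), Int.le_floor.2 (by linarith)⟩, ?_⟩
    rw [Metric.mem_closedBall, Real.dist_eq, le_div_iff₀ hα', ← abs_mul]
    have h3 : (y - ((m : ℝ) / M - β) / α) * α = (M * (α * y + β) - m) / M := by
      field_simp
      ring
    rw [h3, abs_div, abs_of_pos hM, div_le_iff₀ hM]
    linarith
  have hcard : ((Finset.Icc ⌈p⌉ ⌊q⌋).card : ℝ) ≤ M * |α| * S + 2 * M * τ + 1 := by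
    rw [Int.card_Icc]
    have hpos : 0 ≤ M * |α| * S + 2 * M * τ + 1 := by positivity
    have h1 : (((⌊q⌋ + 1 - ⌈p⌉).toNat : ℤ) : ℝ) ≤ M * |α| * S + 2 * M * τ + 1 := by
      rw [Int.toNat_eq_max]
      push_cast
      refine max_le ?_ hpos
      have h2 := Int.floor_le q
      have h3 := Int.le_ceil p
      linarith
    exact_mod_cast h1
  calc volume {y : ℝ | y ∈ Ico a (a + S) ∧ ∃ m : ℤ, |M * (α * y + β) - m| ≤ M * τ}
      ≤ volume (⋃ m ∈ Finset.Icc ⌈p⌉ ⌊q⌋,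
          Metric.closedBall (((m : ℝ) / M - β) / α) (τ / |α|)) := measure_mono hsub
    _ ≤ ∑ m ∈ Finset.Icc ⌈p⌉ ⌊q⌋,
          volume (Metric.closedBall (((m : ℝ) / M - β) / α) (τ / |α|)) :=
        measure_biUnion_finset_le _ _
    _ = ENNReal.ofReal (((Finset.Icc ⌈p⌉ ⌊q⌋).card : ℝ) * (2 * (τ / |α|))) := by
        simp only [Real.volume_closedBall]
        rw [Finset.sum_const, nsmul_eq_mul, ENNReal.ofReal_mul (Nat.cast_nonneg _),
          ENNReal.ofReal_natCast]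
    _ ≤ ENNReal.ofReal ((M * |α| * S + 2 * M * τ + 1) * (2 * (τ / |α|))) := by
        apply ENNReal.ofReal_le_ofReal
        exact mul_le_mul_of_nonneg_right hcard (by positivity)
    _ = ENNReal.ofReal (2 * τ * (M * S + (2 * M * τ + 1) / |α|)) := by
        congr 1
        field_simp
        ring

theorem D4_mp1 : MeasurePreserving (fun p : ℝ × ℝ => (⟨p.1, p.2⟩ : ℂ))
    ((volume : Measure ℝ).prod volume) volume :=
  Complex.volume_preserving_equiv_real_prod.symm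

theorem D4_mp2 : MeasurePreserving (fun p : ℝ × ℝ => (⟨p.2, p.1⟩ : ℂ))
    ((volume : Measure ℝ).prod volume) volume :=
  D4_mp1.comp Measure.measurePreserving_swap

theorem D4_fub (f : ℝ × ℝ → ℂ) (hf : MeasurePreserving f ((volume : Measure ℝ).prod volume) volume)
    (E : Set ℂ) (hE : MeasurableSet E) (I : Set ℝ) (hI : MeasurableSet I)
    (h1 : ∀ x y, f (x, y) ∈ E → y ∈ I) (w : ℝ) (h2 : ∀ y, volume {x | f (x, y) ∈ E} ≤ ENNReal.ofReal w) :
    volume E ≤ ENNReal.ofReal w * volume I := by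
  rw [← hf.measure_preimage hE.nullMeasurableSet, Measure.prod_apply_symm (hf.measurable hE)]
  calc ∫⁻ y, volume ((fun x => (x, y)) ⁻¹' (f ⁻¹' E))
      ≤ ∫⁻ y, I.indicator (fun _ => ENNReal.ofReal w) y := by
        refine lintegral_mono fun y => ?_
        by_cases hy : y ∈ I
        · rw [indicator_of_mem hy]
          exact h2 y
        · rw [indicator_of_notMem hy]
          have : (fun x => (x, y)) ⁻¹' (f ⁻¹' E) = ∅ := by
            ext x
            simp only [mem_preimage, mem_empty_iff_false, iff_false]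
            exact fun h => hy (h1 _ _ h)
          rw [this, measure_empty]
    _ = ENNReal.ofReal w * volume I := by rw [lintegral_indicator hI, setLIntegral_const]

theorem D4_mem_Sq (n : ℤ) (c : ℤ × ℤ) (x : ℂ) : x ∈ Sq n c ↔
    x.re ∈ Ico (c.1 * (2 : ℝ) ^ n) (c.1 * (2 : ℝ) ^ n + (2 : ℝ) ^ n) ∧
    x.im ∈ Ico (c.2 * (2 : ℝ) ^ n) (c.2 * (2 : ℝ) ^ n + (2 : ℝ) ^ n) := by
  have hS : (0 : ℝ) < (2 : ℝ) ^ n := by positivity
  have key : ∀ (t : ℝ) (z : ℤ), ⌊t / (2 : ℝ) ^ n⌋ = z ↔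
      t ∈ Ico (z * (2 : ℝ) ^ n) (z * (2 : ℝ) ^ n + (2 : ℝ) ^ n) := by
    intro t z
    rw [Int.floor_eq_iff, le_div_iff₀ hS, div_lt_iff₀ hS, add_mul, one_mul]
    rfl
  change cell ((2 : ℝ) ^ n) x = c ↔ _
  unfold cell
  rw [Prod.ext_iff]
  exact and_congr (key _ _) (key _ _)

/-- two-dimensional estimate -/
theorem D4_two (n : ℤ) (c : ℤ × ℤ) (ξ : ℂ) (M τ : ℝ) (hξ : ξ ≠ 0) (hM : 0 < M) (hτ : 0 ≤ τ) :
    volume {x | x ∈ Sq n c ∧ ∃ m : ℤ, |M * ip ξ x - m| ≤ M * τ}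
      ≤ ENNReal.ofReal (2 * τ * (M * (2 : ℝ) ^ n + (2 * M * τ + 1) * 2 / ‖ξ‖) * (2 : ℝ) ^ n) := by
  have hS : (0 : ℝ) < (2 : ℝ) ^ n := by positivity
  have hξ' : 0 < ‖ξ‖ := norm_pos_iff.2 hξ
  have hmeas : MeasurableSet {x | x ∈ Sq n c ∧ ∃ m : ℤ, |M * ip ξ x - m| ≤ M * τ} := by
    refine (Sq_meas n c).inter ?_
    have hU : {x : ℂ | ∃ m : ℤ, |M * ip ξ x - m| ≤ M * τ} = ⋃ m : ℤ, {x | |M * ip ξ x - m| ≤ M * τ} := by
      ext x
      simp
    change MeasurableSet {x : ℂ | ∃ m : ℤ, |M * ip ξ x - m| ≤ M * τ}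
    rw [hU]
    refine MeasurableSet.iUnion fun m => ?_
    have hf : Measurable fun x : ℂ => |M * ip ξ x - m| := by
      unfold ip
      have h1 : Measurable fun x : ℂ => x.re := Complex.measurable_re
      have h2 : Measurable fun x : ℂ => x.im := Complex.measurable_im
      exact (((h1.const_mul _).add (h2.const_mul _)).const_mul _ |>.sub_const _).abs
    exact measurableSet_le hf measurable_const
  have hvol : ∀ z : ℤ, volume (Ico (z * (2 : ℝ) ^ n) (z * (2 : ℝ) ^ n + (2 : ℝ) ^ n))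
      = ENNReal.ofReal ((2 : ℝ) ^ n) := by
    intro z
    rw [Real.volume_Ico]
    congr 1
    ring
  have hle : ‖ξ‖ ≤ |ξ.re| + |ξ.im| := Complex.norm_le_abs_re_add_abs_im ξ
  have hfin : ∀ α : ℝ, α ≠ 0 → ‖ξ‖ ≤ 2 * |α| →
      2 * τ * (M * (2 : ℝ) ^ n + (2 * M * τ + 1) / |α|)
        ≤ 2 * τ * (M * (2 : ℝ) ^ n + (2 * M * τ + 1) * 2 / ‖ξ‖) := by
    intro α hα h
    have hα' : 0 < |α| := abs_pos.2 hα
    have h1 : (2 * M * τ + 1) / |α| ≤ (2 * M * τ + 1) * 2 / ‖ξ‖ := by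
      rw [div_le_div_iff₀ hα' hξ']
      have : 0 ≤ 2 * M * τ + 1 := by positivity
      nlinarith
    have : 0 ≤ 2 * τ := by positivity
    nlinarith
  rw [ENNReal.ofReal_mul (by positivity)]
  rcases le_total |ξ.im| |ξ.re| with h | h
  · have hα : ξ.re ≠ 0 := by
      intro h0
      rw [h0, abs_zero] at h hle
      linarith
    rw [← hvol c.2]
    refine D4_fub _ D4_mp1 _ hmeas _ measurableSet_Ico ?_ _ ?_
    · intro x y hx
      exact ((D4_mem_Sq n c _).1 hx.1).2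
    · intro y
      refine (measure_mono ?_).trans ((D4_one ξ.re (ξ.im * y) (c.1 * (2 : ℝ) ^ n) ((2 : ℝ) ^ n) M τ hα
        hS.le hM hτ).trans (ENNReal.ofReal_le_ofReal (hfin _ hα (by linarith))))
      rintro x ⟨hx1, m, hm⟩
      exact ⟨((D4_mem_Sq n c _).1 hx1).1, m, hm⟩
  · have hα : ξ.im ≠ 0 := by
      intro h0
      rw [h0, abs_zero] at h hle
      linarith
    rw [← hvol c.1]
    refine D4_fub _ D4_mp2 _ hmeas _ measurableSet_Ico ?_ _ ?_
    · intro x y hx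
      exact ((D4_mem_Sq n c _).1 hx.1).1
    · intro y
      refine (measure_mono ?_).trans ((D4_one ξ.im (ξ.re * y) (c.2 * (2 : ℝ) ^ n) ((2 : ℝ) ^ n) M τ hα
        hS.le hM hτ).trans (ENNReal.ofReal_le_ofReal (hfin _ hα (by linarith))))
      rintro x ⟨hx1, m, hm⟩
      refine ⟨((D4_mem_Sq n c _).1 hx1).2, m, ?_⟩
      have : ip ξ (⟨y, x⟩ : ℂ) = ξ.im * x + ξ.re * y := by
        simp only [ip]
        ring
      rw [← this]
      exact hm

/-- if the label of a coordinate changes, the coordinate is near the mesh -/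
theorem D4_floor (K : ℕ) (s t : ℝ) (j : ℤ)
    (h : ⌊(2 : ℝ) ^ K * Int.fract (s + t)⌋ ≠ ⌊(2 : ℝ) ^ K * Int.fract s⌋) :
    ∃ m : ℤ, |(2 : ℝ) ^ K * s - m| ≤ (2 : ℝ) ^ K * |t - j| := by
  have hM : (0 : ℝ) < (2 : ℝ) ^ K := by positivity
  by_contra hcon
  push Not at hcon
  apply h
  set τ := t - j with hτ
  have h1 : Int.fract (s + t) = Int.fract (s + τ) := by
    have : s + t = (s + τ) + j := by rw [hτ]; ring
    rw [this, Int.fract_add_intCast]
  rw [h1]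
  -- floors of `2^K s` and `2^K (s+τ)` agree
  have h2 : ⌊(2 : ℝ) ^ K * (s + τ)⌋ = ⌊(2 : ℝ) ^ K * s⌋ := by
    have ha := hcon ⌊(2 : ℝ) ^ K * s⌋
    have hb := hcon (⌊(2 : ℝ) ^ K * s⌋ + 1)
    have hc := Int.floor_le ((2 : ℝ) ^ K * s)
    have hd := Int.lt_floor_add_one ((2 : ℝ) ^ K * s)
    push_cast at hb
    rw [abs_of_nonneg (show 0 ≤ (2 : ℝ) ^ K * s - ⌊(2 : ℝ) ^ K * s⌋ by linarith)] at ha
    rw [abs_of_neg (show (2 : ℝ) ^ K * s - (⌊(2 : ℝ) ^ K * s⌋ + 1) < 0 by linarith)] at hb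
    have he := abs_le.1 (le_refl |τ|)
    have hf : (2 : ℝ) ^ K * τ ≤ (2 : ℝ) ^ K * |τ| := mul_le_mul_of_nonneg_left he.2 hM.le
    have hg : (2 : ℝ) ^ K * (-|τ|) ≤ (2 : ℝ) ^ K * τ := mul_le_mul_of_nonneg_left he.1 hM.le
    rw [Int.floor_eq_iff]
    constructor <;> linarith
  have h3 : ∀ u : ℝ, ⌊(2 : ℝ) ^ K * Int.fract u⌋ = ⌊(2 : ℝ) ^ K * u⌋ - 2 ^ K * ⌊u⌋ := by
    intro u
    have : (2 : ℝ) ^ K * Int.fract u = (2 : ℝ) ^ K * u - ((2 ^ K * ⌊u⌋ : ℤ) : ℝ) := by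
      rw [Int.fract]
      push_cast
      ring
    rw [this, Int.floor_sub_intCast]
  have h4 : ∀ u : ℝ, ⌊u⌋ = ⌊(2 : ℝ) ^ K * u⌋ / 2 ^ K := by
    intro u
    have h5 : ⌊((2 : ℝ) ^ K * u) / ((2 ^ K : ℕ) : ℝ)⌋ = ⌊(2 : ℝ) ^ K * u⌋ / ((2 ^ K : ℕ) : ℤ) :=
      Int.floor_div_natCast _ _
    have h6 : ((2 : ℝ) ^ K * u) / ((2 ^ K : ℕ) : ℝ) = u := by
      push_cast
      field_simp
    rw [h6] at h5
    rw [h5]
    push_cast
    rfl
  rw [h3, h3, h4 (s + τ), h4 s, h2]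

theorem lab_shift (P : ℝ) (K : ℕ) (ε : ℝ) (hε : 0 < ε) : ∃ κ L : ℝ, 0 < κ ∧ κ ≤ 1 / 2 ∧ 1 ≤ L ∧
    ∀ (n : ℤ) (c : ℤ × ℤ) (Ξ : ℤ × ℤ → ℕ → ℂ) (l : ℝ) (v : ℂ), 0 < l → L * l ≤ (2 : ℝ) ^ n → ‖v‖ ≤ P * l →
    (∀ k : Fin K, ∃ j : ℤ, |ip (Ξ c k) v - j| < κ) →
    volume.real {x | x ∈ Sq n c ∧ (x + v ∉ Sq n c ∨ lab n K Ξ (x + v) ≠ lab n K Ξ x)}
      ≤ ε * ((2 : ℝ) ^ n) ^ 2 := by
  set M : ℝ := (2 : ℝ) ^ K with hMdef
  have hM : 0 < M := by positivity
  set A : ℝ := 2 * (3 * M + 2) with hA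
  have hA0 : 0 < A := by positivity
  set Q : ℝ := |P| with hQ
  have hQ0 : 0 ≤ Q := abs_nonneg P
  set δ : ℝ := ε / (2 * (K + 1)) with hδ
  have hK1 : (0 : ℝ) < K + 1 := by positivity
  have hδ0 : 0 < δ := by positivity
  refine ⟨min (1 / 2) (δ / A), 1 + 2 * Q + 4 * Q / ε + A * Q / δ, by positivity, min_le_left _ _,
    ?_, ?_⟩
  · have : 0 ≤ 2 * Q + 4 * Q / ε + A * Q / δ := by positivity
    linarith
  intro n c Ξ l v hl hL hv hk
  set L : ℝ := 1 + 2 * Q + 4 * Q / ε + A * Q / δ with hLdef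
  set S : ℝ := (2 : ℝ) ^ n with hSdef
  have hS : 0 < S := by positivity
  have hv' : ‖v‖ ≤ Q * l := hv.trans (mul_le_mul_of_nonneg_right (le_abs_self P) hl.le)
  have e1 : 0 ≤ 4 * Q / ε := by positivity
  have e2 : 0 ≤ A * Q / δ := by positivity
  -- consequences of `L l ≤ S`
  have hL1 : 2 * Q * l ≤ S := by nlinarith [mul_nonneg e1 hl.le, mul_nonneg e2 hl.le]
  have hL2 : 4 * Q * l ≤ ε * S := by
    have h1 : 4 * Q / ε * l ≤ S := by nlinarith [mul_nonneg hQ0 hl.le, mul_nonneg e2 hl.le]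
    have h2 : 4 * Q * l = ε * (4 * Q / ε * l) := by field_simp
    rw [h2]
    exact mul_le_mul_of_nonneg_left h1 hε.le
  have hL3 : A * Q * l ≤ δ * S := by
    have h1 : A * Q / δ * l ≤ S := by nlinarith [mul_nonneg hQ0 hl.le, mul_nonneg e1 hl.le]
    have h2 : A * Q * l = δ * (A * Q / δ * l) := by field_simp
    rw [h2]
    exact mul_le_mul_of_nonneg_left h1 hδ0.le
  -- the bad sets of the coordinates
  have hbad : ∀ k : Fin K, ∃ E : Set ℂ, (∀ x, x ∈ Sq n c →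
      ⌊(2 : ℝ) ^ K * Int.fract (ip (Ξ c k) (x + v))⌋ ≠ ⌊(2 : ℝ) ^ K * Int.fract (ip (Ξ c k) x)⌋ →
      x ∈ E) ∧ E ⊆ Sq n c ∧ volume.real E ≤ δ * S ^ 2 := by
    intro k
    set ξ := Ξ c k with hξdef
    by_cases hξ : ξ = 0
    · refine ⟨∅, ?_, empty_subset _, ?_⟩
      · intro x _ h
        exfalso
        apply h
        rw [hξ]
        simp [ip]
      · rw [measureReal_empty]
        positivity
    have hξ' : 0 < ‖ξ‖ := norm_pos_iff.2 hξ
    -- the choice of the integer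
    obtain ⟨j, hj1, hj2⟩ : ∃ j : ℤ, |ip ξ v - j| ≤ 1 / 2 ∧
        2 * |ip ξ v - j| * (M * S + (2 * M * |ip ξ v - j| + 1) * 2 / ‖ξ‖) * S ≤ δ * S ^ 2 := by
      rcases le_or_gt 1 (‖ξ‖ * S) with h | h
      · obtain ⟨j, hj⟩ := hk k
        rw [← hξdef] at hj
        have hj1 : |ip ξ v - j| ≤ 1 / 2 := (hj.le).trans (min_le_left _ _)
        have hj2 : |ip ξ v - j| ≤ δ / A := (hj.le).trans (min_le_right _ _)
        refine ⟨j, hj1, ?_⟩
        set τ := |ip ξ v - j| with hτdef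
        have hτ0 : 0 ≤ τ := abs_nonneg _
        have h1 : (2 * M * τ + 1) * 2 / ‖ξ‖ ≤ (M + 1) * 2 * S := by
          rw [div_le_iff₀ hξ']
          have h2 : 2 * M * τ + 1 ≤ M + 1 := by nlinarith
          have h3 : 0 ≤ 2 * M * τ + 1 := by positivity
          have h4 : (M + 1) * 2 ≤ (M + 1) * 2 * (‖ξ‖ * S) :=
            le_mul_of_one_le_right (by positivity) h
          nlinarith
        have h2 : 2 * τ * (M * S + (2 * M * τ + 1) * 2 / ‖ξ‖) ≤ τ * A * S := by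
          rw [hA]
          have : 2 * τ * ((2 * M * τ + 1) * 2 / ‖ξ‖) ≤ 2 * τ * ((M + 1) * 2 * S) :=
            mul_le_mul_of_nonneg_left h1 (by positivity)
          nlinarith
        have h3 : τ * A ≤ δ := by
          rw [le_div_iff₀ hA0] at hj2
          exact hj2
        calc 2 * τ * (M * S + (2 * M * τ + 1) * 2 / ‖ξ‖) * S ≤ τ * A * S * S :=
              mul_le_mul_of_nonneg_right h2 hS.le
          _ ≤ δ * S * S := by gcongr
          _ = δ * S ^ 2 := by ring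
      · have h1 : |ip ξ v| ≤ ‖ξ‖ * (Q * l) :=
          (ip_le ξ v).trans (mul_le_mul_of_nonneg_left hv' hξ'.le)
        have h2 : ‖ξ‖ * (Q * l) ≤ 1 / 2 := by
          have : ‖ξ‖ * (2 * Q * l) ≤ ‖ξ‖ * S := mul_le_mul_of_nonneg_left hL1 hξ'.le
          nlinarith
        refine ⟨0, ?_, ?_⟩
        · push_cast
          rw [sub_zero]
          exact h1.trans h2
        · push_cast
          rw [sub_zero]
          set τ := |ip ξ v| with hτdef
          have hτ0 : 0 ≤ τ := abs_nonneg _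
          have hτ1 : τ ≤ 1 / 2 := h1.trans h2
          have h3 : 2 * τ * (M * S + (2 * M * τ + 1) * 2 / ‖ξ‖) ≤ A * (Q * l) := by
            have h4 : 2 * τ * (M * S + (2 * M * τ + 1) * 2 / ‖ξ‖)
                ≤ 2 * (‖ξ‖ * (Q * l)) * (M * S + (M + 1) * 2 / ‖ξ‖) := by
              have h5 : 2 * M * τ + 1 ≤ M + 1 := by nlinarith
              have h6 : (2 * M * τ + 1) * 2 / ‖ξ‖ ≤ (M + 1) * 2 / ‖ξ‖ := by gcongr
              gcongr
            have h7 : 2 * (‖ξ‖ * (Q * l)) * (M * S + (M + 1) * 2 / ‖ξ‖)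
                = 2 * (Q * l) * (M * (‖ξ‖ * S) + (M + 1) * 2) := by
              field_simp
            rw [h7] at h4
            refine h4.trans ?_
            have h8 : 0 ≤ Q * l := by positivity
            have h9 : M * (‖ξ‖ * S) ≤ M := by
              have := mul_le_mul_of_nonneg_left h.le hM.le
              linarith
            rw [hA]
            nlinarith
          calc 2 * τ * (M * S + (2 * M * τ + 1) * 2 / ‖ξ‖) * S ≤ A * (Q * l) * S :=
                mul_le_mul_of_nonneg_right h3 hS.le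
            _ ≤ δ * S * S := by
                apply mul_le_mul_of_nonneg_right _ hS.le
                linarith
            _ = δ * S ^ 2 := by ring
    refine ⟨{x | x ∈ Sq n c ∧ ∃ m : ℤ, |M * ip ξ x - m| ≤ M * |ip ξ v - j|}, ?_, fun x hx => hx.1, ?_⟩
    · intro x hx hne
      refine ⟨hx, ?_⟩
      rw [ip_add_right] at hne
      exact D4_floor K _ _ j hne
    · refine ENNReal.toReal_le_of_le_ofReal (by positivity) ?_
      refine (D4_two n c ξ M |ip ξ v - j| hξ hM (abs_nonneg _)).trans ?_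
      exact ENNReal.ofReal_le_ofReal hj2
  choose E hE1 hE2 hE3 using hbad
  have hsub : {x | x ∈ Sq n c ∧ (x + v ∉ Sq n c ∨ lab n K Ξ (x + v) ≠ lab n K Ξ x)} ⊆
      {x | x ∈ Sq n c ∧ x + v ∉ Sq n c} ∪ ⋃ k ∈ (Finset.univ : Finset (Fin K)), E k := by
    rintro x ⟨hx, hx'⟩
    by_cases hxv : x + v ∈ Sq n c
    · right
      have hne : lab n K Ξ (x + v) ≠ lab n K Ξ x := by
        rcases hx' with h | h
        · exact absurd hxv h
        · exact h
      have hc1 : cell ((2 : ℝ) ^ n) x = c := hx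
      have hc2 : cell ((2 : ℝ) ^ n) (x + v) = c := hxv
      unfold lab at hne
      rw [hc1, hc2] at hne
      by_contra hcon
      apply hne
      refine Prod.ext rfl (funext fun k => ?_)
      by_contra hk'
      apply hcon
      simp only [mem_iUnion]
      exact ⟨k, Finset.mem_univ _, hE1 k x hx hk'⟩
    · left
      exact ⟨hx, hxv⟩
  have hfinE : ∀ k, volume (E k) ≠ ⊤ := fun k =>
    ne_top_of_le_ne_top (Sq_fin n c).ne (measure_mono (hE2 k))
  have hfin : volume ({x | x ∈ Sq n c ∧ x + v ∉ Sq n c} ∪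
      ⋃ k ∈ (Finset.univ : Finset (Fin K)), E k) ≠ ⊤ := by
    refine ne_top_of_le_ne_top (Sq_fin n c).ne (measure_mono (union_subset (fun x hx => hx.1) ?_))
    exact iUnion₂_subset fun k _ => hE2 k
  calc volume.real {x | x ∈ Sq n c ∧ (x + v ∉ Sq n c ∨ lab n K Ξ (x + v) ≠ lab n K Ξ x)}
      ≤ volume.real ({x | x ∈ Sq n c ∧ x + v ∉ Sq n c} ∪
          ⋃ k ∈ (Finset.univ : Finset (Fin K)), E k) := measureReal_mono hsub hfin
    _ ≤ volume.real {x | x ∈ Sq n c ∧ x + v ∉ Sq n c} +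
          volume.real (⋃ k ∈ (Finset.univ : Finset (Fin K)), E k) := measureReal_union_le _ _
    _ ≤ 2 * ‖v‖ * S + ∑ k : Fin K, volume.real (E k) := by
        refine add_le_add (Sq_shift n c v).1 ?_
        exact measureReal_biUnion_finset_le _ _
    _ ≤ 2 * (Q * l) * S + ∑ _k : Fin K, δ * S ^ 2 := by
        refine add_le_add ?_ (Finset.sum_le_sum fun k _ => hE3 k)
        gcongr
    _ = 2 * (Q * l) * S + K * (δ * S ^ 2) := by
        rw [Finset.sum_const, Finset.card_univ, Fintype.card_fin, nsmul_eq_mul]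
    _ ≤ ε / 2 * S ^ 2 + ε / 2 * S ^ 2 := by
        have h1 : 2 * (Q * l) * S ≤ ε / 2 * S ^ 2 := by nlinarith
        have h2 : (K : ℝ) * (δ * S ^ 2) ≤ ε / 2 * S ^ 2 := by
          have h3 : (K : ℝ) * δ ≤ ε / 2 := by
            rw [hδ, mul_div_assoc', div_le_iff₀ (by positivity)]
            nlinarith
          calc (K : ℝ) * (δ * S ^ 2) = (K * δ) * S ^ 2 := by ring
            _ ≤ ε / 2 * S ^ 2 := mul_le_mul_of_nonneg_right h3 (by positivity)
        linarith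
    _ = ε * S ^ 2 := by ring

end TriDil
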