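import Pool.Agent.TriDil.Defs3
import Pool.Agent.TriDil.D0
import Pool.Agent.TriDil.D2
import Pool.Agent.TriDil.D3
import Pool.Agent.TriDil.D4
set_option autoImplicit false
open MeasureTheory Complex Set
namespace TriDil
open scoped ComplexConjugate

/-- measurability of the inner integral -/
theorem D5_meas (Q : Set ℂ) (F0 F1 F2 : ℂ → ℝ) (v1 v2 : ℝ → ℂ) (hF0 : Measurable F0)
    (hF1 : Measurable F1) (hF2 : Measurable F2) (hv1 : Measurable v1) (hv2 : Measurable v2) :
    Measurable fun θ : ℝ => ∫ x in Q, F0 x * F1 (x + v1 θ) * F2 (x + v2 θ) := by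
  have h : StronglyMeasurable (Function.uncurry fun (θ : ℝ) (x : ℂ) =>
      F0 x * F1 (x + v1 θ) * F2 (x + v2 θ)) := by
    apply Measurable.stronglyMeasurable
    unfold Function.uncurry
    simp only
    exact ((hF0.comp measurable_snd).mul (hF1.comp (measurable_snd.add (hv1.comp measurable_fst)))).mul
      (hF2.comp (measurable_snd.add (hv2.comp measurable_fst)))
  exact (h.integral_prod_right (ν := volume.restrict Q)).measurable

theorem D5_intOn {Q : Set ℂ} (hQ : volume Q < ⊤) {F : ℂ → ℝ} (hF : Measurable F)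
    {C : ℝ} (hC : ∀ x, |F x| ≤ C) : IntegrableOn F Q := by
  apply Measure.integrableOn_of_bounded hQ.ne hF.aestronglyMeasurable (M := C)
  exact Filter.Eventually.of_forall fun x => hC x

theorem D5_bd {Q : Set ℂ} (hQ : volume Q < ⊤) {F : ℂ → ℝ}
    {C : ℝ} (hC : ∀ x, |F x| ≤ C) : |∫ x in Q, F x| ≤ C * volume.real Q := by
  have := norm_setIntegral_le_of_norm_le_const (μ := volume) (f := F) (s := Q) (C := C) hQ (fun x _ => hC x)
  simpa using this

theorem D5_ii {w : ℝ → ℝ} (hw : Continuous w) {I : ℝ → ℝ} (hI : Measurable I) {C : ℝ}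
    (hC : ∀ θ, |I θ| ≤ C) : IntervalIntegrable (fun θ => w θ * I θ) volume 0 (2 * Real.pi) := by
  have h0 : IntervalIntegrable w volume 0 (2 * Real.pi) := hw.intervalIntegrable _ _
  rw [intervalIntegrable_iff] at h0 ⊢
  have := h0.bdd_mul (g := w) (f := I) (c := C) hI.aestronglyMeasurable.restrict
    (Filter.Eventually.of_forall fun x => hC x)
  refine this.congr (Filter.Eventually.of_forall fun x => ?_)
  simp [mul_comm]

theorem D5_shift {Q : Set ℂ} (mQ : MeasurableSet Q) (hQ : volume Q < ⊤) {h : ℂ → ℝ} (mh : Measurable h)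
    (h0 : ∀ x, 0 ≤ h x) (h1 : ∀ x, h x ≤ 1) (v : ℂ) {s : ℝ} (hs : volume.real {x | x ∈ Q ∧ x + v ∉ Q} ≤ s) :
    ∫ x in Q, h (x + v) ≤ (∫ x in Q, h x) + s := by
  have mshift : Measurable fun x : ℂ => x + v := measurable_id.add_const v
  have mS : MeasurableSet {x : ℂ | x + v ∈ Q} := mshift mQ
  have e1 : ∫ x in Q, h (x + v) = (∫ x in Q ∩ {x : ℂ | x + v ∈ Q}, h (x + v)) +
      ∫ x in Q \ {x : ℂ | x + v ∈ Q}, h (x + v) := by
    rw [integral_inter_add_sdiff mS]
    exact D5_intOn hQ (mh.comp mshift) (C := 1) fun x => by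
      rw [abs_of_nonneg (h0 _)]; exact h1 _
  have e2 : ∫ x in Q ∩ {x : ℂ | x + v ∈ Q}, h (x + v) ≤ ∫ x in Q, h x := by
    calc ∫ x in Q ∩ {x : ℂ | x + v ∈ Q}, h (x + v) ≤ ∫ x in {x : ℂ | x + v ∈ Q}, h (x + v) := by
          apply setIntegral_mono_set
          · have : {x : ℂ | x + v ∈ Q} = (fun x => x + v) ⁻¹' Q := rfl
            rw [this]
            have mp : MeasurePreserving (fun x : ℂ => x + v) volume volume := measurePreserving_add_right _ v
            have := (mp.integrableOn_comp_preimage (MeasurableEquiv.addRight v).measurableEmbedding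
              (f := h) (s := Q)).2 (D5_intOn hQ mh (C := 1) fun x => by
                rw [abs_of_nonneg (h0 _)]; exact h1 _)
            exact this
          · exact Filter.Eventually.of_forall fun x => h0 _
          · exact (inter_subset_right).eventuallyLE
      _ = ∫ x in Q, h x := by
          have mp : MeasurePreserving (fun x : ℂ => x + v) volume volume := measurePreserving_add_right _ v
          exact mp.setIntegral_preimage_emb (MeasurableEquiv.addRight v).measurableEmbedding h Q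
  have e3 : ∫ x in Q \ {x : ℂ | x + v ∈ Q}, h (x + v) ≤ s := by
    have hf : volume (Q \ {x : ℂ | x + v ∈ Q}) < ⊤ := lt_of_le_of_lt (measure_mono sdiff_subset) hQ
    have := D5_bd hf (F := fun x => h (x + v)) (C := 1) fun x => by
      rw [abs_of_nonneg (h0 _)]; exact h1 _
    rw [one_mul] at this
    refine (le_abs_self _).trans (this.trans (le_trans (le_of_eq ?_) hs))
    congr 1
  linarith

theorem D5_add3 {μ : Measure ℂ} {a b c : ℂ → ℝ} (ha : Integrable a μ) (hb : Integrable b μ) (hc : Integrable c μ) :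
    ∫ x, (a x + b x + c x) ∂μ = (∫ x, a x ∂μ) + (∫ x, b x ∂μ) + ∫ x, c x ∂μ := by
  have h1 := integral_add ha hb
  have h2 := integral_add (ha.add hb) hc
  simp only [Pi.add_apply] at h2
  rw [h2, h1]

/-- the inequality on one good square -/
theorem D5_square (Q : Set ℂ) (mQ : MeasurableSet Q) (hQ : volume Q < ⊤) (f g f1 : ℂ → ℝ)
    (mf : Measurable f) (mg : Measurable g) (mf1 : Measurable f1)
    (f00 : ∀ x, 0 ≤ f x) (f01 : ∀ x, f x ≤ 1) (g00 : ∀ x, 0 ≤ g x) (g01 : ∀ x, g x ≤ 1)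
    (f10 : ∀ x, 0 ≤ f1 x) (f11 : ∀ x, f1 x ≤ 1)
    (w : ℝ → ℝ) (cw : Continuous w) (w0 : ∀ θ, 0 ≤ w θ) (hw : Real.pi ≤ ∫ θ in (0 : ℝ)..(2 * Real.pi), w θ)
    (v1 v2 : ℝ → ℂ) (mv1 : Measurable v1) (mv2 : Measurable v2)
    (hz : ∀ x θ, f x * f (x + v1 θ) * f (x + v2 θ) = 0)
    (s e τ : ℝ) (e0 : 0 ≤ e) (τ0 : 0 ≤ τ)
    (hs1 : ∀ θ, volume.real {x | x ∈ Q ∧ x + v1 θ ∉ Q} ≤ s)
    (hs2 : ∀ θ, volume.real {x | x ∈ Q ∧ x + v2 θ ∉ Q} ≤ s)
    (ht : ∀ θ, w θ ≤ τ ∨ (volume.real {x | x ∈ Q ∧ f1 (x + v1 θ) ≠ f1 x} ≤ e ∧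
      volume.real {x | x ∈ Q ∧ f1 (x + v2 θ) ≠ f1 x} ≤ e)) :
    ∫ x in Q, f x * f1 x ^ 2 ≤
      (|∫ θ in (0 : ℝ)..(2 * Real.pi), w θ * ∫ x in Q, f x * f (x + v1 θ) * (f (x + v2 θ) - g (x + v2 θ))| +
       |∫ θ in (0 : ℝ)..(2 * Real.pi), w θ * ∫ x in Q, f x * (f (x + v1 θ) - g (x + v1 θ)) * g (x + v2 θ)|)
        / Real.pi + 2 * (∫ x in Q, |g x - f1 x|) + 2 * s + 2 * e + 4 * τ * volume.real Q := by
  set a := ∫ x in Q, f x * f1 x ^ 2 with ha
  set d := ∫ x in Q, |g x - f1 x| with hd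
  set q := volume.real Q with hq
  have q0 : 0 ≤ q := measureReal_nonneg
  have d0 : 0 ≤ d := integral_nonneg fun x => abs_nonneg _
  have s0 : 0 ≤ s := le_trans measureReal_nonneg (hs1 0)
  have mfg : Measurable fun x => f x - g x := mf.sub mg
  have mh : Measurable fun x => |g x - f1 x| := (mg.sub mf1).abs
  have ab1 : ∀ x, |f x| ≤ 1 := fun x => by rw [abs_of_nonneg (f00 x)]; exact f01 x
  have ab2 : ∀ x, |g x| ≤ 1 := fun x => by rw [abs_of_nonneg (g00 x)]; exact g01 x
  have ab3 : ∀ x, |f1 x| ≤ 1 := fun x => by rw [abs_of_nonneg (f10 x)]; exact f11 x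
  have ab4 : ∀ x, |f x - g x| ≤ 1 := fun x => by
    rw [abs_le]; constructor <;> linarith [f00 x, f01 x, g00 x, g01 x]
  have ab5 : ∀ x, |g x - f1 x| ≤ 1 := fun x => by
    rw [abs_le]; constructor <;> linarith [f10 x, f11 x, g00 x, g01 x]
  have prod3 : ∀ x y z : ℝ, |x| ≤ 1 → |y| ≤ 1 → |z| ≤ 1 → |x * y * z| ≤ 1 := by
    intro x y z hx hy hz
    rw [abs_mul, abs_mul]
    calc |x| * |y| * |z| ≤ 1 * 1 * 1 := by gcongr
      _ = 1 := by norm_num
  -- the two error functions
  let I1 : ℝ → ℝ := fun θ => ∫ x in Q, f x * f (x + v1 θ) * (f (x + v2 θ) - g (x + v2 θ))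
  let I2 : ℝ → ℝ := fun θ => ∫ x in Q, f x * (f (x + v1 θ) - g (x + v1 θ)) * g (x + v2 θ)
  have mI1 : Measurable I1 := D5_meas Q f f (fun x => f x - g x) v1 v2 mf mf mfg mv1 mv2
  have mI2 : Measurable I2 := D5_meas Q f (fun x => f x - g x) g v1 v2 mf mfg mg mv1 mv2
  have bI1 : ∀ θ, |I1 θ| ≤ 1 * q := fun θ => D5_bd hQ fun x => prod3 _ _ _ (ab1 _) (ab1 _) (ab4 _)
  have bI2 : ∀ θ, |I2 θ| ≤ 1 * q := fun θ => D5_bd hQ fun x => prod3 _ _ _ (ab1 _) (ab4 _) (ab2 _)
  have iI1 := D5_ii cw mI1 bI1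
  have iI2 := D5_ii cw mI2 bI2
  have key : ∀ θ, w θ * a ≤ -(w θ * I1 θ) - (w θ * I2 θ) + w θ * (2 * d + 2 * s + 2 * e) + 2 * τ * q := by
    intro θ
    have msh1 : Measurable fun x : ℂ => x + v1 θ := measurable_id.add_const _
    have msh2 : Measurable fun x : ℂ => x + v2 θ := measurable_id.add_const _
    -- J = ∫ f f1 f1, K = ∫ f g g
    set J := ∫ x in Q, f x * f1 (x + v1 θ) * f1 (x + v2 θ) with hJ
    set Kg := ∫ x in Q, f x * g (x + v1 θ) * g (x + v2 θ) with hKg
    have iJ : IntegrableOn (fun x => f x * f1 (x + v1 θ) * f1 (x + v2 θ)) Q :=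
      D5_intOn hQ ((mf.mul (mf1.comp msh1)).mul (mf1.comp msh2)) fun x => prod3 _ _ _ (ab1 _) (ab3 _) (ab3 _)
    have iK : IntegrableOn (fun x => f x * g (x + v1 θ) * g (x + v2 θ)) Q :=
      D5_intOn hQ ((mf.mul (mg.comp msh1)).mul (mg.comp msh2)) fun x => prod3 _ _ _ (ab1 _) (ab2 _) (ab2 _)
    have i1 : IntegrableOn (fun x => f x * f (x + v1 θ) * (f (x + v2 θ) - g (x + v2 θ))) Q :=
      D5_intOn hQ ((mf.mul (mf.comp msh1)).mul (mfg.comp msh2)) fun x => prod3 _ _ _ (ab1 _) (ab1 _) (ab4 _)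
    have i2 : IntegrableOn (fun x => f x * (f (x + v1 θ) - g (x + v1 θ)) * g (x + v2 θ)) Q :=
      D5_intOn hQ ((mf.mul (mfg.comp msh1)).mul (mg.comp msh2)) fun x => prod3 _ _ _ (ab1 _) (ab4 _) (ab2 _)
    have ih1 : IntegrableOn (fun x => |g (x + v1 θ) - f1 (x + v1 θ)|) Q :=
      D5_intOn hQ (mh.comp msh1) (C := 1) fun x => by rw [abs_abs]; exact ab5 _
    have ih2 : IntegrableOn (fun x => |g (x + v2 θ) - f1 (x + v2 θ)|) Q :=
      D5_intOn hQ (mh.comp msh2) (C := 1) fun x => by rw [abs_abs]; exact ab5 _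
    -- Kg = - I1 - I2
    have eK : Kg = - I1 θ - I2 θ := by
      have : Kg + I1 θ + I2 θ = 0 := by
        show Kg + (∫ x in Q, f x * f (x + v1 θ) * (f (x + v2 θ) - g (x + v2 θ))) +
          (∫ x in Q, f x * (f (x + v1 θ) - g (x + v1 θ)) * g (x + v2 θ)) = 0
        rw [hKg, ← D5_add3 iK i1 i2]
        rw [← integral_zero ℂ ℝ (μ := volume.restrict Q)]
        congr 1
        funext x
        have := hz x θ
        linear_combination this
      linarith
    -- J ≤ Kg + 2d + 2s
    have eJ : J ≤ Kg + (2 * d + 2 * s) := by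
      have h1 : J ≤ Kg + (∫ x in Q, |g (x + v1 θ) - f1 (x + v1 θ)|) +
          (∫ x in Q, |g (x + v2 θ) - f1 (x + v2 θ)|) := by
        rw [hJ, hKg, ← D5_add3 iK ih1 ih2]
        apply setIntegral_mono_on iJ ((iK.add ih1).add ih2) mQ
        intro x _
        simp only [Pi.add_apply]
        have a0 := f00 x
        have a1 := f01 x
        have b0 := f10 (x + v1 θ)
        have b1 := f11 (x + v1 θ)
        have c0 := f10 (x + v2 θ)
        have c1 := f11 (x + v2 θ)
        have b0' := g00 (x + v1 θ)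
        have b1' := g01 (x + v1 θ)
        have c0' := g00 (x + v2 θ)
        have c1' := g01 (x + v2 θ)
        generalize f x = A at *
        generalize f1 (x + v1 θ) = B at *
        generalize f1 (x + v2 θ) = C at *
        generalize g (x + v1 θ) = B' at *
        generalize g (x + v2 θ) = C' at *
        have t1 : A * B * C - A * B' * C' = A * (B - B') * C + A * B' * (C - C') := by ring
        have t2 : A * (B - B') * C ≤ |B' - B| := by
          refine (le_abs_self _).trans ?_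
          rw [abs_mul, abs_mul, abs_sub_comm B B']
          calc |A| * |B' - B| * |C| ≤ 1 * |B' - B| * 1 := by
                gcongr
                · rw [abs_of_nonneg a0]; exact a1
                · rw [abs_of_nonneg c0]; exact c1
            _ = _ := by ring
        have t3 : A * B' * (C - C') ≤ |C' - C| := by
          refine (le_abs_self _).trans ?_
          rw [abs_mul, abs_mul, abs_sub_comm C C']
          calc |A| * |B'| * |C' - C| ≤ 1 * 1 * |C' - C| := by
                gcongr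
                · rw [abs_of_nonneg a0]; exact a1
                · rw [abs_of_nonneg b0']; exact b1'
            _ = _ := by ring
        linarith
      have h2 := D5_shift mQ hQ mh (fun x => abs_nonneg _) (fun x => (abs_le.1 (by rw [abs_abs]; exact ab5 x)).2)
        (v1 θ) (hs1 θ)
      have h3 := D5_shift mQ hQ mh (fun x => abs_nonneg _) (fun x => (abs_le.1 (by rw [abs_abs]; exact ab5 x)).2)
        (v2 θ) (hs2 θ)
      linarith
    have aq : a ≤ q := by
      have := D5_bd hQ (F := fun x => f x * f1 x ^ 2) (C := 1) fun x => by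
        have := prod3 (f x) (f1 x) (f1 x) (ab1 _) (ab3 _) (ab3 _)
        rwa [mul_assoc, ← sq] at this
      rw [one_mul] at this
      exact (le_abs_self _).trans this
    have J0 : 0 ≤ J := integral_nonneg fun x => by
      have := f00 x; have := f10 (x + v1 θ); have := f10 (x + v2 θ); positivity
    rcases ht θ with ht | ⟨ht1, ht2⟩
    · have k1 : w θ * a ≤ τ * q := by
        have a0 : 0 ≤ a := integral_nonneg fun x => by
          have := f00 x; have := f10 x; positivity
        calc w θ * a ≤ τ * a := by gcongr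
          _ ≤ τ * q := by gcongr
      have k2 : 0 ≤ w θ * (Kg + (2 * d + 2 * s)) := mul_nonneg (w0 θ) (le_trans J0 eJ)
      rw [eK] at k2
      have k3 : 0 ≤ w θ * (2 * e) := mul_nonneg (w0 θ) (by linarith)
      have k4 : 0 ≤ τ * q := mul_nonneg τ0 q0
      nlinarith
    · have k1 : a ≤ J + 2 * e := by
        have mE1 : MeasurableSet {x | f1 (x + v1 θ) ≠ f1 x} :=
          (measurableSet_eq_fun (mf1.comp msh1) mf1).compl
        have mE2 : MeasurableSet {x | f1 (x + v2 θ) ≠ f1 x} :=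
          (measurableSet_eq_fun (mf1.comp msh2) mf1).compl
        have e1 : ∀ v : ℂ, MeasurableSet {x | f1 (x + v) ≠ f1 x} →
            volume.real {x | x ∈ Q ∧ f1 (x + v) ≠ f1 x} ≤ e →
            ∫ x in Q, ({x | f1 (x + v) ≠ f1 x}.indicator (fun _ => (1 : ℝ)) x) ≤ e := by
          intro v hm hv
          rw [setIntegral_indicator hm]
          simp only [integral_const, smul_eq_mul, mul_one, MeasurableSet.univ, measureReal_restrict_apply, univ_inter]
          exact hv
        have ie : ∀ v : ℂ, MeasurableSet {x | f1 (x + v) ≠ f1 x} →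
            IntegrableOn ({x | f1 (x + v) ≠ f1 x}.indicator (fun _ => (1 : ℝ))) Q := by
          intro v hm
          refine D5_intOn hQ (measurable_const.indicator hm) (C := 1) fun x => ?_
          by_cases hx : x ∈ {x | f1 (x + v) ≠ f1 x}
          · rw [indicator_of_mem hx]; norm_num
          · rw [indicator_of_notMem hx]; norm_num
        have k2 : a ≤ J + (∫ x in Q, ({x | f1 (x + v1 θ) ≠ f1 x}.indicator (fun _ => (1 : ℝ)) x)) +
            (∫ x in Q, ({x | f1 (x + v2 θ) ≠ f1 x}.indicator (fun _ => (1 : ℝ)) x)) := by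
          rw [ha, hJ, ← D5_add3 iJ (ie _ mE1) (ie _ mE2)]
          apply setIntegral_mono_on _ ((iJ.add (ie _ mE1)).add (ie _ mE2)) mQ
          · intro x _
            simp only [Pi.add_apply]
            have a0 := f00 x
            have a1 := f01 x
            have b0 := f10 x
            have b1 := f11 x
            have c0 := f10 (x + v1 θ)
            have c1 := f10 (x + v2 θ)
            have l1 : f x * f1 x ^ 2 ≤ 1 := by
              have := prod3 (f x) (f1 x) (f1 x) (ab1 _) (ab3 _) (ab3 _)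
              rw [mul_assoc, ← sq] at this
              exact (le_abs_self _).trans this
            have l2 : 0 ≤ f x * f1 (x + v1 θ) * f1 (x + v2 θ) := by positivity
            have n1 : 0 ≤ {x | f1 (x + v1 θ) ≠ f1 x}.indicator (fun _ => (1 : ℝ)) x :=
              indicator_nonneg (fun _ _ => zero_le_one) _
            have n2 : 0 ≤ {x | f1 (x + v2 θ) ≠ f1 x}.indicator (fun _ => (1 : ℝ)) x :=
              indicator_nonneg (fun _ _ => zero_le_one) _
            by_cases h1 : f1 (x + v1 θ) = f1 x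
            · by_cases h2 : f1 (x + v2 θ) = f1 x
              · rw [h1, h2]
                nlinarith
              · have : x ∈ {x | f1 (x + v2 θ) ≠ f1 x} := h2
                rw [indicator_of_mem this]
                linarith
            · have : x ∈ {x | f1 (x + v1 θ) ≠ f1 x} := h1
              rw [indicator_of_mem this]
              linarith
          · exact D5_intOn hQ (mf.mul (mf1.pow_const 2)) (C := 1) fun x => by
              have := prod3 (f x) (f1 x) (f1 x) (ab1 _) (ab3 _) (ab3 _)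
              rwa [mul_assoc, ← sq] at this
        have := e1 _ mE1 ht1
        have := e1 _ mE2 ht2
        linarith
      have k4 : 0 ≤ τ * q := mul_nonneg τ0 q0
      have k5 : w θ * a ≤ w θ * (- I1 θ - I2 θ + (2 * d + 2 * s) + 2 * e) := by
        apply mul_le_mul_of_nonneg_left _ (w0 θ)
        rw [← eK]; linarith
      nlinarith
  -- integrate
  have iw : IntervalIntegrable w volume 0 (2 * Real.pi) := cw.intervalIntegrable _ _
  have j1 : IntervalIntegrable (fun θ => -(w θ * I1 θ)) volume 0 (2 * Real.pi) := iI1.neg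
  have j2 : IntervalIntegrable (fun θ => -(w θ * I1 θ) - w θ * I2 θ) volume 0 (2 * Real.pi) := j1.sub iI2
  have j3 : IntervalIntegrable (fun θ => w θ * (2 * d + 2 * s + 2 * e)) volume 0 (2 * Real.pi) := iw.mul_const _
  have j4 : IntervalIntegrable (fun θ => -(w θ * I1 θ) - w θ * I2 θ + w θ * (2 * d + 2 * s + 2 * e))
    volume 0 (2 * Real.pi) := j2.add j3
  have j5 : IntervalIntegrable (fun _ : ℝ => 2 * τ * q) volume 0 (2 * Real.pi) := intervalIntegrable_const
  have hint : ∫ θ in (0 : ℝ)..(2 * Real.pi), w θ * a ≤ ∫ θ in (0 : ℝ)..(2 * Real.pi),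
      (-(w θ * I1 θ) - (w θ * I2 θ) + w θ * (2 * d + 2 * s + 2 * e) + 2 * τ * q) := by
    apply intervalIntegral.integral_mono_on (by positivity) (iw.mul_const _)
    · exact j4.add j5
    · intro θ _
      exact key θ
  rw [intervalIntegral.integral_add j4 j5, intervalIntegral.integral_add j2 j3,
    intervalIntegral.integral_sub j1 iI2, intervalIntegral.integral_neg,
    intervalIntegral.integral_mul_const, intervalIntegral.integral_mul_const,
    intervalIntegral.integral_const] at hint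
  set W := ∫ θ in (0 : ℝ)..(2 * Real.pi), w θ with hW
  have pp := Real.pi_pos
  have Wp : 0 < W := lt_of_lt_of_le pp hw
  set D1 := ∫ θ in (0 : ℝ)..(2 * Real.pi), w θ * I1 θ with hD1
  set D2 := ∫ θ in (0 : ℝ)..(2 * Real.pi), w θ * I2 θ with hD2
  show a ≤ (|D1| + |D2|) / Real.pi + 2 * d + 2 * s + 2 * e + 4 * τ * q
  have h1 : W * a ≤ |D1| + |D2| + W * (2 * d + 2 * s + 2 * e) + 4 * Real.pi * (τ * q) := by
    have := neg_abs_le D1
    have := neg_abs_le D2
    rw [smul_eq_mul] at hint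
    linarith
  have h2 : a ≤ (|D1| + |D2|) / W + (2 * d + 2 * s + 2 * e) + 4 * Real.pi * (τ * q) / W := by
    have h3 : a = W * a / W := by field_simp
    rw [h3]
    calc W * a / W ≤ (|D1| + |D2| + W * (2 * d + 2 * s + 2 * e) + 4 * Real.pi * (τ * q)) / W := by gcongr
      _ = _ := by field_simp
  have h3 : (|D1| + |D2|) / W ≤ (|D1| + |D2|) / Real.pi := by gcongr
  have h4 : 4 * Real.pi * (τ * q) / W ≤ 4 * τ * q := by
    rw [div_le_iff₀ Wp]
    have : 0 ≤ τ * q := mul_nonneg τ0 q0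
    nlinarith
  linarith

theorem D5_measurable_cell (d : ℝ) : Measurable (cell d) := by
  unfold cell
  apply Measurable.prodMk
  · exact Int.measurable_floor.comp (Complex.measurable_re.div_const d)
  · exact Int.measurable_floor.comp (Complex.measurable_im.div_const d)

/-! ## Section 12: the counting theorem -/
theorem COUNT (ω : ℂ) (h0 : ω.im ≠ 0) (h1 : ω.re ≠ 0) (h2 : ω.re ≠ 1) (ε0 : ℝ) (hε : 0 < ε0) (hε1 : ε0 ≤ 1) :
    ∃ (m : ℕ → ℕ) (c1 : ℝ) (C1 ν L : ℕ → ℝ), 0 < c1 ∧ (∀ K, 0 < ν K) ∧ (∀ K, ν K ≤ 1) ∧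
    ∀ (K : ℕ) (l : ℝ) (A : Set ℂ) (N : ℤ) (c : ℤ × ℤ) (n a : ℤ) (Ξ : ℤ × ℤ → ℕ → ℂ) (f1 g : ℂ → ℝ),
    0 < l → Cfg ω ε0 K (m K) c1 (C1 K) (ν K) (L K) l A N c n a Ξ f1 g →
    (∀ (x : ℂ) (θ : ℝ), ¬ (x ∈ A ∧ x + l * U θ ∈ A ∧ x + l * ω * U θ ∈ A)) →
    ∫ x in Sq N c, f1 x ^ 3 ≤ 20 * ε0 * volume.real (Sq N c) := by
  set P : ℝ := 1 + ‖ω‖ with hP
  have P1 : 1 ≤ P := by rw [hP]; linarith [norm_nonneg ω]
  have Pω : ‖ω‖ ≤ P := by rw [hP]; linarith
  choose κ L0 hκ hκ2 hL0 hlab using fun K : ℕ => lab_shift P K ε0 hε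
  choose m hm using fun K : ℕ => wt_tail K (κ K) ε0 (hκ K) (hκ2 K) hε
  obtain ⟨c1, hc1, hwi⟩ := wt_int
  choose C1 hC1 hwt using fun K : ℕ => hwi K (m K)
  choose ν0 hν0 hun using fun K : ℕ => unif_small ω h0 h1 h2 K (m K) ε0 hε
  refine ⟨m, c1, C1, fun K => min (ν0 K) 1, fun K => max (L0 K) (P / ε0), hc1,
    fun K => lt_min (hν0 K) one_pos, fun K => min_le_right _ _, ?_⟩
  intro K l A N c n a Ξ f1 g hl hc hA
  have hνp : 0 < min (ν0 K) 1 := lt_min (hν0 K) one_pos
  have S0 : (0 : ℝ) < (2 : ℝ) ^ n := by positivity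
  set S : ℝ := (2 : ℝ) ^ n with hS
  set W := Sq N c with hW
  have hWv : volume W < ⊤ := Sq_fin N c
  -- l is small compared to S
  have lS1 : L0 K * l ≤ S := le_trans (mul_le_mul_of_nonneg_right (le_max_left _ _) hl.le) hc.Ln
  have lS2 : P * l ≤ ε0 * S := by
    have h := le_trans (mul_le_mul_of_nonneg_right (le_max_right _ _) hl.le) hc.Ln
    rw [div_mul_eq_mul_div, div_le_iff₀ hε] at h
    linarith
  set f : ℂ → ℝ := A.indicator 1 with hf
  have mf : Measurable f := measurable_one.indicator hc.mA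
  have f00 : ∀ x, 0 ≤ f x := fun x => indicator_nonneg (fun _ _ => zero_le_one) x
  have f01 : ∀ x, f x ≤ 1 := fun x => indicator_le_self' (fun _ _ => zero_le_one) x
  have fW : ∀ x, x ∉ W → f x = 0 := fun x hx => indicator_of_notMem (fun h => hx (hc.AW h)) _
  have ab1 : ∀ x, |f x| ≤ 1 := fun x => by rw [abs_of_nonneg (f00 x)]; exact f01 x
  have ab2 : ∀ x, |g x| ≤ 1 := fun x => by rw [abs_of_nonneg (hc.g0 x)]; exact hc.g1 x
  have ab4 : ∀ x, |f x - g x| ≤ 1 := fun x => by
    rw [abs_le]; constructor <;> linarith [f00 x, f01 x, hc.g0 x, hc.g1 x]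
  have mfg : Measurable fun x => f x - g x := mf.sub hc.mg
  have fz : ∀ x θ, f x * f (x + l * U θ) * f (x + l * ω * U θ) = 0 := by
    intro x θ
    by_cases h1 : x ∈ A
    · by_cases h2 : x + l * U θ ∈ A
      · by_cases h3 : x + l * ω * U θ ∈ A
        · exact absurd ⟨h1, h2, h3⟩ (hA x θ)
        · have : f (x + l * ω * U θ) = 0 := indicator_of_notMem h3 _
          rw [this, mul_zero]
      · have : f (x + l * U θ) = 0 := indicator_of_notMem h2 _
        rw [this]; ring
    · have : f x = 0 := indicator_of_notMem h1 _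
      rw [this]; ring
  -- the two uniformity sums
  let D1 : ℤ × ℤ → ℝ := fun c' => ∫ θ in (0 : ℝ)..(2 * Real.pi), wt ω K (m K) (Ξ c') l θ *
      ∫ x in Sq n c', f x * f (x + l * U θ) * (f (x + l * ω * U θ) - g (x + l * ω * U θ))
  let D2 : ℤ × ℤ → ℝ := fun c' => ∫ θ in (0 : ℝ)..(2 * Real.pi), wt ω K (m K) (Ξ c') l θ *
      ∫ x in Sq n c', f x * (f (x + l * U θ) - g (x + l * U θ)) * g (x + l * ω * U θ)
  have hun' : volume.real {x | x ∈ Sq N c ∧ ¬ unif a (min (ν0 K) 1) (fun y => f y - g y)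
      (cell ((2 : ℝ) ^ a) x)} ≤ min (ν0 K) 1 * volume.real (Sq N c) := hc.un
  have sD1 : ∑ c' ∈ subs n N c, |D1 c'| ≤ ε0 * volume.real W :=
    hun K (min (ν0 K) 1) hνp (min_le_left _ _) l a n N c hc.an hc.nN hc.la hc.la' Ξ f f (fun x => f x - g x)
      mf mf mfg ab1 ab1 ab4 fW (fun x hx => by rw [fW x hx, hc.gW x hx, sub_zero]) (Or.inr hun')
  have sD2 : ∑ c' ∈ subs n N c, |D2 c'| ≤ ε0 * volume.real W :=
    hun K (min (ν0 K) 1) hνp (min_le_left _ _) l a n N c hc.an hc.nN hc.la hc.la' Ξ f (fun x => f x - g x) g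
      mf mfg hc.mg ab1 ab4 ab2 (fun x hx => by rw [fW x hx, hc.gW x hx, sub_zero]) hc.gW (Or.inl hun')
  -- bad squares
  classical
  let bad : ℤ × ℤ → ℝ := fun c' => if res ω K (m K) c1 (C1 K) l (Ξ c') then S ^ 2 else 0
  have sbad : ∑ c' ∈ subs n N c, bad c' ≤ ε0 * volume.real W := by
    have mE : MeasurableSet {x : ℂ | res ω K (m K) c1 (C1 K) l (Ξ (cell ((2 : ℝ) ^ n) x))} :=
      D5_measurable_cell ((2 : ℝ) ^ n) (MeasurableSet.of_discrete (s := {c' | res ω K (m K) c1 (C1 K) l (Ξ c')}))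
    have h := vol_subs n N hc.nN c _ mE
    have h' := hc.nonres
    have e : {x | x ∈ Sq N c ∧ x ∈ {x : ℂ | res ω K (m K) c1 (C1 K) l (Ξ (cell ((2 : ℝ) ^ n) x))}} =
      {x | x ∈ Sq N c ∧ res ω K (m K) c1 (C1 K) l (Ξ (cell ((2 : ℝ) ^ n) x))} := rfl
    rw [e] at h
    refine le_trans (le_of_eq ?_) h'
    rw [h]
    apply Finset.sum_congr rfl
    intro c' _
    show (if res ω K (m K) c1 (C1 K) l (Ξ c') then S ^ 2 else 0) = _
    by_cases hr : res ω K (m K) c1 (C1 K) l (Ξ c')
    · rw [if_pos hr, hS, ← Sq_vol n c']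
      congr 1
      ext x
      constructor
      · intro hx
        refine ⟨hx, ?_⟩
        have : cell ((2 : ℝ) ^ n) x = c' := hx
        show res ω K (m K) c1 (C1 K) l (Ξ (cell ((2 : ℝ) ^ n) x))
        rw [this]; exact hr
      · intro hx; exact hx.1
    · rw [if_neg hr]
      have : {x | x ∈ Sq n c' ∧ x ∈ {x : ℂ | res ω K (m K) c1 (C1 K) l (Ξ (cell ((2 : ℝ) ^ n) x))}} = ∅ := by
        ext x
        constructor
        · rintro ⟨hx, hx'⟩
          have h3 : cell ((2 : ℝ) ^ n) x = c' := hx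
          have h4 : res ω K (m K) c1 (C1 K) l (Ξ (cell ((2 : ℝ) ^ n) x)) := hx'
          rw [h3] at h4
          exact hr h4
        · intro hx; exact absurd hx (notMem_empty x)
      rw [this]; simp
  -- inequality on each square
  have hsq : ∀ c' ∈ subs n N c, ∫ x in Sq n c', f x * f1 x ^ 2 ≤
      (|D1 c'| + |D2 c'|) / Real.pi + 2 * (∫ x in Sq n c', |g x - f1 x|) + 10 * ε0 * S ^ 2 + bad c' := by
    intro c' hc'
    have hvol : volume.real (Sq n c') = S ^ 2 := Sq_vol n c'
    have hfin : volume (Sq n c') < ⊤ := Sq_fin n c'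
    have hsub : Sq n c' ⊆ W := Sq_sub n N hc.nN c c' hc'
    have pp := Real.pi_pos
    by_cases hr : res ω K (m K) c1 (C1 K) l (Ξ c')
    · have hb : bad c' = S ^ 2 := if_pos hr
      rw [hb]
      have h1 := D5_bd hfin (F := fun x => f x * f1 x ^ 2) (C := 1) fun x => by
        rw [abs_of_nonneg (mul_nonneg (f00 x) (sq_nonneg _))]
        have := hc.f10 x
        have := hc.f11 x
        have h3 : f1 x ^ 2 ≤ 1 := by nlinarith
        calc f x * f1 x ^ 2 ≤ 1 * 1 := mul_le_mul (f01 x) h3 (sq_nonneg _) zero_le_one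
          _ = 1 := one_mul _
      rw [one_mul, hvol] at h1
      have h2 : 0 ≤ (|D1 c'| + |D2 c'|) / Real.pi := by positivity
      have h3 : 0 ≤ ∫ x in Sq n c', |g x - f1 x| := integral_nonneg fun x => abs_nonneg _
      have h4 : 0 ≤ 10 * ε0 * S ^ 2 := by positivity
      have := (le_abs_self _).trans h1
      linarith
    · have hb : bad c' = 0 := if_neg hr
      rw [hb]
      -- norm bounds of the shifts
      have n1 : ∀ θ, ‖(l : ℂ) * U θ‖ ≤ P * l := by
        intro θ
        rw [norm_mul, norm_U, Complex.norm_real, Real.norm_of_nonneg hl.le]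
        nlinarith
      have n2 : ∀ θ, ‖(l : ℂ) * ω * U θ‖ ≤ P * l := by
        intro θ
        rw [norm_mul, norm_mul, norm_U, Complex.norm_real, Real.norm_of_nonneg hl.le]
        nlinarith
      have sh : ∀ v : ℂ, ‖v‖ ≤ P * l → volume.real {x | x ∈ Sq n c' ∧ x + v ∉ Sq n c'} ≤ 2 * ε0 * S ^ 2 := by
        intro v hv
        refine (Sq_shift n c' v).1.trans ?_
        calc 2 * ‖v‖ * (2 : ℝ) ^ n ≤ 2 * (ε0 * S) * S := by
              gcongr
              exact hv.trans lS2
          _ = 2 * ε0 * S ^ 2 := by ring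
      obtain ⟨F, hF⟩ := hc.f1lab
      have sl : ∀ v : ℂ, ‖v‖ ≤ P * l → (∀ k : Fin K, ∃ j : ℤ, |ip (Ξ c' k) v - j| < κ K) →
          volume.real {x | x ∈ Sq n c' ∧ f1 (x + v) ≠ f1 x} ≤ ε0 * S ^ 2 := by
        intro v hv hk
        refine le_trans ?_ (hlab K n c' Ξ l v hl lS1 hv hk)
        apply measureReal_mono
        · rintro x ⟨hx, hne⟩
          refine ⟨hx, ?_⟩
          by_contra hcon
          push Not at hcon
          apply hne
          rw [hF x (hsub hx), hF (x + v) (hsub hcon.1), hcon.2]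
        · exact (lt_of_le_of_lt (measure_mono fun x hx => hx.1) hfin).ne
      have hmain := D5_square (Sq n c') (Sq_meas n c') hfin f g f1 mf hc.mg hc.m1 f00 f01 hc.g0 hc.g1
        hc.f10 hc.f11 (wt ω K (m K) (Ξ c') l) (wt_continuous ω K (m K) (Ξ c') l)
        (wt_nonneg ω K (m K) (Ξ c') l) (hwt K ω (Ξ c') l hl hr)
        (fun θ => (l : ℂ) * U θ) (fun θ => (l : ℂ) * ω * U θ)
        (measurable_const.mul measurable_U) (measurable_const.mul measurable_U) fz
        (2 * ε0 * S ^ 2) (ε0 * S ^ 2) ε0 (by positivity) hε.le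
        (fun θ => sh _ (n1 θ)) (fun θ => sh _ (n2 θ)) (fun θ => by
          by_cases ht : ((∃ k : Fin K, ∀ j : ℤ, κ K ≤ |ip (Ξ c' k) (l * U θ) - j|) ∨
              (∃ k : Fin K, ∀ j : ℤ, κ K ≤ |ip (Ξ c' k) (l * ω * U θ) - j|))
          · exact Or.inl (hm K ω (Ξ c') l θ ht)
          · right
            rw [not_or] at ht
            obtain ⟨ht1, ht2⟩ := ht
            constructor
            · apply sl _ (n1 θ)
              intro k
              by_contra hcon
              push Not at hcon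
              exact ht1 ⟨k, hcon⟩
            · apply sl _ (n2 θ)
              intro k
              by_contra hcon
              push Not at hcon
              exact ht2 ⟨k, hcon⟩)
      rw [hvol] at hmain
      refine hmain.trans (le_of_eq ?_)
      show (|D1 c'| + |D2 c'|) / Real.pi + _ + _ + _ + _ = _
      ring
  -- summation
  have V0 : 0 ≤ volume.real W := measureReal_nonneg
  have ig : IntegrableOn (fun x => |g x - f1 x|) W := D5_intOn hWv (hc.mg.sub hc.m1).abs (C := 1) fun x => by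
    rw [abs_abs, abs_le]; constructor <;> linarith [hc.f10 x, hc.f11 x, hc.g0 x, hc.g1 x]
  have i2 : IntegrableOn (fun x => f x * f1 x ^ 2) W := D5_intOn hWv (mf.mul (hc.m1.pow_const 2)) (C := 1) fun x => by
    rw [abs_of_nonneg (mul_nonneg (f00 x) (sq_nonneg _))]
    have := hc.f10 x
    have := hc.f11 x
    have h3 : f1 x ^ 2 ≤ 1 := by nlinarith
    calc f x * f1 x ^ 2 ≤ 1 * 1 := mul_le_mul (f01 x) h3 (sq_nonneg _) zero_le_one
      _ = 1 := one_mul _
  have ig2 : IntegrableOn (fun x => (g x - f1 x) ^ 2) W :=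
    D5_intOn hWv ((hc.mg.sub hc.m1).pow_const 2) (C := 1) fun x => by
    rw [abs_of_nonneg (sq_nonneg _)]
    nlinarith [hc.f10 x, hc.f11 x, hc.g0 x, hc.g1 x]
  have tot : ∫ x in W, f x * f1 x ^ 2 ≤ (ε0 * volume.real W + ε0 * volume.real W) / Real.pi +
      2 * (∫ x in W, |g x - f1 x|) + 10 * ε0 * volume.real W + ε0 * volume.real W := by
    rw [hW, integral_subs n N hc.nN c _ i2, integral_subs n N hc.nN c _ ig]
    refine (Finset.sum_le_sum hsq).trans ?_
    rw [Finset.sum_add_distrib, Finset.sum_add_distrib, Finset.sum_add_distrib, ← Finset.sum_div,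
      Finset.sum_add_distrib, ← Finset.mul_sum, Finset.sum_const, nsmul_eq_mul]
    have hcard := subs_card n N hc.nN c
    have hWvol : volume.real (Sq N c) = ((2 : ℝ) ^ N) ^ 2 := Sq_vol N c
    have h5 : ((subs n N c).card : ℝ) * (10 * ε0 * S ^ 2) = 10 * ε0 * volume.real (Sq N c) := by
      rw [hWvol, ← hcard]; ring
    rw [h5]
    gcongr
  have hd : ∫ x in W, |g x - f1 x| ≤ 2 * ε0 * volume.real W := by
    have h6 : ∫ x in W, |g x - f1 x| ≤ ∫ x in W, ((g x - f1 x) ^ 2 * (1 / (2 * ε0)) + ε0 / 2) := by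
      apply setIntegral_mono_on ig ((ig2.mul_const _).add (integrableOn_const hWv.ne)) (Sq_meas N c)
      intro x _
      have h7 : 0 ≤ (|g x - f1 x| - ε0) ^ 2 := sq_nonneg _
      have h8 : (g x - f1 x) ^ 2 = |g x - f1 x| ^ 2 := (sq_abs _).symm
      simp only [Pi.add_apply]
      rw [h8]
      have h9 : |g x - f1 x| * (2 * ε0) ≤ |g x - f1 x| ^ 2 + ε0 ^ 2 := by nlinarith
      have h10 : |g x - f1 x| ≤ (|g x - f1 x| ^ 2 + ε0 ^ 2) / (2 * ε0) := by
        rw [le_div_iff₀ (by positivity)]; exact h9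
      calc |g x - f1 x| ≤ (|g x - f1 x| ^ 2 + ε0 ^ 2) / (2 * ε0) := h10
        _ = |g x - f1 x| ^ 2 * (1 / (2 * ε0)) + ε0 / 2 := by field_simp
    have h11 : ∫ x in W, ((g x - f1 x) ^ 2 * (1 / (2 * ε0)) + ε0 / 2) =
        (∫ x in W, (g x - f1 x) ^ 2) * (1 / (2 * ε0)) + ε0 / 2 * volume.real W := by
      rw [integral_add (ig2.mul_const _) (integrableOn_const hWv.ne), integral_mul_const]
      simp [mul_comm]
    rw [h11] at h6
    have h12 : (∫ x in W, (g x - f1 x) ^ 2) * (1 / (2 * ε0)) ≤ (2 * ε0 ^ 2 * volume.real W) * (1 / (2 * ε0)) := by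
      gcongr
      exact hc.L2
    have h13 : (2 * ε0 ^ 2 * volume.real W) * (1 / (2 * ε0)) = ε0 * volume.real W := by
      field_simp
    have h14 : 0 ≤ ε0 * volume.real W := by positivity
    linarith
  have hpi : (ε0 * volume.real W + ε0 * volume.real W) / Real.pi ≤ ε0 * volume.real W := by
    have h14 : 0 ≤ ε0 * volume.real W := by positivity
    rw [div_le_iff₀ Real.pi_pos]
    nlinarith [Real.pi_gt_three]
  have h15 : ∫ x in W, f x * f1 x ^ 2 = ∫ x in W, f1 x ^ 3 := hc.int2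
  rw [← h15]
  have h14 : 0 ≤ ε0 * volume.real W := by positivity
  linarith

end TriDil
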