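import Pool.Agent.TriDil.Defs3
import Pool.Agent.TriDil.D0
set_option autoImplicit false
open MeasureTheory Complex Set
namespace TriDil
open scoped ComplexConjugate

/-! ## Section 9: conditional expectations and energy -/
section
variable {ι ι' : Type} [MeasurableSpace ι] [MeasurableSpace ι']

theorem E1_fin (N : ℤ) (c : ℤ × ℤ) : IsFiniteMeasure (volume.restrict (Sq N c)) :=
  ⟨by rw [Measure.restrict_apply_univ]; exact Sq_fin N c⟩

theorem E1_int (N : ℤ) (c : ℤ × ℤ) (f : ℂ → ℝ) (hf : Measurable f) (h0 : ∀ x, 0 ≤ f x)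
    (h1 : ∀ x, f x ≤ 1) : Integrable f (volume.restrict (Sq N c)) := by
  have := E1_fin N c
  refine Integrable.of_bound hf.aestronglyMeasurable 1 (Filter.Eventually.of_forall fun x => ?_)
  rw [Real.norm_eq_abs, abs_of_nonneg (h0 x)]
  exact h1 x

theorem E1_sm (N : ℤ) (c : ℤ × ℤ) (f : ℂ → ℝ) (lam : ℂ → ι) :
    StronglyMeasurable[SA lam] (CE (Sq N c) f lam) := by
  unfold CE
  exact stronglyMeasurable_condExp

theorem E1_m (N : ℤ) (c : ℤ × ℤ) (f : ℂ → ℝ) (lam : ℂ → ι) (hl : Measurable lam) :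
    Measurable (CE (Sq N c) f lam) :=
  ((E1_sm N c f lam).mono hl.comap_le).measurable

theorem E1_bd (N : ℤ) (c : ℤ × ℤ) (f : ℂ → ℝ) (hf : Measurable f) (h0 : ∀ x, 0 ≤ f x)
    (h1 : ∀ x, f x ≤ 1) (lam : ℂ → ι) (hl : Measurable lam) :
    ∀ᵐ x ∂(volume.restrict (Sq N c)), 0 ≤ CE (Sq N c) f lam x ∧ CE (Sq N c) f lam x ≤ 1 := by
  have := E1_fin N c
  have hi := E1_int N c f hf h0 h1
  have a0 : 0 ≤ᵐ[volume.restrict (Sq N c)] (volume.restrict (Sq N c))[f | SA lam] :=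
    condExp_nonneg (Filter.Eventually.of_forall h0)
  have a1 : (volume.restrict (Sq N c))[f | SA lam] ≤ᵐ[volume.restrict (Sq N c)]
      (volume.restrict (Sq N c))[(fun _ => (1 : ℝ)) | SA lam] :=
    condExp_mono hi (integrable_const _) (Filter.Eventually.of_forall h1)
  rw [condExp_const hl.comap_le] at a1
  filter_upwards [a0, a1] with x hx0 hx1
  exact ⟨hx0, hx1⟩

/-- pointwise version: measurable, values in `[0,1]`, a function of the label, zero outside `W` -/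
theorem CE_version (N : ℤ) (c : ℤ × ℤ) (f : ℂ → ℝ) (hf : Measurable f) (h0 : ∀ x, 0 ≤ f x) (h1 : ∀ x, f x ≤ 1)
    (lam : ℂ → ι) (hl : Measurable lam) [MeasurableSingletonClass ι] [Countable ι] :
    ∃ v : ℂ → ℝ, Measurable v ∧ (∀ x, 0 ≤ v x) ∧ (∀ x, v x ≤ 1) ∧ (∀ x, x ∉ Sq N c → v x = 0) ∧
      (∃ F : ι → ℝ, ∀ x ∈ Sq N c, v x = F (lam x)) ∧
      v =ᵐ[volume.restrict (Sq N c)] CE (Sq N c) f lam := by
  obtain ⟨F, hFm, hF⟩ := (E1_sm N c f lam).exists_eq_measurable_comp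
  have hFm' : Measurable F := hFm.measurable
  refine ⟨(Sq N c).indicator fun x => max 0 (min 1 (F (lam x))), ?_, ?_, ?_, ?_, ?_, ?_⟩
  · refine Measurable.indicator ?_ (Sq_meas N c)
    exact measurable_const.max (measurable_const.min (hFm'.comp hl))
  · intro x
    exact indicator_nonneg (fun _ _ => le_max_left _ _) x
  · intro x
    refine indicator_apply_le' (fun _ => ?_) (fun _ => zero_le_one)
    exact max_le zero_le_one (min_le_left _ _)
  · intro x hx
    exact indicator_of_notMem hx _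
  · exact ⟨fun i => max 0 (min 1 (F i)), fun x hx => indicator_of_mem hx _⟩
  · filter_upwards [E1_bd N c f hf h0 h1 lam hl, ae_restrict_mem (Sq_meas N c)] with x hx hxW
    rw [indicator_of_mem hxW]
    rw [hF] at hx ⊢
    obtain ⟨h2, h3⟩ := hx
    change 0 ≤ F (lam x) at h2
    change F (lam x) ≤ 1 at h3
    change max 0 (min 1 (F (lam x))) = F (lam x)
    rw [min_eq_right h3, max_eq_right h2]

/-- orthogonality -/
theorem CE_orth (N : ℤ) (c : ℤ × ℤ) (f : ℂ → ℝ) (hf : Measurable f) (h0 : ∀ x, 0 ≤ f x) (h1 : ∀ x, f x ≤ 1)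
    (lam : ℂ → ι) (hl : Measurable lam) (F : ι → ℝ) (hF : Measurable F) (B : ℝ) (hB : ∀ i, |F i| ≤ B) :
    ∫ x in Sq N c, f x * F (lam x) = ∫ x in Sq N c, CE (Sq N c) f lam x * F (lam x) := by
  have := E1_fin N c
  have hi := E1_int N c f hf h0 h1
  have hG : StronglyMeasurable[SA lam] fun x => F (lam x) :=
    (hF.comp (comap_measurable lam)).stronglyMeasurable
  have hfg : Integrable (f * fun x => F (lam x)) (volume.restrict (Sq N c)) := by
    refine Integrable.mul_bdd (c := B) hi (hF.comp hl).aestronglyMeasurable ?_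
    exact Filter.Eventually.of_forall fun x => by rw [Real.norm_eq_abs]; exact hB _
  have h2 := condExp_mul_of_stronglyMeasurable_right hG hfg hi
  have h3 := integral_condExp (μ := volume.restrict (Sq N c)) (f := f * fun x => F (lam x))
    hl.comap_le
  rw [integral_congr_ae h2] at h3
  exact h3.symm

theorem E1_cross (N : ℤ) (c : ℤ × ℤ) (f : ℂ → ℝ) (hf : Measurable f) (h0 : ∀ x, 0 ≤ f x)
    (h1 : ∀ x, f x ≤ 1) (lam : ℂ → ι) (lam' : ℂ → ι') (hl : Measurable lam)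
    (hl' : Measurable lam') (href : SA lam ≤ SA lam') :
    ∫ x in Sq N c, CE (Sq N c) f lam' x * CE (Sq N c) f lam x =
      ∫ x in Sq N c, CE (Sq N c) f lam x ^ 2 := by
  have := E1_fin N c
  have hi := E1_int N c f hf h0 h1
  have b := E1_bd N c f hf h0 h1 lam hl
  have b' := E1_bd N c f hf h0 h1 lam' hl'
  have hi' : Integrable (CE (Sq N c) f lam') (volume.restrict (Sq N c)) := integrable_condExp
  have hfg : Integrable (CE (Sq N c) f lam' * CE (Sq N c) f lam)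
      (volume.restrict (Sq N c)) := by
    refine Integrable.mul_bdd (c := 1) hi' (E1_m N c f lam hl).aestronglyMeasurable ?_
    filter_upwards [b] with x hx
    rw [Real.norm_eq_abs, abs_of_nonneg hx.1]
    exact hx.2
  have h2 := condExp_mul_of_stronglyMeasurable_right (E1_sm N c f lam) hfg hi'
  have h3 := integral_condExp (μ := volume.restrict (Sq N c))
    (f := CE (Sq N c) f lam' * CE (Sq N c) f lam) hl.comap_le
  rw [integral_congr_ae h2] at h3
  have h4 : (volume.restrict (Sq N c))[CE (Sq N c) f lam' | SA lam]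
      =ᵐ[volume.restrict (Sq N c)] CE (Sq N c) f lam :=
    condExp_condExp_of_le href hl'.comap_le
  have h5 : ∫ x in Sq N c, CE (Sq N c) f lam' x * CE (Sq N c) f lam x =
      ∫ x in Sq N c, ((volume.restrict (Sq N c))[CE (Sq N c) f lam' | SA lam] *
        CE (Sq N c) f lam) x := h3.symm
  rw [h5]
  apply integral_congr_ae
  filter_upwards [h4] with x hx
  rw [Pi.mul_apply, hx]
  ring

theorem E1_sq (N : ℤ) (c : ℤ × ℤ) (g : ℂ → ℝ) (hg : Measurable g) (B : ℝ)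
    (hb : ∀ᵐ x ∂(volume.restrict (Sq N c)), |g x| ≤ B) :
    Integrable g (volume.restrict (Sq N c)) := by
  have := E1_fin N c
  exact Integrable.of_bound hg.aestronglyMeasurable B (by simpa only [Real.norm_eq_abs] using hb)

/-- (9.1) -/
theorem En_add (N : ℤ) (c : ℤ × ℤ) (f : ℂ → ℝ) (hf : Measurable f) (h0 : ∀ x, 0 ≤ f x) (h1 : ∀ x, f x ≤ 1)
    (lam : ℂ → ι) (lam' : ℂ → ι') (hl : Measurable lam) (hl' : Measurable lam')
    (href : SA lam ≤ SA lam') :
    En (Sq N c) f lam' = En (Sq N c) f lam +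
      ∫ x in Sq N c, (CE (Sq N c) f lam' x - CE (Sq N c) f lam x) ^ 2 := by
  have b := E1_bd N c f hf h0 h1 lam hl
  have b' := E1_bd N c f hf h0 h1 lam' hl'
  have m := E1_m N c f lam hl
  have m' := E1_m N c f lam' hl'
  have h2 := E1_cross N c f hf h0 h1 lam lam' hl hl' href
  have i1 : Integrable (fun x => CE (Sq N c) f lam' x ^ 2) (volume.restrict (Sq N c)) := by
    refine E1_sq N c _ (m'.pow_const 2) 1 ?_
    filter_upwards [b'] with x hx
    rw [abs_of_nonneg (sq_nonneg _)]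
    nlinarith [hx.1, hx.2]
  have i2 : Integrable (fun x => CE (Sq N c) f lam x ^ 2) (volume.restrict (Sq N c)) := by
    refine E1_sq N c _ (m.pow_const 2) 1 ?_
    filter_upwards [b] with x hx
    rw [abs_of_nonneg (sq_nonneg _)]
    nlinarith [hx.1, hx.2]
  have i3 : Integrable (fun x => CE (Sq N c) f lam' x * CE (Sq N c) f lam x)
      (volume.restrict (Sq N c)) := by
    refine E1_sq N c _ (m'.mul m) 1 ?_
    filter_upwards [b, b'] with x hx hx'
    rw [abs_of_nonneg (mul_nonneg hx'.1 hx.1)]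
    nlinarith [hx.1, hx.2, hx'.1, hx'.2]
  have e : ∀ x, (CE (Sq N c) f lam' x - CE (Sq N c) f lam x) ^ 2 =
      CE (Sq N c) f lam' x ^ 2 - 2 * (CE (Sq N c) f lam' x * CE (Sq N c) f lam x) +
        CE (Sq N c) f lam x ^ 2 := fun x => by ring
  unfold En
  simp only [e]
  have e1 : ∫ x in Sq N c, (CE (Sq N c) f lam' x ^ 2 -
      2 * (CE (Sq N c) f lam' x * CE (Sq N c) f lam x) + CE (Sq N c) f lam x ^ 2) =
      (∫ x in Sq N c, CE (Sq N c) f lam' x ^ 2) -
      2 * (∫ x in Sq N c, CE (Sq N c) f lam' x * CE (Sq N c) f lam x) +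
      ∫ x in Sq N c, CE (Sq N c) f lam x ^ 2 := by
    have i4 : Integrable (fun x => CE (Sq N c) f lam' x ^ 2 -
        2 * (CE (Sq N c) f lam' x * CE (Sq N c) f lam x)) (volume.restrict (Sq N c)) :=
      i1.sub (i3.const_mul 2)
    rw [integral_add i4 i2, integral_sub i1 (i3.const_mul 2), integral_const_mul]
  rw [e1, h2]
  ring

theorem En_bd (N : ℤ) (c : ℤ × ℤ) (f : ℂ → ℝ) (hf : Measurable f) (h0 : ∀ x, 0 ≤ f x) (h1 : ∀ x, f x ≤ 1)
    (lam : ℂ → ι) (hl : Measurable lam) :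
    0 ≤ En (Sq N c) f lam ∧ En (Sq N c) f lam ≤ volume.real (Sq N c) := by
  have := E1_fin N c
  have b := E1_bd N c f hf h0 h1 lam hl
  have m := E1_m N c f lam hl
  unfold En
  constructor
  · exact integral_nonneg fun x => sq_nonneg _
  · have h2 : ∫ x in Sq N c, CE (Sq N c) f lam x ^ 2 ≤ ∫ _ in Sq N c, (1 : ℝ) := by
      apply integral_mono_ae
      · refine E1_sq N c _ (m.pow_const 2) 1 ?_
        filter_upwards [b] with x hx
        rw [abs_of_nonneg (sq_nonneg _)]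
        nlinarith [hx.1, hx.2]
      · exact integrable_const _
      · filter_upwards [b] with x hx
        nlinarith [hx.1, hx.2]
    refine h2.trans (le_of_eq ?_)
    rw [setIntegral_const, smul_eq_mul, mul_one]
end

/-! ### refinement of labels -/

theorem E1_floor (p : ℕ) (t : ℝ) : ⌊t / 2 ^ p⌋ = ⌊t⌋ / 2 ^ p := by
  have := Int.floor_div_natCast t (2 ^ p)
  push_cast at this
  exact this

/-- index of the larger square -/
def E1_par (p : ℕ) (c : ℤ × ℤ) : ℤ × ℤ := (c.1 / 2 ^ p, c.2 / 2 ^ p)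

theorem E1_cell (n n' : ℤ) (h : n' ≤ n) (x : ℂ) :
    cell ((2 : ℝ) ^ n) x = E1_par (n - n').toNat (cell ((2 : ℝ) ^ n') x) := by
  have e : (2 : ℝ) ^ n = 2 ^ n' * 2 ^ (n - n').toNat := by
    rw [← zpow_natCast, ← zpow_add₀ (by norm_num)]
    congr 1
    have := Int.toNat_of_nonneg (sub_nonneg.mpr h)
    omega
  unfold cell E1_par
  dsimp only
  rw [← E1_floor, ← E1_floor, e, div_div, div_div]

theorem E1_SA {ι ι' : Type} [MeasurableSpace ι] [MeasurableSpace ι'] [MeasurableSingletonClass ι]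
    [Countable ι] (lam : ℂ → ι) (lam' : ℂ → ι') (φ : ι → ι') (h : ∀ x, lam' x = φ (lam x)) :
    SA lam' ≤ SA lam := by
  have hφ : Measurable φ := measurable_of_countable φ
  have e : lam' = φ ∘ lam := funext h
  rw [e]
  unfold SA
  rw [← MeasurableSpace.comap_comp]
  exact MeasurableSpace.comap_mono hφ.comap_le

/-- (9.2), (9.3): two labels have a common refinement -/
theorem lab_refine (n n' : ℤ) (K K' : ℕ) (Ξ Ξ' : ℤ × ℤ → ℕ → ℂ) (h : n' ≤ n) :
    ∃ Ξ'' : ℤ × ℤ → ℕ → ℂ, SA (lab n K Ξ) ≤ SA (lab n' (K + K') Ξ'') ∧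
      SA (lab n' K' Ξ') ≤ SA (lab n' (K + K') Ξ'') := by
  classical
  set Ξ'' : ℤ × ℤ → ℕ → ℂ := fun c k =>
    if k < K then Ξ (E1_par (n - n').toNat c) k else Ξ' c (k - K) with hΞ
  refine ⟨Ξ'', ?_, ?_⟩
  · apply E1_SA (lab n' (K + K') Ξ'') (lab n K Ξ)
      (fun q => (E1_par (n - n').toNat q.1, fun k => q.2 (Fin.castAdd K' k) / 2 ^ K'))
    intro x
    unfold lab
    dsimp only
    rw [E1_cell n n' h x]
    congr 1
    funext k
    rw [← E1_floor]
    have e1 : Ξ'' (cell ((2 : ℝ) ^ n') x) (Fin.castAdd K' k : Fin (K + K')) =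
        Ξ (E1_par (n - n').toNat (cell ((2 : ℝ) ^ n') x)) k := by
      rw [hΞ]
      dsimp only
      rw [Fin.val_castAdd, if_pos k.2]
    rw [e1, pow_add]
    congr 1
    field_simp
  · apply E1_SA (lab n' (K + K') Ξ'') (lab n' K' Ξ')
      (fun q => (q.1, fun k => q.2 (Fin.natAdd K k) / 2 ^ K))
    intro x
    unfold lab
    dsimp only
    congr 1
    funext k
    rw [← E1_floor]
    have e1 : Ξ'' (cell ((2 : ℝ) ^ n') x) (Fin.natAdd K k : Fin (K + K')) =
        Ξ' (cell ((2 : ℝ) ^ n') x) k := by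
      rw [hΞ]
      dsimp only
      rw [Fin.val_natAdd, if_neg (by omega), Nat.add_sub_cancel_left]
    rw [e1, pow_add]
    congr 1
    field_simp

theorem E1_bddAbove (N : ℤ) (c : ℤ × ℤ) (f : ℂ → ℝ) (hf : Measurable f) (h0 : ∀ x, 0 ≤ f x)
    (h1 : ∀ x, f x ≤ 1) (n : ℤ) (K : ℕ) :
    BddAbove (range fun Ξ : ℤ × ℤ → ℕ → ℂ => En (Sq N c) f (lab n K Ξ)) := by
  refine ⟨volume.real (Sq N c), ?_⟩
  rintro _ ⟨Ξ, rfl⟩
  exact (En_bd N c f hf h0 h1 _ (measurable_lab n K Ξ)).2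

theorem le_Emax (N : ℤ) (c : ℤ × ℤ) (f : ℂ → ℝ) (hf : Measurable f) (h0 : ∀ x, 0 ≤ f x) (h1 : ∀ x, f x ≤ 1)
    (n : ℤ) (K : ℕ) (Ξ : ℤ × ℤ → ℕ → ℂ) : En (Sq N c) f (lab n K Ξ) ≤ Emax (Sq N c) f n K :=
  le_csSup (E1_bddAbove N c f hf h0 h1 n K) ⟨Ξ, rfl⟩

theorem Emax_mono (N : ℤ) (c : ℤ × ℤ) (f : ℂ → ℝ) (hf : Measurable f) (h0 : ∀ x, 0 ≤ f x) (h1 : ∀ x, f x ≤ 1)
    (n n' : ℤ) (K K' : ℕ) (h : n' ≤ n) (hK : K ≤ K') :
    0 ≤ Emax (Sq N c) f n K ∧ Emax (Sq N c) f n K ≤ Emax (Sq N c) f n' K' ∧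
    Emax (Sq N c) f n K ≤ volume.real (Sq N c) := by
  refine ⟨?_, ?_, ?_⟩
  · apply Real.sSup_nonneg
    rintro _ ⟨Ξ, rfl⟩
    exact (En_bd N c f hf h0 h1 _ (measurable_lab n K Ξ)).1
  · apply csSup_le (range_nonempty _)
    rintro _ ⟨Ξ, rfl⟩
    obtain ⟨r, rfl⟩ := Nat.exists_eq_add_of_le hK
    obtain ⟨Ξ'', h2, -⟩ := lab_refine n n' K r Ξ Ξ h
    have h3 := En_add N c f hf h0 h1 (lab n K Ξ) (lab n' (K + r) Ξ'') (measurable_lab n K Ξ)
      (measurable_lab n' (K + r) Ξ'') h2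
    have h4 : 0 ≤ ∫ x in Sq N c, (CE (Sq N c) f (lab n' (K + r) Ξ'') x -
        CE (Sq N c) f (lab n K Ξ) x) ^ 2 := integral_nonneg fun x => sq_nonneg _
    have h5 := le_Emax N c f hf h0 h1 n' (K + r) Ξ''
    change En (Sq N c) f (lab n K Ξ) ≤ _
    linarith
  · apply csSup_le (range_nonempty _)
    rintro _ ⟨Ξ, rfl⟩
    exact (En_bd N c f hf h0 h1 _ (measurable_lab n K Ξ)).2

end TriDil
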