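import Pool.Agent.TriDil.Defs3
import Pool.Agent.TriDil.E1
set_option autoImplicit false
open MeasureTheory Complex Set
namespace TriDil
open scoped ComplexConjugate

/-! ## (10.1): a second label making `f - g` locally uniform -/

theorem E2_floor (t : ℝ) (K : ℕ) : ⌊(2 : ℝ) ^ K * t⌋ = ⌊(2 : ℝ) ^ (K + 1) * t⌋ / 2 := by
  have e : (2 : ℝ) ^ (K + 1) * t = 2 * ((2 : ℝ) ^ K * t) := by rw [pow_succ]; ring
  rw [e]
  set y := (2 : ℝ) ^ K * t
  have h1 := Int.floor_le y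
  have h2 := Int.lt_floor_add_one y
  have h3 : 2 * ⌊y⌋ ≤ ⌊2 * y⌋ := by
    apply Int.le_floor.2; push_cast; linarith
  have h4 : ⌊2 * y⌋ < 2 * ⌊y⌋ + 2 := by
    apply Int.floor_lt.2; push_cast; linarith
  omega

/-- a label with one more frequency is finer -/
theorem E2_ref (n a : ℤ) (K K2 : ℕ) (Ξ Ξ2 Ξ3 : ℤ × ℤ → ℕ → ℂ)
    (h : ∀ c', ∀ k < K2, Ξ3 c' k = Ξ2 c' k) :
    SA (fun x => (lab n K Ξ x, lab a K2 Ξ2 x)) ≤ SA (fun x => (lab n K Ξ x, lab a (K2 + 1) Ξ3 x)) := by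
  have e : (fun x => (lab n K Ξ x, lab a K2 Ξ2 x)) =
      (fun p : ((ℤ × ℤ) × (Fin K → ℤ)) × ((ℤ × ℤ) × (Fin (K2 + 1) → ℤ)) =>
        (p.1, (p.2.1, fun k : Fin K2 => p.2.2 k.castSucc / 2))) ∘
      (fun x => (lab n K Ξ x, lab a (K2 + 1) Ξ3 x)) := by
    funext x
    simp only [Function.comp, lab, Prod.mk.injEq, true_and]
    funext k
    have h1 : Ξ3 (cell ((2 : ℝ) ^ a) x) (k.castSucc : ℕ) = Ξ2 (cell ((2 : ℝ) ^ a) x) k :=
      h _ _ (by simp)
    rw [h1]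
    exact E2_floor _ _
  rw [e]
  unfold SA
  rw [← MeasurableSpace.comap_comp]
  apply MeasurableSpace.comap_mono
  exact Measurable.comap_le (Measurable.of_discrete)

theorem E2_fl (t : ℝ) (K : ℕ) : |(⌊(2 : ℝ) ^ K * Int.fract t⌋ : ℝ) / 2 ^ K - Int.fract t| ≤ 1 / 2 ^ K := by
  have h0 : (0 : ℝ) < 2 ^ K := by positivity
  have h1 := Int.floor_le ((2 : ℝ) ^ K * Int.fract t)
  have h2 := Int.lt_floor_add_one ((2 : ℝ) ^ K * Int.fract t)
  rw [abs_le]
  constructor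
  · rw [le_sub_iff_add_le, le_div_iff₀ h0]
    have : (-(1 / 2 ^ K) + Int.fract t) * (2 : ℝ) ^ K = 2 ^ K * Int.fract t - 1 := by
      field_simp; ring
    rw [this]; linarith
  · rw [sub_le_iff_le_add, div_le_iff₀ h0]
    have : (1 / 2 ^ K + Int.fract t) * (2 : ℝ) ^ K = 2 ^ K * Int.fract t + 1 := by
      field_simp; ring
    rw [this]; linarith

/-- the exponential is approximated by a function of the label -/
theorem E2_exp (t : ℝ) (K : ℕ) :
    ‖U (-(2 * Real.pi * t)) - U (-(2 * Real.pi * ((⌊(2 : ℝ) ^ K * Int.fract t⌋ : ℝ) / 2 ^ K)))‖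
      ≤ 2 * Real.pi / 2 ^ K := by
  have h1 : U (-(2 * Real.pi * t)) = U (-(2 * Real.pi * Int.fract t)) := by
    have h2 : -(2 * Real.pi * t) = -(2 * Real.pi * Int.fract t) + -(2 * Real.pi * (⌊t⌋ : ℝ)) := by
      have := Int.floor_add_fract t
      linear_combination (2 * Real.pi) * this
    have h3 : U (-(2 * Real.pi * (⌊t⌋ : ℝ))) = 1 := by
      unfold U
      rw [Complex.exp_eq_one_iff]
      exact ⟨-⌊t⌋, by push_cast; ring⟩
    rw [h2, U_add, h3, mul_one]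
  rw [h1]
  set m : ℝ := (⌊(2 : ℝ) ^ K * Int.fract t⌋ : ℝ) / 2 ^ K
  have h4 := norm_U_sub_le (-(2 * Real.pi * m)) (2 * Real.pi * (m - Int.fract t))
  have h5 : -(2 * Real.pi * m) + 2 * Real.pi * (m - Int.fract t) = -(2 * Real.pi * Int.fract t) := by ring
  rw [h5] at h4
  refine h4.trans ?_
  rw [abs_mul, abs_of_pos (by positivity : (0 : ℝ) < 2 * Real.pi)]
  have := E2_fl t K
  calc 2 * Real.pi * |m - Int.fract t| ≤ 2 * Real.pi * (1 / 2 ^ K) := by gcongr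
    _ = 2 * Real.pi / 2 ^ K := by ring

/-- bounded measurable functions are integrable on squares -/
theorem E2_int (n : ℤ) (c : ℤ × ℤ) (h : ℂ → ℝ) (hm : Measurable h) (B : ℝ) (hB : ∀ x, |h x| ≤ B) :
    IntegrableOn h (Sq n c) := by
  apply Measure.integrableOn_of_bounded (Sq_fin n c).ne hm.aestronglyMeasurable (M := B)
  exact Filter.Eventually.of_forall fun x => by rw [Real.norm_eq_abs]; exact hB x

theorem E2_abs_int (n : ℤ) (c : ℤ × ℤ) (h : ℂ → ℝ) (B : ℝ) (hB : ∀ x, |h x| ≤ B) :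
    |∫ x in Sq n c, h x| ≤ B * volume.real (Sq n c) := by
  have := norm_setIntegral_le_of_norm_le_const (Sq_fin n c) (f := h) (C := B)
    (fun x _ => by rw [Real.norm_eq_abs]; exact hB x)
  rwa [Real.norm_eq_abs] at this


theorem E2_ip_meas (ξ : ℂ) : Measurable (fun x => ip ξ x) := by
  unfold ip
  fun_prop

/-- one bad square -/
theorem E2_cell (ν : ℝ) (hν : 0 < ν) (N a : ℤ) (haN : a ≤ N) (c c' : ℤ × ℤ) (hc : c' ∈ subs a N c)
    (f g v v' : ℂ → ℝ) (hf : Measurable f) (h0 : ∀ x, 0 ≤ f x) (h1 : ∀ x, f x ≤ 1)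
    (hv : Measurable v) (hv0 : ∀ x, 0 ≤ v x) (hv1 : ∀ x, v x ≤ 1)
    (hv' : Measurable v') (hv'0 : ∀ x, 0 ≤ v' x) (hv'1 : ∀ x, v' x ≤ 1)
    (hgv : g =ᵐ[volume.restrict (Sq N c)] v)
    (K : ℕ) (hK : 2 * Real.pi / 2 ^ K ≤ ν / 2) (ξ : ℂ)
    (horth : ∀ F : ℤ → ℝ, (∀ i, |F i| ≤ 1) →
      ∫ x in Sq a c', f x * F ⌊(2 : ℝ) ^ K * Int.fract (ip (((1 / (2 * Real.pi) : ℝ) : ℂ) * ξ) x)⌋ =
      ∫ x in Sq a c', v' x * F ⌊(2 : ℝ) ^ K * Int.fract (ip (((1 / (2 * Real.pi) : ℝ) : ℂ) * ξ) x)⌋)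
    (hbad : ν * ((2 : ℝ) ^ a) ^ 2 <
      ‖FT (fun x => (((Sq a c').indicator (fun y => f y - g y) x : ℝ) : ℂ)) ξ‖) :
    ν ^ 2 / 4 * ((2 : ℝ) ^ a) ^ 2 ≤ ∫ x in Sq a c', (v' x - v x) ^ 2 := by
  have hQ := Sq_vol a c'
  have hsub : Sq a c' ⊆ Sq N c := Sq_sub a N haN c c' hc
  set S : ℝ := ((2 : ℝ) ^ a) ^ 2 with hS
  set Q := Sq a c' with hQdef
  have hQm : MeasurableSet Q := Sq_meas a c'
  -- the Fourier coefficient
  have hFT : FT (fun x => ((Q.indicator (fun y => f y - g y) x : ℝ) : ℂ)) ξ =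
      ∫ x in Q, ((f x - v x : ℝ) : ℂ) * U (-(ip ξ x)) := by
    unfold FT
    have e1 : (fun x : ℂ => ((Q.indicator (fun y => f y - g y) x : ℝ) : ℂ) *
        Complex.exp (-(ip ξ x : ℂ) * I)) =
        Q.indicator (fun x => ((f x - g x : ℝ) : ℂ) * U (-(ip ξ x))) := by
      funext x
      by_cases hx : x ∈ Q
      · rw [Set.indicator_of_mem hx, Set.indicator_of_mem hx]
        unfold U; push_cast; rfl
      · rw [Set.indicator_of_notMem hx, Set.indicator_of_notMem hx]; simp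
    rw [e1, integral_indicator hQm]
    apply integral_congr_ae
    have := ae_restrict_of_ae_restrict_of_subset hsub hgv
    filter_upwards [this] with x hx
    rw [hx]
  rw [hFT] at hbad
  set D : ℂ := ∫ x in Q, ((f x - v x : ℝ) : ℂ) * U (-(ip ξ x)) with hD
  have hSpos : 0 < S := by rw [hS]; positivity
  have hDpos : 0 < ‖D‖ := lt_trans (by positivity) hbad
  obtain ⟨u, hu1, hu2⟩ : ∃ u : ℂ, ‖u‖ = 1 ∧ u * D = (‖D‖ : ℂ) := by
    refine ⟨conj D / ‖D‖, ?_, ?_⟩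
    · rw [norm_div, norm_conj, norm_real, norm_norm, div_self hDpos.ne']
    · have h2 : conj D * D = (‖D‖ : ℂ) ^ 2 := by
        rw [mul_comm, mul_conj, normSq_eq_norm_sq]; push_cast; rfl
      have h3 : (‖D‖ : ℂ) ≠ 0 := by exact_mod_cast hDpos.ne'
      rw [div_mul_eq_mul_div, h2, pow_two, mul_div_assoc, div_self h3, mul_one]
  set m : ℂ → ℤ := fun x => ⌊(2 : ℝ) ^ K * Int.fract (ip (((1 / (2 * Real.pi) : ℝ) : ℂ) * ξ) x)⌋ with hm
  set F : ℤ → ℝ := fun j => (u * U (-(2 * Real.pi * ((j : ℝ) / 2 ^ K)))).re with hF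
  set ρ : ℂ → ℝ := fun x => (u * U (-(ip ξ x))).re with hρ
  have hF1 : ∀ i, |F i| ≤ 1 := fun i => by
    refine (abs_re_le_norm _).trans ?_
    rw [norm_mul, hu1, norm_U, one_mul]
  have hρ1 : ∀ x, |ρ x| ≤ 1 := fun x => by
    refine (abs_re_le_norm _).trans ?_
    rw [norm_mul, hu1, norm_U, one_mul]
  have hclose : ∀ x, |ρ x - F (m x)| ≤ ν / 2 := fun x => by
    have e2 : ρ x - F (m x) = (u * (U (-(ip ξ x)) - U (-(2 * Real.pi * ((m x : ℝ) / 2 ^ K))))).re := by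
      rw [mul_sub, sub_re]
    rw [e2]
    refine (abs_re_le_norm _).trans ?_
    rw [norm_mul, hu1, one_mul]
    have e3 : ip ξ x = 2 * Real.pi * ip (((1 / (2 * Real.pi) : ℝ) : ℂ) * ξ) x := by
      rw [ip_mul_real_left]
      field_simp
    rw [e3]
    exact (E2_exp _ K).trans hK
  have hmm : Measurable m := by
    have h5 := E2_ip_meas (((1 / (2 * Real.pi) : ℝ) : ℂ) * ξ)
    exact Int.measurable_floor.comp ((measurable_fract.comp h5).const_mul _)
  have hrm : Measurable fun x => F (m x) := (Measurable.of_discrete (f := F)).comp hmm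
  have hρm : Measurable ρ := by
    have h5 := E2_ip_meas ξ
    have h6 : Measurable fun x => U (-(ip ξ x)) := measurable_U.comp h5.neg
    exact Complex.measurable_re.comp (h6.const_mul u)
  have hfv : ∀ x, |f x - v x| ≤ 1 := fun x => by
    rw [abs_le]; constructor <;> linarith [h0 x, h1 x, hv0 x, hv1 x]
  have hvv : ∀ x, |v' x - v x| ≤ 1 := fun x => by
    rw [abs_le]; constructor <;> linarith [hv'0 x, hv'1 x, hv0 x, hv1 x]
  have hmul : ∀ p q : ℝ, ∀ B C : ℝ, |p| ≤ B → |q| ≤ C → |p * q| ≤ B * C := by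
    intro p q B C hp hq
    rw [abs_mul]
    exact mul_le_mul hp hq (abs_nonneg _) ((abs_nonneg _).trans hp)
  -- the norm as a real integral
  have hnorm : ‖D‖ = ∫ x in Q, (f x - v x) * ρ x := by
    have e4 : (‖D‖ : ℂ) = ∫ x in Q, u * (((f x - v x : ℝ) : ℂ) * U (-(ip ξ x))) := by
      rw [integral_const_mul, ← hu2]
    have e5 : ‖D‖ = (∫ x in Q, u * (((f x - v x : ℝ) : ℂ) * U (-(ip ξ x)))).re := by
      rw [← e4, ofReal_re]
    rw [e5]
    have hint : Integrable (fun x => u * (((f x - v x : ℝ) : ℂ) * U (-(ip ξ x)))) (volume.restrict Q) := by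
      apply Measure.integrableOn_of_bounded (Sq_fin a c').ne (M := 1)
      · apply Measurable.aestronglyMeasurable
        have h6 : Measurable fun x => U (-(ip ξ x)) := measurable_U.comp (E2_ip_meas ξ).neg
        exact ((Complex.measurable_ofReal.comp (hf.sub hv)).mul h6).const_mul u
      · refine Filter.Eventually.of_forall fun x => ?_
        rw [norm_mul, norm_mul, hu1, norm_U, norm_real, one_mul, mul_one]
        exact hfv x
    have e6 := integral_re (𝕜 := ℂ) hint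
    simp only [RCLike.re_eq_complex_re] at e6
    rw [← e6]
    apply integral_congr_ae
    refine Filter.Eventually.of_forall fun x => ?_
    simp only [hρ]
    rw [show u * (((f x - v x : ℝ) : ℂ) * U (-(ip ξ x))) =
      ((f x - v x : ℝ) : ℂ) * (u * U (-(ip ξ x))) by ring, re_ofReal_mul]
  rw [hnorm] at hbad
  have i1 : IntegrableOn (fun x => (f x - v x) * F (m x)) Q :=
    E2_int a c' _ ((hf.sub hv).mul hrm) (1 * 1) fun x => hmul _ _ _ _ (hfv x) (hF1 _)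
  have i2 : IntegrableOn (fun x => (f x - v x) * (ρ x - F (m x))) Q :=
    E2_int a c' _ ((hf.sub hv).mul (hρm.sub hrm)) (1 * (ν / 2)) fun x => hmul _ _ _ _ (hfv x) (hclose x)
  have i3 : IntegrableOn (fun x => f x * F (m x)) Q :=
    E2_int a c' _ (hf.mul hrm) (1 * 1) fun x => hmul _ _ _ _
      (by rw [abs_le]; constructor <;> linarith [h0 x, h1 x]) (hF1 _)
  have i4 : IntegrableOn (fun x => v x * F (m x)) Q :=
    E2_int a c' _ (hv.mul hrm) (1 * 1) fun x => hmul _ _ _ _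
      (by rw [abs_le]; constructor <;> linarith [hv0 x, hv1 x]) (hF1 _)
  have i5 : IntegrableOn (fun x => v' x * F (m x)) Q :=
    E2_int a c' _ (hv'.mul hrm) (1 * 1) fun x => hmul _ _ _ _
      (by rw [abs_le]; constructor <;> linarith [hv'0 x, hv'1 x]) (hF1 _)
  have i6 : IntegrableOn (fun x => (v' x - v x) * F (m x)) Q :=
    E2_int a c' _ ((hv'.sub hv).mul hrm) (1 * 1) fun x => hmul _ _ _ _ (hvv x) (hF1 _)
  have i7 : IntegrableOn (fun x => (v' x - v x) ^ 2) Q :=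
    E2_int a c' _ ((hv'.sub hv).pow_const 2) 1 fun x => by
      rw [abs_pow]; exact pow_le_one₀ (abs_nonneg _) (hvv x)
  have s1 : ∫ x in Q, (f x - v x) * ρ x =
      (∫ x in Q, (f x - v x) * F (m x)) + ∫ x in Q, (f x - v x) * (ρ x - F (m x)) := by
    rw [← integral_add i1 i2]
    apply integral_congr_ae
    refine Filter.Eventually.of_forall fun x => ?_
    ring
  have s2 : ∫ x in Q, (f x - v x) * (ρ x - F (m x)) ≤ ν / 2 * S := by
    have := E2_abs_int a c' (fun x => (f x - v x) * (ρ x - F (m x))) (1 * (ν / 2))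
      fun x => hmul _ _ _ _ (hfv x) (hclose x)
    rw [hQ, one_mul] at this
    exact (le_abs_self _).trans this
  have s3 : ∫ x in Q, (f x - v x) * F (m x) = ∫ x in Q, (v' x - v x) * F (m x) := by
    have e7 : ∫ x in Q, (f x - v x) * F (m x) =
        (∫ x in Q, f x * F (m x)) - ∫ x in Q, v x * F (m x) := by
      rw [← integral_sub i3 i4]
      apply integral_congr_ae
      refine Filter.Eventually.of_forall fun x => ?_
      ring
    have e8 : ∫ x in Q, (v' x - v x) * F (m x) =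
        (∫ x in Q, v' x * F (m x)) - ∫ x in Q, v x * F (m x) := by
      rw [← integral_sub i5 i4]
      apply integral_congr_ae
      refine Filter.Eventually.of_forall fun x => ?_
      ring
    rw [e7, e8, horth F hF1]
  have s4 : ν * (∫ x in Q, (v' x - v x) * F (m x)) - ν ^ 2 / 4 * S ≤ ∫ x in Q, (v' x - v x) ^ 2 := by
    have hc1 : IntegrableOn (fun _ : ℂ => ν ^ 2 / 4) Q :=
      E2_int a c' _ measurable_const (ν ^ 2 / 4) fun x => by rw [abs_of_nonneg (by positivity)]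
    have e9 : ∫ x in Q, (ν * ((v' x - v x) * F (m x)) - ν ^ 2 / 4) =
        ν * (∫ x in Q, (v' x - v x) * F (m x)) - ν ^ 2 / 4 * S := by
      rw [integral_sub (i6.const_mul ν) hc1, integral_const_mul, setIntegral_const, hQ, smul_eq_mul,
        mul_comm S]
    rw [← e9]
    apply setIntegral_mono_on ((i6.const_mul ν).sub hc1) i7 hQm
    intro x _
    have h7 : ((v' x - v x) * F (m x)) ^ 2 ≤ (v' x - v x) ^ 2 := by
      rw [mul_pow]
      have : F (m x) ^ 2 ≤ 1 := by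
        rw [← sq_abs]; exact pow_le_one₀ (abs_nonneg _) (hF1 _)
      nlinarith [sq_nonneg (v' x - v x)]
    change ν * ((v' x - v x) * F (m x)) - ν ^ 2 / 4 ≤ (v' x - v x) ^ 2
    nlinarith [sq_nonneg ((v' x - v x) * F (m x) - ν / 2)]
  have hlt : ν / 2 * S < ∫ x in Q, (v' x - v x) * F (m x) := by
    rw [← s3]; linarith
  have : ν * (ν / 2 * S) ≤ ν * ∫ x in Q, (v' x - v x) * F (m x) :=
    mul_le_mul_of_nonneg_left hlt.le hν.le
  nlinarith


/-- `∫_W` of a function of the square index times a function is an integral over the square -/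
theorem E2_ind (N a : ℤ) (haN : a ≤ N) (c c' : ℤ × ℤ) (hc : c' ∈ subs a N c) (h G R : ℂ → ℝ)
    (hG : ∀ x, G x = (Sq a c').indicator R x) :
    ∫ x in Sq N c, h x * G x = ∫ x in Sq a c', h x * R x := by
  have e : (fun x => h x * G x) = (Sq a c').indicator (fun x => h x * R x) := by
    funext x
    rw [hG x]
    by_cases hx : x ∈ Sq a c'
    · rw [Set.indicator_of_mem hx, Set.indicator_of_mem hx]
    · rw [Set.indicator_of_notMem hx, Set.indicator_of_notMem hx, mul_zero]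
  rw [e, setIntegral_indicator (Sq_meas a c'), Set.inter_eq_right.2 (Sq_sub a N haN c c' hc)]

open Classical in
/-- energy increment -/
theorem E2_step (ν : ℝ) (hν : 0 < ν) (N n a : ℤ) (c : ℤ × ℤ) (haN : a ≤ N)
    (f : ℂ → ℝ) (hf : Measurable f) (h0 : ∀ x, 0 ≤ f x) (h1 : ∀ x, f x ≤ 1)
    (K : ℕ) (Ξ : ℤ × ℤ → ℕ → ℂ) (K2 : ℕ) (Ξ2 : ℤ × ℤ → ℕ → ℂ)
    (hK2 : 2 * Real.pi / 2 ^ (K2 + 1) ≤ ν / 2) (g : ℂ → ℝ)
    (hge : g =ᵐ[volume.restrict (Sq N c)] CE (Sq N c) f (fun x => (lab n K Ξ x, lab a K2 Ξ2 x)))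
    (hbad : ν * volume.real (Sq N c) <
      volume.real {x | x ∈ Sq N c ∧ ¬ unif a ν (fun y => f y - g y) (cell ((2 : ℝ) ^ a) x)}) :
    ∃ Ξ3 : ℤ × ℤ → ℕ → ℂ,
      En (Sq N c) f (fun x => (lab n K Ξ x, lab a K2 Ξ2 x)) + ν ^ 3 / 4 * volume.real (Sq N c) ≤
        En (Sq N c) f (fun x => (lab n K Ξ x, lab a (K2 + 1) Ξ3 x)) := by
  have hch : ∀ c' : ℤ × ℤ, ∃ ξ : ℂ, ¬ unif a ν (fun y => f y - g y) c' →
      ν * ((2 : ℝ) ^ a) ^ 2 <
        ‖FT (fun x => (((Sq a c').indicator (fun y => f y - g y) x : ℝ) : ℂ)) ξ‖ := by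
    intro c'
    by_cases hu : unif a ν (fun y => f y - g y) c'
    · exact ⟨0, fun h => absurd hu h⟩
    · have hu' := hu
      unfold unif at hu'
      push Not at hu'
      obtain ⟨ξ, hξ⟩ := hu'
      exact ⟨ξ, fun _ => hξ⟩
  choose ξ hξ using hch
  refine ⟨fun c' k => if k = K2 then ((1 / (2 * Real.pi) : ℝ) : ℂ) * ξ c' else Ξ2 c' k, ?_⟩
  set Ξ3 : ℤ × ℤ → ℕ → ℂ :=
    fun c' k => if k = K2 then ((1 / (2 * Real.pi) : ℝ) : ℂ) * ξ c' else Ξ2 c' k with hΞ3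
  set l1 : ℂ → ((ℤ × ℤ) × (Fin K → ℤ)) × ((ℤ × ℤ) × (Fin K2 → ℤ)) :=
    fun x => (lab n K Ξ x, lab a K2 Ξ2 x) with hl1
  set l2 : ℂ → ((ℤ × ℤ) × (Fin K → ℤ)) × ((ℤ × ℤ) × (Fin (K2 + 1) → ℤ)) :=
    fun x => (lab n K Ξ x, lab a (K2 + 1) Ξ3 x) with hl2
  have hm1 : Measurable l1 := (measurable_lab n K Ξ).prodMk (measurable_lab a K2 Ξ2)
  have hm2 : Measurable l2 := (measurable_lab n K Ξ).prodMk (measurable_lab a (K2 + 1) Ξ3)
  have href : SA l1 ≤ SA l2 := by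
    apply E2_ref
    intro c' k hk
    rw [hΞ3]
    simp only
    rw [if_neg hk.ne]
  obtain ⟨v, hv, hv0, hv1, -, -, hve⟩ := CE_version N c f hf h0 h1 l1 hm1
  obtain ⟨v', hv', hv'0, hv'1, -, -, hv'e⟩ := CE_version N c f hf h0 h1 l2 hm2
  rw [En_add N c f hf h0 h1 l1 l2 hm1 hm2 href]
  have hsq : ∫ x in Sq N c, (CE (Sq N c) f l2 x - CE (Sq N c) f l1 x) ^ 2 =
      ∫ x in Sq N c, (v' x - v x) ^ 2 := by
    apply integral_congr_ae
    filter_upwards [hve, hv'e] with x h3 h4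
    rw [h3, h4]
  rw [hsq]
  set S : ℝ := ((2 : ℝ) ^ a) ^ 2 with hS
  have hvv : ∀ x, |v' x - v x| ≤ 1 := fun x => by
    rw [abs_le]; constructor <;> linarith [hv'0 x, hv'1 x, hv0 x, hv1 x]
  have i7 : IntegrableOn (fun x => (v' x - v x) ^ 2) (Sq N c) :=
    E2_int N c _ ((hv'.sub hv).pow_const 2) 1 fun x => by
      rw [abs_pow]; exact pow_le_one₀ (abs_nonneg _) (hvv x)
  rw [integral_subs a N haN c _ i7]
  set bad : ℤ × ℤ → Prop := fun c' => ¬ unif a ν (fun y => f y - g y) c' with hbaddef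
  have hE : MeasurableSet {x : ℂ | bad (cell ((2 : ℝ) ^ a) x)} := by
    have h5 : Measurable fun x : ℂ => cell ((2 : ℝ) ^ a) x :=
      measurable_fst.comp (measurable_lab a 0 (fun _ _ => 0))
    exact h5 (MeasurableSet.of_discrete (s := {c' | bad c'}))
  have hvol := vol_subs a N haN c {x : ℂ | bad (cell ((2 : ℝ) ^ a) x)} hE
  have hvol' : volume.real {x | x ∈ Sq N c ∧ ¬ unif a ν (fun y => f y - g y) (cell ((2 : ℝ) ^ a) x)} =
      ∑ c' ∈ subs a N c, if bad c' then S else 0 := by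
    have e1 : {x | x ∈ Sq N c ∧ ¬ unif a ν (fun y => f y - g y) (cell ((2 : ℝ) ^ a) x)} =
      {x | x ∈ Sq N c ∧ x ∈ {x : ℂ | bad (cell ((2 : ℝ) ^ a) x)}} := rfl
    rw [e1, hvol]
    apply Finset.sum_congr rfl
    intro c' _
    by_cases hb : bad c'
    · rw [if_pos hb]
      have e2 : {x | x ∈ Sq a c' ∧ x ∈ {x : ℂ | bad (cell ((2 : ℝ) ^ a) x)}} = Sq a c' := by
        ext x
        constructor
        · exact fun h => h.1
        · intro h
          refine ⟨h, ?_⟩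
          have h6 : cell ((2 : ℝ) ^ a) x = c' := h
          simp only [mem_setOf_eq, h6]
          exact hb
      rw [e2, Sq_vol]
    · rw [if_neg hb]
      have e2 : {x | x ∈ Sq a c' ∧ x ∈ {x : ℂ | bad (cell ((2 : ℝ) ^ a) x)}} = ∅ := by
        ext x
        simp only [mem_setOf_eq, mem_empty_iff_false, iff_false, not_and]
        intro h
        have h6 : cell ((2 : ℝ) ^ a) x = c' := h
        rw [h6]
        exact hb
      rw [e2, measureReal_empty]
  have hsum : ν ^ 2 / 4 * (∑ c' ∈ subs a N c, if bad c' then S else 0) ≤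
      ∑ c' ∈ subs a N c, ∫ x in Sq a c', (v' x - v x) ^ 2 := by
    rw [Finset.mul_sum]
    apply Finset.sum_le_sum
    intro c' hc'
    by_cases hb : bad c'
    · rw [if_pos hb]
      refine E2_cell ν hν N a haN c c' hc' f g v v' hf h0 h1 hv hv0 hv1 hv' hv'0 hv'1
        (hge.trans hve.symm) (K2 + 1) hK2 (ξ c') ?_ (hξ c' hb)
      intro F hF
      set R : ℂ → ℝ := fun x =>
        F ⌊(2 : ℝ) ^ (K2 + 1) * Int.fract (ip (((1 / (2 * Real.pi) : ℝ) : ℂ) * ξ c') x)⌋ with hR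
      set G : ((ℤ × ℤ) × (Fin K → ℤ)) × ((ℤ × ℤ) × (Fin (K2 + 1) → ℤ)) → ℝ :=
        fun p => if p.2.1 = c' then F (p.2.2 (Fin.last K2)) else 0 with hG
      have hGR : ∀ x, G (l2 x) = (Sq a c').indicator R x := by
        intro x
        by_cases hx : x ∈ Sq a c'
        · rw [Set.indicator_of_mem hx]
          have h6 : cell ((2 : ℝ) ^ a) x = c' := hx
          simp only [hG, hl2, lab, h6, if_true, hR, hΞ3, Fin.val_last]
        · rw [Set.indicator_of_notMem hx]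
          have h6 : cell ((2 : ℝ) ^ a) x ≠ c' := hx
          simp only [hG, hl2, lab, if_neg h6]
      have h7 := CE_orth N c f hf h0 h1 l2 hm2 G Measurable.of_discrete 1 (by
        intro i
        simp only [hG]
        split_ifs
        · exact hF _
        · simp)
      rw [E2_ind N a haN c c' hc' f (fun x => G (l2 x)) R hGR] at h7
      rw [h7]
      have h8 : ∫ x in Sq N c, CE (Sq N c) f l2 x * G (l2 x) = ∫ x in Sq N c, v' x * G (l2 x) := by
        apply integral_congr_ae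
        filter_upwards [hv'e] with x h4
        rw [h4]
      rw [h8, E2_ind N a haN c c' hc' v' (fun x => G (l2 x)) R hGR]
    · rw [if_neg hb, mul_zero]
      exact integral_nonneg fun x => sq_nonneg _
  rw [← hvol'] at hsum
  have : ν ^ 2 / 4 * (ν * volume.real (Sq N c)) ≤ ν ^ 2 / 4 *
      volume.real {x | x ∈ Sq N c ∧ ¬ unif a ν (fun y => f y - g y) (cell ((2 : ℝ) ^ a) x)} :=
    mul_le_mul_of_nonneg_left hbad.le (by positivity)
  nlinarith

theorem UNI (ν : ℝ) (hν : 0 < ν) (hν1 : ν ≤ 1) : ∃ k1 : ℕ, ∀ (N n a : ℤ) (c : ℤ × ℤ), a ≤ n → n ≤ N →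
    ∀ f : ℂ → ℝ, Measurable f → (∀ x, 0 ≤ f x) → (∀ x, f x ≤ 1) → (∀ x, x ∉ Sq N c → f x = 0) →
    ∀ (K : ℕ) (Ξ : ℤ × ℤ → ℕ → ℂ), ∃ (K2 : ℕ) (Ξ2 : ℤ × ℤ → ℕ → ℂ), K2 ≤ k1 ∧
      ∀ g : ℂ → ℝ, Measurable g → (∀ x, x ∉ Sq N c → g x = 0) →
      g =ᵐ[volume.restrict (Sq N c)] CE (Sq N c) f (fun x => (lab n K Ξ x, lab a K2 Ξ2 x)) →
      volume.real {x | x ∈ Sq N c ∧ ¬ unif a ν (fun y => f y - g y) (cell ((2 : ℝ) ^ a) x)}
        ≤ ν * volume.real (Sq N c) := by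
  -- the mesh
  obtain ⟨k0, hk0⟩ : ∃ k0 : ℕ, 2 * Real.pi / 2 ^ k0 ≤ ν / 2 := by
    obtain ⟨k0, hk⟩ := pow_unbounded_of_one_lt (2 * Real.pi / (ν / 2)) (one_lt_two)
    refine ⟨k0, ?_⟩
    rw [div_le_iff₀ (by positivity), mul_comm (ν / 2), ← div_le_iff₀ (by positivity)]
    exact hk.le
  obtain ⟨T, hT⟩ := exists_nat_gt (4 / ν ^ 3)
  refine ⟨k0 + T, ?_⟩
  intro N n a c han hnN f hf h0 h1 _ K Ξ
  by_contra hcon
  push Not at hcon
  have hind : ∀ j : ℕ, j ≤ T → ∃ Ξ2 : ℤ × ℤ → ℕ → ℂ, (j : ℝ) * (ν ^ 3 / 4) * volume.real (Sq N c) ≤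
      En (Sq N c) f (fun x => (lab n K Ξ x, lab a (k0 + j) Ξ2 x)) := by
    intro j
    induction j with
    | zero =>
      intro _
      refine ⟨fun _ _ => 0, ?_⟩
      rw [Nat.cast_zero, zero_mul, zero_mul]
      exact (En_bd N c f hf h0 h1 _ ((measurable_lab n K Ξ).prodMk (measurable_lab a _ _))).1
    | succ j ih =>
      intro hj
      obtain ⟨Ξ2, hΞ2⟩ := ih (by omega)
      obtain ⟨g, -, -, hge, hgbad⟩ := hcon (k0 + j) Ξ2 (by omega)
      have hmesh : 2 * Real.pi / 2 ^ (k0 + j + 1) ≤ ν / 2 := by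
        refine le_trans ?_ hk0
        gcongr
        · norm_num
        · omega
      obtain ⟨Ξ3, hΞ3⟩ := E2_step ν hν N n a c (han.trans hnN) f hf h0 h1 K Ξ (k0 + j) Ξ2 hmesh g hge hgbad
      refine ⟨Ξ3, ?_⟩
      have : ((j + 1 : ℕ) : ℝ) * (ν ^ 3 / 4) * volume.real (Sq N c) =
        (j : ℝ) * (ν ^ 3 / 4) * volume.real (Sq N c) + ν ^ 3 / 4 * volume.real (Sq N c) := by
        push_cast; ring
      rw [this]
      exact (add_le_add_left hΞ2 _).trans hΞ3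
  obtain ⟨Ξ2, hΞ2⟩ := hind T le_rfl
  have h2 := (En_bd N c f hf h0 h1 (fun x => (lab n K Ξ x, lab a (k0 + T) Ξ2 x))
    ((measurable_lab n K Ξ).prodMk (measurable_lab a _ _))).2
  have hpos : 0 < volume.real (Sq N c) := by rw [Sq_vol]; positivity
  have h3 : 1 < (T : ℝ) * (ν ^ 3 / 4) := by
    rw [div_lt_iff₀ (by positivity)] at hT
    linarith
  have h4 : volume.real (Sq N c) < (T : ℝ) * (ν ^ 3 / 4) * volume.real (Sq N c) := by
    have := mul_lt_mul_of_pos_right h3 hpos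
    rwa [one_mul] at this
  linarith

end TriDil
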