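import Pool.Agent.TriDil.Defs3
import Pool.Agent.TriDil.D0
set_option autoImplicit false
open MeasureTheory Complex Set
namespace TriDil

/-- lacunary growth -/
theorem E3_grow {l : ℕ → ℝ} {H : ℝ} (hH : 1 ≤ H) (hl : ∀ j, 0 < l j)
    (hg : ∀ j, H * l j ≤ l (j + 1)) {i j : ℕ} (hij : i < j) : H * l i ≤ l j := by
  induction j with
  | zero => omega
  | succ j ih =>
    rcases Nat.lt_succ_iff_lt_or_eq.mp hij with h | h
    · have h1 := ih h
      have h2 := hg j
      have h3 : l j ≤ H * l j := le_mul_of_one_le_left (hl j).le hH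
      linarith
    · subst h; exact hg i

theorem E3_meas_cell (d : ℝ) : Measurable (cell d) := by
  unfold cell
  exact (Int.measurable_floor.comp (Complex.measurable_re.div_const d)).prodMk
    (Int.measurable_floor.comp (Complex.measurable_im.div_const d))

/-- the coefficient box -/
noncomputable def E3_box (K m : ℕ) : Finset ((Fin K → ℤ) × (Fin K → ℤ)) :=
  (Fintype.piFinset fun _ => Finset.Icc (-(m : ℤ)) m) ×ˢ
    (Fintype.piFinset fun _ => Finset.Icc (-(m : ℤ)) m)

theorem E3_card (ω : ℂ) (K m : ℕ) (c1 C1 H : ℝ) (hH : 1 ≤ H) (hc : C1 ≤ H * c1)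
    {l : ℕ → ℝ} (hl : ∀ j, 0 < l j) (hg : ∀ j, H * l j ≤ l (j + 1)) (ξ : ℕ → ℂ)
    (J : Finset ℕ) (hJ : ∀ j ∈ J, res ω K m c1 C1 (l j) ξ) : J.card ≤ (E3_box K m).card := by
  classical
  have key : ∀ j : ℕ, ∃ p : (Fin K → ℤ) × (Fin K → ℤ), j ∈ J → (p ∈ E3_box K m ∧
      c1 < l j * ‖bb ω K ξ p.1 p.2‖ ∧ l j * ‖bb ω K ξ p.1 p.2‖ < C1) := by
    intro j
    by_cases hj : j ∈ J
    · obtain ⟨a, b, ha, hb, h1, h2⟩ := hJ j hj
      refine ⟨(a, b), fun _ => ⟨?_, h1, h2⟩⟩
      unfold E3_box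
      rw [Finset.mem_product, Fintype.mem_piFinset, Fintype.mem_piFinset]
      refine ⟨fun k => ?_, fun k => ?_⟩
      · rw [Finset.mem_Icc]; exact abs_le.mp (ha k)
      · rw [Finset.mem_Icc]; exact abs_le.mp (hb k)
    · exact ⟨(0, 0), fun h => absurd h hj⟩
  choose f hf using key
  have hcon : ∀ i ∈ J, ∀ j ∈ J, i < j → f i ≠ f j := by
    intro i hi j hj hij hfe
    obtain ⟨-, h1, -⟩ := hf i hi
    obtain ⟨-, -, h2⟩ := hf j hj
    rw [← hfe] at h2
    have h3 := E3_grow hH hl hg hij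
    have h4 : H * (l i * ‖bb ω K ξ (f i).1 (f i).2‖) ≤ l j * ‖bb ω K ξ (f i).1 (f i).2‖ := by
      rw [← mul_assoc]
      exact mul_le_mul_of_nonneg_right h3 (norm_nonneg _)
    have h5 : H * c1 < H * (l i * ‖bb ω K ξ (f i).1 (f i).2‖) :=
      mul_lt_mul_of_pos_left h1 (by linarith)
    linarith
  refine Finset.card_le_card_of_injOn f (fun j hj => (hf j hj).1) ?_
  intro i hi j hj hfe
  rcases lt_trichotomy i j with h | h | h
  · exact absurd hfe (hcon i hi j hj h)
  · exact h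
  · exact absurd hfe.symm (hcon j hj i hi h)

/-! ## non-resonance: among many lacunary scales one is good for most squares -/
theorem NONRES (ω : ℂ) (K m : ℕ) (c1 C1 : ℝ) (hc : 0 < c1) (ε : ℝ) (hε : 0 < ε) : ∃ (B : ℕ) (H : ℝ), 1 ≤ B ∧ 1 ≤ H ∧
    ∀ (l : ℕ → ℝ), (∀ j, 0 < l j) → (∀ j, H * l j ≤ l (j + 1)) → ∀ j0 B' : ℕ, B ≤ B' → ∀ (N n : ℤ) (c : ℤ × ℤ), n ≤ N →
    ∀ Ξ : ℤ × ℤ → ℕ → ℂ, ∃ j, j0 < j ∧ j ≤ j0 + B' ∧
      volume.real {x | x ∈ Sq N c ∧ res ω K m c1 C1 (l j) (Ξ (cell ((2 : ℝ) ^ n) x))}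
        ≤ ε * volume.real (Sq N c) := by
  classical
  set M : ℕ := (E3_box K m).card with hM
  refine ⟨⌈(M : ℝ) / ε⌉₊ + 1, max 1 (C1 / c1), by omega, le_max_left _ _, ?_⟩
  intro l hl hg j0 B' hB N n c _ Ξ
  set H : ℝ := max 1 (C1 / c1) with hHdef
  have hH : 1 ≤ H := le_max_left _ _
  have hHc : C1 ≤ H * c1 := by
    rw [← div_le_iff₀ hc]; exact le_max_right _ _
  by_contra hcon
  push Not at hcon
  -- the resonant sets
  set R : ℕ → Set ℂ := fun j => {x | res ω K m c1 C1 (l j) (Ξ (cell ((2 : ℝ) ^ n) x))} with hR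
  have hRm : ∀ j, MeasurableSet (R j) := by
    intro j
    have : R j = cell ((2 : ℝ) ^ n) ⁻¹' {d | res ω K m c1 C1 (l j) (Ξ d)} := rfl
    rw [this]
    exact E3_meas_cell _ (Set.to_countable _).measurableSet
  have hSm := Sq_meas N c
  have hVf := Sq_fin N c
  set V : ℝ := volume.real (Sq N c) with hV
  set J : Finset ℕ := Finset.Ioc j0 (j0 + B') with hJ
  -- counting
  have h1 : ∑ j ∈ J, volume (Sq N c ∩ R j) ≤ M * volume (Sq N c) := by
    have h2 : ∀ j ∈ J, volume (Sq N c ∩ R j)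
        = ∫⁻ x in Sq N c, (R j).indicator (fun _ => (1 : ENNReal)) x := by
      intro j _
      rw [lintegral_indicator_const (hRm j), one_mul, Measure.restrict_apply (hRm j), inter_comm]
    rw [Finset.sum_congr rfl h2, ← lintegral_finsetSum]
    · calc ∫⁻ x in Sq N c, ∑ j ∈ J, (R j).indicator (fun _ => (1 : ENNReal)) x
          ≤ ∫⁻ _ in Sq N c, (M : ENNReal) := by
            apply lintegral_mono
            intro x
            show ∑ j ∈ J, (R j).indicator (fun _ => (1 : ENNReal)) x ≤ (M : ENNReal)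
            have h3 : ∑ j ∈ J, (R j).indicator (fun _ => (1 : ENNReal)) x
                = ((J.filter fun j => x ∈ R j).card : ENNReal) := by
              rw [Finset.card_filter]
              push_cast
              apply Finset.sum_congr rfl
              intro j _
              by_cases hx : x ∈ R j
              · rw [indicator_of_mem hx, if_pos hx]
              · rw [indicator_of_notMem hx, if_neg hx]
            rw [h3]
            exact_mod_cast E3_card ω K m c1 C1 H hH hHc hl hg (Ξ (cell ((2 : ℝ) ^ n) x))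
              (J.filter fun j => x ∈ R j) (fun j hj => (Finset.mem_filter.mp hj).2)
        _ = M * volume (Sq N c) := by
            rw [lintegral_const, Measure.restrict_apply_univ]
    · intro j _
      exact measurable_const.indicator (hRm j)
  have h4 : ∑ j ∈ J, volume.real (Sq N c ∩ R j) ≤ M * V := by
    have h5 := ENNReal.toReal_mono (ENNReal.mul_ne_top (ENNReal.natCast_ne_top M) hVf.ne) h1
    rw [ENNReal.toReal_sum, ENNReal.toReal_mul, ENNReal.toReal_natCast] at h5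
    · exact h5
    · intro j _
      exact ((measure_mono inter_subset_left).trans_lt hVf).ne
  have h6 : ∑ j ∈ J, ε * V < ∑ j ∈ J, volume.real (Sq N c ∩ R j) := by
    apply Finset.sum_lt_sum_of_nonempty
    · refine ⟨j0 + 1, ?_⟩
      rw [hJ, Finset.mem_Ioc]; omega
    · intro j hj
      rw [hJ, Finset.mem_Ioc] at hj
      exact hcon j hj.1 hj.2
  rw [Finset.sum_const, nsmul_eq_mul] at h6
  have h7 : (J.card : ℝ) = B' := by
    rw [hJ, Nat.card_Ioc]; congr 1; omega
  rw [h7] at h6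
  have h8 : (M : ℝ) ≤ B' * ε := by
    have h9 : (M : ℝ) / ε ≤ B' := by
      refine (Nat.le_ceil _).trans ?_
      exact_mod_cast (by omega : ⌈(M : ℝ) / ε⌉₊ ≤ B')
    rwa [div_le_iff₀ hε] at h9
  have hV0 : 0 ≤ V := measureReal_nonneg
  have h10 : (M : ℝ) * V ≤ B' * (ε * V) := by
    rw [← mul_assoc]; exact mul_le_mul_of_nonneg_right h8 hV0
  linarith

end TriDil
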