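import Pool.Agent.TriDil.Defs3
import Pool.Agent.TriDil.E1
import Pool.Agent.TriDil.E2
import Pool.Agent.TriDil.E3
set_option autoImplicit false
open MeasureTheory Complex Set
namespace TriDil
open scoped ComplexConjugate

/-! ## Section 10: the structure theorem -/

/-- pigeonhole: a bounded nondecreasing-type sequence has a small increment -/
theorem E4_pigeon (I : ℕ) (e : ℕ → ℝ) (η V : ℝ) (hV : 0 < V) (hI : 1 ≤ I * η) (h0 : 0 ≤ e 0)
    (hb : e I ≤ V) (hI0 : I ≠ 0) : ∃ i < I, e (i + 1) ≤ e i + η * V := by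
  by_contra hcon
  push Not at hcon
  have key : ∀ i, i ≤ I → i * (η * V) ≤ e i ∧ (i ≠ 0 → i * (η * V) < e i) := by
    intro i
    induction i with
    | zero => intro _; simp; exact h0
    | succ i ih =>
      intro hi
      have h1 := (ih (by omega)).1
      have h2 := hcon i (by omega)
      have h3 : ((i + 1 : ℕ) : ℝ) * (η * V) < e (i + 1) := by push_cast; nlinarith
      exact ⟨h3.le, fun _ => h3⟩
  have h1 := (key I le_rfl).2 hI0
  nlinarith

theorem E4_log_spec (x : ℝ) (hx : 0 < x) : (2 : ℝ) ^ (Int.log 2 x) ≤ x ∧ x < (2 : ℝ) ^ (Int.log 2 x + 1) := by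
  constructor
  · have := Int.zpow_log_le_self (b := 2) (by norm_num) hx
    exact_mod_cast this
  · have := Int.lt_zpow_succ_log_self (b := 2) (by norm_num) x
    exact_mod_cast this

theorem E4_log_mono (x y : ℝ) (hx : 0 < x) (h : x ≤ y) : Int.log 2 x ≤ Int.log 2 y :=
  Int.log_mono_right hx h

theorem E4_zpow_le (a b : ℤ) (h : (2 : ℝ) ^ a ≤ (2 : ℝ) ^ b) : a ≤ b :=
  (zpow_le_zpow_iff_right₀ (by norm_num : (1 : ℝ) < 2)).1 h

theorem E4_lmono (l : ℕ → ℝ) (H : ℝ) (hH : 1 ≤ H) (hl : ∀ j, 0 < l j) (hl' : ∀ j, H * l j ≤ l (j + 1)) :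
    Monotone l := by
  apply monotone_nat_of_le_succ
  intro j
  have := hl' j
  have := hl j
  nlinarith


/-- the two functions `f1`, `g` for one scale -/
theorem E4_core (ε0 ν : ℝ) (N n a nm : ℤ) (c : ℤ × ℤ) (K k1 : ℕ)
    (A : Set ℂ) (hA : MeasurableSet A) (hAW : A ⊆ Sq N c) (han : a ≤ n) (hnm : nm ≤ a)
    (Ξ : ℤ × ℤ → ℕ → ℂ)
    (hopt : Emax (Sq N c) (A.indicator 1) nm (K + k1) ≤ En (Sq N c) (A.indicator 1) (lab n K Ξ) +
      2 * ε0 ^ 2 * volume.real (Sq N c))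
    (hU : ∃ (K2 : ℕ) (Ξ2 : ℤ × ℤ → ℕ → ℂ), K2 ≤ k1 ∧
      ∀ g : ℂ → ℝ, Measurable g → (∀ x, x ∉ Sq N c → g x = 0) →
      g =ᵐ[volume.restrict (Sq N c)] CE (Sq N c) (A.indicator 1) (fun x => (lab n K Ξ x, lab a K2 Ξ2 x)) →
      volume.real {x | x ∈ Sq N c ∧ ¬ unif a ν (fun y => A.indicator 1 y - g y) (cell ((2 : ℝ) ^ a) x)}
        ≤ ν * volume.real (Sq N c)) :
    ∃ f1 g : ℂ → ℝ, Measurable f1 ∧ Measurable g ∧ (∀ x, 0 ≤ f1 x) ∧ (∀ x, f1 x ≤ 1) ∧ (∀ x, 0 ≤ g x) ∧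
      (∀ x, g x ≤ 1) ∧ (∀ x, x ∉ Sq N c → f1 x = 0) ∧ (∀ x, x ∉ Sq N c → g x = 0) ∧
      (∃ F : (ℤ × ℤ) × (Fin K → ℤ) → ℝ, ∀ x ∈ Sq N c, f1 x = F (lab n K Ξ x)) ∧
      (∫ x in Sq N c, f1 x = volume.real A) ∧
      (∫ x in Sq N c, A.indicator 1 x * f1 x ^ 2 = ∫ x in Sq N c, f1 x ^ 3) ∧
      (∫ x in Sq N c, (g x - f1 x) ^ 2 ≤ 2 * ε0 ^ 2 * volume.real (Sq N c)) ∧
      (volume.real {x | x ∈ Sq N c ∧ ¬ unif a ν (fun y => A.indicator 1 y - g y)
        (cell ((2 : ℝ) ^ a) x)} ≤ ν * volume.real (Sq N c)) := by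
  obtain ⟨K2, Ξ2, hK2, hun⟩ := hU
  have hf : Measurable (A.indicator (1 : ℂ → ℝ)) := measurable_one.indicator hA
  have h0 : ∀ x, 0 ≤ A.indicator (1 : ℂ → ℝ) x := fun x => Set.indicator_nonneg (fun _ _ => zero_le_one) x
  have h1 : ∀ x, A.indicator (1 : ℂ → ℝ) x ≤ 1 := fun x => Set.indicator_le_self' (fun _ _ => zero_le_one) x
  set f : ℂ → ℝ := A.indicator 1 with hfdef
  have hm1 : Measurable (lab n K Ξ) := measurable_lab n K Ξ
  have hm2 : Measurable (lab a K2 Ξ2) := measurable_lab a K2 Ξ2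
  have hm3 : Measurable (fun x => (lab n K Ξ x, lab a K2 Ξ2 x)) := hm1.prodMk hm2
  obtain ⟨f1, mf1, f10, f11, f1W, ⟨F, hF⟩, f1ae⟩ := CE_version N c f hf h0 h1 (lab n K Ξ) hm1
  obtain ⟨g, mg, g0, g1, gW, _, gae⟩ := CE_version N c f hf h0 h1 (fun x => (lab n K Ξ x, lab a K2 Ξ2 x)) hm3
  refine ⟨f1, g, mf1, mg, f10, f11, g0, g1, f1W, gW, ⟨F, hF⟩, ?_, ?_, ?_, ?_⟩
  · have h := CE_orth N c f hf h0 h1 (lab n K Ξ) hm1 (fun _ => 1) measurable_const 1 (by simp)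
    simp only [mul_one] at h
    rw [integral_congr_ae f1ae, ← h, hfdef]
    rw [integral_indicator_one hA, measureReal_restrict_apply hA, Set.inter_eq_left.2 hAW]
  · -- clip `F` to `[0,1]`
    set F' : (ℤ × ℤ) × (Fin K → ℤ) → ℝ := fun i => (max 0 (min 1 (F i))) ^ 2 with hF'
    have hF'm : Measurable F' := measurable_of_countable _
    have hF'b : ∀ i, |F' i| ≤ 1 := by
      intro i
      have h1 : 0 ≤ max 0 (min 1 (F i)) := le_max_left _ _
      have h2 : max 0 (min 1 (F i)) ≤ 1 := max_le zero_le_one (min_le_left _ _)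
      rw [hF', abs_of_nonneg (sq_nonneg _)]
      exact pow_le_one₀ h1 h2
    have hF'e : ∀ x ∈ Sq N c, F' (lab n K Ξ x) = f1 x ^ 2 := by
      intro x hx
      rw [hF', hF x hx]
      have h1 := hF x hx ▸ f10 x
      have h2 := hF x hx ▸ f11 x
      simp only [min_eq_right h2, max_eq_right h1]
    have h := CE_orth N c f hf h0 h1 (lab n K Ξ) hm1 F' hF'm 1 hF'b
    have e1 : ∫ x in Sq N c, f x * F' (lab n K Ξ x) = ∫ x in Sq N c, f x * f1 x ^ 2 :=
      setIntegral_congr_fun (Sq_meas N c) fun x hx => by simp only [hF'e x hx]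
    have e2 : ∫ x in Sq N c, CE (Sq N c) f (lab n K Ξ) x * F' (lab n K Ξ x) = ∫ x in Sq N c, f1 x ^ 3 := by
      have e3 : ∫ x in Sq N c, f1 x * F' (lab n K Ξ x) = ∫ x in Sq N c, f1 x ^ 3 :=
        setIntegral_congr_fun (Sq_meas N c) fun x hx => by
          show f1 x * F' (lab n K Ξ x) = f1 x ^ 3
          rw [hF'e x hx]; ring
      rw [← e3]
      apply integral_congr_ae
      filter_upwards [f1ae] with x hx
      rw [hx]
    rw [e1, e2] at h
    exact h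
  · have hsub1 : SA (lab n K Ξ) ≤ SA (fun x => (lab n K Ξ x, lab a K2 Ξ2 x)) := by
      apply measurable_iff_comap_le.1
      exact measurable_fst.comp (comap_measurable (fun x => (lab n K Ξ x, lab a K2 Ξ2 x)))
    have hadd := En_add N c f hf h0 h1 (lab n K Ξ) (fun x => (lab n K Ξ x, lab a K2 Ξ2 x)) hm1 hm3 hsub1
    obtain ⟨Ξ3, hr1, hr2⟩ := lab_refine n a K K2 Ξ Ξ2 han
    have hm4 : Measurable (lab a (K + K2) Ξ3) := measurable_lab _ _ _
    have hsub2 : SA (fun x => (lab n K Ξ x, lab a K2 Ξ2 x)) ≤ SA (lab a (K + K2) Ξ3) := by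
      apply measurable_iff_comap_le.1
      exact Measurable.prodMk (measurable_iff_comap_le.2 hr1) (measurable_iff_comap_le.2 hr2)
    have hadd2 := En_add N c f hf h0 h1 (fun x => (lab n K Ξ x, lab a K2 Ξ2 x)) (lab a (K + K2) Ξ3) hm3 hm4 hsub2
    have hnn : 0 ≤ ∫ x in Sq N c, (CE (Sq N c) f (lab a (K + K2) Ξ3) x -
        CE (Sq N c) f (fun x => (lab n K Ξ x, lab a K2 Ξ2 x)) x) ^ 2 := integral_nonneg fun x => sq_nonneg _
    have hE1 := le_Emax N c f hf h0 h1 a (K + K2) Ξ3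
    have hE2 := (Emax_mono N c f hf h0 h1 a nm (K + K2) (K + k1) hnm (by omega)).2.1
    have hint : ∫ x in Sq N c, (g x - f1 x) ^ 2 = ∫ x in Sq N c, (CE (Sq N c) f (fun x => (lab n K Ξ x, lab a K2 Ξ2 x)) x -
        CE (Sq N c) f (lab n K Ξ) x) ^ 2 := by
      apply integral_congr_ae
      filter_upwards [f1ae, gae] with x h1 h2
      rw [h1, h2]
    rw [hint]
    linarith
  · exact hun g mg gW gae


theorem STR (ω : ℂ) (ε0 : ℝ) (hε : 0 < ε0) (hε1 : ε0 ≤ 1) (m : ℕ → ℕ) (c1 : ℝ) (hc : 0 < c1) (C1 ν L : ℕ → ℝ)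
    (hν : ∀ K, 0 < ν K) (hν1 : ∀ K, ν K ≤ 1) : ∃ (J : ℕ) (H : ℝ), 1 ≤ H ∧
    ∀ l : ℕ → ℝ, (∀ j, 0 < l j) → (∀ j, H * l j ≤ l (j + 1)) → ∀ (N : ℤ) (c : ℤ × ℤ), H * l J ≤ (2 : ℝ) ^ N →
    ∀ A : Set ℂ, MeasurableSet A → A ⊆ Sq N c →
    ∃ (K j : ℕ) (n a : ℤ) (Ξ : ℤ × ℤ → ℕ → ℂ) (f1 g : ℂ → ℝ), j ≤ J ∧
      Cfg ω ε0 K (m K) c1 (C1 K) (ν K) (L K) (l j) A N c n a Ξ f1 g := by
  -- the functions of `K`
  choose B HH hB hH hNR using fun K => NONRES ω K (m K) c1 (C1 K) hc ε0 hε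
  choose k1 hk1 using fun K => UNI (ν K) (hν K) (hν1 K)
  obtain ⟨I, hI⟩ := exists_nat_ge (1 / ε0 ^ 2)
  have hε2 : 0 < ε0 ^ 2 := by positivity
  have hI1 : 1 ≤ I * ε0 ^ 2 := by
    rw [div_le_iff₀ hε2] at hI; exact hI
  have hI0 : I ≠ 0 := by
    rintro rfl
    simp at hI1
    linarith
  let Ks : ℕ → ℕ := fun i => Nat.rec 0 (fun _ K => K + k1 K) i
  have hKs : ∀ i, Ks (i + 1) = Ks i + k1 (Ks i) := fun i => rfl
  set T : ℕ → ℕ := fun i => ∑ i' ∈ Finset.Ico i I, B (Ks i') with hT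
  have hTs : ∀ i, i < I → T i = B (Ks i) + T (i + 1) := by
    intro i hi
    simp only [hT]
    rw [Finset.sum_eq_sum_Ico_succ_bot hi]
  have hTle : ∀ i, T i ≤ T 0 := by
    intro i
    simp only [hT]
    exact Finset.sum_le_sum_of_subset (Finset.Ico_subset_Ico_left (Nat.zero_le i))
  set H : ℝ := 1 + ∑ i ∈ Finset.range I, (HH (Ks i) + 2 * |L (Ks i)|) with hHdef
  have hterm : ∀ i, 0 ≤ HH (Ks i) + 2 * |L (Ks i)| := by
    intro i
    have := hH (Ks i)
    have := abs_nonneg (L (Ks i))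
    linarith
  have hH1 : 1 ≤ H := by
    have : 0 ≤ ∑ i ∈ Finset.range I, (HH (Ks i) + 2 * |L (Ks i)|) := Finset.sum_nonneg fun i _ => hterm i
    linarith
  have hHi : ∀ i, i < I → HH (Ks i) ≤ H ∧ 2 * |L (Ks i)| ≤ H := by
    intro i hi
    have h1 : HH (Ks i) + 2 * |L (Ks i)| ≤ ∑ i ∈ Finset.range I, (HH (Ks i) + 2 * |L (Ks i)|) :=
      Finset.single_le_sum (f := fun i => HH (Ks i) + 2 * |L (Ks i)|) (fun i _ => hterm i) (Finset.mem_range.2 hi)
    have := hH (Ks i)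
    have := abs_nonneg (L (Ks i))
    constructor <;> linarith
  refine ⟨T 0, H, hH1, ?_⟩
  intro l hl hl' N c hN A hA hAW
  have hlm := E4_lmono l H hH1 hl hl'
  have hf : Measurable (A.indicator (1 : ℂ → ℝ)) := measurable_one.indicator hA
  have h0 : ∀ x, 0 ≤ A.indicator (1 : ℂ → ℝ) x := fun x => Set.indicator_nonneg (fun _ _ => zero_le_one) x
  have h1 : ∀ x, A.indicator (1 : ℂ → ℝ) x ≤ 1 := fun x => Set.indicator_le_self' (fun _ _ => zero_le_one) x
  have hfW : ∀ x, x ∉ Sq N c → A.indicator (1 : ℂ → ℝ) x = 0 := fun x hx =>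
    Set.indicator_of_notMem (fun h => hx (hAW h)) _
  set V := volume.real (Sq N c) with hVdef
  have hV : 0 < V := by
    rw [hVdef, Sq_vol]; positivity
  -- the levels
  set nn : ℕ → ℤ := fun j => if j < T 0 then Int.log 2 (l (j + 1)) else N with hnn
  have hlN : ∀ j, j ≤ T 0 → Int.log 2 (l j) ≤ N := by
    intro j hj
    apply E4_zpow_le
    have h2 := (E4_log_spec (l j) (hl j)).1
    have h3 := hlm hj
    have h4 := hl (T 0)
    nlinarith
  have hnnN : ∀ j, nn j ≤ N := by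
    intro j
    simp only [hnn]
    split_ifs with h
    · exact hlN (j + 1) h
    · exact le_rfl
  have hnnmono : ∀ j j', j ≤ j' → nn j ≤ nn j' := by
    intro j j' hjj
    simp only [hnn]
    by_cases h : j' < T 0
    · rw [if_pos h, if_pos (by omega)]
      exact E4_log_mono _ _ (hl _) (hlm (by omega))
    · rw [if_neg h]
      exact hnnN j
  -- pigeonhole
  obtain ⟨i, hi, hinc⟩ := E4_pigeon I (fun i => Emax (Sq N c) (A.indicator 1) (nn (T i)) (Ks i)) (ε0 ^ 2) V hV hI1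
    (Emax_mono N c _ hf h0 h1 (nn (T 0)) (nn (T 0)) (Ks 0) (Ks 0) le_rfl le_rfl).1
    (Emax_mono N c _ hf h0 h1 (nn (T I)) (nn (T I)) (Ks I) (Ks I) le_rfl le_rfl).2.2 hI0
  set K := Ks i with hK
  have hTi : T i = B K + T (i + 1) := hTs i hi
  have hBK := hB K
  -- near-optimal label
  obtain ⟨Ξ, hΞ⟩ : ∃ Ξ : ℤ × ℤ → ℕ → ℂ, Emax (Sq N c) (A.indicator 1) (nn (T i)) K - ε0 ^ 2 * V <
      En (Sq N c) (A.indicator 1) (lab (nn (T i)) K Ξ) := by
    have hlt : Emax (Sq N c) (A.indicator 1) (nn (T i)) K - ε0 ^ 2 * V <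
      sSup (range fun Ξ : ℤ × ℤ → ℕ → ℂ => En (Sq N c) (A.indicator 1) (lab (nn (T i)) K Ξ)) := by
      have : 0 < ε0 ^ 2 * V := by positivity
      unfold Emax
      linarith
    obtain ⟨_, ⟨Ξ, rfl⟩, h⟩ := exists_lt_of_lt_csSup (range_nonempty _) hlt
    exact ⟨Ξ, h⟩
  -- the good scale
  obtain ⟨j, hj1, hj2, hres⟩ := hNR K l hl (fun j => (mul_le_mul_of_nonneg_right (hHi i hi).1 (hl j).le).trans (hl' j))
    (T (i + 1)) (B K) le_rfl N (nn (T i)) c (hnnN _) Ξ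
  have hjT : j ≤ T i := by omega
  have hjT0 : j ≤ T 0 := hjT.trans (hTle i)
  set a : ℤ := Int.log 2 (l j) with ha
  have hasp := E4_log_spec (l j) (hl j)
  have han : a ≤ nn (T i) := by
    simp only [hnn]
    split_ifs with h
    · exact E4_log_mono _ _ (hl _) (hlm (by omega))
    · exact hlN j hjT0
  have hnm : nn (T (i + 1)) ≤ a := by
    simp only [hnn]
    rw [if_pos (by omega)]
    exact E4_log_mono _ _ (hl _) (hlm (by omega))
  have hLn : L K * l j ≤ (2 : ℝ) ^ (nn (T i)) := by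
    have hL1 : L K * l j ≤ |L K| * l j := mul_le_mul_of_nonneg_right (le_abs_self _) (hl j).le
    have hL2 := (hHi i hi).2
    have hlj := hl j
    have hab := abs_nonneg (L K)
    simp only [hnn]
    split_ifs with h
    · have h2 := (E4_log_spec (l (T i + 1)) (hl _)).2
      have h3 := hl' (T i)
      have h4 := hlm hjT
      rw [zpow_add₀ (by norm_num), zpow_one] at h2
      have h5 : 2 * (|L K| * l j) ≤ H * l (T i) := by
        calc 2 * (|L K| * l j) = (2 * |L K|) * l j := by ring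
          _ ≤ H * l j := mul_le_mul_of_nonneg_right hL2 hlj.le
          _ ≤ H * l (T i) := mul_le_mul_of_nonneg_left h4 (by linarith)
      linarith
    · have h4 := hlm hjT0
      have h5 : 2 * (|L K| * l j) ≤ H * l (T 0) := by
        calc 2 * (|L K| * l j) = (2 * |L K|) * l j := by ring
          _ ≤ H * l j := mul_le_mul_of_nonneg_right hL2 hlj.le
          _ ≤ H * l (T 0) := mul_le_mul_of_nonneg_left h4 (by linarith)
      have h6 : 0 ≤ |L K| * l j := by positivity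
      linarith
  have hopt : Emax (Sq N c) (A.indicator 1) (nn (T (i + 1))) (K + k1 K) ≤
      En (Sq N c) (A.indicator 1) (lab (nn (T i)) K Ξ) + 2 * ε0 ^ 2 * volume.real (Sq N c) := by
    have h2 : Ks (i + 1) = K + k1 K := hKs i
    rw [h2] at hinc
    rw [← hVdef]
    linarith
  obtain ⟨f1, g, p1, p2, p3, p4, p5, p6, p7, p8, p9, p10, p11, p12, p13⟩ :=
    E4_core ε0 (ν K) N (nn (T i)) a (nn (T (i + 1))) c K (k1 K) A hA hAW han hnm Ξ hopt
      (hk1 K N (nn (T i)) a c han (hnnN _) (A.indicator 1) hf h0 h1 hfW K Ξ)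
  refine ⟨K, j, nn (T i), a, Ξ, f1, g, hjT0, ?_⟩
  exact
    { mA := hA
      AW := hAW
      nN := hnnN _
      an := han
      la := hasp.1
      la' := hasp.2
      Ln := hLn
      nonres := hres
      m1 := p1
      mg := p2
      f10 := p3
      f11 := p4
      g0 := p5
      g1 := p6
      f1W := p7
      gW := p8
      f1lab := p9
      int1 := p10
      int2 := p11
      L2 := p12
      un := p13 }

end TriDil
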