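import Pool.Agent.TriDil.Defs3
import Pool.Agent.TriDil.D5
import Pool.Agent.TriDil.E4
set_option autoImplicit false
open MeasureTheory Complex Set
namespace TriDil
open scoped ComplexConjugate

/-- power mean inequality (tangent line at `δ`) -/
theorem F1_power {W : Set ℂ} (hW : volume W < ⊤) {f : ℂ → ℝ} (hf : Measurable f)
    (f0 : ∀ x, 0 ≤ f x) (f1 : ∀ x, f x ≤ 1) {δ : ℝ} (hδ : 0 ≤ δ)
    (h : δ * volume.real W ≤ ∫ x in W, f x) :
    δ ^ 3 * volume.real W ≤ ∫ x in W, f x ^ 3 := by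
  have hfin : IsFiniteMeasure (volume.restrict W) := ⟨by simpa using hW⟩
  have i1 : Integrable f (volume.restrict W) := by
    refine Integrable.of_bound hf.aestronglyMeasurable 1 (Filter.Eventually.of_forall fun x => ?_)
    rw [Real.norm_eq_abs, abs_of_nonneg (f0 x)]
    exact f1 x
  have i3 : Integrable (fun x => f x ^ 3) (volume.restrict W) := by
    refine Integrable.of_bound (hf.pow_const 3).aestronglyMeasurable 1
      (Filter.Eventually.of_forall fun x => ?_)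
    rw [Real.norm_eq_abs, abs_of_nonneg (pow_nonneg (f0 x) 3)]
    exact pow_le_one₀ (f0 x) (f1 x)
  have ic : Integrable (fun _ : ℂ => 2 * δ ^ 3) (volume.restrict W) := integrable_const _
  have key : ∫ x in W, (3 * δ ^ 2 * f x - 2 * δ ^ 3) ≤ ∫ x in W, f x ^ 3 := by
    refine integral_mono ((i1.const_mul _).sub ic) i3 fun x => ?_
    have h0 := f0 x
    have : 0 ≤ (f x - δ) ^ 2 * (f x + 2 * δ) := by positivity
    show 3 * δ ^ 2 * f x - 2 * δ ^ 3 ≤ f x ^ 3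
    nlinarith [this]
  rw [integral_sub (i1.const_mul _) ic, integral_const_mul, integral_const] at key
  have hr : (volume.restrict W).real univ = volume.real W := by
    simp [Measure.real]
  rw [hr, smul_eq_mul] at key
  have h2 : 3 * δ ^ 2 * (δ * volume.real W) ≤ 3 * δ ^ 2 * ∫ x in W, f x :=
    mul_le_mul_of_nonneg_left h (by positivity)
  nlinarith [key, h2]

/-! ## Theorem FT -/
theorem FTthm (ω : ℂ) (h0 : ω.im ≠ 0) (h1 : ω.re ≠ 0) (h2 : ω.re ≠ 1) (δ : ℝ) (hδ : 0 < δ) (hδ1 : δ ≤ 1) :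
    ∃ (J : ℕ) (H : ℝ), 1 ≤ H ∧
    ∀ l : ℕ → ℝ, (∀ j, 0 < l j) → (∀ j, H * l j ≤ l (j + 1)) → ∀ (N : ℤ) (c : ℤ × ℤ), H * l J ≤ (2 : ℝ) ^ N →
    ∀ A : Set ℂ, MeasurableSet A → A ⊆ Sq N c → δ * volume.real (Sq N c) ≤ volume.real A →
    ∃ j ≤ J, ∃ (x : ℂ) (θ : ℝ), x ∈ A ∧ x + l j * U θ ∈ A ∧ x + l j * ω * U θ ∈ A := by
  have he : 0 < δ ^ 3 / 100 := by positivity
  have he1 : δ ^ 3 / 100 ≤ 1 := by
    have : δ ^ 3 ≤ 1 := pow_le_one₀ hδ.le hδ1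
    linarith
  obtain ⟨m, c1, C1, ν, L, hc, hν, hν1, hcount⟩ := COUNT ω h0 h1 h2 (δ ^ 3 / 100) he he1
  obtain ⟨J, H, hH, hstr⟩ := STR ω (δ ^ 3 / 100) he he1 m c1 hc C1 ν L hν hν1
  refine ⟨J, H, hH, ?_⟩
  intro l hl0 hl N c hN A hA hAW hAδ
  obtain ⟨K, j, n, a, Ξ, f1, g, hj, hcfg⟩ := hstr l hl0 hl N c hN A hA hAW
  refine ⟨j, hj, ?_⟩
  by_contra hno
  push Not at hno
  have hno' : ∀ (x : ℂ) (θ : ℝ), ¬ (x ∈ A ∧ x + l j * U θ ∈ A ∧ x + l j * ω * U θ ∈ A) := by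
    intro x θ h
    exact hno x θ h.1 h.2.1 h.2.2
  have hc3 := hcount K (l j) A N c n a Ξ f1 g (hl0 j) hcfg hno'
  have hv : 0 < volume.real (Sq N c) := by
    rw [Sq_vol]; positivity
  have hp : δ ^ 3 * volume.real (Sq N c) ≤ ∫ x in Sq N c, f1 x ^ 3 :=
    F1_power (Sq_fin N c) hcfg.m1 hcfg.f10 hcfg.f11 hδ.le (by rw [hcfg.int1]; exact hAδ)
  have h3 : δ ^ 3 * volume.real (Sq N c) ≤ 20 * (δ ^ 3 / 100) * volume.real (Sq N c) :=
    hp.trans hc3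
  have hδ3 : 0 < δ ^ 3 * volume.real (Sq N c) := by positivity
  nlinarith [h3, hδ3]

end TriDil
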