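import Pool.Agent.TriDil.Defs3
import Pool.Agent.TriDil.F1
set_option autoImplicit false
open MeasureTheory Complex Set
namespace TriDil
open scoped ComplexConjugate

/-! ## the theorem in the plane `ℂ` -/

/-- a large dyadic square on which `A` is dense -/
theorem F2_dens (A : Set ℂ)
    (hd : 0 < Filter.limsup (fun R : ℝ => volume (A ∩ Metric.ball (0 : ℂ) R) / volume (Metric.ball (0 : ℂ) R))
      Filter.atTop) :
    ∃ δ : ℝ, 0 < δ ∧ δ ≤ 1 ∧ ∀ M : ℝ, ∃ (N : ℤ) (c : ℤ × ℤ), M ≤ (2 : ℝ) ^ N ∧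
      δ * volume.real (Sq N c) ≤ volume.real (A ∩ Sq N c) := by
  obtain ⟨e, he0, he1⟩ := exists_between hd
  have hfreq := Filter.frequently_lt_of_lt_limsup (by isBoundedDefault) he1
  have hetop : e ≠ ⊤ := ne_top_of_lt he1
  have hδ0 : 0 < e.toReal := ENNReal.toReal_pos he0.ne' hetop
  refine ⟨min 1 (e.toReal / 16), lt_min one_pos (by positivity), min_le_left _ _, fun M => ?_⟩
  obtain ⟨R, hR, hRM⟩ := (hfreq.and_eventually (Filter.eventually_ge_atTop (max M 1))).exists
  have hRM1 : M ≤ R := (le_max_left _ _).trans hRM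
  have hR1 : 1 ≤ R := (le_max_right _ _).trans hRM
  have hR0 : 0 < R := by linarith
  obtain ⟨n, hn1, hn2⟩ := exists_mem_Ioc_zpow hR0 (one_lt_two : (1 : ℝ) < 2)
  set N : ℤ := n + 1 with hN
  have hN0 : (0 : ℝ) < 2 ^ N := by positivity
  have hN1 : R ≤ 2 ^ N := hn2
  have hN2 : (2 : ℝ) ^ N < 2 * R := by
    rw [hN, zpow_add₀ (by norm_num), zpow_one]
    linarith
  -- the measure of `A` in the ball
  have hball : volume.real (Metric.ball (0 : ℂ) R) = R ^ 2 * Real.pi := by
    rw [measureReal_def, Complex.volume_ball, ENNReal.toReal_mul, ENNReal.toReal_pow,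
      ENNReal.toReal_ofReal hR0.le]
    rfl
  have hbfin : volume (Metric.ball (0 : ℂ) R) ≠ ⊤ := measure_ball_lt_top.ne
  have hAb : e.toReal * (R ^ 2 * Real.pi) ≤ volume.real (A ∩ Metric.ball (0 : ℂ) R) := by
    have h1 : e * volume (Metric.ball (0 : ℂ) R) ≤ volume (A ∩ Metric.ball (0 : ℂ) R) :=
      ENNReal.mul_le_of_le_div hR.le
    have h2 := ENNReal.toReal_mono ((measure_mono inter_subset_right).trans_lt
      measure_ball_lt_top).ne h1
    rw [ENNReal.toReal_mul] at h2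
    rw [← hball]
    exact h2
  by_contra hcon
  push Not at hcon
  have hsmall : ∀ c : ℤ × ℤ, volume.real (A ∩ Sq N c) < e.toReal / 4 * R ^ 2 := by
    intro c
    have h1 := hcon N c (hRM1.trans hN1)
    rw [Sq_vol] at h1
    have h2 : min 1 (e.toReal / 16) * ((2 : ℝ) ^ N) ^ 2 ≤ e.toReal / 16 * (2 * R) ^ 2 := by
      apply mul_le_mul (min_le_right _ _) _ (by positivity) (by positivity)
      exact pow_le_pow_left₀ hN0.le hN2.le 2
    calc volume.real (A ∩ Sq N c) < _ := h1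
      _ ≤ _ := h2
      _ = e.toReal / 4 * R ^ 2 := by ring
  set S : Finset (ℤ × ℤ) := {(-1, -1), (-1, 0), (0, -1), (0, 0)} with hS
  have hcov : A ∩ Metric.ball (0 : ℂ) R ⊆ ⋃ c ∈ S, A ∩ Sq N c := by
    rintro x ⟨hxA, hx⟩
    rw [mem_ball_zero_iff] at hx
    have hfl : ∀ t : ℝ, |t| ≤ ‖x‖ → ⌊t / (2 : ℝ) ^ N⌋ = -1 ∨ ⌊t / (2 : ℝ) ^ N⌋ = 0 := by
      intro t ht
      have h1 : |t| < 2 ^ N := by linarith
      rw [abs_lt] at h1
      have h2 : -1 < t / (2 : ℝ) ^ N := by
        rw [lt_div_iff₀ hN0]; linarith [h1.1]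
      have h3 : t / (2 : ℝ) ^ N < 1 := by
        rw [div_lt_one hN0]; exact h1.2
      have h4 : -1 ≤ ⌊t / (2 : ℝ) ^ N⌋ := Int.le_floor.2 (by push_cast; linarith)
      have h5 : ⌊t / (2 : ℝ) ^ N⌋ < 1 := Int.floor_lt.2 (by push_cast; linarith)
      omega
    have hr := hfl x.re (Complex.abs_re_le_norm x)
    have hi := hfl x.im (Complex.abs_im_le_norm x)
    simp only [mem_iUnion, mem_inter_iff, exists_prop]
    refine ⟨cell ((2 : ℝ) ^ N) x, ?_, hxA, rfl⟩
    rw [hS]
    simp only [Finset.mem_insert, Finset.mem_singleton, cell, Prod.mk.injEq]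
    rcases hr with hr | hr <;> rcases hi with hi | hi <;> rw [hr, hi] <;> simp
  have hfin : ∀ c : ℤ × ℤ, volume (A ∩ Sq N c) ≠ ⊤ := fun c =>
    ((measure_mono inter_subset_right).trans_lt (Sq_fin N c)).ne
  have hsum : volume.real (A ∩ Metric.ball (0 : ℂ) R) ≤ ∑ c ∈ S, volume.real (A ∩ Sq N c) := by
    have h1 : volume (A ∩ Metric.ball (0 : ℂ) R) ≤ ∑ c ∈ S, volume (A ∩ Sq N c) :=
      (measure_mono hcov).trans (measure_biUnion_finset_le S _)
    have h2 := ENNReal.toReal_mono (ENNReal.sum_ne_top.2 fun c _ => hfin c) h1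
    rw [ENNReal.toReal_sum fun c _ => hfin c] at h2
    exact h2
  have hS4 : S.card = 4 := by rw [hS]; decide
  have hlt : ∑ c ∈ S, volume.real (A ∩ Sq N c) < ∑ _c ∈ S, e.toReal / 4 * R ^ 2 := by
    apply Finset.sum_lt_sum_of_nonempty
    · exact ⟨(0, 0), by rw [hS]; simp⟩
    · exact fun c _ => hsmall c
  rw [Finset.sum_const, hS4, nsmul_eq_mul] at hlt
  have hpi : (3 : ℝ) < Real.pi := Real.pi_gt_three
  have hpos : 0 < e.toReal * R ^ 2 := by positivity
  push_cast at hlt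
  nlinarith

/-- the theorem for one labelling of the vertices -/
theorem F2_core (A : Set ℂ) (hA : MeasurableSet A)
    (hd : 0 < Filter.limsup (fun R : ℝ => volume (A ∩ Metric.ball (0 : ℂ) R) / volume (Metric.ball (0 : ℂ) R))
      Filter.atTop) (a b c : ℂ) (h : (conj (b - a) * (c - a)).im ≠ 0)
    (h1 : ip (c - a) (b - a) ≠ 0) (h2 : ip (c - b) (b - a) ≠ 0) :
    ∃ l₀ : ℝ, 0 < l₀ ∧ ∀ l : ℝ, l₀ ≤ l → ∃ x ∈ A, ∃ y ∈ A, ∃ z ∈ A,
      dist x y = l * dist a b ∧ dist y z = l * dist b c ∧ dist x z = l * dist a c := by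
  have hba : b - a ≠ 0 := by
    intro h0
    rw [h0] at h
    simp at h
  set ω : ℂ := (c - a) / (b - a) with hω
  have hc : c - a = ω * (b - a) := (div_mul_cancel₀ _ hba).symm
  have hns : ((b - a) * conj (b - a)) = ((normSq (b - a) : ℝ) : ℂ) := Complex.mul_conj _
  have e0 : conj (b - a) * (c - a) = ((normSq (b - a) : ℝ) : ℂ) * ω := by
    rw [hc, ← hns]; ring
  have e1 : ip (c - a) (b - a) = normSq (b - a) * ω.re := by
    rw [ip_eq_re, hc]
    have : ω * (b - a) * conj (b - a) = ((normSq (b - a) : ℝ) : ℂ) * ω := by rw [← hns]; ring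
    rw [this, Complex.re_ofReal_mul]
  have e2 : ip (c - b) (b - a) = normSq (b - a) * (ω.re - 1) := by
    have : c - b = (c - a) - (b - a) := by ring
    rw [this, ip_sub_left, e1, ip_self, ← normSq_eq_norm_sq]
    ring
  have hw0 : ω.im ≠ 0 := by
    intro h0
    apply h
    rw [e0, Complex.im_ofReal_mul, h0, mul_zero]
  have hw1 : ω.re ≠ 0 := by
    intro h0
    apply h1
    rw [e1, h0, mul_zero]
  have hw2 : ω.re ≠ 1 := by
    intro h0
    apply h2
    rw [e2, h0, sub_self, mul_zero]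
  obtain ⟨δ, hδ0, hδ1, hdens⟩ := F2_dens A hd
  obtain ⟨J, H, hH, hFT⟩ := FTthm ω hw0 hw1 hw2 δ hδ0 hδ1
  by_contra hcon
  push Not at hcon
  choose f hf1 hf2 using hcon
  have hD : 0 < dist a b := dist_pos.2 (fun e => hba (by rw [e, sub_self]))
  -- the sequence of bad scales
  let s : ℕ → {t : ℝ // 0 < t} := fun n => Nat.rec ⟨f 1 one_pos, one_pos.trans_le (hf1 1 one_pos)⟩
    (fun _ t => ⟨f (H * t.1) (mul_pos (by linarith) t.2),
      (mul_pos (by linarith) t.2).trans_le (hf1 _ (mul_pos (by linarith) t.2))⟩) n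
  have hs1 : ∀ j, H * (s j).1 ≤ (s (j + 1)).1 := fun j => hf1 _ (mul_pos (by linarith) (s j).2)
  have hs2 : ∀ j, ∀ x ∈ A, ∀ y ∈ A, ∀ z ∈ A, dist x y = (s j).1 * dist a b →
      dist y z = (s j).1 * dist b c → dist x z ≠ (s j).1 * dist a c := by
    intro j
    cases j with
    | zero => exact hf2 1 one_pos
    | succ j => exact hf2 _ (mul_pos (by linarith) (s j).2)
  obtain ⟨N, q, hN, hden⟩ := hdens (H * (dist a b * (s J).1))
  obtain ⟨j, -, x, θ, hx, hy, hz⟩ := hFT (fun j => dist a b * (s j).1)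
    (fun j => mul_pos hD (s j).2) (fun j => by
      have := hs1 j
      have h3 : dist a b * (H * (s j).1) ≤ dist a b * (s (j + 1)).1 :=
        mul_le_mul_of_nonneg_left this hD.le
      calc H * (dist a b * (s j).1) = dist a b * (H * (s j).1) := by ring
        _ ≤ _ := h3) N q hN (A ∩ Sq N q) (hA.inter (Sq_meas N q)) inter_subset_right hden
  have hsj := (s j).2
  have hDn : dist a b = ‖b - a‖ := by rw [dist_comm, dist_eq_norm]
  have hωn : ‖ω‖ * ‖b - a‖ = ‖c - a‖ := by rw [hc, norm_mul]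
  have hωn' : ‖ω - 1‖ * ‖b - a‖ = ‖c - b‖ := by
    rw [← norm_mul]
    congr 1
    rw [sub_mul, ← hc]
    ring
  have hln : ‖((dist a b * (s j).1 : ℝ) : ℂ)‖ = dist a b * (s j).1 := by
    rw [Complex.norm_real, Real.norm_of_nonneg (by positivity)]
  refine hs2 j x hx.1 _ hy.1 _ hz.1 ?_ ?_ ?_
  · rw [dist_comm, dist_eq_norm, add_sub_cancel_left, norm_mul, norm_U, hln]
    ring
  · rw [dist_comm, dist_eq_norm]
    have : x + ((dist a b * (s j).1 : ℝ) : ℂ) * ω * U θ - (x + ((dist a b * (s j).1 : ℝ) : ℂ) * U θ) =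
        ((dist a b * (s j).1 : ℝ) : ℂ) * ((ω - 1) * U θ) := by ring
    rw [this, norm_mul, norm_mul, norm_U, hln, hDn, dist_comm b c, dist_eq_norm, ← hωn']
    ring
  · rw [dist_comm, dist_eq_norm, add_sub_cancel_left, norm_mul, norm_mul, norm_U, hln, hDn,
      dist_comm a c, dist_eq_norm, ← hωn]
    ring

theorem plane_thm (A : Set ℂ) (hA : MeasurableSet A)
    (hd : 0 < Filter.limsup (fun R : ℝ => volume (A ∩ Metric.ball (0 : ℂ) R) / volume (Metric.ball (0 : ℂ) R))
      Filter.atTop) (p q r : ℂ) (h : (conj (q - p) * (r - p)).im ≠ 0) :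
    ∃ l₀ : ℝ, 0 < l₀ ∧ ∀ l : ℝ, l₀ ≤ l → ∃ x ∈ A, ∃ y ∈ A, ∃ z ∈ A,
      dist x y = l * dist p q ∧ dist y z = l * dist q r ∧ dist x z = l * dist p r := by
  have key : ∀ a b c : ℂ, (conj (b - a) * (c - a)).im ≠ 0 → ip (c - a) (b - a) = 0 →
      ip (c - b) (b - a) ≠ 0 := by
    intro a b c h h1 h2
    have h3 : c - b = (c - a) - (b - a) := by ring
    rw [h3, ip_sub_left, h1, zero_sub, neg_eq_zero, ip_self, sq_eq_zero_iff, norm_eq_zero] at h2
    rw [h2] at h
    simp at h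
  -- the cyclic permutations
  have him1 : (conj (r - q) * (p - q)).im ≠ 0 := by
    have : (conj (r - q) * (p - q)).im = (conj (q - p) * (r - p)).im := by
      simp only [map_sub, mul_im, sub_re, sub_im, conj_re, conj_im]; ring
    rw [this]; exact h
  have him2 : (conj (p - r) * (q - r)).im ≠ 0 := by
    have : (conj (p - r) * (q - r)).im = (conj (q - p) * (r - p)).im := by
      simp only [map_sub, mul_im, sub_re, sub_im, conj_re, conj_im]; ring
    rw [this]; exact h
  by_cases h1 : ip (r - p) (q - p) = 0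
  · -- right angle at `p`: use `q, r, p`
    have g1 : ip (p - q) (r - q) ≠ 0 := by
      intro h0
      apply key p q r h h1
      simp only [ip, sub_re, sub_im] at h0 ⊢
      linarith
    have g2 : ip (p - r) (r - q) ≠ 0 := by
      intro h0
      have h5 : ip (r - p) (r - p) = 0 := by
        simp only [ip, sub_re, sub_im] at h0 h1 ⊢
        linarith
      rw [ip_self, sq_eq_zero_iff, norm_eq_zero] at h5
      rw [h5] at h
      simp at h
    obtain ⟨l₀, hl0, hl⟩ := F2_core A hA hd q r p him1 g1 g2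
    refine ⟨l₀, hl0, fun l hll => ?_⟩
    obtain ⟨x, hx, y, hy, z, hz, d1, d2, d3⟩ := hl l hll
    exact ⟨z, hz, x, hx, y, hy, by rw [dist_comm, d3, dist_comm q p], d1,
      by rw [dist_comm, d2, dist_comm r p]⟩
  · by_cases h2 : ip (r - q) (q - p) = 0
    · -- right angle at `q`: use `r, p, q`
      have g1 : ip (q - r) (p - r) ≠ 0 := by
        intro h0
        have h5 : ip (q - r) (q - r) = 0 := by
          simp only [ip, sub_re, sub_im] at h0 h2 ⊢
          linarith
        rw [ip_self, sq_eq_zero_iff, norm_eq_zero] at h5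
        rw [h5] at him2
        simp at him2
      have g2 : ip (q - p) (p - r) ≠ 0 := by
        intro h0
        apply h1
        simp only [ip, sub_re, sub_im] at h0 ⊢
        linarith
      obtain ⟨l₀, hl0, hl⟩ := F2_core A hA hd r p q him2 g1 g2
      refine ⟨l₀, hl0, fun l hll => ?_⟩
      obtain ⟨x, hx, y, hy, z, hz, d1, d2, d3⟩ := hl l hll
      exact ⟨y, hy, z, hz, x, hx, d2, by rw [dist_comm, d3, dist_comm r q],
        by rw [dist_comm, d1, dist_comm r p]⟩
    · exact F2_core A hA hd p q r h h1 h2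

end TriDil
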