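import Pool.Agent.TriDil.Defs
set_option autoImplicit false
open MeasureTheory Complex Set
namespace TriDil
open scoped ComplexConjugate

/-! ### elementary facts about `ip`, `U` -/

theorem ip_comm (a b : ℂ) : ip a b = ip b a := by unfold ip; ring
theorem ip_add_left (a b c : ℂ) : ip (a + b) c = ip a c + ip b c := by
  simp only [ip, add_re, add_im]; ring
theorem ip_sub_left (a b c : ℂ) : ip (a - b) c = ip a c - ip b c := by
  simp only [ip, sub_re, sub_im]; ring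
theorem ip_add_right (a b c : ℂ) : ip a (b + c) = ip a b + ip a c := by
  simp only [ip, add_re, add_im]; ring
theorem ip_sub_right (a b c : ℂ) : ip a (b - c) = ip a b - ip a c := by
  simp only [ip, sub_re, sub_im]; ring
theorem ip_neg_left (a b : ℂ) : ip (-a) b = -ip a b := by simp only [ip, neg_re, neg_im]; ring
theorem ip_neg_right (a b : ℂ) : ip a (-b) = -ip a b := by simp only [ip, neg_re, neg_im]; ring
theorem ip_eq_re (a b : ℂ) : ip a b = (a * conj b).re := by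
  simp only [ip, mul_re, conj_re, conj_im]; ring
theorem ip_self (a : ℂ) : ip a a = ‖a‖ ^ 2 := by
  rw [← normSq_eq_norm_sq, normSq_apply]; rfl
theorem ip_le (a b : ℂ) : |ip a b| ≤ ‖a‖ * ‖b‖ := by
  rw [ip_eq_re]
  calc |(a * conj b).re| ≤ ‖a * conj b‖ := abs_re_le_norm _
    _ = ‖a‖ * ‖b‖ := by rw [norm_mul, norm_conj]
theorem ip_mul_real_left (t : ℝ) (a b : ℂ) : ip (t * a) b = t * ip a b := by
  simp only [ip, mul_re, mul_im, ofReal_re, ofReal_im]; ring
theorem ip_mul_real_right (t : ℝ) (a b : ℂ) : ip a (t * b) = t * ip a b := by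
  simp only [ip, mul_re, mul_im, ofReal_re, ofReal_im]; ring
theorem ip_mul_left (c a b : ℂ) : ip (c * a) b = ip a (conj c * b) := by
  simp only [ip, mul_re, mul_im, conj_re, conj_im]; ring
theorem ip_mul_mul (c a b : ℂ) : ip (c * a) (c * b) = ‖c‖ ^ 2 * ip a b := by
  rw [← normSq_eq_norm_sq, normSq_apply]
  simp only [ip, mul_re, mul_im]; ring

theorem norm_U (θ : ℝ) : ‖U θ‖ = 1 := by
  unfold U; exact Complex.norm_exp_ofReal_mul_I θ
theorem U_ne_zero (θ : ℝ) : U θ ≠ 0 := by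
  intro h; have := norm_U θ; rw [h, norm_zero] at this; exact zero_ne_one this
theorem U_add (a b : ℝ) : U (a + b) = U a * U b := by
  unfold U; rw [← Complex.exp_add]; congr 1; push_cast; ring
theorem U_re (θ : ℝ) : (U θ).re = Real.cos θ := by unfold U; exact Complex.exp_ofReal_mul_I_re θ
theorem U_im (θ : ℝ) : (U θ).im = Real.sin θ := by unfold U; exact Complex.exp_ofReal_mul_I_im θ
theorem conj_U (θ : ℝ) : conj (U θ) = U (-θ) := by
  apply Complex.ext
  · rw [conj_re, U_re, U_re, Real.cos_neg]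
  · rw [conj_im, U_im, U_im, Real.sin_neg]
theorem U_zero : U 0 = 1 := by unfold U; simp
theorem U_mul_conj (θ : ℝ) : U θ * conj (U θ) = 1 := by
  rw [conj_U, ← U_add, add_neg_cancel, U_zero]
theorem conj_mul_U (θ : ℝ) : conj (U θ) * U θ = 1 := by rw [mul_comm, U_mul_conj]
theorem continuous_U : Continuous U := by unfold U; fun_prop
theorem measurable_U : Measurable U := continuous_U.measurable

theorem ip_U_mul_U (a b : ℂ) (θ : ℝ) : ip (U θ * a) (U θ * b) = ip a b := by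
  rw [ip_mul_mul, norm_U]; ring

/-- `|U(θ+α) − U θ| ≤ |α|` -/
theorem norm_U_sub_le (θ α : ℝ) : ‖U (θ + α) - U θ‖ ≤ |α| := by
  have h : U (θ + α) - U θ = U θ * (Complex.exp (I * α) - 1) := by
    rw [U_add, mul_sub, mul_one]; congr 2; unfold U; ring_nf
  rw [h, norm_mul, norm_U, one_mul]
  have := Real.norm_exp_I_mul_ofReal_sub_one_le (x := α)
  simpa using this

/-- `U(θ+α) − U θ = iα U θ + O(α²)` -/
theorem norm_U_sub_le2 (θ α : ℝ) (hα : |α| ≤ 1) : ‖U (θ + α) - U θ - I * α * U θ‖ ≤ α ^ 2 := by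
  have h : U (θ + α) - U θ - I * α * U θ = U θ * (Complex.exp (I * α) - 1 - I * α) := by
    rw [U_add]
    have : U α = Complex.exp (I * α) := by unfold U; ring_nf
    rw [this]; ring
  rw [h, norm_mul, norm_U, one_mul]
  have h1 : ‖I * (α:ℂ)‖ ≤ 1 := by rw [norm_mul, norm_I, one_mul, norm_real]; exact hα
  have := Complex.norm_exp_sub_one_sub_id_le h1
  calc ‖Complex.exp (I * α) - 1 - I * α‖ ≤ ‖I * (α:ℂ)‖ ^ 2 := this
    _ = α ^ 2 := by rw [norm_mul, norm_I, one_mul, norm_real, Real.norm_eq_abs, sq_abs]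

/-! ### systems -/

theorem Sys.mono {ω : ℂ} {R ε ε' κ κ' : ℝ} {B0 B1 B2 : ℂ → ℂ} {G G' : Set (ℂ × ℝ)}
    (h : Sys ω R ε κ B0 B1 B2 G) (hs : Sub ε' G' G) (h0 : 0 < ε') (he : ε' ≤ ε) (hκ : κ ≤ κ') :
    Sys ω R ε' κ' B0 B1 B2 G' where
  m0 := h.m0
  m1 := h.m1
  m2 := h.m2
  mG := hs.meas
  bdd := fun g hg => h.bdd g (hs.sub hg)
  ang := fun g hg => h.ang g (hs.sub hg)
  vol := hs.vol
  ra := fun g hg => (h.ra g (hs.sub hg)).trans hκ
  rb := fun g hg => (h.rb g (hs.sub hg)).trans hκ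
  lo := fun g hg => he.trans (h.lo g (hs.sub hg))
  hi := fun g hg => (h.hi g (hs.sub hg)).trans (one_div_le_one_div_of_le h0 he)

/-- `swp` is measure preserving -/
theorem mp_shear (p : ℂ) : MeasurePreserving (fun g : ℂ × ℝ => (g.1 + p * U g.2, g.2)) volume volume := by
  have h : MeasurePreserving (fun g : ℝ × ℂ => (g.1, g.2 + p * U g.1)) (volume.prod volume) (volume.prod volume) := by
    apply MeasurePreserving.skew_product (f := id) (g := fun a b => b + p * U a) (MeasurePreserving.id volume)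
    · exact (measurable_snd.add ((measurable_U.comp measurable_fst).const_mul p))
    · filter_upwards with a
      exact (measurePreserving_add_right volume (p * U a)).map_eq
  have e1 : MeasurePreserving (Prod.swap : ℂ × ℝ → ℝ × ℂ) (volume.prod volume) (volume.prod volume) :=
    Measure.measurePreserving_swap
  have e2 : MeasurePreserving (Prod.swap : ℝ × ℂ → ℂ × ℝ) (volume.prod volume) (volume.prod volume) :=
    Measure.measurePreserving_swap
  exact e2.comp (h.comp e1)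

theorem mp_rot (p : ℂ) (α : ℝ) : MeasurePreserving (rot p α) volume volume := by
  have h : MeasurePreserving (fun g : ℂ × ℝ => (g.1, g.2 + α)) volume volume :=
    (MeasurePreserving.id volume).prod (measurePreserving_add_right volume α)
  have h1 := mp_shear p
  have h2 := mp_shear (-p)
  have h3 := h2.comp (h.comp h1)
  convert h3 using 1
  funext g
  simp only [rot, Function.comp_apply, Prod.mk.injEq, and_true]
  ring

theorem mp_swp : MeasurePreserving swp volume volume := by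
  have h1 := mp_shear 1
  have h : MeasurePreserving (fun g : ℂ × ℝ => (-g.1, g.2)) volume volume :=
    (Measure.measurePreserving_neg (volume : Measure ℂ)).prod (MeasurePreserving.id volume)
  have h3 := h.comp h1
  convert h3 using 1
  funext g
  simp only [swp, Function.comp_apply, one_mul]

theorem swp_swp (g : ℂ × ℝ) : swp (swp g) = g := by
  simp only [swp]; ext <;> simp

theorem measurable_swp : Measurable swp := mp_swp.measurable

theorem swp_image (G : Set (ℂ × ℝ)) : swp '' G = swp ⁻¹' G := by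
  ext g; constructor
  · rintro ⟨g', h, rfl⟩; simpa [swp_swp] using h
  · intro h; exact ⟨swp g, h, swp_swp g⟩

theorem swp_meas {G : Set (ℂ × ℝ)} (h : MeasurableSet G) : MeasurableSet (swp ⁻¹' G) :=
  measurable_swp h

theorem swp_vol {G : Set (ℂ × ℝ)} (h : MeasurableSet G) : volume.real (swp ⁻¹' G) = volume.real G := by
  unfold Measure.real; rw [mp_swp.measure_preimage h.nullMeasurableSet]

theorem ell_swp (B0 B1 : ℂ → ℂ) (x : ℂ) (θ : ℝ) :
    ell (fun x => -B1 (-x)) (fun x => -B0 (-x)) x θ = ell B0 B1 (-(x + U θ)) θ := by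
  simp only [ell]
  congr 1
  have : -(x + U θ) + U θ = -x := by ring
  rw [this]; ring

theorem Sys.swap {ω : ℂ} {R ε κ : ℝ} {B0 B1 B2 : ℂ → ℂ} {G : Set (ℂ × ℝ)}
    (h : Sys ω R ε κ B0 B1 B2 G) (hκ : 0 ≤ κ) :
    Sys (1 - ω) (R + 1) ε (2 * κ) (fun x => -B1 (-x)) (fun x => -B0 (-x)) (fun x => -B2 (-x))
      (swp ⁻¹' G) where
  m0 := (h.m1.comp measurable_neg).neg
  m1 := (h.m0.comp measurable_neg).neg
  m2 := (h.m2.comp measurable_neg).neg
  mG := swp_meas h.mG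
  bdd := by
    intro g hg
    have h1 := h.bdd _ hg
    simp only [swp] at h1
    have h2 : g.1 = -(-(g.1 + U g.2)) - U g.2 := by ring
    rw [h2]
    calc ‖-(-(g.1 + U g.2)) - U g.2‖ ≤ ‖-(-(g.1 + U g.2))‖ + ‖U g.2‖ := norm_sub_le _ _
      _ ≤ R + 1 := by rw [norm_neg, norm_U]; linarith
  ang := fun g hg => by have := h.ang _ hg; simpa only [swp] using this
  vol := by rw [swp_vol h.mG]; exact h.vol
  ra := by
    intro g hg
    have h1 := h.ra _ hg
    simp only [swp] at h1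
    rw [ell_swp]
    have e1 : -(g.1 + U g.2) + U g.2 = -g.1 := by ring
    rw [e1] at h1
    have e2 : -B0 (-(g.1 + U g.2)) - -B1 (-g.1) - (ell B0 B1 (-(g.1 + U g.2)) g.2 : ℂ) * U g.2
      = B1 (-g.1) - B0 (-(g.1 + U g.2)) - (ell B0 B1 (-(g.1 + U g.2)) g.2 : ℂ) * U g.2 := by ring
    show ‖-B0 (-(g.1 + U g.2)) - -B1 (-g.1) - (ell B0 B1 (-(g.1 + U g.2)) g.2 : ℂ) * U g.2‖ ≤ 2 * κ
    rw [e2]; linarith
  rb := by
    intro g hg
    have h1 := h.ra _ hg
    have h2 := h.rb _ hg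
    simp only [swp] at h1 h2
    rw [ell_swp]
    have e1 : -(g.1 + U g.2) + U g.2 = -g.1 := by ring
    have e3 : -(g.1 + U g.2) + ω * U g.2 = -(g.1 + (1 - ω) * U g.2) := by ring
    rw [e1] at h1
    rw [e3] at h2
    set L : ℂ := (ell B0 B1 (-(g.1 + U g.2)) g.2 : ℂ) with hL
    have e2 : -B2 (-(g.1 + (1 - ω) * U g.2)) - -B1 (-g.1) - conj (1 - ω) * L * U g.2
      = (B1 (-g.1) - B0 (-(g.1 + U g.2)) - L * U g.2)
        - (B2 (-(g.1 + (1 - ω) * U g.2)) - B0 (-(g.1 + U g.2)) - conj ω * L * U g.2) := by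
      rw [map_sub, map_one]; ring
    show ‖-B2 (-(g.1 + (1 - ω) * U g.2)) - -B1 (-g.1) - conj (1 - ω) * L * U g.2‖ ≤ 2 * κ
    rw [e2]
    calc _ ≤ _ := norm_sub_le _ _
      _ ≤ 2 * κ := by linarith
  lo := by
    intro g hg
    rw [ell_swp]; exact h.lo _ hg
  hi := by
    intro g hg
    rw [ell_swp]; exact h.hi _ hg

theorem S1P.swap {A d : ℝ} {B0 B1 : ℂ → ℂ} {G : Set (ℂ × ℝ)} (h : S1P A d B0 B1 G) :
    S1P A d (fun x => -B1 (-x)) (fun x => -B0 (-x)) (swp ⁻¹' G) where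
  c0 := by
    intro g hg g' hg' hc
    have e : ∀ g : ℂ × ℝ, -((swp g).1 + U (swp g).2) = g.1 := by intro g; simp [swp]
    have e' : ∀ g : ℂ × ℝ, (swp g).1 + U (swp g).2 = -g.1 := by intro g; simp [swp]
    have := h.c1 _ hg _ hg' (by rw [e, e]; exact hc)
    rw [e', e'] at this
    rw [← norm_neg]
    have e2 : -(-B1 (-g.1) - -B1 (-g'.1)) = B1 (-g.1) - B1 (-g'.1) := by ring
    show ‖-(-B1 (-g.1) - -B1 (-g'.1))‖ ≤ A * d
    rw [e2]; exact this
  c1 := by
    intro g hg g' hg' hc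
    have := h.c0 _ hg _ hg' hc
    rw [← norm_neg]
    have e2 : -(-B0 (-(g.1 + U g.2)) - -B0 (-(g'.1 + U g'.2)))
      = B0 (-(g.1 + U g.2)) - B0 (-(g'.1 + U g'.2)) := by ring
    show ‖-(-B0 (-(g.1 + U g.2)) - -B0 (-(g'.1 + U g'.2)))‖ ≤ A * d
    rw [e2]; exact this

theorem S1P.mono {A A' d : ℝ} {B0 B1 : ℂ → ℂ} {G G' : Set (ℂ × ℝ)} (h : S1P A d B0 B1 G) (hs : G' ⊆ G)
    (hd : 0 ≤ d) (hA : A ≤ A') : S1P A' d B0 B1 G' where
  c0 := fun g hg g' hg' hc => (h.c0 g (hs hg) g' (hs hg') hc).trans (mul_le_mul_of_nonneg_right hA hd)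
  c1 := fun g hg g' hg' hc => (h.c1 g (hs hg) g' (hs hg') hc).trans (mul_le_mul_of_nonneg_right hA hd)

theorem S2P.mono {A A' d : ℝ} {B0 : ℂ → ℂ} {G G' : Set (ℂ × ℝ)} {β P Q : ℤ × ℤ → ℂ}
    (h : S2P A d B0 G β P Q) (hs : G' ⊆ G) (hA : A ≤ A') : S2P A' d B0 G' β P Q where
  bP := fun c => (h.bP c).trans hA
  bQ := fun c => (h.bQ c).trans hA
  aff := fun g hg => (h.aff g (hs hg)).trans (mul_le_mul_of_nonneg_right hA (sq_nonneg d))

/-! ### sliding relations -/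
section slide
variable {ω : ℂ} {R ε κ : ℝ} {B0 B1 B2 : ℂ → ℂ} {G : Set (ℂ × ℝ)}

/-- sliding about vertex 1, seen from vertex 0 -/
theorem Sys.sl1 (h : Sys ω R ε κ B0 B1 B2 G) {x x' : ℂ} {θ θ' : ℝ} (hg : (x, θ) ∈ G) (hg' : (x', θ') ∈ G)
    (hx : x + U θ = x' + U θ') :
    ‖B0 x - B0 x' - (ell B0 B1 x' θ' * U θ' - ell B0 B1 x θ * U θ)‖ ≤ 2 * κ := by
  have h1 := h.ra _ hg
  have h2 := h.ra _ hg'
  simp only at h1 h2
  rw [← hx] at h2
  have e : B0 x - B0 x' - (ell B0 B1 x' θ' * U θ' - ell B0 B1 x θ * U θ)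
     = (B1 (x + U θ) - B0 x' - ell B0 B1 x' θ' * U θ') - (B1 (x + U θ) - B0 x - ell B0 B1 x θ * U θ) := by ring
  rw [e]
  calc _ ≤ _ := norm_sub_le _ _
    _ ≤ 2 * κ := by linarith

/-- sliding about vertex 2, seen from vertex 0 -/
theorem Sys.sl2 (h : Sys ω R ε κ B0 B1 B2 G) {x x' : ℂ} {θ θ' : ℝ} (hg : (x, θ) ∈ G) (hg' : (x', θ') ∈ G)
    (hx : x + ω * U θ = x' + ω * U θ') :
    ‖B0 x - B0 x' - conj ω * (ell B0 B1 x' θ' * U θ' - ell B0 B1 x θ * U θ)‖ ≤ 2 * κ := by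
  have h1 := h.rb _ hg
  have h2 := h.rb _ hg'
  simp only at h1 h2
  rw [← hx] at h2
  have e : B0 x - B0 x' - conj ω * (ell B0 B1 x' θ' * U θ' - ell B0 B1 x θ * U θ)
     = (B2 (x + ω * U θ) - B0 x' - conj ω * ell B0 B1 x' θ' * U θ')
        - (B2 (x + ω * U θ) - B0 x - conj ω * ell B0 B1 x θ * U θ) := by ring
  rw [e]
  calc _ ≤ _ := norm_sub_le _ _
    _ ≤ 2 * κ := by linarith

/-- sliding about vertex 0, seen from vertex 1 -/
theorem Sys.sl0 (h : Sys ω R ε κ B0 B1 B2 G) {x : ℂ} {θ θ' : ℝ} (hg : (x, θ) ∈ G) (hg' : (x, θ') ∈ G) :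
    ‖B1 (x + U θ') - B1 (x + U θ) - (ell B0 B1 x θ' * U θ' - ell B0 B1 x θ * U θ)‖ ≤ 2 * κ := by
  have h1 := h.ra _ hg
  have h2 := h.ra _ hg'
  simp only at h1 h2
  have e : B1 (x + U θ') - B1 (x + U θ) - (ell B0 B1 x θ' * U θ' - ell B0 B1 x θ * U θ)
     = (B1 (x + U θ') - B0 x - ell B0 B1 x θ' * U θ') - (B1 (x + U θ) - B0 x - ell B0 B1 x θ * U θ) := by ring
  rw [e]
  calc _ ≤ _ := norm_sub_le _ _
    _ ≤ 2 * κ := by linarith

/-- sliding about vertex 2, seen from vertex 1 -/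
theorem Sys.sl21 (h : Sys ω R ε κ B0 B1 B2 G) {x x' : ℂ} {θ θ' : ℝ} (hg : (x, θ) ∈ G) (hg' : (x', θ') ∈ G)
    (hx : x + ω * U θ = x' + ω * U θ') :
    ‖B1 (x + U θ) - B1 (x' + U θ') - (conj ω - 1) * (ell B0 B1 x' θ' * U θ' - ell B0 B1 x θ * U θ)‖
      ≤ 4 * κ := by
  have h1 := h.ra _ hg
  have h2 := h.ra _ hg'
  have h3 := h.sl2 hg hg' hx
  simp only at h1 h2
  have e : B1 (x + U θ) - B1 (x' + U θ') - (conj ω - 1) * (ell B0 B1 x' θ' * U θ' - ell B0 B1 x θ * U θ)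
     = (B1 (x + U θ) - B0 x - ell B0 B1 x θ * U θ) - (B1 (x' + U θ') - B0 x' - ell B0 B1 x' θ' * U θ')
       + (B0 x - B0 x' - conj ω * (ell B0 B1 x' θ' * U θ' - ell B0 B1 x θ * U θ)) := by ring
  rw [e]
  calc _ ≤ _ := norm_add_le _ _
    _ ≤ _ := add_le_add_left (norm_sub_le _ _) _
    _ ≤ 4 * κ := by linarith

/-- the scalar sliding relation for a vertex `p` with `p ≠ 0` -/
theorem scal (p x x' b : ℂ) (θ θ' l l' κ : ℝ) (hp : p ≠ 0) (hx : x + p * U θ = x' + p * U θ')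
    (h : ‖b - conj p * (l' * U θ' - l * U θ)‖ ≤ κ) :
    |ip b (conj p / p * (x - x')) - ‖x - x'‖ ^ 2 * ((l + l') / 2)| ≤ κ * ‖x - x'‖ := by
  have hx' : x - x' = p * (U θ' - U θ) := by linear_combination hx
  have e1 : conj p / p * (x - x') = conj p * (U θ' - U θ) := by
    rw [hx']; field_simp
  have hn : ‖conj p * (U θ' - U θ)‖ = ‖x - x'‖ := by
    rw [hx', norm_mul, norm_mul, norm_conj]
  have e2 : ip (conj p * (l' * U θ' - l * U θ)) (conj p * (U θ' - U θ)) = ‖x - x'‖ ^ 2 * ((l + l') / 2) := by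
    rw [ip_mul_mul, norm_conj, hx', norm_mul, mul_pow]
    have h3 : ip (l' * U θ' - l * U θ) (U θ' - U θ) = ‖U θ' - U θ‖ ^ 2 * ((l + l') / 2) := by
      rw [← ip_self]
      have h4 : ip (U θ) (U θ) = 1 := by rw [ip_self, norm_U]; norm_num
      have h5 : ip (U θ') (U θ') = 1 := by rw [ip_self, norm_U]; norm_num
      have h6 := ip_comm (U θ') (U θ)
      simp only [ip_sub_left, ip_sub_right, ip_mul_real_left, h4, h5, h6]
      ring
    rw [h3]; ring
  have e3 : ip b (conj p / p * (x - x')) - ‖x - x'‖ ^ 2 * ((l + l') / 2)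
      = ip (b - conj p * (l' * U θ' - l * U θ)) (conj p * (U θ' - U θ)) := by
    rw [ip_sub_left, e2, e1]
  rw [e3]
  calc _ ≤ _ := ip_le _ _
    _ ≤ κ * ‖x - x'‖ := by rw [hn]; exact mul_le_mul_of_nonneg_right h (norm_nonneg _)

end slide

end TriDil
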