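import Mathlib

/-!
# Large dilates of a triangle in planar sets of positive upper density: definitions

The plane is `ℂ`. `ip a b = Re (a * conj b)`; `U θ = e^{iθ}`.
-/

set_option autoImplicit false

open MeasureTheory Complex Set

namespace TriDil

noncomputable section

/-- real inner product on `ℂ` -/
def ip (a b : ℂ) : ℝ := a.re * b.re + a.im * b.im

/-- the unit vector `e^{iθ}` -/
def U (θ : ℝ) : ℂ := Complex.exp (θ * I)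

/-- determinant of two plane vectors -/
def dt (a b : ℂ) : ℝ := a.re * b.im - a.im * b.re

/-- label of the cell of side `d` containing `x` -/
def cell (d : ℝ) (x : ℂ) : ℤ × ℤ := (⌊x.re / d⌋, ⌊x.im / d⌋)

/-- two-dimensional Fourier transform -/
def FT (f : ℂ → ℂ) (ξ : ℂ) : ℂ := ∫ x : ℂ, f x * Complex.exp (-(ip ξ x : ℂ) * I)

/-- one-dimensional Fourier transform -/
def FT1 (g : ℝ → ℂ) (ζ : ℝ) : ℂ := ∫ x : ℝ, g x * Complex.exp (-((ζ * x : ℝ) : ℂ) * I)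

/-- bounded by `1`, measurable, supported in the ball of radius `R` -/
structure BF (R : ℝ) (f : ℂ → ℂ) : Prop where
  meas : Measurable f
  le : ∀ x, ‖f x‖ ≤ 1
  supp : ∀ x, R < ‖x‖ → f x = 0

/-- single frequency on each cell of side `ρ`, supported in the ball of radius `R` -/
structure SF (ρ R : ℝ) (φ : ℂ → ℂ) : Prop where
  ex : ∃ a c : ℤ × ℤ → ℂ, (∀ n, ‖c n‖ ≤ 1) ∧
    ∀ x, φ x = c (cell ρ x) * Complex.exp ((ip (a (cell ρ x)) x : ℂ) * I)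
  supp : ∀ x, R < ‖x‖ → φ x = 0

/-- trilinear form with kernel `k` -/
def TK (ω : ℂ) (k : ℂ → ℝ) (f0 f1 f2 : ℂ → ℂ) : ℂ :=
  ∫ u : ℂ, (k u : ℂ) * ∫ x : ℂ, f0 x * f1 (x + u) * f2 (x + ω * u)

/-- trilinear form over circles of radius `l` -/
def Lam (ω : ℂ) (l : ℝ) (f0 f1 f2 : ℂ → ℂ) : ℂ :=
  ∫ θ in (0 : ℝ)..(2 * Real.pi), ∫ x : ℂ, f0 x * f1 (x + l * U θ) * f2 (x + l * ω * U θ)

/-- Haar wavelet -/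
def haar (t : ℝ) : ℝ := if 0 ≤ t ∧ t ≤ 1 / 2 then 1 else if 1 / 2 < t ∧ t ≤ 1 then -1 else 0

/-- thin annulus kernel -/
def kN (N : ℝ) (u : ℂ) : ℝ := if 1 ≤ normSq u ∧ normSq u ≤ 1 + 1 / N then N else 0

/-- difference kernel at scale `r` (`N = r⁻²`) -/
def kD (r : ℝ) (u : ℂ) : ℝ := (r ^ 2)⁻¹ * haar ((normSq u - 1) / r ^ 2)

/-- the four-fold correlation of a function on the line -/
def GG (G : ℝ → ℂ) (x y : ℝ) : ℂ :=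
  ∫ a : ℝ, G a * (starRingEnd ℂ) (G (a + x)) * (starRingEnd ℂ) (G (a + y)) * G (a + x + y)

/-- `k = Re ω / Im ω` -/
def kk (ω : ℂ) : ℝ := ω.re / ω.im

/-- the function `Y(T)` of Section 2 -/
def YY (ω : ℂ) (G H : ℝ → ℂ) (T : ℝ) : ℂ :=
  ∫ σ : ℝ, ∫ y : ℝ, GG G (ω.im * (T - kk ω) * σ) (-(normSq ω) / (ω.im * (T + kk ω)) * y) * GG H σ y

/-- the form of Section 3 -/
def LI (ω : ℂ) {E : Type} [MeasurableSpace E] (ν : Measure E) (f : ℂ → ℂ)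
    (G H : ℝ → E → ℝ → ℂ) : ℂ :=
  ∫ θ in (0 : ℝ)..(2 * Real.pi), ∫ e : E, (∫ p : ℝ, ∫ q : ℝ,
    f (((p : ℂ) + q * ω) * U θ) * G θ e p * H θ e q) ∂ν

/-- `ℓ(x,θ) = Re(ū (B1(x+u) − B0(x)))`, `u = e^{iθ}` -/
def ell (B0 B1 : ℂ → ℂ) (x : ℂ) (θ : ℝ) : ℝ := ip (B1 (x + U θ) - B0 x) (U θ)

/-- rotating the triangle `(x,θ)` about its vertex `x + p e^{iθ}` by the angle `α` -/
def rot (p : ℂ) (α : ℝ) (g : ℂ × ℝ) : ℂ × ℝ := (g.1 + p * (U g.2 - U (g.2 + α)), g.2 + α)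

/-- The rigidity system of Section 7 -/
structure Sys (ω : ℂ) (R ε κ : ℝ) (B0 B1 B2 : ℂ → ℂ) (G : Set (ℂ × ℝ)) : Prop where
  m0 : Measurable B0
  m1 : Measurable B1
  m2 : Measurable B2
  mG : MeasurableSet G
  bdd : ∀ g ∈ G, ‖g.1‖ ≤ R
  ang : ∀ g ∈ G, g.2 ∈ Icc (0 : ℝ) 1
  vol : ε ≤ volume.real G
  ra : ∀ g ∈ G, ‖B1 (g.1 + U g.2) - B0 g.1 - ell B0 B1 g.1 g.2 * U g.2‖ ≤ κ
  rb : ∀ g ∈ G, ‖B2 (g.1 + ω * U g.2) - B0 g.1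
        - (starRingEnd ℂ) ω * ell B0 B1 g.1 g.2 * U g.2‖ ≤ κ
  lo : ∀ g ∈ G, ε ≤ |ell B0 B1 g.1 g.2|
  hi : ∀ g ∈ G, |ell B0 B1 g.1 g.2| ≤ 1 / ε

/-- sliding graph: pairs of class-0 points of two triangles of `G1`, `G` sharing the vertex `x + p e^{iθ}` -/
def Esl (p : ℂ) (δ : ℝ) (G1 G : Set (ℂ × ℝ)) : Set (ℂ × ℂ) :=
  {z | ∃ θ α : ℝ, 0 < α ∧ α < δ ∧ (z.1, θ) ∈ G1 ∧ (z.2, θ + α) ∈ G ∧
    z.2 = z.1 + p * (U θ - U (θ + α))}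

/-- `x` has distance at least `ρ` from the boundary of its cell of side `d` -/
def deep (d ρ : ℝ) (x : ℂ) : Prop :=
  ρ ≤ d * Int.fract (x.re / d) ∧ d * Int.fract (x.re / d) + ρ < d ∧
  ρ ≤ d * Int.fract (x.im / d) ∧ d * Int.fract (x.im / d) + ρ < d

/-- the unit square -/
def usq : Set ℂ := {x | 0 ≤ x.re ∧ x.re < 1 ∧ 0 ≤ x.im ∧ x.im < 1}

/-- the swap of the classes 0 and 1 (followed by `x ↦ -x`) -/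
def swp (g : ℂ × ℝ) : ℂ × ℝ := (-(g.1 + U g.2), g.2)

/-- `G'` is a measurable subset of `G` of measure at least `ε` -/
structure Sub (ε : ℝ) (G' G : Set (ℂ × ℝ)) : Prop where
  sub : G' ⊆ G
  meas : MeasurableSet G'
  vol : ε ≤ volume.real G'

/-- property (S1) for both classes at scale `d` with constant `A` -/
structure S1P (A d : ℝ) (B0 B1 : ℂ → ℂ) (G : Set (ℂ × ℝ)) : Prop where
  c0 : ∀ g ∈ G, ∀ g' ∈ G, cell d g.1 = cell d g'.1 → ‖B0 g.1 - B0 g'.1‖ ≤ A * d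
  c1 : ∀ g ∈ G, ∀ g' ∈ G, cell d (-(g.1 + U g.2)) = cell d (-(g'.1 + U g'.2)) →
    ‖B1 (g.1 + U g.2) - B1 (g'.1 + U g'.2)‖ ≤ A * d

/-- property (S2) for class 0: `B0` is affine up to `A d²` on cells -/
structure S2P (A d : ℝ) (B0 : ℂ → ℂ) (G : Set (ℂ × ℝ)) (β P Q : ℤ × ℤ → ℂ) : Prop where
  bP : ∀ c, ‖P c‖ ≤ A
  bQ : ∀ c, ‖Q c‖ ≤ A
  aff : ∀ g ∈ G, ‖B0 g.1 - (β (cell d g.1) + P (cell d g.1) * g.1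
      + Q (cell d g.1) * (starRingEnd ℂ) g.1)‖ ≤ A * d ^ 2

/-- the first order relations (F0), (S3) with error `A d` and bounds `A` -/
structure Reg (ω : ℂ) (A d : ℝ) (B0 B1 : ℂ → ℂ) (G : Set (ℂ × ℝ))
    (t0 t1 : ℂ → ℝ) (Z0 Z1 : ℂ → ℂ) : Prop where
  mt0 : Measurable t0
  mt1 : Measurable t1
  mZ0 : Measurable Z0
  mZ1 : Measurable Z1
  bt0 : ∀ x, |t0 x| ≤ A
  bt1 : ∀ x, |t1 x| ≤ A
  bZ0 : ∀ x, ‖Z0 x‖ ≤ A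
  bZ1 : ∀ x, ‖Z1 x‖ ≤ A
  F0 : ∀ g ∈ G, |ell B0 B1 g.1 g.2 - (ω.re * t0 g.1 - ip (Z0 g.1) (U g.2 ^ 2))| ≤ A * d
  S3 : ∀ g ∈ G, ‖Z1 (g.1 + U g.2) - Z0 g.1
      - U g.2 ^ 2 * ((ω - 1) * t1 (g.1 + U g.2) - ω * t0 g.1)‖ ≤ A * d

/-- `Im(Z ū²)` -/
def imb (Z : ℂ) (θ : ℝ) : ℝ := (Z * (starRingEnd ℂ) (U θ ^ 2)).im

/-- relation (V) -/
def VP (ω : ℂ) (A d : ℝ) (B0 B1 : ℂ → ℂ) (G : Set (ℂ × ℝ)) (t1 : ℂ → ℝ) (Z1 : ℂ → ℂ) : Prop :=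
  ∀ x : ℂ, ∀ θ α : ℝ, (x, θ) ∈ G → (x, θ + α) ∈ G → |α| ≤ d →
    cell d (-(x + U θ)) = cell d (-(x + U (θ + α))) →
    |ell B0 B1 x (θ + α) - ell B0 B1 x θ
      - α * (ω.im * t1 (x + U θ) + imb (Z1 (x + U θ)) θ)| ≤ A * d ^ 2

/-- relation (S4) -/
def S4P (ω : ℂ) (A d : ℝ) (G : Set (ℂ × ℝ)) (t1 : ℂ → ℝ) (Z0 Z1 : ℂ → ℂ) : Prop :=
  ∀ g ∈ G, |ω.im * t1 (g.1 + U g.2) + imb (Z1 (g.1 + U g.2)) g.2 + 2 * imb (Z0 g.1) g.2| ≤ A * d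

/-- the coefficient functions of (S5) -/
def A5 (ω : ℂ) (Z : ℂ) : ℂ := -(3 / ω.im : ℝ) * (1 + I * (3 * (ω.re - 1) / (2 * ω.im) : ℝ)) * Z
def C5 (ω : ℂ) (t : ℝ) : ℝ := -(3 / (2 * ω.im)) * (1 + ω.re) * t

/-- hypotheses of Proposition 7.7 -/
structure S5P (ω : ℂ) (A D : ℝ) (G : Set (ℂ × ℝ)) (t0 : ℂ → ℝ) (Z0 : ℂ → ℂ) : Prop where
  bt0 : ∀ x, |t0 x| ≤ A
  bZ0 : ∀ x, ‖Z0 x‖ ≤ A
  st : ∀ x x' : ℂ, ∀ θ α : ℝ, (x, θ) ∈ G → (x', θ + α) ∈ G → 0 < α → α ≤ D →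
    x + U θ = x' + U (θ + α) → |t0 x' - t0 x| ≤ A * D
  sZ : ∀ x x' : ℂ, ∀ θ α : ℝ, (x, θ) ∈ G → (x', θ + α) ∈ G → 0 < α → α ≤ D →
    x + U θ = x' + U (θ + α) → ‖Z0 x' - Z0 x‖ ≤ A * D
  s5 : ∀ x x' : ℂ, ∀ θ α : ℝ, (x, θ) ∈ G → (x', θ + α) ∈ G → 0 < α → α ≤ D →
    x + U θ = x' + U (θ + α) →
    |t0 x' - t0 x - ((A5 ω (Z0 x) * (starRingEnd ℂ) (x' - x) ^ 2).re / ‖x' - x‖
      + C5 ω (t0 x) * ‖x' - x‖)| ≤ A * D ^ 2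

end

end TriDil
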