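import Pool.Agent.TriDil.Basic7

/-! # Part III: definitions (dyadic squares, labels, weights) -/

set_option autoImplicit false
open MeasureTheory Complex Set
namespace TriDil
open scoped ComplexConjugate

noncomputable section

/-- the dyadic square of side `2^n` with index `c` -/
def Sq (n : ℤ) (c : ℤ × ℤ) : Set ℂ := {x | cell ((2 : ℝ) ^ n) x = c}

/-- indices of the `n`-squares contained in the `N`-square `c` (`n ≤ N`) -/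
def subs (n N : ℤ) (c : ℤ × ℤ) : Finset (ℤ × ℤ) :=
  (Finset.Ico (c.1 * 2 ^ (N - n).toNat) ((c.1 + 1) * 2 ^ (N - n).toNat)) ×ˢ
  (Finset.Ico (c.2 * 2 ^ (N - n).toNat) ((c.2 + 1) * 2 ^ (N - n).toNat))

/-- the label map of level `n` with `K` frequencies `Ξ c 0, …, Ξ c (K-1)` on the square `c`, mesh `2^{-K}` -/
def lab (n : ℤ) (K : ℕ) (Ξ : ℤ × ℤ → ℕ → ℂ) (x : ℂ) : (ℤ × ℤ) × (Fin K → ℤ) :=
  (cell ((2 : ℝ) ^ n) x,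
    fun k => ⌊(2 : ℝ) ^ K * Int.fract (ip (Ξ (cell ((2 : ℝ) ^ n) x) k) x)⌋)

/-- `e(t) = exp(2πit)` -/
def ee (t : ℝ) : ℂ := Complex.exp (2 * Real.pi * t * I)

/-- the combination `Σ a_k ξ_k + ω̄ Σ b_k ξ_k` -/
def bb (ω : ℂ) (K : ℕ) (ξ : ℕ → ℂ) (a b : Fin K → ℤ) : ℂ :=
  (∑ k : Fin K, (a k : ℂ) * ξ k) + conj ω * ∑ k : Fin K, (b k : ℂ) * ξ k

/-- some combination is resonant at the scale `l` -/
def res (ω : ℂ) (K m : ℕ) (c1 C1 l : ℝ) (ξ : ℕ → ℂ) : Prop :=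
  ∃ a b : Fin K → ℤ, (∀ k, |a k| ≤ m) ∧ (∀ k, |b k| ≤ m) ∧
    c1 < l * ‖bb ω K ξ a b‖ ∧ l * ‖bb ω K ξ a b‖ < C1

/-- the kernel `G_m(t) = cos(πt)^{2m} / (4^{-m} binom(2m,m))` -/
def GM (m : ℕ) (t : ℝ) : ℝ := Real.cos (Real.pi * t) ^ (2 * m) * 4 ^ m / (Nat.choose (2 * m) m : ℝ)

/-- the weight `w_Q(θ)` -/
def wt (ω : ℂ) (K m : ℕ) (ξ : ℕ → ℂ) (l θ : ℝ) : ℝ :=
  ∏ k : Fin K, GM m (ip (ξ k) (l * U θ)) * GM m (ip (ξ k) (l * ω * U θ))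

/-- the function `F` restricted to the `a`-square `c` has no Fourier coefficient larger than `ν 4^a` -/
def unif (a : ℤ) (ν : ℝ) (F : ℂ → ℝ) (c : ℤ × ℤ) : Prop :=
  ∀ ξ : ℂ, ‖FT (fun x => (((Sq a c).indicator F x : ℝ) : ℂ)) ξ‖ ≤ ν * ((2 : ℝ) ^ a) ^ 2

/-- the configuration produced by the regularity argument -/
structure Cfg (ω : ℂ) (ε0 : ℝ) (K m : ℕ) (c1 C1 ν L l : ℝ) (A : Set ℂ) (N : ℤ) (c : ℤ × ℤ)
    (n a : ℤ) (Ξ : ℤ × ℤ → ℕ → ℂ) (f1 g : ℂ → ℝ) : Prop where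
  mA : MeasurableSet A
  AW : A ⊆ Sq N c
  nN : n ≤ N
  an : a ≤ n
  la : (2 : ℝ) ^ a ≤ l
  la' : l < (2 : ℝ) ^ (a + 1)
  Ln : L * l ≤ (2 : ℝ) ^ n
  nonres : volume.real {x | x ∈ Sq N c ∧ res ω K m c1 C1 l (Ξ (cell ((2 : ℝ) ^ n) x))}
    ≤ ε0 * volume.real (Sq N c)
  m1 : Measurable f1
  mg : Measurable g
  f10 : ∀ x, 0 ≤ f1 x
  f11 : ∀ x, f1 x ≤ 1
  g0 : ∀ x, 0 ≤ g x
  g1 : ∀ x, g x ≤ 1
  f1W : ∀ x, x ∉ Sq N c → f1 x = 0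
  gW : ∀ x, x ∉ Sq N c → g x = 0
  f1lab : ∃ F : (ℤ × ℤ) × (Fin K → ℤ) → ℝ, ∀ x ∈ Sq N c, f1 x = F (lab n K Ξ x)
  int1 : ∫ x in Sq N c, f1 x = volume.real A
  int2 : ∫ x in Sq N c, A.indicator 1 x * f1 x ^ 2 = ∫ x in Sq N c, f1 x ^ 3
  L2 : ∫ x in Sq N c, (g x - f1 x) ^ 2 ≤ 2 * ε0 ^ 2 * volume.real (Sq N c)
  un : volume.real {x | x ∈ Sq N c ∧ ¬ unif a ν (fun y => A.indicator 1 y - g y)
      (cell ((2 : ℝ) ^ a) x)} ≤ ν * volume.real (Sq N c)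

/-- σ-algebra generated by a label map -/
abbrev SA {ι : Type} [MeasurableSpace ι] (lam : ℂ → ι) : MeasurableSpace ℂ :=
  MeasurableSpace.comap lam inferInstance

/-- conditional expectation on the square `W` w.r.t. a label map -/
def CE {ι : Type} [MeasurableSpace ι] (W : Set ℂ) (f : ℂ → ℝ) (lam : ℂ → ι) : ℂ → ℝ :=
  (volume.restrict W)[f | SA lam]

/-- energy -/
def En {ι : Type} [MeasurableSpace ι] (W : Set ℂ) (f : ℂ → ℝ) (lam : ℂ → ι) : ℝ :=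
  ∫ x in W, (CE W f lam x) ^ 2

/-- maximal energy at level `n` with `K` frequencies -/
def Emax (W : Set ℂ) (f : ℂ → ℝ) (n : ℤ) (K : ℕ) : ℝ :=
  sSup (range fun Ξ : ℤ × ℤ → ℕ → ℂ => En W f (lab n K Ξ))

end

end TriDil
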